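import Pool.Agent.P.MP_a60a76_nt.Sz.Zq

namespace Pool.Agent.P.MP_a60a76_nt.Sz

open UpperHalfPlane hiding J
open MeasureTheory SP
open scoped MatrixGroups UpperHalfPlane Matrix Modular Topology Classical ArithmeticFunction.sigma

noncomputable section

/-! The Frobenius congruence for expansions. -/

variable {K : Type} [NormedField K] [IsUltrametricDist K] {ι : ℂ →+* K} {F G : ℍ → ℂ} {l : ℕ}

theorem ZqF_dream {R : Type} [CommRing R] (hl : l.Prime) (A : Subring R) {x y : R} (hx : x ∈ A)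
    (hy : y ∈ A) : ∃ r ∈ A, (x - y) ^ l - (x ^ l - y ^ l) = l * r := by
  obtain ⟨r, hr⟩ := exists_add_pow_prime_eq hl (⟨x, hx⟩ - ⟨y, hy⟩ : A) ⟨y, hy⟩
  have h := congrArg A.subtype hr
  simp only [map_pow, map_add, map_mul, map_sub, map_natCast, Subring.subtype_apply,
    sub_add_cancel] at h
  exact ⟨-((x - y) * y * r), neg_mem (mul_mem (mul_mem (sub_mem hx hy) hy) r.2), by
    rw [h]; ring⟩

/-- The valuation ring. -/
def ZqF_O (K : Type) [NormedField K] [IsUltrametricDist K] : Subring K where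
  carrier := {x | ‖x‖ ≤ 1}
  mul_mem' := fun {a b} ha hb => (norm_mul a b).trans_le (mul_le_one₀ ha (norm_nonneg _) hb)
  one_mem' := norm_one.le
  add_mem' := fun {a b} ha hb => (IsUltrametricDist.norm_add_le_max a b).trans (max_le ha hb)
  zero_mem' := norm_zero.trans_le zero_le_one
  neg_mem' := fun {a} ha => (norm_neg a).trans_le ha

/-- The ring of functions with integral expansions. -/
def ZqF_Z (ι : ℂ →+* K) : Subring (ℍ → ℂ) where
  carrier := {F | Zq ι F}
  mul_mem' := fun ha hb => Zq.mul ha hb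
  one_mem' := zq_const (z := 1) (by simp)
  add_mem' := fun ha hb => Zq.add ha hb
  zero_mem' := zq_const (z := 0) (by simp)
  neg_mem' := fun ha => ((zq_const (z := 0) (by simp)).sub ha).congr fun _ => zero_sub _

omit [IsUltrametricDist K] in
theorem ZqF_lt (hι : ‖(l : K)‖ < 1) {r : K} (hr : ‖r‖ ≤ 1) : ‖l * r‖ < 1 := by
  rw [norm_mul]
  exact mul_lt_one_of_nonneg_of_lt_one_left (norm_nonneg _) hι hr

theorem norm_sub_pow_lt (hl : l.Prime) (hι : ‖(l : K)‖ < 1) {x y : K} (hx : ‖x‖ ≤ 1)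
    (hy : ‖y‖ ≤ 1) : ‖(x - y) ^ l - (x ^ l - y ^ l)‖ < 1 := by
  obtain ⟨r, hr, e⟩ := ZqF_dream hl (ZqF_O K) hx hy
  exact e ▸ ZqF_lt hι hr

theorem norm_int_pow_sub_lt (hl : l.Prime) (hι : ‖(l : K)‖ < 1) (n : ℤ) :
    ‖(n : K) - (n : K) ^ l‖ < 1 := by
  have := Fact.mk hl
  obtain ⟨k, hk⟩ := (ZMod.intCast_zmod_eq_zero_iff_dvd (n - n ^ l) l).1 (by
    push_cast
    rw [ZMod.pow_card, sub_self])
  have e : (n : K) - (n : K) ^ l = l * (k : K) := by exact_mod_cast congrArg (Int.cast : ℤ → K) hk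
  exact e ▸ ZqF_lt hι (IsUltrametricDist.norm_intCast_le_one K k)

theorem norm_root_sub_lt (hl : l.Prime) (hι : ‖(l : K)‖ < 1) {x : K} (hx : x ^ l = 1) :
    ‖x - 1‖ < 1 := by
  have h1 : ‖x‖ = 1 := Plc_norm_one hl.ne_zero (by rw [← norm_pow, hx, norm_one])
  have h2 := norm_sub_pow_lt hl hι h1.le norm_one.le
  rw [hx, one_pow, sub_self, sub_zero, norm_pow] at h2
  exact (pow_lt_one_iff_of_nonneg (norm_nonneg _) hl.ne_zero).1 h2

theorem zs_sub_pow (hl : l.Prime) (hι : ‖(l : K)‖ < 1) (hF : Zq ι F) (hG : Zq ι G) :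
    Zs ι fun τ => (F τ - G τ) ^ l - (F τ ^ l - G τ ^ l) := by
  obtain ⟨r, hr, e⟩ := ZqF_dream hl (ZqF_Z ι) hF hG
  exact ((zs_const (z := l) (by rwa [map_natCast])).mul hr).congr fun τ => (congrFun e τ).symm

theorem ZqF_coeff (hl : l.Prime) (hι : ‖(l : K)‖ < 1) (a : PowerSeries (Ai ι)) (n : ℕ) :
    PowerSeries.coeff n (a ^ l) - (if l ∣ n then PowerSeries.coeff (n / l) a ^ l else 0) ∈
      Par.Sepa_m ι := by
  have hp := Par.Sepa_prime ι
  have h0 : ((l : ℕ) : Ai ι ⧸ Par.Sepa_m ι) = 0 := by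
    rw [← map_natCast (Ideal.Quotient.mk (Par.Sepa_m ι)), Ideal.Quotient.eq_zero_iff_mem]
    show ‖ι ((l : Ai ι) : ℂ)‖ < 1
    rwa [SubringClass.coe_natCast, map_natCast]
  have hc := (CharP.charP_iff_prime_eq_zero hl).2 h0
  have he : ExpChar (Ai ι ⧸ Par.Sepa_m ι) l := .prime hl
  have h : PowerSeries.map (frobenius _ l) (PowerSeries.expand l hl.ne_zero
      (PowerSeries.map (Ideal.Quotient.mk (Par.Sepa_m ι)) a)) =
      PowerSeries.map (Ideal.Quotient.mk (Par.Sepa_m ι)) a ^ l :=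
    MvPowerSeries.map_frobenius_expand l hl.ne_zero
  have h1 := congrArg (PowerSeries.coeff n) h
  rw [← map_pow, PowerSeries.coeff_map, PowerSeries.coeff_map, PowerSeries.coeff_expand] at h1
  rw [← Ideal.Quotient.eq_zero_iff_mem, map_sub, ← h1, sub_eq_zero]
  split_ifs
  · rw [frobenius_def, PowerSeries.coeff_map, map_pow]
  · rw [map_zero, map_zero]

theorem ZqF_pow {a : PowerSeries ℂ} {q s : ℂ} (h : HasSum (fun k => PowerSeries.coeff k a * q ^ k) s)
    (n : ℕ) : HasSum (fun k => PowerSeries.coeff k (a ^ n) * q ^ k) (s ^ n) := by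
  induction n with
  | zero =>
    refine (hasSum_ite_eq (0 : ℕ) (s ^ 0)).congr_fun fun k => ?_
    rw [pow_zero, pow_zero, PowerSeries.coeff_one]
    split_ifs with hk
    · rw [hk, pow_zero, mul_one]
    · rw [zero_mul]
  | succ n ih =>
    have h1 := ih.summable.norm
    have h2 := h.summable.norm
    have h3 := (summable_norm_sum_mul_antidiagonal_of_summable_norm h1 h2).of_norm.hasSum
    rw [← tsum_mul_tsum_eq_tsum_sum_antidiagonal_of_summable_norm h1 h2, ih.tsum_eq,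
      h.tsum_eq, ← pow_succ] at h3
    refine h3.congr_fun fun k => ?_
    rw [pow_succ, PowerSeries.coeff_mul, Finset.sum_mul]
    refine Finset.sum_congr rfl fun x hx => ?_
    rw [← Finset.HasAntidiagonal.mem_antidiagonal.1 hx, pow_add]
    ring

theorem zs_frob (hl : l.Prime) (hι : ‖(l : K)‖ < 1) {N : ℕ} (hN : 0 < N) {c c' : ℤ → ℂ}
    (h : QS N c F) (h' : QS N c' G) (hc : ∀ ν, ‖ι (c ν)‖ ≤ 1)
    (e : ∀ ν, ‖ι (c' ν - c ν ^ l)‖ < 1) :
    Zs ι fun τ => G (mob !![(l : ℤ), 0; 0, 1] τ) - F τ ^ l := by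
  obtain ⟨L, hL, hL'⟩ : ∃ L : ℤ, (∀ ν < L, c ν = 0) ∧ ∀ ν < L, c' ν = 0 := by
    obtain ⟨L, hL⟩ := h.low
    obtain ⟨L', hL'⟩ := h'.low
    exact ⟨min L L', fun ν hν => hL ν (by omega), fun ν hν => hL' ν (by omega)⟩
  have hl' : (0 : ℤ) < l := by exact_mod_cast hl.pos
  set a : PowerSeries (Ai ι) := PowerSeries.mk fun n => ⟨c (L + n), hc _⟩ with ha
  have h1 : QS N (fun ν => if l * L ≤ ν then
      ((PowerSeries.coeff (ν - l * L).toNat (a ^ l) : Ai ι) : ℂ) else 0) fun τ => F τ ^ l := by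
    refine (QS.of_nat (N := N) (a := fun n => ((PowerSeries.coeff n (a ^ l) : Ai ι) : ℂ))
      (f := fun τ => (ee (-L * τ / N) * F τ) ^ l) (l * L) fun τ => ?_).congr (fun _ => rfl)
      fun τ => ?_
    · have := ZqF_pow (a := PowerSeries.map (Ai ι).subtype a) (by
        simpa only [PowerSeries.coeff_map, ha, PowerSeries.coeff_mk, Subring.subtype_apply] using
          h.to_nat hL τ) l
      simpa only [← map_pow, PowerSeries.coeff_map, Subring.subtype_apply] using this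
    · rw [mul_pow, ← ee_nat_mul, ← mul_assoc, ← ee_add]
      have : ((l * L : ℤ) : ℂ) * τ / N + l * (-L * τ / N) = 0 := by
        push_cast
        ring
      rw [this, ee_zero, one_mul]
  have h2 := h'.mob_tri hN hl.pos one_pos 0
  simp only [mul_one, Nat.cast_one, Int.cast_zero, mul_zero, zero_div, ee_zero] at h2
  refine ⟨N, _, hN, h2.sub h1, fun ν => ?_⟩
  by_cases hν : l * L ≤ ν
  · obtain ⟨n, rfl⟩ := Int.le.dest hν
    have h3 : ‖ι (((PowerSeries.coeff n (a ^ l) : Ai ι) : ℂ) -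
        ((if l ∣ n then PowerSeries.coeff (n / l) a ^ l else 0 : Ai ι) : ℂ))‖ < 1 :=
      ZqF_coeff hl hι a n
    rw [if_pos hν, add_sub_cancel_left, Int.toNat_natCast]
    by_cases hn : l ∣ n
    · obtain ⟨k, rfl⟩ := hn
      have e1 : (l : ℤ) * L + (l * k : ℕ) = l * (L + k) := by
        push_cast
        ring
      rw [if_pos (dvd_mul_right _ _), Nat.mul_div_cancel_left _ hl.pos, ha, PowerSeries.coeff_mk,
        ← ha, SubmonoidClass.coe_pow] at h3
      rw [e1, if_pos (dvd_mul_right _ _), Int.mul_ediv_cancel_left _ hl'.ne',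
        ← sub_sub_sub_cancel_right _ _ (c (L + k) ^ l), map_sub, sub_eq_add_neg]
      exact (IsUltrametricDist.norm_add_le_max _ _).trans_lt
        (max_lt (e _) ((norm_neg _).trans_lt h3))
    · rw [if_neg hn, ZeroMemClass.coe_zero, sub_zero] at h3
      rw [if_neg fun hd => hn (Int.natCast_dvd_natCast.1 ((dvd_add_right (dvd_mul_right _ _)).1 hd)),
        zero_sub, map_neg, norm_neg]
      exact h3
  · rw [if_neg hν, sub_zero]
    split_ifs with hd
    · obtain ⟨k, rfl⟩ := hd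
      rw [Int.mul_ediv_cancel_left _ hl'.ne', hL' k (lt_of_mul_lt_mul_left (not_le.1 hν) hl'.le)]
      simp
    · simp

theorem QZ.zs_frob (hl : l.Prime) (hι : ‖(l : K)‖ < 1) {L : ℤ} (h : QZ L F) (ι : ℂ →+* K) :
    Zs ι fun τ => F (mob !![(l : ℤ), 0; 0, 1] τ) - F τ ^ l := by
  obtain ⟨c, hc, -⟩ := h
  refine Sz.zs_frob hl hι one_pos hc hc (fun ν => norm_map_int ι _) fun ν => ?_
  rw [map_sub, map_pow, map_intCast]
  exact norm_int_pow_sub_lt hl hι _

end

end Pool.Agent.P.MP_a60a76_nt.Sz
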