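import Pool.Agent.P.MP_a60a76_nt.Sz.ModP
import Pool.Agent.P.MP_a60a76_nt.Sz.ZqF

namespace Pool.Agent.P.MP_a60a76_nt.Sz

open UpperHalfPlane hiding J
open MeasureTheory SP
open scoped MatrixGroups UpperHalfPlane Matrix Modular Topology Classical ArithmeticFunction.sigma

noncomputable section

/-! Lifting to points with complex multiplication. -/

variable {K : Type} [NormedField K] [IsUltrametricDist K] {ι : ℂ →+* K} {l : ℕ}

theorem Plv.norm_l (h : Plv ι l) (hl : l.Prime) : ‖(l : K)‖ < 1 := by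
  have := h l
  rw [Rat.cast_natCast, map_natCast] at this
  rw [this]
  exact_mod_cast padicNorm.padicNorm_p_lt_one hl.one_lt

theorem Plv.norm_nat (h : Plv ι l) (hl : l.Prime) {n : ℕ} (hn : ¬ l ∣ n) : ‖(n : K)‖ = 1 := by
  have : Fact l.Prime := ⟨hl⟩
  have := h n
  rw [Rat.cast_natCast, map_natCast, (padicNorm.nat_eq_one_iff n).2 hn] at this
  exact_mod_cast this

theorem Plv.norm_p (h : Plv ι l) (hl : l.Prime) {P : Par} (hne : l ≠ P.p) : ‖(P.p : K)‖ = 1 := by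
  exact h.norm_nat hl fun hd => hne ((Nat.prime_dvd_prime_iff_eq hl P.prime).1 hd)

theorem Plv.norm_six (h : Plv ι l) (hl : l.Prime) (h5 : 5 ≤ l) : ‖(6 : K)‖ = 1 := by
  have hd : ¬ l ∣ 6 := fun hd => by
    have h6 := Nat.le_of_dvd (by norm_num) hd
    interval_cases l
    · exact absurd hd (by norm_num)
    · exact absurd hl (by norm_num)
  exact_mod_cast h.norm_nat hl hd

theorem Plv.le_inv (h : Plv ι l) (hl : l.Prime) {q : ℚ} (hq : ‖ι q‖ < 1) :
    ‖ι q‖ ≤ (l : ℝ)⁻¹ := by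
  rw [h q] at hq ⊢
  by_cases h0 : q = 0
  · simp [h0]
  have : Fact l.Prime := ⟨hl⟩
  obtain ⟨z, hz⟩ := padicNorm.values_discrete (p := l) h0
  have h1 : (1 : ℝ) < l := by exact_mod_cast hl.one_lt
  rw [hz] at hq ⊢
  push_cast at hq ⊢
  rw [← zpow_neg_one]
  exact zpow_le_zpow_right₀ h1.le (by have := (zpow_lt_one_iff_right₀ h1).1 hq; omega)

theorem Deu_sub_lt {x y : ℂ} (hx : ‖ι x‖ < 1) (hy : ‖ι y‖ < 1) : ‖ι (x - y)‖ < 1 := by
  rw [map_sub, sub_eq_add_neg]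
  exact (IsUltrametricDist.norm_add_le_max _ _).trans_lt (max_lt hx (by rwa [norm_neg]))

theorem Deu_unit {x y : ℂ} (hx : ‖ι x‖ < 1) (hy : ‖ι y‖ = 1) : ‖ι (x + y)‖ = 1 := by
  rw [map_add, IsUltrametricDist.norm_add_eq_max_of_norm_ne_norm (by rw [hy]; exact hx.ne), hy,
    max_eq_right hx.le]

theorem Deu_sum_lt {κ : Type} (S : Finset κ) {f : κ → ℂ} (h : ∀ i ∈ S, ‖ι (f i)‖ < 1) :
    ‖ι (∑ i ∈ S, f i)‖ < 1 := by
  induction S using Finset.induction_on with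
  | empty => simp
  | insert i S hi ih =>
    rw [Finset.sum_insert hi, map_add]
    exact (IsUltrametricDist.norm_add_le_max _ _).trans_lt (max_lt (h i (Finset.mem_insert_self _ _))
      (ih fun j hj => h j (Finset.mem_insert_of_mem hj)))

theorem Deu_taylor {Q : Polynomial ℂ} (h : ∀ i, ‖ι (Q.coeff i)‖ < 1) {x : ℂ} (hx : ‖ι x‖ ≤ 1)
    (k : ℕ) : ‖ι ((Polynomial.taylor x Q).coeff k)‖ < 1 := by
  rw [Polynomial.taylor_apply, Polynomial.comp_eq_sum_left, Polynomial.sum_def,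
    Polynomial.finsetSum_coeff]
  refine Deu_sum_lt _ fun i _ => ?_
  rw [Polynomial.coeff_C_mul, Polynomial.coeff_X_add_C_pow, map_mul, norm_mul, map_mul, norm_mul,
    map_pow, norm_pow, map_natCast]
  exact mul_lt_one_of_nonneg_of_lt_one_left (norm_nonneg _) (h i)
    (mul_le_one₀ (pow_le_one₀ (norm_nonneg _) hx) (norm_nonneg _)
      (IsUltrametricDist.norm_natCast_le_one K _))

theorem Deu_fermat (hl : l.Prime) (hι : ‖(l : K)‖ < 1) {j : ℚ} (hj : ‖ι j‖ ≤ 1) :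
    ‖ι ((j : ℂ) ^ l - j)‖ < 1 := by
  have e : ((j.num : ℤ) : ℂ) = ((j.den : ℤ) : ℂ) * j := by
    have : (j.den : ℚ) * j = j.num := Rat.den_mul_eq_num j
    exact_mod_cast this.symm
  have hb : ‖ι ((j.den : ℤ) : ℂ)‖ = 1 := by
    refine le_antisymm (norm_map_int ι _) (not_lt.1 fun h => ?_)
    obtain ⟨u, v, huv⟩ : IsCoprime j.num (j.den : ℤ) := Int.isCoprime_iff_gcd_eq_one.2 j.reduced
    have h1 : (1 : ℂ) = (j.den : ℤ) * ((u : ℂ) * j - (-v : ℤ)) := by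
      have := congrArg (Int.cast : ℤ → ℂ) huv
      rw [Int.cast_add, Int.cast_mul, Int.cast_mul, e, Int.cast_one] at this
      rw [← this, Int.cast_neg]
      ring
    have h2 : ‖ι ((u : ℂ) * j - (-v : ℤ))‖ ≤ 1 := by
      rw [map_sub, sub_eq_add_neg]
      refine (IsUltrametricDist.norm_add_le_max _ _).trans (max_le ?_ ?_)
      · rw [map_mul, norm_mul]
        exact mul_le_one₀ (norm_map_int ι _) (norm_nonneg _) hj
      · rw [norm_neg]
        exact norm_map_int ι _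
    have h3 := mul_lt_one_of_nonneg_of_lt_one_left (norm_nonneg _) h h2
    rw [← norm_mul, ← map_mul, ← h1, map_one, norm_one] at h3
    exact lt_irrefl _ h3
  have hf : ∀ n : ℤ, ‖ι ((n : ℂ) - (n : ℂ) ^ l)‖ < 1 := fun n => by
    rw [map_sub, map_pow, map_intCast]
    exact norm_int_pow_sub_lt hl hι n
  have e2 : ((j.den : ℤ) : ℂ) ^ l * ((j : ℂ) ^ l - j) =
      (((j.den : ℤ) : ℂ) - ((j.den : ℤ) : ℂ) ^ l) * j - ((j.num : ℂ) - (j.num : ℂ) ^ l) := by
    rw [e, mul_pow]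
    ring
  have h4 : ‖ι (((j.den : ℤ) : ℂ) ^ l * ((j : ℂ) ^ l - j))‖ < 1 := by
    rw [e2]
    refine Deu_sub_lt ?_ (hf _)
    rw [map_mul, norm_mul]
    exact mul_lt_one_of_nonneg_of_lt_one_left (norm_nonneg _) (hf _) hj
  rwa [map_mul, norm_mul, map_pow, norm_pow, hb, one_pow, one_mul] at h4

theorem Deu_roots (ι : ℂ →+* K) {ρ : ℝ} (hρ : 0 < ρ) {a : ℂ} (ha : a ≠ 0) (S : Multiset ℂ)
    (h : ∀ z ∈ S, ρ < ‖ι z‖) (k : ℕ) :
    ‖ι ((Polynomial.C a * (S.map (Polynomial.X - Polynomial.C ·)).prod).coeff (k + 1))‖ *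
      ρ ^ (k + 1) < ‖ι ((Polynomial.C a * (S.map (Polynomial.X - Polynomial.C ·)).prod).coeff 0)‖ := by
  induction S using Multiset.induction_on generalizing k with
  | empty => simpa using ha
  | cons r S ih =>
    have hr := h r (Multiset.mem_cons_self _ _)
    replace ih := ih fun z hz => h z (Multiset.mem_cons_of_mem hz)
    rw [Multiset.map_cons, Multiset.prod_cons, mul_left_comm]
    generalize Polynomial.C a * (S.map (Polynomial.X - Polynomial.C ·)).prod = P at ih ⊢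
    have h0 : 0 < ‖ι (P.coeff 0)‖ := lt_of_le_of_lt (by positivity) (ih 0)
    have h1 : ‖ι (P.coeff k)‖ * ρ ^ k ≤ ‖ι (P.coeff 0)‖ := by
      cases k with
      | zero => simp
      | succ k => exact (ih k).le
    have e : ((Polynomial.X - Polynomial.C r) * P).coeff 0 = -(r * P.coeff 0) := by simp
    rw [Polynomial.coeff_X_sub_C_mul, e, map_neg, norm_neg, map_mul, norm_mul, map_sub,
      sub_eq_add_neg]
    refine (mul_le_mul_of_nonneg_right (IsUltrametricDist.norm_add_le_max _ _)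
      (by positivity)).trans_lt ?_
    rw [max_mul_of_nonneg _ _ (by positivity), norm_neg, map_mul, norm_mul, mul_assoc]
    refine max_lt ?_ (mul_lt_mul_of_pos_left (ih k) (hρ.trans hr))
    rw [pow_succ, ← mul_assoc, mul_comm ‖ι r‖]
    exact (mul_le_mul_of_nonneg_right h1 hρ.le).trans_lt (mul_lt_mul_of_pos_left hr h0)

theorem root_near (ι : ℂ →+* K) (R : Polynomial ℂ) {ρ : ℝ} (hρ : 0 < ρ)
    (h0 : ‖ι (R.coeff 0)‖ ≤ ρ ^ 2) (h2 : ‖ι (R.coeff 2)‖ = 1) :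
    ∃ z, R.eval z = 0 ∧ ‖ι z‖ ≤ ρ := by
  by_contra hn
  push Not at hn
  have h3 : R ≠ 0 := fun e => by simp [e] at h2
  have := Deu_roots ι hρ (Polynomial.leadingCoeff_ne_zero.2 h3) R.roots
    (fun z hz => hn z ((Polynomial.mem_roots h3).1 hz)) 1
  rw [← (IsAlgClosed.splits R).eq_prod_roots, h2, one_mul] at this
  exact absurd h0 (not_le.2 this)

theorem Deu_mp (hl : l.Prime) (τ : ℍ) : mp l τ = (J τ - J (mob !![(l : ℤ), 0; 0, 1] τ)) *
    ∏ b ∈ Finset.range l, (J τ - J (mob !![1, (b : ℤ); 0, l] τ)) := by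
  have h := congrArg Additive.toMul
    (sum_hnf l fun Z => Additive.ofMul (J τ - J (mob Z τ)))
  simp only [toMul_sum, toMul_ofMul] at h
  rw [mp, h, Nat.prod_divisorsAntidiagonal fun a d : ℕ => ∏ b ∈ Finset.range d,
    (J τ - J (mob !![(a : ℤ), (b : ℤ); 0, (d : ℤ)] τ)), hl.prod_divisors, Nat.div_self hl.pos,
    Nat.div_one, Finset.prod_range_one]
  rfl

theorem Deu_qs (hl : l.Prime) {c : ℤ → ℂ} {F : ℍ → ℂ} (h : QS 1 c F) (b : ℕ) :
    QS l (fun ν => c ν * (ee (1 / l) ^ b) ^ ν) fun τ => F (mob !![1, (b : ℤ); 0, l] τ) := by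
  have := h.mob_tri one_pos one_pos hl.pos b
  rw [one_mul] at this
  refine this.congr (fun ν => ?_) fun _ => rfl
  rw [← ee_nat_mul, ← ee_int_mul]
  simp only [Nat.cast_one, one_dvd, if_true, Int.ediv_one, Int.cast_natCast, one_mul]
  congr 2
  ring

theorem Deu_perm {d : ℕ} (hd : d.Coprime l) (g : ℕ → ℂ) :
    ∏ b ∈ Finset.range l, g (d * b % l) = ∏ b ∈ Finset.range l, g b := by
  have hi : Set.InjOn (fun b => d * b % l) (Finset.range l : Set ℕ) := fun a ha b hb e =>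
    Nat.ModEq.eq_of_lt_of_lt (Nat.ModEq.cancel_left_of_coprime hd.symm e)
      (Finset.mem_range.1 ha) (Finset.mem_range.1 hb)
  have h1 : (Finset.range l).image (fun b => d * b % l) = Finset.range l :=
    Finset.eq_of_subset_of_card_le (fun x hx => by
      obtain ⟨b, hb, rfl⟩ := Finset.mem_image.1 hx
      exact Finset.mem_range.2 (Nat.mod_lt _ (Nat.zero_lt_of_lt (Finset.mem_range.1 hb))))
      (Finset.card_image_of_injOn hi).ge
  conv_rhs => rw [← h1, Finset.prod_image hi]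

/-- The expansion of `G` is conjugate to the expansion of `F`. -/
def Deu_Cj (s : ℂ ≃ₐ[ℚ] ℂ) (N : ℕ) (F G : ℍ → ℂ) : Prop :=
  ∃ c, QS N c F ∧ QS N (fun ν => s (c ν)) G

theorem Deu_Cj.sub {s : ℂ ≃ₐ[ℚ] ℂ} {N : ℕ} {F G F' G' : ℍ → ℂ} (h : Deu_Cj s N F G)
    (h' : Deu_Cj s N F' G') : Deu_Cj s N (fun τ => F τ - F' τ) fun τ => G τ - G' τ := by
  obtain ⟨c, h1, h2⟩ := h
  obtain ⟨c', h1', h2'⟩ := h'
  exact ⟨_, h1.sub h1', (h2.sub h2').congr (fun ν => (map_sub s _ _).symm) fun _ => rfl⟩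

theorem Deu_Cj.mul {s : ℂ ≃ₐ[ℚ] ℂ} {N : ℕ} {F G F' G' : ℍ → ℂ} (h : Deu_Cj s N F G)
    (h' : Deu_Cj s N F' G') : Deu_Cj s N (fun τ => F τ * F' τ) fun τ => G τ * G' τ := by
  obtain ⟨c, h1, h2⟩ := h
  obtain ⟨c', h1', h2'⟩ := h'
  obtain ⟨L, hL⟩ := h1.low
  obtain ⟨L', hL'⟩ := h1'.low
  exact ⟨_, h1.mul h1' hL hL', (h2.mul h2' (L := L) (L' := L')
    (fun ν h => by rw [hL ν h, map_zero]) fun ν h => by rw [hL' ν h, map_zero]).congr
    (fun ν => by simp only [map_sum, map_mul]) fun _ => rfl⟩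

theorem Deu_Cj.prod {s : ℂ ≃ₐ[ℚ] ℂ} {N : ℕ} (S : Finset ℕ) {F G : ℕ → ℍ → ℂ}
    (h : ∀ i ∈ S, Deu_Cj s N (F i) (G i)) :
    Deu_Cj s N (fun τ => ∏ i ∈ S, F i τ) fun τ => ∏ i ∈ S, G i τ := by
  induction S using Finset.induction_on with
  | empty =>
    exact ⟨_, (QS.single N 0 1).congr (fun _ => rfl) fun τ => by simp [ee_zero],
      (QS.single N 0 1).congr (fun ν => by split_ifs <;> simp) fun τ => by simp [ee_zero]⟩
  | insert i S hi ih =>
    simp only [Finset.prod_insert hi]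
    exact (h i (Finset.mem_insert_self _ _)).mul (ih fun j hj => h j (Finset.mem_insert_of_mem hj))

theorem mp_rat (hl : l.Prime) : ∃ Q : Polynomial ℚ, ∀ τ, mp l τ = Polynomial.aeval (J τ) Q := by
  have : NeZero l := ⟨hl.ne_zero⟩
  obtain ⟨cJ, hJ, -, -⟩ := qz_J_pow 1
  replace hJ := hJ.congr (fun _ => rfl) fun τ => pow_one (J τ)
  have hζ : IsPrimitiveRoot (ee (1 / l)) l := by
    rw [ee, mul_one_div]
    exact Complex.isPrimitiveRoot_exp l hl.ne_zero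
  have key : ∀ s : ℂ ≃ₐ[ℚ] ℂ, Deu_Cj s l (mp l) (mp l) := by
    intro s
    obtain ⟨d, -, hd, e⟩ := hζ.isPrimitiveRoot_iff.1 (hζ.map_of_injective s.injective)
    have hJ' := hJ.scale hl.pos
    have hA := (hJ.mob_tri one_pos hl.pos one_pos 0).scale hl.pos
    rw [mul_one] at hJ'
    rw [mul_one, mul_one] at hA
    have h1 : Deu_Cj s l J J :=
      ⟨_, hJ', hJ'.congr (fun ν => by split_ifs <;> simp) fun _ => rfl⟩
    have h2 : Deu_Cj s l (fun τ => J (mob !![(l : ℤ), 0; 0, 1] τ))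
        (fun τ => J (mob !![(l : ℤ), 0; 0, 1] τ)) :=
      ⟨_, hA, hA.congr (fun ν => by split_ifs <;> simp [ee_zero]) fun _ => rfl⟩
    have h3 : ∀ b : ℕ, Deu_Cj s l (fun τ => J (mob !![1, (b : ℤ); 0, l] τ))
        (fun τ => J (mob !![1, ((d * b % l : ℕ) : ℤ); 0, l] τ)) := fun b =>
      ⟨_, Deu_qs hl hJ b, (Deu_qs hl hJ (d * b % l)).congr (fun ν => by
        rw [map_mul, map_intCast, map_zpow₀, map_pow, ← e, ← pow_mul,
          ← pow_eq_pow_mod _ hζ.pow_eq_one]) fun _ => rfl⟩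
    have h4 := (h1.sub h2).mul (Deu_Cj.prod (Finset.range l) fun b _ => h1.sub (h3 b))
    obtain ⟨c, h5, h6⟩ := h4
    refine ⟨c, h5.congr (fun _ => rfl) fun τ => (Deu_mp hl τ).symm,
      h6.congr (fun _ => rfl) fun τ => ?_⟩
    rw [Deu_mp hl, Deu_perm hd fun b => J τ - J (mob !![1, (b : ℤ); 0, l] τ)]
  obtain ⟨c, hc, -⟩ := key 1
  obtain ⟨Q, h1, h2, -⟩ := lev_one hl.pos hc (mp_smul hl.pos)
    (algebraMap ℚ ℂ).range.toAddSubgroup fun ν => fix_rat _ fun s => by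
      obtain ⟨c', h3, h4⟩ := key s
      rw [hc.unique hl.pos h3]
      exact congrFun (h4.unique hl.pos h3) ν
  obtain ⟨Q', rfl⟩ := (Polynomial.mem_lifts Q).1 ((Polynomial.lifts_iff_coeff_lifts Q).2 h1)
  exact ⟨Q', fun τ => by rw [h2, Polynomial.eval_map_algebraMap]⟩

theorem mp_cong (hl : l.Prime) (ι : ℂ →+* K) (hι : ‖(l : K)‖ < 1) :
    Zs ι fun τ => mp l τ + (J τ ^ l - J τ) ^ 2 := by
  obtain ⟨cJ, hJ, h0⟩ := qz_J_pow 1
  replace hJ := hJ.congr (fun _ => rfl) fun τ => pow_one (J τ)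
  have hz : QZ (-(1 : ℕ)) J := ⟨cJ, hJ, h0⟩
  have qJ : Zq ι J := hz.zq ι
  have qA : Zq ι fun τ => J (mob !![(l : ℤ), 0; 0, 1] τ) := qJ.mob_tri hl.pos one_pos 0
  have qb : ∀ b : ℕ, Zq ι fun τ => J (mob !![1, (b : ℤ); 0, l] τ) := fun b =>
    qJ.mob_tri one_pos hl.pos b
  have sA := hz.zs_frob hl hι ι
  have sb : ∀ b : ℕ, Zs ι fun τ => J (mob !![1, ((0 : ℕ) : ℤ); 0, l] τ) -
      J (mob !![1, (b : ℤ); 0, l] τ) := fun b =>
    ⟨l, _, hl.pos, (Deu_qs hl hJ 0).sub (Deu_qs hl hJ b), fun ν => by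
      have h1 : ι ((ee (1 / l) ^ b) ^ ν) ^ l = 1 := by
        rw [← map_pow, ← zpow_natCast, ← zpow_mul, mul_comm, zpow_mul, zpow_natCast, ← pow_mul,
          mul_comm, pow_mul, ← ee_nat_mul, mul_one_div_cancel (by exact_mod_cast hl.ne_zero),
          ← Int.cast_one, ee_int, one_pow, one_zpow, map_one]
      rw [pow_zero, one_zpow, ← mul_sub, map_mul, norm_mul, map_sub, map_one, norm_sub_rev]
      exact mul_lt_one_of_nonneg_of_lt_one_right (norm_map_int ι _) (norm_nonneg _)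
        (norm_root_sub_lt hl hι h1)⟩
  have s0 : Zs ι fun τ => J τ - J (mob !![1, ((0 : ℕ) : ℤ); 0, l] τ) ^ l := by
    refine (sA.mob_tri one_pos hl.pos 0).congr fun τ => ?_
    have h1 : (l : ℂ) ≠ 0 := by exact_mod_cast hl.ne_zero
    have h2 : mob !![(l : ℤ), 0; 0, 1] (mob !![((1 : ℕ) : ℤ), 0; 0, l] τ) = τ := by
      apply UpperHalfPlane.ext
      rw [coe_mob (by simpa using hl.pos), coe_mob (by simpa using hl.pos)]
      simp [dn, mul_div_cancel₀ _ h1]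
    rw [h2]
    rfl
  have sP := zs_prod_sub (ι := ι) (Finset.range l) (fun b _ => qJ.sub (qb b))
    (fun _ _ => qJ.sub (qb 0)) fun b _ => (sb b).congr fun τ => by ring
  have sQ := (sP.add (zs_sub_pow hl hι qJ (qb 0))).add s0
  refine (((qJ.sub qA).mul_zs sQ).sub (((qJ.pow l).sub qJ).mul_zs sA)).congr fun τ => ?_
  rw [Deu_mp hl, Finset.prod_const, Finset.card_range]
  ring

theorem deuring (hl : l.Prime) (hι : Plv ι l) {j : ℚ} (hj : ‖ι j‖ ≤ 1) :
    ∃ (s : ℍ) (Y : MZ), Rm Y s s = 0 ∧ Y.det = l ∧ ‖ι (j - J s)‖ ^ 2 ≤ (l : ℝ)⁻¹ := by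
  have hl1 := hι.norm_l hl
  obtain ⟨Q, hQ⟩ := mp_rat hl
  obtain ⟨Q', h1, h2⟩ := (mp_cong hl ι hl1).poly fun g τ => by rw [mp_smul hl.pos, SP.J_smul]
  have e : Q.map (algebraMap ℚ ℂ) = Q' - (Polynomial.X ^ l - Polynomial.X) ^ 2 :=
    poly_J_ext fun τ => by
      rw [Polynomial.eval_map_algebraMap, ← hQ, Polynomial.eval_sub, ← h2]
      simp
  set D : Polynomial ℂ := (Polynomial.X + Polynomial.C (j : ℂ)) ^ l -
    (Polynomial.X + Polynomial.C (j : ℂ)) with hD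
  have eR : Polynomial.taylor (j : ℂ) (Q.map (algebraMap ℚ ℂ)) =
      Polynomial.taylor (j : ℂ) Q' - D * D := by
    rw [e, map_sub, Polynomial.taylor_pow, map_sub, Polynomial.taylor_pow, Polynomial.taylor_X,
      pow_two]
  have d0 : ‖ι (D.coeff 0)‖ < 1 := by
    have : D.coeff 0 = (j : ℂ) ^ l - j := by simp [hD, Polynomial.coeff_X_add_C_pow]
    rw [this]
    exact Deu_fermat hl hl1 hj
  have d1 : ‖ι (D.coeff 1)‖ = 1 := by
    have : D.coeff 1 = (j : ℂ) ^ (l - 1) * l + -1 := by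
      simp [hD, Polynomial.coeff_X_add_C_pow, Polynomial.coeff_C, sub_eq_add_neg]
    rw [this]
    refine Deu_unit ?_ (by simp)
    rw [map_mul, map_pow, norm_mul, norm_pow, map_natCast]
    exact mul_lt_one_of_nonneg_of_lt_one_right (pow_le_one₀ (norm_nonneg _) hj) (norm_nonneg _) hl1
  have d2 : ‖ι (D.coeff 2)‖ ≤ 1 := by
    have : D.coeff 2 = (j : ℂ) ^ (l - 2) * (l.choose 2 : ℕ) := by
      simp [hD, Polynomial.coeff_X_add_C_pow, Polynomial.coeff_C, Polynomial.coeff_X]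
    rw [this, map_mul, map_pow, norm_mul, norm_pow, map_natCast]
    exact mul_le_one₀ (pow_le_one₀ (norm_nonneg _) hj) (norm_nonneg _)
      (IsUltrametricDist.norm_natCast_le_one K _)
  have d02 : ‖ι (D.coeff 0 * D.coeff 2)‖ < 1 := by
    rw [map_mul, norm_mul]
    exact mul_lt_one_of_nonneg_of_lt_one_left (norm_nonneg _) d0 d2
  have hρ : (0 : ℝ) < (l : ℝ)⁻¹ := inv_pos.2 (by exact_mod_cast hl.pos)
  obtain ⟨z, z1, z2⟩ := root_near ι (Polynomial.taylor (j : ℂ) (Q.map (algebraMap ℚ ℂ)))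
    (Real.sqrt_pos.2 hρ) (by
      have h3 : (Polynomial.taylor (j : ℂ) (Q.map (algebraMap ℚ ℂ))).coeff 0 =
          ((Q.eval j : ℚ) : ℂ) := by
        rw [Polynomial.taylor_coeff_zero]
        exact Polynomial.eval_map_apply (algebraMap ℚ ℂ) j
      rw [Real.sq_sqrt hρ.le, h3]
      refine hι.le_inv hl ?_
      rw [← h3, eR, Polynomial.coeff_sub, Polynomial.mul_coeff_zero]
      refine Deu_sub_lt (Deu_taylor h1 hj 0) ?_
      rw [map_mul, norm_mul]
      exact mul_lt_one_of_nonneg_of_lt_one_left (norm_nonneg _) d0 d0.le) (by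
      have h3 : (D * D).coeff 2 = D.coeff 0 * D.coeff 2 + D.coeff 0 * D.coeff 2 +
          D.coeff 1 * D.coeff 1 := by
        rw [Polynomial.coeff_mul, Finset.Nat.sum_antidiagonal_succ,
          Finset.Nat.sum_antidiagonal_succ]
        simp
        ring
      rw [eR, Polynomial.coeff_sub, h3, ← sub_sub, ← sub_sub, sub_eq_add_neg]
      refine Deu_unit (Deu_sub_lt (Deu_sub_lt (Deu_taylor h1 hj 2) d02) d02) ?_
      rw [map_neg, norm_neg, map_mul, norm_mul, d1, one_mul])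
  obtain ⟨s, hs⟩ := J_surj (z + j)
  obtain ⟨Y, y1, y2⟩ := (mp_eq_zero_iff hl.pos s).1 (by
    rw [hQ, hs, ← Polynomial.eval_map_algebraMap, ← Polynomial.taylor_eval, z1])
  refine ⟨s, Y, y1, y2, ?_⟩
  rw [hs, sub_add_cancel_right, map_neg, norm_neg, ← Real.sq_sqrt hρ.le]
  exact pow_le_pow_left₀ (norm_nonneg _) z2 2

end

end Pool.Agent.P.MP_a60a76_nt.Sz
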