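import Pool.Agent.P.MP_a60a76_nt.Sz.Base

namespace Pool.Agent.P.MP_a60a76_nt.Sz

open UpperHalfPlane MeasureTheory SP
open scoped MatrixGroups UpperHalfPlane Matrix Modular Topology Classical ArithmeticFunction.sigma

noncomputable section

/-! An element of the inertia group which moves a root of `l`. -/

section Iner_general

open Polynomial

variable {L K : Type} [Field L] [NormedField K] [IsUltrametricDist K] [Algebra L K]

/-- Polynomials of Gauss norm one. -/
def Iner_good (K : Type) [NormedField K] [Algebra L K] (g : L[X]) : Prop :=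
  (∀ i, ‖algebraMap L K (g.coeff i)‖ ≤ 1) ∧ ∃ i, ‖algebraMap L K (g.coeff i)‖ = 1

omit [IsUltrametricDist K] in
theorem Iner_normalise {h : L[X]} (h0 : h ≠ 0) : ∃ c : L, c ≠ 0 ∧ Iner_good K (C c⁻¹ * h) := by
  obtain ⟨j, hj, hmax⟩ := Finset.exists_max_image h.support
    (fun i => ‖algebraMap L K (h.coeff i)‖) (support_nonempty.2 h0)
  have hc : h.coeff j ≠ 0 := mem_support_iff.1 hj
  have hpos : 0 < ‖algebraMap L K (h.coeff j)‖ := norm_pos_iff.2 ((_root_.map_ne_zero _).2 hc)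
  refine ⟨h.coeff j, hc, fun i => ?_, j, ?_⟩
  · rw [coeff_C_mul, map_mul, map_inv₀, norm_mul, norm_inv, inv_mul_le_one₀ hpos]
    by_cases hi : i ∈ h.support
    · exact hmax i hi
    · rw [notMem_support_iff.1 hi, map_zero, norm_zero]
      exact hpos.le
  · rw [coeff_C_mul, inv_mul_cancel₀ hc, map_one, norm_one]

theorem Iner_pow_sub {a z : K} (ha : ‖a‖ ≤ 1) (hz : ‖z‖ ≤ 1) (n : ℕ) :
    ‖a ^ n - z ^ n‖ ≤ ‖a - z‖ := by
  induction n with
  | zero => simp
  | succ n ih =>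
    have e : a ^ (n + 1) - z ^ (n + 1) = a * (a ^ n - z ^ n) + z ^ n * (a - z) := by ring
    rw [e]
    refine (IsUltrametricDist.norm_add_le_max _ _).trans (max_le ?_ ?_)
    · rw [norm_mul]
      exact (mul_le_of_le_one_left (norm_nonneg _) ha).trans ih
    · rw [norm_mul, norm_pow]
      exact mul_le_of_le_one_left (norm_nonneg _) (pow_le_one₀ (norm_nonneg _) hz)

theorem Iner_aeval_le {g : L[X]} (hg : Iner_good K g) {z : K} (hz : ‖z‖ ≤ 1) :
    ‖aeval z g‖ ≤ 1 := by
  rw [aeval_eq_sum_range]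
  refine IsUltrametricDist.norm_sum_le_of_forall_le_of_nonneg zero_le_one fun i _ => ?_
  rw [Algebra.smul_def, norm_mul, norm_pow]
  exact mul_le_one₀ (hg.1 i) (by positivity) (pow_le_one₀ (norm_nonneg _) hz)

theorem Iner_aeval_sub {g : L[X]} (hg : Iner_good K g) {a z : K} (ha : ‖a‖ ≤ 1) (hz : ‖z‖ ≤ 1) :
    ‖aeval a g - aeval z g‖ ≤ ‖a - z‖ := by
  rw [aeval_eq_sum_range, aeval_eq_sum_range, ← Finset.sum_sub_distrib]
  refine IsUltrametricDist.norm_sum_le_of_forall_le_of_nonneg (norm_nonneg _) fun i _ => ?_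
  rw [← smul_sub, Algebra.smul_def, norm_mul]
  exact (mul_le_of_le_one_left (norm_nonneg _) (hg.1 i)).trans (Iner_pow_sub ha hz i)

theorem Iner_sub_lt {x y : K} (hx : ‖x‖ < 1) (hy : ‖y‖ < 1) : ‖x - y‖ < 1 := by
  rw [sub_eq_add_neg]
  exact (IsUltrametricDist.norm_add_le_max _ _).trans_lt (max_lt hx (by rwa [norm_neg]))

/-- Every residue class contains an element which generates an extension with the same norms. -/
theorem Iner_unramified [IsAlgClosed K] {z : K} (hz : ‖z‖ ≤ 1) (halg : IsAlgebraic L z) :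
    ∃ a : K, ‖z - a‖ < 1 ∧ IsAlgebraic L a ∧
      ∀ h : L[X], ∃ c : L, ‖aeval a h‖ = ‖algebraMap L K c‖ := by
  have hex : ∃ n, ∃ g : L[X], Iner_good K g ∧ ‖aeval z g‖ < 1 ∧ g.natDegree = n := by
    obtain ⟨h, h0, hh⟩ := halg
    obtain ⟨c, -, hc⟩ := Iner_normalise (K := K) h0
    exact ⟨_, _, hc, by rw [map_mul, hh, mul_zero, norm_zero]; exact one_pos, rfl⟩
  obtain ⟨g, hg, hgz, hgn⟩ := Nat.find_spec hex
  have hmin : ∀ g' : L[X], Iner_good K g' → g'.natDegree < g.natDegree → 1 ≤ ‖aeval z g'‖ := by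
    intro g' h1 h2
    by_contra h3
    exact Nat.find_min hex (hgn ▸ h2) ⟨g', h1, not_le.1 h3, rfl⟩
  have hg0 : g ≠ 0 := by
    rintro rfl
    simpa using hg.2
  have hlc : ‖algebraMap L K g.leadingCoeff‖ = 1 := by
    by_contra h1
    have h2 : ‖algebraMap L K g.leadingCoeff‖ < 1 := lt_of_le_of_ne (hg.1 _) h1
    obtain ⟨j, hj⟩ := hg.2
    have hj' : j ≠ g.natDegree := by
      rintro rfl
      exact h1 hj
    have h3 : Iner_good K g.eraseLead := by
      refine ⟨fun i => ?_, j, by rwa [eraseLead_coeff_of_ne _ hj']⟩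
      rw [eraseLead_coeff]
      split_ifs
      · simp
      · exact hg.1 i
    rcases eraseLead_natDegree_lt_or_eraseLead_eq_zero g with h4 | h4
    · refine absurd (hmin _ h3 h4) (not_le.2 ?_)
      rw [← self_sub_C_mul_X_pow, map_sub, map_mul, map_pow, aeval_C, aeval_X]
      refine Iner_sub_lt hgz ?_
      rw [norm_mul, norm_pow]
      exact (mul_le_of_le_one_right (norm_nonneg _) (pow_le_one₀ (norm_nonneg _) hz)).trans_lt h2
    · rw [h4] at h3
      simpa using h3.2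
  obtain ⟨a, ha, haz⟩ : ∃ a ∈ (g.map (algebraMap L K)).roots, ‖z - a‖ < 1 := by
    by_contra h1
    push Not at h1
    have h2 := (IsAlgClosed.splits (g.map (algebraMap L K))).eval_eq_prod_roots z
    rw [eval_map_algebraMap, leadingCoeff_map] at h2
    rw [h2, norm_mul, hlc, one_mul] at hgz
    refine absurd hgz (not_lt.2 ?_)
    refine Multiset.prod_induction (fun x : K => 1 ≤ ‖x‖) _ (fun x y hx hy => ?_) (by simp) ?_
    · rw [norm_mul]
      exact one_le_mul_of_one_le_of_one_le hx hy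
    · intro x hx
      obtain ⟨a, ha, rfl⟩ := Multiset.mem_map.1 hx
      exact h1 a ha
  have hga : aeval a g = 0 := by
    rw [← eval_map_algebraMap]
    exact isRoot_of_mem_roots ha
  have ha1 : ‖a‖ ≤ 1 := by
    have : a = z + -(z - a) := by ring
    rw [this]
    exact (IsUltrametricDist.norm_add_le_max _ _).trans (max_le hz (by rw [norm_neg]; exact haz.le))
  refine ⟨a, haz, ⟨g, hg0, hga⟩, fun h => ?_⟩
  have e : aeval a h = aeval a (h % g) := by
    conv_lhs => rw [← EuclideanDomain.div_add_mod h g, map_add, map_mul, hga, zero_mul, zero_add]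
  rw [e]
  by_cases h0 : h % g = 0
  · exact ⟨0, by rw [h0, map_zero, map_zero]⟩
  obtain ⟨c, hc0, hc⟩ := Iner_normalise (K := K) h0
  have h1 : 1 ≤ ‖aeval z (C c⁻¹ * (h % g))‖ := hmin _ hc (by
    rw [natDegree_C_mul (inv_ne_zero hc0)]
    exact natDegree_lt_natDegree h0 (degree_mod_lt h hg0))
  have h2 : ‖aeval a (C c⁻¹ * (h % g))‖ = 1 := by
    refine le_antisymm (Iner_aeval_le hc ha1) (not_lt.1 fun h3 => ?_)
    have h4 := Iner_sub_lt h3 ((Iner_aeval_sub hc ha1 hz).trans_lt (by rwa [norm_sub_rev]))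
    rw [sub_sub_cancel] at h4
    exact absurd h1 (not_le.2 h4)
  rw [map_mul, aeval_C, map_inv₀, norm_mul, norm_inv,
    inv_mul_eq_one₀ (norm_ne_zero_iff.2 ((_root_.map_ne_zero _).2 hc0))] at h2
  exact ⟨c, h2.symm⟩

/-- A maximal subfield whose norms avoid a given value meets every residue class. -/
theorem Iner_exists_field {k : Type} [Field k] [Algebra k K] [IsAlgClosed K]
    [Algebra.IsAlgebraic k K] (ρ : ℝ) (hρ : ∀ x : k, ‖algebraMap k K x‖ ≠ ρ) :
    ∃ M : IntermediateField k K, (∀ x ∈ M, ‖x‖ ≠ ρ) ∧ ∀ z : K, ‖z‖ ≤ 1 → ∃ a ∈ M, ‖z - a‖ < 1 := by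
  obtain ⟨M, -, hM⟩ := zorn_le_nonempty₀ {M : IntermediateField k K | ∀ x ∈ M, ‖x‖ ≠ ρ}
    (fun c hc hch y hy => by
      refine ⟨sSup c, fun x hx => ?_, fun z hz => le_sSup hz⟩
      have : Nonempty c := ⟨⟨y, hy⟩⟩
      rw [sSup_eq_iSup', ← SetLike.mem_coe,
        IntermediateField.coe_iSup_of_directed hch.directedOn.directed_val, Set.mem_iUnion] at hx
      obtain ⟨N, hN⟩ := hx
      exact hc N.2 x hN) ⊥ (fun x hx => by
      obtain ⟨y, rfl⟩ := IntermediateField.mem_bot.1 hx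
      exact hρ y)
  refine ⟨M, hM.prop, fun z hz => ?_⟩
  obtain ⟨a, haz, ha, h⟩ := Iner_unramified (L := M) hz (Algebra.IsAlgebraic.isAlgebraic z)
  refine ⟨a, ?_, haz⟩
  have h1 : M ≤ (IntermediateField.adjoin M {a}).restrictScalars k := fun x hx =>
    (IntermediateField.adjoin M {a}).algebraMap_mem ⟨x, hx⟩
  refine hM.le_of_ge (fun x hx => ?_) h1 (IntermediateField.mem_adjoin_simple_self M a)
  have h2 : x ∈ Algebra.adjoin M {a} := by
    rw [← IntermediateField.adjoin_simple_toSubalgebra_of_isAlgebraic ha]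
    exact hx
  rw [Algebra.adjoin_singleton_eq_range_aeval] at h2
  obtain ⟨g, rfl⟩ := h2
  obtain ⟨c, hc⟩ := h g
  exact hc.trans_ne (hM.prop _ c.2)

end Iner_general

theorem Iner_alg (l : ℕ) [Fact l.Prime] {p : ℕ} (hp : p.Prime) :
    ∃ s : PadicAlgCl l ≃ₐ[ℚ_[l]] PadicAlgCl l,
      (∀ z, ‖z‖ ≤ 1 → ‖s z - z‖ < 1) ∧ ∃ r : PadicAlgCl l, r ^ p = l ∧ s r ≠ r := by
  obtain ⟨r, hr⟩ := IsAlgClosed.exists_pow_nat_eq (l : PadicAlgCl l) hp.pos
  have hl : (1 : ℝ) < l := by exact_mod_cast (Fact.out : l.Prime).one_lt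
  have hrn : ‖r‖ ^ p = (l : ℝ) ^ (-1 : ℤ) := by
    rw [← norm_pow, hr, ← map_natCast (algebraMap ℚ_[l] (PadicAlgCl l)), PadicAlgCl.norm_extends,
      Padic.norm_p, zpow_neg_one]
  obtain ⟨M, hM, hres⟩ := Iner_exists_field (k := ℚ_[l]) (K := PadicAlgCl l) ‖r‖ fun x hx => by
    rw [PadicAlgCl.norm_extends] at hx
    rw [← hx] at hrn
    by_cases h0 : x = 0
    · rw [h0, norm_zero, zero_pow hp.ne_zero] at hrn
      exact absurd hrn (zpow_pos (by linarith) _).ne
    · rw [Padic.norm_eq_zpow_neg_valuation h0, ← zpow_natCast, ← zpow_mul,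
        zpow_right_inj₀ (by linarith) hl.ne'] at hrn
      have h1 : (p : ℤ) ∣ 1 := ⟨x.valuation, by linarith⟩
      exact hp.one_lt.ne' (Nat.dvd_one.1 (by exact_mod_cast h1))
  have hrM : r ∉ IntermediateField.fixedField M.fixingSubgroup := by
    rw [InfiniteGalois.fixedField_fixingSubgroup]
    exact fun h => hM r h rfl
  rw [IntermediateField.mem_fixedField_iff] at hrM
  push Not at hrM
  obtain ⟨s, hs, hsr⟩ := hrM
  refine ⟨s, fun z hz => ?_, r, hr, hsr⟩
  obtain ⟨a, ha, hza⟩ := hres z hz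
  have h1 : s z - z = s (z - a) - (z - a) := by
    rw [map_sub, (IntermediateField.mem_fixingSubgroup_iff _ _).1 hs a ha]
    ring
  rw [h1]
  exact Iner_sub_lt (by rwa [← PadicAlgCl.spectralNorm_eq, ← spectralNorm_eq_of_equiv]) hza

theorem exists_inertia (l : ℕ) [Fact l.Prime] {p : ℕ} (hp : p.Prime) (hl : l ≠ p) :
    ∃ s : PadicComplex l ≃+* PadicComplex l, (∀ x, ‖s x‖ = ‖x‖) ∧
      (∀ z, ‖z‖ ≤ 1 → ‖s z - z‖ < 1) ∧ ∃ r : PadicComplex l, r ^ p = l ∧ s r ≠ r := by
  obtain ⟨s, hs, r, hr, hsr⟩ := Iner_alg l hp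
  have hiso : ∀ t : PadicAlgCl l ≃ₐ[ℚ_[l]] PadicAlgCl l, ∀ x, ‖t x‖ = ‖x‖ := fun t x =>
    (spectralNorm_eq_of_equiv t x).symm
  have hc : ∀ t : PadicAlgCl l ≃ₐ[ℚ_[l]] PadicAlgCl l, Continuous t := fun t =>
    (AddMonoidHomClass.isometry_of_norm t (hiso t)).continuous
  let S := UniformSpace.Completion.mapRingEquiv s.toRingEquiv (hc s) (hc s.symm)
  have hS : ∀ x : PadicAlgCl l, S x = s x := fun x =>
    UniformSpace.Completion.mapRingHom_coe (f := s.toRingEquiv.toRingHom) (hc s) x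
  have hSc : Continuous S := UniformSpace.Completion.continuous_map
  have hn : ∀ x, ‖S x‖ = ‖x‖ := fun x => by
    induction x using UniformSpace.Completion.induction_on with
    | hp => exact isClosed_eq hSc.norm continuous_norm
    | ih a => rw [hS, PadicComplex.norm_extends, PadicComplex.norm_extends, hiso]
  refine ⟨S, hn, fun z hz => ?_, r, ?_, ?_⟩
  · obtain ⟨a, ha⟩ := UniformSpace.Completion.denseRange_coe.exists_dist_lt z one_pos
    rw [dist_eq_norm] at ha
    have ha1 : ‖a‖ ≤ 1 := by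
      have : (a : PadicComplex l) = z + -(z - a) := by ring
      rw [← PadicComplex.norm_extends, this]
      exact (IsUltrametricDist.norm_add_le_max _ _).trans (max_le hz (by rw [norm_neg]; exact ha.le))
    have h1 : S z - z = S (z - a) - (z - a) - ((a - s a : PadicAlgCl l) : PadicComplex l) := by
      rw [map_sub, hS, UniformSpace.Completion.coe_sub]
      ring
    rw [h1]
    refine Iner_sub_lt (Iner_sub_lt (by rwa [hn]) ha) ?_
    rw [PadicComplex.norm_extends, norm_sub_rev]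
    exact hs a ha1
  · rw [PadicComplex.coe_eq, ← map_pow, hr, map_natCast]
  · rw [hS]
    exact fun h => hsr (UniformSpace.Completion.coe_injective _ h)

end

end Pool.Agent.P.MP_a60a76_nt.Sz
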