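import Pool.Agent.P.MP_a60a76_nt.Sz.Lev1

namespace Pool.Agent.P.MP_a60a76_nt.Sz

open UpperHalfPlane MeasureTheory SP
open scoped MatrixGroups UpperHalfPlane Matrix Modular Topology Classical ArithmeticFunction.sigma

noncomputable section

/-! The parameter of the degenerate uniformisation. -/

variable {K : Type} [NormedField K] [IsUltrametricDist K] [CompleteSpace K]

theorem hasSum_evq (a : ℕ → ℤ) {q : K} (hq : ‖q‖ < 1) :
    HasSum (fun n => (a n : K) * q ^ n) (evq a q) := by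
  refine Summable.hasSum (Summable.of_norm_bounded
    (summable_geometric_of_lt_one (norm_nonneg q) hq) fun n => ?_)
  rw [norm_mul, norm_pow]
  exact mul_le_of_le_one_left (pow_nonneg (norm_nonneg q) n)
    (IsUltrametricDist.norm_intCast_le_one K (a n))

theorem TPar_succ (a : ℕ → ℤ) {q : K} (hq : ‖q‖ < 1) :
    evq a q = a 0 + q * evq (fun n => a (n + 1)) q := by
  have h1 := (hasSum_evq (fun n => a (n + 1)) hq).mul_left q
  have h2 : HasSum (fun n => (a (n + 1) : K) * q ^ (n + 1)) (q * evq (fun n => a (n + 1)) q) := by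
    refine h1.congr' ?_ |>.trans le_rfl
    exact Filter.Eventually.of_forall fun s => Finset.sum_congr rfl fun n _ => by ring
  have h3 := (hasSum_nat_add_iff (f := fun n => (a n : K) * q ^ n) 1).1 h2
  rw [(hasSum_evq a hq).unique h3]
  simp [add_comm]

omit [CompleteSpace K] in
theorem TPar_le (a : ℕ → ℤ) {q : K} (hq : ‖q‖ < 1) : ‖evq a q‖ ≤ 1 := by
  refine IsUltrametricDist.norm_tsum_le_of_forall_le_of_nonneg zero_le_one fun n => ?_
  rw [norm_mul, norm_pow]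
  exact mul_le_one₀ (IsUltrametricDist.norm_intCast_le_one K (a n))
    (pow_nonneg (norm_nonneg q) n) (pow_le_one₀ (norm_nonneg q) hq.le)

theorem TPar_one {a : ℕ → ℤ} (h : a 0 = 1) {q : K} (hq : ‖q‖ < 1) : ‖evq a q‖ = 1 := by
  rw [TPar_succ a hq, h, Int.cast_one]
  have h1 : ‖q * evq (fun n => a (n + 1)) q‖ < 1 := by
    rw [norm_mul]
    exact lt_of_le_of_lt (mul_le_of_le_one_right (norm_nonneg q) (TPar_le _ hq)) hq
  rw [IsUltrametricDist.norm_add_eq_max_of_norm_ne_norm (by rw [norm_one]; exact h1.ne'), norm_one]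
  exact max_eq_left h1.le

theorem TPar_dlc {q : K} (hq : ‖q‖ < 1) : evq dlc q = q * evq (fun n => dlc (n + 1)) q := by
  rw [TPar_succ dlc hq, dlc_zero, Int.cast_zero, zero_add]

theorem norm_evq_dlc {q : K} (hq : ‖q‖ < 1) : ‖evq dlc q‖ = ‖q‖ := by
  rw [TPar_dlc hq, norm_mul, TPar_one (a := fun n => dlc (n + 1)) dlc_one hq, mul_one]

theorem map_evq (s : K ≃+* K) (hs : ∀ x, ‖s x‖ = ‖x‖) (a : ℕ → ℤ) {q : K} (hq : ‖q‖ < 1) :
    s (evq a q) = evq a (s q) := by
  have hc : Continuous s := (AddMonoidHomClass.isometry_of_norm s hs).continuous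
  have h1 := (hasSum_evq a hq).map s hc
  have h2 := hasSum_evq a (q := s q) (by rwa [hs])
  refine h1.unique ?_
  convert h2 using 1
  ext n
  simp

omit [CompleteSpace K] in
theorem TPar_pow {x y : K} (hx : ‖x‖ ≤ 1) (hy : ‖y‖ ≤ 1) (n : ℕ) : ‖x ^ n - y ^ n‖ ≤ ‖x - y‖ := by
  induction n with
  | zero => simp
  | succ n ih =>
    have : x ^ (n + 1) - y ^ (n + 1) = x * (x ^ n - y ^ n) + (x - y) * y ^ n := by ring
    rw [this]
    refine (IsUltrametricDist.norm_add_le_max _ _).trans (max_le ?_ ?_)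
    · rw [norm_mul]
      exact (mul_le_of_le_one_left (norm_nonneg _) hx).trans ih
    · rw [norm_mul, norm_pow]
      exact mul_le_of_le_one_right (norm_nonneg _) (pow_le_one₀ (norm_nonneg _) hy)

theorem TPar_lip (a : ℕ → ℤ) {x y : K} (hx : ‖x‖ < 1) (hy : ‖y‖ < 1) :
    ‖evq a x - evq a y‖ ≤ ‖x - y‖ := by
  rw [← ((hasSum_evq a hx).sub (hasSum_evq a hy)).tsum_eq]
  refine IsUltrametricDist.norm_tsum_le_of_forall_le_of_nonneg (norm_nonneg _) fun n => ?_
  rw [← mul_sub, norm_mul]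
  exact (mul_le_of_le_one_left (norm_nonneg _)
    (IsUltrametricDist.norm_intCast_le_one K (a n))).trans (TPar_pow hx.le hy.le n)

/-- The map whose fixed point is the parameter. -/
def TPar_F (j q : K) : K := j⁻¹ * (evq e4c q ^ 3 / evq (fun n => dlc (n + 1)) q)

theorem TPar_e4 : e4c 0 = 1 := by simp [e4c]

theorem TPar_norm_F (j : K) {q : K} (hq : ‖q‖ < 1) : ‖TPar_F j q‖ = ‖j‖⁻¹ := by
  rw [TPar_F, norm_mul, norm_div, norm_pow, TPar_one TPar_e4 hq,
    TPar_one (a := fun n => dlc (n + 1)) dlc_one hq, norm_inv]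
  simp

theorem TPar_F_lip (j : K) {x y : K} (hx : ‖x‖ < 1) (hy : ‖y‖ < 1) :
    ‖TPar_F j x - TPar_F j y‖ ≤ ‖j‖⁻¹ * ‖x - y‖ := by
  have dx := TPar_one (a := fun n => dlc (n + 1)) dlc_one hx
  have dy := TPar_one (a := fun n => dlc (n + 1)) dlc_one hy
  have ex := TPar_one TPar_e4 hx
  have ey := TPar_one TPar_e4 hy
  have l1 := TPar_lip (fun n => dlc (n + 1)) hy hx
  have l2 := (TPar_pow ex.le ey.le 3).trans (TPar_lip e4c hx hy)
  rw [norm_sub_rev y x] at l1
  rw [TPar_F, TPar_F, ← mul_sub, norm_mul, norm_inv]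
  refine mul_le_mul_of_nonneg_left ?_ (inv_nonneg.2 (norm_nonneg _))
  have dx0 : evq (fun n => dlc (n + 1)) x ≠ 0 := by
    rw [← norm_ne_zero_iff, dx]
    exact one_ne_zero
  have dy0 : evq (fun n => dlc (n + 1)) y ≠ 0 := by
    rw [← norm_ne_zero_iff, dy]
    exact one_ne_zero
  rw [div_sub_div _ _ dx0 dy0, norm_div, norm_mul, dx, dy, mul_one, div_one]
  have : evq e4c x ^ 3 * evq (fun n => dlc (n + 1)) y - evq (fun n => dlc (n + 1)) x * evq e4c y ^ 3
      = (evq e4c x ^ 3 - evq e4c y ^ 3) * evq (fun n => dlc (n + 1)) y +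
        evq e4c y ^ 3 * (evq (fun n => dlc (n + 1)) y - evq (fun n => dlc (n + 1)) x) := by ring
  rw [this]
  refine (IsUltrametricDist.norm_add_le_max _ _).trans (max_le ?_ ?_)
  · rw [norm_mul, dy, mul_one]
    exact l2
  · rw [norm_mul, norm_pow, ey, one_pow, one_mul]
    exact l1

theorem exists_tate {j : K} (hj : 1 < ‖j‖) : ∃ q : K, ‖q‖ = ‖j‖⁻¹ ∧
    evq e4c q ^ 3 = j * evq dlc q ∧
      ∀ s : K ≃+* K, (∀ x, ‖s x‖ = ‖x‖) → s j = j → s q = q := by
  have hr : ‖j‖⁻¹ < 1 := inv_lt_one_of_one_lt₀ hj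
  have hr0 : 0 ≤ ‖j‖⁻¹ := inv_nonneg.2 (norm_nonneg _)
  have hj0 : j ≠ 0 := by
    rw [← norm_ne_zero_iff]
    linarith
  have hb : ∀ x ∈ Metric.closedBall (0 : K) ‖j‖⁻¹, ‖x‖ < 1 := fun x hx =>
    lt_of_le_of_lt (mem_closedBall_zero_iff.1 hx) hr
  have hm : Set.MapsTo (TPar_F j) (Metric.closedBall (0 : K) ‖j‖⁻¹)
      (Metric.closedBall (0 : K) ‖j‖⁻¹) := fun x hx =>
    mem_closedBall_zero_iff.2 (TPar_norm_F j (hb x hx)).le
  have hc : ContractingWith ⟨‖j‖⁻¹, hr0⟩ (hm.restrict (TPar_F j) _ _) := by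
    refine ⟨hr, LipschitzWith.of_dist_le_mul fun x y => ?_⟩
    rw [Subtype.dist_eq, Subtype.dist_eq, dist_eq_norm, dist_eq_norm]
    exact TPar_F_lip j (hb x x.2) (hb y y.2)
  obtain ⟨q, hq, hfix, -⟩ := ContractingWith.exists_fixedPoint' Metric.isClosed_closedBall.isComplete
    hm hc (Metric.mem_closedBall_self hr0) (edist_ne_top _ _)
  have hq1 := hb q hq
  have hfix' : TPar_F j q = q := hfix
  have d0 : evq (fun n => dlc (n + 1)) q ≠ 0 := by
    rw [← norm_ne_zero_iff, TPar_one (a := fun n => dlc (n + 1)) dlc_one hq1]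
    exact one_ne_zero
  refine ⟨q, by rw [← hfix', TPar_norm_F j hq1], ?_, fun s hs hsj => ?_⟩
  · rw [TPar_dlc hq1]
    nth_rewrite 2 [← hfix']
    rw [TPar_F]
    field_simp
  · have hs1 : ‖s q‖ < 1 := by rwa [hs]
    have h1 : TPar_F j (s q) = s q := by
      conv_rhs => rw [← hfix']
      rw [TPar_F, TPar_F, map_mul, map_inv₀, hsj, map_div₀, map_pow, map_evq s hs _ hq1,
        map_evq s hs _ hq1]
    have h2 := TPar_F_lip j hs1 hq1
    rw [h1, hfix'] at h2
    have h3 : ‖s q - q‖ ≤ 0 := by nlinarith [norm_nonneg (s q - q)]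
    exact sub_eq_zero.1 (norm_le_zero_iff.1 h3)

end

end Pool.Agent.P.MP_a60a76_nt.Sz
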