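import Pool.Agent.P.MP_a60a76_nt.Sz.Conj
import Pool.Agent.P.MP_a60a76_nt.Sz.TPar

namespace Pool.Agent.P.MP_a60a76_nt.Sz

open UpperHalfPlane MeasureTheory SP
open scoped MatrixGroups UpperHalfPlane Matrix Modular Topology Classical ArithmeticFunction.sigma

noncomputable section

/-! Evaluation of families at the degenerate parameters. -/

section

variable {K : Type} [NormedField K] [IsUltrametricDist K] [CompleteSpace K] {φ : ℂ →+* K}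
  {s t : K}

theorem Tate_ab {a : PS} (h : InA (Ai φ) a) (hs : ‖s‖ < 1) (ht : ‖t‖ < 1) : Ab φ a s t :=
  ab_of_bdd (fun d => h d) hs ht

omit [IsUltrametricDist K] in
theorem Tate_sum {ι : Type} (S : Finset ι) {a : ι → PS} (h : ∀ i ∈ S, Ab φ (a i) s t) :
    Ab φ (∑ i ∈ S, a i) s t ∧ ev φ (∑ i ∈ S, a i) s t = ∑ i ∈ S, ev φ (a i) s t := by
  induction S using Finset.induction_on with
  | empty =>
    have h0 := ab_C φ 0 s t
    simpa using h0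
  | insert i S hi ih =>
    have h1 := ih fun j hj => h j (Finset.mem_insert_of_mem hj)
    have h2 := (h i (Finset.mem_insert_self _ _)).add h1.1
    rw [Finset.sum_insert hi, Finset.sum_insert hi, h2.2, h1.2]
    exact ⟨h2.1, rfl⟩

theorem Tate_es (P : Par) (b : ℕ → ℤ) (hs : ‖s‖ < 1) (ht : ‖t‖ < 1) :
    (Ab φ (in1 (P.es b)) s t ∧ ev φ (in1 (P.es b)) s t = evq b (s ^ P.p)) ∧
      Ab φ (in2 (P.es b)) s t ∧ ev φ (in2 (P.es b)) s t = evq b (t ^ P.p) := by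
  have h1 := Par.inA_in (A := Ai φ) (P.es_mem b (Ai φ))
  have h2 := P.ev_es φ b hs ht
  exact ⟨⟨Tate_ab h1.1 hs ht, h2.1⟩, Tate_ab h1.2 hs ht, h2.2⟩

theorem Tate_D2 (P : Par) (hs : ‖s‖ < 1) (ht : ‖t‖ < 1) :
    Ab φ P.D2 s t ∧ ev φ P.D2 s t = evq dlc (s ^ P.p) * evq dlc (t ^ P.p) := by
  have h := Tate_es (φ := φ) P dlc hs ht
  have h2 := h.1.1.mul h.2.1
  rw [h.1.2, h.2.2] at h2
  exact h2

omit [IsUltrametricDist K] [CompleteSpace K] in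
theorem Tate_pow_lt (P : Par) (hs : ‖s‖ < 1) : ‖s ^ P.p‖ < 1 := by
  rw [norm_pow]
  exact pow_lt_one₀ (norm_nonneg _) hs P.prime.ne_zero

theorem Tate_ne (P : Par) (hs0 : s ≠ 0) (hs : ‖s‖ < 1) : evq dlc (s ^ P.p) ≠ 0 := by
  rw [← norm_ne_zero_iff, norm_evq_dlc (Tate_pow_lt P hs), norm_ne_zero_iff]
  exact pow_ne_zero _ hs0

/-- The normalised value does not depend on the order chosen. -/
theorem Tate_wd {P : Par} {n n' : ℕ} {f : P.GG → ℍ → ℍ → ℂ} {a a' : P.GG → PS}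
    (h : P.Fam (Ai φ) n f a) (h' : P.Fam (Ai φ) n' f a') (hs0 : s ≠ 0) (ht0 : t ≠ 0)
    (hs : ‖s‖ < 1) (ht : ‖t‖ < 1) (γ : P.GG) :
    ev φ (a γ) s t / (evq dlc (s ^ P.p) * evq dlc (t ^ P.p)) ^ n =
      ev φ (a' γ) s t / (evq dlc (s ^ P.p) * evq dlc (t ^ P.p)) ^ n' := by
  have hD : evq dlc (s ^ P.p) * evq dlc (t ^ P.p) ≠ 0 :=
    mul_ne_zero (Tate_ne P hs0 hs) (Tate_ne P ht0 ht)
  have h1 := h.raise n'
  have h2 := h'.raise n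
  rw [add_comm] at h2
  have h3 : a γ * P.D2 ^ n' = a' γ * P.D2 ^ n := congrFun (h1.unique h2) γ
  have hd := Tate_D2 (φ := φ) P hs ht
  have h4 := ((Tate_ab (h.mem γ) hs ht).mul (hd.1.pow n').1).2
  have h5 := ((Tate_ab (h'.mem γ) hs ht).mul (hd.1.pow n).1).2
  rw [(hd.1.pow _).2, hd.2] at h4 h5
  rw [div_eq_div_iff (pow_ne_zero _ hD) (pow_ne_zero _ hD), ← h4, ← h5, h3]

/-- The normalised value of a family. -/
def Tate_val (P : Par) (φ : ℂ →+* K) (s t : K) (f : P.famRing (Ai φ)) : K :=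
  ev φ (f.2.choose_spec.choose 1) s t / (evq dlc (s ^ P.p) * evq dlc (t ^ P.p)) ^ f.2.choose

theorem Tate_val_eq {P : Par} (f : P.famRing (Ai φ)) {n : ℕ} {a : P.GG → PS}
    (h : P.Fam (Ai φ) n f.1 a) (hs0 : s ≠ 0) (ht0 : t ≠ 0) (hs : ‖s‖ < 1) (ht : ‖t‖ < 1) :
    Tate_val P φ s t f = ev φ (a 1) s t / (evq dlc (s ^ P.p) * evq dlc (t ^ P.p)) ^ n :=
  Tate_wd f.2.choose_spec.choose_spec h hs0 ht0 hs ht 1

/-- The normalised value as a homomorphism. -/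
def Tate_hom (P : Par) (φ : ℂ →+* K) (hs0 : s ≠ 0) (ht0 : t ≠ 0) (hs : ‖s‖ < 1) (ht : ‖t‖ < 1) :
    P.famRing (Ai φ) →+* K where
  toFun := Tate_val P φ s t
  map_one' := by
    rw [Tate_val_eq (1 : P.famRing (Ai φ)) (P.fam_one _) hs0 ht0 hs ht]
    simpa using (ab_one φ s t).2
  map_mul' f g := by
    obtain ⟨n, a, h⟩ := f.2
    obtain ⟨n', a', h'⟩ := g.2
    rw [Tate_val_eq (f * g) (h.mul h') hs0 ht0 hs ht, Tate_val_eq f h hs0 ht0 hs ht,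
      Tate_val_eq g h' hs0 ht0 hs ht, Pi.mul_apply,
      ((Tate_ab (h.mem 1) hs ht).mul (Tate_ab (h'.mem 1) hs ht)).2, pow_add, div_mul_div_comm]
  map_zero' := by
    rw [Tate_val_eq (0 : P.famRing (Ai φ)) (P.fam_zero _ 0) hs0 ht0 hs ht]
    simp [ev]
  map_add' f g := by
    obtain ⟨n, a, h⟩ := f.2
    obtain ⟨n', a', h'⟩ := g.2
    have h1 := h.raise n'
    have h2 := h'.raise n
    rw [add_comm] at h2
    rw [Tate_val_eq (f + g) (h1.add h2) hs0 ht0 hs ht, Tate_val_eq f h1 hs0 ht0 hs ht,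
      Tate_val_eq g h2 hs0 ht0 hs ht, Pi.add_apply,
      ((Tate_ab (h1.mem 1) hs ht).add (Tate_ab (h2.mem 1) hs ht)).2, add_div]

/-- Evaluation at a point. -/
def Tate_pt (P : Par) (A : Subring ℂ) (φ : ℂ →+* K) (t₁ t₂ : ℍ) : P.famRing A →+* K where
  toFun f := φ (f.1 1 t₁ t₂)
  map_one' := map_one φ
  map_mul' _ _ := map_mul φ _ _
  map_zero' := map_zero φ
  map_add' _ _ := map_add φ _ _

theorem Tate_inv {P : Par} {n : ℕ} {f : P.GG → ℍ → ℍ → ℂ} {a : P.GG → PS} {t₁ t₂ : ℍ}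
    (h : P.Fam (Ai φ) n f a) (hi : ∀ γ, f γ = f 1) (hs : ‖s‖ < 1) (ht : ‖t‖ < 1)
    (h₁ : evq e4c (s ^ P.p) ^ 3 = φ (J t₁) * evq dlc (s ^ P.p))
    (h₂ : evq e4c (t ^ P.p) ^ 3 = φ (J t₂) * evq dlc (t ^ P.p)) :
    φ (f 1 t₁ t₂) * (evq dlc (s ^ P.p) * evq dlc (t ^ P.p)) ^ n = ev φ (a 1) s t := by
  obtain ⟨Q, -, hf, ha⟩ := h.inv hi
  have he := Tate_es (φ := φ) P e4c hs ht
  have hd := Tate_es (φ := φ) P dlc hs ht
  have key : ∀ i j : ℕ, Ab φ (MvPowerSeries.C (Q i j : ℂ) *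
      (in1 (P.es e4c) ^ (3 * i) * in1 P.dls ^ (n - i) *
        (in2 (P.es e4c) ^ (3 * j) * in2 P.dls ^ (n - j)))) s t ∧
      ev φ (MvPowerSeries.C (Q i j : ℂ) * (in1 (P.es e4c) ^ (3 * i) * in1 P.dls ^ (n - i) *
        (in2 (P.es e4c) ^ (3 * j) * in2 P.dls ^ (n - j)))) s t =
      φ (Q i j) * (evq e4c (s ^ P.p) ^ (3 * i) * evq dlc (s ^ P.p) ^ (n - i) *
        (evq e4c (t ^ P.p) ^ (3 * j) * evq dlc (t ^ P.p) ^ (n - j))) := by
    intro i j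
    rw [P.dls_eq]
    have a1 := he.1.1.pow (3 * i)
    have a2 := hd.1.1.pow (n - i)
    have a3 := he.2.1.pow (3 * j)
    have a4 := hd.2.1.pow (n - j)
    have a5 := a1.1.mul a2.1
    have a6 := a3.1.mul a4.1
    have a7 := a5.1.mul a6.1
    have a8 := (ab_C φ (Q i j : ℂ) s t).1.mul a7.1
    refine ⟨a8.1, ?_⟩
    rw [a8.2, a7.2, a6.2, a5.2, a4.2, a3.2, a2.2, a1.2, (ab_C φ (Q i j : ℂ) s t).2, he.1.2, he.2.2,
      hd.1.2, hd.2.2]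
  rw [ha, (Tate_sum _ fun i _ => (Tate_sum _ fun j _ => (key i j).1).1).2, hf, map_sum,
    Finset.sum_mul]
  refine Finset.sum_congr rfl fun i hi => ?_
  rw [(Tate_sum _ fun j _ => (key i j).1).2, map_sum, Finset.sum_mul]
  refine Finset.sum_congr rfl fun j hj => ?_
  have hi' : i ≤ n := Nat.lt_succ_iff.mp (Finset.mem_range.mp hi)
  have hj' : j ≤ n := Nat.lt_succ_iff.mp (Finset.mem_range.mp hj)
  have e1 : evq dlc (s ^ P.p) ^ n = evq dlc (s ^ P.p) ^ i * evq dlc (s ^ P.p) ^ (n - i) := by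
    rw [← pow_add, Nat.add_sub_cancel' hi']
  have e2 : evq dlc (t ^ P.p) ^ n = evq dlc (t ^ P.p) ^ j * evq dlc (t ^ P.p) ^ (n - j) := by
    rw [← pow_add, Nat.add_sub_cancel' hj']
  rw [(key i j).2, pow_mul, pow_mul, h₁, h₂, mul_pow, e1, e2, map_mul, map_mul, map_pow, map_pow,
    mul_pow, mul_pow]
  ring

theorem Tate_dg_one (P : Par) : P.diagG (P.dg 1) = 1 := by
  have h : P.dg 1 = 1 := by
    ext i j
    rw [P.coe_dg]
    fin_cases i <;> fin_cases j <;> simp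
  rw [h]
  rfl

omit [CompleteSpace K] in
theorem Tate_fix {P : Par} (ι : ℂ ≃+* K) {n : ℕ} {f : P.GG → ℍ → ℍ → ℂ} {a : P.GG → PS}
    (h : P.Fam (Ai (ι : ℂ →+* K)) n f a) (sg : K ≃+* K) (hz : sg (ι (P.zp 1)) = ι (P.zp 1))
    (γ : P.GG) (d : Fin 2 →₀ ℕ) :
    sg (ι (MvPowerSeries.coeff d (a γ))) = ι (MvPowerSeries.coeff d (a γ)) := by
  have h1 := h.gal (ι.trans (sg.trans ι.symm)) 1 (by simp [hz]) γ
  rw [Tate_dg_one, mul_one] at h1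
  have h2 := congrArg (fun x => ι (MvPowerSeries.coeff d x)) h1
  simp only [MvPowerSeries.coeff_map] at h2
  simpa using h2.symm

omit [IsUltrametricDist K] [CompleteSpace K] in
theorem Tate_cont (sg : K ≃+* K) (hn : ∀ z, ‖sg z‖ = ‖z‖) : Continuous sg :=
  (AddMonoidHomClass.isometry_of_norm sg hn).continuous

theorem Tate_map_ev {P : Par} (ι : ℂ ≃+* K) {n : ℕ} {f : P.GG → ℍ → ℍ → ℂ} {a : P.GG → PS}
    (h : P.Fam (Ai (ι : ℂ →+* K)) n f a) (sg : K ≃+* K) (hn : ∀ z, ‖sg z‖ = ‖z‖)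
    (hz : sg (ι (P.zp 1)) = ι (P.zp 1)) {x y : ℤ} (hx : sg s = ι (P.zp x) * s)
    (hy : sg t = ι (P.zp y) * t) (hs : ‖s‖ < 1) (ht : ‖t‖ < 1) (γ : P.GG) :
    sg (ev (ι : ℂ →+* K) (a γ) s t) =
      ev (ι : ℂ →+* K) (a (γ * P.rG (ModularGroup.T ^ x) (ModularGroup.T ^ y))) s t := by
  have h1 := (Tate_ab (h.mem γ) hs ht).summable.hasSum.map sg (Tate_cont sg hn)
  rw [ev, ← h1.tsum_eq, ev]
  refine tsum_congr fun d => ?_
  have h2 := h.coeff_T γ x y (d 0) (d 1)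
  rw [ixx_eta] at h2
  have h3 := Tate_fix ι h sg hz γ d
  simp only [Function.comp_apply, map_mul, map_pow, hx, hy, h2, RingHom.coe_coe, h3]
  ring

theorem Tate_map_D (P : Par) (ι : ℂ ≃+* K) (sg : K ≃+* K) (hn : ∀ z, ‖sg z‖ = ‖z‖) {x : P.F}
    (hx : sg s = ι (P.zp x) * s) (hs : ‖s‖ < 1) :
    sg (evq dlc (s ^ P.p)) = evq dlc (s ^ P.p) := by
  rw [map_evq sg hn dlc (Tate_pow_lt P hs), map_pow, hx, mul_pow, ← map_pow, P.zp_pow_p, map_one,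
    one_mul]

end

namespace Par

variable (P : Par) {K : Type} [NormedField K] [IsUltrametricDist K] [CompleteSpace K]

theorem tate (ι : ℂ ≃+* K) {t₁ t₂ : ℍ} {s t : K} (hs0 : s ≠ 0) (ht0 : t ≠ 0) (hs : ‖s‖ < 1)
    (ht : ‖t‖ < 1) (h₁ : evq e4c (s ^ P.p) ^ 3 = ι (J t₁) * evq dlc (s ^ P.p))
    (h₂ : evq e4c (t ^ P.p) ^ 3 = ι (J t₂) * evq dlc (t ^ P.p)) : ∃ δ : P.GG,
    (∀ n f a, P.Fam (Ai (ι : ℂ →+* K)) n f a →
      ι (f 1 t₁ t₂) * (evq dlc (s ^ P.p) * evq dlc (t ^ P.p)) ^ n = ev (ι : ℂ →+* K) (a δ) s t) ∧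
    ∀ (sg : K ≃+* K) (x y : ℤ), (∀ z, ‖sg z‖ = ‖z‖) → sg (ι (P.zp 1)) = ι (P.zp 1) →
      sg s = ι (P.zp x) * s → sg t = ι (P.zp y) * t →
      ∀ n f a, P.Fam (Ai (ι : ℂ →+* K)) n f a → sg (ι (f 1 t₁ t₂)) =
        ι (f (δ * P.rG (ModularGroup.T ^ x) (ModularGroup.T ^ y) * δ⁻¹) t₁ t₂) := by
  have : CharZero K := (RingHom.charZero_iff (ϕ := (ι : ℂ →+* K)) ι.injective).mp inferInstance
  have hD : evq dlc (s ^ P.p) * evq dlc (t ^ P.p) ≠ 0 :=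
    mul_ne_zero (Tate_ne P hs0 hs) (Tate_ne P ht0 ht)
  obtain ⟨δ, hδ⟩ := P.fam_conj (Ai (ι : ℂ →+* K)) (Tate_pt P _ (ι : ℂ →+* K) t₁ t₂)
    (Tate_hom P (ι : ℂ →+* K) hs0 ht0 hs ht) (by
      intro f hf
      obtain ⟨n, a, h⟩ := f.2
      change _ = Tate_val P _ s t f
      rw [Tate_val_eq f h hs0 ht0 hs ht, eq_div_iff (pow_ne_zero _ hD)]
      exact Tate_inv h hf hs ht h₁ h₂)
  have one : ∀ n f a, P.Fam (Ai (ι : ℂ →+* K)) n f a →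
      ι (f 1 t₁ t₂) * (evq dlc (s ^ P.p) * evq dlc (t ^ P.p)) ^ n =
        ev (ι : ℂ →+* K) (a δ) s t := by
    intro n f a h
    have h1 := hδ ⟨f, n, a, h⟩
    change ι (f 1 t₁ t₂) = Tate_val P _ s t _ at h1
    rw [Tate_val_eq _ (h.translate δ) hs0 ht0 hs ht, eq_div_iff (pow_ne_zero _ hD), mul_one] at h1
    exact h1
  refine ⟨δ, one, fun sg x y hn hz hx hy n f a h => ?_⟩
  have h1 := congrArg sg (one n f a h)
  rw [map_mul, map_pow, map_mul, Tate_map_D P ι sg hn hx hs, Tate_map_D P ι sg hn hy ht,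
    Tate_map_ev ι h sg hn hz hx hy hs ht] at h1
  have h2 := one n _ _ (h.translate (δ * P.rG (ModularGroup.T ^ x) (ModularGroup.T ^ y) * δ⁻¹))
  simp only [mul_one, inv_mul_cancel_right] at h2
  exact mul_right_cancel₀ (pow_ne_zero n hD) (h1.trans h2.symm)

theorem tate_one (ι : ℂ ≃+* K) {t₁ : ℍ} {s : K} (hs0 : s ≠ 0) (hs : ‖s‖ < 1)
    (h₁ : evq e4c (s ^ P.p) ^ 3 = ι (J t₁) * evq dlc (s ^ P.p)) : ∃ δ : P.GF,
    (∀ n f a, P.Fam1 (Ai (ι : ℂ →+* K)) n f a →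
      HasSum (fun k => ι (a δ k) * s ^ k) (ι (f 1 t₁) * evq dlc (s ^ P.p) ^ n)) ∧
    ∀ (sg : K ≃+* K) (x : ℤ), (∀ z, ‖sg z‖ = ‖z‖) → sg (ι (P.zp 1)) = ι (P.zp 1) →
      sg s = ι (P.zp x) * s → ∀ n f a, P.Fam1 (Ai (ι : ℂ →+* K)) n f a →
        sg (ι (f 1 t₁)) = ι (f (δ * P.rg (ModularGroup.T ^ x) * δ⁻¹) t₁) := by
  obtain ⟨δ, h1, h2⟩ := P.tate ι hs0 hs0 hs hs h₁ h₁
  refine ⟨δ.1.1, fun n f a h => ?_, fun sg x hn hz hx n f a h => h2 sg x x hn hz hx hx n _ _ h.fst⟩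
  have h3 := h1 n _ _ h.fst
  have hsum : Summable fun k => ‖(ι : ℂ →+* K) (a δ.1.1 k)‖ * ‖s‖ ^ k := by
    refine Summable.of_nonneg_of_le (fun k => by positivity) (fun k => ?_)
      (summable_geometric_of_lt_one (norm_nonneg s) hs)
    exact mul_le_of_le_one_left (by positivity) (h.mem δ.1.1 k)
  have h4 := ab_in1 hsum s
  have hd := Tate_es (φ := (ι : ℂ →+* K)) P dlc hs hs
  have h5 := hd.2.1.pow n
  rw [P.dls_eq, (h4.1.mul h5.1).2, h4.2, h5.2, hd.2.2, mul_pow, ← mul_assoc] at h3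
  have h6 := mul_right_cancel₀ (pow_ne_zero n (Tate_ne P hs0 hs)) h3
  have h7 : Summable fun k => (ι : ℂ →+* K) (a δ.1.1 k) * s ^ k := by
    refine Summable.of_norm ?_
    simpa only [norm_mul, norm_pow] using hsum
  have h8 := h7.hasSum
  rw [← h6] at h8
  exact h8

end Par

end

end Pool.Agent.P.MP_a60a76_nt.Sz
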