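import Pool.Agent.P.MP_a60a76_nt.Sz.Inv

namespace Pool.Agent.P.MP_a60a76_nt.Sz

open UpperHalfPlane MeasureTheory SP
open scoped MatrixGroups UpperHalfPlane Matrix Modular Topology Classical ArithmeticFunction.sigma

noncomputable section

/-! Conjugacy of homomorphisms and its first consequences. -/

open scoped Pointwise in
/-- Two homomorphisms which agree on the invariants are conjugate. -/
theorem hom_conj {G B K : Type} [Finite G] [CommRing B] [Field K] [CharZero K]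
    (ρ : G → B →+* B) (e : G) (h1 : ∀ b, ρ e b = b)
    (hm : ∀ g, ∃ r : G ≃ G, ∀ h b, ρ g (ρ h b) = ρ (r h) b) (φ ψ : B →+* K)
    (h : ∀ b, (∀ g, ρ g b = b) → φ b = ψ b) : ∃ δ, ∀ b, φ b = ψ (ρ δ b) := by
  have := Fintype.ofFinite G
  have hroot : ∀ b, ∃ δ, φ b = ψ (ρ δ b) := by
    intro b
    let q : Polynomial B := ∏ k, (Polynomial.X - Polynomial.C (ρ k b))
    have hq : ∀ g, q.map (ρ g) = q := by
      intro g
      obtain ⟨r, hr⟩ := hm g
      simp only [q, Polynomial.map_prod, Polynomial.map_sub, Polynomial.map_X, Polynomial.map_C,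
        hr]
      exact Equiv.prod_comp r fun k => Polynomial.X - Polynomial.C (ρ k b)
    have e1 : q.map φ = q.map ψ := by
      ext i
      rw [Polynomial.coeff_map, Polynomial.coeff_map]
      refine h _ fun g => ?_
      rw [← Polynomial.coeff_map, hq g]
    have e2 : (q.map φ).eval (φ b) = 0 := by
      simp only [q, Polynomial.map_prod, Polynomial.map_sub, Polynomial.map_X, Polynomial.map_C,
        Polynomial.eval_prod, Polynomial.eval_sub, Polynomial.eval_X, Polynomial.eval_C]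
      exact Finset.prod_eq_zero (Finset.mem_univ e) (by rw [h1, sub_self])
    rw [e1] at e2
    simp only [q, Polynomial.map_prod, Polynomial.map_sub, Polynomial.map_X, Polynomial.map_C,
      Polynomial.eval_prod, Polynomial.eval_sub, Polynomial.eval_X, Polynomial.eval_C] at e2
    obtain ⟨δ, -, hδ⟩ := Finset.prod_eq_zero_iff.1 e2
    exact ⟨δ, sub_eq_zero.1 hδ⟩
  let H : G → AddSubgroup B := fun δ => (φ.toAddMonoidHom).eqLocus (ψ.comp (ρ δ)).toAddMonoidHom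
  have hH : ∀ δ b, b ∈ H δ ↔ φ b = ψ (ρ δ b) := fun δ b => Iff.rfl
  have hcov : ⋃ i ∈ (Finset.univ : Finset G), ((fun _ => (0 : B)) i) +ᵥ (H i : Set B) =
      Set.univ := by
    refine Set.eq_univ_of_forall fun b => ?_
    obtain ⟨δ, hδ⟩ := hroot b
    refine Set.mem_iUnion₂.2 ⟨δ, Finset.mem_univ _, ?_⟩
    rw [zero_vadd]
    exact (hH δ b).2 hδ
  obtain ⟨δ, -, hfi⟩ := AddSubgroup.exists_finiteIndex_of_leftCoset_cover hcov
  refine ⟨δ, fun b => ?_⟩
  have h2 := (hH δ _).1 ((H δ).nsmul_index_mem b)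
  rw [map_nsmul, map_nsmul, map_nsmul, nsmul_eq_mul, nsmul_eq_mul] at h2
  exact mul_left_cancel₀ (Nat.cast_ne_zero.2 hfi.index_ne_zero) h2

/-- Roots are bounded by the elementary symmetric functions. -/
theorem Conj_root_bound {G K : Type} [Fintype G] [NormedField K] [IsUltrametricDist K]
    (y : G → K) {R : ℝ} (hR : 0 < R)
    (h : ∀ k, ‖∑ S ∈ Finset.powersetCard k (Finset.univ : Finset G), ∏ g ∈ S, y g‖ ≤ R ^ k)
    (g : G) : ‖y g‖ ≤ R := by
  by_contra hc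
  have hx : R < ‖y g‖ := not_le.1 hc
  have hx0 : 0 < ‖y g‖ := hR.trans hx
  have e1 := congrArg (Polynomial.eval (-y g))
    (Multiset.prod_X_add_C_eq_sum_esymm (Finset.univ.val.map y))
  rw [Multiset.map_map, ← Finset.prod_eq_multiset_prod] at e1
  simp only [Function.comp, Polynomial.eval_prod, Polynomial.eval_add, Polynomial.eval_X,
    Polynomial.eval_C, Polynomial.eval_finsetSum, Polynomial.eval_mul, Polynomial.eval_pow,
    Finset.esymm_map_val, Multiset.card_map, Finset.card_val] at e1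
  rw [Finset.prod_eq_zero (Finset.mem_univ g) (neg_add_cancel _), Finset.sum_range_succ'] at e1
  obtain ⟨N, hN⟩ : ∃ N, (Finset.univ : Finset G).card = N + 1 :=
    Nat.exists_eq_succ_of_ne_zero (Finset.card_ne_zero.2 ⟨g, Finset.mem_univ g⟩)
  rw [hN] at e1
  simp only [Finset.powersetCard_zero, Finset.sum_singleton, Finset.prod_empty, one_mul,
    Nat.sub_zero] at e1
  have e2 := eq_neg_of_add_eq_zero_right e1.symm
  have h3 : ‖(-y g) ^ (N + 1)‖ ≤ R * ‖y g‖ ^ N := by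
    rw [e2, norm_neg]
    refine IsUltrametricDist.norm_sum_le_of_forall_le_of_nonneg (by positivity) fun j hj => ?_
    have hj' : j ≤ N := Nat.lt_succ_iff.1 (Finset.mem_range.1 hj)
    rw [norm_mul, norm_pow, norm_neg, Nat.add_sub_add_right]
    calc _ ≤ R ^ (j + 1) * ‖y g‖ ^ (N - j) := by gcongr; exact h (j + 1)
      _ = R * (R ^ j * ‖y g‖ ^ (N - j)) := by ring
      _ ≤ R * (‖y g‖ ^ j * ‖y g‖ ^ (N - j)) := by gcongr
      _ = R * ‖y g‖ ^ N := by rw [← pow_add, Nat.add_sub_cancel' hj']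
  rw [norm_pow, norm_neg, pow_succ'] at h3
  exact hc (le_of_mul_le_mul_right h3 (pow_pos hx0 N))

namespace Par

variable (P : Par)

theorem fam_conj (A : Subring ℂ) {K : Type} [Field K] [CharZero K] (φ ψ : P.famRing A →+* K)
    (h : ∀ f : P.famRing A, (∀ γ, f.1 γ = f.1 1) → φ f = ψ f) :
    ∃ δ, ∀ f, φ f = ψ (P.famTr A δ f) := by
  refine hom_conj (P.famTr A) 1 (fun f => Subtype.ext (funext fun γ => ?_))
    (fun g => ⟨Equiv.mulRight g, fun k f => Subtype.ext (funext fun γ => ?_)⟩) φ ψ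
    fun f hf => h f fun γ => ?_
  · exact congrArg f.1 (one_mul γ)
  · exact congrArg f.1 (mul_assoc k g γ).symm
  · have h1 : f.1 (γ * 1) = f.1 1 := congrFun (congrArg Subtype.val (hf γ)) 1
    rwa [mul_one] at h1

/-- Evaluation of a family at the unit and a pair of points. -/
def Conj_ev (A : Subring ℂ) (t₁ t₂ : ℍ) : P.famRing A →+* ℂ where
  toFun f := f.1 1 t₁ t₂
  map_one' := rfl
  map_mul' _ _ := rfl
  map_zero' := rfl
  map_add' _ _ := rfl

theorem gal_lemma {t₁ t₂ : ℍ} {j₁ j₂ : ℚ} (h₁ : J t₁ = j₁) (h₂ : J t₂ = j₂) (s : ℂ ≃+* ℂ) :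
    ∃ δ : P.GG, ∀ A n f a, P.Fam A n f a → s (f 1 t₁ t₂) = f δ t₁ t₂ := by
  obtain ⟨δ, hδ⟩ := P.fam_conj ⊤ ((s : ℂ →+* ℂ).comp (P.Conj_ev ⊤ t₁ t₂)) (P.Conj_ev ⊤ t₁ t₂)
    (fun f hf => by
      obtain ⟨n, a, ha⟩ := f.2
      obtain ⟨Q, -, hQ, -⟩ := ha.inv hf
      show s (f.1 1 t₁ t₂) = f.1 1 t₁ t₂
      rw [hQ, h₁, h₂]
      simp only [map_sum, map_mul, map_pow, map_ratCast])
  refine ⟨δ, fun A n f a hf => ?_⟩
  have h3 : s (f 1 t₁ t₂) = f (δ * 1) t₁ t₂ := hδ ⟨f, n, a, hf.le le_top⟩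
  rwa [mul_one] at h3

theorem gal_one {t : ℍ} {j : ℚ} (h : J t = j) (s : ℂ ≃+* ℂ) :
    ∃ δ : P.GF, ∀ A n f a, P.Fam1 A n f a → s (f 1 t) = f δ t := by
  obtain ⟨δ, hδ⟩ := P.gal_lemma h h s
  exact ⟨δ.1.1, fun A n f a hf => hδ A n _ _ hf.fst⟩

variable {P} {K : Type} [NormedField K] [IsUltrametricDist K] {ι : ℂ →+* K} {n : ℕ}

theorem Conj_inv_bound {f : P.GG → ℍ → ℍ → ℂ} {a : P.GG → PS} (h : P.Fam (Ai ι) n f a)
    (hi : ∀ γ, f γ = f 1) (t₁ t₂ : ℍ) :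
    ‖ι (f 1 t₁ t₂)‖ ≤ (max 1 ‖ι (J t₁)‖ * max 1 ‖ι (J t₂)‖) ^ n := by
  obtain ⟨Q, hA, hQ, -⟩ := h.inv hi
  have h1 : (1 : ℝ) ≤ max 1 ‖ι (J t₁)‖ := le_max_left _ _
  have h2 : (1 : ℝ) ≤ max 1 ‖ι (J t₂)‖ := le_max_left _ _
  rw [hQ, map_sum]
  refine IsUltrametricDist.norm_sum_le_of_forall_le_of_nonneg (by positivity) fun i hi => ?_
  rw [map_sum]
  refine IsUltrametricDist.norm_sum_le_of_forall_le_of_nonneg (by positivity) fun j hj => ?_
  have hi' : i ≤ n := Nat.lt_succ_iff.1 (Finset.mem_range.1 hi)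
  have hj' : j ≤ n := Nat.lt_succ_iff.1 (Finset.mem_range.1 hj)
  have hq : ‖ι (Q i j : ℂ)‖ ≤ 1 := hA i j
  have e1 : ‖ι (J t₁)‖ ^ i ≤ max 1 ‖ι (J t₁)‖ ^ n :=
    (pow_le_pow_left₀ (norm_nonneg _) (le_max_right _ _) i).trans (pow_le_pow_right₀ h1 hi')
  have e2 : ‖ι (J t₂)‖ ^ j ≤ max 1 ‖ι (J t₂)‖ ^ n :=
    (pow_le_pow_left₀ (norm_nonneg _) (le_max_right _ _) j).trans (pow_le_pow_right₀ h2 hj')
  rw [map_mul, map_mul, map_pow, map_pow, norm_mul, norm_mul, norm_pow, norm_pow, mul_pow]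
  calc _ ≤ 1 * (max 1 ‖ι (J t₁)‖ ^ n * max 1 ‖ι (J t₂)‖ ^ n) := by gcongr
    _ = _ := one_mul _

theorem Fam.int_bound {f : P.GG → ℍ → ℍ → ℂ} {a : P.GG → PS} (h : P.Fam (Ai ι) n f a)
    (γ : P.GG) (t₁ t₂ : ℍ) :
    ‖ι (f γ t₁ t₂)‖ ≤ (max 1 ‖ι (J t₁)‖ * max 1 ‖ι (J t₂)‖) ^ n := by
  have := Fintype.ofFinite P.GG
  have h1 : (0 : ℝ) < max 1 ‖ι (J t₁)‖ := lt_of_lt_of_le one_pos (le_max_left _ _)
  have h2 : (0 : ℝ) < max 1 ‖ι (J t₂)‖ := lt_of_lt_of_le one_pos (le_max_left _ _)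
  refine Conj_root_bound (fun g => ι (f g t₁ t₂)) (by positivity) (fun k => ?_) γ
  have hF := fam_sum (P := P) (A := Ai ι) (n := n * k)
    (Finset.powersetCard k (Finset.univ : Finset P.GG))
    (f := fun S => ∏ g ∈ S, fun γ => f (g * γ)) (a := fun S => ∏ g ∈ S, fun γ => a (g * γ))
    (fun S hS => by
      have h3 := fam_prod S (f := fun g γ => f (g * γ)) (a := fun g γ => a (g * γ))
        fun g _ => h.translate g
      rwa [(Finset.mem_powersetCard.1 hS).2] at h3)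
  have hi : ∀ γ, (∑ S ∈ Finset.powersetCard k (Finset.univ : Finset P.GG),
      ∏ g ∈ S, fun γ => f (g * γ)) γ = (∑ S ∈ Finset.powersetCard k (Finset.univ : Finset P.GG),
      ∏ g ∈ S, fun γ => f (g * γ)) 1 := by
    intro γ
    simp only [Finset.sum_apply, Finset.prod_apply, mul_one]
    refine Finset.sum_equiv (Equiv.mulRight γ).finsetCongr (fun S => ?_) fun S _ => ?_
    · simp [Finset.mem_powersetCard]
    · rw [Equiv.finsetCongr_apply, Finset.prod_map]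
      rfl
  have h4 := Conj_inv_bound hF hi t₁ t₂
  simp only [Finset.sum_apply, Finset.prod_apply, mul_one, map_sum, map_prod] at h4
  rwa [pow_mul] at h4

theorem Fam1.int_bound {f : P.GF → ℍ → ℂ} {a : P.GF → ℕ → ℂ} (h : P.Fam1 (Ai ι) n f a)
    (γ : P.GF) (t : ℍ) : ‖ι (f γ t)‖ ≤ max 1 ‖ι (J t)‖ ^ n := by
  obtain ⟨t₀, h0⟩ := J_surj 0
  have h1 := h.fst.int_bound (P.diagG γ) t t₀
  rw [h0, map_zero, norm_zero, max_eq_left (zero_le_one' ℝ), mul_one] at h1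
  exact h1

end Par

end

end Pool.Agent.P.MP_a60a76_nt.Sz
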