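import Pool.Agent.P.MP_a60a76_nt.Sz.Base

namespace Pool.Agent.P.MP_a60a76_nt.Sz

open UpperHalfPlane MeasureTheory SP
open scoped MatrixGroups UpperHalfPlane Matrix Modular Topology Classical ArithmeticFunction.sigma

noncomputable section

/-! Evaluation of power series in two variables. -/

variable {K : Type} [NormedField K] [CompleteSpace K] {φ : ℂ →+* K} {a b : PS} {s t : K}

omit [CompleteSpace K] in
theorem Ev_norm (φ : ℂ →+* K) (z : ℂ) (s t : K) (m n : ℕ) :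
    ‖φ z * (s ^ m * t ^ n)‖ = ‖φ z‖ * (‖s‖ ^ m * ‖t‖ ^ n) := by
  rw [norm_mul, norm_mul, norm_pow, norm_pow]

omit [CompleteSpace K] in
theorem Ev_ab : Ab φ a s t ↔ Summable fun d : Fin 2 →₀ ℕ =>
    ‖φ (MvPowerSeries.coeff d a) * (s ^ d 0 * t ^ d 1)‖ := by
  simp only [Ev_norm, Ab]

theorem Ab.summable (h : Ab φ a s t) :
    Summable fun d : Fin 2 →₀ ℕ => φ (MvPowerSeries.coeff d a) * (s ^ d 0 * t ^ d 1) := by
  exact (Ev_ab.mp h).of_norm

theorem ab_iff : Ab φ a s t ↔ Summable fun x : ℕ × ℕ =>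
    ‖φ (MvPowerSeries.coeff (ixx x.1 x.2) a)‖ * (‖s‖ ^ x.1 * ‖t‖ ^ x.2) := by
  rw [Ab, ← ixe.summable_iff]
  refine summable_congr fun x => ?_
  simp [ixe]

theorem Ab.mono (h : Ab φ a s t) {s' t' : K} (hs : ‖s'‖ ≤ ‖s‖) (ht : ‖t'‖ ≤ ‖t‖) :
    Ab φ a s' t' := by
  refine Summable.of_nonneg_of_le (fun d => by positivity) (fun d => ?_) h
  gcongr

theorem Ab.add (ha : Ab φ a s t) (hb : Ab φ b s t) :
    Ab φ (a + b) s t ∧ ev φ (a + b) s t = ev φ a s t + ev φ b s t := by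
  have e : ∀ d : Fin 2 →₀ ℕ, φ (MvPowerSeries.coeff d (a + b)) * (s ^ d 0 * t ^ d 1) =
      φ (MvPowerSeries.coeff d a) * (s ^ d 0 * t ^ d 1) +
        φ (MvPowerSeries.coeff d b) * (s ^ d 0 * t ^ d 1) := fun d => by
    rw [map_add, map_add, add_mul]
  refine ⟨Ev_ab.mpr ?_, ?_⟩
  · refine Summable.of_nonneg_of_le (fun d => norm_nonneg _) (fun d => ?_)
      ((Ev_ab.mp ha).add (Ev_ab.mp hb))
    rw [e]; exact norm_add_le _ _
  · simp only [ev, e]
    exact ha.summable.tsum_add hb.summable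

theorem Ab.neg (ha : Ab φ a s t) : Ab φ (-a) s t ∧ ev φ (-a) s t = -ev φ a s t := by
  refine ⟨?_, ?_⟩
  · simpa only [Ab, map_neg, norm_neg] using ha
  · simp only [ev, map_neg, neg_mul, tsum_neg]

theorem Ab.sub (ha : Ab φ a s t) (hb : Ab φ b s t) :
    Ab φ (a - b) s t ∧ ev φ (a - b) s t = ev φ a s t - ev φ b s t := by
  have h := ha.add hb.neg.1
  rw [hb.neg.2, ← sub_eq_add_neg, ← sub_eq_add_neg] at h
  exact h

theorem Ab.mul (ha : Ab φ a s t) (hb : Ab φ b s t) :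
    Ab φ (a * b) s t ∧ ev φ (a * b) s t = ev φ a s t * ev φ b s t := by
  have e : ∀ d : Fin 2 →₀ ℕ, φ (MvPowerSeries.coeff d (a * b)) * (s ^ d 0 * t ^ d 1) =
      ∑ x ∈ Finset.HasAntidiagonal.antidiagonal d, φ (MvPowerSeries.coeff x.1 a) * (s ^ x.1 0 * t ^ x.1 1) *
        (φ (MvPowerSeries.coeff x.2 b) * (s ^ x.2 0 * t ^ x.2 1)) := fun d => by
    rw [MvPowerSeries.coeff_mul, map_sum, Finset.sum_mul]
    refine Finset.sum_congr rfl fun x hx => ?_
    rw [← Finset.HasAntidiagonal.mem_antidiagonal.mp hx, map_mul]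
    simp only [Finsupp.add_apply, pow_add]
    ring
  have ha' := Ev_ab.mp ha
  have hb' := Ev_ab.mp hb
  refine ⟨Ev_ab.mpr ?_, ?_⟩
  · have h1 := summable_sum_mul_antidiagonal_of_summable_mul
      (Summable.mul_of_nonneg ha' hb' (fun _ => norm_nonneg _) (fun _ => norm_nonneg _))
    refine Summable.of_nonneg_of_le (fun d => norm_nonneg _) (fun d => ?_) h1
    rw [e]
    refine (norm_sum_le _ _).trans (le_of_eq (Finset.sum_congr rfl fun x _ => norm_mul _ _))
  · simp only [ev, e]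
    exact (ha.summable.tsum_mul_tsum_eq_tsum_sum_antidiagonal hb.summable
      (summable_mul_of_summable_norm ha' hb')).symm

omit [CompleteSpace K] in
theorem Ev_monomial (φ : ℂ →+* K) (z : ℂ) (e : Fin 2 →₀ ℕ) (s t : K) :
    Ab φ (MvPowerSeries.monomial e z) s t ∧
      ev φ (MvPowerSeries.monomial e z) s t = φ z * (s ^ e 0 * t ^ e 1) := by
  refine ⟨?_, ?_⟩
  · refine summable_of_ne_finset_zero (s := {e}) fun d hd => ?_
    rw [MvPowerSeries.coeff_monomial_ne (by simpa using hd)]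
    simp
  · rw [ev, tsum_eq_single e]
    · rw [MvPowerSeries.coeff_monomial_same]
    · intro d hd
      rw [MvPowerSeries.coeff_monomial_ne hd]
      simp

omit [CompleteSpace K] in
theorem Ev_one (φ : ℂ →+* K) (s t : K) : Ab φ 1 s t ∧ ev φ 1 s t = 1 := by
  have h := Ev_monomial φ 1 0 s t
  rw [MvPowerSeries.monomial_zero_one] at h
  simpa using h

theorem Ab.pow (ha : Ab φ a s t) (n : ℕ) :
    Ab φ (a ^ n) s t ∧ ev φ (a ^ n) s t = ev φ a s t ^ n := by
  induction n with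
  | zero => simpa using Ev_one φ s t
  | succ n ih =>
    have h := ih.1.mul ha
    rw [ih.2, ← pow_succ, ← pow_succ] at h
    exact h

theorem ab_prod {ι : Type} (S : Finset ι) {a : ι → PS} (h : ∀ i ∈ S, Ab φ (a i) s t) :
    Ab φ (∏ i ∈ S, a i) s t ∧ ev φ (∏ i ∈ S, a i) s t = ∏ i ∈ S, ev φ (a i) s t := by
  induction S using Finset.induction_on with
  | empty => simpa using Ev_one φ s t
  | insert i S hi ih =>
    have h1 := ih fun j hj => h j (Finset.mem_insert_of_mem hj)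
    have h2 := (h i (Finset.mem_insert_self _ _)).mul h1.1
    rw [h1.2] at h2
    rw [Finset.prod_insert hi, Finset.prod_insert hi]
    exact h2

theorem ab_mono (φ : ℂ →+* K) (z : ℂ) (m n : ℕ) (s t : K) :
    Ab φ (mono z m n) s t ∧ ev φ (mono z m n) s t = φ z * (s ^ m * t ^ n) := by
  simpa [mono] using Ev_monomial φ z (ixx m n) s t

theorem ab_one (φ : ℂ →+* K) (s t : K) : Ab φ 1 s t ∧ ev φ 1 s t = 1 := by
  exact Ev_one φ s t

theorem ab_C (φ : ℂ →+* K) (z : ℂ) (s t : K) :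
    Ab φ (MvPowerSeries.C z) s t ∧ ev φ (MvPowerSeries.C z) s t = φ z := by
  have h := Ev_monomial φ z 0 s t
  rw [MvPowerSeries.monomial_zero_eq_C_apply] at h
  simpa using h

theorem Ev_ixx_inj {m n m' n' : ℕ} : ixx m' n' = ixx m n ↔ m' = m ∧ n' = n := by
  refine ⟨fun h => ⟨?_, ?_⟩, fun h => by rw [h.1, h.2]⟩
  · simpa using congrArg (fun d : Fin 2 →₀ ℕ => d 0) h
  · simpa using congrArg (fun d : Fin 2 →₀ ℕ => d 1) h

theorem coeff_mono (z : ℂ) (m n m' n' : ℕ) : MvPowerSeries.coeff (ixx m' n') (mono z m n) =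
    if m' = m ∧ n' = n then z else 0 := by
  rw [mono, MvPowerSeries.coeff_monomial]
  simp only [Ev_ixx_inj]

theorem mono_mul (z z' : ℂ) (m n m' n' : ℕ) :
    mono z m n * mono z' m' n' = mono (z * z') (m + m') (n + n') := by
  rw [mono, mono, mono, MvPowerSeries.monomial_mul_monomial, ixx_add]

theorem coeff_swp (a : PS) (m n : ℕ) :
    MvPowerSeries.coeff (ixx m n) (swp a) = MvPowerSeries.coeff (ixx n m) a := by
  have e : ixx m n = Finsupp.embDomain (Equiv.swap (0 : Fin 2) 1).toEmbedding (ixx n m) := by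
    rw [Finsupp.embDomain_eq_mapDomain, ixx, ixx, Finsupp.mapDomain_add, Finsupp.mapDomain_single,
      Finsupp.mapDomain_single, add_comm]
    simp
  rw [e]
  exact MvPowerSeries.coeff_embDomain_rename (Equiv.swap (0 : Fin 2) 1).toEmbedding a (ixx n m)

theorem swp_mul (a b : PS) : swp (a * b) = swp a * swp b := by
  exact map_mul _ a b

theorem swp_mono (z : ℂ) (m n : ℕ) : swp (mono z m n) = mono z n m := by
  ext d
  rw [← ixx_eta d, coeff_swp, coeff_mono, coeff_mono]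
  simp only [and_comm]

omit [CompleteSpace K] in
theorem Ev_ev (φ : ℂ →+* K) (a : PS) (s t : K) : ev φ a s t =
    ∑' x : ℕ × ℕ, φ (MvPowerSeries.coeff (ixx x.1 x.2) a) * s ^ x.1 * t ^ x.2 := by
  rw [ev, ← ixe.tsum_eq]
  refine tsum_congr fun x => ?_
  simp [ixe, mul_assoc]

theorem Ev_summable (h : Ab φ a s t) : Summable fun x : ℕ × ℕ =>
    φ (MvPowerSeries.coeff (ixx x.1 x.2) a) * s ^ x.1 * t ^ x.2 := by
  refine Summable.of_norm ?_
  refine (summable_congr fun x => ?_).mp (ab_iff.mp h)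
  rw [mul_assoc, Ev_norm]

theorem ab_swp : (Ab φ (swp a) s t ↔ Ab φ a t s) ∧ ev φ (swp a) s t = ev φ a t s := by
  refine ⟨?_, ?_⟩
  · rw [ab_iff, ab_iff, ← (Equiv.prodComm ℕ ℕ).summable_iff]
    refine summable_congr fun x => ?_
    simp [coeff_swp, mul_comm]
  · rw [Ev_ev, Ev_ev, ← (Equiv.prodComm ℕ ℕ).tsum_eq]
    refine tsum_congr fun x => ?_
    simp only [Equiv.prodComm_apply, Prod.fst_swap, Prod.snd_swap, coeff_swp]
    ring

/-- Summation by columns. -/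
theorem Ab.hasSum_snd (h : Ab φ a s t) :
    (∀ n, Summable fun m => φ (MvPowerSeries.coeff (ixx m n) a) * s ^ m * t ^ n) ∧
    HasSum (fun n => ∑' m, φ (MvPowerSeries.coeff (ixx m n) a) * s ^ m * t ^ n) (ev φ a s t) := by
  have h1 := (Ev_summable h).prod_symm
  have h2 : ∀ n, Summable fun m => φ (MvPowerSeries.coeff (ixx m n) a) * s ^ m * t ^ n :=
    fun n => h1.prod_factor n
  refine ⟨h2, ?_⟩
  have h3 : HasSum (fun x : ℕ × ℕ =>
      φ (MvPowerSeries.coeff (ixx x.2 x.1) a) * s ^ x.2 * t ^ x.1) (ev φ a s t) := by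
    rw [Ev_ev]
    exact (Equiv.prodComm ℕ ℕ).hasSum_iff.mpr (Ev_summable h).hasSum
  exact h3.prod_fiberwise fun n => (h2 n).hasSum

/-- Summation by rows. -/
theorem Ab.hasSum_fst (h : Ab φ a s t) :
    (∀ m, Summable fun n => φ (MvPowerSeries.coeff (ixx m n) a) * s ^ m * t ^ n) ∧
    HasSum (fun m => ∑' n, φ (MvPowerSeries.coeff (ixx m n) a) * s ^ m * t ^ n) (ev φ a s t) := by
  have h1 := Ev_summable h
  have h2 : ∀ m, Summable fun n => φ (MvPowerSeries.coeff (ixx m n) a) * s ^ m * t ^ n :=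
    fun m => h1.prod_factor m
  refine ⟨h2, ?_⟩
  rw [Ev_ev]
  exact h1.hasSum.prod_fiberwise fun m => (h2 m).hasSum

theorem Ev_coeff_in1 (c : ℕ → ℂ) (d : Fin 2 →₀ ℕ) :
    MvPowerSeries.coeff d (in1 c) = if d 1 = 0 then c (d 0) else 0 := rfl

theorem Ev_coeff_in2 (c : ℕ → ℂ) (d : Fin 2 →₀ ℕ) :
    MvPowerSeries.coeff d (in2 c) = if d 0 = 0 then c (d 1) else 0 := rfl

theorem Ev_swp_in1 (c : ℕ → ℂ) : swp (in1 c) = in2 c := by
  ext d
  rw [← ixx_eta d, coeff_swp, Ev_coeff_in1, Ev_coeff_in2]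
  simp

theorem ab_in1 {c : ℕ → ℂ} (h : Summable fun k => ‖φ (c k)‖ * ‖s‖ ^ k) (t : K) :
    Ab φ (in1 c) s t ∧ ev φ (in1 c) s t = ∑' k, φ (c k) * s ^ k := by
  have hi : Function.Injective fun k : ℕ => ixx k 0 := fun k l hkl => (Ev_ixx_inj.mp hkl).1
  have hz : ∀ d : Fin 2 →₀ ℕ, d ∉ Set.range (fun k : ℕ => ixx k 0) →
      MvPowerSeries.coeff d (in1 c) = 0 := fun d hd => by
    rw [Ev_coeff_in1, if_neg]
    intro h0
    exact hd ⟨d 0, by simpa [h0] using ixx_eta d⟩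
  refine ⟨?_, ?_⟩
  · rw [Ab, ← hi.summable_iff fun d hd => by simp [hz d hd]]
    refine (summable_congr fun k => ?_).mp h
    simp [Ev_coeff_in1]
  · rw [ev, ← hi.tsum_eq]
    · refine tsum_congr fun k => ?_
      simp [Ev_coeff_in1]
    · intro d hd
      by_contra h'
      exact hd (by simp [hz d h'])

theorem ab_in2 {c : ℕ → ℂ} (h : Summable fun k => ‖φ (c k)‖ * ‖t‖ ^ k) (s : K) :
    Ab φ (in2 c) s t ∧ ev φ (in2 c) s t = ∑' k, φ (c k) * t ^ k := by
  rw [← Ev_swp_in1, ab_swp.1, ab_swp.2]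
  exact ab_in1 h s

/-- Series with bounded coefficients. -/
theorem ab_of_bdd (h : ∀ d, ‖φ (MvPowerSeries.coeff d a)‖ ≤ 1) (hs : ‖s‖ < 1) (ht : ‖t‖ < 1) :
    Ab φ a s t := by
  rw [ab_iff]
  have h1 := Summable.mul_of_nonneg (summable_geometric_of_lt_one (norm_nonneg s) hs)
    (summable_geometric_of_lt_one (norm_nonneg t) ht) (fun _ => by positivity)
    (fun _ => by positivity)
  refine Summable.of_nonneg_of_le (fun _ => by positivity) (fun x => ?_) h1
  exact mul_le_of_le_one_left (by positivity) (h _)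

theorem norm_ev_le [IsUltrametricDist K] (h : ∀ d, ‖φ (MvPowerSeries.coeff d a)‖ ≤ 1)
    (hs : ‖s‖ < 1) (ht : ‖t‖ < 1) : ‖ev φ a s t‖ ≤ 1 := by
  refine IsUltrametricDist.norm_tsum_le_of_forall_le_of_nonneg zero_le_one fun d => ?_
  rw [Ev_norm]
  exact mul_le_one₀ (h d) (by positivity) (mul_le_one₀ (pow_le_one₀ (norm_nonneg _) hs.le)
    (by positivity) (pow_le_one₀ (norm_nonneg _) ht.le))

/-- The series with coefficients in a subring. -/
def inA (A : Subring ℂ) : Subring PS where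
  carrier := {a | InA A a}
  mul_mem' := by
    intro a b ha hb d
    rw [MvPowerSeries.coeff_mul]
    exact sum_mem fun x _ => mul_mem (ha _) (hb _)
  one_mem' := by
    intro d
    rw [MvPowerSeries.coeff_one]
    split_ifs
    · exact one_mem _
    · exact zero_mem _
  add_mem' := by
    intro a b ha hb d
    rw [map_add]
    exact add_mem (ha _) (hb _)
  zero_mem' := by
    intro d
    rw [map_zero]
    exact zero_mem _
  neg_mem' := by
    intro a ha d
    rw [map_neg]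
    exact neg_mem (ha _)

theorem inA_mono {A : Subring ℂ} {z : ℂ} (hz : z ∈ A) (m n : ℕ) : InA A (mono z m n) := by
  intro d
  rw [mono, MvPowerSeries.coeff_monomial]
  split_ifs
  · exact hz
  · exact zero_mem _

theorem Ev_pow_unique {a b : ℕ → ℂ} {r : ℝ} (hr : 0 < r)
    (h : ∀ t : ℂ, t ≠ 0 → ‖t‖ < r → ∃ x, HasSum (fun n => a n * t ^ n) x ∧
      HasSum (fun n => b n * t ^ n) x) : a = b := by
  let c : ℕ → ℂ := fun n => if n = 0 then 0 else a (n - 1) - b (n - 1)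
  have h1 : HasFPowerSeriesAt (0 : ℂ → ℂ) (FormalMultilinearSeries.ofScalars ℂ c) 0 := by
    rw [hasFPowerSeriesAt_iff]
    filter_upwards [Metric.ball_mem_nhds (0 : ℂ) hr] with z hz
    simp only [FormalMultilinearSeries.coeff_ofScalars, smul_eq_mul, Pi.zero_apply]
    rw [← hasSum_nat_add_iff' 1]
    simp only [Finset.range_one, Finset.sum_singleton, c, if_true, mul_zero, sub_zero,
      Nat.add_eq_zero_iff, one_ne_zero, and_false, if_false, Nat.add_sub_cancel]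
    by_cases h0 : z = 0
    · simpa [h0] using hasSum_zero
    · obtain ⟨x, h2, h3⟩ := h z h0 (by simpa using hz)
      have h4 := (h2.sub h3).mul_left z
      rw [sub_self, mul_zero] at h4
      have e : (fun n => z ^ (n + 1) * (a n - b n)) =
          fun n => z * (a n * z ^ n - b n * z ^ n) := by
        funext n; ring
      rw [e]; exact h4
  have h2 := h1.eq_zero
  funext n
  have h3 : (FormalMultilinearSeries.ofScalars ℂ c).coeff (n + 1) = 0 := by
    rw [h2]; rfl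
  rw [FormalMultilinearSeries.coeff_ofScalars] at h3
  simpa [c, sub_eq_zero] using h3

theorem Ev_exists_sv (P : Par) {t : ℂ} (h0 : t ≠ 0) (h1 : ‖t‖ < 1) : ∃ τ : ℍ, P.sv τ = t := by
  have hp : (0 : ℝ) < P.p := by exact_mod_cast P.prime.pos
  have hl : Real.log ‖t‖ < 0 := Real.log_neg (norm_pos_iff.mpr h0) h1
  have hpi := Real.pi_pos
  refine ⟨⟨P.p * Complex.log t / (2 * Real.pi * Complex.I), ?_⟩, ?_⟩
  · have e : (P.p : ℂ) * Complex.log t / (2 * Real.pi * Complex.I) =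
        ((-(P.p / (2 * Real.pi)) : ℝ) : ℂ) * (Complex.I * Complex.log t) := by
      have : (Real.pi : ℂ) ≠ 0 := by exact_mod_cast hpi.ne'
      push_cast
      field_simp
      simp
    rw [e, Complex.im_ofReal_mul]
    simp only [Complex.mul_im, Complex.I_re, zero_mul, Complex.I_im, one_mul, zero_add,
      Complex.log_re]
    have : 0 < P.p / (2 * Real.pi) := by positivity
    nlinarith
  · have : (Real.pi : ℂ) ≠ 0 := by exact_mod_cast hpi.ne'
    have hp' : (P.p : ℂ) ≠ 0 := by exact_mod_cast P.prime.ne_zero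
    rw [Par.sv, ee]
    have e : 2 * (Real.pi : ℂ) * Complex.I *
        ((P.p : ℂ) * Complex.log t / (2 * Real.pi * Complex.I) / P.p) = Complex.log t := by
      field_simp
    exact (congrArg Complex.exp e).trans (Complex.exp_log h0)

theorem Ev_exists_sv' (P : Par) (Y : ℝ) : ∃ r : ℝ, 0 < r ∧ ∀ t : ℂ, t ≠ 0 → ‖t‖ < r →
    ∃ τ : ℍ, Y ≤ τ.im ∧ P.sv τ = t := by
  have hp : (0 : ℝ) < P.p := by exact_mod_cast P.prime.pos
  refine ⟨min 1 (Real.exp (-(2 * Real.pi * Y / P.p))), by positivity, fun t h0 ht => ?_⟩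
  obtain ⟨τ, hτ⟩ := Ev_exists_sv P h0 (ht.trans_le (min_le_left _ _))
  refine ⟨τ, ?_, hτ⟩
  have h1 := ht.trans_le (min_le_right _ _)
  rw [← hτ, P.norm_sv, Real.exp_lt_exp, neg_lt_neg_iff, div_lt_div_iff_of_pos_right hp] at h1
  have := Real.pi_pos
  nlinarith

/-- Uniqueness of the coefficients. -/
theorem Par.ps_unique (P : Par) (Y : ℝ) {a b : PS}
    (h : ∀ t₁ t₂ : ℍ, Y ≤ t₁.im → Y ≤ t₂.im → Ab (RingHom.id ℂ) a (P.sv t₁) (P.sv t₂) ∧
      Ab (RingHom.id ℂ) b (P.sv t₁) (P.sv t₂) ∧ ev (RingHom.id ℂ) a (P.sv t₁) (P.sv t₂) =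
        ev (RingHom.id ℂ) b (P.sv t₁) (P.sv t₂)) : a = b := by
  obtain ⟨r, hr, hY⟩ := Ev_exists_sv' P Y
  obtain ⟨t₀, ht₀, -⟩ := hY ((r / 2 : ℝ) : ℂ) (by exact_mod_cast (half_pos hr).ne')
    (by rw [Complex.norm_real, Real.norm_of_nonneg (half_pos hr).le]; linarith)
  have hs : ∀ {c : PS} {t₂ : ℍ}, Ab (RingHom.id ℂ) c (P.sv t₀) (P.sv t₂) → ∀ m,
      Summable fun n => MvPowerSeries.coeff (ixx m n) c * P.sv t₂ ^ n := by
    intro c t₂ hc m
    have h1 := (hc.hasSum_fst.1 m).mul_left (P.sv t₀ ^ m)⁻¹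
    refine (summable_congr fun n => ?_).mp h1
    have := pow_ne_zero m (P.sv_ne_zero t₀)
    simp only [RingHom.id_apply]
    field_simp
  have hr' : ∀ {c : PS} {s t : ℂ}, Ab (RingHom.id ℂ) c s t → HasSum
      (fun m => (∑' n, MvPowerSeries.coeff (ixx m n) c * t ^ n) * s ^ m)
        (ev (RingHom.id ℂ) c s t) := by
    intro c s t hc
    have h1 := hc.hasSum_fst.2
    simp only [RingHom.id_apply] at h1
    have e : (fun m => (∑' n, MvPowerSeries.coeff (ixx m n) c * t ^ n) * s ^ m) =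
        fun m => ∑' n, MvPowerSeries.coeff (ixx m n) c * s ^ m * t ^ n := by
      funext m
      rw [← tsum_mul_right]
      exact tsum_congr fun n => by ring
    rw [e]; exact h1
  have h2 : ∀ t₂ : ℍ, Y ≤ t₂.im → ∀ m, ∑' n, MvPowerSeries.coeff (ixx m n) a * P.sv t₂ ^ n =
      ∑' n, MvPowerSeries.coeff (ixx m n) b * P.sv t₂ ^ n := by
    intro t₂ h₂
    refine congrFun (Ev_pow_unique hr fun s h0 hs' => ?_)
    obtain ⟨t₁, h₁, rfl⟩ := hY s h0 hs'
    obtain ⟨ha, hb, e⟩ := h t₁ t₂ h₁ h₂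
    exact ⟨_, hr' ha, e ▸ hr' hb⟩
  ext d
  rw [← ixx_eta d]
  refine congrFun (Ev_pow_unique (a := fun n => MvPowerSeries.coeff (ixx (d 0) n) a)
    (b := fun n => MvPowerSeries.coeff (ixx (d 0) n) b) hr fun t h0 ht => ?_) (d 1)
  obtain ⟨t₂, h₂, rfl⟩ := hY t h0 ht
  obtain ⟨ha, hb, -⟩ := h t₀ t₂ ht₀ h₂
  exact ⟨_, (hs ha _).hasSum, h2 t₂ h₂ (d 0) ▸ (hs hb _).hasSum⟩

/-- Uniqueness of the coefficients in one variable. -/
theorem pow_unique {a b : ℕ → ℂ} {r : ℝ} (hr : 0 < r)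
    (h : ∀ t : ℂ, t ≠ 0 → ‖t‖ < r → ∃ x, HasSum (fun n => a n * t ^ n) x ∧
      HasSum (fun n => b n * t ^ n) x) : a = b := by
  exact Ev_pow_unique hr h

theorem Par.exists_sv (P : Par) {t : ℂ} (h0 : t ≠ 0) (h1 : ‖t‖ < 1) : ∃ τ : ℍ, P.sv τ = t := by
  exact Ev_exists_sv P h0 h1

theorem Ev_hol (P : Par) {a : PS} {t : ℂ}
    (h : ∀ t₁ : ℍ, Ab (RingHom.id ℂ) a (P.sv t₁) t) :
    Hol fun t₁ => ev (RingHom.id ℂ) a (P.sv t₁) t := by
  intro z hz
  have hz' : 0 < z.im := hz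
  have hp : (0 : ℝ) < P.p := by exact_mod_cast P.prime.pos
  let τ₀ : ℍ := ⟨((z.im / 2 : ℝ) : ℂ) * Complex.I, by simpa using hz'⟩
  have hτ₀ : τ₀.im = z.im / 2 := by simp [τ₀, UpperHalfPlane.im]
  have hU : IsOpen {w : ℂ | z.im / 2 < w.im} := isOpen_lt continuous_const Complex.continuous_im
  have hd : DifferentiableOn ℂ (fun w : ℂ => ∑' d : Fin 2 →₀ ℕ,
      MvPowerSeries.coeff d a * (ee (w / P.p) ^ d 0 * t ^ d 1)) {w : ℂ | z.im / 2 < w.im} := by
    refine Complex.differentiableOn_tsum_of_summable_norm (h τ₀) (fun d => ?_) hU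
      fun d w hw => ?_
    · unfold ee
      fun_prop
    · have hw' : z.im / 2 < w.im := hw
      have h1 : ‖ee (w / P.p)‖ ≤ ‖P.sv τ₀‖ := by
        rw [P.norm_sv, norm_ee, hτ₀, Real.exp_le_exp, neg_le_neg_iff, mul_div_assoc]
        have : (w / (P.p : ℂ)).im = w.im / P.p := by
          rw [← Complex.ofReal_natCast, Complex.div_ofReal_im]
        rw [this]
        have := Real.pi_pos
        gcongr
      have := Ev_norm (RingHom.id ℂ) (MvPowerSeries.coeff d a) (ee (w / P.p)) t (d 0) (d 1)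
      simp only [RingHom.id_apply] at this ⊢
      rw [this]
      gcongr
  have hm : {w : ℂ | z.im / 2 < w.im} ∈ 𝓝 z := hU.mem_nhds (by simp only [Set.mem_setOf_eq]; linarith)
  refine ((hd.differentiableAt hm).congr_of_eventuallyEq ?_).differentiableWithinAt
  filter_upwards [hm] with w hw
  have hw' : z.im / 2 < w.im := hw
  have h0 : 0 < w.im := by linarith
  simp only [Function.comp_apply, ev, RingHom.id_apply, Par.sv, ofComplex_apply_of_im_pos h0]

theorem Par.hol_ev (P : Par) {a : PS}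
    (h : ∀ t₁ t₂ : ℍ, Ab (RingHom.id ℂ) a (P.sv t₁) (P.sv t₂)) :
    (∀ t₂, Hol fun t₁ => ev (RingHom.id ℂ) a (P.sv t₁) (P.sv t₂)) ∧
      ∀ t₁, Hol fun t₂ => ev (RingHom.id ℂ) a (P.sv t₁) (P.sv t₂) := by
  refine ⟨fun t₂ => Ev_hol P fun t₁ => h t₁ t₂, fun t₁ => ?_⟩
  have h1 := Ev_hol P (a := swp a) (t := P.sv t₁) fun t₂ => ab_swp.1.mpr (h t₁ t₂)
  simpa only [ab_swp.2] using h1

end

end Pool.Agent.P.MP_a60a76_nt.Sz
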