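import Pool.Agent.P.MP_a60a76_nt.Sz.QSb

namespace Pool.Agent.P.MP_a60a76_nt.Sz

open UpperHalfPlane MeasureTheory SP
open scoped MatrixGroups UpperHalfPlane Matrix Modular Topology Classical ArithmeticFunction.sigma

noncomputable section

/-! Forms of level one with integral coefficients. -/

theorem Lev1_hsE {k : ℕ} (hk : 3 ≤ k) (hk2 : Even k) {a : ℤ}
    (h : (qExpansion 1 (ModularForm.E hk)).coeff 1 = a) (τ : ℍ) :
    HasSum (fun n : ℕ => ((if n = 0 then 1 else a * (σ (k - 1) n : ℤ) : ℤ) : ℂ) * ee τ ^ n)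
      (ModularForm.E hk τ) := by
  have h1 := ModularForm.hasSum_qExpansion (ModularForm.E hk) one_pos one_mem_strictPeriods_SL τ
  have h2 : Function.Periodic.qParam 1 (τ : ℂ) = ee τ := by simp [Function.Periodic.qParam, ee]
  rw [EisensteinSeries.E_qExpansion_coeff hk hk2] at h
  simp only [EisensteinSeries.E_qExpansion_coeff hk hk2, h2] at h1
  simp only [one_ne_zero, if_false, ArithmeticFunction.isMultiplicative_sigma.map_one,
    Nat.cast_one, mul_one] at h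
  rw [h] at h1
  convert h1 using 3 with n
  split_ifs <;> simp

theorem Lev1_hs4 (τ : ℍ) : HasSum (fun n : ℕ => (e4c n : ℂ) * ee τ ^ n) (E4 τ) :=
  Lev1_hsE (a := 240) _ ⟨2, rfl⟩ (by exact_mod_cast ModularForm.E₄_qExpansion_coeff_one) τ

theorem Lev1_hs6 (τ : ℍ) : HasSum (fun n : ℕ => (e6c n : ℂ) * ee τ ^ n) (E6 τ) :=
  Lev1_hsE (a := -504) _ ⟨3, rfl⟩ (by exact_mod_cast ModularForm.E₆_qExpansion_coeff_one) τ

theorem Lev1_qs {a : ℕ → ℤ} {f : ℍ → ℂ}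
    (h : ∀ τ : ℍ, HasSum (fun n : ℕ => (a n : ℂ) * ee τ ^ n) (f τ)) : QS 1 (zx a) f :=
  (QS.of_nat (N := 1) (a := fun n => (a n : ℂ)) (f := f) 0 fun τ => by simpa using h τ).congr
    (fun ν => by simp [zx]) fun τ => by simp [ee_zero]

theorem Lev1_hs_mul {A B : PowerSeries ℤ} {q s t : ℂ}
    (hA : HasSum (fun n => (PowerSeries.coeff n A : ℤ) * q ^ n) s)
    (hB : HasSum (fun n => (PowerSeries.coeff n B : ℤ) * q ^ n) t) :
    HasSum (fun n => (PowerSeries.coeff n (A * B) : ℤ) * q ^ n) (s * t) := by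
  have h1 := summable_norm_iff.2 hA.summable
  have h2 := summable_norm_iff.2 hB.summable
  have h3 := (summable_norm_sum_mul_antidiagonal_of_summable_norm h1 h2).of_norm.hasSum
  rw [← tsum_mul_tsum_eq_tsum_sum_antidiagonal_of_summable_norm h1 h2, hA.tsum_eq,
    hB.tsum_eq] at h3
  refine h3.congr_fun fun n => ?_
  rw [PowerSeries.coeff_mul, Int.cast_sum, Finset.sum_mul]
  refine Finset.sum_congr rfl fun x hx => ?_
  rw [← Finset.HasAntidiagonal.mem_antidiagonal.1 hx]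
  push_cast
  ring

theorem Lev1_dvd (n : ℕ) : (12 : ℤ) ∣ 5 * (σ 3 n : ℤ) + 7 * (σ 5 n : ℤ) := by
  have h : ∀ x : ZMod 12, 5 * x ^ 3 + 7 * x ^ 5 = 0 := by decide
  simp only [ArithmeticFunction.sigma_apply, Nat.cast_sum, Finset.mul_sum,
    ← Finset.sum_add_distrib]
  refine Finset.dvd_sum fun d _ => (ZMod.intCast_zmod_eq_zero_iff_dvd _ 12).1 ?_
  push_cast
  exact h d

theorem qs_E4 : QS 1 (zx e4c) E4 :=
  Lev1_qs Lev1_hs4

theorem qs_E6 : QS 1 (zx e6c) E6 :=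
  Lev1_qs Lev1_hs6

theorem dlc_mul : (1728 : PowerSeries ℤ) * PowerSeries.mk dlc =
    (PowerSeries.mk e4c) ^ 3 - (PowerSeries.mk e6c) ^ 2 := by
  choose c hc using Lev1_dvd
  have h4 : PowerSeries.mk e4c = 1 + 240 * PowerSeries.mk fun n => (σ 3 n : ℤ) := by
    ext n
    rw [map_add, ← map_ofNat (PowerSeries.C (R := ℤ)) 240, PowerSeries.coeff_C_mul]
    by_cases h : n = 0 <;> simp [e4c, PowerSeries.coeff_one, h]
  have h6 : PowerSeries.mk e6c = 1 - 504 * PowerSeries.mk fun n => (σ 5 n : ℤ) := by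
    ext n
    rw [map_sub, ← map_ofNat (PowerSeries.C (R := ℤ)) 504, PowerSeries.coeff_C_mul]
    by_cases h : n = 0 <;> simp [e6c, PowerSeries.coeff_one, h]
  have h1 : 5 * (PowerSeries.mk fun n => (σ 3 n : ℤ)) + 7 * (PowerSeries.mk fun n => (σ 5 n : ℤ)) =
      12 * PowerSeries.mk c := by
    ext n
    rw [map_add, ← map_ofNat (PowerSeries.C (R := ℤ)) 5, ← map_ofNat (PowerSeries.C (R := ℤ)) 7,
      ← map_ofNat (PowerSeries.C (R := ℤ)) 12]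
    simp only [PowerSeries.coeff_C_mul, PowerSeries.coeff_mk, hc]
  obtain ⟨X, hX⟩ : ∃ X : PowerSeries ℤ,
      (PowerSeries.mk e4c) ^ 3 - (PowerSeries.mk e6c) ^ 2 = 1728 * X := by
    rw [h4, h6]
    generalize (PowerSeries.mk fun n => (σ 3 n : ℤ)) = A at h1 ⊢
    generalize (PowerSeries.mk fun n => (σ 5 n : ℤ)) = B at h1 ⊢
    exact ⟨PowerSeries.mk c + 100 * A ^ 2 + 8000 * A ^ 3 - 147 * B ^ 2, by
      linear_combination 144 * h1⟩
  rw [hX]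
  congr 1
  ext n
  rw [PowerSeries.coeff_mk, dlc, hX, ← map_ofNat (PowerSeries.C (R := ℤ)) 1728,
    PowerSeries.coeff_C_mul, Int.mul_ediv_cancel_left _ (by norm_num)]

theorem dlc_zero : dlc 0 = 0 := by
  simp [dlc, e4c, e6c]

theorem dlc_one : dlc 1 = 1 := by
  norm_num [dlc, pow_succ, PowerSeries.coeff_mul, Finset.Nat.antidiagonal_succ, e4c, e6c]

theorem Lev1_hsD (τ : ℍ) : HasSum (fun n : ℕ => (dlc n : ℂ) * ee τ ^ n) (Dl τ) := by
  have h4 : HasSum (fun n => (PowerSeries.coeff n (PowerSeries.mk e4c) : ℤ) * ee τ ^ n) (E4 τ) := by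
    simpa only [PowerSeries.coeff_mk] using Lev1_hs4 τ
  have h6 : HasSum (fun n => (PowerSeries.coeff n (PowerSeries.mk e6c) : ℤ) * ee τ ^ n) (E6 τ) := by
    simpa only [PowerSeries.coeff_mk] using Lev1_hs6 τ
  have h := ((Lev1_hs_mul (Lev1_hs_mul h4 h4) h4).sub (Lev1_hs_mul h6 h6)).div_const 1728
  have h0 : Dl τ = (E4 τ * E4 τ * E4 τ - E6 τ * E6 τ) / 1728 :=
    (ModularForm.discriminant_eq_E₄_cube_sub_E₆_sq τ).trans (by ring)
  rw [h0]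
  refine h.congr_fun fun n => ?_
  have h1 := congrArg (PowerSeries.coeff n) dlc_mul
  rw [← map_ofNat (PowerSeries.C (R := ℤ)) 1728, PowerSeries.coeff_C_mul, PowerSeries.coeff_mk,
    map_sub, pow_succ, sq, sq] at h1
  rw [← sub_mul, ← Int.cast_sub, ← h1]
  push_cast
  ring

theorem qs_Dl : QS 1 (zx dlc) Dl :=
  Lev1_qs Lev1_hsD

theorem hasSum_E4 (τ : ℍ) : HasSum (fun n : ℕ => (e4c n : ℂ) * ee τ ^ n) (E4 τ) :=
  Lev1_hs4 τ

theorem hasSum_E6 (τ : ℍ) : HasSum (fun n : ℕ => (e6c n : ℂ) * ee τ ^ n) (E6 τ) :=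
  Lev1_hs6 τ

theorem hasSum_Dl (τ : ℍ) : HasSum (fun n : ℕ => (dlc n : ℂ) * ee τ ^ n) (Dl τ) :=
  Lev1_hsD τ

/-- Integral expansion starting with `q ^ L`. -/
def QZ (L : ℤ) (f : ℍ → ℂ) : Prop :=
  ∃ c : ℤ → ℤ, QS 1 (fun ν => (c ν : ℂ)) f ∧ (∀ ν < L, c ν = 0) ∧ c L = 1

theorem QZ.mul {L L' : ℤ} {f g : ℍ → ℂ} (hf : QZ L f) (hg : QZ L' g) :
    QZ (L + L') fun τ => f τ * g τ := by
  obtain ⟨c, h1, h2, h3⟩ := hf
  obtain ⟨c', h1', h2', h3'⟩ := hg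
  refine ⟨fun ν => ∑ μ ∈ Finset.Icc L (ν - L'), c μ * c' (ν - μ),
    (h1.mul h1' (L := L) (L' := L') (fun ν h => by simp [h2 ν h])
      fun ν h => by simp [h2' ν h]).congr (fun ν => by push_cast; rfl) fun _ => rfl,
    fun ν h => ?_, ?_⟩
  · exact Finset.sum_eq_zero fun x hx => by
      rw [Finset.mem_Icc] at hx
      omega
  · simp [h3, h3']

theorem Lev1_qz {a : ℕ → ℤ} {f : ℍ → ℂ} {n : ℕ} (h : QS 1 (zx a) f) (h0 : ∀ m < n, a m = 0)
    (h1 : a n = 1) : QZ n f := by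
  refine ⟨fun ν => if 0 ≤ ν then a ν.toNat else 0,
    h.congr (fun ν => by simp [zx]) fun _ => rfl, fun ν hν => ?_, by simp [h1]⟩
  exact ite_eq_right_iff.2 fun h2 => h0 _ (by omega)

theorem Lev1_qz_congr {L L' : ℤ} {f g : ℍ → ℂ} (h : QZ L f) (e : L = L') (e' : ∀ τ, f τ = g τ) :
    QZ L' g := by
  rwa [← e, ← funext e']

theorem qz_E4 : QZ 0 E4 :=
  Lev1_qz (n := 0) qs_E4 (fun _ h => absurd h (Nat.not_lt_zero _)) rfl

theorem qz_E6 : QZ 0 E6 :=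
  Lev1_qz (n := 0) qs_E6 (fun _ h => absurd h (Nat.not_lt_zero _)) rfl

theorem qz_Dl : QZ 1 Dl :=
  Lev1_qz (n := 1) qs_Dl (fun m h => by rw [Nat.lt_one_iff.1 h, dlc_zero]) dlc_one

theorem qz_Dl_inv : QZ (-1) fun τ => (Dl τ)⁻¹ := by
  obtain ⟨c, h1, h2, h3⟩ := qz_Dl
  obtain ⟨c', h4, h5, h6, h7⟩ := h1.exists_inv one_pos Dl_ne_zero (L := 1)
    (fun ν h => by simp [h2 ν h]) (by simp [h3])
  choose d hd using h7 (Int.castRingHom ℂ).range (fun ν => ⟨c ν, rfl⟩) ⟨1, by simp [h3]⟩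
  simp only [eq_intCast] at hd
  refine ⟨d, h4.congr (fun ν => (hd ν).symm) fun _ => rfl, fun ν h => ?_, ?_⟩
  · exact_mod_cast (hd ν).trans (h5 ν h)
  · have h8 := (hd _).trans h6
    rw [h3, Int.cast_one, inv_one] at h8
    exact_mod_cast h8

theorem qz_J_pow (m : ℕ) : QZ (-m) fun τ => J τ ^ m := by
  induction m with
  | zero =>
    exact ⟨fun ν => if ν = 0 then 1 else 0, (QS.single 1 0 1).congr (fun ν => by simp)
      fun τ => by simp [ee_zero], fun ν h => if_neg (by omega), by simp⟩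
  | succ m ih =>
    refine Lev1_qz_congr (ih.mul (((qz_E4.mul qz_E4).mul qz_E4).mul qz_Dl_inv)) (by omega)
      fun τ => ?_
    rw [pow_succ, J_eq]
    ring

theorem Lev1_wt_congr {k k' : ℤ} {f : ℍ → ℂ} (h : Wt k f) (e : k = k') : Wt k' f := e ▸ h

theorem Lev1_wt_mul {k k' : ℤ} {f g : ℍ → ℂ} (hf : Wt k f) (hg : Wt k' g) :
    Wt (k + k') fun τ => f τ * g τ :=
  ⟨fun τ => by rw [hf.per, hg.per], fun τ => by
    rw [hf.inv, hg.inv, zpow_add₀ τ.ne_zero]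
    ring⟩

theorem Lev1_wt_E4 : Wt 4 E4 :=
  ⟨fun τ => by rw [E4_smul, dn_T, one_pow, one_mul], fun τ => by rw [E4_smul, dn_S]; rfl⟩

theorem Lev1_wt_E6 : Wt 6 E6 :=
  ⟨fun τ => by rw [E6_smul, dn_T, one_pow, one_mul], fun τ => by rw [E6_smul, dn_S]; rfl⟩

theorem Lev1_wt_inv : Wt (-12) fun τ => (Dl τ)⁻¹ :=
  ⟨fun τ => by rw [Dl_smul, dn_T, one_pow, one_mul], fun τ => by
    rw [Dl_smul, dn_S, mul_inv]
    rfl⟩

theorem Lev1_wt_J (m : ℕ) : Wt 0 fun τ => J τ ^ m :=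
  ⟨fun τ => by rw [SP.J_smul], fun τ => by rw [SP.J_smul, zpow_zero, one_mul]⟩

theorem Lev1_qz_G (m : ℕ) : QZ (-(m + 1)) fun τ => J τ ^ m * (E4 τ * E4 τ * (Dl τ)⁻¹) :=
  Lev1_qz_congr ((qz_J_pow m).mul ((qz_E4.mul qz_E4).mul qz_Dl_inv)) (by omega) fun _ => rfl

theorem Lev1_wt_G (m : ℕ) : Wt (-4) fun τ => J τ ^ m * (E4 τ * E4 τ * (Dl τ)⁻¹) :=
  Lev1_wt_congr (Lev1_wt_mul (Lev1_wt_J m)
    (Lev1_wt_mul (Lev1_wt_mul Lev1_wt_E4 Lev1_wt_E4) Lev1_wt_inv)) rfl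

/-- Forms with prescribed principal part. -/
theorem Lev1_remove (A : Subring ℂ) {G : ℕ → ℍ → ℂ} (hG : ∀ m : ℕ, QZ (-(m + 1)) (G m)) {k : ℤ}
    (hw : ∀ m, Wt k (G m)) (n : ℕ) (c : ℤ → ℂ) (hc : ∀ ν, c ν ∈ A) :
    ∃ d g, QS 1 d g ∧ Wt k g ∧ (∀ ν, d ν ∈ A) ∧ (∀ ν < -(n : ℤ), d ν = 0) ∧
      ∀ ν, -(n : ℤ) ≤ ν → ν < 0 → d ν = c ν := by
  induction n generalizing c with
  | zero =>
    exact ⟨fun _ => 0, fun _ => 0, ⟨⟨0, fun _ _ => rfl⟩, fun τ => by simp⟩,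
      ⟨fun _ => rfl, fun _ => (mul_zero _).symm⟩, fun _ => zero_mem _, fun _ _ => rfl,
      fun ν h h' => by omega⟩
  | succ n ih =>
    obtain ⟨e, h1, h2, h3⟩ := hG n
    have h0 : ∀ ν, c (-(n + 1)) * e ν ∈ A := fun ν => mul_mem (hc _) (intCast_mem _ _)
    obtain ⟨d, g, h4, h5, h6, h7, h8⟩ := ih (fun ν => c ν - c (-(n + 1)) * e ν)
      fun ν => sub_mem (hc ν) (h0 ν)
    refine ⟨_, _, h4.add (h1.const_mul (c (-(n + 1)))),
      ⟨fun τ => by rw [h5.per, (hw n).per], fun τ => by rw [h5.inv, (hw n).inv]; ring⟩,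
      fun ν => add_mem (h6 ν) (h0 ν), fun ν h => ?_, fun ν h h' => ?_⟩
    · simp [h7 ν (by omega), h2 ν (by omega)]
    · by_cases h9 : ν = -(n + 1)
      · simp only [h9, h7 (-(n + 1)) (by omega), h3, Int.cast_one, mul_one, zero_add]
      · simp only [h8 ν (by omega) h', sub_add_cancel]

theorem Lev1_ct {c : ℤ → ℂ} {f : ℍ → ℂ} (h : QS 1 c f) : CT 1 f = c 0 :=
  h.ct one_pos (fun τ => by simpa using h.periodic one_pos τ) one_pos

theorem Lev1_zero {c : ℤ → ℂ} {f : ℍ → ℂ} (h : QS 1 c f) (hw : Wt 2 f) : c 0 = 0 := by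
  rw [← Lev1_ct h, CT_wt_two (h.hol one_pos) hw one_pos]

theorem Lev1_pair {n : ℕ} (hn : 1 ≤ n) {b e : ℤ → ℤ} {f g : ℍ → ℂ}
    (hf : QS 1 (fun ν => (b ν : ℂ)) f) (hw : Wt (-4) f) (h1 : b (-n) = 1)
    (h2 : ∀ ν : ℤ, ν < 0 → ν ≠ -n → b ν = 0) (hg : QS 1 (fun ν => (e ν : ℂ)) g) (hw' : Wt 6 g)
    (h3 : ∀ ν < -1, e ν = 0) : e n + b 0 * e 0 + b 1 * e (-1) = 0 := by
  have h4 := Lev1_zero (hf.mul hg (L := -n) (L' := -1)
    (fun ν h => by simp [h2 ν (by omega) h.ne]) fun ν h => by simp [h3 ν h])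
    (Lev1_wt_congr (Lev1_wt_mul hw hw') rfl)
  have h5 : ({-(n : ℤ), 0, 1} : Finset ℤ) ⊆ Finset.Icc (-n : ℤ) (0 - -1) := by
    intro x hx
    simp only [Finset.mem_insert, Finset.mem_singleton, Finset.mem_Icc] at hx ⊢
    omega
  rw [← Finset.sum_subset h5 fun x hx hx' => ?_, Finset.sum_insert (by simp; omega),
    Finset.sum_pair zero_ne_one, h1] at h4
  · simp only [zero_sub, neg_neg, neg_zero, Int.cast_one, one_mul, ← add_assoc] at h4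
    exact_mod_cast h4
  · simp only [Finset.mem_insert, Finset.mem_singleton, Finset.mem_Icc] at hx hx'
    rw [h2 x (by omega) (by omega), Int.cast_zero, zero_mul]

/-- The forms of weight `-4` with a gap in the principal part. -/
theorem exists_gap : ∃ (f : ℕ → ℍ → ℂ) (b : ℕ → ℤ → ℤ),
    (∀ n, 1 ≤ n → QS 1 (fun ν => (b n ν : ℂ)) (f n) ∧ Wt (-4) (f n) ∧ b n (-n) = 1 ∧
      ∀ ν : ℤ, ν < 0 → ν ≠ -n → b n ν = 0) ∧
    (∀ τ, f 1 τ = E4 τ ^ 2 / Dl τ) ∧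
    ∀ η : ℝ, 0 < η → ∃ C : ℝ, ∀ n, 1 ≤ n →
      |(b n 0 : ℝ)| ≤ C * Real.exp (η * n) ∧ |(b n 1 : ℝ)| ≤ C * Real.exp (η * n) := by
  have h0 : ∀ n : ℕ, ∃ (f : ℍ → ℂ) (b : ℤ → ℤ), (QS 1 (fun ν => (b ν : ℂ)) f ∧ Wt (-4) f ∧
      (1 ≤ n → b (-n) = 1) ∧ ∀ ν : ℤ, ν < 0 → ν ≠ -n → b ν = 0) ∧
      (n = 1 → ∀ τ, f τ = E4 τ ^ 2 / Dl τ) := by
    intro n
    by_cases hn : n = 1
    · subst hn
      obtain ⟨b, h1, h2, h3⟩ := Lev1_qz_G 0
      exact ⟨_, b, ⟨h1, Lev1_wt_G 0, fun _ => h3, fun ν h h' => h2 ν (by omega)⟩,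
        fun _ τ => by ring⟩
    · obtain ⟨d, g, h1, h2, h3, h4, h5⟩ := Lev1_remove (Int.castRingHom ℂ).range Lev1_qz_G
        Lev1_wt_G n (fun ν => if ν = -n then 1 else 0)
        fun ν => ite_mem.2 ⟨fun _ => one_mem _, fun _ => zero_mem _⟩
      choose b hb using h3
      simp only [eq_intCast] at hb
      refine ⟨g, b, ⟨h1.congr (fun ν => (hb ν).symm) fun _ => rfl, h2, fun h => ?_,
        fun ν h h' => ?_⟩, fun h => absurd h hn⟩
      · have h6 := (hb _).trans (h5 (-n) le_rfl (by omega))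
        rw [if_pos rfl] at h6
        exact_mod_cast h6
      · by_cases h6 : ν < -n
        · exact_mod_cast (hb ν).trans (h4 ν h6)
        · have h7 := (hb _).trans (h5 ν (not_lt.1 h6) h)
          rw [if_neg h'] at h7
          exact_mod_cast h7
  choose f b h1 h2 using h0
  refine ⟨f, b, fun n hn => ⟨(h1 n).1, (h1 n).2.1, (h1 n).2.2.1 hn, (h1 n).2.2.2⟩, h2 1 rfl,
    fun η hη => ?_⟩
  obtain ⟨e, he1, he2, he3⟩ := qz_E6
  obtain ⟨e', he1', he2', he3'⟩ := (qz_J_pow 1).mul qz_E6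
  obtain ⟨C, hC⟩ := he1.subexp one_pos hη
  obtain ⟨C', hC'⟩ := he1'.subexp one_pos hη
  refine ⟨|C| + |C'| + |C| * |(e' 0 : ℝ)|, fun n hn => ?_⟩
  have h3 := Lev1_pair hn (h1 n).1 (h1 n).2.1 ((h1 n).2.2.1 hn) (h1 n).2.2.2 he1 Lev1_wt_E6
    fun ν h => he2 ν (by omega)
  have h4 := Lev1_pair hn (h1 n).1 (h1 n).2.1 ((h1 n).2.2.1 hn) (h1 n).2.2.2 he1'
    (Lev1_wt_congr (Lev1_wt_mul (Lev1_wt_J 1) Lev1_wt_E6) rfl) he2'
  rw [he3, he2 (-1) (by norm_num)] at h3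
  rw [show e' (-1) = 1 from he3'] at h4
  have h5 := hC n (by omega)
  have h6 := hC' n (by omega)
  rw [Complex.norm_intCast, Int.cast_natCast] at h5 h6
  have h7 : (b n 0 : ℝ) = -e n := by exact_mod_cast (by linarith : b n 0 = -e n)
  have h8 : (b n 1 : ℝ) = -e' n + e n * e' 0 := by
    exact_mod_cast (by linear_combination h4 - e' 0 * h3 : b n 1 = -e' n + e n * e' 0)
  have h9 := Real.exp_pos (η * n)
  have h10 := h5.trans (mul_le_mul_of_nonneg_right (le_abs_self C) h9.le)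
  have h11 := h6.trans (mul_le_mul_of_nonneg_right (le_abs_self C') h9.le)
  have h12 := mul_le_mul_of_nonneg_right h10 (abs_nonneg (e' 0 : ℝ))
  have h13 : 0 ≤ |C| * Real.exp (η * n) * |(e' 0 : ℝ)| := by positivity
  have h14 : 0 ≤ |C'| * Real.exp (η * n) := by positivity
  have h15 : 0 ≤ |C| * Real.exp (η * n) := by positivity
  have h16 := abs_add_le (-(e' n : ℝ)) (e n * e' 0)
  rw [abs_neg, abs_mul] at h16
  rw [h7, h8, abs_neg]
  constructor <;> linarith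

/-- A periodic function orthogonal to all powers of `j` has weight two. -/
theorem wt_two_of_ct {c : ℤ → ℂ} {f : ℍ → ℂ} (h : QS 1 c f)
    (h0 : ∀ m : ℕ, CT 1 (fun τ => J τ ^ m * f τ) = 0) : Wt 2 f := by
  obtain ⟨L, hL⟩ := h.low
  obtain ⟨d, g, h1, h2, -, h3, h4⟩ := Lev1_remove ⊤
    (fun m => Lev1_qz_congr ((Lev1_qz_G m).mul qz_E6) (add_zero _) fun _ => rfl)
    (fun m => Lev1_wt_congr (k' := 2) (Lev1_wt_mul (Lev1_wt_G m) Lev1_wt_E6) rfl) (-L).toNat c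
    fun _ => Subring.mem_top _
  have h5 : ∀ m : ℕ, ∀ ν < (m : ℤ), c ν - d ν = 0 := by
    intro m
    induction m with
    | zero =>
      intro ν hν
      by_cases h6 : ν < -((-L).toNat : ℤ)
      · rw [hL ν (by omega), h3 ν h6, sub_zero]
      · rw [h4 ν (not_lt.1 h6) hν, sub_self]
    | succ m ih =>
      intro ν hν
      by_cases h6 : ν < m
      · exact ih ν h6
      · obtain rfl : ν = m := by omega
        obtain ⟨e, h7, h8, h9⟩ := qz_J_pow m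
        obtain ⟨c₁, h10⟩ := QS.exists_mul ⟨_, h7⟩ ⟨_, h⟩
        obtain ⟨c₂, h11⟩ := QS.exists_mul ⟨_, h7⟩ ⟨_, h1⟩
        have h12 := congrFun ((h7.mul (h.sub h1) (L := -m) (L' := m)
          (fun ν h => by simp [h8 ν h]) ih).unique one_pos
          ((h10.sub h11).congr (fun _ => rfl) fun τ => (mul_sub _ _ _).symm)) 0
        rw [← Lev1_ct h10, h0, Lev1_zero h11 (Lev1_wt_congr (Lev1_wt_mul (Lev1_wt_J m) h2) rfl)]
          at h12
        simpa [h9] using h12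
  have h6 : f = g := funext fun τ => by
    have h7 := (h.sub h1).sum τ
    simp only [fun ν : ℤ => h5 (ν.toNat + 1) ν (by omega), zero_mul] at h7
    exact sub_eq_zero.1 (h7.unique hasSum_zero)
  rwa [h6]

/-- Size of the discriminant. -/
theorem Dl_upper : ∃ C : ℝ, 0 < C ∧ ∀ τ : ℍ, ‖Dl τ‖ * τ.im ^ 6 ≤ C := by
  obtain ⟨C, hC⟩ := CuspFormClass.exists_bound CuspForm.discriminant
  refine ⟨max C 1, lt_max_of_lt_right one_pos, fun τ => le_trans ?_ (le_max_left _ _)⟩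
  have h := hC τ
  rw [show ((12 : ℤ) : ℝ) / 2 = (6 : ℕ) by norm_num, Real.rpow_natCast,
    le_div_iff₀ (pow_pos τ.im_pos 6)] at h
  exact h

theorem Dl_lower : ∃ c : ℝ, 0 < c ∧ ∀ τ ∈ 𝒟,
    c * Real.exp (-(2 * Real.pi * τ.im)) ≤ ‖Dl τ‖ * τ.im ^ 6 := by
  obtain ⟨c, h1, h2, -⟩ := qz_Dl_inv
  obtain ⟨C, hC0, hC⟩ := h1.bound one_pos (L := -1) (fun ν h => by simp [h2 ν h]) one_half_pos
  refine ⟨(64 * (C + 1))⁻¹, by positivity, fun τ hτ => ?_⟩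
  have h3 : 1 / 2 ≤ τ.im := by
    nlinarith [ModularGroup.three_le_four_mul_im_sq_of_mem_fd hτ, τ.im_pos]
  have h4 := hC τ h3
  have h5 := norm_pos_iff.2 (Dl_ne_zero τ)
  have h6 := Real.exp_pos (2 * Real.pi * τ.im)
  rw [norm_inv, inv_le_iff_one_le_mul₀ h5, show -(2 * Real.pi * ((-1 : ℤ) : ℝ) * τ.im / (1 : ℕ)) =
    2 * Real.pi * τ.im by push_cast; ring] at h4
  have h7 : (1 / 2 : ℝ) ^ 6 ≤ τ.im ^ 6 := by gcongr
  rw [Real.exp_neg, ← mul_inv, inv_le_iff_one_le_mul₀ (by positivity)]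
  have h8 : 1 ≤ (C + 1) * Real.exp (2 * Real.pi * τ.im) * ‖Dl τ‖ := h4.trans (by
    gcongr
    linarith)
  nlinarith [mul_le_mul h8 h7 (by positivity) (by positivity)]

theorem im_le_log_J : ∃ C : ℝ, ∀ τ ∈ 𝒟, τ.im ≤ C + Real.log (max 1 ‖J τ‖) := by
  obtain ⟨c, h1, h2, h3⟩ := qz_J_pow 1
  have h4 := (h1.tendsto one_pos (L := -(1 : ℕ)) fun ν h => by simp [h2 ν h]).norm
  rw [h3, Int.cast_one, norm_one] at h4
  obtain ⟨A, hA⟩ := (atImInfty_mem _).1 (h4.eventually (lt_mem_nhds one_half_lt_one))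
  refine ⟨max A (Real.log 2), fun τ _ => ?_⟩
  have h5 : 0 ≤ Real.log (max 1 ‖J τ‖) := Real.log_nonneg (le_max_left _ _)
  by_cases h6 : A ≤ τ.im
  · have h7 : 1 / 2 < ‖ee _ * J τ ^ 1‖ := hA τ h6
    rw [norm_mul, norm_ee, pow_one, Real.exp_neg, ← div_eq_inv_mul,
      lt_div_iff₀ (Real.exp_pos _)] at h7
    have h8 : Real.exp τ.im ≤ 2 * max 1 ‖J τ‖ := by
      refine le_trans (Real.exp_le_exp.2 ?_) (by linarith [le_max_right 1 ‖J τ‖])
      have h9 := Real.pi_gt_three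
      have h10 := τ.im_pos
      simp
      nlinarith
    rw [← Real.le_log_iff_exp_le (by positivity), Real.log_mul two_ne_zero (by positivity)] at h8
    linarith [le_max_right A (Real.log 2)]
  · linarith [le_max_left A (Real.log 2)]

end

end Pool.Agent.P.MP_a60a76_nt.Sz
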