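import Pool.Agent.P.MP_a60a76_nt.Sz.Defs2
import Pool.Agent.P.MP_a60a76_nt.Sz.Ev
import Pool.Agent.P.MP_a60a76_nt.Sz.Lev1

namespace Pool.Agent.P.MP_a60a76_nt.Sz

open UpperHalfPlane MeasureTheory SP
open scoped MatrixGroups UpperHalfPlane Matrix Modular Topology Classical ArithmeticFunction.sigma

noncomputable section

/-! The algebra of families. -/

namespace Par

variable {P : Par} {A A' : Subring ℂ} {n n' : ℕ} {f f' : P.GG → ℍ → ℍ → ℂ} {a a' : P.GG → PS}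

theorem Cv.add {a b : PowerSeries ℂ} {F G : ℍ → ℂ} (ha : P.Cv a F) (hb : P.Cv b G) :
    P.Cv (a + b) fun τ => F τ + G τ := by
  intro τ
  simp only [map_add, add_mul]
  exact (ha τ).add (hb τ)

theorem Cv.sub {a b : PowerSeries ℂ} {F G : ℍ → ℂ} (ha : P.Cv a F) (hb : P.Cv b G) :
    P.Cv (a - b) fun τ => F τ - G τ := by
  intro τ
  simp only [map_sub, sub_mul]
  exact (ha τ).sub (hb τ)

theorem Cv.mul {a b : PowerSeries ℂ} {F G : ℍ → ℂ} (ha : P.Cv a F) (hb : P.Cv b G) :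
    P.Cv (a * b) fun τ => F τ * G τ := by
  intro τ
  have h1 := (ha τ).summable.norm
  have h2 := (hb τ).summable.norm
  have h3 := (summable_norm_sum_mul_antidiagonal_of_summable_norm h1 h2).of_norm.hasSum
  rw [← tsum_mul_tsum_eq_tsum_sum_antidiagonal_of_summable_norm h1 h2, (ha τ).tsum_eq,
    (hb τ).tsum_eq] at h3
  refine (congrArg (HasSum · _) (funext fun k => ?_)).mp h3
  rw [PowerSeries.coeff_mul, Finset.sum_mul]
  refine Finset.sum_congr rfl fun x hx => ?_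
  rw [← Finset.HasAntidiagonal.mem_antidiagonal.1 hx, pow_add]
  ring

theorem cv_C (P : Par) (z : ℂ) : P.Cv (PowerSeries.C z) fun _ => z := by
  intro τ
  have h := hasSum_ite_eq (0 : ℕ) z
  refine (congrArg (HasSum · _) (funext fun k => ?_)).mp h
  rw [PowerSeries.coeff_C]
  split_ifs with hk
  · rw [hk, pow_zero, mul_one]
  · rw [zero_mul]

theorem Cv.pow {a : PowerSeries ℂ} {F : ℍ → ℂ} (ha : P.Cv a F) (n : ℕ) :
    P.Cv (a ^ n) fun τ => F τ ^ n := by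
  induction n with
  | zero =>
    simp only [pow_zero]
    exact map_one (PowerSeries.C (R := ℂ)) ▸ cv_C P 1
  | succ n ih =>
    simp only [pow_succ]
    exact ih.mul ha

theorem cv_prod {ι : Type} (S : Finset ι) {a : ι → PowerSeries ℂ} {F : ι → ℍ → ℂ}
    (h : ∀ i ∈ S, P.Cv (a i) (F i)) : P.Cv (∏ i ∈ S, a i) fun τ => ∏ i ∈ S, F i τ := by
  induction S using Finset.induction_on with
  | empty =>
    simp only [Finset.prod_empty]
    exact map_one (PowerSeries.C (R := ℂ)) ▸ cv_C P 1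
  | insert i S hi ih =>
    simp only [Finset.prod_insert hi]
    exact (h i (Finset.mem_insert_self _ _)).mul
      (ih fun j hj => h j (Finset.mem_insert_of_mem hj))

theorem Cv.unique {a b : PowerSeries ℂ} {F : ℍ → ℂ} (ha : P.Cv a F) (hb : P.Cv b F) : a = b := by
  have h := pow_unique (a := fun k => PowerSeries.coeff k a) (b := fun k => PowerSeries.coeff k b)
    one_pos fun t h0 h1 => by
      obtain ⟨τ, rfl⟩ := P.exists_sv h0 h1
      exact ⟨F τ, ha τ, hb τ⟩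
  exact PowerSeries.ext fun k => congrFun h k

theorem hasSum_es (P : Par) {K : Type} [NormedField K] (φ : ℂ →+* K) {b : ℕ → ℤ} {s x : K}
    (h : HasSum (fun n => (b n : K) * (s ^ P.p) ^ n) x) :
    HasSum (fun k => φ (P.es b k) * s ^ k) x := by
  have hg : Function.Injective fun n : ℕ => P.p * n := mul_right_injective₀ P.prime.ne_zero
  refine (hg.hasSum_iff fun k hk => ?_).1 ((congrArg (HasSum · _) (funext fun k => ?_)).mp h)
  · rw [es, if_neg fun ⟨m, hm⟩ => hk ⟨m, hm.symm⟩, map_zero, zero_mul]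
  · rw [Function.comp_apply, es, if_pos (dvd_mul_right _ _),
      Nat.mul_div_cancel_left _ P.prime.pos, map_intCast, pow_mul]

theorem cv_es (P : Par) {b : ℕ → ℤ} {F : ℍ → ℂ}
    (h : ∀ τ : ℍ, HasSum (fun n => (b n : ℂ) * ee τ ^ n) (F τ)) :
    P.Cv (PowerSeries.mk (P.es b)) F := by
  intro τ
  have h1 := h τ
  rw [← P.sv_pow_p] at h1
  simp only [PowerSeries.coeff_mk]
  exact hasSum_es P (RingHom.id ℂ) h1

theorem es_mem (P : Par) (b : ℕ → ℤ) (A : Subring ℂ) (k : ℕ) : P.es b k ∈ A := by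
  rw [es]
  split_ifs
  · exact intCast_mem A _
  · exact A.zero_mem

theorem map_es (P : Par) (b : ℕ → ℤ) (s : ℂ →+* ℂ) (k : ℕ) : s (P.es b k) = P.es b k := by
  rw [es]
  split_ifs
  · exact map_intCast s _
  · exact map_zero s

theorem ab_in_c {b : ℕ → ℂ} {F : ℍ → ℂ} (h : ∀ τ, HasSum (fun k => b k * P.sv τ ^ k) (F τ))
    (t₁ t₂ : ℍ) :
    (Ab (RingHom.id ℂ) (in1 b) (P.sv t₁) (P.sv t₂) ∧
      ev (RingHom.id ℂ) (in1 b) (P.sv t₁) (P.sv t₂) = F t₁) ∧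
    Ab (RingHom.id ℂ) (in2 b) (P.sv t₁) (P.sv t₂) ∧
      ev (RingHom.id ℂ) (in2 b) (P.sv t₁) (P.sv t₂) = F t₂ := by
  have hs : ∀ τ, Summable fun k => ‖RingHom.id ℂ (b k)‖ * ‖P.sv τ‖ ^ k := fun τ => by
    have h1 := (h τ).summable.norm
    simp only [norm_mul, norm_pow] at h1
    exact h1
  exact ⟨⟨(ab_in1 (hs t₁) _).1, (ab_in1 (hs t₁) _).2.trans (h t₁).tsum_eq⟩,
    (ab_in2 (hs t₂) _).1, (ab_in2 (hs t₂) _).2.trans (h t₂).tsum_eq⟩

theorem ev_es (P : Par) {K : Type} [NormedField K] [IsUltrametricDist K] [CompleteSpace K]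
    (φ : ℂ →+* K) (b : ℕ → ℤ) {s t : K} (hs : ‖s‖ < 1) (ht : ‖t‖ < 1) :
    ev φ (in1 (P.es b)) s t = evq b (s ^ P.p) ∧ ev φ (in2 (P.es b)) s t = evq b (t ^ P.p) := by
  have h1 : ∀ u : K, ‖u‖ < 1 → Summable fun k => ‖φ (P.es b k)‖ * ‖u‖ ^ k := fun u hu => by
    refine Summable.of_nonneg_of_le (fun k => by positivity) (fun k => ?_)
      (summable_geometric_of_lt_one (norm_nonneg u) hu)
    refine mul_le_of_le_one_left (by positivity) ?_
    rw [es]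
    split_ifs
    · rw [map_intCast]
      exact IsUltrametricDist.norm_intCast_le_one K _
    · rw [map_zero, norm_zero]
      exact zero_le_one
  have h2 : ∀ u : K, ‖u‖ < 1 → ∑' k, φ (P.es b k) * u ^ k = evq b (u ^ P.p) := fun u hu => by
    refine (hasSum_es P φ (Summable.hasSum ?_)).tsum_eq
    have h3 : ‖u ^ P.p‖ < 1 := by
      rw [norm_pow]
      exact pow_lt_one₀ (norm_nonneg u) hu P.prime.ne_zero
    refine Summable.of_norm_bounded (summable_geometric_of_lt_one (norm_nonneg _) h3) fun k => ?_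
    rw [norm_mul, norm_pow]
    exact mul_le_of_le_one_left (by positivity) (IsUltrametricDist.norm_intCast_le_one K _)
  exact ⟨(ab_in1 (h1 s hs) t).2.trans (h2 s hs), (ab_in2 (h1 t ht) s).2.trans (h2 t ht)⟩

theorem inA_in {b : ℕ → ℂ} (h : ∀ k, b k ∈ A) : InA A (in1 b) ∧ InA A (in2 b) := by
  refine ⟨fun d => ?_, fun d => ?_⟩
  · change (if d 1 = 0 then b (d 0) else 0) ∈ A
    split_ifs
    · exact h _
    · exact A.zero_mem
  · change (if d 0 = 0 then b (d 1) else 0) ∈ A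
    split_ifs
    · exact h _
    · exact A.zero_mem

theorem map_in (s : ℂ →+* ℂ) (b : ℕ → ℂ) :
    MvPowerSeries.map s (in1 b) = in1 (fun k => s (b k)) ∧
      MvPowerSeries.map s (in2 b) = in2 fun k => s (b k) := by
  refine ⟨MvPowerSeries.ext fun d => ?_, MvPowerSeries.ext fun d => ?_⟩
  · rw [MvPowerSeries.coeff_map]
    change s (if d 1 = 0 then b (d 0) else 0) = if d 1 = 0 then s (b (d 0)) else 0
    split_ifs
    · rfl
    · exact map_zero s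
  · rw [MvPowerSeries.coeff_map]
    change s (if d 0 = 0 then b (d 1) else 0) = if d 0 = 0 then s (b (d 1)) else 0
    split_ifs
    · rfl
    · exact map_zero s

theorem FamA_dls (P : Par) (τ : ℍ) : HasSum (fun k => P.dls k * P.sv τ ^ k) (Dl τ) := by
  have h := cv_es P hasSum_Dl τ
  simp only [PowerSeries.coeff_mk] at h
  exact h

theorem FamA_map_dls (P : Par) (s : ℂ →+* ℂ) :
    MvPowerSeries.map s (in1 P.dls) = in1 P.dls ∧ MvPowerSeries.map s (in2 P.dls) = in2 P.dls := by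
  have e : (fun k => s (P.dls k)) = P.dls := funext fun k => map_es P dlc s k
  have h := map_in s P.dls
  rwa [e] at h

theorem FamA_inA_dls (P : Par) (A : Subring ℂ) : InA A (in1 P.dls) ∧ InA A (in2 P.dls) :=
  inA_in fun k => es_mem P dlc A k

theorem FamA_D2 (P : Par) (t₁ t₂ : ℍ) : Ab (RingHom.id ℂ) P.D2 (P.sv t₁) (P.sv t₂) ∧
    ev (RingHom.id ℂ) P.D2 (P.sv t₁) (P.sv t₂) = Dl t₁ * Dl t₂ := by
  obtain ⟨⟨h1, h2⟩, h3, h4⟩ := ab_in_c (FamA_dls P) t₁ t₂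
  exact ⟨(h1.mul h3).1, by rw [D2, (h1.mul h3).2, h2, h4]⟩

theorem FamA_Dl_T (x : ℤ) (τ : ℍ) : Dl (ModularGroup.T ^ x • τ) = Dl τ := by
  have e : dn ((ModularGroup.T ^ x : SL(2, ℤ)) : MZ) τ = 1 := by
    rw [ModularGroup.coe_T_zpow]
    simp [dn]
  rw [Dl_smul, e, one_pow, one_mul]

theorem Fam.le (h : P.Fam A n f a) (hA : A ≤ A') : P.Fam A' n f a :=
  ⟨fun γ d => hA (h.mem γ d), h.ab, h.val, h.geo, h.gal⟩

theorem Fam.unique (h : P.Fam A n f a) (h' : P.Fam A' n f a') : a = a' := by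
  funext γ
  exact P.ps_unique 0 fun t₁ t₂ _ _ =>
    ⟨h.ab γ t₁ t₂, h'.ab γ t₁ t₂, (h.val γ t₁ t₂).symm.trans (h'.val γ t₁ t₂)⟩

theorem Fam.add (h : P.Fam A n f a) (h' : P.Fam A n f' a') : P.Fam A n (f + f') (a + a') := by
  refine ⟨fun γ => (inA A).add_mem (h.mem γ) (h'.mem γ),
    fun γ t₁ t₂ => ((h.ab γ t₁ t₂).add (h'.ab γ t₁ t₂)).1, fun γ t₁ t₂ => ?_,
    fun γ g₁ g₂ t₁ t₂ => ?_, fun s d hs γ => ?_⟩
  · simp only [Pi.add_apply]
    rw [((h.ab γ t₁ t₂).add (h'.ab γ t₁ t₂)).2, ← h.val, ← h'.val, add_mul]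
  · simp only [Pi.add_apply]
    rw [h.geo, h'.geo]
  · simp only [Pi.add_apply]
    rw [h.gal s d hs, h'.gal s d hs, map_add]

theorem Fam.neg (h : P.Fam A n f a) : P.Fam A n (-f) (-a) := by
  refine ⟨fun γ => (inA A).neg_mem (h.mem γ), fun γ t₁ t₂ => (h.ab γ t₁ t₂).neg.1,
    fun γ t₁ t₂ => ?_, fun γ g₁ g₂ t₁ t₂ => ?_, fun s d hs γ => ?_⟩
  · simp only [Pi.neg_apply]
    rw [(h.ab γ t₁ t₂).neg.2, ← h.val, neg_mul]
  · simp only [Pi.neg_apply]
    rw [h.geo]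
  · simp only [Pi.neg_apply]
    rw [h.gal s d hs, map_neg]

theorem Fam.mul (h : P.Fam A n f a) (h' : P.Fam A n' f' a') :
    P.Fam A (n + n') (f * f') (a * a') := by
  refine ⟨fun γ => (inA A).mul_mem (h.mem γ) (h'.mem γ),
    fun γ t₁ t₂ => ((h.ab γ t₁ t₂).mul (h'.ab γ t₁ t₂)).1, fun γ t₁ t₂ => ?_,
    fun γ g₁ g₂ t₁ t₂ => ?_, fun s d hs γ => ?_⟩
  · simp only [Pi.mul_apply]
    rw [((h.ab γ t₁ t₂).mul (h'.ab γ t₁ t₂)).2, ← h.val, ← h'.val, pow_add]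
    ring
  · simp only [Pi.mul_apply]
    rw [h.geo, h'.geo]
  · simp only [Pi.mul_apply]
    rw [h.gal s d hs, h'.gal s d hs, map_mul]

theorem fam_one (P : Par) (A : Subring ℂ) : P.Fam A 0 1 1 := by
  refine ⟨fun γ => (inA A).one_mem, fun γ t₁ t₂ => (ab_one _ _ _).1, fun γ t₁ t₂ => ?_,
    fun γ g₁ g₂ t₁ t₂ => rfl, fun s d hs γ => ?_⟩
  · simp only [Pi.one_apply]
    rw [(ab_one _ _ _).2, pow_zero, mul_one]
  · simp only [Pi.one_apply]
    rw [map_one]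

theorem fam_zero (P : Par) (A : Subring ℂ) (n : ℕ) : P.Fam A n 0 0 := by
  have h := fun t₁ t₂ : ℍ => ab_C (RingHom.id ℂ) 0 (P.sv t₁) (P.sv t₂)
  simp only [map_zero] at h
  refine ⟨fun γ => (inA A).zero_mem, fun γ t₁ t₂ => (h t₁ t₂).1, fun γ t₁ t₂ => ?_,
    fun γ g₁ g₂ t₁ t₂ => rfl, fun s d hs γ => ?_⟩
  · simp only [Pi.zero_apply]
    rw [(h t₁ t₂).2, zero_mul]
  · simp only [Pi.zero_apply]
    rw [map_zero]

theorem Fam.raise (h : P.Fam A n f a) (k : ℕ) :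
    P.Fam A (n + k) f fun γ => a γ * P.D2 ^ k := by
  refine ⟨fun γ => (inA A).mul_mem (h.mem γ) ((inA A).pow_mem
      ((inA A).mul_mem (FamA_inA_dls P A).1 (FamA_inA_dls P A).2) k),
    fun γ t₁ t₂ => ((h.ab γ t₁ t₂).mul ((FamA_D2 P t₁ t₂).1.pow k).1).1, fun γ t₁ t₂ => ?_,
    h.geo, fun s d hs γ => ?_⟩
  · rw [((h.ab γ t₁ t₂).mul ((FamA_D2 P t₁ t₂).1.pow k).1).2, ((FamA_D2 P t₁ t₂).1.pow k).2,
      (FamA_D2 P t₁ t₂).2, ← h.val, pow_add, mul_assoc]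
  · rw [h.gal s d hs, map_mul, map_pow, D2, map_mul, (FamA_map_dls P _).1, (FamA_map_dls P _).2]

theorem Fam.translate (h : P.Fam A n f a) (δ : P.GG) :
    P.Fam A n (fun γ => f (δ * γ)) fun γ => a (δ * γ) := by
  refine ⟨fun γ => h.mem _, fun γ => h.ab _, fun γ => h.val _, fun γ g₁ g₂ t₁ t₂ => ?_,
    fun s d hs γ => ?_⟩
  · rw [← mul_assoc, h.geo]
  · rw [← mul_assoc, h.gal s d hs]

theorem fam_prod {ι : Type} (S : Finset ι) {f : ι → P.GG → ℍ → ℍ → ℂ} {a : ι → P.GG → PS}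
    (h : ∀ i ∈ S, P.Fam A n (f i) (a i)) :
    P.Fam A (n * S.card) (∏ i ∈ S, f i) (∏ i ∈ S, a i) := by
  induction S using Finset.induction_on with
  | empty =>
    simp only [Finset.prod_empty, Finset.card_empty, mul_zero]
    exact fam_one P A
  | insert i S hi ih =>
    rw [Finset.prod_insert hi, Finset.prod_insert hi, Finset.card_insert_of_notMem hi, mul_add,
      mul_one, add_comm]
    exact (h i (Finset.mem_insert_self _ _)).mul
      (ih fun j hj => h j (Finset.mem_insert_of_mem hj))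

theorem fam_sum {ι : Type} (S : Finset ι) {f : ι → P.GG → ℍ → ℍ → ℂ} {a : ι → P.GG → PS}
    (h : ∀ i ∈ S, P.Fam A n (f i) (a i)) : P.Fam A n (∑ i ∈ S, f i) (∑ i ∈ S, a i) := by
  induction S using Finset.induction_on with
  | empty =>
    simp only [Finset.sum_empty]
    exact fam_zero P A n
  | insert i S hi ih =>
    rw [Finset.sum_insert hi, Finset.sum_insert hi]
    exact (h i (Finset.mem_insert_self _ _)).add
      (ih fun j hj => h j (Finset.mem_insert_of_mem hj))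

/-- The effect of translations on the coefficients. -/
theorem Fam.coeff_T (h : P.Fam A n f a) (γ : P.GG) (x y : ℤ) (m k : ℕ) :
    MvPowerSeries.coeff (ixx m k) (a (γ * P.rG (ModularGroup.T ^ x) (ModularGroup.T ^ y))) =
      P.zp x ^ m * P.zp y ^ k * MvPowerSeries.coeff (ixx m k) (a γ) := by
  let b : PS := fun d => P.zp x ^ d 0 * P.zp y ^ d 1 * MvPowerSeries.coeff d (a γ)
  have hb : ∀ d, MvPowerSeries.coeff d b =
      P.zp x ^ d 0 * P.zp y ^ d 1 * MvPowerSeries.coeff d (a γ) := fun d => rfl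
  have e : a (γ * P.rG (ModularGroup.T ^ x) (ModularGroup.T ^ y)) = b := by
    refine P.ps_unique 0 fun t₁ t₂ _ _ => ⟨h.ab _ t₁ t₂, ?_, ?_⟩
    · have h1 := h.ab γ t₁ t₂
      simp only [Ab, hb, RingHom.id_apply, norm_mul, norm_pow, norm_zp, one_pow, one_mul] at h1 ⊢
      exact h1
    · rw [← h.val, h.geo, ← FamA_Dl_T x t₁, ← FamA_Dl_T y t₂, h.val, sv_T_zpow, sv_T_zpow, ev, ev]
      refine tsum_congr fun d => ?_
      simp only [hb, RingHom.id_apply, mul_pow]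
      ring
  rw [e, hb, ixx_zero, ixx_one]

theorem Fam1.fst {f : P.GF → ℍ → ℂ} {a : P.GF → ℕ → ℂ} (h : P.Fam1 A n f a) :
    P.Fam A n (fun γ t₁ _ => f γ.1.1 t₁) fun γ => in1 (a γ.1.1) * in2 P.dls ^ n := by
  have h1 := fun (γ : P.GG) t₁ t₂ => (ab_in_c (h.val γ.1.1) t₁ t₂).1
  have h2 := fun t₁ t₂ => (ab_in_c (FamA_dls P) t₁ t₂).2
  refine ⟨fun γ => (inA A).mul_mem (inA_in (h.mem _)).1 ((inA A).pow_mem (FamA_inA_dls P A).2 n),
    fun γ t₁ t₂ => ((h1 γ t₁ t₂).1.mul ((h2 t₁ t₂).1.pow n).1).1, fun γ t₁ t₂ => ?_,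
    fun γ g₁ g₂ t₁ t₂ => h.geo γ.1.1 g₁ t₁, fun s d hs γ => ?_⟩
  · rw [((h1 γ t₁ t₂).1.mul ((h2 t₁ t₂).1.pow n).1).2, ((h2 t₁ t₂).1.pow n).2, (h1 γ t₁ t₂).2,
      (h2 t₁ t₂).2, mul_pow, mul_assoc]
  · have e : a (γ * P.diagG (P.dg d)).1.1 = fun k => (s : ℂ →+* ℂ) (a γ.1.1 k) :=
      funext fun k => h.gal s d hs γ.1.1 k
    rw [e, map_mul, map_pow, (FamA_map_dls P _).2, (map_in _ _).1]

theorem Fam1.snd {f : P.GF → ℍ → ℂ} {a : P.GF → ℕ → ℂ} (h : P.Fam1 A n f a) :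
    P.Fam A n (fun γ _ t₂ => f γ.1.2 t₂) fun γ => in1 P.dls ^ n * in2 (a γ.1.2) := by
  have h1 := fun (γ : P.GG) t₁ t₂ => (ab_in_c (h.val γ.1.2) t₁ t₂).2
  have h2 := fun t₁ t₂ => (ab_in_c (FamA_dls P) t₁ t₂).1
  refine ⟨fun γ => (inA A).mul_mem ((inA A).pow_mem (FamA_inA_dls P A).1 n) (inA_in (h.mem _)).2,
    fun γ t₁ t₂ => (((h2 t₁ t₂).1.pow n).1.mul (h1 γ t₁ t₂).1).1, fun γ t₁ t₂ => ?_,
    fun γ g₁ g₂ t₁ t₂ => h.geo γ.1.2 g₂ t₂, fun s d hs γ => ?_⟩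
  · rw [(((h2 t₁ t₂).1.pow n).1.mul (h1 γ t₁ t₂).1).2, ((h2 t₁ t₂).1.pow n).2, (h1 γ t₁ t₂).2,
      (h2 t₁ t₂).2, mul_pow]
    ring
  · have e : a (γ * P.diagG (P.dg d)).1.2 = fun k => (s : ℂ →+* ℂ) (a γ.1.2 k) :=
      funext fun k => h.gal s d hs γ.1.2 k
    rw [e, map_mul, map_pow, (FamA_map_dls P _).1, (map_in _ _).2]

/-- The ring of families. -/
def famRing (P : Par) (A : Subring ℂ) : Subring (P.GG → ℍ → ℍ → ℂ) where
  carrier := {f | ∃ n a, P.Fam A n f a}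
  mul_mem' := by
    rintro f g ⟨n, a, h⟩ ⟨m, b, h'⟩
    exact ⟨_, _, h.mul h'⟩
  one_mem' := ⟨_, _, fam_one P A⟩
  add_mem' := by
    rintro f g ⟨n, a, h⟩ ⟨m, b, h'⟩
    have h2 := h'.raise n
    rw [add_comm] at h2
    exact ⟨_, _, (h.raise m).add h2⟩
  zero_mem' := ⟨0, _, fam_zero P A 0⟩
  neg_mem' := by
    rintro f ⟨n, a, h⟩
    exact ⟨_, _, h.neg⟩

/-- Translation of families. -/
def famTr (P : Par) (A : Subring ℂ) (δ : P.GG) : P.famRing A →+* P.famRing A where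
  toFun f := ⟨fun γ => f.1 (δ * γ), by
    obtain ⟨n, a, h⟩ := f.2
    exact ⟨n, _, h.translate δ⟩⟩
  map_one' := rfl
  map_mul' _ _ := rfl
  map_zero' := rfl
  map_add' _ _ := rfl

end Par

end

end Pool.Agent.P.MP_a60a76_nt.Sz
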