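import Pool.Agent.P.MP_a60a76_nt.Sz.Defs2
import Pool.Agent.P.MP_a60a76_nt.Sz.Iner

namespace Pool.Agent.P.MP_a60a76_nt.Sz

open UpperHalfPlane MeasureTheory SP
open scoped MatrixGroups UpperHalfPlane Matrix Modular Topology Classical ArithmeticFunction.sigma

noncomputable section

/-! Places of the complex numbers. -/

theorem Plc_card_le {D X : Type} [MetricSpace X] {f : D → X} (hf : DenseRange f)
    (hD : Cardinal.mk D ≤ Cardinal.continuum) : Cardinal.mk X ≤ Cardinal.continuum := by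
  have h : ∀ x : X, ∃ u : ℕ → D, Filter.Tendsto (fun n => f (u n)) Filter.atTop (𝓝 x) := fun x => by
    obtain ⟨v, hv, hx⟩ := mem_closure_iff_seq_limit.1 (hf x)
    choose u hu using hv
    exact ⟨u, by simpa only [hu] using hx⟩
  choose u hu using h
  have hinj : Function.Injective u := fun x y hxy =>
    tendsto_nhds_unique (hu x) (hxy ▸ hu y)
  refine (Cardinal.mk_le_of_injective hinj).trans ?_
  rw [← Cardinal.power_def, Cardinal.mk_nat, ← Cardinal.continuum_power_aleph0]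
  exact Cardinal.power_le_power_right hD

theorem Plc_card (l : ℕ) [Fact l.Prime] : Cardinal.mk (PadicComplex l) = Cardinal.continuum := by
  refine le_antisymm ?_ (continuum_le_cardinal_of_nontriviallyNormedField _)
  refine Plc_card_le (f := ((↑) : PadicAlgCl l → PadicComplex l))
    UniformSpace.Completion.denseRange_coe ?_
  refine (Algebra.IsAlgebraic.cardinalMk_le_max ℚ_[l] (PadicAlgCl l)).trans
    (max_le ?_ Cardinal.aleph0_le_continuum)
  exact Plc_card_le (Padic.denseRange_ratCast l)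
    (Cardinal.mk_le_aleph0.trans Cardinal.aleph0_le_continuum)

theorem exists_place (l : ℕ) [Fact l.Prime] :
    ∃ ι : ℂ ≃+* PadicComplex l, ∀ q : ℚ, ‖ι q‖ = padicNorm l q := by
  obtain ⟨ι⟩ := IsAlgClosed.ringEquiv_of_equiv_of_charZero (K := ℂ) (L := PadicComplex l)
    (by rw [Cardinal.mk_complex]; exact Cardinal.aleph0_lt_continuum)
    (Cardinal.eq.1 (Cardinal.mk_complex.trans (Plc_card l).symm))
  refine ⟨ι, fun q => ?_⟩
  rw [map_ratCast, ← Padic.eq_padicNorm, ← map_ratCast (algebraMap ℚ_[l] (PadicComplex l)) q,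
    norm_algebraMap']

theorem Plc_norm_of_pos {l : ℕ} (hl : l.Prime) {j : ℚ} (h : 0 < padicValNat l j.den) :
    (padicNorm l j : ℝ) = (l : ℝ) ^ padicValNat l j.den := by
  have := Fact.mk hl
  have h0 : j ≠ 0 := by
    rintro rfl
    simp at h
  have h1 : l ∣ j.den := dvd_of_one_le_padicValNat h
  have h2 : padicValInt l j.num = 0 := by
    refine padicValNat.eq_zero_of_not_dvd fun h3 => hl.one_lt.ne' ?_
    exact Nat.eq_one_of_dvd_coprimes j.reduced h3 h1
  rw [padicNorm.eq_zpow_of_nonzero h0, padicValRat_def, h2]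
  simp

theorem max_padicNorm {l : ℕ} (hl : l.Prime) (j : ℚ) :
    max 1 (padicNorm l j : ℝ) = (l : ℝ) ^ padicValNat l j.den := by
  have h1 : (1 : ℝ) ≤ l := by exact_mod_cast hl.one_le
  rcases Nat.eq_zero_or_pos (padicValNat l j.den) with h | h
  · rw [h, pow_zero, max_eq_left]
    by_cases h0 : j = 0
    · simp [h0]
    · rw [padicNorm.eq_zpow_of_nonzero h0, padicValRat_def, h]
      push_cast
      exact zpow_le_one_of_nonpos₀ h1 (by simp)
  · rw [Plc_norm_of_pos hl h, max_eq_right (one_le_pow₀ h1)]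

theorem padicNorm_of_pos {l : ℕ} (hl : l.Prime) {j : ℚ} (h : 0 < padicValNat l j.den) :
    (padicNorm l j : ℝ) = (l : ℝ) ^ padicValNat l j.den := by
  exact Plc_norm_of_pos hl h

theorem den_ne_one {l : ℕ} {j : ℚ} (h : 0 < padicValNat l j.den) : j.den ≠ 1 := by
  intro h1
  simp [h1] at h

theorem Plc_norm_one {K : Type} [NormedField K] {x : K} {n : ℕ} (hn : n ≠ 0) (h : ‖x‖ ^ n = 1) :
    ‖x‖ = 1 :=
  (pow_eq_one_iff_of_nonneg (norm_nonneg _) hn).1 h

/-- A root of unity of invertible order which is close to one is equal to one. -/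
theorem Plc_root {K : Type} [NormedField K] [IsUltrametricDist K] {n : ℕ} (hn : ‖(n : K)‖ = 1)
    {μ : K} (hμ : μ ^ n = 1) (h : ‖μ - 1‖ < 1) : μ = 1 := by
  by_contra h1
  have hn0 : n ≠ 0 := by
    rintro rfl
    simp at hn
  have h2 : ∑ i ∈ Finset.range n, μ ^ i = 0 := by
    have := geom_sum_mul μ n
    rw [hμ, sub_self] at this
    exact (mul_eq_zero.1 this).resolve_right (sub_ne_zero.2 h1)
  have h3 : (n : K) = ∑ i ∈ Finset.range n, (1 ^ i - μ ^ i) := by
    rw [Finset.sum_sub_distrib, h2]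
    simp
  have h4 : ‖μ‖ = 1 := Plc_norm_one hn0 (by rw [← norm_pow, hμ, norm_one])
  have h5 : ‖(n : K)‖ ≤ ‖1 - μ‖ := by
    rw [h3]
    exact IsUltrametricDist.norm_sum_le_of_forall_le_of_nonneg (norm_nonneg _) fun i _ =>
      Iner_pow_sub norm_one.le h4.le i
  rw [hn, norm_sub_rev] at h5
  exact absurd h (not_lt.2 h5)

namespace Par

variable {P : Par} {K : Type} [NormedField K] [IsUltrametricDist K]

theorem Plc_exists_zp (P : Par) {w : ℂ} (hw : w ^ P.p = 1) : ∃ c, w = P.zp c := by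
  have h1 : IsPrimitiveRoot (P.zp 1) P.p := by
    have := Complex.isPrimitiveRoot_exp P.p P.prime.ne_zero
    have e : P.zp 1 = Complex.exp (2 * Real.pi * Complex.I / P.p) := by
      have := P.zp_int 1
      rw [Int.cast_one] at this
      rw [this, ee]
      congr 1
      push_cast
      ring
    rwa [e]
  obtain ⟨i, -, hi⟩ := h1.eq_pow_of_pow_eq_one hw
  exact ⟨i, by rw [← hi, ← zp_nat_mul, mul_one]⟩

omit [IsUltrametricDist K] in
theorem Plc_norm_zp (ι : ℂ →+* K) (x : P.F) : ‖ι (P.zp x)‖ = 1 :=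
  Plc_norm_one P.prime.ne_zero (by rw [← norm_pow, ← map_pow, zp_pow_p, map_one, norm_one])

theorem norm_map_zp (ι : ℂ →+* K) (x : P.F) : ‖ι (P.zp x)‖ = 1 := by
  exact Plc_norm_zp ι x

theorem zp_mem_Ai (ι : ℂ →+* K) (x : P.F) : P.zp x ∈ Ai ι := by
  exact (norm_map_zp ι x).le

theorem norm_zp_sub (ι : ℂ →+* K) (hp : ‖(P.p : K)‖ = 1) {x y : P.F} (h : x ≠ y) :
    ‖ι (P.zp x - P.zp y)‖ = 1 := by
  have e : P.zp x - P.zp y = (P.zp (x - y) - 1) * P.zp y := by
    rw [sub_mul, ← zp_add, sub_add_cancel, one_mul]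
  rw [e, map_mul, norm_mul, norm_map_zp, mul_one, map_sub, map_one]
  refine le_antisymm ?_ (not_lt.1 fun h1 => h ?_)
  · rw [sub_eq_add_neg]
    exact (IsUltrametricDist.norm_add_le_max _ _).trans (max_le (norm_map_zp ι _).le (by simp))
  · have h2 := Plc_root hp (by rw [← map_pow, zp_pow_p, map_one]) h1
    rw [← map_one ι, ← P.zp_zero] at h2
    exact sub_eq_zero.1 (P.zp_injective (ι.injective h2))

theorem exists_plc (P : Par) (l : ℕ) [Fact l.Prime] (hl : l ≠ P.p) :
    Nonempty (P.Plc l (PadicComplex l)) := by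
  obtain ⟨ι, hι⟩ := exists_place l
  obtain ⟨s, h1, h2, r, hr, hs⟩ := exists_inertia l P.prime hl
  have hl0 : (l : PadicComplex l) ≠ 0 := by exact_mod_cast (Fact.out : l.Prime).ne_zero
  have hr0 : r ≠ 0 := by
    rintro rfl
    rw [zero_pow P.prime.ne_zero] at hr
    exact hl0 hr.symm
  obtain ⟨c, hc⟩ := P.Plc_exists_zp (w := ι.symm (s r / r)) (by
    rw [← map_pow, div_pow, ← map_pow, hr, map_natCast, div_self hl0, map_one])
  have hc' : s r = ι (P.zp c) * r := by
    rw [← hc, RingEquiv.apply_symm_apply, div_mul_cancel₀ _ hr0]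
  refine ⟨⟨ι, s, r, c, Fact.out, hl, hι, h1, h2, hr, ?_, hc'⟩⟩
  rintro rfl
  rw [zp_zero, map_one, one_mul] at hc'
  exact hs hc'

variable {l : ℕ}

theorem Plc.norm_p (L : P.Plc l K) : ‖(P.p : K)‖ = 1 := by
  have := Fact.mk L.prime
  have h := L.norm_rat (P.p : ℚ)
  rw [padicNorm.padicNorm_of_prime_of_ne L.ne, Rat.cast_natCast, map_natCast, Rat.cast_one] at h
  exact h

theorem Plc_fix (L : P.Plc l K) {w : K} (hw : ‖w‖ = 1) (h : L.sg (w ^ P.p) = w ^ P.p) :
    L.sg w = w := by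
  have h0 : w ≠ 0 := norm_ne_zero_iff.1 (by rw [hw]; exact one_ne_zero)
  have h1 := Plc_root L.norm_p (μ := L.sg w / w)
    (by rw [div_pow, ← map_pow, h, div_self (pow_ne_zero _ h0)])
    (by rw [div_sub_one h0, norm_div, hw, div_one]; exact L.res w hw.le)
  exact (div_eq_one_iff_eq h0).1 h1

theorem Plc.map_zp (L : P.Plc l K) (x : P.F) : L.sg (L.ι (P.zp x)) = L.ι (P.zp x) := by
  exact Plc_fix L (norm_map_zp (L.ι : ℂ →+* K) x) (by rw [← map_pow, zp_pow_p, map_one, map_one])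

/-- The action on a root of an element of valuation `v`. -/
theorem Plc.map_root (L : P.Plc l K) {q s : K} {v : ℕ} (hq : L.sg q = q)
    (hv : ‖q‖ = ((l : ℝ) ^ v)⁻¹) (hs : s ^ P.p = q) :
    L.sg s = L.ι (P.zp (L.c * v)) * s := by
  have := Fact.mk L.prime
  have hl : (0 : ℝ) < l := by exact_mod_cast L.prime.pos
  have hn : ‖(l : K)‖ = (l : ℝ)⁻¹ := by
    have h := L.norm_rat (l : ℚ)
    rw [padicNorm.padicNorm_p L.prime.one_lt, Rat.cast_natCast, map_natCast] at h
    rw [h]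
    simp
  have hr0 : L.rt ≠ 0 := by
    intro h
    have h1 := L.rt_pow
    rw [h, zero_pow P.prime.ne_zero] at h1
    rw [← h1, norm_zero] at hn
    exact (inv_pos.2 hl).ne hn
  have e : (s / L.rt ^ v) ^ P.p = q / (l : K) ^ v := by
    rw [div_pow, hs, ← pow_mul, mul_comm, pow_mul, L.rt_pow]
  have h1 := Plc_fix L (w := s / L.rt ^ v) (Plc_norm_one P.prime.ne_zero (by
    rw [← norm_pow, e, norm_div, norm_pow, hv, hn, inv_pow, div_self (by positivity)]))
    (by rw [e, map_div₀, map_pow, map_natCast, hq])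
  have h2 : s = s / L.rt ^ v * L.rt ^ v := (div_mul_cancel₀ _ (pow_ne_zero _ hr0)).symm
  conv_lhs => rw [h2, map_mul, h1, map_pow, L.map_rt, mul_pow]
  rw [mul_comm L.c, zp_nat_mul, map_pow, mul_left_comm, ← h2]

theorem Plc.exists_root (L : P.Plc l K) (q : K) : ∃ s, s ^ P.p = q := by
  obtain ⟨s, hs⟩ := IsAlgClosed.exists_pow_nat_eq (L.ι.symm q) P.prime.pos
  exact ⟨L.ι s, by rw [← map_pow, hs, RingEquiv.apply_symm_apply]⟩

end Par

end

end Pool.Agent.P.MP_a60a76_nt.Sz
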