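import Pool.Agent.P.MP_a60a76_nt.Sz.WpQ
import Pool.Agent.P.MP_a60a76_nt.Sz.FamA
import Pool.Agent.P.MP_a60a76_nt.Sz.Plc

namespace Pool.Agent.P.MP_a60a76_nt.Sz

open UpperHalfPlane MeasureTheory SP
open scoped MatrixGroups UpperHalfPlane Matrix Modular Topology Classical ArithmeticFunction.sigma

noncomputable section

/-! Fricke functions. -/

theorem Frick_mem_mul {A : Subring ℂ} {a b : PowerSeries ℂ} (ha : ∀ k, PowerSeries.coeff k a ∈ A)
    (hb : ∀ k, PowerSeries.coeff k b ∈ A) (k : ℕ) : PowerSeries.coeff k (a * b) ∈ A := by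
  rw [PowerSeries.coeff_mul]
  exact A.sum_mem fun x _ => A.mul_mem (ha _) (hb _)

theorem Frick_mem_pow {A : Subring ℂ} {a : PowerSeries ℂ} (ha : ∀ k, PowerSeries.coeff k a ∈ A)
    (n k : ℕ) : PowerSeries.coeff k (a ^ n) ∈ A := by
  induction n generalizing k with
  | zero =>
    rw [pow_zero, PowerSeries.coeff_one]
    split_ifs
    · exact A.one_mem
    · exact A.zero_mem
  | succ n ih =>
    rw [pow_succ]
    exact Frick_mem_mul ih ha k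

theorem Frick_two_pi : (2 * Real.pi * Complex.I : ℂ) ^ 2 = -(4 * Real.pi ^ 2) := by
  rw [mul_pow, Complex.I_sq]
  ring

namespace Par

variable (P : Par)

theorem Frick_cast (w : Fin 2 → P.F) (τ : ℍ) (m n : ℤ) (hm : (m : P.F) = w 0)
    (hn : (n : P.F) = w 1) :
    P.wp w τ = (lat τ).weierstrassP (((m : ℂ) * τ + n) / P.p) := by
  obtain ⟨k, hk⟩ := (ZMod.intCast_eq_iff P.p m (w 0)).1 hm
  obtain ⟨k', hk'⟩ := (ZMod.intCast_eq_iff P.p n (w 1)).1 hn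
  have hp := P.p_ne
  have h1 : ((m : ℂ) * τ + n) / P.p =
      zv P.p w τ + ((⟨k * τ + k', (mem_lat τ _).2 ⟨k, k', rfl⟩⟩ : (lat τ).lattice) : ℂ) := by
    rw [zv, hk, hk']
    push_cast
    field_simp
    ring
  rw [h1, wp, PeriodPair.weierstrassP_add_coe]

theorem wp_neg (v : Fin 2 → P.F) (τ : ℍ) : P.wp (-v) τ = P.wp v τ := by
  rw [P.Frick_cast (-v) τ (-(v 0).val) (-(v 1).val) (by simp) (by simp), wp, zv]
  have h : (((-((v 0).val : ℤ) : ℤ) : ℂ) * τ + ((-((v 1).val : ℤ) : ℤ) : ℂ)) / P.p =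
      -((((v 0).val : ℂ) * τ + ((v 1).val : ℂ)) / P.p) := by
    push_cast
    ring
  rw [h, PeriodPair.weierstrassP_neg]

theorem wp_smul (v : Fin 2 → P.F) (g : SL(2, ℤ)) (τ : ℍ) :
    P.wp v (g • τ) = dn g τ ^ 2 * P.wp (v ᵥ* red P.p g) τ := by
  have hdet : g 0 0 * g 1 1 - g 0 1 * g 1 0 = 1 := by
    have := g.det_coe
    rwa [Matrix.det_fin_two] at this
  have hdet' : (g 0 0 : ℂ) * g 1 1 - g 0 1 * g 1 0 = 1 := by exact_mod_cast hdet
  have hj : dn g τ ≠ 0 := dn_sl_ne_zero g τ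
  have hγ : dn g τ * ((g • τ : ℍ) : ℂ) = g 0 0 * τ + g 0 1 := by
    rw [coe_sl_smul]
    exact mul_div_cancel₀ _ hj
  have hd : dn g τ = (g 1 0 : ℂ) * τ + g 1 1 := rfl
  have hl : ∀ z, dn g τ * z ∈ (lat τ).lattice ↔ z ∈ (lat (g • τ)).lattice := by
    intro z
    rw [mem_lat, mem_lat]
    constructor
    · rintro ⟨m, n, h⟩
      refine ⟨m * g 1 1 - n * g 1 0, n * g 0 0 - m * g 0 1, mul_left_cancel₀ hj ?_⟩
      push_cast
      linear_combination h - (m * g 1 1 - n * g 1 0 : ℂ) * hγ - (m * τ + n : ℂ) * hdet' -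
        (n * g 0 0 - m * g 0 1 : ℂ) * hd
    · rintro ⟨m, n, h⟩
      refine ⟨m * g 0 0 + n * g 1 0, m * g 0 1 + n * g 1 1, ?_⟩
      rw [h]
      push_cast
      linear_combination (m : ℂ) * hγ + (n : ℂ) * hd
  have h1 := (wp_scale _ _ _ hj hl).1 (zv P.p v (g • τ))
  have h2 : dn g τ * zv P.p v (g • τ) =
      ((((v 0).val * g 0 0 + (v 1).val * g 1 0 : ℤ) : ℂ) * τ +
        (((v 0).val * g 0 1 + (v 1).val * g 1 1 : ℤ) : ℂ)) / P.p := by
    rw [zv]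
    push_cast
    linear_combination ((v 0).val / P.p : ℂ) * hγ + ((v 1).val / P.p : ℂ) * hd
  rw [P.Frick_cast (v ᵥ* red P.p g) τ ((v 0).val * g 0 0 + (v 1).val * g 1 0)
    ((v 0).val * g 0 1 + (v 1).val * g 1 1)
    (by simp [red, Matrix.vecMul, dotProduct, Fin.sum_univ_two])
    (by simp [red, Matrix.vecMul, dotProduct, Fin.sum_univ_two]), ← h2, h1, wp,
    mul_inv_cancel_left₀ (pow_ne_zero 2 hj)]

theorem wp_inj {v w : Fin 2 → P.F} (hv : v ≠ 0) (hw : w ≠ 0) {τ : ℍ} (h : P.wp v τ = P.wp w τ) :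
    v = w ∨ v = -w :=
  (wp_eq_iff τ (fun h => hv (sep_zero P.p τ v h)) (fun h => hw (sep_zero P.p τ w h)) h).imp
    (sep_sub P.p τ v w) (sep_add P.p τ v w)

theorem Frick_dg (d : P.Fˣ) (v : Fin 2 → P.F) :
    (v ᵥ* (P.dg d : P.MF)) 0 = v 0 ∧ (v ᵥ* (P.dg d : P.MF)) 1 = v 1 * d := by
  rw [coe_dg]
  constructor <;> simp [Matrix.vecMul, dotProduct, Fin.sum_univ_two]

theorem wc_gal (s : ℂ ≃+* ℂ) (d : P.Fˣ) (h : s (P.zp 1) = P.zp d) (v : Fin 2 → P.F) (k : ℕ) :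
    P.wc (v ᵥ* (P.dg d : P.MF)) k = s (P.wc v k) := by
  have hs : ∀ x, s (P.zp x) = P.zp (x * d) := fun x =>
    P.map_zp (φ := (s : ℂ →+* ℂ)) (ψ := RingHom.id ℂ) h x
  obtain ⟨h0, h1⟩ := P.Frick_dg d v
  unfold wc
  rw [h0, h1]
  split_ifs with hk hv
  · rw [map_add, map_div₀, map_div₀, map_pow, map_sub, map_one, hs, map_ofNat]
  · rw [map_add, map_div₀, map_one, map_ofNat, map_zero]
  · rw [map_sum]
    refine Finset.sum_congr rfl fun x _ => ?_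
    rw [map_mul, map_natCast, map_sub, map_add, apply_ite s, apply_ite s, apply_ite s, hs, hs,
      map_zero, map_ofNat, neg_mul, mul_assoc]

theorem Frick_zp_mem {A : Subring ℂ} (h : P.zp 1 ∈ A) (x : P.F) : P.zp x ∈ A := by
  rw [zp_eq_pow]
  exact A.pow_mem h _

theorem Frick_pos_mem {A : Subring ℂ} (h : ∀ x, P.zp x ∈ A) (v : Fin 2 → P.F) {k : ℕ}
    (hk : k ≠ 0) : P.wc v k ∈ A := by
  rw [wc, if_neg hk]
  refine A.sum_mem fun x _ => A.mul_mem (natCast_mem A _) (A.sub_mem (A.add_mem ?_ ?_) ?_)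
  · split_ifs
    · exact h _
    · exact A.zero_mem
  · split_ifs
    · exact h _
    · exact A.zero_mem
  · split_ifs
    · exact ofNat_mem A 2
    · exact A.zero_mem

theorem Frick_div_mem {A : Subring ℂ} (h : P.zp 1 ∈ A) (x : P.F) :
    (P.p : ℂ) / (1 - P.zp x) ∈ A := by
  by_cases hx : P.zp x = 1
  · rw [hx, sub_self, div_zero]
    exact A.zero_mem
  have h1 : 1 - P.zp x ≠ 0 := sub_ne_zero.2 (Ne.symm hx)
  have h2 : ∑ i ∈ Finset.range P.p, P.zp x ^ i = 0 := by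
    have := mul_neg_geom_sum (P.zp x) P.p
    rw [zp_pow_p, sub_self] at this
    exact (mul_eq_zero.1 this).resolve_left h1
  have h3 : (P.p : ℂ) / (1 - P.zp x) =
      ∑ i ∈ Finset.range P.p, ∑ j ∈ Finset.range i, P.zp x ^ j := by
    rw [div_eq_iff h1, Finset.sum_mul]
    simp only [geom_sum_mul_neg]
    rw [Finset.sum_sub_distrib, h2]
    simp
  rw [h3]
  exact A.sum_mem fun i _ => A.sum_mem fun j _ => A.pow_mem (P.Frick_zp_mem h x) _

theorem Frick_wc_mem {A : Subring ℂ} (h : P.zp 1 ∈ A) (v : Fin 2 → P.F) (k : ℕ) :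
    12 * (P.p : ℂ) ^ 2 * P.wc v k ∈ A := by
  have hp : (P.p : ℂ) ∈ A := natCast_mem A _
  have h12 : (12 : ℂ) ∈ A := ofNat_mem A 12
  by_cases hk : k = 0
  · rw [wc, if_pos hk]
    split_ifs
    · have e : 12 * (P.p : ℂ) ^ 2 * (1 / 12 + P.zp (v 1) / (1 - P.zp (v 1)) ^ 2) =
          P.p ^ 2 + 12 * P.zp (v 1) * (P.p / (1 - P.zp (v 1))) ^ 2 := by
        rw [div_pow]
        ring
      rw [e]
      exact A.add_mem (A.pow_mem hp _) (A.mul_mem (A.mul_mem h12 (P.Frick_zp_mem h _))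
        (A.pow_mem (P.Frick_div_mem h _) _))
    · have e : 12 * (P.p : ℂ) ^ 2 * (1 / 12 + 0) = P.p ^ 2 := by ring
      rw [e]
      exact A.pow_mem hp _
  · exact A.mul_mem (A.mul_mem h12 (A.pow_mem hp _)) (P.Frick_pos_mem (P.Frick_zp_mem h) v hk)

theorem Frick_ne {v : Fin 2 → P.F} (hv : v ≠ 0) (γ : P.GF) : v ᵥ* (γ : P.MF) ≠ 0 := by
  intro h
  apply hv
  have := congrArg (fun u => u ᵥ* ((γ⁻¹ : P.GF) : P.MF)) h
  simpa only [Matrix.vecMul_vecMul, Units.mul_inv, Matrix.vecMul_one, Matrix.zero_vecMul]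
    using this

theorem Frick_cv {v : Fin 2 → P.F} (hv : v ≠ 0) : P.Cv (PowerSeries.mk (P.wc v)) (P.wn v) :=
  fun τ => by simpa only [PowerSeries.coeff_mk] using P.wn_hasSum hv τ

theorem Frick_wn_smul (v : Fin 2 → P.F) (g : SL(2, ℤ)) (τ : ℍ) :
    P.wn v (g • τ) = dn g τ ^ 2 * P.wn (v ᵥ* red P.p g) τ := by
  rw [wn, wn, wp_smul, mul_div_assoc]

theorem Frick_fr_smul (v : Fin 2 → P.F) (g : SL(2, ℤ)) (τ : ℍ) :
    P.fr v (g • τ) = P.fr (v ᵥ* red P.p g) τ := by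
  have h1 := dn_sl_ne_zero g τ
  have h2 := Dl_ne_zero τ
  rw [fr, fr, Frick_wn_smul, E4_smul, E6_smul, Dl_smul]
  field_simp

theorem Frick_vec (v : Fin 2 → P.F) (γ δ : P.GF) :
    v ᵥ* ((γ * δ : P.GF) : P.MF) = (v ᵥ* (γ : P.MF)) ᵥ* (δ : P.MF) := by
  rw [Matrix.vecMul_vecMul, Units.val_mul]

/-- The series of the Fricke function. -/
def Frick_ser (v : Fin 2 → P.F) : PowerSeries ℂ :=
  PowerSeries.mk (fun k => 12 * (P.p : ℂ) ^ 2 * P.wc v k) * PowerSeries.mk (P.es e4c) *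
    PowerSeries.mk (P.es e6c)

theorem Frick_ser_cv {v : Fin 2 → P.F} (hv : v ≠ 0) :
    P.Cv (P.Frick_ser v) fun τ => P.fr v τ * Dl τ ^ 1 := by
  have h1 : P.Cv (PowerSeries.mk fun k => 12 * (P.p : ℂ) ^ 2 * P.wc v k)
      fun τ => 12 * (P.p : ℂ) ^ 2 * P.wn v τ := fun τ => by
    have e : (fun k => PowerSeries.coeff k
        (PowerSeries.mk fun k => 12 * (P.p : ℂ) ^ 2 * P.wc v k) * P.sv τ ^ k) =
        fun k => 12 * (P.p : ℂ) ^ 2 * (P.wc v k * P.sv τ ^ k) := by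
      funext k
      rw [PowerSeries.coeff_mk, mul_assoc _ (P.wc v k)]
    rw [e]
    exact (P.wn_hasSum hv τ).mul_left _
  have h2 := (h1.mul (P.cv_es hasSum_E4)).mul (P.cv_es hasSum_E6)
  intro τ
  have e : P.fr v τ * Dl τ ^ 1 = 12 * (P.p : ℂ) ^ 2 * P.wn v τ * E4 τ * E6 τ := by
    rw [fr, pow_one, div_mul_cancel₀ _ (Dl_ne_zero τ)]
  simp only [e]
  exact h2 τ

theorem Frick_map_es (s : ℂ →+* ℂ) (b : ℕ → ℤ) :
    PowerSeries.map s (PowerSeries.mk (P.es b)) = PowerSeries.mk (P.es b) := by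
  ext k
  rw [PowerSeries.coeff_map, PowerSeries.coeff_mk, map_es]

theorem fr_fam {v : Fin 2 → P.F} (hv : v ≠ 0) : ∃ a : P.GF → ℕ → ℂ,
    ∀ A : Subring ℂ, P.zp 1 ∈ A → P.Fam1 A 1 (fun γ => P.fr (v ᵥ* (γ : P.MF))) a := by
  refine ⟨fun γ k => PowerSeries.coeff k (P.Frick_ser (v ᵥ* (γ : P.MF))), fun A hA =>
    ⟨fun γ k => ?_, fun γ τ => P.Frick_ser_cv (P.Frick_ne hv γ) τ, fun γ g τ => ?_,
      fun s d hs γ k => ?_⟩⟩
  · refine Frick_mem_mul (Frick_mem_mul (fun k => ?_) fun k => ?_) (fun k => ?_) k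
    · rw [PowerSeries.coeff_mk]
      exact P.Frick_wc_mem hA _ k
    · rw [PowerSeries.coeff_mk]
      exact P.es_mem _ A k
    · rw [PowerSeries.coeff_mk]
      exact P.es_mem _ A k
  · rw [Frick_vec, Frick_fr_smul, coe_rg]
  · have e : P.Frick_ser (v ᵥ* ((γ * P.dg d : P.GF) : P.MF)) =
        PowerSeries.map (s : ℂ →+* ℂ) (P.Frick_ser (v ᵥ* (γ : P.MF))) := by
      rw [Frick_ser, Frick_ser, map_mul, map_mul, Frick_map_es, Frick_map_es, Frick_vec]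
      congr 2
      ext k
      rw [PowerSeries.coeff_map, PowerSeries.coeff_mk, PowerSeries.coeff_mk, P.wc_gal s d hs,
        map_mul, map_mul, map_pow, map_natCast, map_ofNat]
      rfl
    rw [e, PowerSeries.coeff_map]
    rfl

theorem WW_smul (v w : Fin 2 → P.F) (g : SL(2, ℤ)) (τ : ℍ) :
    P.WW v w (g • τ) = P.WW (v ᵥ* red P.p g) (w ᵥ* red P.p g) τ := by
  have h1 := dn_sl_ne_zero g τ
  have h2 := Dl_ne_zero τ
  rw [WW, WW, Frick_wn_smul, Frick_wn_smul, Dl_smul]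
  field_simp

theorem WW_cv {v w : Fin 2 → P.F} (hv : v ≠ 0) (hw : w ≠ 0) :
    P.Cv (PowerSeries.mk (fun k => P.wc v k - P.wc w k) ^ 6) fun τ => P.WW v w τ * Dl τ := by
  have h1 : P.Cv (PowerSeries.mk fun k => P.wc v k - P.wc w k)
      fun τ => P.wn v τ - P.wn w τ := fun τ => by
    simpa only [PowerSeries.coeff_mk, sub_mul] using (P.wn_hasSum hv τ).sub (P.wn_hasSum hw τ)
  intro τ
  have e : P.WW v w τ * Dl τ = (P.wn v τ - P.wn w τ) ^ 6 := by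
    rw [WW, div_mul_cancel₀ _ (Dl_ne_zero τ)]
  simp only [e]
  exact h1.pow 6 τ

variable {P}

theorem Frick_norm_one {K : Type} [NormedField K] [IsUltrametricDist K] (ι : ℂ →+* K)
    (hp : ‖(P.p : K)‖ = 1) {x : P.F} (hx : x ≠ 0) : ‖ι (1 - P.zp x)‖ = 1 := by
  have := norm_zp_sub ι hp hx.symm
  rwa [zp_zero] at this

theorem Frick_norm_c {K : Type} [NormedField K] [IsUltrametricDist K] (ι : ℂ →+* K)
    (hp : ‖(P.p : K)‖ = 1) {x : P.F} (hx : x ≠ 0) :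
    ‖ι (P.zp x / (1 - P.zp x) ^ 2)‖ = 1 := by
  rw [map_div₀, map_pow, norm_div, norm_pow, Frick_norm_one ι hp hx, norm_map_zp]
  simp

theorem Frick_c_mem {K : Type} [NormedField K] [IsUltrametricDist K] (ι : ℂ →+* K)
    (hp : ‖(P.p : K)‖ = 1) (v : Fin 2 → P.F) :
    (if v 0 = 0 then P.zp (v 1) / (1 - P.zp (v 1)) ^ 2 else 0) ∈ Ai ι := by
  split_ifs
  · by_cases hx : v 1 = 0
    · rw [hx, zp_zero, sub_self, zero_pow two_ne_zero, div_zero]
      exact (Ai ι).zero_mem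
    · exact (Frick_norm_c ι hp hx).le
  · exact (Ai ι).zero_mem

theorem wc_sub_mem {K : Type} [NormedField K] [IsUltrametricDist K] (ι : ℂ →+* K)
    (hp : ‖(P.p : K)‖ = 1) (v w : Fin 2 → P.F) (k : ℕ) : P.wc v k - P.wc w k ∈ Ai ι := by
  by_cases hk : k = 0
  · rw [wc, wc, if_pos hk, if_pos hk, add_sub_add_left_eq_sub]
    exact (Ai ι).sub_mem (Frick_c_mem ι hp v) (Frick_c_mem ι hp w)
  · exact (Ai ι).sub_mem (P.Frick_pos_mem (zp_mem_Ai ι) v hk) (P.Frick_pos_mem (zp_mem_Ai ι) w hk)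

theorem WW_fam {K : Type} [NormedField K] [IsUltrametricDist K] (ι : ℂ →+* K)
    (hp : ‖(P.p : K)‖ = 1) {v w : Fin 2 → P.F} (hv : v ≠ 0) (hw : w ≠ 0) : ∃ a,
    P.Fam1 (Ai ι) 1 (fun γ => P.WW (v ᵥ* (γ : P.MF)) (w ᵥ* (γ : P.MF))) a := by
  refine ⟨fun γ k => PowerSeries.coeff k (PowerSeries.mk
    (fun k => P.wc (v ᵥ* (γ : P.MF)) k - P.wc (w ᵥ* (γ : P.MF)) k) ^ 6),
    fun γ k => ?_, fun γ τ => ?_, fun γ g τ => ?_, fun s d hs γ k => ?_⟩
  · refine Frick_mem_pow (fun k => ?_) 6 k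
    rw [PowerSeries.coeff_mk]
    exact wc_sub_mem ι hp _ _ k
  · rw [pow_one]
    exact P.WW_cv (P.Frick_ne hv γ) (P.Frick_ne hw γ) τ
  · rw [Frick_vec, Frick_vec, WW_smul, coe_rg]
  · have e : (PowerSeries.mk fun k => P.wc (v ᵥ* ((γ * P.dg d : P.GF) : P.MF)) k -
        P.wc (w ᵥ* ((γ * P.dg d : P.GF) : P.MF)) k) = PowerSeries.map (s : ℂ →+* ℂ)
          (PowerSeries.mk fun k => P.wc (v ᵥ* (γ : P.MF)) k - P.wc (w ᵥ* (γ : P.MF)) k) := by
      ext k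
      rw [PowerSeries.coeff_map, PowerSeries.coeff_mk, PowerSeries.coeff_mk, Frick_vec, Frick_vec,
        P.wc_gal s d hs, P.wc_gal s d hs, map_sub]
      rfl
    rw [e, ← map_pow, PowerSeries.coeff_map]
    rfl

/-- The first coefficient of positive index. -/
theorem Frick_first {v : Fin 2 → P.F} {k : ℕ} (h0 : 0 < k) (hk : k < P.p)
    (h : ∀ e : ℕ, 0 < e → e < k → (e : P.F) ≠ v 0 ∧ (e : P.F) ≠ -v 0) :
    P.wc v k = (if (k : P.F) = v 0 then P.zp (v 1) else 0) +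
      if (k : P.F) = -v 0 then P.zp (-v 1) else 0 := by
  have hz : ∀ e : ℕ, 0 < e → e ≤ k → (e : P.F) ≠ 0 := fun e h1 h2 h3 => by
    rw [ZMod.natCast_eq_zero_iff] at h3
    exact absurd (Nat.le_of_dvd h1 h3) (by omega)
  rw [wc, if_neg h0.ne', Finset.sum_eq_single (1, k)]
  · simp [hz k h0 le_rfl]
  · rintro ⟨d, e⟩ hx hne
    obtain ⟨h1, -⟩ := Nat.mem_divisorsAntidiagonal.1 hx
    simp only at h1
    have he : 0 < e := Nat.pos_of_ne_zero fun h => by simp [h] at h1; omega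
    have hle : e ≤ k := Nat.le_of_dvd h0 (Dvd.intro_left d h1)
    have hlt : e < k := by
      refine lt_of_le_of_ne hle fun h2 => hne ?_
      subst h2
      have : d = 1 := Nat.eq_of_mul_eq_mul_right h0 (by rw [h1, one_mul])
      rw [this]
    obtain ⟨h2, h3⟩ := h e he hlt
    simp [h2, h3, hz e he hle]
  · intro hx
    exact absurd (Nat.mem_divisorsAntidiagonal.2 ⟨one_mul k, h0.ne'⟩) hx

theorem Frick_cases {v : Fin 2 → P.F} (hv : v 0 ≠ 0) {k : ℕ} (h0 : 0 < k) (hk : k < P.p)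
    (h : ∀ e : ℕ, 0 < e → e < k → (e : P.F) ≠ v 0 ∧ (e : P.F) ≠ -v 0) :
    ((k : P.F) ≠ v 0 ∧ (k : P.F) ≠ -v 0 ∧ P.wc v k = 0) ∨
      ∃ u, (u = v ∨ u = -v) ∧ u 0 = k ∧ P.wc v k = P.zp (u 1) := by
  have h1 := Frick_first h0 hk h
  have h2 : v 0 ≠ -v 0 := fun e => mul_ne_zero P.two_ne hv (by linear_combination e)
  by_cases ha : (k : P.F) = v 0
  · refine Or.inr ⟨v, Or.inl rfl, ha.symm, ?_⟩
    rw [h1, if_pos ha, if_neg (ha ▸ h2), add_zero]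
  · by_cases hb : (k : P.F) = -v 0
    · refine Or.inr ⟨-v, Or.inr rfl, hb.symm, ?_⟩
      rw [h1, if_neg ha, if_pos hb, zero_add]
      rfl
    · exact Or.inl ⟨ha, hb, by rw [h1, if_neg ha, if_neg hb, add_zero]⟩

theorem Frick_ext {v w : Fin 2 → P.F} (h0 : v 0 = w 0) (h1 : v 1 = w 1) : v = w := by
  funext i
  fin_cases i
  · exact h0
  · exact h1

theorem exists_unit_coeff {K : Type} [NormedField K] [IsUltrametricDist K] (ι : ℂ →+* K)
    (hp : ‖(P.p : K)‖ = 1) {v w : Fin 2 → P.F} (hv : v ≠ 0) (hw : w ≠ 0) (h1 : v ≠ w)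
    (h2 : v ≠ -w) : ∃ k, ‖ι (P.wc v k - P.wc w k)‖ = 1 := by
  by_cases hv0 : v 0 = 0
  · have hv1 : v 1 ≠ 0 := fun h => hv (Frick_ext hv0 h)
    refine ⟨0, ?_⟩
    rw [wc, wc, if_pos rfl, if_pos rfl, add_sub_add_left_eq_sub, if_pos hv0]
    by_cases hw0 : w 0 = 0
    · have hw1 : w 1 ≠ 0 := fun h => hw (Frick_ext hw0 h)
      have h3 : v 1 ≠ w 1 := fun h => h1 (Frick_ext (hv0.trans hw0.symm) h)
      have h4 : v 1 + w 1 ≠ 0 := fun h => h2 (Frick_ext (by rw [Pi.neg_apply, hv0, hw0, neg_zero])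
        (eq_neg_of_add_eq_zero_left h))
      have ha := Frick_norm_one ι hp hv1
      have hb := Frick_norm_one ι hp hw1
      have ha' : 1 - P.zp (v 1) ≠ 0 := fun h => by simp [h] at ha
      have hb' : 1 - P.zp (w 1) ≠ 0 := fun h => by simp [h] at hb
      have e : P.zp (v 1) / (1 - P.zp (v 1)) ^ 2 - P.zp (w 1) / (1 - P.zp (w 1)) ^ 2 =
          (P.zp (v 1) - P.zp (w 1)) * (1 - P.zp (v 1 + w 1)) /
            ((1 - P.zp (v 1)) ^ 2 * (1 - P.zp (w 1)) ^ 2) := by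
        rw [zp_add]
        field_simp
        ring
      rw [if_pos hw0, e, map_div₀, map_mul, map_mul, map_pow, map_pow, norm_div, norm_mul,
        norm_mul, norm_pow, norm_pow, ha, hb, norm_zp_sub ι hp h3, Frick_norm_one ι hp h4]
      simp
    · rw [if_neg hw0, sub_zero]
      exact Frick_norm_c ι hp hv1
  by_cases hw0 : w 0 = 0
  · have hw1 : w 1 ≠ 0 := fun h => hw (Frick_ext hw0 h)
    refine ⟨0, ?_⟩
    rw [wc, wc, if_pos rfl, if_pos rfl, add_sub_add_left_eq_sub, if_neg hv0, if_pos hw0, zero_sub,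
      map_neg, norm_neg]
    exact Frick_norm_c ι hp hw1
  have hval : 0 < (v 0).val := (ZMod.val_pos).2 hv0
  have hex : ∃ e : ℕ, 0 < e ∧ (((e : P.F) = v 0 ∨ (e : P.F) = -v 0) ∨
      ((e : P.F) = w 0 ∨ (e : P.F) = -w 0)) :=
    ⟨(v 0).val, hval, Or.inl (Or.inl (ZMod.natCast_zmod_val _))⟩
  obtain ⟨h0, hk⟩ := Nat.find_spec hex
  have hlt : Nat.find hex < P.p := lt_of_le_of_lt
    (Nat.find_min' hex ⟨hval, Or.inl (Or.inl (ZMod.natCast_zmod_val _))⟩) (ZMod.val_lt _)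
  have hmin := fun e (he : 0 < e) (h : e < Nat.find hex) => Nat.find_min hex h
  refine ⟨Nat.find hex, ?_⟩
  rcases Frick_cases hv0 h0 hlt (fun e he h => ⟨fun h' => hmin e he h ⟨he, by tauto⟩,
    fun h' => hmin e he h ⟨he, by tauto⟩⟩) with ⟨a1, a2, a3⟩ | ⟨u, a1, a2, a3⟩ <;>
  rcases Frick_cases hw0 h0 hlt (fun e he h => ⟨fun h' => hmin e he h ⟨he, by tauto⟩,
    fun h' => hmin e he h ⟨he, by tauto⟩⟩) with ⟨b1, b2, b3⟩ | ⟨u', b1, b2, b3⟩
  · tauto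
  · rw [a3, b3, zero_sub, map_neg, norm_neg, norm_map_zp]
  · rw [a3, b3, sub_zero, norm_map_zp]
  · rw [a3, b3]
    refine norm_zp_sub ι hp fun h => ?_
    have h3 := Frick_ext (a2.trans b2.symm) h
    rcases a1 with rfl | rfl <;> rcases b1 with rfl | rfl
    · exact h1 h3
    · exact h2 h3
    · exact h2 (neg_eq_iff_eq_neg.1 h3)
    · exact h1 (neg_injective h3)

/-- The Fricke function is a rational multiple of the abscissa. -/
theorem Frick_rat (P : Par) (A : Crv) : ∃ c : ℚ, (A.j.den ≠ 1 → c ≠ 0) ∧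
    ∀ v, P.fr v A.t = c * (A.u ^ 2 * P.wp v A.t) := by
  obtain ⟨q₂, h2⟩ := A.g2
  obtain ⟨q₃, h3⟩ := A.g3
  have hu := A.u_ne
  have hπ := JB.pi_ne
  have hD := Dl_ne_zero A.t
  have hd : (q₂ : ℂ) ^ 3 - 27 * q₃ ^ 2 = A.u ^ 12 * disc A.t := by
    rw [← h2, ← h3, disc]
    ring
  have hd0 : (q₂ : ℂ) ^ 3 - 27 * q₃ ^ 2 ≠ 0 := by
    rw [hd]
    exact mul_ne_zero (pow_ne_zero _ hu) (disc_ne_zero _)
  have hd1 : q₂ ^ 3 - 27 * q₃ ^ 2 ≠ 0 := by exact_mod_cast hd0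
  have hj : A.j * (q₂ ^ 3 - 27 * q₃ ^ 2) = 1728 * q₂ ^ 3 := by
    have : (A.j : ℂ) * (q₂ ^ 3 - 27 * q₃ ^ 2) = 1728 * q₂ ^ 3 := by
      have := disc_ne_zero A.t
      rw [hd, ← A.J_eq, SP.J, ← h2]
      field_simp
    exact_mod_cast this
  refine ⟨-31104 * P.p ^ 2 * q₂ * q₃ / (q₂ ^ 3 - 27 * q₃ ^ 2), fun hA => ?_, fun v => ?_⟩
  · have hp : (P.p : ℚ) ≠ 0 := by exact_mod_cast P.prime.ne_zero
    refine div_ne_zero (mul_ne_zero (mul_ne_zero (mul_ne_zero (by norm_num) (pow_ne_zero _ hp))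
      fun h => hA ?_) fun h => hA ?_) hd1
    · have : A.j = 0 := mul_right_cancel₀ hd1 (by rw [hj, h]; ring)
      rw [this]
      rfl
    · have : A.j = 1728 := mul_right_cancel₀ hd1 (by rw [hj, h]; ring)
      rw [this]
      rfl
  · push_cast
    rw [hd, ← h2, ← h3, JB.g₂_eq, JB.g₃_eq, JB.disc_eq, Par.fr, wn, Frick_two_pi]
    field_simp
    ring

theorem Rho.fr {A : Crv} {s : ℂ ≃+* ℂ} {ρ : P.GF} (h : P.Rho A s ρ) (v : Fin 2 → P.F) :
    s (P.fr v A.t) = P.fr (v ᵥ* (ρ : P.MF)) A.t := by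
  obtain ⟨c, -, hc⟩ := Frick_rat P A
  rw [hc, hc, map_mul, map_ratCast, h]

/-- The Fricke functions determine the Galois action up to sign. -/
theorem Rho.pm {A : Crv} (hA : A.j.den ≠ 1) {s : ℂ ≃+* ℂ} {ρ δ : P.GF} (h : P.Rho A s ρ)
    (hδ : ∀ v, v ≠ 0 → s (P.fr v A.t) = P.fr (v ᵥ* (δ : P.MF)) A.t) :
    (ρ : P.MF) = δ ∨ (ρ : P.MF) = -δ := by
  obtain ⟨c, hc0, hc⟩ := Frick_rat P A
  have hc1 : (c : ℂ) ≠ 0 := by exact_mod_cast hc0 hA
  have key : ∀ v : Fin 2 → P.F, v ᵥ* (ρ : P.MF) = v ᵥ* (δ : P.MF) ∨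
      v ᵥ* (ρ : P.MF) = -(v ᵥ* (δ : P.MF)) := fun v => by
    by_cases hv : v = 0
    · left
      rw [hv, Matrix.zero_vecMul, Matrix.zero_vecMul]
    have h1 := (h.fr v).symm.trans (hδ v hv)
    rw [hc, hc] at h1
    exact P.wp_inj (P.Frick_ne hv ρ) (P.Frick_ne hv δ)
      (mul_left_cancel₀ (pow_ne_zero 2 A.u_ne) (mul_left_cancel₀ hc1 h1))
  have ext : ∀ X Y : P.MF, (∀ v, v ᵥ* X = v ᵥ* Y) → X = Y := fun X Y hXY => by
    funext i
    have := hXY (Pi.single i 1)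
    rwa [Matrix.single_one_vecMul, Matrix.single_one_vecMul] at this
  by_contra hcon
  push Not at hcon
  obtain ⟨a, ha⟩ := not_forall.1 fun h' => hcon.1 (ext _ _ h')
  obtain ⟨b, hb⟩ := not_forall.1 fun h' => hcon.2 (ext _ _ h')
  rw [Matrix.vecMul_neg] at hb
  have ha' := (key a).resolve_left ha
  have hb' := (key b).resolve_right hb
  rcases key (a + b) with h1 | h1
  · rw [Matrix.add_vecMul, Matrix.add_vecMul, hb'] at h1
    exact ha (add_right_cancel h1)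
  · rw [Matrix.add_vecMul, Matrix.add_vecMul, ha', neg_add] at h1
    exact hb (add_left_cancel h1)

end Par

end

end Pool.Agent.P.MP_a60a76_nt.Sz
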