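import Pool.Agent.P.MP_a60a76_nt.Sz.Glue
import Pool.Agent.P.MP_a60a76_nt.Sz.Conj
import Pool.Agent.P.MP_a60a76_nt.Sz.Frick

namespace Pool.Agent.P.MP_a60a76_nt.Sz

open UpperHalfPlane MeasureTheory SP
open scoped MatrixGroups UpperHalfPlane Matrix Modular Topology Classical ArithmeticFunction.sigma

noncomputable section

/-! The product as a family. -/

namespace Par

variable {P : Par} {c : P.D → ℤ → ℤ} {X : P.MF}

/-- The constant in front of the integral product. -/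
def GFam_cst (P : Par) (c : P.D → ℤ → ℤ) (X : P.MF) : ℂ :=
  (P.p : ℂ) ^ (12 * P.p * P.mm c : ℤ) * P.CC c X

theorem GFam_cst_nat (h : P.IsF0 c) (hp : P.Pos c) (X : P.MF) :
    ∃ n : ℕ, GFam_cst P c X = n := by
  have h1 := mm_nonneg hp
  have h2 := KK_nonneg h hp
  have h3 : (5 : ℤ) ≤ P.p := by exact_mod_cast P.five
  rw [KK] at h2
  have h4 : 0 ≤ P.mm c + P.cp c := by
    by_contra h5
    nlinarith
  rw [GFam_cst, CC]
  split_ifs
  · obtain ⟨n, hn⟩ := Int.eq_ofNat_of_zero_le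
      (show 0 ≤ 12 * P.p * P.mm c + 12 * P.p * P.cp c by nlinarith)
    exact ⟨P.p ^ n, by rw [← zpow_add₀ P.p_ne, hn, zpow_natCast, Nat.cast_pow]⟩
  · obtain ⟨n, hn⟩ := Int.eq_ofNat_of_zero_le (show 0 ≤ 12 * P.p * P.mm c by positivity)
    exact ⟨P.p ^ n, by rw [hn, zpow_natCast, Nat.cast_pow, mul_one]⟩

theorem GFam_cst_gal (d : P.Fˣ) (X : P.MF) :
    GFam_cst P c (P.tw (P.diagG (P.dg d)) X) = GFam_cst P c X := by
  have h1 : (P.dg d : P.MF) * P.tw (P.diagG (P.dg d)) X = X * P.dg d := by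
    rw [tw, ← mul_assoc, ← mul_assoc]
    change (P.dg d : P.MF) * (((P.dg d)⁻¹ : P.GF) : P.MF) * X * (P.dg d : P.MF) = _
    rw [Units.mul_inv, one_mul]
  have h2 := congrFun (congrFun h1 1) 0
  simp only [coe_dg, Matrix.mul_apply, Fin.sum_univ_two] at h2
  have h3 : (d : P.F) * P.tw (P.diagG (P.dg d)) X 1 0 = X 1 0 := by simpa using h2
  have h4 : P.tw (P.diagG (P.dg d)) X 1 0 = 0 ↔ X 1 0 = 0 := by
    rw [← h3, mul_eq_zero, or_iff_right d.ne_zero]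
  simp only [GFam_cst, CC, h4]

theorem GFam_dl (P : Par) (τ : ℍ) :
    HasSum (fun k => P.es (fun n => dlc (n + 1)) k * P.sv τ ^ k) (Dl τ / P.sv τ ^ P.p) := by
  refine P.hasSum_es (RingHom.id ℂ) ?_
  have h1 := ((hasSum_nat_add_iff' 1).2 (hasSum_Dl τ)).div_const (ee τ)
  rw [sv_pow_p]
  simp only [Finset.range_one, Finset.sum_singleton, dlc_zero, Int.cast_zero, zero_mul,
    sub_zero] at h1
  refine Eq.mp (congrArg (fun f => HasSum f _) (funext fun n => ?_)) h1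
  rw [pow_succ, ← mul_assoc, mul_div_cancel_right₀ _ (ee_ne_zero _)]

/-- The cofactor of the product. -/
def GFam_b (P : Par) (c : P.D → ℤ → ℤ) (X : P.MF) : PS :=
  MvPowerSeries.C (GFam_cst P c X) *
    (in1 (P.es fun n => dlc (n + 1)) * in2 (P.es fun n => dlc (n + 1))) ^ (P.KK c).toNat

theorem GFam_b_mem (h : P.IsF0 c) (hp : P.Pos c) (X : P.MF) (A : Subring ℂ) :
    InA A (GFam_b P c X) := by
  obtain ⟨n, hn⟩ := GFam_cst_nat h hp X
  have h1 := inA_in (A := A) (P.es_mem (fun n => dlc (n + 1)) A)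
  rw [GFam_b, hn, map_natCast]
  exact (inA A).mul_mem (natCast_mem _ n) ((inA A).pow_mem ((inA A).mul_mem h1.1 h1.2) _)

theorem GFam_b_ab (X : P.MF) (t₁ t₂ : ℍ) :
    Ab (RingHom.id ℂ) (GFam_b P c X) (P.sv t₁) (P.sv t₂) ∧
      ev (RingHom.id ℂ) (GFam_b P c X) (P.sv t₁) (P.sv t₂) = GFam_cst P c X *
        (Dl t₁ / P.sv t₁ ^ P.p * (Dl t₂ / P.sv t₂ ^ P.p)) ^ (P.KK c).toNat := by
  obtain ⟨⟨a1, e1⟩, a2, e2⟩ := ab_in_c (GFam_dl P) t₁ t₂
  obtain ⟨a3, e3⟩ := a1.mul a2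
  obtain ⟨a4, e4⟩ := a3.pow (P.KK c).toNat
  obtain ⟨a5, e5⟩ := ab_C (RingHom.id ℂ) (GFam_cst P c X) (P.sv t₁) (P.sv t₂)
  obtain ⟨a6, e6⟩ := a5.mul a4
  exact ⟨a6, by rw [GFam_b, e6, e5, e4, e3, e1, e2, RingHom.id_apply]⟩

theorem GFam_b_map (h : P.IsF0 c) (hp : P.Pos c) (X : P.MF) (s : ℂ →+* ℂ) :
    MvPowerSeries.map s (GFam_b P c X) = GFam_b P c X := by
  obtain ⟨n, hn⟩ := GFam_cst_nat h hp X
  rw [GFam_b, hn, map_natCast, map_mul, map_pow, map_mul, map_natCast, (map_in s _).1,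
    (map_in s _).2]
  simp only [map_es]

theorem gi_fam (h : P.IsF0 c) (hp : P.Pos c) (hX : X.det = P.m) : ∃ a : P.GG → PS,
    ∀ A : Subring ℂ, P.zp 1 ∈ A →
      P.Fam A (P.KK c).toNat (fun γ => P.gi c (P.tw γ X)) a ∧
        ∀ γ, ∃ b, InA A b ∧ a γ = P.Pf c (P.tw γ X) * b := by
  have hd : ∀ γ, (P.tw γ X).det = P.m := fun γ => (P.det_tw γ X).trans hX
  refine ⟨fun γ => P.Ps c (P.tw γ X) * GFam_b P c (P.tw γ X), fun A hA =>
    ⟨⟨fun γ => (inA A).mul_mem (inA_Ps c _ hA) (GFam_b_mem h hp _ A),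
      fun γ t₁ t₂ => ((ab_Ps h hp (hd γ) t₁ t₂).mul (GFam_b_ab _ t₁ t₂).1).1,
      fun γ t₁ t₂ => ?_, fun γ g₁ g₂ t₁ t₂ => ?_, fun s d hs γ => ?_⟩,
    fun γ => ⟨_, (inA A).mul_mem (P.inA_Us _ hA) (GFam_b_mem h hp (P.tw γ X) A),
      mul_assoc _ _ _⟩⟩⟩
  · obtain ⟨n, hn⟩ := Int.eq_ofNat_of_zero_le (KK_nonneg h hp)
    have h1 := P.sv_ne_zero t₁
    have h2 := P.sv_ne_zero t₂
    rw [((ab_Ps h hp (hd γ) t₁ t₂).mul (GFam_b_ab _ t₁ t₂).1).2, (GFam_b_ab _ t₁ t₂).2, gi, gf,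
      GFam_cst, hn, Int.toNat_natCast, ← Nat.cast_mul, zpow_neg, zpow_natCast, pow_mul, mul_pow,
      mul_pow, mul_pow, mul_pow, div_pow, div_pow]
    field_simp
  · rw [gi, gi, gf_smul h hp (hd γ), tw_mul]
  · rw [tw_mul, Ps_gal c _ s d hs, map_mul, GFam_b_map h hp, GFam_b, GFam_b, GFam_cst_gal]

theorem gi_rat (h : P.IsF0 c) (hp : P.Pos c) (hX : X.det = P.m) {A B : Crv} (hA : A.j.den ≠ 1)
    (hB : B.j.den ≠ 1) (hL : P.Lnk A B X) : ∃ G : ℚ, (G : ℂ) = P.gi c X A.t B.t := by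
  refine fix_rat _ fun u => ?_
  obtain ⟨δ, hδ⟩ := P.gal_lemma A.J_eq B.J_eq u.toRingEquiv
  obtain ⟨ρ₁, ρ₂, h₁, h₂, hρ⟩ := hL u.toRingEquiv
  obtain ⟨a, ha⟩ := gi_fam h hp hX
  have e₁ := h₁.pm hA (δ := δ.1.1) fun v hv => by
    obtain ⟨b, hb⟩ := P.fr_fam hv
    simpa using hδ _ _ _ _ (hb ⊤ trivial).fst
  have e₂ := h₂.pm hB (δ := δ.1.2) fun v hv => by
    obtain ⟨b, hb⟩ := P.fr_fam hv
    simpa using hδ _ _ _ _ (hb ⊤ trivial).snd
  have e₃ := hδ _ _ _ _ (ha ⊤ trivial).1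
  have e₄ : ∀ Y : P.MF, (δ.1.2 : P.MF) * Y = X * δ.1.1 → P.tw δ X = Y := fun Y hY => by
    rw [tw, mul_assoc, ← hY, ← mul_assoc, Units.inv_mul, one_mul]
  have e₅ : P.tw δ X = X ∨ P.tw δ X = -X := by
    rcases e₁ with e₁ | e₁ <;> rcases e₂ with e₂ | e₂ <;> rw [e₁, e₂] at hρ
    · exact Or.inl (e₄ _ hρ)
    · exact Or.inr (e₄ _ (by rw [← hρ, mul_neg, neg_mul]))
    · exact Or.inr (e₄ _ (by rw [mul_neg, hρ, mul_neg, neg_neg]))
    · exact Or.inl (e₄ _ (by simpa using hρ))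
  simp only [tw_one] at e₃
  refine e₃.trans ?_
  rcases e₅ with e | e <;> rw [e]
  rw [gi, gi, gf_neg h.toIsF]

theorem gi_bound (h : P.IsF0 c) (hp : P.Pos c) (hX : X.det = P.m) {A B : Crv} {G : ℚ}
    (hG : (G : ℂ) = P.gi c X A.t B.t) {l : ℕ} (hl : l.Prime) :
    (padicNorm l G : ℝ) ≤ (l : ℝ) ^ (P.KK c * padicValNat l (A.j.den * B.j.den) : ℤ) := by
  have : Fact l.Prime := ⟨hl⟩
  obtain ⟨ι, hι⟩ := exists_place l
  obtain ⟨a, ha⟩ := gi_fam h hp hX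
  have h1 := (ha _ (zp_mem_Ai (ι : ℂ →+* PadicComplex l) 1)).1.int_bound 1 A.t B.t
  obtain ⟨n, hn⟩ := Int.eq_ofNat_of_zero_le (KK_nonneg h hp)
  simp only [tw_one, RingHom.coe_coe] at h1
  rw [← hG, A.J_eq, B.J_eq, hι, hι, hι, max_padicNorm hl, max_padicNorm hl, hn,
    Int.toNat_natCast, ← pow_add, ← pow_mul, ← padicValNat.mul A.j.den_nz B.j.den_nz] at h1
  rwa [hn, ← Nat.cast_mul, zpow_natCast, mul_comm]

theorem GFam_zpow_sum {ι : Type} (S : Finset ι) {r : ℝ} (hr : r ≠ 0) (f : ι → ℤ) :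
    ∏ i ∈ S, r ^ f i = r ^ ∑ i ∈ S, f i := by
  induction S using Finset.induction_on with
  | empty => simp
  | insert a S ha ih => rw [Finset.prod_insert ha, Finset.sum_insert ha, ih, zpow_add₀ hr]

/-- The finite product is small at the degenerate parameters. -/
theorem norm_ev_Pf (h : P.IsF0 c) (hp : P.Pos c) (hX : X.det = P.m) {K : Type} [NormedField K]
    [IsUltrametricDist K] [CompleteSpace K] (ι : ℂ →+* K) {s t : K} {r : ℝ} (hr : 1 < r)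
    {v₁ v₂ : ℕ} (h₁ : ¬ P.p ∣ v₁) (h₂ : ¬ P.p ∣ v₂) (hs : ‖s‖ ^ P.p = (r ^ v₁)⁻¹)
    (ht : ‖t‖ ^ P.p = (r ^ v₂)⁻¹) (h0 : X 1 0 = 0) (hv : X 0 0 * v₁ = X 1 1 * v₂) {K₀ : ℕ}
    (hK : K₀ < P.p) : ‖ev ι (P.Pf c X) s t‖ ≤ r ^ (-P.exc c (v₁ * v₂) K₀) := by
  have hr0 : 0 < r := one_pos.trans hr
  have hv₁ : 0 < v₁ := Nat.pos_of_ne_zero fun e => h₁ (e ▸ dvd_zero _)
  have hv₂ : 0 < v₂ := Nat.pos_of_ne_zero fun e => h₂ (e ▸ dvd_zero _)
  have hle : ∀ {x : K} {v : ℕ}, ‖x‖ ^ P.p = (r ^ v)⁻¹ → ‖x‖ ≤ 1 := fun {x v} hx =>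
    (pow_le_one_iff_of_nonneg (norm_nonneg x) P.prime.ne_zero).1
      (hx.trans_le (inv_le_one_of_one_le₀ (one_le_pow₀ hr.le)))
  have hX0 : X 0 0 ≠ 0 := fun e => P.m_ne (by rw [← hX, Matrix.det_fin_two, e, h0]; ring)
  have hfac : ∀ (i : ℕ × ℕ) (b : P.F),
      Ab ι (mono (P.zp b) i.1 0 - mono 1 0 i.2) s t ∧
        ‖ev ι (mono (P.zp b) i.1 0 - mono 1 0 i.2) s t‖ ≤ max (‖s‖ ^ i.1) (‖t‖ ^ i.2) := by
    intro i b
    obtain ⟨a1, e1⟩ := ab_mono ι (P.zp b) i.1 0 s t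
    obtain ⟨a2, e2⟩ := ab_mono ι 1 0 i.2 s t
    refine ⟨(a1.sub a2).1, ?_⟩
    rw [(a1.sub a2).2, e1, e2, sub_eq_add_neg]
    refine (IsUltrametricDist.norm_add_le_max _ _).trans (le_of_eq ?_)
    simp [norm_map_zp]
  have hone : ∀ (i : ℕ × ℕ) (b : P.F),
      ‖ev ι (mono (P.zp b) i.1 0 - mono 1 0 i.2) s t‖ ≤ 1 := fun i b =>
    (hfac i b).2.trans (max_le (pow_le_one₀ (norm_nonneg _) (hle hs))
      (pow_le_one₀ (norm_nonneg _) (hle ht)))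
  have hev : ‖ev ι (P.Pf c X) s t‖ = ∏ i ∈ P.box c, ∏ b,
      ‖ev ι (mono (P.zp b) i.1 0 - mono 1 0 i.2) s t‖ ^ (P.ex c X i.1 b i.2).toNat := by
    rw [Pf, (ab_prod _ fun i _ => (ab_prod _ fun b _ => ((hfac i b).1.pow _).1).1).2, norm_prod]
    refine Finset.prod_congr rfl fun i _ => ?_
    rw [(ab_prod _ fun b _ => ((hfac i b).1.pow _).1).2, norm_prod]
    exact Finset.prod_congr rfl fun b _ => by rw [((hfac i b).1.pow _).2, norm_pow]
  have hinj : Function.Injective fun n : ℕ => (n * v₂, n * v₁) := fun a b e =>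
    Nat.eq_of_mul_eq_mul_right hv₂ (congrArg Prod.fst e)
  rw [hev, exc, Finset.mul_sum, ← Finset.sum_neg_distrib, ← GFam_zpow_sum _ hr0.ne',
    ← Finset.prod_filter_of_ne (s := Finset.Icc 1 K₀) (p := fun n => (n * v₂, n * v₁) ∈ P.box c)]
  · refine (Finset.prod_le_prod_of_subset_of_le_one (s := ((Finset.Icc 1 K₀).filter
      fun n => (n * v₂, n * v₁) ∈ P.box c).image fun n => (n * v₂, n * v₁)) ?_
      (fun i _ => by positivity) fun i _ _ => Finset.prod_le_one (fun b _ => by positivity)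
        fun b _ => pow_le_one₀ (norm_nonneg _) (hone i b)).trans ?_
    · intro i hi
      obtain ⟨n, hn, rfl⟩ := Finset.mem_image.1 hi
      exact (Finset.mem_filter.1 hn).2
    rw [Finset.prod_image fun a _ b _ e => hinj e]
    refine Finset.prod_le_prod (fun i _ => by positivity) fun n hn => ?_
    obtain ⟨hn1, hn2⟩ := Finset.mem_Icc.1 (Finset.mem_filter.1 hn).1
    have hpn : ¬ P.p ∣ n := fun e => absurd (Nat.le_of_dvd hn1 e) (by omega)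
    have ha : (0 : ℤ) < (n * v₂ : ℕ) := by exact_mod_cast Nat.mul_pos hn1 hv₂
    have hd : (0 : ℤ) < (n * v₁ : ℕ) := by exact_mod_cast Nat.mul_pos hn1 hv₁
    obtain ⟨m, hm⟩ := Int.eq_ofNat_of_zero_le (Finset.sum_nonneg fun k _ =>
      hp k (-((n : ℤ) ^ 2 * (v₁ * v₂ : ℕ))) (neg_neg_of_pos (by positivity)) :
        0 ≤ ∑ k, c k (-((n : ℤ) ^ 2 * (v₁ * v₂ : ℕ))))
    set b₀ : P.F := (n * v₂ : ℕ) / X 0 0 * X 0 1 with hb₀
    have hU : P.exU c X (n * v₂ : ℕ) b₀ (n * v₁ : ℕ) = (P.p * (12 * m) : ℕ) := by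
      rw [exU, if_pos, show ((n * v₂ : ℕ) : ℤ) * (n * v₁ : ℕ) = (n : ℤ) ^ 2 * (v₁ * v₂ : ℕ) by
        push_cast; ring, hm]
      · push_cast
        ring
      · refine ⟨fun e => ?_, h0, (n * v₂ : ℕ) / X 0 0, ?_, rfl, ?_⟩
        · rw [← Nat.cast_mul, Int.natCast_dvd_natCast, P.prime.dvd_mul, P.prime.dvd_mul,
            P.prime.dvd_mul] at e
          tauto
        · rw [div_mul_cancel₀ _ hX0, Int.cast_natCast]
        · rw [Int.cast_natCast]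
          push_cast
          field_simp
          linear_combination (n : P.F) * hv
    have hE : P.p * (12 * m) ≤ (P.ex c X (n * v₂ : ℕ) b₀ (n * v₁ : ℕ)).toNat := by
      have := exI_nonneg hp X ha hd b₀
      rw [ex, hU]
      omega
    have hN : ‖ev ι (mono (P.zp b₀) (n * v₂) 0 - mono 1 0 (n * v₁)) s t‖ ^ P.p ≤
        (r ^ (n * (v₁ * v₂)))⁻¹ := by
      refine (pow_le_pow_left₀ (norm_nonneg _) (hfac (n * v₂, n * v₁) b₀).2 _).trans ?_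
      rcases max_choice (‖s‖ ^ (n * v₂)) (‖t‖ ^ (n * v₁)) with e | e
      · rw [e, ← pow_mul, mul_comm, pow_mul, hs, inv_pow, ← pow_mul]
        exact le_of_eq (by congr 2; ring)
      · rw [e, ← pow_mul, mul_comm, pow_mul, ht, inv_pow, ← pow_mul]
        exact le_of_eq (by congr 2; ring)
    refine (Finset.prod_le_prod_of_subset_of_le_one (Finset.subset_univ {b₀})
      (fun b _ => by positivity) fun b _ _ =>
        pow_le_one₀ (norm_nonneg _) (hone (n * v₂, n * v₁) b)).trans ?_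
    rw [Finset.prod_singleton]
    refine (pow_le_pow_of_le_one (norm_nonneg _) (hone (n * v₂, n * v₁) b₀) hE).trans ?_
    rw [pow_mul, hm]
    refine (pow_le_pow_left₀ (by positivity) hN _).trans (le_of_eq ?_)
    rw [inv_pow, ← pow_mul, zpow_neg, ← zpow_natCast]
    congr 2
    push_cast
    ring
  · intro n hn hne
    by_contra hb
    obtain ⟨hn1, -⟩ := Finset.mem_Icc.1 hn
    refine hne ?_
    have hlo : P.lo c < n ^ 2 * (v₁ * v₂) := by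
      have ha := Nat.mul_pos hn1 hv₂
      have hd := Nat.mul_pos hn1 hv₁
      have e : n ^ 2 * (v₁ * v₂) = n * v₂ * (n * v₁) := by ring
      have h3 := Nat.le_mul_of_pos_right (n * v₂) hd
      have h4 := Nat.le_mul_of_pos_left (n * v₁) ha
      simp only [box, Finset.mem_product, Finset.mem_Icc] at hb
      omega
    rw [Finset.sum_eq_zero fun k _ => h.toIsF.lo_spec k _ (neg_lt_neg (by exact_mod_cast hlo))]
    simp

end Par

end

end Pool.Agent.P.MP_a60a76_nt.Sz
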