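import Pool.Agent.P.MP_a60a76_nt.Sz.Frick
import Pool.Agent.P.MP_a60a76_nt.Sz.Conj

namespace Pool.Agent.P.MP_a60a76_nt.Sz

open UpperHalfPlane MeasureTheory SP
open scoped MatrixGroups UpperHalfPlane Matrix Modular Topology Classical ArithmeticFunction.sigma

noncomputable section

/-! Points of order `p` stay distinct at places of potentially good reduction. -/

namespace Par

variable {P : Par} {K : Type} [NormedField K] [IsUltrametricDist K]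

/-- The admissible pairs of vectors. -/
def Sepa_S (P : Par) : Finset ((Fin 2 → P.F) × (Fin 2 → P.F)) :=
  Finset.univ.filter fun x => x.1 ≠ 0 ∧ x.2 ≠ 0 ∧ x.1 ≠ x.2 ∧ x.1 ≠ -x.2

theorem Sepa_mem {x : (Fin 2 → P.F) × (Fin 2 → P.F)} :
    x ∈ P.Sepa_S ↔ x.1 ≠ 0 ∧ x.2 ≠ 0 ∧ x.1 ≠ x.2 ∧ x.1 ≠ -x.2 := by
  simp [Sepa_S]

theorem Sepa_inj (ρ : P.GF) : Function.Injective fun v : Fin 2 → P.F => v ᵥ* (ρ : P.MF) := by
  intro v w h
  have h1 := congrArg (fun u => u ᵥ* ((ρ⁻¹ : P.GF) : P.MF)) h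
  simpa only [Matrix.vecMul_vecMul, ← Units.val_mul, mul_inv_cancel, Units.val_one,
    Matrix.vecMul_one] using h1

theorem Sepa_inv (g : SL(2, ℤ)) (τ : ℍ) :
    ∏ x ∈ P.Sepa_S, P.WW x.1 x.2 (g • τ) = ∏ x ∈ P.Sepa_S, P.WW x.1 x.2 τ := by
  have hi := Sepa_inj (P.rg g)
  let e : (Fin 2 → P.F) ≃ (Fin 2 → P.F) :=
    Equiv.ofBijective _ (Finite.injective_iff_bijective.mp hi)
  have he : ∀ v, e v = v ᵥ* red P.p g := fun v => rfl
  have h0 : e 0 = 0 := by rw [he, Matrix.zero_vecMul]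
  have hn : ∀ v, -e v = e (-v) := fun v => by rw [he, he, Matrix.neg_vecMul]
  refine Finset.prod_equiv (e.prodCongr e) (fun x => ?_) fun x _ => ?_
  · rw [Sepa_mem, Sepa_mem]
    simp only [Equiv.prodCongr_apply, Prod.map_fst, Prod.map_snd, hn, ne_eq,
      e.injective.eq_iff]
    rw [← h0, e.injective.eq_iff, e.injective.eq_iff, h0]
  · rw [WW_smul]; rfl

theorem Sepa_ne {v w : Fin 2 → P.F} (hv : v ≠ 0) (hw : w ≠ 0) (h1 : v ≠ w) (h2 : v ≠ -w)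
    (τ : ℍ) : P.WW v w τ ≠ 0 := by
  have hc : (2 * Real.pi * Complex.I : ℂ) ^ 2 ≠ 0 := pow_ne_zero _ Complex.two_pi_I_ne_zero
  refine div_ne_zero (pow_ne_zero _ (sub_ne_zero.mpr fun h => ?_)) (Dl_ne_zero τ)
  rw [wn, wn, div_left_inj' hc] at h
  rcases P.wp_inj hv hw h with h | h
  · exact h1 h
  · exact h2 h

theorem Sepa_cv (P : Par) :
    P.Cv (∏ x ∈ P.Sepa_S, PowerSeries.mk (fun k => P.wc x.1 k - P.wc x.2 k) ^ 6)
      fun τ => (∏ x ∈ P.Sepa_S, P.WW x.1 x.2 τ) * Dl τ ^ P.Sepa_S.card := by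
  have h := cv_prod (P := P) P.Sepa_S
    (a := fun x => PowerSeries.mk (fun k => P.wc x.1 k - P.wc x.2 k) ^ 6)
    (F := fun x τ => P.WW x.1 x.2 τ * Dl τ)
    fun x hx => P.WW_cv (Sepa_mem.mp hx).1 (Sepa_mem.mp hx).2.1
  simpa only [Finset.prod_mul_distrib, Finset.prod_const] using h

theorem Sepa_const (P : Par) : ∃ c : ℂ, ∀ τ, ∏ x ∈ P.Sepa_S, P.WW x.1 x.2 τ = c := by
  obtain ⟨N, hN⟩ := P.inv_one P.Sepa_S.card
  have h := hN (fun τ => ∏ x ∈ P.Sepa_S, P.WW x.1 x.2 τ) _ Sepa_inv P.Sepa_cv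
  obtain ⟨c, hc⟩ : ∃ c : ℕ → ℂ, ∀ τ, ∏ x ∈ P.Sepa_S, P.WW x.1 x.2 τ =
      ∑ i ∈ Finset.range (P.Sepa_S.card + 1), c i * J τ ^ i := ⟨_, h⟩
  obtain ⟨q, hq⟩ : ∃ q : Polynomial ℂ, ∀ τ, ∏ x ∈ P.Sepa_S, P.WW x.1 x.2 τ = q.eval (J τ) := by
    refine ⟨∑ i ∈ Finset.range (P.Sepa_S.card + 1), Polynomial.C (c i) * Polynomial.X ^ i,
      fun τ => ?_⟩
    rw [hc, Polynomial.eval_finset_sum]
    simp
  have hd : q.degree ≤ 0 := by
    by_contra hd
    obtain ⟨z, hz⟩ := Complex.exists_root (not_le.mp hd)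
    obtain ⟨τ, rfl⟩ := J_surj z
    have h1 := (hq τ).trans hz
    obtain ⟨x, hx, h2⟩ := Finset.prod_eq_zero_iff.mp h1
    obtain ⟨a1, a2, a3, a4⟩ := Sepa_mem.mp hx
    exact Sepa_ne a1 a2 a3 a4 τ h2
  refine ⟨q.coeff 0, fun τ => ?_⟩
  rw [hq, Polynomial.eq_C_of_degree_le_zero hd]
  simp

/-- The maximal ideal of the valuation ring. -/
def Sepa_m (ι : ℂ →+* K) : Ideal (Ai ι) where
  carrier := {x | ‖ι x‖ < 1}
  add_mem' := fun {a b} ha hb => by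
    have ha' : ‖ι a‖ < 1 := ha
    have hb' : ‖ι b‖ < 1 := hb
    show ‖ι (a + b)‖ < 1
    rw [map_add]
    exact (IsUltrametricDist.norm_add_le_max _ _).trans_lt (max_lt ha' hb')
  zero_mem' := by
    show ‖ι 0‖ < 1
    simp
  smul_mem' := fun c x hx => by
    have hx' : ‖ι x‖ < 1 := hx
    have hc : ‖ι c‖ ≤ 1 := c.2
    show ‖ι (c * x)‖ < 1
    rw [map_mul, norm_mul]
    exact mul_lt_one_of_nonneg_of_lt_one_right hc (norm_nonneg _) hx'

theorem Sepa_prime (ι : ℂ →+* K) : (Sepa_m ι).IsPrime := by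
  refine ⟨?_, fun {x y} h => ?_⟩
  · rw [Ideal.ne_top_iff_one]
    show ¬ ‖ι 1‖ < 1
    simp
  · have h' : ‖ι (x * y)‖ < 1 := h
    rw [map_mul, norm_mul] at h'
    by_contra hc
    rw [not_or] at hc
    have h1 : 1 ≤ ‖ι x‖ := not_lt.mp hc.1
    have h2 : 1 ≤ ‖ι y‖ := not_lt.mp hc.2
    nlinarith

theorem Sepa_unit (ι : ℂ →+* K) (hp : ‖(P.p : K)‖ = 1) {c : ℂ}
    (hc : ∀ τ, ∏ x ∈ P.Sepa_S, P.WW x.1 x.2 τ = c) : 1 ≤ ‖ι c‖ := by
  by_contra hlt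
  have hlt' : ‖ι c‖ < 1 := not_le.mp hlt
  have h1 := P.Sepa_cv
  simp only [hc] at h1
  have h2 := h1.unique ((P.cv_C c).mul ((P.cv_es hasSum_Dl).pow P.Sepa_S.card))
  let a : (Fin 2 → P.F) × (Fin 2 → P.F) → PowerSeries (Ai ι) := fun x =>
    PowerSeries.mk fun k => ⟨P.wc x.1 k - P.wc x.2 k, wc_sub_mem ι hp _ _ k⟩
  let d : PowerSeries (Ai ι) := PowerSeries.mk fun k => ⟨P.es dlc k, P.es_mem _ _ k⟩
  let c' : Ai ι := ⟨c, hlt'.le⟩
  have ha : ∀ x, PowerSeries.map (Ai ι).subtype (a x) =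
      PowerSeries.mk fun k => P.wc x.1 k - P.wc x.2 k := fun x => by
    ext k; simp [a]
  have hd : PowerSeries.map (Ai ι).subtype d = PowerSeries.mk (P.es dlc) := by
    ext k; simp [d]
  have h3 : ∏ x ∈ P.Sepa_S, a x ^ 6 = PowerSeries.C c' * d ^ P.Sepa_S.card := by
    apply PowerSeries.map_injective (Ai ι).subtype Subtype.val_injective
    rw [map_prod, map_mul, map_pow, hd, PowerSeries.map_C]
    simp only [map_pow, ha]
    exact h2
  haveI := Sepa_prime ι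
  have h4 := congrArg (PowerSeries.map (Ideal.Quotient.mk (Sepa_m ι))) h3
  have h5 : Ideal.Quotient.mk (Sepa_m ι) c' = 0 := Ideal.Quotient.eq_zero_iff_mem.mpr hlt'
  rw [map_prod, map_mul, PowerSeries.map_C, h5, map_zero, zero_mul] at h4
  obtain ⟨x, hx, h6⟩ := Finset.prod_eq_zero_iff.mp h4
  rw [map_pow, pow_eq_zero_iff (by norm_num)] at h6
  obtain ⟨a1, a2, a3, a4⟩ := Sepa_mem.mp hx
  obtain ⟨k, hk⟩ := exists_unit_coeff ι hp a1 a2 a3 a4
  have h7 := congrArg (PowerSeries.coeff k) h6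
  rw [PowerSeries.coeff_map, map_zero, Ideal.Quotient.eq_zero_iff_mem] at h7
  have h8 : ‖ι (PowerSeries.coeff k (a x) : Ai ι)‖ < 1 := h7
  simp only [a, PowerSeries.coeff_mk] at h8
  exact absurd hk h8.ne

theorem Sepa_le (ι : ℂ →+* K) (hp : ‖(P.p : K)‖ = 1) {t : ℍ} (hj : ‖ι (J t)‖ ≤ 1)
    {v w : Fin 2 → P.F} (hv : v ≠ 0) (hw : w ≠ 0) : ‖ι (P.WW v w t)‖ ≤ 1 := by
  obtain ⟨a, ha⟩ := WW_fam ι hp hv hw
  have h := ha.int_bound 1 t
  rw [max_eq_left hj] at h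
  simpa using h

theorem norm_WW (ι : ℂ →+* K) (hp : ‖(P.p : K)‖ = 1) {t : ℍ} (hj : ‖ι (J t)‖ ≤ 1)
    {v w : Fin 2 → P.F} (hv : v ≠ 0) (hw : w ≠ 0) (h1 : v ≠ w) (h2 : v ≠ -w) :
    ‖ι (P.WW v w t)‖ = 1 := by
  refine le_antisymm (Sepa_le ι hp hj hv hw) ?_
  obtain ⟨c, hc⟩ := P.Sepa_const
  have h3 := Sepa_unit ι hp hc
  have hm : (v, w) ∈ P.Sepa_S := Sepa_mem.mpr ⟨hv, hw, h1, h2⟩
  rw [← hc t, ← Finset.mul_prod_erase _ _ hm, map_mul, norm_mul, map_prod, norm_prod] at h3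
  refine h3.trans (mul_le_of_le_one_right (norm_nonneg _) ?_)
  refine Finset.prod_le_one (fun _ _ => norm_nonneg _) fun x hx => ?_
  have h4 := Sepa_mem.mp (Finset.mem_of_mem_erase hx)
  exact Sepa_le ι hp hj h4.1 h4.2.1

theorem Sepa_ratio (ι : ℂ →+* K) {t : ℍ} {s : ℂ} (hs : s ≠ 0) {u w b a : Fin 2 → P.F}
    (h1 : ‖ι (P.WW u w t)‖ = 1) (h2 : ‖ι (P.WW b a t)‖ = 1) :
    ‖ι ((s * P.wp u t - s * P.wp w t) / (s * P.wp b t - s * P.wp a t))‖ = 1 := by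
  have hc : (2 * Real.pi * Complex.I : ℂ) ^ 2 ≠ 0 := pow_ne_zero _ Complex.two_pi_I_ne_zero
  have e : ((s * P.wp u t - s * P.wp w t) / (s * P.wp b t - s * P.wp a t)) ^ 6 =
      P.WW u w t / P.WW b a t := by
    rw [WW, WW, div_div_div_cancel_right₀ (Dl_ne_zero t), ← div_pow, wn, wn, wn, wn, ← sub_div,
      ← sub_div, div_div_div_cancel_right₀ hc, ← mul_sub, ← mul_sub, mul_div_mul_left _ _ hs]
  have h3 := congrArg (fun z => ‖ι z‖) e
  simp only [map_pow, norm_pow] at h3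
  rw [map_div₀ ι (P.WW u w t), norm_div, h1, h2, div_one] at h3
  exact (pow_eq_one_iff_of_nonneg (norm_nonneg _) (by norm_num)).mp h3

/-- Inertia does not act through a transvection. -/
theorem Plc.not_tv {l : ℕ} (L : P.Plc l K) {B : Crv} (hB : padicValNat l B.j.den = 0)
    {ρ : P.GF} (h : P.Rho B L.aut ρ) {δ : P.MF} (hδ : δ.det ≠ 0) {x : P.F} (hx : x ≠ 0) :
    ¬ P.Tv ρ δ x := by
  intro hT
  have hu : IsUnit δ.det := isUnit_iff_ne_zero.mpr hδ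
  let ι : ℂ →+* K := L.ι
  have hι : ∀ z, ι z = L.ι z := fun _ => rfl
  have hj : ‖ι (J B.t)‖ ≤ 1 := by
    rw [hι, B.J_eq, L.norm_rat]
    have h1 := max_padicNorm L.prime B.j
    rw [hB, pow_zero] at h1
    exact (le_max_right _ _).trans h1.le
  let e : (Fin 2 → P.F) → Fin 2 → P.F := fun r => r ᵥ* δ⁻¹
  have he : Function.Injective e := by
    intro r r' hr
    have h1 := congrArg (fun u => u ᵥ* δ) hr
    simpa only [e, Matrix.vecMul_vecMul, Matrix.nonsing_inv_mul δ hu, Matrix.vecMul_one] using h1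
  have h0 : e 0 = 0 := Matrix.zero_vecMul _
  have hn : ∀ r, -e r = e (-r) := fun r => (Matrix.neg_vecMul _ _).symm
  have hN : ∀ r r' : Fin 2 → P.F, r ≠ 0 → r' ≠ 0 → r ≠ r' → r ≠ -r' →
      ‖ι (P.WW (e r) (e r') B.t)‖ = 1 := fun r r' a1 a2 a3 a4 =>
    norm_WW ι L.norm_p hj (h0 ▸ he.ne a1) (h0 ▸ he.ne a2) (he.ne a3) (hn r' ▸ he.ne a4)
  have hρ : δ⁻¹ * (ρ : P.MF) = δ⁻¹ * ((ρ : P.MF) * δ) * δ⁻¹ := by
    rw [mul_assoc, mul_assoc, Matrix.mul_nonsing_inv δ hu, mul_one]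
  have hact : ∀ r, L.aut (B.u ^ 2 * P.wp (e r) B.t) =
      B.u ^ 2 * P.wp (e (r ᵥ* !![1, x; 0, 1])) B.t := by
    intro r
    rw [h]
    simp only [e, Matrix.vecMul_vecMul]
    rcases hT with hT | hT
    · rw [hρ, hT, ← mul_assoc, Matrix.nonsing_inv_mul δ hu, one_mul]
    · rw [hρ, hT, mul_neg, ← mul_assoc, Matrix.nonsing_inv_mul δ hu, one_mul, neg_mul,
        Matrix.vecMul_neg, wp_neg]
  have t1 : (![0, 1] : Fin 2 → P.F) ᵥ* !![1, x; 0, 1] = ![0, 1] := by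
    ext i; fin_cases i <;> simp [Matrix.vecMul, dotProduct]
  have t2 : (![0, 2] : Fin 2 → P.F) ᵥ* !![1, x; 0, 1] = ![0, 2] := by
    ext i; fin_cases i <;> simp [Matrix.vecMul, dotProduct]
  have t3 : (![1, 0] : Fin 2 → P.F) ᵥ* !![1, x; 0, 1] = ![1, x] := by
    ext i; fin_cases i <;> simp [Matrix.vecMul, dotProduct]
  have h2 := P.two_ne
  have h3 := P.three_ne
  have n1 : ‖ι (P.WW (e ![0, 2]) (e ![0, 1]) B.t)‖ = 1 := by
    refine hN _ _ (fun a => h2 (by simpa using congrFun a 1)) (fun a => by simpa using congrFun a 1)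
      (fun a => ?_) fun a => ?_
    · have a1 : (2 : P.F) = 1 := by simpa using congrFun a 1
      exact one_ne_zero (by linear_combination a1 : (1 : P.F) = 0)
    · have a1 : (2 : P.F) = -1 := by simpa using congrFun a 1
      exact h3 (by linear_combination a1)
  have n2 : ‖ι (P.WW (e ![1, 0]) (e ![0, 1]) B.t)‖ = 1 :=
    hN _ _ (fun a => by simpa using congrFun a 0) (fun a => by simpa using congrFun a 1)
      (fun a => by simpa using congrFun a 0) fun a => by simpa using congrFun a 0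
  have n3 : ‖ι (P.WW (e ![1, x]) (e ![1, 0]) B.t)‖ = 1 := by
    refine hN _ _ (fun a => by simpa using congrFun a 0) (fun a => by simpa using congrFun a 0)
      (fun a => hx (by simpa using congrFun a 1)) fun a => ?_
    have a1 : (1 : P.F) = -1 := by simpa using congrFun a 0
    exact h2 (by linear_combination a1)
  have hs : B.u ^ 2 ≠ 0 := pow_ne_zero _ B.u_ne
  have r1 := Sepa_ratio ι hs n2 n1
  have r2 := Sepa_ratio ι hs n3 n1
  have r3 := L.res _ r1.le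
  rw [hι, ← L.map_aut, ← map_sub, map_div₀ L.aut, map_sub L.aut, map_sub L.aut, hact, hact, hact,
    t1, t2, t3,
    ← sub_div, sub_sub_sub_cancel_right] at r3
  exact absurd r2 r3.ne

end Par

end

end Pool.Agent.P.MP_a60a76_nt.Sz
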