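import Pool.Agent.P.MP_a60a76_nt.Sz.Tate
import Pool.Agent.P.MP_a60a76_nt.Sz.Sepa
import Pool.Agent.P.MP_a60a76_nt.Sz.GFam

namespace Pool.Agent.P.MP_a60a76_nt.Sz

open UpperHalfPlane MeasureTheory SP
open scoped MatrixGroups UpperHalfPlane Matrix Modular Topology Classical ArithmeticFunction.sigma

noncomputable section

/-! Primes of potentially multiplicative reduction. -/

namespace Par

variable {P : Par} {A B : Crv} {X : P.MF}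

theorem red_T_zpow (P : Par) (x : ℤ) :
    red P.p (ModularGroup.T ^ x) = !![1, (x : P.F); 0, 1] := by
  rw [red, ModularGroup.coe_T_zpow]
  ext i j
  fin_cases i <;> fin_cases j <;> simp

theorem Lnk.symm (h : P.Lnk A B X) (hX : X.det ≠ 0) : P.Lnk B A X⁻¹ := by
  intro s
  obtain ⟨ρ₁, ρ₂, h₁, h₂, h₃⟩ := h s
  refine ⟨ρ₂, ρ₁, h₂, h₁, ?_⟩
  have hu : IsUnit X.det := hX.isUnit
  calc (ρ₁ : P.MF) * X⁻¹ = X⁻¹ * (X * ρ₁) * X⁻¹ := by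
        rw [← Matrix.mul_assoc, Matrix.nonsing_inv_mul _ hu, Matrix.one_mul]
    _ = X⁻¹ * ρ₂ := by
        rw [← h₃, Matrix.mul_assoc, Matrix.mul_assoc, Matrix.mul_nonsing_inv _ hu, Matrix.mul_one]

/-- The degenerate parameter at a place where the invariant has a pole. -/
theorem Ty_param {K : Type} [NormedField K] [IsUltrametricDist K] [CompleteSpace K] {l : ℕ}
    (L : P.Plc l K) (A : Crv) (hA : 0 < padicValNat l A.j.den) : ∃ (s : K) (x : ℤ),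
    s ≠ 0 ∧ ‖s‖ < 1 ∧ ‖s‖ ^ P.p = ((l : ℝ) ^ padicValNat l A.j.den)⁻¹ ∧
    evq e4c (s ^ P.p) ^ 3 = L.ι (J A.t) * evq dlc (s ^ P.p) ∧
    (x : P.F) = L.c * padicValNat l A.j.den ∧ L.sg s = L.ι (P.zp x) * s := by
  have hl : (1 : ℝ) < l := by exact_mod_cast L.prime.one_lt
  have hj : ‖L.ι (J A.t)‖ = (l : ℝ) ^ padicValNat l A.j.den := by
    rw [A.J_eq, L.norm_rat, padicNorm_of_pos L.prime hA]
  have h1 : (1 : ℝ) < (l : ℝ) ^ padicValNat l A.j.den := one_lt_pow₀ hl hA.ne'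
  obtain ⟨q, hq, he, hf⟩ := exists_tate (j := L.ι (J A.t)) (hj ▸ h1)
  have hfix : L.sg (L.ι (J A.t)) = L.ι (J A.t) := by
    rw [← L.map_aut, A.J_eq, map_ratCast]
  rw [hj] at hq
  obtain ⟨s, hs⟩ := L.exists_root q
  have hn : ‖s‖ ^ P.p = ((l : ℝ) ^ padicValNat l A.j.den)⁻¹ := by rw [← norm_pow, hs, hq]
  have hx : (((L.c * padicValNat l A.j.den : P.F).val : ℤ) : P.F) =
      L.c * padicValNat l A.j.den := by
    rw [Int.cast_natCast, ZMod.natCast_zmod_val]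
  refine ⟨s, ((L.c * padicValNat l A.j.den : P.F).val : ℤ), ?_, ?_, hn, hs ▸ he, hx, ?_⟩
  · rintro rfl
    rw [norm_zero, zero_pow P.prime.ne_zero] at hn
    exact absurd hn (inv_pos.2 (by linarith)).ne
  · refine lt_of_pow_lt_pow_left₀ P.p zero_le_one ?_
    rw [hn, one_pow]
    exact inv_lt_one_of_one_lt₀ h1
  · rw [hx]
    exact L.map_root (hf L.sg L.iso hfix) hq hs

/-- From the action on the Fricke functions to the transvection. -/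
theorem Ty_tv {K : Type} [NormedField K] [IsUltrametricDist K] {l : ℕ} (L : P.Plc l K) {A : Crv}
    (hA : A.j.den ≠ 1) {δ : P.GF} {x : ℤ}
    (h : ∀ n f a, P.Fam1 (Ai (L.ι : ℂ →+* K)) n f a →
      L.sg (L.ι (f 1 A.t)) = L.ι (f (δ * P.rg (ModularGroup.T ^ x) * δ⁻¹) A.t))
    {ρ : P.GF} (hρ : P.Rho A L.aut ρ) : P.Tv ρ δ x := by
  have key := Rho.pm hA hρ (δ := δ * P.rg (ModularGroup.T ^ x) * δ⁻¹) fun v hv => by
    obtain ⟨a, ha⟩ := P.fr_fam hv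
    have h1 := h 1 _ a (ha _ (zp_mem_Ai _ 1))
    apply L.ι.injective
    rw [L.map_aut]
    simpa only [Units.val_one, Matrix.vecMul_one] using h1
  have e : ((δ * P.rg (ModularGroup.T ^ x) * δ⁻¹ : P.GF) : P.MF) * δ =
      δ * !![1, (x : P.F); 0, 1] := by
    rw [← Units.val_mul, inv_mul_cancel_right, Units.val_mul, coe_rg, red_T_zpow]
  rcases key with h1 | h1
  · left
    rw [h1, e]
  · right
    rw [h1, Matrix.neg_mul, e]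

/-- Inertia acts through a power of a transvection. -/
theorem Plc.exists_tv {K : Type} [NormedField K] [IsUltrametricDist K] [CompleteSpace K] {l : ℕ}
    (L : P.Plc l K) (A : Crv) (hA : 0 < padicValNat l A.j.den) : ∃ (δ : P.GF) (s : K),
    ‖s‖ ^ P.p = ((l : ℝ) ^ padicValNat l A.j.den)⁻¹ ∧
    (∀ n f a, P.Fam1 (Ai (L.ι : ℂ →+* K)) n f a →
      HasSum (fun k => L.ι (a δ k) * s ^ k) (L.ι (f 1 A.t) * evq dlc (s ^ P.p) ^ n)) ∧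
    ∀ ρ : P.GF, P.Rho A L.aut ρ → P.Tv ρ δ (L.c * padicValNat l A.j.den) := by
  obtain ⟨s, x, h0, h1, hn, he, hx, hs⟩ := Ty_param L A hA
  obtain ⟨δ, ha, hb⟩ := P.tate_one L.ι h0 h1 he
  refine ⟨δ, s, hn, ha, fun ρ hρ => ?_⟩
  rw [← hx]
  exact Ty_tv L (den_ne_one hA) (hb L.sg x L.iso (L.map_zp 1) hs) hρ

theorem Lnk.val_pos (h : P.Lnk A B X) (hX : X.det ≠ 0) {l : ℕ} (hl : l.Prime) (hne : l ≠ P.p)
    (hA : 0 < padicValNat l A.j.den) (hd : ¬ P.p ∣ padicValNat l A.j.den) :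
    0 < padicValNat l B.j.den := by
  have : Fact l.Prime := ⟨hl⟩
  obtain ⟨L⟩ := P.exists_plc l hne
  by_contra hB
  obtain ⟨δ, s, -, -, hT⟩ := L.exists_tv A hA
  obtain ⟨ρ₁, ρ₂, h₁, h₂, h₃⟩ := h L.aut
  have hx : L.c * (padicValNat l A.j.den : P.F) ≠ 0 :=
    mul_ne_zero L.c_ne fun h0 => hd ((ZMod.natCast_eq_zero_iff _ _).1 h0)
  have hδ : (X * (δ : P.MF)).det ≠ 0 := by
    rw [Matrix.det_mul]
    exact mul_ne_zero hX (Matrix.GeneralLinearGroup.det_ne_zero δ)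
  refine L.not_tv (Nat.eq_zero_of_not_pos hB) h₂ hδ hx ?_
  rcases hT ρ₁ h₁ with h4 | h4
  · left
    rw [← Matrix.mul_assoc, h₃, Matrix.mul_assoc, h4, Matrix.mul_assoc]
  · right
    rw [← Matrix.mul_assoc, h₃, Matrix.mul_assoc, h4, Matrix.mul_neg, Matrix.mul_assoc]

/-- A matrix which intertwines two transvections up to sign. -/
theorem Ty_entries {Y : P.MF} (hY : Y.det ≠ 0) {x y : P.F} (hx : x ≠ 0)
    (h : !![1, y; 0, 1] * Y = Y * !![1, x; 0, 1] ∨ !![1, y; 0, 1] * Y = -(Y * !![1, x; 0, 1])) :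
    Y 1 0 = 0 ∧ Y 0 0 * x = Y 1 1 * y := by
  rcases h with h | h
  · have h1 := congrFun (congrFun h 1) 1
    have h2 := congrFun (congrFun h 0) 1
    simp [Matrix.mul_apply, Fin.sum_univ_two, hx] at h1 h2
    exact ⟨h1, by linear_combination -h2⟩
  · exfalso
    have h1 := congrFun (congrFun h 1) 0
    have h2 := congrFun (congrFun h 1) 1
    simp [Matrix.mul_apply, Fin.sum_univ_two] at h1 h2
    have h3 : Y 1 0 = 0 := mul_left_cancel₀ P.two_ne (by linear_combination h1)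
    have h4 : Y 1 1 = 0 := mul_left_cancel₀ P.two_ne (by linear_combination h2 - x * h3)
    exact hY (by rw [Matrix.det_fin_two, h3, h4]; ring)

theorem Ty_tw {δ : P.GG} {ρ₁ ρ₂ : P.GF} {x y : P.F} (h₁ : P.Tv ρ₁ δ.1.1 x) (h₂ : P.Tv ρ₂ δ.1.2 y)
    (h : (ρ₂ : P.MF) * X = X * ρ₁) :
    !![1, y; 0, 1] * P.tw δ X = P.tw δ X * !![1, x; 0, 1] ∨
      !![1, y; 0, 1] * P.tw δ X = -(P.tw δ X * !![1, x; 0, 1]) := by
  have e : (δ.1.2 : P.MF) * P.tw δ X = X * δ.1.1 := by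
    rw [tw, Matrix.mul_assoc, Units.mul_inv_cancel_left]
  have e2 : (ρ₂ : P.MF) * δ.1.2 * P.tw δ X = X * ((ρ₁ : P.MF) * δ.1.1) := by
    rw [Matrix.mul_assoc, e, ← Matrix.mul_assoc, h, Matrix.mul_assoc]
  have e3 : X * ((δ.1.1 : P.MF) * !![1, x; 0, 1]) = δ.1.2 * (P.tw δ X * !![1, x; 0, 1]) := by
    rw [← Matrix.mul_assoc, ← e, Matrix.mul_assoc]
  have inj : ∀ U V : P.MF, (δ.1.2 : P.MF) * U = δ.1.2 * V → U = V := fun U V =>
    (Units.mul_right_inj _).1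
  rcases h₁ with h₁ | h₁ <;> rcases h₂ with h₂ | h₂ <;> rw [h₁, h₂] at e2
  · left
    apply inj
    rw [← Matrix.mul_assoc, e2, e3]
  · right
    apply inj
    rw [← Matrix.mul_assoc, Matrix.mul_neg, ← e3, ← e2, Matrix.neg_mul, neg_neg]
  · right
    apply inj
    rw [← Matrix.mul_assoc, e2, Matrix.mul_neg, Matrix.mul_neg, e3]
  · left
    apply inj
    rw [Matrix.neg_mul, Matrix.mul_neg, neg_inj] at e2
    rw [← Matrix.mul_assoc, e2, e3]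

/-- The situation at a prime which has a type. -/
theorem Ty_key (h : P.Lnk A B X) (hX : X.det = P.m) {v₁ v₂ l : ℕ} (hT : P.IsTy A B v₁ v₂ l)
    {K : Type} [NormedField K] [IsUltrametricDist K] [CompleteSpace K] (L : P.Plc l K) :
    ∃ (δ : P.GG) (s t : K), ‖s‖ < 1 ∧ ‖t‖ < 1 ∧ ‖s‖ ^ P.p = ((l : ℝ) ^ v₁)⁻¹ ∧
      ‖t‖ ^ P.p = ((l : ℝ) ^ v₂)⁻¹ ∧
      (∀ n f a, P.Fam (Ai (L.ι : ℂ →+* K)) n f a →
        L.ι (f 1 A.t B.t) * (evq dlc (s ^ P.p) * evq dlc (t ^ P.p)) ^ n =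
          ev (L.ι : ℂ →+* K) (a δ) s t) ∧
      P.tw δ X 1 0 = 0 ∧ P.tw δ X 0 0 * v₁ = P.tw δ X 1 1 * v₂ := by
  have hA : 0 < padicValNat l A.j.den := hT.val₁ ▸ hT.pos₁
  have hB : 0 < padicValNat l B.j.den := hT.val₂ ▸ hT.pos₂
  obtain ⟨s, x, hs0, hs1, hsn, hse, hx, hs⟩ := Ty_param L A hA
  obtain ⟨t, y, ht0, ht1, htn, hte, hy, ht⟩ := Ty_param L B hB
  rw [hT.val₁] at hsn hx
  rw [hT.val₂] at htn hy
  obtain ⟨δ, ha, hb⟩ := P.tate L.ι hs0 ht0 hs1 ht1 hse hte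
  have hb' := hb L.sg x y L.iso (L.map_zp 1) hs ht
  obtain ⟨ρ₁, ρ₂, h₁, h₂, h₃⟩ := h L.aut
  have t₁ : P.Tv ρ₁ δ.1.1 x :=
    Ty_tv L (den_ne_one hA) (fun n f a hf => hb' n _ _ hf.fst) h₁
  have t₂ : P.Tv ρ₂ δ.1.2 y :=
    Ty_tv L (den_ne_one hB) (fun n f a hf => hb' n _ _ hf.snd) h₂
  have hx0 : (x : P.F) ≠ 0 := by
    rw [hx]
    exact mul_ne_zero L.c_ne fun h0 => hT.ndvd ((ZMod.natCast_eq_zero_iff _ _).1 h0)
  have hd : (P.tw δ X).det ≠ 0 := by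
    rw [det_tw, hX]
    exact P.m_ne
  obtain ⟨e₁, e₂⟩ := Ty_entries hd hx0 (Ty_tw t₁ t₂ h₃)
  refine ⟨δ, s, t, hs1, ht1, hsn, htn, ha, e₁, mul_left_cancel₀ L.c_ne ?_⟩
  rw [hx, hy] at e₂
  linear_combination e₂

theorem Ty_sq {Y : P.MF} (hY : Y.det = P.m) {v₁ v₂ : ℕ} (h₁ : ¬ P.p ∣ v₁) (h0 : Y 1 0 = 0)
    (hv : Y 0 0 * v₁ = Y 1 1 * v₂) :
    ¬ P.p ∣ v₂ ∧ IsSquare (4 * (P.m : P.F) * ((v₁ * v₂ : ℕ) : P.F)) := by
  rw [Matrix.det_fin_two, h0, mul_zero, sub_zero] at hY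
  refine ⟨fun h => ?_, 2 * Y 0 0 * v₁, ?_⟩
  · rw [(ZMod.natCast_eq_zero_iff _ _).2 h, mul_zero] at hv
    rcases mul_eq_zero.1 hv with h2 | h2
    · exact P.m_ne (by rw [← hY, h2, zero_mul])
    · exact h₁ ((ZMod.natCast_eq_zero_iff _ _).1 h2)
  · rw [← hY, Nat.cast_mul]
    linear_combination (-4 * Y 0 0 * v₁) * hv

theorem Ty_inA_Pf (c : P.D → ℤ → ℤ) (X : P.MF) {R : Subring ℂ} (hR : P.zp 1 ∈ R) :
    InA R (P.Pf c X) := by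
  have hz : ∀ b, P.zp b ∈ R := fun b => P.zp_eq_pow b ▸ R.pow_mem hR _
  show P.Pf c X ∈ inA R
  refine (inA R).prod_mem fun i _ => (inA R).prod_mem fun b _ => (inA R).pow_mem ?_ _
  exact (inA R).sub_mem (inA_mono (hz b) _ _) (inA_mono R.one_mem _ _)

theorem IsTy.isSquare (h : P.Lnk A B X) (hX : X.det = P.m) {v₁ v₂ l : ℕ}
    (hT : P.IsTy A B v₁ v₂ l) :
    ¬ P.p ∣ v₂ ∧ IsSquare (4 * (P.m : P.F) * ((v₁ * v₂ : ℕ) : P.F)) := by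
  have : Fact l.Prime := ⟨hT.prime⟩
  obtain ⟨L⟩ := P.exists_plc l hT.ne
  obtain ⟨δ, s, t, -, -, -, -, -, e₁, e₂⟩ := Ty_key h hX hT L
  exact Ty_sq (by rw [det_tw, hX]) hT.ndvd e₁ e₂

theorem IsTy.bound (h : P.Lnk A B X) (hX : X.det = P.m) {v₁ v₂ l : ℕ}
    (hT : P.IsTy A B v₁ v₂ l) {c : P.D → ℤ → ℤ} (hc : P.IsF0 c) (hp : P.Pos c) {G : ℚ}
    (hG : (G : ℂ) = P.gi c X A.t B.t) {K₀ : ℕ} (hK : K₀ < P.p) :
    (padicNorm l G : ℝ) ≤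
      (l : ℝ) ^ (P.KK c * padicValNat l (A.j.den * B.j.den) - P.exc c (v₁ * v₂) K₀ : ℤ) := by
  have : Fact l.Prime := ⟨hT.prime⟩
  obtain ⟨L⟩ := P.exists_plc l hT.ne
  obtain ⟨δ, s, t, hs, ht, hsn, htn, ha, e₁, e₂⟩ := Ty_key h hX hT L
  have hd : (P.tw δ X).det = P.m := by rw [det_tw, hX]
  have hl : (1 : ℝ) < l := by exact_mod_cast hT.prime.one_lt
  have hl0 : (0 : ℝ) < l := by linarith
  obtain ⟨a, hfam⟩ := gi_fam hc hp hX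
  have hz := zp_mem_Ai (P := P) (L.ι : ℂ →+* PadicComplex l) 1
  obtain ⟨hF, hb⟩ := hfam _ hz
  obtain ⟨b, hb1, hb2⟩ := hb δ
  have h1 := ha _ _ _ hF
  simp only [tw_one] at h1
  have hP := ab_of_bdd (φ := (L.ι : ℂ →+* PadicComplex l)) (Ty_inA_Pf c (P.tw δ X) hz) hs ht
  have hb3 := ab_of_bdd (φ := (L.ι : ℂ →+* PadicComplex l)) hb1 hs ht
  rw [hb2, (hP.mul hb3).2, ← hG] at h1
  have h2 := congrArg norm h1
  have hs' : ‖s ^ P.p‖ < 1 := by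
    rw [norm_pow]
    exact pow_lt_one₀ (norm_nonneg _) hs P.prime.ne_zero
  have ht' : ‖t ^ P.p‖ < 1 := by
    rw [norm_pow]
    exact pow_lt_one₀ (norm_nonneg _) ht P.prime.ne_zero
  rw [norm_mul, norm_mul, norm_pow, norm_mul, norm_evq_dlc hs', norm_evq_dlc ht', norm_pow,
    norm_pow, hsn, htn, L.norm_rat] at h2
  have h3 := norm_ev_Pf hc hp hd (L.ι : ℂ →+* PadicComplex l) hl hT.ndvd
    (Ty_sq hd hT.ndvd e₁ e₂).1 hsn htn e₁ e₂ hK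
  have h4 := norm_ev_le (φ := (L.ι : ℂ →+* PadicComplex l)) hb1 hs ht
  have h5 : (padicNorm l G : ℝ) * (((l : ℝ) ^ v₁)⁻¹ * ((l : ℝ) ^ v₂)⁻¹) ^ (P.KK c).toNat ≤
      (l : ℝ) ^ (-P.exc c (v₁ * v₂) K₀) := by
    rw [h2]
    exact (mul_le_of_le_one_right (norm_nonneg _) h4).trans h3
  have h6 : (((l : ℝ) ^ v₁)⁻¹ * ((l : ℝ) ^ v₂)⁻¹) ^ (P.KK c).toNat =
      ((l : ℝ) ^ (P.KK c * (padicValNat l (A.j.den * B.j.den) : ℕ) : ℤ))⁻¹ := by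
    rw [padicValNat.mul A.j.den_nz B.j.den_nz, hT.val₁, hT.val₂, ← mul_inv, ← pow_add, inv_pow,
      ← pow_mul, ← zpow_natCast, Nat.cast_mul, Int.toNat_of_nonneg (KK_nonneg hc hp), mul_comm]
  rw [h6, ← div_eq_mul_inv, div_le_iff₀ (zpow_pos hl0 _)] at h5
  rw [sub_eq_add_neg, zpow_add₀ hl0.ne', mul_comm]
  exact h5

end Par

end

end Pool.Agent.P.MP_a60a76_nt.Sz
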