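import Pool.Agent.P.MP_a60a76_nt.Sz.L2
import Pool.Agent.P.MP_a60a76_nt.Sz.Deu
import Pool.Agent.P.MP_a60a76_nt.Sz.Iner
import Pool.Agent.P.MP_a60a76_nt.Sz.Tate
import Pool.Agent.P.MP_a60a76_nt.Sz.Ty

namespace Pool.Agent.P.MP_a60a76_nt.Sz

open UpperHalfPlane hiding J
open MeasureTheory SP
open scoped MatrixGroups UpperHalfPlane Matrix Modular Topology Classical ArithmeticFunction.sigma

noncomputable section

/-! Primes of additive potentially good reduction. -/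

theorem Add_fix {K : Type} [NormedField K] [IsUltrametricDist K] {sg : K ≃+* K} (hs : Ine sg)
    {n : ℕ} (hn : ‖(n : K)‖ = 1) {w : K} (hw : ‖w‖ = 1) (h : sg (w ^ n) = w ^ n) : sg w = w := by
  have h0 : w ≠ 0 := norm_ne_zero_iff.1 (by rw [hw]; exact one_ne_zero)
  have h1 := Plc_root hn (μ := sg w / w)
    (by rw [div_pow, ← map_pow, h, div_self (pow_ne_zero _ h0)])
    (by rw [div_sub_one h0, norm_div, hw, div_one]; exact hs.2 w hw.le)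
  exact (div_eq_one_iff_eq h0).1 h1

theorem moves_root {K : Type} [NormedField K] [IsUltrametricDist K] {l : ℕ} (hl : l.Prime)
    {ι : ℂ →+* K} (hι : Plv ι l) {sg : K ≃+* K} (hs : Ine sg) {n : ℕ} (hn : n.Prime)
    (hnl : ‖(n : K)‖ = 1) {r : K} (hr : r ^ n = l) (hm : sg r ≠ r) {x : K} {q : ℚ}
    (hx : x ^ n = q) (hv : ¬ (n : ℤ) ∣ padicValRat l q) : sg x ≠ x := by
  intro hfix
  have := Fact.mk hl
  have hq : q ≠ 0 := by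
    rintro rfl
    simp at hv
  set v := padicValRat l q with hvd
  have l0 : (l : ℝ) ≠ 0 := by exact_mod_cast hl.ne_zero
  have h1 : ‖(q : K)‖ = (l : ℝ) ^ (-v) := by
    rw [← map_ratCast ι, hι, padicNorm.eq_zpow_of_nonzero hq]
    push_cast
    rfl
  have h2 : ‖(l : K)‖ = (l : ℝ)⁻¹ := by
    have h := hι (l : ℚ)
    rw [padicNorm.padicNorm_p_of_prime, Rat.cast_natCast, map_natCast] at h
    rw [h]
    push_cast
    rfl
  have lK : (l : K) ≠ 0 := norm_ne_zero_iff.1 (h2 ▸ inv_ne_zero l0)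
  have r0 : r ≠ 0 := by
    rintro rfl
    rw [zero_pow hn.ne_zero] at hr
    exact lK hr.symm
  have e : (x / r ^ v) ^ n = q / (l : K) ^ v := by
    rw [div_pow, hx, ← hr, ← zpow_natCast, ← zpow_natCast, ← zpow_mul, ← zpow_mul, mul_comm]
  have h3 : ‖x / r ^ v‖ = 1 := Plc_norm_one hn.ne_zero (by
    rw [← norm_pow, e, norm_div, norm_zpow, h1, h2, inv_zpow', div_self (zpow_ne_zero _ l0)])
  have h4 := Add_fix hs hnl h3 (by rw [e, map_div₀, map_zpow₀, map_ratCast, map_natCast])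
  have x0 : x ≠ 0 := by
    rintro rfl
    simp at h3
  rw [map_div₀, map_zpow₀, hfix, div_eq_mul_inv, div_eq_mul_inv, mul_right_inj' x0,
    inv_inj] at h4
  have s0 : sg r ≠ 0 := (map_ne_zero sg).2 r0
  have h5 : sg r ^ (n : ℤ) = r ^ (n : ℤ) := by
    rw [zpow_natCast, zpow_natCast, ← map_pow, hr, map_natCast]
  obtain ⟨a, b, hab⟩ := (Nat.prime_iff_prime_int.1 hn).coprime_iff_not_dvd.2 hv
  refine hm ?_
  rw [← zpow_one (sg r), ← hab, zpow_add₀ s0, mul_comm a, mul_comm b, zpow_mul, zpow_mul, h4, h5,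
    ← zpow_mul, ← zpow_mul, ← zpow_add₀ r0, mul_comm _ a, mul_comm _ b, hab, zpow_one]

theorem Add_tate (P : Par) {l : ℕ} [Fact l.Prime] (h5 : 5 ≤ l) (hne : l ≠ P.p)
    {ι : ℂ ≃+* PadicComplex l} (hι : Plv (ι : ℂ →+* PadicComplex l) l)
    {sg : PadicComplex l ≃+* PadicComplex l} (hs : Ine sg) {t : ℍ} {j : ℚ} (ht : J t = j)
    (hj : 1 < ‖ι (J t)‖) {ρ : P.GF} (h : P.Ga t (cjg ι sg) ρ) :
    (ρ : P.MF).trace = 2 ∨ (ρ : P.MF).trace = -2 := by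
  have hl : l.Prime := Fact.out
  have hp := hι.norm_p hl hne
  have h6 := hι.norm_six hl h5
  obtain ⟨q, hq, he, hf⟩ := exists_tate hj
  have hfix : sg q = q := hf sg hs.1 (by rw [← map_cjg, ht, map_ratCast])
  obtain ⟨s, rfl⟩ := IsAlgClosed.exists_pow_nat_eq q P.prime.pos
  have q0 : s ^ P.p ≠ 0 := norm_ne_zero_iff.1 (hq ▸ inv_ne_zero (by linarith))
  have s0 : s ≠ 0 := fun e => q0 (by rw [e, zero_pow P.prime.ne_zero])
  have s1 : ‖s‖ < 1 := lt_of_pow_lt_pow_left₀ P.p zero_le_one (by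
    rw [← norm_pow, hq, one_pow]
    exact inv_lt_one_of_one_lt₀ hj)
  obtain ⟨c, hc⟩ := P.Plc_exists_zp (w := ι.symm (sg s / s)) (by
    rw [← map_pow, div_pow, ← map_pow, hfix, div_self q0, map_one])
  have hc' : sg s = ι (P.zp ((c.val : ℤ) : P.F)) * s := by
    rw [Int.cast_natCast, ZMod.natCast_zmod_val, ← hc, RingEquiv.apply_symm_apply,
      div_mul_cancel₀ _ s0]
  have hz : sg (ι (P.zp 1)) = ι (P.zp 1) :=
    Add_fix hs hp (Par.norm_map_zp (ι : ℂ →+* PadicComplex l) 1)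
      (by rw [← map_pow ι, P.zp_pow_p, map_one, map_one])
  obtain ⟨δ, -, hδ⟩ := P.tate_one ι s0 s1 he
  obtain ⟨g, hg, hρ⟩ := Par.co_pm (s := t) (ρ := ρ)
      (δ := δ * P.rg (ModularGroup.T ^ (c.val : ℤ)) * δ⁻¹) fun o => by
    obtain ⟨a, ha⟩ := P.tf_fam o
    rw [← h.tf_eq o]
    exact ι.injective ((map_cjg ι sg _).trans
      (hδ sg _ hs.1 hz hc' 1 _ a (ha _ (Par.wc_mem _ hp h6))))
  have e4 : E4 t ≠ 0 := fun e => by
    rw [(J_zero_iff t).2 e, map_zero, norm_zero] at hj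
    linarith
  have e6 : E6 t ≠ 0 := fun e => by
    rw [(J_1728_iff t).2 e] at hj
    exact hj.ne' (CoC_1728 (ι := (ι : ℂ →+* PadicComplex l)) h6)
  have d4 := (stab_dn hg).1 e4
  have d2 : dn g t ^ 2 = 1 := by
    linear_combination (stab_dn hg).2.1 e6 - dn g t ^ 2 * d4
  have tr : ((δ * P.rg (ModularGroup.T ^ (c.val : ℤ)) * δ⁻¹ : P.GF) : P.MF).trace = 2 := by
    rw [Units.val_mul, Units.val_mul, Matrix.trace_units_conj, P.coe_rg, P.red_T_zpow,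
      Matrix.trace_fin_two_of]
    norm_num
  rcases stab_pm hg d2 with rfl | rfl
  · left
    rw [hρ, P.rg_one, mul_one, tr]
  · right
    rw [hρ, Units.val_mul, P.coe_rg, P.red_neg, ← P.coe_rg, P.rg_one, Units.val_one, mul_neg,
      mul_one, Matrix.trace_neg, tr]

theorem Add_gd {K : Type} [NormedField K] [IsUltrametricDist K] {ι : ℂ →+* K} {l : ℕ}
    (hl : l.Prime) (h5 : 5 ≤ l) (hι : Plv ι l) {t : ℍ} {j : ℚ} (ht : J t = j)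
    (hj : ‖ι (J t)‖ ≤ 1) : ∃ s, Gd ι s ∧ ‖ι (J t - J s)‖ < 1 ∧ ‖ι (J t - J s)‖ ^ 2 ≤ (l : ℝ)⁻¹ := by
  have key : ∀ c : ℚ, ((c : ℂ) = 0 ∨ (c : ℂ) = 1728) → ‖ι (J t - c)‖ < 1 →
      ∃ s, Gd ι s ∧ ‖ι (J t - J s)‖ < 1 ∧ ‖ι (J t - J s)‖ ^ 2 ≤ (l : ℝ)⁻¹ := fun c hc h => by
    obtain ⟨s, hs⟩ := J_surj (c : ℂ)
    refine ⟨s, gd_of_ell (hι.norm_six hl h5) (hs ▸ hc), hs ▸ h, ?_⟩
    rw [hs]
    rw [ht, ← Rat.cast_sub] at h ⊢
    nlinarith [hι.le_inv hl h, norm_nonneg (ι ((j - c : ℚ) : ℂ))]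
  by_cases h0 : ‖ι (J t)‖ < 1
  · exact key 0 (.inl (by simp)) (by simpa using h0)
  by_cases h1 : ‖ι (J t - 1728)‖ < 1
  · exact key 1728 (.inr (by simp)) (by simpa using h1)
  exact ⟨t, ⟨hj, fun h => absurd h h0, fun h => absurd h h1⟩, by simp, by simp⟩

theorem Par.inert (P : Par) {l : ℕ} [Fact l.Prime] (h5 : 5 ≤ l) (hne : l ≠ P.p)
    {ι : ℂ ≃+* PadicComplex l} (hι : Plv (ι : ℂ →+* PadicComplex l) l)
    {sg : PadicComplex l ≃+* PadicComplex l} (hs : Ine sg) {t : ℍ} {j : ℚ} (ht : J t = j)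
    {ρ : P.GF} {κ : ℂ} (hκ : κ ^ 6 = 1) (h : (P.co t).map (cjg ι sg) = ((P.co t).tw ρ).sc κ) :
    (1 < padicNorm l j ∧ ((ρ : P.MF).trace = 2 ∨ (ρ : P.MF).trace = -2)) ∨
      ∃ (s : ℍ) (g : SL(2, ℤ)), P.Nr (ι : ℂ →+* PadicComplex l) l t s ∧ g • s = s ∧
        (ρ : P.MF) = red P.p g ∧ dn g s ^ 2 = κ := by
  have hl : l.Prime := Fact.out
  have hp := hι.norm_p hl hne
  have h6 := hι.norm_six hl h5
  have hj : ‖ι (J t)‖ = padicNorm l j := ht ▸ hι j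
  rcases lt_or_ge 1 ‖ι (J t)‖ with h1 | h1
  · exact .inl ⟨by exact_mod_cast hj ▸ h1, Add_tate P h5 hne hι hs ht h1 ⟨κ, hκ, h⟩⟩
  obtain ⟨s₀, g0, g1, g2⟩ := Add_gd hl h5 hι ht h1
  obtain ⟨g₀, κ₀, hκ₀, hc⟩ := Par.exists_sim hp h6 h1 g1
  have k0 : κ ≠ 0 := fun e => by simp [e] at hκ
  have hi : κ⁻¹ ^ 6 = 1 := by rw [inv_pow, hκ, _root_.inv_one]
  have c1 := (Par.co_itg hp h6 h1).cl_ine hs
  rw [h] at c1
  have c2 := (c1.sc hκ₀).sc hi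
  rw [Par.Co.sc_sc, Par.Co.sc_sc, mul_right_comm, inv_mul_cancel₀ k0, one_mul,
    ← Par.Co.tw_sc] at c2
  obtain ⟨g, hg, hρ, hd⟩ := Par.gd_pm hp h6 (g0.smul g₀) (ρ := ρ) (δ := 1) hi (by
    rw [Units.val_one, Par.Co.tw_one]
    exact ((hc.tw ρ).trans c2).trans (hc.sc hi).symm)
  exact .inr ⟨g₀ • s₀, g, ⟨g0.smul g₀, ⟨κ₀, hκ₀, hc⟩, by rwa [SP.J_smul]⟩, hg,
    by rw [hρ, one_mul, P.coe_rg], (mul_inv_eq_one₀ k0).1 hd⟩

theorem Add_move (P : Par) {l : ℕ} [Fact l.Prime] (h5 : 5 ≤ l)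
    {ι : ℂ ≃+* PadicComplex l} (hι : Plv (ι : ℂ →+* PadicComplex l) l) {t : ℍ} {j : ℚ}
    (ht : J t = j) (hb : Bad' l j) : padicNorm l j ≤ 1 ∧ ∃ sg, Ine sg ∧
      ∀ ρ : P.MF, (P.co t).map (cjg ι sg) ≠ ((P.co t).tw ρ).sc 1 := by
  have hl : l.Prime := Fact.out
  have key : ∀ (n : ℕ) (x : ℂ) (q : ℚ), n.Prime → n ≤ 3 → x ^ n = q →
      ¬ (n : ℤ) ∣ padicValRat l q → ∃ sg, Ine sg ∧ cjg ι sg x ≠ x := fun n x q hn h3 hx hv => by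
    obtain ⟨sg, h1, h2, r, hr, hm⟩ := exists_inertia l hn (by omega)
    refine ⟨sg, ⟨h1, h2⟩, fun e => moves_root hl hι ⟨h1, h2⟩ hn
      (hι.norm_nat hl fun h => by have := Nat.le_of_dvd hn.pos h; omega) hr hm (x := ι x)
      (by rw [← map_pow, hx, map_ratCast]) hv ?_⟩
    rw [← map_cjg, e]
  refine ⟨?_, ?_⟩
  · by_cases h0 : j = 0
    · simp [h0]
    · rw [padicNorm.eq_zpow_of_nonzero h0]
      exact zpow_le_one_of_nonpos₀ (by exact_mod_cast hl.one_lt.le) (neg_nonpos.2 hb.1)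
  rcases hb.2 with hv | hv
  · obtain ⟨sg, h1, h2⟩ := key 3 _ j Nat.prime_three le_rfl ((P.co_a t).trans ht) hv
    exact ⟨sg, h1, fun ρ e => h2 ((congrArg Par.Co.a e).trans (by simp [Par.Co.sc, Par.Co.tw]))⟩
  · obtain ⟨sg, h1, h2⟩ := key 2 _ (j - 1728) Nat.prime_two (by norm_num)
      ((P.co_b t).trans (by rw [ht]; push_cast; rfl)) hv
    exact ⟨sg, h1, fun ρ e => h2 ((congrArg Par.Co.b e).trans (by simp [Par.Co.sc, Par.Co.tw]))⟩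

theorem Add_int (P : Par) {a b : ℤ} (h : (a : P.F) = b) (ha : |a| ≤ 1) (hb : |b| ≤ 2) : a = b := by
  have h1 := (ZMod.intCast_eq_intCast_iff_dvd_sub a b P.p).1 h
  have h5 : (5 : ℤ) ≤ P.p := by exact_mod_cast P.five
  rw [abs_le] at ha hb
  have := Int.eq_zero_of_abs_lt_dvd h1 (abs_lt.2 ⟨by omega, by omega⟩)
  omega

theorem Add_pair (P : Par) {l : ℕ} [Fact l.Prime] (h5 : 5 ≤ l) (hne : l ≠ P.p)
    {ι : ℂ ≃+* PadicComplex l} (hι : Plv (ι : ℂ →+* PadicComplex l) l)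
    {sg : PadicComplex l ≃+* PadicComplex l} (hs : Ine sg) {t t' : ℍ} {j j' : ℚ} (ht : J t = j)
    (ht' : J t' = j') (hj : padicNorm l j ≤ 1)
    (hm : ∀ ρ : P.MF, (P.co t).map (cjg ι sg) ≠ ((P.co t).tw ρ).sc 1) {ρ ρ' : P.GF}
    (h : P.Ga t (cjg ι sg) ρ) (h' : P.Ga t' (cjg ι sg) ρ')
    (htr : (ρ : P.MF).trace = (ρ' : P.MF).trace) : ∃ (s s' : ℍ) (g g' : SL(2, ℤ)),
      P.Nr (ι : ℂ →+* PadicComplex l) l t s ∧ P.Nr (ι : ℂ →+* PadicComplex l) l t' s' ∧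
      g • s = s ∧ g' • s' = s' ∧ (ρ : P.MF) = P.rz g ∧ (ρ' : P.MF) = P.rz g' ∧
      (g : MZ).trace = (g' : MZ).trace ∧ |(g : MZ).trace| ≤ 1 := by
  obtain ⟨κ, hκ, h⟩ := h
  obtain ⟨κ', hκ', h'⟩ := h'
  obtain ⟨s, g, h1, h2, h3, h4⟩ := (P.inert h5 hne hι hs ht hκ h).resolve_left
    fun k => not_lt.2 hj k.1
  have h6 := (stab_trace h2 fun e => hm ρ (by rw [h, ← h4, e])).2
  have h7 : (((g : MZ).trace : ℤ) : P.F) = (ρ' : P.MF).trace := by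
    rw [← htr, h3, ← P.rz_trace, P.rz_sl]
  rcases P.inert h5 hne hι hs ht' hκ' h' with ⟨-, k | k⟩ | ⟨s', g', k1, k2, k3, -⟩
  · have := Add_int P (b := 2) (by rw [h7, k]; norm_num) h6 (by norm_num)
    rw [this] at h6
    norm_num at h6
  · have := Add_int P (b := -2) (by rw [h7, k]; norm_num) h6 (by norm_num)
    rw [this] at h6
    norm_num at h6
  refine ⟨s, s', g, g', h1, k1, h2, k2, h3, k3,
    Add_int P (by rw [h7, k3, ← P.rz_trace, P.rz_sl]) h6 ?_, h6⟩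
  by_cases e : dn g' s' ^ 2 = 1
  · rcases stab_pm k2 e with rfl | rfl <;> simp
  · exact (stab_trace k2 e).2.trans one_le_two

theorem Par.add_lift (P : Par) {l : ℕ} [Fact l.Prime] (h5 : 5 ≤ l) (hne : l ≠ P.p)
    {ι : ℂ ≃+* PadicComplex l} (hι : Plv (ι : ℂ →+* PadicComplex l) l) {A B : Crv}
    (hb : Bad' l A.j ∨ Bad' l B.j) {X : P.MF} (hX : X.det ≠ 0) (hL : P.Lk A.t B.t X) :
    ∃ (s₁ s₂ : ℍ) (Y₁ Y₂ : MZ), P.Nr (ι : ℂ →+* PadicComplex l) l A.t s₁ ∧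
      P.Nr (ι : ℂ →+* PadicComplex l) l B.t s₂ ∧ Cm s₁ s₂ Y₁ Y₂ ∧ Y₁.det = 1 ∧
      (P.TyP X Y₁ Y₂ ∨ P.TyM X Y₁ Y₂) := by
  have key : ∃ (s₁ s₂ : ℍ) (g₁ g₂ : SL(2, ℤ)), P.Nr (ι : ℂ →+* PadicComplex l) l A.t s₁ ∧
      P.Nr (ι : ℂ →+* PadicComplex l) l B.t s₂ ∧ g₁ • s₁ = s₁ ∧ g₂ • s₂ = s₂ ∧
      P.rz g₂ * X = X * P.rz g₁ ∧ (g₁ : MZ).trace = (g₂ : MZ).trace ∧ |(g₁ : MZ).trace| ≤ 1 := by
    rcases hb with hb | hb
    · obtain ⟨hj, sg, hs, hm⟩ := Add_move P h5 hι A.J_eq hb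
      obtain ⟨ρ₁, ρ₂, h₁, h₂, h₃⟩ := hL (cjg ι sg)
      obtain ⟨s, s', g, g', k1, k2, k3, k4, k5, k6, k7, k8⟩ := Add_pair P h5 hne hι hs A.J_eq
        B.J_eq hj hm h₁ h₂ (Par.trace_eq_of_mul hX h₃).1
      exact ⟨s, s', g, g', k1, k2, k3, k4, k5 ▸ k6 ▸ h₃, k7, k8⟩
    · obtain ⟨hj, sg, hs, hm⟩ := Add_move P h5 hι B.J_eq hb
      obtain ⟨ρ₁, ρ₂, h₁, h₂, h₃⟩ := hL (cjg ι sg)
      obtain ⟨s, s', g, g', k1, k2, k3, k4, k5, k6, k7, k8⟩ := Add_pair P h5 hne hι hs B.J_eq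
        A.J_eq hj hm h₂ h₁ (Par.trace_eq_of_mul hX h₃).1.symm
      exact ⟨s', s, g', g, k2, k1, k4, k3, k5 ▸ k6 ▸ h₃, k7.symm, k7 ▸ k8⟩
  obtain ⟨s₁, s₂, g₁, g₂, n₁, n₂, f₁, f₂, e, tr, h1⟩ := key
  rw [sl_fix_iff] at f₁ f₂
  have im : (dn g₁ s₁).im ≠ 0 := fun h0 => by
    have h := fix_dsc f₁
    rw [h0, dsc, g₁.det_coe] at h
    have h' : 4 * 1 - (g₁ : MZ).trace ^ 2 = 0 := by
      apply Int.cast_injective (α := ℝ)
      rw [h]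
      norm_num
    nlinarith [abs_le.1 h1]
  rcases fix_eq_or f₁ f₂ (g₁.det_coe.trans g₂.det_coe.symm) tr with h | h
  · exact ⟨s₁, s₂, g₁, g₂, n₁, n₂, ⟨f₁, f₂, h, im⟩, g₁.det_coe, .inl e⟩
  · refine ⟨s₁, s₂, g₁, (g₂ : MZ).adjugate, n₁, n₂, ⟨f₁, (rm0_adj f₂).1, h, im⟩, g₁.det_coe,
      .inr ?_⟩
    rwa [Par.TyM, Matrix.adjugate_adjugate _ (by simp), g₂.det_coe, one_pow, one_smul]

end

end Pool.Agent.P.MP_a60a76_nt.Sz
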