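import Pool.Agent.P.MP_a60a76_nt.Sz.Weil

namespace Pool.Agent.P.MP_a60a76_nt.Sz

open UpperHalfPlane MeasureTheory SP
open scoped MatrixGroups UpperHalfPlane Matrix Modular Topology Classical ArithmeticFunction.sigma

noncomputable section

/-! The amplifier. -/

/-- The abstract construction of a self-dual weight. -/
theorem Amp_abs (P : Par) (u F : P.D → ℝ) (h0 : ∀ k, 0 ≤ u k) (he : ∀ k, u (-k) = u k)
    (hF : ∀ k, 0 ≤ F k) (hM : ∀ k, P.M (fun k => (u k : ℂ)) k = F k) (hz : u 0 = 1)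
    (hu : ∀ z : P.F, z ≠ 0 → u (P.up z) = 0) (hs : ∀ k, ∑ z, u (k + P.up z) ≤ 1) :
    ∃ w : P.D → ℝ, (∀ k, 0 ≤ w k) ∧ (∀ k, w (-k) = w k) ∧
      P.M (fun k => (w k : ℂ)) = (fun k => (w k : ℂ)) ∧ (∀ z : P.F, z ≠ 0 → w (P.up z) = 0) ∧
      w 0 = 2 ∧ ∀ k, P.rd k ≠ 0 → u k ≤ w k := by
  have hp := P.p_pos
  have hpc := P.p_ne
  have heC : ∀ k, (fun k => (u k : ℂ)) (-k) = (fun k => (u k : ℂ)) k := fun k => by
    simp only [he]
  have hFe : ∀ k, F (-k) = F k := fun k => by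
    have := P.M_even (x := fun k => (u k : ℂ)) heC k
    rw [hM, hM] at this
    exact_mod_cast this
  have hMF : P.M (fun k => (F k : ℂ)) = fun k => (u k : ℂ) := by
    have := P.M_M (x := fun k => (u k : ℂ)) heC
    rwa [show P.M (fun k => (u k : ℂ)) = fun k => (F k : ℂ) from funext hM] at this
  set G : P.D → ℝ := fun k => if P.rd k = 0 then F k else 0 with hG
  set A : P.D → ℝ := fun k => (P.p : ℝ)⁻¹ * ∑ z, u (k + P.up z) with hA
  have hGe : ∀ k, G (-k) = G k := fun k => by simp only [hG, map_neg, neg_eq_zero, hFe]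
  have hMG : P.M (fun k => (G k : ℂ)) = fun k => (A k : ℂ) := by
    funext k
    have h1 := P.M_restrict (fun k => (u k : ℂ)) k
    have h2 : (fun k' => if P.rd k' = 0 then P.Mb (fun k => (u k : ℂ)) k' else 0) =
        fun k => (G k : ℂ) := by
      funext k'
      rw [P.Mb_eq, hM, hFe]
      simp only [hG]
      split_ifs <;> simp
    rw [h2] at h1
    rw [h1]
    simp only [hA]
    push_cast
    rfl
  have hGeC : ∀ k, (fun k => (G k : ℂ)) (-k) = (fun k => (G k : ℂ)) k := fun k => by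
    simp only [hGe]
  have hMA : P.M (fun k => (A k : ℂ)) = fun k => (G k : ℂ) := by
    rw [← hMG]
    exact P.M_M hGeC
  have hAe : ∀ k, A (-k) = A k := fun k => by
    have := P.M_even (x := fun k => (G k : ℂ)) hGeC k
    rw [hMG] at this
    exact Complex.ofReal_injective this
  have hAup : ∀ z : P.F, A (P.up z) = (P.p : ℝ)⁻¹ := fun z => by
    simp only [hA]
    rw [Finset.sum_eq_single (-z), P.up_neg, add_neg_cancel, hz, mul_one]
    · intro b _ hb
      rw [← P.up_add]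
      exact hu _ fun h => hb (eq_neg_of_add_eq_zero_right h)
    · simp
  have hAle : ∀ k, A k ≤ (P.p : ℝ)⁻¹ := fun k => by
    simp only [hA]
    exact mul_le_of_le_one_right (inv_nonneg.2 hp.le) (hs k)
  set w : P.D → ℝ := fun k => u k + F k - G k - A k + (if k = 0 then 1 else 0) + (P.p : ℝ)⁻¹
    with hw
  have hwup : ∀ z : P.F, w (P.up z) = u (P.up z) + if P.up z = 0 then 1 else 0 := fun z => by
    simp only [hw, hG, hAup, P.rd_up, if_true]
    ring
  have hwne : ∀ k, P.rd k ≠ 0 → u k ≤ w k := fun k hk => by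
    have h1 : k ≠ 0 := fun h => hk (by rw [h, map_zero])
    simp only [hw, hG, if_neg hk, if_neg h1]
    linarith [hF k, hAle k]
  refine ⟨w, fun k => ?_, fun k => ?_, ?_, fun z hz0 => ?_, ?_, hwne⟩
  · by_cases hk : P.rd k = 0
    · obtain ⟨z, rfl⟩ := P.exists_up hk
      rw [hwup]
      have := h0 (P.up z)
      split_ifs <;> linarith
    · exact (h0 k).trans (hwne k hk)
  · simp only [hw, he, hFe, hGe, hAe, neg_eq_zero]
  · funext k
    have e : (fun k => (w k : ℂ)) = fun k => ((((((u k : ℂ) + F k) + (-1) * G k) + (-1) * A k) +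
        (if k = 0 then 1 else 0)) + (P.p : ℂ)⁻¹ * 1) := by
      funext k
      simp only [hw]
      split_ifs <;> push_cast <;> ring
    rw [congrFun e k, e, P.M_add, P.M_add, P.M_add, P.M_add, P.M_add, P.M_const_mul,
      P.M_const_mul, P.M_const_mul, hM, hMF, hMG, hMA, P.M_delta, P.M_one]
    simp only []
    split_ifs
    · field_simp
      ring
    · ring
  · rw [hwup, hu z hz0, if_neg, add_zero]
    exact fun h => hz0 (P.up_injective (h.trans P.up_zero.symm))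
  · have := hwup 0
    rw [P.up_zero, if_pos rfl, hz] at this
    rw [this]
    norm_num

theorem Amp_cast_inj (P : Par) {i j : ℕ} (hi : i < P.p) (hj : j < P.p)
    (h : (i : P.F) = (j : P.F)) : i = j := by
  have := congrArg ZMod.val h
  rwa [ZMod.val_cast_of_lt hi, ZMod.val_cast_of_lt hj] at this

theorem Par.exists_amp (P : Par) {k₀ : P.D} (hk : P.rd k₀ ≠ 0) {K : ℕ} (h1 : 1 ≤ K)
    (h2 : 2 * K < P.p) : ∃ w : P.D → ℝ, (∀ k, 0 ≤ w k) ∧ (∀ k, w (-k) = w k) ∧
      P.M (fun k => (w k : ℂ)) = (fun k => (w k : ℂ)) ∧ (∀ z : P.F, z ≠ 0 → w (P.up z) = 0) ∧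
      w 0 = 2 ∧ ∀ n : ℕ, 1 ≤ n → n ≤ K → 1 - (n : ℝ) / K ≤ w (n * k₀) := by
  have hK : (0 : ℝ) < K := by exact_mod_cast h1
  have hp := P.p_pos
  set u : P.D → ℝ := fun k => (K : ℝ)⁻¹ * ∑ j ∈ Finset.range K, ∑ i ∈ Finset.range K,
    if k = ((i : P.D) - j) * k₀ then 1 else 0 with hu
  set F : P.D → ℝ := fun k => (P.p : ℝ)⁻¹ * ((K : ℝ)⁻¹ * Complex.normSq
    (∑ i ∈ Finset.range K, P.psi (k * (i * k₀) * (2 * (P.m : P.D))⁻¹))) with hF
  have hinj : ∀ i ∈ Finset.range K, ∀ j ∈ Finset.range K, ∀ x : P.F,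
      ((i : P.F) - x) * P.rd k₀ = ((j : P.F) - x) * P.rd k₀ → i = j := fun i hi j hj x h => by
    rw [Finset.mem_range] at hi hj
    exact Amp_cast_inj P (by omega) (by omega) (sub_left_injective (mul_right_cancel₀ hk h))
  have hrd : ∀ i j : ℕ, P.rd (((i : P.D) - j) * k₀) = ((i : P.F) - j) * P.rd k₀ := fun i j => by
    rw [map_mul, map_sub, map_natCast, map_natCast]
  have hup : ∀ z : P.F, u (P.up z) = if z = 0 then 1 else 0 := fun z => by
    have e : ∀ j ∈ Finset.range K, (∑ i ∈ Finset.range K,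
        if P.up z = ((i : P.D) - j) * k₀ then (1 : ℝ) else 0) = if z = 0 then 1 else 0 := by
      intro j hj
      rw [Finset.sum_eq_single j]
      · rw [sub_self, zero_mul]
        refine if_congr ⟨fun h => P.up_injective (h.trans P.up_zero.symm), fun h => ?_⟩ rfl rfl
        rw [h, P.up_zero]
      · intro i hi hij
        refine if_neg fun h => hij (hinj i hi j hj j ?_)
        rw [← hrd, ← h, P.rd_up, sub_self, zero_mul]
      · exact fun h => absurd hj h
    simp only [hu]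
    rw [Finset.sum_congr rfl e, Finset.sum_const, Finset.card_range, nsmul_eq_mul, ← mul_assoc,
      inv_mul_cancel₀ hK.ne', one_mul]
  obtain ⟨w, w1, w2, w3, w4, w5, w6⟩ := Amp_abs P u F (fun k => by
      simp only [hu]
      positivity)
    (fun k => by
      simp only [hu]
      rw [Finset.sum_comm]
      congr 1
      refine Finset.sum_congr rfl fun j _ => Finset.sum_congr rfl fun i _ => if_congr ?_ rfl rfl
      rw [neg_eq_iff_eq_neg]
      constructor <;> intro h <;> rw [h] <;> ring)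
    (fun k => by
      simp only [hF]
      have := Complex.normSq_nonneg
        (∑ i ∈ Finset.range K, P.psi (k * (i * k₀) * (2 * (P.m : P.D))⁻¹))
      positivity)
    (fun k => by
      simp only [hu, hF, Par.M]
      push_cast
      congr 1
      rw [← Complex.mul_conj, map_sum, Finset.sum_mul_sum]
      simp only [Finset.mul_sum]
      rw [Finset.sum_comm]
      rw [Finset.sum_comm (s := Finset.range K) (t := Finset.range K)
        (f := fun i j => (K : ℂ)⁻¹ * (P.psi (k * (i * k₀) * (2 * (P.m : P.D))⁻¹) *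
          (starRingEnd ℂ) (P.psi (k * (j * k₀) * (2 * (P.m : P.D))⁻¹))))]
      refine Finset.sum_congr rfl fun j _ => ?_
      rw [Finset.sum_comm]
      refine Finset.sum_congr rfl fun i _ => ?_
      rw [Finset.sum_eq_single (((i : P.D) - j) * k₀), if_pos rfl, P.conj_psi, ← P.psi_add]
      · push_cast
        rw [mul_one, mul_comm]
        congr 2
        ring
      · intro b _ hb
        rw [if_neg hb]
        simp
      · simp)
    (by
      have := hup 0
      rwa [P.up_zero, if_pos rfl] at this)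
    (fun z hz => by rw [hup, if_neg hz])
    (fun k => by
      simp only [hu]
      rw [← Finset.mul_sum, Finset.sum_comm]
      have e : ∀ j ∈ Finset.range K, (∑ z : P.F, ∑ i ∈ Finset.range K,
          if k + P.up z = ((i : P.D) - j) * k₀ then (1 : ℝ) else 0) ≤ 1 := by
        intro j hj
        rw [← Finset.sum_product', Finset.sum_boole, Nat.cast_le_one, Finset.card_le_one]
        rintro ⟨z, i⟩ ha ⟨z', i'⟩ hb
        simp only [Finset.mem_filter, Finset.mem_product, Finset.mem_univ, true_and] at ha hb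
        have e1 : i = i' := hinj i ha.1 i' hb.1 j (by
          rw [← hrd, ← hrd, ← ha.2, ← hb.2, map_add, map_add, P.rd_up, P.rd_up])
        subst e1
        rw [P.up_injective (add_left_cancel (ha.2.trans hb.2.symm))]
      have := Finset.sum_le_card_nsmul _ _ _ e
      rw [Finset.card_range, nsmul_eq_mul, mul_one] at this
      rw [inv_mul_le_iff₀ hK, mul_one]
      exact this)
  refine ⟨w, w1, w2, w3, w4, w5, fun n hn1 hn2 => le_trans ?_ (w6 _ ?_)⟩
  · simp only [hu]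
    rw [le_inv_mul_iff₀ hK]
    have e : ∀ j ∈ Finset.range (K - n), (1 : ℝ) ≤ ∑ i ∈ Finset.range K,
        if (n : P.D) * k₀ = ((i : P.D) - j) * k₀ then (1 : ℝ) else 0 := by
      intro j hj
      rw [Finset.mem_range] at hj
      refine le_trans ?_ (Finset.single_le_sum (f := fun i : ℕ =>
        if (n : P.D) * k₀ = ((i : P.D) - j) * k₀ then (1 : ℝ) else 0)
        (fun i _ => by positivity) (Finset.mem_range.2 (show j + n < K by omega)))
      rw [if_pos]
      push_cast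
      ring
    have e2 := Finset.card_nsmul_le_sum _ _ _ e
    rw [Finset.card_range, nsmul_eq_mul, mul_one, Nat.cast_sub hn2] at e2
    refine le_trans (le_of_eq ?_) (e2.trans (Finset.sum_le_sum_of_subset_of_nonneg
      (Finset.range_subset_range.2 (Nat.sub_le _ _)) fun j _ _ => by positivity))
    field_simp
  · rw [map_mul, map_natCast]
    refine mul_ne_zero (fun h => ?_) hk
    have := Amp_cast_inj P (i := n) (j := 0) (by omega) (by omega) (by rw [h, Nat.cast_zero])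
    omega

theorem Amp_sigma_le (n : ℕ) : (σ 1 n : ℝ) ≤ (n : ℝ) ^ 2 := by
  exact_mod_cast ArithmeticFunction.sigma_le_pow_succ 1 n

theorem Amp_aa_bound (P : Par) (S H : ℝ) (v K : ℕ) :
    ∃ C : ℝ, ∀ k (ν : ℤ), 0 < ν → |P.aa S H v K k ν| ≤ C * (1 + ν) ^ 2 := by
  set A : ℝ := ∑ n ∈ Finset.Icc 1 K, |2 / P.p * S * v * n| with hA
  set B : ℝ := |4 * H / P.p + 48 * Real.log P.p| with hB
  have hA0 : 0 ≤ A := Finset.sum_nonneg fun _ _ => abs_nonneg _
  have hB0 : 0 ≤ B := abs_nonneg _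
  refine ⟨A + B, fun k ν hν => ?_⟩
  have hν' : (0 : ℝ) < ν := by exact_mod_cast hν
  have h1 : |∑ n ∈ Finset.Icc 1 K, if ν = (n : ℤ) ^ 2 * v then 2 / P.p * S * v * n else (0 : ℝ)|
      ≤ A := by
    refine (Finset.abs_sum_le_sum_abs _ _).trans (Finset.sum_le_sum fun n _ => ?_)
    split_ifs
    · exact le_rfl
    · rw [abs_zero]
      exact abs_nonneg _
  have h2 : |if P.rd k = 0 then (σ 1 (ν.toNat / P.p ^ 2) : ℝ) *
      (4 * H / P.p + 48 * Real.log P.p) else 0| ≤ B * (1 + ν) ^ 2 := by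
    split_ifs
    · rw [abs_mul, mul_comm, Nat.abs_cast]
      refine mul_le_mul_of_nonneg_left ((Amp_sigma_le _).trans ?_) hB0
      have h3 : ((ν.toNat / P.p ^ 2 : ℕ) : ℝ) ≤ ν := by
        have h4 : ((ν.toNat / P.p ^ 2 : ℕ) : ℤ) ≤ ν := by
          have := Nat.div_le_self ν.toNat (P.p ^ 2)
          omega
        have h5 := (Int.cast_le (R := ℝ)).2 h4
        rwa [Int.cast_natCast] at h5
      gcongr
      linarith
    · rw [abs_zero]
      positivity
  have h3 : (1 : ℝ) ≤ (1 + ν) ^ 2 := by nlinarith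
  rw [Par.aa]
  split_ifs with h h'
  · rw [if_pos h'] at h2
    refine (abs_sub _ _).trans ?_
    nlinarith
  · rw [sub_zero]
    nlinarith
  · rw [abs_zero]
    positivity

theorem Amp_summable_aux {r : ℝ} (hr : 0 < r) :
    Summable fun n : ℕ => (1 + ((n : ℝ) + 1)) ^ 2 * Real.exp (-(r * (n + 1))) := by
  have h := (summable_nat_add_iff 2).2 (Real.summable_pow_mul_exp_neg_nat_mul 2 hr)
  refine (h.mul_left (Real.exp r)).congr fun n => ?_
  push_cast
  rw [mul_left_comm, ← Real.exp_add]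
  congr 1
  · ring
  · congr 1
    ring

theorem Amp_summable (P : Par) (S H : ℝ) (v K : ℕ) (k : P.D) : Summable fun n : ℕ =>
    P.aa S H v K k (n + 1) * Real.exp (-(2 * Real.pi * (n + 1) / P.p ^ 2)) := by
  obtain ⟨C, hC⟩ := Amp_aa_bound P S H v K
  have hp := P.p_pos
  have h := (Amp_summable_aux (r := 2 * Real.pi / P.p ^ 2) (by positivity)).mul_left C
  refine Summable.of_norm_bounded h fun n => ?_
  rw [norm_mul, Real.norm_eq_abs, Real.norm_eq_abs, Real.abs_exp, ← mul_assoc,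
    show 2 * Real.pi / (P.p : ℝ) ^ 2 * (n + 1) = 2 * Real.pi * (n + 1) / P.p ^ 2 by ring]
  refine mul_le_mul_of_nonneg_right ?_ (Real.exp_pos _).le
  have := hC k (n + 1) (by positivity)
  exact_mod_cast this

theorem Amp_aa_nonneg (P : Par) {S : ℝ} (hS : 0 ≤ S) (H : ℝ) (v K : ℕ) {k : P.D}
    (hk : P.rd k ≠ 0) (ν : ℤ) : 0 ≤ P.aa S H v K k ν := by
  have hp := P.p_pos
  rw [Par.aa, if_neg hk, sub_zero]
  positivity

/-- The constant in the negative part. -/
def Amp_C : ℝ := ∑' j : ℕ, (1 + ((j : ℝ) + 1)) ^ 2 * Real.exp (-(2 * Real.pi * (j + 1)))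

theorem Amp_C_nonneg : 0 ≤ Amp_C := tsum_nonneg fun _ => by positivity

theorem Amp_zero (P : Par) {S H : ℝ} (hS : 0 ≤ S) (hH : 0 ≤ H) (v K : ℕ) :
    -(Amp_C * (48 * (H + Real.log P.p))) ≤ ∑' n : ℕ,
      P.aa S H v K 0 (n + 1) * Real.exp (-(2 * Real.pi * (n + 1) / P.p ^ 2)) := by
  have hp := P.p_pos
  have hp1 : (1 : ℝ) ≤ P.p := by exact_mod_cast P.prime.one_le
  have hl : 0 ≤ Real.log P.p := Real.log_nonneg hp1
  have hq : 0 < P.p ^ 2 := pow_pos P.prime.pos 2
  set B : ℝ := 48 * (H + Real.log P.p) with hB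
  have hB0 : 0 ≤ B := by positivity
  have hB1 : 4 * H / P.p + 48 * Real.log P.p ≤ B := by
    have : 4 * H / P.p ≤ 4 * H := div_le_self (by positivity) hp1
    rw [hB]
    linarith
  set g : ℕ → ℕ := fun j => P.p ^ 2 * (j + 1) - 1 with hg
  have hg1 : ∀ j, g j + 1 = P.p ^ 2 * (j + 1) := fun j =>
    Nat.sub_add_cancel (Nat.mul_pos hq j.succ_pos)
  have hgi : Function.Injective g := fun i j h => by
    have : P.p ^ 2 * (i + 1) = P.p ^ 2 * (j + 1) := by rw [← hg1, ← hg1, h]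
    exact Nat.add_right_cancel (Nat.eq_of_mul_eq_mul_left hq this)
  set f : ℕ → ℝ := fun n => if P.p ^ 2 ∣ n + 1 then
    (1 + (((n + 1) / P.p ^ 2 : ℕ) : ℝ)) ^ 2 * Real.exp (-(2 * Real.pi * (n + 1) / P.p ^ 2)) else 0
    with hf
  have hfg : ∀ j, f (g j) = (1 + ((j : ℝ) + 1)) ^ 2 * Real.exp (-(2 * Real.pi * (j + 1))) := by
    intro j
    have e : ((g j : ℕ) : ℝ) + 1 = (P.p : ℝ) ^ 2 * (j + 1) := by exact_mod_cast hg1 j
    simp only [hf]
    rw [e, hg1, if_pos (dvd_mul_right _ _), Nat.mul_div_cancel_left _ hq]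
    push_cast
    congr 3
    field_simp
  have hf0 : ∀ n ∉ Set.range g, f n = 0 := fun n hn => by
    simp only [hf]
    refine if_neg fun ⟨c, hc⟩ => hn ?_
    rcases c with _ | c
    · simp at hc
    · exact ⟨c, Nat.add_right_cancel ((hg1 c).trans hc.symm)⟩
  have hs : HasSum f Amp_C := by
    rw [← hgi.hasSum_iff hf0]
    rw [show f ∘ g = _ from funext hfg]
    exact (Amp_summable_aux Real.two_pi_pos).hasSum
  refine hasSum_le (fun n => ?_) (hs.mul_right B).neg (Amp_summable P S H v K 0).hasSum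
  have hQ : P.Q 0 = 0 := by simp [Par.Q]
  have he := Real.exp_pos (-(2 * Real.pi * (n + 1) / P.p ^ 2))
  rw [Par.aa, hQ, map_zero, if_pos rfl]
  simp only [hf]
  have hd : ((((n : ℤ) + 1 : ℤ)) : P.D) = 0 ↔ P.p ^ 2 ∣ n + 1 := by
    rw [← ZMod.natCast_eq_zero_iff]
    push_cast
    rfl
  by_cases h : P.p ^ 2 ∣ n + 1
  · rw [if_pos h, if_pos (hd.2 h), show ((n : ℤ) + 1).toNat = n + 1 by omega]
    have h1 : (0 : ℝ) ≤ ∑ i ∈ Finset.Icc 1 K,
        if (n : ℤ) + 1 = (i : ℤ) ^ 2 * v then 2 / P.p * S * v * i else (0 : ℝ) := by positivity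
    have h2 : (σ 1 ((n + 1) / P.p ^ 2) : ℝ) * (4 * H / P.p + 48 * Real.log P.p) ≤
        (1 + (((n + 1) / P.p ^ 2 : ℕ) : ℝ)) ^ 2 * B := by
      refine mul_le_mul ((Amp_sigma_le _).trans ?_) hB1 (by positivity) (by positivity)
      gcongr
      linarith
    nlinarith
  · rw [if_neg h, if_neg fun h' => h (hd.1 h')]
    simp

theorem Amp_term (P : Par) {S : ℝ} (hS : 0 ≤ S) (H : ℝ) {v K n : ℕ} {k₀ : P.D} (hv : 1 ≤ v)
    (hk : k₀ ^ 2 = 4 * P.m * v) (hn : n ∈ Finset.Icc 1 K) (hK : 4 * v * K ^ 2 ≤ P.p ^ 2)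
    (hr : P.rd (n * k₀) ≠ 0) : 2 / P.p * S * v * n * Real.exp (-(Real.pi / 2)) ≤ ∑' j : ℕ,
      P.aa S H v K (n * k₀) (j + 1) * Real.exp (-(2 * Real.pi * (j + 1) / P.p ^ 2)) := by
  have hp := P.p_pos
  obtain ⟨hn1, hn2⟩ := Finset.mem_Icc.1 hn
  obtain ⟨j, hj⟩ : ∃ j, n ^ 2 * v = j + 1 :=
    ⟨n ^ 2 * v - 1, (Nat.sub_add_cancel (Nat.mul_pos (by positivity) hv)).symm⟩
  refine le_trans ?_ ((Amp_summable P S H v K (n * k₀)).le_tsum j fun i _ =>
    mul_nonneg (Amp_aa_nonneg P hS H v K hr _) (Real.exp_pos _).le)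
  have hjz : (j : ℤ) + 1 = (n : ℤ) ^ 2 * v := by exact_mod_cast hj.symm
  have hjr : (j : ℝ) + 1 = (n : ℝ) ^ 2 * v := by exact_mod_cast hj.symm
  refine mul_le_mul ?_ (Real.exp_le_exp.2 ?_) (Real.exp_pos _).le
    (Amp_aa_nonneg P hS H v K hr _)
  · rw [Par.aa, if_neg hr, sub_zero, if_pos]
    · refine le_trans ?_ (Finset.single_le_sum (f := fun i : ℕ =>
        if (j : ℤ) + 1 = (i : ℤ) ^ 2 * v then 2 / P.p * S * v * i else (0 : ℝ))
        (fun i _ => by positivity) hn)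
      rw [if_pos hjz]
    · rw [hjz, eq_comm, P.Q_eq_iff, mul_pow, hk]
      push_cast
      ring
  · have h1 : 4 * v * n ^ 2 ≤ P.p ^ 2 := le_trans (by gcongr) hK
    have h2 : (4 : ℝ) * v * n ^ 2 ≤ P.p ^ 2 := by exact_mod_cast h1
    rw [hjr, neg_le_neg_iff, div_le_div_iff₀ (by positivity) (by positivity)]
    have := Real.pi_pos
    nlinarith

theorem Amp_sum (K : ℕ) :
    ∑ n ∈ Finset.Icc 1 K, ((K : ℝ) - n) * n = K * ((K : ℝ) ^ 2 - 1) / 6 := by
  have h1 : ∀ K : ℕ, ∑ n ∈ Finset.Icc 1 K, (n : ℝ) = K * (K + 1) / 2 := fun K => by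
    induction K with
    | zero => simp
    | succ K ih =>
      rw [Finset.sum_Icc_succ_top (by omega), ih]
      push_cast
      ring
  have h2 : ∀ K : ℕ, ∑ n ∈ Finset.Icc 1 K, (n : ℝ) * n = K * (K + 1) * (2 * K + 1) / 6 :=
    fun K => by
    induction K with
    | zero => simp
    | succ K ih =>
      rw [Finset.sum_Icc_succ_top (by omega), ih]
      push_cast
      ring
  simp only [sub_mul]
  rw [Finset.sum_sub_distrib, ← Finset.mul_sum, h1, h2]
  ring

/-- The amplified sum is large. -/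
theorem amp_lower : ∃ c C : ℝ, 0 < c ∧ 0 < C ∧ ∀ (P : Par) (v : ℕ) (S H : ℝ) (k₀ : P.D),
    1 ≤ v → 36 * v ≤ P.p ^ 2 → 0 ≤ S → 0 ≤ H → P.rd k₀ ≠ 0 → k₀ ^ 2 = 4 * P.m * v →
    ∃ K : ℕ, 1 ≤ K ∧ 2 * K < P.p ∧ ∀ w : P.D → ℝ, (∀ k, 0 ≤ w k) →
      (∀ z : P.F, z ≠ 0 → w (P.up z) = 0) → w 0 = 2 →
      (∀ n : ℕ, 1 ≤ n → n ≤ K → 1 - (n : ℝ) / K ≤ w (n * k₀)) →
      c * P.p * S - C * (H + Real.log P.p) ≤ ∑ k, w k * ∑' n : ℕ,
        P.aa S H v K k (n + 1) * Real.exp (-(2 * Real.pi * (n + 1) / P.p ^ 2)) := by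
  have hC := Amp_C_nonneg
  refine ⟨Real.exp (-(Real.pi / 2)) / 24, 96 * Amp_C + 1, by positivity, by positivity,
    fun P v S H k₀ hv h36 hS hH hk hk2 => ?_⟩
  have hp := P.p_pos
  have hp1 : (1 : ℝ) ≤ P.p := by exact_mod_cast P.prime.one_le
  have hl : 0 ≤ Real.log P.p := Real.log_nonneg hp1
  set K : ℕ := Nat.sqrt (P.p ^ 2 / (4 * v)) with hK
  have hK3 : 3 ≤ K := by
    rw [hK, Nat.le_sqrt, Nat.le_div_iff_mul_le (by omega)]
    omega
  have hK4 : 4 * v * K ^ 2 ≤ P.p ^ 2 := by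
    have := Nat.sqrt_le' (P.p ^ 2 / (4 * v))
    rw [← hK, Nat.le_div_iff_mul_le (by omega)] at this
    rwa [mul_comm]
  have hK5 : P.p ^ 2 < 4 * v * (K + 1) ^ 2 := by
    have := Nat.lt_succ_sqrt' (P.p ^ 2 / (4 * v))
    rw [← hK, Nat.div_lt_iff_lt_mul (by omega)] at this
    rwa [mul_comm]
  have hK6 : 2 * K < P.p := by
    have h1 : (2 * K) ^ 2 ≤ P.p ^ 2 := le_trans (by nlinarith) hK4
    have h2 : 2 * K ≤ P.p := (Nat.pow_le_pow_iff_left two_ne_zero).1 h1
    have h3 := P.five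
    have h4 := P.prime.eq_two_or_odd
    omega
  refine ⟨K, by omega, hK6, fun w w1 w2 w3 w4 => ?_⟩
  set T : P.D → ℝ := fun k => ∑' n : ℕ,
    P.aa S H v K k (n + 1) * Real.exp (-(2 * Real.pi * (n + 1) / P.p ^ 2)) with hT
  have hr : ∀ n ∈ Finset.Icc 1 K, P.rd (n * k₀) ≠ 0 := fun n hn => by
    obtain ⟨hn1, hn2⟩ := Finset.mem_Icc.1 hn
    rw [map_mul, map_natCast]
    refine mul_ne_zero (fun h => ?_) hk
    have := Amp_cast_inj P (i := n) (j := 0) (by omega) (by omega) (by rw [h, Nat.cast_zero])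
    omega
  have hinj : Set.InjOn (fun n : ℕ => (n : P.D) * k₀) (Finset.Icc 1 K : Finset ℕ) := by
    intro i hi j hj h
    obtain ⟨-, hi2⟩ := Finset.mem_Icc.1 hi
    obtain ⟨-, hj2⟩ := Finset.mem_Icc.1 hj
    have := congrArg P.rd h
    simp only [map_mul, map_natCast] at this
    exact Amp_cast_inj P (by omega) (by omega) (mul_right_cancel₀ hk this)
  have h0 : (0 : P.D) ∉ (Finset.Icc 1 K).image fun n : ℕ => (n : P.D) * k₀ := by
    intro h
    obtain ⟨n, hn, h⟩ := Finset.mem_image.1 h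
    exact hr n hn (by rw [h, map_zero])
  refine le_trans ?_ (Finset.sum_le_sum_of_subset_of_nonneg (f := fun k => w k * T k)
    (Finset.subset_univ (insert 0 ((Finset.Icc 1 K).image fun n : ℕ => (n : P.D) * k₀)))
    fun k _ hk' => ?_)
  · rw [Finset.sum_insert h0, Finset.sum_image hinj, w3]
    have h1 : -(Amp_C * (48 * (H + Real.log P.p))) ≤ T 0 := Amp_zero P hS hH v K
    have hKr : (3 : ℝ) ≤ K := by exact_mod_cast hK3
    have h2 : ∑ n ∈ Finset.Icc 1 K, (2 / P.p * S * v * Real.exp (-(Real.pi / 2)) / K) *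
        (((K : ℝ) - n) * n) ≤ ∑ n ∈ Finset.Icc 1 K, w (n * k₀) * T (n * k₀) := by
      refine Finset.sum_le_sum fun n hn => ?_
      obtain ⟨hn1, hn2⟩ := Finset.mem_Icc.1 hn
      refine le_trans (le_of_eq ?_) (mul_le_mul (w4 n hn1 hn2)
        (Amp_term P hS H hv hk2 hn hK4 (hr n hn)) (by positivity) (w1 _))
      field_simp
    rw [← Finset.mul_sum, Amp_sum] at h2
    have h3 : (P.p : ℝ) ^ 2 < 4 * v * (K + 1) ^ 2 := by exact_mod_cast hK5
    have hv' : (1 : ℝ) ≤ v := by exact_mod_cast hv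
    have h4 : (P.p : ℝ) ^ 2 ≤ 8 * v * ((K : ℝ) ^ 2 - 1) := by
      have : ((K : ℝ) + 1) ^ 2 ≤ 2 * ((K : ℝ) ^ 2 - 1) := by nlinarith
      nlinarith
    have h5 : Real.exp (-(Real.pi / 2)) / 24 * P.p * S ≤
        2 / P.p * S * v * Real.exp (-(Real.pi / 2)) / K * (K * ((K : ℝ) ^ 2 - 1) / 6) := by
      have e : 2 / P.p * S * v * Real.exp (-(Real.pi / 2)) / K * (K * ((K : ℝ) ^ 2 - 1) / 6) =
          Real.exp (-(Real.pi / 2)) / 24 * (8 * v * ((K : ℝ) ^ 2 - 1) / P.p) * S := by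
        field_simp
        ring
      rw [e]
      gcongr
      rw [le_div_iff₀ hp]
      linarith
    nlinarith
  · by_cases hk0 : P.rd k = 0
    · obtain ⟨z, rfl⟩ := P.exists_up hk0
      rw [w2 z, zero_mul]
      rintro rfl
      exact hk' (by rw [P.up_zero]; exact Finset.mem_insert_self _ _)
    · exact mul_nonneg (w1 k) (tsum_nonneg fun n =>
        mul_nonneg (Amp_aa_nonneg P hS H v K hk0 _) (Real.exp_pos _).le)

theorem Par.aa_bound (P : Par) (S H : ℝ) (v K : ℕ) :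
    ∃ C : ℝ, ∀ k (ν : ℤ), 0 < ν → |P.aa S H v K k ν| ≤ C * (1 + ν) ^ 2 := by
  exact Amp_aa_bound P S H v K

end

end Pool.Agent.P.MP_a60a76_nt.Sz
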