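import Pool.Agent.P.MP_a60a76_nt.Sz.Base

namespace Pool.Agent.P.MP_a60a76_nt.Sz

open UpperHalfPlane MeasureTheory SP
open scoped MatrixGroups UpperHalfPlane Matrix Modular Topology Classical ArithmeticFunction.sigma

noncomputable section

/-! Calculus for the Cauchy-Riemann operator. -/

variable {f g : ℍ → ℂ}

theorem Dbar_open : IsOpen {z : ℂ | 0 < z.im} := isOpen_lt continuous_const Complex.continuous_im

theorem Dbar_nhds (τ : ℍ) : {z : ℂ | 0 < z.im} ∈ 𝓝 (τ : ℂ) := Dbar_open.mem_nhds τ.im_pos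

theorem Dbar_coe {z : ℂ} (hz : 0 < z.im) : ((ofComplex z : ℍ) : ℂ) = z := by
  rw [ofComplex_apply_of_im_pos hz]

theorem Dbar_im {z : ℂ} (hz : 0 < z.im) : (ofComplex z).im = z.im := by
  rw [← coe_im, Dbar_coe hz]

theorem Dbar_contAt {z : ℂ} (hz : 0 < z.im) : ContinuousAt ofComplex z :=
  (contMDiffAt_ofComplex (n := 0) hz).continuousAt

theorem Dbar_db {τ : ℍ} {L : ℂ →L[ℝ] ℂ} (h : HasFDerivAt (f ∘ ofComplex) L (τ : ℂ)) :
    db f τ = (L 1 + Complex.I * L Complex.I) / 2 := by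
  rw [db, h.fderiv]

theorem Dbar_lin (L : ℂ →L[ℝ] ℂ) (v : ℂ) : L v = v.re * L 1 + v.im * L Complex.I := by
  have h : v = v.re • (1 : ℂ) + v.im • Complex.I := by
    simp [Complex.re_add_im]
  conv_lhs => rw [h]
  rw [map_add, map_smul, map_smul, Complex.real_smul, Complex.real_smul]

theorem Dbar_conj (L : ℂ →L[ℝ] ℂ) (w : ℂ) : L w + Complex.I * L (w * Complex.I) =
    (starRingEnd ℂ) w * (L 1 + Complex.I * L Complex.I) := by
  have h : (starRingEnd ℂ) w = w.re - w.im * Complex.I := by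
    apply Complex.ext <;> simp
  rw [Dbar_lin L w, Dbar_lin L (w * Complex.I), h]
  simp only [Complex.mul_re, Complex.mul_im, Complex.I_re, Complex.I_im, mul_zero, mul_one,
    zero_sub, add_zero, Complex.ofReal_neg]
  linear_combination (w.im * L Complex.I) * Complex.I_mul_I

theorem Dbar_c1 (h : ∀ τ : ℍ, ContDiffAt ℝ 1 (f ∘ ofComplex) (τ : ℂ)) : C1 f :=
  fun z hz => (h ⟨z, hz⟩).contDiffWithinAt

theorem Dbar_at (h : C1 f) (τ : ℍ) : ContDiffAt ℝ 1 (f ∘ ofComplex) (τ : ℂ) :=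
  ContDiffOn.contDiffAt h (Dbar_nhds τ)

theorem Dbar_congr {τ : ℍ} (h : f =ᶠ[𝓝 τ] g) : f ∘ ofComplex =ᶠ[𝓝 (τ : ℂ)] g ∘ ofComplex := by
  have h1 := (Dbar_contAt τ.im_pos).tendsto
  rw [ofComplex_apply] at h1
  exact h.comp_tendsto h1

theorem C1.continuous (h : C1 f) : Continuous f := by
  have h1 := (ContDiffOn.continuousOn h).comp_continuous continuous_coe fun τ => τ.im_pos
  simpa only [Function.comp_def, ofComplex_apply] using h1

theorem C1.differentiableAt (h : C1 f) (τ : ℍ) : DifferentiableAt ℝ (f ∘ ofComplex) (τ : ℂ) :=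
  (Dbar_at h τ).differentiableAt one_ne_zero

theorem C1.continuous_db (h : C1 f) : Continuous (db f) := by
  have h1 : Continuous fun τ : ℍ => fderiv ℝ (f ∘ ofComplex) (τ : ℂ) :=
    (ContDiffOn.continuousOn_fderiv_of_isOpen h Dbar_open le_rfl).comp_continuous continuous_coe
      fun τ => τ.im_pos
  exact ((h1.clm_apply continuous_const).add
    (continuous_const.mul (h1.clm_apply continuous_const))).div_const 2

theorem c1_of_hol (h : Hol f) : C1 f ∧ ∀ τ, db f τ = 0 := by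
  refine ⟨(DifferentiableOn.contDiffOn h Dbar_open).restrict_scalars ℝ, fun τ => ?_⟩
  have h1 := (differentiableAt_complex_iff_differentiableAt_real.1
    (DifferentiableOn.differentiableAt h (Dbar_nhds τ))).2
  rw [db, h1, smul_eq_mul, ← mul_assoc, Complex.I_mul_I]
  ring

theorem C1.hol (h : C1 f) (h0 : ∀ τ, db f τ = 0) : Hol f := by
  intro z hz
  refine (differentiableAt_complex_iff_differentiableAt_real.2
    ⟨h.differentiableAt ⟨z, hz⟩, ?_⟩).differentiableWithinAt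
  have h1 : (fderiv ℝ (f ∘ ofComplex) z 1 + Complex.I * fderiv ℝ (f ∘ ofComplex) z Complex.I) / 2
      = 0 := h0 ⟨z, hz⟩
  rw [smul_eq_mul]
  linear_combination (-2 * Complex.I) * h1 + fderiv ℝ (f ∘ ofComplex) z Complex.I * Complex.I_mul_I

theorem c1_const (a : ℂ) : C1 (fun _ => a) ∧ ∀ τ, db (fun _ => a) τ = 0 :=
  c1_of_hol (differentiableOn_const a)

theorem C1.add (hf : C1 f) (hg : C1 g) :
    C1 (fun τ => f τ + g τ) ∧ ∀ τ, db (fun τ => f τ + g τ) τ = db f τ + db g τ := by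
  refine ⟨ContDiffOn.add hf hg, fun τ => ?_⟩
  rw [Dbar_db (f := fun τ => f τ + g τ)
    ((hf.differentiableAt τ).hasFDerivAt.add (hg.differentiableAt τ).hasFDerivAt), db, db,
    _root_.add_apply, _root_.add_apply]
  ring

theorem C1.sub (hf : C1 f) (hg : C1 g) :
    C1 (fun τ => f τ - g τ) ∧ ∀ τ, db (fun τ => f τ - g τ) τ = db f τ - db g τ := by
  refine ⟨ContDiffOn.sub hf hg, fun τ => ?_⟩
  rw [Dbar_db (f := fun τ => f τ - g τ)
    ((hf.differentiableAt τ).hasFDerivAt.sub (hg.differentiableAt τ).hasFDerivAt), db, db,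
    _root_.sub_apply, _root_.sub_apply]
  ring

theorem C1.mul (hf : C1 f) (hg : C1 g) :
    C1 (fun τ => f τ * g τ) ∧ ∀ τ, db (fun τ => f τ * g τ) τ = db f τ * g τ + f τ * db g τ := by
  refine ⟨ContDiffOn.mul hf hg, fun τ => ?_⟩
  rw [Dbar_db (f := fun τ => f τ * g τ)
    ((hf.differentiableAt τ).hasFDerivAt.mul (hg.differentiableAt τ).hasFDerivAt), db, db]
  simp only [_root_.add_apply, _root_.smul_apply, Function.comp_apply,
    ofComplex_apply, smul_eq_mul]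
  ring

theorem C1.hol_mul (hg : C1 g) (hf : Hol f) :
    C1 (fun τ => f τ * g τ) ∧ ∀ τ, db (fun τ => f τ * g τ) τ = f τ * db g τ := by
  obtain ⟨h1, h2⟩ := (c1_of_hol hf).1.mul hg
  exact ⟨h1, fun τ => by rw [h2, (c1_of_hol hf).2, zero_mul, zero_add]⟩

theorem c1_sum {ι : Type} (s : Finset ι) {f : ι → ℍ → ℂ} (h : ∀ i ∈ s, C1 (f i)) :
    C1 (fun τ => ∑ i ∈ s, f i τ) ∧ ∀ τ, db (fun τ => ∑ i ∈ s, f i τ) τ = ∑ i ∈ s, db (f i) τ := by
  induction s using Finset.induction_on with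
  | empty => simpa only [Finset.sum_empty] using c1_const 0
  | insert i s hi ih =>
    obtain ⟨h1, h2⟩ := ih fun j hj => h j (Finset.mem_insert_of_mem hj)
    obtain ⟨h3, h4⟩ := (h i (Finset.mem_insert_self i s)).add h1
    simp only [Finset.sum_insert hi]
    exact ⟨h3, fun τ => by rw [h4, h2]⟩

theorem Dbar_smul_deriv (γ : SL(2, ℤ)) (τ : ℍ) :
    HasDerivAt (fun z => ((γ • ofComplex z : ℍ) : ℂ)) ((dn γ τ ^ 2)⁻¹) (τ : ℂ) := by
  have h0 := dn_sl_ne_zero γ τ
  have h1 := (((hasDerivAt_id (τ : ℂ)).const_mul (γ 0 0 : ℂ)).add_const (γ 0 1 : ℂ)).div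
    (((hasDerivAt_id (τ : ℂ)).const_mul (γ 1 0 : ℂ)).add_const (γ 1 1 : ℂ)) h0
  have hd : (γ 0 0 : ℂ) * γ 1 1 - γ 0 1 * γ 1 0 = 1 := by
    have h := γ.det_coe
    rw [Matrix.det_fin_two] at h
    exact_mod_cast h
  refine (h1.congr_deriv ?_).congr_of_eventuallyEq ?_
  · rw [inv_eq_one_div]
    simp only [id, dn]
    congr 1
    linear_combination hd
  · filter_upwards [Dbar_nhds τ] with z hz
    rw [coe_sl_smul, dn, Dbar_coe hz]
    rfl

theorem C1.smul (hf : C1 f) (γ : SL(2, ℤ)) : C1 (fun τ => f (γ • τ)) ∧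
    ∀ τ, db (fun τ => f (γ • τ)) τ = ((starRingEnd ℂ) (dn γ τ) ^ 2)⁻¹ * db f (γ • τ) := by
  have he : (fun τ => f (γ • τ)) ∘ ofComplex =
      (f ∘ ofComplex) ∘ fun z => ((γ • ofComplex z : ℍ) : ℂ) := by
    funext z
    simp only [Function.comp_apply, ofComplex_apply]
  have hG : DifferentiableOn ℂ (fun z => ((γ • ofComplex z : ℍ) : ℂ)) {z : ℂ | 0 < z.im} :=
    fun z hz => (Dbar_smul_deriv γ ⟨z, hz⟩).differentiableAt.differentiableWithinAt
  refine ⟨?_, fun τ => ?_⟩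
  · rw [C1, he]
    exact ContDiffOn.comp hf ((hG.contDiffOn Dbar_open).restrict_scalars ℝ)
      fun z _ => (γ • ofComplex z).im_pos
  · have h1 : HasFDerivAt (f ∘ ofComplex) (fderiv ℝ (f ∘ ofComplex) ((γ • τ : ℍ) : ℂ))
        ((γ • ofComplex (τ : ℂ) : ℍ) : ℂ) := by
      rw [ofComplex_apply]
      exact (hf.differentiableAt _).hasFDerivAt
    have h2 := h1.comp (τ : ℂ) ((Dbar_smul_deriv γ τ).hasFDerivAt.restrictScalars ℝ)
    rw [← he] at h2
    rw [Dbar_db h2, db, ← mul_div_assoc, ← map_pow, ← map_inv₀, ← Dbar_conj]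
    simp [mul_comm]

/-- The imaginary part as a real linear map. -/
def Dbar_E : ℂ →L[ℝ] ℂ := Complex.ofRealCLM.comp Complex.imCLM

theorem Dbar_E_apply (v : ℂ) : Dbar_E v = v.im := rfl

theorem Dbar_im_deriv {φ : ℝ → ℝ} {d : ℝ} {z : ℂ} (h : HasDerivAt φ d z.im) :
    HasFDerivAt (fun w : ℂ => (φ w.im : ℂ)) ((d : ℂ) • Dbar_E) z := by
  have h1 := h.ofReal_comp.hasFDerivAt.comp z Complex.imCLM.hasFDerivAt
  refine h1.congr_fderiv (ContinuousLinearMap.ext fun v => ?_)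
  simp [Dbar_E_apply, mul_comm]

/-- Functions of the imaginary part. -/
theorem c1_im {φ φ' : ℝ → ℝ} (h : ∀ y, 0 < y → HasDerivAt φ (φ' y) y)
    (hc : ContinuousOn φ' (Set.Ioi 0)) : C1 (fun τ => (φ τ.im : ℂ)) ∧
      ∀ τ, db (fun τ => (φ τ.im : ℂ)) τ = Complex.I / 2 * φ' τ.im := by
  have h1 : ∀ z : ℂ, 0 < z.im → HasFDerivAt ((fun τ : ℍ => (φ τ.im : ℂ)) ∘ ofComplex)
      ((φ' z.im : ℂ) • Dbar_E) z := fun z hz => by
    refine (Dbar_im_deriv (h _ hz)).congr_of_eventuallyEq ?_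
    filter_upwards [Dbar_open.mem_nhds hz] with w hw
    rw [Function.comp_apply, Dbar_im hw]
  refine ⟨Dbar_c1 fun τ => contDiffAt_one_iff.2 ⟨_, _, Dbar_nhds τ, ?_, h1⟩, fun τ => ?_⟩
  · exact (Complex.continuous_ofReal.comp_continuousOn
      (hc.comp Complex.continuous_im.continuousOn fun z hz => hz)).smul continuousOn_const
  · rw [Dbar_db (h1 τ τ.im_pos)]
    simp only [_root_.smul_apply, Dbar_E_apply, smul_eq_mul, Complex.one_im,
      Complex.I_im, Complex.ofReal_zero, Complex.ofReal_one, coe_im]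
    ring

theorem db_congr {τ : ℍ} (h : f =ᶠ[𝓝 τ] g) : db f τ = db g τ := by
  rw [db, db, (Dbar_congr h).fderiv_eq]

theorem c1_of_locally (h : ∀ τ, ∃ g, C1 g ∧ f =ᶠ[𝓝 τ] g) : C1 f := by
  refine Dbar_c1 fun τ => ?_
  obtain ⟨g, hg, he⟩ := h τ
  exact (Dbar_at hg τ).congr_of_eventuallyEq (Dbar_congr he)

/-- The derivative of one term of the series. -/
def Dbar_D (a : ℂ) (n : ℝ) (φ φ' : ℝ → ℝ) (z : ℂ) : ℂ →L[ℝ] ℂ :=
  (a * (2 * Real.pi * Complex.I * n * ee (z * n) * φ z.im)) • ContinuousLinearMap.id ℝ ℂ +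
    (a * (ee (z * n) * φ' z.im)) • Dbar_E

theorem Dbar_D_apply (a : ℂ) (n : ℝ) (φ φ' : ℝ → ℝ) (z v : ℂ) : Dbar_D a n φ φ' z v =
    a * (2 * Real.pi * Complex.I * n * ee (z * n) * φ z.im) * v +
      a * (ee (z * n) * φ' z.im) * v.im := rfl

theorem Dbar_D_deriv (a : ℂ) (n : ℝ) {φ φ' : ℝ → ℝ} {z : ℂ} (h : HasDerivAt φ (φ' z.im) z.im) :
    HasFDerivAt (fun w : ℂ => a * (ee (w * n) * φ w.im)) (Dbar_D a n φ φ' z) z := by
  have h1 := ((hasDerivAt_ee (z * n)).comp z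
    ((hasDerivAt_id z).mul_const (n : ℂ))).hasFDerivAt.restrictScalars ℝ
  refine ((h1.mul (Dbar_im_deriv h)).const_mul a).congr_fderiv
    (ContinuousLinearMap.ext fun v => ?_)
  simp [Dbar_D_apply, Dbar_E_apply]
  ring

theorem Dbar_norm_ee (z : ℂ) (n : ℝ) : ‖ee (z * n)‖ = Real.exp (-(2 * Real.pi * n * z.im)) := by
  rw [norm_ee]
  congr 1
  simp only [Complex.mul_im, Complex.ofReal_re, Complex.ofReal_im]
  ring

theorem Dbar_D_norm (a : ℂ) (n : ℝ) (φ φ' : ℝ → ℝ) (z : ℂ) : ‖Dbar_D a n φ φ' z‖ ≤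
    8 * (‖a‖ * Real.exp (-(2 * Real.pi * n * z.im)) * ((1 + |n|) * |φ z.im| + |φ' z.im|)) := by
  refine ContinuousLinearMap.opNorm_le_bound _ (by positivity) fun v => ?_
  rw [Dbar_D_apply]
  refine (norm_add_le _ _).trans ?_
  simp only [norm_mul, Dbar_norm_ee, Complex.norm_real, Real.norm_eq_abs, Complex.norm_I,
    Complex.norm_ofNat, mul_one, abs_of_pos Real.pi_pos]
  have h1 := Complex.abs_im_le_norm v
  have h2 := Real.pi_le_four
  have h3 : 2 * Real.pi * |n| ≤ 8 * (1 + |n|) := by nlinarith [abs_nonneg n]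
  have h4 : |v.im| ≤ 8 * ‖v‖ := by linarith [norm_nonneg v]
  set E := Real.exp (-(2 * Real.pi * n * z.im))
  have hE : 0 ≤ E := (Real.exp_pos _).le
  calc ‖a‖ * (2 * Real.pi * |n| * E * |φ z.im|) * ‖v‖ + ‖a‖ * (E * |φ' z.im|) * |v.im|
      ≤ ‖a‖ * (8 * (1 + |n|) * E * |φ z.im|) * ‖v‖ + ‖a‖ * (E * |φ' z.im|) * (8 * ‖v‖) := by
        gcongr
    _ = _ := by ring

/-- Series of products of an exponential and a function of the imaginary part. -/
theorem c1_tsum {ι : Type} [Countable ι] {a : ι → ℂ} {n : ι → ℝ} {φ φ' : ι → ℝ → ℝ}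
    (h : ∀ i y, 0 < y → HasDerivAt (φ i) (φ' i y) y) (hc : ∀ i, ContinuousOn (φ' i) (Set.Ioi 0))
    (hb : ∀ y₁ y₂ : ℝ, 0 < y₁ → ∃ u : ι → ℝ, Summable u ∧ ∀ i y, y₁ ≤ y → y ≤ y₂ →
      ‖a i‖ * Real.exp (-(2 * Real.pi * n i * y)) * ((1 + |n i|) * |φ i y| + |φ' i y|) ≤ u i) :
    C1 (fun τ => ∑' i, a i * (ee (τ * n i) * φ i τ.im)) ∧
      ∀ τ, db (fun τ => ∑' i, a i * (ee (τ * n i) * φ i τ.im)) τ =
        Complex.I / 2 * ∑' i, a i * (ee (τ * n i) * φ' i τ.im) := by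
  have key : ∀ τ : ℍ, ∃ s ∈ 𝓝 (τ : ℂ),
      ContinuousOn (fun z => ∑' i, Dbar_D (a i) (n i) (φ i) (φ' i) z) s ∧
      (Summable fun i => Dbar_D (a i) (n i) (φ i) (φ' i) τ) ∧
      ∀ z ∈ s, HasFDerivAt ((fun τ : ℍ => ∑' i, a i * (ee (τ * n i) * φ i τ.im)) ∘ ofComplex)
        (∑' i, Dbar_D (a i) (n i) (φ i) (φ' i) z) z := fun τ => by
    have hy := τ.im_pos
    obtain ⟨u, hu, hle⟩ := hb (τ.im / 2) (2 * τ.im) (by positivity)
    have hso : IsOpen ({z : ℂ | τ.im / 2 < z.im} ∩ {z : ℂ | z.im < 2 * τ.im}) :=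
      (isOpen_lt continuous_const Complex.continuous_im).inter
        (isOpen_lt Complex.continuous_im continuous_const)
    have hsc : Convex ℝ ({z : ℂ | τ.im / 2 < z.im} ∩ {z : ℂ | z.im < 2 * τ.im}) :=
      (convex_halfSpace_im_gt _).inter (convex_halfSpace_im_lt _)
    have hτ : (τ : ℂ) ∈ {z : ℂ | τ.im / 2 < z.im} ∩ {z : ℂ | z.im < 2 * τ.im} := by
      simp only [Set.mem_inter_iff, Set.mem_ofPred_eq, coe_im]
      constructor <;> linarith
    have hpos : ∀ z ∈ {z : ℂ | τ.im / 2 < z.im} ∩ {z : ℂ | z.im < 2 * τ.im}, 0 < z.im :=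
      fun z hz => lt_trans (by positivity) hz.1
    have hD : ∀ i, ∀ z ∈ {z : ℂ | τ.im / 2 < z.im} ∩ {z : ℂ | z.im < 2 * τ.im},
        ‖Dbar_D (a i) (n i) (φ i) (φ' i) z‖ ≤ 8 * u i := fun i z hz =>
      (Dbar_D_norm _ _ _ _ _).trans
        (mul_le_mul_of_nonneg_left (hle i _ hz.1.le hz.2.le) (by norm_num))
    have h0 : Summable fun i => a i * (ee (τ * n i) * φ i (τ : ℂ).im) := by
      refine hu.of_norm_bounded fun i => le_trans ?_ (hle i _ hτ.1.le hτ.2.le)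
      rw [norm_mul, norm_mul, Dbar_norm_ee, Complex.norm_real, Real.norm_eq_abs, ← mul_assoc]
      refine mul_le_mul_of_nonneg_left ?_ (by positivity)
      nlinarith [abs_nonneg (φ i (τ : ℂ).im), abs_nonneg (φ' i (τ : ℂ).im), abs_nonneg (n i)]
    refine ⟨_, hso.mem_nhds hτ, continuousOn_tsum (fun i => ?_) (hu.mul_left 8) hD,
      (hu.mul_left 8).of_norm_bounded fun i => hD i _ hτ, fun z hz => ?_⟩
    · have e1 : Continuous fun z : ℂ => ee (z * n i) :=
        continuous_ee.comp (continuous_id.mul continuous_const)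
      have e2 : ContinuousOn (φ i) (Set.Ioi 0) :=
        fun y hy => (h i y hy).continuousAt.continuousWithinAt
      have e3 := Complex.continuous_ofReal.comp_continuousOn
        (e2.comp Complex.continuous_im.continuousOn hpos)
      have e4 := Complex.continuous_ofReal.comp_continuousOn
        ((hc i).comp Complex.continuous_im.continuousOn hpos)
      exact ((continuousOn_const.mul ((continuousOn_const.mul e1.continuousOn).mul e3)).smul
        continuousOn_const).add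
        ((continuousOn_const.mul (e1.continuousOn.mul e4)).smul continuousOn_const)
    · refine (hasFDerivAt_tsum_of_isPreconnected
        (f := fun i (w : ℂ) => a i * (ee (w * n i) * φ i w.im)) (hu.mul_left 8) hso
        hsc.isPreconnected (fun i w hw => Dbar_D_deriv _ _ (h i _ (hpos w hw))) hD hτ h0
        hz).congr_of_eventuallyEq ?_
      filter_upwards [Dbar_open.mem_nhds (hpos z hz)] with w hw
      rw [Function.comp_apply, Dbar_im hw, Dbar_coe hw]
  refine ⟨Dbar_c1 fun τ => ?_, fun τ => ?_⟩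
  · obtain ⟨s, hs, h1, -, h2⟩ := key τ
    exact contDiffAt_one_iff.2 ⟨_, s, hs, h1, h2⟩
  · obtain ⟨s, hs, -, h1, h2⟩ := key τ
    have h3 := h1.hasSum.mapL (ContinuousLinearMap.apply ℝ ℂ (1 : ℂ))
    have h4 := h1.hasSum.mapL (ContinuousLinearMap.apply ℝ ℂ Complex.I)
    simp only [ContinuousLinearMap.apply_apply] at h3 h4
    rw [Dbar_db (h2 _ (mem_of_mem_nhds hs)), ← ((h3.add (h4.mul_left Complex.I)).div_const 2).tsum_eq,
      ← tsum_mul_left]
    refine tsum_congr fun i => ?_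
    simp only [Dbar_D_apply, Complex.one_im, Complex.I_im, Complex.ofReal_zero, Complex.ofReal_one,
      coe_im]
    linear_combination (a i * (Real.pi * Complex.I * n i * ee (τ * n i) * φ i τ.im)) *
      Complex.I_mul_I

theorem hol_dn (Y : MZ) : Hol (dn Y) := by
  refine DifferentiableOn.congr (f := fun z : ℂ => (Y 1 0 : ℂ) * z + Y 1 1) (by fun_prop)
    fun z hz => ?_
  rw [Function.comp_apply, dn, Dbar_coe hz]

/-- Locally uniformly convergent series of holomorphic functions. -/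
theorem hol_tsum {ι : Type} [Countable ι] {f : ι → ℍ → ℂ} (h : ∀ i, Hol (f i))
    (hb : ∀ K : Set ℍ, IsCompact K → ∃ u : ι → ℝ, Summable u ∧ ∀ i, ∀ τ ∈ K, ‖f i τ‖ ≤ u i) :
    Hol fun τ => ∑' i, f i τ := by
  intro z hz
  obtain ⟨K, hK, hKU, hc⟩ := local_compact_nhds (Dbar_open.mem_nhds hz)
  obtain ⟨u, hu, hle⟩ := hb _ (hc.image_of_continuousOn
    fun w hw => (Dbar_contAt (hKU hw)).continuousWithinAt)
  have h1 := Complex.differentiableOn_tsum_of_summable_norm (F := fun i => f i ∘ ofComplex) hu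
    (fun i => DifferentiableOn.mono (h i) (interior_subset.trans hKU)) isOpen_interior
    fun i w hw => hle i _ (Set.mem_image_of_mem _ (interior_subset hw))
  exact (h1.differentiableAt (interior_mem_nhds.2 hK)).differentiableWithinAt

end

end Pool.Agent.P.MP_a60a76_nt.Sz
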