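import Pool.Agent.P.MP_a60a76_nt.Sz.Maj
import Pool.Agent.P.MP_a60a76_nt.Sz.Dbar

namespace Pool.Agent.P.MP_a60a76_nt.Sz

open UpperHalfPlane MeasureTheory SP
open scoped MatrixGroups UpperHalfPlane Matrix Modular Topology Classical ArithmeticFunction.sigma

noncomputable section

/-! The Green function. -/

theorem Ka_cont (a : ℝ) : ContinuousOn (fun r : ℝ => Real.exp (-(a * r)) / r) (Set.Ioi 0) :=
  ContinuousOn.div (by fun_prop) continuousOn_id fun _ hr => ne_of_gt hr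

theorem Ka_exp_int {a : ℝ} (ha : 0 < a) (y : ℝ) :
    IntegrableOn (fun r : ℝ => Real.exp (-(a * r))) (Set.Ioi y) := by
  simpa only [neg_mul] using exp_neg_integrableOn_Ioi y ha

theorem Ka_int {a y : ℝ} (ha : 0 < a) (hy : 0 < y) :
    IntegrableOn (fun r : ℝ => Real.exp (-(a * r)) / r) (Set.Ioi y) := by
  refine ((Ka_exp_int ha y).div_const y).mono'
    (((Ka_cont a).mono (Set.Ioi_subset_Ioi hy.le)).aestronglyMeasurable measurableSet_Ioi) ?_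
  filter_upwards [ae_restrict_mem measurableSet_Ioi] with r hr
  have hr' : 0 < r := hy.trans hr
  rw [Real.norm_eq_abs, abs_of_pos (by positivity)]
  exact div_le_div_of_nonneg_left (Real.exp_pos _).le hy (le_of_lt hr)

theorem Ka_tail {a y : ℝ} (hy : 0 < y) :
    ∫ r in Set.Ioi y, Real.exp (-(a * r)) / r = beta (a * y) := by
  have h := integral_comp_mul_left_Ioi' (fun r : ℝ => Real.exp (-(a * r)) / r) 1 hy
  rw [mul_one] at h
  rw [← h, beta, smul_eq_mul, ← integral_const_mul]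
  refine setIntegral_congr_fun measurableSet_Ioi fun t ht => ?_
  have ht' : 0 < t := zero_lt_one.trans ht
  simp only [mul_assoc]
  field_simp

theorem beta_nonneg (r : ℝ) : 0 ≤ beta r := by
  refine setIntegral_nonneg measurableSet_Ioi fun t ht => ?_
  exact div_nonneg (Real.exp_pos _).le (zero_le_one.trans (le_of_lt ht))

theorem beta_le {r : ℝ} (hr : 0 < r) : beta r ≤ Real.exp (-r) / r := by
  have h1 : ∫ t in Set.Ioi (1 : ℝ), Real.exp (-(r * t)) = Real.exp (-r) / r := by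
    have h := integral_exp_mul_Ioi (neg_lt_zero.2 hr) 1
    simp only [neg_mul, mul_one, neg_div_neg_eq] at h
    exact h
  rw [← h1]
  refine setIntegral_mono_on (Ka_int hr one_pos) (Ka_exp_int hr 1) measurableSet_Ioi
    fun t ht => ?_
  exact div_le_self (Real.exp_pos _).le (le_of_lt ht)

theorem beta_antitone {r r' : ℝ} (hr : 0 < r) (h : r ≤ r') : beta r' ≤ beta r := by
  refine setIntegral_mono_on (Ka_int (hr.trans_le h) one_pos) (Ka_int hr one_pos)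
    measurableSet_Ioi fun t ht => ?_
  have ht' : 0 < t := zero_lt_one.trans ht
  exact div_le_div_of_nonneg_right (Real.exp_le_exp.2 (by nlinarith)) ht'.le

theorem Bf_eq_beta (pos : Prop) {a y : ℝ} (ha : 0 < a) (hy : 0 < y) :
    Bf pos a y = beta (a * y) - if pos then beta a else 0 := by
  unfold Bf
  split_ifs with h
  · rw [← intervalIntegral.integral_Ioi_sub_Ioi' (Ka_int ha one_pos) (Ka_int ha hy), Ka_tail hy,
      Ka_tail one_pos, mul_one, neg_sub]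
  · rw [Ka_tail hy, sub_zero]

theorem Ka_ii (a : ℝ) {y : ℝ} (hy : 0 < y) :
    IntervalIntegrable (fun r : ℝ => Real.exp (-(a * r)) / r) volume 1 y :=
  ((Ka_cont a).mono fun _ hr => (lt_min one_pos hy).trans_le hr.1).intervalIntegrable

theorem Ka_der (a : ℝ) {y : ℝ} (hy : 0 < y) :
    HasDerivAt (fun u => -∫ r in (1 : ℝ)..u, Real.exp (-(a * r)) / r)
      (-(Real.exp (-(a * y)) / y)) y :=
  (intervalIntegral.integral_hasDerivAt_right (Ka_ii a hy)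
    ((Ka_cont a).stronglyMeasurableAtFilter isOpen_Ioi y hy)
    ((Ka_cont a).continuousAt (Ioi_mem_nhds hy))).neg

theorem Bf_hasDerivAt (pos : Prop) {a y : ℝ} (ha : pos ∨ 0 < a) (hy : 0 < y) :
    HasDerivAt (Bf pos a) (-(Real.exp (-(a * y)) / y)) y := by
  by_cases h : pos
  · have e : Bf pos a = fun u => -∫ r in (1 : ℝ)..u, Real.exp (-(a * r)) / r := by
      funext u
      rw [Bf, if_pos h]
    rw [e]
    exact Ka_der a hy
  · have ha' := ha.resolve_left h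
    refine ((Ka_der a hy).add_const (beta a)).congr_of_eventuallyEq ?_
    filter_upwards [Ioi_mem_nhds hy] with u hu
    have h1 := Bf_eq_beta True ha' hu
    rw [Bf, if_pos trivial, if_pos trivial] at h1
    rw [Bf_eq_beta pos ha' hu, if_neg h, h1]
    ring

theorem Ka_Mj_nonneg (X : MZ) (t₁ t₂ : ℍ) : 0 ≤ Mj X t₁ t₂ :=
  (abs_nonneg _).trans (abs_det_le_Mj X t₁ t₂)

theorem Ka_Mj_zero (t₁ t₂ : ℍ) : Mj 0 t₁ t₂ = 0 := by simp [Mj, Rm_zero]

theorem Ka_exp_mul (X : MZ) (t₁ t₂ : ℍ) (N r : ℝ) :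
    Real.exp (-(2 * Real.pi * X.det / N * r)) *
      Real.exp (-(4 * Real.pi * Rm X t₁ t₂ / N * r)) =
        Real.exp (-(2 * Real.pi * (r / N) * Mj X t₁ t₂)) := by
  rw [← Real.exp_add, Mj]
  congr 1
  ring

theorem Ka_pos_le {X : MZ} (h : 0 < X.det ∨ X = 0) (t₁ t₂ : ℍ) {N y m : ℝ} (hN : 0 < N)
    (hm : 0 < m) (h1 : m ≤ 1) (h2 : m ≤ y) :
    Real.exp (-(2 * Real.pi * X.det / N * y)) *
      |Bf (0 < X.det ∨ X = 0) (4 * Real.pi * Rm X t₁ t₂ / N) y| ≤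
        |Real.log y| * Real.exp (-(2 * Real.pi * (m / N) * Mj X t₁ t₂)) := by
  have hy : 0 < y := hm.trans_le h2
  have hpi := Real.pi_pos
  have hR := Rm_nonneg X t₁ t₂
  have hD : (0 : ℝ) ≤ X.det := by
    rcases h with h | h
    · exact_mod_cast h.le
    · simp [h]
  set a := 4 * Real.pi * Rm X t₁ t₂ / N with ha
  have ha0 : 0 ≤ a := by positivity
  have hB : |Bf (0 < X.det ∨ X = 0) a y| ≤ Real.exp (-(a * m)) * |Real.log y| := by
    have hi : IntervalIntegrable (fun r : ℝ => Real.exp (-(a * m)) * r⁻¹) volume 1 y :=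
      (ContinuousOn.intervalIntegrable (continuousOn_inv₀.mono fun r hr =>
        ((lt_min one_pos hy).trans_le hr.1).ne')).const_mul _
    rw [Bf, if_pos h, abs_neg, ← Real.norm_eq_abs]
    refine (intervalIntegral.norm_integral_le_abs_of_norm_le ?_ hi).trans (le_of_eq ?_)
    · filter_upwards [ae_restrict_mem measurableSet_uIoc] with r hr
      have h3 : m ≤ r := (le_min h1 h2).trans (le_of_lt hr.1)
      have hr' : 0 < r := hm.trans_le h3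
      rw [Real.norm_eq_abs, abs_of_pos (by positivity), div_eq_mul_inv]
      exact mul_le_mul_of_nonneg_right
        (Real.exp_le_exp.2 (neg_le_neg (mul_le_mul_of_nonneg_left h3 ha0))) (by positivity)
    · rw [intervalIntegral.integral_const_mul, integral_inv_of_pos one_pos hy, div_one, abs_mul,
        abs_of_pos (Real.exp_pos _)]
  have hE : Real.exp (-(2 * Real.pi * X.det / N * y)) ≤
      Real.exp (-(2 * Real.pi * X.det / N * m)) :=
    Real.exp_le_exp.2 (neg_le_neg (mul_le_mul_of_nonneg_left h2 (by positivity)))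
  rw [← Ka_exp_mul, ← ha]
  calc _ ≤ Real.exp (-(2 * Real.pi * X.det / N * m)) * (Real.exp (-(a * m)) * |Real.log y|) :=
        mul_le_mul hE hB (abs_nonneg _) (Real.exp_pos _).le
    _ = _ := by ring

theorem Ka_a_pos {X : MZ} (h : ¬ (0 < X.det ∨ X = 0)) (t₁ t₂ : ℍ) {N : ℝ} (hN : 0 < N) :
    0 < 4 * Real.pi * Rm X t₁ t₂ / N := by
  have h1 := Rm_pos_of_det (fun e => h (Or.inr e)) (not_lt.1 fun e => h (Or.inl e)) t₁ t₂
  have hpi := Real.pi_pos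
  positivity

theorem Ka_arg (M N r : ℝ) : 2 * Real.pi * M / N * r = 2 * Real.pi * (r / N) * M := by ring

theorem Ka_neg_le {X : MZ} (h : ¬ (0 < X.det ∨ X = 0)) (t₁ t₂ : ℍ) {N y : ℝ} (hN : 0 < N)
    (hy : 0 < y) :
    Real.exp (-(2 * Real.pi * X.det / N * y)) *
      |Bf (0 < X.det ∨ X = 0) (4 * Real.pi * Rm X t₁ t₂ / N) y| ≤
        ∫ r in Set.Ioi y, Real.exp (-(2 * Real.pi * Mj X t₁ t₂ / N * r)) / r := by
  have hpi := Real.pi_pos
  have ha := Ka_a_pos h t₁ t₂ hN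
  have hM := Mj_pos (fun e => h (Or.inr e)) t₁ t₂
  have hD : (X.det : ℝ) ≤ 0 := by exact_mod_cast not_lt.1 fun e => h (Or.inl e)
  have h0 : 0 ≤ ∫ r in Set.Ioi y, Real.exp (-(4 * Real.pi * Rm X t₁ t₂ / N * r)) / r := by
    rw [Ka_tail hy]
    exact beta_nonneg _
  rw [Bf, if_neg h, abs_of_nonneg h0, ← integral_const_mul]
  refine setIntegral_mono_on ((Ka_int ha hy).const_mul _) (Ka_int (by positivity) hy)
    measurableSet_Ioi fun r hr => ?_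
  have hr' : 0 < r := hy.trans hr
  rw [Ka_arg (Mj X t₁ t₂), ← Ka_exp_mul, mul_div_assoc (Real.exp _)]
  refine mul_le_mul_of_nonneg_right (Real.exp_le_exp.2 (neg_le_neg ?_)) (by positivity)
  exact mul_le_mul_of_nonpos_left (le_of_lt hr)
    (div_nonpos_of_nonpos_of_nonneg (by nlinarith) hN.le)

theorem Ka_m0 (t₁ t₂ : ℍ) : ∃ m : ℝ, 0 < m ∧ ∀ X : MZ, X ≠ 0 → m ≤ Mj X t₁ t₂ := by
  have hf : {X : MZ | Mj X t₁ t₂ ≤ 1 ∧ X ≠ 0}.Finite :=
    (finite_Mj_le t₁ t₂ 1).subset fun X hX => hX.1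
  rcases Set.eq_empty_or_nonempty {X : MZ | Mj X t₁ t₂ ≤ 1 ∧ X ≠ 0} with h | h
  · refine ⟨1, one_pos, fun X hX => ?_⟩
    by_contra h1
    exact (Set.eq_empty_iff_forall_notMem.1 h X) ⟨(not_le.1 h1).le, hX⟩
  · obtain ⟨Y, hY, hm⟩ := Set.exists_min_image _ (fun X => Mj X t₁ t₂) hf h
    refine ⟨_, Mj_pos hY.2 t₁ t₂, fun X hX => ?_⟩
    by_cases h1 : Mj X t₁ t₂ ≤ 1
    · exact hm X ⟨h1, hX⟩
    · exact hY.1.trans (not_le.1 h1).le

theorem Ka_mono (X : MZ) (t₁ t₂ : ℍ) {N m y : ℝ} (hN : 0 < N) (h : m ≤ y) :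
    Real.exp (-(2 * Real.pi * (y / N) * Mj X t₁ t₂)) ≤
      Real.exp (-(2 * Real.pi * (m / N) * Mj X t₁ t₂)) := by
  have hpi := Real.pi_pos
  refine Real.exp_le_exp.2 (neg_le_neg ?_)
  exact mul_le_mul_of_nonneg_right (mul_le_mul_of_nonneg_left
    (div_le_div_of_nonneg_right h hN.le) (by positivity)) (Ka_Mj_nonneg X t₁ t₂)

theorem Ka_unif (t₁ t₂ : ℍ) {N y₁ : ℝ} (hN : 0 < N) (hy : 0 < y₁) (y₂ : ℝ) :
    ∃ K : ℝ, 0 ≤ K ∧ ∀ (X : MZ) (y : ℝ), y₁ ≤ y → y ≤ y₂ →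
      Real.exp (-(2 * Real.pi * X.det / N * y)) *
        |Bf (0 < X.det ∨ X = 0) (4 * Real.pi * Rm X t₁ t₂ / N) y| ≤
          K * Real.exp (-(2 * Real.pi * (min 1 y₁ / N) * Mj X t₁ t₂)) := by
  obtain ⟨m, hm, hM⟩ := Ka_m0 t₁ t₂
  have hpi := Real.pi_pos
  have hc : 0 < (2 * Real.pi * m / N * y₁)⁻¹ := by positivity
  refine ⟨|Real.log y₁| + |Real.log y₂| + (2 * Real.pi * m / N * y₁)⁻¹, by positivity,
    fun X y h1 h2 => ?_⟩
  have hy' : 0 < y := hy.trans_le h1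
  have a1 := abs_nonneg (Real.log y₁)
  have a2 := abs_nonneg (Real.log y₂)
  by_cases h : 0 < X.det ∨ X = 0
  · refine (Ka_pos_le h t₁ t₂ hN (lt_min one_pos hy) (min_le_left _ _)
      ((min_le_right _ _).trans h1)).trans (mul_le_mul_of_nonneg_right ?_ (Real.exp_pos _).le)
    have l1 := Real.log_le_log hy h1
    have l2 := Real.log_le_log hy' h2
    refine abs_le.2 ⟨?_, ?_⟩
    · linarith [neg_abs_le (Real.log y₁)]
    · linarith [le_abs_self (Real.log y₂)]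
  · have h3 := hM X fun e => h (Or.inr e)
    have h4 : 0 < Mj X t₁ t₂ := hm.trans_le h3
    refine (Ka_neg_le h t₁ t₂ hN hy').trans ?_
    rw [Ka_tail hy']
    refine (beta_le (by positivity)).trans ?_
    rw [div_eq_inv_mul]
    refine mul_le_mul ?_ ?_ (Real.exp_pos _).le (by positivity)
    · have : (2 * Real.pi * Mj X t₁ t₂ / N * y)⁻¹ ≤ (2 * Real.pi * m / N * y₁)⁻¹ :=
        inv_anti₀ (by positivity) (by gcongr)
      linarith
    · rw [Ka_arg]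
      exact Ka_mono X t₁ t₂ hN ((min_le_right _ _).trans h1)

/-- The majorant of the Green function of level one. -/
theorem summable_Bf (t₁ t₂ : ℍ) {N y : ℝ} (hN : 0 < N) (hy : 0 < y) :
    Summable fun X : MZ => Real.exp (-(2 * Real.pi * X.det / N * y)) *
      |Bf (0 < X.det ∨ X = 0) (4 * Real.pi * Rm X t₁ t₂ / N) y| := by
  obtain ⟨K, -, hK⟩ := Ka_unif t₁ t₂ hN hy y
  have hm : 0 < min 1 y / N := div_pos (lt_min one_pos hy) hN
  exact Summable.of_nonneg_of_le (fun X => by positivity) (fun X => hK X y le_rfl le_rfl)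
    ((summable_Th t₁ t₂ hm).mul_left K)

theorem Ka_rpow {y : ℝ} (hy : 0 < y) (n : ℕ) :
    y ^ (-((n : ℝ) / 2)) = (Real.sqrt y ^ n)⁻¹ := by
  rw [Real.rpow_neg hy.le, Real.sqrt_eq_rpow, ← Real.rpow_natCast, ← Real.rpow_mul hy.le]
  congr 2
  ring

theorem Ka_rpow5 {y : ℝ} (hy : 0 < y) : y ^ (-(5 / 2) : ℝ) = (Real.sqrt y ^ 5)⁻¹ := by
  simpa using Ka_rpow hy 5

theorem Ka_rpow3 {y : ℝ} (hy : 0 < y) : y ^ (-(3 / 2) : ℝ) = (Real.sqrt y ^ 3)⁻¹ := by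
  simpa using Ka_rpow hy 3

theorem Ka_rpow_int {y : ℝ} (hy : 0 < y) :
    ∫ r in Set.Ioi y, r ^ (-(3 / 2) : ℝ) = 2 * (Real.sqrt y)⁻¹ := by
  have h := Ka_rpow hy 1
  rw [Nat.cast_one, pow_one] at h
  rw [integral_Ioi_rpow_of_lt (by norm_num) hy, ← h,
    show (-(3 / 2) : ℝ) + 1 = -(1 / 2) by norm_num]
  ring

theorem Ka_sum_le (t₁ t₂ : ℍ) {r : ℝ} (hr : 0 < r) (u : Finset MZ) (hu : ∀ X ∈ u, X ≠ 0) :
    ∑ X ∈ u, Real.exp (-(2 * Real.pi * r * Mj X t₁ t₂)) ≤ Th t₁ t₂ r - 1 := by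
  have h := (summable_Th t₁ t₂ hr).sum_le_tsum (insert 0 u) fun X _ => (Real.exp_pos _).le
  rw [Finset.sum_insert fun h0 => hu 0 h0 rfl, Ka_Mj_zero, mul_zero, neg_zero, Real.exp_zero] at h
  rw [Th]
  linarith

theorem Ka_Th {t₁ t₂ : ℍ} {N C : ℝ} (hN : 1 ≤ N) (hC : 0 ≤ C)
    (h : ∀ r : ℝ, 0 < r → Th t₁ t₂ r - 1 ≤ C * ((Real.sqrt r)⁻¹ + (r ^ 2)⁻¹)) {r : ℝ}
    (hr : 0 < r) : Th t₁ t₂ (r / N) - 1 ≤ C * N ^ 2 * ((Real.sqrt r)⁻¹ + (r ^ 2)⁻¹) := by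
  have hN0 : 0 < N := one_pos.trans_le hN
  refine (h _ (div_pos hr hN0)).trans ?_
  rw [mul_assoc]
  refine mul_le_mul_of_nonneg_left ?_ hC
  have h1 : Real.sqrt N ≤ N ^ 2 := by
    rw [Real.sqrt_le_left (by positivity), ← pow_mul]
    exact le_self_pow₀ hN (by norm_num)
  rw [Real.sqrt_div hr.le, inv_div, div_pow, inv_div, div_eq_mul_inv, div_eq_mul_inv, mul_add]
  gcongr

theorem tsum_Bf_le (t₁ t₂ : ℍ) {N y C : ℝ} (hN : 1 ≤ N) (hy : 0 < y) (hC : 0 ≤ C)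
    (h : ∀ r : ℝ, 0 < r → Th t₁ t₂ r - 1 ≤ C * ((Real.sqrt r)⁻¹ + (r ^ 2)⁻¹)) :
    ∑' X : MZ, Real.exp (-(2 * Real.pi * X.det / N * y)) *
      |Bf (0 < X.det ∨ X = 0) (4 * Real.pi * Rm X t₁ t₂ / N) y| ≤
        20 * N ^ 2 * (1 + C) * (y + y ^ (-(5 / 2) : ℝ)) := by
  have hN0 : 0 < N := one_pos.trans_le hN
  have hpi := Real.pi_pos
  have hs : 0 < Real.sqrt y := Real.sqrt_pos.2 hy
  have hm : 0 < min 1 y := lt_min one_pos hy
  refine Real.tsum_le_of_sum_le (fun X => by positivity) fun u => ?_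
  rw [← Finset.sum_filter_add_sum_filter_not u fun X : MZ => 0 < X.det ∨ X = 0]
  have h1 : ∑ X ∈ u.filter (fun X : MZ => 0 < X.det ∨ X = 0),
      Real.exp (-(2 * Real.pi * X.det / N * y)) *
        |Bf (0 < X.det ∨ X = 0) (4 * Real.pi * Rm X t₁ t₂ / N) y| ≤
      |Real.log y| * Th t₁ t₂ (min 1 y / N) := by
    refine (Finset.sum_le_sum fun X hX => Ka_pos_le (Finset.mem_filter.1 hX).2 t₁ t₂ hN0 hm
      (min_le_left _ _) (min_le_right _ _)).trans ?_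
    rw [← Finset.mul_sum]
    exact mul_le_mul_of_nonneg_left ((summable_Th t₁ t₂ (div_pos hm hN0)).sum_le_tsum _
      fun X _ => (Real.exp_pos _).le) (abs_nonneg _)
  have hint : ∀ X ∈ u.filter (fun X : MZ => ¬ (0 < X.det ∨ X = 0)), IntegrableOn
      (fun r : ℝ => Real.exp (-(2 * Real.pi * Mj X t₁ t₂ / N * r)) / r) (Set.Ioi y) := by
    intro X hX
    have := Mj_pos (fun e => (Finset.mem_filter.1 hX).2 (Or.inr e)) t₁ t₂
    exact Ka_int (by positivity) hy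
  have h2 : ∑ X ∈ u.filter (fun X : MZ => ¬ (0 < X.det ∨ X = 0)),
      Real.exp (-(2 * Real.pi * X.det / N * y)) *
        |Bf (0 < X.det ∨ X = 0) (4 * Real.pi * Rm X t₁ t₂ / N) y| ≤
      C * N ^ 2 * (1 + (Real.sqrt y ^ 3)⁻¹) * (2 * (Real.sqrt y)⁻¹) := by
    refine (Finset.sum_le_sum fun X hX => Ka_neg_le (Finset.mem_filter.1 hX).2 t₁ t₂ hN0
      hy).trans ?_
    rw [← integral_finsetSum _ hint, ← Ka_rpow_int hy, ← integral_const_mul]
    refine setIntegral_mono_on (integrable_finsetSum _ hint)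
      ((integrableOn_Ioi_rpow_of_lt (by norm_num) hy).const_mul _) measurableSet_Ioi
      fun r hr => ?_
    have hr' : 0 < r := hy.trans hr
    have hq : 0 < Real.sqrt r := Real.sqrt_pos.2 hr'
    have h3 := (Ka_sum_le t₁ t₂ (div_pos hr' hN0)
      (u.filter fun X : MZ => ¬ (0 < X.det ∨ X = 0)) fun X hX e =>
        (Finset.mem_filter.1 hX).2 (Or.inr e)).trans (Ka_Th hN hC h hr')
    simp only [Ka_arg]
    rw [← Finset.sum_div, Ka_rpow3 hr', div_le_iff₀ hr', mul_assoc (C * N ^ 2),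
      mul_assoc (C * N ^ 2)]
    refine h3.trans (mul_le_mul_of_nonneg_left ?_ (by positivity))
    have h4 : (Real.sqrt r ^ 3)⁻¹ ≤ (Real.sqrt y ^ 3)⁻¹ :=
      inv_anti₀ (by positivity) (pow_le_pow_left₀ hs.le (Real.sqrt_le_sqrt (le_of_lt hr)) 3)
    have h5 : r = Real.sqrt r ^ 2 := (Real.sq_sqrt hr'.le).symm
    generalize Real.sqrt r = q at *
    subst h5
    calc q⁻¹ + ((q ^ 2) ^ 2)⁻¹ = (1 + (q ^ 3)⁻¹) * (q ^ 3)⁻¹ * q ^ 2 := by field_simp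
      _ ≤ _ := by gcongr
  have h3 := Ka_Th hN hC h hm
  refine (add_le_add (h1.trans (mul_le_mul_of_nonneg_left
    (sub_le_iff_le_add.1 h3) (abs_nonneg _))) h2).trans ?_
  rw [Ka_rpow5 hy]
  have hN2 : 1 ≤ N ^ 2 := one_le_pow₀ hN
  have hA : 0 ≤ C * N ^ 2 := by positivity
  have h5 : y = Real.sqrt y ^ 2 := (Real.sq_sqrt hy.le).symm
  have e1 : 20 * N ^ 2 * (1 + C) = 20 * N ^ 2 + 20 * (C * N ^ 2) := by ring
  rw [e1]
  generalize C * N ^ 2 = A at *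
  generalize N ^ 2 = B at *
  rcases le_total 1 y with hy1 | hy1
  · have hs1 : 1 ≤ Real.sqrt y := Real.one_le_sqrt.2 hy1
    have l1 : |Real.log y| ≤ y := by
      rw [abs_of_nonneg (Real.log_nonneg hy1)]
      linarith [Real.log_le_sub_one_of_pos hy]
    have i1 : (Real.sqrt y)⁻¹ ≤ 1 := inv_le_one_of_one_le₀ hs1
    have i3 : (Real.sqrt y ^ 3)⁻¹ ≤ 1 := inv_le_one_of_one_le₀ (one_le_pow₀ hs1)
    have i5 : 0 ≤ (Real.sqrt y ^ 5)⁻¹ := by positivity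
    have b1 : A * (1 + (Real.sqrt y ^ 3)⁻¹) * (2 * (Real.sqrt y)⁻¹) ≤ A * (1 + 1) * (2 * y) := by
      gcongr
      exact i1.trans hy1
    rw [min_eq_left hy1, Real.sqrt_one, one_pow, inv_one]
    have b2 : |Real.log y| * (A * (1 + 1) + 1) ≤ y * (A * (1 + 1) + B) := by gcongr
    nlinarith [mul_nonneg hA i5, mul_nonneg hA hy.le, mul_nonneg (zero_le_one.trans hN2) i5,
      mul_nonneg (zero_le_one.trans hN2) hy.le]
  · have hs1 : Real.sqrt y ≤ 1 := Real.sqrt_le_one.2 hy1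
    have l1 : |Real.log y| ≤ 2 * (Real.sqrt y)⁻¹ := by
      have l2 := Real.log_le_sub_one_of_pos (inv_pos.2 hs)
      rw [Real.log_inv, Real.log_sqrt hy.le] at l2
      rw [abs_of_nonpos (Real.log_nonpos hy.le hy1)]
      linarith
    rw [min_eq_right hy1]
    generalize |Real.log y| = L at *
    generalize Real.sqrt y = q at *
    subst h5
    have v1 : 1 ≤ q⁻¹ := (one_le_inv₀ hs).2 hs1
    simp only [← inv_pow]
    generalize q⁻¹ = v at *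
    have v0 : 0 ≤ v := zero_le_one.trans v1
    have p1 : v ≤ v ^ 4 := le_self_pow₀ v1 (by norm_num)
    have p2 : 1 ≤ v ^ 4 := one_le_pow₀ v1
    have p3 : 1 ≤ v ^ 4 * B := one_le_mul_of_one_le_of_one_le p2 hN2
    have p4 : v ^ 3 ≤ v ^ 4 := pow_le_pow_right₀ v1 (by norm_num)
    have b1 : A * (1 + v ^ 3) * (2 * v) ≤ A * (v ^ 4 + v ^ 4) * (2 * v) := by gcongr
    have b2 : L * (A * (v + (v ^ 2) ^ 2) + 1) ≤
        2 * v * (A * (v ^ 4 + (v ^ 2) ^ 2) + v ^ 4 * B) := by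
      refine mul_le_mul l1 (by gcongr) (by positivity) (by positivity)
    have v5 : 0 ≤ v ^ 5 := by positivity
    nlinarith [mul_nonneg hA v5, mul_nonneg hA (sq_nonneg q),
      mul_nonneg (zero_le_one.trans hN2) v5, mul_nonneg (zero_le_one.trans hN2) (sq_nonneg q)]

namespace Par

variable (P : Par)

theorem det_eq_Q {X : MZ} (h : P.InL X) : (X.det : P.D) = P.Q (P.kap X) := by
  obtain ⟨⟨b, hb⟩, ⟨c, hc⟩, ⟨e, he⟩⟩ := h
  have h3 : (P.p : P.D) * P.p = 0 := by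
    have := ZMod.natCast_self (P.p ^ 2)
    rw [Nat.cast_pow] at this
    linear_combination this
  have he' : X 0 0 = P.p * e + P.m * X 1 1 := by linarith
  symm
  rw [Q_eq_iff, kap, Matrix.det_fin_two, hb, hc, he']
  push_cast
  linear_combination ((e : P.D) ^ 2 + 4 * P.m * b * c) * h3

theorem Ka_ind_le (k : P.D) (X : MZ) : ‖P.ind k X‖ ≤ 1 := by
  unfold ind
  split_ifs <;> simp

theorem Ka_norm_le (k : P.D) (X : MZ) (z : ℂ) : ‖P.ind k X * z‖ ≤ ‖z‖ := by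
  rw [norm_mul]
  exact mul_le_of_le_one_left (norm_nonneg _) (P.Ka_ind_le k X)

theorem Ka_cast (τ : ℂ) (X : MZ) :
    τ * X.det / P.p ^ 2 = τ * (((X.det : ℝ) / (P.p : ℝ) ^ 2 : ℝ) : ℂ) := by
  generalize X.det = D
  push_cast
  ring

theorem Ka_norm_ee (τ : ℍ) (X : MZ) : ‖ee (τ * X.det / P.p ^ 2)‖ =
    Real.exp (-(2 * Real.pi * X.det / (P.p : ℝ) ^ 2 * τ.im)) := by
  rw [norm_ee, P.Ka_cast, Complex.mul_im, Complex.ofReal_re, Complex.ofReal_im, coe_im]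
  congr 2
  ring

theorem Ka_norm_term (t₁ t₂ : ℍ) (τ : ℍ) (X : MZ) : ‖ee (τ * X.det / P.p ^ 2) *
    (Bf (0 < X.det ∨ X = 0) (4 * Real.pi * Rm X t₁ t₂ / P.p ^ 2) τ.im : ℝ)‖ =
      Real.exp (-(2 * Real.pi * X.det / (P.p : ℝ) ^ 2 * τ.im)) *
        |Bf (0 < X.det ∨ X = 0) (4 * Real.pi * Rm X t₁ t₂ / P.p ^ 2) τ.im| := by
  rw [norm_mul, P.Ka_norm_ee, Complex.norm_real, Real.norm_eq_abs]

theorem Ka_T (k : P.D) (τ : ℍ) (X : MZ) (z : ℂ) :
    P.ind k X * (ee ((ModularGroup.T • τ : ℍ) * X.det / P.p ^ 2) * z) =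
      P.psi (P.Q k) * (P.ind k X * (ee (τ * X.det / P.p ^ 2) * z)) := by
  unfold ind
  split_ifs with h
  · rw [← h.2, ← P.det_eq_Q h.1, psi_int, coe_T_smul, add_mul, add_div, ee_add, one_mul, one_mul]
    ring
  · simp

theorem Ka_im_T (τ : ℍ) : (ModularGroup.T • τ : ℍ).im = τ.im := by
  rw [← coe_im, coe_T_smul]
  simp

theorem Ka_one_le : (1 : ℝ) ≤ (P.p : ℝ) ^ 2 :=
  one_le_pow₀ (by exact_mod_cast P.prime.one_le)

theorem summable_th (t₁ t₂ : ℍ) (k : P.D) (τ : ℍ) :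
    Summable fun X : MZ => ‖P.ind k X * (ee (τ * X.det / P.p ^ 2) *
      Real.exp (-(4 * Real.pi * τ.im * Rm X t₁ t₂ / P.p ^ 2)))‖ := by
  have hp := P.p_pos
  refine Summable.of_nonneg_of_le (fun X => norm_nonneg _) (fun X => ?_)
    (summable_Th t₁ t₂ (div_pos τ.im_pos (pow_pos hp 2)))
  refine (P.Ka_norm_le k X _).trans (le_of_eq ?_)
  rw [norm_mul, P.Ka_norm_ee, Complex.norm_real, Real.norm_eq_abs, abs_of_pos (Real.exp_pos _),
    ← Ka_exp_mul]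
  congr 3
  ring

theorem summable_ka (t₁ t₂ : ℍ) (k : P.D) (τ : ℍ) :
    Summable fun X : MZ => ‖P.ind k X * (ee (τ * X.det / P.p ^ 2) *
      Bf (0 < X.det ∨ X = 0) (4 * Real.pi * Rm X t₁ t₂ / P.p ^ 2) τ.im)‖ := by
  refine Summable.of_nonneg_of_le (fun X => norm_nonneg _) (fun X => ?_)
    (summable_Bf t₁ t₂ (pow_pos P.p_pos 2) τ.im_pos)
  exact (P.Ka_norm_le k X _).trans (P.Ka_norm_term t₁ t₂ τ X).le

theorem Ka_c1 (t₁ t₂ : ℍ) (k : P.D) : C1 (P.ka t₁ t₂ k) ∧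
    ∀ τ, db (P.ka t₁ t₂ k) τ = -(Complex.I / (2 * (τ.im : ℂ) ^ 2)) * P.th t₁ t₂ k τ := by
  have hN : (0 : ℝ) < (P.p : ℝ) ^ 2 := pow_pos P.p_pos 2
  have hpi := Real.pi_pos
  have : Countable MZ := inferInstanceAs (Countable (Fin 2 → Fin 2 → ℤ))
  have key := c1_tsum (a := fun X : MZ => P.ind k X) (n := fun X => (X.det : ℝ) / (P.p : ℝ) ^ 2)
    (φ := fun X => Bf (0 < X.det ∨ X = 0) (4 * Real.pi * Rm X t₁ t₂ / P.p ^ 2))
    (φ' := fun X y => -(Real.exp (-(4 * Real.pi * Rm X t₁ t₂ / P.p ^ 2 * y)) / y))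
    (fun X y hy => Bf_hasDerivAt _ (or_iff_not_imp_left.2 fun h => Ka_a_pos h t₁ t₂ hN) hy)
    (fun X => (Ka_cont _).neg) ?_
  · have e : P.ka t₁ t₂ k = fun τ : ℍ => ∑' X : MZ, P.ind k X *
        (ee (τ * (((X.det : ℝ) / (P.p : ℝ) ^ 2 : ℝ) : ℂ)) *
          (Bf (0 < X.det ∨ X = 0) (4 * Real.pi * Rm X t₁ t₂ / P.p ^ 2) τ.im : ℝ)) := by
      funext τ
      simp only [ka, P.Ka_cast]
    rw [e]
    refine ⟨key.1, fun τ => ?_⟩
    have h3 : (τ.im : ℂ) ≠ 0 := by exact_mod_cast τ.im_pos.ne'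
    rw [key.2, th, ← mul_assoc, ← tsum_mul_left, ← tsum_mul_left]
    refine tsum_congr fun X => ?_
    rw [P.Ka_cast, show 4 * Real.pi * τ.im * Rm X t₁ t₂ / P.p ^ 2 =
      4 * Real.pi * Rm X t₁ t₂ / P.p ^ 2 * τ.im by ring, Complex.ofReal_neg,
      Complex.ofReal_div (Real.exp _)]
    field_simp
  · intro y₁ y₂ hy
    obtain ⟨K, hK0, hK⟩ := Ka_unif t₁ t₂ hN hy y₂
    have hm : 0 < 2 * Real.pi * (min 1 y₁ / (P.p : ℝ) ^ 2) := by
      have := lt_min one_pos hy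
      positivity
    refine ⟨_, (summable_Mj_mul t₁ t₂ hm).mul_left (K + y₁⁻¹), fun X y h1 h2 => ?_⟩
    have hy' : 0 < y := hy.trans_le h1
    have hM := Ka_Mj_nonneg X t₁ t₂
    have e1 : 2 * Real.pi * ((X.det : ℝ) / (P.p : ℝ) ^ 2) * y =
        2 * Real.pi * X.det / (P.p : ℝ) ^ 2 * y := by ring
    have b1 := hK X y h1 h2
    have b2 : |(X.det : ℝ) / (P.p : ℝ) ^ 2| ≤ Mj X t₁ t₂ := by
      rw [abs_div, abs_of_pos hN]
      exact (div_le_self (abs_nonneg _) P.Ka_one_le).trans (abs_det_le_Mj X t₁ t₂)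
    have b3 : Real.exp (-(2 * Real.pi * X.det / (P.p : ℝ) ^ 2 * y)) *
        |-(Real.exp (-(4 * Real.pi * Rm X t₁ t₂ / P.p ^ 2 * y)) / y)| ≤
        y₁⁻¹ * Real.exp (-(2 * Real.pi * (min 1 y₁ / (P.p : ℝ) ^ 2) * Mj X t₁ t₂)) := by
      rw [abs_neg, abs_of_pos (by positivity), ← mul_div_assoc, Ka_exp_mul, div_eq_inv_mul]
      exact mul_le_mul (inv_anti₀ hy h1) (Ka_mono X t₁ t₂ hN ((min_le_right _ _).trans h1))
        (Real.exp_pos _).le (by positivity)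
    have b4 := P.Ka_ind_le k X
    have b5 := norm_nonneg (P.ind k X)
    have b6 := inv_pos.2 hy
    simp only [e1]
    have c1 := Real.exp_pos (-(2 * Real.pi * X.det / (P.p : ℝ) ^ 2 * y))
    have c2 := Real.exp_pos (-(2 * Real.pi * (min 1 y₁ / (P.p : ℝ) ^ 2) * Mj X t₁ t₂))
    have c3 := abs_nonneg (Bf (0 < X.det ∨ X = 0) (4 * Real.pi * Rm X t₁ t₂ / P.p ^ 2) y)
    have c4 := abs_nonneg (-(Real.exp (-(4 * Real.pi * Rm X t₁ t₂ / P.p ^ 2 * y)) / y))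
    have c5 := abs_nonneg ((X.det : ℝ) / (P.p : ℝ) ^ 2)
    generalize Real.exp (-(2 * Real.pi * X.det / (P.p : ℝ) ^ 2 * y)) = E at *
    generalize Real.exp (-(2 * Real.pi * (min 1 y₁ / (P.p : ℝ) ^ 2) * Mj X t₁ t₂)) = G at *
    generalize |Bf (0 < X.det ∨ X = 0) (4 * Real.pi * Rm X t₁ t₂ / P.p ^ 2) y| = b at *
    generalize |-(Real.exp (-(4 * Real.pi * Rm X t₁ t₂ / P.p ^ 2 * y)) / y)| = d at *
    generalize |(X.det : ℝ) / (P.p : ℝ) ^ 2| = n at *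
    generalize Mj X t₁ t₂ = M at *
    calc _ ≤ 1 * E * ((1 + M) * b + d) := by gcongr
      _ = (1 + M) * (E * b) + 1 * (E * d) := by ring
      _ ≤ (1 + M) * (K * G) + (1 + M) * (y₁⁻¹ * G) := by
        gcongr
        linarith
      _ = _ := by ring

theorem th_continuous (t₁ t₂ : ℍ) (k : P.D) : Continuous (P.th t₁ t₂ k) := by
  obtain ⟨h1, h2⟩ := P.Ka_c1 t₁ t₂ k
  have e : P.th t₁ t₂ k = fun τ => 2 * (τ.im : ℂ) ^ 2 * Complex.I * db (P.ka t₁ t₂ k) τ := by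
    funext τ
    have h3 : (τ.im : ℂ) ≠ 0 := by exact_mod_cast τ.im_pos.ne'
    rw [h2]
    field_simp
    rw [Complex.I_sq]
    ring
  rw [e]
  exact ((continuous_const.mul ((Complex.continuous_ofReal.comp
    UpperHalfPlane.continuous_im).pow 2)).mul continuous_const).mul h1.continuous_db

theorem th_T (t₁ t₂ : ℍ) (k : P.D) (τ : ℍ) :
    P.th t₁ t₂ k (ModularGroup.T • τ) = P.psi (P.Q k) * P.th t₁ t₂ k τ := by
  rw [th, th, Ka_im_T, mul_left_comm, ← tsum_mul_left (a := P.psi (P.Q k))]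
  congr 1
  exact tsum_congr fun X => P.Ka_T k τ X _

theorem ka_c1 (t₁ t₂ : ℍ) (k : P.D) : C1 (P.ka t₁ t₂ k) ∧
    ∀ τ, db (P.ka t₁ t₂ k) τ = -(Complex.I / (2 * (τ.im : ℂ) ^ 2)) * P.th t₁ t₂ k τ := by
  exact P.Ka_c1 t₁ t₂ k

theorem ka_T (t₁ t₂ : ℍ) (k : P.D) (τ : ℍ) :
    P.ka t₁ t₂ k (ModularGroup.T • τ) = P.psi (P.Q k) * P.ka t₁ t₂ k τ := by
  rw [ka, ka, Ka_im_T, ← tsum_mul_left]
  exact tsum_congr fun X => P.Ka_T k τ X _

theorem ka_I (t₁ t₂ : ℍ) (k : P.D) : 0 ≤ (P.ka t₁ t₂ k UpperHalfPlane.I).re := by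
  rw [ka, Complex.re_tsum (P.summable_ka t₁ t₂ k UpperHalfPlane.I).of_norm]
  refine tsum_nonneg fun X => ?_
  have e : ee ((UpperHalfPlane.I : ℍ) * X.det / P.p ^ 2) =
      (Real.exp (-(2 * Real.pi * (X.det / (P.p : ℝ) ^ 2))) : ℝ) := by
    rw [ee, Complex.ofReal_exp, coe_I]
    generalize X.det = D
    congr 1
    push_cast
    linear_combination (2 * Real.pi * (D / (P.p : ℂ) ^ 2)) * Complex.I_mul_I
  have hB : 0 ≤ Bf (0 < X.det ∨ X = 0) (4 * Real.pi * Rm X t₁ t₂ / P.p ^ 2)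
      (UpperHalfPlane.I : ℍ).im := by
    rw [UpperHalfPlane.I_im, Bf]
    split_ifs
    · simp
    · rw [Ka_tail one_pos]
      exact beta_nonneg _
  rw [e, ← Complex.ofReal_mul, ind]
  split_ifs
  · rw [one_mul, Complex.ofReal_re]
    exact mul_nonneg (Real.exp_pos _).le hB
  · simp

theorem ka_bound (t₁ t₂ : ℍ) : ∃ C : ℝ, 0 ≤ C ∧ ∀ k (τ : ℍ),
    ‖P.ka t₁ t₂ k τ‖ ≤ C * (τ.im + τ.im ^ (-(5 / 2) : ℝ)) := by
  obtain ⟨C, hC, h⟩ := Th_sub_one_le t₁ t₂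
  refine ⟨20 * ((P.p : ℝ) ^ 2) ^ 2 * (1 + C), by positivity, fun k τ => ?_⟩
  refine le_trans ?_ (tsum_Bf_le t₁ t₂ P.Ka_one_le τ.im_pos hC h)
  exact tsum_of_norm_bounded (summable_Bf t₁ t₂ (pow_pos P.p_pos 2) τ.im_pos).hasSum fun X =>
    (P.Ka_norm_le k X _).trans (P.Ka_norm_term t₁ t₂ τ X).le

end Par

theorem Ka_Rm_smul (n : ℤ) (X : MZ) (t₁ t₂ : ℍ) : Rm (n • X) t₁ t₂ = n ^ 2 * Rm X t₁ t₂ := by
  have e : (((n • X) 1 0 : ℤ) * t₁ + ((n • X) 1 1 : ℤ) : ℂ) * t₂ -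
      (((n • X) 0 0 : ℤ) * t₁ + ((n • X) 0 1 : ℤ)) =
      n * (((X 1 0 : ℂ) * t₁ + X 1 1) * t₂ - ((X 0 0 : ℂ) * t₁ + X 0 1)) := by
    simp only [Matrix.smul_apply, smul_eq_mul]
    push_cast
    ring
  rw [Rm, Rm, e, Complex.normSq_mul, Complex.normSq_intCast]
  ring

theorem Par.Ka_range (P : Par) {X : MZ} {z : P.F} (h : P.InL X) (hz : P.kap X = P.up z) :
    X ∈ Set.range fun X : MZ => (P.p : ℤ) • X := by
  obtain ⟨⟨b, hb⟩, ⟨c, hc⟩, h3⟩ := h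
  have h4 : (X 0 0 : P.F) + P.m * X 1 1 = 0 := by
    have := congrArg P.rd hz
    rwa [P.rd_up, Par.kap, map_add, map_mul, P.rd_int, P.rd_int, P.rd_int] at this
  have h5 : (X 0 0 : P.F) - P.m * X 1 1 = 0 := by
    have := (ZMod.intCast_zmod_eq_zero_iff_dvd _ _).2 h3
    push_cast at this
    exact this
  have h6 : (X 0 0 : P.F) = 0 :=
    (mul_eq_zero.1 (by linear_combination h4 + h5 : (2 : P.F) * X 0 0 = 0)).resolve_left P.two_ne
  have h7 : (X 1 1 : P.F) = 0 :=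
    (mul_eq_zero.1 (by linear_combination h4 - h6 : (P.m : P.F) * X 1 1 = 0)).resolve_left P.m_ne
  obtain ⟨a, ha⟩ := (ZMod.intCast_zmod_eq_zero_iff_dvd _ _).1 h6
  obtain ⟨d, hd⟩ := (ZMod.intCast_zmod_eq_zero_iff_dvd _ _).1 h7
  refine ⟨!![a, b; c, d], ?_⟩
  ext i j
  fin_cases i <;> fin_cases j <;> simp [ha, hb, hc, hd]

/-- The sum over the isotropic classes is a sum of level one. -/
theorem ka_one_bound : ∃ C : ℝ, 0 ≤ C ∧ ∀ (P : Par) (g : SL(2, ℤ)) (t₁ t₂ : ℍ), 1 / 2 ≤ t₁.im →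
    1 / 2 ≤ t₂.im → ∀ τ : ℍ, ‖∑ z, P.ka (g • t₁) t₂ (P.up z) τ‖ ≤
      C * (t₁.im + t₂.im) * (τ.im + τ.im ^ (-(5 / 2) : ℝ)) := by
  obtain ⟨C, hC, h⟩ := Th_sub_one_le_fd
  refine ⟨20 * (1 + C), by positivity, fun P g t₁ t₂ h1 h2 τ => ?_⟩
  have hy := τ.im_pos
  have hs : 1 ≤ t₁.im + t₂.im := by linarith
  have hb := tsum_Bf_le (g • t₁) t₂ le_rfl hy (C := C * (t₁.im + t₂.im)) (by positivity)
    fun r hr => by
      rw [Th_smul_left]
      exact h t₁ t₂ h1 h2 r hr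
  have hW : 0 ≤ τ.im + τ.im ^ (-(5 / 2) : ℝ) := by positivity
  refine le_trans ?_ (hb.trans (mul_le_mul_of_nonneg_right (by nlinarith) hW))
  set F : MZ → ℝ := fun X => Real.exp (-(2 * Real.pi * X.det / (P.p : ℝ) ^ 2 * τ.im)) *
    |Bf (0 < X.det ∨ X = 0) (4 * Real.pi * Rm X (g • t₁) t₂ / P.p ^ 2) τ.im| with hF
  have hFs : Summable F := summable_Bf (g • t₁) t₂ (pow_pos P.p_pos 2) hy
  have hp0 : (P.p : ℤ) ≠ 0 := by exact_mod_cast P.prime.ne_zero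
  have hinj : Function.Injective fun X : MZ => (P.p : ℤ) • X := smul_right_injective MZ hp0
  have e1 := hinj.tsum_eq (f := (Set.range fun X : MZ => (P.p : ℤ) • X).indicator F)
    Set.support_indicator_subset
  have e2 : ∀ X : MZ, (Set.range fun X : MZ => (P.p : ℤ) • X).indicator F ((P.p : ℤ) • X) =
      Real.exp (-(2 * Real.pi * X.det / 1 * τ.im)) *
        |Bf (0 < X.det ∨ X = 0) (4 * Real.pi * Rm X (g • t₁) t₂ / 1) τ.im| := by
    intro X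
    have hp := P.p_pos
    have d1 : ((P.p : ℤ) • X).det = (P.p : ℤ) ^ 2 * X.det := by
      rw [Matrix.det_smul, Fintype.card_fin]
    have d2 : (0 < ((P.p : ℤ) • X).det ∨ (P.p : ℤ) • X = 0) = (0 < X.det ∨ X = 0) := by
      rw [d1, mul_pos_iff_of_pos_left (by positivity), smul_eq_zero_iff_right hp0]
    rw [Set.indicator_of_mem (Set.mem_range_self X), hF]
    simp only [d2]
    rw [d1, Ka_Rm_smul]
    generalize X.det = D
    have a1 : 2 * Real.pi * (((P.p : ℤ) ^ 2 * D : ℤ) : ℝ) / (P.p : ℝ) ^ 2 =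
        2 * Real.pi * D / 1 := by
      push_cast
      field_simp
    have a2 : 4 * Real.pi * (((P.p : ℤ) : ℝ) ^ 2 * Rm X (g • t₁) t₂) / (P.p : ℝ) ^ 2 =
        4 * Real.pi * Rm X (g • t₁) t₂ / 1 := by
      push_cast
      field_simp
    rw [a1, a2]
  rw [← tsum_congr e2, e1]
  simp only [Par.ka]
  rw [← Summable.tsum_finsetSum fun z _ => (P.summable_ka (g • t₁) t₂ (P.up z) τ).of_norm]
  refine tsum_of_norm_bounded (hFs.indicator _).hasSum fun X => ?_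
  rw [← Finset.sum_mul, norm_mul, P.Ka_norm_term]
  by_cases hX : ∃ z, P.InL X ∧ P.kap X = P.up z
  · obtain ⟨z, hz⟩ := hX
    rw [Set.indicator_of_mem (P.Ka_range hz.1 hz.2), Finset.sum_eq_single z]
    · rw [Par.ind, if_pos hz, norm_one, one_mul]
    · intro w _ hw
      rw [Par.ind, if_neg fun h3 => hw (P.up_injective (h3.2.symm.trans hz.2))]
    · simp
  · rw [Finset.sum_eq_zero fun z _ => by rw [Par.ind, if_neg fun h3 => hX ⟨z, h3⟩], norm_zero,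
      zero_mul]
    exact Set.indicator_nonneg (fun Y _ => by positivity) X

end

end Pool.Agent.P.MP_a60a76_nt.Sz
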