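import Pool.Agent.P.MP_a60a76_nt.Sz.EisB

namespace Pool.Agent.P.MP_a60a76_nt.Sz

open UpperHalfPlane MeasureTheory SP
open scoped MatrixGroups UpperHalfPlane Matrix Modular Topology Classical ArithmeticFunction.sigma

noncomputable section

/-! Closure properties of the module of input forms. -/

theorem NClo_sum {N : ℤ} (hN : 0 < N) (b a : ℤ → ℤ) (L L' l ν : ℤ)
    (ha : ∀ μ < -l, a μ = 0) (h : ν + l ≤ N * L') :
    ∑ μ ∈ Finset.Icc (N * L) (ν - -l), (if N ∣ μ then b (μ / N) else 0) * a (ν - μ) =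
      ∑ n ∈ Finset.Icc L L', b n * a (ν - N * n) := by
  symm
  refine Finset.sum_bij_ne_zero (fun n _ _ => N * n) ?_ ?_ ?_ ?_
  · intro n hn hne
    rw [Finset.mem_Icc] at hn ⊢
    refine ⟨mul_le_mul_of_nonneg_left hn.1 hN.le, ?_⟩
    by_contra hlt
    exact right_ne_zero_of_mul hne (ha _ (by omega))
  · intro n _ _ n' _ _ e
    exact mul_left_cancel₀ hN.ne' e
  · intro μ hμ hne
    have hd : N ∣ μ := by
      by_contra h5
      exact left_ne_zero_of_mul hne (if_neg h5)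
    obtain ⟨n, rfl⟩ := hd
    rw [Finset.mem_Icc] at hμ
    rw [if_pos (dvd_mul_right _ _), Int.mul_ediv_cancel_left _ hN.ne'] at hne
    refine ⟨n, Finset.mem_Icc.2 ⟨le_of_mul_le_mul_left hμ.1 hN, le_of_mul_le_mul_left ?_ hN⟩,
      hne, rfl⟩
    omega
  · intro n _ _
    rw [if_pos (dvd_mul_right _ _), Int.mul_ediv_cancel_left _ hN.ne']

namespace Par

variable {P : Par} {c c' : P.D → ℤ → ℤ} {w : ℤ}

theorem isF_zero (w : ℤ) : P.IsF w 0 ∧ ∀ k τ, P.fn 0 k τ = 0 := by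
  have hq : ∀ k : P.D, QS (P.p ^ 2) (fun ν => (((0 : P.D → ℤ → ℤ) k ν : ℤ) : ℂ))
      ((fun _ _ => 0 : P.D → ℍ → ℂ) k) := fun k =>
    (QS.single (P.p ^ 2) 0 0).congr (fun ν => by simp) (fun τ => by simp)
  obtain ⟨h1, h2⟩ := isF_of (w := w) hq (fun k ν => rfl) (fun k ν h => absurd rfl h)
    (fun k τ => by simp [M])
  exact ⟨h1, fun k τ => by rw [h2]⟩

theorem IsF.add (h : P.IsF w c) (h' : P.IsF w c') :
    P.IsF w (c + c') ∧ ∀ k τ, P.fn (c + c') k τ = P.fn c k τ + P.fn c' k τ := by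
  have hq : ∀ k : P.D, QS (P.p ^ 2) (fun ν => (((c + c') k ν : ℤ) : ℂ))
      ((fun k τ => P.fn c k τ + P.fn c' k τ : P.D → ℍ → ℂ) k) := fun k =>
    ((h.qs k).add (h'.qs k)).congr (fun ν => by simp) (fun τ => rfl)
  obtain ⟨h1, h2⟩ := isF_of (w := w) hq
    (fun k ν => by simp only [Pi.add_apply, h.even, h'.even])
    (fun k ν hne => by
      by_cases h0 : c k ν = 0
      · refine h'.supp k ν fun h1 => hne ?_
        simp only [Pi.add_apply, h0, h1, add_zero]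
      · exact h.supp k ν h0)
    (fun k τ => by rw [h.inv, h'.inv, M_add, mul_add])
  exact ⟨h1, fun k τ => by rw [h2]⟩

theorem IsF.zsmul (h : P.IsF w c) (n : ℤ) :
    P.IsF w (n • c) ∧ ∀ k τ, P.fn (n • c) k τ = n * P.fn c k τ := by
  have hq : ∀ k : P.D, QS (P.p ^ 2) (fun ν => (((n • c) k ν : ℤ) : ℂ))
      ((fun k τ => n * P.fn c k τ : P.D → ℍ → ℂ) k) := fun k =>
    ((h.qs k).const_mul n).congr (fun ν => by simp) (fun τ => rfl)
  obtain ⟨h1, h2⟩ := isF_of (w := w) hq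
    (fun k ν => by simp only [Pi.smul_apply, h.even])
    (fun k ν hne => h.supp k ν fun h1 => hne (by simp only [Pi.smul_apply, h1, smul_zero]))
    (fun k τ => by rw [h.inv, M_const_mul]; ring)
  exact ⟨h1, fun k τ => by rw [h2]⟩

theorem isF_oneI (P : Par) :
    P.IsF 0 P.oneI ∧ ∀ k τ, P.fn P.oneI k τ = if P.rd k = 0 then 1 else 0 := by
  have hq : ∀ k : P.D, QS (P.p ^ 2) (fun ν => ((P.oneI k ν : ℤ) : ℂ))
      ((fun k _ => if P.rd k = 0 then 1 else 0 : P.D → ℍ → ℂ) k) := fun k =>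
    (QS.single (P.p ^ 2) 0 (if P.rd k = 0 then 1 else 0)).congr
      (fun ν => by
        by_cases h1 : P.rd k = 0 <;> by_cases h2 : ν = 0 <;> simp [oneI, h1, h2])
      (fun τ => by simp [ee_zero])
  obtain ⟨h1, h2⟩ := isF_of (w := 0) hq
    (fun k ν => by simp only [oneI, map_neg, neg_eq_zero])
    (fun k ν hne => by
      by_cases h0 : P.rd k = 0 ∧ ν = 0
      · obtain ⟨z, rfl⟩ := P.exists_up h0.1
        rw [h0.2, Q_up]
        simp
      · exact absurd (if_neg h0) hne)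
    (fun k τ => by rw [M_oneI, zpow_zero, one_mul])
  exact ⟨h1, fun k τ => by rw [h2]⟩

/-- Multiplication by a form of level one. -/
theorem IsF.mul (h : P.IsF w c) {w' : ℤ} {b : ℤ → ℤ} {f : ℍ → ℂ}
    (hf : QS 1 (fun ν => (b ν : ℂ)) f) (hw : Wt w' f) {L : ℤ} (hL : ∀ ν < L, b ν = 0) :
    ∃ c', P.IsF (w + w') c' ∧ (∀ k τ, P.fn c' k τ = f τ * P.fn c k τ) ∧
      ∀ k ν, ∀ L' : ℤ, ν + P.lo c ≤ P.p ^ 2 * L' →
        c' k ν = ∑ n ∈ Finset.Icc L L', b n * c k (ν - P.p ^ 2 * n) := by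
  have hN : 0 < P.p ^ 2 := pow_pos P.prime.pos 2
  have hN' : (0 : ℤ) < (P.p : ℤ) ^ 2 := by exact_mod_cast hN
  let d : P.D → ℤ → ℤ := fun k ν => ∑ μ ∈ Finset.Icc ((P.p : ℤ) ^ 2 * L) (ν - -(P.lo c : ℤ)),
    (if (P.p : ℤ) ^ 2 ∣ μ then b (μ / (P.p : ℤ) ^ 2) else 0) * c k (ν - μ)
  have hd : ∀ k ν, ∀ L' : ℤ, ν + P.lo c ≤ P.p ^ 2 * L' →
      d k ν = ∑ n ∈ Finset.Icc L L', b n * c k (ν - P.p ^ 2 * n) := fun k ν L' hL' =>
    NClo_sum hN' b (c k) L L' (P.lo c) ν (h.lo_spec k) hL'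
  have hs := hf.scale hN
  rw [mul_one] at hs
  have hq : ∀ k : P.D, QS (P.p ^ 2) (fun ν => ((d k ν : ℤ) : ℂ))
      ((fun k τ => f τ * P.fn c k τ : P.D → ℍ → ℂ) k) := fun k => by
    refine (hs.mul (h.qs k) (L := (P.p : ℤ) ^ 2 * L) (L' := -(P.lo c : ℤ)) ?_ ?_).congr ?_
      (fun τ => rfl)
    · intro ν hν
      split_ifs with hdv
      · obtain ⟨n, rfl⟩ := hdv
        push_cast at hν ⊢
        rw [Int.mul_ediv_cancel_left _ hN'.ne', hL n (lt_of_mul_lt_mul_left hν hN'.le)]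
        simp
      · rfl
    · intro ν hν
      rw [h.lo_spec k ν hν]
      simp
    · intro ν
      simp only [d]
      push_cast
      rfl
  obtain ⟨h1, h2⟩ := isF_of (w := w + w') hq
    (fun k ν => by simp only [d, h.even])
    (fun k ν hne => by
      obtain ⟨μ, -, hμ⟩ := Finset.exists_ne_zero_of_sum_ne_zero hne
      have h3 := h.supp k _ (right_ne_zero_of_mul hμ)
      have h4 : (P.p : ℤ) ^ 2 ∣ μ := by
        by_contra h5
        exact left_ne_zero_of_mul hμ (if_neg h5)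
      have h5 : (μ : P.D) = 0 := (ZMod.intCast_zmod_eq_zero_iff_dvd μ _).2 (by exact_mod_cast h4)
      rw [← h3, Int.cast_sub, h5, sub_zero])
    (fun k τ => by
      rw [h.inv, hw.inv, M_const_mul, zpow_add₀ τ.ne_zero]
      ring)
  exact ⟨d, h1, fun k τ => by rw [h2], hd⟩

theorem IsF.mul_J (h : P.IsF 0 c) (m : ℕ) :
    ∃ c', P.IsF 0 c' ∧ ∀ k τ, P.fn c' k τ = J τ ^ m * P.fn c k τ := by
  obtain ⟨b, hb, hL, -⟩ := qz_J_pow m
  have hw : Wt 0 fun τ => J τ ^ m :=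
    ⟨fun τ => by simp only [SP.J_smul], fun τ => by simp only [SP.J_smul, zpow_zero, one_mul]⟩
  obtain ⟨d, h1, h2, -⟩ := h.mul hb hw hL
  exact ⟨d, by simpa using h1, h2⟩

theorem NClo_deriv_S (h : P.IsF 0 c) (k : P.D) (τ : ℍ) :
    Derivative.normalizedDerivOfComplex (P.fn c k) (ModularGroup.S • τ) =
      (τ : ℂ) ^ 2 * P.M (fun k' => Derivative.normalizedDerivOfComplex (P.fn c k') τ) k := by
  have hopen : IsOpen {z : ℂ | 0 < z.im} := isOpen_lt continuous_const Complex.continuous_im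
  have hD : ∀ (k' : P.D) (t : ℍ), HasDerivAt (P.fn c k' ∘ ofComplex)
      (_root_.deriv (P.fn c k' ∘ ofComplex) t) t := fun k' t =>
    ((h.hol k').differentiableAt (hopen.mem_nhds t.im_pos)).hasDerivAt
  have h0 := τ.ne_zero
  have h1 : HasDerivAt (fun z : ℂ => -z⁻¹) (((τ : ℂ) ^ 2)⁻¹) τ := by
    simpa using (hasDerivAt_inv h0).fun_neg
  have h2 := hD k (ModularGroup.S • τ)
  rw [coe_S_smul] at h2
  have h3 := HasDerivAt.comp (h := fun z : ℂ => -z⁻¹) (τ : ℂ) h2 h1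
  have h4 : HasDerivAt (fun z : ℂ => (P.p : ℂ)⁻¹ *
      ∑ k', P.psi (k * k' * (2 * (P.m : P.D))⁻¹) * (P.fn c k' ∘ ofComplex) z)
      ((P.p : ℂ)⁻¹ * ∑ k', P.psi (k * k' * (2 * (P.m : P.D))⁻¹) *
        _root_.deriv (P.fn c k' ∘ ofComplex) τ) τ :=
    (HasDerivAt.fun_sum fun k' _ => (hD k' τ).const_mul _).const_mul _
  have h5 : ((P.fn c k ∘ ofComplex) ∘ fun z : ℂ => -z⁻¹) =ᶠ[𝓝 (τ : ℂ)] fun z : ℂ => (P.p : ℂ)⁻¹ *
      ∑ k', P.psi (k * k' * (2 * (P.m : P.D))⁻¹) * (P.fn c k' ∘ ofComplex) z := by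
    filter_upwards [hopen.mem_nhds τ.im_pos] with z hz
    have e1 : ofComplex z = ⟨z, hz⟩ := ofComplex_apply_of_im_pos hz
    have e2 : ofComplex (-z⁻¹) = ModularGroup.S • (⟨z, hz⟩ : ℍ) := by
      rw [← ofComplex_apply (ModularGroup.S • (⟨z, hz⟩ : ℍ)), coe_S_smul]
    simp only [Function.comp_apply, e1, e2, h.inv, zpow_zero, one_mul, M]
  have h6 := (h4.congr_of_eventuallyEq h5).unique h3
  have h7 : P.M (fun k' => Derivative.normalizedDerivOfComplex (P.fn c k') τ) k =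
      (2 * Real.pi * Complex.I)⁻¹ * ((P.p : ℂ)⁻¹ * ∑ k', P.psi (k * k' * (2 * (P.m : P.D))⁻¹) *
        _root_.deriv (P.fn c k' ∘ ofComplex) τ) :=
    M_const_mul P _ (fun k' => _root_.deriv (P.fn c k' ∘ ofComplex) τ) k
  rw [h7, h6, Derivative.normalizedDerivOfComplex, coe_S_smul]
  field_simp

theorem IsF.deriv (h : P.IsF 0 c) : ∃ c', P.IsF 0 c' ∧ ∀ k τ, P.fn c' k τ =
    (P.p : ℂ) ^ 2 * (E4 τ * E6 τ / Dl τ) * Derivative.normalizedDerivOfComplex (P.fn c k) τ := by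
  have hN : 0 < P.p ^ 2 := pow_pos P.prime.pos 2
  have hp := P.p_ne
  have hq : ∀ k : P.D, QS (P.p ^ 2) (fun ν => (((fun k ν => ν * c k ν : P.D → ℤ → ℤ) k ν : ℤ) : ℂ))
      ((fun k τ => (P.p : ℂ) ^ 2 * Derivative.normalizedDerivOfComplex (P.fn c k) τ :
        P.D → ℍ → ℂ) k) := fun k =>
    (((h.qs k).deriv hN).const_mul ((P.p : ℂ) ^ 2)).congr
      (fun ν => by push_cast; field_simp) (fun τ => rfl)
  obtain ⟨h1, h2⟩ := isF_of (w := 2) hq (fun k ν => by simp only [h.even])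
    (fun k ν hne => h.supp k ν (right_ne_zero_of_mul hne))
    (fun k τ => by
      rw [M_const_mul, NClo_deriv_S h, zpow_ofNat]
      ring)
  obtain ⟨b, hb, hL, -⟩ := (qz_E4.mul qz_E6).mul qz_Dl_inv
  have hw : Wt (-2) fun τ => E4 τ * E6 τ * (Dl τ)⁻¹ := by
    refine ⟨fun τ => ?_, fun τ => ?_⟩
    · simp only [E4_smul, E6_smul, Dl_smul, dn_T, one_pow, one_mul]
    · have h0 := τ.ne_zero
      have h3 := Dl_ne_zero τ
      simp only [E4_smul, E6_smul, Dl_smul, dn_S, zpow_neg, zpow_ofNat]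
      field_simp
  obtain ⟨d, h3, h4, -⟩ := h1.mul hb hw hL
  refine ⟨d, by simpa using h3, fun k τ => ?_⟩
  rw [h4, h2, div_eq_mul_inv]
  ring

/-- The products of the Eisenstein vector with the gap forms. -/
theorem exists_pos_forms (P : Par) : ∃ (a : P.D → ℤ → ℤ) (b : ℕ → ℤ → ℤ) (c : ℕ → P.D → ℤ → ℤ),
    P.IsEis a ∧ (∀ n, 1 ≤ n → P.IsF 0 (c n) ∧ ∀ k (ν : ℤ), ν ≤ P.p ^ 2 →
      c n k ν = a k (ν + P.p ^ 2 * n) + b n 0 * a k ν + b n 1 * a k (ν - P.p ^ 2)) ∧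
    (∀ k τ, P.fn (c 1) k τ = E4 τ ^ 2 / Dl τ * P.fn a k τ) ∧
    ∀ η : ℝ, 0 < η → ∃ C : ℝ, ∀ n, 1 ≤ n →
      |(b n 0 : ℝ)| ≤ C * Real.exp (η * n) ∧ |(b n 1 : ℝ)| ≤ C * Real.exp (η * n) := by
  obtain ⟨a, ha⟩ := P.exists_isEis
  obtain ⟨f, b, hf, hf1, hb⟩ := exists_gap
  have hlo : P.lo a = 0 :=
    Nat.le_zero.1 (lo_le fun k ν hν => ha.neg k ν (by simpa using hν))
  have key : ∀ n : ℕ, ∃ d : P.D → ℤ → ℤ, 1 ≤ n → P.IsF 0 d ∧
      (∀ k τ, P.fn d k τ = f n τ * P.fn a k τ) ∧ ∀ k (ν : ℤ), ν ≤ P.p ^ 2 →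
        d k ν = a k (ν + P.p ^ 2 * n) + b n 0 * a k ν + b n 1 * a k (ν - P.p ^ 2) := by
    intro n
    by_cases hn : 1 ≤ n
    · obtain ⟨g1, g2, g3, g4⟩ := hf n hn
      obtain ⟨d, h1, h2, h3⟩ := ha.toIsF.mul g1 g2 (L := -n)
        (fun ν hν => g4 ν (by omega) hν.ne)
      refine ⟨d, fun _ => ⟨by simpa using h1, h2, fun k ν hν => ?_⟩⟩
      have hsub : ({-(n : ℤ), 0, 1} : Finset ℤ) ⊆ Finset.Icc (-(n : ℤ)) 1 := by
        intro x hx
        simp only [Finset.mem_insert, Finset.mem_singleton] at hx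
        rw [Finset.mem_Icc]
        omega
      rw [h3 k ν 1 (by rw [hlo]; simpa using hν), ← Finset.sum_subset hsub,
        Finset.sum_insert (by simp; omega), Finset.sum_pair (by norm_num), g3]
      · simp only [one_mul, mul_zero, sub_zero, mul_one, mul_neg, sub_neg_eq_add, add_assoc]
      · intro x hx hx'
        simp only [Finset.mem_insert, Finset.mem_singleton, not_or] at hx'
        rw [Finset.mem_Icc] at hx
        rw [g4 x (by omega) hx'.1, zero_mul]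
    · exact ⟨0, fun h => absurd h hn⟩
  choose d hd using key
  refine ⟨a, b, d, ha, fun n hn => ⟨(hd n hn).1, (hd n hn).2.2⟩, fun k τ => ?_, hb⟩
  rw [(hd 1 le_rfl).2.1, hf1]

theorem IsF0.add (h : P.IsF0 c) (h' : P.IsF0 c') :
    P.IsF0 (c + c') ∧ P.cp (c + c') = P.cp c + P.cp c' := by
  have e : P.cp (c + c') = P.cp c + P.cp c' := by
    simp only [cp, Pi.add_apply, neg_add]
  refine ⟨⟨(h.toIsF.add h'.toIsF).1, ?_, fun z hz => ?_⟩, e⟩
  · simp only [Pi.add_apply, h.zero, h'.zero, add_zero]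
  · simp only [e, Pi.add_apply, h.const z hz, h'.const z hz, neg_add]

theorem IsF0.zsmul (h : P.IsF0 c) (n : ℤ) : P.IsF0 (n • c) ∧ P.cp (n • c) = n * P.cp c := by
  have e : P.cp (n • c) = n * P.cp c := by
    simp only [cp, Pi.smul_apply, smul_eq_mul, mul_neg]
  refine ⟨⟨(h.toIsF.zsmul n).1, ?_, fun z hz => ?_⟩, e⟩
  · simp only [Pi.smul_apply, h.zero, smul_zero]
  · simp only [e, Pi.smul_apply, h.const z hz, smul_eq_mul, mul_neg]

/-- Cofinality of the principal parts. -/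
theorem cofinal (P : Par) (k : P.D) (ν : ℤ) (hν : 0 < ν) (hk : (ν : P.D) = P.Q k) :
    ∃ c, P.IsF0 c ∧ P.Pos c ∧ 0 < c k (-ν) := by
  obtain ⟨a, b, d, ha, hd, -, -⟩ := P.exists_pos_forms
  obtain ⟨n, hn, -, hpos⟩ := ha.pos k ν hk
  have hp : 0 < P.p := P.prime.pos
  have hp2 : (0 : ℤ) < (P.p : ℤ) ^ 2 := by positivity
  obtain ⟨m, rfl⟩ := Int.eq_ofNat_of_zero_le hn.le
  have hm : 1 ≤ P.p * m := Nat.mul_pos hp (by exact_mod_cast hn)
  obtain ⟨h1, h2⟩ := hd (P.p * m) hm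
  have e : (P.p : ℤ) ^ 2 * (P.p * m : ℕ) = m * P.p ^ 3 := by push_cast; ring
  rw [e] at h2
  have hneg : ∀ k' (μ : ℤ), μ < 0 →
      (d (P.p * m) + (-d (P.p * m) 0 0) • P.oneI) k' μ = a k' (μ + m * P.p ^ 3) := by
    intro k' μ hμ
    have h3 : P.oneI k' μ = 0 := if_neg fun h => hμ.ne h.2
    simp only [Pi.add_apply, Pi.smul_apply, h3, smul_zero, add_zero]
    rw [h2 k' μ (by omega), ha.neg k' μ hμ, ha.neg k' (μ - P.p ^ 2) (by omega)]
    simp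
  have hup : ∀ z : P.F, P.oneI (P.up z) 0 = 1 := fun z => if_pos ⟨P.rd_up z, rfl⟩
  refine ⟨d (P.p * m) + (-d (P.p * m) 0 0) • P.oneI,
    ⟨(h1.add (P.isF_oneI.1.zsmul _).1).1, ?_, fun z hz => ?_⟩, fun k' μ hμ => ?_, ?_⟩
  · have h3 := hup 0
    rw [up_zero] at h3
    simp only [Pi.add_apply, Pi.smul_apply, h3, smul_eq_mul, mul_one, add_neg_cancel]
  · have h3 := ha.same 0 z hz
    simp only [zero_mul] at h3
    simp only [cp, neg_neg, Pi.add_apply, Pi.smul_apply, hup]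
    rw [h2 (P.up z) 0 hp2.le, h2 (P.up 1) 0 hp2.le, zero_add, ha.same m z hz, h3,
      ha.neg (P.up z) (0 - P.p ^ 2) (by omega), ha.neg (P.up 1) (0 - P.p ^ 2) (by omega)]
  · rw [hneg k' μ hμ]
    exact ha.nonneg _ _
  · rw [hneg k (-ν) (by omega), neg_add_eq_sub]
    exact hpos

end Par

end

end Pool.Agent.P.MP_a60a76_nt.Sz
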