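import Pool.Agent.P.MP_a60a76_nt.Sz.Base

namespace Pool.Agent.P.MP_a60a76_nt.Sz

open UpperHalfPlane MeasureTheory SP
open scoped MatrixGroups UpperHalfPlane Matrix Modular Topology Classical ArithmeticFunction.sigma

noncomputable section

/-! The intertwining functions and the finite Fourier transform. -/

namespace Par

variable (P : Par)

theorem Weil_mul_eq_zero {a b : P.D} (ha : P.rd a = 0) (hb : P.rd b = 0) : a * b = 0 := by
  obtain ⟨z, rfl⟩ := P.exists_up ha
  rw [up_mul, hb, mul_zero, up_zero]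

theorem Weil_split {k k₀ : P.D} (h : P.rd k = P.rd k₀) : ∃ z, k = k₀ + P.up z := by
  obtain ⟨z, hz⟩ := P.exists_up (k := k - k₀) (by rw [map_sub, h, sub_self])
  exact ⟨z, by rw [← hz]; ring⟩

theorem Weil_rd_inv : 2 * P.rd P.m * P.rd (2 * (P.m : P.D))⁻¹ = 1 := by
  have h := congrArg P.rd P.two_m_mul
  rwa [map_mul, map_mul, map_one, map_ofNat] at h

theorem Weil_mul_inv_eq_zero (k : P.D) : k * (2 * (P.m : P.D))⁻¹ = 0 ↔ k = 0 := by
  constructor
  · intro h
    linear_combination (2 * (P.m : P.D)) * h - k * P.two_m_mul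
  · rintro rfl
    rw [zero_mul]

theorem Weil_rd_mul_inv_eq_zero (k : P.D) :
    P.rd (k * (2 * (P.m : P.D))⁻¹) = 0 ↔ P.rd k = 0 := by
  rw [map_mul]
  constructor
  · intro h
    linear_combination (2 * P.rd P.m) * h - P.rd k * P.Weil_rd_inv
  · intro h
    rw [h, zero_mul]

theorem Weil_cond (k d : P.D) :
    P.rd k = P.rd (2 * P.m * d) ↔ P.rd d = P.rd (k * (2 * (P.m : P.D))⁻¹) := by
  simp only [map_mul, map_ofNat]
  constructor
  · intro h
    linear_combination (-P.rd (2 * (P.m : P.D))⁻¹) * h - P.rd d * P.Weil_rd_inv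
  · intro h
    linear_combination (-2 * P.rd P.m) * h - P.rd k * P.Weil_rd_inv

theorem Weil_sum_psi_up (k : P.D) :
    ∑ z, P.psi (P.up z * k) = if P.rd k = 0 then (P.p : ℂ) else 0 := by
  simp only [up_mul, psi_up, sum_zp]

theorem Weil_sum_I (f : P.D → ℂ) :
    (∑ k, if P.rd k = 0 then f k else 0) = ∑ z, f (P.up z) := by
  have h := P.sum_fibre f 0
  simpa only [map_zero, zero_add] using h

theorem Weil_orth (k k'' : P.D) :
    ∑ k', P.psi (k * k' * (2 * (P.m : P.D))⁻¹) * P.psi (-(k' * k'' * (2 * (P.m : P.D))⁻¹)) =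
      if k'' = k then (P.p : ℂ) ^ 2 else 0 := by
  have h := P.sum_psi ((k - k'') * (2 * (P.m : P.D))⁻¹)
  simp only [P.Weil_mul_inv_eq_zero, sub_eq_zero] at h
  rw [if_congr eq_comm rfl rfl, ← h]
  refine Finset.sum_congr rfl fun k' _ => ?_
  rw [← psi_add]
  congr 1
  ring

theorem Weil_Mb_eq (x : P.D → ℂ) (k : P.D) : P.Mb x k = P.M x (-k) := by
  simp only [M, Mb, neg_mul]

theorem Weil_M_neg (x : P.D → ℂ) (k : P.D) : P.M (fun k' => x (-k')) k = P.M x (-k) := by
  simp only [M]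
  congr 1
  rw [← Equiv.sum_comp (Equiv.neg P.D)]
  simp only [Equiv.neg_apply, neg_neg, mul_neg, neg_mul]

theorem gg_T (k : P.D) (v : Fin 2 → P.D) :
    P.gg k (P.act ModularGroup.T v) = P.psi (P.Q k) * P.gg k v := by
  rw [act_T]
  simp only [gg, Matrix.cons_val_zero, Matrix.cons_val_one]
  split_ifs with h
  · obtain ⟨z, hz⟩ := P.Weil_split h
    have h0 : P.up z * P.up z = 0 := P.Weil_mul_eq_zero (P.rd_up z) (P.rd_up z)
    have hq : P.Q k = (k - P.m * v 1) * v 1 := by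
      rw [Q_eq_iff, hz]
      linear_combination h0
    rw [hq, ← psi_add]
    congr 1
    ring
  · rw [mul_zero]

theorem gg_S (k : P.D) (v : Fin 2 → P.D) :
    P.gg k (P.act ModularGroup.S v) = P.Mb (fun k' => P.gg k' v) k := by
  rw [act_S]
  simp only [gg, Mb, Matrix.cons_val_zero, Matrix.cons_val_one, mul_ite, mul_zero]
  rw [P.sum_fibre (fun k' => P.psi (-(k * k' * (2 * (P.m : P.D))⁻¹)) *
    P.psi ((k' - P.m * v 1) * v 0)) (2 * P.m * v 1)]
  have h1 : ∀ z : P.F, P.psi (-(k * (2 * P.m * v 1 + P.up z) * (2 * (P.m : P.D))⁻¹)) *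
      P.psi ((2 * P.m * v 1 + P.up z - P.m * v 1) * v 0) =
      P.psi ((k - P.m * v 0) * -v 1) *
        P.psi (P.up z * (v 0 - k * (2 * (P.m : P.D))⁻¹)) := by
    intro z
    rw [← psi_add, ← psi_add]
    congr 1
    linear_combination (-k * v 1) * P.two_m_mul
  simp only [h1]
  rw [← Finset.mul_sum, Weil_sum_psi_up, map_sub]
  simp only [sub_eq_zero, ← Weil_cond]
  split_ifs
  · field_simp [P.p_ne]
  · simp

theorem gg_neg (k : P.D) (v : Fin 2 → P.D) : P.gg k (-v) = P.gg (-k) v := by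
  simp only [gg, Pi.neg_apply, mul_neg, map_neg]
  refine if_congr ⟨fun h => by rw [h, neg_neg], fun h => by rw [← h, neg_neg]⟩ ?_ rfl
  congr 1
  ring

theorem conj_gg (k : P.D) (v : Fin 2 → P.D) :
    (starRingEnd ℂ) (P.gg k v) = P.gg k ![-v 0, v 1] := by
  simp only [gg, Matrix.cons_val_zero, Matrix.cons_val_one]
  split_ifs
  · rw [conj_psi, mul_neg]
  · exact map_zero _

theorem norm_gg_le (k : P.D) (v : Fin 2 → P.D) : ‖P.gg k v‖ ≤ 1 := by
  simp only [gg]
  split_ifs
  · exact (P.norm_psi _).le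
  · simp

theorem sum_gg_conj (k k' : P.D) :
    ∑ v, P.gg k v * (starRingEnd ℂ) (P.gg k' v) = if k = k' then (P.p : ℂ) ^ 3 else 0 := by
  rw [← Equiv.sum_comp (finTwoArrowEquiv P.D).symm, Fintype.sum_prod_type, Finset.sum_comm]
  have h1 : ∀ d : P.D, ∑ b : P.D, P.gg k ((finTwoArrowEquiv P.D).symm (b, d)) *
      (starRingEnd ℂ) (P.gg k' ((finTwoArrowEquiv P.D).symm (b, d))) =
      if k = k' then (if P.rd d = P.rd (k * (2 * (P.m : P.D))⁻¹) then (P.p : ℂ) ^ 2 else 0)
      else 0 := by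
    intro d
    simp only [← Weil_cond, conj_gg]
    simp only [gg, finTwoArrowEquiv_symm_apply, Matrix.cons_val_zero, Matrix.cons_val_one]
    by_cases h : P.rd k = P.rd (2 * P.m * d)
    · by_cases h' : P.rd k' = P.rd (2 * P.m * d)
      · simp only [h, h', if_true]
        have h2 := P.sum_psi (k - k')
        simp only [sub_eq_zero] at h2
        rw [← h2]
        refine Finset.sum_congr rfl fun b _ => ?_
        rw [← psi_add]
        congr 1
        ring
      · have h2 : k ≠ k' := fun e => h' (e ▸ h)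
        simp only [h', h2, if_false, mul_zero, Finset.sum_const_zero]
    · simp only [h, if_false, zero_mul, Finset.sum_const_zero, ite_self]
  simp only [h1]
  split_ifs
  · rw [P.sum_fibre (fun _ => (P.p : ℂ) ^ 2)]
    simp only [Finset.sum_const, Finset.card_univ, ZMod.card, nsmul_eq_mul]
    ring
  · exact Finset.sum_const_zero

theorem sum_gg_up (v : Fin 2 → P.D) :
    ∑ z, P.gg (P.up z) v = if P.rd (v 0) = 0 ∧ P.rd (v 1) = 0 then (P.p : ℂ) else 0 := by
  simp only [gg, rd_up]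
  by_cases h1 : P.rd (v 1) = 0
  · have h2 : (0 : P.F) = P.rd (2 * P.m * v 1) := by rw [map_mul, h1, mul_zero]
    have h3 : ∀ z : P.F, P.psi ((P.up z - P.m * v 1) * v 0) =
        P.psi (-(P.m * (v 1 * v 0))) * P.psi (P.up z * v 0) := by
      intro z
      rw [← psi_add]
      congr 1
      ring
    simp only [if_pos h2, h3, h1, and_true]
    rw [← Finset.mul_sum, Weil_sum_psi_up]
    split_ifs with h0
    · rw [P.Weil_mul_eq_zero h1 h0, mul_zero, neg_zero, psi_zero, one_mul]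
    · rw [mul_zero]
  · have h2 : ¬ (0 : P.F) = P.rd (2 * P.m * v 1) := by
      rw [map_mul, map_mul, map_ofNat, rd_int]
      exact (mul_ne_zero (mul_ne_zero P.two_ne P.m_ne) h1).symm
    simp only [if_neg h2, h1, and_false, if_false, Finset.sum_const_zero]

theorem gg_of_rd {v : Fin 2 → P.D} (h0 : P.rd (v 0) = 0) (h1 : P.rd (v 1) = 0) (k : P.D) :
    P.gg k v = if P.rd k = 0 then 1 else 0 := by
  have h2 : P.rd (2 * P.m * v 1) = 0 := by rw [map_mul, h1, mul_zero]
  simp only [gg, h2]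
  split_ifs with h
  · rw [P.Weil_mul_eq_zero (by rw [map_sub, map_mul, h, h1, mul_zero, sub_zero]) h0, psi_zero]
  · rfl

theorem M_Mb (x : P.D → ℂ) : P.M (P.Mb x) = x := by
  funext k
  simp only [M, Mb, Finset.mul_sum]
  rw [Finset.sum_comm]
  have h1 : ∀ k'' : P.D, ∑ k' : P.D, (P.p : ℂ)⁻¹ * (P.psi (k * k' * (2 * (P.m : P.D))⁻¹) *
      ((P.p : ℂ)⁻¹ * (P.psi (-(k' * k'' * (2 * (P.m : P.D))⁻¹)) * x k''))) =
      if k'' = k then x k'' else 0 := by
    intro k''
    have h2 := P.Weil_orth k k''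
    calc _ = ((P.p : ℂ) ^ 2)⁻¹ * x k'' * ∑ k', P.psi (k * k' * (2 * (P.m : P.D))⁻¹) *
          P.psi (-(k' * k'' * (2 * (P.m : P.D))⁻¹)) := by
          rw [Finset.mul_sum]
          exact Finset.sum_congr rfl fun k' _ => by ring
      _ = _ := by
          rw [h2]
          split_ifs
          · field_simp [P.p_ne]
          · rw [mul_zero]
  simp only [h1, Finset.sum_ite_eq', Finset.mem_univ, if_true]

theorem Mb_M (x : P.D → ℂ) : P.Mb (P.M x) = x := by
  funext k
  have h1 : P.M x = P.Mb fun k' => x (-k') := by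
    funext k'
    rw [Weil_Mb_eq, Weil_M_neg, neg_neg]
  rw [Weil_Mb_eq, h1, M_Mb, neg_neg]

theorem Mb_eq (x : P.D → ℂ) (k : P.D) : P.Mb x k = P.M x (-k) := by
  exact P.Weil_Mb_eq x k

theorem M_neg (x : P.D → ℂ) (k : P.D) : P.M (fun k' => x (-k')) k = P.M x (-k) := by
  exact P.Weil_M_neg x k

theorem M_even {x : P.D → ℂ} (h : ∀ k, x (-k) = x k) (k : P.D) : P.M x (-k) = P.M x k := by
  rw [← M_neg]
  simp only [h]

theorem M_M {x : P.D → ℂ} (h : ∀ k, x (-k) = x k) : P.M (P.M x) = x := by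
  have h1 : P.M x = P.Mb x := by
    funext k
    rw [Mb_eq, P.M_even h]
  conv_lhs => rw [h1]
  exact P.M_Mb x

theorem sum_M_mul (x y : P.D → ℂ) : ∑ k, P.M x k * y k = ∑ k, x k * P.M y k := by
  simp only [M, Finset.mul_sum, Finset.sum_mul]
  rw [Finset.sum_comm]
  refine Finset.sum_congr rfl fun k _ => Finset.sum_congr rfl fun k' _ => ?_
  rw [mul_comm k k']
  ring

theorem sum_Mb_mul (x y : P.D → ℂ) : ∑ k, P.Mb x k * y k = ∑ k, x k * P.Mb y k := by
  simp only [Mb, Finset.mul_sum, Finset.sum_mul]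
  rw [Finset.sum_comm]
  refine Finset.sum_congr rfl fun k _ => Finset.sum_congr rfl fun k' _ => ?_
  rw [mul_comm k k']
  ring

theorem sum_M_Mb (x y : P.D → ℂ) : ∑ k, P.M x k * P.Mb y k = ∑ k, x k * y k := by
  rw [sum_M_mul, M_Mb]

theorem conj_M (x : P.D → ℂ) (k : P.D) :
    (starRingEnd ℂ) (P.M x k) = P.Mb (fun k' => (starRingEnd ℂ) (x k')) k := by
  simp only [M, Mb, map_mul, map_sum, conj_psi, map_inv₀, map_natCast]

theorem conj_Mb (x : P.D → ℂ) (k : P.D) :
    (starRingEnd ℂ) (P.Mb x k) = P.M (fun k' => (starRingEnd ℂ) (x k')) k := by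
  simp only [M, Mb, map_mul, map_sum, conj_psi, map_inv₀, map_natCast, neg_neg]

theorem M_add (x y : P.D → ℂ) (k : P.D) :
    P.M (fun k' => x k' + y k') k = P.M x k + P.M y k := by
  simp only [M, mul_add, Finset.sum_add_distrib]

theorem M_const_mul (a : ℂ) (x : P.D → ℂ) (k : P.D) :
    P.M (fun k' => a * x k') k = a * P.M x k := by
  simp only [M, Finset.mul_sum]
  exact Finset.sum_congr rfl fun k' _ => by ring

theorem Mb_const_mul (a : ℂ) (x : P.D → ℂ) (k : P.D) :
    P.Mb (fun k' => a * x k') k = a * P.Mb x k := by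
  simp only [Mb, Finset.mul_sum]
  exact Finset.sum_congr rfl fun k' _ => by ring

theorem M_oneI (k : P.D) :
    P.M (fun k' => if P.rd k' = 0 then 1 else 0) k = if P.rd k = 0 then 1 else 0 := by
  simp only [M, mul_ite, mul_one, mul_zero]
  rw [P.Weil_sum_I fun k' => P.psi (k * k' * (2 * (P.m : P.D))⁻¹)]
  have h1 : ∀ z : P.F, k * P.up z * (2 * (P.m : P.D))⁻¹ =
      P.up z * (k * (2 * (P.m : P.D))⁻¹) := fun z => by ring
  simp only [h1]
  rw [Weil_sum_psi_up]
  simp only [Weil_rd_mul_inv_eq_zero]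
  split_ifs
  · exact inv_mul_cancel₀ P.p_ne
  · rw [mul_zero]

theorem M_delta (k : P.D) : P.M (fun k' => if k' = 0 then 1 else 0) k = (P.p : ℂ)⁻¹ := by
  simp only [M, mul_ite, mul_one, mul_zero, Finset.sum_ite_eq', Finset.mem_univ, if_true,
    zero_mul, psi_zero]

theorem M_one (k : P.D) : P.M (fun _ => 1) k = if k = 0 then (P.p : ℂ) else 0 := by
  simp only [M, mul_one]
  have h1 : ∀ k' : P.D, k * k' * (2 * (P.m : P.D))⁻¹ =
      k' * (k * (2 * (P.m : P.D))⁻¹) := fun z => by ring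
  simp only [h1]
  rw [sum_psi]
  simp only [Weil_mul_inv_eq_zero]
  split_ifs
  · field_simp [P.p_ne]
  · rw [mul_zero]

/-- A function supported on the isotropic subgroup together with its transform is constant. -/
theorem const_of_supp {x : P.D → ℂ} (h : ∀ k, P.rd k ≠ 0 → x k = 0)
    (h' : ∀ k, P.rd k ≠ 0 → P.M x k = 0) (z : P.F) : x (P.up z) = x 0 := by
  have _ := h
  have h1 : ∀ k, P.rd k = 0 → x k = (P.p : ℂ)⁻¹ * ∑ k', P.M x k' := by
    intro k hk
    conv_lhs => rw [← P.Mb_M x]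
    rw [Mb]
    congr 1
    refine Finset.sum_congr rfl fun k' _ => ?_
    by_cases h2 : P.rd k' = 0
    · rw [P.Weil_mul_eq_zero hk h2, zero_mul, neg_zero, psi_zero, one_mul]
    · rw [h' k' h2, mul_zero]
  rw [h1 _ (P.rd_up z), h1 0 (map_zero _)]

/-- Transform of the restriction to the isotropic subgroup. -/
theorem M_restrict (x : P.D → ℂ) (k : P.D) :
    P.M (fun k' => if P.rd k' = 0 then P.Mb x k' else 0) k =
      (P.p : ℂ)⁻¹ * ∑ z, x (k + P.up z) := by
  rw [M]
  congr 1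
  simp only [mul_ite, mul_zero]
  rw [P.Weil_sum_I fun k' => P.psi (k * k' * (2 * (P.m : P.D))⁻¹) * P.Mb x k',
    ← P.sum_fibre x k]
  simp only [Mb, Finset.mul_sum]
  rw [Finset.sum_comm]
  refine Finset.sum_congr rfl fun k'' _ => ?_
  have h2 := P.Weil_sum_psi_up ((k - k'') * (2 * (P.m : P.D))⁻¹)
  simp only [Weil_rd_mul_inv_eq_zero, map_sub, sub_eq_zero] at h2
  calc _ = (P.p : ℂ)⁻¹ * x k'' * ∑ z, P.psi (P.up z * ((k - k'') * (2 * (P.m : P.D))⁻¹)) := by
        rw [Finset.mul_sum]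
        refine Finset.sum_congr rfl fun z _ => ?_
        have h3 : P.psi (P.up z * ((k - k'') * (2 * (P.m : P.D))⁻¹)) =
            P.psi (k * P.up z * (2 * (P.m : P.D))⁻¹) *
              P.psi (-(P.up z * k'' * (2 * (P.m : P.D))⁻¹)) := by
          rw [← psi_add]
          congr 1
          ring
        rw [h3]
        ring
    _ = _ := by
        rw [h2, if_congr eq_comm rfl rfl]
        split_ifs
        · field_simp [P.p_ne]
        · rw [mul_zero]

/-- Square roots lift. -/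
theorem exists_sq {a : P.D} (h : IsSquare (P.rd a)) (h0 : P.rd a ≠ 0) :
    ∃ k : P.D, k ^ 2 = a ∧ P.rd k ≠ 0 := by
  obtain ⟨r, hr⟩ := h
  have hr0 : r ≠ 0 := fun e => h0 (by rw [hr, e, mul_zero])
  have hx : P.rd (r.val : P.D) = r := by rw [map_natCast, ZMod.natCast_zmod_val]
  obtain ⟨w, hw⟩ := P.Weil_split (k := a) (k₀ := (r.val : P.D) * (r.val : P.D))
    (by rw [map_mul, hx, hr])
  refine ⟨(r.val : P.D) + P.up (w / (2 * r)), ?_, by rw [map_add, rd_up, add_zero, hx]; exact hr0⟩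
  have h1 : P.up (w / (2 * r)) * P.up (w / (2 * r)) = 0 :=
    P.Weil_mul_eq_zero (P.rd_up _) (P.rd_up _)
  have h2 : P.up (w / (2 * r)) * (2 * (r.val : P.D)) = P.up w := by
    rw [up_mul, map_mul, map_ofNat, hx, div_mul_cancel₀ _ (mul_ne_zero P.two_ne hr0)]
  rw [hw]
  linear_combination h1 + h2

end Par

end

end Pool.Agent.P.MP_a60a76_nt.Sz
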