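import Pool.Agent.P.MP_a60a76_nt.Sz.Maj
import Pool.Agent.P.MP_a60a76_nt.Sz.Weil

namespace Pool.Agent.P.MP_a60a76_nt.Sz

open UpperHalfPlane MeasureTheory SP
open scoped MatrixGroups UpperHalfPlane Matrix Modular Topology Classical ArithmeticFunction.sigma

noncomputable section

/-! Poisson summation in the first row. -/

theorem Poi_gauss {a : ℂ} (ha : 0 < a.re) (b : ℂ) :
    Summable fun n : ℤ => ‖Complex.exp (-Real.pi * a * n ^ 2 + 2 * Real.pi * b * n)‖ := by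
  have h := (summable_jacobiTheta₂_term_iff (-Complex.I * b) (Complex.I * a)).2 (by simpa using ha)
  rw [summable_norm_iff]
  refine h.congr fun n => ?_
  rw [jacobiTheta₂_term]
  congr 1
  linear_combination (-2 * Real.pi * n * b + Real.pi * n ^ 2 * a) * Complex.I_sq

theorem Poi_one {A : ℝ} (hA : 0 < A) (b : ℂ) :
    (∑' n : ℤ, Complex.exp (-Real.pi * A * n ^ 2 + 2 * Real.pi * b * n)) =
      ((Real.sqrt A)⁻¹ : ℝ) * ∑' n : ℤ, Complex.exp (-Real.pi / A * (n + Complex.I * b) ^ 2) := by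
  rw [Complex.tsum_exp_neg_quadratic (by simpa using hA)]
  congr 1
  rw [Real.sqrt_eq_rpow, Complex.ofReal_inv, Complex.ofReal_cpow hA.le, one_div]
  norm_num

theorem Poi_two {A B : ℝ} (hA : 0 < A) (hB : 0 < B) (x : ℝ) (u v : ℂ) :
    (∑' n : ℤ, ∑' l : ℤ, Complex.exp (-Real.pi * A * (l + x * n) ^ 2 - Real.pi * B * n ^ 2 +
        2 * Real.pi * u * l + 2 * Real.pi * v * n)) =
      ((Real.sqrt A)⁻¹ * (Real.sqrt B)⁻¹ : ℝ) * ∑' l : ℤ, ∑' n : ℤ,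
        Complex.exp (-Real.pi / A * (l + Complex.I * u) ^ 2 -
          Real.pi / B * (n + Complex.I * v - x * (l + Complex.I * u)) ^ 2) := by
  have hA' : (A : ℂ) ≠ 0 := by exact_mod_cast hA.ne'
  have h1 : ∀ n : ℤ, (∑' l : ℤ, Complex.exp (-Real.pi * A * (l + x * n) ^ 2 - Real.pi * B * n ^ 2 +
        2 * Real.pi * u * l + 2 * Real.pi * v * n)) = ((Real.sqrt A)⁻¹ : ℝ) * ∑' l : ℤ,
        Complex.exp (-Real.pi / A * (l + Complex.I * u) ^ 2) * Complex.exp (-Real.pi * B * n ^ 2 +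
          2 * Real.pi * (v + Complex.I * x * (l + Complex.I * u)) * n) := by
    intro n
    have e1 : ∀ l : ℤ, Complex.exp (-Real.pi * A * (l + x * n) ^ 2 - Real.pi * B * n ^ 2 +
        2 * Real.pi * u * l + 2 * Real.pi * v * n) =
        Complex.exp (-Real.pi * A * (x * n) ^ 2 - Real.pi * B * n ^ 2 + 2 * Real.pi * v * n) *
          Complex.exp (-Real.pi * A * l ^ 2 + 2 * Real.pi * (u - A * x * n) * l) := by
      intro l
      rw [← Complex.exp_add]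
      congr 1
      ring
    simp only [e1]
    rw [tsum_mul_left, Poi_one hA, mul_left_comm, ← tsum_mul_left]
    congr 1
    refine tsum_congr fun l => ?_
    rw [← Complex.exp_add, ← Complex.exp_add]
    congr 1
    field_simp
    linear_combination (-A ^ 2 * x ^ 2 * n ^ 2) * Complex.I_sq
  simp only [h1]
  rw [tsum_mul_left]
  have hs : Summable (Function.uncurry fun l n : ℤ =>
      Complex.exp (-Real.pi / A * (l + Complex.I * u) ^ 2) * Complex.exp (-Real.pi * B * n ^ 2 +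
          2 * Real.pi * (v + Complex.I * x * (l + Complex.I * u)) * n)) := by
    have s1 : Summable fun l : ℤ => ‖Complex.exp (-Real.pi / A * (l + Complex.I * u) ^ 2)‖ := by
      have := (Poi_gauss (a := ((A⁻¹ : ℝ) : ℂ)) (by simpa using hA) (-(Complex.I * u) / A)).mul_left
        ‖Complex.exp (-Real.pi / A * (Complex.I * u) ^ 2)‖
      refine this.congr fun l => ?_
      rw [← norm_mul, ← Complex.exp_add]
      congr 2
      push_cast
      field_simp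
      ring
    have s2 := Poi_gauss (a := (B : ℂ)) (by simpa using hB) (v - x * u)
    refine Summable.of_norm ((s1.mul_of_nonneg s2 (fun _ => norm_nonneg _)
      (fun _ => norm_nonneg _)).congr fun q => ?_)
    rw [Function.uncurry, norm_mul]
    congr 1
    have e : -Real.pi * B * (q.2 : ℂ) ^ 2 +
          2 * Real.pi * (v + Complex.I * x * (q.1 + Complex.I * u)) * q.2 =
        (-Real.pi * B * (q.2 : ℂ) ^ 2 + 2 * Real.pi * (v - x * u) * q.2) +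
          ((2 * Real.pi * x * q.1 * q.2 : ℝ) : ℂ) * Complex.I := by
      push_cast
      linear_combination (2 * Real.pi * x * u * q.2) * Complex.I_sq
    rw [e, Complex.exp_add _ (_ * Complex.I), norm_mul, Complex.norm_exp_ofReal_mul_I, mul_one]
  rw [hs.tsum_comm, Complex.ofReal_mul, mul_assoc]
  congr 1
  rw [← tsum_mul_left]
  refine tsum_congr fun l => ?_
  rw [tsum_mul_left, Poi_one hB, mul_left_comm, ← tsum_mul_left]
  congr 1
  refine tsum_congr fun n => ?_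
  rw [← Complex.exp_add]
  congr 1
  linear_combination (-Real.pi / B * (2 * (n + Complex.I * v) * x * (l + Complex.I * u) +
    (Complex.I ^ 2 - 1) * (x * (l + Complex.I * u)) ^ 2)) * Complex.I_sq

/-- The exponent of the kernel. -/
def Poi_E (p a b c d x₁ y₁ x₂ y₂ x y : ℝ) : ℂ :=
  2 * Real.pi * Complex.I * (x₂ + y₂ * Complex.I) * (a * d - b * c) / p ^ 2 -
    Real.pi * y₂ * (((c * x₁ + d) * x - c * y₁ * y - a * x₁ - b) ^ 2 +
      ((c * x₁ + d) * y + c * y₁ * x - a * y₁) ^ 2) / (p ^ 2 * y₁ * y)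

theorem Poi_row {p y₁ y₂ y : ℝ} (hp : 0 < p) (h₁ : 0 < y₁) (h₂ : 0 < y₂) (hy : 0 < y)
    (a c d x₁ x₂ x : ℝ) :
    (y : ℂ) * (∑' n : ℤ, ∑' l : ℤ,
        Complex.exp (Poi_E p (a + p ^ 2 * n) (p * l) c d x₁ y₁ x y x₂ y₂)) =
      (y₂ / p : ℝ) * ∑' l : ℤ, ∑' n : ℤ, ee (a * n / p ^ 2) *
        Complex.exp (Poi_E p (-(p * l)) n c d x₁ y₁ x₂ y₂ x y) := by
  have hp' : (p : ℂ) ≠ 0 := by exact_mod_cast hp.ne'
  have h₁' : (y₁ : ℂ) ≠ 0 := by exact_mod_cast h₁.ne'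
  have h₂' : (y₂ : ℂ) ≠ 0 := by exact_mod_cast h₂.ne'
  have hy' : (y : ℂ) ≠ 0 := by exact_mod_cast hy.ne'
  obtain ⟨r, hr⟩ : ∃ r : ℂ, r = (c * x₁ + d) * x₂ - c * y₁ * y₂ - a * x₁ := ⟨_, rfl⟩
  obtain ⟨s, hs⟩ : ∃ s : ℂ, s = (c * x₁ + d) * y₂ + c * y₁ * x₂ - a * y₁ := ⟨_, rfl⟩
  obtain ⟨u, hu⟩ : ∃ u : ℂ, u = y * r / (p * y₁ * y₂) - Complex.I * (x + y * Complex.I) * c / p :=
    ⟨_, rfl⟩
  obtain ⟨v, hv⟩ : ∃ v : ℂ, v = y * r * x₁ / (y₁ * y₂) + y * s / y₂ +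
    Complex.I * (x + y * Complex.I) * d := ⟨_, rfl⟩
  obtain ⟨C, hC⟩ : ∃ C : ℂ, C = 2 * Real.pi * Complex.I * (x + y * Complex.I) * a * d / p ^ 2 -
    Real.pi * y * (r ^ 2 + s ^ 2) / (p ^ 2 * y₁ * y₂) := ⟨_, rfl⟩
  have hA : 0 < y / (y₁ * y₂) := by positivity
  have hB : 0 < y * p ^ 2 * y₁ / y₂ := by positivity
  have key := Poi_two hA hB (p * x₁) u v
  have e1 : ∀ n l : ℤ, Complex.exp (Poi_E p (a + p ^ 2 * n) (p * l) c d x₁ y₁ x y x₂ y₂) =
      Complex.exp C * Complex.exp (-Real.pi * (y / (y₁ * y₂) : ℝ) * (l + (p * x₁ : ℝ) * n) ^ 2 -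
        Real.pi * (y * p ^ 2 * y₁ / y₂ : ℝ) * n ^ 2 +
        2 * Real.pi * u * l + 2 * Real.pi * v * n) := by
    intro n l
    rw [← Complex.exp_add]
    congr 1
    rw [Poi_E, hC, hu, hv, hr, hs]
    push_cast
    field_simp
    ring
  have e2 : ∀ l n : ℤ, ee (a * n / p ^ 2) * Complex.exp (Poi_E p (-(p * l)) n c d x₁ y₁ x₂ y₂ x y) =
      Complex.exp C * Complex.exp (-Real.pi / (y / (y₁ * y₂) : ℝ) * (l + Complex.I * u) ^ 2 -
          Real.pi / (y * p ^ 2 * y₁ / y₂ : ℝ) *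
            (n + Complex.I * v - (p * x₁ : ℝ) * (l + Complex.I * u)) ^ 2) := by
    intro l n
    rw [ee, ← Complex.exp_add, ← Complex.exp_add]
    congr 1
    rw [Poi_E, hC, hu, hv, hr, hs]
    push_cast
    field_simp
    ring_nf
    have i5 : Complex.I ^ 5 = Complex.I := by rw [pow_succ, Complex.I_pow_four, one_mul]
    have i6 : Complex.I ^ 6 = -1 := by rw [pow_succ, i5, Complex.I_mul_I]
    simp only [Complex.I_sq, Complex.I_pow_three, Complex.I_pow_four, i5, i6]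
    ring
  simp only [e1, e2, tsum_mul_left]
  rw [key]
  have e3 : y * ((Real.sqrt (y / (y₁ * y₂)))⁻¹ * (Real.sqrt (y * p ^ 2 * y₁ / y₂))⁻¹) = y₂ / p := by
    rw [← mul_inv, ← Real.sqrt_mul hA.le,
      show y / (y₁ * y₂) * (y * p ^ 2 * y₁ / y₂) = (y * p / y₂) ^ 2 by field_simp,
      Real.sqrt_sq (by positivity)]
    field_simp
  rw [← e3]
  push_cast
  ring

/-- A matrix as the pair of its rows. -/
def Poi_eq : (ℤ × ℤ) × (ℤ × ℤ) ≃ MZ where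
  toFun q := !![q.2.1, q.2.2; q.1.1, q.1.2]
  invFun X := ((X 1 0, X 1 1), (X 0 0, X 0 1))
  left_inv q := by simp
  right_inv X := (Matrix.eta_fin_two X).symm

theorem Poi_tsum {f : MZ → ℂ} (hf : Summable f) :
    ∑' X, f X = ∑' r : ℤ × ℤ, ∑' q : ℤ × ℤ, f !![q.1, q.2; r.1, r.2] := by
  rw [← Poi_eq.tsum_eq]
  exact (Poi_eq.summable_iff.2 hf).tsum_prod

theorem Poi_fac {f : MZ → ℂ} (hf : Summable f) (c d : ℤ) :
    Summable fun q : ℤ × ℤ => f !![q.1, q.2; c, d] :=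
  (Poi_eq.summable_iff.2 hf).prod_factor (c, d)

theorem Poi_sub {f : ℤ × ℤ → ℂ} (hf : Summable f) {g : ℤ × ℤ → ℤ × ℤ} (hg : Function.Injective g)
    (h : ∀ q, f q ≠ 0 → ∃ r, g r = q) : ∑' q, f q = ∑' n : ℤ, ∑' l : ℤ, f (g (n, l)) := by
  rw [← hg.tsum_eq (f := f) (fun q hq => h q hq)]
  exact (hf.comp_injective hg).tsum_prod

namespace Par

variable (P : Par)

theorem norm_kk (t₁ t₂ : ℍ) (Y : MZ) (τ : ℍ) :
    ‖P.kk t₁ t₂ Y τ‖ = Real.exp (-(2 * Real.pi * (t₂.im / P.p ^ 2) * Mj Y t₁ τ)) := by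
  have e : ((t₂ : ℂ) * Y.det / P.p ^ 2).im = t₂.im * Y.det / P.p ^ 2 := by
    generalize Y.det = n
    rw [show (t₂ : ℂ) * n / P.p ^ 2 = t₂ * ((n / P.p ^ 2 : ℝ) : ℂ) by push_cast; ring,
      Complex.im_mul_ofReal, coe_im]
    ring
  rw [kk, norm_mul, norm_ee, Complex.norm_real, Real.norm_of_nonneg (Real.exp_pos _).le,
    ← Real.exp_add, e, Mj]
  congr 1
  ring

theorem kk_smul (t₁ t₂ : ℍ) (g : SL(2, ℤ)) (Y : MZ) (τ : ℍ) :
    P.kk t₁ t₂ (g * Y) (g • τ) = P.kk t₁ t₂ Y τ := by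
  rw [kk, kk, Rm_smul_right, Matrix.det_mul, g.det_coe, one_mul]

theorem Poi_kk (t₁ t₂ τ : ℍ) (a b c d : ℤ) : P.kk t₁ t₂ !![a, b; c, d] τ =
    Complex.exp (Poi_E P.p a b c d t₁.re t₁.im t₂.re t₂.im τ.re τ.im) := by
  have hp := P.p_ne
  have h₁ : (t₁.im : ℂ) ≠ 0 := by exact_mod_cast t₁.im_pos.ne'
  have hy : (τ.im : ℂ) ≠ 0 := by exact_mod_cast τ.im_pos.ne'
  have e : Rm !![a, b; c, d] t₁ τ =
      (((c * t₁.re + d) * τ.re - c * t₁.im * τ.im - a * t₁.re - b) ^ 2 +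
        ((c * t₁.re + d) * τ.im + c * t₁.im * τ.re - a * t₁.im) ^ 2) / (4 * t₁.im * τ.im) := by
    rw [Rm, Complex.normSq_apply]
    congr 1
    simp
    ring
  have e₂ : (t₂ : ℂ) = t₂.re + t₂.im * Complex.I := (Complex.re_add_im _).symm
  rw [kk, ee, Complex.ofReal_exp, ← Complex.exp_add, e, Poi_E, Matrix.det_fin_two_of, ← e₂]
  congr 1
  push_cast
  field_simp
  ring

theorem Poi_summable (t₁ t₂ τ : ℍ) {w : MZ → ℂ} (hw : ∀ X, ‖w X‖ ≤ 1) :
    Summable fun X => w X * P.kk t₁ t₂ X τ := by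
  have hp := P.p_pos
  have hy := t₂.im_pos
  refine Summable.of_norm_bounded (summable_Th t₁ τ (r := t₂.im / P.p ^ 2) (by positivity))
    fun X => ?_
  rw [norm_mul, norm_kk]
  exact mul_le_of_le_one_left (Real.exp_pos _).le (hw X)

theorem Poi_ind (K a b c d : ℤ) : P.ind K !![a, b; c, d] =
    if ((P.p : ℤ) ∣ c ∧ P.rd K = P.rd (2 * P.m * d)) ∧
      (P.p : ℤ) ^ 2 ∣ a - (K - P.m * d) ∧ (P.p : ℤ) ∣ b then 1 else 0 := by
  have h1 : P.rd K = P.rd (2 * P.m * d) ↔ (P.p : ℤ) ∣ 2 * P.m * d - K := by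
    rw [show (2 * P.m * d : P.D) = ((2 * P.m * d : ℤ) : P.D) by push_cast; rfl, rd_int, rd_int,
      ZMod.intCast_eq_intCast_iff_dvd_sub]
  have h2 : P.kap !![a, b; c, d] = K ↔ (P.p : ℤ) ^ 2 ∣ a - (K - P.m * d) := by
    rw [kap, eq_comm, show ((!![a, b; c, d] : MZ) 0 0 + P.m * (!![a, b; c, d] : MZ) 1 1 : P.D) =
      ((a + P.m * d : ℤ) : P.D) by simp, ZMod.intCast_eq_intCast_iff_dvd_sub,
      show a + P.m * d - K = a - (K - P.m * d) by ring]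
    push_cast
    rfl
  have h3 : P.InL !![a, b; c, d] ↔ (P.p : ℤ) ∣ b ∧ (P.p : ℤ) ∣ c ∧ (P.p : ℤ) ∣ a - P.m * d := by
    simp [InL]
  rw [ind]
  refine if_congr ?_ rfl rfl
  rw [h1, h2, h3]
  refine ⟨fun h => ⟨⟨h.1.2.1, ?_⟩, h.2, h.1.1⟩, fun h => ⟨⟨h.2.2, h.1.1, ?_⟩, h.2.1⟩⟩
  · have := dvd_sub ((dvd_pow_self (P.p : ℤ) two_ne_zero).trans h.2) h.1.2.2
    rwa [show a - (K - P.m * d) - (a - P.m * d) = 2 * P.m * d - K by ring] at this
  · have := dvd_sub ((dvd_pow_self (P.p : ℤ) two_ne_zero).trans h.2.1) h.1.2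
    rwa [show a - (K - P.m * d) - (2 * P.m * d - K) = a - P.m * d by ring] at this

theorem Poi_gg (K a b c d : ℤ) : P.gg K (P.col !![a, b; c, d]) =
    if P.rd K = P.rd (2 * P.m * d) then ee (((K - P.m * d : ℤ) : ℝ) * b / (P.p : ℝ) ^ 2) else 0 := by
  have e : ((K : P.D) - P.m * d) * b = (((K - P.m * d) * b : ℤ) : P.D) := by push_cast; rfl
  have h0 : P.col !![a, b; c, d] 0 = b := by simp [col]
  have h1 : P.col !![a, b; c, d] 1 = d := by simp [col]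
  rw [gg, h0, h1, e, psi_int]
  push_cast
  rfl

theorem th_eq (t₁ t₂ : ℍ) (k : P.D) (τ : ℍ) : P.th t₁ t₂ k τ = (t₂.im / P.p : ℝ) *
    ∑' Y : MZ, (if (P.p : ℤ) ∣ Y 0 0 ∧ (P.p : ℤ) ∣ Y 1 0 then P.gg k (P.col Y) else 0) *
      P.kk t₁ t₂ Y τ := by
  obtain ⟨K, rfl⟩ := ZMod.intCast_surjective k
  have hp : (P.p : ℤ) ≠ 0 := by exact_mod_cast P.prime.ne_zero
  have s1 : Summable fun X => P.ind K X * P.kk t₁ τ X t₂ := by
    refine P.Poi_summable t₁ τ t₂ fun X => ?_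
    rw [ind]
    split_ifs <;> simp
  have s2 : Summable fun Y : MZ =>
      (if (P.p : ℤ) ∣ Y 0 0 ∧ (P.p : ℤ) ∣ Y 1 0 then P.gg K (P.col Y) else 0) * P.kk t₁ t₂ Y τ := by
    refine P.Poi_summable t₁ t₂ τ fun X => ?_
    split_ifs
    · exact P.norm_gg_le _ _
    · simp
  show (τ.im : ℂ) * ∑' X, P.ind K X * P.kk t₁ τ X t₂ = _
  rw [Poi_tsum s1, Poi_tsum s2, ← tsum_mul_left, ← tsum_mul_left]
  refine tsum_congr fun ⟨c, d⟩ => ?_
  have f1 := Poi_fac s1 c d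
  have f2 := Poi_fac s2 c d
  have v0 : ∀ a b : ℤ, (!![a, b; c, d] : MZ) 0 0 = a := fun _ _ => rfl
  have v1 : ∀ a b : ℤ, (!![a, b; c, d] : MZ) 1 0 = c := fun _ _ => rfl
  simp only [Poi_ind, Poi_gg, v0, v1] at f1 f2 ⊢
  by_cases h : (P.p : ℤ) ∣ c ∧ P.rd K = P.rd (2 * P.m * d)
  · have i1 : Function.Injective fun q : ℤ × ℤ =>
        (K - P.m * d + (P.p : ℤ) ^ 2 * q.1, (P.p : ℤ) * q.2) := by
      intro q q' e
      simp only [Prod.mk.injEq, add_right_inj] at e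
      exact Prod.ext (mul_left_cancel₀ (pow_ne_zero 2 hp) e.1) (mul_left_cancel₀ hp e.2)
    have i2 : Function.Injective fun q : ℤ × ℤ => (-((P.p : ℤ) * q.1), q.2) := by
      intro q q' e
      simp only [Prod.mk.injEq, neg_inj] at e
      exact Prod.ext (mul_left_cancel₀ hp e.1) e.2
    rw [Poi_sub f1 i1, Poi_sub f2 i2]
    · have key := Poi_row P.p_pos t₁.im_pos t₂.im_pos τ.im_pos ((K - P.m * d : ℤ) : ℝ) c d
        t₁.re t₂.re τ.re
      simp only [h, add_sub_cancel_left, dvd_mul_right, dvd_neg, and_self, if_true, one_mul,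
        Poi_kk]
      convert key using 6 <;> push_cast <;> rfl
    · rintro ⟨a, b⟩ hq
      by_cases ha : (P.p : ℤ) ∣ a
      · obtain ⟨l, rfl⟩ := ha
        exact ⟨(-l, b), by simp⟩
      · simp [ha] at hq
    · rintro ⟨a, b⟩ hq
      by_cases ha : (P.p : ℤ) ^ 2 ∣ a - (K - P.m * d) ∧ (P.p : ℤ) ∣ b
      · obtain ⟨⟨n, hn⟩, ⟨l, rfl⟩⟩ := ha
        exact ⟨(n, l), by simp [← hn]⟩
      · simp [ha] at hq
  · have z1 : ∀ q : ℤ × ℤ, ¬ (((P.p : ℤ) ∣ c ∧ P.rd K = P.rd (2 * P.m * d)) ∧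
        (P.p : ℤ) ^ 2 ∣ q.1 - (K - P.m * d) ∧ (P.p : ℤ) ∣ q.2) := fun q hq => h hq.1
    have z2 : ∀ q : ℤ × ℤ, (if (P.p : ℤ) ∣ q.1 ∧ (P.p : ℤ) ∣ c then
        (if P.rd K = P.rd (2 * P.m * d) then
          ee (((K - P.m * d : ℤ) : ℝ) * q.2 / (P.p : ℝ) ^ 2) else 0) else 0) = 0 := by
      intro q
      split_ifs with h1 h2
      · exact absurd ⟨h1.2, h2⟩ h
      · rfl
      · rfl
    simp only [z1, z2, if_false, zero_mul, tsum_zero, mul_zero]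

end Par

end

end Pool.Agent.P.MP_a60a76_nt.Sz
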