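import Pool.Agent.P.MP_a60a76_nt.Sz.Avg
import Pool.Agent.P.MP_a60a76_nt.Sz.Ka
import Pool.Agent.P.MP_a60a76_nt.Sz.Poi
import Pool.Agent.P.MP_a60a76_nt.Sz.NClo

namespace Pool.Agent.P.MP_a60a76_nt.Sz

open UpperHalfPlane MeasureTheory SP
open scoped MatrixGroups UpperHalfPlane Matrix Modular Topology Classical ArithmeticFunction.sigma

noncomputable section

/-! The holomorphic part of the Green function. -/

/-- Left multiplication by a unimodular matrix. -/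
def Eta_left (g : SL(2, ℤ)) : MZ ≃ MZ where
  toFun Y := g * Y
  invFun Y := (g⁻¹ : SL(2, ℤ)) * Y
  left_inv Y := by
    show ((g⁻¹ : SL(2, ℤ)) : MZ) * ((g : MZ) * Y) = Y
    rw [← Matrix.mul_assoc, ← Matrix.SpecialLinearGroup.coe_mul, inv_mul_cancel]
    simp
  right_inv Y := by
    show (g : MZ) * (((g⁻¹ : SL(2, ℤ)) : MZ) * Y) = Y
    rw [← Matrix.mul_assoc, ← Matrix.SpecialLinearGroup.coe_mul, mul_inv_cancel]
    simp

theorem Eta_T_pow {f : ℍ → ℂ} {a : ℂ} (h : ∀ τ, f (ModularGroup.T • τ) = a * f τ) (n : ℕ) (τ : ℍ) :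
    f (ModularGroup.T ^ n • τ) = a ^ n * f τ := by
  induction n with
  | zero => simp
  | succ n ih => rw [pow_succ', mul_smul, h, ih, pow_succ', mul_assoc]

theorem Eta_rpow_le {y : ℝ} (hy : 1 ≤ y) : y + y ^ (-(5 / 2) : ℝ) ≤ 2 * y := by
  have h := Real.rpow_le_one_of_one_le_of_nonpos hy (show (-(5 / 2) : ℝ) ≤ 0 by norm_num)
  linarith

namespace Par

variable (P : Par)

theorem Eta_summable (t₁ t₂ : ℍ) (k : P.D) (τ : ℍ) : Summable fun Y : MZ =>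
    (if (P.p : ℤ) ∣ Y 0 0 ∧ (P.p : ℤ) ∣ Y 1 0 then P.gg k (P.col Y) else 0) * P.kk t₁ t₂ Y τ := by
  refine P.Poi_summable t₁ t₂ τ fun X => ?_
  split_ifs
  · exact P.norm_gg_le _ _
  · simp

theorem th_S (t₁ t₂ : ℍ) (k : P.D) (τ : ℍ) :
    P.th t₁ t₂ k (ModularGroup.S • τ) = P.Mb (fun k' => P.th t₁ t₂ k' τ) k := by
  simp only [th_eq]
  rw [Mb_const_mul, ← (Eta_left ModularGroup.S).tsum_eq]
  congr 1
  rw [Mb]
  simp only [← tsum_mul_left]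
  rw [← Summable.tsum_finsetSum fun k' _ => (P.Eta_summable t₁ t₂ k' τ).mul_left _,
    ← tsum_mul_left]
  refine tsum_congr fun Y => ?_
  have e : Eta_left ModularGroup.S Y = (ModularGroup.S : SL(2, ℤ)) * Y := rfl
  have e0 : (((ModularGroup.S : SL(2, ℤ)) : MZ) * Y) 0 0 = -Y 1 0 := by
    simp [ModularGroup.S, Matrix.mul_apply]
  have e1 : (((ModularGroup.S : SL(2, ℤ)) : MZ) * Y) 1 0 = Y 0 0 := by
    simp [ModularGroup.S, Matrix.mul_apply]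
  rw [e, kk_smul, e0, e1, col_mul, gg_S]
  simp only [dvd_neg]
  by_cases h : (P.p : ℤ) ∣ Y 0 0 ∧ (P.p : ℤ) ∣ Y 1 0
  · simp only [if_pos h, if_pos h.symm, Mb, ← mul_assoc, ← Finset.sum_mul]
  · simp only [if_neg h, if_neg fun h' : _ ∧ _ => h h'.symm, zero_mul, mul_zero,
      Finset.sum_const_zero]

theorem isGr_ka (t₁ t₂ : ℍ) : P.IsGr (P.ka t₁ t₂) (P.th t₁ t₂) := by
  exact ⟨fun k => (P.ka_c1 t₁ t₂ k).1, fun k => (P.ka_c1 t₁ t₂ k).2, P.ka_T t₁ t₂, P.th_T t₁ t₂,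
    P.th_S t₁ t₂, P.ka_bound t₁ t₂⟩

theorem rr_qs (t₁ t₂ : ℍ) : ∃ ρ : P.D → ℤ → ℂ, (∀ k, QS (P.p ^ 2) (ρ k) (P.rr t₁ t₂ k)) ∧
    (∀ k ν, ρ k ν ≠ 0 → (ν : P.D) = P.Q k) ∧ ∀ k, ∀ ν < -(P.p ^ 2 : ℤ), ρ k ν = 0 := by
  have hG := P.isGr_ka t₁ t₂
  obtain ⟨C, hC, hb⟩ := hG.bound
  obtain ⟨C', hb'⟩ := hG.eta_bound
  have hp := P.p_pos
  have hN : 0 < P.p ^ 2 := pow_pos P.prime.pos 2
  have key : ∀ k, ∃ ρ : ℤ → ℂ, QS (P.p ^ 2) ρ (P.rr t₁ t₂ k) ∧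
      (∀ ν, ρ ν ≠ 0 → (ν : P.D) = P.Q k) ∧ ∀ ν < -(P.p ^ 2 : ℤ), ρ ν = 0 := by
    intro k
    obtain ⟨a, ha⟩ := ZMod.intCast_surjective (P.Q k)
    have hT : ∀ τ, P.rr t₁ t₂ k (ModularGroup.T • τ) =
        ee (a / (P.p ^ 2 : ℕ)) * P.rr t₁ t₂ k τ := by
      intro τ
      rw [rr, rr, hG.r_T, hG.eta_T, ← mul_sub, ← ha, psi_int, Nat.cast_pow]
    obtain ⟨ρ, h1, h2⟩ := exists_qs (f := P.rr t₁ t₂ k) hN (hG.hol k) (fun τ => by
      rw [zpow_natCast, Eta_T_pow hT, ← ee_nat_mul, mul_div_cancel₀ _ (by exact_mod_cast hN.ne'),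
        ee_int, one_mul]) (a := 1 + 1 / (2 * P.p ^ 2))
      (C := (2 * C + |C'|) * (P.p ^ 2 / Real.pi)) (fun τ hτ => by
        have hy : 0 < τ.im := τ.im_pos
        have h3 : 1 ≤ Real.exp (2 * Real.pi * τ.im) := Real.one_le_exp (by positivity)
        have h4 : τ.im ≤ P.p ^ 2 / Real.pi * Real.exp (Real.pi / P.p ^ 2 * τ.im) := by
          have h5 := Real.add_one_le_exp (Real.pi / P.p ^ 2 * τ.im)
          calc τ.im = P.p ^ 2 / Real.pi * (Real.pi / P.p ^ 2 * τ.im) := by field_simp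
            _ ≤ _ := by gcongr; linarith
        have h6 : Real.exp (2 * Real.pi * (1 + 1 / (2 * P.p ^ 2)) * τ.im) =
            Real.exp (Real.pi / P.p ^ 2 * τ.im) * Real.exp (2 * Real.pi * τ.im) := by
          rw [← Real.exp_add]
          congr 1
          field_simp
          ring
        have h7 : ‖P.ka t₁ t₂ k τ‖ ≤ 2 * C * τ.im * Real.exp (2 * Real.pi * τ.im) :=
          calc _ ≤ C * (2 * τ.im) :=
                (hb k τ).trans (mul_le_mul_of_nonneg_left (Eta_rpow_le hτ) hC)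
            _ = 2 * C * τ.im * 1 := by ring
            _ ≤ _ := by gcongr
        have h8 : ‖P.eta (P.ka t₁ t₂) k τ‖ ≤ |C'| * τ.im * Real.exp (2 * Real.pi * τ.im) :=
          (hb' k τ hτ).trans (by gcongr; exact le_abs_self _)
        calc ‖P.rr t₁ t₂ k τ‖ ≤ _ := norm_sub_le _ _
          _ ≤ (2 * C + |C'|) * τ.im * Real.exp (2 * Real.pi * τ.im) := by linarith
          _ ≤ (2 * C + |C'|) * (P.p ^ 2 / Real.pi * Real.exp (Real.pi / P.p ^ 2 * τ.im)) *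
              Real.exp (2 * Real.pi * τ.im) := by gcongr
          _ = _ := by rw [h6]; ring)
    refine ⟨ρ, h1, fun ν hν => ?_, fun ν hν => h2 ν ?_⟩
    · rw [← ha]
      exact ((ZMod.intCast_eq_intCast_iff_dvd_sub a ν _).2 (h1.supp_of_T hN hT ν hν)).symm
    · have h3 : (ν : ℝ) + 1 ≤ -(P.p : ℝ) ^ 2 := by exact_mod_cast Int.add_one_le_iff.2 hν
      have h4 : (1 + 1 / (2 * (P.p : ℝ) ^ 2)) * ((P.p ^ 2 : ℕ) : ℝ) = P.p ^ 2 + 1 / 2 := by
        push_cast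
        field_simp
      rw [h4]
      linarith
  choose ρ h1 h2 h3 using key
  exact ⟨ρ, h1, h2, h3⟩

theorem rr_I (t₁ t₂ : ℍ) {w : P.D → ℝ} (hw0 : ∀ k, 0 ≤ w k)
    (hw : P.M (fun k => (w k : ℂ)) = fun k => (w k : ℂ)) :
    0 ≤ (∑ k, (w k : ℂ) * P.rr t₁ t₂ k UpperHalfPlane.I).re := by
  have hG := P.isGr_ka t₁ t₂
  have h1 : ∑ k, (w k : ℂ) * P.eta (P.ka t₁ t₂) k UpperHalfPlane.I = 0 := by
    have h2 := P.sum_M_Mb (fun k => (w k : ℂ)) fun k => P.eta (P.ka t₁ t₂) k UpperHalfPlane.I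
    rw [hw] at h2
    have h3 : ∀ k, P.Mb (fun k => P.eta (P.ka t₁ t₂) k UpperHalfPlane.I) k =
        -P.eta (P.ka t₁ t₂) k UpperHalfPlane.I := by
      intro k
      have h4 := hG.eta_S k UpperHalfPlane.I
      rw [S_smul_I, UpperHalfPlane.coe_I, Complex.I_sq] at h4
      linear_combination h4
    simp only [h3, mul_neg, Finset.sum_neg_distrib] at h2
    linear_combination (-1 / 2 : ℂ) * h2
  simp only [rr, mul_sub, Finset.sum_sub_distrib]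
  rw [h1, sub_zero, Complex.re_sum]
  refine Finset.sum_nonneg fun k _ => ?_
  rw [Complex.re_ofReal_mul]
  exact mul_nonneg (hw0 k) (P.ka_I t₁ t₂ k)

variable {P} {c : P.D → ℤ → ℤ}

theorem pr_eta (h : P.IsF 0 c) (t₁ t₂ : ℍ) :
    C1 (P.pr c (P.eta (P.ka t₁ t₂))) ∧ Wt 2 (P.pr c (P.eta (P.ka t₁ t₂))) ∧
      ∀ τ, db (P.pr c (P.eta (P.ka t₁ t₂))) τ =
        -(Complex.I / (2 * (τ.im : ℂ) ^ 2)) * P.pr c (P.th t₁ t₂) τ := by
  have hG := P.isGr_ka t₁ t₂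
  have h1 : ∀ k, C1 (P.eta (P.ka t₁ t₂) k) ∧ ∀ τ, db (P.eta (P.ka t₁ t₂) k) τ =
      -(Complex.I / (2 * (τ.im : ℂ) ^ 2)) * P.th t₁ t₂ k τ := by
    intro k
    obtain ⟨h2, h3⟩ := c1_of_hol (hG.hol k)
    obtain ⟨h4, h5⟩ := (hG.c1 k).sub h2
    simp only [sub_sub_cancel, h3, sub_zero, hG.db_eq] at h4 h5
    exact ⟨h4, h5⟩
  have h2 := fun k => (h1 k).1.hol_mul (h.hol k)
  obtain ⟨h3, h4⟩ := c1_sum Finset.univ fun k _ => (h2 k).1
  refine ⟨h3, ⟨fun τ => ?_, fun τ => ?_⟩, fun τ => ?_⟩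
  · refine Finset.sum_congr rfl fun k _ => ?_
    rw [h.fn_T, hG.eta_T, mul_mul_mul_comm, ← psi_add, neg_add_cancel, psi_zero, one_mul]
  · rw [pr, pr, ← P.sum_M_Mb (fun k => P.fn c k τ) fun k => P.eta (P.ka t₁ t₂) k τ,
      Finset.mul_sum]
    refine Finset.sum_congr rfl fun k _ => ?_
    rw [h.inv, hG.eta_S, zpow_zero, zpow_ofNat]
    ring
  · refine (h4 τ).trans ?_
    rw [pr, Finset.mul_sum]
    refine Finset.sum_congr rfl fun k _ => ?_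
    rw [(h2 k).2, (h1 k).2]
    ring

theorem pr_th_eq (h : P.IsF 0 c) (t₁ t₂ τ : ℍ) :
    HasSum (fun Y : MZ => P.trm c t₁ t₂ Y τ) (P.pr c (P.th t₁ t₂) τ) := by
  have _ := h
  have h1 := hasSum_sum (s := Finset.univ) fun k _ =>
    ((P.Eta_summable t₁ t₂ k τ).hasSum.mul_left ((t₂.im / P.p : ℝ) : ℂ)).mul_left (P.fn c k τ)
  simp only [← th_eq] at h1
  refine h1.congr_fun fun Y => ?_
  rw [trm, tm]
  split_ifs
  · rw [FF, Finset.sum_mul, Finset.mul_sum]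
    exact Finset.sum_congr rfl fun k _ => by ring
  · simp

theorem trm_smul (h : P.IsF 0 c) (t₁ t₂ : ℍ) (g : SL(2, ℤ)) (Y : MZ) (τ : ℍ) :
    P.trm c t₁ t₂ (g * Y) (g • τ) = P.trm c t₁ t₂ Y τ := by
  rw [trm, trm, h.tm_smul, kk_smul]

theorem trm_continuous (h : P.IsF 0 c) (t₁ t₂ : ℍ) (Y : MZ) :
    Continuous (P.trm c t₁ t₂ Y) := by
  have h1 : Continuous (P.tm c Y) := by
    unfold tm
    split_ifs
    · exact (c1_of_hol (h.FF_hol _)).1.continuous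
    · exact continuous_const
  have h2 : Continuous fun τ => Rm Y t₁ τ := by
    unfold Rm
    refine Continuous.div ?_ (continuous_const.mul UpperHalfPlane.continuous_im) fun τ => ?_
    · exact Complex.continuous_normSq.comp
        ((continuous_const.mul UpperHalfPlane.continuous_coe).sub continuous_const)
    · have := t₁.im_pos
      have := τ.im_pos
      positivity
  have h3 : Continuous (P.kk t₁ t₂ Y) := by
    unfold kk
    exact continuous_const.mul (Complex.continuous_ofReal.comp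
      (Real.continuous_exp.comp ((continuous_const.mul h2).div_const _).neg))
  exact continuous_const.mul (h1.mul h3)

end Par

/-- The archimedean height. -/
theorem phi_one_le : ∃ C : ℝ, ∀ (P : Par) (g : SL(2, ℤ)) (t₁ t₂ : ℍ), 1 / 2 ≤ t₁.im →
    1 / 2 ≤ t₂.im → (CT 1 (P.pr P.oneI (P.rr (g • t₁) t₂))).re ≤ C * (t₁.im + t₂.im) := by
  obtain ⟨C, hC, hb⟩ := ka_one_bound
  obtain ⟨C', hC', hb'⟩ := avg_bound
  refine ⟨C * (2 + C' * Real.exp (2 * Real.pi)), fun P g t₁ t₂ h₁ h₂ => ?_⟩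
  refine (Complex.re_le_norm _).trans (norm_CT_le one_pos fun τ hτ _ _ => ?_)
  have hG := P.isGr_ka (g • t₁) t₂
  have hs : 0 ≤ C * (t₁.im + t₂.im) := by positivity
  have e : P.pr P.oneI (P.rr (g • t₁) t₂) τ =
      ∑ z, P.ka (g • t₁) t₂ (P.up z) τ - ∑ z, P.eta (P.ka (g • t₁) t₂) (P.up z) τ := by
    have h1 := P.sum_fibre (fun k => P.rr (g • t₁) t₂ k τ) 0
    simp only [map_zero, zero_add] at h1
    rw [← Finset.sum_sub_distrib]
    refine Eq.trans (Finset.sum_congr rfl fun k _ => ?_) h1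
    rw [P.isF_oneI.2]
    split_ifs <;> simp
  obtain ⟨h3, h4⟩ := hb' τ hτ.ge
  have h5 : ‖∑ z, P.eta (P.ka (g • t₁) t₂) (P.up z) τ‖ ≤
      C * (t₁.im + t₂.im) * (C' * τ.im * Real.exp (2 * Real.pi * τ.im)) := by
    rw [hG.sum_eta_up]
    refine (tsum_of_norm_bounded (h3.mul_left (C * (t₁.im + t₂.im))).hasSum fun x => ?_).trans ?_
    · rw [norm_mul, mul_left_comm]
      exact mul_le_mul_of_nonneg_left (hb P g t₁ t₂ h₁ h₂ _) (norm_nonneg _)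
    · rw [tsum_mul_left]
      exact mul_le_mul_of_nonneg_left h4 hs
  have h6 := (hb P g t₁ t₂ h₁ h₂ τ).trans (mul_le_mul_of_nonneg_left (Eta_rpow_le hτ.ge) hs)
  rw [hτ, mul_one] at h5 h6
  rw [mul_one] at h5
  rw [e]
  refine (norm_sub_le _ _).trans ?_
  linarith

end

end Pool.Agent.P.MP_a60a76_nt.Sz
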