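import Pool.Agent.P.MP_a60a76_nt.Sz.Unf
import Pool.Agent.P.MP_a60a76_nt.Sz.Eta

namespace Pool.Agent.P.MP_a60a76_nt.Sz

open UpperHalfPlane MeasureTheory SP
open scoped MatrixGroups UpperHalfPlane Matrix Modular Topology Classical ArithmeticFunction.sigma

noncomputable section

/-! The chamber expansion: matrices of rank one. -/

theorem ChB_int {κ T : ℝ} (hκ : 0 < κ) (hT : 0 < T) :
    IntegrableOn (fun y : ℝ => Real.exp (-(κ / y)) * (y ^ 2)⁻¹) (Set.Ioc 0 T) ∧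
      ∫ y in Set.Ioc 0 T, Real.exp (-(κ / y)) * (y ^ 2)⁻¹ = Real.exp (-(κ / T)) / κ := by
  have hi : IntegrableOn (fun y : ℝ => Real.exp (-(κ / y)) * (y ^ 2)⁻¹) (Set.Ioc 0 T) := by
    refine Measure.integrableOn_of_bounded (M := 2 / κ ^ 2) measure_Ioc_lt_top.ne
      (Measurable.aestronglyMeasurable (by fun_prop)) ?_
    refine (ae_restrict_iff' measurableSet_Ioc).2 (Filter.Eventually.of_forall fun y hy => ?_)
    have hy0 := hy.1
    have h1 := Real.quadratic_le_exp_of_nonneg (div_pos hκ hy0).le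
    have h2 : (κ / y) ^ 2 / 2 ≤ Real.exp (κ / y) := by
      have := div_pos hκ hy0
      linarith
    rw [Real.norm_of_nonneg (by positivity), Real.exp_neg, ← mul_inv, inv_eq_one_div,
      div_le_div_iff₀ (by positivity) (by positivity)]
    have h3 : (κ / y) ^ 2 / 2 * y ^ 2 = κ ^ 2 / 2 := by field_simp
    nlinarith [mul_le_mul_of_nonneg_right h2 (sq_nonneg y)]
  refine ⟨hi, ?_⟩
  rw [← intervalIntegral.integral_of_le hT.le]
  have hd : ∀ y ∈ Set.Ioo (0 : ℝ) T, HasDerivAt (fun y : ℝ => Real.exp (-(κ / y)) / κ)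
      (Real.exp (-(κ / y)) * (y ^ 2)⁻¹) y := fun y hy => by
    have h1 : HasDerivAt (fun y : ℝ => -(κ / y)) (κ / y ^ 2) y := by
      have h2 := ((hasDerivAt_inv hy.1.ne').const_mul κ).neg
      refine (h2.congr_deriv ?_).congr_of_eventuallyEq (Filter.Eventually.of_forall fun z => ?_)
      · rw [div_eq_mul_inv]
        ring
      · simp only [div_eq_mul_inv, Pi.neg_apply]
    refine (h1.exp.div_const κ).congr_deriv ?_
    have := hy.1.ne'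
    field_simp
  have h0 : Filter.Tendsto (fun y : ℝ => Real.exp (-(κ / y)) / κ) (𝓝[>] 0) (𝓝 0) := by
    have h1 : Filter.Tendsto (fun y : ℝ => κ / y) (𝓝[>] 0) Filter.atTop := by
      simp only [div_eq_mul_inv]
      exact tendsto_inv_nhdsGT_zero.const_mul_atTop hκ
    have h2 := (Real.tendsto_exp_neg_atTop_nhds_zero.comp h1).div_const κ
    rw [zero_div] at h2
    exact h2
  have h1 : Filter.Tendsto (fun y : ℝ => Real.exp (-(κ / y)) / κ) (𝓝[<] T)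
      (𝓝 (Real.exp (-(κ / T)) / κ)) := by
    refine Filter.Tendsto.mono_left (ContinuousAt.tendsto ?_) nhdsWithin_le_nhds
    have := hT.ne'
    fun_prop (disch := assumption)
  rw [intervalIntegral.integral_eq_sub_of_hasDerivAt_of_tendsto hT hd
    ((intervalIntegrable_iff_integrableOn_Ioc_of_le hT.le).2 hi) h0 h1, sub_zero]

theorem ChB_meas (T : ℝ) : MeasurableSet {τ : ℍ | τ.im ≤ T} :=
  (isClosed_le UpperHalfPlane.continuous_im continuous_const).measurableSet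

theorem ChB_strip {κ T : ℝ} (hκ : 0 < κ) (hT : 0 < T) :
    IntegrableOn (fun τ : ℍ => Real.exp (-(κ / τ.im))) (strip ∩ {τ | τ.im ≤ T}) ∧
      ∫ τ in strip ∩ {τ : ℍ | τ.im ≤ T}, Real.exp (-(κ / τ.im)) = Real.exp (-(κ / T)) / κ := by
  obtain ⟨h1, h2⟩ := ChB_int hκ hT
  have hm : Measurable fun y : ℝ => ENNReal.ofReal (Real.exp (-(κ / y))) := by fun_prop
  have hc : Continuous fun τ : ℍ => Real.exp (-(κ / τ.im)) :=
    Real.continuous_exp.comp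
      (continuous_const.div UpperHalfPlane.continuous_im fun τ => τ.im_pos.ne').neg
  have h3 : ∫⁻ τ in strip ∩ {τ : ℍ | τ.im ≤ T}, ENNReal.ofReal (Real.exp (-(κ / τ.im))) =
      ENNReal.ofReal (Real.exp (-(κ / T)) / κ) := by
    have e1 := lintegral_strip (hm.indicator (measurableSet_Iic (a := T)))
    have e2 : ∀ τ : ℍ, (Set.Iic T).indicator (fun y : ℝ => ENNReal.ofReal (Real.exp (-(κ / y))))
        τ.im = {τ : ℍ | τ.im ≤ T}.indicator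
          (fun τ : ℍ => ENNReal.ofReal (Real.exp (-(κ / τ.im)))) τ := fun τ => rfl
    have e3 : ∀ y : ℝ, (Set.Iic T).indicator (fun y : ℝ => ENNReal.ofReal (Real.exp (-(κ / y))))
        y * ENNReal.ofReal ((y ^ 2)⁻¹) = (Set.Iic T).indicator
          (fun y : ℝ => ENNReal.ofReal (Real.exp (-(κ / y)) * (y ^ 2)⁻¹)) y := fun y => by
      by_cases hy : y ∈ Set.Iic T
      · rw [Set.indicator_of_mem hy, Set.indicator_of_mem hy,
          ENNReal.ofReal_mul (Real.exp_pos _).le]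
      · rw [Set.indicator_of_notMem hy, Set.indicator_of_notMem hy, zero_mul]
    simp only [e2, e3] at e1
    rw [lintegral_indicator (ChB_meas T), Measure.restrict_restrict (ChB_meas T),
      lintegral_indicator measurableSet_Iic, Measure.restrict_restrict measurableSet_Iic,
      Set.inter_comm, Set.inter_comm (Set.Iic T), Set.Ioi_inter_Iic] at e1
    rw [e1, ← h2, ofReal_integral_eq_lintegral_ofReal h1
      (Filter.Eventually.of_forall fun y => by positivity)]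
  have hn : 0 ≤ᵐ[volume.restrict (strip ∩ {τ : ℍ | τ.im ≤ T})]
      fun τ : ℍ => Real.exp (-(κ / τ.im)) :=
    Filter.Eventually.of_forall fun τ => (Real.exp_pos _).le
  refine ⟨⟨hc.aestronglyMeasurable, (hasFiniteIntegral_iff_ofReal hn).2 ?_⟩, ?_⟩
  · rw [h3]
    exact ENNReal.ofReal_lt_top
  · rw [integral_eq_lintegral_of_nonneg_ae hn hc.aestronglyMeasurable, h3,
      ENNReal.toReal_ofReal (by positivity)]

/-- The quadratic form on the first row. -/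
def ChB_N (t₁ : ℍ) (r : ℤ × ℤ) : ℝ := Complex.normSq ((r.1 : ℂ) * t₁ + r.2)

theorem ChB_Rm (t₁ τ : ℍ) (r : ℤ × ℤ) :
    Rm !![r.1, r.2; 0, 0] t₁ τ = ChB_N t₁ r / (4 * t₁.im * τ.im) := by
  simp [Rm, ChB_N, ← Complex.normSq_neg ((r.1 : ℂ) * t₁ + r.2)]

theorem ChB_det (r : ℤ × ℤ) : (!![r.1, r.2; 0, 0] : MZ).det = 0 := by
  simp [Matrix.det_fin_two]

theorem ChB_N_lower (t₁ : ℍ) : ∃ m : ℝ, 0 < m ∧ ∀ r : ℤ × ℤ, r ≠ 0 → m ≤ ChB_N t₁ r := by
  obtain ⟨m, hm, h⟩ := dn_lower |t₁.re| t₁.im_pos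
  refine ⟨m ^ 2, by positivity, fun r hr => ?_⟩
  have h1 := h t₁ le_rfl le_rfl r.1 r.2
  have h2 : (1 : ℝ) ≤ ‖(![r.1, r.2] : Fin 2 → ℤ)‖ := by
    by_cases h3 : r.1 = 0
    · have h4 : r.2 ≠ 0 := fun h4 => hr (Prod.ext h3 h4)
      refine le_trans ?_ (norm_le_pi_norm (![r.1, r.2] : Fin 2 → ℤ) 1)
      simp only [Matrix.cons_val_one, Matrix.cons_val_zero, Int.norm_eq_abs]
      exact_mod_cast Int.one_le_abs h4
    · refine le_trans ?_ (norm_le_pi_norm (![r.1, r.2] : Fin 2 → ℤ) 0)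
      simp only [Matrix.cons_val_zero, Int.norm_eq_abs]
      exact_mod_cast Int.one_le_abs h3
  rw [ChB_N, Complex.normSq_eq_norm_sq]
  exact pow_le_pow_left₀ hm.le (by nlinarith) 2

theorem ChB_summable (t₁ : ℍ) {δ : ℝ} (hδ : 0 < δ) :
    Summable fun r : ℤ × ℤ => Real.exp (-(δ * ChB_N t₁ r)) := by
  have hy := t₁.im_pos
  have h1 := summable_Th t₁ UpperHalfPlane.I (r := δ * t₁.im / Real.pi) (by positivity)
  have hi : Function.Injective fun r : ℤ × ℤ => (!![r.1, r.2; 0, 0] : MZ) := fun r r' h =>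
    Prod.ext (congrFun (congrFun h 0) 0) (congrFun (congrFun h 0) 1)
  refine (h1.comp_injective hi).congr fun r => ?_
  simp only [Function.comp_apply, Mj, ChB_Rm, ChB_det, UpperHalfPlane.I_im]
  congr 2
  have := Real.pi_pos
  push_cast
  field_simp
  ring

/-- The parametrisation of the matrices of rank one. -/
def ChB_Phi (q : (ℤ × ℤ) × CP) : MZ :=
  !![q.2.1 1 * q.1.1, q.2.1 1 * q.1.2; -(q.2.1 0 * q.1.1), -(q.2.1 0 * q.1.2)]

theorem ChB_gam_mul (q : (ℤ × ℤ) × CP) :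
    (gam q.2 : MZ) * ChB_Phi q = !![q.1.1, q.1.2; 0, 0] := by
  have h := (gam q.2).det_coe
  obtain ⟨h0, h1⟩ := gam_row q.2
  rw [Matrix.det_fin_two, h0, h1] at h
  ext i j
  fin_cases i <;> fin_cases j <;>
    simp [ChB_Phi, Matrix.mul_apply, Fin.sum_univ_two, h0, h1]
  · linear_combination q.1.1 * h
  · linear_combination q.1.2 * h
  · ring
  · ring

theorem ChB_Phi_iff (q : (ℤ × ℤ) × CP) :
    ((ChB_Phi q).det = 0 ∧ ChB_Phi q 1 ≠ 0) ↔ q.1 ≠ 0 ∧ q.2.1 0 ≠ 0 := by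
  have h1 : (ChB_Phi q).det = 0 := by
    simp only [ChB_Phi, Matrix.det_fin_two_of]
    ring
  have h2 : ChB_Phi q 1 = 0 ↔ q.2.1 0 * q.1.1 = 0 ∧ q.2.1 0 * q.1.2 = 0 := by
    simp [ChB_Phi, funext_iff, Fin.forall_fin_two]
  rw [Ne, h2, Ne, Prod.ext_iff]
  simp only [h1, true_and, mul_eq_zero, Prod.fst_zero, Prod.snd_zero]
  tauto

/-- The sign change. -/
def ChB_neg : (ℤ × ℤ) × CP ≃ (ℤ × ℤ) × CP where
  toFun q := (-q.1, ⟨-q.2.1, q.2.2.neg_neg⟩)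
  invFun q := (-q.1, ⟨-q.2.1, q.2.2.neg_neg⟩)
  left_inv q := by simp
  right_inv q := by simp

theorem ChB_Phi_neg (q : (ℤ × ℤ) × CP) : ChB_Phi (ChB_neg q) = ChB_Phi q := by
  simp [ChB_Phi, ChB_neg]

theorem ChB_inj_aux {c d c' d' a a' : ℤ} (h : IsCoprime c d) (h' : IsCoprime c' d') (hc : 0 < c)
    (hc' : 0 < c') (ha : a ≠ 0) (e1 : c * a = c' * a') (e2 : d * a = d' * a') :
    c = c' ∧ d = d' := by
  have e3 : c * d' = c' * d := by
    have ha' : a' ≠ 0 := by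
      rintro rfl
      exact mul_ne_zero hc.ne' ha (by rw [e1, mul_zero])
    refine mul_right_cancel₀ ha (?_ : c * d' * a = c' * d * a)
    linear_combination d' * e1 - c' * e2
  have e4 : c = c' := Int.dvd_antisymm hc.le hc'.le
    (h.dvd_of_dvd_mul_right ⟨d', e3.symm⟩) (h'.dvd_of_dvd_mul_right ⟨d, e3⟩)
  refine ⟨e4, ?_⟩
  rw [← e4] at e3
  exact (mul_left_cancel₀ hc.ne' e3).symm

theorem ChB_inj : Function.Injective
    fun q : {q : (ℤ × ℤ) × CP | q.1 ≠ 0 ∧ 0 < q.2.1 0} => ChB_Phi q := by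
  rintro ⟨⟨r, x⟩, hr, hx⟩ ⟨⟨r', x'⟩, hr', hx'⟩ h
  have e00 : x.1 1 * r.1 = x'.1 1 * r'.1 := congrFun (congrFun h 0) 0
  have e01 : x.1 1 * r.2 = x'.1 1 * r'.2 := congrFun (congrFun h 0) 1
  have e10 : x.1 0 * r.1 = x'.1 0 * r'.1 := neg_injective (congrFun (congrFun h 1) 0)
  have e11 : x.1 0 * r.2 = x'.1 0 * r'.2 := neg_injective (congrFun (congrFun h 1) 1)
  have h1 : x.1 0 = x'.1 0 ∧ x.1 1 = x'.1 1 := by
    by_cases h3 : r.1 = 0
    · exact ChB_inj_aux x.2 x'.2 hx hx' (fun h4 => hr (Prod.ext h3 h4)) e11 e01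
    · exact ChB_inj_aux x.2 x'.2 hx hx' h3 e10 e00
  rw [← h1.1] at e10 e11
  refine Subtype.ext (Prod.ext (Prod.ext (mul_left_cancel₀ hx.ne' e10)
    (mul_left_cancel₀ hx.ne' e11)) (Subtype.ext (funext fun i => ?_)))
  fin_cases i
  · exact h1.1
  · exact h1.2

theorem ChB_surj {Y : MZ} (h : Y.det = 0 ∧ Y 1 ≠ 0) :
    ∃ q : (ℤ × ℤ) × CP, (q.1 ≠ 0 ∧ 0 < q.2.1 0) ∧ ChB_Phi q = Y := by
  obtain ⟨g, a, b, hY⟩ := rank_one_param Y (fun h0 => h.2 (by rw [h0]; rfl)) h.1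
  have hd := g.det_coe
  rw [Matrix.det_fin_two] at hd
  have hc : IsCoprime ((![-g 1 0, g 0 0] : Fin 2 → ℤ) 0) ((![-g 1 0, g 0 0] : Fin 2 → ℤ) 1) :=
    ⟨g 0 1, g 1 1, by
      simp only [Matrix.cons_val_zero, Matrix.cons_val_one]
      linear_combination hd⟩
  have e : ChB_Phi ((a, b), ⟨![-g 1 0, g 0 0], hc⟩) = Y := by
    rw [hY]
    ext i j
    fin_cases i <;> fin_cases j <;> simp [ChB_Phi, Matrix.mul_apply, Fin.sum_univ_two]
  obtain ⟨h1, h2⟩ := (ChB_Phi_iff _).1 (e.symm ▸ h)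
  rcases lt_or_gt_of_ne h2 with h3 | h3
  · exact ⟨ChB_neg _, ⟨neg_ne_zero.2 h1, neg_pos.2 h3⟩, (ChB_Phi_neg _).trans e⟩
  · exact ⟨_, ⟨h1, h3⟩, e⟩

/-- The parametrisation is two to one. -/
theorem ChB_two {E : Type} [NormedAddCommGroup E] [CompleteSpace E] {F : MZ → E}
    (hF : ∀ Y, ¬ (Y.det = 0 ∧ Y 1 ≠ 0) → F Y = 0) (hs : Summable fun q => F (ChB_Phi q)) :
    Summable F ∧ ∑' q, F (ChB_Phi q) = ∑' Y, F Y + ∑' Y, F Y := by
  have h0 : ∀ Y, Y ∉ Set.range (fun q : {q : (ℤ × ℤ) × CP | q.1 ≠ 0 ∧ 0 < q.2.1 0} =>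
      ChB_Phi q) → F Y = 0 := fun Y hY => hF Y fun h => by
    obtain ⟨q, h1, h2⟩ := ChB_surj h
    exact hY ⟨⟨q, h1⟩, h2⟩
  have h1 : Summable F := (ChB_inj.summable_iff h0).1 (hs.subtype _)
  refine ⟨h1, HasSum.tsum_eq ?_⟩
  have h2 := (hasSum_subtype_iff_indicator (f := fun q => F (ChB_Phi q))).1
    ((ChB_inj.hasSum_iff h0).2 h1.hasSum)
  have h3 := ChB_neg.hasSum_iff.2 h2
  refine (congrArg (HasSum · _) (funext fun q => ?_)).mp (h2.add h3)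
  simp only [Function.comp_apply, Set.indicator_apply, Set.mem_ofPred_eq, ChB_Phi_neg]
  have e1 : (ChB_neg q).1 = -q.1 := rfl
  have e2 : (ChB_neg q).2.1 0 = -q.2.1 0 := rfl
  rw [e1, e2]
  by_cases h4 : q.1 ≠ 0 ∧ q.2.1 0 ≠ 0
  · rcases lt_or_gt_of_ne h4.2 with h5 | h5
    · rw [if_neg (fun h => lt_asymm h5 h.2), if_pos ⟨neg_ne_zero.2 h4.1, neg_pos.2 h5⟩, zero_add]
    · rw [if_pos ⟨h4.1, h5⟩, if_neg (fun h => lt_asymm h5 (neg_pos.1 h.2)), add_zero]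
  · rw [hF _ (mt (ChB_Phi_iff q).1 h4)]
    simp

namespace Par

variable {P : Par} {c : P.D → ℤ → ℤ} {χ : ℍ → ℝ}

/-- The decay rate. -/
def ChB_k (P : Par) (t₁ t₂ : ℍ) (r : ℤ × ℤ) : ℝ :=
  Real.pi * t₂.im / (P.p ^ 2 * t₁.im) * ChB_N t₁ r

theorem ChB_trm (c : P.D → ℤ → ℤ) (t₁ t₂ : ℍ) (r : ℤ × ℤ) (τ : ℍ) :
    P.trm c t₁ t₂ !![r.1, r.2; 0, 0] τ = (t₂.im / P.p : ℝ) *
      ((if (P.p : ℤ) ∣ r.1 then P.FF c ![(r.2 : P.D), 0] τ else 0) *
        Real.exp (-(P.ChB_k t₁ t₂ r / τ.im))) := by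
  have e1 : P.col !![r.1, r.2; 0, 0] = ![(r.2 : P.D), 0] := by
    funext i
    fin_cases i <;> simp [col]
  have e2 : 4 * Real.pi * t₂.im * Rm !![r.1, r.2; 0, 0] t₁ τ / P.p ^ 2 =
      P.ChB_k t₁ t₂ r / τ.im := by
    have := t₁.im_pos
    have := τ.im_pos
    have := P.p_pos
    rw [ChB_Rm, ChB_k]
    field_simp
  rw [trm, tm, kk, e1, e2, ChB_det]
  simp [ee_zero]

theorem ChB_per (h : P.IsF 0 c) (t₁ t₂ : ℍ) (r : ℤ × ℤ) (τ : ℍ) :
    P.trm c t₁ t₂ !![r.1, r.2; 0, 0] (ModularGroup.T • τ) =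
      P.trm c t₁ t₂ !![r.1, r.2; 0, 0] τ := by
  have e : ((ModularGroup.T : SL(2, ℤ)) : MZ) * !![r.1, r.2; 0, 0] = !![r.1, r.2; 0, 0] := by
    rw [ModularGroup.coe_T]
    ext i j
    fin_cases i <;> fin_cases j <;> simp [Matrix.mul_apply, Fin.sum_univ_two]
  have := trm_smul h t₁ t₂ ModularGroup.T !![r.1, r.2; 0, 0] τ
  rwa [e] at this

theorem ChB_trm_Phi (h : P.IsF 0 c) (t₁ t₂ : ℍ) (q : (ℤ × ℤ) × CP) (τ : ℍ) :
    P.trm c t₁ t₂ (ChB_Phi q) τ = P.trm c t₁ t₂ !![q.1.1, q.1.2; 0, 0] (gam q.2 • τ) := by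
  rw [← ChB_gam_mul, trm_smul h]

/-- The integrals over the truncated strip. -/
theorem ChB_bound (h : P.IsF 0 c) (t₁ : ℍ) : ∃ Y₀ : ℝ, ∀ t₂ : ℍ, Y₀ ≤ t₂.im → ∀ T : ℝ,
    ∃ u : ℤ × ℤ → ℝ, Summable u ∧ (∀ r, 0 ≤ u r) ∧ ∀ r : ℤ × ℤ, r ≠ 0 →
      IntegrableOn (P.trm c t₁ t₂ !![r.1, r.2; 0, 0]) (strip ∩ {τ | τ.im ≤ T}) ∧
      ∫ τ in strip ∩ {τ | τ.im ≤ T}, ‖P.trm c t₁ t₂ !![r.1, r.2; 0, 0] τ‖ ≤ u r := by
  obtain ⟨C, a, hC, ha, hb⟩ := h.bound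
  obtain ⟨m, hm, hN⟩ := ChB_N_lower t₁
  have hy₁ := t₁.im_pos
  have hp := P.p_pos
  have hπ := Real.pi_pos
  refine ⟨2 * (a + 1) * (P.p ^ 2 * t₁.im) / (Real.pi * m), fun t₂ ht T => ?_⟩
  have hy₂ := t₂.im_pos
  obtain ⟨T', hT', hTT⟩ : ∃ T' : ℝ, 0 < T' ∧ T ≤ T' :=
    ⟨max T 1, lt_max_of_lt_right one_pos, le_max_left _ _⟩
  set δ := Real.pi * t₂.im / (P.p ^ 2 * t₁.im) with hδ
  have hδ0 : 0 < δ := by positivity
  have hδm : 2 * (a + 1) ≤ δ * m := by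
    rw [div_le_iff₀ (by positivity)] at ht
    rw [hδ, div_mul_eq_mul_div, le_div_iff₀ (by positivity)]
    linarith
  set A := t₂.im / P.p * (C * Real.exp (a * T')) with hA
  have hA0 : 0 ≤ A := by positivity
  refine ⟨fun r => A * Real.exp (-(δ / (2 * T') * ChB_N t₁ r)),
    (ChB_summable t₁ (by positivity)).mul_left A, fun r => by positivity, fun r hr => ?_⟩
  have hk : 2 * (a + 1) ≤ P.ChB_k t₁ t₂ r :=
    hδm.trans (mul_le_mul_of_nonneg_left (hN r hr) hδ0.le)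
  have hk1 : 1 ≤ P.ChB_k t₁ t₂ r / 2 := by linarith
  obtain ⟨i1, i2⟩ := ChB_strip (lt_of_lt_of_le one_pos hk1) hT'
  have hsub : strip ∩ {τ : ℍ | τ.im ≤ T} ⊆ strip ∩ {τ : ℍ | τ.im ≤ T'} :=
    fun τ hτ => ⟨hτ.1, hτ.2.trans hTT⟩
  have hle : ∀ τ ∈ strip ∩ {τ : ℍ | τ.im ≤ T'}, ‖P.trm c t₁ t₂ !![r.1, r.2; 0, 0] τ‖ ≤
      A * Real.exp (-(P.ChB_k t₁ t₂ r / 2 / τ.im)) := fun τ hτ => by
    have hy := τ.im_pos
    have h1 := (hb τ (T' + τ.im⁻¹) fun g => (im_smul_le_max g τ).trans (max_le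
      (le_add_of_le_of_nonneg hτ.2 (inv_pos.2 hy).le) (le_add_of_nonneg_left hT'.le))).1
      ![(r.2 : P.D), 0]
    have h2 : ‖if (P.p : ℤ) ∣ r.1 then P.FF c ![(r.2 : P.D), 0] τ else 0‖ ≤
        C * Real.exp (a * (T' + τ.im⁻¹)) := by
      split_ifs
      · exact h1
      · rw [norm_zero]
        positivity
    rw [ChB_trm, norm_mul, norm_mul, Complex.norm_real, Complex.norm_real,
      Real.norm_of_nonneg (by positivity), Real.norm_of_nonneg (Real.exp_pos _).le, hA,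
      mul_assoc]
    refine mul_le_mul_of_nonneg_left ?_ (by positivity)
    refine (mul_le_mul_of_nonneg_right h2 (Real.exp_pos _).le).trans ?_
    rw [mul_assoc, mul_assoc, ← Real.exp_add, ← Real.exp_add]
    refine mul_le_mul_of_nonneg_left (Real.exp_le_exp.2 ?_) hC
    have h3 : a * τ.im⁻¹ ≤ P.ChB_k t₁ t₂ r / 2 * τ.im⁻¹ :=
      mul_le_mul_of_nonneg_right (by linarith) (inv_pos.2 hy).le
    simp only [div_eq_mul_inv] at h3 ⊢
    linarith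
  have hms : MeasurableSet (strip ∩ {τ : ℍ | τ.im ≤ T'}) := measurableSet_strip.inter (ChB_meas T')
  have hae := (ae_restrict_iff' (μ := volume) hms).2 (Filter.Eventually.of_forall hle)
  have i3 : IntegrableOn (P.trm c t₁ t₂ !![r.1, r.2; 0, 0]) (strip ∩ {τ | τ.im ≤ T'}) :=
    Integrable.mono' (i1.const_mul A) (trm_continuous h t₁ t₂ _).aestronglyMeasurable hae
  refine ⟨i3.mono_set hsub, ?_⟩
  refine (setIntegral_mono_set i3.norm (Filter.Eventually.of_forall fun τ => norm_nonneg _)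
    hsub.eventuallyLE).trans ?_
  refine (integral_mono_ae i3.norm (i1.const_mul A) hae).trans ?_
  rw [integral_const_mul, i2]
  refine mul_le_mul_of_nonneg_left ((div_le_self (Real.exp_pos _).le hk1).trans (le_of_eq ?_)) hA0
  congr 2
  rw [ChB_k, ← hδ]
  field_simp

theorem ChB_le (hχ : IsChi χ) {φ : ℍ → ℂ} (hφ : IntegrableOn φ (strip ∩ {τ | τ.im ≤ 2})) :
    ∫ τ in strip, (1 - χ τ) * ‖φ τ‖ ≤ ∫ τ in strip ∩ {τ | τ.im ≤ 2}, ‖φ τ‖ := by
  rw [setIntegral_eq_of_subset_of_forall_sdiff_eq_zero measurableSet_strip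
    (Set.inter_subset_left (t := {τ : ℍ | τ.im ≤ 2})) fun τ hτ => by
      rw [hχ.high τ (not_le.1 fun h => hτ.2 ⟨hτ.1, h⟩).le, sub_self, zero_mul]]
  refine integral_mono_of_nonneg (Filter.Eventually.of_forall fun τ => ?_) hφ.norm
    (Filter.Eventually.of_forall fun τ => ?_)
  · exact mul_nonneg (sub_nonneg.2 (hχ.le_one τ)) (norm_nonneg _)
  · exact mul_le_of_le_one_left (norm_nonneg _) (sub_le_self _ (hχ.nonneg τ))

/-- The constant term of the form at an isotropic vector. -/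
theorem ChB_ct (h : P.IsF0 c) (b : ℤ) {y : ℝ} (hy : 0 < y) :
    CT y (P.FF c ![(b : P.D), 0]) = P.cp c * (1 - if (P.p : ℤ) ∣ b then (P.p : ℂ) else 0) := by
  have hq := QS.finset_sum Finset.univ fun k _ => (h.qs k).const_mul (P.gg k ![(b : P.D), 0])
  have hq' : QS (P.p ^ 2) (fun ν => ∑ k, P.gg k ![(b : P.D), 0] * (c k ν : ℂ))
      (P.FF c ![(b : P.D), 0]) :=
    hq.congr (fun _ => rfl) fun τ => Finset.sum_congr rfl fun k _ => mul_comm _ _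
  have hp : ∀ τ, P.FF c ![(b : P.D), 0] (ModularGroup.T • τ) = P.FF c ![(b : P.D), 0] τ :=
    fun τ => by
      have := h.toIsF.FF_smul ModularGroup.T ![(b : P.D), 0] τ
      rw [act_T] at this
      simpa using this
  rw [hq'.ct (pow_pos P.prime.pos 2) hp hy]
  have e1 : ∀ k, P.gg k ![(b : P.D), 0] * (c k 0 : ℂ) =
      if P.rd k = P.rd 0 then P.psi (k * b) * c k 0 else 0 := fun k => by
    simp [gg]
  have e2 : ∀ z : P.F, P.psi ((0 + P.up z) * b) * (c (0 + P.up z) 0 : ℂ) =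
      -(P.cp c : ℂ) * P.zp (z * b) + if z = 0 then (P.cp c : ℂ) else 0 := fun z => by
    rw [zero_add, up_mul, psi_up, rd_int]
    by_cases hz : z = 0
    · rw [if_pos hz, hz, up_zero, h.zero, zero_mul, zp_zero]
      simp
    · rw [if_neg hz, h.const z hz]
      push_cast
      ring
  simp only [e1]
  rw [sum_fibre]
  simp only [e2]
  rw [Finset.sum_add_distrib, ← Finset.mul_sum, sum_zp, Finset.sum_ite_eq',
    if_pos (Finset.mem_univ _)]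
  simp only [ZMod.intCast_zmod_eq_zero_iff_dvd]
  ring

/-- The matrices of rank one with nonzero second row. -/
theorem chamber_rank (hχ : IsChi χ) (h : P.IsF 0 c) (t₁ : ℍ) : ∃ Y₀ : ℝ, ∀ t₂ : ℍ, Y₀ ≤ t₂.im →
    (∀ Y : MZ, Y.det = 0 → Y 1 ≠ 0 → Integrable fun τ => (ps χ τ : ℂ) * P.trm c t₁ t₂ Y τ) ∧
    Summable (fun Y : MZ =>
      if Y.det = 0 ∧ Y 1 ≠ 0 then ∫ τ, ‖(ps χ τ : ℂ) * P.trm c t₁ t₂ Y τ‖ else 0) ∧
    (∀ r : ℤ × ℤ, r ≠ 0 → ∀ T : ℝ, IntegrableOn (P.trm c t₁ t₂ !![r.1, r.2; 0, 0])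
      (strip ∩ {τ | τ.im ≤ T})) ∧
    (∀ T : ℝ, Summable fun r : ℤ × ℤ => if r ≠ 0 then
      ∫ τ in strip ∩ {τ | τ.im ≤ T}, ‖P.trm c t₁ t₂ !![r.1, r.2; 0, 0] τ‖ else 0) ∧
    ∑' Y : MZ, (if Y.det = 0 ∧ Y 1 ≠ 0 then ∫ τ, (ps χ τ : ℂ) * P.trm c t₁ t₂ Y τ else 0) =
      ∑' r : ℤ × ℤ, if r ≠ 0 then
        ∫ τ in strip, (1 - (χ τ : ℂ)) * P.trm c t₁ t₂ !![r.1, r.2; 0, 0] τ else 0 := by
  obtain ⟨Y₀, hY⟩ := ChB_bound h t₁
  refine ⟨Y₀, fun t₂ ht => ?_⟩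
  obtain ⟨u, hu, hu0, hb⟩ := hY t₂ ht 2
  have hU := fun (r : ℤ × ℤ) (hr : r ≠ 0) =>
    hχ.unfold_cp (trm_continuous h t₁ t₂ !![r.1, r.2; 0, 0]) (ChB_per h t₁ t₂ r) (hb r hr).1
  have e1 : ∀ q : (ℤ × ℤ) × CP, (if (ChB_Phi q).det = 0 ∧ ChB_Phi q 1 ≠ 0 then
      ∫ τ, ‖(ps χ τ : ℂ) * P.trm c t₁ t₂ (ChB_Phi q) τ‖ else 0) =
      if q.1 ≠ 0 then (if q.2.1 0 = 0 then 0 else
        ∫ τ, ‖(ps χ τ : ℂ) * P.trm c t₁ t₂ !![q.1.1, q.1.2; 0, 0] (gam q.2 • τ)‖) else 0 :=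
    fun q => by
      simp only [ChB_Phi_iff, ChB_trm_Phi h]
      by_cases h1 : q.1 = 0 <;> by_cases h2 : q.2.1 0 = 0 <;> simp [h1, h2]
  have e2 : ∀ q : (ℤ × ℤ) × CP, (if (ChB_Phi q).det = 0 ∧ ChB_Phi q 1 ≠ 0 then
      ∫ τ, (ps χ τ : ℂ) * P.trm c t₁ t₂ (ChB_Phi q) τ else 0) =
      if q.1 ≠ 0 then (if q.2.1 0 = 0 then 0 else
        ∫ τ, (ps χ τ : ℂ) * P.trm c t₁ t₂ !![q.1.1, q.1.2; 0, 0] (gam q.2 • τ)) else 0 :=
    fun q => by
      simp only [ChB_Phi_iff, ChB_trm_Phi h]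
      by_cases h1 : q.1 = 0 <;> by_cases h2 : q.2.1 0 = 0 <;> simp [h1, h2]
  have s1 : Summable fun q : (ℤ × ℤ) × CP => if (ChB_Phi q).det = 0 ∧ ChB_Phi q 1 ≠ 0 then
      ∫ τ, ‖(ps χ τ : ℂ) * P.trm c t₁ t₂ (ChB_Phi q) τ‖ else 0 := by
    have hn : ∀ q : (ℤ × ℤ) × CP, 0 ≤ if (ChB_Phi q).det = 0 ∧ ChB_Phi q 1 ≠ 0 then
        ∫ τ, ‖(ps χ τ : ℂ) * P.trm c t₁ t₂ (ChB_Phi q) τ‖ else 0 := fun q => by
      split_ifs
      · exact integral_nonneg fun τ => norm_nonneg _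
      · exact le_rfl
    refine (summable_prod_of_nonneg hn).2 ⟨fun r => ?_, ?_⟩
    · simp only [e1]
      by_cases hr : r ≠ 0
      · simp only [if_pos hr]
        exact (hU r hr).2.1.summable
      · simp only [if_neg hr]
        exact summable_zero
    · refine Summable.of_nonneg_of_le (fun r => tsum_nonneg fun x => hn _) (fun r => ?_)
        (hu.mul_left 2)
      simp only [e1]
      by_cases hr : r ≠ 0
      · simp only [if_pos hr]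
        rw [(hU r hr).2.1.tsum_eq]
        exact mul_le_mul_of_nonneg_left ((ChB_le hχ (hb r hr).1).trans (hb r hr).2) zero_le_two
      · simp only [if_neg hr]
        rw [tsum_zero]
        exact mul_nonneg zero_le_two (hu0 r)
  have s2 : Summable fun q : (ℤ × ℤ) × CP => if (ChB_Phi q).det = 0 ∧ ChB_Phi q 1 ≠ 0 then
      ∫ τ, (ps χ τ : ℂ) * P.trm c t₁ t₂ (ChB_Phi q) τ else 0 := by
    refine Summable.of_norm_bounded s1 fun q => ?_
    split_ifs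
    · exact norm_integral_le_integral_norm _
    · rw [norm_zero]
  refine ⟨fun Y h1 h2 => ?_, (ChB_two (F := fun Y : MZ => if Y.det = 0 ∧ Y 1 ≠ 0 then
      ∫ τ, ‖(ps χ τ : ℂ) * P.trm c t₁ t₂ Y τ‖ else 0) (fun Y hY => if_neg hY) s1).1,
    fun r hr T => ?_, fun T => ?_, ?_⟩
  · obtain ⟨q, h3, rfl⟩ := ChB_surj ⟨h1, h2⟩
    simp only [ChB_trm_Phi h]
    exact (hU q.1 h3.1).1 q.2 h3.2.ne'
  · obtain ⟨_, -, -, h3⟩ := hY t₂ ht T
    exact (h3 r hr).1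
  · obtain ⟨u', h1, h2, h3⟩ := hY t₂ ht T
    refine Summable.of_nonneg_of_le (fun r => ?_) (fun r => ?_) h1
    · split_ifs
      · exact integral_nonneg fun τ => norm_nonneg _
      · exact le_rfl
    · split_ifs with hr
      · exact (h3 r hr).2
      · exact h2 r
  · have e3 := (ChB_two (F := fun Y : MZ => if Y.det = 0 ∧ Y 1 ≠ 0 then
      ∫ τ, (ps χ τ : ℂ) * P.trm c t₁ t₂ Y τ else 0) (fun Y hY => if_neg hY) s2).2
    rw [s2.tsum_prod, ← two_mul] at e3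
    refine mul_left_cancel₀ (two_ne_zero (α := ℂ)) ?_
    rw [← e3, ← tsum_mul_left]
    refine tsum_congr fun r => ?_
    simp only [e2]
    by_cases hr : r ≠ 0
    · simp only [if_pos hr]
      exact (hU r hr).2.2.tsum_eq
    · simp only [if_neg hr]
      rw [tsum_zero, mul_zero]

/-- Evaluation of the unfolded integrals. -/
theorem strip_rank (h : P.IsF0 c) (t₁ t₂ : ℍ) {T : ℝ} (hT : 0 < T)
    (hi : ∀ r : ℤ × ℤ, r ≠ 0 → IntegrableOn (P.trm c t₁ t₂ !![r.1, r.2; 0, 0])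
      (strip ∩ {τ | τ.im ≤ T})) :
    ∑' r : ℤ × ℤ, (if r ≠ 0 then
      ∫ τ in strip ∩ {τ | τ.im ≤ T}, P.trm c t₁ t₂ !![r.1, r.2; 0, 0] τ else 0) =
      (P.JJ c t₁ (Real.pi * t₂.im / (P.p ^ 2 * t₁.im * T)) : ℝ) := by
  obtain ⟨m, hm, hN⟩ := ChB_N_lower t₁
  have hy₁ := t₁.im_pos
  have hy₂ := t₂.im_pos
  have hp := P.p_pos
  have hπ := Real.pi_pos
  rw [JJ, ← tsum_mul_left, Complex.ofReal_tsum]
  refine tsum_congr fun r => ?_
  by_cases hr : r ≠ 0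
  · have hN0 : 0 < ChB_N t₁ r := hm.trans_le (hN r hr)
    have hk : 0 < P.ChB_k t₁ t₂ r := by
      rw [ChB_k]
      positivity
    have es : strip ∩ {τ : ℍ | τ.im ≤ T} = strip ∩ {τ : ℍ | τ.im ∈ Set.Ioc 0 T} := by
      ext τ
      simp [τ.im_pos]
    have hi' := hi r hr
    rw [es] at hi'
    rw [if_pos hr, es, integral_strip measurableSet_Ioc Set.Ioc_subset_Ioi_self hi']
    obtain ⟨K, hK⟩ : ∃ K : ℝ, K = if (P.p : ℤ) ∣ r.1 then
      (P.cp c : ℝ) * (1 - if (P.p : ℤ) ∣ r.2 then (P.p : ℝ) else 0) else 0 := ⟨_, rfl⟩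
    have e1 : ∀ y ∈ Set.Ioc (0 : ℝ) T, ((y : ℂ) ^ 2)⁻¹ * CT y (P.trm c t₁ t₂ !![r.1, r.2; 0, 0]) =
        ((t₂.im / P.p * K * (Real.exp (-(P.ChB_k t₁ t₂ r / y)) * (y ^ 2)⁻¹) : ℝ) : ℂ) :=
      fun y hy => by
      have e2 : ∀ x : ℝ, (ofComplex (x + y * Complex.I)).im = y := fun x => by
        have h1 : 0 < ((x : ℂ) + y * Complex.I).im := by simpa using hy.1
        rw [ofComplex_apply_of_im_pos h1]
        simp [UpperHalfPlane.im]
      have e3 := ChB_ct h r.2 hy.1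
      rw [CT] at e3 ⊢
      simp only [ChB_trm, e2]
      rw [intervalIntegral.integral_const_mul, intervalIntegral.integral_mul_const, hK]
      by_cases h1 : (P.p : ℤ) ∣ r.1
      · simp only [if_pos h1]
        rw [e3]
        push_cast
        split_ifs <;> push_cast <;> ring
      · simp [if_neg h1]
    rw [setIntegral_congr_fun measurableSet_Ioc e1, integral_complex_ofReal, integral_const_mul,
      (ChB_int hk hT).2]
    congr 1
    have e4 : P.ChB_k t₁ t₂ r / T = Real.pi * t₂.im / (P.p ^ 2 * t₁.im * T) * ChB_N t₁ r := by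
      rw [ChB_k]
      field_simp
    rw [e4, hK]
    change _ = P.p * t₁.im / Real.pi * if (P.p : ℤ) ∣ r.1 then _ * (Real.exp (-(_ * ChB_N t₁ r)) /
      ChB_N t₁ r) else 0
    by_cases h1 : (P.p : ℤ) ∣ r.1
    · simp only [if_pos h1]
      rw [ChB_k]
      field_simp
    · simp [if_neg h1]
  · rw [if_neg hr, not_not.1 hr]
    simp

end Par

end

end Pool.Agent.P.MP_a60a76_nt.Sz
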