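import Pool.Agent.P.MP_a60a76_nt.Sz.ChA
import Pool.Agent.P.MP_a60a76_nt.Sz.ChB

namespace Pool.Agent.P.MP_a60a76_nt.Sz

open UpperHalfPlane MeasureTheory SP
open scoped MatrixGroups UpperHalfPlane Matrix Modular Topology Classical ArithmeticFunction.sigma

noncomputable section

/-! The chamber expansion. -/

theorem Cham_inj : Function.Injective fun r : ℤ × ℤ => (!![r.1, r.2; 0, 0] : MZ) := by
  intro r s h
  have h1 := congrFun (congrFun h 0) 0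
  have h2 := congrFun (congrFun h 0) 1
  simp only [Matrix.of_apply, Matrix.cons_val', Matrix.cons_val_zero, Matrix.cons_val_one] at h1 h2
  exact Prod.ext h1 h2

theorem Cham_row {Y : MZ} (h : Y 1 = 0) : Y = !![Y 0 0, Y 0 1; 0, 0] := by
  ext i j
  fin_cases i <;> fin_cases j <;> simp [h]

theorem Cham_row_one (r : ℤ × ℤ) : (!![r.1, r.2; 0, 0] : MZ) 1 = 0 := by
  funext j
  fin_cases j <;> simp

theorem Cham_zero : (!![(0 : ℤ × ℤ).1, (0 : ℤ × ℤ).2; 0, 0] : MZ) = 0 := by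
  ext i j
  fin_cases i <;> fin_cases j <;> simp

/-- The four classes of matrices. -/
theorem Cham_split {E : Type} [NormedAddCommGroup E] {F : MZ → E} {a b s : E}
    (hA : HasSum (fun Y : MZ => if Y.det ≠ 0 then F Y else 0) a)
    (hB : HasSum (fun Y : MZ => if Y.det = 0 ∧ Y 1 ≠ 0 then F Y else 0) b)
    (hC : HasSum (fun r : ℤ × ℤ => if r ≠ 0 then F !![r.1, r.2; 0, 0] else 0) s) :
    HasSum F (a + b + s + F 0) := by
  have h0 : ∀ Y, Y ∉ Set.range (fun r : ℤ × ℤ => (!![r.1, r.2; 0, 0] : MZ)) →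
      (if Y 1 = 0 ∧ Y ≠ 0 then F Y else 0) = 0 := fun Y hY =>
    if_neg fun h => hY ⟨(Y 0 0, Y 0 1), (Cham_row h.1).symm⟩
  have hC' : HasSum (fun Y : MZ => if Y 1 = 0 ∧ Y ≠ 0 then F Y else 0) s := by
    refine (Cham_inj.hasSum_iff h0).1 ((congrArg (HasSum · _) (funext fun r => ?_)).mp hC)
    rw [Function.comp_apply]
    refine if_congr ?_ rfl rfl
    rw [← Cham_zero, Cham_inj.ne_iff]
    exact (and_iff_right (Cham_row_one r)).symm
  have hD : HasSum (fun Y : MZ => if Y = 0 then F 0 else 0) (F 0) := hasSum_ite_eq 0 (F 0)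
  refine (congrArg (HasSum · _) (funext fun Y => ?_)).mp (((hA.add hB).add hC').add hD)
  by_cases h1 : Y = 0
  · subst h1
    have h2 : (0 : MZ) 1 = 0 := rfl
    simp [h2]
  · by_cases h2 : Y 1 = 0
    · have h3 : Y.det = 0 := by
        rw [Cham_row h2]
        exact ChB_det (Y 0 0, Y 0 1)
      simp [h1, h2, h3]
    · by_cases h3 : Y.det = 0 <;> simp [h1, h2, h3]

theorem Cham_lim {f : ℍ → ℂ} (hf : Integrable f) :
    Filter.Tendsto (fun T : ℝ => ∫ τ in {τ : ℍ | τ.im ≤ T}, f τ) Filter.atTop (𝓝 (∫ τ, f τ)) := by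
  have h := tendsto_setIntegral_of_monotone (μ := volume) (f := f)
    (s := fun T : ℝ => {τ : ℍ | τ.im ≤ T}) ChB_meas
    (fun a b hab τ hτ => le_trans (b := a) hτ hab) hf.integrableOn
  have e : ⋃ T : ℝ, {τ : ℍ | τ.im ≤ T} = Set.univ :=
    Set.eq_univ_of_forall fun τ => Set.mem_iUnion.2 ⟨τ.im, le_refl τ.im⟩
  rwa [e, Measure.restrict_univ] at h

/-- Summable families of integrable functions: truncation. -/
theorem Cham_trunc {f : MZ → ℍ → ℂ} {q : MZ → Prop} [DecidablePred q]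
    (hi : ∀ Y, q Y → Integrable (f Y))
    (hs : Summable fun Y => if q Y then ∫ τ, ‖f Y τ‖ else 0) :
    (∀ T : ℝ, Summable fun Y => if q Y then ∫ τ in {τ : ℍ | τ.im ≤ T}, ‖f Y τ‖ else 0) ∧
    (∀ T : ℝ, Summable fun Y => if q Y then ∫ τ in {τ : ℍ | τ.im ≤ T}, f Y τ else 0) ∧
    Filter.Tendsto (fun T : ℝ => ∑' Y, if q Y then ∫ τ in {τ : ℍ | τ.im ≤ T}, f Y τ else 0)
      Filter.atTop (𝓝 (∑' Y, if q Y then ∫ τ, f Y τ else 0)) := by
  have h1 : ∀ (T : ℝ) Y, q Y → ∫ τ in {τ : ℍ | τ.im ≤ T}, ‖f Y τ‖ ≤ ∫ τ, ‖f Y τ‖ := fun T Y hY =>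
    setIntegral_le_integral (hi Y hY).norm (Filter.Eventually.of_forall fun τ => norm_nonneg _)
  have h2 : ∀ (T : ℝ) Y, ‖if q Y then ∫ τ in {τ : ℍ | τ.im ≤ T}, f Y τ else 0‖ ≤
      if q Y then ∫ τ, ‖f Y τ‖ else 0 := fun T Y => by
    split_ifs with hY
    · exact (norm_integral_le_integral_norm _).trans (h1 T Y hY)
    · rw [norm_zero]
  refine ⟨fun T => Summable.of_nonneg_of_le (fun Y => ?_) (fun Y => ?_) hs,
    fun T => Summable.of_norm_bounded hs (h2 T),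
    tendsto_tsum_of_dominated_convergence hs (fun Y => ?_) (Filter.Eventually.of_forall h2)⟩
  · split_ifs
    · exact integral_nonneg fun τ => norm_nonneg _
    · exact le_rfl
  · split_ifs with hY
    · exact h1 T Y hY
    · exact le_rfl
  · split_ifs with hY
    · exact Cham_lim (hi Y hY)
    · exact tendsto_const_nhds

variable {χ : ℍ → ℝ}

theorem Cham_norm (hχ : IsChi χ) {φ : ℍ → ℂ} {T : ℝ}
    (hi : IntegrableOn φ (strip ∩ {τ | τ.im ≤ T})) :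
    ∫ τ in {τ : ℍ | τ.im ≤ T}, ‖(ps χ τ : ℂ) * φ τ‖ ≤ ∫ τ in strip ∩ {τ | τ.im ≤ T}, ‖φ τ‖ := by
  rw [setIntegral_eq_of_subset_of_forall_sdiff_eq_zero (ChB_meas T)
    (Set.inter_subset_right (s := strip)) fun τ hτ => by
      rw [ps, if_neg fun h => hτ.2 ⟨h, hτ.1⟩, Complex.ofReal_zero, zero_mul, norm_zero]]
  refine integral_mono_of_nonneg (Filter.Eventually.of_forall fun τ => norm_nonneg _) hi.norm
    (Filter.Eventually.of_forall fun τ => ?_)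
  simp only [norm_mul, Complex.norm_real, Real.norm_of_nonneg (hχ.ps_nonneg τ).1]
  exact mul_le_of_le_one_left (norm_nonneg _) (hχ.ps_nonneg τ).2

theorem Cham_val (hχ : IsChi χ) {φ : ℍ → ℂ} (hc : Continuous φ) {T : ℝ} (hT : 2 ≤ T)
    (hi : IntegrableOn φ (strip ∩ {τ | τ.im ≤ T})) :
    ∫ τ in strip, (1 - (χ τ : ℂ)) * φ τ = (∫ τ in strip ∩ {τ | τ.im ≤ T}, φ τ) -
      ∫ τ in {τ : ℍ | τ.im ≤ T}, (ps χ τ : ℂ) * φ τ := by
  rw [setIntegral_eq_of_subset_of_forall_sdiff_eq_zero (ChB_meas T)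
    (Set.inter_subset_right (s := strip)) fun τ hτ => by
      rw [ps, if_neg fun h => hτ.2 ⟨h, hτ.1⟩, Complex.ofReal_zero, zero_mul],
    setIntegral_eq_of_subset_of_forall_sdiff_eq_zero measurableSet_strip
    (Set.inter_subset_left (t := {τ : ℍ | τ.im ≤ T})) fun τ hτ => by
      rw [hχ.high τ (hT.trans (not_le.1 fun h => hτ.2 ⟨hτ.1, h⟩).le), Complex.ofReal_one,
        sub_self, zero_mul],
    ← integral_sub hi ((hχ.integrableOn_IT hc T).mono_set Set.inter_subset_right)]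
  refine setIntegral_congr_fun (measurableSet_strip.inter (ChB_meas T)) fun τ hτ => ?_
  simp only [ps, if_pos hτ.1]
  ring

/-- The truncated integral of a function with constant horizontal integrals converges. -/
theorem Cham_const (hχ : IsChi χ) {φ : ℍ → ℂ} (hc : Continuous φ) {K : ℂ}
    (hK : ∀ y : ℝ, 0 < y → CT y φ = K) :
    ∃ L : ℂ, Filter.Tendsto (fun T => IT χ T φ) Filter.atTop (𝓝 L) := by
  have hint : IntegrableOn (fun y : ℝ => ((y : ℂ) ^ 2)⁻¹ * K) (⋃ T : ℝ, Set.Ioc 2 T) := by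
    have h1 := integrableOn_Ioi_cpow_of_lt (a := -2) (by simp) (c := 2) two_pos
    simp only [Complex.cpow_neg, Complex.cpow_two] at h1
    exact IntegrableOn.mono_set (h1.mul_const K)
      (Set.iUnion_subset fun T => Set.Ioc_subset_Ioi_self)
  have hl := tendsto_setIntegral_of_monotone (μ := volume)
    (s := fun T : ℝ => Set.Ioc (2 : ℝ) T) (fun T => measurableSet_Ioc)
    (fun a b hab => Set.Ioc_subset_Ioc_right hab) hint
  refine ⟨_, (hl.const_add (IT χ 2 φ)).congr' ?_⟩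
  filter_upwards [Filter.eventually_ge_atTop (2 : ℝ)] with T hT
  have hm : MeasurableSet {τ : ℍ | τ.im ∈ Set.Ioc 2 T} :=
    UpperHalfPlane.continuous_im.measurable measurableSet_Ioc
  have e : {τ : ℍ | τ.im ≤ T} = {τ : ℍ | τ.im ≤ 2} ∪ {τ : ℍ | τ.im ∈ Set.Ioc 2 T} := by
    ext τ
    simp only [Set.mem_ofPred_eq, Set.mem_union, Set.mem_Ioc]
    constructor
    · intro h
      rcases le_or_gt τ.im 2 with h2 | h2
      · exact Or.inl h2
      · exact Or.inr ⟨h2, h⟩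
    · rintro (h | h)
      · exact h.trans hT
      · exact h.2
  have hd : Disjoint {τ : ℍ | τ.im ≤ 2} {τ : ℍ | τ.im ∈ Set.Ioc 2 T} :=
    Set.disjoint_left.2 fun τ h1 h2 => not_lt.2 h1 h2.1
  have hi : IntegrableOn φ (strip ∩ {τ : ℍ | τ.im ∈ Set.Ioc 2 T}) :=
    (integrableOn_strip hc (a := 2) (b := T) two_pos).mono_set
      fun τ hτ => ⟨hτ.1, Set.Ioc_subset_Icc_self hτ.2⟩
  have e2 : ∫ τ in {τ : ℍ | τ.im ∈ Set.Ioc 2 T}, (ps χ τ : ℂ) * φ τ =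
      ∫ y in Set.Ioc (2 : ℝ) T, ((y : ℂ) ^ 2)⁻¹ * K := by
    rw [setIntegral_eq_of_subset_of_forall_sdiff_eq_zero hm
      (Set.inter_subset_right (s := strip)) fun τ hτ => by
        rw [ps, if_neg fun h => hτ.2 ⟨h, hτ.1⟩, Complex.ofReal_zero, zero_mul],
      setIntegral_congr_fun (measurableSet_strip.inter hm) (g := φ) fun τ hτ => by
        simp only [ps, if_pos hτ.1, hχ.high τ hτ.2.1.le, Complex.ofReal_one, one_mul],
      integral_strip measurableSet_Ioc (fun y hy => lt_trans two_pos hy.1) hi]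
    exact setIntegral_congr_fun measurableSet_Ioc fun y hy => by
      simp only [hK y (lt_trans two_pos hy.1)]
  rw [IT, IT, e, setIntegral_union hd hm (hχ.integrableOn_IT hc 2)
    ((hχ.integrableOn_IT hc T).mono_set fun τ hτ => hτ.2), e2]

namespace Par

variable {P : Par} {c : P.D → ℤ → ℤ}

theorem Cham_trm_zero (c : P.D → ℤ → ℤ) (t₁ t₂ τ : ℍ) :
    P.trm c t₁ t₂ 0 τ = (t₂.im / P.p : ℝ) * P.FF c ![((0 : ℤ) : P.D), 0] τ := by
  have h := ChB_trm c t₁ t₂ 0 τ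
  rw [Cham_zero] at h
  rw [h]
  simp [ChB_k, ChB_N]

end Par

namespace Par

variable {P : Par} {c : P.D → ℤ → ℤ} {χ : ℍ → ℝ}

theorem chamber (hχ : IsChi χ) (h : P.IsF0 c) : ∃ C : ℂ, ∀ t₁ : ℍ, ∃ Y₀ : ℝ, ∀ t₂ : ℍ,
    Y₀ ≤ t₂.im → Filter.Tendsto (fun T => IT χ T (P.pr c (P.th t₁ t₂)) -
        (P.JJ c t₁ (Real.pi * t₂.im / (P.p ^ 2 * t₁.im * T)) : ℝ)) Filter.atTop
      (𝓝 (C * t₂.im + (4 * (∑' N, P.HH c (N + 1) t₁ * P.sv t₂ ^ (N + 1)).re : ℝ))) := by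
  obtain ⟨L, hL⟩ := Cham_const hχ (c1_of_hol (h.toIsF.FF_hol ![((0 : ℤ) : P.D), 0])).1.continuous
    fun y hy => ChB_ct h 0 hy
  refine ⟨L / P.p, fun t₁ => ?_⟩
  obtain ⟨Y₁, hY₁⟩ := chamber_det hχ h.toIsF t₁
  obtain ⟨Y₂, hY₂⟩ := chamber_rank hχ h.toIsF t₁
  refine ⟨max Y₁ Y₂, fun t₂ ht => ?_⟩
  obtain ⟨a1, a2, a3⟩ := hY₁ t₂ (le_of_max_le_left ht)
  obtain ⟨b1, b2, c1, c2, b3⟩ := hY₂ t₂ (le_of_max_le_right ht)
  obtain ⟨a4, a5, a6⟩ := Cham_trunc (f := fun Y τ => (ps χ τ : ℂ) * P.trm c t₁ t₂ Y τ)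
    (q := fun Y => Y.det ≠ 0) a1 a2
  obtain ⟨b4, b5, b6⟩ := Cham_trunc (f := fun Y τ => (ps χ τ : ℂ) * P.trm c t₁ t₂ Y τ)
    (q := fun Y => Y.det = 0 ∧ Y 1 ≠ 0) (fun Y hY => b1 Y hY.1 hY.2) b2
  have hc := trm_continuous h.toIsF t₁ t₂
  have c3 : ∀ T : ℝ, Summable fun r : ℤ × ℤ => if r ≠ 0 then ∫ τ in {τ : ℍ | τ.im ≤ T},
      ‖(ps χ τ : ℂ) * P.trm c t₁ t₂ !![r.1, r.2; 0, 0] τ‖ else 0 := fun T => by
    refine Summable.of_nonneg_of_le (fun r => ?_) (fun r => ?_) (c2 T)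
    · split_ifs
      · exact integral_nonneg fun τ => norm_nonneg _
      · exact le_rfl
    · split_ifs with hr
      · exact Cham_norm hχ (c1 r hr T)
      · exact le_rfl
  have c4 : ∀ T : ℝ, Summable fun r : ℤ × ℤ => if r ≠ 0 then ∫ τ in {τ : ℍ | τ.im ≤ T},
      (ps χ τ : ℂ) * P.trm c t₁ t₂ !![r.1, r.2; 0, 0] τ else 0 := fun T => by
    refine Summable.of_norm_bounded (c3 T) fun r => ?_
    split_ifs
    · exact norm_integral_le_integral_norm _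
    · rw [norm_zero]
  have c5 : ∀ T : ℝ, Summable fun r : ℤ × ℤ => if r ≠ 0 then
      ∫ τ in strip ∩ {τ : ℍ | τ.im ≤ T}, P.trm c t₁ t₂ !![r.1, r.2; 0, 0] τ else 0 := fun T => by
    refine Summable.of_norm_bounded (c2 T) fun r => ?_
    split_ifs
    · exact norm_integral_le_integral_norm _
    · rw [norm_zero]
  have d1 : ∀ T : ℝ, ∫ τ in {τ : ℍ | τ.im ≤ T}, (ps χ τ : ℂ) * P.trm c t₁ t₂ 0 τ =
      (t₂.im / P.p : ℝ) * IT χ T (P.FF c ![((0 : ℤ) : P.D), 0]) := fun T => by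
    rw [IT, ← integral_const_mul]
    refine integral_congr_ae (Filter.Eventually.of_forall fun τ => ?_)
    simp only [Cham_trm_zero]
    ring
  have key : ∀ T : ℝ, IT χ T (P.pr c (P.th t₁ t₂)) =
      (∑' Y : MZ, if Y.det ≠ 0 then
        ∫ τ in {τ : ℍ | τ.im ≤ T}, (ps χ τ : ℂ) * P.trm c t₁ t₂ Y τ else 0) +
      (∑' Y : MZ, if Y.det = 0 ∧ Y 1 ≠ 0 then
        ∫ τ in {τ : ℍ | τ.im ≤ T}, (ps χ τ : ℂ) * P.trm c t₁ t₂ Y τ else 0) +
      (∑' r : ℤ × ℤ, if r ≠ 0 then ∫ τ in {τ : ℍ | τ.im ≤ T},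
        (ps χ τ : ℂ) * P.trm c t₁ t₂ !![r.1, r.2; 0, 0] τ else 0) +
      (t₂.im / P.p : ℝ) * IT χ T (P.FF c ![((0 : ℤ) : P.D), 0]) := fun T => by
    have s1 := (Cham_split (F := fun Y => ∫ τ in {τ : ℍ | τ.im ≤ T},
      ‖(ps χ τ : ℂ) * P.trm c t₁ t₂ Y τ‖) (a4 T).hasSum (b4 T).hasSum (c3 T).hasSum).summable
    have s2 := Cham_split (F := fun Y => ∫ τ in {τ : ℍ | τ.im ≤ T},
      (ps χ τ : ℂ) * P.trm c t₁ t₂ Y τ) (a5 T).hasSum (b5 T).hasSum (c4 T).hasSum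
    have : Countable MZ := inferInstanceAs (Countable (Fin 2 → Fin 2 → ℤ))
    have s3 := hasSum_integral_of_summable_integral_norm
      (F := fun Y τ => (ps χ τ : ℂ) * P.trm c t₁ t₂ Y τ)
      (fun Y => hχ.integrableOn_IT (hc Y) T) s1
    rw [← d1, ← s3.unique s2, IT]
    refine integral_congr_ae (Filter.Eventually.of_forall fun τ => ?_)
    exact ((pr_th_eq h.toIsF t₁ t₂ τ).mul_left _).tsum_eq.symm
  have c6 : ∀ T : ℝ, 2 ≤ T → (∑' Y : MZ, if Y.det = 0 ∧ Y 1 ≠ 0 then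
      ∫ τ, (ps χ τ : ℂ) * P.trm c t₁ t₂ Y τ else 0) =
      (P.JJ c t₁ (Real.pi * t₂.im / (P.p ^ 2 * t₁.im * T)) : ℝ) -
        ∑' r : ℤ × ℤ, if r ≠ 0 then ∫ τ in {τ : ℍ | τ.im ≤ T},
          (ps χ τ : ℂ) * P.trm c t₁ t₂ !![r.1, r.2; 0, 0] τ else 0 := fun T hT => by
    rw [b3, ← strip_rank h t₁ t₂ (lt_of_lt_of_le two_pos hT) fun r hr => c1 r hr T,
      ← (c5 T).tsum_sub (c4 T)]
    refine tsum_congr fun r => ?_
    split_ifs with hr
    · exact Cham_val hχ (hc _) hT (c1 r hr T)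
    · rw [sub_zero]
  rw [a3] at a6
  have fin := ((a6.add b6).add (hL.const_mul ((t₂.im / P.p : ℝ) : ℂ))).sub_const
    (∑' Y : MZ, if Y.det = 0 ∧ Y 1 ≠ 0 then ∫ τ, (ps χ τ : ℂ) * P.trm c t₁ t₂ Y τ else 0)
  refine (congrArg (fun z => Filter.Tendsto _ _ (𝓝 z)) ?_).mp (fin.congr' ?_)
  · push_cast
    ring
  · filter_upwards [Filter.eventually_ge_atTop (2 : ℝ)] with T hT
    rw [key T, c6 T hT]
    ring

end Par

end

end Pool.Agent.P.MP_a60a76_nt.Sz
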