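import Pool.Agent.P.MP_a60a76_nt.Sz.Base

namespace Pool.Agent.P.MP_a60a76_nt.Sz

open UpperHalfPlane MeasureTheory SP
open scoped MatrixGroups UpperHalfPlane Matrix Modular Topology Classical ArithmeticFunction.sigma

noncomputable section

/-! Cosets in the modular group and Hermite normal forms. -/

theorem Cos_det (g : SL(2, ℤ)) : g 0 0 * g 1 1 - g 0 1 * g 1 0 = 1 := by
  have := g.det_coe
  rwa [Matrix.det_fin_two] at this

theorem Cos_T_mul (n : ℤ) (h : SL(2, ℤ)) :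
    (ModularGroup.T ^ n * h) 0 0 = h 0 0 + n * h 1 0 ∧
      (ModularGroup.T ^ n * h) 0 1 = h 0 1 + n * h 1 1 ∧
      (ModularGroup.T ^ n * h) 1 0 = h 1 0 ∧ (ModularGroup.T ^ n * h) 1 1 = h 1 1 := by
  simp [Matrix.SpecialLinearGroup.coe_mul, ModularGroup.coe_T_zpow, Matrix.mul_apply,
    Fin.sum_univ_two, -map_zpow]

theorem Cos_ext {g h : SL(2, ℤ)} (h1 : g 0 0 = h 0 0) (h2 : g 0 1 = h 0 1) (h3 : g 1 0 = h 1 0)
    (h4 : g 1 1 = h 1 1) : g = h := by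
  ext i j
  fin_cases i <;> fin_cases j <;> assumption

/-- The bottom row. -/
def Cos_row (g : SL(2, ℤ)) : CP := ⟨![g 1 0, g 1 1], g.isCoprime_row 1⟩

theorem Cos_cp_ext {x y : CP} (h0 : x.1 0 = y.1 0) (h1 : x.1 1 = y.1 1) : x = y := by
  apply Subtype.ext
  ext i
  fin_cases i <;> assumption

theorem Cos_row_gam (x : CP) : Cos_row (gam x) = x := Cos_cp_ext (gam_row x).1 (gam_row x).2

theorem Cos_row_T (n : ℤ) (h : SL(2, ℤ)) : Cos_row (ModularGroup.T ^ n * h) = Cos_row h :=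
  Cos_cp_ext (Cos_T_mul n h).2.2.1 (Cos_T_mul n h).2.2.2

theorem Cos_eq_T (g : SL(2, ℤ)) : ∃ n : ℤ, g = ModularGroup.T ^ n * gam (Cos_row g) := by
  set h := gam (Cos_row g) with hh
  have h0 : h 1 0 = g 1 0 := (gam_row _).1
  have h1 : h 1 1 = g 1 1 := (gam_row _).2
  have d1 := Cos_det g
  have d2 := Cos_det h
  rw [h0, h1] at d2
  obtain ⟨e1, e2, e3, e4⟩ := Cos_T_mul (g 0 1 * h 0 0 - g 0 0 * h 0 1) h
  refine ⟨_, Cos_ext (e1 ▸ ?_) (e2 ▸ ?_) (e3 ▸ h0.symm) (e4 ▸ h1.symm)⟩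
  · rw [h0]; linear_combination h 0 0 * d1 - g 0 0 * d2
  · rw [h1]; linear_combination h 0 1 * d1 - g 0 1 * d2

/-- Every element of the modular group is a translate of a chosen representative. -/
theorem exists_gam (g : SL(2, ℤ)) : ∃ (n : ℤ) (x : CP), x.1 = ![g 1 0, g 1 1] ∧
    g = ModularGroup.T ^ n * gam x := by
  obtain ⟨n, hn⟩ := Cos_eq_T g
  exact ⟨n, Cos_row g, rfl, hn⟩

theorem gam_bijective :
    Function.Bijective fun a : ℤ × CP => ModularGroup.T ^ a.1 * gam a.2 := by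
  refine ⟨?_, fun g => ?_⟩
  · rintro ⟨n, x⟩ ⟨m, y⟩ h
    have h1 : x = y := by
      have := congrArg Cos_row h
      simpa only [Cos_row_T, Cos_row_gam] using this
    subst h1
    have h2 : ModularGroup.T ^ n = ModularGroup.T ^ m := mul_right_cancel h
    have h3 := congrArg (fun g : SL(2, ℤ) => g.1 0 1) h2
    simp only [ModularGroup.coe_T_zpow] at h3
    exact Prod.ext h3 rfl
  · obtain ⟨n, hn⟩ := Cos_eq_T g
    exact ⟨(n, Cos_row g), hn.symm⟩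

/-- Right multiplication permutes the cosets. -/
theorem exists_cp_equiv (g : SL(2, ℤ)) : ∃ e : CP ≃ CP, ∀ x, ∃ n : ℤ,
    gam x * g = ModularGroup.T ^ n * gam (e x) := by
  have key : ∀ (g : SL(2, ℤ)) (x : CP), Cos_row (gam (Cos_row (gam x * g)) * g⁻¹) = x := by
    intro g x
    obtain ⟨n, hn⟩ := Cos_eq_T (gam x * g)
    rw [← Cos_row_T n, ← mul_assoc, ← hn, mul_inv_cancel_right, Cos_row_gam]
  refine ⟨⟨fun x => Cos_row (gam x * g), fun x => Cos_row (gam x * g⁻¹), key g, fun x => ?_⟩,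
    fun x => Cos_eq_T _⟩
  simpa only [inv_inv] using key g⁻¹ x

theorem tsum_gam_mul {φ : SL(2, ℤ) → ℂ} (h : ∀ γ, φ (ModularGroup.T * γ) = φ γ) (g : SL(2, ℤ)) :
    ∑' x : CP, φ (gam x * g) = ∑' x : CP, φ (gam x) := by
  have h1 : ∀ (n : ℤ) (γ : SL(2, ℤ)), φ (ModularGroup.T ^ n * γ) = φ γ := by
    intro n
    induction n with
    | zero => simp
    | succ n ih => intro γ; rw [zpow_add_one, mul_assoc, ih, h]
    | pred n ih =>
      intro γ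
      rw [zpow_sub_one, mul_assoc, ih, ← h, mul_inv_cancel_left]
  obtain ⟨e, he⟩ := exists_cp_equiv g
  rw [← e.tsum_eq fun x => φ (gam x)]
  refine tsum_congr fun x => ?_
  obtain ⟨n, hn⟩ := he x
  rw [hn, h1]

instance : Countable CP := by
  unfold CP
  infer_instance

theorem Cos_dn_lower (A : ℝ) {B : ℝ} (hB : 0 < B) : ∃ r : ℝ, 0 < r ∧ ∀ τ : ℍ, |τ.re| ≤ A →
    B ≤ τ.im → ∀ c d : ℤ, r * ‖(![c, d] : Fin 2 → ℤ)‖ ≤ ‖(c : ℂ) * τ + d‖ := by
  refine ⟨EisensteinSeries.r ⟨⟨A, B⟩, hB⟩, EisensteinSeries.r_pos _, fun τ h1 h2 c d => ?_⟩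
  by_cases h : (![c, d] : Fin 2 → ℤ) = 0
  · rw [h, norm_zero, mul_zero]
    exact norm_nonneg _
  · exact (mul_le_mul_of_nonneg_right
      (EisensteinSeries.r_lower_bound_on_verticalStrip τ hB ⟨h1, h2⟩) (norm_nonneg _)).trans
      (EisensteinSeries.r_mul_max_le τ h)

/-- Only finitely many cosets move a point of a compact set high up. -/
theorem finite_high {K : Set ℍ} (hK : IsCompact K) {y : ℝ} (hy : 0 < y) :
    {x : CP | ∃ τ ∈ K, y ≤ (gam x • τ).im}.Finite := by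
  obtain ⟨A, B, hB, hAB⟩ := subset_verticalStrip_of_isCompact hK
  obtain ⟨r, hr, hr'⟩ := Cos_dn_lower A hB
  obtain ⟨C, hC⟩ := hK.bddAbove_image UpperHalfPlane.continuous_im.continuousOn
  have hfin : (Metric.closedBall (0 : Fin 2 → ℤ) (√(C / y) / r)).Finite :=
    (isCompact_closedBall _ _).finite_of_discrete
  refine (hfin.preimage (f := fun x : CP => x.1) Subtype.val_injective.injOn).subset ?_
  rintro x ⟨τ, hτ, hx⟩
  have h1 := hr' τ (hAB hτ).1 (hAB hτ).2 (x.1 0) (x.1 1)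
  have h2 : (![x.1 0, x.1 1] : Fin 2 → ℤ) = x.1 := by
    ext i
    fin_cases i <;> rfl
  have h3 : 0 < Complex.normSq (dn (gam x) τ) := Complex.normSq_pos.2 (dn_sl_ne_zero _ _)
  rw [h2, ← dn_gam] at h1
  rw [im_sl_smul, le_div_iff₀ h3, Complex.normSq_eq_norm_sq] at hx
  have h4 : τ.im ≤ C := hC ⟨τ, hτ, rfl⟩
  have h5 : ‖dn (gam x) τ‖ ≤ √(C / y) := by
    refine Real.le_sqrt_of_sq_le ?_
    rw [le_div_iff₀ hy]
    linarith
  rw [Set.mem_preimage, mem_closedBall_zero_iff, le_div_iff₀ hr]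
  linarith

theorem summable_cp {s : ℝ} (hs : 2 < s) : Summable fun x : CP => ‖x.1‖ ^ (-s) := by
  exact (EisensteinSeries.summable_one_div_norm_rpow hs).subtype _

/-- Lower bound for the automorphy factor, uniform on vertical strips. -/
theorem dn_lower (A : ℝ) {B : ℝ} (hB : 0 < B) : ∃ r : ℝ, 0 < r ∧ ∀ τ : ℍ, |τ.re| ≤ A → B ≤ τ.im →
    ∀ c d : ℤ, r * ‖(![c, d] : Fin 2 → ℤ)‖ ≤ ‖(c : ℂ) * τ + d‖ := by
  exact Cos_dn_lower A hB

theorem Cos_hasSum_E {k : ℕ} (hk : 3 ≤ k) (τ : ℍ) :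
    HasSum (fun x : CP => (dn (gam x) τ ^ k)⁻¹) (2 * ModularForm.E hk τ) := by
  have h1 : Summable fun x : EisensteinSeries.gammaSet 1 1 0 =>
      EisensteinSeries.eisSummand k x τ :=
    ((EisensteinSeries.summable_norm_eisSummand (k := k) (mod_cast hk) τ).of_norm).subtype _
  have h2 : ModularForm.E hk τ = (1 / 2 : ℂ) * ∑' x : EisensteinSeries.gammaSet 1 1 0,
      EisensteinSeries.eisSummand k x τ := rfl
  let e : CP ≃ EisensteinSeries.gammaSet 1 1 0 :=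
    Equiv.subtypeEquivRight fun v => (EisensteinSeries.mem_gammaSet_one v).symm
  have h3 := e.hasSum_iff.2 h1.hasSum
  rw [h2, ← mul_assoc, mul_one_div_cancel two_ne_zero, one_mul]
  convert h3 using 2 with x
  rw [dn_gam, Function.comp_apply, EisensteinSeries.eisSummand, zpow_neg, zpow_natCast]
  rfl

theorem Cos_E8 (τ : ℍ) : ModularForm.E (by norm_num : 3 ≤ 8) τ = E4 τ ^ 2 := by
  let f : ModularForm 𝒮ℒ 8 := ModularForm.E (by norm_num : 3 ≤ 8) -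
    ModularForm.mcast (by decide) (ModularForm.E₄.pow 2)
  have h1 : (qExpansion 1 f).coeff 0 = 0 := by
    simp only [f, FunLike.coe_sub, ModularForm.coe_mcast,
      ModularForm.qExpansion_sub one_pos one_mem_strictPeriods_SL,
      ModularForm.qExpansion_pow one_pos one_mem_strictPeriods_SL]
    simp [pow_two, PowerSeries.coeff_mul, -PowerSeries.coeff_zero_eq_constantCoeff,
      EisensteinSeries.E_qExpansion_coeff_zero _ ⟨2, rfl⟩,
      EisensteinSeries.E_qExpansion_coeff_zero _ ⟨4, rfl⟩]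
  have h2 : f = 0 := by
    refine ModularForm.sturm_bound_levelOne ?_
    have : ((8 : ℤ).toNat / 12 : ℕ) = 0 := by decide
    rw [this, Nat.cast_zero]
    exact pos_iff_ne_zero.2 (PowerSeries.order_ne_zero_iff_constCoeff_eq_zero.2 (by simpa using h1))
  have h3 : f τ = 0 := by rw [h2]; rfl
  simp only [f, ModularForm.coe_mcast, ModularForm.coe_pow, ModularForm.sub_apply,
    Pi.pow_apply] at h3
  exact sub_eq_zero.1 h3

theorem hasSum_w0 (τ : ℍ) : HasSum (fun x : CP => w0 x τ) 1 := by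
  have h8 := (Cos_hasSum_E (k := 8) (by norm_num) τ).mul_right (E4 τ)
  have h6 := (Cos_hasSum_E (k := 6) (by norm_num) τ).mul_right (E6 τ)
  have h := (h8.sub h6).div_const (3456 * Dl τ)
  rw [Cos_E8] at h
  have h1 : Dl τ = (E4 τ ^ 3 - E6 τ ^ 2) / 1728 := ModularForm.discriminant_eq_E₄_cube_sub_E₆_sq τ
  have h2 : (2 * E4 τ ^ 2 * E4 τ - 2 * E6 τ * E6 τ) / (3456 * Dl τ) = 1 := by
    rw [div_eq_iff (mul_ne_zero (by norm_num) (Dl_ne_zero τ)), h1]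
    ring
  exact h2 ▸ h

theorem im_smul_le_max (g : SL(2, ℤ)) (τ : ℍ) : (g • τ).im ≤ max τ.im τ.im⁻¹ := by
  have hy := τ.im_pos
  have h0 : 0 < Complex.normSq (dn g τ) := Complex.normSq_pos.2 (dn_sl_ne_zero _ _)
  have h1 : Complex.normSq (dn g τ) =
      ((g 1 0 : ℝ) * τ.re + g 1 1) ^ 2 + ((g 1 0 : ℝ) * τ.im) ^ 2 := by
    simp [dn, Complex.normSq_apply, pow_two]
  rw [im_sl_smul]
  by_cases hc : g 1 0 = 0
  · refine le_max_of_le_left (div_le_self hy.le ?_)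
    have h2 : g 1 1 ≠ 0 := by
      intro h
      have := Cos_det g
      rw [hc, h] at this
      simp at this
    have h3 : (1 : ℝ) ≤ (g 1 1 : ℝ) ^ 2 := by
      exact_mod_cast (one_le_sq_iff_one_le_abs _).2 (Int.one_le_abs h2)
    rw [h1, hc]
    simpa using h3
  · refine le_max_of_le_right ?_
    have h3 : (1 : ℝ) ≤ (g 1 0 : ℝ) ^ 2 := by
      exact_mod_cast (one_le_sq_iff_one_le_abs _).2 (Int.one_le_abs hc)
    rw [div_le_iff₀ h0, inv_mul_eq_div, le_div_iff₀ hy, h1]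
    nlinarith [sq_nonneg ((g 1 0 : ℝ) * τ.re + g 1 1), mul_pos hy hy]

theorem mem_hnf {n : ℕ} (hn : 0 < n) {Y : MZ} : Y ∈ hnf n ↔
    Y 1 0 = 0 ∧ 0 < Y 0 0 ∧ 0 < Y 1 1 ∧ Y 0 0 * Y 1 1 = n ∧ 0 ≤ Y 0 1 ∧ Y 0 1 < Y 1 1 := by
  simp only [hnf, Finset.mem_image, Finset.mem_sigma, Nat.mem_divisorsAntidiagonal,
    Finset.mem_range]
  constructor
  · rintro ⟨⟨⟨a, d⟩, b⟩, ⟨⟨h1, -⟩, h2⟩, rfl⟩
    simp only at h1 h2
    have ha : 0 < a := Nat.pos_of_mul_pos_right (h1 ▸ hn)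
    have hd : 0 < d := Nat.pos_of_mul_pos_left (h1 ▸ hn)
    simp only [Matrix.of_apply, Matrix.cons_val', Matrix.cons_val_zero, Matrix.cons_val_one,
      Matrix.cons_val_fin_one]
    exact ⟨trivial, mod_cast ha, mod_cast hd, mod_cast h1, by positivity, mod_cast h2⟩
  · rintro ⟨h1, h2, h3, h4, h5, h6⟩
    obtain ⟨a, ha⟩ := Int.eq_ofNat_of_zero_le h2.le
    obtain ⟨d, hd⟩ := Int.eq_ofNat_of_zero_le h3.le
    obtain ⟨b, hb⟩ := Int.eq_ofNat_of_zero_le h5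
    rw [ha, hd] at h4
    rw [hb, hd] at h6
    refine ⟨⟨(a, d), b⟩, ⟨⟨mod_cast h4, hn.ne'⟩, mod_cast h6⟩, ?_⟩
    rw [Matrix.eta_fin_two Y, ha, hb, hd, h1]

theorem sum_hnf {R : Type} [AddCommMonoid R] (n : ℕ) (φ : MZ → R) :
    ∑ Y ∈ hnf n, φ Y = ∑ x ∈ n.divisorsAntidiagonal, ∑ B ∈ Finset.range x.2,
      φ !![(x.1 : ℤ), (B : ℤ); 0, (x.2 : ℤ)] := by
  rw [hnf, Finset.sum_image, Finset.sum_sigma]
  rintro ⟨⟨a, d⟩, b⟩ - ⟨⟨a', d'⟩, b'⟩ - h
  have h1 : (a : ℤ) = a' := congrFun (congrFun h 0) 0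
  have h2 : (b : ℤ) = b' := congrFun (congrFun h 0) 1
  have h3 : (d : ℤ) = d' := congrFun (congrFun h 1) 1
  obtain rfl : a = a' := mod_cast h1
  obtain rfl : b = b' := mod_cast h2
  obtain rfl : d = d' := mod_cast h3
  rfl

theorem card_hnf_le (n : ℕ) : (hnf n).card ≤ n ^ 2 := by
  rw [Finset.card_eq_sum_ones, sum_hnf]
  simp only [Finset.sum_const, Finset.card_range, smul_eq_mul, mul_one]
  rw [Nat.sum_divisorsAntidiagonal' fun _ d => d]
  calc ∑ d ∈ n.divisors, d ≤ n.divisors.card • n :=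
        Finset.sum_le_card_nsmul _ _ _ fun d hd => Nat.divisor_le hd
    _ ≤ n ^ 2 := by
        rw [smul_eq_mul, pow_two]
        exact Nat.mul_le_mul_right _ (Nat.card_divisors_le_self n)

theorem Cos_pos {e d : ℤ} (he : 0 < e) (h : 0 < e * d) : 0 < d :=
  (mul_pos_iff_of_pos_left he).1 h

theorem Cos_col (a c : ℤ) : ∃ (G : SL(2, ℤ)) (e : ℤ), 0 ≤ e ∧ a = G 0 0 * e ∧ c = G 1 0 * e := by
  rcases Nat.eq_zero_or_pos (Int.gcd a c) with h | h
  · obtain ⟨rfl, rfl⟩ := Int.gcd_eq_zero_iff.1 h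
    exact ⟨1, 0, le_rfl, by simp, by simp⟩
  · obtain ⟨a', c', h1, h2, h3⟩ := Int.exists_gcd_one h
    obtain ⟨G, g1, g2⟩ := (Int.isCoprime_iff_gcd_eq_one.2 h1).exists_SL2_col 0
    exact ⟨G, Int.gcd a c, by positivity, g1 ▸ h2, g2 ▸ h3⟩

theorem Cos_tri (Y : MZ) :
    ∃ (G : SL(2, ℤ)) (e b d : ℤ), 0 ≤ e ∧ Y = (G : MZ) * !![e, b; 0, d] := by
  obtain ⟨G, e, he, h1, h2⟩ := Cos_col (Y 0 0) (Y 1 0)
  have hd := Cos_det G
  refine ⟨G, e, G 1 1 * Y 0 1 - G 0 1 * Y 1 1, G 0 0 * Y 1 1 - G 1 0 * Y 0 1, he, ?_⟩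
  ext i j
  fin_cases i <;> fin_cases j <;> simp [Matrix.mul_apply, Fin.sum_univ_two]
  · exact h1
  · linear_combination -Y 0 1 * hd
  · exact h2
  · linear_combination -Y 1 1 * hd

theorem Cos_det_hnf {n : ℕ} (hn : 0 < n) {Y : MZ} (h : Y ∈ hnf n) : Y.det = n := by
  obtain ⟨h1, -, -, h2, -⟩ := (mem_hnf hn).1 h
  rw [Matrix.det_fin_two, h1, h2, mul_zero, sub_zero]

theorem Cos_hnf_uniq {n : ℕ} (hn : 0 < n) {Y Y' : MZ} (h : Y ∈ hnf n) (h' : Y' ∈ hnf n)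
    {δ : SL(2, ℤ)} (e : (δ : MZ) * Y = Y') : δ = 1 := by
  obtain ⟨a1, a2, a3, -, a5, a6⟩ := (mem_hnf hn).1 h
  obtain ⟨b1, b2, b3, -, b5, b6⟩ := (mem_hnf hn).1 h'
  have hd := Cos_det δ
  rw [← e] at b1 b2 b3 b5 b6
  simp only [Matrix.mul_apply, Fin.sum_univ_two, a1, mul_zero, add_zero] at b1 b2 b3 b5 b6
  have c1 : δ 1 0 = 0 := (mul_eq_zero.1 b1).resolve_right a2.ne'
  have c2 : 0 < δ 0 0 := (mul_pos_iff_of_pos_right a2).1 b2
  rw [c1, mul_zero, sub_zero] at hd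
  have c3 : δ 0 0 = 1 := Int.eq_one_of_mul_eq_one_right c2.le hd
  have c4 : δ 1 1 = 1 := by rw [c3, one_mul] at hd; exact hd
  rw [c3] at b5 b6
  rw [c1, c4] at b6
  have c5 : δ 0 1 = 0 := by
    rcases lt_trichotomy (δ 0 1) 0 with h0 | h0 | h0
    · nlinarith
    · exact h0
    · nlinarith
  exact Cos_ext c3 c5 c1 c4

/-- Existence and uniqueness of the normal form. -/
theorem hnf_bijective {n : ℕ} (hn : 0 < n) :
    Set.BijOn (fun a : SL(2, ℤ) × MZ => (a.1 : MZ) * a.2) (Set.univ ×ˢ (hnf n : Set MZ))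
      {Y | Y.det = n} := by
  refine ⟨?_, ?_, ?_⟩
  · rintro ⟨γ, Y⟩ ⟨-, hY⟩
    simp only [Set.mem_setOf_eq, Matrix.det_mul, γ.det_coe, one_mul]
    exact Cos_det_hnf hn hY
  · rintro ⟨γ, Y⟩ ⟨-, hY⟩ ⟨γ', Y'⟩ ⟨-, hY'⟩ h
    have h1 : ((γ'⁻¹ * γ : SL(2, ℤ)) : MZ) * Y = Y' := by
      have h2 : (γ : MZ) * Y = γ' * Y' := h
      rw [Matrix.SpecialLinearGroup.coe_mul, mul_assoc, h2, ← mul_assoc,
        ← Matrix.SpecialLinearGroup.coe_mul, inv_mul_cancel, Matrix.SpecialLinearGroup.coe_one,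
        one_mul]
    have h3 := Cos_hnf_uniq hn hY hY' h1
    rw [h3, Matrix.SpecialLinearGroup.coe_one, one_mul] at h1
    exact Prod.ext (inv_mul_eq_one.1 h3).symm h1
  · intro Y hY
    obtain ⟨G, e, b, d, he, rfl⟩ := Cos_tri Y
    have h1 : e * d = n := by
      rw [Set.mem_setOf_eq, Matrix.det_mul, G.det_coe, Matrix.det_fin_two_of] at hY
      simpa using hY
    have hn' : (0 : ℤ) < n := mod_cast hn
    have he' : 0 < e := lt_of_le_of_ne he fun h => by rw [← h] at h1; omega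
    have hd : 0 < d := Cos_pos he' (h1 ▸ hn')
    refine ⟨(G * ModularGroup.T ^ (b / d), !![e, b % d; 0, d]), ⟨trivial, (mem_hnf hn).2
      ⟨rfl, he', hd, h1, Int.emod_nonneg _ hd.ne', Int.emod_lt_of_pos _ hd⟩⟩, ?_⟩
    simp only [Matrix.SpecialLinearGroup.coe_mul, ModularGroup.coe_T_zpow, mul_assoc,
      Matrix.mul_fin_two]
    congr 2
    simp [Int.emod_add_ediv_mul]

theorem sum_hnf_mul {n : ℕ} (hn : 0 < n) {φ : MZ → ℂ}
    (h : ∀ (γ : SL(2, ℤ)) (Y : MZ), Y.det = n → φ (γ * Y) = φ Y) (g : SL(2, ℤ)) :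
    ∑ Y ∈ hnf n, φ (Y * g) = ∑ Y ∈ hnf n, φ Y := by
  have hex : ∀ Y : MZ, ∃ a : SL(2, ℤ) × MZ, Y.det = n → a.2 ∈ hnf n ∧ (a.1 : MZ) * a.2 = Y := by
    intro Y
    by_cases hY : Y.det = n
    · obtain ⟨a, ha, e⟩ := (hnf_bijective hn).surjOn hY
      exact ⟨a, fun _ => ⟨ha.2, e⟩⟩
    · exact ⟨(1, 0), fun h => absurd h hY⟩
  choose nf hnf' using hex
  have hd : ∀ (g : SL(2, ℤ)), ∀ Y ∈ hnf n, (Y * g).det = n := fun g Y hY => by
    rw [Matrix.det_mul, g.det_coe, mul_one, Cos_det_hnf hn hY]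
  have key : ∀ (g g' : SL(2, ℤ)), g * g' = 1 → ∀ Y ∈ hnf n, (nf ((nf (Y * g)).2 * g')).2 = Y := by
    intro g g' hg Y hY
    obtain ⟨h1, h2⟩ := hnf' _ (hd g Y hY)
    obtain ⟨h3, h4⟩ := hnf' _ (hd g' _ h1)
    have h5 : (((nf (Y * g)).1 * (nf ((nf (Y * g)).2 * g')).1 : SL(2, ℤ)) : MZ) *
        (nf ((nf (Y * g)).2 * g')).2 = Y := by
      rw [Matrix.SpecialLinearGroup.coe_mul, mul_assoc, h4, ← mul_assoc, h2, mul_assoc,
        ← Matrix.SpecialLinearGroup.coe_mul, hg, Matrix.SpecialLinearGroup.coe_one, mul_one]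
    have h6 := Cos_hnf_uniq hn h3 hY h5
    rwa [h6, Matrix.SpecialLinearGroup.coe_one, one_mul] at h5
  refine Finset.sum_nbij' (fun Y => (nf (Y * g)).2) (fun Y => (nf (Y * (g⁻¹ : SL(2, ℤ)))).2)
    (fun Y hY => (hnf' _ (hd g Y hY)).1) (fun Y hY => (hnf' _ (hd _ Y hY)).1)
    (key g g⁻¹ (mul_inv_cancel g)) (key g⁻¹ g (inv_mul_cancel g)) fun Y hY => ?_
  obtain ⟨h1, h2⟩ := hnf' _ (hd g Y hY)
  rw [← h _ _ (Cos_det_hnf hn h1), h2]

/-- Matrices of rank one. -/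
theorem rank_one_param (Y : MZ) (h0 : Y ≠ 0) (h : Y.det = 0) :
    ∃ (g : SL(2, ℤ)) (a b : ℤ), Y = (g : MZ) * !![a, b; 0, 0] := by
  obtain ⟨G, e, b, d, -, hY⟩ := Cos_tri Y
  have h1 : e * d = 0 := by
    rw [hY] at h
    simpa [Matrix.det_mul, G.det_coe, Matrix.det_fin_two] using h
  rcases mul_eq_zero.1 h1 with rfl | rfl
  · obtain ⟨G', e', -, h2, h3⟩ := Cos_col (Y 0 1) (Y 1 1)
    have h4 : Y 0 0 = 0 := by rw [hY]; simp [Matrix.mul_apply, Fin.sum_univ_two]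
    have h5 : Y 1 0 = 0 := by rw [hY]; simp [Matrix.mul_apply, Fin.sum_univ_two]
    refine ⟨G', 0, e', ?_⟩
    ext i j
    fin_cases i <;> fin_cases j <;> simp [Matrix.mul_apply, Fin.sum_univ_two] <;> assumption
  · exact ⟨G, e, b, hY⟩

theorem Par.red_surj (P : Par) (X : P.MF) (h : X.det = 1) : ∃ g : SL(2, ℤ), red P.p g = X := by
  have hU : ∀ x : P.F, ∃ g : SL(2, ℤ), red P.p g = !![1, x; 0, 1] := fun x => by
    refine ⟨⟨!![1, (x.val : ℤ); 0, 1], by simp [Matrix.det_fin_two]⟩, ?_⟩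
    ext i j
    fin_cases i <;> fin_cases j <;> simp [red]
  have hL : ∀ x : P.F, ∃ g : SL(2, ℤ), red P.p g = !![1, 0; x, 1] := fun x => by
    refine ⟨⟨!![1, 0; (x.val : ℤ), 1], by simp [Matrix.det_fin_two]⟩, ?_⟩
    ext i j
    fin_cases i <;> fin_cases j <;> simp [red]
  have key : ∀ X : P.MF, X.det = 1 → X 1 0 ≠ 0 → ∃ g : SL(2, ℤ), red P.p g = X := by
    intro X h hc
    obtain ⟨g1, h1⟩ := hU ((X 0 0 - 1) / X 1 0)
    obtain ⟨g2, h2⟩ := hL (X 1 0)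
    obtain ⟨g3, h3⟩ := hU ((X 1 1 - 1) / X 1 0)
    refine ⟨g1 * g2 * g3, ?_⟩
    rw [Matrix.det_fin_two] at h
    rw [red_mul, red_mul, h1, h2, h3]
    ext i j
    fin_cases i <;> fin_cases j <;> simp [Matrix.mul_apply, Fin.sum_univ_two] <;> field_simp
    · ring
    · linear_combination h
    · ring
  by_cases hc : X 1 0 = 0
  · obtain ⟨g1, h1⟩ := hL (-1)
    obtain ⟨g2, h2⟩ := key (!![1, 0; 1, 1] * X)
      (by rw [Matrix.det_mul, h, Matrix.det_fin_two_of]; simp)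
      (by
        rw [Matrix.det_fin_two, hc, mul_zero, sub_zero] at h
        simpa [Matrix.mul_apply, Fin.sum_univ_two, hc] using left_ne_zero_of_mul_eq_one h)
    refine ⟨g1 * g2, ?_⟩
    rw [red_mul, h1, h2, ← mul_assoc, Matrix.mul_fin_two]
    simp [← Matrix.one_fin_two]
  · exact key X h hc

theorem Par.exists_Dm_mul (P : Par) (X : P.MF) (h : X.det = P.m) :
    ∃ g : SL(2, ℤ), X = P.Dm * red P.p g := by
  have hm : (P.m : P.F) ≠ 0 := fun h0 => P.cop ((ZMod.intCast_zmod_eq_zero_iff_dvd _ _).1 h0)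
  rw [Matrix.det_fin_two] at h
  obtain ⟨g, hg⟩ := P.red_surj !![X 0 0 / P.m, X 0 1 / P.m; X 1 0, X 1 1] (by
    rw [Matrix.det_fin_two_of]
    field_simp
    exact h)
  refine ⟨g, ?_⟩
  rw [hg, Par.Dm]
  ext i j
  fin_cases i <;> fin_cases j <;> simp [Matrix.mul_apply, Fin.sum_univ_two] <;> field_simp

end

end Pool.Agent.P.MP_a60a76_nt.Sz
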