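import Pool.Agent.P.MP_a60a76_nt.Sz.Lev1
import Pool.Agent.P.MP_a60a76_nt.Sz.Cos

namespace Pool.Agent.P.MP_a60a76_nt.Sz

open UpperHalfPlane MeasureTheory SP
open scoped MatrixGroups UpperHalfPlane Matrix Modular Topology Classical ArithmeticFunction.sigma

noncomputable section

/-! Finiteness for functions of level `p`. -/

theorem Sturm_zero (N : ℕ) : QS N (fun _ => 0) fun _ => 0 :=
  (QS.single N 0 0).congr (fun ν => by simp) fun τ => by simp

theorem Sturm_prod {ι : Type} (N : ℕ) (s : Finset ι) (F : ι → ℍ → ℂ) (l : ι → ℤ)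
    (h : ∀ i, ∃ a, QS N a (F i) ∧ ∀ ν < l i, a ν = 0) :
    ∃ a, QS N a (fun τ => ∏ i ∈ s, F i τ) ∧ ∀ ν < ∑ i ∈ s, l i, a ν = 0 := by
  induction s using Finset.induction_on with
  | empty =>
    refine ⟨_, (QS.single N 0 1).congr (fun _ => rfl) fun τ => by simp [ee_zero], fun ν hν => ?_⟩
    rw [Finset.sum_empty] at hν
    exact if_neg hν.ne
  | insert i s hi ih =>
    obtain ⟨a, ha, h0⟩ := h i
    obtain ⟨b, hb, h1⟩ := ih
    refine ⟨_, (ha.mul hb h0 h1).congr (fun _ => rfl) fun τ => by rw [Finset.prod_insert hi],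
      fun ν hν => ?_⟩
    rw [Finset.sum_insert hi] at hν
    rw [Finset.Icc_eq_empty (by omega), Finset.sum_empty]

/-- An invariant function with an expansion that vanishes at the cusp is zero. -/
theorem Sturm_inv {N : ℕ} (hN : 0 < N) {a : ℤ → ℂ} {f : ℍ → ℂ} (h : QS N a f)
    (h0 : ∀ ν < 1, a ν = 0) (hi : ∀ (g : SL(2, ℤ)) τ, f (g • τ) = f τ) (τ : ℍ) : f τ = 0 := by
  have h1 : ∀ ν < (0 : ℤ), a ν = 0 := fun ν hν => h0 ν (by omega)
  obtain ⟨C, -, hC⟩ := h.bound hN h1 (y := 1 / 2) (by norm_num)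
  have hm : Mod 0 f := by
    refine ⟨h.hol hN, C, fun γ w hw => ?_⟩
    have h2 := ModularGroup.three_le_four_mul_im_sq_of_mem_fd hw
    have h3 : 1 / 2 ≤ w.im := by nlinarith [w.im_pos]
    have h4 := hC w h3
    rw [hi]
    simpa using h4
  obtain ⟨c, hc⟩ := poly_zero hm hi
  have h2 := h.tendsto hN h1
  simp only [hc, Int.cast_zero, neg_zero, zero_mul, zero_div, ee_zero, one_mul] at h2
  rw [hc, tendsto_nhds_unique tendsto_const_nhds h2]
  exact h0 0 (by norm_num)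

/-- Reduction as a group homomorphism. -/
def Par.Sturm_hom (P : Par) : SL(2, ℤ) →* P.GF := MonoidHom.mk' P.rg P.rg_mul

theorem Par.Sturm_dep (P : Par) {f : ℍ → ℂ}
    (hi : ∀ g : SL(2, ℤ), red P.p g = 1 → ∀ τ, f (g • τ) = f τ) {g g' : SL(2, ℤ)}
    (h : P.Sturm_hom g = P.Sturm_hom g') (τ : ℍ) : f (g • τ) = f (g' • τ) := by
  have h1 : P.Sturm_hom (g * g'⁻¹) = 1 := by rw [map_mul, map_inv, h, mul_inv_cancel]
  have h2 : red P.p (g * g'⁻¹) = 1 := by
    rw [← P.coe_rg]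
    exact (congrArg (fun x : P.GF => (x : P.MF)) h1).trans Units.val_one
  rw [← hi _ h2 (g' • τ), ← mul_smul, inv_mul_cancel_right]

/-- The order of the finite group. -/
def Par.Sturm_card (P : Par) : ℕ := Nat.card P.Sturm_hom.range

theorem Par.Sturm_key (P : Par) {f : ℍ → ℂ} {L M : ℤ}
    (hi : ∀ g : SL(2, ℤ), red P.p g = 1 → ∀ τ, f (g • τ) = f τ)
    (hq : ∀ g : SL(2, ℤ), ∃ a, QS P.p a (fun τ => f (g • τ)) ∧ ∀ ν < L, a ν = 0)
    (h1 : ∃ a, QS P.p a f ∧ ∀ ν < M, a ν = 0) (hLM : 1 ≤ M - L + L * P.Sturm_card) (τ : ℍ) :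
    f τ = 0 := by
  have hp := P.prime.pos
  let _ : Fintype P.Sturm_hom.range := Fintype.ofFinite _
  choose s hs using fun x : P.Sturm_hom.range => MonoidHom.mem_range.1 x.2
  have hall : ∀ x : P.Sturm_hom.range, ∃ a, QS P.p a (fun τ => f (s x • τ)) ∧
      ∀ ν < L + (if x = 1 then M - L else 0), a ν = 0 := by
    intro x
    by_cases hx : x = 1
    · obtain ⟨a, ha, h0⟩ := h1
      refine ⟨a, ha.congr (fun _ => rfl) fun w => ?_, fun ν hν => h0 ν ?_⟩
      · have : P.Sturm_hom (s x) = P.Sturm_hom 1 := by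
          rw [hs, hx, map_one]
          rfl
        rw [P.Sturm_dep hi this, one_smul]
      · rw [if_pos hx] at hν
        omega
    · obtain ⟨a, ha, h0⟩ := hq (s x)
      refine ⟨a, ha, fun ν hν => h0 ν ?_⟩
      rw [if_neg hx] at hν
      omega
  obtain ⟨a, ha, h0⟩ := Sturm_prod P.p Finset.univ _ _ hall
  have hsum : ∑ x : P.Sturm_hom.range, (L + if x = 1 then M - L else 0) =
      M - L + L * P.Sturm_card := by
    rw [Finset.sum_add_distrib, Finset.sum_ite_eq', if_pos (Finset.mem_univ _), Finset.sum_const,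
      Finset.card_univ, Par.Sturm_card, Nat.card_eq_fintype_card, nsmul_eq_mul]
    ring
  rw [hsum] at h0
  have hz := Sturm_inv hp ha (fun ν hν => h0 ν (by omega)) fun g w => by
    rw [← Equiv.prod_comp (Equiv.mulRight (P.Sturm_hom.rangeRestrict g))
      fun x => f (s x • w)]
    refine Finset.prod_congr rfl fun x _ => ?_
    rw [← mul_smul]
    refine P.Sturm_dep hi ?_ w
    rw [map_mul, hs, hs]
    rfl
  have hz' : ∏ x : P.Sturm_hom.range, (fun τ : ℍ => f (s x • τ)) = 0 := by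
    funext w
    rw [Finset.prod_apply]
    exact hz w
  obtain ⟨x, -, hx⟩ := (UpperHalfPlane.prod_eq_zero_iff fun x _ =>
    UpperHalfPlane.mdifferentiable_iff.2 ((hq (s x)).choose_spec.1.hol hp)).1 hz'
  have := congrFun hx ((s x)⁻¹ • τ)
  rwa [smul_inv_smul] at this

/-- Functions of level `p` together with their coefficients. -/
def Par.Sturm_V (P : Par) (L : ℕ) : Submodule ℂ ((ℤ → ℂ) × (ℍ → ℂ)) where
  carrier := {x | P.Lv L x.2 ∧ QS P.p x.1 x.2}
  zero_mem' := ⟨⟨fun _ _ _ => rfl, fun _ => ⟨_, Sturm_zero P.p, fun _ _ => rfl⟩⟩, Sturm_zero P.p⟩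
  add_mem' := by
    rintro x y ⟨hx, hx'⟩ ⟨hy, hy'⟩
    refine ⟨⟨fun g hg τ => ?_, fun g => ?_⟩, hx'.add hy'⟩
    · show x.2 (g • τ) + y.2 (g • τ) = x.2 τ + y.2 τ
      rw [hx.inv g hg, hy.inv g hg]
    · obtain ⟨a, ha, h0⟩ := hx.qs g
      obtain ⟨b, hb, h1⟩ := hy.qs g
      exact ⟨_, ha.add hb, fun ν hν => by rw [h0 ν hν, h1 ν hν, add_zero]⟩
  smul_mem' := by
    rintro z x ⟨hx, hx'⟩
    refine ⟨⟨fun g hg τ => ?_, fun g => ?_⟩, hx'.const_mul z⟩
    · show z * x.2 (g • τ) = z * x.2 τ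
      rw [hx.inv g hg]
    · obtain ⟨a, ha, h0⟩ := hx.qs g
      exact ⟨_, ha.const_mul z, fun ν hν => by rw [h0 ν hν, mul_zero]⟩

/-- The first coefficients. -/
def Par.Sturm_T (P : Par) (L n : ℕ) : P.Sturm_V L →ₗ[ℂ] (Fin n → ℂ) where
  toFun x := fun i => x.1.1 (((i : ℕ) : ℤ) - L)
  map_add' _ _ := rfl
  map_smul' _ _ := rfl

theorem Par.Sturm_T_inj (P : Par) (L : ℕ) :
    LinearMap.ker (P.Sturm_T L (L * P.Sturm_card + 1)) = ⊥ := by
  have hp := P.prime.pos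
  refine LinearMap.ker_eq_bot'.2 fun x hx => ?_
  obtain ⟨⟨a, f⟩, hf, ha⟩ := x
  have hlow : ∀ ν < -(L : ℤ), a ν = 0 := by
    obtain ⟨b, hb, h0⟩ := hf.qs 1
    have : a = b := ha.unique hp (hb.congr (fun _ => rfl) fun τ => by rw [one_smul])
    rw [this]
    exact h0
  have hM : ∀ ν < ((L * P.Sturm_card + 1 : ℕ) : ℤ) - L, a ν = 0 := by
    intro ν hν
    by_cases h : ν < -(L : ℤ)
    · exact hlow ν h
    · have h1 : (ν + L).toNat < L * P.Sturm_card + 1 := by omega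
      have h2 : a ((((ν + L).toNat : ℕ) : ℤ) - L) = 0 := congrFun hx ⟨_, h1⟩
      rwa [show (((ν + L).toNat : ℕ) : ℤ) - L = ν by omega] at h2
  have hf0 : ∀ τ, f τ = 0 := P.Sturm_key hf.inv hf.qs ⟨a, ha, hM⟩ (by push_cast; linarith)
  have ha0 : a = fun _ => 0 :=
    ha.unique hp ((Sturm_zero P.p).congr (fun _ => rfl) fun τ => (hf0 τ).symm)
  exact Subtype.ext (Prod.ext ha0 (funext hf0))

theorem Par.sturm (P : Par) (L : ℕ) : ∃ (n : ℕ) (φ : ℕ → ℍ → ℂ) (b : ℕ → ℤ → ℂ),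
    (∀ i, QS P.p (b i) (φ i)) ∧ ∀ (f : ℍ → ℂ) (a : ℤ → ℂ), P.Lv L f → QS P.p a f →
      ∀ ν, a ν = ∑ i ∈ Finset.range n, a (i - L) * b i ν := by
  obtain ⟨S, hS⟩ := LinearMap.exists_leftInverse_of_injective _ (P.Sturm_T_inj L)
  refine ⟨L * P.Sturm_card + 1,
    fun i => (S fun j => if (j : ℕ) = i then 1 else 0).1.2,
    fun i => (S fun j => if (j : ℕ) = i then 1 else 0).1.1,
    fun i => (S _).2.2, fun f a hf ha ν => ?_⟩
  have h1 : S (P.Sturm_T L _ ⟨(a, f), hf, ha⟩) = ⟨(a, f), hf, ha⟩ :=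
    LinearMap.congr_fun hS _
  have h2 : P.Sturm_T L (L * P.Sturm_card + 1) ⟨(a, f), hf, ha⟩ =
      ∑ i : Fin (L * P.Sturm_card + 1), a (((i : ℕ) : ℤ) - L) •
        fun j : Fin (L * P.Sturm_card + 1) => if (j : ℕ) = (i : ℕ) then (1 : ℂ) else 0 := by
    funext j
    rw [Finset.sum_apply, Finset.sum_eq_single j]
    · simp only [Pi.smul_apply, if_true, smul_eq_mul, mul_one]
      rfl
    · intro i _ hi
      rw [Pi.smul_apply, if_neg fun h => hi (Fin.ext h).symm, smul_zero]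
    · exact fun h => absurd (Finset.mem_univ j) h
  rw [h2, map_sum] at h1
  have h3 := congrArg (fun x : P.Sturm_V L => x.1.1 ν) h1
  simp only [map_smul, Submodule.coe_sum, Submodule.coe_smul, Prod.fst_sum, Prod.smul_fst,
    Finset.sum_apply, Pi.smul_apply, smul_eq_mul] at h3
  rw [← h3, Finset.sum_range]

/-- A finite family permuted by the modular group and vanishing at the cusp vanishes. -/
theorem Par.eq_zero_of_cusp (P : Par) {f : ℍ → ℂ}
    (hi : ∀ g : SL(2, ℤ), red P.p g = 1 → ∀ τ, f (g • τ) = f τ)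
    (hq : ∀ g : SL(2, ℤ), ∃ a, QS P.p a (fun τ => f (g • τ)) ∧ ∀ ν < 1, a ν = 0) (τ : ℍ) :
    f τ = 0 := by
  obtain ⟨a, ha, h0⟩ := hq 1
  refine P.Sturm_key hi hq ⟨a, ha.congr (fun _ => rfl) fun w => by rw [one_smul], h0⟩ ?_ τ
  have : 0 < P.Sturm_card := Nat.card_pos
  omega

end

end Pool.Agent.P.MP_a60a76_nt.Sz
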