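import Pool.Agent.P.MP_a60a76_nt.Sz.Log
import Pool.Agent.P.MP_a60a76_nt.Sz.Sturm

namespace Pool.Agent.P.MP_a60a76_nt.Sz

open UpperHalfPlane MeasureTheory SP
open scoped MatrixGroups UpperHalfPlane Matrix Modular Topology Classical ArithmeticFunction.sigma

noncomputable section

/-! The product is a modular function in both variables. -/

namespace Par

variable {P : Par} {c : P.D → ℤ → ℤ}

/-- The coefficients of the columns. -/
def Glue_cf (P : Par) (c : P.D → ℤ → ℤ) (X : P.MF) (N : ℕ) (ν : ℤ) : ℂ :=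
  if P.xx c X ≤ ν then P.CC c X *
    MvPowerSeries.coeff (ixx (ν - P.xx c X).toNat N) (P.Ps c X) else 0

theorem Glue_qs (h : P.IsF0 c) (hp : P.Pos c) (g : SL(2, ℤ)) (N : ℕ) :
    QS P.p (Glue_cf P c (P.Dm * red P.p g) N) fun τ => P.GN c N (g • τ) :=
  GN_qs h hp g N

theorem Glue_cf_low (X : P.MF) (N : ℕ) : ∀ ν < P.xx c X, Glue_cf P c X N ν = 0 :=
  fun _ hν => if_neg (not_le.2 hν)

theorem Glue_cf_add (X : P.MF) (N m : ℕ) : Glue_cf P c X N (P.xx c X + m) =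
    P.CC c X * MvPowerSeries.coeff (ixx m N) (P.Ps c X) := by
  rw [Glue_cf, if_pos (by omega), add_sub_cancel_left, Int.toNat_natCast]

theorem Glue_ee (n : ℤ) (τ : ℍ) : ee (n * τ / P.p) = P.sv τ ^ n := by
  rw [sv, ← ee_int_mul, mul_div_assoc]

/-- The columns converge to the modular functions. -/
theorem Glue_col (h : P.IsF0 c) (hp : P.Pos c) (g : SL(2, ℤ)) (N : ℕ) (τ : ℍ) :
    HasSum (fun m : ℕ => P.CC c (P.Dm * red P.p g) *
        MvPowerSeries.coeff (ixx m N) (P.Ps c (P.Dm * red P.p g)) * P.sv τ ^ m)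
      (P.sv τ ^ (-P.xx c (P.Dm * red P.p g)) * P.GN c N (g • τ)) := by
  have h1 := (Glue_qs h hp g N).to_nat (Glue_cf_low _ N) τ
  simp only [Glue_cf_add] at h1
  rw [← Int.cast_neg, Glue_ee] at h1
  exact h1

theorem Glue_det_adj {X : P.MF} (hX : X.det = P.m) : X.adjugate.det = P.m := by
  rw [Matrix.det_adjugate, hX]
  simp

theorem Glue_adj_adj (X : P.MF) : X.adjugate.adjugate = X := by
  rw [Matrix.adjugate_adjugate _ (by simp)]
  simp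

theorem Glue_adj_red (g : SL(2, ℤ)) : (red P.p g).adjugate = red P.p g⁻¹ := by
  have h1 : (red P.p g).adjugate * red P.p g = 1 := by
    rw [Matrix.adjugate_mul, red_det, one_smul]
  have h2 : red P.p g * red P.p g⁻¹ = 1 := by rw [← red_mul, mul_inv_cancel, red_one]
  calc (red P.p g).adjugate = (red P.p g).adjugate * (red P.p g * red P.p g⁻¹) := by
        rw [h2, mul_one]
    _ = red P.p g⁻¹ := by rw [← mul_assoc, h1, one_mul]

theorem Glue_det_mul {X : P.MF} (hX : X.det = P.m) (g : SL(2, ℤ)) :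
    (X * red P.p g).det = P.m := by rw [Matrix.det_mul, red_det, hX, mul_one]

theorem Glue_det_mul' {X : P.MF} (hX : X.det = P.m) (g : SL(2, ℤ)) :
    (red P.p g * X).det = P.m := by rw [Matrix.det_mul, red_det, hX, one_mul]

/-- The columns converge absolutely. -/
theorem Glue_col_norm (h : P.IsF0 c) (hp : P.Pos c) {X : P.MF} (hX : X.det = P.m) (N : ℕ)
    (τ : ℍ) : Summable fun m : ℕ =>
      ‖MvPowerSeries.coeff (ixx m N) (P.Ps c X)‖ * ‖P.sv τ‖ ^ m := by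
  obtain ⟨g, rfl⟩ := P.exists_Dm_mul X hX
  have h1 := ((Glue_col h hp g N τ).summable.mul_left (P.CC c (P.Dm * red P.p g))⁻¹).norm
  refine h1.congr fun m => ?_
  rw [← mul_assoc, ← mul_assoc, inv_mul_cancel₀ (CC_ne_zero c _), one_mul, norm_mul, norm_pow]

/-- The rows converge absolutely. -/
theorem Glue_row_norm (h : P.IsF0 c) (hp : P.Pos c) {X : P.MF} (hX : X.det = P.m) (m : ℕ)
    (τ : ℍ) : Summable fun N : ℕ =>
      ‖MvPowerSeries.coeff (ixx m N) (P.Ps c X)‖ * ‖P.sv τ‖ ^ N := by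
  have h1 := Glue_col_norm h hp (Glue_det_adj hX) m τ
  rw [Ps_adjugate h.toIsF X hX] at h1
  simpa only [coeff_swp] using h1

theorem Glue_lv (h : P.IsF0 c) (hp : P.Pos c) {L : ℕ} (hL : ∀ X, -(L : ℤ) ≤ P.xx c X)
    (g : SL(2, ℤ)) (N : ℕ) : P.Lv L fun τ => P.GN c N (g • τ) where
  inv g' hg' τ := by
    have h1 := (Glue_qs h hp (g * g') N).sum τ
    rw [red_mul, hg', mul_one, mul_smul] at h1
    exact h1.unique ((Glue_qs h hp g N).sum τ)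
  qs g' := by
    refine ⟨Glue_cf P c (P.Dm * red P.p (g * g')) N, ?_, fun ν hν =>
      Glue_cf_low _ N ν (hν.trans_le (hL _))⟩
    simpa only [mul_smul] using Glue_qs h hp (g * g') N

theorem Glue_exists_L (c : P.D → ℤ → ℤ) : ∃ L : ℕ, ∀ X, -(L : ℤ) ≤ P.xx c X := by
  obtain ⟨B, hB⟩ := (Set.finite_range fun X => (-P.xx c X).toNat).bddAbove
  refine ⟨B, fun X => ?_⟩
  have := hB ⟨X, rfl⟩
  simp only at this
  omega

theorem Glue_shift {b : ℤ → ℂ} {φ : ℍ → ℂ} (hb : QS P.p b φ) (x : ℤ) (τ : ℍ) :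
    Summable fun m : ℕ => ‖b (x + m)‖ * ‖P.sv τ‖ ^ m := by
  have hi : Function.Injective fun m : ℕ => x + (m : ℤ) := fun a b hab => by simpa using hab
  have h1 := (((hb.sum τ).summable.comp_injective hi).mul_left (P.sv τ ^ (-x))).norm
  refine h1.congr fun m => ?_
  simp only [Function.comp]
  rw [Glue_ee, zpow_add₀ (P.sv_ne_zero τ), zpow_natCast, ← norm_pow, ← norm_mul, zpow_neg]
  congr 1
  have := zpow_ne_zero x (P.sv_ne_zero τ)
  field_simp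

theorem ab_Ps (h : P.IsF0 c) (hp : P.Pos c) {X : P.MF} (hX : X.det = P.m) (t₁ t₂ : ℍ) :
    Ab (RingHom.id ℂ) (P.Ps c X) (P.sv t₁) (P.sv t₂) := by
  obtain ⟨L, hL⟩ := Glue_exists_L c
  obtain ⟨n, φ, b, hb, hs⟩ := P.sturm L
  have hrow := fun m => Glue_row_norm h hp hX m t₂
  obtain ⟨g, rfl⟩ := P.exists_Dm_mul X hX
  have hs' := fun N => hs _ _ (Glue_lv h hp hL g N) (Glue_qs h hp g N)
  generalize P.Dm * red P.p g = X at hrow hs'
  rw [ab_iff]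
  have hC := norm_pos_iff.2 (CC_ne_zero c X)
  have hsum : Summable fun x : ℕ × ℕ => ∑ i ∈ Finset.range n,
      (‖b i (P.xx c X + x.1)‖ * ‖P.sv t₁‖ ^ x.1) *
        (‖MvPowerSeries.coeff (ixx ((i : ℤ) - L - P.xx c X).toNat x.2) (P.Ps c X)‖ *
          ‖P.sv t₂‖ ^ x.2) :=
    summable_sum fun i _ => (Glue_shift (hb i) (P.xx c X) t₁).mul_of_nonneg (hrow _)
      (fun _ => by positivity) fun _ => by positivity
  refine hsum.of_nonneg_of_le (fun _ => by positivity) fun x => ?_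
  have h1 := hs' x.2 (P.xx c X + x.1)
  rw [Glue_cf_add] at h1
  have h2 : ‖MvPowerSeries.coeff (ixx x.1 x.2) (P.Ps c X)‖ ≤ ∑ i ∈ Finset.range n,
      ‖b i (P.xx c X + x.1)‖ *
        ‖MvPowerSeries.coeff (ixx ((i : ℤ) - L - P.xx c X).toNat x.2) (P.Ps c X)‖ := by
    refine le_of_mul_le_mul_left ?_ hC
    rw [← norm_mul, h1, Finset.mul_sum]
    refine norm_sum_le_of_le _ fun i _ => ?_
    rw [norm_mul, Glue_cf]
    split_ifs
    · rw [norm_mul]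
      exact le_of_eq (by ring)
    · rw [norm_zero, zero_mul]
      positivity
  rw [RingHom.id_apply]
  refine (mul_le_mul_of_nonneg_right h2 (by positivity)).trans (le_of_eq ?_)
  rw [Finset.sum_mul]
  exact Finset.sum_congr rfl fun i _ => by ring

/-- The normalisation which is equivariant in the first variable. -/
def Glue_s1 (P : Par) (c : P.D → ℤ → ℤ) (X : P.MF) (t₁ t₂ : ℍ) : ℂ :=
  P.CC c X * P.sv t₁ ^ P.xx c X * ev (RingHom.id ℂ) (P.Ps c X) (P.sv t₁) (P.sv t₂)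

theorem Glue_s1_hasSum (h : P.IsF0 c) (hp : P.Pos c) (g : SL(2, ℤ)) (t₁ t₂ : ℍ) :
    HasSum (fun N => P.GN c N (g • t₁) * P.sv t₂ ^ N) (Glue_s1 P c (P.Dm * red P.p g) t₁ t₂) := by
  have h1 := (ab_Ps h hp (Glue_det_mul P.det_Dm g) t₁ t₂).hasSum_snd.2.mul_left
    (P.CC c (P.Dm * red P.p g) * P.sv t₁ ^ P.xx c (P.Dm * red P.p g))
  have h2 : ∀ N, P.GN c N (g • t₁) * P.sv t₂ ^ N =
      P.CC c (P.Dm * red P.p g) * P.sv t₁ ^ P.xx c (P.Dm * red P.p g) *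
        ∑' m : ℕ, RingHom.id ℂ (MvPowerSeries.coeff (ixx m N) (P.Ps c (P.Dm * red P.p g))) *
          P.sv t₁ ^ m * P.sv t₂ ^ N := fun N => by
    have h3 := ((Glue_col h hp g N t₁).mul_left
      (P.sv t₁ ^ P.xx c (P.Dm * red P.p g) * P.sv t₂ ^ N)).tsum_eq
    have h4 := zpow_ne_zero (P.xx c (P.Dm * red P.p g)) (P.sv_ne_zero t₁)
    rw [← tsum_mul_left]
    refine Eq.trans ?_ (h3.symm.trans (tsum_congr fun m => ?_))
    · rw [zpow_neg]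
      field_simp
    · rw [RingHom.id_apply]
      ring
  simp only [h2]
  exact h1

theorem Glue_s1_smul (h : P.IsF0 c) (hp : P.Pos c) {X : P.MF} (hX : X.det = P.m)
    (g : SL(2, ℤ)) (t₁ t₂ : ℍ) :
    Glue_s1 P c X (g • t₁) t₂ = Glue_s1 P c (X * red P.p g) t₁ t₂ := by
  obtain ⟨g', rfl⟩ := P.exists_Dm_mul X hX
  have h1 := Glue_s1_hasSum h hp (g' * g) t₁ t₂
  rw [mul_smul, red_mul, ← mul_assoc] at h1
  exact (Glue_s1_hasSum h hp g' (g • t₁) t₂).unique h1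

theorem Glue_s1_adj (h : P.IsF0 c) {X : P.MF} (hX : X.det = P.m) (t₁ t₂ : ℍ) :
    Glue_s1 P c X.adjugate t₂ t₁ = P.CC c X * P.sv t₂ ^ P.xx c X.adjugate *
      ev (RingHom.id ℂ) (P.Ps c X) (P.sv t₁) (P.sv t₂) := by
  rw [Glue_s1, CC_adjugate, Ps_adjugate h.toIsF X hX, ab_swp.2]

/-- The expansion in the chamber. -/
theorem Glue_s1_chamber (h : P.IsF0 c) (hp : P.Pos c) (g : SL(2, ℤ)) (t₁ : ℍ) :
    ∃ Y : ℝ, ∀ t₂ : ℍ, Y ≤ t₂.im → Glue_s1 P c (P.Dm * red P.p g) t₁ t₂ =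
      P.uu ![0, 1] (g • t₁) ^ (P.p * P.cp c : ℤ) *
        Complex.exp (-(24 * P.p * ∑' N, P.HH c (N + 1) (g • t₁) * P.sv t₂ ^ (N + 1))) := by
  obtain ⟨Y, hY⟩ := GN_hasSum h.toIsF (g • t₁)
  exact ⟨Y, fun t₂ ht => (Glue_s1_hasSum h hp g t₁ t₂).unique (hY t₂ ht).2⟩

theorem Glue_high (Y : ℝ) : ∃ t : ℍ, Y ≤ t.im :=
  ⟨⟨⟨0, max Y 1⟩, lt_max_of_lt_right one_pos⟩, le_max_left _ _⟩

theorem Glue_s1_ne (h : P.IsF0 c) (hp : P.Pos c) {X : P.MF} (hX : X.det = P.m) (t₁ : ℍ) :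
    ∃ t₂, Glue_s1 P c X t₁ t₂ ≠ 0 := by
  obtain ⟨g, rfl⟩ := P.exists_Dm_mul X hX
  obtain ⟨Y, hY⟩ := Glue_s1_chamber h hp g t₁
  obtain ⟨t₂, ht⟩ := Glue_high Y
  refine ⟨t₂, ?_⟩
  rw [hY t₂ ht]
  exact mul_ne_zero (zpow_ne_zero _ (P.uu_ne_zero _ _)) (Complex.exp_ne_zero _)

/-- A power of the parameter which is invariant under the congruence group is trivial. -/
theorem Glue_pow_inv {k : ℤ}
    (hk : P.sv (Orb.Lz P.p • UpperHalfPlane.I) ^ k = P.sv UpperHalfPlane.I ^ k) : k = 0 := by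
  have h1 := congrArg norm hk
  rw [norm_zpow, norm_zpow, norm_sv, norm_sv, ← Real.rpow_intCast, ← Real.rpow_intCast,
    ← Real.exp_mul, ← Real.exp_mul, Real.exp_eq_exp, im_sl_smul] at h1
  have h2 : Complex.normSq (dn (Orb.Lz P.p) UpperHalfPlane.I) = 1 + (P.p : ℝ) ^ 2 := by
    simp [dn, Orb.Lz, Complex.normSq_apply]
    ring
  rw [h2, I_im] at h1
  have h3 := P.p_pos
  have h4 := Real.pi_pos
  field_simp at h1
  have h5 : (k : ℝ) * (P.p : ℝ) ^ 2 = 0 := by linear_combination h1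
  exact_mod_cast (mul_eq_zero.1 h5).resolve_right (by positivity)

theorem Glue_xx_left (h : P.IsF0 c) (hp : P.Pos c) {X : P.MF} (hX : X.det = P.m)
    (g : SL(2, ℤ)) : P.xx c (red P.p g⁻¹ * X) = P.xx c X := by
  have hX' := Glue_det_mul' hX g⁻¹
  have hadj : (red P.p g⁻¹ * X).adjugate = X.adjugate * red P.p g := by
    rw [Matrix.adjugate_mul_distrib, Glue_adj_red, inv_inv]
  have key : ∀ t₁ t₂ : ℍ, Glue_s1 P c (red P.p g⁻¹ * X) t₁ t₂ *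
      P.sv t₂ ^ P.xx c (red P.p g⁻¹ * X).adjugate =
      P.sv t₁ ^ (P.xx c (red P.p g⁻¹ * X) - P.xx c X) * P.sv (g • t₂) ^ P.xx c X.adjugate *
        Glue_s1 P c X t₁ (g • t₂) := fun t₁ t₂ => by
    have h1 := Glue_s1_smul h hp (Glue_det_adj hX) g t₂ t₁
    rw [← hadj, Glue_s1_adj h hX, Glue_s1_adj h hX'] at h1
    have h2 := zpow_ne_zero (P.xx c X) (P.sv_ne_zero t₁)
    rw [Glue_s1, Glue_s1, zpow_sub₀ (P.sv_ne_zero t₁)]
    field_simp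
    linear_combination (-P.sv t₁ ^ P.xx c (red P.p g⁻¹ * X)) * h1
  obtain ⟨t, ht⟩ := Glue_s1_ne h hp hX UpperHalfPlane.I
  have hr : red P.p (Orb.Lz P.p) = 1 := by
    rw [Orb.red_Lz, Matrix.one_fin_two]
    simp
  have k1 := key (Orb.Lz P.p • UpperHalfPlane.I) (g⁻¹ • t)
  rw [Glue_s1_smul h hp hX', Glue_s1_smul h hp hX, hr, mul_one, mul_one,
    key UpperHalfPlane.I (g⁻¹ • t), smul_inv_smul] at k1
  have k2 := mul_right_cancel₀ (zpow_ne_zero _ (P.sv_ne_zero t)) (mul_right_cancel₀ ht k1)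
  exact sub_eq_zero.1 (Glue_pow_inv k2.symm)

theorem xx_eq (h : P.IsF0 c) (hp : P.Pos c) {X : P.MF} (hX : X.det = P.m) :
    P.xx c X = -(P.p * P.KK c) := by
  by_cases h0 : X 1 0 = 0
  · rw [← Glue_xx_left h hp hX (Orb.Lz (-1)), Orb.Lz_inv, Orb.red_Lz]
    refine xx_of_ne h.toIsF fun h1 => P.m_ne ?_
    rw [← hX, Matrix.det_fin_two, h0]
    simp only [Matrix.mul_apply, Fin.sum_univ_two, h0] at h1
    simp at h1
    simp [h1]
  · exact xx_of_ne h.toIsF h0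

theorem Glue_gf_eq (h : P.IsF0 c) (hp : P.Pos c) {X : P.MF} (hX : X.det = P.m) (t₁ t₂ : ℍ) :
    P.gf c X t₁ t₂ = P.sv t₂ ^ (-(P.p * P.KK c) : ℤ) * Glue_s1 P c X t₁ t₂ := by
  rw [gf, Glue_s1, xx_eq h hp hX, mul_zpow]
  ring

theorem Glue_gf_adj (h : P.IsF0 c) {X : P.MF} (hX : X.det = P.m) (t₁ t₂ : ℍ) :
    P.gf c X.adjugate t₂ t₁ = P.gf c X t₁ t₂ := by
  rw [gf, gf, CC_adjugate, Ps_adjugate h.toIsF X hX, ab_swp.2, mul_comm (P.sv t₂)]

theorem Glue_gf_fst (h : P.IsF0 c) (hp : P.Pos c) {X : P.MF} (hX : X.det = P.m)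
    (g : SL(2, ℤ)) (t₁ t₂ : ℍ) : P.gf c X (g • t₁) t₂ = P.gf c (X * red P.p g) t₁ t₂ := by
  rw [Glue_gf_eq h hp hX, Glue_gf_eq h hp (Glue_det_mul hX g), Glue_s1_smul h hp hX]

theorem Glue_gf_snd (h : P.IsF0 c) (hp : P.Pos c) {X : P.MF} (hX : X.det = P.m)
    (g : SL(2, ℤ)) (t₁ t₂ : ℍ) : P.gf c X t₁ (g • t₂) = P.gf c (red P.p g⁻¹ * X) t₁ t₂ := by
  rw [← Glue_gf_adj h hX, Glue_gf_fst h hp (Glue_det_adj hX),
    ← Glue_gf_adj h (Glue_det_mul' hX g⁻¹), Matrix.adjugate_mul_distrib, Glue_adj_red, inv_inv]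

theorem Glue_tw (X : P.MF) (g₁ g₂ : SL(2, ℤ)) :
    P.tw (P.rG g₁ g₂) X = red P.p g₂⁻¹ * X * red P.p g₁ := by
  rw [← coe_rg, ← coe_rg, rg_inv]
  rfl

theorem gf_smul (h : P.IsF0 c) (hp : P.Pos c) {X : P.MF} (hX : X.det = P.m)
    (g₁ g₂ : SL(2, ℤ)) (t₁ t₂ : ℍ) :
    P.gf c X (g₁ • t₁) (g₂ • t₂) = P.gf c (P.tw (P.rG g₁ g₂) X) t₁ t₂ := by
  rw [Glue_gf_snd h hp hX, Glue_gf_fst h hp (Glue_det_mul' hX g₂⁻¹), Glue_tw]

theorem gf_hol (h : P.IsF0 c) (hp : P.Pos c) {X : P.MF} (hX : X.det = P.m) (t₁ : ℍ) :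
    Hol (P.gf c X t₁) := by
  have h1 := (P.hol_ev (ab_Ps h hp hX)).2 t₁
  have h2 := (QS.single P.p (-(P.p * P.KK c))
    (P.CC c X * P.sv t₁ ^ (-(P.p * P.KK c) : ℤ))).hol P.prime.pos
  refine (DifferentiableOn.mul h2 h1).congr fun z _ => ?_
  simp only [Function.comp, Pi.mul_apply]
  rw [Glue_ee, gf, mul_zpow]
  ring

theorem gf_swap (h : P.IsF0 c) (hp : P.Pos c) (t₁ t₂ : ℍ) :
    P.gf c P.Dm (ModularGroup.S • t₂) (ModularGroup.S • t₁) = P.gf c P.Dm t₁ t₂ := by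
  rw [gf_smul h hp P.det_Dm, ← Glue_gf_adj h P.det_Dm t₁ t₂, Glue_tw, ← Glue_adj_red]
  congr 1
  ext i j
  fin_cases i <;> fin_cases j <;>
    simp [red, ModularGroup.S, Dm, Matrix.mul_apply, Fin.sum_univ_two, Matrix.adjugate_fin_two]

theorem gf_chamber (h : P.IsF0 c) (hp : P.Pos c) (t₁ : ℍ) : ∃ Y : ℝ, ∀ t₂ : ℍ, Y ≤ t₂.im →
    P.gf c P.Dm t₁ t₂ = P.sv t₂ ^ (-(P.p * P.KK c) : ℤ) * P.uu ![0, 1] t₁ ^ (P.p * P.cp c : ℤ) *
      Complex.exp (-(24 * P.p * ∑' N, P.HH c (N + 1) t₁ * P.sv t₂ ^ (N + 1))) := by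
  obtain ⟨Y, hY⟩ := Glue_s1_chamber h hp 1 t₁
  refine ⟨Y, fun t₂ ht => ?_⟩
  have h1 := hY t₂ ht
  rw [red_one, mul_one, one_smul] at h1
  rw [Glue_gf_eq h hp P.det_Dm, h1, ← mul_assoc]

theorem KK_nonneg (h : P.IsF0 c) (hp : P.Pos c) : 0 ≤ P.KK c := by
  by_contra hK
  have hK' : 1 ≤ -(P.p * P.KK c) := by
    have h1 : (0 : ℤ) < P.p := by exact_mod_cast P.prime.pos
    have h2 := mul_neg_of_pos_of_neg h1 (not_le.1 hK)
    omega
  obtain ⟨t₂, ht⟩ := Glue_s1_ne h hp P.det_Dm UpperHalfPlane.I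
  have h0 : P.gf c P.Dm UpperHalfPlane.I t₂ = 0 := by
    refine P.eq_zero_of_cusp (f := fun τ => P.gf c P.Dm τ t₂) (fun g hg τ => ?_) (fun g => ?_) _
    · rw [Glue_gf_fst h hp P.det_Dm, hg, mul_one]
    · have hX := Glue_det_mul P.det_Dm g
      simp only [Glue_gf_fst h hp P.det_Dm]
      generalize P.Dm * red P.p g = X at hX
      have h1 : ∀ τ : ℍ, HasSum (fun m : ℕ => (P.CC c X * P.sv t₂ ^ (-(P.p * P.KK c) : ℤ) *
          ∑' n, MvPowerSeries.coeff (ixx m n) (P.Ps c X) * P.sv t₂ ^ n) * ee (τ / P.p) ^ m)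
          (P.CC c X * P.sv t₂ ^ (-(P.p * P.KK c) : ℤ) *
            ev (RingHom.id ℂ) (P.Ps c X) (P.sv τ) (P.sv t₂)) := fun τ => by
        have h2 := (ab_Ps h hp hX τ t₂).hasSum_fst.2.mul_left
          (P.CC c X * P.sv t₂ ^ (-(P.p * P.KK c) : ℤ))
        refine Eq.mp (congrArg (fun f => HasSum f _) (funext fun m => ?_)) h2
        rw [mul_assoc _ (∑' _, _), ← tsum_mul_right]
        congr 1
        exact tsum_congr fun n => by rw [RingHom.id_apply, sv, sv]; ring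
      refine ⟨_, (QS.of_nat (-(P.p * P.KK c)) h1).congr (fun _ => rfl) fun τ => ?_,
        fun ν hν => if_neg (by omega)⟩
      rw [Glue_ee, gf, mul_zpow]
      ring
  rw [Glue_gf_eq h hp P.det_Dm] at h0
  exact mul_ne_zero (zpow_ne_zero _ (P.sv_ne_zero t₂)) ht h0

end Par

end

end Pool.Agent.P.MP_a60a76_nt.Sz
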