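import Pool.Agent.P.MP_a60a76_nt.Sz.Base

namespace Pool.Agent.P.MP_a60a76_nt.Sz

open UpperHalfPlane MeasureTheory SP
open scoped MatrixGroups UpperHalfPlane Matrix Modular Topology Classical ArithmeticFunction.sigma

noncomputable section

/-! Asymptotics of the contribution of rank one. -/

/-- The periodic weight of mean zero. -/
def Jas_ch (p : ℕ) (b : ℤ) : ℝ := 1 - if (p : ℤ) ∣ b then (p : ℝ) else 0

/-- The kernel. -/
def Jas_f (ε x : ℝ) : ℝ := Real.exp (-(ε * x)) / x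

theorem Jas_abs_ch {p : ℕ} (hp : 0 < p) (b : ℤ) : |Jas_ch p b| ≤ p := by
  have : (1 : ℝ) ≤ p := by exact_mod_cast hp
  unfold Jas_ch
  split_ifs <;> rw [abs_le] <;> constructor <;> linarith

theorem Jas_ch_neg (p : ℕ) (b : ℤ) : Jas_ch p (-b) = Jas_ch p b := by simp [Jas_ch]

theorem Jas_f_nonneg (ε : ℝ) {x : ℝ} (hx : 0 ≤ x) : 0 ≤ Jas_f ε x :=
  div_nonneg (Real.exp_pos _).le hx

theorem Jas_f_anti {ε x y : ℝ} (hε : 0 ≤ ε) (hx : 0 < x) (hxy : x ≤ y) : Jas_f ε y ≤ Jas_f ε x :=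
  div_le_div₀ (Real.exp_pos _).le
    (Real.exp_le_exp.2 (neg_le_neg (mul_le_mul_of_nonneg_left hxy hε))) hx hxy

theorem Jas_f_le {ε x : ℝ} (hε : 0 ≤ ε) (hx : 0 ≤ x) : Jas_f ε x ≤ 1 / x :=
  div_le_div_of_nonneg_right (Real.exp_le_one_iff.2 (neg_nonpos.2 (mul_nonneg hε hx))) hx

theorem Jas_block {p : ℕ} (hp : 0 < p) (g : ℕ → ℝ) (K : ℕ) :
    ∑ j ∈ Finset.range p, Jas_ch p ((p * K + j : ℕ) : ℤ) * g (p * K + j) =
      ∑ j ∈ Finset.range p, (g (p * K + j) - g (p * K)) := by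
  simp only [Jas_ch, sub_mul, one_mul, Finset.sum_sub_distrib, Finset.sum_const, Finset.card_range,
    nsmul_eq_mul]
  congr 1
  rw [Finset.sum_eq_single 0]
  · simp
  · intro j hj h0
    rw [if_neg, zero_mul]
    rw [Int.natCast_dvd_natCast, Nat.dvd_add_right (dvd_mul_right _ _)]
    exact Nat.not_dvd_of_pos_of_lt (Nat.pos_of_ne_zero h0) (Finset.mem_range.1 hj)
  · simp [hp]

theorem Jas_range {p : ℕ} (hp : 0 < p) {g : ℕ → ℝ} (hg : Antitone g) (K : ℕ) :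
    |∑ n ∈ Finset.range (p * K), Jas_ch p n * g n| ≤ p * (g 0 - g (p * K)) := by
  induction K with
  | zero => simp
  | succ K ih =>
    rw [mul_add, mul_one, Finset.sum_range_add, Jas_block hp]
    refine (abs_add_le _ _).trans ?_
    have h1 : |∑ j ∈ Finset.range p, (g (p * K + j) - g (p * K))| ≤
        p * (g (p * K) - g (p * K + p)) := by
      refine (Finset.abs_sum_le_sum_abs _ _).trans ?_
      have := Finset.sum_le_card_nsmul (Finset.range p) (fun j => |g (p * K + j) - g (p * K)|)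
        (g (p * K) - g (p * K + p)) fun j hj => by
          have h2 := hg (Nat.le_add_right (p * K) j)
          have h3 := hg (Nat.add_le_add_left (Finset.mem_range.1 hj).le (p * K))
          rw [abs_le]
          constructor <;> linarith
      simpa using this
    linarith

theorem Jas_nat {p : ℕ} (hp : 0 < p) {g : ℕ → ℝ} (hg : Antitone g) (h0 : ∀ n, 0 ≤ g n) {S : ℝ}
    (hS : HasSum (fun n : ℕ => Jas_ch p n * g n) S) : |S| ≤ p * g 0 := by
  have h1 := (hS.tendsto_sum_nat.comp (Filter.tendsto_id.const_mul_atTop' hp)).abs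
  refine le_of_tendsto' h1 fun K => (Jas_range hp hg K).trans ?_
  exact mul_le_mul_of_nonneg_left (sub_le_self _ (h0 _)) (Nat.cast_nonneg p)

theorem Jas_int {p : ℕ} (hp : 0 < p) {g : ℤ → ℝ} (hg : Antitone fun n : ℕ => g n)
    (h0 : ∀ n, 0 ≤ g n) (he : ∀ n, g (-n) = g n) (hS : Summable fun b => Jas_ch p b * g b) :
    |∑' b, Jas_ch p b * g b| ≤ 3 * p * g 0 := by
  have h1 := hS.hasSum.nat_add_neg
  simp only [Jas_ch_neg, he, ← two_mul] at h1
  have h2 := Jas_nat hp hg (fun n => h0 n) (S := 2⁻¹ * _) (by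
    simpa only [inv_mul_cancel_left₀ (two_ne_zero' ℝ)] using h1.mul_left 2⁻¹)
  have h3 : |Jas_ch p 0 * g 0| ≤ p * g 0 := by
    rw [abs_mul, abs_of_nonneg (h0 0)]
    exact mul_le_mul_of_nonneg_right (Jas_abs_ch hp 0) (h0 0)
  rw [Nat.cast_zero] at h2
  rw [abs_le] at *
  constructor <;> linarith [h2.1, h2.2, h3.1, h3.2]

theorem Jas_gauss {ε : ℝ} (hε : 0 < ε) : Summable fun b : ℤ => Real.exp (-(ε * (b : ℝ) ^ 2)) := by
  have h : Summable fun n : ℕ => Real.exp (-(ε * (n : ℝ) ^ 2)) := by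
    refine (summable_geometric_of_lt_one (Real.exp_pos (-ε)).le
      (Real.exp_lt_one_iff.2 (neg_lt_zero.2 hε))).of_nonneg_of_le (fun n => (Real.exp_pos _).le)
      fun n => ?_
    rw [← Real.exp_nat_mul, Real.exp_le_exp]
    have : (n : ℝ) ≤ (n : ℝ) ^ 2 := by exact_mod_cast Nat.le_self_pow two_ne_zero n
    nlinarith
  exact Summable.of_nat_of_neg (by simpa using h) (by simpa using h)

theorem Jas_f_le_gauss {ε y : ℝ} (hε : 0 ≤ ε) (hy : 1 ≤ y) (a b : ℤ) :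
    Jas_f ε ((a * y) ^ 2 + b ^ 2) ≤
      Real.exp (-(ε * (a : ℝ) ^ 2)) * Real.exp (-(ε * (b : ℝ) ^ 2)) := by
  have h1 : (a : ℝ) ^ 2 + b ^ 2 ≤ (a * y) ^ 2 + b ^ 2 := by
    have : 1 ≤ y ^ 2 := one_le_pow₀ hy
    nlinarith [sq_nonneg (a : ℝ)]
  by_cases h : a ^ 2 + b ^ 2 = 0
  · have ha : a = 0 := by nlinarith
    have hb : b = 0 := by nlinarith
    simp [Jas_f, ha, hb]
  · have h2 : (1 : ℝ) ≤ (a : ℝ) ^ 2 + b ^ 2 := by
      have : 1 ≤ a ^ 2 + b ^ 2 := by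
        have : 0 ≤ a ^ 2 + b ^ 2 := by positivity
        omega
      exact_mod_cast this
    refine (Jas_f_anti hε (by linarith) h1).trans ?_
    rw [← Real.exp_add, ← neg_add, ← mul_add]
    exact div_le_self (Real.exp_pos _).le h2

namespace Par

variable {P : Par} (c : P.D → ℤ → ℤ)

/-- The terms of the sum on the imaginary axis. -/
def Jas_t (y ε : ℝ) (r : ℤ × ℤ) : ℝ :=
  if (P.p : ℤ) ∣ r.1 then P.cp c * Jas_ch P.p r.2 * Jas_f ε ((r.1 * y) ^ 2 + r.2 ^ 2) else 0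

theorem Jas_eq {τ : ℍ} (h : τ.re = 0) (ε : ℝ) :
    P.JJ c τ ε = P.p * τ.im / Real.pi * ∑' r, Jas_t c τ.im ε r := by
  unfold JJ Jas_t Jas_ch Jas_f
  congr 1
  refine tsum_congr fun r => ?_
  have : Complex.normSq ((r.1 : ℂ) * τ + r.2) = (r.1 * τ.im) ^ 2 + r.2 ^ 2 := by
    simp [Complex.normSq_apply, h]
    ring
  rw [this]

theorem Jas_summable {y ε : ℝ} (hy : 1 ≤ y) (hε : 0 < ε) : Summable (Jas_t c y ε) := by
  have h := ((Jas_gauss hε).mul_of_nonneg (Jas_gauss hε) (fun _ => (Real.exp_pos _).le)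
    fun _ => (Real.exp_pos _).le).mul_left (|(P.cp c : ℝ)| * P.p)
  refine h.of_norm_bounded fun r => ?_
  unfold Jas_t
  split_ifs
  · rw [Real.norm_eq_abs, abs_mul, abs_mul, abs_of_nonneg (Jas_f_nonneg ε (by positivity))]
    exact mul_le_mul (mul_le_mul_of_nonneg_left (Jas_abs_ch P.prime.pos _) (abs_nonneg _))
      (Jas_f_le_gauss hε.le hy _ _) (Jas_f_nonneg ε (by positivity)) (by positivity)
  · rw [norm_zero]
    positivity

theorem Jas_row {y ε : ℝ} (hy : 1 ≤ y) (hε : 0 < ε) {a : ℤ} (ha : a ≠ 0) :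
    |∑' b, Jas_t c y ε (a, b)| ≤ 3 * P.p * |(P.cp c : ℝ)| / y ^ 2 * (1 / (a : ℝ) ^ 2) := by
  have ha' : (a : ℝ) ≠ 0 := by exact_mod_cast ha
  have hy0 : 0 < y := by linarith
  by_cases h : (P.p : ℤ) ∣ a
  · simp only [Jas_t, if_pos h, mul_assoc]
    rw [tsum_mul_left, abs_mul]
    have h1 := Jas_int P.prime.pos (g := fun b : ℤ => Jas_f ε ((a * y) ^ 2 + b ^ 2))
      (fun m n hmn => Jas_f_anti hε.le (by positivity) (by
        have : (m : ℝ) ≤ n := by exact_mod_cast hmn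
        simp only [Int.cast_natCast]
        gcongr))
      (fun n => Jas_f_nonneg ε (by positivity)) (fun n => by simp) (by
        refine (((Jas_gauss hε).mul_left (Real.exp (-(ε * (a : ℝ) ^ 2)))).mul_left
          (P.p : ℝ)).of_norm_bounded fun b => ?_
        rw [Real.norm_eq_abs, abs_mul, abs_of_nonneg (Jas_f_nonneg ε (by positivity))]
        exact mul_le_mul (Jas_abs_ch P.prime.pos _) (Jas_f_le_gauss hε.le hy _ _)
          (Jas_f_nonneg ε (by positivity)) (by positivity))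
    have h2 := Jas_f_le hε.le (x := (a * y) ^ 2 + ((0 : ℤ) : ℝ) ^ 2) (by positivity)
    refine (mul_le_mul_of_nonneg_left (h1.trans (mul_le_mul_of_nonneg_left h2 (by positivity)))
      (abs_nonneg _)).trans_eq ?_
    simp only [Int.cast_zero, ne_eq, OfNat.ofNat_ne_zero, not_false_eq_true, zero_pow, add_zero]
    field_simp
  · simp only [Jas_t, if_neg h, tsum_zero, abs_zero]
    positivity

theorem Jas_split {y ε : ℝ} (hy : 1 ≤ y) (hε : 0 < ε) :
    |∑' r, Jas_t c y ε r - ∑' b : ℤ, P.cp c * Jas_ch P.p b * Jas_f ε (b ^ 2)| ≤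
      3 * P.p * |(P.cp c : ℝ)| / y ^ 2 * ∑' a : ℤ, 1 / (a : ℝ) ^ 2 := by
  have h := Jas_summable c hy hε
  have h0 : ∑' b, Jas_t c y ε (0, b) = ∑' b : ℤ, P.cp c * Jas_ch P.p b * Jas_f ε (b ^ 2) := by
    simp [Jas_t]
  rw [h.tsum_prod, h.prod.tsum_eq_add_tsum_ite 0, h0, add_sub_cancel_left, ← Real.norm_eq_abs]
  refine tsum_of_norm_bounded
    ((Real.summable_one_div_int_pow.2 one_lt_two).hasSum.mul_left _) fun a => ?_
  split_ifs with ha
  · simp [ha]
  · exact Jas_row c hy hε ha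

theorem Jas_tendsto : Filter.Tendsto
    (fun ε : ℝ => ∑' b : ℤ, P.cp c * Jas_ch P.p b * Jas_f ε (b ^ 2)) (𝓝[>] 0)
    (𝓝 (∑' b : ℤ, P.cp c * Jas_ch P.p b * Jas_f 0 (b ^ 2))) := by
  refine tendsto_tsum_of_dominated_convergence
    ((Real.summable_one_div_int_pow.2 one_lt_two).mul_left (|(P.cp c : ℝ)| * P.p))
    (fun b => ?_) ?_
  · refine Filter.Tendsto.mono_left (Continuous.tendsto ?_ 0) nhdsWithin_le_nhds
    unfold Jas_f
    fun_prop
  · filter_upwards [self_mem_nhdsWithin] with ε hε b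
    rw [Real.norm_eq_abs, abs_mul, abs_mul, abs_of_nonneg (Jas_f_nonneg ε (by positivity))]
    exact mul_le_mul (mul_le_mul_of_nonneg_left (Jas_abs_ch P.prime.pos _) (abs_nonneg _))
      (Jas_f_le (le_of_lt hε) (by positivity)) (Jas_f_nonneg ε (by positivity)) (by positivity)

theorem JJ_T (τ : ℍ) (ε : ℝ) : P.JJ c (ModularGroup.T • τ) ε = P.JJ c τ ε := by
  have him : (ModularGroup.T • τ).im = τ.im := by
    rw [← coe_im, coe_T_smul]
    simp
  unfold JJ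
  rw [him, coe_T_smul]
  congr 1
  symm
  rw [← (Equiv.prodShear (Equiv.refl ℤ) fun a => Equiv.addLeft a).tsum_eq]
  refine tsum_congr fun r => ?_
  simp only [Equiv.prodShear_apply, Equiv.refl_apply, Equiv.coe_addLeft]
  have e : (r.1 : ℂ) * τ + ((r.1 + r.2 : ℤ) : ℂ) = r.1 * (τ + 1) + r.2 := by
    push_cast
    ring
  rw [e]
  by_cases h : (P.p : ℤ) ∣ r.1
  · simp only [if_pos h, dvd_add_right h]
  · simp only [if_neg h]

theorem JJ_asymp : ∃ A B : ℝ, ∀ τ : ℍ, τ.re = 0 → 1 ≤ τ.im → ∀ L : ℝ,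
    Filter.Tendsto (P.JJ c τ) (𝓝[>] 0) (𝓝 L) → |L - A * τ.im| ≤ B / τ.im := by
  refine ⟨P.p / Real.pi * ∑' b : ℤ, P.cp c * Jas_ch P.p b * Jas_f 0 (b ^ 2),
    P.p / Real.pi * (3 * P.p * |(P.cp c : ℝ)| * ∑' a : ℤ, 1 / (a : ℝ) ^ 2),
    fun τ h hy L hL => ?_⟩
  have h1 := (hL.sub ((Jas_tendsto c).const_mul (P.p * τ.im / Real.pi))).abs
  have hπ := Real.pi_pos
  have hy0 := τ.im_pos
  have h2 := le_of_tendsto h1 (b := P.p * τ.im / Real.pi *
    (3 * P.p * |(P.cp c : ℝ)| / τ.im ^ 2 * ∑' a : ℤ, 1 / (a : ℝ) ^ 2)) (by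
      filter_upwards [self_mem_nhdsWithin] with ε hε
      rw [Jas_eq c h, ← mul_sub, abs_mul, abs_of_nonneg (by positivity)]
      exact mul_le_mul_of_nonneg_left (Jas_split c hy hε) (by positivity))
  refine (le_of_eq ?_).trans (h2.trans_eq ?_)
  · congr 2
    ring
  · field_simp

end Par

end

end Pool.Agent.P.MP_a60a76_nt.Sz
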