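import Pool.Agent.P.MP_a60a76_nt.Sz.Cont
import Pool.Agent.P.MP_a60a76_nt.Sz.Cham
import Pool.Agent.P.MP_a60a76_nt.Sz.Jas
import Pool.Agent.P.MP_a60a76_nt.Sz.Glue

namespace Pool.Agent.P.MP_a60a76_nt.Sz

open UpperHalfPlane MeasureTheory SP
open scoped MatrixGroups UpperHalfPlane Matrix Modular Topology Classical ArithmeticFunction.sigma

noncomputable section

/-! The logarithm of the product is the regularised lift. -/

theorem Arch_exists (t t' : ℍ) : ∃ s, Proper t s ∧ Proper t' s := by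
  have hc := ((countable_not_proper t).union (countable_not_proper t')).image UpperHalfPlane.re
  by_contra hn
  refine Cardinal.not_countable_real (hc.mono fun x _ => ?_)
  refine ⟨⟨⟨x, 1⟩, one_pos⟩, ?_, rfl⟩
  by_contra h
  exact hn ⟨_, not_not.1 fun h1 => h (Or.inl h1), not_not.1 fun h1 => h (Or.inr h1)⟩

theorem Arch_im (τ : ℍ) {v : ℂ} (hv : v.im = 1) {s : ℝ} (hs : 0 ≤ s) :
    (ray τ v s).im = τ.im + s := by
  have h := congrArg Complex.im (coe_ray τ (hv ▸ one_pos : 0 < v.im) hs)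
  simpa [hv] using h

theorem Arch_zero (τ : ℍ) (v : ℂ) : ray τ v 0 = τ := by
  simp [ray]

theorem Arch_lin {E a : ℝ} (h : Filter.Tendsto (fun y : ℝ => E * y) Filter.atTop (𝓝 a)) :
    a = 0 := by
  have h1 := h.comp (Filter.tendsto_id.const_mul_atTop two_pos)
  have h2 := h.const_mul 2
  have h3 : a = 2 * a := tendsto_nhds_unique h1 (h2.congr fun y => by
    simp only [Function.comp, id]
    ring)
  linarith

namespace Par

variable {P : Par} {c : P.D → ℤ → ℤ} {χ : ℍ → ℝ}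

/-- The lift in the chamber. -/
theorem Arch_lim (hχ : IsChi χ) (h : P.IsF0 c) : ∃ (C : ℝ) (L : ℍ → ℝ), ∀ t₁ : ℍ,
    Filter.Tendsto (P.JJ c t₁) (𝓝[>] 0) (𝓝 (L t₁)) ∧ ∃ Y : ℝ, ∀ t₂ : ℍ, Y ≤ t₂.im →
      Proper t₁ t₂ → (P.Phi χ c 2 t₁ t₂).re = L t₁ + C * t₂.im +
        4 * (∑' N, P.HH c (N + 1) t₁ * P.sv t₂ ^ (N + 1)).re := by
  obtain ⟨C, hC⟩ := chamber hχ h
  have key : ∀ t₁ : ℍ, ∃ Y : ℝ, ∀ t₂ : ℍ, Y ≤ t₂.im → Proper t₁ t₂ →
      Filter.Tendsto (P.JJ c t₁) (𝓝[>] 0) (𝓝 ((P.Phi χ c 2 t₁ t₂).re - (C.re * t₂.im +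
        4 * (∑' N, P.HH c (N + 1) t₁ * P.sv t₂ ^ (N + 1)).re))) := fun t₁ => by
    obtain ⟨Y, hY⟩ := hC t₁
    refine ⟨Y, fun t₂ h₂ hz => ?_⟩
    have h1 := (Complex.continuous_re.tendsto _).comp ((tendsto_IT hχ h hz).sub (hY t₂ h₂))
    have ha : 0 < Real.pi * t₂.im / (P.p ^ 2 * t₁.im) :=
      div_pos (mul_pos Real.pi_pos t₂.im_pos) (mul_pos (pow_pos P.p_pos 2) t₁.im_pos)
    have h2 := h1.comp (tendsto_inv_nhdsGT_zero.const_mul_atTop ha)
    simp only [Complex.sub_re, Complex.add_re, Complex.mul_re, Complex.ofReal_re,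
      Complex.ofReal_im, mul_zero, sub_zero] at h2
    refine h2.congr' ?_
    filter_upwards [self_mem_nhdsWithin] with ε hε
    have e : Real.pi * t₂.im / (P.p ^ 2 * t₁.im *
        (Real.pi * t₂.im / (P.p ^ 2 * t₁.im) * ε⁻¹)) = ε := by
      have := P.p_pos
      have := t₁.im_pos
      have := t₂.im_pos
      have : (0 : ℝ) < ε := hε
      field_simp
    simp only [Function.comp, sub_sub_cancel, Complex.ofReal_re, e]
  have ex : ∀ t₁ : ℍ, ∃ L : ℝ, Filter.Tendsto (P.JJ c t₁) (𝓝[>] 0) (𝓝 L) := fun t₁ => by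
    obtain ⟨Y, hY⟩ := key t₁
    obtain ⟨s, hs, -⟩ := Arch_exists t₁ t₁
    obtain ⟨v, hv, hr⟩ := exists_ray hs
    refine ⟨_, hY (ray s v |Y|) ?_ (hr _ (abs_nonneg Y))⟩
    rw [Arch_im s hv (abs_nonneg Y)]
    linarith [le_abs_self Y, s.im_pos]
  choose L hL using ex
  refine ⟨C.re, L, fun t₁ => ⟨hL t₁, ?_⟩⟩
  obtain ⟨Y, hY⟩ := key t₁
  refine ⟨Y, fun t₂ h₂ hz => ?_⟩
  rw [tendsto_nhds_unique (hL t₁) (hY t₂ h₂ hz)]
  ring

/-- The product in the chamber. -/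
theorem Arch_gf (h : P.IsF0 c) (hp : P.Pos c) (t₁ : ℍ) : ∃ Y : ℝ, ∀ t₂ : ℍ, Y ≤ t₂.im →
    ‖P.gf c P.Dm t₁ t₂‖ = Real.exp (2 * Real.pi * P.KK c * t₂.im +
      P.p * P.cp c * Real.log ‖P.uu ![0, 1] t₁‖ -
        24 * P.p * (∑' N, P.HH c (N + 1) t₁ * P.sv t₂ ^ (N + 1)).re) := by
  obtain ⟨Y, hY⟩ := gf_chamber h hp t₁
  refine ⟨Y, fun t₂ h₂ => ?_⟩
  have h1 : 0 < ‖P.uu ![0, 1] t₁‖ := norm_pos_iff.2 (P.uu_ne_zero _ _)
  have e : ∀ (x : ℝ) (n : ℤ), Real.exp x ^ n = Real.exp (n * x) := fun x n => by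
    rw [← Real.rpow_intCast, ← Real.exp_mul, mul_comm]
  rw [hY t₂ h₂, norm_mul, norm_mul, norm_zpow, norm_zpow, norm_sv, Complex.norm_exp,
    ← Real.exp_log h1, e, e, ← Real.exp_add, ← Real.exp_add, Real.log_exp]
  congr 1
  have := P.p_pos
  simp only [Complex.neg_re, Complex.mul_re, Complex.re_ofNat, Complex.natCast_re,
    Complex.im_ofNat, Complex.natCast_im, Complex.mul_im]
  push_cast
  field_simp
  ring

/-- Continuation along a ray. -/
theorem Arch_cont (hχ : IsChi χ) (h : P.IsF0 c) (hp : P.Pos c) {t₁ : ℍ} {C J Y : ℝ}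
    (hY : ∀ t₂ : ℍ, Y ≤ t₂.im → Proper t₁ t₂ →
      ‖P.gf c P.Dm t₁ t₂‖ = Real.exp (C * t₂.im + J - 6 * P.p * (P.Phi χ c 2 t₁ t₂).re))
    {t₂ : ℍ} (hz : Proper t₁ t₂) :
    ‖P.gf c P.Dm t₁ t₂‖ = Real.exp (C * t₂.im + J - 6 * P.p * (P.Phi χ c 2 t₁ t₂).re) := by
  obtain ⟨v, hv, hr⟩ := exists_ray hz
  have hv' : 0 < v.im := hv ▸ one_pos
  have a1 := analytic_ray (gf_hol h hp P.det_Dm t₁) t₂ hv'
  have a2 := Par.analytic_Phi hχ h.toIsF hv' hr
  have a3 : AnalyticOnNhd ℝ (fun s : ℝ => Real.exp (C * (t₂.im + s) + J -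
      6 * P.p * (P.Phi χ c 2 t₁ (ray t₂ v s)).re) ^ 2) (Set.Ici 0) := fun s hs =>
    (AnalyticAt.rexp ((AnalyticAt.add (by fun_prop) analyticAt_const).sub
      (analyticAt_const.mul (a2 s hs)))).pow 2
  have a4 := a1.eqOn_of_preconnected_of_eventuallyEq a3 isPreconnected_Ici
    (z₀ := |Y| + 1) (by have := abs_nonneg Y; exact add_nonneg this zero_le_one) (by
      filter_upwards [Ioi_mem_nhds (lt_add_one |Y|)] with s hs
      have h0 : 0 ≤ s := (abs_nonneg Y).trans (le_of_lt hs)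
      have h1 : Y ≤ (ray t₂ v s).im := by
        rw [Arch_im t₂ hv h0]
        linarith [le_abs_self Y, t₂.im_pos, Set.mem_Ioi.1 hs]
      rw [Complex.normSq_eq_norm_sq, hY _ h1 (hr s h0), Arch_im t₂ hv h0])
  have a5 := a4 (Set.self_mem_Ici (a := (0 : ℝ)))
  simp only [Arch_zero, add_zero, Complex.normSq_eq_norm_sq] at a5
  exact (pow_left_inj₀ (norm_nonneg _) (Real.exp_pos _).le two_ne_zero).1 a5

/-- The value of the constant. -/
theorem Arch_const {L : ℍ → ℝ} (hL : ∀ t, Filter.Tendsto (P.JJ c t) (𝓝[>] 0) (𝓝 (L t))) {κ : ℝ}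
    (hκ : ∀ t, 6 * P.p * L t + P.p * P.cp c * Real.log ‖P.uu ![0, 1] t‖ = κ) :
    κ = 12 * P.p * P.cp c * Real.log P.p := by
  obtain ⟨A, B, hAB⟩ := JJ_asymp c
  let τ : ℝ → ℍ := fun y => ray UpperHalfPlane.I Complex.I (y - 1)
  have h1 : ∀ y, 1 ≤ y → (τ y).im = y := fun y hy => by
    rw [Arch_im _ Complex.I_im (sub_nonneg.2 hy), UpperHalfPlane.I_im, add_sub_cancel]
  have h2 : ∀ y, 1 ≤ y → (τ y).re = 0 := fun y hy => by
    have h3 := congrArg Complex.re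
      (coe_ray UpperHalfPlane.I (v := Complex.I) (by simp) (sub_nonneg.2 hy))
    simpa using h3
  have h3 : Filter.Tendsto τ Filter.atTop atImInfty :=
    Filter.tendsto_comap_iff.2 (Filter.tendsto_id.congr' (by
      filter_upwards [Filter.eventually_ge_atTop 1] with y hy using (h1 y hy).symm))
  have h4 : Filter.Tendsto (fun y => L (τ y) - A * y) Filter.atTop (𝓝 0) := by
    refine squeeze_zero_norm' ?_ (Filter.tendsto_id.const_div_atTop B)
    filter_upwards [Filter.eventually_ge_atTop 1] with y hy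
    have h5 := hAB (τ y) (h2 y hy) (by rw [h1 y hy]; exact hy) _ (hL _)
    rwa [h1 y hy] at h5
  have h5 := ((tendsto_const_nhds (x := κ)).sub (h4.const_mul (6 * P.p : ℝ))).sub
    ((P.log_uu_tendsto.comp h3).const_mul (P.p * P.cp c : ℝ))
  have h6 := Arch_lin (E := 6 * P.p * A - P.p * P.cp c * (2 * Real.pi * (P.p - 1))) (h5.congr' (by
    filter_upwards [Filter.eventually_ge_atTop 1] with y hy
    simp only [Function.comp]
    rw [← hκ (τ y), h1 y hy]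
    ring))
  linarith

end Par

theorem Par.arch {P : Par} {c : P.D → ℤ → ℤ} (h : P.IsF0 c) (hp : P.Pos c) {t₁ t₂ : ℍ}
    (hz : Proper t₁ t₂) : P.gf c P.Dm t₁ t₂ ≠ 0 ∧ Real.log ‖P.gf c P.Dm t₁ t₂‖ ≤
      12 * P.p * P.cp c * Real.log P.p - 6 * P.p * (CT 1 (P.pr c (P.rr t₁ t₂))).re := by
  obtain ⟨χ, hχ⟩ := exists_isChi
  obtain ⟨C, L, hL⟩ := Par.Arch_lim hχ h
  have key : ∀ t t' : ℍ, Proper t t' → ‖P.gf c P.Dm t t'‖ =
      Real.exp ((6 * P.p * C + 2 * Real.pi * P.KK c) * t'.im +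
        (6 * P.p * L t + P.p * P.cp c * Real.log ‖P.uu ![0, 1] t‖) -
          6 * P.p * (P.Phi χ c 2 t t').re) := fun t t' ht => by
    obtain ⟨Y, hY⟩ := (hL t).2
    obtain ⟨Y', hY'⟩ := Par.Arch_gf h hp t
    refine Par.Arch_cont hχ h hp (Y := max Y Y') (fun s hs hs' => ?_) ht
    rw [hY' s ((le_max_right _ _).trans hs), hY s ((le_max_left _ _).trans hs) hs']
    congr 1
    ring
  generalize 6 * P.p * C + 2 * Real.pi * P.KK c = E at key
  set J : ℍ → ℝ := fun t => 6 * P.p * L t + P.p * P.cp c * Real.log ‖P.uu ![0, 1] t‖ with hJ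
  have k1 : ∀ t t' : ℍ, Proper t t' →
      J t - E * (ModularGroup.S • t).im = J (ModularGroup.S • t') - E * t'.im := fun t t' ht => by
    have h1 := key _ _ (ht.symm.smul ModularGroup.S ModularGroup.S)
    rw [Par.gf_swap h hp, Par.Phi_swap, key t t' ht, Real.exp_eq_exp] at h1
    simp only [hJ]
    linarith
  have k2 : ∀ t t' : ℍ, J t - E * (ModularGroup.S • t).im = J t' - E * (ModularGroup.S • t').im :=
    fun t t' => by
      obtain ⟨s, h1, h2⟩ := Arch_exists t t'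
      rw [k1 t s h1, k1 t' s h2]
  have k3 : E = 0 := by
    have h1 := k2 UpperHalfPlane.I (ModularGroup.T • UpperHalfPlane.I)
    have h2 : L (ModularGroup.T • UpperHalfPlane.I) = L UpperHalfPlane.I :=
      tendsto_nhds_unique ((hL _).1.congr fun ε => Par.JJ_T c _ ε) (hL _).1
    have h3 : (ModularGroup.S • ModularGroup.T • UpperHalfPlane.I).im = 1 / 2 := by
      rw [im_sl_smul, dn_S, ← UpperHalfPlane.coe_im, coe_T_smul]
      simp [Complex.normSq_apply]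
      norm_num
    rw [h3, S_smul_I, UpperHalfPlane.I_im] at h1
    simp only [hJ, h2, P.log_uu_T] at h1
    linarith
  have k4 : J t₁ = 12 * P.p * P.cp c * Real.log P.p :=
    Par.Arch_const (fun t => (hL t).1) fun t => by simpa [k3] using k2 t t₁
  have k5 := key t₁ t₂ hz
  refine ⟨norm_pos_iff.1 (k5 ▸ Real.exp_pos _), ?_⟩
  have k6 := mul_le_mul_of_nonneg_left (Par.ct_le_Phi hχ h hp hz)
    (mul_pos (by norm_num : (0 : ℝ) < 6) P.p_pos).le
  rw [k5, Real.log_exp, k3]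
  simp only [hJ] at k4
  linarith

end

end Pool.Agent.P.MP_a60a76_nt.Sz
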