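import Pool.Agent.P.MP_a60a76_nt.Sz.QSa

namespace Pool.Agent.P.MP_a60a76_nt.Sz

open UpperHalfPlane MeasureTheory SP
open scoped MatrixGroups UpperHalfPlane Matrix Modular Topology Classical ArithmeticFunction.sigma

noncomputable section

/-! Existence of expansions, derivatives and constant terms. -/

variable {N : ℕ} {c c' : ℤ → ℂ} {f g : ℍ → ℂ}

theorem QSb_im (x y : ℝ) : ((x : ℂ) + y * Complex.I).im = y := by simp

theorem QSb_re (x y : ℝ) : ((x : ℂ) + y * Complex.I).re = x := by simp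

theorem QSb_coe {z : ℂ} (hz : 0 < z.im) : ((ofComplex z : ℍ) : ℂ) = z := by
  rw [ofComplex_apply_of_im_pos hz]

theorem QSb_coe_line (x : ℝ) {y : ℝ} (hy : 0 < y) :
    ((ofComplex (x + y * Complex.I) : ℍ) : ℂ) = x + y * Complex.I :=
  QSb_coe (by rwa [QSb_im])

theorem QSb_im_line (x : ℝ) {y : ℝ} (hy : 0 < y) : (ofComplex (x + y * Complex.I) : ℍ).im = y := by
  rw [← coe_im, QSb_coe_line x hy, QSb_im]

theorem QSb_re_line (x : ℝ) {y : ℝ} (hy : 0 < y) : (ofComplex (x + y * Complex.I) : ℍ).re = x := by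
  rw [← coe_re, QSb_coe_line x hy, QSb_re]

theorem QSb_cont_line {y : ℝ} (hy : 0 < y) :
    Continuous fun x : ℝ => (ofComplex (x + y * Complex.I) : ℍ) := by
  rw [isOpenEmbedding_coe.isInducing.continuous_iff]
  have : (UpperHalfPlane.coe ∘ fun x : ℝ => (ofComplex (x + y * Complex.I) : ℍ)) =
      fun x : ℝ => (x : ℂ) + y * Complex.I := funext fun x => QSb_coe_line x hy
  rw [this]
  fun_prop

theorem QSb_periodic {n : ℤ} (hp : ∀ τ, f (ModularGroup.T ^ n • τ) = f τ) :
    Function.Periodic (f ∘ ofComplex) (n : ℂ) := by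
  intro z
  by_cases hz : 0 < z.im
  · have h1 : (ofComplex (z + n) : ℍ) = ModularGroup.T ^ n • ofComplex z := by
      apply UpperHalfPlane.ext
      rw [coe_T_zpow_smul, QSb_coe hz, QSb_coe (by simpa using hz)]
    simp only [Function.comp_apply, h1, hp]
  · exact comp_ofComplex_of_im_le_zero f _ _ (by simpa using hz) (not_lt.1 hz)

theorem QSb_periodic_one (hp : ∀ τ, f (ModularGroup.T • τ) = f τ) :
    Function.Periodic (f ∘ ofComplex) 1 := by
  have := QSb_periodic (f := f) (n := 1) (by simpa using hp)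
  simpa using this

theorem QSb_norm_ee (k : ℤ) (z : ℂ) :
    ‖ee (k * z / N)‖ = Real.exp (-(2 * Real.pi * k * z.im / N)) := by
  rw [norm_ee]
  congr 1
  simp
  ring

/-- Orthogonality of the characters. -/
theorem QSb_orth (hN : 0 < N) (k : ℤ) (y : ℝ) :
    ∫ x in (0 : ℝ)..N, ee (k * (x + y * Complex.I) / N) = if k = 0 then (N : ℂ) else 0 := by
  have hN' : (N : ℂ) ≠ 0 := by exact_mod_cast hN.ne'
  split_ifs with hk
  · simp [hk, ee_zero]
  · have hk' : (k : ℂ) ≠ 0 := by exact_mod_cast hk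
    have hc : (2 * Real.pi * Complex.I * k / N : ℂ) ≠ 0 :=
      div_ne_zero (mul_ne_zero Complex.two_pi_I_ne_zero hk') hN'
    have e : ∀ x : ℝ, ee (k * (x + y * Complex.I) / N) =
        Complex.exp (2 * Real.pi * Complex.I * k / N * x) * ee (k * (y * Complex.I) / N) := by
      intro x
      rw [ee, ee, ← Complex.exp_add]
      congr 1
      ring
    simp only [e]
    rw [intervalIntegral.integral_mul_const, integral_exp_mul_complex hc]
    have h1 : Complex.exp (2 * Real.pi * Complex.I * k / N * ((N : ℝ) : ℂ)) = 1 := by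
      rw [← ee_int k, ee]
      congr 1
      push_cast
      field_simp
    rw [h1]
    simp

theorem QS.coeff_eq (hN : 0 < N) (h : QS N c f) (ν : ℤ) {y : ℝ} (hy : 0 < y) :
    c ν = (N : ℂ)⁻¹ * ∫ x in (0 : ℝ)..N,
      f (ofComplex (x + y * Complex.I)) * ee (-(ν * (x + y * Complex.I) / N)) := by
  have hN' : (N : ℂ) ≠ 0 := by exact_mod_cast hN.ne'
  have hs := h.summable_norm (ofComplex ((0 : ℝ) + y * Complex.I))
  rw [QSb_im_line 0 hy] at hs
  have e : ∀ (μ : ℤ) (z : ℂ), c μ * ee (μ * z / N) * ee (-(ν * z / N)) =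
      c μ * ee (((μ - ν : ℤ) : ℂ) * z / N) := by
    intro μ z
    rw [mul_assoc, ← ee_add]
    congr 2
    push_cast
    ring
  have H := intervalIntegral.hasSum_integral_of_dominated_convergence (μ := volume) (a := 0)
    (b := (N : ℝ))
    (F := fun (μ : ℤ) (x : ℝ) => c μ * ee (((μ - ν : ℤ) : ℂ) * (x + y * Complex.I) / N))
    (f := fun x : ℝ => f (ofComplex (x + y * Complex.I)) * ee (-(ν * (x + y * Complex.I) / N)))
    (fun (μ : ℤ) (_ : ℝ) => ‖c μ‖ * Real.exp (-(2 * Real.pi * μ * y / N)) *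
      Real.exp (2 * Real.pi * ν * y / N))
    (fun μ => (continuous_const.mul (continuous_ee.comp (by fun_prop))).aestronglyMeasurable)
    (fun μ => Filter.Eventually.of_forall fun x _ => by
      rw [norm_mul, QSb_norm_ee, QSb_im, mul_assoc ‖c μ‖, ← Real.exp_add]
      refine le_of_eq ?_
      congr 2
      push_cast
      ring)
    (Filter.Eventually.of_forall fun x _ => hs.mul_right _) intervalIntegrable_const
    (Filter.Eventually.of_forall fun x _ => by
      have h1 := (h.sum (ofComplex (x + y * Complex.I))).mul_right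
        (ee (-(ν * (x + y * Complex.I) / N)))
      rw [QSb_coe_line x hy] at h1
      simpa only [e] using h1)
  simp only [intervalIntegral.integral_const_mul, QSb_orth hN] at H
  have H2 : HasSum (fun μ : ℤ => c μ * if μ - ν = 0 then (N : ℂ) else 0) (c ν * N) := by
    have := hasSum_single (f := fun μ : ℤ => c μ * if μ - ν = 0 then (N : ℂ) else 0) ν
      (fun μ hμ => by rw [if_neg (sub_ne_zero.2 hμ), mul_zero])
    simpa using this
  rw [← H2.unique H]
  field_simp

theorem QS.coeff_le (hN : 0 < N) (h : QS N c f) (ν : ℤ) {y B : ℝ} (hy : 0 < y)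
    (hB : ∀ τ : ℍ, τ.im = y → ‖f τ‖ ≤ B) :
    ‖c ν‖ ≤ B * Real.exp (2 * Real.pi * ν * y / N) := by
  have hN' : (0 : ℝ) < N := by exact_mod_cast hN
  rw [h.coeff_eq hN ν hy, norm_mul, norm_inv, Complex.norm_natCast]
  have h1 := intervalIntegral.norm_integral_le_of_norm_le_const (a := 0) (b := (N : ℝ))
    (C := B * Real.exp (2 * Real.pi * ν * y / N))
    (f := fun x : ℝ => f (ofComplex (x + y * Complex.I)) * ee (-(ν * (x + y * Complex.I) / N)))
    fun x _ => by
      have e : -((ν : ℂ) * (x + y * Complex.I) / N) = ((-ν : ℤ) : ℂ) * (x + y * Complex.I) / N := by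
        push_cast
        ring
      rw [norm_mul, e, QSb_norm_ee, QSb_im]
      have e2 : -(2 * Real.pi * ((-ν : ℤ) : ℝ) * y / N) = 2 * Real.pi * ν * y / N := by
        push_cast
        ring
      rw [e2]
      exact mul_le_mul_of_nonneg_right (hB _ (QSb_im_line x hy)) (Real.exp_pos _).le
  rw [sub_zero, abs_of_pos hN'] at h1
  rw [inv_mul_le_iff₀ hN']
  exact h1.trans (le_of_eq (mul_comm _ _))

theorem QSb_hol_ee (k : ℤ) (hf : Hol f) : Hol fun τ => ee (k * τ / N) * f τ := by
  have h1 : DifferentiableOn ℂ (fun z : ℂ => ee (k * z / N) * (f ∘ ofComplex) z)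
      {z : ℂ | 0 < z.im} := by
    refine DifferentiableOn.mul ?_ hf
    unfold ee
    fun_prop
  refine h1.congr fun z hz => ?_
  simp only [Function.comp_apply, QSb_coe hz]

theorem QSb_exists (hN : 0 < N) (hf : Hol f) (hp : ∀ τ, f (ModularGroup.T ^ (N : ℤ) • τ) = f τ)
    {a C Y : ℝ} (hb : ∀ τ : ℍ, Y ≤ τ.im → ‖f τ‖ ≤ C * Real.exp (2 * Real.pi * a * τ.im)) :
    ∃ c, QS N c f ∧ ∀ ν : ℤ, (ν : ℝ) < -(a * N) → c ν = 0 := by
  have hN' : (0 : ℝ) < N := by exact_mod_cast hN
  have hNc : (N : ℂ) ≠ 0 := by exact_mod_cast hN.ne'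
  have hπ := Real.pi_pos
  set L : ℤ := ⌈a * N⌉ with hL
  set g : ℍ → ℂ := fun τ => ee (L * τ / N) * f τ with hg
  have hgp : ∀ τ, g (ModularGroup.T ^ (N : ℤ) • τ) = g τ := by
    intro τ
    simp only [hg, hp, coe_T_zpow_smul]
    congr 1
    have e : (L : ℂ) * (τ + ((N : ℤ) : ℂ)) / N = L * τ / N + L := by
      push_cast
      field_simp
    rw [e, ee_add, ee_int, mul_one]
  have hper : Function.Periodic (g ∘ ofComplex) ((N : ℝ) : ℂ) := by
    have := QSb_periodic hgp
    simpa using this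
  have hbd : IsBoundedAtImInfty g := by
    refine isBoundedAtImInfty_iff.2 ⟨|C|, Y, fun τ hτ => ?_⟩
    have h1 : a * N ≤ L := Int.le_ceil _
    have h2 : Real.exp (-(2 * Real.pi * L * τ.im / N)) * Real.exp (2 * Real.pi * a * τ.im) ≤ 1 := by
      rw [← Real.exp_add, Real.exp_le_one_iff]
      have h3 : a ≤ L / N := by rwa [le_div_iff₀ hN']
      have h4 : 2 * Real.pi * L * τ.im / N = 2 * Real.pi * τ.im * (L / N) := by ring
      have h5 := mul_le_mul_of_nonneg_left h3 (mul_pos Real.two_pi_pos τ.im_pos).le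
      rw [h4]
      linarith
    simp only [hg]
    rw [norm_mul, QSb_norm_ee, coe_im]
    calc _ ≤ Real.exp (-(2 * Real.pi * L * τ.im / N)) * (|C| * Real.exp (2 * Real.pi * a * τ.im)) :=
          mul_le_mul_of_nonneg_left ((hb τ hτ).trans
            (mul_le_mul_of_nonneg_right (le_abs_self C) (Real.exp_pos _).le)) (Real.exp_pos _).le
      _ = |C| * (Real.exp (-(2 * Real.pi * L * τ.im / N)) * Real.exp (2 * Real.pi * a * τ.im)) := by
          ring
      _ ≤ |C| := mul_le_of_le_one_right (abs_nonneg C) h2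
  have hsum : ∀ τ : ℍ, HasSum (fun n : ℕ => (qExpansion (N : ℝ) g).coeff n * ee (τ / N) ^ n)
      (g τ) := by
    intro τ
    have h1 := hasSum_qExpansion hN' hper
      (UpperHalfPlane.mdifferentiable_iff.2 (QSb_hol_ee L hf)) hbd τ
    have e : Function.Periodic.qParam (N : ℝ) (τ : ℂ) = ee (τ / N) := by
      rw [Function.Periodic.qParam, ee]
      congr 1
      push_cast
      ring
    simpa only [e, smul_eq_mul] using h1
  have hq := (QS.of_nat (-L) hsum).congr (fun _ => rfl) (g := f) fun τ => by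
    simp only [hg]
    rw [← mul_assoc, ← ee_add]
    have e : ((-L : ℤ) : ℂ) * τ / N + L * τ / N = 0 := by
      push_cast
      ring
    rw [e, ee_zero, one_mul]
  refine ⟨_, hq, fun ν hν => ?_⟩
  have hδ : 0 < -(2 * Real.pi * (a + ν / N)) := by
    have h1 : (ν : ℝ) / N < -a := by
      rw [div_lt_iff₀ hN']
      linarith
    have := mul_pos Real.two_pi_pos (show 0 < -(a + ν / N) by linarith)
    linarith
  have ht : Filter.Tendsto (fun y : ℝ => C * Real.exp (-(-(2 * Real.pi * (a + ν / N)) * y)))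
      Filter.atTop (𝓝 (C * 0)) :=
    (Real.tendsto_exp_neg_atTop_nhds_zero.comp
      (Filter.tendsto_id.const_mul_atTop hδ)).const_mul C
  rw [mul_zero] at ht
  refine norm_le_zero_iff.1 (ge_of_tendsto ht ?_)
  filter_upwards [Filter.eventually_ge_atTop Y, Filter.eventually_gt_atTop 0] with y hy hy0
  refine (hq.coeff_le hN ν hy0 (B := C * Real.exp (2 * Real.pi * a * y)) fun τ hτ => ?_).trans
    (le_of_eq ?_)
  · rw [← hτ]
    exact hb τ (hτ ▸ hy)
  · rw [mul_assoc, ← Real.exp_add]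
    congr 2
    ring

/-- A periodic holomorphic function of exponential growth has an expansion. -/
theorem exists_qs (hN : 0 < N) (hf : Hol f) (hp : ∀ τ, f (ModularGroup.T ^ (N : ℤ) • τ) = f τ)
    {a C : ℝ} (hb : ∀ τ : ℍ, 1 ≤ τ.im → ‖f τ‖ ≤ C * Real.exp (2 * Real.pi * a * τ.im)) :
    ∃ c, QS N c f ∧ ∀ ν : ℤ, (ν : ℝ) < -(a * N) → c ν = 0 := by
  exact QSb_exists hN hf hp hb

theorem QS.periodic (hN : 0 < N) (h : QS N c f) (τ : ℍ) :
    f (ModularGroup.T ^ (N : ℤ) • τ) = f τ := by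
  have hNc : (N : ℂ) ≠ 0 := by exact_mod_cast hN.ne'
  have h1 := h.sum (ModularGroup.T ^ (N : ℤ) • τ)
  have e : ∀ ν : ℤ, ee (ν * (τ + ((N : ℤ) : ℂ)) / N) = ee (ν * τ / N) := by
    intro ν
    have e1 : (ν : ℂ) * (τ + ((N : ℤ) : ℂ)) / N = ν * τ / N + ν := by
      push_cast
      field_simp
    rw [e1, ee_add, ee_int, mul_one]
  simp only [coe_T_zpow_smul, e] at h1
  exact h1.unique (h.sum τ)

/-- The translate of an expansion. -/
theorem QS.translate (h : QS N c f) (n : ℤ) :
    QS N (fun ν => ee (ν * n / N) * c ν) fun τ => f (ModularGroup.T ^ n • τ) := by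
  obtain ⟨L, hL⟩ := h.low
  refine ⟨⟨L, fun ν hν => by rw [hL ν hν, mul_zero]⟩, fun τ => ?_⟩
  have h1 := h.sum (ModularGroup.T ^ n • τ)
  have e : ∀ ν : ℤ, c ν * ee (ν * (τ + (n : ℂ)) / N) = ee (ν * n / N) * c ν * ee (ν * τ / N) := by
    intro ν
    rw [mul_add, add_div, ee_add]
    ring
  simpa only [coe_T_zpow_smul, e] using h1

/-- The eigenvalue under translation determines the support. -/
theorem QS.supp_of_T (hN : 0 < N) (h : QS N c f) {a : ℤ}
    (hT : ∀ τ, f (ModularGroup.T • τ) = ee (a / N) * f τ) (ν : ℤ) (hν : c ν ≠ 0) :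
    (N : ℤ) ∣ ν - a := by
  have hNc : (N : ℂ) ≠ 0 := by exact_mod_cast hN.ne'
  have h1 := (h.translate 1).congr (fun _ => rfl) (g := fun τ => ee (a / N) * f τ) fun τ => by
    rw [zpow_one, hT]
  have h2 := congrFun (h1.unique hN (h.const_mul (ee (a / N)))) ν
  have h3 := mul_right_cancel₀ hν h2
  rw [ee, ee, Complex.exp_eq_exp_iff_exists_int] at h3
  obtain ⟨n, hn⟩ := h3
  refine ⟨n, ?_⟩
  have h4 : (ν : ℂ) - a = N * n := by
    have h5 := Complex.two_pi_I_ne_zero
    refine mul_left_cancel₀ (div_ne_zero h5 hNc) ?_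
    push_cast at hn
    have h6 : 2 * Real.pi * Complex.I / N * (N * n) = n * (2 * Real.pi * Complex.I) := by
      field_simp
    rw [h6]
    linear_combination hn
  exact_mod_cast h4

theorem QS.T_of_supp (hN : 0 < N) (h : QS N c f) {a : ℤ}
    (hc : ∀ ν, c ν ≠ 0 → (N : ℤ) ∣ ν - a) (τ : ℍ) :
    f (ModularGroup.T • τ) = ee (a / N) * f τ := by
  have hNc : (N : ℂ) ≠ 0 := by exact_mod_cast hN.ne'
  have h1 := h.sum (ModularGroup.T • τ)
  have e : ∀ ν : ℤ, c ν * ee (ν * (τ + 1) / N) = ee (a / N) * (c ν * ee (ν * τ / N)) := by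
    intro ν
    by_cases hν : c ν = 0
    · simp [hν]
    · obtain ⟨n, hn⟩ := hc ν hν
      have hn' : (ν : ℂ) = a + N * n := by
        have : ν = a + N * n := by linarith
        exact_mod_cast this
      have e1 : (ν : ℂ) * (τ + 1) / N = a / N + ν * τ / N + n := by
        have : (ν : ℂ) * (τ + 1) / N = ν * τ / N + ν / N := by ring
        rw [this]
        nth_rewrite 2 [hn']
        field_simp
        ring
      rw [e1, ee_add, ee_add, ee_int]
      ring
  simp only [coe_T_smul, e] at h1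
  exact h1.unique ((h.sum τ).mul_left _)

theorem QS.deriv (hN : 0 < N) (h : QS N c f) :
    QS N (fun ν => (ν : ℂ) / N * c ν) (Derivative.normalizedDerivOfComplex f) := by
  have hN' : (0 : ℝ) < N := by exact_mod_cast hN
  obtain ⟨L, hL⟩ := h.low
  refine ⟨⟨L, fun ν hν => by rw [hL ν hν, mul_zero]⟩, fun τ => ?_⟩
  have hy := τ.im_pos
  have hs1 := h.summable_norm (ofComplex ((0 : ℝ) + (τ.im / 2 : ℝ) * Complex.I))
  have hs2 := h.summable_norm (ofComplex ((0 : ℝ) + (2 * τ.im : ℝ) * Complex.I))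
  rw [QSb_im_line 0 (by positivity)] at hs1 hs2
  have hU : IsOpen {z : ℂ | τ.im / 2 < z.im ∧ z.im < 2 * τ.im} :=
    (isOpen_lt continuous_const Complex.continuous_im).inter
      (isOpen_lt Complex.continuous_im continuous_const)
  have hτ : (τ : ℂ) ∈ {z : ℂ | τ.im / 2 < z.im ∧ z.im < 2 * τ.im} :=
    ⟨by rw [coe_im]; linarith, by rw [coe_im]; linarith⟩
  have hd : ∀ (ν : ℤ) (z : ℂ), HasDerivAt (fun w : ℂ => c ν * ee (ν * w / N))
      (c ν * (2 * Real.pi * Complex.I * ee (ν * z / N) * (ν / N))) z := by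
    intro ν z
    have h1 : HasDerivAt (fun w : ℂ => (ν : ℂ) * w / N) (ν / N) z := by
      simpa using ((hasDerivAt_id z).const_mul (ν : ℂ)).div_const (N : ℂ)
    exact ((hasDerivAt_ee _).comp z h1).const_mul (c ν)
  have H := Complex.hasSum_deriv_of_summable_norm (hs1.add hs2)
    (F := fun (ν : ℤ) (w : ℂ) => c ν * ee (ν * w / N))
    (fun ν z _ => (hd ν z).differentiableAt.differentiableWithinAt) hU (fun ν w hw => by
      rw [norm_mul, QSb_norm_ee, ← mul_add]
      refine mul_le_mul_of_nonneg_left ?_ (norm_nonneg _)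
      have e : ∀ t : ℝ, -(2 * Real.pi * ν * t / N) = -(2 * Real.pi * ν / N) * t := fun t => by ring
      simp only [e]
      rcases le_total 0 (-(2 * Real.pi * ν / N)) with hk | hk
      · exact le_add_of_nonneg_of_le (Real.exp_pos _).le
          (Real.exp_le_exp.2 (mul_le_mul_of_nonneg_left hw.2.le hk))
      · exact le_add_of_le_of_nonneg
          (Real.exp_le_exp.2 (mul_le_mul_of_nonpos_left hw.1.le hk)) (Real.exp_pos _).le) hτ
  have hev : (fun w : ℂ => ∑' ν : ℤ, c ν * ee (ν * w / N)) =ᶠ[𝓝 (τ : ℂ)] f ∘ ofComplex := by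
    filter_upwards [hU.mem_nhds hτ] with w hw
    have hw0 : 0 < w.im := by linarith [hw.1]
    have h1 := h.sum (ofComplex w)
    rw [QSb_coe hw0] at h1
    exact h1.tsum_eq
  rw [hev.deriv_eq] at H
  have H2 := H.mul_left (2 * Real.pi * Complex.I)⁻¹
  have e : ∀ ν : ℤ, (2 * Real.pi * Complex.I)⁻¹ *
      _root_.deriv (fun w : ℂ => c ν * ee (ν * w / N)) τ = (ν : ℂ) / N * c ν * ee (ν * τ / N) := by
    intro ν
    have h5 := Complex.two_pi_I_ne_zero
    rw [(hd ν τ).deriv, inv_mul_eq_iff_eq_mul₀ h5]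
    ring
  simp only [e] at H2
  exact H2

theorem QS.ct (hN : 0 < N) (h : QS N c f) (hp : ∀ τ, f (ModularGroup.T • τ) = f τ) {y : ℝ}
    (hy : 0 < y) : CT y f = c 0 := by
  have h1 : QS (N * 1) c f := by rwa [mul_one]
  have h2 := h1.unscale hN fun ν hν => by
    by_contra h0
    have := h.supp_of_T hN (a := 0) (fun τ => by rw [hp]; simp [ee_zero]) ν h0
    exact hν (by simpa using this)
  have h3 := h2.coeff_eq one_pos 0 hy
  simpa [ee_zero, CT] using h3.symm

/-- The inverse of a function without zeros. -/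
theorem QS.exists_inv (hN : 0 < N) (h : QS N c f) (hf : ∀ τ, f τ ≠ 0) {L : ℤ}
    (hL : ∀ ν < L, c ν = 0) (hc : c L ≠ 0) :
    ∃ c', QS N c' (fun τ => (f τ)⁻¹) ∧ (∀ ν < -L, c' ν = 0) ∧ c' (-L) = (c L)⁻¹ ∧
      ∀ A : Subring ℂ, (∀ ν, c ν ∈ A) → (c L)⁻¹ ∈ A → ∀ ν, c' ν ∈ A := by
  have hN' : (0 : ℝ) < N := by exact_mod_cast hN
  have hpos : 0 < ‖c L‖ / 2 := half_pos (norm_pos_iff.2 hc)
  have hev := (h.tendsto hN hL).norm.eventually
    (lt_mem_nhds (show ‖c L‖ / 2 < ‖c L‖ by linarith))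
  obtain ⟨Y, hY⟩ := (atImInfty_mem _).1 hev
  have hhol : Hol fun τ => (f τ)⁻¹ := DifferentiableOn.inv (h.hol hN) fun z _ => hf _
  obtain ⟨c', hq, hlow⟩ := QSb_exists hN hhol (fun τ => by rw [h.periodic hN])
    (a := L / N) (C := (‖c L‖ / 2)⁻¹) (Y := Y) fun τ hτ => by
      have h1 : ‖c L‖ / 2 < ‖ee (-L * τ / N) * f τ‖ := hY τ hτ
      have e : -(L : ℂ) * τ / N = ((-L : ℤ) : ℂ) * τ / N := by push_cast; ring
      have e2 : -(2 * Real.pi * ((-L : ℤ) : ℝ) * τ.im / N) = 2 * Real.pi * (L / N) * τ.im := by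
        push_cast
        ring
      rw [norm_mul, e, QSb_norm_ee, coe_im, e2] at h1
      have h2 : 0 < ‖f τ‖ := norm_pos_iff.2 (hf τ)
      rw [norm_inv, le_inv_mul_iff₀ hpos, mul_inv_le_iff₀ h2]
      exact h1.le
  have hlow' : ∀ ν < -L, c' ν = 0 := fun ν hν => hlow ν (by
    rw [div_mul_cancel₀ _ hN'.ne']
    exact_mod_cast hν)
  have h1 := (h.mul hq hL hlow').congr (fun _ => rfl) (g := fun τ => 1 * ee ((0 : ℤ) * τ / N))
    fun τ => by rw [mul_inv_cancel₀ (hf τ)]; simp [ee_zero]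
  have h2 := congrFun (h1.unique hN (QS.single N 0 1))
  have h0 : c' (-L) = (c L)⁻¹ := by
    have h3 := h2 0
    simp only [zero_sub, neg_neg, Finset.Icc_self, Finset.sum_singleton, if_true] at h3
    exact eq_inv_of_mul_eq_one_right h3
  refine ⟨c', hq, hlow', h0, fun A hA hA' ν => ?_⟩
  have key : ∀ n : ℕ, c' (n - L) ∈ A := by
    intro n
    induction n using Nat.strong_induction_on with
    | _ n ih =>
      rcases Nat.eq_zero_or_pos n with rfl | hn
      · simpa [h0] using hA'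
      · have h3 := h2 n
        have hmem : L ∈ Finset.Icc L ((n : ℤ) - -L) := Finset.mem_Icc.2 ⟨le_rfl, by omega⟩
        rw [if_neg (by omega), ← Finset.add_sum_erase _ _ hmem] at h3
        have h4 : c' (n - L) = (c L)⁻¹ *
            -∑ μ ∈ (Finset.Icc L ((n : ℤ) - -L)).erase L, c μ * c' (n - μ) := by
          rw [eq_inv_mul_iff_mul_eq₀ hc]
          linear_combination h3
        rw [h4]
        refine A.mul_mem hA' (A.neg_mem (A.sum_mem fun μ hμ => A.mul_mem (hA μ) ?_))
        obtain ⟨h5, h6⟩ := Finset.mem_erase.1 hμ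
        obtain ⟨h7, h8⟩ := Finset.mem_Icc.1 h6
        have h9 := ih (n - μ + L).toNat (by omega)
        rwa [show (((n - μ + L).toNat : ℕ) : ℤ) - L = n - μ by omega] at h9
  by_cases hν : ν < -L
  · rw [hlow' ν hν]
    exact A.zero_mem
  · have h9 := key (ν + L).toNat
    rwa [show (((ν + L).toNat : ℕ) : ℤ) - L = ν by omega] at h9

theorem CT_add {y : ℝ} (hy : 0 < y) (hf : Continuous f) (hg : Continuous g) :
    CT y (fun τ => f τ + g τ) = CT y f + CT y g := by
  exact intervalIntegral.integral_add ((hf.comp (QSb_cont_line hy)).intervalIntegrable _ _)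
    ((hg.comp (QSb_cont_line hy)).intervalIntegrable _ _)

theorem CT_sub {y : ℝ} (hy : 0 < y) (hf : Continuous f) (hg : Continuous g) :
    CT y (fun τ => f τ - g τ) = CT y f - CT y g := by
  exact intervalIntegral.integral_sub ((hf.comp (QSb_cont_line hy)).intervalIntegrable _ _)
    ((hg.comp (QSb_cont_line hy)).intervalIntegrable _ _)

theorem norm_CT_le {y B : ℝ} (hy : 0 < y) (hB : ∀ τ : ℍ, τ.im = y → 0 ≤ τ.re → τ.re ≤ 1 →
    ‖f τ‖ ≤ B) : ‖CT y f‖ ≤ B := by
  have h1 := intervalIntegral.norm_integral_le_of_norm_le_const (a := 0) (b := 1) (C := B)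
    (f := fun x : ℝ => f (ofComplex (x + y * Complex.I))) fun x hx => by
      rw [Set.uIoc_of_le zero_le_one] at hx
      exact hB _ (QSb_im_line x hy) (by rw [QSb_re_line x hy]; exact hx.1.le)
        (by rw [QSb_re_line x hy]; exact hx.2)
  simpa [CT] using h1

/-- The constant term of a periodic holomorphic function does not depend on the height. -/
theorem CT_eq_of_hol (hf : Hol f) (hp : ∀ τ, f (ModularGroup.T • τ) = f τ) {y y' : ℝ}
    (hy : 0 < y) (hy' : 0 < y') : CT y f = CT y' f := by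
  have h1 := Complex.integral_boundary_rect_eq_zero_of_differentiableOn (f ∘ ofComplex)
    ⟨0, y⟩ ⟨1, y'⟩ (hf.mono fun z hz => lt_of_lt_of_le (lt_min hy hy') hz.2.1)
  have h2 : ∀ t : ℝ, (f ∘ ofComplex) (((1 : ℝ) : ℂ) + t * Complex.I) =
      (f ∘ ofComplex) (((0 : ℝ) : ℂ) + t * Complex.I) := by
    intro t
    rw [← QSb_periodic_one hp (((0 : ℝ) : ℂ) + t * Complex.I)]
    congr 1
    push_cast
    ring
  simp only [h2] at h1
  rw [add_sub_cancel_right, sub_eq_zero] at h1
  exact h1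

/-- A holomorphic function of weight two has no constant term. -/
theorem CT_wt_two (hf : Hol f) (hw : Wt 2 f) {y : ℝ} (hy : 0 < y) : CT y f = 0 := by
  have hs : 0 < √3 := Real.sqrt_pos.2 (by norm_num)
  have hs2 : √3 ^ 2 = 3 := Real.sq_sqrt (by norm_num)
  have hs1 : 1 < √3 := by nlinarith
  have hball : ∀ z : ℂ, z ∈ Metric.ball Complex.I 1 ↔ z.re ^ 2 + z.im ^ 2 < 2 * z.im := by
    intro z
    rw [mem_ball_iff_norm, ← sq_lt_one_iff₀ (norm_nonneg _), Complex.sq_norm, Complex.normSq_apply]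
    simp only [Complex.sub_re, Complex.sub_im, Complex.I_re, Complex.I_im]
    constructor <;> intro h <;> nlinarith
  have hsub : Metric.ball Complex.I 1 ⊆ {z : ℂ | 0 < z.im} := fun z hz => by
    have := (hball z).1 hz
    change 0 < z.im
    nlinarith [sq_nonneg z.re, sq_nonneg z.im]
  obtain ⟨G, hG⟩ := (DifferentiableOn.mono hf hsub).isExactOn_ball
  set U : Set ℂ := Metric.ball Complex.I 1 ∩ {z : ℂ | 1 / 2 < z.im} with hU
  have hUo : IsOpen U := Metric.isOpen_ball.inter (isOpen_lt continuous_const Complex.continuous_im)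
  have hUc : Convex ℝ U := (convex_ball _ _).inter (convex_halfSpace_im_gt _)
  have hd : ∀ z ∈ U, HasDerivAt (fun w : ℂ => G (-w⁻¹) - G w) 0 z := by
    intro z hz
    have hz0 : 0 < z.im := hsub hz.1
    have hz1 : 1 / 2 < z.im := hz.2
    have hzne : z ≠ 0 := fun h => by simp [h] at hz0
    have hn : 0 < Complex.normSq z := Complex.normSq_pos.2 hzne
    have hmem : -z⁻¹ ∈ Metric.ball Complex.I 1 := by
      rw [hball]
      simp only [Complex.neg_re, Complex.neg_im, Complex.inv_re, Complex.inv_im]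
      have e : (-(z.re / Complex.normSq z)) ^ 2 + (-(-z.im / Complex.normSq z)) ^ 2 =
          1 / Complex.normSq z := by
        field_simp
        rw [Complex.normSq_apply]
        ring
      have e2 : 2 * -(-z.im / Complex.normSq z) = 2 * z.im / Complex.normSq z := by ring
      rw [e, e2]
      exact div_lt_div_of_pos_right (by linarith) hn
    have h1 := ((hG _ hmem).comp z (hasDerivAt_inv hzne).neg).sub (hG z hz.1)
    have h2 : (ofComplex (-z⁻¹) : ℍ) = ModularGroup.S • ofComplex z := by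
      apply UpperHalfPlane.ext
      rw [coe_S_smul, QSb_coe hz0, QSb_coe (hsub hmem)]
    refine h1.congr_deriv ?_
    simp only [Function.comp_apply, h2, hw.inv, QSb_coe hz0, zpow_ofNat]
    field_simp
    ring
  have hI : Complex.I ∈ U := ⟨Metric.mem_ball_self one_pos, by simp; norm_num⟩
  have hline : ∀ x : ℝ, |x| ≤ 1 / 2 →
      (x : ℂ) + (√3 / 2 : ℝ) * Complex.I ∈ Metric.ball Complex.I 1 := by
    intro x hx
    rw [hball, QSb_re, QSb_im]
    have := sq_abs x
    nlinarith [abs_nonneg x]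
  have hρ : ((1 / 2 : ℝ) : ℂ) + (√3 / 2 : ℝ) * Complex.I ∈ U :=
    ⟨hline _ (by rw [abs_of_pos]; norm_num), by
      rw [Set.mem_ofPred_eq, QSb_im]
      linarith⟩
  have hconst := hUo.is_const_of_deriv_eq_zero hUc.isPreconnected
    (fun z hz => (hd z hz).differentiableAt.differentiableWithinAt)
    (fun z hz => (hd z hz).deriv) hρ hI
  have hinv : -(((1 / 2 : ℝ) : ℂ) + (√3 / 2 : ℝ) * Complex.I)⁻¹ =
      ((-(1 / 2) : ℝ) : ℂ) + (√3 / 2 : ℝ) * Complex.I := by
    rw [neg_eq_iff_eq_neg]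
    refine inv_eq_of_mul_eq_one_right ?_
    have h3 : ((√3 : ℝ) : ℂ) ^ 2 = 3 := by exact_mod_cast hs2
    push_cast
    linear_combination (-(((√3 : ℝ) : ℂ) ^ 2) / 4) * Complex.I_sq + (1 / 4) * h3
  simp only [hinv, Complex.inv_I, neg_neg, sub_self] at hconst
  rw [CT_eq_of_hol hf hw.per hy (y' := √3 / 2) (by positivity), CT]
  have hper : Function.Periodic
      (fun x : ℝ => f (ofComplex (x + (√3 / 2 : ℝ) * Complex.I))) 1 := by
    intro x
    have := QSb_periodic_one hw.per (x + (√3 / 2 : ℝ) * Complex.I)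
    simp only [Function.comp_apply] at this ⊢
    rw [← this]
    congr 2
    push_cast
    ring
  have h4 := hper.intervalIntegral_add_eq 0 (-(1 / 2))
  rw [zero_add, show -(1 / 2 : ℝ) + 1 = 1 / 2 by norm_num] at h4
  have hcont : Continuous fun x : ℝ => f (ofComplex (x + (√3 / 2 : ℝ) * Complex.I)) :=
    (hvm_continuous hf).comp (QSb_cont_line (by positivity))
  rw [h4, intervalIntegral.integral_eq_sub_of_hasDerivAt
    (f := fun x : ℝ => G (x + (√3 / 2 : ℝ) * Complex.I)) (fun x hx => ?_)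
    (hcont.intervalIntegrable _ _)]
  · linear_combination -hconst
  · rw [Set.uIcc_of_le (by norm_num)] at hx
    exact ((hG _ (hline x (abs_le.2 hx))).comp_add_const (x : ℂ) _).comp_ofReal

end

end Pool.Agent.P.MP_a60a76_nt.Sz
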