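import Pool.Agent.P.MP_a60a76_nt.Sz.Weil
import Pool.Agent.P.MP_a60a76_nt.Sz.Dbar
import Pool.Agent.P.MP_a60a76_nt.Sz.Cos
import Pool.Agent.P.MP_a60a76_nt.Sz.QSb
import Pool.Agent.P.MP_a60a76_nt.Sz.Lev1

namespace Pool.Agent.P.MP_a60a76_nt.Sz

open UpperHalfPlane MeasureTheory SP
open scoped MatrixGroups UpperHalfPlane Matrix Modular Topology Classical ArithmeticFunction.sigma

noncomputable section

/-! Averaging over the modular group with a holomorphic partition of unity. -/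

/-- Size of the numerators. -/
def Avg_A (τ : ℍ) : ℝ := (‖E4 τ‖ + ‖E6 τ‖) * ‖(Dl τ)⁻¹‖

theorem Avg_A_nonneg (τ : ℍ) : 0 ≤ Avg_A τ := by unfold Avg_A; positivity

theorem Avg_w0_le (x : CP) (τ : ℍ) :
    ‖w0 x τ‖ ≤ Avg_A τ * (‖dn (gam x) τ‖⁻¹ ^ 8 + ‖dn (gam x) τ‖⁻¹ ^ 6) := by
  have h := norm_sub_le ((dn (gam x) τ ^ 8)⁻¹ * E4 τ) ((dn (gam x) τ ^ 6)⁻¹ * E6 τ)
  rw [norm_mul, norm_mul, norm_inv, norm_inv, norm_pow, norm_pow, ← inv_pow ‖_‖ 8,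
    ← inv_pow ‖_‖ 6] at h
  rw [w0, div_eq_mul_inv, mul_inv, norm_mul, norm_mul, Avg_A]
  have h1 : ‖(3456 : ℂ)⁻¹‖ ≤ 1 := by norm_num
  generalize ‖dn (gam x) τ‖⁻¹ = t at *
  have h2 : t ^ 8 * ‖E4 τ‖ + t ^ 6 * ‖E6 τ‖ ≤ (‖E4 τ‖ + ‖E6 τ‖) * (t ^ 8 + t ^ 6) := by
    have h3 : 0 ≤ t ^ 8 * ‖E6 τ‖ := by positivity
    have h4 : 0 ≤ t ^ 6 * ‖E4 τ‖ := by positivity
    linarith
  calc _ ≤ (‖E4 τ‖ + ‖E6 τ‖) * (t ^ 8 + t ^ 6) * (1 * ‖(Dl τ)⁻¹‖) := by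
        gcongr
        exact h.trans h2
    _ = _ := by ring

theorem Avg_pt (x : CP) (τ : ℍ) {R : ℝ} (hR : ‖dn (gam x) τ‖⁻¹ ≤ R) :
    ‖w0 x τ‖ ≤ Avg_A τ * (R ^ 5 + R ^ 3) * ‖dn (gam x) τ‖⁻¹ ^ 3 ∧
    ‖w0 x τ * (dn (gam x) τ ^ 2)⁻¹‖ * ((gam x • τ).im + (gam x • τ).im ^ (-(5 / 2) : ℝ)) ≤
      Avg_A τ * ((R ^ 2 + 1) * (τ.im * R ^ 7 + τ.im ^ (-(5 / 2) : ℝ))) * ‖dn (gam x) τ‖⁻¹ ^ 3 := by
  have h := Avg_w0_le x τ
  have hA := Avg_A_nonneg τ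
  have hy := τ.im_pos
  have ht : 0 < ‖dn (gam x) τ‖⁻¹ := inv_pos.2 (norm_pos_iff.2 (dn_sl_ne_zero _ _))
  rw [im_sl_smul, Complex.normSq_eq_norm_sq, div_eq_mul_inv, norm_mul, norm_inv, norm_pow,
    ← inv_pow]
  generalize ‖dn (gam x) τ‖⁻¹ = t at *
  have e : (τ.im * t ^ 2) ^ (-(5 / 2) : ℝ) = τ.im ^ (-(5 / 2) : ℝ) * (t ^ 5)⁻¹ := by
    rw [Real.mul_rpow hy.le (by positivity), ← Real.rpow_natCast, ← Real.rpow_mul ht.le,
      ← Real.rpow_natCast, ← Real.rpow_neg ht.le]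
    norm_num
  rw [e]
  have hz : 0 ≤ τ.im ^ (-(5 / 2) : ℝ) := by positivity
  generalize τ.im ^ (-(5 / 2) : ℝ) = z at *
  constructor
  · calc _ ≤ _ := h
      _ = Avg_A τ * (t ^ 5 + t ^ 3) * t ^ 3 := by ring
      _ ≤ _ := by gcongr
  · calc _ ≤ Avg_A τ * (t ^ 8 + t ^ 6) * t ^ 2 * (τ.im * t ^ 2 + z * (t ^ 5)⁻¹) := by gcongr
      _ = Avg_A τ * ((t ^ 2 + 1) * (τ.im * t ^ 7 + z)) * t ^ 3 := by field_simp
      _ ≤ _ := by
        have : 0 ≤ R := ht.le.trans hR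
        gcongr

theorem Avg_one_le (x : CP) : 1 ≤ ‖x.1‖ := by
  by_contra h
  have h0 : ∀ i, x.1 i = 0 := fun i => by
    have := (norm_le_pi_norm x.1 i).trans_lt (not_le.1 h)
    rw [Int.norm_eq_abs] at this
    exact Int.abs_lt_one_iff.1 (by exact_mod_cast this)
  have := x.2
  rw [h0, h0] at this
  exact not_isCoprime_zero_zero this

theorem Avg_strip (A : ℝ) {B : ℝ} (hB : 0 < B) : ∃ R : ℝ, 0 ≤ R ∧ ∀ τ : ℍ, |τ.re| ≤ A →
    B ≤ τ.im → ∀ x : CP, ‖dn (gam x) τ‖⁻¹ ≤ R ∧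
      ‖dn (gam x) τ‖⁻¹ ^ 3 ≤ R ^ 3 * ‖x.1‖ ^ (-3 : ℝ) := by
  obtain ⟨r, hr, h⟩ := dn_lower A hB
  refine ⟨r⁻¹, by positivity, fun τ h1 h2 x => ?_⟩
  have h3 := h τ h1 h2 (x.1 0) (x.1 1)
  have e : (![x.1 0, x.1 1] : Fin 2 → ℤ) = x.1 := by
    ext i
    fin_cases i <;> rfl
  rw [e, ← dn_gam] at h3
  have h4 := Avg_one_le x
  have h5 : ‖dn (gam x) τ‖⁻¹ ≤ r⁻¹ * ‖x.1‖⁻¹ := by
    rw [← mul_inv]
    exact inv_anti₀ (by positivity) h3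
  refine ⟨h5.trans (mul_le_of_le_one_right (by positivity) (inv_le_one_of_one_le₀ h4)), ?_⟩
  rw [Real.rpow_neg (norm_nonneg _), show (3 : ℝ) = (3 : ℕ) by norm_num, Real.rpow_natCast,
    ← inv_pow, ← mul_pow]
  gcongr

theorem Avg_dn_T (n : ℤ) (τ : ℍ) : dn (ModularGroup.T ^ n : SL(2, ℤ)) τ = 1 := by
  simp [dn, ModularGroup.coe_T_zpow]

theorem Avg_sum : ∃ R C : ℝ, 0 ≤ R ∧ 0 ≤ C ∧ ∀ τ : ℍ, 1 ≤ τ.im →
    (∀ x : CP, ‖dn (gam x) τ‖⁻¹ ≤ R) ∧ Summable (fun x : CP => ‖dn (gam x) τ‖⁻¹ ^ 3) ∧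
      ∑' x : CP, ‖dn (gam x) τ‖⁻¹ ^ 3 ≤ C := by
  obtain ⟨R, hR, h⟩ := Avg_strip 1 one_pos
  have hs := (summable_cp (s := 3) (by norm_num)).mul_left (R ^ 3)
  refine ⟨R, ∑' x : CP, R ^ 3 * ‖x.1‖ ^ (-3 : ℝ), hR, tsum_nonneg fun x => by positivity,
    fun τ hτ => ?_⟩
  obtain ⟨e, he⟩ := exists_cp_equiv (ModularGroup.T ^ ⌊τ.re⌋)
  set σ' : ℍ := ModularGroup.T ^ (-⌊τ.re⌋) • τ with hσ
  have h1 : |σ'.re| ≤ 1 := by
    rw [hσ, ModularGroup.re_T_zpow_smul, abs_le]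
    push_cast
    constructor <;> linarith [Int.floor_le τ.re, Int.lt_floor_add_one τ.re]
  have h2 : 1 ≤ σ'.im := by rwa [hσ, ModularGroup.im_T_zpow_smul]
  have h3 : ∀ x, dn (gam x) τ = dn (gam (e x)) σ' := fun x => by
    obtain ⟨n, hn⟩ := he x
    have h4 := congrArg (fun g : SL(2, ℤ) => dn g σ') hn
    simp only [dn_sl_mul, Avg_dn_T, mul_one, one_mul] at h4
    rwa [hσ, smul_smul, ← zpow_add, add_neg_cancel, zpow_zero, one_smul] at h4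
  have h5 : Summable fun x : CP => ‖dn (gam x) σ'‖⁻¹ ^ 3 :=
    hs.of_nonneg_of_le (fun x => by positivity) fun x => (h σ' h1 h2 x).2
  simp only [h3]
  refine ⟨fun x => (h σ' h1 h2 _).1, e.summable_iff.2 h5, ?_⟩
  rw [e.tsum_eq fun x : CP => ‖dn (gam x) σ'‖⁻¹ ^ 3]
  exact h5.tsum_le_tsum (fun x => (h σ' h1 h2 x).2) hs

theorem Avg_A_le : ∃ C : ℝ, 0 ≤ C ∧ ∀ τ : ℍ, 1 ≤ τ.im →
    Avg_A τ ≤ C * Real.exp (2 * Real.pi * τ.im) := by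
  obtain ⟨c, hc, hL, -⟩ := qz_E4
  obtain ⟨C1, h1, h1'⟩ := hc.bound one_pos (L := 0) (fun ν h => by simp [hL ν h]) one_pos
  obtain ⟨c, hc, hL, -⟩ := qz_E6
  obtain ⟨C2, h2, h2'⟩ := hc.bound one_pos (L := 0) (fun ν h => by simp [hL ν h]) one_pos
  obtain ⟨c, hc, hL, -⟩ := qz_Dl_inv
  obtain ⟨C3, h3, h3'⟩ := hc.bound one_pos (L := -1) (fun ν h => by simp [hL ν h]) one_pos
  refine ⟨(C1 + C2) * C3, by positivity, fun τ hτ => ?_⟩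
  have a1 : ‖E4 τ‖ ≤ C1 := by simpa using h1' τ hτ
  have a2 : ‖E6 τ‖ ≤ C2 := by simpa using h2' τ hτ
  have a3 : ‖(Dl τ)⁻¹‖ ≤ C3 * Real.exp (2 * Real.pi * τ.im) := by simpa using h3' τ hτ
  rw [Avg_A, mul_assoc]
  gcongr

theorem Avg_A_cont : Continuous Avg_A :=
  ((c1_of_hol E4_hol).1.continuous.norm.add (c1_of_hol E6_hol).1.continuous.norm).mul
    ((c1_of_hol Dl_hol).1.continuous.inv₀ Dl_ne_zero).norm

/-- The weights decay fast enough. -/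
theorem avg_bound : ∃ C : ℝ, 0 ≤ C ∧ ∀ τ : ℍ, 1 ≤ τ.im →
    Summable (fun x : CP => ‖w0 x τ * (dn (gam x) τ ^ 2)⁻¹‖ *
      ((gam x • τ).im + (gam x • τ).im ^ (-(5 / 2) : ℝ))) ∧
    ∑' x : CP, ‖w0 x τ * (dn (gam x) τ ^ 2)⁻¹‖ *
      ((gam x • τ).im + (gam x • τ).im ^ (-(5 / 2) : ℝ)) ≤
        C * τ.im * Real.exp (2 * Real.pi * τ.im) := by
  obtain ⟨R, C, hR, hC, h⟩ := Avg_sum
  obtain ⟨C', hC', h'⟩ := Avg_A_le
  refine ⟨C' * ((R ^ 2 + 1) * (R ^ 7 + 1)) * C, by positivity, fun τ hτ => ?_⟩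
  obtain ⟨h1, h2, h3⟩ := h τ hτ
  have hs := h2.mul_left (Avg_A τ * ((R ^ 2 + 1) * (τ.im * R ^ 7 + τ.im ^ (-(5 / 2) : ℝ))))
  have hs' := hs.of_nonneg_of_le (fun x => by
    have := (gam x • τ).im_pos
    positivity) fun x => (Avg_pt x τ (h1 x)).2
  refine ⟨hs', (hs'.tsum_le_tsum (fun x => (Avg_pt x τ (h1 x)).2) hs).trans ?_⟩
  rw [tsum_mul_left]
  have h4 : τ.im ^ (-(5 / 2) : ℝ) ≤ τ.im :=
    (Real.rpow_le_one_of_one_le_of_nonpos hτ (by norm_num)).trans hτ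
  have h5 := Avg_A_nonneg τ
  have h6 := τ.im_pos
  calc _ ≤ C' * Real.exp (2 * Real.pi * τ.im) * ((R ^ 2 + 1) * (τ.im * R ^ 7 + τ.im)) * C := by
        gcongr
        exact h' τ hτ
    _ = _ := by ring

theorem avg_bound_compact {K : Set ℍ} (hK : IsCompact K) : ∃ u : CP → ℝ, Summable u ∧
    ∀ x, ∀ τ ∈ K, ‖w0 x τ‖ ≤ u x ∧ ‖w0 x τ * (dn (gam x) τ ^ 2)⁻¹‖ *
      ((gam x • τ).im + (gam x • τ).im ^ (-(5 / 2) : ℝ)) ≤ u x := by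
  rcases K.eq_empty_or_nonempty with rfl | hne
  · exact ⟨0, summable_zero, fun x τ h => h.elim⟩
  obtain ⟨a, -, ha⟩ := hK.exists_isMaxOn hne continuous_re.abs.continuousOn
  obtain ⟨b, -, hb⟩ := hK.exists_isMinOn hne continuous_im.continuousOn
  obtain ⟨R, hR, h⟩ := Avg_strip |a.re| b.im_pos
  have hc : Continuous fun τ : ℍ => Avg_A τ * (R ^ 5 + R ^ 3) +
      Avg_A τ * ((R ^ 2 + 1) * (τ.im * R ^ 7 + τ.im ^ (-(5 / 2) : ℝ))) :=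
    (Avg_A_cont.mul continuous_const).add (Avg_A_cont.mul (continuous_const.mul
      ((continuous_im.mul continuous_const).add
        (continuous_im.rpow_const fun τ => Or.inl τ.im_pos.ne'))))
  obtain ⟨c, -, hc⟩ := hK.exists_isMaxOn hne hc.continuousOn
  refine ⟨_, ((summable_cp (s := 3) (by norm_num)).mul_left (R ^ 3)).mul_left
    (Avg_A c * (R ^ 5 + R ^ 3) +
      Avg_A c * ((R ^ 2 + 1) * (c.im * R ^ 7 + c.im ^ (-(5 / 2) : ℝ)))), fun x τ hτ => ?_⟩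
  obtain ⟨h1, h2⟩ := h τ (ha hτ) (hb hτ) x
  obtain ⟨h3, h4⟩ := Avg_pt x τ h1
  have h5 := Avg_A_nonneg τ
  have h6 := τ.im_pos
  have h7 : 0 ≤ Avg_A τ * (R ^ 5 + R ^ 3) := by positivity
  have h8 : 0 ≤ Avg_A τ * ((R ^ 2 + 1) * (τ.im * R ^ 7 + τ.im ^ (-(5 / 2) : ℝ))) := by positivity
  have h9 := isMaxOn_iff.1 hc τ hτ
  exact ⟨h3.trans (mul_le_mul (by linarith) h2 (by positivity) (by linarith)),
    h4.trans (mul_le_mul (by linarith) h2 (by positivity) (by linarith))⟩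

theorem Avg_hol_inv (g : SL(2, ℤ)) (n : ℕ) : Hol fun τ => (dn g τ ^ n)⁻¹ :=
  DifferentiableOn.inv ((hol_dn g).pow n) fun _ _ => pow_ne_zero _ (dn_sl_ne_zero _ _)

theorem w0_hol (x : CP) : Hol (w0 x) := by
  exact DifferentiableOn.div (((Avg_hol_inv _ 8).mul E4_hol).sub ((Avg_hol_inv _ 6).mul E6_hol))
    (Dl_hol.const_mul 3456) fun _ _ => mul_ne_zero (by norm_num) (Dl_ne_zero _)

namespace Par

variable {P : Par} {r θ : P.D → ℍ → ℂ}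

/-- The hypotheses on a Green function `r` with theta kernel `θ`. -/
structure IsGr (P : Par) (r θ : P.D → ℍ → ℂ) : Prop where
  c1 : ∀ k, C1 (r k)
  db_eq : ∀ k τ, db (r k) τ = -(Complex.I / (2 * (τ.im : ℂ) ^ 2)) * θ k τ
  r_T : ∀ k τ, r k (ModularGroup.T • τ) = P.psi (P.Q k) * r k τ
  th_T : ∀ k τ, θ k (ModularGroup.T • τ) = P.psi (P.Q k) * θ k τ
  th_S : ∀ k τ, θ k (ModularGroup.S • τ) = P.Mb (fun k' => θ k' τ) k
  bound : ∃ C : ℝ, 0 ≤ C ∧ ∀ k (τ : ℍ), ‖r k τ‖ ≤ C * (τ.im + τ.im ^ (-(5 / 2) : ℝ))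

theorem Avg_tl_T (h : ∀ k τ, r k (ModularGroup.T • τ) = P.psi (P.Q k) * r k τ)
    (v : Fin 2 → P.D) (τ : ℍ) :
    P.tl r (P.act ModularGroup.T v) (ModularGroup.T • τ) = P.tl r v τ := by
  refine Finset.sum_congr rfl fun k _ => ?_
  rw [h, gg_T, map_mul, conj_psi, mul_mul_mul_comm, ← psi_add, add_neg_cancel, psi_zero, one_mul]

theorem IsGr.Avg_tl (h : P.IsGr r θ) (g : SL(2, ℤ)) (v : Fin 2 → P.D) (τ : ℍ) :
    P.tl θ (P.act g v) (g • τ) = P.tl θ v τ := by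
  induction g using sl2_ind generalizing v τ with
  | hS =>
    simp only [tl, h.th_S, gg_S, conj_Mb]
    simpa only [mul_comm] using
      P.sum_M_Mb (fun k => (starRingEnd ℂ) (P.gg k v)) (fun k => θ k τ)
  | hT => exact Avg_tl_T h.th_T v τ
  | h1 => rw [Matrix.SpecialLinearGroup.coe_one, act_one, one_smul]
  | hm a b ha hb => rw [Matrix.SpecialLinearGroup.coe_mul, act_mul, mul_smul, ha, hb]
  | hi a ha =>
    rw [← ha, smul_inv_smul, ← act_mul, ← Matrix.SpecialLinearGroup.coe_mul, mul_inv_cancel,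
      Matrix.SpecialLinearGroup.coe_one, act_one]

theorem IsGr.Avg_c1 (h : P.IsGr r θ) (v : Fin 2 → P.D) : C1 (P.tl r v) ∧
    ∀ τ, db (P.tl r v) τ = -(Complex.I / (2 * (τ.im : ℂ) ^ 2)) * P.tl θ v τ := by
  have h1 := fun k => (h.c1 k).mul (c1_const ((starRingEnd ℂ) (P.gg k v))).1
  have h2 := c1_sum Finset.univ fun k _ => (h1 k).1
  refine ⟨h2.1, fun τ => (h2.2 τ).trans ?_⟩
  rw [tl, Finset.mul_sum]
  refine Finset.sum_congr rfl fun k _ => ?_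
  rw [(h1 k).2, (c1_const _).2, h.db_eq]
  ring

theorem IsGr.Avg_hol (h : P.IsGr r θ) (g : SL(2, ℤ)) (v : Fin 2 → P.D) :
    Hol fun τ => P.tl r v τ - (dn g τ ^ 2)⁻¹ * P.tl r (P.act g v) (g • τ) := by
  have h1 := (h.Avg_c1 (P.act g v)).1.smul g
  have h2 := h1.1.hol_mul (Avg_hol_inv g 2)
  have h3 := (h.Avg_c1 v).1.sub h2.1
  refine h3.1.hol fun τ => ?_
  rw [h3.2, h2.2, h1.2, (h.Avg_c1 _).2, (h.Avg_c1 _).2, h.Avg_tl, im_sl_smul]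
  have h4 := dn_sl_ne_zero g τ
  have h5 : (starRingEnd ℂ) (dn g τ) ≠ 0 := (map_ne_zero _).2 h4
  have h6 : (τ.im : ℂ) ≠ 0 := Complex.ofReal_ne_zero.2 τ.im_pos.ne'
  rw [Complex.ofReal_div, ← Complex.mul_conj]
  field_simp
  ring

theorem IsGr.Avg_term (h : P.IsGr r θ) : ∃ C : ℝ, 0 ≤ C ∧ ∀ (x : CP) (v : Fin 2 → P.D) (τ : ℍ),
    ‖w0 x τ * (dn (gam x) τ ^ 2)⁻¹ * P.tl r v (gam x • τ)‖ ≤
      C * (‖w0 x τ * (dn (gam x) τ ^ 2)⁻¹‖ *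
        ((gam x • τ).im + (gam x • τ).im ^ (-(5 / 2) : ℝ))) := by
  obtain ⟨C, hC, hb⟩ := h.bound
  refine ⟨Fintype.card P.D * C, by positivity, fun x v τ => ?_⟩
  have h1 : ‖P.tl r v (gam x • τ)‖ ≤ Fintype.card P.D *
      (C * ((gam x • τ).im + (gam x • τ).im ^ (-(5 / 2) : ℝ))) := by
    rw [← nsmul_eq_mul, ← Finset.card_univ, ← Finset.sum_const]
    refine norm_sum_le_of_le _ fun k _ => ?_
    rw [norm_mul, Complex.norm_conj]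
    exact (mul_le_of_le_one_right (norm_nonneg _) (P.norm_gg_le k v)).trans (hb k _)
  rw [norm_mul]
  exact (mul_le_mul_of_nonneg_left h1 (norm_nonneg _)).trans_eq (by ring)

/-- The inner sum. -/
def Avg_F (P : Par) (r : P.D → ℍ → ℂ) (v : Fin 2 → P.D) (τ : ℍ) : ℂ :=
  ∑' x : CP, w0 x τ * (dn (gam x) τ ^ 2)⁻¹ * P.tl r (P.act (gam x) v) (gam x • τ)

theorem IsGr.Avg_F_smul (h : P.IsGr r θ) (g : SL(2, ℤ)) (v : Fin 2 → P.D) (τ : ℍ) :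
    P.Avg_F r (P.act g v) (g • τ) = dn g τ ^ 2 * P.Avg_F r v τ := by
  have h1 := tsum_gam_mul (φ := fun γ : SL(2, ℤ) =>
    ((dn γ τ ^ 8)⁻¹ * E4 τ - (dn γ τ ^ 6)⁻¹ * E6 τ) / (3456 * Dl τ) * (dn γ τ ^ 2)⁻¹ *
      P.tl r (P.act γ v) (γ • τ)) (fun γ => by
        rw [dn_sl_mul, dn_T, one_mul, Matrix.SpecialLinearGroup.coe_mul, act_mul, mul_smul,
          Avg_tl_T h.r_T]) g
  rw [Avg_F, Avg_F]
  simp only [w0]
  rw [← h1, ← tsum_mul_left]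
  refine tsum_congr fun x => ?_
  rw [dn_sl_mul, Matrix.SpecialLinearGroup.coe_mul, act_mul, mul_smul, E4_smul, E6_smul, Dl_smul]
  have h2 := dn_sl_ne_zero g τ
  have h3 := dn_sl_ne_zero (gam x) (g • τ)
  have h4 := Dl_ne_zero τ
  field_simp

theorem IsGr.Avg_eta (h : P.IsGr r θ) (g : SL(2, ℤ)) (k : P.D) (τ : ℍ) :
    P.eta r k (g • τ) =
      dn g τ ^ 2 * (((P.p : ℂ) ^ 3)⁻¹ * ∑ v, P.gg k (P.act g v) * P.Avg_F r v τ) := by
  have hb : Function.Bijective (P.act g) := by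
    refine Function.bijective_iff_has_inverse.2 ⟨P.act (g⁻¹ : SL(2, ℤ)), fun v => ?_, fun v => ?_⟩
    <;> rw [← act_mul, ← Matrix.SpecialLinearGroup.coe_mul] <;> simp [act_one]
  change _ * ∑ v, P.gg k v * P.Avg_F r v (g • τ) = _
  rw [← hb.sum_comp, mul_left_comm, Finset.mul_sum (a := dn g τ ^ 2)]
  refine congrArg _ (Finset.sum_congr rfl fun v _ => ?_)
  rw [h.Avg_F_smul, mul_left_comm]

theorem IsGr.hol (h : P.IsGr r θ) (k : P.D) : Hol fun τ => r k τ - P.eta r k τ := by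
  obtain ⟨C, hC, hb⟩ := h.Avg_term
  have h1 : ∀ v, Hol fun τ => ∑' x : CP, w0 x τ *
      (P.tl r v τ - (dn (gam x) τ ^ 2)⁻¹ * P.tl r (P.act (gam x) v) (gam x • τ)) := fun v => by
    refine hol_tsum (fun x => (w0_hol x).mul (h.Avg_hol _ v)) fun K hK => ?_
    obtain ⟨u, hu, hu'⟩ := avg_bound_compact hK
    obtain ⟨B, hB⟩ := hK.exists_bound_of_continuousOn (h.Avg_c1 v).1.continuous.continuousOn
    refine ⟨_, (hu.mul_right B).add (hu.mul_left C), fun x τ hτ => ?_⟩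
    rw [mul_sub, ← mul_assoc]
    refine (norm_sub_le _ _).trans (add_le_add ?_ ((hb _ _ _).trans ?_))
    · rw [norm_mul]
      exact mul_le_mul (hu' x τ hτ).1 (hB τ hτ) (norm_nonneg _)
        ((norm_nonneg _).trans (hu' x τ hτ).1)
    · exact mul_le_mul_of_nonneg_left (hu' x τ hτ).2 hC
  have h2 : ∀ v τ, ∑' x : CP, w0 x τ *
      (P.tl r v τ - (dn (gam x) τ ^ 2)⁻¹ * P.tl r (P.act (gam x) v) (gam x • τ)) =
        P.tl r v τ - P.Avg_F r v τ := fun v τ => by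
    obtain ⟨u, hu, hu'⟩ := avg_bound_compact (isCompact_singleton (x := τ))
    have h3 : Summable fun x : CP =>
        w0 x τ * (dn (gam x) τ ^ 2)⁻¹ * P.tl r (P.act (gam x) v) (gam x • τ) :=
      .of_norm_bounded (hu.mul_left C) fun x =>
        (hb _ _ _).trans (mul_le_mul_of_nonneg_left (hu' x τ rfl).2 hC)
    have h4 := ((hasSum_w0 τ).mul_right (P.tl r v τ)).sub h3.hasSum
    rw [one_mul] at h4
    simp only [mul_sub, ← mul_assoc]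
    exact h4.tsum_eq
  have h3 : ∀ τ, r k τ - P.eta r k τ =
      ((P.p : ℂ) ^ 3)⁻¹ * ∑ v, P.gg k v * (P.tl r v τ - P.Avg_F r v τ) := fun τ => by
    have h4 : ∑ v, P.gg k v * P.tl r v τ = (P.p : ℂ) ^ 3 * r k τ := by
      simp only [tl, Finset.mul_sum]
      rw [Finset.sum_comm]
      simp only [mul_left_comm (P.gg k _), ← Finset.mul_sum, sum_gg_conj]
      simp [mul_comm]
    simp only [mul_sub, Finset.sum_sub_distrib]
    rw [h4, inv_mul_cancel_left₀ (pow_ne_zero _ P.p_ne)]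
    rfl
  simp only [h2] at h1
  simp only [h3]
  exact (DifferentiableOn.fun_sum fun v _ => (h1 v).const_mul (P.gg k v)).const_mul _

theorem IsGr.eta_T (h : P.IsGr r θ) (k : P.D) (τ : ℍ) :
    P.eta r k (ModularGroup.T • τ) = P.psi (P.Q k) * P.eta r k τ := by
  rw [h.Avg_eta, dn_T, one_pow, one_mul]
  simp only [gg_T, mul_assoc, ← Finset.mul_sum]
  rw [mul_left_comm]
  rfl

theorem IsGr.eta_S (h : P.IsGr r θ) (k : P.D) (τ : ℍ) :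
    P.eta r k (ModularGroup.S • τ) = (τ : ℂ) ^ 2 * P.Mb (fun k' => P.eta r k' τ) k := by
  rw [h.Avg_eta, dn_S]
  refine congrArg _ ?_
  change _ = P.Mb (fun k' => _ * ∑ v, P.gg k' v * P.Avg_F r v τ) k
  rw [Mb_const_mul]
  refine congrArg _ ?_
  simp only [gg_S, Mb, Finset.mul_sum, Finset.sum_mul, mul_assoc]
  exact Finset.sum_comm

theorem IsGr.eta_bound (h : P.IsGr r θ) : ∃ C : ℝ, ∀ k (τ : ℍ), 1 ≤ τ.im →
    ‖P.eta r k τ‖ ≤ C * τ.im * Real.exp (2 * Real.pi * τ.im) := by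
  obtain ⟨C, hC, hb⟩ := h.Avg_term
  obtain ⟨C', -, hb'⟩ := avg_bound
  refine ⟨‖((P.p : ℂ) ^ 3)⁻¹‖ * (Fintype.card (Fin 2 → P.D) * (C * C')), fun k τ hτ => ?_⟩
  obtain ⟨h1, h2⟩ := hb' τ hτ
  have h3 : ‖∑ v, P.gg k v * P.Avg_F r v τ‖ ≤ Fintype.card (Fin 2 → P.D) *
      (C * (C' * τ.im * Real.exp (2 * Real.pi * τ.im))) := by
    rw [← nsmul_eq_mul, ← Finset.card_univ, ← Finset.sum_const]
    refine norm_sum_le_of_le _ fun v _ => ?_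
    rw [norm_mul]
    refine (mul_le_of_le_one_left (norm_nonneg _) (P.norm_gg_le k v)).trans ?_
    refine (tsum_of_norm_bounded (h1.mul_left C).hasSum fun x => hb _ _ _).trans ?_
    rw [tsum_mul_left]
    exact mul_le_mul_of_nonneg_left h2 hC
  change ‖_ * ∑ v, P.gg k v * P.Avg_F r v τ‖ ≤ _
  rw [norm_mul]
  exact (mul_le_mul_of_nonneg_left h3 (norm_nonneg _)).trans_eq (by ring)

theorem IsGr.sum_eta_up (h : P.IsGr r θ) (τ : ℍ) : ∑ z, P.eta r (P.up z) τ =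
    ∑' x : CP, w0 x τ * (dn (gam x) τ ^ 2)⁻¹ * ∑ z, r (P.up z) (gam x • τ) := by
  have h1 : ∀ v : Fin 2 → P.D, P.rd (v 0) = 0 ∧ P.rd (v 1) = 0 → P.Avg_F r v τ =
      ∑' x : CP, w0 x τ * (dn (gam x) τ ^ 2)⁻¹ * ∑ z, r (P.up z) (gam x • τ) := fun v hv => by
    refine tsum_congr fun x => congrArg _ ?_
    have h2 : ∀ i, P.rd (P.act (gam x) v i) = 0 := fun i => by
      simp [act, Matrix.mulVec, dotProduct, Fin.sum_univ_two, hv.1, hv.2]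
    have h3 := P.sum_fibre (fun k => r k (gam x • τ)) 0
    simp only [map_zero, zero_add] at h3
    rw [← h3, tl]
    refine Finset.sum_congr rfl fun k _ => ?_
    rw [P.gg_of_rd (h2 0) (h2 1)]
    split_ifs <;> simp
  have h2 : ∑ k : P.D, (if P.rd k = 0 then (1 : ℂ) else 0) = P.p := by
    simpa using P.sum_fibre (fun _ => (1 : ℂ)) 0
  have h3 : ∑ v : Fin 2 → P.D, (if P.rd (v 0) = 0 ∧ P.rd (v 1) = 0 then (1 : ℂ) else 0) =
      P.p * P.p := by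
    rw [← h2, Finset.sum_mul_sum, ← Finset.sum_product', Finset.univ_product_univ,
      ← (finTwoArrowEquiv P.D).sum_comp]
    refine Finset.sum_congr rfl fun v _ => ?_
    simp [← ite_and, and_comm]
  change ∑ z, _ * ∑ v, P.gg (P.up z) v * P.Avg_F r v τ = _
  rw [← Finset.mul_sum, Finset.sum_comm]
  simp only [← Finset.sum_mul, sum_gg_up]
  generalize (∑' x : CP, w0 x τ * (dn (gam x) τ ^ 2)⁻¹ * ∑ z, r (P.up z) (gam x • τ)) = F at *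
  have h4 : ∀ v : Fin 2 → P.D, (if P.rd (v 0) = 0 ∧ P.rd (v 1) = 0 then (P.p : ℂ) else 0) *
      P.Avg_F r v τ = (if P.rd (v 0) = 0 ∧ P.rd (v 1) = 0 then (1 : ℂ) else 0) * (P.p * F) :=
    fun v => by
      split_ifs with hv
      · rw [h1 v hv, one_mul]
      · simp
  have := P.p_ne
  simp only [h4, ← Finset.sum_mul, h3]
  field_simp

end Par

end

end Pool.Agent.P.MP_a60a76_nt.Sz
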