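import Pool.Agent.P.MP_a60a76_nt.Sz.FxB

namespace Pool.Agent.P.MP_a60a76_nt.Sz

open UpperHalfPlane hiding J
open MeasureTheory SP
open scoped MatrixGroups UpperHalfPlane Matrix Modular Topology Classical ArithmeticFunction.sigma

noncomputable section

/-! Reduction theory of the lattice of isogenies. -/

variable {t₁ t₂ s₁ s₂ : ℍ} {Z₁ Z₂ Y₁ Y₂ : MZ}

theorem BQ_det {Z : MZ} (hZ : Rm Z t₁ t₂ = 0) :
    (Z.det : ℝ) = t₂.im / t₁.im * ((dn Z t₁).re ^ 2 + (dn Z t₁).im ^ 2) := by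
  have h := rm0_det hZ
  have h1 := t₁.im_pos.ne'
  rw [Complex.normSq_apply] at h
  field_simp
  linear_combination h

theorem BQ_bl {Z W : MZ} (hZ : Rm Z t₁ t₂ = 0) (hW : Rm W t₁ t₂ = 0) :
    ((bl Z W : ℤ) : ℝ) = t₂.im / t₁.im *
      (2 * ((dn Z t₁).re * (dn W t₁).re + (dn Z t₁).im * (dn W t₁).im)) := by
  have h := BQ_det (rm0_add hZ hW)
  have e := det_comb Z W 1 1
  rw [one_smul, one_smul] at e
  rw [e, dn_add, Complex.add_re, Complex.add_im] at h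
  simp only [Int.cast_add, Int.cast_mul, Int.cast_pow, Int.cast_one] at h
  linear_combination h - BQ_det hZ - BQ_det hW

theorem BQ_gram {Z W V : MZ} (hZ : Rm Z t₁ t₂ = 0) (hW : Rm W t₁ t₂ = 0) (hV : Rm V t₁ t₂ = 0) :
    gr Z V * gr Z W = (2 * Z.det * bl W V - bl Z W * bl Z V) ^ 2 := by
  apply Int.cast_injective (α := ℝ)
  simp only [gr, Int.cast_mul, Int.cast_sub, Int.cast_pow, Int.cast_ofNat]
  rw [BQ_bl hZ hW, BQ_bl hZ hV, BQ_bl hW hV, BQ_det hZ, BQ_det hW, BQ_det hV]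
  ring

theorem BQ_gr_nonneg {Z W : MZ} (hZ : Rm Z t₁ t₂ = 0) (hW : Rm W t₁ t₂ = 0) : 0 ≤ gr Z W := by
  have : (0 : ℝ) ≤ ((gr Z W : ℤ) : ℝ) := by
    simp only [gr, Int.cast_mul, Int.cast_sub, Int.cast_pow, Int.cast_ofNat]
    rw [BQ_bl hZ hW, BQ_det hZ, BQ_det hW]
    have := sq_nonneg (2 * (t₂.im / t₁.im) *
      ((dn Z t₁).re * (dn W t₁).im - (dn Z t₁).im * (dn W t₁).re))
    linarith
  exact_mod_cast this

theorem BQ_min {Q : MZ → Prop} (h : ∃ Z, Rm Z t₁ t₂ = 0 ∧ Q Z) :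
    ∃ Z, Rm Z t₁ t₂ = 0 ∧ Q Z ∧ ∀ W, Rm W t₁ t₂ = 0 → Q W → Z.det ≤ W.det := by
  obtain ⟨m, ⟨Z, hZ, hQ, rfl⟩, hm⟩ := Int.exists_least_of_bdd
    (P := fun m => ∃ Z : MZ, Rm Z t₁ t₂ = 0 ∧ Q Z ∧ Z.det = m)
    ⟨0, fun m ⟨Z, hZ, _, e⟩ => e ▸ rm0_det_nonneg hZ⟩
    (h.elim fun Z hZ => ⟨Z.det, Z, hZ.1, hZ.2, rfl⟩)
  exact ⟨Z, hZ, hQ, fun W hW hq => hm _ ⟨W, hW, hq, rfl⟩⟩

theorem BQ_round (b : ℤ) {G : ℤ} (hG : 0 < G) : ∃ x : ℤ, 2 * |b - x * G| ≤ G := by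
  refine ⟨(2 * b + G) / (2 * G), ?_⟩
  have h1 := Int.emod_nonneg (2 * b + G) (show 2 * G ≠ 0 by omega)
  have h2 := Int.emod_lt_of_pos (2 * b + G) (show 0 < 2 * G by omega)
  have h3 := Int.emod_add_mul_ediv (2 * b + G) (2 * G)
  have : |2 * (b - (2 * b + G) / (2 * G) * G)| ≤ G := by
    rw [abs_le]
    constructor <;> nlinarith
  rwa [abs_mul, abs_two] at this

theorem BQ_gr_sub (Z W : MZ) (x : ℤ) : gr Z (W - x • Z) = gr Z W := by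
  simp only [gr, bl_eq, Matrix.det_fin_two, Matrix.sub_apply, Matrix.smul_apply, smul_eq_mul]
  ring

/-- a vector of the lattice on the line of a shortest vector is a multiple of it -/
theorem BQ_line {Z W : MZ} (hZ : Rm Z t₁ t₂ = 0) (h0 : Z ≠ 0)
    (hmin : ∀ W, Rm W t₁ t₂ = 0 → W ≠ 0 → Z.det ≤ W.det) (hW : Rm W t₁ t₂ = 0)
    (hg : gr Z W = 0) : ∃ x : ℤ, W = x • Z := by
  have hA := rm0_det_pos hZ h0
  obtain ⟨x, hx⟩ := BQ_round (bl Z W) (G := 2 * Z.det) (by omega)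
  refine ⟨x, sub_eq_zero.1 ?_⟩
  by_contra hne
  have h1 := hmin _ (rm0_sub hW (rm0_zsmul x hZ)) hne
  have h2 := BQ_gr_sub Z W x
  rw [hg, gr, bl_sub_right, bl_smul_right, bl_self] at h2
  have h3 : |bl Z W - x * (2 * Z.det)| ≤ Z.det := by omega
  have h4 := sq_le_sq' (abs_le.1 h3).1 (abs_le.1 h3).2
  nlinarith

theorem zs_cases (t₁ t₂ : ℍ) : (∀ Z, Rm Z t₁ t₂ = 0 → Z = 0) ∨
    (∃ Z₁, Z₁ ≠ 0 ∧ Rm Z₁ t₁ t₂ = 0 ∧ ∀ Z, Rm Z t₁ t₂ = 0 → ∃ x : ℤ, Z = x • Z₁) ∨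
      ∃ Z₁ Z₂, IsB t₁ t₂ Z₁ Z₂ := by
  by_cases h0 : ∃ Z, Rm Z t₁ t₂ = 0 ∧ Z ≠ 0
  swap
  · left
    intro Z hZ
    by_contra hne
    exact h0 ⟨Z, hZ, hne⟩
  right
  obtain ⟨Z₁, h1, hne, hmin⟩ := BQ_min h0
  by_cases hg : ∃ Z, Rm Z t₁ t₂ = 0 ∧ gr Z₁ Z ≠ 0
  swap
  · left
    refine ⟨Z₁, hne, h1, fun Z hZ => BQ_line h1 hne hmin hZ ?_⟩
    by_contra h
    exact hg ⟨Z, hZ, h⟩
  right
  obtain ⟨Z₂, h2, hg2, hmin2⟩ := BQ_min hg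
  have hA := rm0_det_pos h1 hne
  have hle : Z₁.det ≤ Z₂.det := hmin _ h2 (by
    rintro rfl
    exact hg2 (by simp [gr, bl_zero_right]))
  have hsm : |bl Z₁ Z₂| ≤ Z₁.det := by
    have a1 := hmin2 _ (rm0_sub h2 (rm0_zsmul 1 h1)) (by rwa [BQ_gr_sub])
    have a2 := hmin2 _ (rm0_sub h2 (rm0_zsmul (-1) h1)) (by rwa [BQ_gr_sub])
    have e1 := det_comb Z₁ Z₂ (-1) 1
    have e2 := det_comb Z₁ Z₂ 1 1
    rw [show (-1 : ℤ) • Z₁ + (1 : ℤ) • Z₂ = Z₂ - (1 : ℤ) • Z₁ by module] at e1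
    rw [show (1 : ℤ) • Z₁ + (1 : ℤ) • Z₂ = Z₂ - (-1 : ℤ) • Z₁ by module] at e2
    rw [abs_le]
    constructor <;> linarith
  refine ⟨Z₁, Z₂, h1, h2, hA, hle, hsm, fun Z hZ => ?_⟩
  have hG : 0 < gr Z₁ Z₂ := lt_of_le_of_ne (BQ_gr_nonneg h1 h2) hg2.symm
  obtain ⟨y, hy⟩ := BQ_round (2 * Z₁.det * bl Z₂ Z - bl Z₁ Z₂ * bl Z₁ Z) hG
  obtain ⟨x, hx⟩ := BQ_round (bl Z₁ (Z - y • Z₂)) (G := 2 * Z₁.det) (by omega)
  have hV := rm0_sub hZ (rm0_zsmul y h2)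
  have hW := rm0_sub hV (rm0_zsmul x h1)
  have e1 := BQ_gram h1 h2 hV
  have e2 : 2 * Z₁.det * bl Z₂ (Z - y • Z₂) - bl Z₁ Z₂ * bl Z₁ (Z - y • Z₂) =
      2 * Z₁.det * bl Z₂ Z - bl Z₁ Z₂ * bl Z₁ Z - y * gr Z₁ Z₂ := by
    rw [bl_sub_right, bl_sub_right, bl_smul_right, bl_smul_right, bl_self, gr]
    ring
  rw [e2] at e1
  have e3 : 4 * gr Z₁ (Z - y • Z₂) ≤ gr Z₁ Z₂ := by
    refine le_of_mul_le_mul_right ?_ hG
    have := sq_abs (2 * Z₁.det * bl Z₂ Z - bl Z₁ Z₂ * bl Z₁ Z - y * gr Z₁ Z₂)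
    have := abs_nonneg (2 * Z₁.det * bl Z₂ Z - bl Z₁ Z₂ * bl Z₁ Z - y * gr Z₁ Z₂)
    nlinarith
  have e4 : gr Z₁ (Z - y • Z₂) = 0 := by
    by_contra hne2
    have a1 := hmin2 _ hW (by rwa [BQ_gr_sub])
    have a2 := BQ_gr_sub Z₁ (Z - y • Z₂) x
    rw [gr, bl_sub_right, bl_smul_right, bl_self] at a2
    have h3 : |bl Z₁ (Z - y • Z₂) - x * (2 * Z₁.det)| ≤ Z₁.det := by omega
    have h4 := sq_le_sq' (abs_le.1 h3).1 (abs_le.1 h3).2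
    have h5 : gr Z₁ Z₂ ≤ 4 * Z₁.det * Z₂.det := sub_le_self _ (sq_nonneg _)
    nlinarith
  obtain ⟨x', hx'⟩ := BQ_line h1 hne hmin hV e4
  exact ⟨x', y, sub_eq_iff_eq_add.1 hx'⟩

theorem IsB.gr_ge (h : IsB t₁ t₂ Z₁ Z₂) : 3 * Z₁.det * Z₂.det ≤ gr Z₁ Z₂ := by
  have h1 := sq_le_sq' (abs_le.1 h.small).1 (abs_le.1 h.small).2
  have h2 := h.pos
  have h3 := h.le
  rw [gr]
  nlinarith

theorem IsB.gr_le (h : IsB t₁ t₂ Z₁ Z₂) : gr Z₁ Z₂ ≤ 4 * Z₁.det * Z₂.det := by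
  have _ := h.pos
  exact sub_le_self _ (sq_nonneg _)

theorem IsB.three_le (h : IsB t₁ t₂ Z₁ Z₂) : 3 ≤ gr Z₁ Z₂ := by
  have h1 := h.gr_ge
  have h2 := h.pos
  have h3 := h.le
  nlinarith

theorem IsB.det_ge (h : IsB t₁ t₂ Z₁ Z₂) (x y : ℤ) :
    x ^ 2 * Z₁.det + y ^ 2 * Z₂.det ≤ 2 * (x • Z₁ + y • Z₂).det := by
  rw [det_comb]
  have h1 := abs_le.1 h.small
  have h3 := h.le
  rcases le_total 0 (x * y) with hxy | hxy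
  · nlinarith [mul_nonneg hxy (sub_nonneg.2 h1.1), sq_nonneg (x - y), sq_nonneg y, h.pos]
  · nlinarith [mul_nonneg (neg_nonneg.2 hxy) (sub_nonneg.2 h1.2), sq_nonneg (x + y), sq_nonneg y,
      h.pos]

theorem IsB.indep (h : IsB t₁ t₂ Z₁ Z₂) {x y : ℤ} (e : x • Z₁ + y • Z₂ = 0) : x = 0 ∧ y = 0 := by
  have h1 := h.det_ge x y
  rw [e, Matrix.det_zero, mul_zero] at h1
  have h2 := h.pos
  have h3 := h.pos.trans_le h.le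
  constructor
  · by_contra hx
    have : 0 < x ^ 2 * Z₁.det := by positivity
    nlinarith [mul_nonneg (sq_nonneg y) h3.le]
  · by_contra hy
    have : 0 < y ^ 2 * Z₂.det := by positivity
    nlinarith [mul_nonneg (sq_nonneg x) h2.le]

theorem IsB.count (h : IsB t₁ t₂ Z₁ Z₂) {R : ℝ} (hR : 0 ≤ R) : ∃ S : Finset MZ,
    (∀ Z ∈ S, Rm Z t₁ t₂ = 0 ∧ (Z.det : ℝ) ≤ R) ∧ R / Real.sqrt (3 * gr Z₁ Z₂) ≤ S.card := by
  have hA : (0 : ℝ) < Z₁.det := by exact_mod_cast h.pos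
  have hAC : (Z₁.det : ℝ) ≤ Z₂.det := by exact_mod_cast h.le
  have hC : (0 : ℝ) < Z₂.det := hA.trans_le hAC
  set a := Real.sqrt (R / (3 * Z₁.det)) with ha
  set c := Real.sqrt (R / (3 * Z₂.det)) with hc
  have ha0 : 0 ≤ a := Real.sqrt_nonneg _
  have hc0 : 0 ≤ c := Real.sqrt_nonneg _
  have ha2 : a ^ 2 * Z₁.det = R / 3 := by
    rw [ha, Real.sq_sqrt (by positivity)]
    field_simp
  have hc2 : c ^ 2 * Z₂.det = R / 3 := by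
    rw [hc, Real.sq_sqrt (by positivity)]
    field_simp
  refine ⟨(Finset.range (⌊a⌋₊ + 1) ×ˢ Finset.range (⌊c⌋₊ + 1)).image
    fun q => (q.1 : ℤ) • Z₁ + (q.2 : ℤ) • Z₂, fun Z hZ => ?_, ?_⟩
  · obtain ⟨⟨x, y⟩, hq, rfl⟩ := Finset.mem_image.1 hZ
    simp only [Finset.mem_product, Finset.mem_range, Nat.lt_succ_iff] at hq
    refine ⟨rm0_add (rm0_zsmul _ h.z₁) (rm0_zsmul _ h.z₂), ?_⟩
    have hx : (x : ℝ) ≤ a := (Nat.le_floor_iff ha0).1 hq.1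
    have hy : (y : ℝ) ≤ c := (Nat.le_floor_iff hc0).1 hq.2
    have hx0 : (0 : ℝ) ≤ x := Nat.cast_nonneg x
    have hy0 : (0 : ℝ) ≤ y := Nat.cast_nonneg y
    have hb : ((bl Z₁ Z₂ : ℤ) : ℝ) ≤ Z₁.det := by exact_mod_cast (abs_le.1 h.small).2
    have h1 : (x : ℝ) ^ 2 * Z₁.det ≤ R / 3 := by
      rw [← ha2]
      gcongr
    have h2 : (y : ℝ) ^ 2 * Z₂.det ≤ R / 3 := by
      rw [← hc2]
      gcongr
    rw [det_comb]
    simp only [Int.cast_add, Int.cast_mul, Int.cast_pow, Int.cast_natCast]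
    nlinarith [mul_nonneg (mul_nonneg hx0 hy0) (sub_nonneg.2 hb),
      mul_nonneg (sq_nonneg ((x : ℝ) - y)) hA.le, mul_nonneg (sq_nonneg (y : ℝ)) (sub_nonneg.2 hAC)]
  · rw [Finset.card_image_of_injective, Finset.card_product, Finset.card_range, Finset.card_range]
    · have hg : 3 * (Z₁.det : ℝ) * Z₂.det ≤ (gr Z₁ Z₂ : ℤ) := by exact_mod_cast h.gr_ge
      have hp : (0 : ℝ) < 3 * (gr Z₁ Z₂ : ℤ) := by nlinarith [mul_pos hA hC]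
      have h1 : R / Real.sqrt (3 * (gr Z₁ Z₂ : ℤ)) ≤ a * c := by
        rw [div_le_iff₀ (Real.sqrt_pos.2 hp)]
        refine (pow_le_pow_iff_left₀ hR (by positivity) two_ne_zero).1 ?_
        rw [mul_pow, Real.sq_sqrt hp.le]
        have e : R ^ 2 = (a * c) ^ 2 * (3 * (3 * Z₁.det * Z₂.det)) := by
          have : (a * c) ^ 2 * (3 * (3 * Z₁.det * Z₂.det)) =
            9 * (a ^ 2 * Z₁.det) * (c ^ 2 * Z₂.det) := by ring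
          rw [this, ha2, hc2]
          ring
        rw [e]
        gcongr
      refine h1.trans ?_
      push_cast
      exact mul_le_mul (Nat.lt_floor_add_one a).le (Nat.lt_floor_add_one c).le hc0 (by positivity)
    · rintro ⟨x, y⟩ ⟨x', y'⟩ e
      have := h.indep (x := (x : ℤ) - x') (y := (y : ℤ) - y') (by
        have e' : (x : ℤ) • Z₁ + (y : ℤ) • Z₂ = (x' : ℤ) • Z₁ + (y' : ℤ) • Z₂ := e
        rw [sub_smul, sub_smul, sub_add_sub_comm, e', sub_self])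
      ext <;> simp only <;> omega

theorem IsB.card_le (h : IsB t₁ t₂ Z₁ Z₂) {n : ℤ} (hn : n ≤ Z₂.det) (S : Finset MZ)
    (hS : ∀ Z ∈ S, Rm Z t₁ t₂ = 0 ∧ Z.det = n) : S.card ≤ 6 := by
  choose! x y hxy using h.span
  have hA := h.pos
  have hC := h.pos.trans_le h.le
  have key : ∀ Z ∈ S, 4 * Z₁.det * n =
      (2 * Z₁.det * x Z + bl Z₁ Z₂ * y Z) ^ 2 + gr Z₁ Z₂ * y Z ^ 2 := fun Z hZ => by
    have e := (hS Z hZ).2
    rw [hxy Z (hS Z hZ).1, det_comb] at e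
    rw [← e, gr]
    ring
  refine (Finset.card_le_card_of_injOn
    (fun Z => (y Z, decide (0 ≤ 2 * Z₁.det * x Z + bl Z₁ Z₂ * y Z)))
    (t := ({-1, 0, 1} : Finset ℤ) ×ˢ (Finset.univ : Finset Bool)) (fun Z hZ => ?_)
    (fun Z hZ W hW e => ?_)).trans (by simp)
  · have h1 := key Z hZ
    have h2 := h.gr_ge
    have h3 : y Z ^ 2 < 2 := by
      by_contra h4
      have h5 : 2 ≤ y Z ^ 2 := not_lt.1 h4
      have h6 : 3 * Z₁.det * Z₂.det * 2 ≤ gr Z₁ Z₂ * y Z ^ 2 :=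
        mul_le_mul h2 h5 (by norm_num) (h.three_le.trans' (by norm_num))
      nlinarith [sq_nonneg (2 * Z₁.det * x Z + bl Z₁ Z₂ * y Z), mul_pos hA hC]
    have h4 : -1 ≤ y Z := by nlinarith
    have h5 : y Z ≤ 1 := by nlinarith
    simp only [Finset.coe_product, Set.mem_prod, Finset.mem_coe, Finset.mem_insert,
      Finset.mem_singleton, Finset.mem_univ, and_true]
    omega
  · simp only [Prod.mk.injEq, decide_eq_decide] at e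
    obtain ⟨e1, e2⟩ := e
    have h1 := key Z hZ
    have h2 := key W hW
    rw [e1] at h1 e2
    have h3 : (2 * Z₁.det * x Z + bl Z₁ Z₂ * y W) ^ 2 = (2 * Z₁.det * x W + bl Z₁ Z₂ * y W) ^ 2 := by
      linarith
    have h4 : 2 * Z₁.det * x Z + bl Z₁ Z₂ * y W = 2 * Z₁.det * x W + bl Z₁ Z₂ * y W := by
      rcases sq_eq_sq_iff_eq_or_eq_neg.1 h3 with h4 | h4
      · exact h4
      · omega
    have h5 : x Z = x W := mul_left_cancel₀ (show 2 * Z₁.det ≠ 0 by omega) (add_right_cancel h4)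
    rw [hxy Z (hS Z hZ).1, hxy W (hS W hW).1, h5, e1]

theorem exists_span (t₁ t₂ : ℍ) : ∃ Z₁ Z₂ : MZ, Rm Z₁ t₁ t₂ = 0 ∧ Rm Z₂ t₁ t₂ = 0 ∧
    (∀ Z, Rm Z t₁ t₂ = 0 → ∃ x y : ℤ, Z = x • Z₁ + y • Z₂) ∧
    ∀ S : Finset MZ, ((∀ Z ∈ S, Rm Z t₁ t₂ = 0 ∧ Z.det = Z₁.det) ∨
      ∀ Z ∈ S, Rm Z t₁ t₂ = 0 ∧ Z.det = Z₂.det) → S.card ≤ 6 := by
  rcases zs_cases t₁ t₂ with h | ⟨Z₁, h0, h1, h⟩ | ⟨Z₁, Z₂, h⟩
  · have hz : Rm 0 t₁ t₂ = 0 := by simp [Rm]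
    refine ⟨0, 0, hz, hz, fun Z hZ => ⟨0, 0, by simp [h Z hZ]⟩, fun S hS => ?_⟩
    have : S ⊆ {0} := fun Z hZ =>
      Finset.mem_singleton.2 (h Z (hS.elim (fun a => (a Z hZ).1) fun a => (a Z hZ).1))
    exact (Finset.card_le_card this).trans (by simp)
  · refine ⟨Z₁, Z₁, h1, h1, fun Z hZ => (h Z hZ).elim fun x hx => ⟨x, 0, by simp [hx]⟩,
      fun S hS => ?_⟩
    rw [or_self] at hS
    have : S ⊆ {Z₁, -Z₁} := fun Z hZ => by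
      obtain ⟨x, hx⟩ := h Z (hS Z hZ).1
      have e := (hS Z hZ).2
      rw [hx, Matrix.det_smul, Fintype.card_fin] at e
      have e2 : x ^ 2 = 1 := mul_right_cancel₀ (rm0_det_pos h1 h0).ne' (by rw [e, one_mul])
      rcases sq_eq_one_iff.1 e2 with rfl | rfl <;> simp [hx]
    exact (Finset.card_le_card this).trans (Finset.card_le_two.trans (by norm_num))
  · exact ⟨Z₁, Z₂, h.z₁, h.z₂, h.span, fun S hS =>
      hS.elim (h.card_le h.le S) (h.card_le le_rfl S)⟩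

theorem Cm.exists_isB (h : Cm s₁ s₂ Y₁ Y₂) : ∃ Z₁ Z₂, IsB s₁ s₂ Z₁ Z₂ := by
  rcases zs_cases s₁ s₂ with h0 | ⟨Z₁, h0, h1, h2⟩ | h0
  · exfalso
    have e := congrFun (congrFun (h0 _ (h.pi !![1, 0; 0, 0])) 1) 0
    rw [Matrix.sub_apply, Matrix.mul_apply, Matrix.mul_apply, Fin.sum_univ_two,
      Fin.sum_univ_two] at e
    simp at e
    refine h.im_ne ?_
    rw [h.dn_eq, dn_im, e]
    simp
  · exfalso
    obtain ⟨a1, a2⟩ := rm0_mul h1 h.fix₁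
    obtain ⟨x, hx⟩ := h2 _ a1
    rw [hx, dn_zsmul, mul_comm] at a2
    refine h.im_ne ?_
    rw [← mul_left_cancel₀ (rm0_dn_ne h1 h0) a2]
    simp
  · exact h0

theorem IsB.exists_fix (h : IsB t₁ t₂ Z₁ Z₂) :
    (∃ Y, Rm Y t₁ t₁ = 0 ∧ (dn Y t₁).im ≠ 0 ∧ dsc Y = gr Z₁ Z₂) ∧
      ∃ Y, Rm Y t₂ t₂ = 0 ∧ (dn Y t₂).im ≠ 0 ∧ dsc Y = gr Z₁ Z₂ := by
  have key : ∀ (Y : MZ) (t : ℍ), Rm Y t t = 0 → dsc Y = gr Z₁ Z₂ →
      Rm Y t t = 0 ∧ (dn Y t).im ≠ 0 ∧ dsc Y = gr Z₁ Z₂ := fun Y t h1 h2 => by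
    refine ⟨h1, fun h0 => ?_, h2⟩
    have e := fix_dsc h1
    rw [h0, h2] at e
    have : (3 : ℝ) ≤ (gr Z₁ Z₂ : ℤ) := by exact_mod_cast h.three_le
    linarith
  have hd : Z₁.adjugate.det = Z₁.det := by simp [Matrix.det_adjugate]
  refine ⟨⟨Z₁.adjugate * Z₂, key _ _ (rm0_mul (rm0_adj h.z₁).1 h.z₂).1 ?_⟩,
    ⟨Z₂ * Z₁.adjugate, key _ _ (rm0_mul h.z₂ (rm0_adj h.z₁).1).1 ?_⟩⟩
  · rw [dsc, gr, bl, Matrix.det_mul, hd, mul_assoc]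
  · rw [dsc, gr, bl, Matrix.det_mul, hd, Matrix.trace_mul_comm]
    ring

end

end Pool.Agent.P.MP_a60a76_nt.Sz
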