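import Pool.Agent.P.MP_a60a76_nt.Sz.Defs

namespace Pool.Agent.P.MP_a60a76_nt.Sz

open UpperHalfPlane MeasureTheory SP
open scoped MatrixGroups UpperHalfPlane Matrix Modular Topology Classical ArithmeticFunction.sigma

noncomputable section

theorem ee_add (x y : ℂ) : ee (x + y) = ee x * ee y := by
  rw [ee, ee, ee, ← Complex.exp_add, mul_add]

theorem ee_zero : ee 0 = 1 := by simp [ee]

theorem ee_ne_zero (x : ℂ) : ee x ≠ 0 := Complex.exp_ne_zero _

theorem ee_neg (x : ℂ) : ee (-x) = (ee x)⁻¹ := by rw [ee, ee, mul_neg, Complex.exp_neg]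

theorem norm_ee (x : ℂ) : ‖ee x‖ = Real.exp (-(2 * Real.pi * x.im)) := by
  rw [ee, Complex.norm_exp]
  congr 1
  simp

theorem ee_int (n : ℤ) : ee n = 1 := by
  rw [ee, mul_comm, Complex.exp_int_mul_two_pi_mul_I]

theorem ee_nat_mul (n : ℕ) (x : ℂ) : ee (n * x) = ee x ^ n := by
  rw [ee, ee, ← Complex.exp_nat_mul]
  congr 1
  ring

theorem ee_int_mul (n : ℤ) (x : ℂ) : ee (n * x) = ee x ^ n := by
  rw [ee, ee, ← Complex.exp_int_mul]
  congr 1
  ring

theorem conj_ee (x : ℂ) : (starRingEnd ℂ) (ee x) = ee (-(starRingEnd ℂ) x) := by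
  rw [ee, ee, ← Complex.exp_conj]
  congr 1
  simp [map_ofNat]

theorem continuous_ee : Continuous ee := by unfold ee; fun_prop

theorem hasDerivAt_ee (x : ℂ) : HasDerivAt ee (2 * Real.pi * Complex.I * ee x) x := by
  have h := ((hasDerivAt_id x).const_mul (2 * Real.pi * Complex.I)).cexp
  exact h.congr_deriv (by simp only [ee, id]; ring)

theorem coe_T_smul (τ : ℍ) : ((ModularGroup.T • τ : ℍ) : ℂ) = τ + 1 := by
  have := ModularGroup.coe_T_zpow_smul_eq (z := τ) (n := 1)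
  simpa using this

theorem coe_T_zpow_smul (n : ℤ) (τ : ℍ) : ((ModularGroup.T ^ n • τ : ℍ) : ℂ) = τ + n :=
  ModularGroup.coe_T_zpow_smul_eq τ

theorem coe_S_smul (τ : ℍ) : ((ModularGroup.S • τ : ℍ) : ℂ) = -(τ : ℂ)⁻¹ := by
  rw [modular_S_smul]
  simp [inv_neg]

theorem S_smul_I : ModularGroup.S • UpperHalfPlane.I = UpperHalfPlane.I := by
  apply UpperHalfPlane.ext
  rw [coe_S_smul]
  simp

/-- Induction over the modular group. -/
theorem sl2_ind {q : SL(2, ℤ) → Prop} (hS : q ModularGroup.S) (hT : q ModularGroup.T)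
    (h1 : q 1) (hm : ∀ a b, q a → q b → q (a * b)) (hi : ∀ a, q a → q a⁻¹) (g : SL(2, ℤ)) :
    q g := by
  have : g ∈ Subgroup.closure {ModularGroup.S, ModularGroup.T} := by
    simp [SpecialLinearGroup.SL2Z_generators]
  induction this using Subgroup.closure_induction with
  | mem x hx => rcases hx with rfl | rfl <;> assumption
  | one => exact h1
  | mul a b _ _ ha hb => exact hm a b ha hb
  | inv a _ ha => exact hi a ha

theorem dn_ne_zero {Y : MZ} (h : Y 1 0 ≠ 0 ∨ Y 1 1 ≠ 0) (τ : ℍ) : dn Y τ ≠ 0 := by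
  intro h0
  obtain ⟨h1, h2⟩ := jinj_indep τ h0
  tauto

theorem row_ne_zero {Y : MZ} (h : Y.det ≠ 0) : Y 1 0 ≠ 0 ∨ Y 1 1 ≠ 0 := by
  by_contra h0
  push Not at h0
  rw [Matrix.det_fin_two, h0.1, h0.2] at h
  simp at h

theorem im_quot (Y : MZ) (τ : ℍ) :
    (((Y 0 0 : ℂ) * τ + Y 0 1) / ((Y 1 0 : ℂ) * τ + Y 1 1)).im =
      Y.det * τ.im / Complex.normSq (dn Y τ) := by
  rw [Complex.div_im, Matrix.det_fin_two, dn]
  simp only [Complex.add_im, Complex.mul_im, Complex.intCast_re, Complex.intCast_im, coe_im,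
    coe_re, Complex.add_re, Complex.mul_re]
  push_cast
  ring

theorem coe_mob {Y : MZ} (h : 0 < Y.det) (τ : ℍ) :
    (mob Y τ : ℂ) = ((Y 0 0 : ℂ) * τ + Y 0 1) / dn Y τ := by
  have h1 : 0 < (((Y 0 0 : ℂ) * τ + Y 0 1) / ((Y 1 0 : ℂ) * τ + Y 1 1)).im := by
    rw [im_quot]
    exact div_pos (mul_pos (by exact_mod_cast h) τ.im_pos)
      (Complex.normSq_pos.2 (dn_ne_zero (row_ne_zero h.ne') τ))
  rw [mob, ofComplex_apply_of_im_pos h1]
  rfl

theorem im_mob {Y : MZ} (h : 0 < Y.det) (τ : ℍ) :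
    (mob Y τ).im = Y.det * τ.im / Complex.normSq (dn Y τ) := by
  rw [← coe_im, coe_mob h]
  exact im_quot Y τ

theorem sl_det_pos (g : SL(2, ℤ)) : 0 < (g : MZ).det := by simp

theorem dn_sl_ne_zero (g : SL(2, ℤ)) (τ : ℍ) : dn g τ ≠ 0 :=
  dn_ne_zero (row_ne_zero (sl_det_pos g).ne') τ

theorem coe_sl_smul (g : SL(2, ℤ)) (τ : ℍ) :
    ((g • τ : ℍ) : ℂ) = ((g 0 0 : ℂ) * τ + g 0 1) / dn g τ := by
  rw [coe_specialLinearGroup_apply]
  simp [dn]

theorem mob_sl (g : SL(2, ℤ)) (τ : ℍ) : mob g τ = g • τ := by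
  apply UpperHalfPlane.ext
  rw [coe_mob (sl_det_pos g), coe_sl_smul]

theorem im_sl_smul (g : SL(2, ℤ)) (τ : ℍ) : (g • τ).im = τ.im / Complex.normSq (dn g τ) := by
  rw [← mob_sl, im_mob (sl_det_pos g)]
  simp

theorem dn_mul {Y Z : MZ} (hZ : 0 < Z.det) (τ : ℍ) :
    dn (Y * Z) τ = dn Y (mob Z τ) * dn Z τ := by
  have h := dn_ne_zero (row_ne_zero hZ.ne') τ
  rw [dn, dn, coe_mob hZ]
  field_simp
  simp only [Matrix.mul_apply, Fin.sum_univ_two, dn]
  push_cast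
  ring

theorem mob_mul {Y Z : MZ} (hY : 0 < Y.det) (hZ : 0 < Z.det) (τ : ℍ) :
    mob (Y * Z) τ = mob Y (mob Z τ) := by
  have h := dn_ne_zero (row_ne_zero hZ.ne') τ
  have h' := dn_ne_zero (row_ne_zero hY.ne') (mob Z τ)
  apply UpperHalfPlane.ext
  rw [coe_mob (by rw [Matrix.det_mul]; positivity), coe_mob hY, dn_mul hZ, coe_mob hZ]
  field_simp
  simp only [Matrix.mul_apply, Fin.sum_univ_two, dn]
  push_cast
  ring

theorem dn_sl_mul (g h : SL(2, ℤ)) (τ : ℍ) :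
    dn (g * h : SL(2, ℤ)) τ = dn g (h • τ) * dn h τ := by
  rw [← mob_sl, ← dn_mul (sl_det_pos h)]
  rfl

theorem dn_eq_denom (g : SL(2, ℤ)) (τ : ℍ) : dn g τ = denom g τ := by
  simp [dn, denom]

theorem dn_S (τ : ℍ) : dn ModularGroup.S τ = τ := by simp [dn, ModularGroup.S]

theorem dn_T (τ : ℍ) : dn ModularGroup.T τ = 1 := by simp [dn, ModularGroup.T]

theorem E4_smul (g : SL(2, ℤ)) (τ : ℍ) : E4 (g • τ) = dn g τ ^ 4 * E4 τ := by
  have h : ModularForm.E₄ (g • τ) = denom g τ ^ ((4 : ℕ) : ℤ) * ModularForm.E₄ τ :=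
    SlashInvariantForm.slash_action_eqn'' ModularForm.E₄ (⟨g, rfl⟩ : (g : GL (Fin 2) ℝ) ∈ 𝒮ℒ) τ
  rw [dn_eq_denom]
  exact_mod_cast h

theorem E6_smul (g : SL(2, ℤ)) (τ : ℍ) : E6 (g • τ) = dn g τ ^ 6 * E6 τ := by
  have h : ModularForm.E₆ (g • τ) = denom g τ ^ ((6 : ℕ) : ℤ) * ModularForm.E₆ τ :=
    SlashInvariantForm.slash_action_eqn'' ModularForm.E₆ (⟨g, rfl⟩ : (g : GL (Fin 2) ℝ) ∈ 𝒮ℒ) τ
  rw [dn_eq_denom]
  exact_mod_cast h

theorem Dl_smul (g : SL(2, ℤ)) (τ : ℍ) : Dl (g • τ) = dn g τ ^ 12 * Dl τ := by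
  have h : ModularForm.discriminant (g • τ) =
      denom g τ ^ (12 : ℤ) * ModularForm.discriminant τ :=
    SlashInvariantForm.slash_action_eqn'' CuspForm.discriminant
      (⟨g, rfl⟩ : (g : GL (Fin 2) ℝ) ∈ 𝒮ℒ) τ
  rw [dn_eq_denom]
  exact_mod_cast h

theorem Dl_ne_zero (τ : ℍ) : Dl τ ≠ 0 := ModularForm.discriminant_ne_zero τ

theorem E4_hol : Hol E4 := UpperHalfPlane.mdifferentiable_iff.1 (ModularFormClass.holo _)

theorem E6_hol : Hol E6 := UpperHalfPlane.mdifferentiable_iff.1 (ModularFormClass.holo _)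

theorem Dl_hol : Hol Dl :=
  UpperHalfPlane.mdifferentiable_iff.1 (ModularFormClass.holo CuspForm.discriminant)

/-- A function of weight `k` for the generators has weight `k` for the whole group. -/
theorem Wt.smul {k : ℤ} {f : ℍ → ℂ} (h : Wt k f) (g : SL(2, ℤ)) (τ : ℍ) :
    f (g • τ) = dn g τ ^ k * f τ := by
  induction g using sl2_ind generalizing τ with
  | hS => rw [h.inv, dn_S]
  | hT => rw [h.per, dn_T, one_zpow, one_mul]
  | h1 => simp [dn]
  | hm a b ha hb => rw [mul_smul, ha, hb, dn_sl_mul, mul_zpow, mul_assoc]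
  | hi a ha =>
    have h1 := ha (a⁻¹ • τ)
    have h2 := dn_sl_mul a a⁻¹ τ
    rw [smul_inv_smul] at h1
    rw [mul_inv_cancel] at h2
    have h3 : dn a (a⁻¹ • τ) * dn (a⁻¹ : SL(2, ℤ)) τ = 1 := by rw [← h2]; simp [dn]
    rw [h1, ← mul_assoc, ← mul_zpow, mul_comm (dn _ τ), h3, one_zpow, one_mul]

theorem gam_row (x : CP) : gam x 1 0 = x.1 0 ∧ gam x 1 1 = x.1 1 :=
  (x.2.exists_SL2_row 1).choose_spec

theorem dn_gam (x : CP) (τ : ℍ) : dn (gam x) τ = (x.1 0 : ℂ) * τ + x.1 1 := by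
  rw [dn, ← (gam_row x).1, ← (gam_row x).2]

@[simp] theorem ixx_zero (m n : ℕ) : ixx m n 0 = m := by simp [ixx]

@[simp] theorem ixx_one (m n : ℕ) : ixx m n 1 = n := by simp [ixx]

theorem ixx_eta (d : Fin 2 →₀ ℕ) : ixx (d 0) (d 1) = d := by
  ext i
  fin_cases i <;> simp

/-- Exponents are pairs. -/
def ixe : ℕ × ℕ ≃ (Fin 2 →₀ ℕ) where
  toFun x := ixx x.1 x.2
  invFun d := (d 0, d 1)
  left_inv x := by simp
  right_inv d := ixx_eta d

theorem ixx_add (m n m' n' : ℕ) : ixx (m + m') (n + n') = ixx m n + ixx m' n' := by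
  ext i
  fin_cases i <;> simp

namespace Par

variable (P : Par)

theorem p_pos : (0 : ℝ) < P.p := by exact_mod_cast P.prime.pos

theorem p_ne : (P.p : ℂ) ≠ 0 := by exact_mod_cast P.prime.ne_zero

theorem psi_int (a : ℤ) : P.psi (a : P.D) = ee (a / P.p ^ 2) := by
  rw [psi, ZMod.stdAddChar_coe, ee]
  push_cast
  congr 1
  ring

theorem zp_int (a : ℤ) : P.zp (a : P.F) = ee (a / P.p) := by
  rw [zp, ZMod.stdAddChar_coe, ee]
  congr 1
  ring

theorem psi_add (x y : P.D) : P.psi (x + y) = P.psi x * P.psi y := AddChar.map_add_eq_mul _ x y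

theorem zp_add (x y : P.F) : P.zp (x + y) = P.zp x * P.zp y := AddChar.map_add_eq_mul _ x y

theorem psi_zero : P.psi 0 = 1 := AddChar.map_zero_eq_one _

theorem zp_zero : P.zp 0 = 1 := AddChar.map_zero_eq_one _

theorem norm_psi (x : P.D) : ‖P.psi x‖ = 1 := Circle.norm_coe _

theorem norm_zp (x : P.F) : ‖P.zp x‖ = 1 := Circle.norm_coe _

theorem conj_psi (x : P.D) : (starRingEnd ℂ) (P.psi x) = P.psi (-x) := by
  rw [← Complex.inv_eq_conj (P.norm_psi x), psi, psi, AddChar.map_neg_eq_inv]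

theorem conj_zp (x : P.F) : (starRingEnd ℂ) (P.zp x) = P.zp (-x) := by
  rw [← Complex.inv_eq_conj (P.norm_zp x), zp, zp, AddChar.map_neg_eq_inv]

theorem zp_nat_mul (n : ℕ) (x : P.F) : P.zp (n * x) = P.zp x ^ n := by
  rw [← nsmul_eq_mul, zp, zp, AddChar.map_nsmul_eq_pow]

theorem zp_eq_pow (x : P.F) : P.zp x = P.zp 1 ^ x.val := by
  rw [← zp_nat_mul, ZMod.natCast_zmod_val, mul_one]

theorem zp_pow_p (x : P.F) : P.zp x ^ P.p = 1 := by
  rw [← zp_nat_mul, ZMod.natCast_self, zero_mul, zp_zero]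

theorem zp_injective : Function.Injective P.zp := ZMod.injective_stdAddChar

theorem sum_zp (x : P.F) : ∑ z, P.zp (z * x) = if x = 0 then (P.p : ℂ) else 0 := by
  have := AddChar.sum_mulShift x (ZMod.isPrimitive_stdAddChar P.p)
  simpa [zp] using this

theorem sum_psi (x : P.D) : ∑ z, P.psi (z * x) = if x = 0 then (P.p : ℂ) ^ 2 else 0 := by
  have := AddChar.sum_mulShift x (ZMod.isPrimitive_stdAddChar (P.p ^ 2))
  simpa [psi] using this

/-- Automorphisms act on the roots of unity through a unit. -/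
theorem exists_unit (s : ℂ ≃+* ℂ) : ∃ d : P.Fˣ, s (P.zp 1) = P.zp d := by
  have h1 : IsPrimitiveRoot (P.zp 1) P.p := by
    have := Complex.isPrimitiveRoot_exp P.p P.prime.ne_zero
    have e : P.zp 1 = Complex.exp (2 * Real.pi * Complex.I / P.p) := by
      have := P.zp_int 1
      rw [Int.cast_one] at this
      rw [this, ee]
      congr 1
      push_cast
      ring
    rwa [e]
  have h2 : s (P.zp 1) ^ P.p = 1 := by rw [← map_pow, zp_pow_p, map_one]
  obtain ⟨i, -, hi⟩ := h1.eq_pow_of_pow_eq_one h2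
  have h3 : (i : P.F) ≠ 0 := by
    intro h
    have h4 : P.zp 1 ^ i = 1 := by rw [← zp_nat_mul, h, zero_mul, zp_zero]
    rw [hi, ← map_one s] at h4
    have h5 := P.zp_injective ((s.injective h4).trans P.zp_zero.symm)
    exact one_ne_zero h5
  exact ⟨Units.mk0 _ h3, by rw [← hi, ← zp_nat_mul, mul_one]; rfl⟩

theorem map_zp {K : Type} [Field K] {φ ψ : ℂ →+* K} {d : P.F} (h : φ (P.zp 1) = ψ (P.zp d))
    (x : P.F) : φ (P.zp x) = ψ (P.zp (x * d)) := by
  rw [P.zp_eq_pow x, map_pow, h, ← map_pow, ← zp_nat_mul, ZMod.natCast_zmod_val]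

theorem rd_int (a : ℤ) : P.rd (a : P.D) = (a : P.F) := map_intCast _ a

theorem up_int (a : ℤ) : P.up (a : P.F) = ((P.p * a : ℤ) : P.D) := by
  have h : (P.p : ℤ) ∣ (((a : P.F).val : ℕ) : ℤ) - a := by
    rw [← ZMod.intCast_zmod_eq_zero_iff_dvd]
    simp
  obtain ⟨n, hn⟩ := h
  have h2 : (((a : P.F).val : ℕ) : P.D) = a + P.p * n := by
    have : ((((a : P.F).val : ℕ) : ℤ) : P.D) = ((a + P.p * n : ℤ) : P.D) := by
      congr 1
      linarith
    exact_mod_cast this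
  have h3 : (P.p : P.D) * P.p = 0 := by
    have := ZMod.natCast_self (P.p ^ 2)
    rw [Nat.cast_pow] at this
    linear_combination this
  rw [up, h2]
  push_cast
  linear_combination (n : P.D) * h3

theorem up_add (x y : P.F) : P.up (x + y) = P.up x + P.up y := by
  obtain ⟨a, rfl⟩ := ZMod.intCast_surjective x
  obtain ⟨b, rfl⟩ := ZMod.intCast_surjective y
  rw [← Int.cast_add, up_int, up_int, up_int]
  push_cast
  ring

theorem up_zero : P.up 0 = 0 := by simp [up]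

theorem up_neg (x : P.F) : P.up (-x) = -P.up x := by
  rw [eq_neg_iff_add_eq_zero, ← up_add, neg_add_cancel, up_zero]

theorem up_mul (x : P.F) (k : P.D) : P.up x * k = P.up (x * P.rd k) := by
  obtain ⟨a, rfl⟩ := ZMod.intCast_surjective x
  obtain ⟨b, rfl⟩ := ZMod.intCast_surjective k
  rw [rd_int, ← Int.cast_mul, up_int, up_int]
  push_cast
  ring

theorem rd_up (x : P.F) : P.rd (P.up x) = 0 := by
  obtain ⟨a, rfl⟩ := ZMod.intCast_surjective x
  rw [up_int, rd_int]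
  simp

theorem psi_up (x : P.F) : P.psi (P.up x) = P.zp x := by
  obtain ⟨a, rfl⟩ := ZMod.intCast_surjective x
  rw [up_int, psi_int, zp_int]
  congr 1
  have := P.p_ne
  push_cast
  field_simp

theorem up_injective : Function.Injective P.up := fun x y h =>
  P.zp_injective (by rw [← psi_up, ← psi_up, h])

theorem exists_up {k : P.D} (h : P.rd k = 0) : ∃ z, k = P.up z := by
  obtain ⟨a, rfl⟩ := ZMod.intCast_surjective k
  rw [rd_int, ZMod.intCast_zmod_eq_zero_iff_dvd] at h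
  obtain ⟨b, rfl⟩ := h
  exact ⟨b, (P.up_int b).symm⟩

theorem isUnit_of_rd {k : P.D} (h : P.rd k ≠ 0) : IsUnit k := by
  obtain ⟨a, rfl⟩ := ZMod.natCast_zmod_surjective k
  rw [map_natCast, Ne, ZMod.natCast_eq_zero_iff] at h
  rw [ZMod.isUnit_iff_coprime]
  exact Nat.Coprime.pow_right 2 ((Nat.Prime.coprime_iff_not_dvd P.prime).2 h).symm

theorem two_ne : (2 : P.F) ≠ 0 := by
  have h := P.five
  have : ((2 : ℕ) : P.F) ≠ 0 := by
    rw [Ne, ZMod.natCast_eq_zero_iff]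
    exact fun h2 => absurd (Nat.le_of_dvd two_pos h2) (by omega)
  exact_mod_cast this

theorem three_ne : (3 : P.F) ≠ 0 := by
  have h := P.five
  have : ((3 : ℕ) : P.F) ≠ 0 := by
    rw [Ne, ZMod.natCast_eq_zero_iff]
    exact fun h2 => absurd (Nat.le_of_dvd three_pos h2) (by omega)
  exact_mod_cast this

theorem m_ne : (P.m : P.F) ≠ 0 := by
  rw [Ne, ZMod.intCast_zmod_eq_zero_iff_dvd]
  exact P.cop

theorem two_m_mul : 2 * (P.m : P.D) * (2 * (P.m : P.D))⁻¹ = 1 :=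
  ZMod.mul_inv_of_unit _ (P.isUnit_of_rd (by
    rw [map_mul, rd_int, map_ofNat]
    exact mul_ne_zero P.two_ne P.m_ne))

theorem four_m_mul : 4 * (P.m : P.D) * (4 * (P.m : P.D))⁻¹ = 1 :=
  ZMod.mul_inv_of_unit _ (P.isUnit_of_rd (by
    rw [map_mul, rd_int, map_ofNat, show (4 : P.F) = 2 * 2 by norm_num]
    exact mul_ne_zero (mul_ne_zero P.two_ne P.two_ne) P.m_ne))

theorem Q_eq_iff (k x : P.D) : P.Q k = x ↔ k ^ 2 = 4 * P.m * x := by
  have h := P.four_m_mul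
  constructor
  · rintro rfl
    rw [Q]
    linear_combination (-k ^ 2) * h
  · intro h1
    rw [Q, h1]
    linear_combination x * h

theorem Q_neg (k : P.D) : P.Q (-k) = P.Q k := by simp [Q]

theorem Q_up (z : P.F) : P.Q (P.up z) = 0 := by
  rw [Q_eq_iff, sq, up_mul, rd_up, mul_zero, up_zero, mul_zero]

theorem eq_or_neg_of_sq {k k' : P.D} (h : P.rd k ≠ 0) (e : k' ^ 2 = k ^ 2) :
    k' = k ∨ k' = -k := by
  have h1 : (k' - k) * (k' + k) = 0 := by linear_combination e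
  by_cases h2 : P.rd (k' + k) = 0
  · have h3 : P.rd (k' - k) ≠ 0 := by
      intro h3
      rw [map_add] at h2
      rw [map_sub] at h3
      exact mul_ne_zero P.two_ne h (by linear_combination h2 - h3)
    exact Or.inr (eq_neg_of_add_eq_zero_left ((P.isUnit_of_rd h3).mul_right_eq_zero.1 h1))
  · exact Or.inl (sub_eq_zero.1 ((P.isUnit_of_rd h2).mul_left_eq_zero.1 h1))

theorem ne_neg_of_rd {k : P.D} (h : P.rd k ≠ 0) : k ≠ -k := by
  intro e
  have := congrArg P.rd e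
  rw [map_neg] at this
  exact mul_ne_zero P.two_ne h (by linear_combination this)

/-- Summation over a class modulo `p`. -/
theorem sum_fibre {R : Type} [AddCommMonoid R] (f : P.D → R) (k₀ : P.D) :
    (∑ k, if P.rd k = P.rd k₀ then f k else 0) = ∑ z, f (k₀ + P.up z) := by
  rw [← Finset.sum_filter]
  symm
  refine Finset.sum_bij (fun z _ => k₀ + P.up z) (fun z _ => by simp [rd_up])
    (fun a _ b _ h => P.up_injective (add_left_cancel h)) (fun k hk => ?_) fun _ _ => rfl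
  obtain ⟨z, hz⟩ := P.exists_up (k := k - k₀) (by
    rw [map_sub, (Finset.mem_filter.1 hk).2, sub_self])
  exact ⟨z, Finset.mem_univ _, by rw [← hz]; ring⟩

theorem sv_ne_zero (τ : ℍ) : P.sv τ ≠ 0 := ee_ne_zero _

theorem norm_sv (τ : ℍ) : ‖P.sv τ‖ = Real.exp (-(2 * Real.pi * τ.im / P.p)) := by
  rw [sv, norm_ee]
  congr 1
  simp [mul_div_assoc]

theorem norm_sv_lt_one (τ : ℍ) : ‖P.sv τ‖ < 1 := by
  rw [norm_sv, Real.exp_lt_one_iff, neg_lt_zero]
  exact div_pos (mul_pos Real.two_pi_pos τ.im_pos) P.p_pos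

theorem sv_pow_p (τ : ℍ) : P.sv τ ^ P.p = ee τ := by
  rw [sv, ← ee_nat_mul, mul_div_cancel₀ _ P.p_ne]

theorem sv_T_zpow (n : ℤ) (τ : ℍ) : P.sv (ModularGroup.T ^ n • τ) = P.zp n * P.sv τ := by
  rw [sv, sv, zp_int, ← ee_add, coe_T_zpow_smul, add_div, add_comm]

theorem coe_rg (g : SL(2, ℤ)) : (P.rg g : P.MF) = red P.p g := rfl

theorem rg_mul (g h : SL(2, ℤ)) : P.rg (g * h) = P.rg g * P.rg h := by simp [rg]

theorem rg_one : P.rg 1 = 1 := by simp [rg]

theorem rg_inv (g : SL(2, ℤ)) : P.rg g⁻¹ = (P.rg g)⁻¹ := by simp [rg]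

theorem coe_dg (d : P.Fˣ) : (P.dg d : P.MF) = !![1, 0; 0, (d : P.F)] := rfl

theorem det_Dm : P.Dm.det = P.m := by simp [Dm]

theorem det_tw (γ : P.GG) (X : P.MF) : (P.tw γ X).det = X.det := by
  have h : Matrix.GeneralLinearGroup.det γ.1.1 = Matrix.GeneralLinearGroup.det γ.1.2 := γ.2
  have h1 : (γ.1.1 : P.MF).det = (γ.1.2 : P.MF).det := congrArg Units.val h
  have h2 : ((γ.1.2⁻¹ : P.GF) : P.MF).det * (γ.1.2 : P.MF).det = 1 := by
    rw [← Matrix.det_mul, Units.inv_mul, Matrix.det_one]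
  rw [tw, Matrix.det_mul, Matrix.det_mul, h1]
  linear_combination X.det * h2

theorem tw_mul (γ δ : P.GG) (X : P.MF) : P.tw (γ * δ) X = P.tw δ (P.tw γ X) := by
  simp [tw, Matrix.mul_assoc]

theorem tw_one (X : P.MF) : P.tw 1 X = X := by simp [tw]

theorem act_mul (Y Z : MZ) (v : Fin 2 → P.D) : P.act (Y * Z) v = P.act Y (P.act Z v) := by
  rw [act, act, act, Matrix.mulVec_mulVec]
  congr 1
  exact (Int.castRingHom P.D).mapMatrix.map_mul Y Z

theorem act_one (v : Fin 2 → P.D) : P.act 1 v = v := by simp [act]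

theorem col_mul (Y Z : MZ) : P.col (Y * Z) = P.act Y (P.col Z) := by
  ext i
  simp [col, act, Matrix.mul_apply, Matrix.mulVec, dotProduct]

theorem act_S (v : Fin 2 → P.D) : P.act ModularGroup.S v = ![-v 1, v 0] := by
  ext i
  fin_cases i <;> simp [act, ModularGroup.S, Matrix.mulVec, dotProduct]

theorem act_T (v : Fin 2 → P.D) : P.act ModularGroup.T v = ![v 0 + v 1, v 1] := by
  ext i
  fin_cases i <;> simp [act, ModularGroup.T, Matrix.mulVec, dotProduct]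

end Par

end

end Pool.Agent.P.MP_a60a76_nt.Sz
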