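import Pool.Agent.P.MP_a60a76_nt.Sz.FCov

namespace Pool.Agent.P.MP_a60a76_nt.Sz

open UpperHalfPlane MeasureTheory SP
open scoped MatrixGroups UpperHalfPlane Matrix Modular Topology Classical ArithmeticFunction.sigma

noncomputable section

/-! Expansion of the Hecke sums, the isotropic classes. -/

theorem HExI_range (f : ℕ → ℂ) (p E : ℕ) : ∑ B ∈ Finset.range (p * E), f B =
    ∑ j ∈ Finset.range E, ∑ B ∈ Finset.range p, f (p * j + B) := by
  induction E with
  | zero => simp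
  | succ E ih => rw [Nat.mul_succ, Finset.sum_range_add, ih, Finset.sum_range_succ]

theorem HExI_geom {E : ℕ} (hE : 0 < E) {n : ℤ} (h : ¬ (E : ℤ) ∣ n) :
    ∑ j ∈ Finset.range E, ee (n * j / E) = 0 := by
  have hE' : (E : ℂ) ≠ 0 := by exact_mod_cast hE.ne'
  have e : ∀ j : ℕ, ee (n * j / E) = ee (n / E) ^ j := fun j => by
    rw [← ee_nat_mul]
    congr 1
    ring
  have h1 : ee (n / E) ^ E = 1 := by
    rw [← ee_nat_mul, mul_div_cancel₀ _ hE', ee_int]
  have h2 : ee (n / E) - 1 ≠ 0 := by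
    intro h2
    rw [sub_eq_zero, ee, Complex.exp_eq_one_iff] at h2
    obtain ⟨k, hk⟩ := h2
    apply h
    have h3 : (2 * Real.pi * Complex.I : ℂ) ≠ 0 := Complex.two_pi_I_ne_zero
    rw [mul_comm (k : ℂ), mul_right_inj' h3, div_eq_iff hE'] at hk
    exact ⟨k, by exact_mod_cast hk.trans (mul_comm _ _)⟩
  simp only [e]
  have := geom_sum_mul (ee (n / E)) E
  rw [h1, sub_self] at this
  exact (mul_eq_zero.1 this).resolve_right h2

namespace Par

variable {P : Par} {c : P.D → ℤ → ℤ}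

theorem HExI_cast (φ : P.F → ℂ) : ∑ B ∈ Finset.range P.p, φ B = ∑ x, φ x := by
  refine Finset.sum_nbij' (fun B => (B : P.F)) ZMod.val ?_ ?_ ?_ ?_ ?_
  · simp
  · intro x _
    simpa using ZMod.val_lt x
  · intro B hB
    exact ZMod.val_cast_of_lt (by simpa using hB)
  · intro x _
    exact ZMod.natCast_zmod_val x
  · intro _ _
    rfl

theorem HExI_split (φ : P.F → ℂ) {E : ℕ} (hE : 0 < E) (n : ℤ) :
    ∑ B ∈ Finset.range (P.p * E), ee (n * B / (P.p * E)) * φ B =
      (∑ j ∈ Finset.range E, ee (n * j / E)) *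
        ∑ B ∈ Finset.range P.p, ee (n * B / (P.p * E)) * φ B := by
  have hE' : (E : ℂ) ≠ 0 := by exact_mod_cast hE.ne'
  have hp := P.p_ne
  rw [HExI_range (fun B => ee (n * B / (P.p * E)) * φ B), Finset.sum_mul_sum]
  refine Finset.sum_congr rfl fun j _ => Finset.sum_congr rfl fun B _ => ?_
  rw [← mul_assoc, ← ee_add]
  congr 2
  · push_cast
    field_simp
  · push_cast
    rw [ZMod.natCast_self, zero_mul, zero_add]

theorem HExI_sum_zero (φ : P.F → ℂ) {E : ℕ} (hE : 0 < E) {n : ℤ} (h : ¬ (E : ℤ) ∣ n) :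
    ∑ B ∈ Finset.range (P.p * E), ee (n * B / (P.p * E)) * φ B = 0 := by
  rw [HExI_split φ hE, HExI_geom hE h, zero_mul]

theorem HExI_sum_dvd (φ : P.F → ℂ) {E : ℕ} (hE : 0 < E) (α : ℤ) :
    ∑ B ∈ Finset.range (P.p * E), ee ((-(α * E) : ℤ) * B / (P.p * E)) * φ B =
      E * ∑ x, P.zp (-(α * x)) * φ x := by
  have hE' : (E : ℂ) ≠ 0 := by exact_mod_cast hE.ne'
  have hp := P.p_ne
  rw [HExI_split φ hE, ← HExI_cast fun x : P.F => P.zp (-(α * x)) * φ x]
  congr 1
  · have e : ∀ j : ℕ, ee ((-(α * E) : ℤ) * j / E) = 1 := fun j => by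
      rw [← ee_int (-(α * j))]
      congr 1
      push_cast
      field_simp
    simp only [e]
    simp
  · refine Finset.sum_congr rfl fun B _ => ?_
    rw [show (-(α * B) : P.F) = ((-(α * B) : ℤ) : P.F) by push_cast; rfl, zp_int]
    congr 2
    push_cast
    field_simp

/-- The finite identity. -/
theorem HExI_fin (f : P.F → ℂ) {a b c d : P.F} (hd : a * d - b * c = 1) (A u α : P.F) :
    ∑ x, P.zp (-(α * x)) *
        ∑ z, f z * (if A * d = x * c then P.zp ((z - u) * (x * a - A * b)) else 0) =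
      ∑ β, f (α * d + u - β * c) * P.zp (-(β * A)) := by
  by_cases hc : c = 0
  · subst hc
    have had : a * d = 1 := by simpa using hd
    have hd0 : d ≠ 0 := right_ne_zero_of_mul_eq_one had
    have r : ∑ β, f (α * d + u - β * 0) * P.zp (-(β * A)) =
        f (α * d + u) * if A = 0 then (P.p : ℂ) else 0 := by
      simp only [mul_zero, sub_zero, ← Finset.mul_sum, ← mul_neg]
      rw [sum_zp]
      simp only [neg_eq_zero]
    rw [r]
    by_cases hA : A = 0
    · subst hA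
      simp only [zero_mul, mul_zero, if_true, sub_zero, Finset.mul_sum]
      rw [Finset.sum_comm]
      have e : ∀ z, ∑ x, P.zp (-(α * x)) * (f z * P.zp ((z - u) * (x * a))) =
          if z = α * d + u then f z * P.p else 0 := by
        intro z
        have e1 : ∀ x, P.zp (-(α * x)) * (f z * P.zp ((z - u) * (x * a))) =
            f z * P.zp (x * ((z - u) * a - α)) := by
          intro x
          rw [mul_left_comm, ← zp_add]
          congr 2
          ring
        simp only [e1, ← Finset.mul_sum]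
        rw [sum_zp, mul_ite, mul_zero]
        refine if_congr ⟨fun h => ?_, fun h => ?_⟩ rfl rfl
        · linear_combination d * h - (z - u) * had
        · rw [h]
          linear_combination α * had
      simp only [e]
      simp
    · have : ¬ A * d = 0 := mul_ne_zero hA hd0
      simp [this, hA]
  · rw [Finset.sum_eq_single (A * d / c)]
    · rw [Finset.mul_sum]
      symm
      refine Fintype.sum_bijective (fun β => α * d + u - β * c) ?_ _ _ fun β => ?_
      · refine Finite.injective_iff_bijective.1 fun β β' h => ?_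
        exact mul_right_cancel₀ hc (sub_right_injective h)
      · rw [if_pos (by field_simp), mul_left_comm, ← zp_add]
        congr 2
        field_simp
        linear_combination (A * (β * c - α * d)) * hd
    · intro x _ hx
      have : ¬ A * d = x * c := fun h => hx (by rw [h]; field_simp)
      simp [this]
    · simp

theorem HExI_tm (c : P.D → ℤ → ℤ) (g : SL(2, ℤ)) (A B E : ℕ) (τ : ℍ) :
    P.tm c (!![(A : ℤ), (B : ℤ); 0, ((P.p * E : ℕ) : ℤ)] * (g⁻¹ : SL(2, ℤ))) τ =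
      ∑ z, P.fn c (P.up z) τ * (if (A : P.F) * g 1 1 = B * g 1 0 then
        P.zp ((z - E * (P.m * g 0 0)) * (B * g 0 0 - A * g 0 1)) else 0) := by
  have hY : (!![(A : ℤ), (B : ℤ); 0, ((P.p * E : ℕ) : ℤ)] * (g⁻¹ : SL(2, ℤ)) : MZ) =
      !![A * g 1 1 - B * g 1 0, B * g 0 0 - A * g 0 1;
        P.p * (-(E * g 1 0)), P.p * (E * g 0 0)] := by
    rw [Matrix.SpecialLinearGroup.coe_inv, Matrix.adjugate_fin_two]
    ext i j
    fin_cases i <;> fin_cases j <;> simp [Matrix.mul_apply, Fin.sum_univ_two] <;> ring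
  have h1 : (P.p : ℤ) ∣ A * g 1 1 - B * g 1 0 ↔ (A : P.F) * g 1 1 = B * g 1 0 := by
    rw [← ZMod.intCast_zmod_eq_zero_iff_dvd]
    push_cast
    exact sub_eq_zero
  rw [hY, tm]
  simp only [Matrix.of_apply, Matrix.cons_val', Matrix.cons_val_zero, Matrix.cons_val_one,
    Matrix.cons_val_fin_one, dvd_mul_right, and_true, h1]
  split_ifs with h2
  · have c0 : P.col !![A * g 1 1 - B * g 1 0, B * g 0 0 - A * g 0 1;
        P.p * (-(E * g 1 0)), P.p * (E * g 0 0)] 0 = ((B * g 0 0 - A * g 0 1 : ℤ) : P.D) := rfl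
    have c1 : P.col !![A * g 1 1 - B * g 1 0, B * g 0 0 - A * g 0 1;
        P.p * (-(E * g 1 0)), P.p * (E * g 0 0)] 1 = P.up ((E * g 0 0 : ℤ) : P.F) := by
      rw [up_int]
      rfl
    have r0 : P.rd (2 * P.m * P.up ((E * g 0 0 : ℤ) : P.F)) = P.rd 0 := by
      rw [map_mul, rd_up, mul_zero, map_zero]
    simp only [FF, gg, c0, c1, r0, mul_ite, mul_zero]
    rw [sum_fibre]
    refine Finset.sum_congr rfl fun z _ => ?_
    rw [zero_add, mul_comm (P.m : P.D), up_mul, sub_eq_add_neg, ← up_neg, ← up_add, up_mul,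
      psi_up, rd_int, rd_int]
    congr 2
    push_cast
    ring
  · simp

theorem hexI (h : P.IsF 0 c) (g : SL(2, ℤ)) {A E : ℕ} (hA : 0 < A) (hE : 0 < E) (τ : ℍ) :
    HasSum (fun α : ℤ => (E : ℂ) * ∑ b, (P.exI c (P.Dm * red P.p g) α b E : ℂ) *
        (P.zp (-b) * ee (-α * τ / P.p)) ^ A)
      (24 * P.p * ∑ B ∈ Finset.range (P.p * E),
        P.tm c (!![(A : ℤ), (B : ℤ); 0, ((P.p * E : ℕ) : ℤ)] * (g⁻¹ : SL(2, ℤ)))
          (mob !![(A : ℤ), (B : ℤ); 0, ((P.p * E : ℕ) : ℤ)] τ)) := by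
  have hE' : (E : ℂ) ≠ 0 := by exact_mod_cast hE.ne'
  have hp := P.p_ne
  have hpz : (P.p : ℤ) ≠ 0 := by exact_mod_cast P.prime.ne_zero
  have hEz : (E : ℤ) ≠ 0 := by exact_mod_cast hE.ne'
  obtain ⟨w, hw⟩ : ∃ w : P.F → P.F → ℂ, ∀ z x, w z x = if (A : P.F) * g 1 1 = x * g 1 0 then
      P.zp ((z - E * (P.m * g 0 0)) * (x * g 0 0 - A * g 0 1)) else 0 := ⟨_, fun _ _ => rfl⟩
  have hm : ∀ B : ℕ, (mob !![(A : ℤ), (B : ℤ); 0, ((P.p * E : ℕ) : ℤ)] τ : ℂ) =
      (A * τ + B) / (P.p * E) := by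
    intro B
    have hdet : 0 < (!![(A : ℤ), (B : ℤ); 0, ((P.p * E : ℕ) : ℤ)] : MZ).det := by
      have := P.prime.pos
      rw [Matrix.det_fin_two_of, mul_zero, sub_zero]
      positivity
    rw [coe_mob hdet]
    simp [dn]
  have S : HasSum (fun ν : ℤ => 24 * P.p * ∑ B ∈ Finset.range (P.p * E), ∑ z,
      (c (P.up z) ν : ℂ) * ee (ν * ((A * τ + B) / (P.p * E)) / (P.p ^ 2 : ℕ)) * w z B)
      (24 * P.p * ∑ B ∈ Finset.range (P.p * E),
        P.tm c (!![(A : ℤ), (B : ℤ); 0, ((P.p * E : ℕ) : ℤ)] * (g⁻¹ : SL(2, ℤ)))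
          (mob !![(A : ℤ), (B : ℤ); 0, ((P.p * E : ℕ) : ℤ)] τ)) := by
    refine (hasSum_sum fun B _ => ?_).mul_left _
    rw [HExI_tm]
    refine hasSum_sum fun z _ => ?_
    rw [← hw, ← hm]
    exact ((h.qs _).sum _).mul_right _
  have G : ∀ n : ℤ, ∑ B ∈ Finset.range (P.p * E), ∑ z,
      (c (P.up z) (P.p ^ 2 * n) : ℂ) *
        ee ((P.p ^ 2 * n : ℤ) * ((A * τ + B) / (P.p * E)) / (P.p ^ 2 : ℕ)) * w z B =
      ee (n * A * τ / (P.p * E)) * ∑ B ∈ Finset.range (P.p * E), ee (n * B / (P.p * E)) *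
        ∑ z, (c (P.up z) (P.p ^ 2 * n) : ℂ) * w z B := by
    intro n
    simp only [Finset.mul_sum]
    refine Finset.sum_congr rfl fun B _ => Finset.sum_congr rfl fun z _ => ?_
    have e : ee ((P.p ^ 2 * n : ℤ) * ((A * τ + B) / (P.p * E)) / (P.p ^ 2 : ℕ)) =
        ee (n * A * τ / (P.p * E)) * ee (n * B / (P.p * E)) := by
      rw [← ee_add]
      congr 1
      push_cast
      field_simp
    rw [e]
    ring
  have inj : Function.Injective fun α : ℤ => (P.p : ℤ) ^ 2 * (-(α * E)) := fun α β e =>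
    mul_right_cancel₀ hEz (neg_injective (mul_left_cancel₀ (pow_ne_zero 2 hpz) e))
  have S' := (inj.hasSum_iff (fun ν hν => ?_)).2 S
  · refine S'.congr_fun fun α => ?_
    have hd : (g 0 0 : P.F) * g 1 1 - g 0 1 * g 1 0 = 1 := by
      have := congrArg (Int.cast : ℤ → P.F) g.det_coe
      rw [Matrix.det_fin_two] at this
      exact_mod_cast this
    have x0 : (P.Dm * red P.p g) 0 0 = P.m * g 0 0 := by
      simp [Dm, red, Matrix.mul_apply, Fin.sum_univ_two]
    have x1 : (P.Dm * red P.p g) 1 0 = g 1 0 := by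
      simp [Dm, red, Matrix.mul_apply, Fin.sum_univ_two]
    have x2 : (P.Dm * red P.p g) 1 1 = g 1 1 := by
      simp [Dm, red, Matrix.mul_apply, Fin.sum_univ_two]
    have e : ∀ b : P.F, (P.zp (-b) * ee (-α * τ / P.p)) ^ A =
        ee ((-(α * E) : ℤ) * A * τ / (P.p * E)) * P.zp (-(b * A)) := by
      intro b
      rw [mul_pow, ← ee_nat_mul, ← zp_nat_mul, mul_comm]
      congr 2
      · push_cast
        field_simp
      · ring
    rw [Function.comp_apply, G, HExI_sum_dvd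
      (fun x => ∑ z, (c (P.up z) (P.p ^ 2 * -(α * E)) : ℂ) * w z x) hE]
    simp only [hw]
    rw [HExI_fin (fun z => (c (P.up z) (P.p ^ 2 * -(α * E)) : ℂ)) hd]
    simp only [exI, x0, x1, x2, e, Finset.mul_sum, mul_neg]
    refine Finset.sum_congr rfl fun b _ => ?_
    push_cast
    ring
  · by_cases h1 : (P.p : ℤ) ^ 2 ∣ ν
    · obtain ⟨n, rfl⟩ := h1
      have h2 : ¬ (E : ℤ) ∣ n := by
        rintro ⟨α, rfl⟩
        exact hν ⟨-α, by ring⟩
      rw [G, HExI_sum_zero (fun x => ∑ z, (c (P.up z) (P.p ^ 2 * n) : ℂ) * w z x) hE h2,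
        mul_zero, mul_zero]
    · have h2 : ∀ z, c (P.up z) ν = 0 := by
        intro z
        by_contra h3
        have h4 := h.supp _ _ h3
        rw [Q_up, neg_zero, ZMod.intCast_zmod_eq_zero_iff_dvd] at h4
        exact h1 (by exact_mod_cast h4)
      simp [h2]

end Par

end

end Pool.Agent.P.MP_a60a76_nt.Sz
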