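import Pool.Agent.P.MP_a60a76_nt.Sz.Weil
import Pool.Agent.P.MP_a60a76_nt.Sz.QSb
import Pool.Agent.P.MP_a60a76_nt.Sz.Cos

namespace Pool.Agent.P.MP_a60a76_nt.Sz

open UpperHalfPlane MeasureTheory SP
open scoped MatrixGroups UpperHalfPlane Matrix Modular Topology Classical ArithmeticFunction.sigma

noncomputable section

/-! Transformation and growth of the input forms. -/

namespace Par

variable {P : Par} {c : P.D → ℤ → ℤ} {w : ℤ}

theorem FCov_pos (P : Par) : 0 < P.p ^ 2 := pow_pos P.prime.pos 2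

theorem IsF.lo_spec (h : P.IsF w c) (k : P.D) (ν : ℤ) (hν : ν < -(P.lo c : ℤ)) : c k ν = 0 := by
  have hne : {L : ℕ | ∀ k ν, ν < -(L : ℤ) → c k ν = 0}.Nonempty := by
    choose L hL using fun k => (h.qs k).low
    refine ⟨Finset.univ.sup fun k => (-L k).toNat, fun k ν hν => ?_⟩
    have h1 : (-L k).toNat ≤ Finset.univ.sup fun k => (-L k).toNat :=
      Finset.le_sup (f := fun k => (-L k).toNat) (Finset.mem_univ k)
    have h2 := hL k ν (by omega)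
    exact_mod_cast h2
  exact Nat.sInf_mem hne k ν hν

theorem lo_le {L : ℕ} (h : ∀ k ν, ν < -(L : ℤ) → c k ν = 0) : P.lo c ≤ L := by
  exact Nat.sInf_le h

theorem pp_eq (h : P.IsF w c) (a : P.D → ℤ → ℝ) {L : ℕ} (hL : P.lo c ≤ L) :
    P.pp c a = ∑ k, ∑ ν ∈ Finset.Icc (1 : ℤ) L, (c k (-ν) : ℝ) * a k ν := by
  refine Finset.sum_congr rfl fun k _ => Finset.sum_subset
    (Finset.Icc_subset_Icc_right (by exact_mod_cast hL)) fun ν h1 h2 => ?_
  rw [Finset.mem_Icc] at h1 h2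
  rw [h.lo_spec k (-ν) (by omega)]
  simp

theorem IsF.hol (h : P.IsF w c) (k : P.D) : Hol (P.fn c k) := by
  exact (h.qs k).hol P.FCov_pos

theorem IsF.fn_neg (h : P.IsF w c) (k : P.D) (τ : ℍ) : P.fn c (-k) τ = P.fn c k τ := by
  simp only [fn, h.even]

theorem IsF.fn_T (h : P.IsF w c) (k : P.D) (τ : ℍ) :
    P.fn c k (ModularGroup.T • τ) = P.psi (-P.Q k) * P.fn c k τ := by
  obtain ⟨a, ha⟩ := ZMod.intCast_surjective (-P.Q k)
  rw [(h.qs k).T_of_supp P.FCov_pos (a := a) (fun ν hν => ?_) τ, ← ha, psi_int, Nat.cast_pow]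
  have h1 := h.supp k ν (by exact_mod_cast hν)
  exact (ZMod.intCast_eq_intCast_iff_dvd_sub a ν _).1 (ha.trans h1.symm)

/-- Criterion for being a form. -/
theorem isF_of {f : P.D → ℍ → ℂ} (hq : ∀ k, QS (P.p ^ 2) (fun ν => (c k ν : ℂ)) (f k))
    (he : ∀ k ν, c (-k) ν = c k ν) (hs : ∀ k ν, c k ν ≠ 0 → (ν : P.D) = -P.Q k)
    (hi : ∀ k τ, f k (ModularGroup.S • τ) = (τ : ℂ) ^ w * P.M (fun k' => f k' τ) k) :
    P.IsF w c ∧ P.fn c = f := by
  have e : P.fn c = f := by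
    funext k τ
    exact ((hq k).sum τ).tsum_eq
  refine ⟨⟨?_, he, hs, ?_⟩, e⟩
  · rw [e]
    exact hq
  · rw [e]
    exact hi

theorem FCov_qs (h : P.IsF w c) (v : Fin 2 → P.D) :
    QS (P.p ^ 2) (fun ν => ∑ k, P.gg k v * (c k ν : ℂ)) (P.FF c v) :=
  (QS.finset_sum Finset.univ fun k _ => (h.qs k).const_mul (P.gg k v)).congr (fun _ => rfl)
    fun τ => Finset.sum_congr rfl fun _ _ => mul_comm _ _

theorem IsF.FF_hol (h : P.IsF 0 c) (v : Fin 2 → P.D) : Hol (P.FF c v) := by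
  exact (FCov_qs h v).hol P.FCov_pos

theorem IsF.FF_smul (h : P.IsF 0 c) (g : SL(2, ℤ)) (v : Fin 2 → P.D) (τ : ℍ) :
    P.FF c (P.act g v) (g • τ) = P.FF c v τ := by
  revert v τ
  refine sl2_ind (q := fun g => ∀ (v : Fin 2 → P.D) (τ : ℍ),
    P.FF c (P.act g v) (g • τ) = P.FF c v τ) ?_ ?_ ?_ ?_ ?_ g
  · intro v τ
    simp only [FF, h.inv, zpow_zero, one_mul, gg_S, sum_M_Mb]
  · intro v τ
    refine Finset.sum_congr rfl fun k _ => ?_
    rw [h.fn_T, gg_T, mul_mul_mul_comm, ← psi_add, neg_add_cancel, psi_zero, one_mul]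
  · intro v τ
    rw [Matrix.SpecialLinearGroup.coe_one, act_one, one_smul]
  · intro a b ha hb v τ
    rw [Matrix.SpecialLinearGroup.coe_mul, act_mul, mul_smul, ha, hb]
  · intro a ha v τ
    rw [← ha, ← act_mul, ← Matrix.SpecialLinearGroup.coe_mul, mul_inv_cancel,
      Matrix.SpecialLinearGroup.coe_one, act_one, smul_inv_smul]

theorem IsF.tm_smul (h : P.IsF 0 c) (g : SL(2, ℤ)) (Y : MZ) (τ : ℍ) :
    P.tm c (g * Y) (g • τ) = P.tm c Y τ := by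
  have key : ∀ A Y : MZ, (P.p : ℤ) ∣ Y 0 0 ∧ (P.p : ℤ) ∣ Y 1 0 →
      (P.p : ℤ) ∣ (A * Y) 0 0 ∧ (P.p : ℤ) ∣ (A * Y) 1 0 := by
    intro A Y hY
    simp only [Matrix.mul_apply, Fin.sum_univ_two]
    exact ⟨dvd_add (hY.1.mul_left _) (hY.2.mul_left _), dvd_add (hY.1.mul_left _) (hY.2.mul_left _)⟩
  unfold tm
  by_cases hY : (P.p : ℤ) ∣ Y 0 0 ∧ (P.p : ℤ) ∣ Y 1 0
  · rw [if_pos hY, if_pos (key _ _ hY), col_mul, h.FF_smul]
  · rw [if_neg hY, if_neg]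
    intro h1
    have h2 := key ((g⁻¹ : SL(2, ℤ)) : MZ) _ h1
    rw [← Matrix.mul_assoc, ← Matrix.SpecialLinearGroup.coe_mul, inv_mul_cancel,
      Matrix.SpecialLinearGroup.coe_one, Matrix.one_mul] at h2
    exact hY h2

theorem IsF.fn_eq_sum (h : P.IsF 0 c) (k : P.D) (τ : ℍ) :
    P.fn c k τ = ((P.p : ℂ) ^ 3)⁻¹ * ∑ v, P.FF c v τ * (starRingEnd ℂ) (P.gg k v) := by
  have _ := h
  simp only [FF, Finset.sum_mul]
  rw [Finset.sum_comm]
  simp only [mul_assoc, ← Finset.mul_sum, sum_gg_conj, mul_ite, mul_zero, Finset.sum_ite_eq',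
    Finset.mem_univ, if_true]
  have := P.p_ne
  field_simp

theorem IsF.FF_conj (h : P.IsF 0 c) (v : Fin 2 → P.D) {τ τ' : ℍ}
    (e : (τ' : ℂ) = -(starRingEnd ℂ) τ) :
    P.FF c ![-v 0, v 1] τ' = (starRingEnd ℂ) (P.FF c v τ) := by
  have _ := h
  simp only [FF, map_sum, map_mul, conj_gg]
  refine Finset.sum_congr rfl fun k _ => ?_
  congr 1
  simp only [fn, Complex.conj_tsum, map_mul, conj_ee, e, map_div₀, map_intCast, map_natCast]
  refine tsum_congr fun ν => ?_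
  congr 2
  ring

/-- Growth in terms of the highest point of the orbit. -/
theorem IsF.bound (h : P.IsF 0 c) : ∃ C a : ℝ, 0 ≤ C ∧ 0 ≤ a ∧ ∀ (τ : ℍ) (B : ℝ),
    (∀ g : SL(2, ℤ), (g • τ).im ≤ B) →
      (∀ v, ‖P.FF c v τ‖ ≤ C * Real.exp (a * B)) ∧ ∀ k, ‖P.fn c k τ‖ ≤ C * Real.exp (a * B) := by
  have hb := fun v => (FCov_qs h v).bound P.FCov_pos (L := -(P.lo c : ℤ))
    (fun ν hν => Finset.sum_eq_zero fun k _ => by rw [h.lo_spec k ν hν]; simp)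
    (y := 1 / 2) (by norm_num)
  choose C hC0 hC using hb
  obtain ⟨a, ha⟩ : ∃ a : ℝ, a = 2 * Real.pi * (P.lo c : ℝ) / ((P.p ^ 2 : ℕ) : ℝ) := ⟨_, rfl⟩
  have ha0 : 0 ≤ a := by
    rw [ha]
    positivity
  obtain ⟨K, hK⟩ : ∃ K : ℝ, K = ‖((P.p : ℂ) ^ 3)⁻¹‖ * (Fintype.card (Fin 2 → P.D) : ℝ) := ⟨_, rfl⟩
  have hK0 : 0 ≤ K := by
    rw [hK]
    positivity
  have hS : 0 ≤ ∑ v, C v := Finset.sum_nonneg fun v _ => hC0 v
  refine ⟨(1 + K) * ∑ v, C v, a, by positivity, ha0, fun τ B hB => ?_⟩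
  have hE : 0 ≤ (∑ v, C v) * Real.exp (a * B) := by positivity
  have h1 : ∀ v, ‖P.FF c v τ‖ ≤ (∑ v, C v) * Real.exp (a * B) := by
    intro v
    obtain ⟨g, hg⟩ := ModularGroup.exists_one_half_le_im_smul τ
    rw [← h.FF_smul g]
    refine (hC _ _ hg).trans (mul_le_mul
      (Finset.single_le_sum (fun v _ => hC0 v) (Finset.mem_univ _)) (Real.exp_le_exp.2 ?_)
      (Real.exp_pos _).le hS)
    refine le_trans (le_of_eq ?_) (mul_le_mul_of_nonneg_left (hB g) ha0)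
    rw [ha]
    push_cast
    ring
  refine ⟨fun v => (h1 v).trans ?_, fun k => ?_⟩
  · nlinarith [mul_nonneg hK0 hE]
  · have h2 : ‖∑ v, P.FF c v τ * (starRingEnd ℂ) (P.gg k v)‖ ≤
        (Fintype.card (Fin 2 → P.D) : ℝ) * ((∑ v, C v) * Real.exp (a * B)) := by
      refine (norm_sum_le _ _).trans ?_
      rw [← nsmul_eq_mul, ← Finset.card_univ]
      refine Finset.sum_le_card_nsmul _ _ _ fun v _ => ?_
      rw [norm_mul, Complex.norm_conj]
      exact (mul_le_of_le_one_right (norm_nonneg _) (P.norm_gg_le k v)).trans (h1 v)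
    rw [h.fn_eq_sum, norm_mul]
    refine (mul_le_mul_of_nonneg_left h2 (norm_nonneg _)).trans ?_
    rw [← mul_assoc, ← hK]
    nlinarith

theorem IsF.coeff_bound (h : P.IsF 0 c) : ∃ C : ℝ, 0 ≤ C ∧ ∀ k (ν : ℤ),
    |(c k ν : ℝ)| ≤ C * Real.exp (C * Real.sqrt ν) := by
  obtain ⟨C, a, hC, ha, hb⟩ := h.bound
  obtain ⟨C1, hC1⟩ : ∃ C1 : ℝ, C1 = ∑ k, ∑ ν ∈ Finset.Icc (-(P.lo c : ℤ)) 0, |(c k ν : ℝ)| :=
    ⟨_, rfl⟩
  have h0 : 0 ≤ C1 := by
    rw [hC1]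
    positivity
  have hpi := Real.pi_pos
  refine ⟨C + a + 2 * Real.pi + C1, by positivity, fun k ν => ?_⟩
  rcases le_or_gt ν 0 with hν | hν
  · have h1 : |(c k ν : ℝ)| ≤ C1 := by
      by_cases h2 : ν < -(P.lo c : ℤ)
      · rw [h.lo_spec k ν h2]
        simpa using h0
      · rw [hC1]
        refine le_trans ?_ (Finset.single_le_sum
          (f := fun k => ∑ ν ∈ Finset.Icc (-(P.lo c : ℤ)) 0, |(c k ν : ℝ)|)
          (fun _ _ => by positivity) (Finset.mem_univ k))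
        exact Finset.single_le_sum (f := fun ν => |(c k ν : ℝ)|) (fun _ _ => abs_nonneg _)
          (Finset.mem_Icc.2 ⟨not_lt.1 h2, hν⟩)
    rw [Real.sqrt_eq_zero_of_nonpos (by exact_mod_cast hν), mul_zero, Real.exp_zero, mul_one]
    linarith
  · have h1 : (1 : ℝ) ≤ ν := by exact_mod_cast hν
    have h2 : 1 ≤ Real.sqrt ν := Real.one_le_sqrt.2 h1
    have h3 : 0 < Real.sqrt ν := by linarith
    have h4 := (h.qs k).coeff_le P.FCov_pos ν (y := (Real.sqrt ν)⁻¹)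
      (B := C * Real.exp (a * Real.sqrt ν)) (inv_pos.2 h3) fun τ hτ =>
        (hb τ _ fun g => (im_smul_le_max g τ).trans (by
          rw [hτ, inv_inv]
          exact max_le ((inv_le_one_of_one_le₀ h2).trans h2) le_rfl)).2 k
    rw [Complex.norm_intCast, mul_assoc, ← Real.exp_add] at h4
    refine h4.trans (mul_le_mul (by linarith) (Real.exp_le_exp.2 ?_) (Real.exp_pos _).le
      (by positivity))
    have h5 : (ν : ℝ) * (Real.sqrt ν)⁻¹ = Real.sqrt ν := by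
      rw [← div_eq_mul_inv, Real.div_sqrt]
    have h6 : (1 : ℝ) ≤ ((P.p ^ 2 : ℕ) : ℝ) := by exact_mod_cast P.FCov_pos
    have h7 : 2 * Real.pi * ν * (Real.sqrt ν)⁻¹ / ((P.p ^ 2 : ℕ) : ℝ) ≤
        2 * Real.pi * Real.sqrt ν := by
      rw [mul_assoc, h5]
      exact div_le_self (by positivity) h6
    nlinarith [mul_nonneg hC h3.le, mul_nonneg h0 h3.le]

/-- The constant term of the pairing with a function with dual exponents. -/
theorem IsF.ct_pr (h : P.IsF 0 c) {ρ : P.D → ℤ → ℂ} {r : P.D → ℍ → ℂ}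
    (hr : ∀ k, QS (P.p ^ 2) (ρ k) (r k)) (hs : ∀ k ν, ρ k ν ≠ 0 → (ν : P.D) = P.Q k) {L : ℤ}
    (hL : ∀ k, ∀ ν < L, ρ k ν = 0) {L' : ℤ} (hL' : (P.lo c : ℤ) ≤ L') {y : ℝ} (hy : 0 < y) :
    (∃ b, QS 1 b (P.pr c r)) ∧
      CT y (P.pr c r) = ∑ k, ∑ ν ∈ Finset.Icc L L', (c k (-ν) : ℂ) * ρ k ν := by
  have h1 : QS (P.p ^ 2 * 1)
      (fun ν => ∑ k, ∑ μ ∈ Finset.Icc (-L') (ν - L), (c k μ : ℂ) * ρ k (ν - μ)) (P.pr c r) := by
    rw [mul_one]
    exact QS.finset_sum Finset.univ fun k _ => (h.qs k).mul (hr k)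
      (fun ν hν => by rw [h.lo_spec k ν (by omega), Int.cast_zero]) (hL k)
  have h2 := h1.unscale P.FCov_pos fun ν hν => Finset.sum_eq_zero fun k _ =>
    Finset.sum_eq_zero fun μ _ => by
      by_contra hne
      have e1 := h.supp k μ fun e => hne (by rw [e, Int.cast_zero, zero_mul])
      have e2 := hs k (ν - μ) (right_ne_zero_of_mul hne)
      refine hν ((ZMod.intCast_zmod_eq_zero_iff_dvd ν _).1 ?_)
      rw [Int.cast_sub, e1] at e2
      linear_combination e2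
  refine ⟨⟨_, h2⟩, ?_⟩
  rw [h2.ct one_pos (fun τ => by simpa using h2.periodic one_pos τ) hy]
  refine Finset.sum_congr rfl fun k _ => ?_
  refine Finset.sum_nbij' (fun μ => -μ) (fun μ => -μ) (fun μ hμ => ?_) (fun μ hμ => ?_)
    (fun μ _ => neg_neg μ) (fun μ _ => neg_neg μ) fun μ _ => ?_
  · simp only [Finset.mem_Icc] at hμ ⊢
    omega
  · simp only [Finset.mem_Icc] at hμ ⊢
    omega
  · rw [neg_neg, mul_zero, zero_sub]

end Par

end

end Pool.Agent.P.MP_a60a76_nt.Sz
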