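import Pool.Agent.P.MP_a60a76_nt.Sz.UPr
import Pool.Agent.P.MP_a60a76_nt.Sz.FCov

namespace Pool.Agent.P.MP_a60a76_nt.Sz

open UpperHalfPlane MeasureTheory SP
open scoped MatrixGroups UpperHalfPlane Matrix Modular Topology Classical ArithmeticFunction.sigma

noncomputable section

/-! Symmetries of the product. -/

namespace Par

variable {P : Par} {c : P.D → ℤ → ℤ}

theorem exU_nonneg (hp : P.Pos c) (X : P.MF) {a d : ℤ} (ha : 0 < a) (hd : 0 < d) (b : P.F) :
    0 ≤ P.exU c X a b d := by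
  unfold exU
  split_ifs
  · exact mul_nonneg (by positivity)
      (Finset.sum_nonneg fun k _ => hp k _ (neg_lt_zero.2 (mul_pos ha hd)))
  · exact le_rfl

theorem exI_nonneg (hp : P.Pos c) (X : P.MF) {a d : ℤ} (ha : 0 < a) (hd : 0 < d) (b : P.F) :
    0 ≤ P.exI c X a b d := by
  have h1 : (0 : ℤ) < P.p := by exact_mod_cast P.prime.pos
  exact mul_nonneg (by positivity) (hp _ _ (neg_lt_zero.2 (by positivity)))

theorem ex_dvd (c : P.D → ℤ → ℤ) (X : P.MF) (a : ℤ) (b : P.F) (d : ℤ) :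
    (2 * P.p : ℤ) ∣ P.ex c X a b d := by
  refine dvd_add ?_ (Dvd.dvd.mul_right ⟨12, by ring⟩ _)
  unfold exU
  split_ifs
  · exact Dvd.dvd.mul_right ⟨6, by ring⟩ _
  · exact dvd_zero _

theorem PSym_lo (h : P.IsF 0 c) (k : P.D) {n : ℤ} (hn : (P.lo c : ℤ) < n) :
    c k (-(P.p ^ 2 * n)) = 0 := by
  have h1 : (1 : ℤ) ≤ P.p := by exact_mod_cast P.prime.pos
  have h2 : (1 : ℤ) ≤ (P.p : ℤ) ^ 2 := one_le_pow₀ h1
  have h3 : (0 : ℤ) ≤ P.lo c := Int.natCast_nonneg _
  exact h.lo_spec k _ (by nlinarith)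

theorem ex_eq_zero (h : P.IsF 0 c) (X : P.MF) {a d : ℤ} (had : (P.lo c : ℤ) < a * d) (b : P.F) :
    P.ex c X a b d = 0 := by
  unfold ex exU exI
  rw [PSym_lo h _ had, Finset.sum_eq_zero fun k _ => h.lo_spec k _ (by omega)]
  simp

theorem ex_bound (h : P.IsF 0 c) : ∃ C : ℝ, 0 ≤ C ∧ ∀ (X : P.MF) (a : ℤ) (b : P.F) (d : ℤ),
    |(P.ex c X a b d : ℝ)| ≤ C * Real.exp (C * (|(a : ℝ)| + |(d : ℝ)|)) := by
  obtain ⟨C, hC, hb⟩ := h.coeff_bound
  have hp : (1 : ℝ) ≤ P.p := by exact_mod_cast P.prime.pos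
  refine ⟨(12 * P.p * P.p ^ 2 + 24 * P.p) * C, by positivity, fun X a b d => ?_⟩
  set s : ℝ := |(a : ℝ)| + |(d : ℝ)| with hs
  have hs0 : 0 ≤ s := by positivity
  have had : -((a : ℝ) * d) ≤ s ^ 2 := by
    have h1 : -((a : ℝ) * d) ≤ |(a : ℝ)| * |(d : ℝ)| := by
      rw [← abs_mul]
      exact neg_le_abs _
    nlinarith [abs_nonneg (a : ℝ), abs_nonneg (d : ℝ), sq_nonneg |(a : ℝ)|, sq_nonneg |(d : ℝ)|]
  have hE : ∀ (k : P.D) (ν : ℤ), (ν : ℝ) ≤ (P.p * s) ^ 2 →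
      |(c k ν : ℝ)| ≤ C * Real.exp ((12 * P.p * P.p ^ 2 + 24 * P.p) * C * s) := by
    intro k ν hν
    refine (hb k ν).trans (mul_le_mul_of_nonneg_left (Real.exp_le_exp.2 ?_) hC)
    have h1 : Real.sqrt ν ≤ P.p * s := Real.sqrt_le_iff.2 ⟨by positivity, hν⟩
    have h2 : (P.p : ℝ) ≤ 12 * P.p * P.p ^ 2 + 24 * P.p := by nlinarith [pow_pos P.p_pos 3]
    calc C * Real.sqrt ν ≤ C * (P.p * s) := mul_le_mul_of_nonneg_left h1 hC
      _ = P.p * (C * s) := by ring
      _ ≤ (12 * P.p * P.p ^ 2 + 24 * P.p) * (C * s) :=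
        mul_le_mul_of_nonneg_right h2 (by positivity)
      _ = _ := by ring
  set B : ℝ := C * Real.exp ((12 * P.p * P.p ^ 2 + 24 * P.p) * C * s) with hB
  have hB0 : 0 ≤ B := by positivity
  have hp2 : (1 : ℝ) ≤ (P.p : ℝ) ^ 2 := one_le_pow₀ hp
  have hU : |(P.exU c X a b d : ℝ)| ≤ 12 * P.p * P.p ^ 2 * B := by
    unfold exU
    split_ifs
    · push_cast
      rw [abs_mul, abs_of_nonneg (by positivity : (0 : ℝ) ≤ 12 * P.p), mul_assoc (12 * (P.p : ℝ))]
      refine mul_le_mul_of_nonneg_left ((Finset.abs_sum_le_sum_abs _ _).trans ?_) (by positivity)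
      refine (Finset.sum_le_card_nsmul _ _ B fun k _ => hE k _ ?_).trans ?_
      · push_cast
        nlinarith [sq_nonneg s]
      · rw [Finset.card_univ, ZMod.card, nsmul_eq_mul]
        push_cast
        exact le_rfl
    · rw [Int.cast_zero, abs_zero]
      positivity
  have hI : |(P.exI c X a b d : ℝ)| ≤ 24 * P.p * B := by
    unfold exI
    push_cast
    rw [abs_mul, abs_of_nonneg (by positivity : (0 : ℝ) ≤ 24 * P.p)]
    refine mul_le_mul_of_nonneg_left (hE _ _ ?_) (by positivity)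
    push_cast
    nlinarith
  unfold ex
  push_cast
  refine (abs_add_le _ _).trans ((add_le_add hU hI).trans (le_of_eq ?_))
  rw [hB]
  ring

theorem ex_zero_right (h : P.IsF0 c) (X : P.MF) (a : ℤ) (b : P.F) : P.ex c X a b 0 =
    if (a : P.F) * X 1 1 = b * X 1 0 then 0 else -(24 * P.p * P.cp c) := by
  unfold ex exU exI
  rw [if_neg (by simp)]
  simp only [mul_zero, neg_zero, Int.cast_zero, zero_mul, add_zero, zero_add]
  split_ifs with h1
  · rw [h1, sub_self, up_zero, h.zero, mul_zero]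
  · rw [h.const _ (sub_ne_zero.2 h1), mul_neg]

theorem inA_Ps (c : P.D → ℤ → ℤ) (X : P.MF) {A : Subring ℂ} (hA : P.zp 1 ∈ A) :
    InA A (P.Ps c X) := by
  have hz : ∀ b, P.zp b ∈ A := fun b => P.zp_eq_pow b ▸ A.pow_mem hA _
  refine (inA A).mul_mem (?_ : P.Pf c X ∈ inA A) (P.inA_Us _ hA)
  refine (inA A).prod_mem fun i _ => (inA A).prod_mem fun b _ => (inA A).pow_mem ?_ _
  exact (inA A).sub_mem (inA_mono (hz b) _ _) (inA_mono A.one_mem _ _)

theorem PSym_ex_neg (h : P.IsF 0 c) (X : P.MF) : P.ex c (-X) = P.ex c X := by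
  funext a b d
  unfold ex exU exI
  congr 1
  · refine if_congr (and_congr_right fun _ => and_congr (by simp) ⟨?_, ?_⟩) rfl rfl
    · rintro ⟨x, h1, h2, h3⟩
      exact ⟨-x, by simpa using h1, by simpa using h2, by simpa using h3⟩
    · rintro ⟨x, h1, h2, h3⟩
      exact ⟨-x, by simpa using h1, by simpa using h2, by simpa using h3⟩
  · rw [← h.even, ← up_neg]
    congr 3
    simp only [Matrix.neg_apply]
    ring

theorem PSym_ex_neg' (h : P.IsF 0 c) (X : P.MF) (a : ℤ) (b : P.F) (d : ℤ) :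
    P.ex c X (-a) (-b) (-d) = P.ex c X a b d := by
  unfold ex exU exI
  rw [neg_mul_neg]
  congr 1
  · refine if_congr (and_congr_right fun _ => and_congr_right fun _ => ⟨?_, ?_⟩) rfl rfl
    · rintro ⟨x, h1, h2, h3⟩
      push_cast at h1 h3
      exact ⟨-x, by linear_combination -h1, by linear_combination -h2, by linear_combination -h3⟩
    · rintro ⟨x, h1, h2, h3⟩
      push_cast
      exact ⟨-x, by linear_combination -h1, by linear_combination -h2, by linear_combination -h3⟩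
  · rw [← h.even, ← up_neg]
    congr 3
    push_cast
    ring

theorem PSym_ex_adj (c : P.D → ℤ → ℤ) (X : P.MF) (a : ℤ) (b : P.F) (d : ℤ) :
    P.ex c X.adjugate d (-b) a = P.ex c X a b d := by
  unfold ex exU exI
  rw [mul_comm d a, Matrix.adjugate_fin_two]
  congr 1
  · refine if_congr (and_congr_right fun _ => and_congr (by simp) ⟨?_, ?_⟩) rfl rfl
    · rintro ⟨x, h1, h2, h3⟩
      exact ⟨x, by simpa using h3, by simpa using h2, by simpa using h1⟩
    · rintro ⟨x, h1, h2, h3⟩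
      exact ⟨x, by simpa using h3, by simpa using h2, by simpa using h1⟩
  · congr 3
    simp only [Matrix.of_apply, Matrix.cons_val', Matrix.cons_val_one, Matrix.cons_val_zero,
      Matrix.cons_val_fin_one]
    ring

theorem PSym_swp_prod {ι : Type} (S : Finset ι) (f : ι → PS) :
    swp (∏ i ∈ S, f i) = ∏ i ∈ S, swp (f i) := map_prod (MvPowerSeries.renameEquiv ℂ _) f S

theorem PSym_factor (b : P.F) (a d : ℕ) {e : ℤ} (he : (2 * P.p : ℤ) ∣ e) :
    swp ((mono (P.zp b) a 0 - mono 1 0 d) ^ e.toNat) =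
      (mono (P.zp (-b)) d 0 - mono 1 0 a) ^ e.toNat := by
  have h1 : swp ((mono (P.zp b) a 0 - mono 1 0 d) ^ e.toNat) =
      (swp (mono (P.zp b) a 0) - swp (mono 1 0 d)) ^ e.toNat := by
    unfold swp
    rw [map_pow, map_sub]
  have h2 : 2 * P.p ∣ e.toNat := by
    rcases le_total 0 e with h | h
    · rw [← Int.natCast_dvd_natCast, Int.toNat_of_nonneg h]
      exact_mod_cast he
    · rw [Int.toNat_eq_zero.2 h]
      exact dvd_zero _
  obtain ⟨k, hk⟩ := h2
  have h3 : mono (P.zp b) 0 a - mono 1 d 0 =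
      -mono (P.zp b) 0 0 * (mono (P.zp (-b)) d 0 - mono 1 0 a) := by
    rw [neg_mul, mul_sub, mono_mul, mono_mul, ← zp_add, add_neg_cancel, zp_zero]
    simp
  have h4 : mono (P.zp b) 0 0 ^ P.p = 1 := by
    have h5 : ixx 0 0 = 0 := by simp [ixx]
    rw [mono, h5, MvPowerSeries.monomial_zero_eq_C_apply, ← map_pow, zp_pow_p, map_one]
  have h6 : (-mono (P.zp b) 0 0) ^ e.toNat = 1 := by
    rw [hk, pow_mul, pow_mul, neg_sq, pow_right_comm _ 2, h4, one_pow, one_pow]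
  rw [h1, swp_mono, swp_mono, h3, mul_pow, h6, one_mul]

theorem Ps_neg (h : P.IsF 0 c) (X : P.MF) : P.Ps c (-X) = P.Ps c X := by
  unfold Ps Pf
  rw [PSym_ex_neg h]

theorem Ps_adjugate (h : P.IsF 0 c) (X : P.MF) (hX : X.det = P.m) :
    P.Ps c X.adjugate = swp (P.Ps c X) := by
  unfold Ps
  rw [swp_mul, swp_Us]
  congr 1
  · unfold Pf
    rw [PSym_swp_prod]
    refine Finset.prod_equiv (Equiv.prodComm ℕ ℕ) (fun i => by simp [box, and_comm]) fun i _ => ?_
    rw [PSym_swp_prod]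
    refine Finset.prod_equiv (Equiv.neg P.F) (fun b => by simp) fun b _ => ?_
    rw [PSym_factor _ _ _ (ex_dvd _ _ _ _ _), ← PSym_ex_adj c X]
    simp
  · congr 1
    funext a d b
    rw [← PSym_ex_adj c X, ← PSym_ex_neg' h X.adjugate]
    simp

theorem PSym_tw (X : P.MF) (d : P.Fˣ) : P.tw (P.diagG (P.dg d)) X =
    !![X 0 0, X 0 1 * d; (d⁻¹ : P.Fˣ) * X 1 0, X 1 1] := by
  have h1 : (P.dg d)⁻¹ = P.dg d⁻¹ := by
    refine (eq_inv_of_mul_eq_one_left (Units.ext ?_)).symm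
    rw [Units.val_mul, coe_dg, coe_dg, Matrix.mul_fin_two, Units.val_one, Matrix.one_fin_two]
    simp only [mul_one, mul_zero, zero_mul, add_zero, zero_add, Units.inv_mul]
  change (((P.dg d)⁻¹ : P.GF) : P.MF) * X * (P.dg d : P.MF) = _
  rw [h1, coe_dg, coe_dg]
  conv_lhs => rw [Matrix.eta_fin_two X]
  rw [Matrix.mul_fin_two, Matrix.mul_fin_two]
  simp only [mul_one, one_mul, mul_zero, zero_mul, add_zero, zero_add]
  rw [mul_right_comm, Units.inv_mul, one_mul]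

theorem PSym_ex_gal (c : P.D → ℤ → ℤ) (X : P.MF) (d : P.Fˣ) (a : ℤ) (b : P.F) (e : ℤ) :
    P.ex c (P.tw (P.diagG (P.dg d)) X) a (b * d) e = P.ex c X a b e := by
  unfold ex exU exI
  rw [PSym_tw]
  simp only [Matrix.of_apply, Matrix.cons_val', Matrix.cons_val_one, Matrix.cons_val_zero,
    Matrix.cons_val_fin_one]
  congr 1
  · refine if_congr (and_congr_right fun _ => and_congr (Units.mul_right_eq_zero _)
      (exists_congr fun x => and_congr_right fun _ => and_congr_left fun _ => ?_)) rfl rfl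
    rw [← mul_assoc, Units.mul_left_inj]
  · rw [mul_assoc b, Units.mul_inv_cancel_left]

theorem Ps_gal (c : P.D → ℤ → ℤ) (X : P.MF) (s : ℂ ≃+* ℂ) (d : P.Fˣ)
    (hs : s (P.zp 1) = P.zp d) :
    P.Ps c (P.tw (P.diagG (P.dg d)) X) = MvPowerSeries.map (s : ℂ →+* ℂ) (P.Ps c X) := by
  unfold Ps
  rw [map_mul, P.map_Us _ s d hs
    (E' := fun a e b => P.ex c (P.tw (P.diagG (P.dg d)) X) (-(a : ℤ)) b e)
    fun a e b => PSym_ex_gal c X d (-(a : ℤ)) b e]
  congr 1
  unfold Pf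
  rw [map_prod]
  refine Finset.prod_congr rfl fun i _ => ?_
  rw [map_prod]
  refine (Finset.prod_equiv (Units.mulRight d) (fun b => by simp) fun b _ => ?_).symm
  have h1 : (s : ℂ →+* ℂ) (P.zp b) = P.zp (b * d) :=
    P.map_zp (φ := (s : ℂ →+* ℂ)) (ψ := RingHom.id ℂ) hs b
  rw [map_pow, map_sub, mono, mono, MvPowerSeries.map_monomial, MvPowerSeries.map_monomial, h1,
    map_one, Units.mulRight_apply, PSym_ex_gal]
  rfl

theorem CC_adjugate (c : P.D → ℤ → ℤ) (X : P.MF) : P.CC c X.adjugate = P.CC c X := by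
  unfold CC
  rw [Matrix.adjugate_fin_two]
  exact if_congr (by simp) rfl rfl

theorem CC_ne_zero (c : P.D → ℤ → ℤ) (X : P.MF) : P.CC c X ≠ 0 := by
  unfold CC
  split_ifs
  · exact zpow_ne_zero _ P.p_ne
  · exact one_ne_zero

theorem gf_neg (h : P.IsF 0 c) (X : P.MF) : P.gf c (-X) = P.gf c X := by
  have h1 : P.CC c (-X) = P.CC c X := if_congr (by simp) rfl rfl
  funext t₁ t₂
  unfold gf
  rw [h1, Ps_neg h]

theorem PSym_group (L : ℕ) (S : ℕ → ℤ) (hS : ∀ n, L < n → S n = 0) :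
    ∑ i ∈ Finset.Icc 1 L ×ˢ Finset.Icc 1 L, (i.1 : ℤ) * S (i.1 * i.2) =
      ∑ n ∈ Finset.Icc 1 L, (σ 1 n : ℤ) * S n := by
  rw [← Finset.sum_filter_of_ne (p := fun i : ℕ × ℕ => i.1 * i.2 ∈ Finset.Icc 1 L),
    ← Finset.sum_fiberwise_eq_sum_filter]
  · refine Finset.sum_congr rfl fun n hn => ?_
    rw [Finset.mem_Icc] at hn
    have h1 : (Finset.Icc 1 L ×ˢ Finset.Icc 1 L).filter (fun i : ℕ × ℕ => i.1 * i.2 = n) =
        n.divisorsAntidiagonal := by
      ext ⟨a, d⟩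
      simp only [Finset.mem_filter, Finset.mem_product, Finset.mem_Icc,
        Nat.mem_divisorsAntidiagonal]
      constructor
      · rintro ⟨-, h⟩
        exact ⟨h, by omega⟩
      · rintro ⟨h, h0⟩
        have ha : 0 < a := Nat.pos_of_ne_zero fun h' => h0 (by rw [← h, h', zero_mul])
        have hd : 0 < d := Nat.pos_of_ne_zero fun h' => h0 (by rw [← h, h', mul_zero])
        exact ⟨⟨⟨ha, (Nat.le_mul_of_pos_right a hd).trans (h.le.trans hn.2)⟩, hd,
          (Nat.le_mul_of_pos_left d ha).trans (h.le.trans hn.2)⟩, h⟩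
    rw [h1, Finset.sum_congr rfl (g := fun i => (i.1 : ℤ) * S n)
      (fun i hi => by rw [(Nat.mem_divisorsAntidiagonal.1 hi).1]), ← Finset.sum_mul,
      Nat.sum_divisorsAntidiagonal (fun a _ => (a : ℤ)), ArithmeticFunction.sigma_one_apply]
    push_cast
    rfl
  · intro i hi hne
    rw [Finset.mem_product, Finset.mem_Icc, Finset.mem_Icc] at hi
    refine Finset.mem_Icc.2 ⟨Nat.mul_pos hi.1.1 hi.2.1, not_lt.1 fun hlt => hne ?_⟩
    rw [hS _ hlt, mul_zero]

theorem xx_of_ne (h : P.IsF 0 c) {X : P.MF} (hX : X 1 0 ≠ 0) : P.xx c X = -(P.p * P.KK c) := by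
  have h1 : ∀ i : ℕ × ℕ, ∑ b, (i.1 : ℤ) * P.ex c X i.1 b i.2 =
      24 * P.p * ((i.1 : ℤ) * ∑ z, c (P.up z) (-(P.p ^ 2 * ((i.1 * i.2 : ℕ) : ℤ)))) := by
    intro i
    rw [Finset.mul_sum, Finset.mul_sum]
    refine Fintype.sum_bijective
      (fun b => ((i.1 : ℤ) : P.F) * X 1 1 + ((i.2 : ℤ) : P.F) * X 0 0 - b * X 1 0)
      (Finite.injective_iff_bijective.1 fun b b' e =>
        mul_right_cancel₀ hX (sub_right_injective e)) _ _ fun b => ?_
    unfold ex exU exI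
    rw [if_neg fun h' => hX h'.2.1, Nat.cast_mul]
    ring
  unfold xx KK mm box
  rw [if_neg hX, Finset.sum_congr rfl fun i _ => h1 i, ← Finset.mul_sum,
    PSym_group (P.lo c) (fun n => ∑ z, c (P.up z) (-(P.p ^ 2 * (n : ℤ)))) fun n hn =>
      Finset.sum_eq_zero fun z _ => PSym_lo h _ (by exact_mod_cast hn)]
  ring

theorem mm_nonneg (hp : P.Pos c) : 0 ≤ P.mm c := by
  have h1 : (0 : ℤ) < P.p := by exact_mod_cast P.prime.pos
  refine mul_nonneg (by norm_num) (Finset.sum_nonneg fun n hn => mul_nonneg (by positivity)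
    (Finset.sum_nonneg fun z _ => hp _ _ ?_))
  have h2 : (0 : ℤ) < n := by exact_mod_cast (Finset.mem_Icc.1 hn).1
  exact neg_lt_zero.2 (by positivity)

end Par

end

end Pool.Agent.P.MP_a60a76_nt.Sz
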