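import Pool.Agent.P.MP_a60a76_nt.Sz.HExU
import Pool.Agent.P.MP_a60a76_nt.Sz.HExI
import Pool.Agent.P.MP_a60a76_nt.Sz.PSym

namespace Pool.Agent.P.MP_a60a76_nt.Sz

open UpperHalfPlane MeasureTheory SP
open scoped MatrixGroups UpperHalfPlane Matrix Modular Topology Classical ArithmeticFunction.sigma

noncomputable section

/-! Expansion and size of the Hecke sums. -/

theorem HExp_summable {N : ℕ} {a : ℤ → ℂ} {f : ℍ → ℂ} (hN : 0 < N) (h : QS N a f) {M : ℤ}
    (hM : 0 < M) {y : ℝ} (hy : 0 < y) :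
    Summable fun α : ℤ => ‖a (-(M * α))‖ * Real.exp (2 * Real.pi * α * y) := by
  have hN' : (0 : ℝ) < N := by exact_mod_cast hN
  have hM' : (0 : ℝ) < M := by exact_mod_cast hM
  have h1 := h.summable_norm ⟨((y * N / M : ℝ) : ℂ) * Complex.I, by
    rw [Complex.mul_I_im, Complex.ofReal_re]; positivity⟩
  have inj : Function.Injective fun α : ℤ => -(M * α) := fun α β e =>
    mul_left_cancel₀ hM.ne' (neg_injective e)
  refine (h1.comp_injective inj).congr fun α => ?_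
  rw [Function.comp_apply]
  congr 2
  rw [← coe_im, coe_mk, Complex.mul_I_im, Complex.ofReal_re]
  push_cast
  field_simp

theorem HExp_split (F : ℕ × ℕ → ℂ) {p : ℕ} (hp : p.Prime) {N : ℕ} (hN : 0 < N) :
    ∑ x ∈ (p * N).divisorsAntidiagonal, F x = ∑ x ∈ N.divisorsAntidiagonal,
      (F (x.1, p * x.2) + if p ∣ x.2 then 0 else F (p * x.1, x.2)) := by
  have hp0 := hp.pos
  rw [Finset.sum_add_distrib, ← Finset.sum_filter_add_sum_filter_not _ fun x => p ∣ x.2]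
  congr 1
  · symm
    refine Finset.sum_bij (fun x _ => (x.1, p * x.2)) ?_ ?_ ?_ fun _ _ => rfl
    · intro x hx
      simp only [Nat.mem_divisorsAntidiagonal, Finset.mem_filter] at hx ⊢
      exact ⟨⟨by rw [← hx.1]; ring, by positivity⟩, dvd_mul_right _ _⟩
    · intro x _ y _ e
      simp only [Prod.mk.injEq] at e
      exact Prod.ext e.1 (Nat.eq_of_mul_eq_mul_left hp0 e.2)
    · intro x hx
      simp only [Nat.mem_divisorsAntidiagonal, Finset.mem_filter] at hx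
      obtain ⟨⟨h1, _⟩, E, hE⟩ := hx
      refine ⟨(x.1, E), Nat.mem_divisorsAntidiagonal.2 ⟨?_, hN.ne'⟩, Prod.ext rfl hE.symm⟩
      refine Nat.eq_of_mul_eq_mul_left hp0 ?_
      rw [← h1, hE]
      ring
  · simp only [← ite_not (_ ∣ _)]
    rw [← Finset.sum_filter]
    symm
    refine Finset.sum_bij (fun x _ => (p * x.1, x.2)) ?_ ?_ ?_ fun _ _ => rfl
    · intro x hx
      simp only [Nat.mem_divisorsAntidiagonal, Finset.mem_filter] at hx ⊢
      exact ⟨⟨by rw [← hx.1.1]; ring, by positivity⟩, hx.2⟩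
    · intro x _ y _ e
      simp only [Prod.mk.injEq] at e
      exact Prod.ext (Nat.eq_of_mul_eq_mul_left hp0 e.1) e.2
    · intro x hx
      simp only [Nat.mem_divisorsAntidiagonal, Finset.mem_filter] at hx
      obtain ⟨⟨h1, _⟩, h2⟩ := hx
      obtain ⟨A, hA⟩ := (hp.dvd_mul.1 (Dvd.intro N h1.symm)).resolve_right h2
      refine ⟨(A, x.2), Finset.mem_filter.2 ⟨Nat.mem_divisorsAntidiagonal.2 ⟨?_, hN.ne'⟩, h2⟩,
        Prod.ext hA.symm rfl⟩
      refine Nat.eq_of_mul_eq_mul_left hp0 ?_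
      rw [← h1, hA]
      ring

theorem HExp_det {n : ℕ} (hn : 0 < n) {Y : MZ} (hY : Y ∈ hnf n) : Y.det = n := by
  obtain ⟨h1, -, -, h2, -⟩ := (mem_hnf hn).1 hY
  rw [Matrix.det_fin_two, h1, h2, mul_zero, sub_zero]

namespace Par

variable {P : Par} {c : P.D → ℤ → ℤ}

theorem HH_smul (h : P.IsF 0 c) (g : SL(2, ℤ)) {N : ℕ} (hN : 0 < N) (τ : ℍ) :
    P.HH c N (g • τ) =
      (N : ℂ)⁻¹ * ∑ Y ∈ hnf (P.p * N), P.tm c (Y * (g⁻¹ : SL(2, ℤ))) (mob Y τ) := by
  have hn : 0 < P.p * N := Nat.mul_pos P.prime.pos hN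
  have hn' : (0 : ℤ) < (P.p * N : ℕ) := by exact_mod_cast hn
  rw [HH, ← sum_hnf_mul hn (φ := fun Y => P.tm c (Y * (g⁻¹ : SL(2, ℤ))) (mob Y τ)) _ g]
  · congr 1
    refine Finset.sum_congr rfl fun Y hY => ?_
    have e : ((g : MZ) * (g⁻¹ : SL(2, ℤ)) : MZ) = 1 := by
      rw [← Matrix.SpecialLinearGroup.coe_mul, mul_inv_cancel, Matrix.SpecialLinearGroup.coe_one]
    rw [Matrix.mul_assoc, e, Matrix.mul_one, mob_mul (HExp_det hn hY ▸ hn') (sl_det_pos g), mob_sl]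
  · intro γ Y hY
    rw [mob_mul (sl_det_pos γ) (hY ▸ hn'), mob_sl, Matrix.mul_assoc, h.tm_smul]

theorem HExp_norm (b : P.F) (α : ℤ) (τ : ℍ) (A : ℕ) :
    ‖(P.zp (-b) * ee (-α * τ / P.p)) ^ A‖ = Real.exp (2 * Real.pi * α * (A * τ.im / P.p)) := by
  have e : (-α * τ / P.p : ℂ).im = -α * τ.im / P.p := by
    rw [show (-α * τ / P.p : ℂ) = τ * ((-α / P.p : ℝ) : ℂ) by push_cast; ring,
      Complex.im_mul_ofReal, coe_im]
    ring
  rw [norm_pow, norm_mul, norm_zp, one_mul, norm_ee, e, ← Real.exp_nat_mul]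
  congr 1
  ring

theorem summable_ex (h : P.IsF 0 c) (X : P.MF) {A E : ℕ} (hA : 0 < A) (hE : 0 < E) (b : P.F)
    (τ : ℍ) : Summable fun α : ℤ => (P.ex c X α b E : ℂ) *
      (P.zp (-b) * ee (-α * τ / P.p)) ^ A := by
  have hp := P.p_pos
  have hp2 : 0 < P.p ^ 2 := pow_pos P.prime.pos 2
  have hp0 : (0 : ℤ) < P.p := by exact_mod_cast P.prime.pos
  have hy : 0 < A * τ.im / P.p := by
    have := τ.im_pos
    positivity
  have s1 := summable_sum (s := Finset.univ) fun k _ =>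
    HExp_summable hp2 (h.qs k) (M := E) (by exact_mod_cast hE) hy
  have s2 := summable_sum (s := Finset.univ) fun k _ =>
    HExp_summable hp2 (h.qs k) (M := P.p ^ 2 * E) (by positivity) hy
  refine Summable.of_norm_bounded
    ((s1.mul_left (12 * P.p : ℝ)).add (s2.mul_left (24 * P.p : ℝ))) fun α => ?_
  rw [norm_mul, HExp_norm, ← Finset.sum_mul, ← Finset.sum_mul, ← mul_assoc, ← mul_assoc, ← add_mul]
  refine mul_le_mul_of_nonneg_right ?_ (Real.exp_pos _).le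
  rw [ex, Int.cast_add]
  refine (norm_add_le _ _).trans (add_le_add ?_ ?_)
  · rw [exU]
    split_ifs
    · push_cast
      rw [norm_mul, norm_mul, Complex.norm_natCast, Complex.norm_ofNat, mul_comm α]
      exact mul_le_mul_of_nonneg_left (norm_sum_le _ _) (by positivity)
    · rw [Int.cast_zero, norm_zero]
      positivity
  · rw [exI]
    push_cast
    rw [norm_mul, norm_mul, Complex.norm_natCast, Complex.norm_ofNat, mul_comm α, ← mul_assoc]
    exact mul_le_mul_of_nonneg_left (Finset.single_le_sum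
      (f := fun k => ‖(c k (-(P.p ^ 2 * E * α)) : ℂ)‖) (fun _ _ => norm_nonneg _)
      (Finset.mem_univ _)) (by positivity)

theorem HH_expand (h : P.IsF 0 c) (g : SL(2, ℤ)) {N : ℕ} (hN : 0 < N) (τ : ℍ) :
    24 * P.p * P.HH c N (g • τ) = ∑ x ∈ N.divisorsAntidiagonal, (x.1 : ℂ)⁻¹ *
      ∑ b, ∑' α : ℤ, (P.ex c (P.Dm * red P.p g) α b x.2 : ℂ) *
        (P.zp (-b) * ee (-α * τ / P.p)) ^ x.1 := by
  rw [HH_smul h g hN, sum_hnf, HExp_split _ P.prime hN, mul_left_comm, Finset.mul_sum,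
    Finset.mul_sum]
  refine Finset.sum_congr rfl fun ⟨A, E⟩ hx => ?_
  have hAE : A * E = N := (Nat.mem_divisorsAntidiagonal.1 hx).1
  have hA : 0 < A := Nat.pos_of_mul_pos_right (hAE ▸ hN)
  have hE : 0 < E := Nat.pos_of_mul_pos_left (hAE ▸ hN)
  have hA' : (A : ℂ) ≠ 0 := by exact_mod_cast hA.ne'
  have hE' : (E : ℂ) ≠ 0 := by exact_mod_cast hE.ne'
  have sI := hexI h g hA hE τ
  have sU : HasSum (fun α : ℤ => (E : ℂ) * ∑ b, (P.exU c (P.Dm * red P.p g) α b E : ℂ) *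
        (P.zp (-b) * ee (-α * τ / P.p)) ^ A)
      (24 * P.p * if P.p ∣ E then 0 else ∑ B ∈ Finset.range E,
        P.tm c (!![((P.p * A : ℕ) : ℤ), (B : ℤ); 0, (E : ℤ)] * (g⁻¹ : SL(2, ℤ)))
          (mob !![((P.p * A : ℕ) : ℤ), (B : ℤ); 0, (E : ℤ)] τ)) := by
    split_ifs with hpE
    · simp only [exU_of_dvd c _ _ _ hpE, Int.cast_zero, zero_mul, Finset.sum_const_zero, mul_zero]
      exact hasSum_zero
    · exact hexU h g hA hE hpE τ
  have s := (hasSum_sum (s := Finset.univ) fun b _ =>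
    (summable_ex h (P.Dm * red P.p g) hA hE b τ).hasSum).mul_left (E : ℂ)
  have e := s.unique ((sI.add sU).congr_fun fun α => by
    simp only [ex, Int.cast_add, add_mul, Finset.sum_add_distrib]
    ring)
  dsimp only
  rw [mul_add (24 * P.p : ℂ), ← e, ← hAE, Nat.cast_mul, mul_inv, mul_assoc,
    inv_mul_cancel_left₀ hE']

theorem HExp_qs (h : P.IsF 0 c) (X : P.MF) {A E : ℕ} (hA : 0 < A) (hE : 0 < E) (b : P.F) :
    ∃ a, QS P.p a fun τ => ∑' α : ℤ, (P.ex c X α b E : ℂ) *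
      (P.zp (-b) * ee (-α * τ / P.p)) ^ A := by
  have hA' : (0 : ℤ) < A := by exact_mod_cast hA
  have hE' : (0 : ℤ) < E := by exact_mod_cast hE
  have inj : Function.Injective fun α : ℤ => -(A * α) := fun α β e =>
    mul_left_cancel₀ hA'.ne' (neg_injective e)
  refine ⟨Function.extend (fun α : ℤ => -(A * α))
    (fun α => (P.ex c X α b E : ℂ) * P.zp (-b) ^ A) 0, ⟨-(A * P.lo c), fun ν hν => ?_⟩, fun τ => ?_⟩
  · by_cases h1 : ∃ α : ℤ, -(A * α) = ν
    · obtain ⟨α, rfl⟩ := h1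
      have h2 : (P.lo c : ℤ) < α := lt_of_mul_lt_mul_left (neg_lt_neg_iff.1 hν) hA'.le
      have h3 : (P.lo c : ℤ) < α * E := by
        have : (0 : ℤ) ≤ P.lo c := Int.natCast_nonneg _
        nlinarith
      rw [inj.extend_apply, ex_eq_zero h X h3, Int.cast_zero, zero_mul]
    · rw [Function.extend_apply' _ _ _ h1, Pi.zero_apply]
  · refine (inj.hasSum_iff fun ν hν => ?_).1
      ((summable_ex h X hA hE b τ).hasSum.congr_fun fun α => ?_)
    · rw [Function.extend_apply' _ _ _ hν, Pi.zero_apply, zero_mul]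
    · rw [Function.comp_apply, inj.extend_apply, mul_pow, ← ee_nat_mul, mul_assoc]
      congr 3
      push_cast
      ring

theorem HH_qs (h : P.IsF 0 c) (g : SL(2, ℤ)) (N : ℕ) :
    ∃ a, QS P.p a fun τ => P.HH c N (g • τ) := by
  rcases N.eq_zero_or_pos with rfl | hN
  · exact ⟨_, (QS.single P.p 0 0).congr (fun _ => rfl) fun τ => by simp [HH]⟩
  have key : ∀ x : ℕ × ℕ, ∀ b : P.F, ∃ a, x ∈ N.divisorsAntidiagonal →
      QS P.p a fun τ => ∑' α : ℤ, (P.ex c (P.Dm * red P.p g) α b x.2 : ℂ) *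
        (P.zp (-b) * ee (-α * τ / P.p)) ^ x.1 := by
    intro x b
    by_cases hx : x ∈ N.divisorsAntidiagonal
    · have hAE : x.1 * x.2 = N := (Nat.mem_divisorsAntidiagonal.1 hx).1
      obtain ⟨a, ha⟩ := HExp_qs h (P.Dm * red P.p g) (Nat.pos_of_mul_pos_right (hAE ▸ hN))
        (Nat.pos_of_mul_pos_left (hAE ▸ hN)) b
      exact ⟨a, fun _ => ha⟩
    · exact ⟨0, fun h1 => absurd h1 hx⟩
  choose a ha using key
  have h1 := (QS.finset_sum N.divisorsAntidiagonal fun x hx =>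
    (QS.finset_sum Finset.univ fun b _ => ha x b hx).const_mul (x.1 : ℂ)⁻¹).const_mul
      (24 * P.p : ℂ)⁻¹
  refine ⟨_, h1.congr (fun _ => rfl) fun τ => ?_⟩
  have hp := P.p_ne
  rw [← HH_expand h g hN τ]
  field_simp

theorem HH_bound (h : P.IsF 0 c) (τ : ℍ) :
    ∃ C : ℝ, 0 ≤ C ∧ ∀ N, ‖P.HH c N τ‖ ≤ C * Real.exp (C * N) := by
  obtain ⟨C, a, hC, ha, hb⟩ := h.bound
  have hp := P.p_pos
  have hy := τ.im_pos
  obtain ⟨u, hu⟩ : ∃ u : ℝ, u = P.p * (τ.im + τ.im⁻¹) := ⟨_, rfl⟩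
  have hu0 : 0 ≤ u := by rw [hu]; positivity
  refine ⟨C * P.p ^ 2 + (1 + a * u), by positivity, fun N => ?_⟩
  rcases N.eq_zero_or_pos with rfl | hN
  · simp only [HH, Nat.cast_zero, inv_zero, zero_mul, norm_zero]
    positivity
  have hn : 0 < P.p * N := Nat.mul_pos P.prime.pos hN
  have hN' : (0 : ℝ) < N := by exact_mod_cast hN
  have h1 : ∀ Y ∈ hnf (P.p * N), ‖P.tm c Y (mob Y τ)‖ ≤ C * Real.exp (a * (u * N)) := by
    intro Y hY
    have hd := HExp_det hn hY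
    obtain ⟨h0, hA, hE, hAE, -⟩ := (mem_hnf hn).1 hY
    have hA' : (1 : ℝ) ≤ Y 0 0 := by exact_mod_cast hA
    have hE' : (1 : ℝ) ≤ Y 1 1 := by exact_mod_cast hE
    have hAE' : (Y 0 0 : ℝ) * Y 1 1 = P.p * N := by exact_mod_cast hAE
    have him : (mob Y τ).im = Y 0 0 * τ.im / Y 1 1 := by
      rw [im_mob (hd ▸ by exact_mod_cast hn), dn, h0, hd, ← hAE]
      simp only [Int.cast_zero, zero_mul, zero_add, Complex.normSq_intCast]
      push_cast
      field_simp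
    have e : u * N = Y 0 0 * Y 1 1 * τ.im + Y 0 0 * Y 1 1 * τ.im⁻¹ := by
      rw [hAE', hu]
      ring
    have hi : 0 < τ.im⁻¹ := inv_pos.2 hy
    have hB : ∀ g : SL(2, ℤ), (g • mob Y τ).im ≤ u * N := by
      intro g
      refine (im_smul_le_max g _).trans (max_le ?_ ?_)
      · rw [him, e]
        have h2 : Y 0 0 * τ.im / Y 1 1 ≤ Y 0 0 * τ.im := div_le_self (by positivity) hE'
        have h3 : Y 0 0 * τ.im * 1 ≤ Y 0 0 * τ.im * Y 1 1 :=
          mul_le_mul_of_nonneg_left hE' (by positivity)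
        have h4 : 0 ≤ Y 0 0 * Y 1 1 * τ.im⁻¹ := by positivity
        linarith
      · rw [him, e, show ((Y 0 0 : ℝ) * τ.im / Y 1 1)⁻¹ = Y 1 1 * τ.im⁻¹ / Y 0 0 by field_simp]
        have h2 : Y 1 1 * τ.im⁻¹ / Y 0 0 ≤ Y 1 1 * τ.im⁻¹ := div_le_self (by positivity) hA'
        have h3 : Y 1 1 * τ.im⁻¹ * 1 ≤ Y 1 1 * τ.im⁻¹ * Y 0 0 :=
          mul_le_mul_of_nonneg_left hA' (by positivity)
        have h4 : 0 ≤ Y 0 0 * Y 1 1 * τ.im := by positivity
        linarith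
    rw [tm]
    split_ifs
    · exact (hb _ _ hB).1 _
    · rw [norm_zero]
      positivity
  have h2 : ‖∑ Y ∈ hnf (P.p * N), P.tm c Y (mob Y τ)‖ ≤
      (P.p * N) ^ 2 * (C * Real.exp (a * (u * N))) := by
    refine (norm_sum_le _ _).trans ((Finset.sum_le_card_nsmul _ _ _ h1).trans ?_)
    rw [nsmul_eq_mul]
    refine mul_le_mul_of_nonneg_right ?_ (by positivity)
    exact_mod_cast card_hnf_le (P.p * N)
  have h3 : (N : ℝ) ≤ Real.exp N := by linarith [Real.add_one_le_exp (N : ℝ)]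
  rw [HH, norm_mul, norm_inv, Complex.norm_natCast]
  calc (N : ℝ)⁻¹ * ‖∑ Y ∈ hnf (P.p * N), P.tm c Y (mob Y τ)‖
      ≤ (N : ℝ)⁻¹ * ((P.p * N) ^ 2 * (C * Real.exp (a * (u * N)))) := by gcongr
    _ = C * P.p ^ 2 * (N * Real.exp (a * (u * N))) := by field_simp
    _ ≤ C * P.p ^ 2 * (Real.exp N * Real.exp (a * (u * N))) := by gcongr
    _ = C * P.p ^ 2 * Real.exp ((1 + a * u) * N) := by
      rw [← Real.exp_add]
      congr 2
      ring
    _ ≤ _ := by
      have : 0 ≤ C * P.p ^ 2 := by positivity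
      have : 0 ≤ 1 + a * u := by positivity
      refine mul_le_mul (by linarith) (Real.exp_le_exp.2 ?_) (Real.exp_pos _).le (by positivity)
      exact mul_le_mul_of_nonneg_right (by linarith) hN'.le

end Par

end

end Pool.Agent.P.MP_a60a76_nt.Sz
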