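import Pool.Agent.P.MP_a60a76_nt.Sz.Cos

namespace Pool.Agent.P.MP_a60a76_nt.Sz

open UpperHalfPlane MeasureTheory SP
open scoped MatrixGroups UpperHalfPlane Matrix Modular Topology Classical ArithmeticFunction.sigma

noncomputable section

/-! Unfolding. -/

variable {χ : ℍ → ℝ}

theorem measurableSet_strip : MeasurableSet strip :=
  (measurableSet_Ico (a := (0 : ℝ)) (b := 1)).preimage continuous_re.measurable

theorem measurePreserving_smul (g : SL(2, ℤ)) :
    MeasurePreserving (fun τ : ℍ => g • τ) volume volume :=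
  MeasureTheory.measurePreserving_smul (Matrix.SpecialLinearGroup.mapGL ℝ g) (volume : Measure ℍ)

/-- Real coordinates. -/
def Unf_c (τ : ℍ) : ℝ × ℝ := (τ.re, τ.im)

/-- The measure `dy / y ^ 2`. -/
def Unf_nu : Measure ℝ :=
  (volume.restrict (Set.Ioi (0 : ℝ))).withDensity fun y => ENNReal.ofReal ((y ^ 2)⁻¹)

instance Unf_sfinite : SFinite Unf_nu := by unfold Unf_nu; infer_instance

theorem Unf_emb : MeasurableEmbedding Unf_c :=
  Complex.measurableEquivRealProd.measurableEmbedding.comp measurableEmbedding_coe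

theorem Unf_mw : Measurable fun y : ℝ => ENNReal.ofReal ((y ^ 2)⁻¹) := by fun_prop

theorem Unf_mp : MeasurePreserving Unf_c volume ((volume : Measure ℝ).prod Unf_nu) := by
  refine ⟨Unf_emb.measurable, Measure.ext fun A hA => ?_⟩
  rw [Measure.map_apply Unf_emb.measurable hA, volume_eq_lintegral, Unf_nu,
    prod_withDensity_right Unf_mw, withDensity_apply _ hA,
    ← Measure.restrict_univ (μ := (volume : Measure ℝ)), Measure.restrict_restrict measurableSet_Ioi,
    Measure.prod_restrict, Measure.restrict_restrict hA, Set.inter_univ]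
  have h := Complex.volume_preserving_equiv_real_prod.setLIntegral_comp_preimage_emb
    Complex.measurableEquivRealProd.measurableEmbedding
    (fun z : ℝ × ℝ => ENNReal.ofReal ((z.2 ^ 2)⁻¹)) (A ∩ Set.univ ×ˢ Set.Ioi 0)
  have e : UpperHalfPlane.coe '' (Unf_c ⁻¹' A) =
      Complex.measurableEquivRealProd ⁻¹' (A ∩ Set.univ ×ˢ Set.Ioi 0) := by
    ext z
    constructor
    · rintro ⟨τ, hτ, rfl⟩
      exact ⟨hτ, trivial, τ.im_pos⟩
    · rintro ⟨h1, -, h2⟩
      exact ⟨⟨z, h2⟩, h1, rfl⟩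
  rw [e]
  refine Eq.trans (lintegral_congr fun z => ?_) h
  rw [ENNReal.ofReal, ENNReal.coe_inj]
  ext
  rw [Real.coe_toNNReal _ (by positivity)]
  simp

theorem Unf_pre (s : Set ℝ) :
    strip ∩ {τ | τ.im ∈ s} = Unf_c ⁻¹' (Set.Ico 0 1 ×ˢ s) := rfl

/-- Integrals over the strip in coordinates. -/
theorem integral_strip {f : ℍ → ℂ} {s : Set ℝ} (hs : MeasurableSet s) (hs0 : s ⊆ Set.Ioi 0)
    (hf : IntegrableOn f (strip ∩ {τ | τ.im ∈ s})) :
    ∫ τ in strip ∩ {τ | τ.im ∈ s}, f τ = ∫ y in s, ((y : ℂ) ^ 2)⁻¹ * CT y f := by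
  set F : ℝ × ℝ → ℂ := fun p => f (ofComplex (p.1 + p.2 * Complex.I)) with hF
  have e : f = F ∘ Unf_c := by
    funext τ
    simp only [hF, Unf_c, Function.comp]
    rw [← coe_re, ← coe_im, Complex.re_add_im, ofComplex_apply]
  rw [Unf_pre] at hf ⊢
  have h1 := Unf_mp.setIntegral_preimage_emb Unf_emb F (Set.Ico 0 1 ×ˢ s)
  have h2 := (Unf_mp.integrableOn_comp_preimage Unf_emb (f := F) (s := Set.Ico 0 1 ×ˢ s)).1
    (e ▸ hf)
  have h3 : ∫ τ in Unf_c ⁻¹' (Set.Ico 0 1 ×ˢ s), f τ =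
      ∫ τ in Unf_c ⁻¹' (Set.Ico 0 1 ×ˢ s), F (Unf_c τ) := by rw [e]; rfl
  rw [h3, h1, ← Measure.prod_restrict]
  rw [IntegrableOn, ← Measure.prod_restrict] at h2
  rw [integral_prod_symm _ h2, Unf_nu,
    setIntegral_withDensity_eq_setIntegral_toReal_smul Unf_mw (by simp) _ hs,
    Measure.restrict_restrict hs, Set.inter_eq_left.2 hs0]
  refine setIntegral_congr_fun hs fun y _ => ?_
  simp only [hF, CT]
  rw [ENNReal.toReal_ofReal (by positivity), intervalIntegral.integral_of_le zero_le_one,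
    integral_Ioc_eq_integral_Ioo, integral_Ico_eq_integral_Ioo, Complex.real_smul]
  push_cast
  rfl

theorem lintegral_strip {φ : ℝ → ENNReal} (hφ : Measurable φ) :
    ∫⁻ τ in strip, φ τ.im = ∫⁻ y in Set.Ioi (0 : ℝ), φ y * ENNReal.ofReal ((y ^ 2)⁻¹) := by
  have h1 := Unf_mp.setLIntegral_comp_preimage_emb Unf_emb (fun p => φ p.2)
    (Set.Ico 0 1 ×ˢ Set.univ)
  have e : strip = Unf_c ⁻¹' (Set.Ico 0 1 ×ˢ Set.univ) := by
    rw [← Unf_pre]
    simp
  rw [e]
  refine h1.trans ?_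
  rw [← Measure.prod_restrict,
    lintegral_prod_symm (fun p : ℝ × ℝ => φ p.2) (hφ.comp measurable_snd).aemeasurable]
  simp only [lintegral_const, Measure.restrict_univ, Measure.restrict_apply_univ, Real.volume_Ico,
    sub_zero, ENNReal.ofReal_one, mul_one]
  rw [Unf_nu, lintegral_withDensity_eq_lintegral_mul _ Unf_mw hφ]
  exact lintegral_congr fun y => mul_comm _ _

theorem integrableOn_strip {f : ℍ → ℂ} (hf : Continuous f) {a b : ℝ} (ha : 0 < a) :
    IntegrableOn f (strip ∩ {τ | τ.im ∈ Set.Icc a b}) := by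
  have hK : IsCompact (UpperHalfPlane.coe ⁻¹' (Set.Icc (0 : ℝ) 1 ×ℂ Set.Icc a b)) := by
    refine isOpenEmbedding_coe.isInducing.isCompact_preimage' (isCompact_Icc.reProdIm isCompact_Icc)
      fun z hz => ⟨⟨z, ha.trans_le hz.2.1⟩, rfl⟩
  exact (hf.continuousOn.integrableOn_compact hK).mono_set fun τ hτ =>
    ⟨⟨hτ.1.1, hτ.1.2.le⟩, hτ.2⟩

theorem IsChi.Unf_cont (h : IsChi χ) : Continuous χ := by
  have h1 : Continuous fun τ : ℍ => ((fun τ => (χ τ : ℂ)) ∘ ofComplex) (τ : ℂ) :=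
    h.c1.continuousOn.comp_continuous continuous_coe fun τ => τ.im_pos
  simp only [Function.comp, ofComplex_apply] at h1
  exact Complex.continuous_re.comp h1

theorem Unf_ps_ind (χ : ℍ → ℝ) : ps χ = strip.indicator χ := by
  funext τ
  rw [ps, Set.indicator_apply]

theorem IsChi.measurable_ps (h : IsChi χ) : Measurable (ps χ) := by
  rw [Unf_ps_ind]
  exact h.Unf_cont.measurable.indicator measurableSet_strip

theorem IsChi.ps_nonneg (h : IsChi χ) (τ : ℍ) : 0 ≤ ps χ τ ∧ ps χ τ ≤ 1 := by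
  unfold ps
  split_ifs
  · exact ⟨h.nonneg τ, h.le_one τ⟩
  · exact ⟨le_rfl, zero_le_one⟩

theorem Unf_per {α : Type} {φ : ℍ → α} (hp : ∀ τ, φ (ModularGroup.T • τ) = φ τ) (n : ℤ) (τ : ℍ) :
    φ (ModularGroup.T ^ n • τ) = φ τ := by
  induction n using Int.induction_on generalizing τ with
  | zero => simp
  | succ n ih => rw [zpow_add_one, mul_smul, ih, hp]
  | pred n ih =>
    rw [zpow_sub_one, mul_smul, ih, ← hp (ModularGroup.T⁻¹ • τ), smul_inv_smul]

theorem Unf_mem (n : ℤ) (τ : ℍ) : ModularGroup.T ^ n • τ ∈ strip ↔ n = -⌊τ.re⌋ := by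
  have h : (ModularGroup.T ^ n • τ).re = τ.re + n := by
    rw [← coe_re, coe_T_zpow_smul]
    simp
  have h2 : n = -⌊τ.re⌋ ↔ ⌊τ.re⌋ = -n := by omega
  rw [h2, Int.floor_eq_iff, strip, Set.mem_ofPred_eq, h]
  push_cast
  constructor <;> rintro ⟨h1, h2⟩ <;> constructor <;> linarith

theorem Unf_hasSum {E : Type} [AddCommMonoid E] [TopologicalSpace E] (τ : ℍ) {F : SL(2, ℤ) → E}
    (hF : ∀ (n : ℤ) g, F (ModularGroup.T ^ n * g) = F g) {a : E}
    (h : HasSum (fun x : CP => F (gam x)) a) :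
    HasSum (fun g : SL(2, ℤ) => if g • τ ∈ strip then F g else 0) a := by
  set ι : CP → SL(2, ℤ) := fun x => ModularGroup.T ^ (-⌊(gam x • τ).re⌋) * gam x with hι
  have hi : Function.Injective ι := fun x y hxy =>
    congrArg Prod.snd (gam_bijective.1 (a₁ := (_, x)) (a₂ := (_, y)) hxy)
  rw [← hi.hasSum_iff]
  · convert h using 2 with x
    simp only [Function.comp, hι]
    rw [if_pos (by rw [mul_smul, Unf_mem]), hF]
  · intro g hg
    rw [if_neg]
    intro hs
    obtain ⟨n, x, -, rfl⟩ := exists_gam g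
    rw [mul_smul, Unf_mem] at hs
    exact hg ⟨x, by rw [hι, hs]⟩

theorem IsChi.hasSum_ps (h : IsChi χ) (τ : ℍ) :
    HasSum (fun g : SL(2, ℤ) => ps χ (g • τ)) 2 :=
  Unf_hasSum τ (F := fun g => χ (g • τ)) (fun n g => by rw [mul_smul, Unf_per h.per]) (h.sum τ)

theorem Unf_row (n : ℤ) (g : SL(2, ℤ)) : (ModularGroup.T ^ n * g) 1 0 = g 1 0 := by
  simp

theorem Unf_upper {α : Type} {φ : ℍ → α} (hp : ∀ τ, φ (ModularGroup.T • τ) = φ τ) {g : SL(2, ℤ)}
    (hg : g 1 0 = 0) (τ : ℍ) : φ (g • τ) = φ τ := by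
  obtain ⟨n, h⟩ := ModularGroup.exists_eq_T_zpow_of_c_eq_zero hg
  rw [h, Unf_per hp]

/-- The trivial coset. -/
def Unf_e : CP := ⟨![0, 1], isCoprime_one_right⟩

/-- Its negative. -/
def Unf_e' : CP := ⟨![0, -1], isCoprime_one_right.neg_right⟩

/-- The two cosets fixing the cusp. -/
def Unf_pm : Finset CP := {Unf_e, Unf_e'}

theorem Unf_mem_pm (x : CP) : x ∈ Unf_pm ↔ x.1 0 = 0 := by
  simp only [Unf_pm, Finset.mem_insert, Finset.mem_singleton]
  constructor
  · rintro (rfl | rfl) <;> rfl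
  · intro h0
    have h := x.2
    rw [h0, isCoprime_zero_left, Int.isUnit_iff] at h
    refine h.imp (fun h => Subtype.ext ?_) fun h => Subtype.ext ?_ <;>
    · funext i
      fin_cases i <;> simp [h0, h, Unf_e, Unf_e']

theorem Unf_card_pm : Unf_pm.card = 2 := by
  refine Finset.card_pair fun h => ?_
  have := congrArg (fun x : CP => x.1 1) h
  simp [Unf_e, Unf_e'] at this

theorem IsChi.hasSum_ps_ne (h : IsChi χ) (τ : ℍ) :
    HasSum (fun g : SL(2, ℤ) => if g 1 0 = 0 then 0 else ps χ (g • τ)) (2 - 2 * χ τ) := by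
  have h1 : HasSum (fun x : CP => if x.1 0 = 0 then χ τ else 0) (2 * χ τ) := by
    have := hasSum_sum_of_ne_finset_zero (s := Unf_pm) (L := .unconditional _)
      (f := fun x : CP => if x.1 0 = 0 then χ τ else 0)
      fun x hx => if_neg fun h0 => hx ((Unf_mem_pm x).2 h0)
    rwa [Finset.sum_congr rfl fun x hx => if_pos ((Unf_mem_pm x).1 hx), Finset.sum_const,
      Unf_card_pm, nsmul_eq_mul, Nat.cast_ofNat] at this
  have h2 := Unf_hasSum τ (F := fun g => if g 1 0 = 0 then 0 else χ (g • τ))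
    (fun n g => by rw [Unf_row, mul_smul, Unf_per h.per]) (a := 2 - 2 * χ τ) (by
      convert! (h.sum τ).sub h1 using 2 with x
      rw [(gam_row x).1]
      split_ifs with h0
      · rw [Unf_upper h.per ((gam_row x).1.trans h0), sub_self]
      · rw [sub_zero])
  convert h2 using 2 with g
  unfold ps
  split_ifs <;> rfl

section General

variable {E : Type} [NormedAddCommGroup E] [NormedSpace ℝ E]

theorem Unf_gen {ι : Type} [Countable ι] {w : ι → ℍ → ℝ} {W : ℍ → ℝ}
    (hm : ∀ i, Measurable (w i)) (h0 : ∀ i τ, 0 ≤ w i τ)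
    (hs : ∀ τ, HasSum (fun i => w i τ) (W τ)) {φ : ℍ → E} (hφ : AEStronglyMeasurable φ volume)
    (hI : Integrable fun τ => W τ • φ τ) :
    (∀ i, Integrable fun τ => w i τ • φ τ) ∧
    HasSum (fun i => ∫ τ, w i τ • φ τ) (∫ τ, W τ • φ τ) := by
  have hW : ∀ τ, 0 ≤ W τ := fun τ => (hs τ).nonneg fun i => h0 i τ
  have h1 : ∀ i, Integrable fun τ => w i τ • φ τ := fun i =>
    hI.mono ((hm i).aestronglyMeasurable.smul hφ) (ae_of_all _ fun τ => by
      rw [norm_smul, norm_smul, Real.norm_of_nonneg (h0 i τ), Real.norm_of_nonneg (hW τ)]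
      exact mul_le_mul_of_nonneg_right (le_hasSum (hs τ) i fun j _ => h0 j τ) (norm_nonneg _))
  refine ⟨h1, ?_⟩
  have h2 : Summable fun i => ∫ τ, ‖w i τ • φ τ‖ := by
    refine summable_of_sum_le (c := ∫ τ, ‖W τ • φ τ‖)
      (fun i => integral_nonneg fun τ => norm_nonneg _) fun s => ?_
    rw [← integral_finsetSum s fun i _ => (h1 i).norm]
    refine integral_mono (integrable_finsetSum s fun i _ => (h1 i).norm) hI.norm fun τ => ?_
    simp only [norm_smul, Real.norm_of_nonneg (h0 _ τ), Real.norm_of_nonneg (hW τ)]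
    rw [← Finset.sum_mul]
    exact mul_le_mul_of_nonneg_right (sum_le_hasSum s (fun j _ => h0 j τ) (hs τ)) (norm_nonneg _)
  have h3 := hasSum_integral_of_summable_integral_norm h1 h2
  simp only [fun τ => ((hs τ).smul_const (φ τ)).tsum_eq] at h3
  exact h3

theorem Unf_cts (g : SL(2, ℤ)) : Continuous fun τ : ℍ => g • τ :=
  continuous_const_smul (Matrix.SpecialLinearGroup.mapGL ℝ g)

theorem Unf_memb (g : SL(2, ℤ)) : MeasurableEmbedding fun τ : ℍ => g • τ :=
  (Homeomorph.smul (α := ℍ) (Matrix.SpecialLinearGroup.mapGL ℝ g)).measurableEmbedding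

theorem Unf_countable : Countable SL(2, ℤ) := gam_bijective.2.countable

theorem IsChi.Unf_grp (h : IsChi χ) (c : SL(2, ℤ) → Prop) [DecidablePred c]
    (hc : ∀ g, c g⁻¹ ↔ c g) {W : ℍ → ℝ}
    (hs : ∀ τ, HasSum (fun g : SL(2, ℤ) => if c g then 0 else ps χ (g • τ)) (W τ)) {φ : ℍ → E}
    (hφ : AEStronglyMeasurable φ volume) (hI : Integrable fun τ => W τ • φ τ) :
    (∀ g, ¬ c g → Integrable fun τ => ps χ τ • φ (g • τ)) ∧
    HasSum (fun g : SL(2, ℤ) => if c g then 0 else ∫ τ, ps χ τ • φ (g • τ))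
      (∫ τ, W τ • φ τ) := by
  have := Unf_countable
  obtain ⟨h1, h2⟩ := Unf_gen (w := fun (g : SL(2, ℤ)) τ => if c g then 0 else ps χ (g⁻¹ • τ))
    (W := W) (fun g => by
      split_ifs
      · exact measurable_const
      · exact h.measurable_ps.comp (Unf_memb _).measurable)
    (fun g τ => by
      split_ifs
      · exact le_rfl
      · exact (h.ps_nonneg _).1)
    (fun τ => by
      have := (Equiv.inv SL(2, ℤ)).hasSum_iff.2 (hs τ)
      simpa only [Function.comp_def, Equiv.inv_apply, hc] using this) hφ hI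
  refine ⟨fun g hg => ?_, ?_⟩
  · have := ((measurePreserving_smul g).integrable_comp_emb (Unf_memb g)).2 (h1 g)
    simpa only [Function.comp_def, if_neg hg, inv_smul_smul] using this
  · convert! h2 using 2 with g
    split_ifs
    · simp
    · rw [← (measurePreserving_smul g).integral_comp (Unf_memb g)
        fun τ => ps χ (g⁻¹ • τ) • φ τ]
      simp only [inv_smul_smul]

theorem IsChi.Unf_all (h : IsChi χ) {φ : ℍ → E} (hφ : Integrable φ) :
    (∀ g : SL(2, ℤ), Integrable fun τ => ps χ τ • φ (g • τ)) ∧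
    HasSum (fun g : SL(2, ℤ) => ∫ τ, ps χ τ • φ (g • τ)) ((2 : ℝ) • ∫ τ, φ τ) := by
  obtain ⟨h1, h2⟩ := h.Unf_grp (fun _ => False) (fun _ => Iff.rfl) (W := fun _ => 2)
    (fun τ => by simpa using h.hasSum_ps τ) hφ.1 (hφ.smul (2 : ℝ))
  refine ⟨fun g => h1 g not_false, ?_⟩
  rw [integral_smul] at h2
  simpa only [if_false] using h2

theorem IsChi.Unf_ne (h : IsChi χ) {φ : ℍ → E} (hc : Continuous φ)
    (hφ : IntegrableOn φ (strip ∩ {τ | τ.im ≤ 2})) :
    (∀ g : SL(2, ℤ), g 1 0 ≠ 0 → Integrable fun τ => ps χ τ • strip.indicator φ (g • τ)) ∧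
    HasSum (fun g : SL(2, ℤ) => if g 1 0 = 0 then 0 else
      ∫ τ, ps χ τ • strip.indicator φ (g • τ)) ((2 : ℝ) • ∫ τ in strip, (1 - χ τ) • φ τ) := by
  have hm : MeasurableSet (strip ∩ {τ : ℍ | τ.im ≤ 2}) :=
    measurableSet_strip.inter (measurableSet_le continuous_im.measurable measurable_const)
  have hA : AEStronglyMeasurable (strip.indicator φ) volume :=
    hc.aestronglyMeasurable.indicator measurableSet_strip
  have hI : Integrable fun τ => (2 - 2 * χ τ) • strip.indicator φ τ := by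
    refine (((integrable_indicator_iff hm).2 hφ).smul (2 : ℝ)).mono
      ((continuous_const.sub (continuous_const.mul h.Unf_cont)).aestronglyMeasurable.smul hA)
      (ae_of_all _ fun τ => ?_)
    by_cases h2 : τ.im ≤ 2
    · have e : (strip ∩ {τ : ℍ | τ.im ≤ 2}).indicator φ τ = strip.indicator φ τ := by
        simp [Set.indicator_apply, h2]
      have h3 := h.nonneg τ
      have h4 := h.le_one τ
      rw [Pi.smul_apply, e, norm_smul, norm_smul, Real.norm_of_nonneg (by linarith),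
        Real.norm_of_nonneg zero_le_two]
      exact mul_le_mul_of_nonneg_right (by linarith) (norm_nonneg _)
    · rw [h.high τ (not_le.1 h2).le, mul_one, sub_self, zero_smul, norm_zero]
      exact norm_nonneg _
  obtain ⟨h1, h2⟩ := h.Unf_grp (fun g => g 1 0 = 0)
    (fun g => by simp [Matrix.SpecialLinearGroup.SL2_inv_expl]) h.hasSum_ps_ne hA hI
  refine ⟨h1, ?_⟩
  convert! h2 using 1
  rw [← integral_smul, ← integral_indicator measurableSet_strip]
  refine integral_congr_ae (ae_of_all _ fun τ => ?_)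
  by_cases hτ : τ ∈ strip
  · simp only [Set.indicator_of_mem hτ, smul_smul, mul_sub, mul_one]
  · simp only [Set.indicator_of_notMem hτ, smul_zero]

theorem IsChi.Unf_cp (h : IsChi χ) {φ : ℍ → E} (hc : Continuous φ)
    (hp : ∀ τ, φ (ModularGroup.T • τ) = φ τ)
    (hφ : IntegrableOn φ (strip ∩ {τ | τ.im ≤ 2})) :
    (∀ x : CP, x.1 0 ≠ 0 → Integrable fun τ => ps χ τ • φ (gam x • τ)) ∧
    HasSum (fun x : CP => if x.1 0 = 0 then 0 else ∫ τ, ps χ τ • φ (gam x • τ))
      ((2 : ℝ) • ∫ τ in strip, (1 - χ τ) • φ τ) := by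
  obtain ⟨h1, h2⟩ := h.Unf_ne hc hφ
  obtain ⟨-, h3⟩ := h.Unf_ne hc.norm hφ.norm
  set A : CP → ℤ → Set ℍ := fun x n => {τ | (ModularGroup.T ^ n * gam x) • τ ∈ strip} with hA
  have hAm : ∀ x n, MeasurableSet (A x n) := fun x n =>
    measurableSet_strip.preimage (Unf_memb _).measurable
  have hAU : ∀ x, ⋃ n, A x n = Set.univ := fun x =>
    Set.eq_univ_of_forall fun τ => Set.mem_iUnion.2 ⟨_, by
      rw [hA, Set.mem_ofPred_eq, mul_smul, Unf_mem]⟩
  have hAd : ∀ x, Pairwise (Function.onFun Disjoint (A x)) := fun x n m hnm =>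
    Set.disjoint_left.2 fun τ hn hm => by
      rw [hA, Set.mem_ofPred_eq, mul_smul, Unf_mem] at hn hm
      exact hnm (hn.trans hm.symm)
  have e : ∀ x n, (fun τ => ps χ τ • strip.indicator φ ((ModularGroup.T ^ n * gam x) • τ)) =
      (A x n).indicator fun τ => ps χ τ • φ (gam x • τ) := fun x n => by
    funext τ
    by_cases hτ : τ ∈ A x n
    · rw [Set.indicator_of_mem hτ, Set.indicator_of_mem (s := strip) hτ, mul_smul, Unf_per hp]
    · rw [Set.indicator_of_notMem hτ, Set.indicator_of_notMem (s := strip) hτ, smul_zero]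
  have e' : ∀ x n, (fun τ => ps χ τ • strip.indicator (fun τ => ‖φ τ‖)
      ((ModularGroup.T ^ n * gam x) • τ)) =
      (A x n).indicator fun τ => ‖ps χ τ • φ (gam x • τ)‖ := fun x n => by
    funext τ
    by_cases hτ : τ ∈ A x n
    · rw [Set.indicator_of_mem hτ, Set.indicator_of_mem (s := strip) hτ, mul_smul, Unf_per hp,
        norm_smul, Real.norm_of_nonneg (h.ps_nonneg τ).1, smul_eq_mul]
    · rw [Set.indicator_of_notMem hτ, Set.indicator_of_notMem (s := strip) hτ, smul_zero]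
  have hrow : ∀ (x : CP) (n : ℤ), (ModularGroup.T ^ n * gam x) 1 0 = x.1 0 := fun x n => by
    rw [Unf_row, (gam_row x).1]
  have hI : ∀ x : CP, x.1 0 ≠ 0 → Integrable fun τ => ps χ τ • φ (gam x • τ) := fun x hx => by
    rw [← integrableOn_univ, ← hAU x]
    refine integrableOn_iUnion_of_summable_integral_norm (fun n => ?_) ?_
    · rw [← integrable_indicator_iff (hAm x n), ← e]
      exact h1 _ (by rwa [hrow])
    · have hi : Function.Injective fun n : ℤ => ModularGroup.T ^ n * gam x := fun n m hnm =>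
        congrArg Prod.fst (gam_bijective.1 (a₁ := (n, x)) (a₂ := (m, x)) hnm)
      refine (h3.summable.comp_injective hi).congr fun n => ?_
      simp only [Function.comp]
      rw [hrow, if_neg hx, e', integral_indicator (hAm x n)]
  refine ⟨hI, ?_⟩
  have h4 := ((Equiv.prodComm CP ℤ).trans (Equiv.ofBijective _ gam_bijective)).hasSum_iff.2 h2
  refine h4.prod_fiberwise fun x => ?_
  simp only [Function.comp, Equiv.trans_apply, Equiv.prodComm_apply, Prod.swap_prod_mk,
    Equiv.ofBijective_apply, hrow]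
  split_ifs with hx
  · exact hasSum_zero
  · have := hasSum_integral_iUnion (hAm x) (hAd x) (hI x hx).integrableOn
    rw [hAU, Measure.restrict_univ] at this
    simpa only [e, integral_indicator (hAm _ _)] using this

end General

/-- Unfolding over the whole group. -/
theorem IsChi.unfold (h : IsChi χ) {φ : ℍ → ℂ} (hφ : Integrable φ) :
    (∀ g : SL(2, ℤ), Integrable fun τ => (ps χ τ : ℂ) * φ (g • τ)) ∧
    HasSum (fun g : SL(2, ℤ) => ∫ τ, ‖(ps χ τ : ℂ) * φ (g • τ)‖) (2 * ∫ τ, ‖φ τ‖) ∧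
    HasSum (fun g : SL(2, ℤ) => ∫ τ, (ps χ τ : ℂ) * φ (g • τ)) (2 * ∫ τ, φ τ) := by
  obtain ⟨h1, h2⟩ := h.Unf_all hφ
  obtain ⟨-, h3⟩ := h.Unf_all hφ.norm
  refine ⟨h1, ?_, ?_⟩
  · simpa only [norm_mul, Complex.norm_real, Real.norm_of_nonneg (h.ps_nonneg _).1,
      smul_eq_mul] using h3
  · simpa only [Complex.real_smul, Complex.ofReal_ofNat] using h2

/-- Unfolding against the strip, without the identity coset. -/
theorem IsChi.unfold_cp (h : IsChi χ) {φ : ℍ → ℂ} (hc : Continuous φ)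
    (hp : ∀ τ, φ (ModularGroup.T • τ) = φ τ)
    (hφ : IntegrableOn φ (strip ∩ {τ | τ.im ≤ 2})) :
    (∀ x : CP, x.1 0 ≠ 0 → Integrable fun τ => (ps χ τ : ℂ) * φ (gam x • τ)) ∧
    HasSum (fun x : CP => if x.1 0 = 0 then 0 else ∫ τ, ‖(ps χ τ : ℂ) * φ (gam x • τ)‖)
      (2 * ∫ τ in strip, (1 - χ τ) * ‖φ τ‖) ∧
    HasSum (fun x : CP => if x.1 0 = 0 then 0 else ∫ τ, (ps χ τ : ℂ) * φ (gam x • τ))
      (2 * ∫ τ in strip, (1 - (χ τ : ℂ)) * φ τ) := by
  obtain ⟨h1, h2⟩ := h.Unf_cp hc hp hφ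
  obtain ⟨-, h3⟩ := h.Unf_cp hc.norm (fun τ => by rw [hp]) hφ.norm
  refine ⟨h1, ?_, ?_⟩
  · simpa only [norm_mul, Complex.norm_real, Real.norm_of_nonneg (h.ps_nonneg _).1,
      smul_eq_mul] using h3
  · simpa only [Complex.real_smul, Complex.ofReal_ofNat, Complex.ofReal_sub,
      Complex.ofReal_one] using h2

/-- A periodic function with compact support whose average vanishes has integral zero. -/
theorem IsChi.integral_eq_zero (h : IsChi χ) {m : ℍ → ℂ} (hc : Continuous m)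
    (hp : ∀ τ, m (ModularGroup.T • τ) = m τ) (h1 : ∀ τ, τ.im < 1 / 2 → m τ = 0)
    (h2 : ∀ τ, 2 < τ.im → m τ = 0) (h0 : ∀ τ, HasSum (fun x : CP => m (gam x • τ)) 0) :
    ∫ τ in strip, m τ = 0 := by
  have hI : Integrable (strip.indicator m) := by
    rw [integrable_indicator_iff measurableSet_strip]
    refine (integrableOn_strip hc (a := 1 / 2) (b := 2) one_half_pos).of_forall_sdiff_eq_zero
      measurableSet_strip fun τ hτ => ?_
    by_contra hm
    exact hτ.2 ⟨hτ.1, not_lt.1 fun h => hm (h1 τ h), not_lt.1 fun h => hm (h2 τ h)⟩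
  obtain ⟨h3, h4, h5⟩ := h.unfold hI
  have := Unf_countable
  have h6 := hasSum_integral_of_summable_integral_norm h3 h4.summable
  have h7 : ∀ τ, ∑' g : SL(2, ℤ), (ps χ τ : ℂ) * strip.indicator m (g • τ) = 0 := fun τ => by
    have := (Unf_hasSum τ (F := fun g => m (g • τ))
      (fun n g => by rw [mul_smul, Unf_per hp]) (h0 τ)).mul_left (ps χ τ : ℂ)
    simpa only [Set.indicator_apply, mul_zero] using this.tsum_eq
  simp only [h7, integral_zero] at h6
  have h8 := h5.unique h6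
  rw [integral_indicator measurableSet_strip] at h8
  exact (mul_eq_zero.1 h8).resolve_left two_ne_zero

theorem IsChi.integrableOn_IT (h : IsChi χ) {f : ℍ → ℂ} (hf : Continuous f) (T : ℝ) :
    IntegrableOn (fun τ => (ps χ τ : ℂ) * f τ) {τ : ℍ | τ.im ≤ T} := by
  have hm : MeasurableSet (strip ∩ {τ : ℍ | τ.im ∈ Set.Icc (1 / 2) T}) :=
    measurableSet_strip.inter (measurableSet_Icc.preimage continuous_im.measurable)
  have h1 := integrableOn_strip ((Complex.continuous_ofReal.comp h.Unf_cont).mul hf)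
    (a := 1 / 2) (b := T) one_half_pos
  have h2 : IntegrableOn (fun τ => (ps χ τ : ℂ) * f τ)
      (strip ∩ {τ : ℍ | τ.im ∈ Set.Icc (1 / 2) T}) :=
    h1.congr_fun (fun τ hτ => by simp only [ps, if_pos hτ.1]; rfl) hm
  refine h2.of_forall_sdiff_eq_zero (measurableSet_le continuous_im.measurable measurable_const)
    fun τ hτ => ?_
  unfold ps
  split_ifs with hs
  · rw [h.low τ (le_of_not_ge fun h' => hτ.2 ⟨hs, h', hτ.1⟩), Complex.ofReal_zero, zero_mul]
  · rw [Complex.ofReal_zero, zero_mul]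

end

end Pool.Agent.P.MP_a60a76_nt.Sz
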