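import Pool.Agent.P.MP_a60a76_nt.Sz.Mean
import Pool.Agent.P.MP_a60a76_nt.Sz.Unf
import Pool.Agent.P.MP_a60a76_nt.Sz.Eta
import Pool.Agent.P.MP_a60a76_nt.Sz.HExp

namespace Pool.Agent.P.MP_a60a76_nt.Sz

open UpperHalfPlane MeasureTheory SP
open scoped MatrixGroups UpperHalfPlane Matrix Modular Topology Classical ArithmeticFunction.sigma

noncomputable section

/-! The chamber expansion: matrices of nonzero determinant. -/

/-- The reflection matrix. -/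
def ChA_D : MZ := !![-1, 0; 0, 1]

theorem ChA_D_mul_D : ChA_D * ChA_D = 1 := by
  ext i j
  fin_cases i <;> fin_cases j <;> simp [ChA_D, Matrix.mul_apply, Fin.sum_univ_two]

theorem ChA_det_D : ChA_D.det = -1 := by simp [ChA_D, Matrix.det_fin_two]

theorem ChA_D_mul (Y : MZ) : (ChA_D * Y) 0 0 = -Y 0 0 ∧ (ChA_D * Y) 0 1 = -Y 0 1 ∧
    (ChA_D * Y) 1 0 = Y 1 0 ∧ (ChA_D * Y) 1 1 = Y 1 1 := by
  simp [ChA_D, Matrix.mul_apply, Fin.sum_univ_two]

/-- Conjugation by the reflection matrix. -/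
def ChA_cj (g : SL(2, ℤ)) : SL(2, ℤ) :=
  ⟨ChA_D * g * ChA_D, by rw [Matrix.det_mul, Matrix.det_mul, ChA_det_D, g.det_coe]; norm_num⟩

theorem ChA_cj_mul (g : SL(2, ℤ)) (Y : MZ) :
    (ChA_cj g : MZ) * Y = ChA_D * (g * (ChA_D * Y)) := by
  show ChA_D * g * ChA_D * Y = _
  simp only [Matrix.mul_assoc]

theorem ChA_DD (Y : MZ) : ChA_D * (ChA_D * Y) = Y := by
  rw [← Matrix.mul_assoc, ChA_D_mul_D, Matrix.one_mul]

theorem ChA_cj_injective : Function.Injective ChA_cj := by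
  intro g g' e
  have h1 := ChA_cj_mul g ChA_D
  rw [e, ChA_cj_mul, ChA_D_mul_D, Matrix.mul_one, Matrix.mul_one] at h1
  apply Subtype.ext
  have h2 := congrArg (fun Y => ChA_D * Y) h1
  simp only [ChA_DD] at h2
  exact h2.symm

/-- The index set of all Hermite normal forms. -/
abbrev ChA_K : Type := Σ n : ℕ, (hnf (n + 1) : Finset MZ)

theorem ChA_det_hnf {n : ℕ} (hn : 0 < n) {Y : MZ} (hY : Y ∈ hnf n) : Y.det = n := by
  obtain ⟨h1, -, -, h2, -⟩ := (mem_hnf hn).1 hY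
  rw [Matrix.det_fin_two, h1, h2]
  simp

theorem ChA_det_K (k : ChA_K) : (k.2 : MZ).det = ((k.1 + 1 : ℕ) : ℤ) :=
  ChA_det_hnf k.1.succ_pos k.2.2

theorem ChA_pos_inj :
    Function.Injective fun a : ChA_K × SL(2, ℤ) => (a.2 : MZ) * (a.1.2 : MZ) := by
  rintro ⟨⟨n, Y, hY⟩, g⟩ ⟨⟨n', Y', hY'⟩, g'⟩ e
  simp only at e
  have h1 := congrArg Matrix.det e
  rw [Matrix.det_mul, Matrix.det_mul, g.det_coe, g'.det_coe, ChA_det_hnf n.succ_pos hY,
    ChA_det_hnf n'.succ_pos hY'] at h1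
  have h2 : n = n' := by
    push_cast at h1
    omega
  subst h2
  have h3 := (hnf_bijective n.succ_pos).injOn (x₁ := (g, Y)) (x₂ := (g', Y'))
    ⟨Set.mem_univ _, hY⟩ ⟨Set.mem_univ _, hY'⟩ e
  obtain ⟨rfl, rfl⟩ := Prod.mk.inj h3
  rfl

theorem ChA_pos_range (Y : MZ) :
    0 < Y.det ↔ Y ∈ Set.range fun a : ChA_K × SL(2, ℤ) => (a.2 : MZ) * (a.1.2 : MZ) := by
  constructor
  · intro hY
    obtain ⟨n, hn⟩ : ∃ n : ℕ, Y.det = ((n + 1 : ℕ) : ℤ) :=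
      ⟨Y.det.toNat - 1, by omega⟩
    obtain ⟨⟨g, Z⟩, ⟨-, hZ⟩, e⟩ := (hnf_bijective n.succ_pos).surjOn hn
    exact ⟨(⟨n, Z, hZ⟩, g), e⟩
  · rintro ⟨⟨k, g⟩, rfl⟩
    simp only
    rw [Matrix.det_mul, g.det_coe, ChA_det_K, one_mul]
    exact_mod_cast k.1.succ_pos

theorem ChA_neg_inj :
    Function.Injective fun a : ChA_K × SL(2, ℤ) => (a.2 : MZ) * (ChA_D * (a.1.2 : MZ)) := by
  rintro ⟨k, g⟩ ⟨k', g'⟩ e
  simp only at e
  have h1 : (ChA_cj g : MZ) * (k.2 : MZ) = (ChA_cj g' : MZ) * (k'.2 : MZ) := by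
    rw [ChA_cj_mul, ChA_cj_mul, e]
  have h2 := ChA_pos_inj (a₁ := (k, ChA_cj g)) (a₂ := (k', ChA_cj g')) h1
  obtain ⟨h3, h4⟩ := Prod.mk.inj h2
  rw [h3, ChA_cj_injective h4]

theorem ChA_neg_range (Y : MZ) : Y.det < 0 ↔
    Y ∈ Set.range fun a : ChA_K × SL(2, ℤ) => (a.2 : MZ) * (ChA_D * (a.1.2 : MZ)) := by
  constructor
  · intro hY
    have h1 : 0 < (ChA_D * Y).det := by
      rw [Matrix.det_mul, ChA_det_D]
      omega
    obtain ⟨⟨k, g⟩, e⟩ := (ChA_pos_range _).1 h1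
    simp only at e
    refine ⟨(k, ChA_cj g), ?_⟩
    simp only
    rw [ChA_cj_mul, ChA_DD, e, ChA_DD]
  · rintro ⟨⟨k, g⟩, rfl⟩
    simp only
    rw [Matrix.det_mul, Matrix.det_mul, g.det_coe, ChA_det_K, ChA_det_D]
    omega

theorem ChA_sum {κ : Type} {e : κ × SL(2, ℤ) → MZ} (he : Function.Injective e) {q : MZ → Prop}
    [DecidablePred q] (hq : ∀ Y, q Y ↔ Y ∈ Set.range e) {G : MZ → ℝ} {F : MZ → ℂ} (hFG : ∀ Y, ‖F Y‖ ≤ G Y)
    {A : κ → ℝ} {B : κ → ℂ} (hA : ∀ k, HasSum (fun g => G (e (k, g))) (A k))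
    (hB : ∀ k, HasSum (fun g => F (e (k, g))) (B k)) (hs : Summable A) :
    Summable (fun Y => if q Y then G Y else 0) ∧ Summable (fun Y => if q Y then F Y else 0) ∧
      ∑' Y, (if q Y then F Y else 0) = ∑' k, B k := by
  have hG0 : ∀ Y, 0 ≤ G Y := fun Y => (norm_nonneg _).trans (hFG Y)
  have h1 : Summable fun a => G (e a) := by
    rw [summable_prod_of_nonneg fun a => hG0 _]
    exact ⟨fun k => (hA k).summable, hs.congr fun k => (hA k).tsum_eq.symm⟩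
  have h2 : Summable fun a => F (e a) := Summable.of_norm_bounded h1 fun a => hFG _
  have hqe : ∀ a, q (e a) := fun a => (hq _).2 ⟨a, rfl⟩
  refine ⟨?_, ?_, ?_⟩
  · rw [← he.summable_iff fun Y hY => if_neg fun h => hY ((hq Y).1 h)]
    exact h1.congr fun a => (if_pos (hqe a)).symm
  · rw [← he.summable_iff fun Y hY => if_neg fun h => hY ((hq Y).1 h)]
    exact h2.congr fun a => (if_pos (hqe a)).symm
  · rw [← he.tsum_eq (f := fun Y => if q Y then F Y else 0) fun Y hY => by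
      by_contra h
      exact hY (if_neg fun h' => h ((hq Y).1 h'))]
    simp only [if_pos (hqe _)]
    exact (h2.hasSum.prod_fiberwise hB).tsum_eq.symm

theorem ChA_im_mob_le {Z : MZ} (hZ : 0 < Z.det) (t : ℍ) :
    (mob Z t).im ≤ Z.det * (t.im + t.im⁻¹) := by
  have hy := t.im_pos
  have hy' := inv_pos.2 hy
  have hd : (0 : ℝ) < Z.det := by exact_mod_cast hZ
  have hn : Complex.normSq (dn Z t) = (Z 1 0 * t.re + Z 1 1) ^ 2 + (Z 1 0 * t.im) ^ 2 := by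
    rw [Complex.normSq_apply, dn]
    simp
    ring
  have hpos : 0 < Complex.normSq (dn Z t) :=
    Complex.normSq_pos.2 (dn_ne_zero (row_ne_zero hZ.ne') t)
  rw [im_mob hZ, mul_div_assoc]
  refine mul_le_mul_of_nonneg_left ?_ hd.le
  rw [div_le_iff₀ hpos]
  by_cases h0 : Z 1 0 = 0
  · have h1 : Z 1 1 ≠ 0 := (row_ne_zero hZ.ne').resolve_left (not_not.2 h0)
    have h2 : (1 : ℝ) ≤ (Z 1 1 : ℝ) ^ 2 := by
      have : (1 : ℤ) ≤ Z 1 1 ^ 2 := (one_le_sq_iff_one_le_abs _).2 (Int.one_le_abs h1)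
      exact_mod_cast this
    have h3 : 1 ≤ Complex.normSq (dn Z t) := by
      rw [hn, h0]
      simpa using h2
    nlinarith [mul_pos hy' hpos]
  · have h2 : (1 : ℝ) ≤ (Z 1 0 : ℝ) ^ 2 := by
      have : (1 : ℤ) ≤ Z 1 0 ^ 2 := (one_le_sq_iff_one_le_abs _).2 (Int.one_le_abs h0)
      exact_mod_cast this
    have h3 : t.im ^ 2 ≤ Complex.normSq (dn Z t) := by
      rw [hn, mul_pow]
      nlinarith [sq_nonneg ((Z 1 0 : ℝ) * t.re + Z 1 1), sq_nonneg t.im]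
    have h4 : t.im⁻¹ * t.im ^ 2 = t.im := by field_simp
    nlinarith [mul_pos hy hpos, mul_le_mul_of_nonneg_left h3 hy'.le]

theorem ChA_im_le {Z : MZ} (hZ : 0 < Z.det) (t τ : ℍ) (g : SL(2, ℤ)) :
    (g • τ).im ≤ Z.det * (t.im + t.im⁻¹) * (2 + 4 * rho τ (mob Z t)) := by
  have h1 := im_le_rho (g • τ) (g • mob Z t)
  rw [rho_smul] at h1
  refine h1.trans (mul_le_mul_of_nonneg_right ?_ (by linarith [rho_nonneg τ (mob Z t)]))
  have h2 : ((g : MZ) * Z).det = Z.det := by rw [Matrix.det_mul, g.det_coe, one_mul]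
  have h3 := ChA_im_mob_le (h2 ▸ hZ : 0 < ((g : MZ) * Z).det) t
  rwa [mob_mul (sl_det_pos g) hZ, mob_sl, h2] at h3

theorem ChA_integral_J (φ : ℍ → ℂ) : ∫ τ, φ (UpperHalfPlane.J • τ) = ∫ τ, φ τ :=
  integral_smul_eq_self φ

theorem ChA_integral_J' (φ : ℍ → ℝ) : ∫ τ, φ (UpperHalfPlane.J • τ) = ∫ τ, φ τ :=
  integral_smul_eq_self φ

theorem ChA_integrable_J {φ : ℍ → ℂ} (h : Integrable fun τ => φ (UpperHalfPlane.J • τ)) :
    Integrable φ :=
  ((MeasureTheory.measurePreserving_smul UpperHalfPlane.J (volume : Measure ℍ)).integrable_comp_emb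
    (measurableEmbedding_const_smul UpperHalfPlane.J)).1 h

theorem ChA_Rm_J (Y : MZ) (t τ : ℍ) :
    Rm (ChA_D * Y) t (UpperHalfPlane.J • τ) = Rm Y t τ + Y.det := by
  obtain ⟨e1, e2, e3, e4⟩ := ChA_D_mul Y
  have h1 : (UpperHalfPlane.J • τ).im = τ.im := by
    rw [← coe_im, coe_J_smul]
    simp
  rw [Rm_add_det, Rm, e1, e2, e3, e4, h1, coe_J_smul, ← Complex.normSq_neg]
  congr 2
  push_cast
  ring

namespace Par

variable {P : Par} {c : P.D → ℤ → ℤ} {χ : ℍ → ℝ}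

theorem ChA_unf (hχ : IsChi χ) (h : P.IsF 0 c) (t₁ t₂ : ℍ) {Z : MZ}
    (hZ : Integrable (P.trm c t₁ t₂ Z)) :
    (∀ g : SL(2, ℤ), Integrable fun τ => (ps χ τ : ℂ) * P.trm c t₁ t₂ (g * Z) τ) ∧
    HasSum (fun g : SL(2, ℤ) => ∫ τ, ‖(ps χ τ : ℂ) * P.trm c t₁ t₂ (g * Z) τ‖)
      (2 * ∫ τ, ‖P.trm c t₁ t₂ Z τ‖) ∧
    HasSum (fun g : SL(2, ℤ) => ∫ τ, (ps χ τ : ℂ) * P.trm c t₁ t₂ (g * Z) τ)
      (2 * ∫ τ, P.trm c t₁ t₂ Z τ) := by
  have e : ∀ (g : SL(2, ℤ)) (τ : ℍ), P.trm c t₁ t₂ (g * Z) τ = P.trm c t₁ t₂ Z (g⁻¹ • τ) := by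
    intro g τ
    rw [← trm_smul h t₁ t₂ g Z (g⁻¹ • τ), smul_inv_smul]
  obtain ⟨h1, h2, h3⟩ := hχ.unfold hZ
  simp only [e]
  exact ⟨fun g => h1 g⁻¹, (Equiv.inv SL(2, ℤ)).hasSum_iff.2 h2,
    (Equiv.inv SL(2, ℤ)).hasSum_iff.2 h3⟩

theorem ChA_trm_J (h : P.IsF 0 c) (t₁ t₂ : ℍ) (Y : MZ) (τ : ℍ) :
    P.trm c t₁ t₂ (ChA_D * Y) (UpperHalfPlane.J • τ) =
      (starRingEnd ℂ) (P.trm c t₁ t₂ Y τ) := by
  obtain ⟨e1, e2, e3, e4⟩ := ChA_D_mul Y
  have h1 : P.tm c (ChA_D * Y) (UpperHalfPlane.J • τ) = (starRingEnd ℂ) (P.tm c Y τ) := by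
    rw [tm, tm, e1, e3]
    simp only [dvd_neg]
    split_ifs
    · rw [← h.FF_conj (P.col Y) (coe_J_smul τ)]
      congr 1
      funext i
      fin_cases i
      · simp [col, e2]
      · simp [col, e4]
    · simp
  have h2 : P.kk t₁ t₂ (ChA_D * Y) (UpperHalfPlane.J • τ) = (starRingEnd ℂ) (P.kk t₁ t₂ Y τ) := by
    rw [kk, kk, ChA_Rm_J, map_mul, Complex.conj_ofReal, conj_ee, Matrix.det_mul, ChA_det_D, ee, ee,
      Complex.ofReal_exp, Complex.ofReal_exp, ← Complex.exp_add, ← Complex.exp_add]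
    congr 1
    have h3 : (starRingEnd ℂ) (t₂ : ℂ) = t₂ - 2 * Complex.I * (t₂.im : ℂ) := by
      apply Complex.ext <;> simp
      ring
    rw [map_div₀, map_mul, map_pow, h3, map_intCast, map_natCast]
    generalize Y.det = d
    push_cast
    linear_combination (-4 * Real.pi * t₂.im * d / P.p ^ 2 : ℂ) * Complex.I_sq
  rw [trm, trm, h1, h2, map_mul, map_mul, Complex.conj_ofReal]

theorem ChA_tm_hol (h : P.IsF 0 c) (Y : MZ) : Hol (P.tm c Y) := by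
  by_cases hY : (P.p : ℤ) ∣ Y 0 0 ∧ (P.p : ℤ) ∣ Y 1 0
  · have e : P.tm c Y = P.FF c (P.col Y) := funext fun τ => if_pos hY
    rw [e]
    exact h.FF_hol _
  · have e : P.tm c Y = fun _ => 0 := funext fun τ => if_neg hY
    rw [e]
    exact differentiableOn_const 0

theorem ChA_pos (h : P.IsF 0 c) (t₁ : ℍ) : ∃ Y₀ : ℝ, ∀ t₂ : ℍ, Y₀ ≤ t₂.im →
    ∃ K r : ℝ, 0 ≤ K ∧ 0 ≤ r ∧ r < 1 ∧ ∀ (n : ℕ) (Y : MZ), 0 < n → Y.det = n →
      Integrable (P.trm c t₁ t₂ Y) ∧ ∫ τ, ‖P.trm c t₁ t₂ Y τ‖ ≤ K * r ^ n ∧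
        ∫ τ, P.trm c t₁ t₂ Y τ = P.p / n * ee (t₂ * n / P.p ^ 2) * P.tm c Y (mob Y t₁) := by
  obtain ⟨C, a, hC, ha, hb⟩ := h.bound
  have hp := P.p_pos
  have hpi := Real.pi_pos
  set M : ℝ := t₁.im + t₁.im⁻¹ with hM
  have hM0 : 0 < M := add_pos t₁.im_pos (inv_pos.2 t₁.im_pos)
  refine ⟨(a * M + 1) * P.p ^ 2 / Real.pi, fun t₂ ht₂ => ?_⟩
  have hy := t₂.im_pos
  set u : ℝ := Real.pi * t₂.im / P.p ^ 2 with hu
  have hδ : a * M + 1 ≤ u := by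
    rw [div_le_iff₀ hpi] at ht₂
    rw [hu, le_div_iff₀ (by positivity)]
    linarith
  have haM : 0 ≤ a * M := by positivity
  refine ⟨t₂.im / P.p * C * Real.pi, Real.exp (-2), by positivity, (Real.exp_pos _).le,
    Real.exp_lt_one_iff.2 (by norm_num), fun n Y hn hY => ?_⟩
  have hn1 : (1 : ℝ) ≤ n := by exact_mod_cast hn
  have hdet : 0 < Y.det := by
    rw [hY]
    exact_mod_cast hn
  have hdr : (Y.det : ℝ) = n := by exact_mod_cast hY
  have hdc : (Y.det : ℂ) = n := by exact_mod_cast hY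
  have hbound : ∀ τ, ‖P.tm c Y τ‖ ≤
      C * Real.exp (2 * a * M * n) * Real.exp (4 * a * M * n * rho τ (mob Y t₁)) := by
    intro τ
    rw [tm]
    split_ifs
    · refine ((hb τ _ (ChA_im_le hdet t₁ τ)).1 _).trans (le_of_eq ?_)
      rw [mul_assoc C, ← Real.exp_add, hdr]
      congr 2
      ring
    · rw [norm_zero]
      positivity
  have hlt : 4 * a * M * n < 4 * u * n := by nlinarith
  obtain ⟨m1, m2⟩ := mean_value (ChA_tm_hol h Y) (mob Y t₁) (by positivity) hlt hbound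
  have e : ∀ τ, P.trm c t₁ t₂ Y τ = ((t₂.im / P.p : ℝ) * ee (t₂ * n / P.p ^ 2)) *
      (P.tm c Y τ * Real.exp (-(4 * u * n * rho τ (mob Y t₁)))) := by
    intro τ
    have e1 : 4 * Real.pi * t₂.im * Rm Y t₁ τ / P.p ^ 2 = 4 * u * n * rho τ (mob Y t₁) := by
      rw [Rm_eq_rho hdet, hdr, hu]
      ring
    rw [trm, kk, e1, hdc]
    ring
  have hint : Integrable (P.trm c t₁ t₂ Y) := by
    rw [funext e]
    exact m1.const_mul _
  refine ⟨hint, ?_, ?_⟩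
  · have hw : 0 < 4 * (u - a * M) * n := by nlinarith
    obtain ⟨i1, i2⟩ := integral_exp_rho (mob Y t₁) hw
    have hne : ‖ee (t₂ * n / P.p ^ 2)‖ = Real.exp (-(2 * u * n)) := by
      rw [norm_ee]
      congr 2
      have : ((t₂ : ℂ) * n / P.p ^ 2) = t₂ * ((n / P.p ^ 2 : ℝ) : ℂ) := by
        push_cast
        ring
      rw [this, Complex.im_mul_ofReal, coe_im, hu]
      ring
    have hle : ∀ τ, ‖P.trm c t₁ t₂ Y τ‖ ≤ (t₂.im / P.p * C * Real.exp (-(2 * (u - a * M) * n))) *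
        Real.exp (-(4 * (u - a * M) * n * rho τ (mob Y t₁))) := by
      intro τ
      rw [e, norm_mul, norm_mul, norm_mul, hne, Complex.norm_real, Complex.norm_real,
        Real.norm_of_nonneg (by positivity), Real.norm_of_nonneg (Real.exp_pos _).le]
      calc t₂.im / P.p * Real.exp (-(2 * u * n)) *
            (‖P.tm c Y τ‖ * Real.exp (-(4 * u * n * rho τ (mob Y t₁))))
          ≤ t₂.im / P.p * Real.exp (-(2 * u * n)) *
            (C * Real.exp (2 * a * M * n) * Real.exp (4 * a * M * n * rho τ (mob Y t₁)) *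
              Real.exp (-(4 * u * n * rho τ (mob Y t₁)))) := by
            gcongr
            exact hbound τ
        _ = _ := by
            have e2 : Real.exp (-(2 * (u - a * M) * n)) =
                Real.exp (-(2 * u * n)) * Real.exp (2 * a * M * n) := by
              rw [← Real.exp_add]
              congr 1
              ring
            have e3 : Real.exp (-(4 * (u - a * M) * n * rho τ (mob Y t₁))) =
                Real.exp (4 * a * M * n * rho τ (mob Y t₁)) *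
                  Real.exp (-(4 * u * n * rho τ (mob Y t₁))) := by
              rw [← Real.exp_add]
              congr 1
              ring
            rw [e2, e3]
            ring
    refine (integral_mono hint.norm (i1.const_mul _) hle).trans ?_
    rw [integral_const_mul, i2]
    have b1 : Real.exp (-(2 * (u - a * M) * n)) ≤ Real.exp (-2) ^ n := by
      rw [← Real.exp_nat_mul]
      apply Real.exp_le_exp.2
      nlinarith
    have b2 : 4 * Real.pi / (4 * (u - a * M) * n) ≤ Real.pi := by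
      rw [div_le_iff₀ hw]
      have : 1 ≤ (u - a * M) * n := by nlinarith
      nlinarith
    calc t₂.im / P.p * C * Real.exp (-(2 * (u - a * M) * n)) *
          (4 * Real.pi / (4 * (u - a * M) * n))
        ≤ t₂.im / P.p * C * Real.exp (-2) ^ n * Real.pi := by gcongr
      _ = _ := by ring
  · rw [funext e, integral_const_mul, m2, hu]
    have hn0 : (n : ℂ) ≠ 0 := by exact_mod_cast hn.ne'
    have hy0 : (t₂.im : ℂ) ≠ 0 := by exact_mod_cast hy.ne'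
    have hpi0 : (Real.pi : ℂ) ≠ 0 := by exact_mod_cast hpi.ne'
    have hp0 := P.p_ne
    push_cast
    field_simp

theorem ChA_summable {K r : ℝ} (hK : 0 ≤ K) (hr : 0 ≤ r) (hr1 : r < 1) {A : ChA_K → ℝ}
    (h0 : ∀ k, 0 ≤ A k) (hA : ∀ k, A k ≤ K * r ^ (k.1 + 1)) : Summable A := by
  rw [summable_sigma_of_nonneg h0]
  refine ⟨fun n => Summable.of_finite, ?_⟩
  have h1 : Summable fun n : ℕ => ((n + 1 : ℕ) : ℝ) ^ 2 * r ^ (n + 1) :=
    (summable_nat_add_iff (f := fun n : ℕ => (n : ℝ) ^ 2 * r ^ n) 1).2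
      (summable_pow_mul_geometric_of_norm_lt_one 2 (by rwa [Real.norm_of_nonneg hr]))
  refine Summable.of_nonneg_of_le (fun n => tsum_nonneg fun Y => h0 _) (fun n => ?_)
    (h1.mul_left K)
  rw [tsum_fintype]
  refine (Finset.sum_le_card_nsmul _ _ (K * r ^ (n + 1)) fun Y _ => hA ⟨n, Y⟩).trans ?_
  rw [Finset.card_univ, Fintype.card_coe, nsmul_eq_mul, mul_left_comm]
  have h2 : ((hnf (n + 1)).card : ℝ) ≤ ((n + 1 : ℕ) : ℝ) ^ 2 := by
    exact_mod_cast card_hnf_le (n + 1)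
  gcongr

theorem ChA_value (t₁ t₂ : ℍ) {B : ChA_K → ℂ} (hs : Summable B)
    (hB : ∀ k : ChA_K, B k = P.p / (k.1 + 1 : ℕ) * ee (t₂ * (k.1 + 1 : ℕ) / P.p ^ 2) *
      P.tm c k.2 (mob k.2 t₁)) :
    ∑' k, B k = ∑' N, P.HH c (N + 1) t₁ * P.sv t₂ ^ (N + 1) := by
  have hp := P.prime.pos
  have hinj : Function.Injective fun N : ℕ => P.p * (N + 1) - 1 := by
    intro N N' e
    simp only at e
    have h1 : 0 < P.p * (N + 1) := Nat.mul_pos hp N.succ_pos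
    have h2 : 0 < P.p * (N' + 1) := Nat.mul_pos hp N'.succ_pos
    have h3 : P.p * (N + 1) = P.p * (N' + 1) := by omega
    have h4 := Nat.eq_of_mul_eq_mul_left hp h3
    omega
  have hrow : ∀ n : ℕ, ∑' Y : (hnf (n + 1) : Finset MZ), B ⟨n, Y⟩ =
      P.p / (n + 1 : ℕ) * ee (t₂ * (n + 1 : ℕ) / P.p ^ 2) *
        ∑ Y ∈ hnf (n + 1), P.tm c Y (mob Y t₁) := by
    intro n
    rw [tsum_fintype, Finset.mul_sum, ← Finset.sum_coe_sort (hnf (n + 1))]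
    exact Finset.sum_congr rfl fun Y _ => hB ⟨n, Y⟩
  rw [hs.tsum_sigma, ← hinj.tsum_eq]
  · refine tsum_congr fun N => ?_
    have h1 : 0 < P.p * (N + 1) := Nat.mul_pos hp N.succ_pos
    have h2 : P.p * (N + 1) - 1 + 1 = P.p * (N + 1) := by omega
    have h3 : (t₂ : ℂ) * (P.p * (N + 1) : ℕ) / P.p ^ 2 = (N + 1 : ℕ) * (t₂ / P.p) := by
      have := P.p_ne
      push_cast
      field_simp
    have h4 : ((N + 1 : ℕ) : ℂ) ≠ 0 := by exact_mod_cast N.succ_ne_zero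
    rw [hrow, h2, h3, ee_nat_mul, HH, sv, Nat.cast_mul]
    have := P.p_ne
    field_simp
  · intro n hn
    by_contra hr
    apply hn
    beta_reduce
    rw [hrow, Finset.sum_eq_zero, mul_zero]
    intro Y hY
    refine if_neg fun hd => hr ?_
    have h1 : (P.p : ℤ) ∣ ((n + 1 : ℕ) : ℤ) := by
      rw [← ChA_det_hnf n.succ_pos hY, Matrix.det_fin_two]
      exact dvd_sub (hd.1.mul_right _) (hd.2.mul_left _)
    obtain ⟨m, hm⟩ := Int.natCast_dvd_natCast.1 h1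
    rcases m with _ | m
    · omega
    · exact ⟨m, by simp only; omega⟩

theorem chamber_det (hχ : IsChi χ) (h : P.IsF 0 c) (t₁ : ℍ) : ∃ Y₀ : ℝ, ∀ t₂ : ℍ, Y₀ ≤ t₂.im →
    (∀ Y : MZ, Y.det ≠ 0 → Integrable fun τ => (ps χ τ : ℂ) * P.trm c t₁ t₂ Y τ) ∧
    Summable (fun Y : MZ => if Y.det ≠ 0 then ∫ τ, ‖(ps χ τ : ℂ) * P.trm c t₁ t₂ Y τ‖ else 0) ∧
    ∑' Y : MZ, (if Y.det ≠ 0 then ∫ τ, (ps χ τ : ℂ) * P.trm c t₁ t₂ Y τ else 0) =
      (4 * (∑' N, P.HH c (N + 1) t₁ * P.sv t₂ ^ (N + 1)).re : ℝ) := by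
  obtain ⟨Y₀, hY₀⟩ := ChA_pos h t₁
  refine ⟨Y₀, fun t₂ ht₂ => ?_⟩
  obtain ⟨K, r, hK, hr, hr1, H⟩ := hY₀ t₂ ht₂
  have Hk := fun k : ChA_K => H (k.1 + 1) k.2 k.1.succ_pos (ChA_det_K k)
  have hJ : ∀ k : ChA_K, Integrable (P.trm c t₁ t₂ (ChA_D * (k.2 : MZ))) := by
    intro k
    apply ChA_integrable_J
    simp only [ChA_trm_J h]
    exact Complex.conjCLE.integrable_comp_iff.2 (Hk k).1
  have hJn : ∀ k : ChA_K, ∫ τ, ‖P.trm c t₁ t₂ (ChA_D * (k.2 : MZ)) τ‖ =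
      ∫ τ, ‖P.trm c t₁ t₂ k.2 τ‖ := by
    intro k
    rw [← ChA_integral_J' fun τ => ‖P.trm c t₁ t₂ (ChA_D * (k.2 : MZ)) τ‖]
    simp only [ChA_trm_J h, Complex.norm_conj]
  have hJv : ∀ k : ChA_K, ∫ τ, P.trm c t₁ t₂ (ChA_D * (k.2 : MZ)) τ =
      (starRingEnd ℂ) (∫ τ, P.trm c t₁ t₂ k.2 τ) := by
    intro k
    rw [← ChA_integral_J, ← integral_conj]
    simp only [ChA_trm_J h]
  have hsum : Summable fun k : ChA_K => ∫ τ, ‖P.trm c t₁ t₂ k.2 τ‖ :=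
    ChA_summable hK hr hr1 (fun k => integral_nonneg fun τ => norm_nonneg _) fun k => (Hk k).2.1
  have hFG : ∀ Y : MZ, ‖∫ τ, (ps χ τ : ℂ) * P.trm c t₁ t₂ Y τ‖ ≤
      ∫ τ, ‖(ps χ τ : ℂ) * P.trm c t₁ t₂ Y τ‖ := fun Y => norm_integral_le_integral_norm _
  obtain ⟨p1, p2, p3⟩ := ChA_sum ChA_pos_inj ChA_pos_range hFG
    (fun k => (ChA_unf hχ h t₁ t₂ (Hk k).1).2.1) (fun k => (ChA_unf hχ h t₁ t₂ (Hk k).1).2.2)
    (hsum.mul_left 2)
  obtain ⟨n1, n2, n3⟩ := ChA_sum ChA_neg_inj ChA_neg_range hFG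
    (fun k => (ChA_unf hχ h t₁ t₂ (hJ k)).2.1) (fun k => (ChA_unf hχ h t₁ t₂ (hJ k)).2.2)
    ((hsum.mul_left 2).congr fun k => by rw [hJn])
  have hsplit : ∀ {R : Type} [AddMonoid R] (f : MZ → R) (Y : MZ),
      (if Y.det ≠ 0 then f Y else 0) =
        (if 0 < Y.det then f Y else 0) + if Y.det < 0 then f Y else 0 := by
    intro R _ f Y
    rcases lt_trichotomy Y.det 0 with h1 | h1 | h1
    · rw [if_pos h1.ne, if_neg h1.not_gt, if_pos h1, zero_add]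
    · simp [h1]
    · rw [if_pos h1.ne', if_pos h1, if_neg h1.not_gt, add_zero]
  refine ⟨fun Y hY => ?_, ?_, ?_⟩
  · rcases lt_or_gt_of_ne hY with h1 | h1
    · obtain ⟨⟨k, g⟩, rfl⟩ := (ChA_neg_range Y).1 h1
      exact (ChA_unf hχ h t₁ t₂ (hJ k)).1 g
    · obtain ⟨⟨k, g⟩, rfl⟩ := (ChA_pos_range Y).1 h1
      exact (ChA_unf hχ h t₁ t₂ (Hk k).1).1 g
  · exact (p1.add n1).congr fun Y =>
      (hsplit (fun Y => ∫ τ, ‖(ps χ τ : ℂ) * P.trm c t₁ t₂ Y τ‖) Y).symm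
  · have hv : Summable fun k : ChA_K => ∫ τ, P.trm c t₁ t₂ k.2 τ :=
      Summable.of_norm_bounded hsum fun k => norm_integral_le_integral_norm _
    rw [tsum_congr fun Y => hsplit (fun Y => ∫ τ, (ps χ τ : ℂ) * P.trm c t₁ t₂ Y τ) Y,
      p2.tsum_add n2, p3, n3, tsum_mul_left, tsum_mul_left]
    simp only [hJv]
    rw [← Complex.conj_tsum, ChA_value t₁ t₂ hv fun k => (Hk k).2.2, ← mul_add, Complex.add_conj]
    push_cast
    ring

end Par

end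

end Pool.Agent.P.MP_a60a76_nt.Sz
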