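import Pool.Agent.P.MP_a60a76_nt.Sz.Defs3

namespace Pool.Agent.P.MP_a60a76_nt.Sz

open UpperHalfPlane hiding J
open MeasureTheory SP
open scoped MatrixGroups UpperHalfPlane Matrix Modular Topology Classical ArithmeticFunction.sigma

noncomputable section

/-! A Chebyshev bound for the primes which are one modulo three or four. -/

/-- The nontrivial character modulo three or four. -/
def Cheb_chi (q n : ℕ) : ℤ := if n % q = 1 then 1 else if n % q = q - 1 then -1 else 0

theorem Cheb_mul {q : ℕ} (hq : q = 3 ∨ q = 4) (a b : ℕ) :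
    Cheb_chi q (a * b) = Cheb_chi q a * Cheb_chi q b := by
  unfold Cheb_chi
  rw [Nat.mul_mod]
  rcases hq with rfl | rfl
  · have ha := Nat.mod_lt a (show 0 < 3 by norm_num)
    have hb := Nat.mod_lt b (show 0 < 3 by norm_num)
    generalize a % 3 = u at *
    generalize b % 3 = v at *
    interval_cases u <;> interval_cases v <;> norm_num
  · have ha := Nat.mod_lt a (show 0 < 4 by norm_num)
    have hb := Nat.mod_lt b (show 0 < 4 by norm_num)
    generalize a % 4 = u at *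
    generalize b % 4 = v at *
    interval_cases u <;> interval_cases v <;> norm_num

theorem Cheb_sum {q : ℕ} (hq : q = 3 ∨ q = 4) (M : ℕ) :
    ∑ m ∈ Finset.Ioc 0 M, Cheb_chi q m = if 1 ≤ M % q ∧ M % q ≤ q - 2 then 1 else 0 := by
  induction M with
  | zero => simp
  | succ M ih =>
    rw [Finset.sum_Ioc_succ_top (Nat.zero_le M), ih, Cheb_chi]
    rcases hq with rfl | rfl <;> split_ifs <;> omega

theorem Cheb_val {q : ℕ} (hq : q = 3 ∨ q = 4) (n : ℕ) : (n % q = 1 ∧ Cheb_chi q n = 1) ∨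
    Cheb_chi q n = -1 ∨ (Cheb_chi q n = 0 ∧ (n.Prime → n ≤ 3)) := by
  unfold Cheb_chi
  split_ifs with h1 h2
  · exact .inl ⟨h1, rfl⟩
  · exact .inr (.inl rfl)
  · refine .inr (.inr ⟨rfl, fun hn => ?_⟩)
    rcases hq with rfl | rfl
    · exact ((Nat.prime_dvd_prime_iff_eq Nat.prime_three hn).1 (by omega)).ge
    · have := (Nat.prime_dvd_prime_iff_eq Nat.prime_two hn).1 (by omega)
      omega

theorem Cheb_alt {χ : ℕ → ℝ} (h : ∀ M, ∑ m ∈ Finset.Ioc 0 M, χ m ≤ 1) (N : ℕ) :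
    0 ≤ ∑ n ∈ Finset.Ioc 0 N, χ n * Real.log n +
      (1 - ∑ m ∈ Finset.Ioc 0 N, χ m) * Real.log N := by
  induction N with
  | zero => simp
  | succ N ih =>
    rw [Finset.sum_Ioc_succ_top (Nat.zero_le N), Finset.sum_Ioc_succ_top (Nat.zero_le N)]
    have h1 : Real.log N ≤ Real.log (N + 1 : ℕ) := by
      rcases N.eq_zero_or_pos with rfl | hN
      · simp
      · exact Real.log_le_log (by exact_mod_cast hN) (by exact_mod_cast N.le_succ)
    nlinarith [mul_le_mul_of_nonneg_left h1 (sub_nonneg.2 (h N))]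

theorem Cheb_conv {χ : ℕ → ℝ} (h0 : χ 0 = 0) (hm : ∀ a b, χ (a * b) = χ a * χ b) (N : ℕ) :
    ∑ n ∈ Finset.Ioc 0 N, χ n * Real.log n = ∑ d ∈ Finset.Ioc 0 N,
      χ d * ArithmeticFunction.vonMangoldt d * ∑ m ∈ Finset.Ioc 0 (N / d), χ m := by
  refine Eq.trans (Finset.sum_congr rfl fun n _ => ?_) (ArithmeticFunction.sum_Ioc_mul_eq_sum_sum
    ⟨fun d => χ d * ArithmeticFunction.vonMangoldt d, by simp [h0]⟩ ⟨χ, h0⟩ N)
  rw [ArithmeticFunction.mul_apply, ← ArithmeticFunction.vonMangoldt_sum,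
    ← Nat.sum_divisorsAntidiagonal fun a _ => ArithmeticFunction.vonMangoldt a, Finset.mul_sum]
  refine Finset.sum_congr rfl fun x hx => ?_
  rw [← (Nat.mem_divisorsAntidiagonal.1 hx).1, hm]
  exact mul_right_comm _ _ _

theorem Cheb_step {q : ℕ} (hq : q = 3 ∨ q = 4) {N : ℕ} (hN : 6 ≤ N) :
    Chebyshev.psi N - Chebyshev.psi (N / 2 : ℕ) - 2 * (Chebyshev.psi N - Chebyshev.theta N) -
      Real.log N ≤ 2 * ∑ l ∈ (Finset.Ioc 0 N).filter fun l => l.Prime ∧ l % q = 1, Real.log l := by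
  have hS : ∀ M, 0 ≤ ∑ m ∈ Finset.Ioc 0 M, (Cheb_chi q m : ℝ) ∧
      ∑ m ∈ Finset.Ioc 0 M, (Cheb_chi q m : ℝ) ≤ 1 := fun M => by
    rw [← Int.cast_sum, Cheb_sum hq]
    split_ifs <;> norm_num
  have h1 := Cheb_alt (fun M => (hS M).2) N
  rw [Cheb_conv (by rcases hq with rfl | rfl <;> simp [Cheb_chi])
    fun a b => by rw [Cheb_mul hq, Int.cast_mul]] at h1
  have h2 : Chebyshev.psi N - Chebyshev.psi (N / 2 : ℕ) = ∑ d ∈ Finset.Ioc 0 N,
      if N / 2 < d then ArithmeticFunction.vonMangoldt d else 0 := by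
    rw [Chebyshev.psi, Chebyshev.psi, Nat.floor_natCast, Nat.floor_natCast, ← Finset.sum_filter,
      ← Finset.sum_Ioc_consecutive _ (Nat.zero_le (N / 2)) (Nat.div_le_self N 2),
      add_sub_cancel_left]
    refine Finset.sum_congr (Finset.ext fun d => ?_) fun _ _ => rfl
    simp only [Finset.mem_Ioc, Finset.mem_filter]
    omega
  have h3 : ∑ d ∈ Finset.Ioc 0 N, (Cheb_chi q d : ℝ) * ArithmeticFunction.vonMangoldt d *
      ∑ m ∈ Finset.Ioc 0 (N / d), (Cheb_chi q m : ℝ) ≤ ∑ d ∈ Finset.Ioc 0 N,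
      (2 * (if d.Prime ∧ d % q = 1 then Real.log d else 0) +
        2 * (if ¬d.Prime then ArithmeticFunction.vonMangoldt d else 0) -
        if N / 2 < d then ArithmeticFunction.vonMangoldt d else 0) := by
    refine Finset.sum_le_sum fun d hd => ?_
    obtain ⟨s0, s1⟩ := hS (N / d)
    have l0 := ArithmeticFunction.vonMangoldt_nonneg (n := d)
    have l1 := mul_nonneg l0 s0
    have l2 := mul_le_of_le_one_right l0 s1
    have l3 := Real.log_natCast_nonneg d
    have e1 : N / 2 < d → ∑ m ∈ Finset.Ioc 0 (N / d), (Cheb_chi q m : ℝ) = 1 := fun h => by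
      rw [Nat.div_eq_of_lt_le (k := 1) (by simpa using (Finset.mem_Ioc.1 hd).2) (by omega)]
      rcases hq with rfl | rfl <;> simp [Cheb_chi]
    by_cases hp : d.Prime
    · have e := ArithmeticFunction.vonMangoldt_apply_prime hp
      rcases Cheb_val hq d with ⟨h, h'⟩ | h' | ⟨h', h⟩
      · rw [h', if_pos ⟨hp, h⟩, if_neg (not_not.2 hp)]
        split_ifs <;> push_cast <;> linarith
      · rw [h', if_neg (not_not.2 hp)]
        by_cases k : N / 2 < d
        · rw [if_pos k, e1 k]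
          split_ifs <;> push_cast <;> linarith
        · rw [if_neg k]
          split_ifs <;> push_cast <;> linarith
      · rw [h', if_neg (not_not.2 hp), if_neg (show ¬N / 2 < d by have := h hp; omega)]
        split_ifs <;> push_cast <;> linarith
    · rw [if_neg fun h => hp h.1, if_pos hp]
      rcases Cheb_val hq d with ⟨-, h'⟩ | h' | ⟨h', -⟩ <;> rw [h'] <;> split_ifs <;> push_cast <;>
        linarith
  rw [Finset.sum_sub_distrib, Finset.sum_add_distrib, ← Finset.mul_sum, ← Finset.mul_sum, ← h2,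
    ← Finset.sum_filter, ← Finset.sum_filter] at h3
  have h4 := Chebyshev.psi_sub_theta_eq_sum_not_prime N
  rw [Nat.floor_natCast] at h4
  nlinarith [mul_nonneg (hS N).1 (Real.log_natCast_nonneg N)]

theorem cheb_lower : ∃ c C : ℝ, 0 < c ∧ ∀ q : ℕ, q = 3 ∨ q = 4 → ∀ x : ℝ, 0 ≤ x →
    c * x - C ≤ ∑ l ∈ (Finset.range (⌊x⌋₊ + 1)).filter fun l => l.Prime ∧ l % q = 1,
      Real.log l := by
  obtain ⟨C, hC⟩ := Chebyshev.psi_sub_theta_le_mul_sqrt
  refine ⟨1 / 32, 1 + (5 * |C| + 6) ^ 2, by norm_num, fun q hq x hx => ?_⟩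
  have hx' := Nat.lt_floor_add_one x
  generalize ⌊x⌋₊ = N at *
  have mono : ∀ M ≤ N, ∑ l ∈ (Finset.Ioc 0 M).filter fun l => l.Prime ∧ l % q = 1, Real.log l ≤
      ∑ l ∈ (Finset.range (N + 1)).filter fun l => l.Prime ∧ l % q = 1, Real.log l :=
    fun M hM => Finset.sum_le_sum_of_subset_of_nonneg (Finset.filter_subset_filter _ fun l hl => by
      simp only [Finset.mem_Ioc, Finset.mem_range] at *
      omega) fun l _ _ => Real.log_natCast_nonneg l
  rcases lt_or_ge N 12 with hN | hN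
  · have h1 : (N : ℝ) ≤ 12 := by exact_mod_cast hN.le
    have h2 := mono 0 (Nat.zero_le N)
    simp only [Finset.Ioc_self, Finset.filter_empty, Finset.sum_empty] at h2
    nlinarith [sq_nonneg (5 * |C| + 6)]
  have h1 := Cheb_step hq (show 6 ≤ N by omega)
  have h2 := Cheb_step hq (show 6 ≤ N / 2 by omega)
  have h3 := mono N le_rfl
  have h4 := mono (N / 2) (Nat.div_le_self N 2)
  have s0 := Real.sqrt_nonneg N
  have s2 := Real.sq_sqrt (Nat.cast_nonneg (α := ℝ) N)
  have hD : ∀ M ≤ N, Chebyshev.psi M - Chebyshev.theta M ≤ |C| * √(N : ℝ) := fun M hM =>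
    (hC M).trans (mul_le_mul (le_abs_self C) (Real.sqrt_le_sqrt (by exact_mod_cast hM))
      (Real.sqrt_nonneg _) (abs_nonneg C))
  have hL : ∀ y : ℝ, 0 < y → y ≤ N + 1 → Real.log y ≤ 2 * √(N : ℝ) := fun y hy hy' => by
    have k1 : Real.log y ≤ Real.log ((√(N : ℝ) + 1) ^ 2) := Real.log_le_log hy (by nlinarith)
    rw [Real.log_pow] at k1
    have k2 := Real.log_le_sub_one_of_pos (show 0 < √(N : ℝ) + 1 by linarith)
    push_cast at k1
    linarith
  have n0 : (0 : ℝ) < N := by exact_mod_cast (by omega : 0 < N)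
  have l1 := hL N n0 (by linarith)
  have l2 := hL (N + 1) (by linarith) le_rfl
  have l3 := hL (N / 2 : ℕ) (by exact_mod_cast (by omega : 0 < N / 2))
    (by exact_mod_cast (by omega : N / 2 ≤ N + 1))
  have d1 := hD N le_rfl
  have d2 := hD (N / 2) (by omega)
  have d3 := hD (N / 2 / 2) (by omega)
  have g1 := Chebyshev.psi_ge N
  have g2 := Chebyshev.theta_le_log4_mul_x (Nat.cast_nonneg (α := ℝ) (N / 2 / 2))
  have g3 : 4 * ((N / 2 / 2 : ℕ) : ℝ) ≤ N := by exact_mod_cast (by omega : 4 * (N / 2 / 2) ≤ N)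
  rw [show (4 : ℝ) = 2 ^ 2 by norm_num, Real.log_pow] at g2
  have g4 := Real.log_two_gt_d9
  have g5 := mul_le_mul_of_nonneg_left g3 (show 0 ≤ Real.log 2 by linarith)
  have g6 := mul_le_mul_of_nonneg_left (show 1 / 2 ≤ Real.log 2 by linarith) n0.le
  push_cast at g2
  nlinarith [sq_nonneg (√(N : ℝ) - 4 * (5 * |C| + 6)), sq_nonneg (5 * |C| + 6)]

end

end Pool.Agent.P.MP_a60a76_nt.Sz
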