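import Pool.Agent.P.MP_a60a76_nt.Sz.Dbar
import Pool.Agent.P.MP_a60a76_nt.Sz.Cos

namespace Pool.Agent.P.MP_a60a76_nt.Sz

open UpperHalfPlane MeasureTheory SP
open scoped MatrixGroups UpperHalfPlane Matrix Modular Topology Classical ArithmeticFunction.sigma

noncomputable section

/-! A smooth partition of unity. -/

theorem Chi_loc (τ : ℍ) :
    ∃ F : Finset CP, ∀ᶠ w in 𝓝 τ, ∀ x ∉ F, (gam x • w).im ≤ 1 / 2 := by
  obtain ⟨K, hK, hτ⟩ := exists_compact_mem_nhds τ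
  have hf := finite_high hK (y := 1 / 2) (by norm_num)
  refine ⟨hf.toFinset, Filter.mem_of_superset hτ fun w hw x hx => ?_⟩
  by_contra h
  exact hx (hf.mem_toFinset.2 ⟨w, hw, (not_le.1 h).le⟩)

/-- The bump function. -/
def Chi_b (τ : ℍ) : ℝ := Real.smoothTransition (τ.im - 1 / 2)

/-- Its average. -/
def Chi_G (τ : ℍ) : ℝ := ∑' x : CP, Chi_b (gam x • τ)

theorem Chi_b_nonneg (τ : ℍ) : 0 ≤ Chi_b τ := Real.smoothTransition.nonneg _

theorem Chi_b_low {τ : ℍ} (h : τ.im ≤ 1 / 2) : Chi_b τ = 0 :=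
  Real.smoothTransition.zero_of_nonpos (by linarith)

theorem Chi_b_pos {τ : ℍ} (h : 1 / 2 < τ.im) : 0 < Chi_b τ :=
  Real.smoothTransition.pos_of_pos (by linarith)

theorem Chi_b_c1 : C1 fun τ => (Chi_b τ : ℂ) := by
  have h : ContDiff ℝ 1 fun y : ℝ => Real.smoothTransition (y - 1 / 2) :=
    Real.smoothTransition.contDiff.comp (contDiff_id.sub contDiff_const)
  exact (c1_im (fun y _ => (h.differentiable one_ne_zero y).hasDerivAt)
    (h.continuous_deriv le_rfl).continuousOn).1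

theorem Chi_summable (τ : ℍ) : Summable fun x : CP => Chi_b (gam x • τ) := by
  obtain ⟨F, hF⟩ := Chi_loc τ
  exact summable_of_ne_finset_zero (s := F) fun x hx => Chi_b_low (hF.self_of_nhds x hx)

theorem Chi_G_c1 : C1 fun τ => (Chi_G τ : ℂ) := by
  refine c1_of_locally fun τ => ?_
  obtain ⟨F, hF⟩ := Chi_loc τ
  refine ⟨_, (c1_sum F fun x _ => (Chi_b_c1.smul (gam x)).1).1, hF.mono fun w hw => ?_⟩
  change (Chi_G w : ℂ) = _
  rw [Chi_G, tsum_eq_sum (s := F) fun x hx => Chi_b_low (hw x hx), Complex.ofReal_sum]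

theorem Chi_G_smul (g : SL(2, ℤ)) (τ : ℍ) : Chi_G (g • τ) = Chi_G τ := by
  obtain ⟨e, he⟩ := exists_cp_equiv g
  rw [Chi_G, Chi_G, ← e.tsum_eq fun x => Chi_b (gam x • τ)]
  refine tsum_congr fun x => ?_
  obtain ⟨n, hn⟩ := he x
  rw [← mul_smul, hn, mul_smul, Chi_b, ModularGroup.im_T_zpow_smul, Chi_b]

/-- The two pairs with vanishing first entry. -/
def Chi_e (d : ℤˣ) : CP := ⟨![0, d], isCoprime_zero_left.2 d.isUnit⟩

theorem Chi_e_ne : Chi_e 1 ≠ Chi_e (-1) := fun h => by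
  have := congrArg (fun x : CP => x.1 1) h
  simp [Chi_e] at this

theorem Chi_b_e (d : ℤˣ) (τ : ℍ) : Chi_b (gam (Chi_e d) • τ) = Chi_b τ := by
  have h : (gam (Chi_e d) • τ).im = τ.im := by
    rw [im_sl_smul, dn_gam]
    rcases Int.units_eq_one_or d with h | h <;> simp [Chi_e, h]
  rw [Chi_b, h, Chi_b]

theorem Chi_le (τ : ℍ) : 2 * Chi_b τ ≤ Chi_G τ := by
  have h := (Chi_summable τ).sum_le_tsum {Chi_e 1, Chi_e (-1)} fun x _ => Chi_b_nonneg _
  rw [Finset.sum_pair Chi_e_ne, Chi_b_e, Chi_b_e, ← two_mul] at h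
  exact h

theorem Chi_G_pos (τ : ℍ) : 0 < Chi_G τ := by
  obtain ⟨g, hg⟩ := ModularGroup.exists_smul_mem_fd τ
  have h1 := ModularGroup.three_le_four_mul_im_sq_of_mem_fd hg
  have h2 : 1 / 2 < (g • τ).im := by nlinarith [(g • τ).im_pos]
  rw [← Chi_G_smul g]
  exact (mul_pos two_pos (Chi_b_pos h2)).trans_le (Chi_le _)

theorem Chi_G_high {τ : ℍ} (h : 2 ≤ τ.im) : Chi_G τ = 2 * Chi_b τ := by
  rw [Chi_G, tsum_eq_sum (s := {Chi_e 1, Chi_e (-1)}), Finset.sum_pair Chi_e_ne, Chi_b_e,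
    Chi_b_e, two_mul]
  intro x hx
  refine Chi_b_low ?_
  have h0 : x.1 0 ≠ 0 := by
    intro h0
    have h1 := x.2
    rw [h0, isCoprime_zero_left] at h1
    apply hx
    rw [Finset.mem_insert, Finset.mem_singleton]
    refine (Int.isUnit_iff.1 h1).imp (fun h2 => ?_) fun h2 => ?_
    all_goals
      refine Subtype.ext (funext fun i => ?_)
      fin_cases i
      · exact h0
      · exact h2
  have h1 : (1 : ℝ) ≤ (x.1 0 : ℝ) ^ 2 := by
    have : 1 ≤ x.1 0 ^ 2 := (one_le_sq_iff_one_le_abs _).2 (Int.one_le_abs h0)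
    exact_mod_cast this
  have h2 : τ.im ^ 2 ≤ Complex.normSq (dn (gam x) τ) := by
    rw [dn_gam, Complex.normSq_apply]
    simp only [Complex.add_im, Complex.mul_im, Complex.intCast_re, Complex.intCast_im, coe_im,
      zero_mul, add_zero]
    nlinarith [mul_self_nonneg (((x.1 0 : ℂ) * τ + x.1 1).re), sq_nonneg τ.im]
  rw [im_sl_smul, div_le_iff₀ (by nlinarith)]
  nlinarith

theorem exists_isChi : ∃ χ, IsChi χ := by
  refine ⟨fun τ => 2 * Chi_b τ / Chi_G τ, ?_, fun τ => ?_, fun τ => ?_, fun τ => ?_,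
    fun τ h => ?_, fun τ h => ?_, fun τ => ?_⟩
  · have h1 : C1 fun τ => (Chi_G τ : ℂ)⁻¹ :=
      ContDiffOn.inv Chi_G_c1 fun z _ => Complex.ofReal_ne_zero.2 (Chi_G_pos _).ne'
    have h2 := (((c1_const 2).1.mul Chi_b_c1).1.mul h1).1
    convert h2 using 2
    push_cast
    rw [div_eq_mul_inv]
  · exact div_nonneg (mul_nonneg zero_le_two (Chi_b_nonneg τ)) (Chi_G_pos τ).le
  · exact (div_le_one (Chi_G_pos τ)).2 (Chi_le τ)
  · rw [Chi_G_smul, Chi_b, ModularGroup.im_T_smul, Chi_b]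
  · rw [Chi_b_low h, mul_zero, zero_div]
  · rw [← Chi_G_high h, div_self (Chi_G_pos τ).ne']
  · simp only [Chi_G_smul]
    have h := ((Chi_summable τ).hasSum.mul_left 2).div_const (Chi_G τ)
    rwa [← Chi_G, mul_div_assoc, div_self (Chi_G_pos τ).ne', mul_one] at h

/-- The derivative of the partition of unity sums to zero. -/
theorem IsChi.hasSum_db {χ : ℍ → ℝ} (h : IsChi χ) (τ : ℍ) :
    HasSum (fun x : CP => db (fun τ => (χ (gam x • τ) : ℂ)) τ) 0 := by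
  obtain ⟨F, hF⟩ := Chi_loc τ
  have h1 : ∑ x ∈ F, db (fun τ => (χ (gam x • τ) : ℂ)) τ = 0 := by
    rw [← (c1_sum F fun x _ => (h.c1.smul (gam x)).1).2, ← (c1_const 2).2 τ]
    refine db_congr (hF.mono fun w hw => ?_)
    have h2 := (hasSum_sum_of_ne_finset_zero fun x hx => h.low _ (hw x hx)).unique (h.sum w)
    change ∑ x ∈ F, (χ (gam x • w) : ℂ) = 2
    rw [← Complex.ofReal_sum, h2, Complex.ofReal_ofNat]
  rw [← h1]
  refine hasSum_sum_of_ne_finset_zero fun x hx => ?_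
  rw [← (c1_const 0).2 τ]
  refine db_congr (hF.mono fun w hw => ?_)
  change (χ (gam x • w) : ℂ) = 0
  rw [h.low _ (hw x hx), Complex.ofReal_zero]

end

end Pool.Agent.P.MP_a60a76_nt.Sz
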