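import Pool.Agent.P.MP_a60a76_nt.Sz.FxB
import Pool.Agent.P.MP_a60a76_nt.Sz.FCov

namespace Pool.Agent.P.MP_a60a76_nt.Sz

open UpperHalfPlane hiding J
open MeasureTheory SP
open scoped MatrixGroups UpperHalfPlane Matrix Modular Topology Classical ArithmeticFunction.sigma

noncomputable section

/-! The test functional on sequences attached to lattice vectors. -/

theorem summable_th0 (t₁ t₂ : ℍ) {y : ℝ} (hy : 0 < y) : Summable fun W : MZ =>
    if W ≠ 0 ∧ Rm W t₁ t₂ = 0 then Real.exp (-(Real.pi * W.det / y)) else 0 := by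
  refine Summable.of_nonneg_of_le (fun W => ?_) (fun W => ?_)
    (summable_Th t₁ t₂ (r := (2 * y)⁻¹) (by positivity))
  · split_ifs
    · exact (Real.exp_pos _).le
    · exact le_rfl
  · split_ifs with h
    · rw [rm0_Mj h.2]
      refine le_of_eq ?_
      congr 2
      field_simp
    · exact (Real.exp_pos _).le

theorem Wt_fib {f : MZ → ℝ} (hf : Summable f) (h : ∀ W, f W ≠ 0 → 0 < W.det) :
    HasSum (fun n : ℕ => ∑' W : MZ, if W.det = n + 1 then f W else 0) (∑' W, f W) := by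
  have hi : Function.Injective fun W : MZ => ((W.det - 1).toNat, W) :=
    fun W W' e => congrArg Prod.snd e
  have h1 : HasSum (fun x : ℕ × MZ => if x.2.det = x.1 + 1 then f x.2 else 0) (∑' W, f W) := by
    refine (hi.hasSum_iff fun x hx => if_neg fun e => hx ⟨x.2, Prod.ext ?_ rfl⟩).1 ?_
    · simp only [e]
      omega
    · have e : ((fun x : ℕ × MZ => if x.2.det = x.1 + 1 then f x.2 else 0) ∘
          fun W : MZ => ((W.det - 1).toNat, W)) = f := by
        funext W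
        show (if W.det = ((W.det - 1).toNat : ℤ) + 1 then f W else 0) = f W
        by_cases h0 : f W = 0
        · rw [h0, ite_self]
        · have := h W h0
          exact if_pos (by omega)
      rw [e]
      exact hf.hasSum
  exact h1.prod_fiberwise fun n => (h1.summable.prod_factor n).hasSum

theorem Wt_aux {κ L x l : ℝ} (hκ : 0 ≤ κ) (hL : 0 ≤ L) (hx : 0 ≤ x) (h : l ≤ L + x) :
    (κ + l) * Real.exp (-(2 * Real.pi * x)) ≤ (κ + L + 1) * Real.exp (-(Real.pi * x)) := by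
  have hπ := Real.pi_gt_three
  have e : Real.exp (-(2 * Real.pi * x)) = Real.exp (-(Real.pi * x)) * Real.exp (-(Real.pi * x)) := by
    rw [← Real.exp_add]
    congr 1
    ring
  have h0 := Real.exp_pos (-(Real.pi * x))
  have h1 : Real.exp (-(Real.pi * x)) ≤ 1 := Real.exp_le_one_iff.2 (by nlinarith)
  have h2 : x * Real.exp (-(Real.pi * x)) ≤ 1 := by
    rw [Real.exp_neg, mul_inv_le_iff₀ (Real.exp_pos _), one_mul]
    nlinarith [Real.add_one_le_exp (Real.pi * x)]
  rw [e, ← mul_assoc]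
  refine mul_le_mul_of_nonneg_right ?_ h0.le
  nlinarith [mul_le_mul_of_nonneg_right h h0.le, mul_le_mul_of_nonneg_left h1 (add_nonneg hκ hL)]

namespace Par

variable {P : Par} {a a' : P.D → ℤ → ℝ} {c : P.D → ℤ → ℤ} {φ : MZ → ℝ} {y : ℝ}

theorem Adm.add (h : P.Adm a) (h' : P.Adm a') : P.Adm (a + a') := by
  refine ⟨fun η hη => ?_, fun k ν hν => ?_⟩
  · obtain ⟨C, hC⟩ := h.bound η hη
    obtain ⟨C', hC'⟩ := h'.bound η hη
    refine ⟨C + C', fun k ν hν => (abs_add_le _ _).trans ?_⟩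
    rw [add_mul]
    exact add_le_add (hC k ν hν) (hC' k ν hν)
  · by_cases h0 : a k ν = 0
    · exact h'.supp k ν fun h1 => hν (by simp [h0, h1])
    · exact h.supp k ν h0

theorem Adm.smul (h : P.Adm a) (r : ℝ) : P.Adm (r • a) := by
  refine ⟨fun η hη => ?_, fun k ν hν => h.supp k ν fun h1 => hν (by simp [h1])⟩
  obtain ⟨C, hC⟩ := h.bound η hη
  refine ⟨|r| * C, fun k ν hν => ?_⟩
  rw [Pi.smul_apply, Pi.smul_apply, smul_eq_mul, abs_mul, mul_assoc]
  exact mul_le_mul_of_nonneg_left (hC k ν hν) (abs_nonneg r)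

theorem Adm.sub (h : P.Adm a) (h' : P.Adm a') : P.Adm (a - a') := by
  rw [sub_eq_add_neg, ← neg_one_smul ℝ a']
  exact h.add (h'.smul _)

theorem adm_sum {ι : Type} (S : Finset ι) {a : ι → P.D → ℤ → ℝ} (h : ∀ i ∈ S, P.Adm (a i)) :
    P.Adm (∑ i ∈ S, a i) := by
  refine Finset.sum_induction a P.Adm (fun _ _ => Adm.add) ⟨fun η _ => ⟨0, fun k ν _ => ?_⟩,
    fun k ν hν => absurd rfl hν⟩ h
  simp

theorem Adm.summable (h : P.Adm a) (hy : 0 < y) (k : P.D) : Summable fun n : ℕ =>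
    a k (n + 1) * Real.exp (-(2 * Real.pi * (n + 1) * y / P.p ^ 2)) := by
  have hp := P.p_pos
  have hπ := Real.pi_pos
  have hη : 0 < Real.pi * y / P.p ^ 2 := by positivity
  obtain ⟨C, hC⟩ := h.bound _ hη
  have h1 : Summable fun n : ℕ => Real.exp (-(Real.pi * y / P.p ^ 2)) ^ (n + 1) :=
    (summable_nat_add_iff 1).2 (summable_geometric_of_lt_one (Real.exp_pos _).le
      (Real.exp_lt_one_iff.2 (neg_lt_zero.2 hη)))
  refine Summable.of_norm_bounded (h1.mul_left C) fun n => ?_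
  rw [Real.norm_eq_abs, abs_mul, abs_of_pos (Real.exp_pos _)]
  refine (mul_le_mul_of_nonneg_right (hC k (n + 1) (by positivity)) (Real.exp_pos _).le).trans
    (le_of_eq ?_)
  rw [mul_assoc, ← Real.exp_add, ← Real.exp_nat_mul]
  congr 2
  push_cast
  ring

theorem TT_add (h : P.Adm a) (h' : P.Adm a') (hy : 0 < y) :
    P.TT y (a + a') = P.TT y a + P.TT y a' := by
  simp only [TT, Pi.add_apply, add_mul]
  rw [(h.summable (inv_pos.2 hy) 0).tsum_add (h'.summable (inv_pos.2 hy) 0),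
    Finset.sum_congr rfl fun k _ => (h.summable hy k).tsum_add (h'.summable hy k),
    Finset.sum_add_distrib]
  ring

theorem TT_smul (r : ℝ) (a : P.D → ℤ → ℝ) (y : ℝ) : P.TT y (r • a) = r * P.TT y a := by
  simp only [TT, Pi.smul_apply, smul_eq_mul, mul_assoc r, tsum_mul_left, ← Finset.mul_sum]
  ring

theorem TT_sub (h : P.Adm a) (h' : P.Adm a') (hy : 0 < y) :
    P.TT y (a - a') = P.TT y a - P.TT y a' := by
  rw [sub_eq_add_neg, ← neg_one_smul ℝ a', TT_add h (h'.smul _) hy, TT_smul]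
  ring

theorem TT_sum {ι : Type} (S : Finset ι) {a : ι → P.D → ℤ → ℝ} (h : ∀ i ∈ S, P.Adm (a i))
    (hy : 0 < y) : P.TT y (∑ i ∈ S, a i) = ∑ i ∈ S, P.TT y (a i) := by
  induction S using Finset.induction_on with
  | empty => simp [TT]
  | insert i S hi ih =>
    have h1 : ∀ j ∈ S, P.Adm (a j) := fun j hj => h j (Finset.mem_insert_of_mem hj)
    rw [Finset.sum_insert hi, Finset.sum_insert hi,
      TT_add (h i (Finset.mem_insert_self i S)) (adm_sum S h1) hy, ih h1]

theorem pp_add (c : P.D → ℤ → ℤ) (a a' : P.D → ℤ → ℝ) :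
    P.pp c (a + a') = P.pp c a + P.pp c a' := by
  simp only [pp, Pi.add_apply, mul_add, Finset.sum_add_distrib]

theorem pp_smul (c : P.D → ℤ → ℤ) (r : ℝ) (a : P.D → ℤ → ℝ) : P.pp c (r • a) = r * P.pp c a := by
  simp only [pp, Pi.smul_apply, smul_eq_mul, Finset.mul_sum, mul_left_comm r]

theorem pp_sub (c : P.D → ℤ → ℤ) (a a' : P.D → ℤ → ℝ) :
    P.pp c (a - a') = P.pp c a - P.pp c a' := by
  simp only [pp, Pi.sub_apply, mul_sub, Finset.sum_sub_distrib]

theorem pp_sum (c : P.D → ℤ → ℤ) {ι : Type} (S : Finset ι) (a : ι → P.D → ℤ → ℝ) :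
    P.pp c (∑ i ∈ S, a i) = ∑ i ∈ S, P.pp c (a i) := by
  induction S using Finset.induction_on with
  | empty => simp [pp]
  | insert i S hi ih => rw [Finset.sum_insert hi, Finset.sum_insert hi, pp_add, ih]

theorem wt_pos (P : Par) (y : ℝ) (W : MZ) : 0 < P.wt y W := by
  have hp := P.p_pos
  refine add_pos_of_pos_of_nonneg (Real.exp_pos _) ?_
  split_ifs
  · positivity
  · exact le_rfl

theorem Wt_le (φ : MZ → ℝ) (η : ℝ) (k : P.D) (ν : ℤ) (W : MZ) :
    ‖if P.kap W = k ∧ W.det = ν then φ W else 0‖ ≤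
      |φ W| * Real.exp (-(η * W.det)) * Real.exp (η * ν) := by
  split_ifs with h1
  · rw [mul_assoc, ← Real.exp_add, h1.2, neg_add_cancel, Real.exp_zero, mul_one, Real.norm_eq_abs]
  · rw [norm_zero]
    positivity

theorem Sm.adm (h : P.Sm φ) : P.Adm (P.aW φ) := by
  refine ⟨fun η hη => ⟨∑' W : MZ, |φ W| * Real.exp (-(η * W.det)), fun k ν _ =>
    tsum_of_norm_bounded ((h.sum η hη).hasSum.mul_right _) (Wt_le φ η k ν)⟩, fun k ν hν => ?_⟩
  by_contra h1
  refine hν ?_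
  refine (tsum_congr fun W => ?_).trans tsum_zero
  split_ifs with h2
  · by_contra h3
    exact h1 (h2.1 ▸ h2.2 ▸ P.det_eq_Q (h.supp W h3).1)
  · rfl

theorem Wt_sum (h : P.Sm φ) (hy : 0 < y) :
    Summable fun W : MZ => φ W * Real.exp (-(2 * Real.pi * W.det * y / P.p ^ 2)) := by
  have hp := P.p_pos
  have hπ := Real.pi_pos
  refine Summable.of_norm_bounded (h.sum (2 * Real.pi * y / P.p ^ 2) (by positivity)) fun W => ?_
  rw [Real.norm_eq_abs, abs_mul, abs_of_pos (Real.exp_pos _)]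
  refine le_of_eq ?_
  congr 3
  ring

theorem Wt_sum' (h : P.Sm φ) (hy : 0 < y) (k : P.D) : Summable fun W : MZ =>
    if P.kap W = k then φ W * Real.exp (-(2 * Real.pi * W.det * y / P.p ^ 2)) else 0 := by
  refine Summable.of_norm_bounded (Wt_sum h hy).norm fun W => ?_
  split_ifs
  · exact le_rfl
  · rw [norm_zero]
    exact norm_nonneg _

theorem Wt_one (h : P.Sm φ) (hy : 0 < y) (k : P.D) :
    ∑' n : ℕ, P.aW φ k (n + 1) * Real.exp (-(2 * Real.pi * (n + 1) * y / P.p ^ 2)) =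
      ∑' W : MZ, if P.kap W = k then φ W * Real.exp (-(2 * Real.pi * W.det * y / P.p ^ 2))
        else 0 := by
  rw [← (Wt_fib (Wt_sum' h hy k) fun W hW => (h.supp W fun h0 => hW (by simp [h0])).2).tsum_eq]
  refine tsum_congr fun n => ?_
  rw [aW, ← tsum_mul_right]
  refine tsum_congr fun W => ?_
  by_cases h1 : P.kap W = k <;> by_cases h2 : W.det = n + 1 <;> simp [h1, h2]

theorem Wt_wt (φ : MZ → ℝ) (y : ℝ) (W : MZ) : φ W * P.wt y W =
    φ W * Real.exp (-(2 * Real.pi * W.det * y / P.p ^ 2)) + P.p / y ^ 2 *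
      if P.kap W = 0 then φ W * Real.exp (-(2 * Real.pi * W.det * y⁻¹ / P.p ^ 2)) else 0 := by
  rw [wt]
  split_ifs <;> ring

theorem Sm.summable_wt (h : P.Sm φ) (hy : 0 < y) : Summable fun W => φ W * P.wt y W := by
  simp only [Wt_wt]
  exact (Wt_sum h hy).add ((Wt_sum' h (inv_pos.2 hy) 0).mul_left _)

theorem Sm.TT_eq (h : P.Sm φ) (hy : 0 < y) : P.TT y (P.aW φ) = ∑' W, φ W * P.wt y W := by
  simp only [Wt_wt]
  rw [(Wt_sum h hy).tsum_add ((Wt_sum' h (inv_pos.2 hy) 0).mul_left _), tsum_mul_left, TT,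
    Wt_one h (inv_pos.2 hy), Finset.sum_congr rfl fun k _ => Wt_one h hy k,
    ← Summable.tsum_finsetSum fun k _ => Wt_sum' h hy k]
  congr 1
  exact tsum_congr fun W => by rw [Finset.sum_ite_eq, if_pos (Finset.mem_univ _)]

theorem Sm.pp_eq (h : P.Sm φ) (hc : P.IsF 0 c) : P.pp c (P.aW φ) = ∑' W, P.cX c W * φ W := by
  have h1 : ∀ (k : P.D) (ν : ℤ), Summable fun W : MZ =>
      (c k (-ν) : ℝ) * if P.kap W = k ∧ W.det = ν then φ W else 0 := fun k ν =>
    (Summable.of_norm_bounded ((h.sum 1 one_pos).mul_right _) (Wt_le φ 1 k ν)).mul_left _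
  simp only [pp, aW, ← tsum_mul_left]
  rw [Finset.sum_congr rfl fun k _ => (Summable.tsum_finsetSum fun ν _ => h1 k ν).symm,
    ← Summable.tsum_finsetSum fun k _ => summable_sum fun ν _ => h1 k ν]
  refine tsum_congr fun W => ?_
  by_cases h0 : φ W = 0
  · simp [h0]
  obtain ⟨h2, h3⟩ := h.supp W h0
  have h4 : W ≠ 0 := by
    rintro rfl
    simp at h3
  rw [cX, if_pos ⟨h2, h4⟩, Finset.sum_eq_single (P.kap W) (fun k _ hk => by simp [hk.symm])
    (fun hk => absurd (Finset.mem_univ _) hk), Finset.sum_eq_single W.det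
    (fun ν _ hν => by simp [hν.symm]) fun hν => ?_, if_pos ⟨rfl, rfl⟩]
  rw [hc.lo_spec _ _ (by rw [Finset.mem_Icc] at hν; omega), Int.cast_zero, zero_mul]

theorem sm_z0 (P : Par) (t₁ t₂ : ℍ) : P.Sm (P.z0 t₁ t₂) := by
  have hπ := Real.pi_pos
  refine ⟨fun W hW => ?_, fun η hη => ?_⟩
  · have h1 : P.InL W ∧ W ≠ 0 ∧ Rm W t₁ t₂ = 0 := by
      by_contra h
      exact hW (if_neg h)
    exact ⟨h1.1, rm0_det_pos h1.2.2 h1.2.1⟩
  · refine Summable.of_nonneg_of_le (fun W => by positivity) (fun W => ?_)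
      (summable_th0 t₁ t₂ (y := Real.pi / η) (by positivity))
    rw [z0]
    by_cases h : P.InL W ∧ W ≠ 0 ∧ Rm W t₁ t₂ = 0
    · rw [if_pos h, if_pos h.2, abs_one, one_mul]
      refine le_of_eq ?_
      congr 2
      field_simp
    · rw [if_neg h, abs_zero, zero_mul]
      split_ifs
      · exact (Real.exp_pos _).le
      · exact le_rfl

theorem sm_z0_log (P : Par) (t₁ t₂ : ℍ) (κ : ℝ) :
    P.Sm fun W => P.z0 t₁ t₂ W * (κ + Real.log (W.det / P.p ^ 2)) := by
  have h := P.sm_z0 t₁ t₂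
  refine ⟨fun W hW => h.supp W (left_ne_zero_of_mul hW), fun η hη => ?_⟩
  refine Summable.of_nonneg_of_le (fun W => by positivity) (fun W => ?_)
    ((h.sum (η / 2) (half_pos hη)).mul_left (|κ| + |Real.log (P.p ^ 2)| + 2 / η))
  by_cases h0 : P.z0 t₁ t₂ W = 0
  · simp [h0]
  have h1 : (1 : ℝ) ≤ W.det := by exact_mod_cast (h.supp W h0).2
  have hp := P.p_pos
  have h2 : |κ + Real.log (W.det / P.p ^ 2)| ≤ |κ| + |Real.log (P.p ^ 2)| + W.det := by
    rw [Real.log_div (by linarith) (by positivity)]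
    have h3 := Real.log_nonneg h1
    have h4 := Real.log_le_sub_one_of_pos (by linarith : (0 : ℝ) < W.det)
    have := le_abs_self κ
    have := neg_abs_le κ
    have := le_abs_self (Real.log (P.p ^ 2))
    have := neg_abs_le (Real.log (P.p ^ 2))
    exact abs_le.2 ⟨by linarith, by linarith⟩
  have e : Real.exp (-(η * W.det)) = Real.exp (-(η / 2 * W.det)) * Real.exp (-(η / 2 * W.det)) := by
    rw [← Real.exp_add]
    congr 1
    ring
  have h5 := Real.exp_pos (-(η / 2 * W.det))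
  have h6 : Real.exp (-(η / 2 * W.det)) ≤ 1 := Real.exp_le_one_iff.2 (neg_nonpos.2 (by positivity))
  have h7 : W.det * Real.exp (-(η / 2 * W.det)) ≤ 2 / η := by
    rw [Real.exp_neg, mul_inv_le_iff₀ (Real.exp_pos _), div_mul_eq_mul_div, le_div_iff₀ hη]
    linarith [Real.add_one_le_exp (η / 2 * W.det)]
  have h8 : |κ + Real.log (W.det / P.p ^ 2)| * Real.exp (-(η / 2 * W.det)) ≤
      |κ| + |Real.log (P.p ^ 2)| + 2 / η := by
    have := mul_le_mul_of_nonneg_right h2 h5.le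
    have := mul_le_mul_of_nonneg_left h6 (add_nonneg (abs_nonneg κ) (abs_nonneg (Real.log (P.p ^ 2))))
    linarith
  rw [abs_mul, e]
  have := mul_le_mul_of_nonneg_right h8 (mul_nonneg (abs_nonneg (P.z0 t₁ t₂ W)) h5.le)
  linarith

theorem Ort.tsum_le {t₁ t₂ : ℍ} (h : P.Ort t₁ t₂) {κ : ℝ} (hκ : 0 ≤ κ) (h1 : (P.p : ℝ)⁻¹ ≤ y)
    (h2 : y ≤ P.p) :
    ∑' W, P.z0 t₁ t₂ W * (κ + Real.log (W.det / P.p ^ 2)) * P.wt y W ≤
      (κ + Real.log P.p + 1) * (Th0 t₁ t₂ y⁻¹ + P.p / y ^ 2 * Th0 t₁ t₂ y) := by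
  have hp := P.p_pos
  have hy : 0 < y := (inv_pos.2 hp).trans_le h1
  have hp0 : (P.p : ℤ) ≠ 0 := Int.natCast_ne_zero.2 P.prime.ne_zero
  have hi : Function.Injective fun W : MZ => (P.p : ℤ) • W := smul_right_injective MZ hp0
  have hL : 0 ≤ Real.log P.p := Real.log_natCast_nonneg _
  have s1 := summable_th0 t₁ t₂ (inv_pos.2 hy)
  have s2 := (summable_th0 t₁ t₂ hy).mul_left (P.p / y ^ 2)
  rw [← hi.tsum_eq fun W hW => ?_, Th0, Th0, ← tsum_mul_left, ← s1.tsum_add s2, ← tsum_mul_left]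
  · refine (((P.sm_z0_log t₁ t₂ κ).summable_wt hy).comp_injective hi).tsum_le_tsum (fun W => ?_)
      ((s1.add s2).mul_left _)
    show P.z0 t₁ t₂ ((P.p : ℤ) • W) * (κ + Real.log (((P.p : ℤ) • W).det / P.p ^ 2)) *
      P.wt y ((P.p : ℤ) • W) ≤ _
    by_cases h3 : W ≠ 0 ∧ Rm W t₁ t₂ = 0
    · have h4 : (1 : ℝ) ≤ W.det := by exact_mod_cast rm0_det_pos h3.2 h3.1
      have h5 : ((((P.p : ℤ) • W).det : ℤ) : ℝ) = P.p ^ 2 * W.det := by
        rw [Matrix.det_smul, Fintype.card_fin]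
        push_cast
        rfl
      have h6 : Real.log W.det ≤ Real.log P.p + W.det / P.p := by
        have := Real.log_le_sub_one_of_pos (by positivity : (0 : ℝ) < W.det / P.p)
        rw [Real.log_div (by linarith) hp.ne'] at this
        linarith
      have k1 := Wt_aux hκ hL (x := W.det * y) (by positivity) (h6.trans (add_le_add le_rfl
        (mul_le_mul_of_nonneg_left h1 (by linarith))))
      have k2 := Wt_aux hκ hL (x := W.det * y⁻¹) (by positivity) (h6.trans (add_le_add le_rfl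
        (mul_le_mul_of_nonneg_left (inv_anti₀ hy h2) (by linarith))))
      have k3 : P.wt y ((P.p : ℤ) • W) ≤ Real.exp (-(2 * Real.pi * (W.det * y))) +
          P.p / y ^ 2 * Real.exp (-(2 * Real.pi * (W.det * y⁻¹))) := by
        have e : ∀ z : ℝ, 2 * Real.pi * (P.p ^ 2 * W.det) * z / P.p ^ 2 =
            2 * Real.pi * (W.det * z) := fun z => by field_simp
        rw [wt, h5, e, e]
        split_ifs
        · exact le_rfl
        · exact add_le_add le_rfl (by positivity)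
      have k4 : 0 ≤ κ + Real.log W.det := add_nonneg hκ (Real.log_nonneg h4)
      rw [if_pos h3, if_pos h3, z0, if_pos ⟨P.inL_smul W, smul_ne_zero hp0 h3.1, rm0_zsmul _ h3.2⟩,
        one_mul, h5, mul_div_cancel_left₀ _ (by positivity), div_inv_eq_mul, div_eq_mul_inv _ y,
        mul_assoc Real.pi, mul_assoc Real.pi]
      have k5 := mul_le_mul_of_nonneg_left k3 k4
      have k6 := mul_le_mul_of_nonneg_left k2 (by positivity : 0 ≤ P.p / y ^ 2)
      linarith
    · rw [if_neg h3, if_neg h3, z0, if_neg fun h4 => h3 ⟨fun h5 => h4.2.1 (by rw [h5, smul_zero]),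
        rm0_of_zsmul hp0 h4.2.2⟩]
      simp
  · have h3 : P.InL W ∧ W ≠ 0 ∧ Rm W t₁ t₂ = 0 := by
      by_contra h3
      exact hW (by simp only [z0, if_neg h3, zero_mul])
    obtain ⟨W', e⟩ := h W h3.1 h3.2.2
    exact ⟨W', e.symm⟩

end Par

end

end Pool.Agent.P.MP_a60a76_nt.Sz
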