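import Pool.Agent.P.MP_a60a76_nt.Sz.Disc
import Pool.Agent.P.MP_a60a76_nt.Sz.Wt

namespace Pool.Agent.P.MP_a60a76_nt.Sz

open UpperHalfPlane hiding J
open MeasureTheory SP
open scoped MatrixGroups UpperHalfPlane Matrix Modular Topology Classical ArithmeticFunction.sigma

noncomputable section

/-! Counting singular lattice vectors at points with complex multiplication. -/

theorem Cnt_lower (P : Par) (s₁ s₂ : ℍ) {y : ℝ} (hy : 0 < y) (S : Finset MZ) {i : MZ → MZ}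
    (hi : Function.Injective i) {b : ℝ}
    (h : ∀ W ∈ S, (P.InL (i W) ∧ i W ≠ 0 ∧ Rm (i W) s₁ s₂ = 0) ∧ b ≤ P.wt y (i W)) :
    S.card * b ≤ ∑' W, P.z0 s₁ s₂ W * P.wt y W := by
  refine le_trans ?_ (((P.sm_z0 s₁ s₂).summable_wt hy).sum_le_tsum (S.map ⟨i, hi⟩) fun W _ =>
    mul_nonneg ?_ (P.wt_pos y W).le)
  · rw [Finset.sum_map, ← nsmul_eq_mul]
    refine Finset.card_nsmul_le_sum _ _ _ fun W hW => ?_
    rw [Function.Embedding.coeFn_mk, Par.z0, if_pos (h W hW).1, one_mul]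
    exact (h W hW).2
  · rw [Par.z0]
    split_ifs
    · exact zero_le_one
    · exact le_rfl

theorem Cnt_count {s₁ s₂ : ℍ} {Y₁ Y₂ : MZ} (hC : Cm s₁ s₂ Y₁ Y₂) {R : ℝ} (hR : 0 ≤ R) :
    ∃ S : Finset MZ, (∀ Z ∈ S, Rm Z s₁ s₂ = 0 ∧ (Z.det : ℝ) ≤ R) ∧
      4 * R / (7 * Real.sqrt (dsc Y₁)) ≤ S.card := by
  obtain ⟨Z₁, Z₂, hB⟩ := hC.exists_isB
  obtain ⟨S, h1, h2⟩ := hB.count hR
  refine ⟨S, h1, le_trans ?_ h2⟩
  have h3 : (gr Z₁ Z₂ : ℝ) ≤ dsc Y₁ := Int.cast_le.2 (Int.le_of_dvd hC.dsc_pos (hB.gr_dvd hC))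
  have h4 : (3 : ℝ) ≤ gr Z₁ Z₂ := by exact_mod_cast hB.three_le
  have h5 : Real.sqrt (3 * gr Z₁ Z₂) ≤ 7 / 4 * Real.sqrt (dsc Y₁) := by
    rw [Real.sqrt_le_left (by positivity), mul_pow, Real.sq_sqrt (by linarith)]
    linarith
  have h6 : 0 < Real.sqrt (3 * gr Z₁ Z₂) := Real.sqrt_pos.2 (by linarith)
  rw [show 4 * R / (7 * Real.sqrt (dsc Y₁)) = R / (7 / 4 * Real.sqrt (dsc Y₁)) by ring]
  exact div_le_div_of_nonneg_left hR h6 h5

theorem Cnt_erase (S : Finset MZ) (W : MZ) {t : ℝ} (h2 : 2 ≤ t) (h : t ≤ S.card) :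
    t / 2 ≤ (S.erase W).card := by
  have h1 : S.card ≤ (S.erase W).card + 1 := by
    have := Finset.pred_card_le_card_erase (s := S) (a := W)
    omega
  have h3 : (S.card : ℝ) ≤ (S.erase W).card + 1 := by exact_mod_cast h1
  linarith

theorem cnt_plus : ∃ c : ℝ, 0 < c ∧ ∀ (P : Par) (s₁ s₂ : ℍ) (Y₁ Y₂ : MZ) (y : ℝ),
    Cm s₁ s₂ Y₁ Y₂ → P.TyP P.Dm Y₁ Y₂ → dsc Y₁ < (P.p : ℤ) ^ 2 → 0 < y →
    14 * Real.sqrt (dsc Y₁) * y ≤ P.p →
    c * P.p / (y * Real.sqrt (dsc Y₁)) ≤ ∑' W, P.z0 s₁ s₂ W * P.wt y W := by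
  have he := Real.exp_pos (-(2 * Real.pi))
  refine ⟨Real.exp (-(2 * Real.pi)) / 14, by positivity, fun P s₁ s₂ Y₁ Y₂ y hC hT hD hy hp => ?_⟩
  have p0 := P.p_pos
  have d0 : 0 < Real.sqrt (dsc Y₁) := Real.sqrt_pos.2 (Int.cast_pos.2 hC.dsc_pos)
  obtain ⟨S, h1, h2⟩ := Cnt_count hC (R := P.p ^ 2 / y / 4) (by positivity)
  obtain ⟨β, hβ⟩ := Par.exists_beta hC hT hD
  obtain ⟨x, -, hx⟩ := Finset.exists_le_card_fiber_of_nsmul_le_card_of_maps_to (s := S)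
    (t := Finset.univ) (f := β) (b := P.p / (7 * (y * Real.sqrt (dsc Y₁))))
    (fun _ _ => Finset.mem_univ _) Finset.univ_nonempty (by
      rw [Finset.card_univ, ZMod.card, nsmul_eq_mul]
      refine le_trans (le_of_eq ?_) h2
      field_simp)
  have h3 : 2 ≤ P.p / (7 * (y * Real.sqrt (dsc Y₁))) := by
    rw [le_div_iff₀ (by positivity)]
    linarith
  obtain ⟨W₀, hW₀⟩ : (S.filter fun W => β W = x).Nonempty :=
    Finset.card_pos.1 (Nat.cast_pos.1 (by linarith : (0 : ℝ) < _))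
  obtain ⟨k1, k2⟩ := Finset.mem_filter.1 hW₀
  have h4 := Cnt_lower P s₁ s₂ hy ((S.filter fun W => β W = x).erase W₀)
    (sub_left_injective (b := W₀)) (b := Real.exp (-(2 * Real.pi))) fun W hW => by
      obtain ⟨k3, k4⟩ := Finset.mem_erase.1 hW
      obtain ⟨k5, k6⟩ := Finset.mem_filter.1 k4
      refine ⟨⟨hβ W W₀ (h1 W k5).1 (h1 W₀ k1).1 (k6.trans k2.symm), sub_ne_zero.2 k3,
        rm0_sub (h1 W k5).1 (h1 W₀ k1).1⟩, ?_⟩
      have k7 : (((W - W₀).det : ℤ) : ℝ) ≤ 2 * W.det + 2 * W₀.det := by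
        exact_mod_cast rm0_det_sub_le (h1 W k5).1 (h1 W₀ k1).1
      have k8 : (((W - W₀).det : ℤ) : ℝ) ≤ P.p ^ 2 / y := by linarith [(h1 W k5).2, (h1 W₀ k1).2]
      rw [le_div_iff₀ hy] at k8
      refine le_add_of_le_of_nonneg (Real.exp_le_exp.2 (neg_le_neg ?_)) ?_
      · rw [div_le_iff₀ (by positivity), mul_assoc]
        exact mul_le_mul_of_nonneg_left k8 (by positivity)
      · split_ifs
        · positivity
        · exact le_rfl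
  refine le_trans (le_of_eq ?_) ((mul_le_mul_of_nonneg_right (Cnt_erase _ W₀ h3 hx) he.le).trans h4)
  field_simp
  norm_num

theorem cnt_minus : ∃ c : ℝ, 0 < c ∧ ∀ (P : Par) (s₁ s₂ : ℍ) (Y₁ Y₂ : MZ) (y : ℝ),
    Cm s₁ s₂ Y₁ Y₂ → P.TyM P.Dm Y₁ Y₂ → ¬ (P.p : ℤ) ∣ dsc Y₁ → 4 * Real.sqrt (dsc Y₁) ≤ y →
    c * P.p / (y * Real.sqrt (dsc Y₁)) ≤ ∑' W, P.z0 s₁ s₂ W * P.wt y W := by
  have he := Real.exp_pos (-(2 * Real.pi))
  refine ⟨Real.exp (-(2 * Real.pi)) * (2 / 7), by positivity,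
    fun P s₁ s₂ Y₁ Y₂ y hC hT hD hp => ?_⟩
  have p0 := P.p_pos
  have d0 : 0 < Real.sqrt (dsc Y₁) := Real.sqrt_pos.2 (Int.cast_pos.2 hC.dsc_pos)
  have hy : 0 < y := by linarith
  have hp0 : (P.p : ℤ) ≠ 0 := Int.natCast_ne_zero.2 P.prime.ne_zero
  obtain ⟨S, h1, h2⟩ := Cnt_count hC hy.le
  have h3 : 2 ≤ 4 * y / (7 * Real.sqrt (dsc Y₁)) := by
    rw [le_div_iff₀ (by positivity)]
    linarith
  have h4 := Cnt_lower P s₁ s₂ hy (S.erase 0) (smul_right_injective MZ hp0)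
    (b := P.p / y ^ 2 * Real.exp (-(2 * Real.pi))) fun W hW => by
      obtain ⟨k3, k4⟩ := Finset.mem_erase.1 hW
      refine ⟨⟨P.inL_smul W, smul_ne_zero hp0 k3, rm0_zsmul _ (h1 W k4).1⟩, ?_⟩
      have h5 : ((((P.p : ℤ) • W).det : ℤ) : ℝ) = P.p ^ 2 * W.det := by
        rw [Matrix.det_smul, Fintype.card_fin]
        push_cast
        rfl
      have h6 : P.kap ((P.p : ℤ) • W) = 0 := by
        rw [P.kap_smul, hT.bl_eq_zero hC hD (h1 W k4).1, Par.up, ZMod.val_zero, Nat.cast_zero,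
          mul_zero]
      show _ ≤ P.wt y ((P.p : ℤ) • W)
      rw [Par.wt, if_pos h6, h5]
      refine le_add_of_nonneg_of_le (Real.exp_pos _).le (mul_le_mul_of_nonneg_left
        (Real.exp_le_exp.2 (neg_le_neg ?_)) (by positivity))
      rw [show 2 * Real.pi * (P.p ^ 2 * W.det) * y⁻¹ / P.p ^ 2 = 2 * Real.pi * (W.det / y) by
        field_simp]
      exact mul_le_of_le_one_right (by positivity) ((div_le_one hy).2 (h1 W k4).2)
  refine le_trans (le_of_eq ?_)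
    ((mul_le_mul_of_nonneg_right (Cnt_erase _ 0 h3 h2) (by positivity)).trans h4)
  field_simp
  norm_num

end

end Pool.Agent.P.MP_a60a76_nt.Sz
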