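import Pool.Agent.P.MP_a60a76_nt.Sz.ZqF

namespace Pool.Agent.P.MP_a60a76_nt.Sz

open UpperHalfPlane hiding J
open MeasureTheory SP
open scoped MatrixGroups UpperHalfPlane Matrix Modular Topology Classical ArithmeticFunction.sigma

noncomputable section

/-! Calculus of coordinates. -/

section

variable {K : Type} [NormedField K] [IsUltrametricDist K] {ι : ℂ →+* K} {a b c d : ℂ}

theorem CoA_add (h : ‖ι a‖ < 1) (h' : ‖ι b‖ < 1) : ‖ι (a + b)‖ < 1 := by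
  rw [map_add]
  exact (IsUltrametricDist.norm_add_le_max _ _).trans_lt (max_lt h h')

theorem CoA_addle (h : ‖ι a‖ ≤ 1) (h' : ‖ι b‖ ≤ 1) : ‖ι (a + b)‖ ≤ 1 := by
  rw [map_add]
  exact (IsUltrametricDist.norm_add_le_max _ _).trans (max_le h h')

omit [IsUltrametricDist K] in
theorem CoA_mul (h : ‖ι a‖ ≤ 1) (h' : ‖ι b‖ < 1) : ‖ι (a * b)‖ < 1 := by
  rw [map_mul, norm_mul]
  exact mul_lt_one_of_nonneg_of_lt_one_right h (norm_nonneg _) h'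

omit [IsUltrametricDist K] in
theorem CoA_mulle (h : ‖ι a‖ ≤ 1) (h' : ‖ι b‖ ≤ 1) : ‖ι (a * b)‖ ≤ 1 := by
  rw [map_mul, norm_mul]
  exact mul_le_one₀ h (norm_nonneg _) h'

omit [IsUltrametricDist K] in
theorem CoA_powle (h : ‖ι a‖ ≤ 1) (n : ℕ) : ‖ι (a ^ n)‖ ≤ 1 := by
  rw [map_pow, norm_pow]
  exact pow_le_one₀ (norm_nonneg _) h

omit [IsUltrametricDist K] in
theorem CoA_root (h : a ^ 6 = 1) : ‖ι a‖ = 1 := by
  have h1 : ‖ι a‖ ^ 6 = 1 := by rw [← norm_pow, ← map_pow, h, map_one, norm_one]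
  exact (pow_eq_one_iff_of_nonneg (norm_nonneg _) (by norm_num)).1 h1

omit [IsUltrametricDist K] in
theorem CoA_symm (h : ‖ι (a - b)‖ < 1) : ‖ι (b - a)‖ < 1 := by
  rwa [← neg_sub, map_neg, norm_neg]

theorem CoA_trans (h : ‖ι (a - b)‖ < 1) (h' : ‖ι (b - c)‖ < 1) : ‖ι (a - c)‖ < 1 := by
  simpa only [sub_add_sub_cancel] using CoA_add h h'

theorem CoA_le (h : ‖ι (a - b)‖ < 1) (ha : ‖ι a‖ ≤ 1) : ‖ι b‖ ≤ 1 := by
  simpa only [sub_add_cancel] using CoA_addle (CoA_symm h).le ha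

theorem CoA_suble (h : ‖ι a‖ ≤ 1) (h' : ‖ι b‖ ≤ 1) : ‖ι (a - b)‖ ≤ 1 := by
  rw [sub_eq_add_neg]
  exact CoA_addle h (by rwa [map_neg, norm_neg])

theorem CoA_sub (h : ‖ι (a - b)‖ < 1) (h' : ‖ι (c - d)‖ < 1) : ‖ι (a - c - (b - d))‖ < 1 := by
  rw [show a - c - (b - d) = a - b + (d - c) by ring]
  exact CoA_add h (CoA_symm h')

omit [IsUltrametricDist K] in
theorem CoA_smul (ha : ‖ι a‖ ≤ 1) (h : ‖ι (c - d)‖ < 1) : ‖ι (a * c - a * d)‖ < 1 := by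
  rw [← mul_sub]
  exact CoA_mul ha h

theorem CoA_cmul (h : ‖ι (a - b)‖ < 1) (h' : ‖ι (c - d)‖ < 1) (ha : ‖ι a‖ ≤ 1) (hc : ‖ι c‖ ≤ 1) :
    ‖ι (a * c - b * d)‖ < 1 := by
  rw [show a * c - b * d = a * (c - d) + d * (a - b) by ring]
  exact CoA_add (CoA_mul ha h') (CoA_mul (CoA_le h' hc) h)

theorem CoA_cpow (h : ‖ι (a - b)‖ < 1) (ha : ‖ι a‖ ≤ 1) (n : ℕ) : ‖ι (a ^ n - b ^ n)‖ < 1 := by
  induction n with
  | zero => simp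
  | succ n ih => simpa only [pow_succ] using CoA_cmul ih h (CoA_powle ha n) ha

theorem CoA_canc {κ x y : ℂ} {i j : ℕ} (hij : i + j = 6) (hκ : κ ^ 6 = 1) (hd : ‖ι d‖ = 1)
    (h : ‖ι (κ * d - c)‖ < 1) (hy : ‖ι y‖ ≤ 1) (e : ‖ι (d ^ i * x - c ^ i * y)‖ < 1) :
    ‖ι (y - κ ^ j * x)‖ < 1 := by
  have h1 := CoA_mul (CoA_powle (CoA_root hκ).le j) (CoA_add (CoA_mul hy
    (CoA_cpow h (CoA_mulle (CoA_root hκ).le hd.le) i)) (CoA_symm e))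
  have h2 : κ ^ j * (y * ((κ * d) ^ i - c ^ i) + (c ^ i * y - d ^ i * x)) =
      d ^ i * (y - κ ^ j * x) := by
    rw [← hij, pow_add] at hκ
    rw [mul_pow]
    linear_combination d ^ i * y * hκ
  rwa [h2, map_mul, map_pow, norm_mul, norm_pow, hd, one_pow, one_mul] at h1

end

theorem root_eq_one {K : Type} [NormedField K] [IsUltrametricDist K] (ι : ℂ →+* K)
    (h6 : ‖(6 : K)‖ = 1) {κ : ℂ} (hκ : κ ^ 6 = 1) (h : ‖ι (κ - 1)‖ < 1) : κ = 1 := by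
  by_contra hne
  have h0 : κ ^ 5 + κ ^ 4 + κ ^ 3 + κ ^ 2 + κ + 1 = 0 :=
    mul_left_cancel₀ (sub_ne_zero.2 hne) (by linear_combination hκ)
  have h1 := fun n => CoA_cpow h (CoA_root hκ).le n
  have h2 := CoA_add (CoA_add (CoA_add (CoA_add (h1 5) (h1 4)) (h1 3)) (h1 2)) h
  rw [show κ ^ 5 - 1 ^ 5 + (κ ^ 4 - 1 ^ 4) + (κ ^ 3 - 1 ^ 3) + (κ ^ 2 - 1 ^ 2) + (κ - 1) = -6 by
    linear_combination h0, map_neg, norm_neg, map_ofNat, h6] at h2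
  exact lt_irrefl _ h2

namespace Par

variable {P : Par}

theorem pm_of_vec {ρ δ : P.MF} (hδ : δ.det ≠ 0)
    (h : ∀ v : Fin 2 → P.F, v ≠ 0 → v ᵥ* ρ = v ᵥ* δ ∨ v ᵥ* ρ = -(v ᵥ* δ)) : ρ = δ ∨ ρ = -δ := by
  have key : ∀ v : Fin 2 → P.F, v ᵥ* ρ = v ᵥ* δ ∨ v ᵥ* ρ = -(v ᵥ* δ) := fun v => by
    by_cases hv : v = 0
    · left
      rw [hv, Matrix.zero_vecMul, Matrix.zero_vecMul]
    exact h v hv
  have ext : ∀ X Y : P.MF, (∀ v, v ᵥ* X = v ᵥ* Y) → X = Y := fun X Y hXY => by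
    funext i
    have := hXY (Pi.single i 1)
    rwa [Matrix.single_one_vecMul, Matrix.single_one_vecMul] at this
  by_contra hcon
  push Not at hcon
  obtain ⟨a, ha⟩ := not_forall.1 fun h' => hcon.1 (ext _ _ h')
  obtain ⟨b, hb⟩ := not_forall.1 fun h' => hcon.2 (ext _ _ h')
  rw [Matrix.vecMul_neg] at hb
  have ha' := (key a).resolve_left ha
  have hb' := (key b).resolve_right hb
  rcases key (a + b) with h1 | h1
  · rw [Matrix.add_vecMul, Matrix.add_vecMul, hb'] at h1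
    exact ha (add_right_cancel h1)
  · rw [Matrix.add_vecMul, Matrix.add_vecMul, ha', neg_add] at h1
    exact hb (add_left_cancel h1)

namespace Co

variable {K : Type} [NormedField K] [IsUltrametricDist K] {ι : ℂ →+* K} {u w z : P.Co}
  {κ : ℂ} {l : ℕ}

theorem tw_tw (u : P.Co) (ρ δ : P.MF) : (u.tw ρ).tw δ = u.tw (δ * ρ) := by
  exact Co.ext (funext fun v => congrArg u.x (Matrix.vecMul_vecMul _ _ _)) rfl rfl

theorem tw_one (u : P.Co) : u.tw 1 = u := by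
  exact Co.ext (funext fun v => congrArg u.x (Matrix.vecMul_one _)) rfl rfl

theorem sc_sc (u : P.Co) (κ κ' : ℂ) : (u.sc κ).sc κ' = u.sc (κ' * κ) := by
  refine Co.ext (funext fun v => ?_) ?_ ?_ <;> simp only [sc] <;> ring

theorem sc_one (u : P.Co) : u.sc 1 = u := by
  refine Co.ext (funext fun v => ?_) ?_ ?_ <;> simp only [sc] <;> ring

theorem tw_sc (u : P.Co) (κ : ℂ) (ρ : P.MF) : (u.sc κ).tw ρ = (u.tw ρ).sc κ := by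
  rfl

theorem pw_sc (u : P.Co) (κ : ℂ) (n : ℕ) : (u.sc κ).pw n = (u.pw n).sc (κ ^ n) := by
  refine Co.ext (funext fun v => ?_) ?_ ?_ <;> simp only [sc, pw] <;> ring

theorem Cl.refl (u : P.Co) (ι : ℂ →+* K) : u.Cl u ι := by
  refine ⟨fun v => ?_, ?_, ?_⟩ <;> simp

theorem Cl.symm (h : u.Cl w ι) : w.Cl u ι := by
  exact ⟨fun v => CoA_symm (h.1 v), CoA_symm h.2.1, CoA_symm h.2.2⟩

theorem Cl.trans (h : u.Cl w ι) (h' : w.Cl z ι) : u.Cl z ι := by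
  exact ⟨fun v => CoA_trans (h.1 v) (h'.1 v), CoA_trans h.2.1 h'.2.1, CoA_trans h.2.2 h'.2.2⟩

theorem Cl.tw (h : u.Cl w ι) (ρ : P.MF) : (u.tw ρ).Cl (w.tw ρ) ι := by
  exact ⟨fun v => h.1 _, h.2⟩

theorem Cl.sc (h : u.Cl w ι) (hκ : κ ^ 6 = 1) : (u.sc κ).Cl (w.sc κ) ι := by
  have h1 := (CoA_root (ι := ι) hκ).le
  exact ⟨fun v => CoA_smul h1 (h.1 v), CoA_smul (CoA_powle h1 2) h.2.1,
    CoA_smul (CoA_powle h1 3) h.2.2⟩

theorem Cl.itg (h : u.Cl w ι) (hu : u.Itg ι) : w.Itg ι := by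
  exact ⟨fun v => CoA_le (h.1 v) (hu.1 v), CoA_le h.2.1 hu.2.1, CoA_le h.2.2 hu.2.2⟩

theorem Cl.pw (h : u.Cl w ι) (hu : u.Itg ι) (n : ℕ) : (u.pw n).Cl (w.pw n) ι := by
  exact ⟨fun v => CoA_cpow (h.1 v) (hu.1 v) n, CoA_cpow h.2.1 hu.2.1 n, CoA_cpow h.2.2 hu.2.2 n⟩

theorem Cl.sim (h : u.Cl w ι) : u.Sim w ι := by
  exact ⟨1, one_pow 6, by rw [sc_one]; exact h.symm⟩

theorem sim_sc (u : P.Co) (ι : ℂ →+* K) (hκ : κ ^ 6 = 1) : u.Sim (u.sc κ) ι := by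
  exact ⟨κ, hκ, Cl.refl _ ι⟩

theorem Sim.refl (u : P.Co) (ι : ℂ →+* K) : u.Sim u ι := by
  exact (Cl.refl u ι).sim

theorem Sim.symm (h : u.Sim w ι) : w.Sim u ι := by
  obtain ⟨κ, hκ, h⟩ := h
  have h1 : (κ ^ 5) ^ 6 = 1 := by rw [pow_right_comm, hκ, one_pow]
  have h2 := (h.sc h1).symm
  rw [sc_sc, ← pow_succ, hκ, sc_one] at h2
  exact ⟨_, h1, h2⟩

theorem Sim.trans (h : u.Sim w ι) (h' : w.Sim z ι) : u.Sim z ι := by
  obtain ⟨κ, hκ, h⟩ := h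
  obtain ⟨κ', hκ', h'⟩ := h'
  refine ⟨κ' * κ, by rw [mul_pow, hκ, hκ', mul_one], ?_⟩
  rw [← sc_sc]
  exact h'.trans (h.sc hκ')

theorem Sim.tw (h : u.Sim w ι) (ρ : P.MF) : (u.tw ρ).Sim (w.tw ρ) ι := by
  exact h.imp fun κ h => ⟨h.1, h.2.tw ρ⟩

theorem Itg.tw (h : u.Itg ι) (ρ : P.MF) : (u.tw ρ).Itg ι := by
  exact ⟨fun v => h.1 _, h.2⟩

theorem Itg.sc (h : u.Itg ι) (hκ : κ ^ 6 = 1) : (u.sc κ).Itg ι := by
  have h1 := (CoA_root (ι := ι) hκ).le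
  exact ⟨fun v => CoA_mulle h1 (h.1 v), CoA_mulle (CoA_powle h1 2) h.2.1,
    CoA_mulle (CoA_powle h1 3) h.2.2⟩

theorem Itg.pw (h : u.Itg ι) (n : ℕ) : (u.pw n).Itg ι := by
  exact ⟨fun v => CoA_powle (h.1 v) n, CoA_powle h.2.1 n, CoA_powle h.2.2 n⟩

theorem Sim.itg (h : u.Sim w ι) (hu : u.Itg ι) : w.Itg ι := by
  obtain ⟨κ, hκ, h⟩ := h
  exact h.symm.itg (hu.sc hκ)

theorem Sim.pw (h : u.Sim w ι) (hu : u.Itg ι) (n : ℕ) : (u.pw n).Sim (w.pw n) ι := by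
  obtain ⟨κ, hκ, h⟩ := h
  refine ⟨κ ^ n, by rw [pow_right_comm, hκ, one_pow], ?_⟩
  rw [← pw_sc]
  exact (h.symm.pw (hu.sc hκ) n).symm

theorem Sim.cube (h : u.Sim w ι) (hu : u.Itg ι) : ‖ι (u.a ^ 3 - w.a ^ 3)‖ < 1 := by
  obtain ⟨κ, hκ, h⟩ := h
  have h1 : ‖ι ((κ ^ 2 * u.a) ^ 3 - _)‖ < 1 := CoA_cpow h.symm.2.1 (hu.sc hκ).2.1 3
  rwa [mul_pow, ← pow_mul, hκ, one_mul] at h1

theorem Sep.tw (h : u.Sep ι) (ρ : P.GF) : (u.tw ρ).Sep ι := by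
  have h1 : Function.Injective fun v : Fin 2 → P.F => v ᵥ* (ρ : P.MF) :=
    Matrix.vecMul_injective_of_isUnit ρ.isUnit
  have h2 : ∀ v : Fin 2 → P.F, v ≠ 0 → v ᵥ* (ρ : P.MF) ≠ 0 := fun v hv e =>
    hv (h1 (e.trans (Matrix.zero_vecMul _).symm))
  exact fun v v' hv hv' e e' => h _ _ (h2 v hv) (h2 v' hv') (fun f => e (h1 f))
    fun f => e' (h1 (f.trans (Matrix.neg_vecMul _ _).symm))

theorem Sep.norm_d (h : u.Sep ι) : ‖ι u.d‖ = 1 := by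
  refine h _ _ (fun e => ?_) (fun e => ?_) (fun e => ?_) fun e => ?_
  exacts [by simpa using congrFun e 0, by simpa using congrFun e 1, by simpa using congrFun e 0,
    by simpa using congrFun e 0]

theorem Sep.pm (h : u.Sep ι) {ρ δ : P.GF} (e : (u.tw ρ).Cl (u.tw δ) ι) :
    (ρ : P.MF) = δ ∨ (ρ : P.MF) = -δ := by
  have h2 : ∀ (ρ : P.GF) (v : Fin 2 → P.F), v ≠ 0 → v ᵥ* (ρ : P.MF) ≠ 0 := fun ρ v hv e =>
    hv (Matrix.vecMul_injective_of_isUnit ρ.isUnit (e.trans (Matrix.zero_vecMul _).symm))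
  refine pm_of_vec δ.det_ne_zero fun v hv => by_contra fun hc => ?_
  rw [not_or] at hc
  exact (h _ _ (h2 ρ v hv) (h2 δ v hv) hc.1 hc.2).not_lt (e.1 v)

theorem ts_sc (u : P.Co) (hκ : κ ^ 6 = 1) (o : Option (Option (Fin 2 → P.F))) :
    (u.sc κ).ts o = u.ts o := by
  rcases o with _ | _ | v <;> simp only [ts, d, sc]
  · linear_combination (u.x ![1, 0] - u.x ![0, 1]) ^ 4 * u.a * hκ
  · linear_combination (u.x ![1, 0] - u.x ![0, 1]) ^ 3 * u.b * hκ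
  · linear_combination (u.x ![1, 0] - u.x ![0, 1]) ^ 5 * u.x v * hκ

theorem ts_map (u : P.Co) (s : ℂ ≃+* ℂ) (o : Option (Option (Fin 2 → P.F))) :
    (u.map s).ts o = s (u.ts o) := by
  rcases o with _ | _ | v <;> simp only [ts, d, map, map_mul, map_pow, map_sub]

theorem Sim.ts (h : u.Sim w ι) (hu : u.Itg ι) (o : Option (Option (Fin 2 → P.F))) :
    ‖ι (u.ts o - w.ts o)‖ < 1 := by
  obtain ⟨κ, hκ, h⟩ := h
  rw [← ts_sc u hκ]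
  have h0 := hu.sc hκ
  have h1 := h.symm
  generalize u.sc κ = z at h0 h1
  have h2 : ‖ι z.d‖ ≤ 1 := CoA_suble (h0.1 _) (h0.1 _)
  have h3 : ‖ι (z.d - w.d)‖ < 1 := CoA_sub (h1.1 _) (h1.1 _)
  rcases o with _ | _ | v
  exacts [CoA_cmul (CoA_cpow h3 h2 4) h1.2.1 (CoA_powle h2 4) h0.2.1,
    CoA_cmul (CoA_cpow h3 h2 3) h1.2.2 (CoA_powle h2 3) h0.2.2,
    CoA_cmul (CoA_cpow h3 h2 5) (h1.1 v) (CoA_powle h2 5) (h0.1 v)]

theorem CoA_d6 (u : P.Co) : u.d ^ 6 = u.ts (some (some ![1, 0])) - u.ts (some (some ![0, 1])) := by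
  simp only [ts, d]
  ring

theorem sim_of_ts (hu : u.Itg ι) (hw : w.Itg ι) (hd : ‖ι u.d‖ = 1)
    (h : ∀ o, ‖ι (u.ts o - w.ts o)‖ < 1) : u.Sim w ι := by
  have h1 := CoA_symm (CoA_sub (h (some (some ![1, 0]))) (h (some (some ![0, 1]))))
  rw [← CoA_d6, ← CoA_d6, (Complex.isPrimitiveRoot_exp 6 (by norm_num)).pow_sub_pow_eq_prod_sub_mul
    _ _ (by norm_num), map_prod, norm_prod] at h1
  obtain ⟨κ, hκ, h2⟩ : ∃ κ ∈ Polynomial.nthRootsFinset 6 (1 : ℂ), ‖ι (w.d - κ * u.d)‖ < 1 := by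
    by_contra hc
    push Not at hc
    exact h1.not_ge (Finset.one_le_prod hc)
  rw [Polynomial.mem_nthRootsFinset (by norm_num)] at hκ
  refine ⟨κ, hκ, fun v => ?_, CoA_canc (i := 4) rfl hκ hd (CoA_symm h2) hw.2.1 (h none),
    CoA_canc (i := 3) rfl hκ hd (CoA_symm h2) hw.2.2 (h (some none))⟩
  simpa only [pow_one, sc] using CoA_canc (i := 5) (j := 1) rfl hκ hd (CoA_symm h2) (hw.1 v)
    (h (some (some v)))

theorem eq_of_ts (hd : u.d ≠ 0) (h : ∀ o, u.ts o = w.ts o) : ∃ κ : ℂ, κ ^ 6 = 1 ∧ w = u.sc κ := by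
  have h1 : w.d ^ 6 = u.d ^ 6 := by rw [CoA_d6, CoA_d6, h, h]
  obtain ⟨κ, h2⟩ : ∃ κ, w.d = κ * u.d := ⟨w.d / u.d, (div_mul_cancel₀ _ hd).symm⟩
  have hκ : κ ^ 6 = 1 := mul_right_cancel₀ (pow_ne_zero 6 hd) (by rw [← mul_pow, ← h2, h1, one_mul])
  refine ⟨κ, hκ, Co.ext (funext fun v => mul_left_cancel₀ (pow_ne_zero 5 hd) ?_)
    (mul_left_cancel₀ (pow_ne_zero 4 hd) ?_) (mul_left_cancel₀ (pow_ne_zero 3 hd) ?_)⟩
  · have h3 := h (some (some v))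
    simp only [ts, h2, sc] at h3 ⊢
    linear_combination -κ * h3 - u.d ^ 5 * w.x v * hκ
  · have h3 := h none
    simp only [ts, h2, sc] at h3 ⊢
    linear_combination -κ ^ 2 * h3 - u.d ^ 4 * w.a * hκ
  · have h3 := h (some none)
    simp only [ts, h2, sc] at h3 ⊢
    linear_combination -κ ^ 3 * h3 - u.d ^ 3 * w.b * hκ

theorem ts_pw (hl : l.Prime) (hι : ‖(l : K)‖ < 1) (hu : u.Itg ι)
    (o : Option (Option (Fin 2 → P.F))) : ‖ι ((u.pw l).ts o - u.ts o ^ l)‖ < 1 := by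
  have h2 : ‖ι (u.pw l).d‖ ≤ 1 := CoA_suble ((hu.pw l).1 _) ((hu.pw l).1 _)
  have h3 : ‖ι ((u.pw l).d - u.d ^ l)‖ < 1 := CoA_symm (by
    simpa only [d, pw, map_sub, map_pow] using norm_sub_pow_lt hl hι (hu.1 ![1, 0]) (hu.1 ![0, 1]))
  have h4 : ∀ (i : ℕ) (y : ℂ), ‖ι y‖ ≤ 1 → ‖ι ((u.pw l).d ^ i * y ^ l - (u.d ^ i * y) ^ l)‖ < 1 :=
    fun i y hy => by
      rw [mul_pow, pow_right_comm, ← sub_mul, mul_comm]
      exact CoA_mul (CoA_powle hy l) (CoA_cpow h3 h2 i)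
  rcases o with _ | _ | v
  exacts [h4 4 _ hu.2.1, h4 3 _ hu.2.2, h4 5 _ (hu.1 v)]

theorem Itg.cl_ine {ι : ℂ ≃+* K} (hu : u.Itg (ι : ℂ →+* K)) {sg : K ≃+* K} (h : Ine sg) :
    (u.map (cjg ι sg)).Cl u (ι : ℂ →+* K) := by
  have h1 : ∀ y, ‖ι y‖ ≤ 1 → ‖(ι : ℂ →+* K) (cjg ι sg y - y)‖ < 1 := fun y hy => by
    simpa only [RingHom.coe_coe, map_sub, map_cjg] using h.2 _ hy
  exact ⟨fun v => h1 _ (hu.1 v), h1 _ hu.2.1, h1 _ hu.2.2⟩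

theorem Itg.cl_frb {ι : ℂ ≃+* K} (hu : u.Itg (ι : ℂ →+* K)) {sg : K ≃+* K} (h : Frb l sg) :
    (u.map (cjg ι sg)).Cl (u.pw l) (ι : ℂ →+* K) := by
  have h1 : ∀ y, ‖ι y‖ ≤ 1 → ‖(ι : ℂ →+* K) (cjg ι sg y - y ^ l)‖ < 1 := fun y hy => by
    simpa only [RingHom.coe_coe, map_sub, map_cjg, map_pow] using h.2 _ hy
  exact ⟨fun v => h1 _ (hu.1 v), h1 _ hu.2.1, h1 _ hu.2.2⟩

end Co

end Par

end

end Pool.Agent.P.MP_a60a76_nt.Sz
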