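import Pool.Agent.P.MP_a60a76_nt.Sz.FxA
import Pool.Agent.P.MP_a60a76_nt.Sz.Lev1

namespace Pool.Agent.P.MP_a60a76_nt.Sz

open UpperHalfPlane hiding J
open MeasureTheory SP
open scoped MatrixGroups UpperHalfPlane Matrix Modular Topology Classical ArithmeticFunction.sigma

noncomputable section

/-! Stabilisers and elliptic points. -/

variable {g : SL(2, ℤ)} {s t : ℍ}

theorem J_eq_div (τ : ℍ) : J τ = E4 τ ^ 3 / Dl τ := by
  exact SP.J_eq τ

theorem E4_cube_sub (τ : ℍ) : E4 τ ^ 3 - E6 τ ^ 2 = 1728 * Dl τ := by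
  have h : Dl τ = (E4 τ ^ 3 - E6 τ ^ 2) / 1728 :=
    ModularForm.discriminant_eq_E₄_cube_sub_E₆_sq τ
  rw [h]
  ring

theorem J_sub (τ : ℍ) : J τ - 1728 = E6 τ ^ 2 / Dl τ := by
  have h := Dl_ne_zero τ
  rw [J_eq_div, eq_div_iff h, sub_mul, div_mul_cancel₀ _ h]
  linear_combination E4_cube_sub τ

theorem J_zero_iff (τ : ℍ) : J τ = 0 ↔ E4 τ = 0 := by
  rw [J_eq_div, div_eq_zero_iff, or_iff_left (Dl_ne_zero τ), pow_eq_zero_iff (by norm_num)]

theorem J_1728_iff (τ : ℍ) : J τ = 1728 ↔ E6 τ = 0 := by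
  rw [← sub_eq_zero, J_sub, div_eq_zero_iff, or_iff_left (Dl_ne_zero τ),
    pow_eq_zero_iff (by norm_num)]

theorem stab_dn (h : g • s = s) :
    (E4 s ≠ 0 → dn g s ^ 4 = 1) ∧ (E6 s ≠ 0 → dn g s ^ 6 = 1) ∧ dn g s ^ 12 = 1 := by
  have h4 := E4_smul g s
  have h6 := E6_smul g s
  have h12 := Dl_smul g s
  rw [h] at h4 h6 h12
  refine ⟨fun h0 => mul_right_cancel₀ h0 ?_, fun h0 => mul_right_cancel₀ h0 ?_,
    mul_right_cancel₀ (Dl_ne_zero s) ?_⟩
  · rw [← h4, one_mul]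
  · rw [← h6, one_mul]
  · rw [← h12, one_mul]

theorem stab_pm (h : g • s = s) (h2 : dn g s ^ 2 = 1) : g = 1 ∨ g = -1 := by
  have h0 := (sl_fix_iff g s).1 h
  rcases sq_eq_one_iff.1 h2 with h1 | h1
  · exact Or.inl (Subtype.ext (rm0_ext h0 (rm0_one s) (h1.trans (dn_one s).symm)))
  · refine Or.inr (Subtype.ext (rm0_ext h0 ?_ ?_))
    · rw [Matrix.SpecialLinearGroup.coe_neg, Rm_neg]
      exact rm0_one s
    · rw [Matrix.SpecialLinearGroup.coe_neg, dn_neg, h1]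
      exact congrArg Neg.neg (dn_one s).symm

theorem stab_trace (h : g • s = s) (h2 : dn g s ^ 2 ≠ 1) :
    (dn g s).im ≠ 0 ∧ |(g : MZ).trace| ≤ 1 := by
  have h0 := (sl_fix_iff g s).1 h
  have hd := fix_det h0
  have ht := fix_trace h0
  rw [g.det_coe, Int.cast_one, Complex.normSq_apply] at hd
  have hi : (dn g s).im ≠ 0 := fun hi => h2 (by
    rw [hi] at hd
    apply Complex.ext
    · rw [sq, Complex.mul_re, hi, Complex.one_re]
      linarith
    · rw [sq, Complex.mul_im, hi, Complex.one_im]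
      ring)
  refine ⟨hi, ?_⟩
  have h3 : (((g : MZ).trace ^ 2 : ℤ) : ℝ) < 4 := by
    push_cast
    rw [ht]
    nlinarith [mul_self_pos.2 hi]
  have h4 : (g : MZ).trace ^ 2 < 4 := by exact_mod_cast h3
  rw [abs_le]
  constructor <;> nlinarith

/-- Transport of an element of a stabiliser. -/
theorem Ell_move {g₀ : SL(2, ℤ)} {s₀ : ℍ} (h : g₀ • s₀ = s₀) (e : J s₀ = J s) :
    ∃ g : SL(2, ℤ), g • s = s ∧ (g : MZ).trace = (g₀ : MZ).trace := by
  obtain ⟨γ, rfl⟩ := J_inj e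
  refine ⟨γ * g₀ * γ⁻¹, by rw [mul_smul, mul_smul, inv_smul_smul, h], ?_⟩
  rw [← cn_trace γ g₀]
  rfl

theorem Ell_char (h : g • s = s) : dn g s ^ 2 - (g : MZ).trace * dn g s + 1 = 0 := by
  have h1 := fix_char ((sl_fix_iff g s).1 h)
  rwa [g.det_coe, Int.cast_one] at h1

theorem Ell_three (h : J s = 0) : ∃ g : SL(2, ℤ), g • s = s ∧ (g : MZ).trace = 1 := by
  let g₀ : SL(2, ℤ) := ⟨!![0, -1; 1, 1], by simp [Matrix.det_fin_two]⟩
  have ht : (g₀ : MZ).trace = 1 := by simp [g₀, Matrix.trace_fin_two]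
  have h0 : g₀ • UpperHalfPlane.ρ = UpperHalfPlane.ρ := by
    rw [sl_fix_iff, rm0_iff]
    simp only [dn, g₀]
    simp
    linear_combination UpperHalfPlane.ρ_sq
  have h1 := Ell_char h0
  rw [ht] at h1
  have h2 : E4 UpperHalfPlane.ρ = 0 := by
    by_contra hn
    have h3 := (stab_dn h0).1 hn
    have h4 : (3 : ℂ) = 0 := by
      push_cast at h1
      linear_combination (-(dn g₀ UpperHalfPlane.ρ) ^ 3 + dn g₀ UpperHalfPlane.ρ ^ 2 +
        2 * dn g₀ UpperHalfPlane.ρ + 1) * h1 + (dn g₀ UpperHalfPlane.ρ - 2) * h3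
    norm_num at h4
  obtain ⟨g, a, b⟩ := Ell_move h0 (((J_zero_iff _).2 h2).trans h.symm)
  exact ⟨g, a, b.trans ht⟩

theorem Ell_four (h : J s = 1728) : ∃ g : SL(2, ℤ), g • s = s ∧ (g : MZ).trace = 0 := by
  have ht : (ModularGroup.S : MZ).trace = 0 := by simp [ModularGroup.S, Matrix.trace_fin_two]
  have h0 : ModularGroup.S • UpperHalfPlane.I = UpperHalfPlane.I := by
    rw [sl_fix_iff, rm0_iff, dn_S]
    simp [ModularGroup.S]
  have h1 := Ell_char h0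
  rw [ht] at h1
  have h2 : E6 UpperHalfPlane.I = 0 := by
    by_contra hn
    have h3 := (stab_dn h0).2.1 hn
    have h4 : (2 : ℂ) = 0 := by
      push_cast at h1
      linear_combination (dn ModularGroup.S UpperHalfPlane.I ^ 4 -
        dn ModularGroup.S UpperHalfPlane.I ^ 2 + 1) * h1 - h3
    norm_num at h4
  obtain ⟨g, a, b⟩ := Ell_move h0 (((J_1728_iff _).2 h2).trans h.symm)
  exact ⟨g, a, b.trans ht⟩

theorem exists_stab (s : ℍ) {κ : ℂ} (h4 : E4 s ≠ 0 → κ ^ 2 = 1) (h6 : E6 s ≠ 0 → κ ^ 3 = 1) :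
    ∃ g : SL(2, ℤ), g • s = s ∧ dn g s ^ 2 = κ := by
  have one : κ = 1 → ∃ g : SL(2, ℤ), g • s = s ∧ dn g s ^ 2 = κ := fun h =>
    ⟨1, one_smul _ _, by rw [h, Matrix.SpecialLinearGroup.coe_one, dn_one, one_pow]⟩
  have hn : ¬ (E4 s = 0 ∧ E6 s = 0) := fun h => by
    have h1 := E4_cube_sub s
    rw [h.1, h.2] at h1
    exact Dl_ne_zero s (by linear_combination (-1 / 1728 : ℂ) * h1)
  by_cases a : E4 s = 0
  · have h3 := h6 fun b => hn ⟨a, b⟩
    obtain ⟨g, hg, ht⟩ := Ell_three ((J_zero_iff s).2 a)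
    have h1 := Ell_char hg
    rw [ht] at h1
    push_cast at h1
    have h2 : (κ - 1) * ((κ - dn g s ^ 2) * (κ - (dn g s * dn g s) ^ 2)) = 0 := by
      linear_combination h3 + (κ - 1) * ((dn g s ^ 4 + dn g s ^ 3 - dn g s - 1) -
        κ * (dn g s ^ 2 + dn g s + 1)) * h1
    rcases mul_eq_zero.1 h2 with h2 | h2
    · exact one (sub_eq_zero.1 h2)
    rcases mul_eq_zero.1 h2 with h2 | h2
    · exact ⟨g, hg, (sub_eq_zero.1 h2).symm⟩
    · exact ⟨g * g, by rw [mul_smul, hg, hg], by rw [dn_sl_mul, hg]; exact (sub_eq_zero.1 h2).symm⟩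
  · have h2 := h4 a
    by_cases b : E6 s = 0
    · rcases sq_eq_one_iff.1 h2 with h | h
      · exact one h
      · obtain ⟨g, hg, ht⟩ := Ell_four ((J_1728_iff s).2 b)
        have h1 := Ell_char hg
        rw [ht] at h1
        push_cast at h1
        exact ⟨g, hg, by linear_combination h1 - h⟩
    · exact one (by linear_combination h6 b - κ * h2)

theorem Ell_root {l : ℕ} (hl : l.Prime) (h : l % 3 = 1) :
    ∃ x : ZMod l, x ^ 2 + x + 1 = 0 := by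
  have := Fact.mk hl
  have : Fact (Nat.Prime 3) := ⟨Nat.prime_three⟩
  obtain ⟨u, hu⟩ := exists_prime_orderOf_dvd_card (G := (ZMod l)ˣ) 3 (by
    rw [ZMod.card_units]
    omega)
  have h3 : (u : ZMod l) ^ 3 = 1 := by
    rw [← Units.val_pow_eq_pow_val, ← hu, pow_orderOf_eq_one, Units.val_one]
  have h1 : (u : ZMod l) - 1 ≠ 0 := fun h1 => by
    have : u = 1 := Units.ext (sub_eq_zero.1 h1)
    rw [this, orderOf_one] at hu
    omega
  exact ⟨u, mul_left_cancel₀ h1 (by linear_combination h3)⟩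

theorem prime_eq_norm_three {l : ℕ} (hl : l.Prime) (h : l % 3 = 1) :
    ∃ a b : ℤ, a ^ 2 + a * b + b ^ 2 = l := by
  have := Fact.mk hl
  obtain ⟨x, hx⟩ := Ell_root hl h
  set m := Nat.sqrt l with hm
  have m1 : l < (m + 1) * (m + 1) := Nat.lt_succ_sqrt l
  have m2 : m * m < l := by
    refine lt_of_le_of_ne (Nat.sqrt_le l) fun e => ?_
    exact hl.not_isSquare ⟨m, e.symm⟩
  obtain ⟨u, hu, v, hv, huv, e⟩ := Finset.exists_ne_map_eq_of_card_lt_of_maps_to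
    (s := Finset.range (m + 1) ×ˢ Finset.range (m + 1)) (t := (Finset.univ : Finset (ZMod l)))
    (by simpa [ZMod.card] using m1) (f := fun u : ℕ × ℕ => (u.1 : ZMod l) - x * u.2)
    fun _ _ => Finset.mem_coe.2 (Finset.mem_univ _)
  simp only [Finset.mem_product, Finset.mem_range] at hu hv
  obtain ⟨a, ha⟩ : ∃ a : ℤ, a = (u.1 : ℤ) - v.1 := ⟨_, rfl⟩
  obtain ⟨b, hb⟩ : ∃ b : ℤ, b = (u.2 : ℤ) - v.2 := ⟨_, rfl⟩
  have hab : ¬ (a = 0 ∧ b = 0) := fun h0 => huv (Prod.ext (by omega) (by omega))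
  have hd : (l : ℤ) ∣ a ^ 2 + a * b + b ^ 2 := by
    rw [← ZMod.intCast_zmod_eq_zero_iff_dvd]
    have e1 : (a : ZMod l) = x * b := by
      rw [ha, hb]
      push_cast
      linear_combination e
    push_cast
    rw [e1]
    linear_combination (b : ZMod l) ^ 2 * hx
  have a2 : a ^ 2 ≤ (m : ℤ) ^ 2 := sq_le_sq' (by omega) (by omega)
  have b2 : b ^ 2 ≤ (m : ℤ) ^ 2 := sq_le_sq' (by omega) (by omega)
  have m3 : (m : ℤ) ^ 2 < l := by
    rw [sq]
    exact_mod_cast m2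
  have hp : 0 < a ^ 2 + a * b + b ^ 2 := by
    rcases not_and_or.1 hab with h0 | h0
    · nlinarith [sq_nonneg (a + 2 * b), sq_pos_of_ne_zero h0]
    · nlinarith [sq_nonneg (2 * a + b), sq_pos_of_ne_zero h0]
  have hq : a ^ 2 + a * b + b ^ 2 < l * 3 := by nlinarith [sq_nonneg (a - b)]
  obtain ⟨k, hk⟩ := hd
  have l0 : (0 : ℤ) < l := by exact_mod_cast hl.pos
  have k0 : 0 < k := by
    rw [hk] at hp
    exact (mul_pos_iff_of_pos_left l0).1 hp
  have k3 : k < 3 := by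
    rw [hk] at hq
    exact lt_of_mul_lt_mul_left hq l0.le
  obtain rfl | rfl : k = 1 ∨ k = 2 := by omega
  · exact ⟨a, b, by rw [hk, mul_one]⟩
  · exfalso
    have lo : l % 2 = 1 := hl.eq_two_or_odd.resolve_left (by omega)
    obtain ⟨c, rfl | rfl⟩ := Int.even_or_odd' a <;> obtain ⟨d, rfl | rfl⟩ := Int.even_or_odd' b
    · have : (l : ℤ) = 2 * (c ^ 2 + c * d + d ^ 2) := by linarith
      omega
    · have : (l : ℤ) * 2 = 2 * (2 * c ^ 2 + 2 * c * d + c + 2 * d ^ 2 + 2 * d) + 1 := by linarith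
      omega
    · have : (l : ℤ) * 2 = 2 * (2 * c ^ 2 + 2 * c + 2 * c * d + d + 2 * d ^ 2) + 1 := by linarith
      omega
    · have : (l : ℤ) * 2 =
          2 * (2 * c ^ 2 + 3 * c + 2 * c * d + 3 * d + 2 * d ^ 2 + 1) + 1 := by linarith
      omega

theorem Ell_comb (h : g • s = s) (a b : ℤ) : ∃ Y : MZ, Rm Y s s = 0 ∧
    Y.det = a ^ 2 + (g : MZ).trace * (a * b) + b ^ 2 := by
  refine ⟨a • (1 : MZ) + b • (g : MZ),
    rm0_add (rm0_zsmul a (rm0_one s)) (rm0_zsmul b ((sl_fix_iff g s).1 h)), ?_⟩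
  have hd := g.det_coe
  rw [Matrix.det_fin_two] at hd
  simp only [Matrix.det_fin_two, Matrix.trace_fin_two, Matrix.add_apply, Matrix.smul_apply,
    smul_eq_mul, Matrix.one_apply_eq, Matrix.one_apply_ne (show (0 : Fin 2) ≠ 1 by decide),
    Matrix.one_apply_ne (show (1 : Fin 2) ≠ 0 by decide)]
  linear_combination b ^ 2 * hd

theorem exists_norm {l : ℕ} (hl : l.Prime)
    (h : (J t = 0 ∧ l % 3 = 1) ∨ (J t = 1728 ∧ l % 4 = 1)) :
    ∃ Y : MZ, Rm Y t t = 0 ∧ Y.det = l := by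
  rcases h with ⟨h, h3⟩ | ⟨h, h4⟩
  · obtain ⟨g, hg, ht⟩ := Ell_three h
    obtain ⟨a, b, e⟩ := prime_eq_norm_three hl h3
    obtain ⟨Y, h1, h2⟩ := Ell_comb hg a b
    exact ⟨Y, h1, by rw [h2, ht, one_mul, e]⟩
  · have := Fact.mk hl
    obtain ⟨g, hg, ht⟩ := Ell_four h
    obtain ⟨a, b, e⟩ := Nat.Prime.sq_add_sq (p := l) (by omega)
    obtain ⟨Y, h1, h2⟩ := Ell_comb hg a b
    refine ⟨Y, h1, ?_⟩
    rw [h2, ht, zero_mul, add_zero]
    exact_mod_cast e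

theorem trace_ne {l : ℕ} (hl : l.Prime) (h5 : 5 ≤ l) (ht : J t = 0 ∨ J t = 1728) {Y : MZ}
    (hY : Rm Y t t = 0) (hd : Y.det = l) : Y.trace ≠ 0 := by
  intro h0
  obtain ⟨g, hg, hn⟩ : ∃ g : SL(2, ℤ), g • t = t ∧ (dsc g = 3 ∨ dsc g = 4) := by
    rcases ht with ht | ht
    · obtain ⟨g, a, b⟩ := Ell_three ht
      exact ⟨g, a, Or.inl (by rw [dsc, g.det_coe, b]; norm_num)⟩
    · obtain ⟨g, a, b⟩ := Ell_four ht
      exact ⟨g, a, Or.inr (by rw [dsc, g.det_coe, b]; norm_num)⟩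
  have hG := (sl_fix_iff g t).1 hg
  obtain ⟨a, b⟩ := rm0_mul hY hG
  have t1 := fix_trace a
  have t2 := fix_trace hY
  have d1 := fix_dsc hY
  have d2 := fix_dsc hG
  rw [h0, Int.cast_zero] at t2
  have d3 : dsc Y = 4 * l := by rw [dsc, hd, h0]; ring
  rw [b, Complex.mul_re, show (dn Y t).re = 0 by linarith] at t1
  rw [d3] at d1
  push_cast at d1
  have e : (((Y * (g : MZ)).trace ^ 2 : ℤ) : ℝ) = ((l * dsc g : ℤ) : ℝ) := by
    push_cast
    rw [t1, d2, show (l : ℝ) = (dn Y t).im ^ 2 by linarith]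
    ring
  have e1 : (Y * (g : MZ)).trace ^ 2 = l * dsc g := by exact_mod_cast e
  have hp : Prime (l : ℤ) := Nat.prime_iff_prime_int.1 hl
  obtain ⟨k, hk⟩ := hp.dvd_of_dvd_pow (n := 2) ⟨_, e1⟩
  rw [hk] at e1
  have e2 : (l : ℤ) * k ^ 2 = dsc g := mul_left_cancel₀ hp.ne_zero (by linear_combination e1)
  have l5 : (5 : ℤ) ≤ l := by exact_mod_cast h5
  have k0 : k ≠ 0 := by
    rintro rfl
    rcases hn with h | h <;> rw [h] at e2 <;> norm_num at e2
  have k1 : 1 ≤ k ^ 2 := sq_pos_of_ne_zero k0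
  rcases hn with h | h <;> rw [h] at e2 <;> nlinarith

end

end Pool.Agent.P.MP_a60a76_nt.Sz
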