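import Pool.Agent.P.MP_a60a76_nt.Sz.FxA

namespace Pool.Agent.P.MP_a60a76_nt.Sz

open UpperHalfPlane hiding J
open MeasureTheory SP
open scoped MatrixGroups UpperHalfPlane Matrix Modular Topology Classical ArithmeticFunction.sigma

noncomputable section

/-! The bilinear form of the determinant and reduction modulo `p`. -/

section

variable {R : Type} [CommRing R] (Z W U V : Matrix (Fin 2) (Fin 2) R)

theorem bl_eq : bl Z W = Z 0 0 * W 1 1 + Z 1 1 * W 0 0 - Z 0 1 * W 1 0 - Z 1 0 * W 0 1 := by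
  rw [bl, Matrix.trace_fin_two, Matrix.mul_apply, Matrix.mul_apply, Fin.sum_univ_two,
    Fin.sum_univ_two, Matrix.adjugate_fin_two]
  simp
  ring

theorem bl_comm : bl Z W = bl W Z := by
  rw [bl_eq, bl_eq]
  ring

theorem bl_self : bl Z Z = 2 * Z.det := by
  rw [bl_eq, Matrix.det_fin_two]
  ring

theorem bl_add_right : bl Z (W + V) = bl Z W + bl Z V := by
  simp only [bl, Matrix.mul_add, Matrix.trace_add]

theorem bl_sub_right : bl Z (W - V) = bl Z W - bl Z V := by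
  simp only [bl, Matrix.mul_sub, Matrix.trace_sub]

theorem bl_smul_right (x : R) : bl Z (x • W) = x * bl Z W := by
  simp only [bl, Matrix.mul_smul, Matrix.trace_smul, smul_eq_mul]

theorem bl_zero_right : bl Z 0 = 0 := by
  simp only [bl, Matrix.mul_zero, Matrix.trace_zero]

theorem bl_sum_right {ι : Type} (S : Finset ι) (f : ι → Matrix (Fin 2) (Fin 2) R) :
    bl Z (∑ i ∈ S, f i) = ∑ i ∈ S, bl Z (f i) := by
  simp only [bl, Matrix.mul_sum, Matrix.trace_sum]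

theorem bl_mul : bl (U * Z * V) (U * W * V) = U.det * V.det * bl Z W := by
  simp only [bl_eq, Matrix.det_fin_two, Matrix.mul_apply, Fin.sum_univ_two]
  ring

theorem bl_adj : bl Z.adjugate W = bl Z W.adjugate := by
  simp [bl_eq, Matrix.adjugate_fin_two]
  ring

theorem det_comb (x y : R) :
    (x • Z + y • W).det = x ^ 2 * Z.det + x * y * bl Z W + y ^ 2 * W.det := by
  simp only [bl_eq, Matrix.det_fin_two, Matrix.add_apply, Matrix.smul_apply, smul_eq_mul]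
  ring

theorem adj_eq_trace_sub : Z.adjugate = Z.trace • (1 : Matrix (Fin 2) (Fin 2) R) - Z := by
  ext i j
  fin_cases i <;> fin_cases j <;> simp [Matrix.adjugate_fin_two, Matrix.trace_fin_two]

theorem sub_adj_sq : (Z - Z.adjugate) * (Z - Z.adjugate) =
    (Z.trace ^ 2 - 4 * Z.det) • (1 : Matrix (Fin 2) (Fin 2) R) := by
  ext i j
  fin_cases i <;> fin_cases j <;>
    simp [Matrix.adjugate_fin_two, Matrix.trace_fin_two, Matrix.det_fin_two, Matrix.mul_apply,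
      Fin.sum_univ_two] <;> ring

end

theorem rm0_det_sub_le {Z W : MZ} {t₁ t₂ : ℍ} (hZ : Rm Z t₁ t₂ = 0) (hW : Rm W t₁ t₂ = 0) :
    (Z - W).det ≤ 2 * Z.det + 2 * W.det := by
  have h := rm0_det_nonneg (rm0_add hZ hW)
  have e : (Z - W).det + (Z + W).det = 2 * Z.det + 2 * W.det := by
    simp only [Matrix.det_fin_two, Matrix.add_apply, Matrix.sub_apply]
    ring
  linarith

namespace Par

variable (P : Par)

theorem rz_mul (Z W : MZ) : P.rz (Z * W) = P.rz Z * P.rz W := by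
  exact Matrix.map_mul (f := Int.castRingHom P.F)

theorem rz_add (Z W : MZ) : P.rz (Z + W) = P.rz Z + P.rz W := by
  ext i j
  simp [rz]

theorem rz_sub (Z W : MZ) : P.rz (Z - W) = P.rz Z - P.rz W := by
  ext i j
  simp [rz]

theorem rz_neg (Z : MZ) : P.rz (-Z) = -P.rz Z := by
  ext i j
  simp [rz]

theorem rz_one : P.rz 1 = 1 := by
  ext i j
  fin_cases i <;> fin_cases j <;> simp [rz]

theorem rz_zero : P.rz 0 = 0 := by
  ext i j
  simp [rz]

theorem rz_zsmul (n : ℤ) (Z : MZ) : P.rz (n • Z) = (n : P.F) • P.rz Z := by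
  ext i j
  simp only [rz, Matrix.map_apply, Matrix.smul_apply, smul_eq_mul, Int.cast_mul]

theorem rz_sum {ι : Type} (S : Finset ι) (f : ι → MZ) :
    P.rz (∑ i ∈ S, f i) = ∑ i ∈ S, P.rz (f i) := by
  ext i j
  simp [rz, Matrix.sum_apply]

theorem rz_adj (Z : MZ) : P.rz Z.adjugate = (P.rz Z).adjugate := by
  ext i j
  fin_cases i <;> fin_cases j <;> simp [rz, Matrix.adjugate_fin_two]

theorem rz_det (Z : MZ) : (P.rz Z).det = (Z.det : P.F) := by
  simp [rz, Matrix.det_fin_two]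

theorem rz_trace (Z : MZ) : (P.rz Z).trace = (Z.trace : P.F) := by
  simp [rz, Matrix.trace_fin_two]

theorem rz_bl (Z W : MZ) : bl (P.rz Z) (P.rz W) = ((bl Z W : ℤ) : P.F) := by
  simp [rz, bl_eq]

theorem rz_surj (X : P.MF) : ∃ Z, P.rz Z = X := by
  choose f hf using fun i j => ZMod.intCast_surjective (X i j)
  exact ⟨Matrix.of f, Matrix.ext fun i j => hf i j⟩

theorem rz_eq_zero (Z : MZ) : P.rz Z = 0 ↔ ∃ Z' : MZ, Z = (P.p : ℤ) • Z' := by
  constructor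
  · intro h
    have h1 : ∀ i j, (P.p : ℤ) ∣ Z i j := fun i j =>
      (ZMod.intCast_zmod_eq_zero_iff_dvd _ _).1 (congrFun (congrFun h i) j)
    choose f hf using h1
    exact ⟨Matrix.of f, Matrix.ext fun i j => hf i j⟩
  · rintro ⟨Z', rfl⟩
    rw [rz_zsmul]
    simp

theorem rz_cn (g : SL(2, ℤ)) (Y : MZ) :
    P.rz (cn g Y) * red P.p g = red P.p g * P.rz Y := by
  rw [← rz_sl, ← rz_mul, ← rz_mul, cn_mul]

theorem red_neg (g : SL(2, ℤ)) : red P.p (-g) = -red P.p g := by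
  rw [← rz_sl, ← rz_sl, ← rz_neg, Matrix.SpecialLinearGroup.coe_neg]

theorem coe_gm {Y : MZ} (h : ¬ (P.p : ℤ) ∣ Y.det) : (P.gm Y : P.MF) = P.rz Y := by
  have h1 : (P.rz Y).det ≠ 0 := by
    rw [rz_det, Ne, ZMod.intCast_zmod_eq_zero_iff_dvd]
    exact h
  rw [gm, dif_pos h1]
  rfl

theorem gm_mul {Y Z : MZ} (hY : ¬ (P.p : ℤ) ∣ Y.det) (hZ : ¬ (P.p : ℤ) ∣ Z.det) :
    P.gm (Y * Z) = P.gm Y * P.gm Z := by
  have h : ¬ (P.p : ℤ) ∣ (Y * Z).det := by
    rw [Matrix.det_mul]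
    exact fun h => ((Nat.prime_iff_prime_int.1 P.prime).dvd_or_dvd h).elim hY hZ
  apply Units.ext
  rw [Units.val_mul, coe_gm _ h, coe_gm _ hY, coe_gm _ hZ, rz_mul]

theorem gm_sl (g : SL(2, ℤ)) : P.gm g = P.rg g := by
  have h : ¬ (P.p : ℤ) ∣ (g : MZ).det := by
    rw [g.det_coe]
    exact (Nat.prime_iff_prime_int.1 P.prime).not_dvd_one
  apply Units.ext
  rw [coe_gm _ h, coe_rg, rz_sl]

theorem inL_iff (W : MZ) : P.InL W ↔ ∃ x : P.F, P.rz W = x • P.Dm := by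
  simp only [InL, ← ZMod.intCast_zmod_eq_zero_iff_dvd]
  constructor
  · rintro ⟨h1, h2, h3⟩
    refine ⟨(W 1 1 : P.F), ?_⟩
    push_cast at h3
    ext i j
    fin_cases i <;> fin_cases j <;> simp [rz, Dm, h1, h2]
    linear_combination h3
  · rintro ⟨x, h⟩
    have h00 := congrFun (congrFun h 0) 0
    have h01 := congrFun (congrFun h 0) 1
    have h10 := congrFun (congrFun h 1) 0
    have h11 := congrFun (congrFun h 1) 1
    simp [rz, Dm] at h00 h01 h10 h11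
    refine ⟨h01, h10, ?_⟩
    push_cast
    rw [h00, h11]
    ring

theorem inL_smul (Z : MZ) : P.InL ((P.p : ℤ) • Z) := by
  rw [inL_iff]
  exact ⟨0, by rw [(P.rz_eq_zero _).2 ⟨Z, rfl⟩, zero_smul]⟩

theorem kap_smul (Z : MZ) : P.kap ((P.p : ℤ) • Z) = P.up (bl P.Dm (P.rz Z)) := by
  have e : bl P.Dm (P.rz Z) = ((Z 0 0 + P.m * Z 1 1 : ℤ) : P.F) := by
    simp [bl_eq, Dm, rz]
    ring
  rw [e, up_int]
  simp only [kap, Matrix.smul_apply, smul_eq_mul]
  push_cast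
  ring

variable {P} {A B : Crv} {X : P.MF} {Y₁ Y₂ : MZ} {s₁ s₂ : ℍ}

theorem trace_eq_of_mul {ρ₁ ρ₂ : P.MF} (hX : X.det ≠ 0) (h : ρ₂ * X = X * ρ₁) :
    ρ₁.trace = ρ₂.trace ∧ ρ₁.det = ρ₂.det := by
  have hu : IsUnit X.det := hX.isUnit
  constructor
  · have e : ρ₂ = X * ρ₁ * X⁻¹ := by rw [← h, Matrix.mul_nonsing_inv_cancel_right _ _ hu]
    rw [e, Matrix.trace_mul_comm, ← Matrix.mul_assoc, Matrix.nonsing_inv_mul _ hu, Matrix.one_mul]
  · have e := congrArg Matrix.det h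
    rw [Matrix.det_mul, Matrix.det_mul, mul_comm] at e
    exact (mul_left_cancel₀ hX e).symm

theorem Orth.ort {g : SL(2, ℤ)} (h : P.Orth A B (P.Dm * red P.p g)) : P.Ort (g • A.t) B.t := by
  intro W hW h0
  obtain ⟨x, hx⟩ := (P.inL_iff W).1 hW
  rw [Rm_smul_left] at h0
  have h1 := h _ h0
  have h2 := bl_mul P.Dm (x • P.Dm) 1 (red P.p g)
  rw [Matrix.one_mul, Matrix.one_mul, Matrix.det_one, red_det, bl_smul_right, bl_self,
    det_Dm] at h2
  rw [rz_mul, hx, rz_sl, h2] at h1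
  have hx0 : x = 0 := by
    simpa [P.two_ne, P.m_ne] using h1
  rw [← rz_eq_zero, hx, hx0, zero_smul]

theorem Orth.symm (h : P.Orth A B X) : P.Orth B A X.adjugate := by
  intro Z hZ
  rw [bl_adj, ← rz_adj]
  exact h _ (rm0_adj hZ).1

theorem Lnk.adj (h : P.Lnk A B X) (hX : X.det ≠ 0) : P.Lnk B A X.adjugate := by
  intro s
  obtain ⟨ρ₁, ρ₂, h1, h2, h3⟩ := h s
  refine ⟨ρ₂, ρ₁, h2, h1, ?_⟩
  have e : X.adjugate * ((ρ₂ : P.MF) * X) * X.adjugate =
      X.adjugate * (X * ρ₁) * X.adjugate := by rw [h3]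
  rw [← Matrix.mul_assoc, Matrix.mul_assoc _ X, Matrix.mul_adjugate, ← Matrix.mul_assoc,
    Matrix.adjugate_mul, Matrix.mul_smul, Matrix.smul_mul, Matrix.smul_mul, Matrix.mul_one,
    Matrix.one_mul] at e
  exact (smul_right_injective _ hX e).symm

theorem FxB_cancel {g : SL(2, ℤ)} {T : P.MF}
    (h : T * (P.Dm * red P.p g) = P.Dm * red P.p g * P.rz Y₁) :
    T * P.Dm = P.Dm * P.rz (cn g Y₁) := by
  have hu : IsUnit (red P.p g).det := by
    rw [red_det]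
    exact isUnit_one
  rw [Matrix.mul_assoc, ← rz_cn, ← Matrix.mul_assoc, ← Matrix.mul_assoc] at h
  rw [← Matrix.mul_nonsing_inv_cancel_right _ (T * P.Dm) hu, h,
    Matrix.mul_nonsing_inv_cancel_right _ _ hu]

theorem FxB_trace {M Y : P.MF} (h : M * Y = Y.adjugate * M) (hd : Y.trace ^ 2 - 4 * Y.det ≠ 0) :
    M.trace = 0 := by
  have h00 := congrFun (congrFun h 0) 0
  have h01 := congrFun (congrFun h 0) 1
  have h10 := congrFun (congrFun h 1) 0
  simp [Matrix.adjugate_fin_two, Matrix.mul_apply, Fin.sum_univ_two] at h00 h01 h10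
  have h11 := congrFun (congrFun h 1) 1
  simp [Matrix.adjugate_fin_two, Matrix.mul_apply, Fin.sum_univ_two] at h11
  refine (mul_eq_zero.1 ?_).resolve_left hd
  rw [Matrix.trace_fin_two, Matrix.trace_fin_two, Matrix.det_fin_two]
  linear_combination (Y 0 0 - Y 1 1) * h00 - (Y 0 0 - Y 1 1) * h11 + 4 * Y 1 0 * h01

theorem TyP.smul {g : SL(2, ℤ)} (h : P.TyP (P.Dm * red P.p g) Y₁ Y₂) :
    P.TyP P.Dm (cn g Y₁) Y₂ := by
  exact FxB_cancel h

theorem TyM.smul {g : SL(2, ℤ)} (h : P.TyM (P.Dm * red P.p g) Y₁ Y₂) :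
    P.TyM P.Dm (cn g Y₁) Y₂ := by
  exact FxB_cancel h

theorem TyM.bl_eq_zero (h : P.TyM X Y₁ Y₂) (hc : Cm s₁ s₂ Y₁ Y₂) (hp : ¬ (P.p : ℤ) ∣ dsc Y₁)
    {Z : MZ} (hZ : Rm Z s₁ s₂ = 0) : bl X (P.rz Z) = 0 := by
  have h1 : P.rz Y₂ * P.rz Z = P.rz Z * P.rz Y₁ := by
    rw [← rz_mul, ← rz_mul, (hc.comm_iff Z).1 hZ]
  have h2 : X.adjugate * P.rz Y₂ = (P.rz Y₁).adjugate * X.adjugate := by
    have e := congrArg Matrix.adjugate (show P.rz Y₂.adjugate * X = X * P.rz Y₁ from h)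
    rwa [Matrix.adjugate_mul_distrib, Matrix.adjugate_mul_distrib, rz_adj,
      Matrix.adjugate_adjugate _ (by simp), Fintype.card_fin, Nat.sub_self, pow_zero,
      one_smul] at e
  have h3 : X.adjugate * P.rz Z * P.rz Y₁ = (P.rz Y₁).adjugate * (X.adjugate * P.rz Z) := by
    rw [Matrix.mul_assoc, ← h1, ← Matrix.mul_assoc, h2, Matrix.mul_assoc]
  have hd : (P.rz Y₁).trace ^ 2 - 4 * (P.rz Y₁).det ≠ 0 := by
    rw [rz_trace, rz_det]
    intro h0
    refine hp ((ZMod.intCast_zmod_eq_zero_iff_dvd _ _).1 ?_)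
    rw [dsc, Int.cast_sub, Int.cast_mul, Int.cast_pow, Int.cast_ofNat]
    linear_combination -h0
  exact FxB_trace h3 hd

end Par

end

end Pool.Agent.P.MP_a60a76_nt.Sz
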