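import Pool.Agent.P.MP_a60a76_nt.Sz.CoA
import Pool.Agent.P.MP_a60a76_nt.Sz.Ell
import Pool.Agent.P.MP_a60a76_nt.Sz.FxB
import Pool.Agent.P.MP_a60a76_nt.Sz.Frick

namespace Pool.Agent.P.MP_a60a76_nt.Sz

open UpperHalfPlane hiding J
open MeasureTheory SP
open scoped MatrixGroups UpperHalfPlane Matrix Modular Topology Classical ArithmeticFunction.sigma

noncomputable section

/-! The coordinates of a point. -/

theorem CoB_dl (τ : ℍ) : Dl τ = ModularForm.eta τ ^ 24 := rfl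

theorem CoB_eta_ne (τ : ℍ) : ModularForm.eta τ ≠ 0 := fun h =>
  Dl_ne_zero τ (by rw [CoB_dl, h]; norm_num)

namespace Par

variable (P : Par)

theorem CoB_x (τ : ℍ) (v : Fin 2 → P.F) : (P.co τ).x v = P.wn v τ / ModularForm.eta τ ^ 4 := rfl

theorem CoB_a (τ : ℍ) : (P.co τ).a = E4 τ / ModularForm.eta τ ^ 8 := rfl

theorem CoB_b (τ : ℍ) : (P.co τ).b = E6 τ / ModularForm.eta τ ^ 12 := rfl

theorem CoB_wn_zero (τ : ℍ) : P.wn 0 τ = 0 := by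
  simp [wn, wp, zv]

theorem co_a (τ : ℍ) : (P.co τ).a ^ 3 = J τ := by
  rw [CoB_a, J_eq_div, CoB_dl, div_pow, ← pow_mul]

theorem co_b (τ : ℍ) : (P.co τ).b ^ 2 = J τ - 1728 := by
  rw [CoB_b, J_sub, CoB_dl, div_pow, ← pow_mul]

theorem co_a_ne (τ : ℍ) : (P.co τ).a ≠ 0 ↔ E4 τ ≠ 0 := by
  rw [CoB_a, div_ne_zero_iff, and_iff_left (pow_ne_zero _ (CoB_eta_ne τ))]

theorem co_b_ne (τ : ℍ) : (P.co τ).b ≠ 0 ↔ E6 τ ≠ 0 := by
  rw [CoB_b, div_ne_zero_iff, and_iff_left (pow_ne_zero _ (CoB_eta_ne τ))]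

theorem co_x_zero (τ : ℍ) : (P.co τ).x 0 = 0 := by
  rw [CoB_x, CoB_wn_zero, zero_div]

theorem co_inj (τ : ℍ) {v w : Fin 2 → P.F} (hv : v ≠ 0) (hw : w ≠ 0)
    (h : (P.co τ).x v = (P.co τ).x w) : v = w ∨ v = -w := by
  have h1 : (2 * Real.pi * Complex.I : ℂ) ^ 2 ≠ 0 := pow_ne_zero _ Complex.two_pi_I_ne_zero
  rw [CoB_x, CoB_x, div_left_inj' (pow_ne_zero _ (CoB_eta_ne τ)), wn, wn, div_left_inj' h1] at h
  exact P.wp_inj hv hw h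

theorem CoB_e1 : (![1, 0] : Fin 2 → P.F) ≠ 0 := fun h => by simpa using congrFun h 0

theorem CoB_e2 : (![0, 1] : Fin 2 → P.F) ≠ 0 := fun h => by simpa using congrFun h 1

theorem CoB_vec_inj (ρ : P.GF) {v w : Fin 2 → P.F} (h : v ᵥ* (ρ : P.MF) = w ᵥ* (ρ : P.MF)) :
    v = w := by
  by_contra h1
  exact P.Frick_ne (sub_ne_zero.2 h1) ρ (by rw [Matrix.sub_vecMul, h, sub_self])

theorem co_d_ne (τ : ℍ) (ρ : P.GF) : ((P.co τ).tw ρ).d ≠ 0 := by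
  intro h
  rcases P.co_inj τ (P.Frick_ne P.CoB_e1 ρ) (P.Frick_ne P.CoB_e2 ρ) (sub_eq_zero.1 h) with h1 | h1
  · simpa using congrFun (P.CoB_vec_inj ρ h1) 0
  · rw [← Matrix.neg_vecMul] at h1
    simpa using congrFun (P.CoB_vec_inj ρ h1) 0

theorem co_sub_pow (τ : ℍ) (v w : Fin 2 → P.F) :
    ((P.co τ).x v - (P.co τ).x w) ^ 6 = P.WW v w τ := by
  rw [CoB_x, CoB_x, ← sub_div, div_pow, ← pow_mul, WW, CoB_dl]

theorem co_smul (g : SL(2, ℤ)) (τ : ℍ) :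
    ∃ κ : ℂ, κ ^ 6 = 1 ∧ P.co (g • τ) = ((P.co τ).tw (red P.p g)).sc κ := by
  have h1 := CoB_eta_ne τ
  have h2 := CoB_eta_ne (g • τ)
  have h3 := Dl_smul g τ
  rw [CoB_dl, CoB_dl] at h3
  refine ⟨dn g τ ^ 2 * ModularForm.eta τ ^ 4 / ModularForm.eta (g • τ : ℍ) ^ 4, ?_, ?_⟩
  · rw [div_pow, div_eq_one_iff_eq (pow_ne_zero _ (pow_ne_zero _ h2))]
    linear_combination -h3
  · refine Co.ext (funext fun v => ?_) ?_ ?_
    · simp only [Co.sc, Co.tw, CoB_x, Frick_wn_smul]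
      field_simp
    · simp only [Co.sc, Co.tw, CoB_a, E4_smul]
      field_simp
    · simp only [Co.sc, Co.tw, CoB_b, E6_smul]
      field_simp

theorem co_stab {g : SL(2, ℤ)} {s : ℍ} (h : g • s = s) :
    ((P.co s).tw (red P.p g)).sc (dn g s ^ 2) = P.co s := by
  refine Co.ext (funext fun v => ?_) ?_ ?_
  · have h1 := P.Frick_wn_smul v g s
    rw [h] at h1
    simp only [Co.sc, Co.tw, CoB_x]
    rw [h1, mul_div_assoc]
  · have h1 := E4_smul g s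
    rw [h] at h1
    simp only [Co.sc, Co.tw, CoB_a]
    linear_combination (-1 / ModularForm.eta s ^ 8) * h1
  · have h1 := E6_smul g s
    rw [h] at h1
    simp only [Co.sc, Co.tw, CoB_b]
    linear_combination (-1 / ModularForm.eta s ^ 12) * h1

theorem co_of_scale (s : ℂ ≃+* ℂ) {τ τ' : ℍ} {δ : P.MF} {c : ℂ} (hc : c ≠ 0)
    (hx : ∀ v, s (P.wn v τ) = c ^ 2 * P.wn (v ᵥ* δ) τ') (h4 : s (E4 τ) = c ^ 4 * E4 τ')
    (h6 : s (E6 τ) = c ^ 6 * E6 τ') :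
    ∃ κ : ℂ, κ ^ 6 = 1 ∧ (P.co τ).map s = ((P.co τ').tw δ).sc κ := by
  have h1 := CoB_eta_ne τ'
  have h2 : s (ModularForm.eta τ) ≠ 0 := (map_ne_zero s).2 (CoB_eta_ne τ)
  have h3 := congrArg s (E4_cube_sub τ)
  have h5 := E4_cube_sub τ'
  rw [CoB_dl] at h3 h5
  rw [map_sub, map_mul, map_pow, map_pow, map_pow, map_ofNat, h4, h6] at h3
  refine ⟨c ^ 2 * ModularForm.eta τ' ^ 4 / s (ModularForm.eta τ) ^ 4, ?_, ?_⟩
  · rw [div_pow, div_eq_one_iff_eq (pow_ne_zero _ (pow_ne_zero _ h2))]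
    linear_combination (1 / 1728) * h3 - c ^ 12 / 1728 * h5
  · refine Co.ext (funext fun v => ?_) ?_ ?_
    · simp only [Co.sc, Co.tw, Co.map, CoB_x, map_div₀, map_pow, hx]
      field_simp
    · simp only [Co.sc, Co.tw, Co.map, CoB_a, map_div₀, map_pow, h4]
      field_simp
    · simp only [Co.sc, Co.tw, Co.map, CoB_b, map_div₀, map_pow, h6]
      field_simp

/-- The series of an abscissa. -/
def CoB_w (v : Fin 2 → P.F) : PowerSeries ℂ := if v = 0 then 0 else PowerSeries.mk (P.wc v)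

theorem CoB_w_cv (v : Fin 2 → P.F) : P.Cv (P.CoB_w v) (P.wn v) := by
  rw [CoB_w]
  split_ifs with h
  · intro τ
    rw [h, CoB_wn_zero]
    simp
  · exact P.Frick_cv h

theorem CoB_w_mem {A : Subring ℂ} (hA : ∀ v k, P.wc v k ∈ A) (v : Fin 2 → P.F) (k : ℕ) :
    PowerSeries.coeff k (P.CoB_w v) ∈ A := by
  rw [CoB_w]
  split_ifs
  · rw [map_zero]
    exact A.zero_mem
  · rw [PowerSeries.coeff_mk]
    exact hA v k

theorem CoB_w_gal (s : ℂ ≃+* ℂ) (d : P.Fˣ) (h : s (P.zp 1) = P.zp d) (v : Fin 2 → P.F) :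
    P.CoB_w (v ᵥ* (P.dg d : P.MF)) = PowerSeries.map (s : ℂ →+* ℂ) (P.CoB_w v) := by
  by_cases hv : v = 0
  · rw [hv, Matrix.zero_vecMul, CoB_w, if_pos rfl, map_zero]
  · rw [CoB_w, CoB_w, if_neg hv, if_neg (P.Frick_ne hv _)]
    ext k
    rw [PowerSeries.coeff_map, PowerSeries.coeff_mk, PowerSeries.coeff_mk, P.wc_gal s d h]
    rfl

/-- The series of the test functions. -/
def CoB_ser (γ : P.GF) : Option (Option (Fin 2 → P.F)) → PowerSeries ℂ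
  | none => (P.CoB_w (![1, 0] ᵥ* (γ : P.MF)) - P.CoB_w (![0, 1] ᵥ* (γ : P.MF))) ^ 4 *
      PowerSeries.mk (P.es e4c)
  | some none => (P.CoB_w (![1, 0] ᵥ* (γ : P.MF)) - P.CoB_w (![0, 1] ᵥ* (γ : P.MF))) ^ 3 *
      PowerSeries.mk (P.es e6c)
  | some (some v) => (P.CoB_w (![1, 0] ᵥ* (γ : P.MF)) - P.CoB_w (![0, 1] ᵥ* (γ : P.MF))) ^ 5 *
      P.CoB_w (v ᵥ* (γ : P.MF))

theorem CoB_ser_cv (γ : P.GF) (o : Option (Option (Fin 2 → P.F))) :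
    P.Cv (P.CoB_ser γ o) fun τ => P.tf o γ τ * Dl τ ^ 1 := by
  have h1 := (P.CoB_w_cv (![1, 0] ᵥ* (γ : P.MF))).sub (P.CoB_w_cv (![0, 1] ᵥ* (γ : P.MF)))
  intro τ
  have h0 := CoB_eta_ne τ
  rcases o with _ | _ | v
  · refine Eq.mp (congrArg (HasSum _) ?_) ((h1.pow 4).mul (P.cv_es hasSum_E4) τ)
    simp only [tf, Co.ts, Co.d, Co.tw, CoB_x, CoB_a, CoB_dl]
    field_simp
  · refine Eq.mp (congrArg (HasSum _) ?_) ((h1.pow 3).mul (P.cv_es hasSum_E6) τ)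
    simp only [tf, Co.ts, Co.d, Co.tw, CoB_x, CoB_b, CoB_dl]
    field_simp
  · refine Eq.mp (congrArg (HasSum _) ?_) ((h1.pow 5).mul (P.CoB_w_cv (v ᵥ* (γ : P.MF))) τ)
    simp only [tf, Co.ts, Co.d, Co.tw, CoB_x, CoB_dl]
    field_simp

theorem tf_fam (o : Option (Option (Fin 2 → P.F))) : ∃ a : P.GF → ℕ → ℂ, ∀ A : Subring ℂ,
    (∀ v k, P.wc v k ∈ A) → P.Fam1 A 1 (P.tf o) a := by
  refine ⟨fun γ k => PowerSeries.coeff k (P.CoB_ser γ o), fun A hA =>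
    ⟨fun γ k => ?_, fun γ τ => P.CoB_ser_cv γ o τ, fun γ g τ => ?_, fun s d hs γ k => ?_⟩⟩
  · have h1 : ∀ k, PowerSeries.coeff k
        (P.CoB_w (![1, 0] ᵥ* (γ : P.MF)) - P.CoB_w (![0, 1] ᵥ* (γ : P.MF))) ∈ A := fun k => by
      rw [map_sub]
      exact A.sub_mem (P.CoB_w_mem hA _ k) (P.CoB_w_mem hA _ k)
    have h2 : ∀ (b : ℕ → ℤ) k, PowerSeries.coeff k (PowerSeries.mk (P.es b)) ∈ A := fun b k => by
      rw [PowerSeries.coeff_mk]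
      exact P.es_mem _ A k
    rcases o with _ | _ | v
    · exact Frick_mem_mul (Frick_mem_pow h1 4) (h2 _) k
    · exact Frick_mem_mul (Frick_mem_pow h1 3) (h2 _) k
    · exact Frick_mem_mul (Frick_mem_pow h1 5) (P.CoB_w_mem hA _) k
  · obtain ⟨κ, hκ, h⟩ := P.co_smul g τ
    rw [tf, tf, h, Co.tw_sc, Co.ts_sc _ hκ, Co.tw_tw, Units.val_mul, coe_rg]
  · have e : P.CoB_ser (γ * P.dg d) o = PowerSeries.map (s : ℂ →+* ℂ) (P.CoB_ser γ o) := by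
      rcases o with _ | _ | v <;>
      simp only [CoB_ser, Frick_vec, P.CoB_w_gal s d hs, map_mul, map_pow, map_sub, Frick_map_es]
    simp only [e, PowerSeries.coeff_map]
    rfl

theorem tf_one (o : Option (Option (Fin 2 → P.F))) (τ : ℍ) : P.tf o 1 τ = (P.co τ).ts o := by
  rw [tf, Units.val_one, Co.tw_one]

variable {P}

theorem Rho.ga {A : Crv} {s : ℂ ≃+* ℂ} {ρ : P.GF} (h : P.Rho A s ρ) : P.Ga A.t s ρ := by
  obtain ⟨q₂, h2⟩ := A.g2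
  obtain ⟨q₃, h3⟩ := A.g3
  have hπ := Complex.two_pi_I_ne_zero
  set w : ℂ := 2 * Real.pi * Complex.I * A.u with hw
  have hw0 : w ≠ 0 := mul_ne_zero hπ A.u_ne
  have hs0 : s w ≠ 0 := (map_ne_zero s).2 hw0
  have hI : Complex.I ^ 2 = -1 := Complex.I_sq
  have e2 : ∀ v, A.u ^ 2 * P.wp v A.t = w ^ 2 * P.wn v A.t := fun v => by
    rw [wn, hw]
    field_simp
  have e4 : w ^ 4 * E4 A.t = 12 * q₂ := by
    rw [← h2, JB.g₂_eq, hw]
    linear_combination (16 * (Real.pi : ℂ) ^ 4 * A.u ^ 4 * E4 A.t * (Complex.I ^ 2 - 1)) * hI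
  have e6 : w ^ 6 * E6 A.t = -216 * q₃ := by
    rw [← h3, JB.g₃_eq, hw]
    linear_combination (64 * (Real.pi : ℂ) ^ 6 * A.u ^ 6 * E6 A.t *
      (Complex.I ^ 4 - Complex.I ^ 2 + 1)) * hI
  refine P.co_of_scale s (c := w / s w) (div_ne_zero hw0 hs0) (fun v => ?_) ?_ ?_
  · have h1 := h v
    rw [e2, e2, map_mul, map_pow] at h1
    rw [div_pow, div_mul_eq_mul_div, eq_div_iff (pow_ne_zero _ hs0), ← h1, mul_comm]
  · have h1 := congrArg s e4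
    rw [map_mul, map_mul, map_pow, map_ratCast, map_ofNat, ← e4] at h1
    rw [div_pow, div_mul_eq_mul_div, eq_div_iff (pow_ne_zero _ hs0), ← h1, mul_comm]
  · have h1 := congrArg s e6
    rw [map_mul, map_mul, map_pow, map_ratCast, map_neg, map_ofNat, ← e6] at h1
    rw [div_pow, div_mul_eq_mul_div, eq_div_iff (pow_ne_zero _ hs0), ← h1, mul_comm]

theorem Lnk.lk {A B : Crv} {X : P.MF} (h : P.Lnk A B X) : P.Lk A.t B.t X := by
  intro s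
  obtain ⟨ρ₁, ρ₂, h₁, h₂, h₃⟩ := h s
  exact ⟨ρ₁, ρ₂, h₁.ga, h₂.ga, h₃⟩

theorem Ga.tf_eq {τ : ℍ} {s : ℂ ≃+* ℂ} {ρ : P.GF} (h : P.Ga τ s ρ)
    (o : Option (Option (Fin 2 → P.F))) : s (P.tf o 1 τ) = P.tf o ρ τ := by
  obtain ⟨κ, hκ, h1⟩ := h
  rw [tf_one, ← Co.ts_map, h1, Co.ts_sc _ hκ, tf]

theorem CoB_sc_a {u : P.Co} {ρ δ : P.MF} {κ : ℂ} (h : u.tw δ = (u.tw ρ).sc κ) :
    κ ^ 2 * u.a = u.a ∧ κ ^ 3 * u.b = u.b :=
  ⟨(congrArg Co.a h).symm, (congrArg Co.b h).symm⟩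

theorem CoB_sc_x {u : P.Co} {ρ δ g : P.MF} {κ : ℂ} (hκ : κ ≠ 0) (h : u.tw δ = (u.tw ρ).sc κ)
    (hg : (u.tw g).sc κ = u) (v : Fin 2 → P.F) : u.x (v ᵥ* ρ) = u.x (v ᵥ* (δ * g)) := by
  have h3 : (u.tw (δ * g)).sc κ = (u.tw ρ).sc κ := by
    rw [← h, ← Co.tw_tw, ← Co.tw_sc, hg]
  exact mul_left_cancel₀ hκ (congrFun (congrArg Co.x h3) v).symm

theorem co_pm {s : ℍ} {ρ δ : P.GF} (h : ∀ o, P.tf o ρ s = P.tf o δ s) :
    ∃ g : SL(2, ℤ), g • s = s ∧ ρ = δ * P.rg g := by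
  simp only [tf] at h
  obtain ⟨κ, hκ, h1⟩ := Co.eq_of_ts (P.co_d_ne s ρ) h
  have hκ0 : κ ≠ 0 := fun e => by simp [e] at hκ
  obtain ⟨ha, hb⟩ := CoB_sc_a h1
  obtain ⟨g, hg, hd⟩ := exists_stab s (κ := κ)
    (fun h4 => (mul_eq_right₀ ((P.co_a_ne s).2 h4)).1 ha)
    (fun h6 => (mul_eq_right₀ ((P.co_b_ne s).2 h6)).1 hb)
  have h2 := P.co_stab hg
  rw [hd] at h2
  have h5 := CoB_sc_x hκ0 h1 h2
  rw [← coe_rg, ← Units.val_mul] at h5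
  have h6 := Matrix.GeneralLinearGroup.det_ne_zero (δ * P.rg g)
  rcases pm_of_vec (P := P) (ρ := ρ) h6 fun v hv =>
    P.co_inj s (P.Frick_ne hv ρ) (P.Frick_ne hv (δ * P.rg g)) (h5 v) with h4 | h4
  · exact ⟨g, hg, Units.ext h4⟩
  · refine ⟨-g, by rw [ModularGroup.SL_neg_smul, hg], Units.ext ?_⟩
    rw [h4, Units.val_mul, Units.val_mul, coe_rg, coe_rg, red_neg, mul_neg]

end Par

end

end Pool.Agent.P.MP_a60a76_nt.Sz
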