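import Pool.Agent.P.MP_a60a76_nt.Sz.CoB
import Pool.Agent.P.MP_a60a76_nt.Sz.Conj
import Pool.Agent.P.MP_a60a76_nt.Sz.Sepa

namespace Pool.Agent.P.MP_a60a76_nt.Sz

open UpperHalfPlane hiding J
open MeasureTheory SP
open scoped MatrixGroups UpperHalfPlane Matrix Modular Topology Classical ArithmeticFunction.sigma

noncomputable section

/-! Integrality of the coordinates. -/

variable {K : Type} [NormedField K] [IsUltrametricDist K] {ι : ℂ →+* K}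

theorem CoC_two (h6 : ‖(6 : K)‖ = 1) : ‖(2 : K)‖ = 1 := by
  have h2 : ‖(2 : K)‖ ≤ 1 := by exact_mod_cast IsUltrametricDist.norm_natCast_le_one K 2
  have h3 : ‖(3 : K)‖ ≤ 1 := by exact_mod_cast IsUltrametricDist.norm_natCast_le_one K 3
  rw [show (6 : K) = 2 * 3 by norm_num, norm_mul] at h6
  nlinarith [norm_nonneg (2 : K), norm_nonneg (3 : K)]

theorem CoC_1728 (h6 : ‖(6 : K)‖ = 1) : ‖ι 1728‖ = 1 := by
  rw [map_ofNat, show (1728 : K) = 2 ^ 3 * 6 ^ 3 by norm_num, norm_mul, norm_pow, norm_pow,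
    CoC_two h6, h6]
  norm_num

theorem CoC_near {x y : ℂ} (hx : ‖ι x‖ = 1) (h : ‖ι (x - y)‖ < 1) : ‖ι y‖ = 1 := by
  have e : ι y = ι x + -ι (x - y) := by rw [map_sub]; ring
  rw [e, IsUltrametricDist.norm_add_eq_max_of_norm_ne_norm (by rw [norm_neg, hx]; exact h.ne'),
    norm_neg, hx, max_eq_left h.le]

theorem CoC_root (h6 : ‖(6 : K)‖ = 1) {a κ : ℂ} (hκ : κ ^ 6 = 1) {n m : ℕ} (hm : m ≠ 0)
    (ha : ‖ι (a ^ m)‖ = 1) (h : ‖ι (a - κ ^ n * a)‖ < 1) : κ ^ n = 1 := by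
  rw [map_pow, norm_pow, pow_eq_one_iff_of_nonneg (norm_nonneg _) hm] at ha
  refine root_eq_one ι h6 (by rw [← pow_mul, mul_comm, pow_mul, hκ, one_pow]) ?_
  rwa [show a - κ ^ n * a = -((κ ^ n - 1) * a) by ring, map_neg, norm_neg, map_mul, norm_mul, ha,
    mul_one] at h

theorem Gd.smul {s : ℍ} (h : Gd ι s) (g : SL(2, ℤ)) : Gd ι (g • s) := by
  rwa [Gd, SP.J_smul]

theorem gd_of_ell (h6 : ‖(6 : K)‖ = 1) {s : ℍ} (h : J s = 0 ∨ J s = 1728) : Gd ι s := by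
  rcases h with h | h <;> rw [Gd, h]
  · refine ⟨by simp, fun _ => rfl, fun h1 => ?_⟩
    rw [zero_sub, map_neg, norm_neg, CoC_1728 h6] at h1
    exact absurd h1 (lt_irrefl _)
  · exact ⟨(CoC_1728 h6).le, fun h1 => absurd ((CoC_1728 h6) ▸ h1) (lt_irrefl _), fun _ => rfl⟩

theorem gd_of_unit {s : ℍ} {j : ℂ} (h0 : ‖ι j‖ = 1) (h1 : ‖ι (j - 1728)‖ = 1)
    (h : ‖ι (j - J s)‖ < 1) : Gd ι s ∧ J s ≠ 0 ∧ J s ≠ 1728 := by
  have h2 := CoC_near h0 h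
  have h3 : ‖ι (J s - 1728)‖ = 1 := CoC_near h1 (by rwa [sub_sub_sub_cancel_right])
  refine ⟨⟨h2.le, fun h4 => absurd h2 h4.ne, fun h4 => absurd h3 h4.ne⟩, fun h4 => ?_, fun h4 => ?_⟩
  · simp [h4] at h2
  · simp [h4] at h3

namespace Par

variable {P : Par}

theorem wc_mem (ι : ℂ →+* K) (hp : ‖(P.p : K)‖ = 1) (h6 : ‖(6 : K)‖ = 1) (v : Fin 2 → P.F)
    (k : ℕ) : P.wc v k ∈ Ai ι := by
  by_cases hk : k = 0
  · rw [wc, if_pos hk]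
    refine (Ai ι).add_mem ?_ (Frick_c_mem ι hp v)
    change ‖ι (1 / 12)‖ ≤ 1
    rw [map_div₀, map_one, map_ofNat, norm_div, norm_one, show (12 : K) = 2 * 6 by norm_num,
      norm_mul, CoC_two h6, h6]
    norm_num
  · exact P.Frick_pos_mem (zp_mem_Ai ι) v hk

theorem co_sep (hp : ‖(P.p : K)‖ = 1) {τ : ℍ} (hτ : ‖ι (J τ)‖ ≤ 1) : (P.co τ).Sep ι := by
  intro v w hv hw h1 h2
  have h := norm_WW ι hp hτ hv hw h1 h2
  rwa [← co_sub_pow, map_pow, norm_pow,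
    pow_eq_one_iff_of_nonneg (norm_nonneg _) (by norm_num)] at h

theorem co_itg (hp : ‖(P.p : K)‖ = 1) (h6 : ‖(6 : K)‖ = 1) {τ : ℍ} (hτ : ‖ι (J τ)‖ ≤ 1) :
    (P.co τ).Itg ι := by
  refine ⟨fun v => ?_, ?_, ?_⟩
  · obtain ⟨a, ha⟩ := P.tf_fam (some (some v))
    have h := (ha (Ai ι) (wc_mem ι hp h6)).int_bound 1 τ
    rwa [tf_one, Co.ts, map_mul, map_pow, norm_mul, norm_pow, (co_sep hp hτ).norm_d, one_pow,
      one_mul, max_eq_left hτ, one_pow] at h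
  · rwa [← P.co_a, map_pow, norm_pow, pow_le_one_iff_of_nonneg (norm_nonneg _) (by norm_num)] at hτ
  · have h : ‖ι (J τ - 1728)‖ ≤ 1 := by
      rw [map_sub, sub_eq_add_neg]
      exact (IsUltrametricDist.norm_add_le_max _ _).trans
        (max_le hτ (by rw [norm_neg, CoC_1728 h6]))
    rwa [← P.co_b, map_pow, norm_pow, pow_le_one_iff_of_nonneg (norm_nonneg _) (by norm_num)] at h

theorem gd_pm (hp : ‖(P.p : K)‖ = 1) (h6 : ‖(6 : K)‖ = 1) {s : ℍ} (hs : Gd ι s) {ρ δ : P.GF}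
    {κ : ℂ} (hκ : κ ^ 6 = 1) (h : ((P.co s).tw ρ).Cl (((P.co s).tw δ).sc κ) ι) :
    ∃ g : SL(2, ℤ), g • s = s ∧ ρ = δ * P.rg g ∧ dn g s ^ 2 * κ = 1 := by
  have h0 : κ ≠ 0 := fun h0 => by simp [h0] at hκ
  have h4 : E4 s ≠ 0 → κ⁻¹ ^ 2 = 1 := fun h4 => by
    rw [inv_pow, inv_eq_one]
    refine CoC_root h6 hκ (m := 3) (by norm_num) ?_ h.2.1
    change ‖ι ((P.co s).a ^ 3)‖ = 1
    rw [co_a]
    exact hs.1.antisymm (not_lt.1 fun h1 => h4 ((J_zero_iff s).1 (hs.2.1 h1)))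
  have h5 : E6 s ≠ 0 → κ⁻¹ ^ 3 = 1 := fun h5 => by
    rw [inv_pow, inv_eq_one]
    refine CoC_root h6 hκ (m := 2) (by norm_num) ?_ h.2.2
    change ‖ι ((P.co s).b ^ 2)‖ = 1
    refine le_antisymm ?_ (not_lt.1 fun h1 => h5 ((J_1728_iff s).1 (hs.2.2 (P.co_b s ▸ h1))))
    rw [map_pow, norm_pow]
    exact pow_le_one₀ (norm_nonneg _) (co_itg hp h6 hs.1).2.2
  obtain ⟨g, hg, hd⟩ := exists_stab s h4 h5
  have e : ((P.co s).tw δ).sc κ = (P.co s).tw ((δ * P.rg g : P.GF) : P.MF) := by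
    conv_lhs => rw [← P.co_stab hg]
    rw [hd, Co.tw_sc, Co.sc_sc, mul_inv_cancel₀ h0, Co.sc_one, Co.tw_tw]
    rfl
  rw [e] at h
  rcases (co_sep hp hs.1).pm h with h1 | h1
  · exact ⟨g, hg, Units.ext h1, by rw [hd, inv_mul_cancel₀ h0]⟩
  · refine ⟨-g, by rwa [ModularGroup.SL_neg_smul], Units.ext ?_, ?_⟩
    · rw [h1, Units.val_mul, Units.val_mul, coe_rg, coe_rg, red_neg, mul_neg]
    · rw [Matrix.SpecialLinearGroup.coe_neg, dn_neg, neg_sq, hd, inv_mul_cancel₀ h0]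

theorem sim_J (hp : ‖(P.p : K)‖ = 1) (h6 : ‖(6 : K)‖ = 1) {t s : ℍ} (hs : ‖ι (J s)‖ ≤ 1)
    (h : (P.co t).Sim (P.co s) ι) : ‖ι (J t)‖ ≤ 1 ∧ ‖ι (J t - J s)‖ < 1 := by
  have ht := h.symm.itg (co_itg hp h6 hs)
  refine ⟨?_, by simpa only [co_a] using h.cube ht⟩
  rw [← P.co_a, map_pow, norm_pow]
  exact pow_le_one₀ (norm_nonneg _) ht.2.1

theorem gd_stab (hp : ‖(P.p : K)‖ = 1) (h6 : ‖(6 : K)‖ = 1) {s : ℍ} (hs : Gd ι s)
    {g : SL(2, ℤ)} (h : (P.co s).Sim (P.co (g • s)) ι) :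
    ∃ g' : SL(2, ℤ), g' • s = s ∧ red P.p g = red P.p g' := by
  obtain ⟨κ, hκ, h⟩ := h
  obtain ⟨κ', hκ', e⟩ := P.co_smul g s
  have h0 : κ' ≠ 0 := fun h0 => by simp [h0] at hκ'
  have hi : κ'⁻¹ ^ 6 = 1 := by rw [inv_pow, hκ', _root_.inv_one]
  have h1 := h.sc hi
  rw [e, Co.sc_sc, Co.sc_sc, inv_mul_cancel₀ h0, Co.sc_one] at h1
  obtain ⟨g', hg, h2, -⟩ := gd_pm hp h6 hs (ρ := P.rg g) (δ := 1) (κ := κ'⁻¹ * κ)
    (by rw [mul_pow, hi, hκ, one_mul]) (by rwa [Units.val_one, Co.tw_one, coe_rg])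
  exact ⟨g', hg, by rw [← coe_rg, ← coe_rg, h2, one_mul]⟩

end Par

end

end Pool.Agent.P.MP_a60a76_nt.Sz
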