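import Pool.Agent.P.MP_a60a76_nt.Sz.PhiId

namespace Pool.Agent.P.MP_a60a76_nt.Sz

open UpperHalfPlane MeasureTheory SP
open scoped MatrixGroups UpperHalfPlane Matrix Modular Topology Classical ArithmeticFunction.sigma

noncomputable section

/-! Analyticity of the lift along rays. -/

/-- The point at time `s` on the ray from `τ` in the direction `v`. -/
def ray (τ : ℍ) (v : ℂ) (s : ℝ) : ℍ := ofComplex (τ + s * v)

theorem Cont_coe_ray (τ : ℍ) (v : ℂ) {s : ℝ} (hs : 0 < τ.im + s * v.im) :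
    (ray τ v s : ℂ) = τ + s * v := by
  have h : 0 < ((τ : ℂ) + s * v).im := by simpa using hs
  rw [ray, ofComplex_apply_of_im_pos h]

theorem coe_ray (τ : ℍ) {v : ℂ} (hv : 0 < v.im) {s : ℝ} (hs : 0 ≤ s) :
    (ray τ v s : ℂ) = τ + s * v :=
  Cont_coe_ray τ v (add_pos_of_pos_of_nonneg τ.im_pos (mul_nonneg hs hv.le))

theorem exists_ray {t₁ t₂ : ℍ} (h : Proper t₁ t₂) :
    ∃ v : ℂ, v.im = 1 ∧ ∀ s : ℝ, 0 ≤ s → Proper t₁ (ray t₂ v s) := by
  have hc : ((fun z : ℍ => (z.re - t₂.re) / (z.im - t₂.im)) ''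
      {z | ¬ Proper t₁ z}).Countable := (countable_not_proper t₁).image _
  obtain ⟨x, hx⟩ : ∃ x : ℝ, x ∉ ((fun z : ℍ => (z.re - t₂.re) / (z.im - t₂.im)) ''
      {z | ¬ Proper t₁ z}) := by
    by_contra hn
    push Not at hn
    exact Cardinal.not_countable_real (hc.mono fun x _ => hn x)
  refine ⟨⟨x, 1⟩, rfl, fun s hs => ?_⟩
  have he := coe_ray t₂ (v := ⟨x, 1⟩) one_pos hs
  rcases hs.eq_or_lt with rfl | hs'
  · have : ray t₂ ⟨x, 1⟩ 0 = t₂ := UpperHalfPlane.ext (by simpa using he)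
    rwa [this]
  · by_contra hn
    refine hx ⟨_, hn, ?_⟩
    have h1 : (ray t₂ ⟨x, 1⟩ s).re = t₂.re + s * x := by
      have := congrArg Complex.re he
      simpa using this
    have h2 : (ray t₂ ⟨x, 1⟩ s).im = t₂.im + s := by
      have := congrArg Complex.im he
      simpa using this
    simp only [h1, h2, add_sub_cancel_left]
    exact mul_div_cancel_left₀ x hs'.ne'

theorem analytic_ray {f : ℍ → ℂ} (hf : Hol f) (τ : ℍ) {v : ℂ} (hv : 0 < v.im) :
    AnalyticOnNhd ℝ (fun s => Complex.normSq (f (ray τ v s))) (Set.Ici 0) := by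
  intro s hs
  have ho : IsOpen {z : ℂ | 0 < z.im} := isOpen_lt continuous_const Complex.continuous_im
  have h1 : AnalyticAt ℂ (f ∘ ofComplex) ((τ : ℂ) + (s : ℂ) * v) := by
    refine DifferentiableOn.analyticAt hf (ho.mem_nhds ?_)
    have : 0 < τ.im + s * v.im := add_pos_of_pos_of_nonneg τ.im_pos (mul_nonneg hs hv.le)
    simpa using this
  have h2 : AnalyticAt ℂ (fun z : ℂ => (f ∘ ofComplex) ((τ : ℂ) + z * v)) (s : ℂ) :=
    AnalyticAt.comp (g := f ∘ ofComplex) (f := fun z : ℂ => (τ : ℂ) + z * v) h1 (by fun_prop)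
  have h3 := h2.re_ofReal
  have h4 := h2.im_ofReal
  have h5 := (h3.mul h3).add (h4.mul h4)
  refine h5.congr (Filter.Eventually.of_forall fun x => ?_)
  simp [Complex.normSq_apply, ray]

/-- Integrals of dominated holomorphic families are holomorphic. -/
theorem Cont_integral {α : Type} [MeasurableSpace α] {μ : Measure α} {F : ℂ → α → ℂ}
    {U : Set ℂ} (hU : IsOpen U) {b : α → ℝ} (hb : Integrable b μ)
    (hm : ∀ z ∈ U, AEStronglyMeasurable (F z) μ)
    (hd : ∀ᵐ a ∂μ, DifferentiableOn ℂ (fun z => F z a) U)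
    (hle : ∀ᵐ a ∂μ, ∀ z ∈ U, ‖F z a‖ ≤ b a) :
    DifferentiableOn ℂ (fun z => ∫ a, F z a ∂μ) U := by
  intro z hz
  obtain ⟨R, hR, hRU⟩ := Metric.isOpen_iff.1 hU z hz
  have hsub : ∀ w ∈ Metric.ball z (R / 3), Metric.closedBall w (R / 3) ⊆ U := by
    intro w hw u hu
    refine hRU ?_
    rw [Metric.mem_ball] at hw ⊢
    rw [Metric.mem_closedBall] at hu
    linarith [dist_triangle u w z]
  have hR3 : 0 < R / 3 := by positivity
  have key := hasDerivAt_integral_of_dominated_loc_of_deriv_le (μ := μ) (F := F) (x₀ := z)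
    (s := Metric.ball z (R / 3)) (bound := fun a => b a / (R / 3))
    (F' := fun w a => deriv (fun u => F u a) w) (Metric.ball_mem_nhds z hR3)
    (Filter.mem_of_superset (hU.mem_nhds hz) hm)
    (hb.mono' (hm z hz) (hle.mono fun a ha => ha z hz)) ?_ ?_ (hb.div_const _) ?_
  · exact key.2.differentiableAt.differentiableWithinAt
  · have hn : Filter.Tendsto (fun n : ℕ => z + ((R / 3 / ((n : ℝ) + 1) : ℝ) : ℂ)) Filter.atTop
        (𝓝[≠] z) := by
      refine tendsto_nhdsWithin_iff.2 ⟨?_, Filter.Eventually.of_forall fun n => ?_⟩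
      · have h0 : Filter.Tendsto (fun n : ℕ => R / 3 / ((n : ℝ) + 1)) Filter.atTop (𝓝 0) :=
          tendsto_const_nhds.div_atTop
            (Filter.tendsto_atTop_add_const_right _ _ tendsto_natCast_atTop_atTop)
        have h1 := (Complex.continuous_ofReal.tendsto 0).comp h0
        simpa using h1.const_add z
      · have : (0 : ℝ) < R / 3 / ((n : ℝ) + 1) := by positivity
        simp only [Set.mem_compl_iff, Set.mem_singleton_iff, add_eq_left, Complex.ofReal_eq_zero]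
        exact this.ne'
    refine aestronglyMeasurable_of_tendsto_ae Filter.atTop
      (f := fun (n : ℕ) a => slope (fun u => F u a) z (z + ((R / 3 / ((n : ℝ) + 1) : ℝ) : ℂ)))
      (fun n => ?_) ?_
    · have hmem : z + ((R / 3 / ((n : ℝ) + 1) : ℝ) : ℂ) ∈ U := by
        refine hsub z (Metric.mem_ball_self hR3) ?_
        rw [Metric.mem_closedBall, dist_self_add_left, Complex.norm_real,
          Real.norm_of_nonneg (by positivity)]
        exact div_le_self hR3.le (by linarith [Nat.cast_nonneg (α := ℝ) n])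
      simp only [slope, vsub_eq_sub, smul_eq_mul]
      exact ((hm _ hmem).sub (hm z hz)).const_mul _
    · filter_upwards [hd] with a ha
      exact (hasDerivAt_iff_tendsto_slope.1
        (ha.differentiableAt (hU.mem_nhds hz)).hasDerivAt).comp hn
  · filter_upwards [hd, hle] with a ha hl w hw
    refine Complex.norm_deriv_le_of_forall_mem_sphere_norm_le hR3 ?_ fun u hu =>
      hl u (hsub w hw (Metric.sphere_subset_closedBall hu))
    refine DifferentiableOn.diffContOnCl ?_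
    rw [closure_ball w hR3.ne']
    exact ha.mono (hsub w hw)
  · filter_upwards [hd] with a ha w hw
    exact (ha.differentiableAt (hU.mem_nhds
      (hsub w hw (Metric.mem_closedBall_self hR3.le)))).hasDerivAt

/-- The exponential integral at complex points. -/
def Cont_beta (r : ℂ) : ℂ := ∫ t in Set.Ioi (1 : ℝ), Complex.exp (-(r * t)) / t

theorem Cont_beta_ofReal (r : ℝ) : Cont_beta r = beta r := by
  rw [Cont_beta, beta, ← integral_complex_ofReal]
  refine integral_congr_ae (Filter.Eventually.of_forall fun t => ?_)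
  push_cast
  rfl

theorem Cont_integrable_exp {a : ℝ} (ha : 0 < a) :
    IntegrableOn (fun t : ℝ => Real.exp (-(a * t)) / t) (Set.Ioi 1) := by
  have h := exp_neg_integrableOn_Ioi 1 ha
  refine Integrable.mono' h (Measurable.aestronglyMeasurable (by fun_prop)) ?_
  filter_upwards [ae_restrict_mem measurableSet_Ioi] with t ht
  have ht1 : (1 : ℝ) < t := ht
  rw [Real.norm_of_nonneg (by positivity), neg_mul]
  exact div_le_self (Real.exp_pos _).le ht1.le

theorem Cont_norm_term {a : ℝ} {r : ℂ} (h : a ≤ r.re) {t : ℝ} (ht : 1 < t) :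
    ‖Complex.exp (-(r * t)) / t‖ ≤ Real.exp (-(a * t)) / t := by
  have ht0 : 0 < t := by linarith
  rw [norm_div, Complex.norm_exp, Complex.norm_real, Real.norm_of_nonneg ht0.le]
  refine div_le_div_of_nonneg_right (Real.exp_le_exp.2 ?_) ht0.le
  simp only [Complex.neg_re, Complex.mul_re, Complex.ofReal_re, Complex.ofReal_im, mul_zero,
    sub_zero]
  nlinarith

theorem Cont_norm_beta {a : ℝ} (ha : 0 < a) {r : ℂ} (h : a ≤ r.re) : ‖Cont_beta r‖ ≤ beta a := by
  refine norm_integral_le_of_norm_le (Cont_integrable_exp ha) ?_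
  filter_upwards [ae_restrict_mem measurableSet_Ioi] with t ht
  exact Cont_norm_term h ht

theorem Cont_beta_diff {a : ℝ} (ha : 0 < a) :
    DifferentiableOn ℂ Cont_beta {r : ℂ | a < r.re} := by
  refine Cont_integral (isOpen_lt continuous_const Complex.continuous_re)
    (Cont_integrable_exp ha) (fun z _ => Measurable.aestronglyMeasurable (by fun_prop)) ?_ ?_
  · refine Filter.Eventually.of_forall fun t => ?_
    fun_prop
  · filter_upwards [ae_restrict_mem measurableSet_Ioi] with t ht z hz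
    exact Cont_norm_term (le_of_lt hz) ht

/-- The quantity `Rm` along a ray, for complex times. -/
def Cont_R (X : MZ) (t₁ t : ℍ) (v w : ℂ) : ℂ :=
  ((Complex.normSq (((X 1 0 : ℂ) * t₁ + X 1 1) * t - ((X 0 0 : ℂ) * t₁ + X 0 1)) : ℝ) +
    2 * w * (((((X 1 0 : ℂ) * t₁ + X 1 1) * t - ((X 0 0 : ℂ) * t₁ + X 0 1)) *
      (starRingEnd ℂ) (((X 1 0 : ℂ) * t₁ + X 1 1) * v)).re : ℝ) +
    w ^ 2 * (Complex.normSq (((X 1 0 : ℂ) * t₁ + X 1 1) * v) : ℝ)) /
    (4 * t₁.im * (t.im + w * v.im))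

theorem Cont_R_ofReal (X : MZ) (t₁ t : ℍ) (v : ℂ) {s : ℝ} (hs : 0 < t.im + s * v.im) :
    Cont_R X t₁ t v s = Rm X t₁ (ray t v s) := by
  have he := Cont_coe_ray t v hs
  have h2 : (ray t v s).im = t.im + s * v.im := by
    have := congrArg Complex.im he
    simpa using this
  rw [Rm, he, h2, Cont_R]
  set B := (X 1 0 : ℂ) * t₁ + X 1 1
  set A := (X 0 0 : ℂ) * t₁ + X 0 1
  have h3 : Complex.normSq (B * (t + s * v) - A) = Complex.normSq (B * t - A) +
      2 * s * ((B * t - A) * (starRingEnd ℂ) (B * v)).re + s ^ 2 * Complex.normSq (B * v) := by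
    have : B * (t + s * v) - A = (B * t - A) + s * (B * v) := by ring
    rw [this]
    generalize B * t - A = a
    generalize B * v = b
    simp [Complex.normSq_apply]
    ring
  rw [h3]
  push_cast
  rfl

theorem Cont_den {t : ℍ} {v w : ℂ} (hv : 0 < v.im) (h : ‖w‖ ≤ t.im / (2 * v.im)) :
    t.im / 2 ≤ ‖(t.im : ℂ) + w * v.im‖ := by
  have h1 : ‖w * v.im‖ ≤ t.im / 2 := by
    rw [norm_mul, Complex.norm_real, Real.norm_of_nonneg hv.le]
    calc ‖w‖ * v.im ≤ t.im / (2 * v.im) * v.im := by gcongr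
      _ = t.im / 2 := by field_simp
  have h2 := norm_sub_norm_le (t.im : ℂ) (-(w * v.im))
  rw [sub_neg_eq_add, norm_neg, Complex.norm_real, Real.norm_of_nonneg t.im_pos.le] at h2
  linarith

theorem Cont_R_diff (X : MZ) (t₁ t : ℍ) {v : ℂ} (hv : 0 < v.im) {δ : ℝ}
    (hδ : δ ≤ t.im / (2 * v.im)) : DifferentiableOn ℂ (Cont_R X t₁ t v) (Metric.ball 0 δ) := by
  refine DifferentiableOn.div (by fun_prop) (by fun_prop) fun w hw => ?_
  have h := Cont_den hv ((mem_ball_zero_iff.1 hw).le.trans hδ)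
  have h0 : (t.im : ℂ) + w * v.im ≠ 0 := by
    intro e
    rw [e, norm_zero] at h
    linarith [t.im_pos]
  have h1 : (t₁.im : ℂ) ≠ 0 := by exact_mod_cast t₁.im_pos.ne'
  exact mul_ne_zero (mul_ne_zero (by norm_num) h1) h0

theorem Cont_R_near (t₁ t : ℍ) {v : ℂ} (hv : 0 < v.im) : ∃ C : ℝ, 0 < C ∧ ∀ (X : MZ) (w : ℂ),
    ‖w‖ ≤ 1 → ‖w‖ ≤ t.im / (2 * v.im) →
      ‖Cont_R X t₁ t v w - Rm X t₁ t‖ ≤ C * ‖w‖ * Mj X t₁ t := by
  have hy := t.im_pos
  have hy1 := t₁.im_pos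
  have hN := Complex.normSq_nonneg v
  refine ⟨(4 * t₁.im * t.im * (t.im + v.im) + 4 * t₁.im * Complex.normSq v) /
    (2 * t₁.im * t.im ^ 2), by positivity, fun X w h1 h2 => ?_⟩
  have hden := Cont_den hv h2
  have hM := Mj_eq X t₁ t
  have hRM := Rm_le_Mj X t₁ t
  rw [Cont_R]
  rw [Rm] at hRM ⊢
  generalize Mj X t₁ t = m at hM hRM ⊢
  set B := (X 1 0 : ℂ) * t₁ + X 1 1
  set A := (X 0 0 : ℂ) * t₁ + X 0 1
  have ha : Complex.normSq (B * t - A) ≤ 4 * t₁.im * t.im * m := by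
    rw [div_le_iff₀ (by positivity)] at hRM
    linarith
  have hb : Complex.normSq (B * v) * t.im ≤ 2 * t₁.im * m * Complex.normSq v := by
    rw [eq_div_iff (by positivity)] at hM
    have h3 := Complex.normSq_nonneg (A - B * t.re)
    have h4 : Complex.normSq B * t.im ≤ 2 * t₁.im * m := by
      refine le_of_mul_le_mul_right ?_ hy
      nlinarith
    rw [Complex.normSq_mul]
    nlinarith
  have hab : |((B * t - A) * (starRingEnd ℂ) (B * v)).re| * 2 ≤
      Complex.normSq (B * t - A) + Complex.normSq (B * v) := by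
    generalize B * t - A = a
    generalize B * v = b
    simp only [Complex.normSq_apply, Complex.mul_re, Complex.conj_re, Complex.conj_im]
    rcases abs_cases (a.re * b.re - a.im * -b.im) with h | h <;> rw [h.1] <;>
      nlinarith [sq_nonneg (a.re - b.re), sq_nonneg (a.im - b.im), sq_nonneg (a.re + b.re),
        sq_nonneg (a.im + b.im)]
  have ha0 := Complex.normSq_nonneg (B * t - A)
  have hb0 := Complex.normSq_nonneg (B * v)
  generalize Complex.normSq (B * t - A) = a at *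
  generalize Complex.normSq (B * v) = b at *
  generalize ((B * t - A) * (starRingEnd ℂ) (B * v)).re = e at *
  have h0 : (t.im : ℂ) + w * v.im ≠ 0 := by
    intro e
    rw [e, norm_zero] at hden
    linarith
  have h1' : (t₁.im : ℂ) ≠ 0 := by exact_mod_cast hy1.ne'
  have h2' : (t.im : ℂ) ≠ 0 := by exact_mod_cast hy.ne'
  have hid : ((a : ℂ) + 2 * w * e + w ^ 2 * b) / (4 * t₁.im * (t.im + w * v.im)) -
      ((a / (4 * t₁.im * t.im) : ℝ) : ℂ) =
      w * ((2 * e * t.im + w * b * t.im - a * v.im) / (4 * t₁.im * t.im * (t.im + w * v.im))) := by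
    push_cast
    field_simp
    ring
  rw [hid, norm_mul, norm_div]
  have hnum : ‖(2 * e * t.im + w * b * t.im - a * v.im : ℂ)‖ ≤
      (4 * t₁.im * t.im * (t.im + v.im) + 4 * t₁.im * Complex.normSq v) * m := by
    have e1 : ‖(2 * e * t.im : ℂ)‖ = |e| * 2 * t.im := by
      rw [norm_mul, norm_mul, Complex.norm_real, Complex.norm_real, Real.norm_of_nonneg hy.le,
        Real.norm_eq_abs, Complex.norm_two]
      ring
    have e2 : ‖(w * b * t.im : ℂ)‖ ≤ b * t.im := by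
      rw [norm_mul, norm_mul, Complex.norm_real, Complex.norm_real, Real.norm_of_nonneg hy.le,
        Real.norm_of_nonneg hb0]
      have : ‖w‖ * b ≤ b := mul_le_of_le_one_left hb0 h1
      gcongr
    have e3 : ‖(a * v.im : ℂ)‖ = a * v.im := by
      rw [norm_mul, Complex.norm_real, Complex.norm_real, Real.norm_of_nonneg hv.le,
        Real.norm_of_nonneg ha0]
    have e4 := norm_sub_le (2 * e * t.im + w * b * t.im : ℂ) (a * v.im)
    have e5 := norm_add_le (2 * e * t.im : ℂ) (w * b * t.im)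
    have e6 : |e| * 2 * t.im ≤ (a + b) * t.im := by gcongr
    have e7 : a * (t.im + v.im) ≤ 4 * t₁.im * t.im * m * (t.im + v.im) := by gcongr
    nlinarith
  have hd : 2 * t₁.im * t.im ^ 2 ≤ ‖(4 * t₁.im * t.im * (t.im + w * v.im) : ℂ)‖ := by
    rw [norm_mul, norm_mul, norm_mul, Complex.norm_real, Complex.norm_real,
      Real.norm_of_nonneg hy.le, Real.norm_of_nonneg hy1.le]
    have : ‖(4 : ℂ)‖ = 4 := by simp
    rw [this]
    have : 4 * t₁.im * t.im * (t.im / 2) ≤ 4 * t₁.im * t.im * ‖(t.im : ℂ) + w * v.im‖ := by gcongr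
    nlinarith
  have hm0 : 0 ≤ m := by
    have : 0 ≤ 4 * t₁.im * t.im * m := ha0.trans ha
    exact nonneg_of_mul_nonneg_right this (by positivity) 
  calc ‖w‖ * (‖(2 * e * t.im + w * b * t.im - a * v.im : ℂ)‖ /
        ‖(4 * t₁.im * t.im * (t.im + w * v.im) : ℂ)‖)
      ≤ ‖w‖ * ((4 * t₁.im * t.im * (t.im + v.im) + 4 * t₁.im * Complex.normSq v) * m /
        (2 * t₁.im * t.im ^ 2)) := by gcongr
    _ = _ := by ring

theorem Cont_R_eps (t₁ t : ℍ) {v : ℂ} (hv : 0 < v.im) {ε : ℝ} (hε : 0 < ε) :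
    ∃ δ : ℝ, 0 < δ ∧ δ ≤ t.im / (2 * v.im) ∧ ∀ (X : MZ), ∀ w ∈ Metric.ball (0 : ℂ) δ,
      Rm X t₁ t - ε * Mj X t₁ t ≤ (Cont_R X t₁ t v w).re := by
  obtain ⟨C, hC, h⟩ := Cont_R_near t₁ t hv
  have hy := t.im_pos
  refine ⟨min (min 1 (t.im / (2 * v.im))) (ε / C), by positivity,
    (min_le_left _ _).trans (min_le_right _ _), fun X w hw => ?_⟩
  have hw' := (mem_ball_zero_iff.1 hw).le
  have h1 := h X w (hw'.trans ((min_le_left _ _).trans (min_le_left _ _)))
    (hw'.trans ((min_le_left _ _).trans (min_le_right _ _)))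
  have h2 : C * ‖w‖ ≤ ε := by
    have := hw'.trans (min_le_right _ _)
    rwa [le_div_iff₀' hC] at this
  have hM : 0 ≤ Mj X t₁ t := (abs_nonneg _).trans (abs_det_le_Mj X t₁ t)
  have h3 : C * ‖w‖ * Mj X t₁ t ≤ ε * Mj X t₁ t := by gcongr
  have h4 := Complex.abs_re_le_norm (Cont_R X t₁ t v w - Rm X t₁ t)
  rw [Complex.sub_re, Complex.ofReal_re] at h4
  linarith [(abs_le.1 h4).1]

namespace Par

variable {P : Par} {c : P.D → ℤ → ℤ} {χ : ℍ → ℝ}

/-- The theta kernel along a ray, for complex times. -/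
def Cont_th (P : Par) (t₁ t : ℍ) (v : ℂ) (k : P.D) (τ : ℍ) (w : ℂ) : ℂ :=
  (τ.im : ℂ) * ∑' X : MZ, P.ind k X * (ee (τ * X.det / P.p ^ 2) *
    Complex.exp (-(4 * Real.pi * τ.im * Cont_R X t₁ t v w / P.p ^ 2)))

theorem Cont_th_ofReal (t₁ t : ℍ) (v : ℂ) (k : P.D) (τ : ℍ) {s : ℝ}
    (hs : 0 < t.im + s * v.im) : P.Cont_th t₁ t v k τ s = P.th t₁ (ray t v s) k τ := by
  rw [Cont_th, th]
  congr 1
  refine tsum_congr fun X => ?_
  rw [Cont_R_ofReal X t₁ t v hs]
  push_cast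
  rfl

theorem Cont_th_term {t₁ t : ℍ} {r : ℂ} {X : MZ} (h : Rm X t₁ t - 1 / 4 * Mj X t₁ t ≤ r.re)
    (k : P.D) (τ : ℍ) {y : ℝ} (hy : y ≤ τ.im) :
    ‖P.ind k X * (ee (τ * X.det / P.p ^ 2) *
      Complex.exp (-(4 * Real.pi * τ.im * r / P.p ^ 2)))‖ ≤
      Real.exp (-(2 * Real.pi * (y / (2 * P.p ^ 2)) * Mj X t₁ t)) := by
  have hp := P.p_pos
  have hM : 0 ≤ Mj X t₁ t := (abs_nonneg _).trans (abs_det_le_Mj X t₁ t)
  have h1 : ‖P.ind k X‖ ≤ 1 := by
    rw [ind]
    split_ifs <;> simp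
  have h2 : ((τ : ℂ) * X.det / P.p ^ 2).im = τ.im * X.det / P.p ^ 2 := by
    have : ((τ : ℂ) * X.det / P.p ^ 2) = τ * ((X.det / P.p ^ 2 : ℝ) : ℂ) := by
      generalize X.det = n
      push_cast
      ring
    rw [this, Complex.mul_im, Complex.ofReal_re, Complex.ofReal_im, UpperHalfPlane.coe_im]
    ring
  have h3 : (-(4 * Real.pi * τ.im * r / P.p ^ 2) : ℂ).re =
      -(4 * Real.pi * τ.im * r.re / P.p ^ 2) := by
    have : (-(4 * Real.pi * τ.im * r / P.p ^ 2) : ℂ) =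
        ((-(4 * Real.pi * τ.im / P.p ^ 2) : ℝ) : ℂ) * r := by
      push_cast
      ring
    rw [this, Complex.re_ofReal_mul]
    ring
  rw [norm_mul, norm_mul, norm_ee, Complex.norm_exp, h2, h3, ← Real.exp_add]
  refine (mul_le_of_le_one_left (Real.exp_pos _).le h1).trans (Real.exp_le_exp.2 ?_)
  have h4 : (X.det : ℝ) = Mj X t₁ t - 2 * Rm X t₁ t := by rw [Mj]; ring
  rw [h4]
  have hτ := τ.im_pos
  have h5 : y * Mj X t₁ t ≤ τ.im * Mj X t₁ t := by gcongr
  have h6 : τ.im * (Rm X t₁ t - 1 / 4 * Mj X t₁ t) ≤ τ.im * r.re := by gcongr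
  have h7 : 0 < Real.pi / P.p ^ 2 := by positivity
  have h8 : 0 ≤ Real.pi / P.p ^ 2 * (2 * (τ.im * (Mj X t₁ t - 2 * Rm X t₁ t)) +
      4 * (τ.im * r.re) - y * Mj X t₁ t) := mul_nonneg h7.le (by nlinarith)
  have h9 : Real.pi / P.p ^ 2 * (2 * (τ.im * (Mj X t₁ t - 2 * Rm X t₁ t)) +
      4 * (τ.im * r.re) - y * Mj X t₁ t) =
      -(2 * Real.pi * (y / (2 * P.p ^ 2)) * Mj X t₁ t) -
      (-(2 * Real.pi * (τ.im * (Mj X t₁ t - 2 * Rm X t₁ t) / P.p ^ 2)) +
        -(4 * Real.pi * τ.im * r.re / P.p ^ 2)) := by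
    field_simp
    ring
  linarith

theorem Cont_th_diff {t₁ t : ℍ} {v : ℂ} (hv : 0 < v.im) {δ : ℝ} (hδ : δ ≤ t.im / (2 * v.im))
    (h : ∀ (X : MZ), ∀ w ∈ Metric.ball (0 : ℂ) δ,
      Rm X t₁ t - 1 / 4 * Mj X t₁ t ≤ (Cont_R X t₁ t v w).re) (k : P.D) (τ : ℍ) :
    DifferentiableOn ℂ (P.Cont_th t₁ t v k τ) (Metric.ball 0 δ) := by
  have hp := P.p_pos
  have hτ := τ.im_pos
  refine DifferentiableOn.const_mul (Complex.differentiableOn_tsum_of_summable_norm
    (summable_Th t₁ t (r := τ.im / (2 * P.p ^ 2)) (by positivity)) (fun X => ?_)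
    Metric.isOpen_ball fun X w hw => Cont_th_term (h X w hw) k τ le_rfl) _
  have := Cont_R_diff X t₁ t hv hδ
  fun_prop

theorem Cont_th_le {t₁ t : ℍ} {v w : ℂ}
    (h : ∀ X : MZ, Rm X t₁ t - 1 / 4 * Mj X t₁ t ≤ (Cont_R X t₁ t v w).re) (k : P.D) {τ : ℍ}
    (h1 : 1 / 2 ≤ τ.im) (h2 : τ.im ≤ 2) :
    ‖P.Cont_th t₁ t v k τ w‖ ≤ 2 * Th t₁ t (1 / 2 / (2 * P.p ^ 2)) := by
  have hp := P.p_pos
  rw [Cont_th, norm_mul, Complex.norm_real, Real.norm_of_nonneg τ.im_pos.le]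
  refine mul_le_mul h2 ?_ (norm_nonneg _) (by norm_num)
  exact tsum_of_norm_bounded (summable_Th t₁ t (r := 1 / 2 / (2 * P.p ^ 2))
    (by positivity)).hasSum fun X => Cont_th_term (h X) k τ h1

theorem Cont_th_meas (t₁ t : ℍ) (v : ℂ) (k : P.D) (w : ℂ) :
    Measurable fun τ => P.Cont_th t₁ t v k τ w := by
  have h1 : Continuous fun τ : ℍ => (τ.im : ℂ) :=
    Complex.continuous_ofReal.comp UpperHalfPlane.continuous_im
  haveI : Countable MZ := inferInstanceAs (Countable (Fin 2 → Fin 2 → ℤ))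
  refine h1.measurable.mul (Measurable.tsum fun X => Continuous.measurable ?_)
  have h2 := continuous_ee
  have h3 := UpperHalfPlane.continuous_coe
  fun_prop

theorem Cont_IT_diff (hχ : IsChi χ) (hF : P.IsF 0 c) {t₁ t : ℍ} {v : ℂ} (hv : 0 < v.im) {δ : ℝ}
    (hδ : δ ≤ t.im / (2 * v.im)) (h : ∀ (X : MZ), ∀ w ∈ Metric.ball (0 : ℂ) δ,
      Rm X t₁ t - 1 / 4 * Mj X t₁ t ≤ (Cont_R X t₁ t v w).re) :
    DifferentiableOn ℂ (fun w => IT χ 2 (P.pr c fun k τ => P.Cont_th t₁ t v k τ w))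
      (Metric.ball 0 δ) := by
  have hc : ∀ k, Continuous (P.fn c k) := fun k => (c1_of_hol (hF.hol k)).1.continuous
  have hb : Integrable (fun τ => ∑ k, ‖(ps χ τ : ℂ) * P.fn c k τ‖ *
      (2 * Th t₁ t (1 / 2 / (2 * P.p ^ 2)))) (volume.restrict {τ : ℍ | τ.im ≤ 2}) :=
    integrable_finsetSum _ fun k _ => (hχ.integrableOn_IT (hc k) 2).norm.mul_const _
  refine Cont_integral Metric.isOpen_ball hb (fun w _ => Measurable.aestronglyMeasurable ?_)
    (Filter.Eventually.of_forall fun τ => ?_) ?_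
  · refine (Complex.measurable_ofReal.comp hχ.measurable_ps).mul ?_
    exact Finset.measurable_sum _ fun k _ => (hc k).measurable.mul (Cont_th_meas t₁ t v k w)
  · exact DifferentiableOn.const_mul (DifferentiableOn.fun_sum fun k _ =>
      (Cont_th_diff hv hδ h k τ).const_mul _) _
  · filter_upwards [ae_restrict_mem (measurableSet_le UpperHalfPlane.continuous_im.measurable
      measurable_const)] with τ hτ w hw
    rcases le_total τ.im (1 / 2) with h1 | h1
    · have : ps χ τ = 0 := by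
        rw [ps, hχ.low τ h1, ite_self]
      simp [this]
    · rw [pr, Finset.mul_sum]
      refine (norm_sum_le _ _).trans (Finset.sum_le_sum fun k _ => ?_)
      rw [← mul_assoc, norm_mul]
      exact mul_le_mul_of_nonneg_left (Cont_th_le (fun X => h X w hw) k h1 hτ) (norm_nonneg _)

theorem Cont_kappa (hF : P.IsF 0 c) {t₁ t : ℍ} (hz : Proper t₁ t) :
    ∃ κ : ℝ, 0 < κ ∧ ∀ X : MZ, P.cX c X ≠ 0 → X ≠ 0 ∧ κ * Mj X t₁ t ≤ Rm X t₁ t := by
  have hfin := (finite_Mj_le t₁ t (2 * P.lo c)).subset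
    (Set.sep_subset {X : MZ | Mj X t₁ t ≤ 2 * P.lo c} fun X => X ≠ 0)
  obtain ⟨κ, hκ, hle⟩ : ∃ κ : ℝ, 0 < κ ∧ ∀ X ∈ {X ∈ {X : MZ | Mj X t₁ t ≤ 2 * P.lo c} | X ≠ 0},
      κ ≤ Rm X t₁ t / Mj X t₁ t := by
    rcases Set.eq_empty_or_nonempty {X ∈ {X : MZ | Mj X t₁ t ≤ 2 * P.lo c} | X ≠ 0} with he | he
    · exact ⟨1, one_pos, fun X hX => absurd (he ▸ hX) (Set.notMem_empty X)⟩
    · obtain ⟨Y, hY, hmin⟩ := Set.exists_min_image _ (fun X => Rm X t₁ t / Mj X t₁ t) hfin he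
      exact ⟨_, div_pos ((Rm_nonneg Y t₁ t).lt_of_ne' (hz Y hY.2)) (Mj_pos hY.2 t₁ t), hmin⟩
  refine ⟨min κ (1 / 4), by positivity, fun X hX => ?_⟩
  have h1 : P.InL X ∧ X ≠ 0 := by
    by_contra hn
    exact hX (if_neg hn)
  refine ⟨h1.2, ?_⟩
  have hM := Mj_pos h1.2 t₁ t
  rcases le_or_gt (Mj X t₁ t) (2 * P.lo c) with h2 | h2
  · have := hle X ⟨h2, h1.2⟩
    rw [le_div_iff₀ hM] at this
    exact (mul_le_mul_of_nonneg_right (min_le_left _ _) hM.le).trans this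
  · have h3 : X.det ≤ P.lo c := by
      by_contra hn
      refine hX ?_
      rw [cX, if_pos h1, hF.lo_spec _ _ (by omega), Int.cast_zero]
    have h4 : (X.det : ℝ) ≤ P.lo c := by exact_mod_cast h3
    have h5 : Mj X t₁ t = 2 * Rm X t₁ t + X.det := rfl
    have h6 := mul_le_mul_of_nonneg_right (min_le_right κ (1 / 4)) hM.le
    linarith

theorem Cont_sum_diff (hF : P.IsF 0 c) {t₁ t : ℍ} (hz : Proper t₁ t) {v : ℂ} (hv : 0 < v.im)
    {δ : ℝ} (hδ : δ ≤ t.im / (2 * v.im)) (h : ∀ X : MZ, P.cX c X ≠ 0 → X ≠ 0 ∧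
      ∀ w ∈ Metric.ball (0 : ℂ) δ, Rm X t₁ t / 2 ≤ (Cont_R X t₁ t v w).re) :
    DifferentiableOn ℂ (fun w => ∑' X : MZ, (P.cX c X : ℂ) *
      Cont_beta (4 * Real.pi * 2 * Cont_R X t₁ t v w / P.p ^ 2)) (Metric.ball 0 δ) := by
  have hp := P.p_pos
  have hre : ∀ X : MZ, P.cX c X ≠ 0 → 0 < 4 * Real.pi * 1 * Rm X t₁ t / P.p ^ 2 ∧
      ∀ w ∈ Metric.ball (0 : ℂ) δ, 4 * Real.pi * 1 * Rm X t₁ t / P.p ^ 2 ≤
        (4 * Real.pi * 2 * Cont_R X t₁ t v w / P.p ^ 2 : ℂ).re := by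
    intro X hX
    have h0 : 0 < Rm X t₁ t := (Rm_nonneg X t₁ t).lt_of_ne' (hz X (h X hX).1)
    refine ⟨by positivity, fun w hw => ?_⟩
    have e : (4 * Real.pi * 2 * Cont_R X t₁ t v w / P.p ^ 2 : ℂ) =
        ((4 * Real.pi * 2 / P.p ^ 2 : ℝ) : ℂ) * Cont_R X t₁ t v w := by
      push_cast
      ring
    rw [e, Complex.re_ofReal_mul]
    calc 4 * Real.pi * 1 * Rm X t₁ t / P.p ^ 2
        = 4 * Real.pi * 2 / P.p ^ 2 * (Rm X t₁ t / 2) := by ring
      _ ≤ _ := mul_le_mul_of_nonneg_left ((h X hX).2 w hw) (by positivity)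
  refine Complex.differentiableOn_tsum_of_summable_norm (summable_cX hF hz le_rfl).abs (fun X => ?_)
    Metric.isOpen_ball fun X w hw => ?_
  · by_cases hX : P.cX c X = 0
    · simp [hX]
    · obtain ⟨h1, h2⟩ := hre X hX
      refine DifferentiableOn.const_mul ((Cont_beta_diff (half_pos h1)).comp ?_ fun w hw =>
        (half_lt_self h1).trans_le (h2 w hw)) _
      have := Cont_R_diff X t₁ t hv hδ
      fun_prop
  · by_cases hX : P.cX c X = 0
    · simp [hX]
    · obtain ⟨h1, h2⟩ := hre X hX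
      rw [norm_mul, abs_mul, Complex.norm_real, Real.norm_eq_abs]
      exact mul_le_mul_of_nonneg_left ((Cont_norm_beta h1 (h2 w hw)).trans (le_abs_self _))
        (abs_nonneg _)

theorem Cont_at_zero (hχ : IsChi χ) (hF : P.IsF 0 c) {t₁ t : ℍ} (hz : Proper t₁ t) {v : ℂ}
    (hv : 0 < v.im) : AnalyticAt ℝ (fun s => (P.Phi χ c 2 t₁ (ray t v s)).re) 0 := by
  obtain ⟨κ, hκ, hk⟩ := Cont_kappa hF hz
  obtain ⟨δ, hδ, hδ', h⟩ := Cont_R_eps t₁ t hv (ε := min (1 / 4) (κ / 2)) (by positivity)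
  have hM : ∀ X : MZ, 0 ≤ Mj X t₁ t := fun X => (abs_nonneg _).trans (abs_det_le_Mj X t₁ t)
  have h1 := Cont_IT_diff (t₁ := t₁) hχ hF hv hδ' fun X w hw => by
    have := mul_le_mul_of_nonneg_right (min_le_left (1 / 4) (κ / 2)) (hM X)
    linarith [h X w hw]
  have h2 := Cont_sum_diff hF hz hv hδ' fun X hX => ⟨(hk X hX).1, fun w hw => by
    have := mul_le_mul_of_nonneg_right (min_le_right (1 / 4) (κ / 2)) (hM X)
    linarith [h X w hw, (hk X hX).2]⟩
  have h3 := (h1.add h2).analyticAt (Metric.ball_mem_nhds 0 hδ)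
  rw [← Complex.ofReal_zero] at h3
  refine h3.re_ofReal.congr ?_
  have hpos : ∀ᶠ s : ℝ in 𝓝 0, 0 < t.im + s * v.im := by
    have hc : Continuous fun s : ℝ => t.im + s * v.im := by fun_prop
    exact hc.continuousAt.eventually (lt_mem_nhds (by simpa using t.im_pos))
  filter_upwards [hpos] with s hs
  congr 1
  rw [Phi, Pi.add_apply, Complex.ofReal_tsum]
  congr 1
  · congr 2
    funext k τ
    exact Cont_th_ofReal t₁ t v k τ hs
  · refine tsum_congr fun X => ?_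
    rw [Cont_R_ofReal X t₁ t v hs, Complex.ofReal_mul, ← Cont_beta_ofReal]
    push_cast
    rfl

end Par

theorem Par.analytic_Phi {P : Par} {c : P.D → ℤ → ℤ} {χ : ℍ → ℝ} (hχ : IsChi χ)
    (h : P.IsF 0 c) {t₁ t₂ : ℍ} {v : ℂ} (hv : 0 < v.im)
    (hz : ∀ s : ℝ, 0 ≤ s → Proper t₁ (ray t₂ v s)) :
    AnalyticOnNhd ℝ (fun s => (P.Phi χ c 2 t₁ (ray t₂ v s)).re) (Set.Ici 0) := by
  intro s hs
  have h1 := Par.Cont_at_zero hχ h (hz s hs) hv
  have h2 : AnalyticAt ℝ (fun x : ℝ => x - s) s := by fun_prop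
  have h3 := AnalyticAt.comp (g := fun u => (P.Phi χ c 2 t₁ (ray (ray t₂ v s) v u)).re)
    (f := fun x : ℝ => x - s) (by simpa using h1) h2
  refine h3.congr (Filter.Eventually.of_forall fun x => ?_)
  have e : ray (ray t₂ v s) v (x - s) = ray t₂ v x := by
    rw [ray, coe_ray t₂ hv hs, ray]
    congr 1
    push_cast
    ring
  simp only [Function.comp_apply, e]

end

end Pool.Agent.P.MP_a60a76_nt.Sz
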