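import Pool.Agent.P.MP_a60a76_nt.Sz.NClo

namespace Pool.Agent.P.MP_a60a76_nt.Sz

open UpperHalfPlane MeasureTheory SP
open scoped MatrixGroups UpperHalfPlane Matrix Modular Topology Classical ArithmeticFunction.sigma

noncomputable section

/-! The input forms have full rank. -/

theorem Rank_open : IsOpen {z : ℂ | 0 < z.im} := isOpen_lt continuous_const Complex.continuous_im

theorem Rank_at {f : ℍ → ℂ} (hf : Hol f) (τ : ℍ) : DifferentiableAt ℂ (f ∘ ofComplex) τ :=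
  hf.differentiableAt (Rank_open.mem_nhds τ.im_pos)

theorem Rank_id {f : ℍ → ℂ} (hf : Hol f) {τ₀ : ℍ}
    (h : ∀ᶠ z in 𝓝 (τ₀ : ℂ), f (ofComplex z) = 0) (τ : ℍ) : f τ = 0 := by
  have h1 := (hf.analyticOnNhd Rank_open).eqOn_zero_of_preconnected_of_eventuallyEq_zero
    (convex_halfSpace_im_gt 0).isPreconnected τ₀.im_pos h τ.im_pos
  simpa using h1

theorem Rank_ne {g : ℍ → ℂ} (hg : Hol g) {τ₀ : ℍ} (h0 : g τ₀ ≠ 0) :
    ∀ᶠ z in 𝓝 (τ₀ : ℂ), g (ofComplex z) ≠ 0 :=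
  (Rank_at hg τ₀).continuousAt.eventually_ne (by simpa using h0)

theorem Rank_dom {f g : ℍ → ℂ} (hf : Hol f) (hg : Hol g) (h : ∀ τ, g τ * f τ = 0) {τ₀ : ℍ}
    (h0 : g τ₀ ≠ 0) (τ : ℍ) : f τ = 0 :=
  Rank_id hf ((Rank_ne hg h0).mono fun _ hz => (mul_eq_zero.1 (h _)).resolve_left hz) τ

theorem Rank_mul {f g : ℍ → ℂ} (hf : Hol f) (hg : Hol g) : Hol fun τ => f τ * g τ :=
  DifferentiableOn.mul hf hg

theorem Rank_sub {f g : ℍ → ℂ} (hf : Hol f) (hg : Hol g) : Hol fun τ => f τ - g τ :=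
  DifferentiableOn.sub hf hg

theorem Rank_const (a : ℂ) : Hol fun _ => a := differentiableOn_const a

theorem Rank_sum {ι : Type} [Fintype ι] {f : ι → ℍ → ℂ} (hf : ∀ i, Hol (f i)) :
    Hol fun τ => ∑ i, f i τ :=
  DifferentiableOn.fun_sum (u := Finset.univ) (A := fun i z => f i (ofComplex z)) fun i _ => hf i

/-- The derivative. -/
def Rank_d (f : ℍ → ℂ) (τ : ℍ) : ℂ := deriv (f ∘ ofComplex) τ

theorem Rank_d_hol {f : ℍ → ℂ} (hf : Hol f) : Hol (Rank_d f) :=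
  (DifferentiableOn.deriv hf Rank_open).congr fun z hz => by
    rw [Function.comp_apply, Rank_d, ofComplex_apply_of_im_pos hz]

theorem Rank_exists_ne {c : ℕ → ℤ} {f : ℍ → ℂ} (h : QS 1 (zx c) f) (h0 : c 0 ≠ 0) :
    ∃ τ, f τ ≠ 0 := by
  have h1 := h.tendsto one_pos (L := 0) fun ν hν => if_neg (not_le.2 hν)
  have h2 : zx c 0 ≠ 0 := by simpa [zx] using h0
  obtain ⟨τ, hτ⟩ := (h1.eventually_ne h2).exists
  exact ⟨τ, right_ne_zero_of_mul hτ⟩

theorem Rank_E4 {f : ℍ → ℂ} (hf : Hol f) (h : ∀ τ, E4 τ * f τ = 0) (τ : ℍ) : f τ = 0 := by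
  obtain ⟨τ₀, h0⟩ := Rank_exists_ne qs_E4 (by simp [e4c])
  exact Rank_dom hf E4_hol h h0 τ

theorem Rank_E6 {f : ℍ → ℂ} (hf : Hol f) (h : ∀ τ, E6 τ * f τ = 0) (τ : ℍ) : f τ = 0 := by
  obtain ⟨τ₀, h0⟩ := Rank_exists_ne qs_E6 (by simp [e6c])
  exact Rank_dom hf E6_hol h h0 τ

/-- Functions with vanishing Wronskian are proportional. -/
theorem Rank_wronsk {f g : ℍ → ℂ} (hf : Hol f) (hg : Hol g)
    (h : ∀ τ, g τ * Rank_d f τ - Rank_d g τ * f τ = 0) {τ₀ : ℍ} (h0 : g τ₀ ≠ 0) (τ : ℍ) :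
    f τ = f τ₀ / g τ₀ * g τ := by
  obtain ⟨r, hr, hb⟩ := Metric.eventually_nhds_iff_ball.1
    ((Rank_ne hg h0).and (Rank_open.mem_nhds τ₀.im_pos))
  have hd : ∀ z ∈ Metric.ball (τ₀ : ℂ) r,
      HasDerivAt (fun z => f (ofComplex z) / g (ofComplex z)) 0 z := fun z hz => by
    obtain ⟨h1, h2⟩ := hb z hz
    have h3 := (Rank_at hf ⟨z, h2⟩).hasDerivAt.div (Rank_at hg ⟨z, h2⟩).hasDerivAt h1
    have h4 := h ⟨z, h2⟩
    simp only [Rank_d] at h4
    refine h3.congr_deriv ?_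
    rw [div_eq_zero_iff]
    left
    simp only [Function.comp_apply, ofComplex_apply_of_im_pos h2]
    linear_combination h4
  have hc : ∀ z ∈ Metric.ball (τ₀ : ℂ) r,
      f (ofComplex z) / g (ofComplex z) = f τ₀ / g τ₀ := fun z hz => by
    have h1 := Metric.isOpen_ball.is_const_of_deriv_eq_zero (𝕜 := ℂ)
      (convex_ball (τ₀ : ℂ) r).isPreconnected
      (fun z hz => (hd z hz).differentiableAt.differentiableWithinAt)
      (fun z hz => (hd z hz).deriv) hz (Metric.mem_ball_self hr)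
    simpa using h1
  refine sub_eq_zero.1 (Rank_id (Rank_sub hf (Rank_mul (Rank_const _) hg)) (τ₀ := τ₀) ?_ τ)
  filter_upwards [Metric.ball_mem_nhds (τ₀ : ℂ) hr] with z hz
  rw [← hc z hz, div_mul_cancel₀ _ (hb z hz).1, sub_self]

/-- A constant relation vanishes on the units. -/
theorem Rank_unit (P : Par) {a : P.D → ℂ} (he : ∀ k, a (-k) = a k)
    (h : ∀ c, P.IsF 0 c → ∀ τ, ∑ k, P.fn c k τ * a k = 0) {k : P.D} (hk : P.rd k ≠ 0) :
    a k = 0 := by
  obtain ⟨α, b, c, hα, hc, h1, -⟩ := P.exists_pos_forms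
  have hol : Hol fun τ => ∑ k, a k * P.fn α k τ :=
    Rank_sum fun k => Rank_mul (Rank_const _) (hα.toIsF.hol k)
  have h2 : ∀ τ, ∑ k, a k * P.fn α k τ = 0 := by
    refine Rank_E4 hol (Rank_E4 (Rank_mul E4_hol hol) fun τ => ?_)
    have h3 := h _ (hc 1 le_rfl).1 τ
    simp only [h1] at h3
    have h4 : E4 τ * (E4 τ * ∑ k, a k * P.fn α k τ) =
        Dl τ * ∑ k, E4 τ ^ 2 / Dl τ * P.fn α k τ * a k := by
      simp only [Finset.mul_sum]
      refine Finset.sum_congr rfl fun k _ => ?_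
      have h5 := Dl_ne_zero τ
      field_simp
    rw [h4, h3, mul_zero]
  have h3 := QS.finset_sum Finset.univ fun k _ => (hα.qs k).const_mul (a k)
  have h4 : QS (P.p ^ 2) (fun _ => 0) fun τ => ∑ k, a k * P.fn α k τ :=
    ⟨⟨0, fun _ _ => rfl⟩, fun τ => by simp [h2]⟩
  have h5 := h3.unique (pow_pos P.prime.pos 2) h4
  obtain ⟨n, -, -, hn⟩ := hα.pos k ((P.Q k).val : ℤ) (by simp)
  set ν : ℤ := n * P.p ^ 3 - ((P.Q k).val : ℤ)
  have h6 : ∑ k', a k' * (α k' ν : ℂ) = 0 := congrFun h5 ν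
  have h7 : ∀ k', a k' * (α k' ν : ℂ) = a k * (α k' ν : ℂ) := fun k' => by
    by_cases h0 : α k' ν = 0
    · rw [h0, Int.cast_zero, mul_zero, mul_zero]
    · have e1 : P.Q k' = P.Q k := neg_injective ((hα.supp k' ν h0).symm.trans (hα.supp k ν hn.ne'))
      have e2 : k' ^ 2 = k ^ 2 := ((P.Q_eq_iff k' _).1 e1).trans ((P.Q_eq_iff k _).1 rfl).symm
      rcases P.eq_or_neg_of_sq hk e2 with rfl | rfl
      · rfl
      · rw [he]
  rw [Finset.sum_congr rfl fun k' _ => h7 k', ← Finset.mul_sum, ← Int.cast_sum] at h6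
  refine (mul_eq_zero.1 h6).resolve_right (Int.cast_ne_zero.2 (ne_of_gt ?_))
  exact Finset.sum_pos' (fun k' _ => hα.nonneg k' ν) ⟨k, Finset.mem_univ k, hn⟩

/-- There are no constant relations. -/
theorem Rank_cst (P : Par) {a : P.D → ℂ} (he : ∀ k, a (-k) = a k)
    (h : ∀ c, P.IsF 0 c → ∀ τ, ∑ k, P.fn c k τ * a k = 0) (k : P.D) : a k = 0 := by
  have h1 : ∀ k, P.rd k ≠ 0 → a k = 0 := fun k hk => Rank_unit P he h hk
  have h2 : ∀ k, P.rd k ≠ 0 → P.M a k = 0 := fun k hk =>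
    Rank_unit P (P.M_even he) (fun c hc τ => by
      have h3 := h c hc (ModularGroup.S • τ)
      simp only [hc.inv, zpow_zero, one_mul] at h3
      rwa [P.sum_M_mul] at h3) hk
  have h3 := P.const_of_supp h1 h2
  have h4 := h _ P.isF_oneI.1 UpperHalfPlane.I
  have h5 := P.sum_fibre a 0
  simp only [P.isF_oneI.2, ite_mul, one_mul, zero_mul] at h4
  simp only [map_zero, zero_add, h3, h4, Finset.sum_const, Finset.card_univ, ZMod.card,
    nsmul_eq_mul] at h5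
  have h6 : a 0 = 0 := (mul_eq_zero.1 h5.symm).resolve_left P.p_ne
  by_cases hk : P.rd k = 0
  · obtain ⟨z, rfl⟩ := P.exists_up hk
    rw [h3, h6]
  · exact h1 k hk

/-- The derivative of a relation is a relation. -/
theorem Rank_deriv (P : Par) {χ : P.D → ℍ → ℂ} (hh : ∀ k, Hol (χ k))
    (h : ∀ c, P.IsF 0 c → ∀ τ, P.pr c χ τ = 0) {c : P.D → ℤ → ℤ} (hc : P.IsF 0 c) (τ : ℍ) :
    P.pr c (fun k => Rank_d (χ k)) τ = 0 := by
  have hol : Hol fun τ => ∑ k, Rank_d (P.fn c k) τ * χ k τ :=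
    Rank_sum fun k => Rank_mul (Rank_d_hol (hc.hol k)) (hh k)
  have h1 : ∀ τ, ∑ k, Rank_d (P.fn c k) τ * χ k τ = 0 := by
    obtain ⟨c', hc', e⟩ := hc.deriv
    refine Rank_E6 hol (Rank_E4 (Rank_mul E6_hol hol) fun τ => ?_)
    have h2 := h c' hc' τ
    have h3 : E4 τ * (E6 τ * ∑ k, Rank_d (P.fn c k) τ * χ k τ) =
        2 * Real.pi * Complex.I * Dl τ / (P.p : ℂ) ^ 2 * P.pr c' χ τ := by
      simp only [Par.pr, Finset.mul_sum, e, Derivative.normalizedDerivOfComplex, Rank_d]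
      refine Finset.sum_congr rfl fun k _ => ?_
      have h4 := Dl_ne_zero τ
      have h5 := P.p_ne
      have h6 : (Real.pi : ℂ) ≠ 0 := Complex.ofReal_ne_zero.2 Real.pi_ne_zero
      field_simp
    rw [h3, h2, mul_zero]
  have h2 : HasDerivAt (fun z => ∑ k, P.fn c k (ofComplex z) * χ k (ofComplex z))
      (∑ k, (Rank_d (P.fn c k) τ * χ k (ofComplex τ) +
        P.fn c k (ofComplex τ) * Rank_d (χ k) τ)) τ :=
    HasDerivAt.fun_sum fun k _ =>
      (Rank_at (hc.hol k) τ).hasDerivAt.mul (Rank_at (hh k) τ).hasDerivAt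
  have h3 : (fun z => ∑ k, P.fn c k (ofComplex z) * χ k (ofComplex z)) = fun _ => 0 :=
    funext fun z => h c hc _
  rw [h3] at h2
  have h4 := h2.unique (hasDerivAt_const _ _)
  rwa [ofComplex_apply, Finset.sum_add_distrib, h1, zero_add] at h4

theorem Par.full_rank (P : Par) {χ : P.D → ℍ → ℂ} (hh : ∀ k, Hol (χ k))
    (he : ∀ k τ, χ (-k) τ = χ k τ) (h : ∀ c, P.IsF 0 c → ∀ τ, P.pr c χ τ = 0) (k : P.D) (τ : ℍ) :
    χ k τ = 0 := by
  induction hn : (Finset.univ.filter fun k => χ k ≠ 0).card using Nat.strong_induction_on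
    generalizing χ k τ with
  | _ n ih =>
  by_contra h0
  have he' : ∀ k, χ (-k) = χ k := fun k => funext (he k)
  have hW : ∀ k' s, χ k s * Rank_d (χ k') s - Rank_d (χ k) s * χ k' s = 0 := by
    refine fun k' s => ih _ ?_
      (χ := fun k' s => χ k s * Rank_d (χ k') s - Rank_d (χ k) s * χ k' s)
      (fun k' => Rank_sub (Rank_mul (hh k) (Rank_d_hol (hh k')))
        (Rank_mul (Rank_d_hol (hh k)) (hh k'))) (fun k' s => by rw [he']) (fun c hc s => ?_) k' s rfl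
    · rw [← hn]
      refine Finset.card_lt_card ⟨fun k' hk' => ?_, fun hs => ?_⟩
      · rw [Finset.mem_filter] at hk' ⊢
        refine ⟨hk'.1, fun e => hk'.2 (funext fun s => ?_)⟩
        have e1 : Rank_d (0 : ℍ → ℂ) s = 0 := deriv_const _ _
        rw [e, e1]
        simp
      · have h1 := hs (Finset.mem_filter.2 ⟨Finset.mem_univ k, fun e => h0 (congrFun e τ)⟩)
        exact (Finset.mem_filter.1 h1).2 (funext fun s => by simp [mul_comm])
    · have h1 := Rank_deriv P hh h hc s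
      have h2 := h c hc s
      have h3 : P.pr c (fun k' s => χ k s * Rank_d (χ k') s - Rank_d (χ k) s * χ k' s) s =
          χ k s * P.pr c (fun k => Rank_d (χ k)) s - Rank_d (χ k) s * P.pr c χ s := by
        simp only [Par.pr, Finset.mul_sum, ← Finset.sum_sub_distrib]
        exact Finset.sum_congr rfl fun k' _ => by ring
      rw [h3, h1, h2, mul_zero, mul_zero, sub_zero]
  have hp : ∀ k' s, χ k' s = χ k' τ / χ k τ * χ k s := fun k' =>
    Rank_wronsk (hh k') (hh k) (hW k') h0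
  have h1 := Rank_cst P (a := fun k' => χ k' τ / χ k τ) (fun k' => by rw [he]) (fun c hc =>
    Rank_dom (Rank_sum fun k' => Rank_mul (hc.hol k') (Rank_const _)) (hh k) (fun s => by
      rw [← h c hc s, Par.pr, Finset.mul_sum]
      exact Finset.sum_congr rfl fun k' _ => by rw [hp k' s]; ring) h0) k
  exact one_ne_zero ((div_self h0).symm.trans h1)

end

end Pool.Agent.P.MP_a60a76_nt.Sz
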