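import Pool.Agent.P.MP_a60a76_nt.Sz.Ell
import Pool.Agent.P.MP_a60a76_nt.Sz.FamA
import Pool.Agent.P.MP_a60a76_nt.Sz.NClo
import Pool.Agent.P.MP_a60a76_nt.Sz.Rank

namespace Pool.Agent.P.MP_a60a76_nt.Sz

open UpperHalfPlane hiding J
open MeasureTheory SP
open scoped MatrixGroups UpperHalfPlane Matrix Modular Topology Classical ArithmeticFunction.sigma

noncomputable section

/-! The identities of Ramanujan. -/

theorem DJ_zero {c : ℤ → ℂ} {f : ℍ → ℂ} (h : QS 1 c f) (hw : Wt 2 f) (h0 : ∀ ν < 0, c ν = 0)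
    (τ : ℍ) : f τ = 0 := by
  have h5 : ∀ m : ℕ, ∀ ν < (m : ℤ), c ν = 0 := by
    intro m
    induction m with
    | zero => exact h0
    | succ m ih =>
      intro ν hν
      by_cases h6 : ν < m
      · exact ih ν h6
      · obtain rfl : ν = m := by omega
        obtain ⟨e, h7, h8, h9⟩ := qz_J_pow m
        have h12 := Lev1_zero (h7.mul h (L := -m) (L' := m) (fun ν h => by simp [h8 ν h]) ih)
          (Lev1_wt_congr (Lev1_wt_mul (Lev1_wt_J m) hw) rfl)
        simpa [h9] using h12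
  have h7 := h.sum τ
  simp only [fun ν : ℤ => h5 (ν.toNat + 1) ν (by omega), zero_mul] at h7
  exact h7.unique hasSum_zero

theorem DJ_at {f : ℍ → ℂ} (hf : Hol f) (τ : ℍ) : HasDerivAt (fun z => f (ofComplex z))
    (2 * Real.pi * Complex.I * Derivative.normalizedDerivOfComplex f τ) τ := by
  rw [Derivative.normalizedDerivOfComplex, mul_inv_cancel_left₀ Complex.two_pi_I_ne_zero]
  exact (Rank_at hf τ).hasDerivAt

theorem DJ_hol {f : ℍ → ℂ} (hf : Hol f) : Hol (Derivative.normalizedDerivOfComplex f) :=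
  Rank_mul (Rank_const _) (Rank_d_hol hf)

theorem DJ_S (τ : ℍ) : Derivative.normalizedDerivOfComplex J (ModularGroup.S • τ) =
    (τ : ℂ) ^ 2 * Derivative.normalizedDerivOfComplex J τ := by
  have h0 := τ.ne_zero
  have h1 : HasDerivAt (fun z : ℂ => -z⁻¹) (((τ : ℂ) ^ 2)⁻¹) τ := by
    simpa using (hasDerivAt_inv h0).fun_neg
  have h2 := DJ_at J_hol (ModularGroup.S • τ)
  rw [coe_S_smul] at h2
  have h3 := HasDerivAt.comp (h := fun z : ℂ => -z⁻¹) (τ : ℂ) h2 h1
  have h5 : ((fun z => J (ofComplex z)) ∘ fun z : ℂ => -z⁻¹) =ᶠ[𝓝 (τ : ℂ)]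
      fun z => J (ofComplex z) := by
    filter_upwards [Rank_open.mem_nhds τ.im_pos] with z hz
    have e1 : ofComplex z = ⟨z, hz⟩ := ofComplex_apply_of_im_pos hz
    have e2 : ofComplex (-z⁻¹) = ModularGroup.S • (⟨z, hz⟩ : ℍ) := by
      rw [← ofComplex_apply (ModularGroup.S • (⟨z, hz⟩ : ℍ)), coe_S_smul]
    simp only [Function.comp_apply, e1, e2, SP.J_smul]
  have h6 := ((DJ_at J_hol τ).congr_of_eventuallyEq h5).unique h3
  rw [mul_assoc _ _ (_ : ℂ)⁻¹, mul_right_inj' Complex.two_pi_I_ne_zero] at h6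
  rw [h6]
  field_simp

theorem DJ_main (τ : ℍ) :
    Derivative.normalizedDerivOfComplex J τ = -(E4 τ ^ 2 * E6 τ / Dl τ) := by
  obtain ⟨a, a1, a2, a3⟩ := qz_J_pow 1
  obtain ⟨b, b1, b2, b3⟩ := (Lev1_qz_G 0).mul qz_E6
  have hw := Lev1_wt_congr (k' := 2) (Lev1_wt_mul (Lev1_wt_G 0) Lev1_wt_E6) rfl
  simp only [pow_one] at a1
  have hq := a1.deriv one_pos
  have := DJ_zero (hq.add b1) ⟨fun τ => by
      rw [hw.per, show Derivative.normalizedDerivOfComplex J (ModularGroup.T • τ) = _ by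
        simpa using hq.periodic one_pos τ],
    fun τ => by rw [hw.inv, DJ_S, zpow_ofNat, mul_add]⟩ (fun ν hν => by
      by_cases h : ν = -1
      · subst h
        simp only [Nat.cast_one, Nat.cast_zero, zero_add, add_zero] at a3 b3
        simp [a3, b3]
      · simp [a2 ν (by omega), b2 ν (by omega)]) τ
  simp only [pow_zero, one_mul] at this
  linear_combination this

open Derivative in
theorem DJ_E4 (τ : ℍ) : 3 * Dl τ * normalizedDerivOfComplex E4 τ -
    E4 τ * normalizedDerivOfComplex Dl τ = -(E6 τ * Dl τ) := by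
  have key : ∀ τ : ℍ, E4 τ * (E4 τ * (3 * Dl τ * normalizedDerivOfComplex E4 τ -
      E4 τ * normalizedDerivOfComplex Dl τ - -1 * (E6 τ * Dl τ))) = 0 := fun τ => by
    have h0 := Dl_ne_zero τ
    have h1 := (DJ_at J_hol τ).mul (DJ_at Dl_hol τ)
    have h2 := (DJ_at E4_hol τ).pow 3
    have e : ((fun z => J (ofComplex z)) * fun z => Dl (ofComplex z)) =
        (fun z => E4 (ofComplex z)) ^ 3 := funext fun z => by
      simp only [Pi.mul_apply, Pi.pow_apply, J_eq_div, div_mul_cancel₀ _ (Dl_ne_zero _)]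
    rw [e] at h1
    have h3 := h1.unique h2
    simp only [ofComplex_apply, DJ_main, J_eq_div] at h3
    refine mul_left_cancel₀ Complex.two_pi_I_ne_zero ?_
    field_simp at h3
    linear_combination (exp := 1) (-(2 * Real.pi * Complex.I)) * h3
  have hh : Hol fun τ : ℍ => 3 * Dl τ * normalizedDerivOfComplex E4 τ -
      E4 τ * normalizedDerivOfComplex Dl τ - -1 * (E6 τ * Dl τ) :=
    Rank_sub (Rank_sub (Rank_mul (Rank_mul (Rank_const _) Dl_hol) (DJ_hol E4_hol))
      (Rank_mul E4_hol (DJ_hol Dl_hol))) (Rank_mul (Rank_const _) (Rank_mul E6_hol Dl_hol))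
  linear_combination Rank_E4 hh (Rank_E4 (Rank_mul E4_hol hh) key) τ

open Derivative in
theorem DJ_E6 (τ : ℍ) : 2 * Dl τ * normalizedDerivOfComplex E6 τ -
    E6 τ * normalizedDerivOfComplex Dl τ = -(E4 τ ^ 2 * Dl τ) := by
  have key : ∀ τ : ℍ, E6 τ * (2 * Dl τ * normalizedDerivOfComplex E6 τ -
      E6 τ * normalizedDerivOfComplex Dl τ - -1 * (E4 τ * E4 τ * Dl τ)) = 0 := fun τ => by
    have h0 := Dl_ne_zero τ
    have h1 := ((DJ_at J_hol τ).sub_const 1728).mul (DJ_at Dl_hol τ)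
    have h2 := (DJ_at E6_hol τ).pow 2
    have e : ((fun z => J (ofComplex z) - 1728) * fun z => Dl (ofComplex z)) =
        (fun z => E6 (ofComplex z)) ^ 2 := funext fun z => by
      simp only [Pi.mul_apply, Pi.pow_apply, J_sub, div_mul_cancel₀ _ (Dl_ne_zero _)]
    rw [e] at h1
    have h3 := h1.unique h2
    simp only [ofComplex_apply, DJ_main, J_sub] at h3
    refine mul_left_cancel₀ Complex.two_pi_I_ne_zero ?_
    field_simp at h3
    linear_combination (exp := 1) (-(2 * Real.pi * Complex.I)) * h3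
  have hh : Hol fun τ : ℍ => 2 * Dl τ * normalizedDerivOfComplex E6 τ -
      E6 τ * normalizedDerivOfComplex Dl τ - -1 * (E4 τ * E4 τ * Dl τ) :=
    Rank_sub (Rank_sub (Rank_mul (Rank_mul (Rank_const _) Dl_hol) (DJ_hol E6_hol))
      (Rank_mul E6_hol (DJ_hol Dl_hol)))
      (Rank_mul (Rank_const _) (Rank_mul (Rank_mul E4_hol E4_hol) Dl_hol))
  linear_combination Rank_E6 hh key τ

theorem DJ_J (τ : ℍ) :
    Derivative.normalizedDerivOfComplex J τ = -(E4 τ ^ 2 * E6 τ / Dl τ) := by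
  exact DJ_main τ

namespace Par

variable (P : Par)

theorem DJ_qs {P : Par} {a : PowerSeries ℂ} {F : ℍ → ℂ} (h : P.Cv a F) :
    QS P.p (fun ν => if 0 ≤ ν then PowerSeries.coeff ν.toNat a else 0) F :=
  (QS.of_nat (N := P.p) 0 h).congr (fun ν => by rw [sub_zero]) fun τ => by simp [ee_zero]

theorem Cv.hol {P : Par} {a : PowerSeries ℂ} {F : ℍ → ℂ} (h : P.Cv a F) : Hol F := by
  exact (DJ_qs h).hol P.prime.pos

theorem Cv.thS {P : Par} {a : PowerSeries ℂ} {F : ℍ → ℂ} (h : P.Cv a F) :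
    P.Cv (P.thS a) (Derivative.normalizedDerivOfComplex F) := by
  intro τ
  have := ((DJ_qs h).deriv P.prime.pos).to_nat (L := 0)
    (fun ν hν => by rw [if_neg (not_le.2 hν), mul_zero]) τ
  simpa [Par.thS, ee_zero, sv] using this

theorem cv_S4 : P.Cv P.S4 E4 := by
  exact P.cv_es hasSum_E4

theorem cv_S6 : P.Cv P.S6 E6 := by
  exact P.cv_es hasSum_E6

theorem cv_SD : P.Cv P.SD Dl := by
  exact P.cv_es hasSum_Dl

theorem thS_add (a b : PowerSeries ℂ) : P.thS (a + b) = P.thS a + P.thS b := by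
  ext N
  simp [thS, mul_add]

theorem thS_mul (a b : PowerSeries ℂ) : P.thS (a * b) = P.thS a * b + a * P.thS b := by
  ext N
  simp only [thS, PowerSeries.coeff_mk, map_add, PowerSeries.coeff_mul, Finset.mul_sum,
    ← Finset.sum_add_distrib]
  refine Finset.sum_congr rfl fun x hx => ?_
  rw [← Finset.HasAntidiagonal.mem_antidiagonal.1 hx]
  push_cast
  ring

theorem thS_C_mul (z : ℂ) (a : PowerSeries ℂ) :
    P.thS (PowerSeries.C z * a) = PowerSeries.C z * P.thS a := by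
  ext N
  simp only [thS, PowerSeries.coeff_mk, PowerSeries.coeff_C_mul]
  ring

theorem ser_E4 : 3 * P.SD * P.thS P.S4 - P.S4 * P.thS P.SD = -(P.S6 * P.SD) := by
  have h1 := (((P.cv_C 3).mul P.cv_SD).mul P.cv_S4.thS).sub (P.cv_S4.mul P.cv_SD.thS)
  have h2 := (P.cv_C 0).sub (P.cv_S6.mul P.cv_SD)
  simp only [DJ_E4] at h1
  simp only [zero_sub, map_zero] at h2
  exact h1.unique h2

theorem ser_E6 : 2 * P.SD * P.thS P.S6 - P.S6 * P.thS P.SD = -(P.S4 ^ 2 * P.SD) := by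
  have h1 := (((P.cv_C 2).mul P.cv_SD).mul P.cv_S6.thS).sub (P.cv_S6.mul P.cv_SD.thS)
  have h2 := (P.cv_C 0).sub ((P.cv_S4.pow 2).mul P.cv_SD)
  simp only [DJ_E6] at h1
  simp only [zero_sub, map_zero] at h2
  exact h1.unique h2

theorem ser_disc : P.S4 ^ 3 - P.S6 ^ 2 = 1728 * P.SD := by
  have h1 := (P.cv_S4.pow 3).sub (P.cv_S6.pow 2)
  simp only [E4_cube_sub] at h1
  exact h1.unique ((P.cv_C 1728).mul P.cv_SD)

end Par

end

end Pool.Agent.P.MP_a60a76_nt.Sz
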