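import Pool.Agent.P.MP_a60a76_nt.SP.Twist
import Pool.Agent.P.MP_a60a76_nt.SP.Poly
import Pool.Agent.P.MP_a60a76_nt.SP.HvMod
import Pool.Agent.P.MP_a60a76_nt.SP.Fix
import Pool.Agent.P.MP_a60a76_nt.SP.JInj
import Pool.Agent.P.MP_a60a76_nt.SP.Orb

/-! Definitions for the radical bound for congruent elliptic curves. -/

namespace Pool.Agent.P.MP_a60a76_nt.Sz

open UpperHalfPlane MeasureTheory SP
open scoped MatrixGroups UpperHalfPlane Matrix Modular Topology Classical ArithmeticFunction.sigma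

noncomputable section

/-! ### Generalities -/

/-- Integral two by two matrices. -/
abbrev MZ : Type := Matrix (Fin 2) (Fin 2) ℤ

/-- `e(x) = exp (2 π i x)`. -/
def ee (x : ℂ) : ℂ := Complex.exp (2 * Real.pi * Complex.I * x)

/-- The Eisenstein series of weight four. -/
abbrev E4 : ℍ → ℂ := ⇑ModularForm.E₄

/-- The Eisenstein series of weight six. -/
abbrev E6 : ℍ → ℂ := ⇑ModularForm.E₆

/-- The discriminant. -/
abbrev Dl : ℍ → ℂ := ModularForm.discriminant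

/-- `f` is the sum of the Laurent series `c` in `e(τ / N)` on the whole upper half plane. -/
structure QS (N : ℕ) (c : ℤ → ℂ) (f : ℍ → ℂ) : Prop where
  low : ∃ L : ℤ, ∀ ν < L, c ν = 0
  sum : ∀ τ : ℍ, HasSum (fun ν : ℤ => c ν * ee (ν * τ / N)) (f τ)

/-- Integral over a horizontal segment of length one. -/
def CT (y : ℝ) (f : ℍ → ℂ) : ℂ := ∫ x in (0 : ℝ)..1, f (ofComplex (x + y * Complex.I))

/-- Weight `k` for the two generators of the modular group. -/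
structure Wt (k : ℤ) (f : ℍ → ℂ) : Prop where
  per : ∀ τ, f (ModularGroup.T • τ) = f τ
  inv : ∀ τ, f (ModularGroup.S • τ) = (τ : ℂ) ^ k * f τ

/-- Action of an integral matrix of positive determinant. -/
def mob (Y : MZ) (τ : ℍ) : ℍ := ofComplex (((Y 0 0 : ℂ) * τ + Y 0 1) / ((Y 1 0 : ℂ) * τ + Y 1 1))

/-- The automorphy factor. -/
def dn (Y : MZ) (τ : ℍ) : ℂ := (Y 1 0 : ℂ) * τ + Y 1 1

/-- Coefficients of `E₄`. -/
def e4c (n : ℕ) : ℤ := if n = 0 then 1 else 240 * (σ 3 n : ℤ)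

/-- Coefficients of `E₆`. -/
def e6c (n : ℕ) : ℤ := if n = 0 then 1 else -504 * (σ 5 n : ℤ)

/-- Coefficients of the discriminant. -/
def dlc (n : ℕ) : ℤ :=
  PowerSeries.coeff n ((PowerSeries.mk e4c) ^ 3 - (PowerSeries.mk e6c) ^ 2) / 1728

/-- Extension by zero to negative indices. -/
def zx (a : ℕ → ℤ) (ν : ℤ) : ℂ := if 0 ≤ ν then (a ν.toNat : ℂ) else 0

/-- Matrices in Hermite normal form of determinant `n`. -/
def hnf (n : ℕ) : Finset MZ :=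
  (n.divisorsAntidiagonal.sigma fun x => Finset.range x.2).image
    fun x => !![(x.1.1 : ℤ), (x.2 : ℤ); 0, (x.1.2 : ℤ)]

/-- Continuously differentiable in the real sense. -/
def C1 (f : ℍ → ℂ) : Prop := ContDiffOn ℝ 1 (f ∘ ofComplex) {z : ℂ | 0 < z.im}

/-- The Cauchy-Riemann operator. -/
def db (f : ℍ → ℂ) (τ : ℍ) : ℂ :=
  (fderiv ℝ (f ∘ ofComplex) (τ : ℂ) 1 + Complex.I * fderiv ℝ (f ∘ ofComplex) (τ : ℂ) Complex.I) / 2

/-- Coprime pairs. -/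
def CP : Type := {x : Fin 2 → ℤ // IsCoprime (x 0) (x 1)}

/-- A unimodular matrix with given bottom row. -/
def gam (x : CP) : SL(2, ℤ) := (x.2.exists_SL2_row 1).choose

/-- `|(c τ₁ + d) τ₂ - (a τ₁ + b)|² / (4 y₁ y₂)`. -/
def Rm (X : MZ) (t₁ t₂ : ℍ) : ℝ :=
  Complex.normSq (((X 1 0 : ℂ) * t₁ + X 1 1) * t₂ - ((X 0 0 : ℂ) * t₁ + X 0 1)) /
    (4 * t₁.im * t₂.im)

/-- The majorant. -/
def Mj (X : MZ) (t₁ t₂ : ℍ) : ℝ := 2 * Rm X t₁ t₂ + X.det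

/-- The theta series of the majorant. -/
def Th (t₁ t₂ : ℍ) (r : ℝ) : ℝ := ∑' X : MZ, Real.exp (-(2 * Real.pi * r * Mj X t₁ t₂))

/-- The point lies on no Hecke curve. -/
def Proper (t₁ t₂ : ℍ) : Prop := ∀ X : MZ, X ≠ 0 → Rm X t₁ t₂ ≠ 0

/-- Point pair invariant. -/
def rho (τ τ₀ : ℍ) : ℝ := Complex.normSq ((τ : ℂ) - τ₀) / (4 * τ.im * τ₀.im)

/-- The exponential integral. -/
def beta (r : ℝ) : ℝ := ∫ t in Set.Ioi (1 : ℝ), Real.exp (-(r * t)) / t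

/-- The two primitives of `-exp (-a y) / y` which are used. -/
def Bf (pos : Prop) (a y : ℝ) : ℝ :=
  if pos then -∫ r in (1 : ℝ)..y, Real.exp (-(a * r)) / r
  else ∫ r in Set.Ioi y, Real.exp (-(a * r)) / r

/-- A holomorphic partition of unity. -/
def w0 (x : CP) (τ : ℍ) : ℂ :=
  ((dn (gam x) τ ^ 8)⁻¹ * E4 τ - (dn (gam x) τ ^ 6)⁻¹ * E6 τ) / (3456 * Dl τ)

/-- A smooth partition of unity. -/
structure IsChi (χ : ℍ → ℝ) : Prop where
  c1 : C1 fun τ => (χ τ : ℂ)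
  nonneg : ∀ τ, 0 ≤ χ τ
  le_one : ∀ τ, χ τ ≤ 1
  per : ∀ τ, χ (ModularGroup.T • τ) = χ τ
  low : ∀ τ, τ.im ≤ 1 / 2 → χ τ = 0
  high : ∀ τ, 2 ≤ τ.im → χ τ = 1
  sum : ∀ τ, HasSum (fun x : CP => χ (gam x • τ)) 2

/-- The vertical strip. -/
def strip : Set ℍ := {τ | 0 ≤ τ.re ∧ τ.re < 1}

/-- The partition of unity cut to the strip. -/
def ps (χ : ℍ → ℝ) (τ : ℍ) : ℝ := if τ ∈ strip then χ τ else 0

/-- Truncated integral over the modular curve. -/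
def IT (χ : ℍ → ℝ) (T : ℝ) (f : ℍ → ℂ) : ℂ :=
  ∫ τ in {τ : ℍ | τ.im ≤ T}, (ps χ τ : ℂ) * f τ

/-- Coefficients of the exponential of the series `h 1 t + h 2 t ^ 2 + ⋯`. -/
def EE (h : ℕ → ℂ) : ℕ → ℂ
  | 0 => 1
  | N + 1 => (∑ k : Fin (N + 1), ((k : ℂ) + 1) * h (k + 1) * EE h (N - k)) / (N + 1)
  decreasing_by omega

/-! ### Power series in two variables -/

/-- Power series in two variables. -/
abbrev PS : Type := MvPowerSeries (Fin 2) ℂ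

/-- The exponent m, n. -/
def ixx (m n : ℕ) : Fin 2 →₀ ℕ := Finsupp.single 0 m + Finsupp.single 1 n

/-- The monomial `z s ^ m t ^ n`. -/
def mono (z : ℂ) (m n : ℕ) : PS := MvPowerSeries.monomial (ixx m n) z

/-- The power of `1 - x` with integral exponent `e`. -/
def ipow (x : PS) (e : ℤ) : PS :=
  (1 - x) ^ e.toNat * MvPowerSeries.invOfUnit (1 - x) 1 ^ (-e).toNat

/-- Absolute convergence at the point `s, t`. -/
def Ab {K : Type} [NormedField K] (φ : ℂ →+* K) (a : PS) (s t : K) : Prop :=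
  Summable fun d : Fin 2 →₀ ℕ => ‖φ (MvPowerSeries.coeff d a)‖ * (‖s‖ ^ d 0 * ‖t‖ ^ d 1)

/-- Value at the point `s, t`. -/
def ev {K : Type} [NormedField K] (φ : ℂ →+* K) (a : PS) (s t : K) : K :=
  ∑' d : Fin 2 →₀ ℕ, φ (MvPowerSeries.coeff d a) * (s ^ d 0 * t ^ d 1)

/-- All coefficients lie in `A`. -/
def InA (A : Subring ℂ) (a : PS) : Prop := ∀ d, MvPowerSeries.coeff d a ∈ A

/-- Exchange of the variables. -/
def swp (a : PS) : PS := MvPowerSeries.renameEquiv ℂ (Equiv.swap (0 : Fin 2) 1) a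

/-- A series in the first variable. -/
def in1 (a : ℕ → ℂ) : PS := fun d => if d 1 = 0 then a (d 0) else 0

/-- A series in the second variable. -/
def in2 (a : ℕ → ℂ) : PS := fun d => if d 0 = 0 then a (d 1) else 0

/-- Value of an integral series in one variable. -/
def evq {K : Type} [NormedField K] (a : ℕ → ℤ) (q : K) : K := ∑' n, (a n : K) * q ^ n

/-- The valuation ring attached to an embedding. -/
def Ai {K : Type} [NormedField K] [IsUltrametricDist K] (ι : ℂ →+* K) : Subring ℂ where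
  carrier := {x | ‖ι x‖ ≤ 1}
  mul_mem' := fun {a b} ha hb => by
    simp only [Set.mem_ofPred_eq, map_mul, norm_mul] at *
    exact mul_le_one₀ ha (norm_nonneg _) hb
  one_mem' := by simp
  add_mem' := fun {a b} ha hb => by
    simp only [Set.mem_ofPred_eq, map_add] at *
    exact (IsUltrametricDist.norm_add_le_max _ _).trans (max_le ha hb)
  zero_mem' := by simp
  neg_mem' := fun {a} ha => by simpa using ha

/-! ### The level -/

/-- A prime `p ≥ 5` and an integer `m` prime to `p`. -/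
structure Par where
  /-- the prime -/
  p : ℕ
  /-- the determinant -/
  m : ℤ
  prime : p.Prime
  five : 5 ≤ p
  cop : ¬ (p : ℤ) ∣ m

namespace Par

variable (P : Par)

instance instFact : Fact P.p.Prime := ⟨P.prime⟩

instance instNe : NeZero P.p := ⟨P.prime.ne_zero⟩

instance instNeSq : NeZero (P.p ^ 2) := ⟨pow_ne_zero 2 P.prime.ne_zero⟩

/-- The discriminant group. -/
abbrev D : Type := ZMod (P.p ^ 2)

/-- The prime field. -/
abbrev F : Type := ZMod P.p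

/-- Matrices modulo `p`. -/
abbrev MF : Type := Matrix (Fin 2) (Fin 2) P.F

/-- Invertible matrices modulo `p`. -/
abbrev GF : Type := GL (Fin 2) P.F

/-- `e(x / p ^ 2)`. -/
def psi (x : P.D) : ℂ := ZMod.stdAddChar x

/-- `e(x / p)`. -/
def zp (x : P.F) : ℂ := ZMod.stdAddChar x

/-- Reduction modulo `p`. -/
def rd : P.D →+* P.F := ZMod.castHom (dvd_pow_self P.p two_ne_zero) P.F

/-- Multiplication by `p`. -/
def up (z : P.F) : P.D := (P.p : P.D) * (z.val : P.D)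

/-- The quadratic form. -/
def Q (k : P.D) : P.D := k ^ 2 * (4 * (P.m : P.D))⁻¹

/-- The Fourier transform. -/
def M (x : P.D → ℂ) (k : P.D) : ℂ :=
  (P.p : ℂ)⁻¹ * ∑ k', P.psi (k * k' * (2 * (P.m : P.D))⁻¹) * x k'

/-- The conjugate Fourier transform. -/
def Mb (x : P.D → ℂ) (k : P.D) : ℂ :=
  (P.p : ℂ)⁻¹ * ∑ k', P.psi (-(k * k' * (2 * (P.m : P.D))⁻¹)) * x k'

/-- The intertwining functions. -/
def gg (k : P.D) (v : Fin 2 → P.D) : ℂ :=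
  if P.rd k = P.rd (2 * P.m * v 1) then P.psi ((k - P.m * v 1) * v 0) else 0

/-- Action of an integral matrix on column vectors. -/
def act (Y : MZ) (v : Fin 2 → P.D) : Fin 2 → P.D := Y.map (Int.cast : ℤ → P.D) *ᵥ v

/-- The second column. -/
def col (Y : MZ) : Fin 2 → P.D := fun i => (Y i 1 : P.D)

/-- `e(τ / p)`. -/
def sv (τ : ℍ) : ℂ := ee (τ / P.p)

/-- The diagonal matrix of determinant `m`. -/
def Dm : P.MF := !![(P.m : P.F), 0; 0, 1]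

/-! ### Input forms -/

/-- The function with given coefficients. -/
def fn (c : P.D → ℤ → ℤ) (k : P.D) (τ : ℍ) : ℂ :=
  ∑' ν : ℤ, (c k ν : ℂ) * ee (ν * τ / (P.p ^ 2 : ℕ))

/-- Coefficients of a vector valued form of weight `w`. -/
structure IsF (w : ℤ) (c : P.D → ℤ → ℤ) : Prop where
  qs : ∀ k, QS (P.p ^ 2) (fun ν => (c k ν : ℂ)) (P.fn c k)
  even : ∀ k ν, c (-k) ν = c k ν
  supp : ∀ k ν, c k ν ≠ 0 → (ν : P.D) = -P.Q k
  inv : ∀ k τ, P.fn c k (ModularGroup.S • τ) = (τ : ℂ) ^ w * P.M (fun k' => P.fn c k' τ) k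

/-- The number `c'`. -/
def cp (c : P.D → ℤ → ℤ) : ℤ := -c (P.up 1) 0

/-- Normalised constant terms. -/
structure IsF0 (c : P.D → ℤ → ℤ) : Prop extends P.IsF 0 c where
  zero : c 0 0 = 0
  const : ∀ z : P.F, z ≠ 0 → c (P.up z) 0 = -P.cp c

/-- Nonnegative principal part. -/
def Pos (c : P.D → ℤ → ℤ) : Prop := ∀ k ν, ν < 0 → 0 ≤ c k ν

/-- A bound for the order of the pole. -/
def lo (c : P.D → ℤ → ℤ) : ℕ := sInf {L : ℕ | ∀ k ν, ν < -(L : ℤ) → c k ν = 0}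

/-- The constant form. -/
def oneI (k : P.D) (ν : ℤ) : ℤ := if P.rd k = 0 ∧ ν = 0 then 1 else 0

/-- The form as a function on column vectors. -/
def FF (c : P.D → ℤ → ℤ) (v : Fin 2 → P.D) (τ : ℍ) : ℂ := ∑ k, P.fn c k τ * P.gg k v

/-- Pairing of a form with a vector valued function. -/
def pr (c : P.D → ℤ → ℤ) (r : P.D → ℍ → ℂ) (τ : ℍ) : ℂ := ∑ k, P.fn c k τ * r k τ

/-- Pairing of the principal part with a sequence. -/
def pp (c : P.D → ℤ → ℤ) (a : P.D → ℤ → ℝ) : ℝ :=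
  ∑ k, ∑ ν ∈ Finset.Icc (1 : ℤ) (P.lo c), (c k (-ν) : ℝ) * a k ν

/-- The properties of the Eisenstein vector. -/
structure IsEis (a : P.D → ℤ → ℤ) : Prop extends P.IsF 4 a where
  neg : ∀ k ν, ν < 0 → a k ν = 0
  nonneg : ∀ k ν, 0 ≤ a k ν
  bound : ∃ C : ℝ, ∀ k ν, 0 ≤ ν → (a k ν : ℝ) ≤ C * (1 + ν) ^ 4
  zero : 0 < a 0 0
  same : ∀ (n : ℤ) (z : P.F), z ≠ 0 → a (P.up z) (n * P.p ^ 3) = a (P.up 1) (n * P.p ^ 3)
  pos : ∀ (k : P.D) (μ : ℤ), (μ : P.D) = P.Q k → ∃ n : ℤ, 0 < n ∧ μ < n * P.p ^ 3 ∧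
    0 < a k (n * P.p ^ 3 - μ)

/-- The Eisenstein series. -/
def eis (k : P.D) (τ : ℍ) : ℂ :=
  ∑ u ∈ Finset.Ico (1 : ℤ) P.p, ∑' x : ℤ × ℤ,
    (starRingEnd ℂ) (P.gg k ![((u * x.1 : ℤ) : P.D), ((u * x.2 : ℤ) : P.D)]) *
      (((x.2 : ℂ) * τ - x.1) ^ 4)⁻¹

/-- Half of the divisor sum in the expansion of the Eisenstein series. -/
def eisd (k : P.D) (n : ℕ) : ℤ :=
  ∑ u ∈ Finset.Ico (1 : ℤ) P.p, ∑ x ∈ n.divisorsAntidiagonal,
    if P.rd k = P.rd (2 * P.m * (u * x.2)) ∧ (x.1 : P.D) = -(u * (k - P.m * (u * x.2)))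
    then (x.1 : ℤ) ^ 3 else 0

/-- Coefficients of the normalised Eisenstein series. -/
def eisc (k : P.D) (ν : ℤ) : ℤ :=
  if ν < 0 then 0
  else if ν = 0 then
    (if k = 0 then (P.p : ℤ) ^ 6 * (P.p - 1) else if P.rd k = 0 then P.p ^ 3 - P.p ^ 6 else 0)
  else 120 * (P.eisd k ν.toNat + P.eisd (-k) ν.toNat)

/-! ### The product -/

/-- The modular unit attached to a line. -/
def uu (v : Fin 2 → P.F) (τ : ℍ) : ℂ :=
  if v 0 = 0 then (P.p : ℂ) ^ 12 * Dl (mob !![(P.p : ℤ), 0; 0, 1] τ) / Dl τ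
  else Dl (mob !![1, (((v 1 / v 0).val : ℕ) : ℤ); 0, (P.p : ℤ)] τ) / Dl τ

/-- The term attached to a matrix. -/
def tm (c : P.D → ℤ → ℤ) (Y : MZ) (τ : ℍ) : ℂ :=
  if (P.p : ℤ) ∣ Y 0 0 ∧ (P.p : ℤ) ∣ Y 1 0 then P.FF c (P.col Y) τ else 0

/-- Hecke sums. -/
def HH (c : P.D → ℤ → ℤ) (N : ℕ) (τ : ℍ) : ℂ :=
  (N : ℂ)⁻¹ * ∑ Y ∈ hnf (P.p * N), P.tm c Y (mob Y τ)

/-- Exponents attached to the classes prime to `p`. -/
def exU (c : P.D → ℤ → ℤ) (X : P.MF) (a : ℤ) (b : P.F) (d : ℤ) : ℤ :=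
  if ¬ (P.p : ℤ) ∣ a * d ∧ X 1 0 = 0 ∧
      ∃ x : P.F, (a : P.F) = x * X 0 0 ∧ b = x * X 0 1 ∧ (d : P.F) = x * X 1 1
  then 12 * P.p * ∑ k, c k (-(a * d)) else 0

/-- Exponents attached to the isotropic classes. -/
def exI (c : P.D → ℤ → ℤ) (X : P.MF) (a : ℤ) (b : P.F) (d : ℤ) : ℤ :=
  24 * P.p * c (P.up ((a : P.F) * X 1 1 + (d : P.F) * X 0 0 - b * X 1 0)) (-(P.p ^ 2 * (a * d)))

/-- Exponents of the product. -/
def ex (c : P.D → ℤ → ℤ) (X : P.MF) (a : ℤ) (b : P.F) (d : ℤ) : ℤ :=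
  P.exU c X a b d + P.exI c X a b d

/-- Partial products. -/
def Uk (E : ℕ → ℕ → P.F → ℤ) (k : ℕ) : PS :=
  ∏ i ∈ (Finset.range k ×ˢ Finset.range k).erase (0, 0), ∏ b,
    ipow (mono (P.zp (-b)) i.1 i.2) (E i.1 i.2 b)

/-- The infinite product. -/
def Us (E : ℕ → ℕ → P.F → ℤ) : PS := fun d => MvPowerSeries.coeff d (P.Uk E (d 0 + d 1 + 1))

/-- The index set of the finite product. -/
def box (c : P.D → ℤ → ℤ) : Finset (ℕ × ℕ) := Finset.Icc 1 (P.lo c) ×ˢ Finset.Icc 1 (P.lo c)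

/-- The finite product. -/
def Pf (c : P.D → ℤ → ℤ) (X : P.MF) : PS :=
  ∏ i ∈ P.box c, ∏ b, (mono (P.zp b) i.1 0 - mono 1 0 i.2) ^ (P.ex c X i.1 b i.2).toNat

/-- The product. -/
def Ps (c : P.D → ℤ → ℤ) (X : P.MF) : PS :=
  P.Pf c X * P.Us fun a d b => P.ex c X (-(a : ℤ)) b d

/-- The constant in front of the product. -/
def CC (c : P.D → ℤ → ℤ) (X : P.MF) : ℂ :=
  if X 1 0 = 0 then (P.p : ℂ) ^ (12 * P.p * P.cp c : ℤ) else 1

/-- The exponent in front of the product. -/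
def xx (c : P.D → ℤ → ℤ) (X : P.MF) : ℤ :=
  (if X 1 0 = 0 then (P.p : ℤ) * (P.p - 1) else 1 - P.p) * (P.p * P.cp c) -
    ∑ i ∈ P.box c, ∑ b, (i.1 : ℤ) * P.ex c X i.1 b i.2

/-- The contribution of the isotropic classes to the order of the pole. -/
def mm (c : P.D → ℤ → ℤ) : ℤ :=
  24 * ∑ n ∈ Finset.Icc 1 (P.lo c), (σ 1 n : ℤ) * ∑ z, c (P.up z) (-(P.p ^ 2 * (n : ℤ)))

/-- The order of the pole. -/
def KK (c : P.D → ℤ → ℤ) : ℤ := (P.p - 1) * P.cp c + P.mm c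

/-- Coefficients of the expansion in the second variable. -/
def GN (c : P.D → ℤ → ℤ) (N : ℕ) (τ : ℍ) : ℂ :=
  P.uu ![0, 1] τ ^ (P.p * P.cp c : ℤ) * EE (fun k => -(24 * P.p * P.HH c k τ)) N

/-- The product as a function. -/
def gf (c : P.D → ℤ → ℤ) (X : P.MF) (t₁ t₂ : ℍ) : ℂ :=
  P.CC c X * (P.sv t₁ * P.sv t₂) ^ (-(P.p * P.KK c) : ℤ) *
    ev (RingHom.id ℂ) (P.Ps c X) (P.sv t₁) (P.sv t₂)

/-- Functions of level `p` with poles of order at most `L` at the cusps. -/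
structure Lv (L : ℕ) (f : ℍ → ℂ) : Prop where
  inv : ∀ g : SL(2, ℤ), red P.p g = 1 → ∀ τ, f (g • τ) = f τ
  qs : ∀ g : SL(2, ℤ), ∃ a, QS P.p a (fun τ => f (g • τ)) ∧ ∀ ν < -(L : ℤ), a ν = 0

/-! ### The archimedean place -/

/-- The lattice. -/
def InL (X : MZ) : Prop :=
  (P.p : ℤ) ∣ X 0 1 ∧ (P.p : ℤ) ∣ X 1 0 ∧ (P.p : ℤ) ∣ X 0 0 - P.m * X 1 1

/-- The class of a lattice vector. -/
def kap (X : MZ) : P.D := (X 0 0 : P.D) + P.m * X 1 1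

/-- Indicator of a class. -/
def ind (k : P.D) (X : MZ) : ℂ := if P.InL X ∧ P.kap X = k then 1 else 0

/-- The theta kernel multiplied by the imaginary part. -/
def th (t₁ t₂ : ℍ) (k : P.D) (τ : ℍ) : ℂ :=
  (τ.im : ℂ) * ∑' X : MZ, P.ind k X * (ee (τ * X.det / P.p ^ 2) *
    Real.exp (-(4 * Real.pi * τ.im * Rm X t₁ t₂ / P.p ^ 2)))

/-- The kernel after Poisson summation. -/
def kk (t₁ t₂ : ℍ) (Y : MZ) (τ : ℍ) : ℂ :=
  ee (t₂ * Y.det / P.p ^ 2) * Real.exp (-(4 * Real.pi * t₂.im * Rm Y t₁ τ / P.p ^ 2))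

/-- The Green function. -/
def ka (t₁ t₂ : ℍ) (k : P.D) (τ : ℍ) : ℂ :=
  ∑' X : MZ, P.ind k X * (ee (τ * X.det / P.p ^ 2) *
    Bf (0 < X.det ∨ X = 0) (4 * Real.pi * Rm X t₁ t₂ / P.p ^ 2) τ.im)

/-- A vector valued function as a function on column vectors. -/
def tl (r : P.D → ℍ → ℂ) (v : Fin 2 → P.D) (τ : ℍ) : ℂ :=
  ∑ k, r k τ * (starRingEnd ℂ) (P.gg k v)

/-- Modular average. -/
def eta (r : P.D → ℍ → ℂ) (k : P.D) (τ : ℍ) : ℂ :=
  ((P.p : ℂ) ^ 3)⁻¹ * ∑ v, P.gg k v *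
    ∑' x : CP, w0 x τ * (dn (gam x) τ ^ 2)⁻¹ * P.tl r (P.act (gam x) v) (gam x • τ)

/-- The holomorphic part of the Green function. -/
def rr (t₁ t₂ : ℍ) (k : P.D) (τ : ℍ) : ℂ := P.ka t₁ t₂ k τ - P.eta (P.ka t₁ t₂) k τ

/-- The coefficient attached to a lattice vector. -/
def cX (c : P.D → ℤ → ℤ) (X : MZ) : ℝ := if P.InL X ∧ X ≠ 0 then c (P.kap X) (-X.det) else 0

/-- The regularised theta lift. -/
def Phi (χ : ℍ → ℝ) (c : P.D → ℤ → ℤ) (T : ℝ) (t₁ t₂ : ℍ) : ℂ :=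
  IT χ T (P.pr c (P.th t₁ t₂)) +
    (∑' X : MZ, P.cX c X * beta (4 * Real.pi * T * Rm X t₁ t₂ / P.p ^ 2) : ℝ)

/-- One term after Poisson summation. -/
def trm (c : P.D → ℤ → ℤ) (t₁ t₂ : ℍ) (Y : MZ) (τ : ℍ) : ℂ :=
  (t₂.im / P.p : ℝ) * (P.tm c Y τ * P.kk t₁ t₂ Y τ)

/-- The contribution of the matrices of rank one. -/
def JJ (c : P.D → ℤ → ℤ) (t₁ : ℍ) (ε : ℝ) : ℝ :=
  P.p * t₁.im / Real.pi * ∑' r : ℤ × ℤ,
    if (P.p : ℤ) ∣ r.1 then
      P.cp c * (1 - if (P.p : ℤ) ∣ r.2 then (P.p : ℝ) else 0) *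
        (Real.exp (-(ε * Complex.normSq ((r.1 : ℂ) * t₁ + r.2))) /
          Complex.normSq ((r.1 : ℂ) * t₁ + r.2))
    else 0

/-! ### Arithmetic -/

/-- Reduction of a unimodular matrix. -/
def rg (g : SL(2, ℤ)) : P.GF :=
  Matrix.SpecialLinearGroup.toGL (Matrix.SpecialLinearGroup.map (Int.castRingHom P.F) g)

/-- The matrix `diag (1, d)`. -/
def dg (d : P.Fˣ) : P.GF :=
  Matrix.GeneralLinearGroup.mkOfDetNeZero !![1, 0; 0, (d : P.F)] (by simp)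

/-- Pairs of invertible matrices with the same determinant. -/
def GS : Subgroup (P.GF × P.GF) :=
  MonoidHom.eqLocus (Matrix.GeneralLinearGroup.det.comp (MonoidHom.fst _ _))
    (Matrix.GeneralLinearGroup.det.comp (MonoidHom.snd _ _))

/-- The group of the families. -/
abbrev GG : Type := P.GS

/-- Reduction of a pair of unimodular matrices. -/
def rG (g₁ g₂ : SL(2, ℤ)) : P.GG :=
  ⟨(P.rg g₁, P.rg g₂), by
    show Matrix.GeneralLinearGroup.det (P.rg g₁) = Matrix.GeneralLinearGroup.det (P.rg g₂)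
    simp [rg]⟩

/-- The diagonal embedding. -/
def diagG (g : P.GF) : P.GG := ⟨(g, g), rfl⟩

/-- Families of modular functions in one variable. -/
structure Fam1 (A : Subring ℂ) (n : ℕ) (f : P.GF → ℍ → ℂ) (a : P.GF → ℕ → ℂ) : Prop where
  mem : ∀ γ k, a γ k ∈ A
  val : ∀ γ τ, HasSum (fun k => a γ k * P.sv τ ^ k) (f γ τ * Dl τ ^ n)
  geo : ∀ γ (g : SL(2, ℤ)) τ, f (γ * P.rg g) τ = f γ (g • τ)
  gal : ∀ (s : ℂ ≃+* ℂ) (d : P.Fˣ), s (P.zp 1) = P.zp d → ∀ γ k, a (γ * P.dg d) k = s (a γ k)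

/-- Families of modular functions in two variables. -/
structure Fam (A : Subring ℂ) (n : ℕ) (f : P.GG → ℍ → ℍ → ℂ) (a : P.GG → PS) : Prop where
  mem : ∀ γ, InA A (a γ)
  ab : ∀ γ t₁ t₂, Ab (RingHom.id ℂ) (a γ) (P.sv t₁) (P.sv t₂)
  val : ∀ γ t₁ t₂, f γ t₁ t₂ * (Dl t₁ * Dl t₂) ^ n =
    ev (RingHom.id ℂ) (a γ) (P.sv t₁) (P.sv t₂)
  geo : ∀ γ (g₁ g₂ : SL(2, ℤ)) t₁ t₂, f (γ * P.rG g₁ g₂) t₁ t₂ = f γ (g₁ • t₁) (g₂ • t₂)
  gal : ∀ (s : ℂ ≃+* ℂ) (d : P.Fˣ), s (P.zp 1) = P.zp d → ∀ γ,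
    a (γ * P.diagG (P.dg d)) = MvPowerSeries.map (s : ℂ →+* ℂ) (a γ)

/-- The discriminant as a series in `e(τ / p)`. -/
def dls (k : ℕ) : ℂ := if P.p ∣ k then (dlc (k / P.p) : ℂ) else 0

/-- Values of the Weierstrass function at the points of order `p`. -/
def wp (v : Fin 2 → P.F) (τ : ℍ) : ℂ := (lat τ).weierstrassP (zv P.p v τ)

/-- The normalised values. -/
def wn (v : Fin 2 → P.F) (τ : ℍ) : ℂ := P.wp v τ / (2 * Real.pi * Complex.I) ^ 2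

/-- Fricke functions. -/
def fr (v : Fin 2 → P.F) (τ : ℍ) : ℂ := 12 * P.p ^ 2 * P.wn v τ * E4 τ * E6 τ / Dl τ

/-- Units given by differences. -/
def WW (v w : Fin 2 → P.F) (τ : ℍ) : ℂ := (P.wn v τ - P.wn w τ) ^ 6 / Dl τ

/-- The action of the group on matrices. -/
def tw (γ : P.GG) (X : P.MF) : P.MF := ((γ.1.2⁻¹ : P.GF) : P.MF) * X * (γ.1.1 : P.MF)

end Par

/-- Uniformisation data of an elliptic curve over the rationals. -/
structure Crv where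
  /-- the invariant -/
  j : ℚ
  /-- the point in the fundamental domain -/
  t : ℍ
  /-- the scaling factor -/
  u : ℂ
  fd : t ∈ 𝒟
  J_eq : J t = j
  u_ne : u ≠ 0
  g2 : ∃ q : ℚ, u ^ 4 * (lat t).g₂ = q
  g3 : ∃ q : ℚ, u ^ 6 * (lat t).g₃ = q

namespace Par

variable (P : Par)

/-- The automorphism `s` acts on the abscissas of the points of order `p` by the matrix `ρ`. -/
def Rho (A : Crv) (s : ℂ ≃+* ℂ) (ρ : P.GF) : Prop :=
  ∀ v, s (A.u ^ 2 * P.wp v A.t) = A.u ^ 2 * P.wp (v ᵥ* (ρ : P.MF)) A.t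

/-- The matrix `X` intertwines the Galois actions. -/
def Lnk (A B : Crv) (X : P.MF) : Prop :=
  ∀ s : ℂ ≃+* ℂ, ∃ ρ₁ ρ₂ : P.GF, P.Rho A s ρ₁ ∧ P.Rho B s ρ₂ ∧ (ρ₂ : P.MF) * X = X * ρ₁

/-- The prime `l` has type `v₁, v₂`. -/
structure IsTy (A B : Crv) (v₁ v₂ l : ℕ) : Prop where
  prime : l.Prime
  ne : l ≠ P.p
  val₁ : padicValNat l A.j.den = v₁
  val₂ : padicValNat l B.j.den = v₂
  pos₁ : 0 < v₁
  pos₂ : 0 < v₂
  ndvd : ¬ P.p ∣ v₁

/-- The lower bound for the coefficients of the generating series. -/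
def aa (S H : ℝ) (v K₀ : ℕ) (k : P.D) (ν : ℤ) : ℝ :=
  if (ν : P.D) = P.Q k then
    (∑ n ∈ Finset.Icc 1 K₀, if ν = (n : ℤ) ^ 2 * v then 2 / P.p * S * v * n else 0) -
      if P.rd k = 0 then (σ 1 (ν.toNat / P.p ^ 2) : ℝ) * (4 * H / P.p + 48 * Real.log P.p) else 0
  else 0

end Par

end

end Pool.Agent.P.MP_a60a76_nt.Sz
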