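import Pool.Agent.P.MP_a60a76_nt.Sz.Base

namespace Pool.Agent.P.MP_a60a76_nt.Sz

open UpperHalfPlane MeasureTheory SP
open scoped MatrixGroups UpperHalfPlane Matrix Modular Topology Classical ArithmeticFunction.sigma

noncomputable section

/-! Further definitions for the arithmetic part. -/

namespace Par

variable (P : Par)

/-- An integral series in `e(τ)` as a series in `e(τ / p)`. -/
def es (a : ℕ → ℤ) (k : ℕ) : ℂ := if P.p ∣ k then (a (k / P.p) : ℂ) else 0

theorem dls_eq : P.dls = P.es dlc := rfl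

/-- The power series `a` in `e(τ / p)` converges to `F`. -/
def Cv (a : PowerSeries ℂ) (F : ℍ → ℂ) : Prop :=
  ∀ τ, HasSum (fun k => PowerSeries.coeff k a * P.sv τ ^ k) (F τ)

/-- The product of the two discriminants as a series. -/
def D2 : PS := in1 P.dls * in2 P.dls

/-- Coefficients of the Weierstrass function at a point of order `p`. -/
def wc (v : Fin 2 → P.F) (k : ℕ) : ℂ :=
  if k = 0 then 1 / 12 + if v 0 = 0 then P.zp (v 1) / (1 - P.zp (v 1)) ^ 2 else 0
  else ∑ x ∈ k.divisorsAntidiagonal, (x.1 : ℂ) *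
    ((if (x.2 : P.F) = v 0 then P.zp (x.1 * v 1) else 0) +
      (if (x.2 : P.F) = -v 0 then P.zp (-(x.1 * v 1)) else 0) - if (x.2 : P.F) = 0 then 2 else 0)

/-- Up to sign `ρ` is the conjugate by `δ` of a standard unipotent matrix. -/
def Tv (ρ δ : P.MF) (x : P.F) : Prop :=
  ρ * δ = δ * !![1, x; 0, 1] ∨ ρ * δ = -(δ * !![1, x; 0, 1])

/-- A matrix which is not scalar and commutes with the Galois action up to sign. -/
def Sgn (A : Crv) (α : P.MF) : Prop :=
  NonScalar α ∧ ∀ s : ℂ ≃+* ℂ, ∃ ρ : P.GF, P.Rho A s ρ ∧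
    ((ρ : P.MF) * α = α * ρ ∨ (ρ : P.MF) * α = -(α * ρ))

/-- A place above `l` together with an element of the inertia group. -/
structure Plc (l : ℕ) (K : Type) [NormedField K] where
  /-- the embedding -/
  ι : ℂ ≃+* K
  /-- the element of the inertia group -/
  sg : K ≃+* K
  /-- a root of `l` -/
  rt : K
  /-- the tame character -/
  c : P.F
  prime : l.Prime
  ne : l ≠ P.p
  norm_rat : ∀ q : ℚ, ‖ι q‖ = padicNorm l q
  iso : ∀ x, ‖sg x‖ = ‖x‖
  res : ∀ z, ‖z‖ ≤ 1 → ‖sg z - z‖ < 1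
  rt_pow : rt ^ P.p = l
  c_ne : c ≠ 0
  map_rt : sg rt = ι (P.zp c) * rt

/-- The automorphism of the complex numbers attached to the place. -/
def Plc.aut {P : Par} {l : ℕ} {K : Type} [NormedField K] (L : P.Plc l K) : ℂ ≃+* ℂ :=
  L.ι.trans (L.sg.trans L.ι.symm)

theorem Plc.map_aut {P : Par} {l : ℕ} {K : Type} [NormedField K] (L : P.Plc l K) (x : ℂ) :
    L.ι (L.aut x) = L.sg (L.ι x) := by
  simp [Plc.aut]

/-- The integral multiple of the product. -/
def gi (c : P.D → ℤ → ℤ) (X : P.MF) (t₁ t₂ : ℍ) : ℂ :=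
  (P.p : ℂ) ^ (12 * P.p * P.mm c : ℤ) * P.gf c X t₁ t₂

/-- The excess vanishing at a prime of type `v₁, v₂` with `v = v₁ v₂`. -/
def exc (c : P.D → ℤ → ℤ) (v K₀ : ℕ) : ℤ :=
  12 * v * ∑ n ∈ Finset.Icc 1 K₀, (n : ℤ) * ∑ k, c k (-((n : ℤ) ^ 2 * v))

end Par

/-- The logarithmic height of a pair. -/
def hgt (A B : Crv) : ℝ := Real.log (max (ht A.j) (ht B.j) : ℕ)

end

end Pool.Agent.P.MP_a60a76_nt.Sz
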