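import Pool.Agent.P.MP_a60a76_nt.Sz.Defs2
import Pool.Agent.P.MP_a60a76_nt.Sz.Cos

namespace Pool.Agent.P.MP_a60a76_nt.Sz

open UpperHalfPlane hiding J
open MeasureTheory SP
open scoped MatrixGroups UpperHalfPlane Matrix Modular Topology Classical ArithmeticFunction.sigma

noncomputable section

/-! Definitions for the bound which involves all primes of bad reduction. -/

/-- The point `i y`. -/
def iy (y : ℝ) : ℍ := ofComplex (y * Complex.I)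

/-- The negative of the discriminant of the characteristic polynomial. -/
def dsc (Y : MZ) : ℤ := 4 * Y.det - Y.trace ^ 2

/-- The bilinear form of the determinant. -/
def bl {R : Type} [CommRing R] (Z W : Matrix (Fin 2) (Fin 2) R) : R := (Z.adjugate * W).trace

/-- The Gram determinant. -/
def gr (Z W : MZ) : ℤ := 4 * Z.det * W.det - bl Z W ^ 2

/-- A reduced basis of the lattice of the matrices which send `t₁` to `t₂`. -/
structure IsB (t₁ t₂ : ℍ) (Z₁ Z₂ : MZ) : Prop where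
  z₁ : Rm Z₁ t₁ t₂ = 0
  z₂ : Rm Z₂ t₁ t₂ = 0
  pos : 0 < Z₁.det
  le : Z₁.det ≤ Z₂.det
  small : |bl Z₁ Z₂| ≤ Z₁.det
  span : ∀ Z, Rm Z t₁ t₂ = 0 → ∃ x y : ℤ, Z = x • Z₁ + y • Z₂

/-- Two points with the same complex multiplication. -/
structure Cm (s₁ s₂ : ℍ) (Y₁ Y₂ : MZ) : Prop where
  fix₁ : Rm Y₁ s₁ s₁ = 0
  fix₂ : Rm Y₂ s₂ s₂ = 0
  dn_eq : dn Y₁ s₁ = dn Y₂ s₂
  im_ne : (dn Y₁ s₁).im ≠ 0

/-- The theta series of the matrices which send `t₁` to `t₂`. -/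
def Th0 (t₁ t₂ : ℍ) (y : ℝ) : ℝ :=
  ∑' W : MZ, if W ≠ 0 ∧ Rm W t₁ t₂ = 0 then Real.exp (-(Real.pi * W.det / y)) else 0

/-- Vanishing to the order `ν`. -/
def Van (ν : ℕ) (f : ℍ → ℍ → ℂ) (s₁ s₂ : ℍ) : Prop :=
  ∃ C δ : ℝ, 0 < δ ∧ ∀ ε : ℝ, 0 < ε → ε ≤ δ → ∀ t₁ t₂ : ℍ, ‖(t₁ : ℂ) - s₁‖ ≤ ε →
    ‖(t₂ : ℂ) - s₂‖ ≤ ε → ‖f t₁ t₂‖ ≤ C * ε ^ ν

/-- The operator `V ^ μ (d / d j) ^ μ` with `V = j (j - 1728)`. -/
def Lop : ℕ → (ℍ → ℂ) → ℍ → ℂ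
  | 0, h => h
  | μ + 1, h => fun τ =>
    -(E4 τ * E6 τ / Dl τ) * Derivative.normalizedDerivOfComplex (Lop μ h) τ -
      μ * (2 * J τ - 1728) * Lop μ h τ

/-- Conjugation by a unimodular matrix. -/
def cn (g : SL(2, ℤ)) (Y : MZ) : MZ := (g : MZ) * Y * ((g⁻¹ : SL(2, ℤ)) : MZ)

/-- The modular polynomial on the diagonal. -/
def mp (n : ℕ) (τ : ℍ) : ℂ := ∏ Z ∈ hnf n, (J τ - J (mob Z τ))

/-- The binomial coefficient of `δ + n` over `k` as an operator. -/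
def bn {R : Type} [CommRing R] [Algebra ℚ R] (δ : R →ₗ[ℚ] R) (n : ℤ) : ℕ → R → R
  | 0, g => g
  | k + 1, g => ((k + 1 : ℚ)⁻¹) • (δ (bn δ n k g) + ((n : R) - k) * bn δ n k g)

/-- The logarithm of the denominators. -/
def Hd (A B : Crv) : ℝ := Real.log (A.j.den * B.j.den : ℕ)

/-- A row of a series in two variables. -/
def row (m : ℕ) (a : PS) : PowerSeries ℂ :=
  PowerSeries.mk fun N => MvPowerSeries.coeff (ixx m N) a

section

variable {K : Type} [NormedField K] (ι : ℂ →+* K)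

/-- The Gauss norm of radii `x, y` is at most `B`. -/
def Gs (a : PS) (x y B : ℝ) : Prop :=
  ∀ d : Fin 2 →₀ ℕ, ‖ι (MvPowerSeries.coeff d a)‖ * (x ^ d 0 * y ^ d 1) ≤ B

/-- Expansions with integral coefficients. -/
def Zq (F : ℍ → ℂ) : Prop := ∃ (N : ℕ) (c : ℤ → ℂ), 0 < N ∧ QS N c F ∧ ∀ ν, ‖ι (c ν)‖ ≤ 1

/-- Expansions with coefficients in the maximal ideal. -/
def Zs (F : ℍ → ℂ) : Prop := ∃ (N : ℕ) (c : ℤ → ℂ), 0 < N ∧ QS N c F ∧ ∀ ν, ‖ι (c ν)‖ < 1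

/-- The point is integral and its reduction has no further automorphisms. -/
def Gd (s : ℍ) : Prop :=
  ‖ι (J s)‖ ≤ 1 ∧ (‖ι (J s)‖ < 1 → J s = 0) ∧ (‖ι (J s - 1728)‖ < 1 → J s = 1728)

/-- The embedding induces the `l`-adic absolute value. -/
def Plv (l : ℕ) : Prop := ∀ q : ℚ, ‖ι q‖ = padicNorm l q

/-- Elements of the inertia group. -/
def Ine (sg : K ≃+* K) : Prop := (∀ x, ‖sg x‖ = ‖x‖) ∧ ∀ z, ‖z‖ ≤ 1 → ‖sg z - z‖ < 1

/-- Frobenius elements. -/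
def Frb (l : ℕ) (sg : K ≃+* K) : Prop :=
  (∀ x, ‖sg x‖ = ‖x‖) ∧ ∀ z, ‖z‖ ≤ 1 → ‖sg z - z ^ l‖ < 1

end

/-- The automorphism of the complex numbers induced by an automorphism of `K`. -/
def cjg {K : Type} [Field K] (ι : ℂ ≃+* K) (sg : K ≃+* K) : ℂ ≃+* ℂ :=
  ι.trans (sg.trans ι.symm)

theorem map_cjg {K : Type} [Field K] (ι : ℂ ≃+* K) (sg : K ≃+* K) (x : ℂ) :
    ι (cjg ι sg x) = sg (ι x) := by
  simp [cjg]

/-- The invariants with additional automorphisms. -/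
def El (j : ℚ) : Prop := j = 0 ∨ j = 1728

/-- The primes at which the Frobenius is lifted. -/
def Ok (l : ℕ) (j : ℚ) : Prop :=
  (padicNorm l j = 1 ∧ padicNorm l (j - 1728) = 1) ∨ (j = 0 ∧ l % 3 = 1) ∨ (j = 1728 ∧ l % 4 = 1)

/-- For `l ≥ 5` all twists of a curve with invariant `j ≠ 0, 1728` have bad reduction at `l`. -/
def Bad (l : ℕ) (j : ℚ) : Prop :=
  padicValRat l j < 0 ∨ ¬ 3 ∣ padicValRat l j ∨ ¬ 2 ∣ padicValRat l (j - 1728)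

/-- The potentially good case. -/
def Bad' (l : ℕ) (j : ℚ) : Prop :=
  0 ≤ padicValRat l j ∧ (¬ 3 ∣ padicValRat l j ∨ ¬ 2 ∣ padicValRat l (j - 1728))

namespace Par

variable (P : Par)

/-- Reduction of an integral matrix. -/
def rz (Z : MZ) : P.MF := Z.map (Int.cast : ℤ → P.F)

theorem rz_sl (g : SL(2, ℤ)) : P.rz g = red P.p g := rfl

/-- The invertible matrix attached to an integral matrix of determinant prime to `p`. -/
def gm (Y : MZ) : P.GF :=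
  if h : (P.rz Y).det ≠ 0 then Matrix.GeneralLinearGroup.mkOfDetNeZero (P.rz Y) h else 1

/-- Defects on the modular curve of level `l` which vanish on the Frobenius component. -/
structure Df {K : Type} [NormedField K] (ι : ℂ →+* K) (l : ℕ) (α : P.GF → MZ → ℍ → ℂ) :
    Prop where
  left : ∀ γ (g : SL(2, ℤ)) (Y : MZ), Y.det = l → α γ ((g : MZ) * Y) = α γ Y
  right : ∀ γ (g : SL(2, ℤ)) (Y : MZ) τ, Y.det = l →
    α γ Y (g • τ) = α (γ * P.rg g) (Y * (g : MZ)) τ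
  zq : ∀ γ (Y : MZ), Y.det = l → Zq ι (α γ Y)
  zs : ∀ γ, Zs ι (α γ !![(l : ℤ), 0; 0, 1])

/-- `X` intertwines the two endomorphisms. -/
def TyP (X : P.MF) (Y₁ Y₂ : MZ) : Prop := P.rz Y₂ * X = X * P.rz Y₁

/-- `X` intertwines an endomorphism and the dual of the other one. -/
def TyM (X : P.MF) (Y₁ Y₂ : MZ) : Prop := P.rz Y₂.adjugate * X = X * P.rz Y₁

/-- `X` is orthogonal to all isogenies. -/
def Orth (A B : Crv) (X : P.MF) : Prop := ∀ Z : MZ, Rm Z A.t B.t = 0 → bl X (P.rz Z) = 0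

/-- All singular lattice vectors are divisible by `p`. -/
def Ort (t₁ t₂ : ℍ) : Prop :=
  ∀ W : MZ, P.InL W → Rm W t₁ t₂ = 0 → ∃ W' : MZ, W = (P.p : ℤ) • W'

/-! ### Duality -/

/-- Admissible sequences. -/
structure Adm (a : P.D → ℤ → ℝ) : Prop where
  bound : ∀ η : ℝ, 0 < η → ∃ C : ℝ, ∀ k (ν : ℤ), 0 < ν → |a k ν| ≤ C * Real.exp (η * ν)
  supp : ∀ k ν, a k ν ≠ 0 → (ν : P.D) = P.Q k

/-- The test functional. -/
def TT (y : ℝ) (a : P.D → ℤ → ℝ) : ℝ :=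
  ∑ k, ∑' n : ℕ, a k (n + 1) * Real.exp (-(2 * Real.pi * (n + 1) * y / P.p ^ 2)) +
    P.p / y ^ 2 * ∑' n : ℕ, a 0 (n + 1) * Real.exp (-(2 * Real.pi * (n + 1) * y⁻¹ / P.p ^ 2))

/-- The weight of a lattice vector. -/
def wt (y : ℝ) (W : MZ) : ℝ :=
  Real.exp (-(2 * Real.pi * W.det * y / P.p ^ 2)) +
    if P.kap W = 0 then P.p / y ^ 2 * Real.exp (-(2 * Real.pi * W.det * y⁻¹ / P.p ^ 2)) else 0

/-- The indicator function of the singular lattice vectors. -/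
def z0 (t₁ t₂ : ℍ) (W : MZ) : ℝ := if P.InL W ∧ W ≠ 0 ∧ Rm W t₁ t₂ = 0 then 1 else 0

/-- The sequence attached to a function on the lattice. -/
def aW (φ : MZ → ℝ) (k : P.D) (ν : ℤ) : ℝ :=
  ∑' W : MZ, if P.kap W = k ∧ W.det = ν then φ W else 0

/-- Functions on the lattice of moderate size. -/
structure Sm (φ : MZ → ℝ) : Prop where
  supp : ∀ W, φ W ≠ 0 → P.InL W ∧ 0 < W.det
  sum : ∀ η : ℝ, 0 < η → Summable fun W : MZ => |φ W| * Real.exp (-(η * W.det))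

/-- The sequence of the order of the pole. -/
def asg (k : P.D) (ν : ℤ) : ℝ :=
  if P.rd k = 0 ∧ (ν : P.D) = 0 then (σ 1 (ν.toNat / P.p ^ 2) : ℝ) else 0

/-- The sequence of the excess vanishing at a cusp. -/
def acu (v K₀ : ℕ) (k : P.D) (ν : ℤ) : ℝ :=
  if (ν : P.D) = P.Q k then
    ∑ n ∈ Finset.Icc 1 K₀, if ν = (n : ℤ) ^ 2 * v then 2 / P.p * v * n else 0
  else 0

/-- The holomorphic correction of the Green function. -/
def hl (t₁ t₂ : ℍ) (Y : ℝ) (k : P.D) (τ : ℍ) : ℂ :=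
  ∑' X : MZ, P.ind k X * (ee (τ * X.det / P.p ^ 2) *
    (if 0 < X.det ∨ X = 0 then
      ∫ r in (1 : ℝ)..Y, Real.exp (-(4 * Real.pi * Rm X t₁ t₂ / P.p ^ 2 * r)) / r else 0 : ℝ))

/-- The corrected holomorphic part. -/
def rs (t₁ t₂ : ℍ) (Y : ℝ) (k : P.D) (τ : ℍ) : ℂ := P.rr t₁ t₂ k τ + P.hl t₁ t₂ Y k τ

/-- The continuous part of the theta lift. -/
def Psi (χ : ℍ → ℝ) (c : P.D → ℤ → ℤ) (T : ℝ) (t₁ t₂ : ℍ) : ℝ :=
  (IT χ T (P.pr c (P.th t₁ t₂))).re +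
    ∑' X : MZ, (if X.det ≤ 0 then P.cX c X else 0) *
      beta (4 * Real.pi * T * Rm X t₁ t₂ / P.p ^ 2)

/-- The terms of positive determinant which are regular at `s₁, s₂`. -/
def Rg (c : P.D → ℤ → ℤ) (T : ℝ) (s₁ s₂ t₁ t₂ : ℍ) : ℝ :=
  ∑' X : MZ, (if 0 < X.det ∧ Rm X s₁ s₂ ≠ 0 then P.cX c X else 0) *
    beta (4 * Real.pi * T * Rm X t₁ t₂ / P.p ^ 2)

/-- The number of singular vectors counted with the coefficients of `c`. -/
def nz (c : P.D → ℤ → ℤ) (t₁ t₂ : ℍ) : ℝ := ∑' W : MZ, P.cX c W * P.z0 t₁ t₂ W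

/-! ### Differential operators -/

/-- The integral form of the operator. -/
def Hop (μ : ℕ) (h : ℍ → ℂ) (τ : ℍ) : ℂ := (P.p : ℂ) ^ (2 * μ) / μ.factorial * Lop μ h τ

/-- The derivation `q d / d q` on series in `e(τ / p)`. -/
def thS (b : PowerSeries ℂ) : PowerSeries ℂ :=
  PowerSeries.mk fun N => (N : ℂ) / P.p * PowerSeries.coeff N b

/-- The series of `E₄`. -/
def S4 : PowerSeries ℂ := PowerSeries.mk (P.es e4c)

/-- The series of `E₆`. -/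
def S6 : PowerSeries ℂ := PowerSeries.mk (P.es e6c)

/-- The series of the discriminant. -/
def SD : PowerSeries ℂ := PowerSeries.mk (P.es dlc)

/-- The operator on series. -/
def Lser (n : ℕ) : ℕ → PowerSeries ℂ → PowerSeries ℂ
  | 0, b => b
  | μ + 1, b =>
    -(P.S4 * P.S6) * (P.SD * P.thS (Lser n μ b) -
        ((n + 2 * μ : ℕ) : PowerSeries ℂ) * P.thS P.SD * Lser n μ b) -
      (μ : PowerSeries ℂ) * (P.S4 ^ 3 + P.S6 ^ 2) * P.SD * Lser n μ b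

/-- The integral multiple of the product. -/
def gj (c : P.D → ℤ → ℤ) (X : P.MF) (t₁ t₂ : ℍ) : ℂ :=
  (P.p : ℂ) ^ (12 * P.p * (-P.cp c).toNat) * P.gf c X t₁ t₂

/-- The local bound at the prime `l`. -/
def Bd (A B : Crv) (X : P.MF) (l : ℕ) (a : P.D → ℤ → ℝ) : Prop :=
  ∀ c, P.IsF0 c → P.Pos c → ∀ (μ : ℕ) (G : ℚ),
    (G : ℂ) = P.Hop μ (P.gj c X A.t) B.t → (padicNorm l G : ℝ) ≤
      (l : ℝ) ^ ((P.KK c + 2 * μ) * padicValNat l (A.j.den * B.j.den) + μ -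
        6 * P.p * P.pp c a : ℝ)

/-- The gain at the prime `l` is at least `γ`. -/
def Gn (A B : Crv) (X : P.MF) (y : ℝ) (l : ℕ) (γ : ℝ) : Prop :=
  ∃ a, P.Adm a ∧ γ ≤ P.TT y a ∧ P.Bd A B X l a

/-! ### Coordinates -/

/-- Coordinates of a curve with its points of order `p`. -/
@[ext] structure Co (P : Par) where
  /-- the abscissas -/
  x : (Fin 2 → P.F) → ℂ
  /-- the invariant of weight four -/
  a : ℂ
  /-- the invariant of weight six -/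
  b : ℂ

namespace Co

variable {P} (u w : P.Co)

/-- Change of the level structure. -/
def tw (ρ : P.MF) : P.Co := ⟨fun v => u.x (v ᵥ* ρ), u.a, u.b⟩

/-- Scaling. -/
def sc (κ : ℂ) : P.Co := ⟨fun v => κ * u.x v, κ ^ 2 * u.a, κ ^ 3 * u.b⟩

/-- Conjugation. -/
def map (s : ℂ ≃+* ℂ) : P.Co := ⟨fun v => s (u.x v), s u.a, s u.b⟩

/-- Powers. -/
def pw (n : ℕ) : P.Co := ⟨fun v => u.x v ^ n, u.a ^ n, u.b ^ n⟩

/-- A difference of abscissas. -/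
def d : ℂ := u.x ![1, 0] - u.x ![0, 1]

/-- The test functions. -/
def ts : Option (Option (Fin 2 → P.F)) → ℂ
  | none => u.d ^ 4 * u.a
  | some none => u.d ^ 3 * u.b
  | some (some v) => u.d ^ 5 * u.x v

variable {K : Type} [NormedField K] (ι : ℂ →+* K)

/-- Congruent coordinates. -/
def Cl : Prop :=
  (∀ v, ‖ι (u.x v - w.x v)‖ < 1) ∧ ‖ι (u.a - w.a)‖ < 1 ∧ ‖ι (u.b - w.b)‖ < 1

/-- Congruent up to a sixth root of unity. -/
def Sim : Prop := ∃ κ : ℂ, κ ^ 6 = 1 ∧ w.Cl (u.sc κ) ι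

/-- Integral coordinates. -/
def Itg : Prop := (∀ v, ‖ι (u.x v)‖ ≤ 1) ∧ ‖ι u.a‖ ≤ 1 ∧ ‖ι u.b‖ ≤ 1

/-- The abscissas are separated modulo the maximal ideal. -/
def Sep : Prop := ∀ v v', v ≠ 0 → v' ≠ 0 → v ≠ v' → v ≠ -v' → ‖ι (u.x v - u.x v')‖ = 1

end Co

/-- The coordinates of a point. -/
def co (τ : ℍ) : P.Co :=
  ⟨fun v => P.wn v τ / ModularForm.eta τ ^ 4, E4 τ / ModularForm.eta τ ^ 8,
    E6 τ / ModularForm.eta τ ^ 12⟩

/-- The test functions as families. -/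
def tf (o : Option (Option (Fin 2 → P.F))) (γ : P.GF) (τ : ℍ) : ℂ := ((P.co τ).tw γ).ts o

/-- The automorphism `s` acts on the coordinates by the matrix `ρ`. -/
def Ga (τ : ℍ) (s : ℂ ≃+* ℂ) (ρ : P.GF) : Prop :=
  ∃ κ : ℂ, κ ^ 6 = 1 ∧ (P.co τ).map s = ((P.co τ).tw ρ).sc κ

/-- The matrix `X` intertwines the Galois actions on the coordinates. -/
def Lk (t₁ t₂ : ℍ) (X : P.MF) : Prop :=
  ∀ s : ℂ ≃+* ℂ, ∃ ρ₁ ρ₂ : P.GF, P.Ga t₁ s ρ₁ ∧ P.Ga t₂ s ρ₂ ∧ (ρ₂ : P.MF) * X = X * ρ₁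

/-- The point `s` is close to `t` on the curve of level `p`. -/
def Nr {K : Type} [NormedField K] (ι : ℂ →+* K) (l : ℕ) (t s : ℍ) : Prop :=
  Gd ι s ∧ (P.co t).Sim (P.co s) ι ∧ ‖ι (J t - J s)‖ ^ 2 ≤ (l : ℝ)⁻¹

/-- Functions of level `p` in two variables with expansions over `A` at all cusps. -/
structure IgD (A : Subring ℂ) (n : ℕ) (f : ℍ → ℍ → ℂ) : Prop where
  inv : ∀ g₁ g₂ : SL(2, ℤ), red P.p g₁ = 1 → red P.p g₂ = 1 → ∀ t₁ t₂,
    f (g₁ • t₁) (g₂ • t₂) = f t₁ t₂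
  exp : ∀ g₁ g₂ : SL(2, ℤ), ∃ a : PS, InA A a ∧ ∀ t₁ t₂,
    Ab (RingHom.id ℂ) a (P.sv t₁) (P.sv t₂) ∧
      f (g₁ • t₁) (g₂ • t₂) * (Dl t₁ * Dl t₂) ^ n = ev (RingHom.id ℂ) a (P.sv t₁) (P.sv t₂)

/-- The same of any order. -/
def Ig (A : Subring ℂ) (f : ℍ → ℍ → ℂ) : Prop := ∃ n, P.IgD A n f

/-- The finite group of the level. -/
abbrev SS : Type := SL(2, P.F) × SL(2, P.F)

/-- A lift of a unimodular matrix. -/
def lf (x : SL(2, P.F)) : SL(2, ℤ) := (P.red_surj x x.det_coe).choose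

theorem red_lf (x : SL(2, P.F)) : red P.p (P.lf x) = x := (P.red_surj x x.det_coe).choose_spec

/-- The conjugates of a function. -/
def cj (g : P.SS) (f : ℍ → ℍ → ℂ) (t₁ t₂ : ℍ) : ℂ := f (P.lf g.1 • t₁) (P.lf g.2 • t₂)

/-- The elementary symmetric functions of the conjugates. -/
def sy (k : ℕ) (f : ℍ → ℍ → ℂ) (t₁ t₂ : ℍ) : ℂ :=
  ∑ S ∈ Finset.powersetCard k (Finset.univ : Finset P.SS), ∏ g ∈ S, P.cj g f t₁ t₂

end Par

end

end Pool.Agent.P.MP_a60a76_nt.Sz
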