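import Pool.Agent.P.MP_a60a76_nt.Sz.BQ

namespace Pool.Agent.P.MP_a60a76_nt.Sz

open UpperHalfPlane hiding J
open MeasureTheory SP
open scoped MatrixGroups UpperHalfPlane Matrix Modular Topology Classical ArithmeticFunction.sigma

noncomputable section

/-! The discriminant of the lattice of isogenies between two points with the same complex
multiplication. -/

variable {s₁ s₂ : ℍ} {Z₁ Z₂ Y₁ Y₂ : MZ}

theorem IsB.prim (h : IsB s₁ s₂ Z₁ Z₂) {q x y : ℤ} (hq : q ≠ 0) {W : MZ}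
    (e : x • Z₁ + y • Z₂ = q • W) : q ∣ x ∧ q ∣ y := by
  have hW : Rm W s₁ s₂ = 0 :=
    rm0_of_zsmul hq (e ▸ rm0_add (rm0_zsmul x h.z₁) (rm0_zsmul y h.z₂))
  obtain ⟨x', y', rfl⟩ := h.span W hW
  have := h.indep (x := x - q * x') (y := y - q * y') (by
    rw [sub_smul, sub_smul, sub_add_sub_comm, e, smul_add, mul_smul, mul_smul, sub_self])
  exact ⟨⟨x', sub_eq_zero.1 this.1⟩, ⟨y', sub_eq_zero.1 this.2⟩⟩

theorem Disc_fix (hc : Cm s₁ s₂ Y₁ Y₂) : Rm (Y₁ - Y₁.adjugate) s₁ s₁ = 0 :=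
  rm0_sub hc.fix₁ (rm0_adj hc.fix₁).1

theorem Disc_det (Y : MZ) : (Y - Y.adjugate).det = dsc Y := by
  rw [dsc, Matrix.trace_fin_two, Matrix.det_fin_two, Matrix.det_fin_two, Matrix.adjugate_fin_two]
  simp
  ring

theorem Disc_pi (hc : Cm s₁ s₂ Y₁ Y₂) {Z : MZ} (hZ : Rm Z s₁ s₂ = 0) (W : MZ) :
    bl Z (Y₂ * W - W * Y₁.adjugate) = -bl W (Z * (Y₁ - Y₁.adjugate)) := by
  have h1 := (hc.comm_iff Z).1 hZ
  have h2 : Y₂.adjugate * Z = Z * Y₁.adjugate := by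
    rw [adj_eq_trace_sub Y₂, adj_eq_trace_sub Y₁, Matrix.sub_mul, Matrix.mul_sub, h1,
      hc.trace_eq, Matrix.smul_mul, Matrix.mul_smul, Matrix.one_mul, Matrix.mul_one]
  have h3 : bl Z (Y₂ * W) = bl W (Z * Y₁.adjugate) := by
    rw [bl_comm, ← h2, bl, bl, Matrix.adjugate_mul_distrib, Matrix.mul_assoc]
  have h4 : bl Z (W * Y₁.adjugate) = bl W (Z * Y₁) := by
    simp only [bl_eq, Matrix.mul_apply, Fin.sum_univ_two, Matrix.adjugate_fin_two]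
    simp
    ring
  rw [bl_sub_right, h3, h4, Matrix.mul_sub, bl_sub_right, neg_sub]

theorem Disc_entry (i j : Fin 2) : ∃ W : MZ, ∀ Z : MZ, bl W Z = Z i j := by
  fin_cases i <;> fin_cases j
  · exact ⟨!![0, 0; 0, 1], fun Z => by simp [bl_eq]⟩
  · exact ⟨!![0, 0; -1, 0], fun Z => by simp [bl_eq]⟩
  · exact ⟨!![0, -1; 0, 0], fun Z => by simp [bl_eq]⟩
  · exact ⟨!![1, 0; 0, 0], fun Z => by simp [bl_eq]⟩

theorem Disc_minor (h : IsB s₁ s₂ Z₁ Z₂) (hc : Cm s₁ s₂ Y₁ Y₂) (W W' : MZ) :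
    gr Z₁ Z₂ ∣ dsc Y₁ * (bl W Z₁ * bl W' Z₂ - bl W' Z₁ * bl W Z₂) := by
  obtain ⟨a, b, e1⟩ := h.span _ (rm0_mul h.z₁ (Disc_fix hc)).1
  obtain ⟨c, d, e2⟩ := h.span _ (rm0_mul h.z₂ (Disc_fix hc)).1
  have hG : gr Z₁ Z₂ ≠ 0 := by
    have := h.three_le
    omega
  have g1 : gr (Z₁ * (Y₁ - Y₁.adjugate)) (Z₂ * (Y₁ - Y₁.adjugate)) = dsc Y₁ ^ 2 * gr Z₁ Z₂ := by
    have := bl_mul Z₁ Z₂ 1 (Y₁ - Y₁.adjugate)
    rw [Matrix.one_mul, Matrix.one_mul, Matrix.det_one, Disc_det] at this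
    rw [gr, gr, this, Matrix.det_mul, Matrix.det_mul, Disc_det]
    ring
  have g2 : gr (a • Z₁ + b • Z₂) (c • Z₁ + d • Z₂) = (a * d - b * c) ^ 2 * gr Z₁ Z₂ := by
    simp only [gr, bl_eq, Matrix.det_fin_two, Matrix.add_apply, Matrix.smul_apply, smul_eq_mul]
    ring
  rw [e1, e2, g2] at g1
  have g3 := sq_eq_sq_iff_eq_or_eq_neg.1 (mul_right_cancel₀ hG g1)
  have key : ∀ V : MZ, ∃ x y : ℤ,
      x * (2 * Z₁.det) + y * bl Z₁ Z₂ = -(a * bl V Z₁ + b * bl V Z₂) ∧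
      x * bl Z₁ Z₂ + y * (2 * Z₂.det) = -(c * bl V Z₁ + d * bl V Z₂) := fun V => by
    obtain ⟨x, y, e⟩ := h.span _ (hc.pi V)
    have k1 := Disc_pi hc h.z₁ V
    have k2 := Disc_pi hc h.z₂ V
    rw [e, e1, bl_add_right, bl_add_right, bl_smul_right, bl_smul_right, bl_smul_right,
      bl_smul_right, bl_self] at k1
    rw [e, e2, bl_add_right, bl_add_right, bl_smul_right, bl_smul_right, bl_smul_right,
      bl_smul_right, bl_self, bl_comm Z₂ Z₁] at k2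
    exact ⟨x, y, k1, k2⟩
  obtain ⟨x, y, k1, k2⟩ := key W
  obtain ⟨x', y', k3, k4⟩ := key W'
  have k5 : (a * d - b * c) * (bl W Z₁ * bl W' Z₂ - bl W' Z₁ * bl W Z₂) =
      gr Z₁ Z₂ * (x * y' - x' * y) := by
    have : gr Z₁ Z₂ * (x * y' - x' * y) =
        (x * (2 * Z₁.det) + y * bl Z₁ Z₂) * (x' * bl Z₁ Z₂ + y' * (2 * Z₂.det)) -
          (x' * (2 * Z₁.det) + y' * bl Z₁ Z₂) * (x * bl Z₁ Z₂ + y * (2 * Z₂.det)) := by
      rw [gr]
      ring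
    rw [this, k1, k2, k3, k4]
    ring
  rcases g3 with g3 | g3
  · exact ⟨_, g3 ▸ k5⟩
  · rw [g3, neg_mul, neg_eq_iff_eq_neg, ← mul_neg] at k5
    exact ⟨_, k5⟩

theorem IsB.gr_dvd (h : IsB s₁ s₂ Z₁ Z₂) (hc : Cm s₁ s₂ Y₁ Y₂) : gr Z₁ Z₂ ∣ dsc Y₁ := by
  have hG : gr Z₁ Z₂ ≠ 0 := by
    have := h.three_le
    omega
  have hg : 0 < Int.gcd (gr Z₁ Z₂) (dsc Y₁) := Int.gcd_pos_of_ne_zero_left _ hG
  obtain ⟨q, r, hqr, e1, e2⟩ := Int.exists_gcd_one hg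
  have hq : q ≠ 0 := by
    rintro rfl
    exact hG (by rw [e1, zero_mul])
  have hm : ∀ i j k l, q ∣ Z₁ k l * Z₂ i j - Z₁ i j * Z₂ k l := fun i j k l => by
    obtain ⟨W, hW⟩ := Disc_entry k l
    obtain ⟨W', hW'⟩ := Disc_entry i j
    have := Disc_minor h hc W W'
    rw [hW, hW, hW', hW'] at this
    generalize Int.gcd (gr Z₁ Z₂) (dsc Y₁) = g at hg e1 e2
    rw [e1, e2, mul_right_comm] at this
    exact Int.dvd_of_dvd_mul_right_of_gcd_one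
      ((mul_dvd_mul_iff_right (by exact_mod_cast hg.ne')).1 this) hqr
  have h1 : ∀ i j, q ∣ Z₁ i j := fun i j => by
    choose f hf using hm i j
    refine Int.dvd_neg.1 (h.prim (x := Z₂ i j) (y := -Z₁ i j) hq (W := Matrix.of f) ?_).2
    ext k l
    simp only [Matrix.add_apply, Matrix.smul_apply, smul_eq_mul, Matrix.of_apply, ← hf]
    ring
  choose f hf using h1
  have h2 := (h.prim (x := 1) (y := 0) hq (W := Matrix.of f) (by
    ext k l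
    simp [hf])).1
  calc gr Z₁ Z₂ = q * Int.gcd (gr Z₁ Z₂) (dsc Y₁) := e1
    _ ∣ 1 * Int.gcd (gr Z₁ Z₂) (dsc Y₁) := mul_dvd_mul_right h2 _
    _ ∣ dsc Y₁ := by
      rw [one_mul]
      exact Int.gcd_dvd_right _ _

theorem Par.exists_cong {P : Par} {X : P.MF} (hc : Cm s₁ s₂ Y₁ Y₂) (hT : P.TyP X Y₁ Y₂)
    (hX : X.det ≠ 0) (hp : ¬ (P.p : ℤ) ∣ dsc Y₁) :
    ∃ W, Rm W s₁ s₂ = 0 ∧ bl X (P.rz W) ≠ 0 := by
  obtain ⟨X', rfl⟩ := P.rz_surj X
  refine ⟨_, (rm0_mul (hc.pi X') (Disc_fix hc)).1, ?_⟩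
  have hT' : P.rz Y₂ * P.rz X' = P.rz X' * P.rz Y₁ := hT
  have e : P.rz ((Y₂ * X' - X' * Y₁.adjugate) * (Y₁ - Y₁.adjugate)) =
      ((Y₁.trace ^ 2 - 4 * Y₁.det : ℤ) : P.F) • P.rz X' := by
    rw [P.rz_mul, P.rz_sub, P.rz_mul, hT', ← P.rz_mul, ← P.rz_sub, ← Matrix.mul_sub, ← P.rz_mul,
      Matrix.mul_assoc, sub_adj_sq, Matrix.mul_smul, Matrix.mul_one, P.rz_zsmul]
  rw [e, bl_smul_right, bl_self]
  refine mul_ne_zero ?_ (mul_ne_zero P.two_ne hX)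
  rw [Ne, ZMod.intCast_zmod_eq_zero_iff_dvd, ← Int.dvd_neg, neg_sub]
  exact hp

theorem Par.exists_beta {P : Par} (hc : Cm s₁ s₂ Y₁ Y₂) (hT : P.TyP P.Dm Y₁ Y₂)
    (hD : dsc Y₁ < (P.p : ℤ) ^ 2) : ∃ β : MZ → P.F, ∀ W W', Rm W s₁ s₂ = 0 → Rm W' s₁ s₂ = 0 →
      β W = β W' → P.InL (W - W') := by
  have hm := P.m_ne
  have t00 := congrFun (congrFun hT 0) 0
  have t01 := congrFun (congrFun hT 0) 1
  have t10 := congrFun (congrFun hT 1) 0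
  have t11 := congrFun (congrFun hT 1) 1
  simp only [Matrix.mul_apply, Fin.sum_univ_two, Par.Dm, Par.rz, Matrix.map_apply, Matrix.of_apply,
    Matrix.cons_val', Matrix.cons_val_zero, Matrix.cons_val_one, Matrix.cons_val_fin_one,
    mul_zero, zero_mul, add_zero, zero_add, mul_one, one_mul] at t00 t01 t10 t11
  have t0 : (Y₂ 0 0 : P.F) = Y₁ 0 0 := mul_right_cancel₀ hm (t00.trans (mul_comm _ _))
  have key : ∀ V : MZ, Rm V s₁ s₂ = 0 →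
      (P.m : P.F) * Y₁ 0 1 * V 1 0 = V 0 1 * Y₁ 1 0 ∧
      (Y₁ 0 1 : P.F) * (V 0 0 - P.m * V 1 1) = V 0 1 * (Y₁ 0 0 - Y₁ 1 1) ∧
      (Y₁ 1 0 : P.F) * (V 0 0 - P.m * V 1 1) = P.m * V 1 0 * (Y₁ 0 0 - Y₁ 1 1) := fun V hV => by
    have e := congrArg P.rz ((hc.comm_iff V).1 hV)
    rw [P.rz_mul, P.rz_mul] at e
    have e00 := congrFun (congrFun e 0) 0
    have e01 := congrFun (congrFun e 0) 1
    have e10 := congrFun (congrFun e 1) 0
    simp only [Matrix.mul_apply, Fin.sum_univ_two, Par.rz, Matrix.map_apply] at e00 e01 e10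
    rw [t0, t01] at e00 e01
    rw [t11] at e10
    exact ⟨by linear_combination e00, by linear_combination -e01,
      by linear_combination P.m * e10 - V 0 0 * t10⟩
  have inl : ∀ V : MZ, (V 0 1 : P.F) = 0 → (V 1 0 : P.F) = 0 →
      (V 0 0 : P.F) - P.m * V 1 1 = 0 → P.InL V := fun V h1 h2 h3 => by
    simp only [Par.InL, ← ZMod.intCast_zmod_eq_zero_iff_dvd]
    exact ⟨h1, h2, by push_cast; exact h3⟩
  by_cases a1 : (Y₁ 0 1 : P.F) = 0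
  · by_cases a2 : (Y₁ 1 0 : P.F) = 0
    · by_cases a3 : (Y₁ 0 0 : P.F) - Y₁ 1 1 = 0
      · exfalso
        rw [← Int.cast_sub] at a3
        rw [ZMod.intCast_zmod_eq_zero_iff_dvd] at a1 a2 a3
        obtain ⟨u, hu⟩ := a1
        obtain ⟨v, hv⟩ := a2
        obtain ⟨w, hw⟩ := a3
        have e : dsc Y₁ = (P.p : ℤ) ^ 2 * (-w ^ 2 - 4 * u * v) := by
          rw [dsc, Matrix.trace_fin_two, Matrix.det_fin_two, hu, hv, sub_eq_iff_eq_add.1 hw]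
          ring
        exact absurd (Int.le_of_dvd hc.dsc_pos ⟨_, e⟩) (not_le.2 hD)
      · refine ⟨fun W => W 0 0 - P.m * W 1 1, fun W W' hW hW' e => ?_⟩
        obtain ⟨-, k2, k3⟩ := key _ (rm0_sub hW hW')
        have e' : ((W - W') 0 0 : P.F) - P.m * (W - W') 1 1 = 0 := by
          simp only [Matrix.sub_apply, Int.cast_sub]
          linear_combination e
        rw [e', mul_zero] at k2 k3
        exact inl _ ((mul_eq_zero.1 k2.symm).resolve_right a3)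
          ((mul_eq_zero.1 ((mul_eq_zero.1 k3.symm).resolve_right a3)).resolve_left hm) e'
    · refine ⟨fun W => W 1 0, fun W W' hW hW' e => ?_⟩
      obtain ⟨k1, -, k3⟩ := key _ (rm0_sub hW hW')
      have e' : ((W - W') 1 0 : P.F) = 0 := by
        simp only [Matrix.sub_apply, Int.cast_sub]
        exact sub_eq_zero.2 e
      rw [e', mul_zero] at k1
      rw [e', mul_zero, zero_mul] at k3
      exact inl _ ((mul_eq_zero.1 k1.symm).resolve_right a2) e' ((mul_eq_zero.1 k3).resolve_left a2)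
  · refine ⟨fun W => W 0 1, fun W W' hW hW' e => ?_⟩
    obtain ⟨k1, k2, -⟩ := key _ (rm0_sub hW hW')
    have e' : ((W - W') 0 1 : P.F) = 0 := by
      simp only [Matrix.sub_apply, Int.cast_sub]
      exact sub_eq_zero.2 e
    rw [e', zero_mul] at k1 k2
    exact inl _ e' ((mul_eq_zero.1 k1).resolve_left (mul_ne_zero hm a1))
      ((mul_eq_zero.1 k2).resolve_left a1)

end

end Pool.Agent.P.MP_a60a76_nt.Sz
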