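import Pool.Agent.P.MP_a60a76_nt.Sz.Rank

namespace Pool.Agent.P.MP_a60a76_nt.Sz

open UpperHalfPlane MeasureTheory SP
open scoped MatrixGroups UpperHalfPlane Matrix Modular Topology Classical ArithmeticFunction.sigma

noncomputable section

/-! A series orthogonal to all input forms is modular. -/

theorem Dual_hol_add {f g : ℍ → ℂ} (hf : Hol f) (hg : Hol g) : Hol fun τ => f τ + g τ :=
  DifferentiableOn.add hf hg

theorem Dual_hol_sub {f g : ℍ → ℂ} (hf : Hol f) (hg : Hol g) : Hol fun τ => f τ - g τ :=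
  DifferentiableOn.sub hf hg

theorem Dual_hol_mul {f g : ℍ → ℂ} (hf : Hol f) (hg : Hol g) : Hol fun τ => f τ * g τ :=
  DifferentiableOn.mul hf hg

theorem Dual_hol_const (a : ℂ) : Hol fun _ => a := differentiableOn_const a

theorem Dual_hol_sq : Hol fun τ => (τ : ℂ) ^ (2 : ℤ) := by
  have h : DifferentiableOn ℂ (fun z : ℂ => z ^ 2) {z : ℂ | 0 < z.im} := by fun_prop
  refine h.congr fun z hz => ?_
  rw [Function.comp_apply, ofComplex_apply_of_im_pos hz, zpow_ofNat]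

theorem Dual_hol_M (P : Par) {f : P.D → ℍ → ℂ} (hf : ∀ k, Hol (f k)) (k : P.D) :
    Hol fun τ => P.M (fun k' => f k' τ) k := by
  refine Dual_hol_mul (Dual_hol_const _) ?_
  exact DifferentiableOn.fun_sum (u := Finset.univ) fun k' _ =>
    Dual_hol_mul (Dual_hol_const (P.psi (k * k' * (2 * (P.m : P.D))⁻¹))) (hf k')

/-- The pairing with an input form has weight two. -/
theorem Dual_wt (P : Par) {ρ : P.D → ℤ → ℂ} {φ : P.D → ℍ → ℂ}
    (hq : ∀ k, QS (P.p ^ 2) (ρ k) (φ k)) (hs : ∀ k ν, ρ k ν ≠ 0 → (ν : P.D) = P.Q k)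
    (h : ∀ c, P.IsF 0 c → CT 1 (P.pr c φ) = 0) {c : P.D → ℤ → ℤ} (hc : P.IsF 0 c) :
    Wt 2 (P.pr c φ) := by
  choose L hL using fun k => (hq k).low
  obtain ⟨L₀, hL₀⟩ := (Set.finite_range L).bddBelow
  obtain ⟨b, hb⟩ := (hc.ct_pr hq hs (L := L₀)
    (fun k ν hν => hL k ν (hν.trans_le (hL₀ ⟨k, rfl⟩))) le_rfl one_pos).1
  refine wt_two_of_ct hb fun m => ?_
  obtain ⟨c', hc', e⟩ := hc.mul_J m
  rw [← h c' hc']
  congr 1
  funext τ
  simp only [Par.pr, e, Finset.mul_sum, mul_assoc]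

theorem Par.dual (P : Par) {ρ : P.D → ℤ → ℂ} {φ : P.D → ℍ → ℂ}
    (hq : ∀ k, QS (P.p ^ 2) (ρ k) (φ k)) (hs : ∀ k ν, ρ k ν ≠ 0 → (ν : P.D) = P.Q k)
    (h : ∀ c, P.IsF 0 c → CT 1 (P.pr c φ) = 0) {w : P.D → ℂ} (he : ∀ k, w (-k) = w k)
    (hw : P.M w = w) : ∑ k, w k * φ k UpperHalfPlane.I = 0 := by
  have hN : 0 < P.p ^ 2 := pow_pos P.prime.pos 2
  have hφ : ∀ k, Hol (φ k) := fun k => (hq k).hol hN
  set ψ : P.D → ℍ → ℂ := fun k τ =>
    P.M (fun k' => φ k' (ModularGroup.S • τ)) k - (τ : ℂ) ^ (2 : ℤ) * φ k τ with hψ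
  have h1 : ∀ k, Hol (ψ k) := fun k =>
    Dual_hol_sub (Dual_hol_M P (fun k' => poly_hol_smul (hφ k') ModularGroup.S) k)
      (Dual_hol_mul Dual_hol_sq (hφ k))
  have h2 : ∀ c, P.IsF 0 c → ∀ τ, ∑ k, P.fn c k τ * ψ k τ = 0 := by
    intro c hc τ
    have h3 := (Dual_wt P hq hs h hc).inv τ
    simp only [Par.pr, hc.inv, zpow_zero, one_mul] at h3
    rw [P.sum_M_mul, Finset.mul_sum] at h3
    rw [← sub_eq_zero.2 h3, ← Finset.sum_sub_distrib]
    exact Finset.sum_congr rfl fun k _ => by simp only [hψ]; ring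
  have hneg : ∀ (x y : P.D → ℂ), (∀ k, x (-k) = x k) → ∑ k, x k * y (-k) = ∑ k, x k * y k := by
    intro x y hx
    rw [← Equiv.sum_comp (Equiv.neg P.D)]
    simp only [Equiv.neg_apply, neg_neg, hx]
  have h4 := P.full_rank (χ := fun k τ => ψ k τ + ψ (-k) τ)
    (fun k => Dual_hol_add (h1 k) (h1 (-k))) (fun k τ => by rw [neg_neg, add_comm])
    (fun c hc τ => by
      simp only [Par.pr, mul_add, Finset.sum_add_distrib]
      rw [hneg (fun k => P.fn c k τ) (fun k => ψ k τ) fun k => hc.fn_neg k τ, h2 c hc τ, add_zero])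
  have h5 : ∑ k, w k * ψ k UpperHalfPlane.I = 2 * ∑ k, w k * φ k UpperHalfPlane.I := by
    have h6 := P.sum_M_mul w fun k => φ k UpperHalfPlane.I
    rw [hw] at h6
    simp only [hψ, S_smul_I, coe_I, zpow_ofNat, Complex.I_sq, mul_sub, Finset.sum_sub_distrib]
    rw [← h6]
    simp only [neg_mul, one_mul, mul_neg, Finset.sum_neg_distrib]
    ring
  have h7 : ∑ k, w k * (ψ k UpperHalfPlane.I + ψ (-k) UpperHalfPlane.I) = 0 :=
    Finset.sum_eq_zero fun k _ => by rw [h4 k UpperHalfPlane.I, mul_zero]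
  simp only [mul_add, Finset.sum_add_distrib] at h7
  rw [hneg w (fun k => ψ k UpperHalfPlane.I) he, h5] at h7
  linear_combination h7 / 4

end

end Pool.Agent.P.MP_a60a76_nt.Sz
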