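import Pool.Agent.P.MP_a60a76_nt.Sz.Base

namespace Pool.Agent.P.MP_a60a76_nt.Sz

open UpperHalfPlane MeasureTheory SP
open scoped MatrixGroups UpperHalfPlane Matrix Modular Topology Classical ArithmeticFunction.sigma

noncomputable section

/-! Two extension lemmas for additive functionals. -/

theorem Riesz_cof {G ι : Type} [AddCommGroup G] (π : G →+ (ι →₀ ℝ))
    (h2 : ∀ i, ∃ F, 0 ≤ π F ∧ 0 < π F i) (y : ι →₀ ℝ) : ∃ H, y ≤ π H := by
  induction y using Finsupp.induction_linear with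
  | zero => exact ⟨0, (map_zero π).ge⟩
  | add x y hx hy =>
    obtain ⟨A, hA⟩ := hx
    obtain ⟨B, hB⟩ := hy
    exact ⟨A + B, (add_le_add hA hB).trans (map_add π A B).ge⟩
  | single i c =>
    obtain ⟨F, h0, hi⟩ := h2 i
    obtain ⟨n, hn⟩ := exists_nat_ge (c / π F i)
    refine ⟨n • F, fun j => ?_⟩
    rw [map_nsmul, Finsupp.smul_apply, nsmul_eq_mul, Finsupp.single_apply]
    split_ifs with h
    · exact h ▸ (div_le_iff₀ hi).1 hn
    · exact mul_nonneg n.cast_nonneg (h0 j)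

theorem Riesz_fract (a x : ℝ) : a * x ≤ ⌊a⌋ * x + |x| ∧ ⌊a⌋ * x ≤ a * x + |x| := by
  have h1 := Int.floor_le a
  have h2 := (Int.lt_floor_add_one a).le
  have h3 := le_abs_self x
  have h4 := neg_abs_le x
  have h5 := abs_nonneg x
  constructor <;> nlinarith

theorem Riesz_approx {G ι : Type} [AddCommGroup G] (π : G →+ (ι →₀ ℝ)) (Λ : G →+ ℝ) (w : G →₀ ℝ) :
    ∃ (y : ι →₀ ℝ) (C : ℝ), ∀ n : ℕ, ∃ F : G,
      (n : ℝ) • Finsupp.linearCombination ℝ π w ≤ π F + y ∧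
        Λ F ≤ n * Finsupp.linearCombination ℝ Λ w + C := by
  induction w using Finsupp.induction_linear with
  | zero => exact ⟨0, 0, fun n => ⟨0, by simp, by simp⟩⟩
  | add x y hx hy =>
    obtain ⟨a, A, hA⟩ := hx
    obtain ⟨b, B, hB⟩ := hy
    refine ⟨a + b, A + B, fun n => ?_⟩
    obtain ⟨F, h1, h2⟩ := hA n
    obtain ⟨F', h3, h4⟩ := hB n
    refine ⟨F + F', ?_, ?_⟩
    · rw [map_add, map_add, smul_add, add_add_add_comm]
      exact add_le_add h1 h3
    · rw [map_add, map_add]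
      linarith
  | single g c =>
    refine ⟨(π g).mapRange abs abs_zero, |Λ g|, fun n => ⟨⌊n * c⌋ • g, fun j => ?_, ?_⟩⟩
    · simpa [mul_assoc] using (Riesz_fract (n * c) (π g j)).1
    · simpa [mul_assoc] using (Riesz_fract (n * c) (Λ g)).2

theorem riesz {G ι : Type} [AddCommGroup G] (π : G →+ (ι →₀ ℝ)) (Λ : G →+ ℝ)
    (h1 : ∀ F, 0 ≤ π F → 0 ≤ Λ F) (h2 : ∀ i, ∃ F, 0 ≤ π F ∧ 0 < π F i) :
    ∃ b : ι → ℝ, (∀ i, 0 ≤ b i) ∧ ∀ F, Λ F = (π F).sum fun i x => x * b i := by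
  have hpos : ∀ w : G →₀ ℝ, 0 ≤ Finsupp.linearCombination ℝ π w →
      0 ≤ Finsupp.linearCombination ℝ Λ w := fun w hw => by
    obtain ⟨y, C, h⟩ := Riesz_approx π Λ w
    obtain ⟨H, hH⟩ := Riesz_cof π h2 y
    by_contra hn
    rw [not_le] at hn
    obtain ⟨n, h3⟩ := exists_nat_gt ((C + Λ H) / -Finsupp.linearCombination ℝ Λ w)
    obtain ⟨F, h4, h5⟩ := h n
    have h6 := h1 (F + H) (((smul_nonneg n.cast_nonneg hw).trans h4).trans
      ((add_le_add_right hH _).trans (map_add π F H).ge))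
    rw [div_lt_iff₀ (neg_pos.2 hn)] at h3
    rw [map_add] at h6
    linarith
  obtain ⟨g₀, hg₀⟩ : Finsupp.linearCombination ℝ Λ ∈
      LinearMap.range (Finsupp.linearCombination ℝ π).dualMap := by
    rw [LinearMap.range_dualMap_eq_dualAnnihilator_ker, Submodule.mem_dualAnnihilator]
    intro w hw
    have h3 := hpos (-w) (by rw [map_neg, LinearMap.mem_ker.1 hw, neg_zero])
    rw [map_neg] at h3
    exact le_antisymm (neg_nonneg.1 h3) (hpos w (LinearMap.mem_ker.1 hw).ge)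
  have h3 : ∀ F, Finsupp.linearCombination ℝ π (Finsupp.single F 1) = π F := fun F => by simp
  obtain ⟨g, hg, hg'⟩ := riesz_extension (PointedCone.positive ℝ (ι →₀ ℝ))
    (g₀.toPMap (LinearMap.range (Finsupp.linearCombination ℝ π)))
    (by
      rintro ⟨_, w, rfl⟩ hw
      exact (hpos w hw).trans (LinearMap.congr_fun hg₀ w).ge)
    fun y => by
      obtain ⟨H, hH⟩ := Riesz_cof π h2 (-y)
      exact ⟨⟨π H, _, h3 H⟩, neg_le_iff_add_nonneg.1 hH⟩
  refine ⟨fun i => g (Finsupp.single i 1),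
    fun i => hg' _ (Finsupp.single_nonneg.2 zero_le_one), fun F => ?_⟩
  have h4 : g (π F) = Λ F := by
    have h5 := LinearMap.congr_fun hg₀ (Finsupp.single F 1)
    rw [LinearMap.dualMap_apply, h3] at h5
    exact (hg ⟨π F, _, h3 F⟩).trans (h5.trans (by simp))
  rw [← h4]
  conv_lhs => rw [← Finsupp.sum_single (π F), map_finsuppSum]
  exact Finsupp.sum_congr fun i _ => by
    rw [← smul_eq_mul, ← map_smul, Finsupp.smul_single_one]

theorem extend_const {G ι : Type} [AddCommGroup G] [Fintype ι] (γ : G →+ (ι → ℤ)) (Λ : G →+ ℝ)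
    (v : ι → ℤ) (i₀ : ι) (hv : v i₀ = -1) (h₀ : ℝ)
    (h : ∀ (F : G) (t : ℤ), γ F = t • v → Λ F = t * h₀) :
    ∃ b : ι → ℝ, (∀ F, Λ F = ∑ i, γ F i * b i) ∧ ∑ i, v i * b i = h₀ := by
  let γ' : G × ℤ →+ (ι → ℤ) := γ.coprod (zmultiplesHom _ (-v))
  let Λ' : G × ℤ →+ ℝ := Λ.coprod (zmultiplesHom _ (-h₀))
  have hk : γ'.rangeRestrict.ker ≤ Λ'.ker := by
    rintro ⟨F, t⟩ hF
    have h1 : γ F + t • -v = 0 := congrArg Subtype.val hF
    have h2 := h F t (by rwa [smul_neg, add_neg_eq_zero] at h1)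
    change Λ F + t • -h₀ = 0
    rw [h2, zsmul_eq_mul, mul_neg, add_neg_cancel]
  obtain ⟨B, hB⟩ := (Module.Baer.of_divisible ℝ).extension_property_addMonoidHom
    γ'.range.subtype Subtype.val_injective
    (γ'.rangeRestrict.liftOfSurjective γ'.rangeRestrict_surjective ⟨Λ', hk⟩)
  have h1 : ∀ x, B (γ' x) = Λ' x := fun x =>
    (DFunLike.congr_fun hB (γ'.rangeRestrict x)).trans
      (AddMonoidHom.liftOfRightInverse_comp_apply _ _ _ _ x)
  have h2 : ∀ x : ι → ℤ, B x = ∑ i, x i * B (Pi.single i 1) := fun x => by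
    conv_lhs => rw [← Finset.univ_sum_single x, map_sum]
    exact Finset.sum_congr rfl fun i _ => by
      rw [← zsmul_eq_mul, ← map_zsmul, ← Pi.single_smul, smul_eq_mul, mul_one]
  refine ⟨fun i => B (Pi.single i 1), fun F => ?_, ?_⟩
  · rw [← h2]
    simpa [γ', Λ'] using (h1 (F, 0)).symm
  · rw [← h2]
    simpa [γ', Λ'] using h1 (0, 1)

end

end Pool.Agent.P.MP_a60a76_nt.Sz
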