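import Pool.Agent.P.MP_a60a76_nt.Sz.Dual
import Pool.Agent.P.MP_a60a76_nt.Sz.Riesz

namespace Pool.Agent.P.MP_a60a76_nt.Sz

open UpperHalfPlane MeasureTheory SP
open scoped MatrixGroups UpperHalfPlane Matrix Modular Topology Classical ArithmeticFunction.sigma

noncomputable section

/-! The inequality obtained from duality. -/

/-- Subexponential growth of `f` in terms of `d` on the set `S`. -/
def Grow_Sub {ι : Type} (S : ι → Prop) (f d : ι → ℝ) : Prop :=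
  ∀ η : ℝ, 0 < η → ∃ C : ℝ, 0 ≤ C ∧ ∀ i, S i → |f i| ≤ C * Real.exp (η * d i)

section Sub

variable {ι κ : Type} {S : ι → Prop} {f g d : ι → ℝ}

theorem Grow_add (hf : Grow_Sub S f d) (hg : Grow_Sub S g d) :
    Grow_Sub S (fun i => f i + g i) d := fun η hη => by
  obtain ⟨C, hC, h⟩ := hf η hη
  obtain ⟨C', hC', h'⟩ := hg η hη
  refine ⟨C + C', add_nonneg hC hC', fun i hi => (abs_add_le _ _).trans ?_⟩
  rw [add_mul]
  exact add_le_add (h i hi) (h' i hi)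

theorem Grow_mul (hf : Grow_Sub S f d) (hg : Grow_Sub S g d) :
    Grow_Sub S (fun i => f i * g i) d := fun η hη => by
  obtain ⟨C, hC, h⟩ := hf (η / 2) (half_pos hη)
  obtain ⟨C', hC', h'⟩ := hg (η / 2) (half_pos hη)
  refine ⟨C * C', mul_nonneg hC hC', fun i hi => ?_⟩
  have e : Real.exp (η * d i) = Real.exp (η / 2 * d i) * Real.exp (η / 2 * d i) := by
    rw [← Real.exp_add]
    congr 1
    ring
  rw [abs_mul, e, mul_mul_mul_comm]
  exact mul_le_mul (h i hi) (h' i hi) (abs_nonneg _) (by positivity)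

theorem Grow_of_le (hg : Grow_Sub S g d) (h : ∀ i, S i → |f i| ≤ |g i|) : Grow_Sub S f d :=
  fun η hη => by
    obtain ⟨C, hC, h'⟩ := hg η hη
    exact ⟨C, hC, fun i hi => (h i hi).trans (h' i hi)⟩

theorem Grow_const (hd : ∀ i, S i → 0 ≤ d i) (a : ℝ) : Grow_Sub S (fun _ => a) d := fun _ hη =>
  ⟨|a|, abs_nonneg a, fun i hi => le_mul_of_one_le_right (abs_nonneg a)
    (Real.one_le_exp (mul_nonneg hη.le (hd i hi)))⟩

theorem Grow_self (hd : ∀ i, S i → 0 ≤ d i) : Grow_Sub S d d := fun η hη => by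
  refine ⟨η⁻¹, (inv_pos.2 hη).le, fun i hi => ?_⟩
  rw [abs_of_nonneg (hd i hi), le_inv_mul_iff₀ hη]
  linarith [Real.add_one_le_exp (η * d i)]

theorem Grow_pow (hd : ∀ i, S i → 0 ≤ d i) (hf : Grow_Sub S f d) (n : ℕ) :
    Grow_Sub S (fun i => f i ^ n) d := by
  induction n with
  | zero => simpa using Grow_const hd 1
  | succ n ih => simpa [pow_succ] using Grow_mul ih hf

theorem Grow_poly (hd : ∀ i, S i → 0 ≤ d i) (C α β : ℝ) (n : ℕ) :
    Grow_Sub S (fun i => C * (α + β * d i) ^ n) d :=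
  Grow_mul (Grow_const hd C) (Grow_pow hd
    (Grow_add (Grow_const hd α) (Grow_mul (Grow_const hd β) (Grow_self hd))) n)

theorem Grow_comp (hf : Grow_Sub S f d) {S' : κ → Prop} {d' : κ → ℝ} (φ : κ → ι) {α β : ℝ}
    (hα : 0 < α) (h : ∀ j, S' j → S (φ j) ∧ d (φ j) ≤ α * d' j + β) :
    Grow_Sub S' (fun j => f (φ j)) d' := fun η hη => by
  obtain ⟨C, hC, h'⟩ := hf (η / α) (div_pos hη hα)
  refine ⟨C * Real.exp (η / α * β), by positivity, fun j hj => (h' _ (h j hj).1).trans ?_⟩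
  rw [mul_assoc, ← Real.exp_add]
  refine mul_le_mul_of_nonneg_left (Real.exp_le_exp.2 ?_) hC
  have h1 := mul_le_mul_of_nonneg_left (h j hj).2 (div_pos hη hα).le
  have h2 : η / α * (α * d' j + β) = η / α * β + η * d' j := by
    field_simp
    ring
  linarith

theorem Grow_sum {s : ι → Finset κ} {F : ι → κ → ℝ}
    (hF : Grow_Sub (fun x : ι × κ => S x.1 ∧ x.2 ∈ s x.1) (fun x => F x.1 x.2) fun x => d x.1)
    (hs : Grow_Sub S (fun i => ((s i).card : ℝ)) d) :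
    Grow_Sub S (fun i => ∑ j ∈ s i, F i j) d := fun η hη => by
  obtain ⟨C, hC, h⟩ := hF (η / 2) (half_pos hη)
  obtain ⟨C', hC', h'⟩ := hs (η / 2) (half_pos hη)
  refine ⟨C' * C, mul_nonneg hC' hC, fun i hi => (Finset.abs_sum_le_sum_abs _ _).trans ?_⟩
  have e : Real.exp (η * d i) = Real.exp (η / 2 * d i) * Real.exp (η / 2 * d i) := by
    rw [← Real.exp_add]
    congr 1
    ring
  refine (Finset.sum_le_card_nsmul _ _ (C * Real.exp (η / 2 * d i))
    fun j hj => h (i, j) ⟨hi, hj⟩).trans ?_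
  rw [nsmul_eq_mul, e, mul_mul_mul_comm]
  exact mul_le_mul_of_nonneg_right ((le_abs_self _).trans (h' i hi)) (by positivity)

theorem Grow_fin [Fintype κ] {F : κ → ι → ℝ} (hF : ∀ k, Grow_Sub S (F k) d) :
    Grow_Sub (fun x : κ × ι => S x.2) (fun x => F x.1 x.2) fun x => d x.2 := fun η hη => by
  choose C hC h using fun k => hF k η hη
  refine ⟨∑ k, C k, Finset.sum_nonneg fun k _ => hC k, fun x hx => (h x.1 x.2 hx).trans ?_⟩
  exact mul_le_mul_of_nonneg_right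
    (Finset.single_le_sum (fun k _ => hC k) (Finset.mem_univ x.1)) (Real.exp_pos _).le

end Sub

theorem Grow_qs {N : ℕ} (hN : 0 < N) {s : ℤ → ℝ} {L : ℤ} (hL : ∀ ν < L, s ν = 0)
    (hs : Grow_Sub (fun ν : ℤ => 0 ≤ ν) s fun ν => ν) :
    QS N (fun ν => (s ν : ℂ)) fun τ => ∑' ν : ℤ, (s ν : ℂ) * ee (ν * τ / N) :=
  QS.of_subexp hN ⟨L, fun ν hν => by rw [hL ν hν, Complex.ofReal_zero]⟩ fun η hη => by
    obtain ⟨C, -, h⟩ := hs η hη
    exact ⟨C, fun ν hν => by simpa using h ν hν⟩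

theorem Grow_at_I {N : ℕ} {c : ℤ → ℂ} {f : ℍ → ℂ} (h : QS N c f) :
    HasSum (fun ν : ℤ => (c ν).re * Real.exp (-(2 * Real.pi * ν / N)))
      (f UpperHalfPlane.I).re := by
  have h1 := Complex.hasSum_re (h.sum UpperHalfPlane.I)
  refine h1.congr_fun fun ν => ?_
  have e : ee (ν * (UpperHalfPlane.I : ℂ) / N) = (Real.exp (-(2 * Real.pi * ν / N)) : ℝ) := by
    rw [ee, Complex.ofReal_exp, coe_I]
    congr 1
    push_cast
    linear_combination (2 * Real.pi * ν / N : ℂ) * Complex.I_mul_I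
  rw [e, Complex.re_mul_ofReal]

theorem Grow_to_nat {s : ℤ → ℝ} {x : ℝ} (h : HasSum s x) (h0 : ∀ ν ≤ 0, s ν = 0) :
    HasSum (fun n : ℕ => s (n + 1)) x := by
  have hinj : Function.Injective fun n : ℕ => (n : ℤ) + 1 := fun a b hab => by
    simpa using hab
  refine (hinj.hasSum_iff fun ν hν => h0 ν ?_).2 h
  by_contra h1
  exact hν ⟨(ν - 1).toNat, by simp only; omega⟩

namespace Par

variable {P : Par} {c c' : P.D → ℤ → ℤ}

/-- The group of input forms. -/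
def Grow_G (P : Par) : AddSubgroup (P.D → ℤ → ℤ) where
  carrier := {c | P.IsF 0 c}
  add_mem' := fun h h' => (IsF.add h h').1
  zero_mem' := (isF_zero 0).1
  neg_mem' := fun h => by simpa using (IsF.zsmul h (-1)).1

/-- The group of normalised input forms. -/
def Grow_G0 (P : Par) : AddSubgroup (P.D → ℤ → ℤ) where
  carrier := {c | P.IsF0 c}
  add_mem' := fun h h' => (IsF0.add h h').1
  zero_mem' := ⟨(isF_zero 0).1, rfl, fun _ _ => by simp [cp]⟩
  neg_mem' := fun h => by simpa using (IsF0.zsmul h (-1)).1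

/-- The truncated pairing. -/
def Grow_pr (c : P.D → ℤ → ℤ) (s : P.D → ℤ → ℝ) (L : ℕ) : ℝ :=
  ∑ k, ∑ ν ∈ Finset.Icc (-(P.p ^ 2 : ℤ)) L, (c k (-ν) : ℝ) * s k ν

theorem Grow_pr_add (c : P.D → ℤ → ℤ) (s s' : P.D → ℤ → ℝ) (L : ℕ) :
    Grow_pr c (fun k ν => s k ν + s' k ν) L = Grow_pr c s L + Grow_pr c s' L := by
  simp only [Grow_pr, mul_add, Finset.sum_add_distrib]

theorem Grow_pr_add_left (c c' : P.D → ℤ → ℤ) (s : P.D → ℤ → ℝ) (L : ℕ) :
    Grow_pr (c + c') s L = Grow_pr c s L + Grow_pr c' s L := by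
  simp only [Grow_pr, Pi.add_apply, Int.cast_add, add_mul, Finset.sum_add_distrib]

theorem Grow_ct (h : P.IsF 0 c) {ρ : P.D → ℤ → ℂ} {r : P.D → ℍ → ℂ}
    (hq : ∀ k, QS (P.p ^ 2) (ρ k) (r k)) (hs : ∀ k ν, ρ k ν ≠ 0 → (ν : P.D) = P.Q k)
    (hl : ∀ k, ∀ ν < -(P.p ^ 2 : ℤ), ρ k ν = 0) {L : ℕ} (hL : P.lo c ≤ L) :
    (CT 1 (P.pr c r)).re = Grow_pr c (fun k ν => (ρ k ν).re) L := by
  rw [(h.ct_pr hq hs hl (L' := L) (by exact_mod_cast hL) one_pos).2, Grow_pr]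
  simp [Complex.re_sum]

theorem Grow_pp (h : P.IsF 0 c) {s : P.D → ℤ → ℝ} (hs : ∀ k, ∀ ν ≤ 0, s k ν = 0) {L : ℕ}
    (hL : P.lo c ≤ L) : P.pp c s = Grow_pr c s L := by
  rw [pp_eq h s hL, Grow_pr]
  refine Finset.sum_congr rfl fun k _ => Finset.sum_subset (Finset.Icc_subset_Icc_left ?_) ?_
  · have : (0 : ℤ) ≤ P.p ^ 2 := by positivity
    omega
  · intro ν h1 h2
    rw [Finset.mem_Icc] at h1 h2
    rw [hs k ν (by omega), mul_zero]

theorem Grow_pp_add (h : P.IsF 0 c) (h' : P.IsF 0 c') (s : P.D → ℤ → ℝ) :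
    P.pp (c + c') s = P.pp c s + P.pp c' s := by
  rw [pp_eq (h.add h').1 s (L := P.lo c + P.lo c' + P.lo (c + c')) (by omega),
    pp_eq h s (L := P.lo c + P.lo c' + P.lo (c + c')) (by omega),
    pp_eq h' s (L := P.lo c + P.lo c' + P.lo (c + c')) (by omega)]
  simp only [Pi.add_apply, Int.cast_add, add_mul, Finset.sum_add_distrib]

theorem Grow_ct_add (h : P.IsF 0 c) (h' : P.IsF 0 c') {ρ : P.D → ℤ → ℂ} {r : P.D → ℍ → ℂ}
    (hq : ∀ k, QS (P.p ^ 2) (ρ k) (r k)) (hs : ∀ k ν, ρ k ν ≠ 0 → (ν : P.D) = P.Q k)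
    (hl : ∀ k, ∀ ν < -(P.p ^ 2 : ℤ), ρ k ν = 0) :
    (CT 1 (P.pr (c + c') r)).re = (CT 1 (P.pr c r)).re + (CT 1 (P.pr c' r)).re := by
  rw [Grow_ct (h.add h').1 hq hs hl (L := P.lo c + P.lo c' + P.lo (c + c')) (by omega),
    Grow_ct h hq hs hl (L := P.lo c + P.lo c' + P.lo (c + c')) (by omega),
    Grow_ct h' hq hs hl (L := P.lo c + P.lo c' + P.lo (c + c')) (by omega), Grow_pr_add_left]

/-- First extension step. -/
theorem Grow_riesz (Λ : P.Grow_G0 →+ ℝ) (h : ∀ F : P.Grow_G0, P.Pos F → 0 ≤ Λ F) :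
    ∃ B : P.D → ℤ → ℝ, (∀ k ν, 0 ≤ B k ν) ∧ (∀ k ν, B k ν ≠ 0 → 0 < ν ∧ (ν : P.D) = P.Q k) ∧
      ∀ F : P.Grow_G0, Λ F = P.pp F B := by
  let q : P.D × ℤ → Prop := fun x => 0 < x.2 ∧ (x.2 : P.D) = P.Q x.1
  let s : P.Grow_G0 → Finset (Subtype q) := fun F =>
    (Finset.univ ×ˢ Finset.Icc (1 : ℤ) (P.lo F)).subtype q
  have hs : ∀ (F : P.Grow_G0) (i : Subtype q), (F.1 i.1.1 (-i.1.2) : ℝ) ≠ 0 → i ∈ s F := by
    intro F i hi
    have hF : P.IsF0 F := F.2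
    rw [Finset.mem_subtype, Finset.mem_product, Finset.mem_Icc]
    refine ⟨Finset.mem_univ _, i.2.1, ?_⟩
    by_contra h1
    exact hi (by rw [hF.toIsF.lo_spec _ _ (by omega), Int.cast_zero])
  let π : P.Grow_G0 →+ (Subtype q →₀ ℝ) := AddMonoidHom.mk'
    (fun F => Finsupp.onFinset (s F) (fun i => (F.1 i.1.1 (-i.1.2) : ℝ)) (hs F)) (by
      intro F F'
      ext i
      simp)
  have hπ : ∀ (F : P.Grow_G0) (i : Subtype q), π F i = (F.1 i.1.1 (-i.1.2) : ℝ) := fun _ _ => rfl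
  have hpos : ∀ F : P.Grow_G0, 0 ≤ π F ↔ P.Pos F := by
    intro F
    have hF : P.IsF0 F := F.2
    constructor
    · intro h0 k ν hν
      by_cases h1 : F.1 k ν = 0
      · exact h1.ge
      · have h2 := h0 ⟨(k, -ν), by omega, by
          rw [Int.cast_neg, hF.supp k ν h1, neg_neg]⟩
        rw [hπ] at h2
        simpa using h2
    · intro h0 i
      rw [hπ]
      have := h0 i.1.1 (-i.1.2) (by have := i.2.1; omega)
      simpa using this
  obtain ⟨b, hb0, hb⟩ := riesz π Λ (fun F hF => h F ((hpos F).1 hF)) (fun i => by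
    obtain ⟨c, h1, h2, h3⟩ := P.cofinal i.1.1 i.1.2 i.2.1 i.2.2
    exact ⟨⟨c, h1⟩, (hpos _).2 h2, by rw [hπ]; exact_mod_cast h3⟩)
  refine ⟨fun k ν => if h : q (k, ν) then b ⟨(k, ν), h⟩ else 0, fun k ν => ?_, fun k ν h1 => ?_,
    fun F => ?_⟩
  · simp only
    split_ifs
    · exact hb0 _
    · exact le_rfl
  · by_contra h2
    exact h1 (dif_neg h2)
  · rw [hb F, Finsupp.sum_of_support_subset (π F) (s := s F)
      (fun i hi => hs F i (Finsupp.mem_support_iff.1 hi)) (fun i x => x * b i) (fun i _ => zero_mul _), pp, ← Finset.sum_product']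
    have e : ∀ i : Subtype q, π F i * b i = (fun x : P.D × ℤ =>
        (F.1 x.1 (-x.2) : ℝ) * if h : q (x.1, x.2) then b ⟨(x.1, x.2), h⟩ else 0) i := fun i => by
      simp only
      rw [hπ, dif_pos i.2]
    simp only [e]
    rw [Finset.sum_subtype_eq_sum_filter (fun x : P.D × ℤ =>
      (F.1 x.1 (-x.2) : ℝ) * if h : q (x.1, x.2) then b ⟨(x.1, x.2), h⟩ else 0)]
    refine Finset.sum_filter_of_ne fun x _ hx => ?_
    by_contra h1
    exact hx (by rw [dif_neg h1, mul_zero])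

/-- Second extension step. -/
theorem Grow_const_term (Λ : P.Grow_G →+ ℝ) {h₀ : ℝ}
    (h : ∀ F : P.Grow_G, P.IsF0 F → Λ F = P.cp F * h₀) :
    ∃ B : P.D → ℝ, (∀ k, P.rd k ≠ 0 → B k = 0) ∧
      (∀ F : P.Grow_G, Λ F + ∑ k, (F.1 k 0 : ℝ) * B k = 0) ∧
      B 0 = -Λ ⟨P.oneI, P.isF_oneI.1⟩ - h₀ := by
  let γ : P.Grow_G →+ (P.F → ℤ) := AddMonoidHom.mk' (fun F z => F.1 (P.up z) 0) fun _ _ => rfl
  obtain ⟨b, hb, hb'⟩ := extend_const γ Λ (fun z => if z = 0 then 0 else -1) 1 (by simp) h₀ (by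
    intro F t ht
    have h1 : ∀ z, F.1 (P.up z) 0 = t * if z = 0 then 0 else -1 := fun z => congrFun ht z
    have h2 : P.cp F = t := by simp [cp, h1]
    rw [h F ⟨F.2, by simpa [up_zero] using h1 0, fun z hz => by simp [h1, h2, hz]⟩, h2])
  have key : ∀ x : P.D → ℝ, ∑ k, x k * ∑ z, (if k = P.up z then -b z else 0) =
      -∑ z, x (P.up z) * b z := fun x => by
    simp only [Finset.mul_sum, mul_ite, mul_zero]
    rw [Finset.sum_comm]
    simp
  refine ⟨fun k => ∑ z, if k = P.up z then -b z else 0, fun k hk => ?_, fun F => ?_, ?_⟩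
  · exact Finset.sum_eq_zero fun z _ => if_neg fun h1 => hk (by rw [h1, rd_up])
  · rw [key, hb F]
    exact add_neg_cancel _
  · have h1 : ∀ z, (γ ⟨P.oneI, P.isF_oneI.1⟩ z : ℝ) = 1 := fun z => by
      change ((P.oneI (P.up z) 0 : ℤ) : ℝ) = 1
      simp [oneI, rd_up]
    have h2 : ∀ z : P.F, (0 = P.up z) ↔ z = 0 := fun z =>
      ⟨fun h => P.up_injective (h.symm.trans P.up_zero.symm), fun h => by rw [h, up_zero]⟩
    rw [hb, ← hb']
    simp only [h1, h2, one_mul]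
    rw [← Finset.sum_neg_distrib, ← Finset.sum_sub_distrib]
    refine Finset.sum_congr rfl fun z _ => ?_
    split_ifs <;> simp

/-- Growth of the nonnegative part. -/
theorem Grow_growth {s B : P.D → ℤ → ℝ}
    (hs : ∀ k, Grow_Sub (fun ν : ℤ => -(P.p ^ 2 : ℤ) ≤ ν) (s k) fun ν => ν + P.p ^ 2)
    (hB0 : ∀ k ν, 0 ≤ B k ν) (hB : ∀ k ν, B k ν ≠ 0 → 0 < ν ∧ (ν : P.D) = P.Q k)
    (h : ∀ c, P.IsF 0 c → ∀ L : ℕ, P.lo c ≤ L → Grow_pr c s L + Grow_pr c B L = 0) (k : P.D) :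
    Grow_Sub (fun ν : ℤ => 0 ≤ ν) (B k) fun ν => ν := by
  obtain ⟨A, b, c, hA, hc, -, hb⟩ := P.exists_pos_forms
  have hp : (0 : ℝ) < P.p ^ 2 := pow_pos P.p_pos 2
  have hp' : (0 : ℤ) < P.p ^ 2 := by exact_mod_cast hp
  obtain ⟨CA, hCA⟩ := hA.bound
  have hCA0 : 0 ≤ CA := by
    have h1 := hCA 0 0 le_rfl
    have h2 : (0 : ℝ) ≤ A 0 0 := by exact_mod_cast hA.nonneg 0 0
    simp at h1
    linarith
  have h1 : Grow_Sub (fun x : ℕ × P.D × ℤ => x.2.2 ≤ P.p ^ 2 * (x.1 + 1))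
      (fun x => (A x.2.1 x.2.2 : ℝ)) fun x => x.1 := by
    refine Grow_of_le (Grow_poly (fun x _ => Nat.cast_nonneg x.1) CA (1 + P.p ^ 2) (P.p ^ 2) 4)
      fun x hx => ?_
    by_cases h0 : x.2.2 < 0
    · rw [hA.neg _ _ h0]
      simp only [Int.cast_zero, abs_zero, abs_nonneg]
    · have h2 : (0 : ℝ) ≤ x.2.2 := by exact_mod_cast not_lt.1 h0
      have h3 : (x.2.2 : ℝ) ≤ P.p ^ 2 * (x.1 + 1) := by exact_mod_cast hx
      rw [abs_of_nonneg (by exact_mod_cast hA.nonneg _ _)]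
      refine (hCA _ _ (not_lt.1 h0)).trans (le_trans ?_ (le_abs_self _))
      exact mul_le_mul_of_nonneg_left (pow_le_pow_left₀ (by linarith) (by linarith) 4) hCA0
  have hb0 : Grow_Sub (fun n : ℕ => 1 ≤ n) (fun n => (b n 0 : ℝ)) fun n => n := fun η hη => by
    obtain ⟨C, hC⟩ := hb η hη
    exact ⟨|C|, abs_nonneg C, fun n hn => (hC n hn).1.trans
      (mul_le_mul_of_nonneg_right (le_abs_self C) (Real.exp_pos _).le)⟩
  have hb1 : Grow_Sub (fun n : ℕ => 1 ≤ n) (fun n => (b n 1 : ℝ)) fun n => n := fun η hη => by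
    obtain ⟨C, hC⟩ := hb η hη
    exact ⟨|C|, abs_nonneg C, fun n hn => (hC n hn).2.trans
      (mul_le_mul_of_nonneg_right (le_abs_self C) (Real.exp_pos _).le)⟩
  let I : ℕ → Finset (P.D × ℤ) := fun n =>
    Finset.univ ×ˢ Finset.Icc (-(P.p ^ 2 : ℤ)) (P.p ^ 2 * n : ℕ)
  have hI : ∀ (n : ℕ) (y : P.D × ℤ), y ∈ I n → -(P.p ^ 2 : ℤ) ≤ y.2 ∧ y.2 ≤ P.p ^ 2 * n := by
    intro n y hy
    have := Finset.mem_Icc.1 (Finset.mem_product.1 hy).2
    exact_mod_cast this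
  let S : ℕ × P.D × ℤ → Prop := fun x => 1 ≤ x.1 ∧ x.2 ∈ I x.1
  have hA' : ∀ φ : ℕ × P.D × ℤ → ℤ, (∀ x, S x → φ x ≤ P.p ^ 2 * (x.1 + 1)) →
      Grow_Sub S (fun x => (A x.2.1 (φ x) : ℝ)) fun x => x.1 := fun φ hφ =>
    Grow_comp h1 (fun x => (x.1, x.2.1, φ x)) one_pos (β := 0) fun x hx => ⟨hφ x hx, by simp⟩
  have h2 : Grow_Sub S (fun x => (c x.1 x.2.1 (-x.2.2) : ℝ)) fun x => x.1 := by
    refine Grow_of_le (Grow_add (Grow_add (hA' (fun x => -x.2.2 + P.p ^ 2 * x.1) fun x hx => ?_)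
      (Grow_mul (Grow_comp hb0 (fun x => x.1) one_pos (β := 0) fun x hx => ⟨hx.1, by simp⟩)
        (hA' (fun x => -x.2.2) fun x hx => ?_)))
      (Grow_mul (Grow_comp hb1 (fun x => x.1) one_pos (β := 0) fun x hx => ⟨hx.1, by simp⟩)
        (hA' (fun x => -x.2.2 - P.p ^ 2) fun x hx => ?_))) fun x hx => ?_
    · have := hI _ _ hx.2
      linarith
    · have := hI _ _ hx.2
      have : (0 : ℤ) ≤ P.p ^ 2 * x.1 := by positivity
      linarith
    · have := hI _ _ hx.2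
      have : (0 : ℤ) ≤ P.p ^ 2 * x.1 := by positivity
      linarith
    · have := hI _ _ hx.2
      rw [(hc x.1 hx.1).2 _ _ (by linarith)]
      push_cast
      exact le_rfl
  have h3 : Grow_Sub S (fun x => s x.2.1 x.2.2) fun x => x.1 :=
    Grow_comp (Grow_fin hs) (fun x : ℕ × P.D × ℤ => x.2) hp (β := P.p ^ 2) fun x hx => ⟨(hI _ _ hx.2).1, by
      have : (x.2.2 : ℝ) ≤ P.p ^ 2 * x.1 := by exact_mod_cast (hI _ _ hx.2).2
      simpa using this⟩
  have h4 : Grow_Sub (fun n : ℕ => 1 ≤ n) (fun n => ((I n).card : ℝ)) fun n => n := by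
    refine Grow_of_le (Grow_poly (fun n _ => Nat.cast_nonneg n) (Fintype.card P.D)
      (1 + P.p ^ 2) (P.p ^ 2) 1) fun n _ => le_of_eq ?_
    congr 1
    have e : ((P.p ^ 2 * n : ℕ) : ℤ) + 1 - -(P.p ^ 2 : ℤ) = (P.p ^ 2 * n + 1 + P.p ^ 2 : ℕ) := by
      push_cast
      ring
    rw [Finset.card_product, Int.card_Icc, e, Int.toNat_natCast, Finset.card_univ]
    push_cast
    ring
  have h5 := Grow_sum (s := I) (F := fun n y => (c n y.1 (-y.2) : ℝ) * s y.1 y.2)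
    (Grow_mul h2 h3) h4
  obtain ⟨n0, -, hn1, hn2⟩ := hA.pos k (P.Q k).val (by simp)
  obtain ⟨x, hx0, hxA, hxQ⟩ : ∃ x : ℤ, 0 < x ∧ 0 < A k x ∧ (x : P.D) = -P.Q k :=
    ⟨_, by omega, hn2, hA.supp _ _ hn2.ne'⟩
  have h6 : Grow_Sub (fun ν : ℤ => 0 < ν ∧ (ν : P.D) = P.Q k) (B k) fun ν => ν := by
    have hn : ∀ ν : ℤ, 0 < ν ∧ (ν : P.D) = P.Q k → ∃ n : ℕ, 1 ≤ n ∧ ν + x = P.p ^ 2 * n := by
      rintro ν ⟨h7, h8⟩
      obtain ⟨n, hn⟩ := (ZMod.intCast_zmod_eq_zero_iff_dvd (ν + x) (P.p ^ 2)).1 (by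
        rw [Int.cast_add, h8, hxQ, add_neg_cancel])
      push_cast at hn
      have h9 : 0 < n := (mul_pos_iff_of_pos_left hp').1 (by omega)
      exact ⟨n.toNat, by omega, by rw [Int.toNat_of_nonneg h9.le, hn]⟩
    choose! n hn1 hn2 using hn
    refine Grow_of_le (Grow_comp h5 n one_pos (β := x) fun ν hν => ⟨hn1 ν hν, ?_⟩) fun ν hν => ?_
    · have h7 : (n ν : ℤ) ≤ ν + x := by
        rw [hn2 ν hν]
        exact le_mul_of_one_le_left (Int.natCast_nonneg _) hp'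
      rw [one_mul]
      exact_mod_cast h7
    · obtain ⟨hF, hc'⟩ := hc (n ν) (hn1 ν hν)
      have hneg : ∀ k' μ, μ < 0 → c (n ν) k' μ = A k' (μ + P.p ^ 2 * n ν) := fun k' μ hμ => by
        rw [hc' k' μ (by omega), hA.neg k' μ hμ, hA.neg k' (μ - P.p ^ 2) (by omega)]
        ring
      have h7 := h _ hF (P.p ^ 2 * n ν) (lo_le fun k' μ hμ => by
        push_cast at hμ
        have : (0 : ℤ) ≤ P.p ^ 2 * n ν := by positivity
        rw [hneg k' μ (by omega), hA.neg _ _ (by omega)])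
      rw [Grow_pr, Grow_pr, ← Finset.sum_product', ← Finset.sum_product'] at h7
      have h8 : (c (n ν) k (-ν) : ℝ) * B k ν ≤
          ∑ y ∈ I (n ν), (c (n ν) y.1 (-y.2) : ℝ) * B y.1 y.2 := by
        refine Finset.single_le_sum (f := fun y : P.D × ℤ => (c (n ν) y.1 (-y.2) : ℝ) * B y.1 y.2)
          (a := (k, ν)) (fun y _ => ?_) ?_
        · by_cases h9 : B y.1 y.2 = 0
          · rw [h9, mul_zero]
          · refine mul_nonneg ?_ (hB0 _ _)
            rw [hneg _ _ (by have := (hB _ _ h9).1; omega)]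
            exact_mod_cast hA.nonneg _ _
        · refine Finset.mem_product.2 ⟨Finset.mem_univ _, Finset.mem_Icc.2 ⟨?_, ?_⟩⟩
          · have := hν.1
            simp only
            omega
          · have := hn2 ν hν
            push_cast
            omega
      have h9 : (1 : ℝ) ≤ c (n ν) k (-ν) := by
        rw [hneg k (-ν) (by have := hν.1; omega), ← hn2 ν hν, neg_add_cancel_left]
        exact_mod_cast hxA
      rw [abs_of_nonneg (hB0 k ν)]
      refine le_trans ?_ (neg_le_abs _)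
      have h10 := le_mul_of_one_le_left (hB0 k ν) h9
      linarith
  intro η hη
  obtain ⟨C, hC, h7⟩ := h6 η hη
  refine ⟨C, hC, fun ν _ => ?_⟩
  by_cases h8 : B k ν = 0
  · rw [h8, abs_zero]
    positivity
  · exact h7 ν (hB k ν h8)

end Par

open Par in
theorem Par.dual_ineq (P : Par) {ρ : P.D → ℤ → ℂ} {r : P.D → ℍ → ℂ}
    (hq : ∀ k, QS (P.p ^ 2) (ρ k) (r k)) (hs : ∀ k ν, ρ k ν ≠ 0 → (ν : P.D) = P.Q k)
    (hl : ∀ k, ∀ ν < -(P.p ^ 2 : ℤ), ρ k ν = 0) {a : P.D → ℤ → ℝ} {C : ℝ}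
    (ha : ∀ k (ν : ℤ), 0 < ν → |a k ν| ≤ C * (1 + ν) ^ 2)
    (has : ∀ k ν, a k ν ≠ 0 → (ν : P.D) = P.Q k) {h₀ : ℝ}
    (h : ∀ c, P.IsF0 c → P.Pos c → P.pp c a ≤ -(CT 1 (P.pr c r)).re + P.cp c * h₀)
    {w : P.D → ℝ} (hw0 : ∀ k, 0 ≤ w k) (he : ∀ k, w (-k) = w k)
    (hw : P.M (fun k => (w k : ℂ)) = fun k => (w k : ℂ))
    (hI : ∀ z : P.F, z ≠ 0 → w (P.up z) = 0)
    (hr : 0 ≤ (∑ k, (w k : ℂ) * r k UpperHalfPlane.I).re) :
    ∑ k, w k * ∑' n : ℕ, a k (n + 1) * Real.exp (-(2 * Real.pi * (n + 1) / P.p ^ 2)) ≤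
      w 0 * ((CT 1 (P.pr P.oneI r)).re + h₀) := by
  have hN : 0 < P.p ^ 2 := pow_pos P.prime.pos 2
  have hp : (0 : ℝ) < P.p ^ 2 := pow_pos P.p_pos 2
  have hp' : (0 : ℤ) < P.p ^ 2 := by exact_mod_cast hp
  obtain ⟨B, hB0, hB, hΛ⟩ := Grow_riesz (P := P) (AddMonoidHom.mk'
    (fun F => -(CT 1 (P.pr F r)).re + P.cp F * h₀ - P.pp F a) (by
      intro F F'
      have hF : P.IsF0 F := F.2
      have hF' : P.IsF0 F' := F'.2
      simp only [AddSubgroup.coe_add]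
      rw [Grow_ct_add hF.toIsF hF'.toIsF hq hs hl, Grow_pp_add hF.toIsF hF'.toIsF, (hF.add hF').2]
      push_cast
      ring)) fun F hF => sub_nonneg.2 (h F F.2 hF)
  obtain ⟨a', ha'⟩ : ∃ a' : P.D → ℤ → ℝ, a' = fun k ν => if 0 < ν then a k ν else 0 := ⟨_, rfl⟩
  have ha0 : ∀ k, ∀ ν ≤ 0, a' k ν = 0 := fun k ν hν => by simp [ha', hν]
  have hB1 : ∀ k, ∀ ν ≤ 0, B k ν = 0 := fun k ν hν => by
    by_contra h1
    exact absurd (hB k ν h1).1 (by omega)
  have hpp : ∀ c, P.pp c a' = P.pp c a := fun c =>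
    Finset.sum_congr rfl fun k _ => Finset.sum_congr rfl fun ν hν => by
      have : 0 < ν := (Finset.mem_Icc.1 hν).1
      simp [ha', this]
  obtain ⟨B0, hB2, hΛ', hB3⟩ := Grow_const_term (P := P) (AddMonoidHom.mk'
    (fun F => (CT 1 (P.pr F r)).re + P.pp F a' + P.pp F B) (by
      intro F F'
      simp only [AddSubgroup.coe_add]
      rw [Grow_ct_add F.2 F'.2 hq hs hl, Grow_pp_add F.2 F'.2, Grow_pp_add F.2 F'.2]
      ring)) (h₀ := h₀) fun F hF => by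
        have h1 := hΛ ⟨F, hF⟩
        simp only [AddMonoidHom.mk'_apply] at h1 ⊢
        rw [hpp]
        linarith
  have hone : ∀ f : P.D → ℤ → ℝ, P.pp P.oneI f = 0 := fun f =>
    Finset.sum_eq_zero fun k _ => Finset.sum_eq_zero fun ν hν => by
      have : 0 < ν := (Finset.mem_Icc.1 hν).1
      simp [oneI, this.ne']
  simp only [AddMonoidHom.mk'_apply, hone, add_zero] at hΛ' hB3
  obtain ⟨s, hs'⟩ : ∃ s : P.D → ℤ → ℝ,
      s = fun k ν => (ρ k ν).re + a' k ν + if ν = 0 then B0 k else 0 := ⟨_, rfl⟩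
  have key : ∀ c, P.IsF 0 c → ∀ L : ℕ, P.lo c ≤ L → Grow_pr c s L + Grow_pr c B L = 0 := by
    intro c hc L hL
    have h1 := hΛ' ⟨c, hc⟩
    simp only at h1
    have h2 : Grow_pr c (fun k ν => if ν = 0 then B0 k else 0) L = ∑ k, (c k 0 : ℝ) * B0 k := by
      refine Finset.sum_congr rfl fun k _ => ?_
      rw [Finset.sum_eq_single 0]
      · simp
      · intro ν _ hν
        simp only [if_neg hν, mul_zero]
      · intro h3
        exact absurd (Finset.mem_Icc.2 ⟨by omega, by omega⟩) h3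
    rw [hs', Grow_pr_add, Grow_pr_add, ← Grow_ct hc hq hs hl hL, ← Grow_pp hc ha0 hL,
      ← Grow_pp hc hB1 hL, h2]
    linarith
  have hd : ∀ ν : ℤ, -(P.p ^ 2 : ℤ) ≤ ν → (0 : ℝ) ≤ ν + P.p ^ 2 := fun ν hν => by
    have : (0 : ℤ) ≤ ν + P.p ^ 2 := by omega
    exact_mod_cast this
  have ga : ∀ k, Grow_Sub (fun ν : ℤ => -(P.p ^ 2 : ℤ) ≤ ν) (a' k) fun ν => ν + P.p ^ 2 := by
    intro k
    refine Grow_of_le (Grow_poly hd |C| 1 1 2) fun ν _ => ?_
    by_cases h1 : 0 < ν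
    · have h2 : (0 : ℝ) < ν := by exact_mod_cast h1
      simp only [ha', if_pos h1]
      refine (ha k ν h1).trans (le_trans ?_ (le_abs_self _))
      gcongr
      · exact le_abs_self C
      · linarith
    · rw [ha0 k ν (by omega), abs_zero]
      exact abs_nonneg _
  have gs : ∀ k, Grow_Sub (fun ν : ℤ => -(P.p ^ 2 : ℤ) ≤ ν) (s k) fun ν => ν + P.p ^ 2 := by
    intro k
    rw [hs']
    refine Grow_add (Grow_add (fun η hη => ?_) (ga k))
      (Grow_of_le (Grow_const hd (B0 k)) fun ν _ => ?_)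
    · obtain ⟨C', hC'⟩ := ((hq k).shift (P.p ^ 2)).subexp hN hη
      refine ⟨|C'|, abs_nonneg _, fun ν hν => (Complex.abs_re_le_norm _).trans ?_⟩
      have h1 := hC' (ν + P.p ^ 2) (by omega)
      rw [add_sub_cancel_right] at h1
      push_cast at h1
      exact h1.trans (mul_le_mul_of_nonneg_right (le_abs_self C') (Real.exp_pos _).le)
    · split_ifs
      · exact le_rfl
      · simp
  have back : ∀ f : ℤ → ℝ, (Grow_Sub (fun ν : ℤ => -(P.p ^ 2 : ℤ) ≤ ν) f fun ν => ν + P.p ^ 2) →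
      Grow_Sub (fun ν : ℤ => 0 ≤ ν) f fun ν => ν := fun f hf =>
    Grow_comp hf (fun ν => ν) one_pos (β := P.p ^ 2) fun ν hν => ⟨by omega, by simp⟩
  have gB := Grow_growth gs hB0 hB key
  have hlow : ∀ k, ∀ ν < -(P.p ^ 2 : ℤ), s k ν + B k ν = 0 := fun k ν hν => by
    have h1 : ν ≠ 0 := by omega
    simp [hs', hl k ν hν, ha0 k ν (by omega), hB1 k ν (by omega), h1]
  have hφ := fun k => Grow_qs hN (hlow k) (Grow_add (back _ (gs k)) (gB k))
  have hsupp : ∀ k ν, ((s k ν + B k ν : ℝ) : ℂ) ≠ 0 → (ν : P.D) = P.Q k := by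
    intro k ν h1
    by_contra h2
    have h3 : ρ k ν = 0 := by
      by_contra h3
      exact h2 (hs k ν h3)
    have h4 : a' k ν = 0 := by
      by_contra h4
      refine h2 (has k ν fun h5 => h4 ?_)
      simp [ha', h5]
    have h5 : B k ν = 0 := by
      by_contra h5
      exact h2 (hB k ν h5).2
    have h6 : (if ν = 0 then B0 k else 0) = 0 := by
      split_ifs with h6
      · refine hB2 k fun h7 => h2 ?_
        obtain ⟨z, rfl⟩ := P.exists_up h7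
        rw [h6, Q_up, Int.cast_zero]
      · rfl
    exact h1 (by simp only [hs', h3, h4, h5, h6]; simp)
  have hdual := P.dual hφ hsupp (fun c hc => by
    have hl' : ∀ k, ∀ ν < -(P.p ^ 2 : ℤ), ((s k ν + B k ν : ℝ) : ℂ) = 0 := fun k ν hν => by
      rw [hlow k ν hν, Complex.ofReal_zero]
    have h1 := key c hc _ le_rfl
    rw [← Grow_pr_add, Grow_pr] at h1
    rw [(hc.ct_pr hφ hsupp hl' le_rfl one_pos).2]
    exact_mod_cast congrArg (fun t : ℝ => (t : ℂ)) h1) (fun k => by rw [he]) hw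
  have hterm : ∀ k, ∑' n : ℕ, a k (n + 1) * Real.exp (-(2 * Real.pi * (n + 1) / P.p ^ 2)) ≤
      (∑' ν : ℤ, ((s k ν + B k ν : ℝ) : ℂ) *
        ee (ν * (UpperHalfPlane.I : ℂ) / (P.p ^ 2 : ℕ))).re -
      (r k UpperHalfPlane.I).re - B0 k := by
    intro k
    have h1 := ((Grow_at_I (hφ k)).sub (Grow_at_I (hq k))).sub (hasSum_ite_eq (0 : ℤ) (B0 k))
    have h2 : HasSum (fun ν : ℤ => (a' k ν + B k ν) *
        Real.exp (-(2 * Real.pi * ν / (P.p ^ 2 : ℕ)))) _ := h1.congr_fun fun ν => by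
      rw [Complex.ofReal_re, hs']
      simp only
      split_ifs with h3
      · rw [h3]
        simp
        ring
      · ring
    have h3 := Grow_to_nat h2 fun ν hν => by rw [ha0 k ν hν, hB1 k ν hν, add_zero, zero_mul]
    have h4 := Grow_to_nat (Grow_at_I (Grow_qs hN (L := 0) (fun ν hν => ha0 k ν hν.le)
      (back _ (ga k)))) fun ν hν => by rw [ha0 k ν hν, Complex.ofReal_zero, Complex.zero_re, zero_mul]
    have h5 : ∀ n : ℕ, a' k (n + 1) = a k (n + 1) := fun n => by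
      simp only [ha']
      rw [if_pos (by omega)]
    simp only [Complex.ofReal_re, h5, Int.cast_add, Int.cast_natCast, Int.cast_one,
      Nat.cast_pow] at h3 h4 ⊢
    refine hasSum_le (fun n => ?_) h4.summable.hasSum h3
    exact mul_le_mul_of_nonneg_right (le_add_of_nonneg_right (hB0 _ _)) (Real.exp_pos _).le
  have h1 := congrArg Complex.re hdual
  rw [Complex.re_sum] at h1 hr
  simp only [Complex.re_ofReal_mul, Complex.zero_re] at h1 hr
  have h2 : ∑ k, w k * B0 k = w 0 * B0 0 := by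
    refine Finset.sum_eq_single 0 (fun k _ hk => ?_) fun h => absurd (Finset.mem_univ _) h
    by_cases h3 : P.rd k = 0
    · obtain ⟨z, rfl⟩ := P.exists_up h3
      rw [hI z fun h4 => hk (by rw [h4, up_zero]), zero_mul]
    · rw [hB2 k h3, mul_zero]
  refine (Finset.sum_le_sum fun k _ => mul_le_mul_of_nonneg_left (hterm k) (hw0 k)).trans ?_
  simp only [mul_sub, Finset.sum_sub_distrib]
  rw [h1, h2, hB3]
  linarith

end

end Pool.Agent.P.MP_a60a76_nt.Sz
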