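import Pool.Agent.P.MP_a60a76_nt.Sz.Defs3
import Pool.Agent.P.MP_a60a76_nt.Sz.Grow

namespace Pool.Agent.P.MP_a60a76_nt.Sz

open UpperHalfPlane hiding J
open MeasureTheory SP
open scoped MatrixGroups UpperHalfPlane Matrix Modular Topology Classical ArithmeticFunction.sigma

noncomputable section

/-! Duality on the imaginary axis. -/

theorem coe_iy {y : ℝ} (hy : 0 < y) : (iy y : ℂ) = y * Complex.I := by
  have h : 0 < ((y : ℂ) * Complex.I).im := by simpa using hy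
  rw [iy, ofComplex_apply_of_im_pos h]

theorem S_smul_iy {y : ℝ} (hy : 0 < y) : ModularGroup.S • iy y⁻¹ = iy y := by
  apply UpperHalfPlane.ext
  rw [coe_S_smul, coe_iy hy, coe_iy (inv_pos.2 hy)]
  have h : (y : ℂ) ≠ 0 := by exact_mod_cast hy.ne'
  push_cast
  field_simp
  rw [Complex.I_sq]

theorem Par.dual2 (P : Par) {ρ : P.D → ℤ → ℂ} {φ : P.D → ℍ → ℂ}
    (hq : ∀ k, QS (P.p ^ 2) (ρ k) (φ k)) (hs : ∀ k ν, ρ k ν ≠ 0 → (ν : P.D) = P.Q k)
    (h : ∀ c, P.IsF 0 c → CT 1 (P.pr c φ) = 0) {y : ℝ} (hy : 0 < y) :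
    ∑ k, φ k (iy y) + ((P.p / y ^ 2 : ℝ) : ℂ) * φ 0 (iy y⁻¹) = 0 := by
  have hN : 0 < P.p ^ 2 := pow_pos P.prime.pos 2
  have hφ : ∀ k, Hol (φ k) := fun k => (hq k).hol hN
  set ψ : P.D → ℍ → ℂ := fun k τ =>
    P.M (fun k' => φ k' (ModularGroup.S • τ)) k - (τ : ℂ) ^ (2 : ℤ) * φ k τ with hψ
  have h1 : ∀ k, Hol (ψ k) := fun k =>
    Dual_hol_sub (Dual_hol_M P (fun k' => poly_hol_smul (hφ k') ModularGroup.S) k)
      (Dual_hol_mul Dual_hol_sq (hφ k))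
  have h2 : ∀ c, P.IsF 0 c → ∀ τ, ∑ k, P.fn c k τ * ψ k τ = 0 := by
    intro c hc τ
    have h3 := (Dual_wt P hq hs h hc).inv τ
    simp only [Par.pr, hc.inv, zpow_zero, one_mul] at h3
    rw [P.sum_M_mul, Finset.mul_sum] at h3
    rw [← sub_eq_zero.2 h3, ← Finset.sum_sub_distrib]
    exact Finset.sum_congr rfl fun k _ => by simp only [hψ]; ring
  have hneg : ∀ (x y : P.D → ℂ), (∀ k, x (-k) = x k) → ∑ k, x k * y (-k) = ∑ k, x k * y k := by
    intro x y hx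
    rw [← Equiv.sum_comp (Equiv.neg P.D)]
    simp only [Equiv.neg_apply, neg_neg, hx]
  have h4 := P.full_rank (χ := fun k τ => ψ k τ + ψ (-k) τ)
    (fun k => Dual_hol_add (h1 k) (h1 (-k))) (fun k τ => by rw [neg_neg, add_comm])
    (fun c hc τ => by
      simp only [Par.pr, mul_add, Finset.sum_add_distrib]
      rw [hneg (fun k => P.fn c k τ) (fun k => ψ k τ) fun k => hc.fn_neg k τ, h2 c hc τ, add_zero])
  have h5 := h4 0 (iy y⁻¹)
  simp only [hψ, neg_zero, S_smul_iy hy, Par.M, zero_mul, P.psi_zero, one_mul,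
    coe_iy (inv_pos.2 hy), zpow_ofNat, mul_pow, Complex.I_sq] at h5
  have hy' : (y : ℂ) ≠ 0 := by exact_mod_cast hy.ne'
  have hp : (P.p : ℂ) ≠ 0 := P.p_ne
  push_cast at h5 ⊢
  have h6 : (P.p : ℂ)⁻¹ * ∑ k, φ k (iy y) + (y : ℂ)⁻¹ ^ 2 * φ 0 (iy y⁻¹) = 0 := by
    linear_combination h5 / 2
  have h7 : ∑ k, φ k (iy y) + (P.p : ℂ) / (y : ℂ) ^ 2 * φ 0 (iy y⁻¹) =
      P.p * ((P.p : ℂ)⁻¹ * ∑ k, φ k (iy y) + (y : ℂ)⁻¹ ^ 2 * φ 0 (iy y⁻¹)) := by
    field_simp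
  rw [h7, h6, mul_zero]

theorem Dual2_at {N : ℕ} {c : ℤ → ℂ} {f : ℍ → ℂ} {t : ℝ} (ht : 0 < t) (h : QS N c f) :
    HasSum (fun ν : ℤ => (c ν).re * Real.exp (-(2 * Real.pi * ν * t / N))) (f (iy t)).re := by
  have h1 := Complex.hasSum_re (h.sum (iy t))
  refine h1.congr_fun fun ν => ?_
  have e : ee (ν * (iy t : ℂ) / N) = (Real.exp (-(2 * Real.pi * ν * t / N)) : ℝ) := by
    rw [ee, Complex.ofReal_exp, coe_iy ht]
    congr 1
    push_cast
    linear_combination (2 * Real.pi * ν * t / N : ℂ) * Complex.I_mul_I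
  rw [e, Complex.re_mul_ofReal]

open Par in
theorem Par.dual_ineq2 (P : Par) {ρ : P.D → ℤ → ℂ} {r : P.D → ℍ → ℂ}
    (hq : ∀ k, QS (P.p ^ 2) (ρ k) (r k)) (hs : ∀ k ν, ρ k ν ≠ 0 → (ν : P.D) = P.Q k)
    (hl : ∀ k, ∀ ν < -(P.p ^ 2 : ℤ), ρ k ν = 0) {a : P.D → ℤ → ℝ} (ha : P.Adm a) {h₀ : ℝ}
    (h : ∀ c, P.IsF0 c → P.Pos c → P.pp c a ≤ -(CT 1 (P.pr c r)).re + P.cp c * h₀)
    {y : ℝ} (hy : 0 < y)
    (hr : 0 ≤ (∑ k, r k (iy y) + ((P.p / y ^ 2 : ℝ) : ℂ) * r 0 (iy y⁻¹)).re) :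
    P.TT y a ≤ (1 + P.p / y ^ 2) * (CT 1 (P.pr P.oneI r)).re + P.p / y ^ 2 * h₀ := by
  have hN : 0 < P.p ^ 2 := pow_pos P.prime.pos 2
  have hp : (0 : ℝ) < P.p ^ 2 := pow_pos P.p_pos 2
  have hp' : (0 : ℤ) < P.p ^ 2 := by exact_mod_cast hp
  obtain ⟨B, hB0, hB, hΛ⟩ := Grow_riesz (P := P) (AddMonoidHom.mk'
    (fun F => -(CT 1 (P.pr F r)).re + P.cp F * h₀ - P.pp F a) (by
      intro F F'
      have hF : P.IsF0 F := F.2
      have hF' : P.IsF0 F' := F'.2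
      simp only [AddSubgroup.coe_add]
      rw [Grow_ct_add hF.toIsF hF'.toIsF hq hs hl, Grow_pp_add hF.toIsF hF'.toIsF, (hF.add hF').2]
      push_cast
      ring)) fun F hF => sub_nonneg.2 (h F F.2 hF)
  obtain ⟨a', ha'⟩ : ∃ a' : P.D → ℤ → ℝ, a' = fun k ν => if 0 < ν then a k ν else 0 := ⟨_, rfl⟩
  have ha0 : ∀ k, ∀ ν ≤ 0, a' k ν = 0 := fun k ν hν => by simp [ha', hν]
  have hB1 : ∀ k, ∀ ν ≤ 0, B k ν = 0 := fun k ν hν => by
    by_contra h1
    exact absurd (hB k ν h1).1 (by omega)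
  have hpp : ∀ c, P.pp c a' = P.pp c a := fun c =>
    Finset.sum_congr rfl fun k _ => Finset.sum_congr rfl fun ν hν => by
      have : 0 < ν := (Finset.mem_Icc.1 hν).1
      simp [ha', this]
  obtain ⟨B0, hB2, hΛ', hB3⟩ := Grow_const_term (P := P) (AddMonoidHom.mk'
    (fun F => (CT 1 (P.pr F r)).re + P.pp F a' + P.pp F B) (by
      intro F F'
      simp only [AddSubgroup.coe_add]
      rw [Grow_ct_add F.2 F'.2 hq hs hl, Grow_pp_add F.2 F'.2, Grow_pp_add F.2 F'.2]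
      ring)) (h₀ := h₀) fun F hF => by
        have h1 := hΛ ⟨F, hF⟩
        simp only [AddMonoidHom.mk'_apply] at h1 ⊢
        rw [hpp]
        linarith
  have hone : ∀ f : P.D → ℤ → ℝ, P.pp P.oneI f = 0 := fun f =>
    Finset.sum_eq_zero fun k _ => Finset.sum_eq_zero fun ν hν => by
      have : 0 < ν := (Finset.mem_Icc.1 hν).1
      simp [oneI, this.ne']
  simp only [AddMonoidHom.mk'_apply, hone, add_zero] at hΛ' hB3
  obtain ⟨s, hs'⟩ : ∃ s : P.D → ℤ → ℝ,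
      s = fun k ν => (ρ k ν).re + a' k ν + if ν = 0 then B0 k else 0 := ⟨_, rfl⟩
  have key : ∀ c, P.IsF 0 c → ∀ L : ℕ, P.lo c ≤ L → Grow_pr c s L + Grow_pr c B L = 0 := by
    intro c hc L hL
    have h1 := hΛ' ⟨c, hc⟩
    simp only at h1
    have h2 : Grow_pr c (fun k ν => if ν = 0 then B0 k else 0) L = ∑ k, (c k 0 : ℝ) * B0 k := by
      refine Finset.sum_congr rfl fun k _ => ?_
      rw [Finset.sum_eq_single 0]
      · simp
      · intro ν _ hν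
        simp only [if_neg hν, mul_zero]
      · intro h3
        exact absurd (Finset.mem_Icc.2 ⟨by omega, by omega⟩) h3
    rw [hs', Grow_pr_add, Grow_pr_add, ← Grow_ct hc hq hs hl hL, ← Grow_pp hc ha0 hL,
      ← Grow_pp hc hB1 hL, h2]
    linarith
  have hd : ∀ ν : ℤ, -(P.p ^ 2 : ℤ) ≤ ν → (0 : ℝ) ≤ ν + P.p ^ 2 := fun ν hν => by
    have : (0 : ℤ) ≤ ν + P.p ^ 2 := by omega
    exact_mod_cast this
  have ga : ∀ k, Grow_Sub (fun ν : ℤ => -(P.p ^ 2 : ℤ) ≤ ν) (a' k) fun ν => ν + P.p ^ 2 := by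
    intro k η hη
    obtain ⟨C, hC⟩ := ha.bound η hη
    refine ⟨|C|, abs_nonneg _, fun ν _ => ?_⟩
    by_cases h1 : 0 < ν
    · simp only [ha', if_pos h1]
      refine (hC k ν h1).trans ?_
      refine mul_le_mul (le_abs_self C) (Real.exp_le_exp.2 ?_) (Real.exp_pos _).le (abs_nonneg _)
      exact mul_le_mul_of_nonneg_left (by linarith) hη.le
    · rw [ha0 k ν (by omega), abs_zero]
      positivity
  have gs : ∀ k, Grow_Sub (fun ν : ℤ => -(P.p ^ 2 : ℤ) ≤ ν) (s k) fun ν => ν + P.p ^ 2 := by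
    intro k
    rw [hs']
    refine Grow_add (Grow_add (fun η hη => ?_) (ga k))
      (Grow_of_le (Grow_const hd (B0 k)) fun ν _ => ?_)
    · obtain ⟨C', hC'⟩ := ((hq k).shift (P.p ^ 2)).subexp hN hη
      refine ⟨|C'|, abs_nonneg _, fun ν hν => (Complex.abs_re_le_norm _).trans ?_⟩
      have h1 := hC' (ν + P.p ^ 2) (by omega)
      rw [add_sub_cancel_right] at h1
      push_cast at h1
      exact h1.trans (mul_le_mul_of_nonneg_right (le_abs_self C') (Real.exp_pos _).le)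
    · split_ifs
      · exact le_rfl
      · simp
  have back : ∀ f : ℤ → ℝ, (Grow_Sub (fun ν : ℤ => -(P.p ^ 2 : ℤ) ≤ ν) f fun ν => ν + P.p ^ 2) →
      Grow_Sub (fun ν : ℤ => 0 ≤ ν) f fun ν => ν := fun f hf =>
    Grow_comp hf (fun ν => ν) one_pos (β := P.p ^ 2) fun ν hν => ⟨by omega, by simp⟩
  have gB := Grow_growth gs hB0 hB key
  have hlow : ∀ k, ∀ ν < -(P.p ^ 2 : ℤ), s k ν + B k ν = 0 := fun k ν hν => by
    have h1 : ν ≠ 0 := by omega
    simp [hs', hl k ν hν, ha0 k ν (by omega), hB1 k ν (by omega), h1]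
  have hφ := fun k => Grow_qs hN (hlow k) (Grow_add (back _ (gs k)) (gB k))
  have hsupp : ∀ k ν, ((s k ν + B k ν : ℝ) : ℂ) ≠ 0 → (ν : P.D) = P.Q k := by
    intro k ν h1
    by_contra h2
    have h3 : ρ k ν = 0 := by
      by_contra h3
      exact h2 (hs k ν h3)
    have h4 : a' k ν = 0 := by
      by_contra h4
      refine h2 (ha.supp k ν fun h5 => h4 ?_)
      simp [ha', h5]
    have h5 : B k ν = 0 := by
      by_contra h5
      exact h2 (hB k ν h5).2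
    have h6 : (if ν = 0 then B0 k else 0) = 0 := by
      split_ifs with h6
      · refine hB2 k fun h7 => h2 ?_
        obtain ⟨z, rfl⟩ := P.exists_up h7
        rw [h6, Q_up, Int.cast_zero]
      · rfl
    exact h1 (by simp only [hs', h3, h4, h5, h6]; simp)
  have hdual := P.dual2 hφ hsupp (fun c hc => by
    have hl' : ∀ k, ∀ ν < -(P.p ^ 2 : ℤ), ((s k ν + B k ν : ℝ) : ℂ) = 0 := fun k ν hν => by
      rw [hlow k ν hν, Complex.ofReal_zero]
    have h1 := key c hc _ le_rfl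
    rw [← Grow_pr_add, Grow_pr] at h1
    rw [(hc.ct_pr hφ hsupp hl' le_rfl one_pos).2]
    exact_mod_cast congrArg (fun t : ℝ => (t : ℂ)) h1) hy
  have hterm : ∀ k, ∀ t : ℝ, 0 < t →
      ∑' n : ℕ, a k (n + 1) * Real.exp (-(2 * Real.pi * (n + 1) * t / P.p ^ 2)) ≤
      (∑' ν : ℤ, ((s k ν + B k ν : ℝ) : ℂ) *
        ee (ν * (iy t : ℂ) / (P.p ^ 2 : ℕ))).re - (r k (iy t)).re - B0 k := by
    intro k t ht
    have h1 := ((Dual2_at ht (hφ k)).sub (Dual2_at ht (hq k))).sub (hasSum_ite_eq (0 : ℤ) (B0 k))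
    have h2 : HasSum (fun ν : ℤ => (a' k ν + B k ν) *
        Real.exp (-(2 * Real.pi * ν * t / (P.p ^ 2 : ℕ)))) _ := h1.congr_fun fun ν => by
      rw [Complex.ofReal_re, hs']
      simp only
      split_ifs with h3
      · rw [h3]
        simp
        ring
      · ring
    have h3 := Grow_to_nat h2 fun ν hν => by rw [ha0 k ν hν, hB1 k ν hν, add_zero, zero_mul]
    have h4 := Grow_to_nat (Dual2_at ht (Grow_qs hN (L := 0) (fun ν hν => ha0 k ν hν.le)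
      (back _ (ga k)))) fun ν hν => by rw [ha0 k ν hν, Complex.ofReal_zero, Complex.zero_re, zero_mul]
    have h5 : ∀ n : ℕ, a' k (n + 1) = a k (n + 1) := fun n => by
      simp only [ha']
      rw [if_pos (by omega)]
    simp only [Complex.ofReal_re, h5, Int.cast_add, Int.cast_natCast, Int.cast_one,
      Nat.cast_pow] at h3 h4 ⊢
    refine hasSum_le (fun n => ?_) h4.summable.hasSum h3
    exact mul_le_mul_of_nonneg_right (le_add_of_nonneg_right (hB0 _ _)) (Real.exp_pos _).le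
  have h1 := congrArg Complex.re hdual
  rw [Complex.add_re, Complex.re_sum, Complex.re_ofReal_mul] at h1 hr
  rw [Complex.zero_re] at h1
  have h2 : ∑ k, B0 k = -(CT 1 (P.pr P.oneI r)).re := by
    have h3 := hΛ' ⟨P.oneI, P.isF_oneI.1⟩
    simp only [hone, add_zero] at h3
    have h4 : ∑ k, ((P.oneI k 0 : ℤ) : ℝ) * B0 k = ∑ k, B0 k :=
      Finset.sum_congr rfl fun k _ => by
        by_cases h5 : P.rd k = 0
        · simp [oneI, h5]
        · rw [hB2 k h5, mul_zero]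
    linarith
  have hc : (0 : ℝ) ≤ P.p / y ^ 2 := by positivity
  have h3 := Finset.sum_le_sum fun k (_ : k ∈ Finset.univ) => hterm k y hy
  have h4 := mul_le_mul_of_nonneg_left (hterm 0 y⁻¹ (inv_pos.2 hy)) hc
  simp only [Finset.sum_sub_distrib] at h3
  rw [h2] at h3
  rw [hB3] at h4
  unfold TT
  linarith

end

end Pool.Agent.P.MP_a60a76_nt.Sz
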