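import Pool.Agent.P.MP_a60a76_nt.Sz.Weil
import Pool.Agent.P.MP_a60a76_nt.Sz.QSb

namespace Pool.Agent.P.MP_a60a76_nt.Sz

open UpperHalfPlane MeasureTheory SP
open scoped MatrixGroups UpperHalfPlane Matrix Modular Topology Classical ArithmeticFunction.sigma

noncomputable section

/-! The Eisenstein vector: transformation law and expansion. -/

theorem EisA_class (N : ℕ) [NeZero N] (f : ℤ → ℂ) (j : ℤ) :
    ∑' b : ℤ, (if (b : ZMod N) = (j : ZMod N) then f b else 0) = ∑' n : ℤ, f (j - n * N) := by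
  have hN : (N : ℤ) ≠ 0 := by exact_mod_cast NeZero.ne N
  have hinj : Function.Injective fun n : ℤ => j - n * N := fun a b h => by
    have h1 : a * N = b * N := by simpa using h
    exact mul_right_cancel₀ hN h1
  rw [← hinj.tsum_eq (f := fun b : ℤ => if (b : ZMod N) = (j : ZMod N) then f b else 0)]
  · refine tsum_congr fun n => ?_
    rw [if_pos (by push_cast; simp)]
  · intro b hb
    have h1 : (b : ZMod N) = (j : ZMod N) := by
      by_contra h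
      exact hb (if_neg h)
    obtain ⟨n, hn⟩ := (ZMod.intCast_eq_intCast_iff_dvd_sub b j N).1 h1
    exact ⟨n, by simp only; linarith⟩

theorem EisA_summable (τ : ℍ) :
    Summable fun x : ℤ × ℤ => ‖((((x.2 : ℂ) * τ - x.1) ^ 4)⁻¹ : ℂ)‖ := by
  have h := (summable_prod_eisSummand (k := 4) (by norm_num) τ).norm
  have h2 := ((Equiv.prodComm ℤ ℤ).trans
    (Equiv.prodCongr (Equiv.refl ℤ) (Equiv.neg ℤ))).summable_iff.2 h
  refine h2.congr fun x => ?_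
  simp [EisensteinSeries.eisSummand, sub_eq_add_neg, zpow_neg]

theorem EisA_summable_row (z : ℂ) : Summable fun b : ℤ => ‖(((z - b) ^ 4)⁻¹ : ℂ)‖ := by
  have h := (EisensteinSeries.linear_right_summable z 1 (k := 4) (by norm_num)).norm
  have h2 := (Equiv.neg ℤ).summable_iff.2 h
  refine h2.congr fun x => ?_
  simp [sub_eq_add_neg, zpow_ofNat]

theorem EisA_zeta : ∑' b : ℤ, (((b : ℂ)) ^ 4)⁻¹ = (Real.pi : ℂ) ^ 4 / 45 := by
  rw [← two_mul_riemannZeta_eq_tsum_int_inv_pow_of_even (k := 4) (by norm_num) (by decide)]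
  have := riemannZeta_four
  push_cast
  rw [this]
  ring

theorem EisA_geom {q : ℂ} (hq : ‖q‖ < 1) : Summable fun n : ℕ+ => ‖((n : ℕ) : ℂ) ^ 3 * q ^ (n : ℕ)‖ :=
  (summable_norm_pow_mul_geometric_of_norm_lt_one 3 hq).comp_injective PNat.coe_injective

theorem EisA_lip {z : ℂ} (hz : 0 < z.im) :
    ∑' n : ℤ, ((z + n) ^ 4)⁻¹ =
      8 * (Real.pi : ℂ) ^ 4 / 3 * ∑' n : ℕ+, ((n : ℕ) : ℂ) ^ 3 * ee z ^ (n : ℕ) := by
  have h := EisensteinSeries.qExpansion_identity_pnat (k := 3) (by norm_num) ⟨z, hz⟩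
  simp only [one_div] at h
  have hI : Complex.I ^ 4 = 1 := Complex.I_pow_four
  have hc : (-2 * (Real.pi : ℂ) * Complex.I) ^ (3 + 1) / (Nat.factorial 3 : ℕ) =
      8 * (Real.pi : ℂ) ^ 4 / 3 := by
    rw [mul_pow, hI]
    norm_num [Nat.factorial]
    ring
  rw [hc] at h
  exact h

/-- Rearrangement of a double series along the divisors. -/
theorem EisA_div {q : ℂ} (hq : ‖q‖ < 1) (w : ℕ → ℕ → ℂ) (hw : ∀ a b, ‖w a b‖ ≤ (a : ℝ) ^ 3) :
    HasSum (fun n : ℕ => (∑ x ∈ n.divisorsAntidiagonal, w x.1 x.2) * q ^ n)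
      (∑' d : ℕ+, ∑' a : ℕ+, w a d * q ^ ((a : ℕ) * d)) := by
  have h0 : Summable fun c : ℕ+ × ℕ+ => ((c.2 : ℕ) : ℝ) ^ 3 * ‖q‖ ^ (c.1 * c.2 : ℕ) :=
    summable_prod_mul_pow 3 (by simpa using hq)
  have h1 : Summable fun c : ℕ+ × ℕ+ => w c.2 c.1 * q ^ ((c.2 : ℕ) * c.1) := by
    refine Summable.of_norm_bounded h0 fun c => ?_
    rw [norm_mul, norm_pow, mul_comm (c.2 : ℕ)]
    exact mul_le_mul_of_nonneg_right (hw _ _) (by positivity)
  rw [← h1.tsum_prod]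
  have h2 : HasSum (fun c : ℕ+ × ℕ+ => w c.1 c.2 * q ^ ((c.1 : ℕ) * c.2))
      (∑' c : ℕ+ × ℕ+, w c.2 c.1 * q ^ ((c.2 : ℕ) * c.1)) :=
    (Equiv.prodComm ℕ+ ℕ+).hasSum_iff.1 h1.hasSum
  have h3 := (sigmaAntidiagonalEquivProd.hasSum_iff.2 h2).sigma fun n => hasSum_fintype _
  have h4 : HasSum (fun n : ℕ+ =>
      (∑ x ∈ (n : ℕ).divisorsAntidiagonal, w x.1 x.2) * q ^ (n : ℕ))
      (∑' c : ℕ+ × ℕ+, w c.2 c.1 * q ^ ((c.2 : ℕ) * c.1)) := by
    refine h3.congr_fun ?_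
    intro n
    rw [Finset.sum_mul, ← Finset.sum_attach]
    refine Finset.sum_congr rfl fun x _ => ?_
    exact congrArg (fun t => w x.1.1 x.1.2 * q ^ t) (Nat.mem_divisorsAntidiagonal.1 x.2).1.symm
  have h5 := (hasSum_pnat_iff
    (f := fun n : ℕ => (∑ x ∈ n.divisorsAntidiagonal, w x.1 x.2) * q ^ n)).1 h4
  simpa using h5

namespace Par

variable (P : Par)

theorem EisA_row {z : ℂ} (hz : 0 < z.im) (a : P.D) :
    ∑' b : ℤ, P.psi (a * b) * ((z - b) ^ 4)⁻¹ = 8 * (Real.pi : ℂ) ^ 4 / 3 / P.p ^ 6 *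
      ∑' n : ℕ+, (if ((n : ℕ) : P.D) = a then ((n : ℕ) : ℂ) ^ 3 else 0) *
        ee (z / (P.p ^ 2 : ℕ)) ^ (n : ℕ) := by
  have hp := P.p_ne
  have hN : (0 : ℝ) < (P.p ^ 2 : ℕ) := by exact_mod_cast pow_pos P.prime.pos 2
  have him : ∀ j : ℤ, 0 < ((z - j) / (P.p ^ 2 : ℕ)).im := fun j => by
    rw [Complex.div_natCast_im]
    simpa using div_pos hz hN
  have hq : ‖ee (z / (P.p ^ 2 : ℕ))‖ < 1 := by
    rw [norm_ee, Real.exp_lt_one_iff, neg_lt_zero]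
    have := him 0
    rw [Int.cast_zero, sub_zero] at this
    exact mul_pos Real.two_pi_pos this
  have h1 : ∀ b : ℤ, P.psi (a * b) * ((z - b) ^ 4)⁻¹ =
      ∑ j : P.D, P.psi (a * j) * if (b : P.D) = j then ((z - b) ^ 4)⁻¹ else 0 := fun b => by
    rw [Finset.sum_eq_single (b : P.D)]
    · simp
    · intro j _ hj
      rw [if_neg (Ne.symm hj), mul_zero]
    · simp
  have h2 : ∀ j : P.D, Summable fun b : ℤ =>
      if (b : P.D) = j then ((z - b) ^ 4)⁻¹ else (0 : ℂ) := fun j => by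
    refine Summable.of_norm_bounded (EisA_summable_row z) fun b => ?_
    split_ifs
    · exact le_rfl
    · simp
  have h3 : ∀ j : P.D, ∑' b : ℤ, (if (b : P.D) = j then ((z - b) ^ 4)⁻¹ else (0 : ℂ)) =
      8 * (Real.pi : ℂ) ^ 4 / 3 / P.p ^ 8 * ∑' n : ℕ+, ((n : ℕ) : ℂ) ^ 3 *
        ee (z / (P.p ^ 2 : ℕ)) ^ (n : ℕ) * P.psi (-(j * (n : ℕ))) := fun j => by
    obtain ⟨j, rfl⟩ := ZMod.intCast_surjective j
    rw [EisA_class (P.p ^ 2) (fun b : ℤ => ((z - b) ^ 4)⁻¹) j]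
    have e1 : ∀ n : ℤ, ((z - ((j - n * (P.p ^ 2 : ℕ) : ℤ) : ℂ)) ^ 4)⁻¹ =
        ((P.p : ℂ) ^ 8)⁻¹ * (((z - j) / (P.p ^ 2 : ℕ) + n) ^ 4)⁻¹ := fun n => by
      rw [← mul_inv]
      congr 1
      push_cast
      field_simp
      ring
    simp only [e1]
    rw [tsum_mul_left, EisA_lip (him j)]
    have e2 : ∀ n : ℕ+, ((n : ℕ) : ℂ) ^ 3 * ee ((z - j) / (P.p ^ 2 : ℕ)) ^ (n : ℕ) =
        ((n : ℕ) : ℂ) ^ 3 * ee (z / (P.p ^ 2 : ℕ)) ^ (n : ℕ) *
          P.psi (-((j : P.D) * (n : ℕ))) := fun n => by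
      have : -((j : P.D) * (n : ℕ)) = ((-(j * (n : ℕ)) : ℤ) : P.D) := by push_cast; ring
      rw [this, psi_int, mul_assoc, ← ee_nat_mul, ← ee_nat_mul, ← ee_add]
      congr 2
      push_cast
      ring
    simp only [e2]
    ring
  have h4 : ∀ j : P.D, Summable fun n : ℕ+ => P.psi (a * j) * (((n : ℕ) : ℂ) ^ 3 *
      ee (z / (P.p ^ 2 : ℕ)) ^ (n : ℕ) * P.psi (-(j * (n : ℕ)))) := fun j => by
    refine Summable.mul_left _ (Summable.of_norm_bounded (EisA_geom hq) fun n => ?_)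
    rw [norm_mul, norm_psi, mul_one]
  simp only [h1]
  rw [Summable.tsum_finsetSum fun j _ => (h2 j).mul_left _]
  simp only [tsum_mul_left, h3]
  have h5 : ∀ j : P.D, P.psi (a * j) * (8 * (Real.pi : ℂ) ^ 4 / 3 / P.p ^ 8 *
      ∑' n : ℕ+, ((n : ℕ) : ℂ) ^ 3 * ee (z / (P.p ^ 2 : ℕ)) ^ (n : ℕ) * P.psi (-(j * (n : ℕ)))) =
      8 * (Real.pi : ℂ) ^ 4 / 3 / P.p ^ 8 * ∑' n : ℕ+, P.psi (a * j) * (((n : ℕ) : ℂ) ^ 3 *
        ee (z / (P.p ^ 2 : ℕ)) ^ (n : ℕ) * P.psi (-(j * (n : ℕ)))) := fun j => by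
    rw [tsum_mul_left]
    ring
  simp only [h5]
  rw [← Finset.mul_sum, ← Summable.tsum_finsetSum fun j _ => h4 j]
  have h6 : ∀ n : ℕ+, ∑ j : P.D, P.psi (a * j) * (((n : ℕ) : ℂ) ^ 3 *
      ee (z / (P.p ^ 2 : ℕ)) ^ (n : ℕ) * P.psi (-(j * (n : ℕ)))) =
      (P.p : ℂ) ^ 2 * ((if ((n : ℕ) : P.D) = a then ((n : ℕ) : ℂ) ^ 3 else 0) *
        ee (z / (P.p ^ 2 : ℕ)) ^ (n : ℕ)) := fun n => by
    have e : ∀ j : P.D, P.psi (a * j) * (((n : ℕ) : ℂ) ^ 3 *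
        ee (z / (P.p ^ 2 : ℕ)) ^ (n : ℕ) * P.psi (-(j * (n : ℕ)))) =
        ((n : ℕ) : ℂ) ^ 3 * ee (z / (P.p ^ 2 : ℕ)) ^ (n : ℕ) * P.psi (j * (a - (n : ℕ))) :=
      fun j => by
        rw [show j * (a - (n : ℕ)) = a * j + -(j * (n : ℕ)) by ring, psi_add]
        ring
    simp only [e]
    rw [← Finset.mul_sum, sum_psi]
    by_cases h : ((n : ℕ) : P.D) = a
    · rw [if_pos h, if_pos (by rw [h, sub_self])]
      ring
    · rw [if_neg h, if_neg (fun h' => h (sub_eq_zero.1 h').symm)]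
      ring
  simp only [h6]
  rw [tsum_mul_left]
  field_simp

/-- One term of the series. -/
def EisA_t (k : P.D) (u : ℤ) (τ : ℍ) (x : ℤ × ℤ) : ℂ :=
  (starRingEnd ℂ) (P.gg k ![((u * x.1 : ℤ) : P.D), ((u * x.2 : ℤ) : P.D)]) *
    (((x.2 : ℂ) * τ - x.1) ^ 4)⁻¹

theorem EisA_eis (k : P.D) (τ : ℍ) :
    P.eis k τ = ∑ u ∈ Finset.Ico (1 : ℤ) P.p, ∑' x : ℤ × ℤ, P.EisA_t k u τ x := rfl

theorem EisA_t_summable (k : P.D) (u : ℤ) (τ : ℍ) : Summable (P.EisA_t k u τ) := by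
  refine Summable.of_norm_bounded (EisA_summable τ) fun x => ?_
  rw [EisA_t, norm_mul, Complex.norm_conj]
  exact mul_le_of_le_one_left (norm_nonneg _) (P.norm_gg_le _ _)

theorem EisA_t_S (k : P.D) (u : ℤ) (τ : ℍ) (x : ℤ × ℤ) :
    P.EisA_t k u (ModularGroup.S • τ) (-x.2, x.1) =
      (τ : ℂ) ^ 4 * P.M (fun k' => P.EisA_t k' u τ x) k := by
  have hτ : (τ : ℂ) ≠ 0 := τ.ne_zero
  have e1 : (![((u * -x.2 : ℤ) : P.D), ((u * x.1 : ℤ) : P.D)] : Fin 2 → P.D) =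
      P.act ModularGroup.S ![((u * x.1 : ℤ) : P.D), ((u * x.2 : ℤ) : P.D)] := by
    rw [act_S]
    simp
  have e2 : (((x.1 : ℂ) * (-(τ : ℂ)⁻¹) - ((-x.2 : ℤ) : ℂ)) ^ 4)⁻¹ =
      (τ : ℂ) ^ 4 * (((x.2 : ℂ) * τ - x.1) ^ 4)⁻¹ := by
    have : (x.1 : ℂ) * (-(τ : ℂ)⁻¹) - ((-x.2 : ℤ) : ℂ) = (τ : ℂ)⁻¹ * ((x.2 : ℂ) * τ - x.1) := by
      push_cast
      field_simp
      ring
    rw [this, mul_pow, mul_inv, inv_pow, inv_inv]
  have e3 : (fun k' => P.EisA_t k' u τ x) = fun k' => (((x.2 : ℂ) * τ - x.1) ^ 4)⁻¹ *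
      (starRingEnd ℂ) (P.gg k' ![((u * x.1 : ℤ) : P.D), ((u * x.2 : ℤ) : P.D)]) := by
    funext k'
    rw [EisA_t, mul_comm]
  rw [e3, M_const_mul, EisA_t]
  simp only
  rw [e1, gg_S, conj_Mb, coe_S_smul, e2]
  ring

theorem eis_S (k : P.D) (τ : ℍ) :
    P.eis k (ModularGroup.S • τ) = (τ : ℂ) ^ 4 * P.M (fun k' => P.eis k' τ) k := by
  have h1 : ∀ u : ℤ, ∑' x : ℤ × ℤ, P.EisA_t k u (ModularGroup.S • τ) x =
      (τ : ℂ) ^ 4 * P.M (fun k' => ∑' x : ℤ × ℤ, P.EisA_t k' u τ x) k := fun u => by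
    rw [← ((Equiv.prodComm ℤ ℤ).trans (Equiv.prodCongr (Equiv.neg ℤ) (Equiv.refl ℤ))).tsum_eq]
    have e : ∀ x : ℤ × ℤ, P.EisA_t k u (ModularGroup.S • τ)
        (((Equiv.prodComm ℤ ℤ).trans (Equiv.prodCongr (Equiv.neg ℤ) (Equiv.refl ℤ))) x) =
        (τ : ℂ) ^ 4 * P.M (fun k' => P.EisA_t k' u τ x) k := fun x => P.EisA_t_S k u τ x
    simp only [e, M]
    rw [tsum_mul_left, tsum_mul_left,
      Summable.tsum_finsetSum fun k' _ => (P.EisA_t_summable k' u τ).mul_left _]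
    simp only [tsum_mul_left]
  simp only [EisA_eis, h1, M]
  rw [← Finset.mul_sum, ← Finset.mul_sum, Finset.sum_comm]
  simp only [Finset.mul_sum]

/-- The weights in the divisor sum. -/
def EisA_w (k : P.D) (u : ℤ) (a d : ℕ) : ℂ :=
  if P.rd k = P.rd (2 * P.m * (u * d)) ∧ (a : P.D) = -(u * (k - P.m * (u * d)))
  then (a : ℂ) ^ 3 else 0

theorem EisA_eisd (k : P.D) (n : ℕ) : (P.eisd k n : ℂ) =
    ∑ u ∈ Finset.Ico (1 : ℤ) P.p, ∑ x ∈ n.divisorsAntidiagonal, P.EisA_w k u x.1 x.2 := by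
  simp only [eisd, EisA_w]
  push_cast
  rfl

theorem EisA_t_eq (k : P.D) (u : ℤ) (τ : ℍ) (b d : ℤ) : P.EisA_t k u τ (b, d) =
    if P.rd k = P.rd (2 * P.m * (u * d)) then
      P.psi (-(u * (k - P.m * (u * d))) * b) * (((d : ℂ) * τ - b) ^ 4)⁻¹ else 0 := by
  rw [EisA_t, conj_gg, gg]
  simp only [Matrix.cons_val_zero, Matrix.cons_val_one, Matrix.cons_val_fin_one]
  push_cast
  split_ifs
  · congr 2
    ring
  · rw [zero_mul]

theorem EisA_pos (k : P.D) (u : ℤ) (τ : ℍ) (d : ℕ+) :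
    ∑' b : ℤ, P.EisA_t k u τ (b, ((d : ℕ) : ℤ)) = 8 * (Real.pi : ℂ) ^ 4 / 3 / P.p ^ 6 *
      ∑' a : ℕ+, P.EisA_w k u a d * ee (τ / (P.p ^ 2 : ℕ)) ^ ((a : ℕ) * d) := by
  simp only [EisA_t_eq, EisA_w, Int.cast_natCast]
  by_cases h : P.rd k = P.rd (2 * P.m * (u * (d : ℕ)))
  · simp only [h, true_and, if_true]
    have hz : 0 < (((d : ℕ) : ℂ) * τ).im := by simpa using τ.im_pos
    rw [P.EisA_row hz]
    congr 1
    refine tsum_congr fun a => ?_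
    rw [mul_div_assoc, ee_nat_mul, ← pow_mul, mul_comm (d : ℕ)]
  · simp only [h, false_and, if_false, zero_mul, tsum_zero, mul_zero]

theorem EisA_neg (k : P.D) (u : ℤ) (τ : ℍ) (d : ℤ) :
    ∑' b : ℤ, P.EisA_t k u τ (b, -d) = ∑' b : ℤ, P.EisA_t (-k) u τ (b, d) := by
  rw [← (Equiv.neg ℤ).tsum_eq]
  refine tsum_congr fun b => ?_
  simp only [EisA_t, Equiv.neg_apply]
  rw [← gg_neg]
  congr 2
  · congr 1
    ext i
    fin_cases i <;> simp
  · push_cast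
    ring

theorem EisA_sum_u (x : P.F) :
    ∑ u ∈ Finset.Ico (1 : ℤ) P.p, P.zp (u * x) = (if x = 0 then (P.p : ℂ) else 0) - 1 := by
  rw [← sum_zp, eq_sub_iff_add_eq, ← P.zp_zero, ← zero_mul x, add_comm,
    ← Finset.add_sum_erase _ _ (Finset.mem_univ (0 : P.F))]
  congr 1
  refine Finset.sum_bij (fun u _ => (u : P.F)) (fun u hu => ?_) (fun u hu v hv h => ?_)
    (fun y hy => ?_) fun _ _ => rfl
  · rw [Finset.mem_Ico] at hu
    rw [Finset.mem_erase, Ne, ZMod.intCast_zmod_eq_zero_iff_dvd]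
    exact ⟨fun h => absurd (Int.le_of_dvd (by omega) h) (by omega), Finset.mem_univ _⟩
  · rw [Finset.mem_Ico] at hu hv
    have h1 := (ZMod.intCast_eq_intCast_iff u v P.p).1 h
    rwa [Int.ModEq, Int.emod_eq_of_lt (by omega) hu.2, Int.emod_eq_of_lt (by omega) hv.2] at h1
  · have h0 : y.val ≠ 0 := by
      rw [Ne, ZMod.val_eq_zero]
      exact (Finset.mem_erase.1 hy).1
    have h1 := ZMod.val_lt y
    exact ⟨(y.val : ℤ), Finset.mem_Ico.2 ⟨by omega, by omega⟩, by simp⟩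

theorem EisA_zero (k : P.D) (τ : ℍ) :
    45 * (P.p : ℂ) ^ 6 / Real.pi ^ 4 *
      ∑ u ∈ Finset.Ico (1 : ℤ) P.p, ∑' b : ℤ, P.EisA_t k u τ (b, 0) = P.eisc k 0 := by
  have hp := P.p_ne
  have hπ : (Real.pi : ℂ) ≠ 0 := by exact_mod_cast Real.pi_ne_zero
  have hs : Summable fun b : ℤ => ‖(((b : ℂ) ^ 4)⁻¹ : ℂ)‖ := by
    refine (EisA_summable_row 0).congr fun b => ?_
    simp
  have e4 : ∀ b : ℤ, ((-(b : ℂ)) ^ 4)⁻¹ = ((b : ℂ) ^ 4)⁻¹ := fun b => by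
    congr 1
    ring
  simp only [EisA_t_eq, eisc, Int.cast_zero, mul_zero, map_zero, sub_zero, zero_mul, zero_sub, e4,
    lt_irrefl, if_false, if_true]
  by_cases h : P.rd k = 0
  · obtain ⟨z, rfl⟩ := P.exists_up h
    have e : ∀ u b : ℤ, P.psi (-(u * P.up z) * b) = P.zp (u * -(z * b)) := fun u b => by
      rw [show -((u : P.D) * P.up z) * b = P.up z * ((-(u * b) : ℤ) : P.D) by push_cast; ring,
        up_mul, rd_int, psi_up]
      congr 1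
      push_cast
      ring
    simp only [h, if_true, e]
    rw [← Summable.tsum_finsetSum (fun u _ => Summable.of_norm_bounded hs fun b => by
      rw [norm_mul, norm_zp, one_mul])]
    simp only [← Finset.sum_mul, EisA_sum_u]
    by_cases hz : z = 0
    · subst hz
      simp only [zero_mul, neg_zero, if_true, up_zero]
      rw [tsum_mul_left, EisA_zeta]
      push_cast
      field_simp
    · have hz' : P.up z ≠ 0 := fun h' => hz (P.up_injective (h'.trans P.up_zero.symm))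
      have e' : ∀ b : ℤ, ((if -(z * (b : P.F)) = 0 then (P.p : ℂ) else 0) - 1) * ((b : ℂ) ^ 4)⁻¹ =
          P.p * (if (b : P.F) = ((0 : ℤ) : P.F) then ((b : ℂ) ^ 4)⁻¹ else 0) - ((b : ℂ) ^ 4)⁻¹ :=
        fun b => by
          by_cases hb : (b : P.F) = 0
          · simp [hb, sub_mul]
          · simp [hb, hz]
      have hs2 : Summable fun b : ℤ =>
          if (b : P.F) = ((0 : ℤ) : P.F) then ((b : ℂ) ^ 4)⁻¹ else (0 : ℂ) := by
        refine Summable.of_norm_bounded hs fun b => ?_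
        split_ifs
        · exact le_rfl
        · simp
      have e'' : ∀ n : ℤ, ((((0 - n * P.p : ℤ) : ℂ)) ^ 4)⁻¹ =
          ((P.p : ℂ) ^ 4)⁻¹ * ((n : ℂ) ^ 4)⁻¹ := fun n => by
        rw [← mul_inv]
        congr 1
        push_cast
        ring
      simp only [e', if_neg hz']
      rw [(hs2.mul_left _).tsum_sub hs.of_norm, tsum_mul_left,
        EisA_class P.p (fun b : ℤ => ((b : ℂ) ^ 4)⁻¹) 0]
      simp only [e'']
      rw [tsum_mul_left, EisA_zeta]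
      push_cast
      field_simp
  · have hk : k ≠ 0 := fun h' => h (by rw [h', map_zero])
    simp [h, hk]

theorem EisA_half (k : P.D) (τ : ℍ) :
    HasSum (fun n : ℕ => 120 * (P.eisd k n : ℂ) * ee (τ / (P.p ^ 2 : ℕ)) ^ n)
      (45 * (P.p : ℂ) ^ 6 / Real.pi ^ 4 * ∑ u ∈ Finset.Ico (1 : ℤ) P.p,
        ∑' d : ℕ+, ∑' b : ℤ, P.EisA_t k u τ (b, ((d : ℕ) : ℤ))) := by
  have hp := P.p_ne
  have hπ : (Real.pi : ℂ) ≠ 0 := by exact_mod_cast Real.pi_ne_zero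
  have hN : (0 : ℝ) < (P.p ^ 2 : ℕ) := by exact_mod_cast pow_pos P.prime.pos 2
  have hq : ‖ee (τ / (P.p ^ 2 : ℕ))‖ < 1 := by
    rw [norm_ee, Real.exp_lt_one_iff, neg_lt_zero, Complex.div_natCast_im]
    exact mul_pos Real.two_pi_pos (div_pos τ.im_pos hN)
  have h1 := (hasSum_sum fun u (_ : u ∈ Finset.Ico (1 : ℤ) P.p) =>
    EisA_div hq (P.EisA_w k u) fun a b => by
      rw [EisA_w]
      split_ifs
      · simp
      · simp).mul_left 120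
  have hc : 45 * (P.p : ℂ) ^ 6 / Real.pi ^ 4 * (8 * (Real.pi : ℂ) ^ 4 / 3 / P.p ^ 6) = 120 := by
    field_simp
    norm_num
  simp only [EisA_pos, tsum_mul_left, ← Finset.mul_sum, EisA_eisd]
  rw [← mul_assoc, hc]
  refine h1.congr_fun fun n => ?_
  rw [mul_assoc, Finset.sum_mul]

theorem eis_qs (k : P.D) : QS (P.p ^ 2) (fun ν => (P.eisc k ν : ℂ))
    fun τ => 45 * (P.p : ℂ) ^ 6 / Real.pi ^ 4 * P.eis k τ := by
  have key : ∀ τ : ℍ, HasSum (fun n : ℕ => (P.eisc k n : ℂ) * ee (τ / (P.p ^ 2 : ℕ)) ^ n)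
      (45 * (P.p : ℂ) ^ 6 / Real.pi ^ 4 * P.eis k τ) := fun τ => by
    have h1 : ∀ u : ℤ, ∑' x : ℤ × ℤ, P.EisA_t k u τ x = ∑' b : ℤ, P.EisA_t k u τ (b, 0) +
        ∑' d : ℕ+, ∑' b : ℤ, P.EisA_t k u τ (b, ((d : ℕ) : ℤ)) +
        ∑' d : ℕ+, ∑' b : ℤ, P.EisA_t (-k) u τ (b, ((d : ℕ) : ℤ)) := fun u => by
      have hs := (P.EisA_t_summable k u τ).prod_symm
      rw [← (Equiv.prodComm ℤ ℤ).tsum_eq]
      change ∑' x : ℤ × ℤ, P.EisA_t k u τ x.swap = _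
      rw [hs.tsum_prod, tsum_int_eq_zero_add_tsum_pnat hs.prod]
      simp only [Prod.swap, EisA_neg]
    have h2 := ((hasSum_ite_eq (0 : ℕ) (P.eisc k 0 : ℂ)).add (P.EisA_half k τ)).add
      (P.EisA_half (-k) τ)
    rw [← P.EisA_zero k τ, ← mul_add, ← mul_add, ← Finset.sum_add_distrib,
      ← Finset.sum_add_distrib] at h2
    simp only [EisA_eis, h1]
    refine h2.congr_fun ?_
    intro n
    rw [P.EisA_zero k τ]
    rcases Nat.eq_zero_or_pos n with rfl | hn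
    · simp [eisd]
    · rw [if_neg hn.ne', eisc, if_neg (by omega), if_neg (by omega), Int.toNat_natCast]
      push_cast
      ring
  refine (QS.of_nat 0 key).congr (fun ν => ?_) fun τ => ?_
  · split_ifs with h
    · rw [sub_zero, Int.toNat_of_nonneg h]
    · rw [eisc, if_pos (by omega), Int.cast_zero]
  · simp [ee_zero]

end Par

end

end Pool.Agent.P.MP_a60a76_nt.Sz
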