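import Pool.Agent.P.MP_a60a76_nt.Sz.EisA
import Pool.Agent.P.MP_a60a76_nt.Sz.Lev1
import Pool.Agent.P.MP_a60a76_nt.Sz.FCov

namespace Pool.Agent.P.MP_a60a76_nt.Sz

open UpperHalfPlane MeasureTheory SP
open scoped MatrixGroups UpperHalfPlane Matrix Modular Topology Classical ArithmeticFunction.sigma

noncomputable section

/-! The Eisenstein vector: arithmetic of the coefficients. -/

theorem EisB_e4c_pos (n : ℕ) : 0 < e4c n := by
  unfold e4c
  split_ifs with h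
  · exact one_pos
  · have := ArithmeticFunction.sigma_pos 3 n h
    positivity

theorem EisB_sigma_le (n : ℕ) : (σ 3 n : ℤ) ≤ (1 + n) ^ 4 := by
  have h : (σ 3 n : ℤ) ≤ (n : ℤ) ^ 4 := by exact_mod_cast ArithmeticFunction.sigma_le_pow_succ 3 n
  exact h.trans (pow_le_pow_left₀ (by positivity) (by linarith) 4)

theorem EisB_e4c_le (n : ℕ) : e4c n ≤ 240 * (1 + n) ^ 4 := by
  unfold e4c
  split_ifs with h
  · subst h
    norm_num
  · linarith [EisB_sigma_le n]

namespace Par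

variable (P : Par)

/-- The contribution of the Eisenstein series of level one. -/
def EisB_e (k : P.D) (ν : ℤ) : ℤ :=
  if P.rd k = 0 ∧ ((P.p ^ 2 : ℕ) : ℤ) ∣ ν ∧ 0 ≤ ν then
    (P.p : ℤ) ^ 6 * e4c (ν / ((P.p ^ 2 : ℕ) : ℤ)).toNat else 0

theorem EisB_p_pos : (0 : ℤ) < P.p := by exact_mod_cast P.prime.pos

theorem EisB_e_nonneg (k : P.D) (ν : ℤ) : 0 ≤ P.EisB_e k ν := by
  unfold EisB_e
  split_ifs
  · exact mul_nonneg (by positivity) (EisB_e4c_pos _).le
  · exact le_rfl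

theorem EisB_e_zero {k : P.D} (h : P.rd k = 0) : P.EisB_e k 0 = (P.p : ℤ) ^ 6 := by
  rw [EisB_e, if_pos ⟨h, dvd_zero _, le_rfl⟩]
  simp [e4c]

theorem EisB_e_le (k : P.D) {ν : ℤ} (hν : 0 ≤ ν) :
    P.EisB_e k ν ≤ (P.p : ℤ) ^ 6 * (240 * (1 + ν) ^ 4) := by
  unfold EisB_e
  split_ifs
  · refine mul_le_mul_of_nonneg_left ((EisB_e4c_le _).trans ?_) (by positivity)
    have h0 : 0 ≤ ν / ((P.p ^ 2 : ℕ) : ℤ) := Int.ediv_nonneg hν (by positivity)
    have h1 : ν / ((P.p ^ 2 : ℕ) : ℤ) ≤ ν := Int.ediv_le_self _ hν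
    rw [Int.toNat_of_nonneg h0]
    gcongr
  · positivity

theorem EisB_e_qs (k : P.D) : QS (P.p ^ 2) (fun ν => (P.EisB_e k ν : ℂ))
    fun τ => (P.p : ℂ) ^ 6 * (if P.rd k = 0 then 1 else 0) * E4 τ := by
  have hp : 0 < P.p ^ 2 := pow_pos P.prime.pos 2
  have h := (qs_E4.scale hp).const_mul ((P.p : ℂ) ^ 6 * if P.rd k = 0 then 1 else 0)
  rw [mul_one] at h
  refine h.congr (fun ν => ?_) fun _ => rfl
  have hp' : (0 : ℤ) < ((P.p ^ 2 : ℕ) : ℤ) := by exact_mod_cast hp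
  unfold EisB_e zx
  by_cases h1 : P.rd k = 0
  · by_cases h2 : ((P.p ^ 2 : ℕ) : ℤ) ∣ ν
    · by_cases h3 : 0 ≤ ν
      · rw [if_pos h1, if_pos h2, if_pos (Int.ediv_nonneg h3 hp'.le), if_pos ⟨h1, h2, h3⟩]
        push_cast
        ring
      · rw [if_pos h2, if_neg (not_le.2 (Int.ediv_neg_of_neg_of_pos (not_le.1 h3) hp')),
          mul_zero, if_neg fun h => h3 h.2.2, Int.cast_zero]
    · rw [if_neg h2, mul_zero, if_neg fun h => h2 h.2.1, Int.cast_zero]
  · rw [if_neg h1, mul_zero, zero_mul, if_neg fun h => h1 h.1, Int.cast_zero]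

theorem EisB_Q_zero {k : P.D} (h : P.rd k = 0) : P.Q k = 0 := by
  obtain ⟨z, rfl⟩ := P.exists_up h
  exact P.Q_up z

theorem EisB_Q {k x : P.D} (h : P.rd k = P.rd (2 * P.m * x)) : P.Q k = x * (k - P.m * x) := by
  obtain ⟨z, hz⟩ := P.exists_up (k := k - 2 * P.m * x) (by rw [map_sub, h, sub_self])
  have h2 : P.up z * P.up z = 0 := by rw [up_mul, rd_up, mul_zero, up_zero]
  rw [Q_eq_iff, ← hz] at *
  linear_combination h2

theorem EisB_eisd_nonneg (k : P.D) (n : ℕ) : 0 ≤ P.eisd k n :=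
  Finset.sum_nonneg fun _ _ => Finset.sum_nonneg fun _ _ => by split_ifs <;> positivity

theorem EisB_eisd_le (k : P.D) (n : ℕ) : P.eisd k n ≤ P.p * (1 + n) ^ 4 := by
  have h : ∀ u ∈ Finset.Ico (1 : ℤ) P.p, (∑ x ∈ n.divisorsAntidiagonal,
      if P.rd k = P.rd (2 * P.m * (u * x.2)) ∧ (x.1 : P.D) = -(u * (k - P.m * (u * x.2)))
      then (x.1 : ℤ) ^ 3 else 0) ≤ (1 + n) ^ 4 := fun u _ => by
    refine le_trans (Finset.sum_le_sum fun x _ => ?_ :
      _ ≤ ∑ x ∈ n.divisorsAntidiagonal, (x.1 : ℤ) ^ 3) (le_trans (le_of_eq ?_) (EisB_sigma_le n))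
    · split_ifs
      · exact le_rfl
      · positivity
    · rw [Nat.sum_divisorsAntidiagonal fun a _ => (a : ℤ) ^ 3, ArithmeticFunction.sigma_apply]
      push_cast
      rfl
  refine (Finset.sum_le_card_nsmul _ _ _ h).trans ?_
  rw [Int.card_Ico, nsmul_eq_mul]
  gcongr
  omega

theorem EisB_eisd_supp {k : P.D} {n : ℕ} (h : P.eisd k n ≠ 0) : (n : P.D) = -P.Q k := by
  obtain ⟨u, -, hu⟩ := Finset.exists_ne_zero_of_sum_ne_zero h
  obtain ⟨x, hx, hx'⟩ := Finset.exists_ne_zero_of_sum_ne_zero hu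
  have hc := (ite_ne_right_iff.1 hx').1
  rw [P.EisB_Q hc.1, ← (Nat.mem_divisorsAntidiagonal.1 hx).1, Nat.cast_mul, hc.2]
  ring

theorem EisB_Ico (g : P.F → ℤ) : ∑ u ∈ Finset.Ico (1 : ℤ) P.p, g u = ∑ w, g w - g 0 := by
  rw [eq_sub_iff_add_eq, add_comm, ← Finset.add_sum_erase _ _ (Finset.mem_univ (0 : P.F))]
  congr 1
  refine Finset.sum_bij (fun u _ => (u : P.F)) (fun u hu => ?_) (fun u hu v hv h => ?_)
    (fun y hy => ?_) fun _ _ => rfl
  · rw [Finset.mem_Ico] at hu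
    rw [Finset.mem_erase, Ne, ZMod.intCast_zmod_eq_zero_iff_dvd]
    exact ⟨fun h => absurd (Int.le_of_dvd (by omega) h) (by omega), Finset.mem_univ _⟩
  · rw [Finset.mem_Ico] at hu hv
    have h1 := (ZMod.intCast_eq_intCast_iff u v P.p).1 h
    rwa [Int.ModEq, Int.emod_eq_of_lt (by omega) hu.2, Int.emod_eq_of_lt (by omega) hv.2] at h1
  · have h0 : y.val ≠ 0 := by
      rw [Ne, ZMod.val_eq_zero]
      exact (Finset.mem_erase.1 hy).1
    have h1 := ZMod.val_lt y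
    exact ⟨(y.val : ℤ), Finset.mem_Ico.2 ⟨by omega, by omega⟩, by simp⟩

theorem EisB_up_nat (a : ℕ) : ((P.p * a : ℕ) : P.D) = P.up (a : P.F) := by
  have := P.up_int a
  rw [Int.cast_natCast] at this
  rw [this]
  push_cast
  rfl

/-- The number of solutions does not depend on the isotropic class. -/
theorem EisB_count {z a d : P.F} (hz : z ≠ 0) (had : a = 0 ∨ d = 0) (c : ℤ) :
    (∑ w : P.F, if a = -(z * w) + P.m * w ^ 2 * d then c else 0)
      = ∑ w : P.F, if a = -(1 * w) + P.m * w ^ 2 * d then c else 0 := by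
  rcases had with rfl | rfl
  · rw [← Equiv.sum_comp (Equiv.mulLeft₀ z hz)]
    refine Finset.sum_congr rfl fun w _ => if_congr ?_ rfl rfl
    rw [Equiv.mulLeft₀_apply, show -(z * (z * w)) + P.m * (z * w) ^ 2 * d
      = z ^ 2 * (-(1 * w) + P.m * w ^ 2 * d) by ring, eq_comm, mul_eq_zero, eq_comm (a := 0)]
    exact or_iff_right (pow_ne_zero 2 hz)
  · rw [← Equiv.sum_comp (Equiv.mulLeft₀ z hz) fun w =>
      if a = -(1 * w) + P.m * w ^ 2 * 0 then c else 0]
    refine Finset.sum_congr rfl fun w _ => if_congr ?_ rfl rfl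
    rw [Equiv.mulLeft₀_apply, one_mul, mul_zero, mul_zero]

theorem EisB_eisd_same {n : ℕ} (hn : P.p ^ 3 ∣ n) {z : P.F} (hz : z ≠ 0) :
    P.eisd (P.up z) n = P.eisd (P.up 1) n := by
  unfold eisd
  rw [Finset.sum_comm, Finset.sum_comm (s := Finset.Ico (1 : ℤ) P.p)]
  refine Finset.sum_congr rfl fun x hx => ?_
  obtain ⟨a, d⟩ := x
  have had : a * d = n := (Nat.mem_divisorsAntidiagonal.1 hx).1
  by_cases hd : P.p ∣ d
  · obtain ⟨d, rfl⟩ := hd
    by_cases ha : P.p ∣ a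
    · obtain ⟨a, rfl⟩ := ha
      have h0 : (a : P.F) = 0 ∨ (d : P.F) = 0 := by
        rw [← mul_eq_zero, ← Nat.cast_mul, ZMod.natCast_eq_zero_iff]
        refine Nat.dvd_of_mul_dvd_mul_left (pow_pos P.prime.pos 2) ?_
        rw [← pow_succ, show P.p ^ 2 * (a * d) = n by rw [← had]; ring]
        exact hn
      have key : ∀ (y : P.F) (u : ℤ), (P.rd (P.up y) = P.rd (2 * P.m * (u * ((P.p * d : ℕ) : P.D))) ∧
          ((P.p * a : ℕ) : P.D) = -(u * (P.up y - P.m * (u * ((P.p * d : ℕ) : P.D))))) ↔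
          (a : P.F) = -(y * u) + P.m * (u : P.F) ^ 2 * d := fun y u => by
        have e1 : P.up (y * u) = P.up y * u := by rw [up_mul, rd_int]
        have e2 : P.up (P.m * (u : P.F) ^ 2 * d) = P.up d * (P.m * u ^ 2) := by
          rw [up_mul, map_mul, map_pow, rd_int, rd_int, mul_comm]
        rw [EisB_up_nat, EisB_up_nat, ← P.up_injective.eq_iff (a := (a : P.F)), up_add, up_neg, e1,
          e2, map_mul, map_mul P.rd (u : P.D), rd_up, rd_up, mul_zero, mul_zero, and_iff_right rfl]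
        exact Eq.congr_right (by ring)
      simp only [key]
      rw [P.EisB_Ico fun w => if (a : P.F) = -(z * w) + P.m * w ^ 2 * d then _ else 0,
        P.EisB_Ico fun w => if (a : P.F) = -(1 * w) + P.m * w ^ 2 * d then _ else 0,
        P.EisB_count hz h0, mul_zero, mul_zero]
    · have key : ∀ (y : P.F) (u : ℤ),
          ¬ (a : P.D) = -(u * (P.up y - P.m * (u * ((P.p * d : ℕ) : P.D)))) := fun y u h => by
        have h' := congrArg P.rd h
        rw [EisB_up_nat, map_neg, map_mul, map_sub, map_mul, map_mul, rd_up, rd_up, map_natCast,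
          mul_zero, mul_zero, sub_zero, mul_zero, neg_zero, ZMod.natCast_eq_zero_iff] at h'
        exact ha h'
      simp only [key, and_false, if_false]
  · have key : ∀ (y : P.F), ∀ u ∈ Finset.Ico (1 : ℤ) P.p,
        ¬ P.rd (P.up y) = P.rd (2 * P.m * (u * (d : P.D))) := fun y u hu h => by
      rw [Finset.mem_Ico] at hu
      rw [rd_up, map_mul, map_mul, map_mul, rd_int, rd_int, map_natCast, map_ofNat] at h
      refine mul_ne_zero (mul_ne_zero P.two_ne P.m_ne) (mul_ne_zero ?_ ?_) h.symm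
      · rw [Ne, ZMod.intCast_zmod_eq_zero_iff_dvd]
        exact fun h => absurd (Int.le_of_dvd (by omega) h) (by omega)
      · rwa [Ne, ZMod.natCast_eq_zero_iff]
    refine Finset.sum_congr rfl fun u hu => ?_
    rw [if_neg fun h => key z u hu h.1, if_neg fun h => key 1 u hu h.1]

theorem EisB_eisd_pos {k : P.D} {a d : ℕ} (ha : 0 < a) (hd : 0 < d)
    (h1 : P.rd k = P.rd (2 * P.m * d)) (h2 : (a : P.D) = -(k - P.m * d)) :
    0 < P.eisd k (a * d) := by
  have h5 := P.five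
  refine Finset.sum_pos' (fun _ _ => Finset.sum_nonneg fun _ _ => by split_ifs <;> positivity)
    ⟨1, Finset.mem_Ico.2 ⟨le_rfl, by omega⟩, Finset.sum_pos'
      (fun _ _ => by split_ifs <;> positivity)
      ⟨(a, d), Nat.mem_divisorsAntidiagonal.2 ⟨rfl, (Nat.mul_pos ha hd).ne'⟩, ?_⟩⟩
  rw [Int.cast_one, one_mul, one_mul, if_pos ⟨h1, h2⟩]
  positivity

theorem EisB_eisc_pos (k : P.D) {ν : ℤ} (hν : 0 < ν) :
    P.eisc k ν = 120 * (P.eisd k ν.toNat + P.eisd (-k) ν.toNat) := by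
  rw [eisc, if_neg (not_lt.2 hν.le), if_neg hν.ne']

theorem EisB_eisc_neg (k : P.D) {ν : ℤ} (hν : ν < 0) : P.eisc k ν = 0 := by rw [eisc, if_pos hν]

theorem EisB_eisc_zero (k : P.D) : P.eisc k 0 = if k = 0 then (P.p : ℤ) ^ 6 * (P.p - 1)
    else if P.rd k = 0 then (P.p : ℤ) ^ 3 - (P.p : ℤ) ^ 6 else 0 := by
  rw [eisc, if_neg (lt_irrefl _), if_pos rfl]

theorem EisB_eisc_nonneg (k : P.D) {ν : ℤ} (hν : 0 < ν) : 0 ≤ P.eisc k ν := by
  rw [P.EisB_eisc_pos k hν]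
  linarith [P.EisB_eisd_nonneg k ν.toNat, P.EisB_eisd_nonneg (-k) ν.toNat]

theorem EisB_isF : P.IsF 4 fun k ν => P.eisc k ν + P.EisB_e k ν := by
  refine (isF_of (f := fun k τ => 45 * (P.p : ℂ) ^ 6 / Real.pi ^ 4 * P.eis k τ +
    (P.p : ℂ) ^ 6 * (if P.rd k = 0 then 1 else 0) * E4 τ) (fun k => ?_) (fun k ν => ?_)
    (fun k ν h => ?_) fun k τ => ?_).1
  · exact ((P.eis_qs k).add (P.EisB_e_qs k)).congr (fun ν => by push_cast; rfl) fun _ => rfl
  · simp only [eisc, EisB_e, map_neg, neg_eq_zero, neg_neg, add_comm (P.eisd (-k) _)]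
  · by_cases h1 : P.EisB_e k ν = 0
    · rw [h1, add_zero] at h
      rcases lt_trichotomy ν 0 with h2 | h2 | h2
      · exact absurd (P.EisB_eisc_neg k h2) h
      · subst h2
        rw [EisB_eisc_zero] at h
        have : P.rd k = 0 := by
          by_contra h3
          rw [if_neg fun e => h3 (by rw [e, map_zero]), if_neg h3] at h
          exact h rfl
        rw [P.EisB_Q_zero this, neg_zero, Int.cast_zero]
      · rw [P.EisB_eisc_pos k h2] at h
        rw [← Int.toNat_of_nonneg h2.le, Int.cast_natCast]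
        by_cases h3 : P.eisd k ν.toNat = 0
        · rw [← Q_neg]
          exact P.EisB_eisd_supp fun h4 => h (by rw [h3, h4]; rfl)
        · exact P.EisB_eisd_supp h3
    · have h2 := (ite_ne_right_iff.1 h1).1
      rw [P.EisB_Q_zero h2.1, neg_zero]
      exact (ZMod.intCast_zmod_eq_zero_iff_dvd _ _).2 h2.2.1
  · have e : ∀ k', (P.p : ℂ) ^ 6 * (if P.rd k' = 0 then 1 else 0) * E4 τ
        = (P.p : ℂ) ^ 6 * E4 τ * if P.rd k' = 0 then 1 else 0 := fun k' => by ring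
    simp only [e]
    rw [M_add, M_const_mul, M_const_mul, M_oneI, eis_S, E4_smul, dn_S, zpow_ofNat]
    ring

theorem EisB_pos (k : P.D) (μ : ℤ) (hμ : (μ : P.D) = P.Q k) : ∃ n : ℤ, 0 < n ∧ μ < n * P.p ^ 3 ∧
    0 < P.eisc k (n * P.p ^ 3 - μ) + P.EisB_e k (n * P.p ^ 3 - μ) := by
  have hp := P.EisB_p_pos
  have hp3 : (1 : ℤ) ≤ P.p ^ 3 := one_le_pow₀ hp
  by_cases hk : P.rd k = 0
  · have h1 : μ < (|μ| + 1) * P.p ^ 3 := by nlinarith [le_abs_self μ, abs_nonneg μ]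
    refine ⟨|μ| + 1, by positivity, h1,
      add_pos_of_nonneg_of_pos (P.EisB_eisc_nonneg k (sub_pos.2 h1)) ?_⟩
    rw [P.EisB_Q_zero hk, ZMod.intCast_zmod_eq_zero_iff_dvd] at hμ
    rw [EisB_e, if_pos ⟨hk, dvd_sub (Dvd.intro_left ((|μ| + 1) * P.p) (by push_cast; ring)) hμ,
      (sub_pos.2 h1).le⟩]
    exact mul_pos (by positivity) (EisB_e4c_pos _)
  · have h2m : (2 * P.m : P.F) ≠ 0 := mul_ne_zero P.two_ne P.m_ne
    obtain ⟨d, hd⟩ : ∃ d : ℕ, (d : P.F) = P.rd k / (2 * P.m) :=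
      ⟨(P.rd k / (2 * P.m)).val, ZMod.natCast_zmod_val _⟩
    have hd0 : (d : P.F) ≠ 0 := by rw [hd]; exact div_ne_zero hk h2m
    have hdp : 0 < d := Nat.pos_of_ne_zero fun e => hd0 (by rw [e, Nat.cast_zero])
    have hd1 : (1 : ℤ) ≤ d := by exact_mod_cast hdp
    have h1 : P.rd k = P.rd (2 * P.m * d) := by
      rw [map_mul, map_mul, rd_int, map_natCast, map_ofNat, hd, mul_div_cancel₀ _ h2m]
    have hco : IsCoprime (d : ℤ) ((P.p : ℤ) ^ 3) := by
      refine IsCoprime.pow_right (Nat.isCoprime_iff_coprime.2 ?_)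
      exact ((Nat.Prime.coprime_iff_not_dvd P.prime).2
        fun h => hd0 ((ZMod.natCast_eq_zero_iff _ _).2 h)).symm
    obtain ⟨s, t, hst⟩ := hco
    obtain ⟨j, hj⟩ : ∃ j : ℤ, j = |μ * s| + |μ * t| + 1 := ⟨_, rfl⟩
    have b1 := le_abs_self (μ * s)
    have b2 := neg_abs_le (μ * t)
    have b3 := abs_nonneg (μ * s)
    have b4 := abs_nonneg (μ * t)
    have ha0 : 0 < -(μ * s) + j * P.p ^ 3 := by nlinarith
    have hn0 : 0 < μ * t + j * d := by nlinarith
    obtain ⟨a, ha⟩ := Int.eq_ofNat_of_zero_le ha0.le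
    have hap : 0 < a := by omega
    have e : (μ * t + j * d) * P.p ^ 3 - μ = ((a * d : ℕ) : ℤ) := by
      rw [Nat.cast_mul, ← ha]
      linear_combination μ * hst
    have hν : (0 : ℤ) < ((a * d : ℕ) : ℤ) := by exact_mod_cast Nat.mul_pos hap hdp
    have h2 : (a : P.D) = -(k - P.m * d) := by
      have hu : IsUnit (d : P.D) := P.isUnit_of_rd (by rwa [map_natCast])
      have h3 : (P.p : P.D) ^ 2 = 0 := by rw [← Nat.cast_pow, ZMod.natCast_self]
      have h4 := congrArg (Int.cast : ℤ → P.D) e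
      push_cast at h4
      rw [hμ, P.EisB_Q h1] at h4
      refine hu.mul_right_cancel ?_
      linear_combination -h4 + (↑d * (k - ↑P.m * ↑d) * ↑t + ↑j * ↑d) * P.p * h3
    refine ⟨μ * t + j * d, hn0, by linarith, add_pos_of_pos_of_nonneg ?_ (P.EisB_e_nonneg _ _)⟩
    rw [e, P.EisB_eisc_pos k hν, Int.toNat_natCast]
    linarith [P.EisB_eisd_pos hap hdp h1 h2, P.EisB_eisd_nonneg (-k) (a * d)]

end Par

theorem Par.exists_isEis (P : Par) : ∃ a, P.IsEis a := by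
  have hp := P.EisB_p_pos
  refine ⟨fun k ν => P.eisc k ν + P.EisB_e k ν, P.EisB_isF, fun k ν h => ?_, fun k ν => ?_, ?_, ?_,
    fun n z hz => ?_, P.EisB_pos⟩
  · rw [P.EisB_eisc_neg k h, Par.EisB_e, if_neg fun h' => not_le.2 h h'.2.2, add_zero]
  · rcases lt_trichotomy ν 0 with h | h | h
    · rw [P.EisB_eisc_neg k h, zero_add]
      exact P.EisB_e_nonneg k ν
    · subst h
      rw [P.EisB_eisc_zero]
      split_ifs with h1 h2
      · exact add_nonneg (mul_nonneg (by positivity) (by linarith)) (P.EisB_e_nonneg _ _)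
      · rw [P.EisB_e_zero h2, sub_add_cancel]
        positivity
      · rw [zero_add]
        exact P.EisB_e_nonneg _ _
    · exact add_nonneg (P.EisB_eisc_nonneg k h) (P.EisB_e_nonneg k ν)
  · refine ⟨(((P.p : ℤ) ^ 7 + 240 * P.p + P.p ^ 6 * 240 : ℤ) : ℝ), fun k ν hν => ?_⟩
    have h1 : (1 : ℤ) ≤ (1 + ν) ^ 4 := one_le_pow₀ (by linarith)
    have h2 : P.eisc k ν ≤ ((P.p : ℤ) ^ 7 + 240 * P.p) * (1 + ν) ^ 4 := by
      rcases hν.eq_or_lt with h | h
      · subst h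
        have h3 : (P.p : ℤ) ^ 3 ≤ P.p ^ 7 := pow_le_pow_right₀ hp (by norm_num)
        have h4 : (0 : ℤ) < P.p ^ 6 := by positivity
        have h5 : (0 : ℤ) < P.p ^ 7 := by positivity
        rw [P.EisB_eisc_zero]
        split_ifs <;> linarith
      · have h3 := P.EisB_eisd_le k ν.toNat
        have h4 := P.EisB_eisd_le (-k) ν.toNat
        have h5 : (0 : ℤ) ≤ P.p ^ 7 * (1 + ν) ^ 4 := by positivity
        rw [Int.toNat_of_nonneg hν] at h3 h4
        rw [P.EisB_eisc_pos k h]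
        linarith
    have h3 : P.eisc k ν + P.EisB_e k ν
        ≤ ((P.p : ℤ) ^ 7 + 240 * P.p + P.p ^ 6 * 240) * (1 + ν) ^ 4 := by
      linarith [P.EisB_e_le k hν]
    exact_mod_cast h3
  · rw [P.EisB_eisc_zero, if_pos rfl, P.EisB_e_zero (map_zero _)]
    have : (0 : ℤ) < P.p ^ 6 * P.p := by positivity
    linarith
  · have hup : ∀ y : P.F, y ≠ 0 → P.up y ≠ 0 := fun y hy h =>
      hy (P.up_injective (h.trans P.up_zero.symm))
    congr 1
    · rcases lt_trichotomy (n * (P.p : ℤ) ^ 3) 0 with h | h | h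
      · rw [P.EisB_eisc_neg _ h, P.EisB_eisc_neg _ h]
      · rw [h, P.EisB_eisc_zero, P.EisB_eisc_zero, if_neg (hup z hz), if_neg (hup 1 one_ne_zero),
          P.rd_up, P.rd_up]
      · have hd : P.p ^ 3 ∣ (n * (P.p : ℤ) ^ 3).toNat := by
          rw [← Int.natCast_dvd_natCast, Int.toNat_of_nonneg h.le]
          exact Dvd.intro_left n (by push_cast; rfl)
        rw [P.EisB_eisc_pos _ h, P.EisB_eisc_pos _ h, ← P.up_neg, ← P.up_neg,
          P.EisB_eisd_same hd hz, P.EisB_eisd_same hd (neg_ne_zero.2 hz),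
          P.EisB_eisd_same hd (neg_ne_zero.2 one_ne_zero)]
    · simp only [Par.EisB_e, P.rd_up]

end

end Pool.Agent.P.MP_a60a76_nt.Sz
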