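import Pool.Agent.P.MP_a60a76_nt.Sz.QSa
import Pool.Agent.P.MP_a60a76_nt.Sz.Ev

namespace Pool.Agent.P.MP_a60a76_nt.Sz

open UpperHalfPlane MeasureTheory SP
open scoped MatrixGroups UpperHalfPlane Matrix Modular Topology Classical ArithmeticFunction.sigma

noncomputable section

/-! The exponential of a power series. -/

theorem Exp_congr {ι : Type} {f g : ι → ℂ} {a : ℂ} (h : HasSum f a) (e : ∀ i, g i = f i) :
    HasSum g a := (funext e : g = f) ▸ h

theorem Exp_summable {h : ℕ → ℂ} {C : ℝ} (hb : ∀ N, ‖h N‖ ≤ C * Real.exp (C * N))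
    {r : ℝ} (h0 : 0 ≤ r) (hr : r * Real.exp C < 1) :
    Summable fun N => ‖h (N + 1)‖ * r ^ (N + 1) := by
  have h1 : Summable fun N : ℕ => C * (r * Real.exp C) ^ N :=
    (summable_geometric_of_lt_one (by positivity) hr).mul_left C
  refine Summable.of_nonneg_of_le (fun N => by positivity) (fun N => ?_)
    ((summable_nat_add_iff 1).2 h1)
  refine (mul_le_mul_of_nonneg_right (hb (N + 1)) (by positivity)).trans (le_of_eq ?_)
  rw [mul_comm C (((N + 1 : ℕ) : ℝ)), Real.exp_nat_mul, mul_pow]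
  ring

theorem Exp_succ (h : ℕ → ℂ) (N : ℕ) : EE h (N + 1) =
    (∑ k ∈ Finset.range (N + 1), ((k : ℂ) + 1) * h (k + 1) * EE h (N - k)) / (N + 1) := by
  rw [EE, Finset.sum_range fun k => ((k : ℂ) + 1) * h (k + 1) * EE h (N - k)]

theorem Exp_taylor {f : ℂ → ℂ} {R : ℝ} (hf : DifferentiableOn ℂ f (Metric.ball 0 R)) {z : ℂ}
    (hz : z ∈ Metric.ball (0 : ℂ) R) :
    HasSum (fun n : ℕ => (n.factorial : ℂ)⁻¹ * iteratedDeriv n f 0 * z ^ n) (f z) := by
  have h := Complex.hasSum_taylorSeries_on_ball hf hz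
  simp only [smul_eq_mul, sub_zero] at h
  simpa only [mul_assoc, mul_comm (z ^ _)] using h

theorem EE_hasSum {h : ℕ → ℂ} {C : ℝ} (hC : 0 ≤ C) (hb : ∀ N, ‖h N‖ ≤ C * Real.exp (C * N))
    {t : ℂ} (ht : ‖t‖ * Real.exp C < 1) :
    Summable (fun N => ‖h (N + 1)‖ * ‖t‖ ^ (N + 1)) ∧
      HasSum (fun N => EE h N * t ^ N) (Complex.exp (∑' N, h (N + 1) * t ^ (N + 1))) := by
  refine ⟨Exp_summable hb (norm_nonneg t) ht, ?_⟩
  have he := Real.exp_pos C
  obtain ⟨R, hR1, hR2⟩ := exists_between ((lt_div_iff₀ he).2 ht)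
  have hR0 : 0 < R := (norm_nonneg t).trans_lt hR1
  have hu := Exp_summable hb hR0.le ((lt_div_iff₀ he).1 hR2)
  have hF : ∀ N : ℕ, DifferentiableOn ℂ (fun z : ℂ => h (N + 1) * z ^ (N + 1))
      (Metric.ball 0 R) := fun N => by fun_prop
  have hle : ∀ (N : ℕ) (z : ℂ), z ∈ Metric.ball (0 : ℂ) R →
      ‖h (N + 1) * z ^ (N + 1)‖ ≤ ‖h (N + 1)‖ * R ^ (N + 1) := fun N z hz => by
    rw [norm_mul, norm_pow]
    have := (mem_ball_zero_iff.1 hz).le
    gcongr
  have hg := Complex.differentiableOn_tsum_of_summable_norm hu hF Metric.isOpen_ball hle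
  set g : ℂ → ℂ := fun z => ∑' N : ℕ, h (N + 1) * z ^ (N + 1) with hgdef
  have hf : DifferentiableOn ℂ (fun z => Complex.exp (g z)) (Metric.ball 0 R) := hg.cexp
  set f : ℂ → ℂ := fun z => Complex.exp (g z) with hfdef
  set a : ℕ → ℂ := fun n => (n.factorial : ℂ)⁻¹ * iteratedDeriv n f 0 with hadef
  have hrec : (fun n : ℕ => ((n : ℂ) + 1) * a (n + 1)) =
      fun n : ℕ => ∑ k ∈ Finset.range (n + 1), ((k : ℂ) + 1) * h (k + 1) * a (n - k) := by
    refine pow_unique hR0 fun z _ hz => ⟨deriv f z, ?_, ?_⟩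
    · have h1 := Exp_taylor (hf.deriv Metric.isOpen_ball) (mem_ball_zero_iff.2 hz)
      refine Exp_congr h1 fun n => ?_
      have h2 : ((n : ℂ) + 1) ≠ 0 := Nat.cast_add_one_ne_zero n
      simp only [hadef, iteratedDeriv_succ', Nat.factorial_succ, Nat.cast_mul, Nat.cast_succ]
      field_simp
    · have hz' := mem_ball_zero_iff.2 hz
      have h1 := Complex.hasSum_deriv_of_summable_norm hu hF Metric.isOpen_ball hle hz'
      have h2 : HasSum (fun k : ℕ => ((k : ℂ) + 1) * h (k + 1) * z ^ k) (deriv g z) := by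
        refine Exp_congr h1 fun k => ?_
        rw [deriv_const_mul_field, deriv_pow_field]
        push_cast
        ring
      have h3 : HasSum (fun n : ℕ => a n * z ^ n) (f z) := Exp_taylor hf hz'
      have h4 := hasSum_sum_range_mul_of_summable_norm (summable_norm_iff.2 h2.summable)
        (summable_norm_iff.2 h3.summable)
      rw [h2.tsum_eq, h3.tsum_eq] at h4
      have h5 : deriv f z = deriv g z * f z := by
        rw [hfdef, deriv_cexp (hg.differentiableAt (Metric.isOpen_ball.mem_nhds hz')), mul_comm]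
      rw [h5]
      refine Exp_congr h4 fun n => ?_
      rw [Finset.sum_mul]
      refine Finset.sum_congr rfl fun k hk => ?_
      have h6 : z ^ n = z ^ k * z ^ (n - k) := by
        rw [← pow_add, Nat.add_sub_cancel' (Nat.lt_succ_iff.1 (Finset.mem_range.1 hk))]
      rw [h6]
      ring
  have hEa : ∀ n, EE h n = a n := by
    intro n
    induction n using Nat.strong_induction_on with
    | _ n ih =>
      cases n with
      | zero => simp [EE, hadef, hfdef, hgdef]
      | succ n =>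
        have h2 : ((n : ℂ) + 1) ≠ 0 := Nat.cast_add_one_ne_zero n
        rw [Exp_succ, div_eq_iff h2, mul_comm (a (n + 1)), congrFun hrec n]
        exact Finset.sum_congr rfl fun k _ => by rw [ih (n - k) (by omega)]
  simp only [hEa]
  exact Exp_taylor hf (mem_ball_zero_iff.2 hR1)

theorem EE_qs {M : ℕ} {h : ℕ → ℍ → ℂ} (hq : ∀ k, ∃ a, QS M a (h k)) (N : ℕ) :
    ∃ a, QS M a fun τ => EE (fun k => h k τ) N := by
  induction N using Nat.strong_induction_on with
  | _ N ih =>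
    cases N with
    | zero => exact ⟨_, (QS.single M 0 1).congr (fun _ => rfl) fun τ => by simp [EE, ee]⟩
    | succ N =>
      have h1 : ∀ k : ℕ, ∃ a, QS M a fun τ =>
          ((k : ℂ) + 1) * (h (k + 1) τ * EE (fun j => h j τ) (N - k)) := fun k => by
        obtain ⟨a, ha⟩ := QS.exists_mul (hq (k + 1)) (ih (N - k) (by omega))
        exact ⟨_, ha.const_mul _⟩
      choose a ha using h1
      refine ⟨_, ((QS.finset_sum (Finset.range (N + 1)) fun k _ => ha k).const_mul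
        ((N : ℂ) + 1)⁻¹).congr (fun _ => rfl) fun τ => ?_⟩
      rw [Exp_succ, div_eq_inv_mul]
      simp only [mul_assoc]

theorem Exp_regroup {v : ℕ → ℕ → ℂ} {T : ℂ}
    (h : HasSum (fun p : ℕ × ℕ => v (p.1 + 1) (p.2 + 1)) T) :
    HasSum (fun N : ℕ => ∑ y ∈ (N + 1).divisorsAntidiagonal, v y.1 y.2) T := by
  have h1 := h.tsum_fiberwise fun p : ℕ × ℕ => (p.1 + 1) * (p.2 + 1) - 1
  refine Exp_congr h1 fun N => ?_
  have hpos : ∀ y ∈ (N + 1).divisorsAntidiagonal, 0 < y.1 ∧ 0 < y.2 := fun y hy =>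
    ⟨Nat.pos_of_mem_divisors (Nat.fst_mem_divisors_of_mem_antidiagonal hy),
      Nat.pos_of_mem_divisors (Nat.snd_mem_divisors_of_mem_antidiagonal hy)⟩
  have h2 : (fun p : ℕ × ℕ => (p.1 + 1) * (p.2 + 1) - 1) ⁻¹' {N} =
      ↑((N + 1).divisorsAntidiagonal.image fun y => (y.1 - 1, y.2 - 1)) := by
    ext p
    have h3 : 0 < (p.1 + 1) * (p.2 + 1) := by positivity
    simp only [Set.mem_preimage, Set.mem_singleton_iff, Finset.coe_image, Set.mem_image,
      Finset.mem_coe]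
    constructor
    · intro hp
      exact ⟨(p.1 + 1, p.2 + 1), Nat.mem_divisorsAntidiagonal.2 ⟨by simp only; omega, by omega⟩,
        rfl⟩
    · rintro ⟨y, hy, rfl⟩
      obtain ⟨h4, h5⟩ := hpos y hy
      simp only
      rw [Nat.sub_add_cancel h4, Nat.sub_add_cancel h5, (Nat.mem_divisorsAntidiagonal.1 hy).1]
      rfl
  rw [h2, Finset.tsum_subtype' _ fun p : ℕ × ℕ => v (p.1 + 1) (p.2 + 1), Finset.sum_image]
  · refine Finset.sum_congr rfl fun y hy => ?_
    obtain ⟨h4, h5⟩ := hpos y hy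
    simp only
    rw [Nat.sub_add_cancel h4, Nat.sub_add_cancel h5]
  · intro y hy y' hy' he
    obtain ⟨h4, h5⟩ := hpos y hy
    obtain ⟨h6, h7⟩ := hpos y' hy'
    simp only [Prod.mk.injEq] at he
    exact Prod.ext (by omega) (by omega)

/-- Reordering of a triple index. -/
def Exp_equiv (ι : Type) : (ℕ × ℕ) × ι ≃ (ι × ℕ) × ℕ where
  toFun q := ((q.2, q.1.2), q.1.1)
  invFun q := ((q.2, q.1.2), q.1.1)
  left_inv _ := rfl
  right_inv _ := rfl

/-- The logarithm of a convergent product, ordered by the exponent of `t`. -/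
theorem hasProd_of_log {ι : Type} {e : ι → ℕ → ℤ} {x : ι → ℂ} {t : ℂ}
    (h1 : ∀ i d, e i (d + 1) ≠ 0 → ‖x i‖ * ‖t‖ ^ (d + 1) ≤ 1 / 2)
    (h2 : Summable fun a : ι × ℕ => |(e a.1 (a.2 + 1) : ℝ)| * (‖x a.1‖ * ‖t‖ ^ (a.2 + 1)))
    (ht : t ≠ 0) :
    HasProd (fun a : ι × ℕ => (1 - x a.1 * t ^ (a.2 + 1)) ^ e a.1 (a.2 + 1))
      (Complex.exp (∑' N : ℕ, -(∑ y ∈ (N + 1).divisorsAntidiagonal, (y.1 : ℂ)⁻¹ *
        ∑' i, (e i y.2 : ℂ) * x i ^ y.1) * t ^ (N + 1))) := by
  let w : ι × ℕ → ℂ := fun a => x a.1 * t ^ (a.2 + 1)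
  let u : (ι × ℕ) × ℕ → ℂ := fun q =>
    -((e q.1.1 (q.1.2 + 1) : ℂ) * (w q.1 ^ (q.2 + 1) / ((q.2 + 1 : ℕ) : ℂ)))
  have hw : ∀ a, ‖w a‖ = ‖x a.1‖ * ‖t‖ ^ (a.2 + 1) := fun a => by
    simp only [w, norm_mul, norm_pow]
  have hu : Summable u := by
    refine Summable.of_norm_bounded (h2.mul_of_nonneg summable_geometric_two
      (fun a => by positivity) fun n => by positivity) fun q => ?_
    by_cases h0 : e q.1.1 (q.1.2 + 1) = 0
    · simp [u, h0]
    · have h3 := h1 _ _ h0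
      rw [← hw] at h3 ⊢
      simp only [u, norm_neg, norm_mul, norm_div, norm_pow, Complex.norm_intCast,
        Complex.norm_natCast]
      rw [mul_assoc]
      refine mul_le_mul_of_nonneg_left ?_ (abs_nonneg _)
      refine (div_le_self (by positivity) (by exact_mod_cast Nat.succ_pos _)).trans ?_
      rw [pow_succ']
      gcongr
  have hL : ∀ a : ι × ℕ, HasSum (fun n => u (a, n))
      ((e a.1 (a.2 + 1) : ℂ) * Complex.log (1 - w a)) := by
    intro a
    by_cases h0 : e a.1 (a.2 + 1) = 0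
    · simp only [u, h0, Int.cast_zero, zero_mul, neg_zero]
      exact hasSum_zero
    · have h3 : ‖w a‖ < 1 := by
        rw [hw]
        exact (h1 _ _ h0).trans_lt (by norm_num)
      have h4 := (hasSum_nat_add_iff' 1).2 (Complex.hasSum_taylorSeries_neg_log h3)
      simp only [Finset.range_one, Finset.sum_singleton, Nat.cast_zero, div_zero, sub_zero] at h4
      simpa only [mul_neg, neg_neg] using (h4.mul_left (e a.1 (a.2 + 1) : ℂ)).neg
  have hP := (hu.hasSum.prod_fiberwise hL).cexp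
  have hS : HasSum (fun p : ℕ × ℕ => -((((p.1 + 1 : ℕ) : ℂ)⁻¹ *
      ∑' i, (e i (p.2 + 1) : ℂ) * x i ^ (p.1 + 1)) * t ^ ((p.1 + 1) * (p.2 + 1)))) (∑' q, u q) := by
    have h3 := (Exp_equiv ι).hasSum_iff.2 hu.hasSum
    refine h3.prod_fiberwise fun p => ?_
    refine (h3.summable.prod_factor p).hasSum_iff.2 (Eq.symm ?_)
    rw [← tsum_mul_left, ← tsum_mul_right, ← tsum_neg]
    refine tsum_congr fun i => ?_
    simp only [Function.comp, Exp_equiv, Equiv.coe_fn_mk, u, w]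
    rw [mul_pow, ← pow_mul, mul_comm (p.2 + 1)]
    ring
  have hS' := Exp_regroup (v := fun n d => -(((n : ℂ)⁻¹ * ∑' i, (e i d : ℂ) * x i ^ n) *
    t ^ (n * d))) hS
  have hT : ∑' N : ℕ, -(∑ y ∈ (N + 1).divisorsAntidiagonal, (y.1 : ℂ)⁻¹ *
      ∑' i, (e i y.2 : ℂ) * x i ^ y.1) * t ^ (N + 1) = ∑' q, u q := by
    rw [← hS'.tsum_eq]
    refine tsum_congr fun N => ?_
    rw [neg_mul, Finset.sum_mul, ← Finset.sum_neg_distrib]
    exact Finset.sum_congr rfl fun y hy => by rw [(Nat.mem_divisorsAntidiagonal.1 hy).1]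
  rw [hT]
  refine (congrArg (fun F => HasProd F _) (funext fun a => ?_)).mpr hP
  by_cases h0 : e a.1 (a.2 + 1) = 0
  · simp [h0]
  · have h3 : 1 - w a ≠ 0 := by
      intro h4
      have h5 := h1 _ _ h0
      rw [← hw, ← sub_eq_zero.1 h4, norm_one] at h5
      norm_num at h5
    rw [Function.comp, Complex.exp_int_mul, Complex.exp_log h3]

end

end Pool.Agent.P.MP_a60a76_nt.Sz
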