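import Pool.Agent.P.MP_a60a76_nt.Sz.Main2

namespace Pool.Agent.P.MP_a60a76_nt.Sz

open SP

noncomputable section

/-! The final form of the bound. -/

theorem Fin_rpow_le {x : ℝ} (hx : 1 < x) : x ^ (1 / 3 : ℝ) ≤ 2 * (x / Real.log x) := by
  have h0 : 0 < x := by linarith
  have hl : 0 < Real.log x := Real.log_pos hx
  have h1 : Real.log x ≤ x ^ (2 / 3 : ℝ) / (2 / 3) := Real.log_le_rpow_div h0.le (by norm_num)
  have h2 : x ^ (1 / 3 : ℝ) * x ^ (2 / 3 : ℝ) = x := by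
    rw [← Real.rpow_add h0]
    norm_num
  have h3 : 0 < x ^ (1 / 3 : ℝ) := Real.rpow_pos_of_pos h0 _
  rw [← mul_div_assoc, le_div_iff₀ hl]
  have h4 := mul_le_mul_of_nonneg_left h1 h3.le
  have h5 : x ^ (1 / 3 : ℝ) * (x ^ (2 / 3 : ℝ) / (2 / 3)) = 3 / 2 * x := by
    rw [← mul_div_assoc, h2]
    ring
  linarith

theorem szpiro_bound : ∃ C : ℝ, ∀ p : ℕ, p.Prime → ∀ (E₁ E₂ : WeierstrassCurve ℚ)
    [E₁.IsElliptic] [E₂.IsElliptic], Congruent p E₁ E₂ → ¬ Isogenous E₁ E₂ →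
    ∀ S : Finset ℕ, (∀ l ∈ S, l.Prime ∧ ∃ j : ℚ, (j = E₁.j ∨ j = E₂.j) ∧
      (padicValRat l j < 0 ∨ ¬ 3 ∣ padicValRat l j ∨ ¬ 2 ∣ padicValRat l (j - 1728))) →
    (p : ℝ) ^ (1 / 3 : ℝ) * (1 + ∑ l ∈ S, Real.log l) ≤ C * (1 + Real.log
      (max (max E₁.j.num.natAbs E₁.j.den) (max E₂.j.num.natAbs E₂.j.den) : ℕ)) := by
  obtain ⟨C, -, h⟩ := bad_bound
  refine ⟨2 * C, fun p hp E₁ E₂ _ _ hc hI S hS => ?_⟩
  have h1 := h p hp E₁ E₂ hc hI S fun l hl => by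
    obtain ⟨a, j, hj, hb⟩ := hS l hl
    refine ⟨a, ?_⟩
    rcases hj with rfl | rfl
    · exact Or.inl hb
    · exact Or.inr hb
  have h2 := Fin_rpow_le (x := p) (by exact_mod_cast hp.one_lt)
  have h3 : 0 ≤ (p : ℝ) ^ (1 / 3 : ℝ) * ∑ l ∈ S, Real.log l :=
    mul_nonneg (Real.rpow_nonneg (Nat.cast_nonneg p) _)
      (Finset.sum_nonneg fun l _ => Real.log_natCast_nonneg l)
  unfold ht at h1
  rw [mul_add, mul_one, mul_assoc]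
  linarith

end

end Pool.Agent.P.MP_a60a76_nt.Sz
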