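import Pool.Agent.P.MP_a60a76_nt.Sz.TrA
import Pool.Agent.P.MP_a60a76_nt.Sz.FxB
import Pool.Agent.P.MP_a60a76_nt.Sz.Frick

namespace Pool.Agent.P.MP_a60a76_nt.Sz

open UpperHalfPlane hiding J
open MeasureTheory SP
open scoped MatrixGroups UpperHalfPlane Matrix Modular Topology Classical ArithmeticFunction.sigma

noncomputable section

/-! Transport of a point with an endomorphism by an automorphism of the complex numbers. -/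

theorem hm_iff {t₁ t₂ : ℍ} {e : ℂ} :
    Tw.Hm t₂ t₁ e ↔ ∃ Z : MZ, Rm Z t₁ t₂ = 0 ∧ dn Z t₁ = e := by
  constructor
  · intro h
    obtain ⟨a, b, h1⟩ := (mem_lat t₁ _).1 (h _ (Tw.tau_mem t₂))
    obtain ⟨c, d, h2⟩ := (mem_lat t₁ _).1 (h _ (Tw.one_mem t₂))
    have h3 : dn !![a, b; c, d] t₁ = e := by simpa [dn] using h2.symm
    exact ⟨!![a, b; c, d], (rm0_iff _ _ _).2 (by rw [h3, h1]; simp), h3⟩
  · rintro ⟨Z, h, rfl⟩
    exact Tw.hm_of_gens ((mem_lat t₁ _).2 ⟨_, _, (rm0_iff _ _ _).1 h⟩)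
      ((mem_lat t₁ _).2 ⟨_, _, rfl⟩)

theorem zv_mul_dn (P : Par) {W : WeierstrassCurve ℂ} {t₁ t₂ : ℍ} (U : Unif W t₁) {Z : MZ}
    (hZ : Rm Z t₁ t₂ = 0) (v : Fin 2 → P.F) :
    U.Φ (dn Z t₁ * zv P.p v t₂) = U.Φ (zv P.p (v ᵥ* P.rz Z) t₁) := by
  have h := (rm0_iff _ _ _).1 hZ
  rw [← gal_int U P.p (v ᵥ* P.rz Z) ((v 0).val * Z 0 0 + (v 1).val * Z 1 0)
    ((v 0).val * Z 0 1 + (v 1).val * Z 1 1)
    (by simp [Par.rz, Matrix.vecMul, dotProduct, Fin.sum_univ_two])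
    (by simp [Par.rz, Matrix.vecMul, dotProduct, Fin.sum_univ_two])]
  congr 1
  rw [zv, ← mul_div_assoc]
  congr 1
  rw [dn] at h ⊢
  push_cast
  linear_combination ((v 0).val : ℂ) * h

theorem TrB_six : (2 * Real.pi * Complex.I : ℂ) ^ 6 = -(64 * Real.pi ^ 6) := by
  rw [show 6 = 2 * 3 from rfl, pow_mul, Frick_two_pi]
  ring

/-- The normalised curve of a point. -/
theorem TrB_model (τ : ℍ) : ∃ (W : WeierstrassCurve ℂ) (_ : W.IsElliptic) (U : Unif W τ),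
    W.a₁ = 0 ∧ W.a₂ = 0 ∧ W.a₃ = 0 ∧ W.c₄ = E4 τ ∧ W.c₆ = -E6 τ ∧
      U.u = (2 * Real.pi * Complex.I)⁻¹ := by
  let W : WeierstrassCurve ℂ := ⟨0, 0, 0, -E4 τ / 48, E6 τ / 864⟩
  have h4 : W.c₄ = E4 τ := by
    simp only [W, WeierstrassCurve.c₄, WeierstrassCurve.b₂, WeierstrassCurve.b₄]
    ring
  have h6 : W.c₆ = -E6 τ := by
    simp only [W, WeierstrassCurve.c₆, WeierstrassCurve.b₂, WeierstrassCurve.b₄,
      WeierstrassCurve.b₆]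
    ring
  have hE : W.IsElliptic := ⟨Ne.isUnit fun h => Dl_ne_zero τ (by
    have h1 := W.c_relation
    rw [h, h4, h6] at h1
    rw [Dl, ModularForm.discriminant_eq_E₄_cube_sub_E₆_sq]
    linear_combination (-1 / 1728 : ℂ) * h1)⟩
  have hπ := JB.pi_ne
  have hu : (2 * Real.pi * Complex.I : ℂ)⁻¹ ≠ 0 := inv_ne_zero Complex.two_pi_I_ne_zero
  have e4 : W.c₄ = (2 * Real.pi * Complex.I : ℂ)⁻¹ ^ 4 * (12 * (lat τ).g₂) := by
    rw [h4, JB.g₂_eq, inv_pow, mul_pow, Complex.I_pow_four]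
    field_simp
    ring
  have e6 : W.c₆ = (2 * Real.pi * Complex.I : ℂ)⁻¹ ^ 6 * (216 * (lat τ).g₃) := by
    rw [h6, JB.g₃_eq, inv_pow, TrB_six]
    field_simp
    ring
  obtain ⟨Φ, h1, h2, h3⟩ := unif_core (lat τ) W _ hu e4 e6
  exact ⟨W, hE, ⟨_, hu, Φ, h1, h2, e4, e6, h3⟩, rfl, rfl, rfl, h4, h6, rfl⟩

theorem Par.trans (P : Par) (s : ℂ ≃+* ℂ) {τ : ℍ} {Y : MZ} (hY : Rm Y τ τ = 0) (h0 : Y ≠ 0) :
    ∃ (τ' : ℍ) (Y' : MZ) (δ : P.GF) (c : ℂ), c ≠ 0 ∧ Rm Y' τ' τ' = 0 ∧ dn Y' τ' = s (dn Y τ) ∧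
      P.rz Y * δ = δ * P.rz Y' ∧ (∀ v, s (P.wn v τ) = c ^ 2 * P.wn (v ᵥ* (δ : P.MF)) τ') ∧
      s (E4 τ) = c ^ 4 * E4 τ' ∧ s (E6 τ) = c ^ 6 * E6 τ' := by
  obtain ⟨W, _, U, w1, w2, w3, w4, w6, hu⟩ := TrB_model τ
  obtain ⟨τ', hτ'⟩ := J_surj (W.map (s : ℂ →+* ℂ)).j
  obtain ⟨U'⟩ := unif (W.map (s : ℂ →+* ℂ)) τ' hτ'
  obtain ⟨Sg, hS⟩ := exists_ptMap W s
  have he := rm0_dn_ne hY h0
  obtain ⟨ψ, ⟨a₁, b₁, a₂, b₂, c, hψ⟩, hz⟩ := velu U U _ he (hm_iff.2 ⟨Y, hY, rfl⟩)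
  have hψ' := RatD.conj hS hψ
  obtain ⟨e', he', hz'⟩ := lift_ratHom U' U' _ ⟨_, _, _, _, _, hψ'⟩
  obtain ⟨h1, h2⟩ := RatD.scale w1 w2 w3 U hψ he hz
  obtain ⟨h3, h4⟩ := RatD.scale (by simp [w1]) (by simp [w2]) (by simp [w3]) U' hψ' he' hz'
  rw [Polynomial.leadingCoeff_map, Polynomial.leadingCoeff_map] at h3 h4
  have hc : (s : ℂ →+* ℂ) c.leadingCoeff ≠ 0 :=
    (map_ne_zero _).2 (Polynomial.leadingCoeff_ne_zero.2 hψ.1)
  have h5 : e' ^ 2 = s (dn Y τ) ^ 2 := by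
    refine mul_right_cancel₀ (right_ne_zero_of_mul (h3 ▸ hc)) (h3.trans ?_)
    rw [← h1, map_mul, map_pow]
    rfl
  have h6 : e' ^ 3 = s (dn Y τ) ^ 3 := by
    refine mul_right_cancel₀ (right_ne_zero_of_mul (h4 ▸ hc)) (h4.trans ?_)
    rw [← h2, map_mul, map_pow]
    rfl
  have h7 : e' = s (dn Y τ) :=
    mul_left_cancel₀ (pow_ne_zero 2 he') (by linear_combination h6 - s (dn Y τ) * h5)
  obtain ⟨Y', hY', hd⟩ := (hm_iff (t₁ := τ') (t₂ := τ') (e := e')).1 fun w hw => by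
    rw [← U'.ker, ← hz', (U'.ker w).2 hw, map_zero]
  obtain ⟨β, hβ⟩ := exists_matrix U U' P.p Sg.toAddMonoidHom
  have hβ' : ∀ v, Sg (U.Φ (zv P.p v τ)) = U'.Φ (zv P.p (v ᵥ* β) τ') := hβ
  have hunit : IsUnit β.det := gal_unit fun v w h => zv_injective U P.p (Sg.injective (by
    rw [hβ', hβ']
    exact congrArg (fun u => U'.Φ (zv P.p u τ')) h))
  have hπ : (2 * Real.pi * Complex.I : ℂ) ≠ 0 := Complex.two_pi_I_ne_zero
  refine ⟨τ', Y', Matrix.GeneralLinearGroup.mkOfDetNeZero β hunit.ne_zero,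
    2 * Real.pi * Complex.I * U'.u, mul_ne_zero hπ U'.u_ne, hY', hd.trans h7, ?_, fun v => ?_,
    ?_, ?_⟩
  · change P.rz Y * β = β * P.rz Y'
    refine Matrix.ext_iff_vecMul.2 fun v => zv_injective U' P.p ?_
    change U'.Φ _ = U'.Φ _
    rw [← Matrix.vecMul_vecMul, ← Matrix.vecMul_vecMul, ← zv_mul_dn P U' hY', hd, ← hz', ← hβ',
      ← hβ', ← zv_mul_dn P U hY, ← hz]
    simp
  · change _ = _ * P.wn (v ᵥ* β) τ'
    by_cases hv : zv P.p v τ ∈ (lat τ).lattice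
    · have hv' : zv P.p (v ᵥ* β) τ' ∈ (lat τ').lattice := by
        rw [← U'.ker, ← hβ', (U.ker _).2 hv, map_zero]
      rw [Par.wn, Par.wn, Par.wp, Par.wp, (lat τ).weierstrassP_coe ⟨_, hv⟩,
        (lat τ').weierstrassP_coe ⟨_, hv'⟩]
      simp
    · obtain ⟨h, e⟩ := U.eq_some _ hv
      obtain ⟨h', e'⟩ := hS _ _ h
      have h8 := (lift_coord U' ((hβ' v).symm.trans ((congrArg Sg e).trans e'))).2.1
      have h9 : W.b₂ = 0 := by simp [WeierstrassCurve.b₂, w1, w2]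
      rw [Unif.x, WeierstrassCurve.map_b₂, h9, hu] at h8
      simp only [map_zero, zero_div, sub_zero] at h8
      rw [Par.wn, Par.wn, Par.wp, Par.wp, div_eq_inv_mul, ← inv_pow, ← h8]
      field_simp
  · have h8 := U'.c4
    rw [WeierstrassCurve.map_c₄, w4, JB.g₂_eq] at h8
    refine h8.trans ?_
    rw [mul_pow, mul_pow, Complex.I_pow_four]
    ring
  · have h8 := U'.c6
    rw [WeierstrassCurve.map_c₆, w6, JB.g₃_eq, map_neg, neg_eq_iff_eq_neg] at h8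
    refine h8.trans ?_
    rw [mul_pow, TrB_six]
    ring

end

end Pool.Agent.P.MP_a60a76_nt.Sz
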