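import Pool.Agent.P.MP_a60a76_nt.Sz.L2
import Pool.Agent.P.MP_a60a76_nt.Sz.TrB
import Pool.Agent.P.MP_a60a76_nt.Sz.Deu
import Pool.Agent.P.MP_a60a76_nt.Sz.Iner

namespace Pool.Agent.P.MP_a60a76_nt.Sz

open UpperHalfPlane hiding J
open MeasureTheory SP
open scoped MatrixGroups UpperHalfPlane Matrix Modular Topology Classical ArithmeticFunction.sigma

noncomputable section

/-! The two lifts of a supersingular Frobenius. -/

/-- An element of the inertia group which changes the sign of the square roots of `-l`. -/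
theorem Flip_ine (l : ℕ) [Fact l.Prime] (hl : l ≠ 2) (h2 : ‖(2 : PadicComplex l)‖ = 1) :
    ∃ sg : PadicComplex l ≃+* PadicComplex l, Ine sg ∧
      ∀ x : PadicComplex l, x ^ 2 = -(l : PadicComplex l) → sg x = -x := by
  obtain ⟨sg, h1, h3, r, hr, hs⟩ := exists_inertia l Nat.prime_two hl
  have e1 : sg r = -r := by
    have : sg r ^ 2 = r ^ 2 := by rw [← map_pow, hr, map_natCast]
    exact (sq_eq_sq_iff_eq_or_eq_neg.1 this).resolve_left hs
  have h0 : r ≠ 0 := fun h => hs (by rw [h, map_zero])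
  refine ⟨sg, ⟨h1, h3⟩, fun x hx => ?_⟩
  have e2 : (x / r) ^ 2 = -1 := by
    rw [div_pow, hx, ← hr, neg_div, div_self (pow_ne_zero 2 h0)]
  have e3 : ‖x / r‖ = 1 := by
    have := congrArg norm e2
    rw [norm_pow, norm_neg, norm_one] at this
    exact (pow_eq_one_iff_of_nonneg (norm_nonneg _) two_ne_zero).1 this
  have e4 : sg (x / r) = x / r := by
    have h4 : sg (x / r) ^ 2 = (x / r) ^ 2 := by rw [← map_pow, e2, map_neg, map_one]
    refine (sq_eq_sq_iff_eq_or_eq_neg.1 h4).resolve_right fun h => ?_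
    have h5 := h3 _ e3.le
    rw [h, ← neg_add', ← two_mul, norm_neg, norm_mul, h2, e3, mul_one] at h5
    exact lt_irrefl _ h5
  rw [map_div₀, e1, div_neg, neg_eq_iff_eq_neg, ← neg_div, div_left_inj' h0] at e4
  exact e4

theorem Par.flip (P : Par) {l : ℕ} [Fact l.Prime] (h5 : 5 ≤ l) (hne : l ≠ P.p)
    {ι : ℂ ≃+* PadicComplex l} (hι : Plv (ι : ℂ →+* PadicComplex l) l) {t s : ℍ} {j : ℚ}
    (ht : J t = j) (h0 : padicNorm l j = 1) (h1 : padicNorm l (j - 1728) = 1)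
    (hs : P.Nr (ι : ℂ →+* PadicComplex l) l t s) {Y : MZ} (hY : Rm Y s s = 0) (hd : Y.det = l)
    (htr : Y.trace = 0) : ∃ (s' : ℍ) (Y' : MZ), P.Nr (ι : ℂ →+* PadicComplex l) l t s' ∧
      Rm Y' s' s' = 0 ∧ P.rz Y' = P.rz Y ∧ dn Y' s' = -dn Y s := by
  have hl : l.Prime := Fact.out
  have hp := hι.norm_p hl hne
  have h6 := hι.norm_six hl h5
  have h2 : ‖(2 : PadicComplex l)‖ = 1 := by
    exact_mod_cast hι.norm_nat hl (n := 2) fun h => absurd (Nat.le_of_dvd two_pos h) (by omega)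
  obtain ⟨sg, hsg, hx⟩ := Flip_ine l (by omega) h2
  have hY0 : Y ≠ 0 := fun h => by
    rw [h, Matrix.det_zero] at hd
    exact hl.ne_zero (by exact_mod_cast hd.symm)
  have e1 : cjg ι sg (dn Y s) = -dn Y s := by
    have h3 := fix_char hY
    rw [htr, hd, Int.cast_zero, zero_mul, sub_zero, Int.cast_natCast,
      add_eq_zero_iff_eq_neg] at h3
    apply ι.injective
    rw [map_cjg, map_neg, hx _ (by rw [← map_pow, h3, map_neg, map_natCast])]
  obtain ⟨τ, Y', δ, c, hc, f1, f2, f3, f4, f5, f6⟩ := P.trans (cjg ι sg) hY hY0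
  obtain ⟨κ, hκ, e2⟩ := P.co_of_scale _ hc f4 f5 f6
  obtain ⟨g1, g2, g3⟩ := hs
  have e3 := (Par.co_itg (P := P) hp h6 g1.1).cl_ine hsg
  rw [e2] at e3
  have e4 : cjg ι sg (J s) = J τ := by
    have h3 : cjg ι sg (P.co s).a = κ ^ 2 * (P.co τ).a := congrArg Par.Co.a e2
    rw [← P.co_a s, map_pow, h3, mul_pow, ← pow_mul, hκ, one_mul, P.co_a]
  have e5 : ‖ι (J t - J τ)‖ = ‖ι (J t - J s)‖ := by
    rw [← hsg.1 (ι (J t - J s)), ← map_cjg, map_sub (cjg ι sg), e4, ht, map_ratCast]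
  have e6 : ‖ι (J t - J s)‖ < 1 := by
    have h3 : (l : ℝ)⁻¹ < 1 := inv_lt_one_of_one_lt₀ (by exact_mod_cast hl.one_lt)
    exact (pow_lt_one_iff_of_nonneg (norm_nonneg _) two_ne_zero).1 (lt_of_le_of_lt g3 h3)
  have e7 : Gd (ι : ℂ →+* PadicComplex l) τ := by
    refine (gd_of_unit (j := j) ((hι j).trans (by rw [h0]; simp)) ?_ ?_).1
    · have := hι (j - 1728)
      rw [h1] at this
      simpa using this
    · rw [← ht]
      exact e5.trans_lt e6
  have e8 : ‖ι (J s - J τ)‖ < 1 := by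
    rw [← e4, map_sub, map_cjg, norm_sub_rev]
    exact hsg.2 _ g1.1
  obtain ⟨g, hg⟩ := Par.exists_sim (P := P) (ι := (ι : ℂ →+* PadicComplex l)) hp h6 g1.1 e8
  obtain ⟨κ₁, hκ₁, e9⟩ := P.co_smul g τ
  have e10 : ((P.co τ).tw (P.rg g)).Sim ((P.co τ).tw δ) (ι : ℂ →+* PadicComplex l) := by
    have h3 := hg
    rw [e9] at h3
    exact ((Par.Co.sim_sc _ _ hκ₁).trans h3.symm).trans
      ((Par.Co.sim_sc _ _ hκ).trans e3.sim).symm
  obtain ⟨κ₂, hκ₂, e11⟩ := e10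
  obtain ⟨g', k1, k2, -⟩ := Par.gd_pm hp h6 e7 hκ₂ e11
  have k3 : (g * g') • τ = g • τ := by rw [mul_smul, k1]
  obtain ⟨k4, k5⟩ := fix_cn (g * g') f1
  refine ⟨(g * g') • τ, cn (g * g') Y', ⟨e7.smul _, k3 ▸ g2.trans hg, ?_⟩, k4, ?_, ?_⟩
  · rw [SP.J_smul]
    exact (congrArg (· ^ 2) e5).trans_le g3
  · have h3 := P.rz_cn (g * g') Y'
    rw [← P.coe_rg, P.rg_mul, ← k2, ← f3] at h3
    exact (Units.mul_left_inj δ).1 h3
  · rw [k5, f2, e1]

end

end Pool.Agent.P.MP_a60a76_nt.Sz
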