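import Pool.Agent.P.MP_a60a76_nt.Sz.Defs3
import Pool.Agent.P.MP_a60a76_nt.Sz.Iner

namespace Pool.Agent.P.MP_a60a76_nt.Sz

open UpperHalfPlane hiding J
open MeasureTheory SP
open scoped MatrixGroups UpperHalfPlane Matrix Modular Topology Classical ArithmeticFunction.sigma

noncomputable section

/-! Existence of Frobenius elements. -/

/-- The power map of the residue field is induced by an element of a profinite group. -/
theorem Frob_general {B G : Type} [CommRing B] [Group G] [MulSemiringAction G B]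
    [TopologicalSpace G] [CompactSpace G] [TotallyDisconnectedSpace G] [IsTopologicalGroup G]
    (hst : ∀ x : B, IsOpen (MulAction.stabilizer G x : Set G)) (Q : Ideal B) [Q.IsPrime] {l : ℕ}
    [Fact l.Prime] (hQ : (l : B) ∈ Q) (hroot : ∀ x : B, ∃ y, y ^ l = x)
    (hfix : ∀ x : B, (∀ g : G, g • x = x) → x ^ l - x ∈ Q) :
    ∃ g : G, ∀ x : B, g • x - x ^ l ∈ Q := by
  let : TopologicalSpace B := ⊥
  have : DiscreteTopology B := ⟨rfl⟩
  have : ContinuousSMul G B := continuousSMul_iff_stabilizer_isOpen.2 hst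
  have : Algebra.IsInvariant (FixedPoints.subring B G) B G := ⟨fun b hb => ⟨⟨b, hb⟩, rfl⟩⟩
  have : CharP (B ⧸ Q) l := (CharP.charP_iff_prime_eq_zero Fact.out).2 (by
    rw [← map_natCast (Ideal.Quotient.mk Q)]
    exact Ideal.Quotient.eq_zero_iff_mem.2 hQ)
  let F : (B ⧸ Q) →ₐ[FixedPoints.subring B G ⧸ Q.under (FixedPoints.subring B G)] (B ⧸ Q) :=
    { frobenius (B ⧸ Q) l with
      commutes' := fun a => by
        obtain ⟨a, rfl⟩ := Ideal.Quotient.mk_surjective a
        exact Ideal.Quotient.eq.2 (hfix a.1 a.2) }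
  have hF : Function.Bijective F := ⟨frobenius_inj (B ⧸ Q) l, fun x => by
    obtain ⟨x, rfl⟩ := Ideal.Quotient.mk_surjective x
    obtain ⟨y, rfl⟩ := hroot x
    exact ⟨Ideal.Quotient.mk Q y, rfl⟩⟩
  obtain ⟨g, hg⟩ := Ideal.Quotient.stabilizerHom_surjective_of_profinite (G := G)
    (Q.under (FixedPoints.subring B G)) Q (AlgEquiv.ofBijective F hF)
  exact ⟨g, fun x => Ideal.Quotient.eq.1 (DFunLike.congr_fun hg (Ideal.Quotient.mk Q x))⟩

theorem Frob_add_lt {K : Type} [NormedField K] [IsUltrametricDist K] {x y : K} (hx : ‖x‖ < 1)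
    (hy : ‖y‖ < 1) : ‖x + y‖ < 1 :=
  (IsUltrametricDist.norm_add_le_max _ _).trans_lt (max_lt hx hy)

/-- The maximal ideal of the valuation ring. -/
def Frob_m {K : Type} [NormedField K] [IsUltrametricDist K] (O : Subring K)
    (hO : ∀ x ∈ O, ‖x‖ ≤ 1) : Ideal O where
  carrier := {x | ‖(x : K)‖ < 1}
  add_mem' := fun ha hb => Frob_add_lt ha hb
  zero_mem' := by simp
  smul_mem' := fun c a ha => by
    simp only [Set.mem_ofPred_eq, smul_eq_mul, Subring.coe_mul, norm_mul] at *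
    exact (mul_le_of_le_one_left (norm_nonneg _) (hO _ c.2)).trans_lt ha

theorem Frob_padic (l : ℕ) [Fact l.Prime] {x : ℚ_[l]} (hx : ‖x‖ ≤ 1) : ‖x ^ l - x‖ < 1 := by
  obtain ⟨x, rfl⟩ : ∃ y : ℤ_[l], (y : ℚ_[l]) = x := ⟨⟨x, hx⟩, rfl⟩
  have h1 : x ^ l - x ∈ RingHom.ker (PadicInt.toZMod (p := l)) := by
    rw [RingHom.mem_ker, map_sub, map_pow, ZMod.pow_card, sub_self]
  rw [PadicInt.ker_toZMod, IsLocalRing.mem_maximalIdeal, PadicInt.mem_nonunits] at h1
  exact h1

theorem Frob_alg (l : ℕ) [Fact l.Prime] : ∃ s : PadicAlgCl l ≃ₐ[ℚ_[l]] PadicAlgCl l,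
    ∀ z, ‖z‖ ≤ 1 → ‖s z - z ^ l‖ < 1 := by
  have hl : l.Prime := Fact.out
  let O : Subring (PadicAlgCl l) :=
    { carrier := {x | ‖x‖ ≤ 1}
      mul_mem' := fun {a b} ha hb => by
        simp only [Set.mem_ofPred_eq, norm_mul] at *
        exact mul_le_one₀ ha (norm_nonneg _) hb
      one_mem' := by simp
      add_mem' := fun {a b} ha hb =>
        (IsUltrametricDist.norm_add_le_max _ _).trans (max_le ha hb)
      zero_mem' := by simp
      neg_mem' := fun {a} ha => by simpa using ha }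
  have : IsInvariantSubring (PadicAlgCl l ≃ₐ[ℚ_[l]] PadicAlgCl l) O :=
    ⟨fun t x hx => ((spectralNorm_eq_of_equiv t x).symm.trans_le hx :)⟩
  let Q : Ideal O := Frob_m O fun _ h => h
  have hQ : ∀ x : O, x ∈ Q ↔ ‖(x : PadicAlgCl l)‖ < 1 := fun _ => Iff.rfl
  have : Q.IsPrime := ⟨fun h => by
    have h1 : (1 : O) ∈ Q := h ▸ Submodule.mem_top
    simp [hQ] at h1, fun {x y} h => by
    rw [hQ, Subring.coe_mul, norm_mul] at h
    by_contra hc
    rw [not_or, hQ, hQ, not_lt, not_lt] at hc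
    exact absurd (one_le_mul_of_one_le_of_one_le hc.1 hc.2) (not_le.2 h)⟩
  obtain ⟨s, hs⟩ := Frob_general (G := PadicAlgCl l ≃ₐ[ℚ_[l]] PadicAlgCl l) (l := l)
    (fun x : O => by
      convert stabilizer_isOpen_of_isIntegral (K := ℚ_[l]) (x : PadicAlgCl l) using 1
      ext g
      exact Subtype.ext_iff) Q
    (by
      rw [hQ, Subring.coe_natCast, ← map_natCast (algebraMap ℚ_[l] (PadicAlgCl l)),
        PadicAlgCl.norm_extends]
      exact Padic.norm_p_lt_one)
    (fun x => by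
      obtain ⟨y, hy⟩ := IsAlgClosed.exists_pow_nat_eq (x : PadicAlgCl l) hl.pos
      refine ⟨⟨y, (pow_le_one_iff_of_nonneg (norm_nonneg y) hl.ne_zero).1 ?_⟩, Subtype.ext hy⟩
      rw [← norm_pow, hy]
      exact x.2)
    (fun x hx => by
      obtain ⟨y, hy⟩ := IntermediateField.mem_bot.1 ((InfiniteGalois.mem_bot_iff_fixed
        (k := ℚ_[l]) (x : PadicAlgCl l)).2 fun g => congrArg Subtype.val (hx g))
      have h1 : ‖algebraMap ℚ_[l] (PadicAlgCl l) y‖ ≤ 1 := hy ▸ x.2
      rw [PadicAlgCl.norm_extends] at h1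
      rw [hQ, AddSubgroupClass.coe_sub, Subring.coe_pow, ← hy, ← map_pow, ← map_sub,
        PadicAlgCl.norm_extends]
      exact Frob_padic l h1)
  exact ⟨s, fun z hz => hs ⟨z, hz⟩⟩

theorem exists_frob (l : ℕ) [Fact l.Prime] :
    ∃ φ : PadicComplex l ≃+* PadicComplex l, Frb l φ := by
  obtain ⟨s, hs⟩ := Frob_alg l
  have hiso : ∀ t : PadicAlgCl l ≃ₐ[ℚ_[l]] PadicAlgCl l, ∀ x, ‖t x‖ = ‖x‖ := fun t x =>
    (spectralNorm_eq_of_equiv t x).symm
  have hc : ∀ t : PadicAlgCl l ≃ₐ[ℚ_[l]] PadicAlgCl l, Continuous t := fun t =>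
    (AddMonoidHomClass.isometry_of_norm t (hiso t)).continuous
  let S := UniformSpace.Completion.mapRingEquiv s.toRingEquiv (hc s) (hc s.symm)
  have hS : ∀ x : PadicAlgCl l, S x = s x := fun x =>
    UniformSpace.Completion.mapRingHom_coe (f := s.toRingEquiv.toRingHom) (hc s) x
  have hSc : Continuous S := UniformSpace.Completion.continuous_map
  have hn : ∀ x, ‖S x‖ = ‖x‖ := fun x => by
    induction x using UniformSpace.Completion.induction_on with
    | hp => exact isClosed_eq hSc.norm continuous_norm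
    | ih a => rw [hS, PadicComplex.norm_extends, PadicComplex.norm_extends, hiso]
  refine ⟨S, hn, fun z hz => ?_⟩
  obtain ⟨a, ha⟩ := UniformSpace.Completion.denseRange_coe.exists_dist_lt z one_pos
  rw [dist_eq_norm] at ha
  have ha1 : ‖(a : PadicComplex l)‖ ≤ 1 := by
    have : (a : PadicComplex l) = z + -(z - a) := by ring
    rw [this]
    exact (IsUltrametricDist.norm_add_le_max _ _).trans (max_le hz (by rw [norm_neg]; exact ha.le))
  have h1 : S z - z ^ l = S (z - a) + ((s a - a ^ l : PadicAlgCl l) : PadicComplex l) -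
      (z ^ l - (a : PadicComplex l) ^ l) := by
    rw [map_sub, hS]
    simp only [PadicComplex.coe_eq, map_sub, map_pow]
    ring
  rw [h1]
  refine Iner_sub_lt (Frob_add_lt (by rwa [hn]) ?_) ((Iner_pow_sub hz ha1 l).trans_lt ha)
  rw [PadicComplex.norm_extends] at ha1 ⊢
  exact hs a ha1

end

end Pool.Agent.P.MP_a60a76_nt.Sz
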