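import Pool.Agent.P.MP_a60a76_nt.Sz.Base

namespace Pool.Agent.P.MP_a60a76_nt.Sz

open UpperHalfPlane MeasureTheory SP
open scoped MatrixGroups UpperHalfPlane Matrix Modular Topology Classical ArithmeticFunction.sigma

noncomputable section

/-! The majorant and its theta series. -/

theorem Rm_nonneg (X : MZ) (t₁ t₂ : ℍ) : 0 ≤ Rm X t₁ t₂ := by
  have h1 := t₁.im_pos
  have h2 := t₂.im_pos
  exact div_nonneg (Complex.normSq_nonneg _) (by positivity)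

theorem Rm_add_det (X : MZ) (t₁ t₂ : ℍ) : Rm X t₁ t₂ + X.det =
    Complex.normSq (((X 1 0 : ℂ) * t₁ + X 1 1) * (starRingEnd ℂ) t₂ - ((X 0 0 : ℂ) * t₁ + X 0 1)) /
      (4 * t₁.im * t₂.im) := by
  have h1 := t₁.im_pos.ne'
  have h2 := t₂.im_pos.ne'
  rw [Rm, Matrix.det_fin_two]
  simp only [Complex.normSq_apply, Complex.sub_re, Complex.sub_im, Complex.mul_re, Complex.mul_im,
    Complex.add_re, Complex.add_im, Complex.intCast_re, Complex.intCast_im, Complex.conj_re,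
    Complex.conj_im, coe_re, coe_im]
  push_cast
  field_simp
  ring

theorem Mj_eq (X : MZ) (t₁ t₂ : ℍ) : Mj X t₁ t₂ =
    (Complex.normSq (((X 0 0 : ℂ) * t₁ + X 0 1) - ((X 1 0 : ℂ) * t₁ + X 1 1) * t₂.re) +
      Complex.normSq ((X 1 0 : ℂ) * t₁ + X 1 1) * t₂.im ^ 2) / (2 * t₁.im * t₂.im) := by
  have h1 := t₁.im_pos.ne'
  have h2 := t₂.im_pos.ne'
  rw [Mj, Rm, Matrix.det_fin_two]
  simp only [Complex.normSq_apply, Complex.sub_re, Complex.sub_im, Complex.mul_re, Complex.mul_im,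
    Complex.add_re, Complex.add_im, Complex.intCast_re, Complex.intCast_im, Complex.ofReal_re,
    Complex.ofReal_im, coe_re, coe_im]
  push_cast
  field_simp
  ring

theorem Maj_add_nonneg (X : MZ) (t₁ t₂ : ℍ) : 0 ≤ Rm X t₁ t₂ + X.det := by
  have h1 := t₁.im_pos
  have h2 := t₂.im_pos
  rw [Rm_add_det]
  exact div_nonneg (Complex.normSq_nonneg _) (by positivity)

theorem abs_det_le_Mj (X : MZ) (t₁ t₂ : ℍ) : |(X.det : ℝ)| ≤ Mj X t₁ t₂ := by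
  have h1 := Rm_nonneg X t₁ t₂
  have h2 := Maj_add_nonneg X t₁ t₂
  rw [abs_le, Mj]
  constructor <;> linarith

theorem Rm_le_Mj (X : MZ) (t₁ t₂ : ℍ) : Rm X t₁ t₂ ≤ Mj X t₁ t₂ := by
  have h2 := Maj_add_nonneg X t₁ t₂
  rw [Mj]
  linarith

theorem Maj_lin_zero {a b : ℤ} {t : ℍ} (h : (a : ℂ) * t + b = 0) : a = 0 ∧ b = 0 := by
  have h1 := congrArg Complex.im h
  simp only [Complex.add_im, Complex.mul_im, Complex.intCast_re, Complex.intCast_im, coe_im,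
    zero_mul, add_zero, Complex.zero_im, mul_eq_zero, t.im_pos.ne', or_false,
    Int.cast_eq_zero] at h1
  subst h1
  simpa using h

theorem Mj_pos {X : MZ} (h : X ≠ 0) (t₁ t₂ : ℍ) : 0 < Mj X t₁ t₂ := by
  have h1 := t₁.im_pos
  have h2 := t₂.im_pos
  rw [Mj_eq]
  refine div_pos ?_ (by positivity)
  by_cases hv : (X 1 0 : ℂ) * t₁ + X 1 1 = 0
  · have hu : (X 0 0 : ℂ) * t₁ + X 0 1 ≠ 0 := fun hu => by
      obtain ⟨a, b⟩ := Maj_lin_zero hu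
      obtain ⟨c, d⟩ := Maj_lin_zero hv
      refine h ?_
      ext i j
      fin_cases i <;> fin_cases j <;> assumption
    rw [hv, zero_mul, sub_zero, map_zero, zero_mul, add_zero]
    exact Complex.normSq_pos.2 hu
  · have := Complex.normSq_pos.2 hv
    have := Complex.normSq_nonneg (((X 0 0 : ℂ) * t₁ + X 0 1) - ((X 1 0 : ℂ) * t₁ + X 1 1) * t₂.re)
    positivity

theorem Rm_zero (t₁ t₂ : ℍ) : Rm 0 t₁ t₂ = 0 := by
  simp [Rm]

theorem Rm_neg (X : MZ) (t₁ t₂ : ℍ) : Rm (-X) t₁ t₂ = Rm X t₁ t₂ := by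
  rw [Rm, Rm, ← Complex.normSq_neg]
  congr 2
  simp only [Matrix.neg_apply]
  push_cast
  ring

theorem Rm_pos_of_det {X : MZ} (h : X ≠ 0) (hd : X.det ≤ 0) (t₁ t₂ : ℍ) : 0 < Rm X t₁ t₂ := by
  have h1 := Mj_pos h t₁ t₂
  have h2 : (X.det : ℝ) ≤ 0 := by exact_mod_cast hd
  rw [Mj] at h1
  linarith

theorem Maj_det (g : SL(2, ℤ)) : (g 0 0 : ℂ) * g 1 1 - g 0 1 * g 1 0 = 1 := by
  have h := g.det_coe
  rw [Matrix.det_fin_two] at h
  exact_mod_cast h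

theorem Rm_smul_right (X : MZ) (g : SL(2, ℤ)) (t₁ t₂ : ℍ) :
    Rm (g * X) t₁ (g • t₂) = Rm X t₁ t₂ := by
  have h1 := t₁.im_pos.ne'
  have h2 := t₂.im_pos.ne'
  have h3 := dn_sl_ne_zero g t₂
  have h4 := (Complex.normSq_pos.2 h3).ne'
  have e : ((((g : MZ) * X) 1 0 : ℂ) * t₁ + ((g : MZ) * X) 1 1) * (g • t₂ : ℍ) -
      ((((g : MZ) * X) 0 0 : ℂ) * t₁ + ((g : MZ) * X) 0 1) =
      (((X 1 0 : ℂ) * t₁ + X 1 1) * t₂ - ((X 0 0 : ℂ) * t₁ + X 0 1)) / dn g t₂ := by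
    rw [coe_sl_smul, eq_div_iff h3, sub_mul, mul_assoc, div_mul_cancel₀ _ h3]
    simp only [Matrix.mul_apply, Fin.sum_univ_two, dn]
    push_cast
    linear_combination
      (((X 1 0 : ℂ) * t₁ + X 1 1) * t₂ - ((X 0 0 : ℂ) * t₁ + X 0 1)) * Maj_det g
  rw [Rm, Rm, e, im_sl_smul, map_div₀]
  field_simp

theorem Rm_smul_left (X : MZ) (g : SL(2, ℤ)) (t₁ t₂ : ℍ) :
    Rm X (g • t₁) t₂ = Rm (X * g) t₁ t₂ := by
  have h1 := t₁.im_pos.ne'
  have h2 := t₂.im_pos.ne'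
  have h3 := dn_sl_ne_zero g t₁
  have h4 := (Complex.normSq_pos.2 h3).ne'
  have e : ((X 1 0 : ℂ) * (g • t₁ : ℍ) + X 1 1) * t₂ - ((X 0 0 : ℂ) * (g • t₁ : ℍ) + X 0 1) =
      ((((X * (g : MZ)) 1 0 : ℂ) * t₁ + (X * (g : MZ)) 1 1) * t₂ -
        (((X * (g : MZ)) 0 0 : ℂ) * t₁ + (X * (g : MZ)) 0 1)) / dn g t₁ := by
    rw [coe_sl_smul]
    field_simp
    simp only [Matrix.mul_apply, Fin.sum_univ_two, dn]
    push_cast
    ring
  rw [Rm, Rm, e, im_sl_smul, map_div₀]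
  field_simp

theorem Rm_transpose (X : MZ) (t₁ t₂ : ℍ) :
    Rm X.transpose (ModularGroup.S • t₂) (ModularGroup.S • t₁) = Rm X t₁ t₂ := by
  have h1 := t₁.im_pos.ne'
  have h2 := t₂.im_pos.ne'
  have h3 := t₁.ne_zero
  have h4 := t₂.ne_zero
  have h5 := (Complex.normSq_pos.2 h3).ne'
  have h6 := (Complex.normSq_pos.2 h4).ne'
  have e : ((X.transpose 1 0 : ℂ) * (ModularGroup.S • t₂ : ℍ) + X.transpose 1 1) *
      (ModularGroup.S • t₁ : ℍ) -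
      ((X.transpose 0 0 : ℂ) * (ModularGroup.S • t₂ : ℍ) + X.transpose 0 1) =
      -(((X 1 0 : ℂ) * t₁ + X 1 1) * t₂ - ((X 0 0 : ℂ) * t₁ + X 0 1)) / (t₁ * t₂) := by
    rw [coe_S_smul, coe_S_smul]
    simp only [Matrix.transpose_apply]
    field_simp
    ring
  rw [Rm, Rm, e, im_sl_smul, im_sl_smul, dn_S, dn_S, map_div₀, map_mul, Complex.normSq_neg]
  field_simp

theorem Rm_eq_rho {Y : MZ} (h : 0 < Y.det) (t₁ τ : ℍ) :
    Rm Y t₁ τ = Y.det * rho τ (mob Y t₁) := by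
  have h1 := t₁.im_pos.ne'
  have h2 := τ.im_pos.ne'
  have h3 := dn_ne_zero (row_ne_zero h.ne') t₁
  have h4 := (Complex.normSq_pos.2 h3).ne'
  have h5 : (Y.det : ℝ) ≠ 0 := by exact_mod_cast h.ne'
  have e : (τ : ℂ) - mob Y t₁ =
      (((Y 1 0 : ℂ) * t₁ + Y 1 1) * τ - ((Y 0 0 : ℂ) * t₁ + Y 0 1)) / dn Y t₁ := by
    rw [coe_mob h]
    field_simp
    rw [dn]
    ring
  rw [Rm, rho, e, im_mob h, map_div₀]
  field_simp

theorem Rm_eq_zero_iff {Y : MZ} (h : 0 < Y.det) (t₁ t₂ : ℍ) :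
    Rm Y t₁ t₂ = 0 ↔ t₂ = mob Y t₁ := by
  have h5 : (Y.det : ℝ) ≠ 0 := by exact_mod_cast h.ne'
  have h1 := t₂.im_pos
  have h2 := (mob Y t₁).im_pos
  rw [Rm_eq_rho h, mul_eq_zero, or_iff_right h5, rho, div_eq_zero_iff, or_iff_left (by positivity),
    Complex.normSq_eq_zero, sub_eq_zero]
  exact UpperHalfPlane.ext_iff.symm

theorem proper_iff (t₁ t₂ : ℍ) : Proper t₁ t₂ ↔ ∀ Y : MZ, 0 < Y.det → t₂ ≠ mob Y t₁ := by
  refine ⟨fun h Y hY e => h Y ?_ ((Rm_eq_zero_iff hY _ _).2 e), fun h X hX e => ?_⟩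
  · rintro rfl
    simp at hY
  · rcases le_or_gt X.det 0 with hd | hd
    · exact (Rm_pos_of_det hX hd _ _).ne' e
    · exact h X hd ((Rm_eq_zero_iff hd _ _).1 e)

theorem Proper.smul {t₁ t₂ : ℍ} (h : Proper t₁ t₂) (g₁ g₂ : SL(2, ℤ)) :
    Proper (g₁ • t₁) (g₂ • t₂) := by
  intro X hX
  have e : X * (g₁ : MZ) = (g₂ : MZ) * (((g₂⁻¹ : SL(2, ℤ)) : MZ) * (X * (g₁ : MZ))) := by
    rw [← mul_assoc, ← Matrix.SpecialLinearGroup.coe_mul, mul_inv_cancel,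
      Matrix.SpecialLinearGroup.coe_one, one_mul]
  rw [Rm_smul_left, e, Rm_smul_right]
  refine h _ fun h0 => hX ?_
  rw [h0, mul_zero] at e
  have e2 : X = X * (g₁ : MZ) * ((g₁⁻¹ : SL(2, ℤ)) : MZ) := by
    rw [mul_assoc, ← Matrix.SpecialLinearGroup.coe_mul, mul_inv_cancel,
      Matrix.SpecialLinearGroup.coe_one, mul_one]
  rw [e2, e, zero_mul]

theorem Proper.symm {t₁ t₂ : ℍ} (h : Proper t₁ t₂) : Proper t₂ t₁ := by
  intro X hX
  rw [← Rm_transpose]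
  refine h.smul _ _ _ fun h0 => hX ?_
  rw [← X.transpose_transpose, h0, Matrix.transpose_zero]

theorem countable_not_proper (t₁ : ℍ) : {t₂ | ¬ Proper t₁ t₂}.Countable := by
  have : Countable MZ := inferInstanceAs (Countable (Fin 2 → Fin 2 → ℤ))
  refine (Set.countable_range fun Y : MZ => mob Y t₁).mono fun t₂ h => ?_
  rw [Set.mem_ofPred_eq, proper_iff] at h
  push Not at h
  obtain ⟨Y, -, e⟩ := h
  exact ⟨Y, e.symm⟩

theorem rho_nonneg (τ τ₀ : ℍ) : 0 ≤ rho τ τ₀ := by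
  have h1 := τ.im_pos
  have h2 := τ₀.im_pos
  exact div_nonneg (Complex.normSq_nonneg _) (by positivity)

theorem Maj_rho_eq (τ τ₀ : ℍ) : rho τ τ₀ = Rm 1 τ₀ τ := by
  rw [rho, Rm, mul_right_comm]
  simp

theorem rho_smul (g : SL(2, ℤ)) (τ τ₀ : ℍ) : rho (g • τ) (g • τ₀) = rho τ τ₀ := by
  rw [Maj_rho_eq, Maj_rho_eq, Rm_smul_left, one_mul, ← Rm_smul_right 1 g τ₀ τ, mul_one]

theorem im_le_rho (τ τ₀ : ℍ) : τ.im ≤ τ₀.im * (2 + 4 * rho τ τ₀) := by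
  have h1 := τ.im_pos
  have h2 := τ₀.im_pos
  have e : τ₀.im * (2 + 4 * rho τ τ₀) = 2 * τ₀.im + Complex.normSq ((τ : ℂ) - τ₀) / τ.im := by
    rw [rho]
    field_simp
  rw [e, ← sub_le_iff_le_add', le_div_iff₀ h1, Complex.normSq_apply]
  simp only [Complex.sub_re, Complex.sub_im, coe_re, coe_im]
  nlinarith [mul_self_nonneg (τ.re - τ₀.re), mul_self_nonneg τ₀.im]

theorem Maj_half {C : ℝ} (hC : 0 < C) {f : ℕ → ℝ} (hf : ∀ n : ℕ, (n : ℝ) + 1 / 2 ≤ |f n|) :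
    Summable (fun n => Real.exp (-(C ^ 2 * f n ^ 2))) ∧
      ∑' n, Real.exp (-(C ^ 2 * f n ^ 2)) ≤ 2 / C := by
  have hq : Real.exp (-C) < 1 := Real.exp_lt_one_iff.2 (by linarith)
  have hs := (hasSum_geometric_of_lt_one (Real.exp_pos (-C)).le hq).mul_left
    (2 * Real.exp (-(C / 2)))
  have hle : ∀ n : ℕ, Real.exp (-(C ^ 2 * f n ^ 2)) ≤
      2 * Real.exp (-(C / 2)) * Real.exp (-C) ^ n := by
    intro n
    have h1 : Real.exp (1 / 4) ≤ 2 := by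
      have := Real.exp_bound_div_one_sub_of_interval' (x := 1 / 4) (by norm_num) (by norm_num)
      linarith
    have h2 : -(C ^ 2 * f n ^ 2) ≤ 1 / 4 + (-(C / 2) + n * -C) := by
      have h3 := mul_le_mul_of_nonneg_left (hf n) hC.le
      rw [← sq_abs (f n)]
      nlinarith [sq_nonneg (C * |f n| - 1 / 2)]
    rw [← Real.exp_nat_mul, mul_assoc, ← Real.exp_add]
    refine (Real.exp_le_exp.2 h2).trans ?_
    rw [Real.exp_add]
    exact mul_le_mul_of_nonneg_right h1 (Real.exp_pos _).le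
  have h0 := Summable.of_nonneg_of_le (fun n => (Real.exp_pos _).le) hle hs.summable
  refine ⟨h0, (h0.tsum_le_tsum hle hs.summable).trans ?_⟩
  rw [hs.tsum_eq, ← div_eq_mul_inv, div_le_div_iff₀ (by linarith) hC]
  have h4 : C / 2 ≤ Real.sinh (C / 2) := Real.self_le_sinh_iff.2 (by linarith)
  rw [Real.sinh_eq] at h4
  have h5 : Real.exp (C / 2) * Real.exp (-(C / 2)) = 1 := by rw [← Real.exp_add]; simp
  have h6 : Real.exp (-C) = Real.exp (-(C / 2)) * Real.exp (-(C / 2)) := by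
    rw [← Real.exp_add]; ring_nf
  have h7 := Real.exp_pos (-(C / 2))
  rw [h6]
  nlinarith

theorem Maj_gauss {C : ℝ} (hC : 0 < C) {x : ℝ} (hx : |x| ≤ 1 / 2) :
    Summable (fun n : ℤ => Real.exp (-(C ^ 2 * (n + x) ^ 2))) ∧
      ∑' n : ℤ, Real.exp (-(C ^ 2 * (n + x) ^ 2)) ≤ 1 + 4 / C := by
  obtain ⟨x1, x2⟩ := abs_le.1 hx
  obtain ⟨a1, a2⟩ := Maj_half hC (f := fun n => (((n + 1 : ℕ) : ℤ) : ℝ) + x) fun n =>
    le_trans (by push_cast; linarith) (le_abs_self _)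
  obtain ⟨b1, b2⟩ := Maj_half hC (f := fun n => ((-((n : ℤ) + 1) : ℤ) : ℝ) + x) fun n =>
    le_trans (by push_cast; linarith) (neg_le_abs _)
  have a3 : Summable fun n : ℕ => Real.exp (-(C ^ 2 * (((n : ℤ) : ℝ) + x) ^ 2)) :=
    (summable_nat_add_iff 1).1 a1
  refine ⟨Summable.of_nat_of_neg_add_one a3 b1, ?_⟩
  rw [tsum_of_nat_of_neg_add_one (f := fun n : ℤ => Real.exp (-(C ^ 2 * (n + x) ^ 2))) a3 b1,
    a3.tsum_eq_zero_add]
  have a4 : Real.exp (-(C ^ 2 * ((((0 : ℕ) : ℤ) : ℝ) + x) ^ 2)) ≤ 1 :=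
    Real.exp_le_one_iff.2 (neg_nonpos.2 (by positivity))
  have e : 1 + 4 / C = 1 + 2 / C + 2 / C := by ring
  rw [e]
  exact add_le_add (add_le_add a4 a2) b2

theorem gauss_sum_le {A : ℝ} (hA : 0 < A) (x : ℝ) :
    Summable (fun n : ℤ => Real.exp (-(A * (n + x) ^ 2))) ∧
      ∑' n : ℤ, Real.exp (-(A * (n + x) ^ 2)) ≤ 1 + 4 / Real.sqrt A := by
  have hC := Real.sqrt_pos.2 hA
  have hsq := Real.sq_sqrt hA.le
  set C := Real.sqrt A
  have hf := abs_sub_round x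
  have key := Maj_gauss hC hf
  rw [hsq] at key
  have e : (fun n : ℤ => Real.exp (-(A * (n + x) ^ 2))) =
      (fun n : ℤ => Real.exp (-(A * (n + (x - round x)) ^ 2))) ∘ Equiv.addRight (round x) := by
    funext n
    simp only [Function.comp_apply, Equiv.coe_addRight]
    push_cast
    ring_nf
  rw [e]
  refine ⟨(Equiv.summable_iff _).2 key.1, ?_⟩
  exact ((Equiv.addRight (round x)).tsum_eq
    (fun n : ℤ => Real.exp (-(A * (n + (x - round x)) ^ 2)))).trans_le key.2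

theorem Maj_prod {α β : Type} {g : α → ℝ} {h : α → β → ℝ} {G B : ℝ} (g0 : ∀ a, 0 ≤ g a)
    (h0 : ∀ a b, 0 ≤ h a b) (hB : 0 ≤ B) (hg : Summable g ∧ ∑' a, g a ≤ G)
    (hh : ∀ a, Summable (h a) ∧ ∑' b, h a b ≤ B) :
    Summable (fun p : α × β => g p.1 * h p.1 p.2) ∧ ∑' p : α × β, g p.1 * h p.1 p.2 ≤ G * B := by
  have h1 : ∀ a, ∑' b, g a * h a b ≤ g a * B := fun a => by
    rw [tsum_mul_left]
    exact mul_le_mul_of_nonneg_left (hh a).2 (g0 a)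
  have h2 : Summable fun a => ∑' b, g a * h a b :=
    Summable.of_nonneg_of_le (fun a => tsum_nonneg fun b => mul_nonneg (g0 a) (h0 a b)) h1
      (hg.1.mul_right B)
  have h3 : Summable fun p : α × β => g p.1 * h p.1 p.2 :=
    (summable_prod_of_nonneg fun p => mul_nonneg (g0 p.1) (h0 p.1 p.2)).2
      ⟨fun a => (hh a).1.mul_left (g a), h2⟩
  refine ⟨h3, ?_⟩
  rw [h3.tsum_prod]
  refine (h2.tsum_le_tsum h1 (hg.1.mul_right B)).trans ?_
  rw [tsum_mul_right]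
  exact mul_le_mul_of_nonneg_right hg.2 hB

theorem Maj_gs {A : ℝ} (hA : 0 < A) (x : ℝ) :
    Summable (fun n : ℤ => Real.exp (-(Real.pi / A * (n + x) ^ 2))) ∧
      ∑' n : ℤ, Real.exp (-(Real.pi / A * (n + x) ^ 2)) ≤ 1 + 3 * Real.sqrt A := by
  obtain ⟨h1, h2⟩ := gauss_sum_le (div_pos Real.pi_pos hA) x
  refine ⟨h1, h2.trans ?_⟩
  have h3 : (4 / 3 : ℝ) ≤ Real.sqrt Real.pi :=
    Real.le_sqrt_of_sq_le (by linarith [Real.pi_gt_three])
  have h4 := Real.sqrt_pos.2 hA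
  rw [Real.sqrt_div Real.pi_pos.le, div_div_eq_mul_div, add_le_add_iff_left,
    div_le_iff₀ (by linarith)]
  nlinarith

/-- Matrices as quadruples. -/
def Maj_e : ((ℤ × ℤ) × ℤ) × ℤ ≃ MZ where
  toFun p := !![p.1.2, p.2; p.1.1.1, p.1.1.2]
  invFun X := (((X 1 0, X 1 1), X 0 0), X 0 1)
  left_inv p := by simp
  right_inv X := by
    ext i j
    fin_cases i <;> fin_cases j <;> simp

theorem Maj_Th (t₁ t₂ : ℍ) {r : ℝ} (hr : 0 < r) :
    (Summable fun X : MZ => Real.exp (-(2 * Real.pi * r * Mj X t₁ t₂))) ∧ Th t₁ t₂ r ≤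
    (1 + 3 * Real.sqrt (t₁.im * t₂.im / r)) * (1 + 3 * Real.sqrt (t₂.im / (r * t₁.im))) *
      (1 + 3 * Real.sqrt (t₁.im / (r * t₂.im))) *
        (1 + 3 * Real.sqrt (1 / (r * t₁.im * t₂.im))) := by
  have h1 := t₁.im_pos
  have h2 := t₂.im_pos
  have s1 := Maj_gs (A := 1 / (r * t₁.im * t₂.im)) (by positivity) 0
  have s2 := Maj_prod (fun _ => (Real.exp_pos _).le) (fun _ _ => (Real.exp_pos _).le)
    (by positivity) s1 fun c : ℤ => Maj_gs (A := t₁.im / (r * t₂.im)) (by positivity) (c * t₁.re)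
  have s3 := Maj_prod (fun _ => by positivity) (fun _ _ => (Real.exp_pos _).le)
    (by positivity) s2 fun p : ℤ × ℤ =>
      Maj_gs (A := t₂.im / (r * t₁.im)) (by positivity) (-(p.1 * t₂.re))
  have s4 := Maj_prod (fun _ => by positivity) (fun _ _ => (Real.exp_pos _).le)
    (by positivity) s3 fun p : (ℤ × ℤ) × ℤ =>
      Maj_gs (A := t₁.im * t₂.im / r) (by positivity)
        ((p.2 - p.1.1 * t₂.re) * t₁.re - p.1.2 * t₂.re)
  have e : ∀ p : ((ℤ × ℤ) × ℤ) × ℤ, Real.exp (-(2 * Real.pi * r * Mj (Maj_e p) t₁ t₂)) =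
      Real.exp (-(Real.pi / (1 / (r * t₁.im * t₂.im)) * (p.1.1.1 + 0) ^ 2)) *
      Real.exp (-(Real.pi / (t₁.im / (r * t₂.im)) * (p.1.1.2 + p.1.1.1 * t₁.re) ^ 2)) *
      Real.exp (-(Real.pi / (t₂.im / (r * t₁.im)) * (p.1.2 + -(p.1.1.1 * t₂.re)) ^ 2)) *
      Real.exp (-(Real.pi / (t₁.im * t₂.im / r) *
        (p.2 + ((p.1.2 - p.1.1.1 * t₂.re) * t₁.re - p.1.1.2 * t₂.re)) ^ 2)) := by
    intro p
    rw [← Real.exp_add, ← Real.exp_add, ← Real.exp_add, Mj_eq]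
    congr 1
    simp only [Maj_e, Equiv.coe_fn_mk, Matrix.of_apply, Matrix.cons_val', Matrix.cons_val_zero,
      Matrix.cons_val_one, Matrix.cons_val_fin_one, Complex.normSq_apply, Complex.sub_re,
      Complex.sub_im, Complex.mul_re, Complex.mul_im, Complex.add_re, Complex.add_im,
      Complex.intCast_re, Complex.intCast_im, Complex.ofReal_re, Complex.ofReal_im, coe_re, coe_im]
    field_simp
    ring
  refine ⟨Maj_e.summable_iff.1 (s4.1.congr fun p => (e p).symm), ?_⟩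
  rw [Th, ← Maj_e.tsum_eq, tsum_congr e]
  exact s4.2.trans_eq (by ring)

theorem summable_Th (t₁ t₂ : ℍ) {r : ℝ} (hr : 0 < r) :
    Summable fun X : MZ => Real.exp (-(2 * Real.pi * r * Mj X t₁ t₂)) := by
  exact (Maj_Th t₁ t₂ hr).1

theorem summable_Mj_mul (t₁ t₂ : ℍ) {r : ℝ} (hr : 0 < r) :
    Summable fun X : MZ => (1 + Mj X t₁ t₂) * Real.exp (-(r * Mj X t₁ t₂)) := by
  have h0 : ∀ X : MZ, 0 ≤ Mj X t₁ t₂ := fun X => (abs_nonneg _).trans (abs_det_le_Mj X t₁ t₂)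
  have hπ := Real.pi_pos
  refine Summable.of_nonneg_of_le (fun X => ?_) (fun X => ?_)
    ((summable_Th t₁ t₂ (r := r / (4 * Real.pi)) (by positivity)).mul_left (1 + 2 / r))
  · have := h0 X
    positivity
  · have h1 := h0 X
    set M := Mj X t₁ t₂
    have e1 : 2 * Real.pi * (r / (4 * Real.pi)) * M = r * M / 2 := by
      field_simp
      ring
    have e2 : Real.exp (-(r * M / 2)) = Real.exp (r * M / 2) * Real.exp (-(r * M)) := by
      rw [← Real.exp_add]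
      ring_nf
    rw [e1, e2, ← mul_assoc]
    refine mul_le_mul_of_nonneg_right ?_ (Real.exp_pos _).le
    refine le_trans ?_ (mul_le_mul_of_nonneg_left (Real.add_one_le_exp _) (by positivity))
    have e3 : (1 + 2 / r) * (r * M / 2 + 1) = 1 + M + (r * M / 2 + 2 / r) := by
      field_simp
      ring
    rw [e3]
    exact le_add_of_nonneg_right (by positivity)

theorem Th_le (t₁ t₂ : ℍ) {r : ℝ} (hr : 0 < r) : Th t₁ t₂ r ≤
    (1 + 3 * Real.sqrt (t₁.im * t₂.im / r)) * (1 + 3 * Real.sqrt (t₂.im / (r * t₁.im))) *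
      (1 + 3 * Real.sqrt (t₁.im / (r * t₂.im))) * (1 + 3 * Real.sqrt (1 / (r * t₁.im * t₂.im))) := by
  exact (Maj_Th t₁ t₂ hr).2

theorem Maj_two {a b s : ℝ} (ha : 0 ≤ a) (hb : 0 ≤ b) (h0 : 0 ≤ s) (h1 : s ≤ 1) :
    (1 + a * s) * (1 + b * s) ≤ 1 + ((1 + a) * (1 + b) - 1) * s := by
  nlinarith [mul_nonneg (mul_nonneg (mul_nonneg ha hb) h0) (sub_nonneg.2 h1)]

theorem Maj_four {a b c d s : ℝ} (ha : 0 ≤ a) (hb : 0 ≤ b) (hc : 0 ≤ c) (hd : 0 ≤ d)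
    (h0 : 0 ≤ s) : (1 + a * s) * (1 + b * s) * (1 + c * s) * (1 + d * s) - 1 ≤
      (1 + a) * (1 + b) * (1 + c) * (1 + d) * (s + s ^ 4) := by
  have p0 : 0 ≤ (1 + a) * (1 + b) * (1 + c) * (1 + d) := by positivity
  rcases le_total s 1 with h1 | h1
  · have a1 := Maj_two ha hb h0 h1
    have a2 := Maj_two hc hd h0 h1
    have p1 : 0 ≤ (1 + a) * (1 + b) - 1 := by nlinarith [mul_nonneg ha hb]
    have p2 : 0 ≤ (1 + c) * (1 + d) - 1 := by nlinarith [mul_nonneg hc hd]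
    have a3 := Maj_two p1 p2 h0 h1
    have a4 := mul_le_mul a1 a2 (by positivity) (by positivity)
    have a5 := mul_nonneg p0 (pow_nonneg h0 4)
    nlinarith
  · have f : ∀ k : ℝ, 1 + k * s ≤ (1 + k) * s := fun k => by linarith
    have a1 : (1 + a * s) * (1 + b * s) * (1 + c * s) * (1 + d * s) ≤
        ((1 + a) * s) * ((1 + b) * s) * ((1 + c) * s) * ((1 + d) * s) := by
      gcongr <;> exact f _
    have a5 := mul_nonneg p0 h0
    nlinarith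

theorem Maj_sub (t₁ t₂ : ℍ) {r : ℝ} (hr : 0 < r) : Th t₁ t₂ r - 1 ≤
    (1 + 3 * Real.sqrt (t₁.im * t₂.im)) * (1 + 3 * Real.sqrt (t₂.im / t₁.im)) *
      (1 + 3 * Real.sqrt (t₁.im / t₂.im)) * (1 + 3 * Real.sqrt (1 / (t₁.im * t₂.im))) *
      ((Real.sqrt r)⁻¹ + (r ^ 2)⁻¹) := by
  have h1 := t₁.im_pos
  have h2 := t₂.im_pos
  have f : ∀ y : ℝ, 3 * Real.sqrt (y / r) = 3 * Real.sqrt y * (Real.sqrt r)⁻¹ := fun y => by
    rw [Real.sqrt_div' _ hr.le, div_eq_mul_inv, mul_assoc]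
  have e : (r ^ 2)⁻¹ = (Real.sqrt r)⁻¹ ^ 4 := by
    rw [inv_pow, show 4 = 2 * 2 from rfl, pow_mul, Real.sq_sqrt hr.le]
  have h := Th_le t₁ t₂ hr
  rw [show t₂.im / (r * t₁.im) = t₂.im / t₁.im / r by field_simp,
    show t₁.im / (r * t₂.im) = t₁.im / t₂.im / r by field_simp,
    show 1 / (r * t₁.im * t₂.im) = 1 / (t₁.im * t₂.im) / r by field_simp, f, f, f, f] at h
  rw [e]
  exact (sub_le_sub_right h 1).trans (Maj_four (by positivity) (by positivity) (by positivity)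
    (by positivity) (by positivity))

theorem Th_sub_one_le (t₁ t₂ : ℍ) : ∃ C : ℝ, 0 ≤ C ∧ ∀ r : ℝ, 0 < r →
    Th t₁ t₂ r - 1 ≤ C * ((Real.sqrt r)⁻¹ + (r ^ 2)⁻¹) := by
  exact ⟨_, by positivity, fun r hr => Maj_sub t₁ t₂ hr⟩

theorem Th_sub_one_le_fd : ∃ C : ℝ, 0 ≤ C ∧ ∀ t₁ t₂ : ℍ, 1 / 2 ≤ t₁.im → 1 / 2 ≤ t₂.im →
    ∀ r : ℝ, 0 < r → Th t₁ t₂ r - 1 ≤ C * (t₁.im + t₂.im) * ((Real.sqrt r)⁻¹ + (r ^ 2)⁻¹) := by
  refine ⟨280, by norm_num, fun t₁ t₂ h1 h2 r hr => (Maj_sub t₁ t₂ hr).trans ?_⟩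
  refine mul_le_mul_of_nonneg_right ?_ (by positivity)
  have p1 := t₁.im_pos
  have p2 := t₂.im_pos
  have q1 := Real.sqrt_pos.2 p1
  have q2 := Real.sqrt_pos.2 p2
  have e1 := Real.mul_self_sqrt p1.le
  have e2 := Real.mul_self_sqrt p2.le
  have q3 : 1 / 2 ≤ Real.sqrt t₁.im * Real.sqrt t₂.im := by
    rw [← Real.sqrt_mul p1.le]
    exact Real.le_sqrt_of_sq_le (by nlinarith)
  rw [Real.sqrt_div' _ p1.le, Real.sqrt_div' _ p2.le, Real.sqrt_div' _ (by positivity),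
    Real.sqrt_mul p1.le, Real.sqrt_one]
  set p := Real.sqrt t₁.im
  set q := Real.sqrt t₂.im
  rw [← e1, ← e2]
  have a1 : 1 + 3 * (p * q) ≤ 5 * (p * q) := by linarith
  have a2 : 1 + 3 * (1 / (p * q)) ≤ 7 := by
    have : 1 / (p * q) ≤ 2 := by
      rw [div_le_iff₀ (by positivity)]
      linarith
    linarith
  have a3 : 5 * (p * q) * (1 + 3 * (q / p)) * (1 + 3 * (p / q)) * 7 =
      350 * (p * q) + 105 * (p * p + q * q) := by
    field_simp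
    ring
  calc _ ≤ 5 * (p * q) * (1 + 3 * (q / p)) * (1 + 3 * (p / q)) * 7 := by gcongr
    _ ≤ _ := by
      rw [a3]
      nlinarith [mul_self_nonneg (p - q)]

theorem Th_smul_left (g : SL(2, ℤ)) (t₁ t₂ : ℍ) (r : ℝ) : Th (g • t₁) t₂ r = Th t₁ t₂ r := by
  rw [Th, Th, ← (Units.mulRight ⟨(g : MZ), ((g⁻¹ : SL(2, ℤ)) : MZ),
    by rw [← Matrix.SpecialLinearGroup.coe_mul, mul_inv_cancel, Matrix.SpecialLinearGroup.coe_one],
    by rw [← Matrix.SpecialLinearGroup.coe_mul, inv_mul_cancel,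
      Matrix.SpecialLinearGroup.coe_one]⟩).tsum_eq
    fun X : MZ => Real.exp (-(2 * Real.pi * r * Mj X t₁ t₂))]
  refine tsum_congr fun X => ?_
  simp only [Units.mulRight_apply, Mj, Rm_smul_left, Matrix.det_mul, g.det_coe, mul_one]

theorem finite_Mj_le (t₁ t₂ : ℍ) (B : ℝ) : {X : MZ | Mj X t₁ t₂ ≤ B}.Finite := by
  have h := (summable_Th t₁ t₂ one_pos).tendsto_cofinite_zero.eventually_lt_const
    (Real.exp_pos (-(2 * Real.pi * 1 * B)))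
  refine (Filter.eventually_cofinite.1 h).subset fun X hX => ?_
  have hπ := Real.pi_pos
  refine not_lt.2 (Real.exp_le_exp.2 (neg_le_neg ?_))
  exact mul_le_mul_of_nonneg_left hX (by positivity)

end

end Pool.Agent.P.MP_a60a76_nt.Sz
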