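import Pool.Agent.P.MP_a60a76_nt.Sz.Defs3
import Pool.Agent.P.MP_a60a76_nt.Sz.Maj
import Pool.Agent.P.MP_a60a76_nt.Sz.Ka

namespace Pool.Agent.P.MP_a60a76_nt.Sz

open UpperHalfPlane hiding J
open MeasureTheory SP
open scoped MatrixGroups UpperHalfPlane Matrix Modular Topology Classical ArithmeticFunction.sigma

noncomputable section

/-! Matrices which send one point to another one. -/

variable {Z W Y Y₁ Y₂ : MZ} {t t₁ t₂ t₃ s s₁ s₂ : ℍ}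

theorem dn_add (Z W : MZ) (t : ℍ) : dn (Z + W) t = dn Z t + dn W t := by
  simp only [dn, Matrix.add_apply]
  push_cast
  ring

theorem dn_sub (Z W : MZ) (t : ℍ) : dn (Z - W) t = dn Z t - dn W t := by
  simp only [dn, Matrix.sub_apply]
  push_cast
  ring

theorem dn_neg (Z : MZ) (t : ℍ) : dn (-Z) t = -dn Z t := by
  simp only [dn, Matrix.neg_apply]
  push_cast
  ring

theorem dn_zsmul (n : ℤ) (Z : MZ) (t : ℍ) : dn (n • Z) t = n * dn Z t := by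
  simp only [dn, Matrix.smul_apply, smul_eq_mul]
  push_cast
  ring

theorem dn_one (t : ℍ) : dn 1 t = 1 := by
  simp [dn]

theorem dn_im (Y : MZ) (s : ℍ) : (dn Y s).im = Y 1 0 * s.im := by
  simp [dn]

theorem rm0_iff (Z : MZ) (t₁ t₂ : ℍ) :
    Rm Z t₁ t₂ = 0 ↔ dn Z t₁ * t₂ = (Z 0 0 : ℂ) * t₁ + Z 0 1 := by
  have h1 := t₁.im_pos
  have h2 := t₂.im_pos
  rw [Rm, div_eq_zero_iff, or_iff_left (by positivity), Complex.normSq_eq_zero, sub_eq_zero, dn]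

theorem rm0_add (hZ : Rm Z t₁ t₂ = 0) (hW : Rm W t₁ t₂ = 0) : Rm (Z + W) t₁ t₂ = 0 := by
  rw [rm0_iff] at *
  rw [dn_add]
  simp only [Matrix.add_apply]
  push_cast
  linear_combination hZ + hW

theorem rm0_sub (hZ : Rm Z t₁ t₂ = 0) (hW : Rm W t₁ t₂ = 0) : Rm (Z - W) t₁ t₂ = 0 := by
  rw [rm0_iff] at *
  rw [dn_sub]
  simp only [Matrix.sub_apply]
  push_cast
  linear_combination hZ - hW

theorem rm0_zsmul (n : ℤ) (hZ : Rm Z t₁ t₂ = 0) : Rm (n • Z) t₁ t₂ = 0 := by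
  rw [rm0_iff] at *
  rw [dn_zsmul]
  simp only [Matrix.smul_apply, smul_eq_mul]
  push_cast
  linear_combination n * hZ

theorem rm0_of_zsmul {n : ℤ} (hn : n ≠ 0) (h : Rm (n • Z) t₁ t₂ = 0) : Rm Z t₁ t₂ = 0 := by
  rw [rm0_iff] at *
  rw [dn_zsmul] at h
  simp only [Matrix.smul_apply, smul_eq_mul] at h
  push_cast at h
  have hn' : (n : ℂ) ≠ 0 := by exact_mod_cast hn
  refine mul_left_cancel₀ hn' ?_
  linear_combination h

theorem rm0_one (t : ℍ) : Rm 1 t t = 0 := by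
  rw [rm0_iff, dn_one]
  simp

theorem rm0_mul (hZ : Rm Z t₂ t₃ = 0) (hW : Rm W t₁ t₂ = 0) :
    Rm (Z * W) t₁ t₃ = 0 ∧ dn (Z * W) t₁ = dn Z t₂ * dn W t₁ := by
  rw [rm0_iff] at *
  simp only [dn, Matrix.mul_apply, Fin.sum_univ_two] at *
  push_cast
  constructor
  · linear_combination ((W 1 0 : ℂ) * t₁ + W 1 1) * hZ + (Z 0 0 - Z 1 0 * t₃) * hW
  · linear_combination (-(Z 1 0 : ℂ)) * hW

theorem rm0_adj (hZ : Rm Z t₁ t₂ = 0) :
    Rm Z.adjugate t₂ t₁ = 0 ∧ dn Z.adjugate t₂ * dn Z t₁ = Z.det := by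
  rw [rm0_iff] at *
  simp only [dn, Matrix.adjugate_fin_two, Matrix.det_fin_two, Matrix.of_apply, Matrix.cons_val',
    Matrix.cons_val_zero, Matrix.cons_val_one, Matrix.cons_val_fin_one] at *
  push_cast
  constructor
  · linear_combination -hZ
  · linear_combination (-(Z 1 0 : ℂ)) * hZ

theorem rm0_det (hZ : Rm Z t₁ t₂ = 0) :
    (Z.det : ℝ) * t₁.im = Complex.normSq (dn Z t₁) * t₂.im := by
  rw [rm0_iff] at hZ
  have h1 := congrArg Complex.re hZ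
  have h2 := congrArg Complex.im hZ
  simp only [dn, Complex.add_re, Complex.add_im, Complex.mul_re, Complex.mul_im,
    Complex.intCast_re, Complex.intCast_im, coe_re, coe_im, Complex.normSq_apply,
    Matrix.det_fin_two] at *
  push_cast
  linear_combination (Z 1 0 * t₁.im) * h1 - (Z 1 0 * t₁.re + Z 1 1) * h2

theorem rm0_ext (hZ : Rm Z t₁ t₂ = 0) (hW : Rm W t₁ t₂ = 0) (h : dn Z t₁ = dn W t₁) : Z = W := by
  rw [rm0_iff] at *
  have h1 : ((Z 1 0 - W 1 0 : ℤ) : ℂ) * t₁ + (Z 1 1 - W 1 1 : ℤ) = 0 := by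
    simp only [dn] at h
    push_cast
    linear_combination h
  have h2 : ((Z 0 0 - W 0 0 : ℤ) : ℂ) * t₁ + (Z 0 1 - W 0 1 : ℤ) = 0 := by
    push_cast
    linear_combination hW - hZ + t₂ * h
  obtain ⟨h3, h4⟩ := Maj_lin_zero h1
  obtain ⟨h5, h6⟩ := Maj_lin_zero h2
  ext i j
  fin_cases i <;> fin_cases j
  · exact sub_eq_zero.1 h5
  · exact sub_eq_zero.1 h6
  · exact sub_eq_zero.1 h3
  · exact sub_eq_zero.1 h4

theorem rm0_det_nonneg (hZ : Rm Z t₁ t₂ = 0) : 0 ≤ Z.det := by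
  have h1 := Maj_add_nonneg Z t₁ t₂
  rw [hZ, zero_add] at h1
  exact_mod_cast h1

theorem rm0_det_pos (hZ : Rm Z t₁ t₂ = 0) (h0 : Z ≠ 0) : 0 < Z.det := by
  by_contra h
  exact (Rm_pos_of_det h0 (not_lt.1 h) t₁ t₂).ne' hZ

theorem rm0_dn_ne (hZ : Rm Z t₁ t₂ = 0) (h0 : Z ≠ 0) : dn Z t₁ ≠ 0 := by
  exact dn_ne_zero (row_ne_zero (rm0_det_pos hZ h0).ne') t₁

theorem rm0_Mj (hZ : Rm Z t₁ t₂ = 0) : Mj Z t₁ t₂ = Z.det := by
  rw [Mj, hZ, mul_zero, zero_add]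

theorem rm0_mob (hZ : Rm Z t₁ t₂ = 0) (h0 : Z ≠ 0) : mob Z t₁ = t₂ := by
  exact ((Rm_eq_zero_iff (rm0_det_pos hZ h0) t₁ t₂).1 hZ).symm

theorem rm0_of_mob (h : 0 < Z.det) (t : ℍ) : Rm Z t (mob Z t) = 0 := by
  exact (Rm_eq_zero_iff h _ _).2 rfl

theorem rm0_sl (g : SL(2, ℤ)) (t : ℍ) : Rm g t (g • t) = 0 := by
  rw [← mob_sl]
  exact rm0_of_mob (sl_det_pos g) t

theorem sl_fix_iff (g : SL(2, ℤ)) (s : ℍ) : g • s = s ↔ Rm g s s = 0 := by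
  rw [Rm_eq_zero_iff (sl_det_pos g), mob_sl, eq_comm]

theorem rm0_finite (t₁ t₂ : ℍ) (R : ℝ) : {Z : MZ | Rm Z t₁ t₂ = 0 ∧ (Z.det : ℝ) ≤ R}.Finite := by
  refine (finite_Mj_le t₁ t₂ R).subset fun Z hZ => ?_
  rw [Set.mem_ofPred_eq, rm0_Mj hZ.1]
  exact hZ.2

theorem fix_det (h : Rm Y s s = 0) : (Y.det : ℝ) = Complex.normSq (dn Y s) := by
  exact mul_right_cancel₀ s.im_pos.ne' (rm0_det h)

theorem FxA_add_adj (Y : MZ) (s : ℍ) : dn Y s + dn Y.adjugate s = Y.trace := by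
  simp only [dn, Matrix.adjugate_fin_two, Matrix.trace_fin_two, Matrix.of_apply, Matrix.cons_val',
    Matrix.cons_val_zero, Matrix.cons_val_one, Matrix.cons_val_fin_one]
  push_cast
  ring

theorem FxA_adj_eq (Y : MZ) : Y.adjugate = Y.trace • (1 : MZ) - Y := by
  ext i j
  rw [Matrix.sub_apply, Matrix.smul_apply, Matrix.one_apply, smul_eq_mul]
  fin_cases i <;> fin_cases j <;> simp [Matrix.adjugate_fin_two, Matrix.trace_fin_two]

theorem FxA_adj (h : Rm Y s s = 0) : dn Y.adjugate s = (starRingEnd ℂ) (dn Y s) := by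
  by_cases h0 : Y = 0
  · subst h0
    simp [dn]
  · refine mul_right_cancel₀ (rm0_dn_ne h h0) ?_
    rw [(rm0_adj h).2, ← Complex.normSq_eq_conj_mul_self, ← fix_det h, Complex.ofReal_intCast]

theorem fix_trace (h : Rm Y s s = 0) : (Y.trace : ℝ) = 2 * (dn Y s).re := by
  have h1 := congrArg Complex.re (FxA_add_adj Y s)
  rw [FxA_adj h] at h1
  simp only [Complex.add_re, Complex.conj_re, Complex.intCast_re] at h1
  linarith

theorem fix_adj (h : Rm Y s s = 0) : dn Y.adjugate s = (starRingEnd ℂ) (dn Y s) := by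
  exact FxA_adj h

theorem fix_add_adj (h : Rm Y s s = 0) : dn Y s + dn Y.adjugate s = Y.trace := by
  have _ := h
  exact FxA_add_adj Y s

theorem fix_char (h : Rm Y s s = 0) : dn Y s ^ 2 - Y.trace * dn Y s + Y.det = 0 := by
  linear_combination dn Y s * FxA_add_adj Y s - (rm0_adj h).2

theorem fix_dsc (h : Rm Y s s = 0) : (dsc Y : ℝ) = 4 * (dn Y s).im ^ 2 := by
  rw [dsc, Int.cast_sub, Int.cast_mul, Int.cast_pow, fix_det h, fix_trace h, Complex.normSq_apply]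
  push_cast
  ring

theorem fix_im_le (h : Rm Y s s = 0) (h0 : (dn Y s).im ≠ 0) : 4 * s.im ^ 2 ≤ dsc Y := by
  rw [fix_dsc h, dn_im]
  rw [dn_im] at h0
  have h1 : Y 1 0 ≠ 0 := by
    intro h2
    rw [h2] at h0
    simp at h0
  have h2 : (1 : ℝ) ≤ (Y 1 0 : ℝ) ^ 2 := by
    have : 1 ≤ Y 1 0 ^ 2 := (one_le_sq_iff_one_le_abs _).2 (Int.one_le_abs h1)
    exact_mod_cast this
  have h3 := sq_nonneg s.im
  rw [mul_pow]
  nlinarith

theorem fix_im_ne {l : ℕ} (hl : l.Prime) (h : Rm Y s s = 0) (hd : Y.det = l) :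
    (dn Y s).im ≠ 0 := by
  intro h0
  have h1 := fix_dsc h
  rw [h0] at h1
  have h2 : dsc Y = 0 := by
    have : (dsc Y : ℝ) = 0 := by rw [h1]; ring
    exact_mod_cast this
  rw [dsc, hd] at h2
  have h3 : Even (Y.trace ^ 2) := ⟨2 * l, by linarith⟩
  obtain ⟨k, hk⟩ := (Int.even_pow.1 h3).1
  have h4 : IsSquare (l : ℤ) := ⟨k, by rw [hk] at h2; linarith⟩
  exact (Nat.prime_iff_prime_int.1 hl).not_isSquare h4

theorem fix_eq_or (h₁ : Rm Y₁ s₁ s₁ = 0) (h₂ : Rm Y₂ s₂ s₂ = 0) (hd : Y₁.det = Y₂.det)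
    (ht : Y₁.trace = Y₂.trace) : dn Y₁ s₁ = dn Y₂ s₂ ∨ dn Y₁ s₁ = dn Y₂.adjugate s₂ := by
  have h1 := fix_char h₁
  rw [hd, ht] at h1
  have h2 : (dn Y₁ s₁ - dn Y₂ s₂) * (dn Y₁ s₁ - dn Y₂.adjugate s₂) = 0 := by
    linear_combination h1 - dn Y₁ s₁ * FxA_add_adj Y₂ s₂ + (rm0_adj h₂).2
  rcases mul_eq_zero.1 h2 with h3 | h3
  · exact Or.inl (sub_eq_zero.1 h3)
  · exact Or.inr (sub_eq_zero.1 h3)

theorem cn_det (g : SL(2, ℤ)) (Y : MZ) : (cn g Y).det = Y.det := by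
  rw [cn, Matrix.det_mul, Matrix.det_mul, g.det_coe, g⁻¹.det_coe, one_mul, mul_one]

theorem cn_trace (g : SL(2, ℤ)) (Y : MZ) : (cn g Y).trace = Y.trace := by
  rw [cn, Matrix.trace_mul_cycle, ← Matrix.SpecialLinearGroup.coe_mul, inv_mul_cancel,
    Matrix.SpecialLinearGroup.coe_one, one_mul]

theorem cn_dsc (g : SL(2, ℤ)) (Y : MZ) : dsc (cn g Y) = dsc Y := by
  rw [dsc, dsc, cn_det, cn_trace]

theorem cn_mul (g : SL(2, ℤ)) (Y : MZ) : cn g Y * (g : MZ) = (g : MZ) * Y := by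
  rw [cn, mul_assoc, ← Matrix.SpecialLinearGroup.coe_mul, inv_mul_cancel,
    Matrix.SpecialLinearGroup.coe_one, mul_one]

theorem fix_cn (g : SL(2, ℤ)) (h : Rm Y s s = 0) :
    Rm (cn g Y) (g • s) (g • s) = 0 ∧ dn (cn g Y) (g • s) = dn Y s := by
  have h1 : Rm (cn g Y) (g • s) (g • s) = 0 := by
    rw [Rm_smul_left, cn_mul, Rm_smul_right, h]
  refine ⟨h1, mul_right_cancel₀ (dn_sl_ne_zero g s) ?_⟩
  rw [← (rm0_mul h1 (rm0_sl g s)).2, cn_mul, (rm0_mul (rm0_sl g s) h).2, mul_comm]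

theorem Cm.det_eq (h : Cm s₁ s₂ Y₁ Y₂) : Y₁.det = Y₂.det := by
  have h1 := fix_det h.fix₁
  rw [h.dn_eq, ← fix_det h.fix₂] at h1
  exact_mod_cast h1

theorem Cm.trace_eq (h : Cm s₁ s₂ Y₁ Y₂) : Y₁.trace = Y₂.trace := by
  have h1 := fix_trace h.fix₁
  rw [h.dn_eq, ← fix_trace h.fix₂] at h1
  exact_mod_cast h1

theorem Cm.dsc_pos (h : Cm s₁ s₂ Y₁ Y₂) : 0 < dsc Y₁ := by
  have h1 := fix_dsc h.fix₁
  have h2 : 0 < (dn Y₁ s₁).im ^ 2 := sq_pos_of_ne_zero h.im_ne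
  have h3 : (0 : ℝ) < dsc Y₁ := by linarith
  exact_mod_cast h3

theorem Cm.comm_iff (h : Cm s₁ s₂ Y₁ Y₂) (W : MZ) : Rm W s₁ s₂ = 0 ↔ Y₂ * W = W * Y₁ := by
  constructor
  · intro hW
    obtain ⟨h1, h2⟩ := rm0_mul h.fix₂ hW
    obtain ⟨h3, h4⟩ := rm0_mul hW h.fix₁
    refine rm0_ext h1 h3 ?_
    rw [h2, h4, h.dn_eq, mul_comm]
  · intro e
    have h1 : dn (Y₂ * W) s₁ = dn (W * Y₁) s₁ := by rw [e]
    have h2 := (rm0_iff _ _ _).1 h.fix₁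
    have h3 := h.dn_eq
    have h4 : (Y₂ 1 0 : ℂ) ≠ 0 := by
      intro h5
      have h6 := h.im_ne
      rw [h3, dn_im, Int.cast_eq_zero.1 h5] at h6
      simp at h6
    rw [rm0_iff]
    refine mul_left_cancel₀ h4 ?_
    simp only [dn, Matrix.mul_apply, Fin.sum_univ_two] at *
    push_cast at h1
    linear_combination -h1 + (W 1 0 : ℂ) * h2 - ((W 1 0 : ℂ) * s₁ + W 1 1) * h3

theorem Cm.pi (h : Cm s₁ s₂ Y₁ Y₂) (W : MZ) : Rm (Y₂ * W - W * Y₁.adjugate) s₁ s₂ = 0 := by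
  rw [h.comm_iff]
  have hd := h.det_eq
  have ht := h.trace_eq
  have e1 : Y₁.adjugate = Y₂.trace • (1 : MZ) - Y₁ := by rw [← ht, FxA_adj_eq]
  have e2 : Y₂ * Y₂ = Y₂.trace • Y₂ - Y₂.det • (1 : MZ) := by
    rw [← Matrix.adjugate_mul, FxA_adj_eq, sub_mul, smul_mul_assoc, one_mul, sub_sub_cancel]
  have e3 : Y₁.adjugate * Y₁ = Y₂.det • (1 : MZ) := by rw [Matrix.adjugate_mul, hd]
  rw [sub_mul, mul_assoc W, e3, mul_sub, ← mul_assoc, e2, e1]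
  simp only [mul_sub, sub_mul, smul_mul_assoc, mul_smul_comm, one_mul, mul_one, mul_assoc]
  abel

theorem Cm.smul (h : Cm s₁ s₂ Y₁ Y₂) (g : SL(2, ℤ)) : Cm (g • s₁) s₂ (cn g Y₁) Y₂ := by
  exact ⟨(fix_cn g h.fix₁).1, h.fix₂, (fix_cn g h.fix₁).2.trans h.dn_eq, by
    rw [(fix_cn g h.fix₁).2]
    exact h.im_ne⟩

end

end Pool.Agent.P.MP_a60a76_nt.Sz
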