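import Pool.Agent.P.MP_a60a76_nt.Sz.KronA

namespace Pool.Agent.P.MP_a60a76_nt.Sz

open UpperHalfPlane hiding J
open MeasureTheory SP
open scoped MatrixGroups UpperHalfPlane Matrix Modular Topology Classical ArithmeticFunction.sigma

noncomputable section

/-! The congruence of Kronecker at a fixed point. -/

variable {K : Type} [NormedField K] [IsUltrametricDist K] {l : ℕ}

theorem Kron_det_adj (Y : MZ) : Y.adjugate.det = Y.det := by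
  simp [Matrix.det_adjugate]

theorem Kron_adj_sl (g : SL(2, ℤ)) : (g : MZ).adjugate = ((g⁻¹ : SL(2, ℤ)) : MZ) := rfl

/-- The product of two defects. -/
def Kron_F {P : Par} (α α' : P.GF → MZ → ℍ → ℂ) (Y : MZ) (γ γ' : P.GF) (τ : ℍ) : ℂ :=
  α γ Y τ * α' γ' Y.adjugate (mob Y τ)

section

variable {P : Par} {ι : ℂ →+* K} {α α' : P.GF → MZ → ℍ → ℂ}

omit [IsUltrametricDist K] in
theorem Kron_left (hl : l.Prime) (h : P.Df ι l α) (h' : P.Df ι l α') {Y : MZ} (hY : Y.det = l)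
    (g : SL(2, ℤ)) (γ γ' : P.GF) :
    Kron_F α α' ((g : MZ) * Y) γ γ' = Kron_F α α' Y γ (γ' * P.rg g) := by
  have h0 : 0 < Y.det := by rw [hY]; exact_mod_cast hl.pos
  funext τ
  rw [Kron_F, Kron_F, h.left γ g Y hY, mob_mul (sl_det_pos g) h0, mob_sl,
    h'.right γ' g _ _ (by rw [Kron_det_adj, Matrix.det_mul, g.det_coe, one_mul, hY]),
    Matrix.adjugate_mul_distrib, Matrix.mul_assoc, Matrix.adjugate_mul, g.det_coe, one_smul,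
    Matrix.mul_one]

omit [IsUltrametricDist K] in
theorem Kron_right (hl : l.Prime) (h : P.Df ι l α) (h' : P.Df ι l α') {Y : MZ} (hY : Y.det = l)
    (g : SL(2, ℤ)) (γ γ' : P.GF) (τ : ℍ) :
    Kron_F α α' Y γ γ' (g • τ) = Kron_F α α' (Y * (g : MZ)) (γ * P.rg g) γ' τ := by
  have h0 : 0 < Y.det := by rw [hY]; exact_mod_cast hl.pos
  rw [Kron_F, Kron_F, h.right γ g Y τ hY, mob_mul h0 (sl_det_pos g), mob_sl,
    Matrix.adjugate_mul_distrib, Kron_adj_sl, h'.left γ' _ _ ((Kron_det_adj Y).trans hY)]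

theorem Kron_zs_A (hl : l.Prime) (h : P.Df ι l α) (h' : P.Df ι l α') (γ γ' : P.GF) :
    Zs ι (Kron_F α α' !![(l : ℤ), 0; 0, 1] γ γ') := by
  have h1 := (h'.zq γ' (!![(l : ℤ), 0; 0, 1] : MZ).adjugate
    (by rw [Kron_det_adj]; simp)).mob_tri hl.pos one_pos 0
  rw [Nat.cast_one] at h1
  exact (h.zs γ).mul h1

theorem Kron_zs_B (hl : l.Prime) (h : P.Df ι l α) (h' : P.Df ι l α') (b : ℤ) (γ γ' : P.GF) :
    Zs ι (Kron_F α α' !![1, b; 0, (l : ℤ)] γ γ') := by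
  have h1 := (h'.zs γ').mob_tri one_pos hl.pos b
  rw [Nat.cast_one] at h1
  have h2 : (!![1, b; 0, (l : ℤ)] : MZ).adjugate =
      ((⟨!![1, -b; 0, 1], by simp⟩ : SL(2, ℤ)) : MZ) * !![(l : ℤ), 0; 0, 1] := by
    simp [Matrix.adjugate_fin_two]
  refine ((h.zq γ !![1, b; 0, (l : ℤ)] (by simp)).mul_zs h1).congr fun τ => ?_
  rw [Kron_F, h2, h'.left γ' _ _ (by simp)]

end

theorem Par.Df.mul_lt {P : Par} {ι : ℂ →+* K} (hl : l.Prime) {α α' : P.GF → MZ → ℍ → ℂ}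
    (h : P.Df ι l α) (h' : P.Df ι l α') {Y : MZ} (hY : Y.det = l) (γ γ' : P.GF) {τ : ℍ}
    (hτ : ‖ι (J τ)‖ ≤ 1) : ‖ι (α γ Y τ * α' γ' Y.adjugate (mob Y τ))‖ < 1 := by
  have hA : (!![(l : ℤ), 0; 0, 1] : MZ).det = l := by simp
  have hB : ∀ b : ℤ, (!![1, b; 0, (l : ℤ)] : MZ).det = l := fun b => by simp
  refine orb_lt (S := {F | ∃ (Y : MZ) (δ δ' : P.GF), Y.det = l ∧ F = Kron_F α α' Y δ δ'})
    (F := Kron_F α α' Y γ γ') ?_ ?_ ?_ ⟨Y, γ, γ', hY, rfl⟩ hτ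
  · refine ((Set.finite_range fun x : P.GF × P.GF =>
      Kron_F α α' !![(l : ℤ), 0; 0, 1] x.1 x.2).union
      (Set.finite_range fun x : Fin l × P.GF × P.GF =>
        Kron_F α α' !![1, ((x.1 : ℕ) : ℤ); 0, (l : ℤ)] x.2.1 x.2.2)).subset ?_
    rintro _ ⟨Z, δ, δ', hZ, rfl⟩
    rcases hnf_prime hl hZ with ⟨g, rfl⟩ | ⟨g, b, hb, rfl⟩
    · exact Or.inl ⟨(δ, δ' * P.rg g), (Kron_left hl h h' hA g δ δ').symm⟩
    · exact Or.inr ⟨(⟨b, hb⟩, δ, δ' * P.rg g), (Kron_left hl h h' (hB b) g δ δ').symm⟩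
  · rintro _ ⟨Z, δ, δ', hZ, rfl⟩ g
    exact ⟨Z * (g : MZ), δ * P.rg g, δ', by rw [Matrix.det_mul, g.det_coe, mul_one, hZ],
      funext (Kron_right hl h h' hZ g δ δ')⟩
  · rintro _ ⟨Z, δ, δ', hZ, rfl⟩
    rcases hnf_prime hl hZ with ⟨g, rfl⟩ | ⟨g, b, -, rfl⟩
    · rw [Kron_left hl h h' hA]
      exact Kron_zs_A hl h h' _ _
    · rw [Kron_left hl h h' (hB b)]
      exact Kron_zs_B hl h h' _ _ _

theorem Par.kron (P : Par) (ι : ℂ ≃+* K) (hl : l.Prime) (hne : l ≠ P.p) (hp : ‖(P.p : K)‖ = 1)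
    (hι : ‖(l : K)‖ < 1) {φ : K ≃+* K} (hφ : Frb l φ) {s : ℍ} {Y : MZ} (hY : Rm Y s s = 0)
    (hd : Y.det = l) (hs : ‖ι (J s)‖ ≤ 1) : ∃ Y' : MZ, Rm Y' s s = 0 ∧ Y'.det = l ∧
      ‖ι (dn Y' s)‖ < 1 ∧ ∀ n f a, P.Fam1 (Ai (ι : ℂ →+* K)) n f a → ∀ γ,
        ‖ι (f (γ * P.gm Y') s - f γ s ^ l)‖ < 1 := by
  have ne : ∀ Z : MZ, Z.det = l → Z ≠ 0 := fun Z hZ h0 => by
    rw [h0, Matrix.det_zero] at hZ
    exact hl.ne_zero (by exact_mod_cast hZ.symm)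
  have key : ∀ Z : MZ, Rm Z s s = 0 → Z.det = l →
      (∀ α, P.Df (ι : ℂ →+* K) l α → ∀ γ, ‖ι (α γ Z s)‖ < 1) →
      ∃ Y' : MZ, Rm Y' s s = 0 ∧ Y'.det = l ∧ ‖ι (dn Y' s)‖ < 1 ∧
        ∀ n f a, P.Fam1 (Ai (ι : ℂ →+* K)) n f a → ∀ γ,
          ‖ι (f (γ * P.gm Y') s - f γ s ^ l)‖ < 1 := fun Z hZ hd' H => by
    obtain ⟨h1, h2⟩ := rm0_adj hZ
    have hm := rm0_mob hZ (ne Z hd')
    refine ⟨Z.adjugate, h1, (Kron_det_adj Z).trans hd', ?_, fun n f a hf γ => ?_⟩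
    · have h3 := H _ (P.df_unit (ι : ℂ →+* K) hl hι) 1
      have h4 : Unit_val l Z s = dn Z.adjugate s ^ 12 := by
        have h5 := rm0_dn_ne hZ (ne Z hd')
        have h6 := Dl_ne_zero s
        rw [hd', Int.cast_natCast] at h2
        rw [Unit_val, hm, ← h2]
        field_simp
      rw [h4, map_pow, norm_pow] at h3
      exact (pow_lt_one_iff_of_nonneg (norm_nonneg _) (by norm_num)).1 h3
    · have h3 := H _ (P.df_fam ι hl hne hp hι hφ hf) γ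
      rwa [hm] at h3
  by_cases hB : ∀ α, P.Df (ι : ℂ →+* K) l α → ∀ γ, ‖ι (α γ Y.adjugate s)‖ < 1
  · exact key _ (rm0_adj hY).1 ((Kron_det_adj Y).trans hd) hB
  · push Not at hB
    obtain ⟨α', h', γ', h1⟩ := hB
    refine key Y hY hd fun α h γ => ?_
    have h2 := h.mul_lt hl h' hd γ γ' (τ := s) hs
    rw [rm0_mob hY (ne Y hd), map_mul, norm_mul] at h2
    exact (le_mul_of_one_le_right (norm_nonneg _) h1).trans_lt h2

end

end Pool.Agent.P.MP_a60a76_nt.Sz
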