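import Pool.Agent.P.MP_a60a76_nt.Sz.Flip
import Pool.Agent.P.MP_a60a76_nt.Sz.Kron
import Pool.Agent.P.MP_a60a76_nt.Sz.Frob

namespace Pool.Agent.P.MP_a60a76_nt.Sz

open UpperHalfPlane hiding J
open MeasureTheory SP
open scoped MatrixGroups UpperHalfPlane Matrix Modular Topology Classical ArithmeticFunction.sigma

noncomputable section

/-! Lifting the Frobenius at a small prime. -/

theorem Small_not_el {l : ℕ} {j : ℚ} (h0 : padicNorm l j = 1) (h1 : padicNorm l (j - 1728) = 1) :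
    ¬ El j := by
  rintro (rfl | rfl)
  · simp at h0
  · simp at h1

theorem Small_near (P : Par) {K : Type} [NormedField K] [IsUltrametricDist K] {l : ℕ}
    (hl : l.Prime) (h5 : 5 ≤ l) (hne : l ≠ P.p) {ι : ℂ →+* K} (hι : Plv ι l) {t : ℍ} {j : ℚ}
    (ht : J t = j) (hj : Ok l j) : ∃ (s : ℍ) (Y : MZ), P.Nr ι l t s ∧ Rm Y s s = 0 ∧
      Y.det = l ∧ (El j → s = t) := by
  have h6 := hι.norm_six hl h5
  have ell : (J t = 0 ∧ l % 3 = 1) ∨ (J t = 1728 ∧ l % 4 = 1) → ∃ (s : ℍ) (Y : MZ),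
      P.Nr ι l t s ∧ Rm Y s s = 0 ∧ Y.det = l ∧ (El j → s = t) := by
    intro h
    obtain ⟨Y, hY, hd⟩ := exists_norm hl h
    exact ⟨t, Y, ⟨gd_of_ell h6 (h.imp And.left And.left), Par.Co.Sim.refl _ _, by simp⟩, hY, hd,
      fun _ => rfl⟩
  rcases hj with ⟨h0, h1⟩ | ⟨rfl, h⟩ | ⟨rfl, h⟩
  · have n0 : ‖ι j‖ = 1 := by rw [hι j, h0, Rat.cast_one]
    have n1 : ‖ι (j - 1728)‖ = 1 := by
      have := hι (j - 1728)
      rw [h1] at this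
      exact_mod_cast this
    obtain ⟨s, Y, hY, hd, hs⟩ := deuring hl hι n0.le
    have hlt : ‖ι (j - J s)‖ < 1 := by
      have : (l : ℝ)⁻¹ < 1 := inv_lt_one_of_one_lt₀ (by exact_mod_cast hl.one_lt)
      exact lt_of_pow_lt_pow_left₀ 2 zero_le_one (by rw [one_pow]; exact hs.trans_lt this)
    obtain ⟨g, hg⟩ := Par.exists_sim (P := P) (t := t) (s := s) (hι.norm_p hl hne) h6
      (by rw [ht, n0]) (by rwa [ht])
    exact ⟨g • s, cn g Y, ⟨(gd_of_unit n0 n1 hlt).1.smul g, hg, by rwa [SP.J_smul, ht]⟩,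
      (fix_cn g hY).1, by rw [cn_det, hd], fun h => absurd h (Small_not_el h0 h1)⟩
  · exact ell (Or.inl ⟨by simpa using ht, h⟩)
  · exact ell (Or.inr ⟨by simpa using ht, h⟩)

theorem Par.frob_lift (P : Par) {K : Type} [NormedField K] [IsUltrametricDist K] {l : ℕ}
    (hl : l.Prime) (h5 : 5 ≤ l) (hne : l ≠ P.p) {ι : ℂ ≃+* K} (hι : Plv (ι : ℂ →+* K) l)
    {φ : K ≃+* K} (hφ : Frb l φ) {t : ℍ} {j : ℚ} (ht : J t = j) (hj : Ok l j) {ρ : P.GF}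
    (hρ : P.Ga t (cjg ι φ) ρ) : ∃ (s : ℍ) (Y : MZ), P.Nr (ι : ℂ →+* K) l t s ∧ Rm Y s s = 0 ∧
      Y.det = l ∧ ‖ι (dn Y s)‖ < 1 ∧ (ρ : P.MF) = P.rz Y ∧ (El j → s = t) := by
  have h6 := hι.norm_six hl h5
  have hp := hι.norm_p hl hne
  have hn := hι.norm_l hl
  obtain ⟨s, Y₀, hs, hY₀, hd₀, he⟩ := Small_near P hl h5 hne hι ht hj
  obtain ⟨Y, hY, hd, hlt, hf⟩ := P.kron ι hl hne hp hn hφ hY₀ hd₀ hs.1.1
  obtain ⟨κ, hκ, e⟩ := hρ
  have is := Par.co_itg (P := P) hp h6 hs.1.1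
  have it := hs.2.1.symm.itg is
  have h₁ : ((P.co s).tw (P.gm Y)).Sim ((P.co s).pw l) (ι : ℂ →+* K) := by
    refine Co.sim_of_ts (is.tw _) (is.pw l) ((Par.co_sep hp hs.1.1).tw _).norm_d fun o => ?_
    obtain ⟨a, ha⟩ := P.tf_fam o
    have a₁ := hf 1 _ a (ha _ (Par.wc_mem _ hp h6)) 1
    rw [one_mul, P.tf_one] at a₁
    have a₂ := Co.ts_pw hl hn is o
    rw [← norm_neg, ← map_neg] at a₂
    have := Frob_add_lt a₁ a₂
    rwa [RingHom.coe_coe, ← map_add, neg_sub, sub_add_sub_cancel] at this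
  have h₂ : ((P.co t).pw l).Sim ((P.co t).tw ρ) (ι : ℂ →+* K) := by
    have := (it.cl_frb hφ).sim.symm
    rw [e] at this
    exact this.trans (Co.sim_sc _ _ hκ).symm
  obtain ⟨κ', hκ', h⟩ := ((h₁.trans (hs.2.1.pw it l).symm).trans h₂).trans (hs.2.1.tw ρ)
  obtain ⟨g, hg, hρ, -⟩ := Par.gd_pm hp h6 hs.1 hκ' h
  obtain ⟨b₁, b₂⟩ := rm0_mul hY ((sl_fix_iff g s).1 hg)
  refine ⟨s, Y * g, hs, b₁, by rw [Matrix.det_mul, hd, g.det_coe, mul_one], ?_, ?_, he⟩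
  · have : ‖ι (dn g s)‖ = 1 := by
      refine (pow_eq_one_iff_of_nonneg (norm_nonneg _) (n := 12) (by norm_num)).1 ?_
      rw [← norm_pow, ← map_pow, (stab_dn hg).2.2, map_one, norm_one]
    rwa [b₂, map_mul, norm_mul, this, mul_one]
  · rw [hρ, Units.val_mul, P.coe_gm, P.rz_mul, coe_rg, rz_sl]
    rw [hd, Int.natCast_dvd_natCast, Nat.prime_dvd_prime_iff_eq P.prime hl]
    exact hne.symm

theorem Small_trace {l : ℕ} {Y : MZ} {s : ℍ} (hY : Rm Y s s = 0) (hd : Y.det = l) :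
    Y.trace ^ 2 ≤ 4 * l := by
  have h : (0 : ℝ) ≤ dsc Y := by
    rw [fix_dsc hY]
    positivity
  have h' : 0 ≤ dsc Y := by exact_mod_cast h
  rw [dsc, hd] at h'
  linarith

theorem Par.small_lift (P : Par) {l : ℕ} [Fact l.Prime] (h5 : 5 ≤ l) (hne : l ≠ P.p)
    (hlp : 16 * l < P.p ^ 2) {ι : ℂ ≃+* PadicComplex l} (hι : Plv (ι : ℂ →+* PadicComplex l) l)
    {A B : Crv} (hA : Ok l A.j) (hB : Ok l B.j) {X : P.MF} (hX : X.det ≠ 0)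
    (hL : P.Lk A.t B.t X) : ∃ (s₁ s₂ : ℍ) (Y₁ Y₂ : MZ),
      P.Nr (ι : ℂ →+* PadicComplex l) l A.t s₁ ∧ P.Nr (ι : ℂ →+* PadicComplex l) l B.t s₂ ∧
      Cm s₁ s₂ Y₁ Y₂ ∧ Y₁.det = l ∧ P.TyP X Y₁ Y₂ ∧ (El A.j → s₁ = A.t) ∧ (El B.j → s₂ = B.t) := by
  have hl : l.Prime := Fact.out
  obtain ⟨φ, hφ⟩ := exists_frob l
  obtain ⟨ρ₁, ρ₂, g₁, g₂, e⟩ := hL (cjg ι φ)
  obtain ⟨s₁, Y₁, n₁, f₁, d₁, c₁, r₁, e₁⟩ := P.frob_lift hl h5 hne hι hφ A.J_eq hA g₁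
  obtain ⟨s₂, Y₂, n₂, f₂, d₂, c₂, r₂, e₂⟩ := P.frob_lift hl h5 hne hι hφ B.J_eq hB g₂
  rw [r₁, r₂] at e
  have t₁ := Small_trace f₁ d₁
  have t₂ := Small_trace f₂ d₂
  have ht : Y₁.trace = Y₂.trace := by
    have h := (Par.trace_eq_of_mul hX e).1
    rw [P.rz_trace, P.rz_trace, ZMod.intCast_eq_intCast_iff_dvd_sub] at h
    have hp : (16 * l : ℤ) < P.p ^ 2 := by exact_mod_cast hlp
    have := Int.eq_zero_of_abs_lt_dvd h (abs_lt_of_sq_lt_sq (by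
      nlinarith [sq_nonneg (Y₂.trace + Y₁.trace)]) (by positivity))
    linarith
  have hi := fix_im_ne hl f₁ d₁
  rcases fix_eq_or f₁ f₂ (d₁.trans d₂.symm) ht with h | h
  · exact ⟨s₁, s₂, Y₁, Y₂, n₁, n₂, ⟨f₁, f₂, h, hi⟩, d₁, e, e₁, e₂⟩
  have hs : ‖ι (Y₂.trace : ℂ)‖ < 1 := by
    rw [← fix_add_adj f₂, map_add, ← h]
    exact Frob_add_lt c₂ c₁
  have h0 : Y₂.trace = 0 := by
    obtain ⟨n, hn⟩ := Int.eq_nat_or_neg Y₂.trace
    have hdv : l ∣ n := by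
      by_contra h'
      have := hι.norm_nat hl h'
      rcases hn with hn | hn <;> simp [hn, this] at hs
    have hsq : n ^ 2 ≤ 4 * l := by
      rcases hn with hn | hn <;> rw [hn] at t₂
      · exact_mod_cast t₂
      · rw [neg_sq] at t₂
        exact_mod_cast t₂
    have : n = 0 := Nat.eq_zero_of_dvd_of_lt hdv (by
      by_contra h'
      nlinarith [Nat.mul_le_mul (not_lt.1 h') (not_lt.1 h')])
    rcases hn with hn | hn <;> simp [hn, this]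
  have hne' : ¬ El B.j := by
    intro h'
    refine trace_ne hl h5 ?_ f₂ d₂ h0
    rw [e₂ h', B.J_eq]
    exact h'.imp (fun h => by simp [h]) fun h => by simp [h]
  obtain ⟨a₀, a₁⟩ := (or_iff_left fun h' : _ ∨ _ => hne' (h'.imp And.left And.left)).1 hB
  obtain ⟨s, Y, n, f, r, hd⟩ := P.flip h5 hne hι B.J_eq a₀ a₁ n₂ f₂ d₂ h0
  refine ⟨s₁, s, Y₁, Y, n₁, n, ⟨f₁, f, ?_, hi⟩, d₁, by rwa [Par.TyP, r], e₁,
    fun h' => absurd h' hne'⟩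
  rw [h, hd, eq_neg_iff_add_eq_zero, add_comm, fix_add_adj f₂, h0, Int.cast_zero]

end

end Pool.Agent.P.MP_a60a76_nt.Sz
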