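import Pool.Agent.P.MP_a60a76_nt.Sz.Defs2
import Pool.Agent.P.MP_a60a76_nt.Sz.FCov

namespace Pool.Agent.P.MP_a60a76_nt.Sz

open UpperHalfPlane MeasureTheory SP
open scoped MatrixGroups UpperHalfPlane Matrix Modular Topology Classical ArithmeticFunction.sigma

noncomputable section

/-! The product formula and the pairing with the lower bound. -/

theorem Prod_log {n : ℕ} {T : Finset ℕ} (hT : ∀ l ∈ T, l.Prime)
    (hs : n.primeFactors ⊆ T) :
    Real.log n = ∑ l ∈ T, (padicValNat l n : ℝ) * Real.log l := by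
  rw [Real.log_nat_eq_sum_factorization, Finsupp.sum_of_support_subset _ hs _ (by simp)]
  exact Finset.sum_congr rfl fun l hl => by rw [Nat.factorization_def n (hT l hl)]

theorem Prod_abs (q : ℚ) : |(q : ℝ)| = (q.num.natAbs : ℝ) / q.den := by
  rw [Rat.cast_def, abs_div, Nat.abs_cast, Nat.cast_natAbs, Int.cast_abs]

theorem prod_formula {G : ℚ} (hG : G ≠ 0) {d : ℕ} (hd : 0 < d) (K e : ℤ) (S : Finset ℕ)
    (hS : ∀ l ∈ S, l.Prime) (h : ∀ l : ℕ, l.Prime →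
      (padicNorm l G : ℝ) ≤ (l : ℝ) ^ (K * padicValNat l d - if l ∈ S then e else 0 : ℤ)) :
    e * ∑ l ∈ S, Real.log l - K * Real.log d ≤ Real.log |(G : ℝ)| := by
  have hnum : G.num.natAbs ≠ 0 := Int.natAbs_ne_zero.2 (Rat.num_ne_zero.2 hG)
  obtain ⟨T, hT⟩ : ∃ T : Finset ℕ, T = G.num.natAbs.primeFactors ∪ G.den.primeFactors ∪
    d.primeFactors ∪ S := ⟨_, rfl⟩
  have hp : ∀ l ∈ T, l.Prime := fun l hl => by
    simp only [hT, Finset.mem_union] at hl
    rcases hl with ((hl | hl) | hl) | hl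
    · exact Nat.prime_of_mem_primeFactors hl
    · exact Nat.prime_of_mem_primeFactors hl
    · exact Nat.prime_of_mem_primeFactors hl
    · exact hS l hl
  have s1 : G.num.natAbs.primeFactors ⊆ T := fun l hl => by
    simp only [hT, Finset.mem_union, hl, true_or]
  have s2 : G.den.primeFactors ⊆ T := fun l hl => by
    simp only [hT, Finset.mem_union, hl, true_or, or_true]
  have s3 : d.primeFactors ⊆ T := fun l hl => by
    simp only [hT, Finset.mem_union, hl, true_or, or_true]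
  have s4 : S ⊆ T := fun l hl => by simp only [hT, Finset.mem_union, hl, or_true]
  have e1 : ∑ l ∈ S, Real.log l = ∑ l ∈ T, if l ∈ S then Real.log l else 0 := by
    rw [Finset.sum_ite_mem, Finset.inter_eq_right.2 s4]
  rw [Prod_abs, Real.log_div (Nat.cast_ne_zero.2 hnum) (Nat.cast_ne_zero.2 G.den_nz),
    Prod_log hp s1, Prod_log hp s2, Prod_log hp s3, e1, Finset.mul_sum,
    Finset.mul_sum, ← Finset.sum_sub_distrib, ← Finset.sum_sub_distrib]
  refine Finset.sum_le_sum fun l hl => ?_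
  have hl1 : (1 : ℝ) < l := by exact_mod_cast (hp l hl).one_lt
  have h1 := h l (hp l hl)
  rw [padicNorm.eq_zpow_of_nonzero hG, Rat.cast_zpow, Rat.cast_natCast,
    zpow_le_zpow_iff_right₀ hl1, padicValRat_def, padicValInt] at h1
  have h2 : (-((padicValNat l G.num.natAbs : ℝ) - padicValNat l G.den)) ≤
      K * padicValNat l d - if l ∈ S then (e : ℝ) else 0 := by
    have h4 := (Int.cast_le (R := ℝ)).2 h1
    simp only [Int.cast_neg, Int.cast_sub, Int.cast_mul, Int.cast_natCast, Int.cast_ite,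
      Int.cast_zero] at h4
    exact h4
  have h3 := mul_le_mul_of_nonneg_right h2 (Real.log_pos hl1).le
  split_ifs at h3 ⊢
  · linarith
  · linarith

theorem sum_val_log {d : ℕ} (hd : 0 < d) (S : Finset ℕ) (hS : ∀ l ∈ S, l.Prime) :
    ∑ l ∈ S, (padicValNat l d : ℝ) * Real.log l ≤ Real.log d := by
  rw [Prod_log (T := d.primeFactors ∪ S) (fun l hl => by
    rcases Finset.mem_union.1 hl with hl | hl
    · exact Nat.prime_of_mem_primeFactors hl
    · exact hS l hl) Finset.subset_union_left]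
  exact Finset.sum_le_sum_of_subset_of_nonneg Finset.subset_union_right fun l _ _ =>
    mul_nonneg (Nat.cast_nonneg _) (Real.log_natCast_nonneg l)

theorem Par.pp_aa {P : Par} {c : P.D → ℤ → ℤ} (h : P.IsF 0 c) (S H : ℝ) {v : ℕ} (hv : 0 < v)
    (K₀ : ℕ) : 6 * P.p * P.pp c (P.aa S H v K₀) =
      P.exc c v K₀ * S - P.mm c * (H + 12 * P.p * Real.log P.p) := by
  have hp := P.p_pos
  have hp2 : 0 < P.p ^ 2 := pow_pos P.prime.pos 2
  have hL : P.lo c ≤ P.p ^ 2 * P.lo c := Nat.le_mul_of_pos_left _ hp2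
  have e1 : ∀ k (ν : ℤ), (c k (-ν) : ℝ) * P.aa S H v K₀ k ν =
      (∑ n ∈ Finset.Icc 1 K₀, if ν = (n : ℤ) ^ 2 * v then
        (c k (-ν) : ℝ) * (2 / P.p * S * v * n) else 0) -
      if P.rd k = P.rd 0 then (c k (-ν) : ℝ) * (σ 1 (ν.toNat / P.p ^ 2) : ℝ) *
        (4 * H / P.p + 48 * Real.log P.p) else 0 := fun k ν => by
    by_cases h0 : c k (-ν) = 0
    · simp [h0]
    · have h1 := h.supp k _ h0
      rw [Int.cast_neg, neg_inj] at h1
      rw [aa, if_pos h1, mul_sub, Finset.mul_sum, map_zero]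
      simp only [mul_ite, mul_zero, mul_assoc]
  have e2 : ∀ k, (∑ ν ∈ Finset.Icc (1 : ℤ) (P.p ^ 2 * P.lo c : ℕ), ∑ n ∈ Finset.Icc 1 K₀,
      if ν = (n : ℤ) ^ 2 * v then (c k (-ν) : ℝ) * (2 / P.p * S * v * n) else 0) =
      ∑ n ∈ Finset.Icc 1 K₀, (c k (-((n : ℤ) ^ 2 * v)) : ℝ) * (2 / P.p * S * v * n) := fun k => by
    rw [Finset.sum_comm]
    refine Finset.sum_congr rfl fun n hn => ?_
    rw [Finset.sum_ite_eq']
    split_ifs with h1
    · rfl
    · have h2 : (1 : ℤ) ≤ (n : ℤ) ^ 2 * v := by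
        have h5 : (0 : ℤ) < n := Int.natCast_pos.2 (Finset.mem_Icc.1 hn).1
        exact mul_pos (pow_pos h5 2) (Int.natCast_pos.2 hv)
      have h3 : ((P.p ^ 2 * P.lo c : ℕ) : ℤ) < (n : ℤ) ^ 2 * v :=
        not_le.1 fun h4 => h1 (Finset.mem_Icc.2 ⟨h2, h4⟩)
      rw [h.lo_spec k _ (neg_lt_neg ((Int.ofNat_le.2 hL).trans_lt h3)), Int.cast_zero, zero_mul]
  have e3 : ∀ z, ∑ n ∈ Finset.Icc 1 (P.lo c),
      (c (P.up z) (-(P.p ^ 2 * (n : ℤ))) : ℝ) * (σ 1 n : ℝ) =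
      ∑ ν ∈ Finset.Icc (1 : ℤ) (P.p ^ 2 * P.lo c : ℕ),
        (c (P.up z) (-ν) : ℝ) * (σ 1 (ν.toNat / P.p ^ 2) : ℝ) := fun z => by
    refine Finset.sum_of_injOn (fun n : ℕ => ((P.p ^ 2 * n : ℕ) : ℤ)) (fun a _ b _ hab => ?_)
      (fun n hn => ?_) (fun ν hν hn => ?_) (fun n _ => ?_)
    · exact Nat.eq_of_mul_eq_mul_left hp2 (Int.ofNat_inj.1 hab)
    · obtain ⟨h1, h2⟩ := Finset.mem_Icc.1 (Finset.mem_coe.1 hn)
      exact Finset.mem_coe.2 (Finset.mem_Icc.2 ⟨Int.natCast_pos.2 (Nat.mul_pos hp2 h1),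
        Int.ofNat_le.2 (Nat.mul_le_mul_left _ h2)⟩)
    · by_cases h0 : c (P.up z) (-ν) = 0
      · rw [h0, Int.cast_zero, zero_mul]
      · exfalso
        have h1 := h.supp _ _ h0
        rw [Q_up, neg_zero, ZMod.intCast_zmod_eq_zero_iff_dvd, dvd_neg] at h1
        obtain ⟨h2, h3⟩ := Finset.mem_Icc.1 hν
        lift ν to ℕ using zero_le_one.trans h2
        obtain ⟨m, rfl⟩ := Int.natCast_dvd_natCast.1 h1
        refine hn ⟨m, Finset.mem_coe.2 (Finset.mem_Icc.2 ⟨?_, ?_⟩), rfl⟩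
        · refine Nat.pos_of_ne_zero ?_
          rintro rfl
          simp at h2
        · exact Nat.le_of_mul_le_mul_left (Int.ofNat_le.1 h3) hp2
    · simp only [Int.toNat_natCast, Nat.mul_div_cancel_left _ hp2]
      push_cast
      rfl
  have e4 : (∑ k, ∑ ν ∈ Finset.Icc (1 : ℤ) (P.p ^ 2 * P.lo c : ℕ),
      if P.rd k = P.rd 0 then (c k (-ν) : ℝ) * (σ 1 (ν.toNat / P.p ^ 2) : ℝ) *
        (4 * H / P.p + 48 * Real.log P.p) else 0) =
      (∑ n ∈ Finset.Icc 1 (P.lo c), (σ 1 n : ℝ) * ∑ z, (c (P.up z) (-(P.p ^ 2 * (n : ℤ))) : ℝ)) *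
        (4 * H / P.p + 48 * Real.log P.p) := by
    simp only [Finset.sum_ite_irrel, Finset.sum_const_zero]
    rw [P.sum_fibre]
    simp only [zero_add, ← Finset.sum_mul, ← e3]
    rw [Finset.sum_comm]
    congr 1
    refine Finset.sum_congr rfl fun n _ => ?_
    rw [← Finset.sum_mul, mul_comm]
  have e5 : (∑ k, ∑ n ∈ Finset.Icc 1 K₀,
      (c k (-((n : ℤ) ^ 2 * v)) : ℝ) * (2 / P.p * S * v * n)) =
      2 / P.p * S * v * ∑ n ∈ Finset.Icc 1 K₀, (n : ℝ) * ∑ k, (c k (-((n : ℤ) ^ 2 * v)) : ℝ) := by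
    rw [Finset.sum_comm, Finset.mul_sum]
    refine Finset.sum_congr rfl fun n _ => ?_
    rw [← Finset.sum_mul]
    ring
  rw [pp_eq h _ hL]
  simp only [e1, Finset.sum_sub_distrib, e2]
  rw [e4, e5, exc, mm]
  push_cast
  field_simp
  ring

theorem Par.aa_supp (P : Par) (S H : ℝ) (v K₀ : ℕ) (k : P.D) (ν : ℤ)
    (h : P.aa S H v K₀ k ν ≠ 0) : (ν : P.D) = P.Q k := by
  by_contra h1
  exact h (if_neg h1)

theorem Crv.half_le_im (A : Crv) : 1 / 2 ≤ A.t.im := by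
  have h := ModularGroup.three_le_four_mul_im_sq_of_mem_fd A.fd
  have := A.t.im_pos
  nlinarith

theorem one_le_ht (j : ℚ) : 1 ≤ ht j :=
  le_max_of_le_right j.den_pos

theorem log_den_le (j : ℚ) : Real.log j.den ≤ Real.log (ht j) :=
  Real.log_le_log (Nat.cast_pos.2 j.den_pos) (Nat.cast_le.2 (le_max_right _ _))

theorem log_max_J_le (A : Crv) : Real.log (max 1 ‖J A.t‖) ≤ Real.log (ht A.j) := by
  refine Real.log_le_log (lt_max_of_lt_left one_pos) (max_le (Nat.one_le_cast.2 (one_le_ht _)) ?_)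
  rw [A.J_eq, ← Complex.ofReal_ratCast, Complex.norm_real, Real.norm_eq_abs, Prod_abs]
  exact (div_le_self (Nat.cast_nonneg _) (Nat.one_le_cast.2 A.j.den_pos)).trans
    (Nat.cast_le.2 (le_max_left _ _))

theorem log_ht_le_hgt (A B : Crv) : Real.log (ht A.j) ≤ hgt A B ∧ Real.log (ht B.j) ≤ hgt A B ∧
    0 ≤ hgt A B :=
  ⟨Real.log_le_log (Nat.cast_pos.2 (one_le_ht _)) (Nat.cast_le.2 (le_max_left _ _)),
    Real.log_le_log (Nat.cast_pos.2 (one_le_ht _)) (Nat.cast_le.2 (le_max_right _ _)),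
    Real.log_natCast_nonneg _⟩

end

end Pool.Agent.P.MP_a60a76_nt.Sz
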