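import Pool.Agent.P.MP_a60a76_nt.Sz.Wt
import Pool.Agent.P.MP_a60a76_nt.Sz.Prod
import Pool.Agent.P.MP_a60a76_nt.Sz.Amp

namespace Pool.Agent.P.MP_a60a76_nt.Sz

open UpperHalfPlane hiding J
open MeasureTheory SP
open scoped MatrixGroups UpperHalfPlane Matrix Modular Topology Classical ArithmeticFunction.sigma

noncomputable section

/-! The test functional on the sequences attached to the cusps. -/

theorem sigma_exp_le : ∃ C : ℝ, 0 ≤ C ∧ ∀ x : ℝ, 0 < x →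
    ∑' n : ℕ, (σ 1 (n + 1) : ℝ) * Real.exp (-(2 * Real.pi * (n + 1) * x)) ≤ C / x ^ 2 := by
  refine ⟨1, zero_le_one, fun x hx => ?_⟩
  have ht : 0 < Real.pi * x := by positivity
  have hq : Real.exp (-(Real.pi * x)) < 1 := Real.exp_lt_one_iff.2 (by linarith)
  have hq₀ := Real.exp_pos (-(Real.pi * x))
  have hx' : Real.exp (-(Real.pi * x)) / (1 - Real.exp (-(Real.pi * x))) ≤ 1 / (Real.pi * x) := by
    rw [div_le_div_iff₀ (by linarith) ht, Real.exp_neg]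
    have := Real.add_one_le_exp (Real.pi * x)
    have h0 := Real.exp_pos (Real.pi * x)
    field_simp
    linarith
  generalize hqq : Real.exp (-(Real.pi * x)) = q at *
  have e : ∀ n : ℕ, Real.exp (-(2 * Real.pi * (n + 1) * x)) = (q ^ 2) ^ (n + 1) := fun n => by
    rw [← hqq, ← pow_mul, ← Real.exp_nat_mul]
    congr 1
    push_cast
    ring
  have h1 := tsum_pow_div_one_sub_eq_tsum_sigma (r := q ^ 2)
    (by rw [Real.norm_of_nonneg (by positivity)]; exact pow_lt_one₀ hq₀.le hq two_ne_zero) 1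
  rw [tsum_pnat_eq_tsum_succ (f := fun n : ℕ => (σ 1 n : ℝ) * (q ^ 2) ^ n),
    tsum_pnat_eq_tsum_succ (f := fun n : ℕ => (n : ℝ) ^ 1 * (q ^ 2) ^ n / (1 - (q ^ 2) ^ n))] at h1
  simp only [e, ← h1]
  have hs : HasSum (fun n : ℕ => 1 / (Real.pi * x) * q * q ^ n) _ :=
    (hasSum_geometric_of_lt_one hq₀.le hq).mul_left _
  have hb : ∀ n : ℕ, ((n + 1 : ℕ) : ℝ) ^ 1 * (q ^ 2) ^ (n + 1) / (1 - (q ^ 2) ^ (n + 1)) ≤
      1 / (Real.pi * x) * q * q ^ n := fun n => by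
    have h2 : q ^ (n + 1) < 1 := pow_lt_one₀ hq₀.le hq n.succ_ne_zero
    have h3 : 0 < q ^ (n + 1) := by positivity
    have h4 : ((n + 1 : ℕ) : ℝ) * (Real.pi * x) * q ^ (n + 1) ≤ 1 - q ^ (n + 1) := by
      have := Real.add_one_le_exp ((n + 1 : ℕ) * (Real.pi * x))
      have h5 : Real.exp ((n + 1 : ℕ) * (Real.pi * x)) * q ^ (n + 1) = 1 := by
        rw [← hqq, ← Real.exp_nat_mul, ← Real.exp_add]
        simp
      nlinarith
    rw [← pow_mul, mul_comm 2, pow_mul, mul_assoc, ← pow_succ', pow_one,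
      div_le_iff₀ (by nlinarith), one_div, inv_mul_eq_div, div_mul_eq_mul_div, le_div_iff₀ ht]
    nlinarith [mul_le_mul_of_nonneg_left h4 h3.le, mul_pos h3 (mul_pos h3 (sub_pos.2 h2))]
  have hn : ∀ n : ℕ, 0 ≤ ((n + 1 : ℕ) : ℝ) ^ 1 * (q ^ 2) ^ (n + 1) / (1 - (q ^ 2) ^ (n + 1)) :=
    fun n => div_nonneg (by positivity) (sub_nonneg.2
      (pow_le_one₀ (by positivity) (pow_le_one₀ hq₀.le hq.le)))
  refine ((hs.summable.of_nonneg_of_le hn hb).tsum_le_tsum hb hs.summable).trans ?_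
  rw [hs.tsum_eq, mul_assoc, ← div_eq_mul_inv]
  refine (mul_le_mul_of_nonneg_left hx' (by positivity)).trans ?_
  rw [div_mul_div_comm, one_mul, ← sq]
  gcongr
  nlinarith [Real.pi_gt_three]

theorem WtA_adm (P : Par) (S H : ℝ) (v K₀ : ℕ) : P.Adm (P.aa S H v K₀) := by
  refine ⟨fun η hη => ?_, P.aa_supp S H v K₀⟩
  obtain ⟨C, hC⟩ := P.aa_bound S H v K₀
  refine ⟨|C| * (2 / η ^ 2 * Real.exp η), fun k ν hν => (hC k ν hν).trans ?_⟩
  have h0 : (0 : ℝ) < ν := by exact_mod_cast hν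
  have h1 := Real.pow_div_factorial_le_exp (η * (1 + ν)) (by positivity) 2
  rw [mul_assoc]
  refine mul_le_mul (le_abs_self C) ?_ (by positivity) (abs_nonneg C)
  rw [mul_assoc, ← Real.exp_add, div_mul_eq_mul_div, le_div_iff₀ (by positivity), ← mul_one_add]
  norm_num [mul_pow] at h1
  linarith

theorem WtA_asg (P : Par) : P.asg = P.aa 0 (-(P.p / 4) - 12 * P.p * Real.log P.p) 1 0 := by
  have hp := P.p_pos
  funext k ν
  rw [Par.asg, Par.aa]
  by_cases hk : P.rd k = 0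
  · obtain ⟨z, rfl⟩ := P.exists_up hk
    rw [P.Q_up]
    simp only [hk, true_and, if_true]
    split_ifs
    · simp
      field_simp
      ring
    · rfl
  · simp [hk]

theorem WtA_acu (P : Par) (v K₀ : ℕ) :
    P.acu v K₀ = P.aa 1 (-(12 * P.p * Real.log P.p)) v K₀ := by
  have hp := P.p_pos
  have e : 4 * -(12 * P.p * Real.log P.p) / P.p + 48 * Real.log P.p = 0 := by
    field_simp
    ring
  funext k ν
  simp only [Par.acu, Par.aa, e, mul_zero, ite_self, sub_zero, mul_one]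

theorem Par.adm_asg (P : Par) : P.Adm P.asg := by
  rw [WtA_asg]
  exact WtA_adm ..

theorem Par.pp_asg {P : Par} {c : P.D → ℤ → ℤ} (h : P.IsF 0 c) :
    24 * P.pp c P.asg = P.mm c := by
  have h1 := Par.pp_aa h 0 (-(P.p / 4) - 12 * P.p * Real.log P.p) one_pos 0
  rw [← WtA_asg] at h1
  exact mul_left_cancel₀ P.p_pos.ne' (by linarith)

theorem WtA_tsum (P : Par) (k : P.D) (x : ℝ) :
    ∑' n : ℕ, P.asg k (n + 1) * Real.exp (-(2 * Real.pi * (n + 1) * x / P.p ^ 2)) =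
      if P.rd k = 0 then
        ∑' n : ℕ, (σ 1 (n + 1) : ℝ) * Real.exp (-(2 * Real.pi * (n + 1) * x)) else 0 := by
  have hp := P.p_pos
  have hp2 : 0 < P.p ^ 2 := pow_pos P.prime.pos 2
  split_ifs with hk
  swap
  · simp [Par.asg, hk]
  have e : ∀ m : ℕ, P.p ^ 2 * (m + 1) - 1 + 1 = P.p ^ 2 * (m + 1) := fun m =>
    Nat.sub_add_cancel (Nat.mul_pos hp2 m.succ_pos)
  rw [← Function.Injective.tsum_eq (g := fun m : ℕ => P.p ^ 2 * (m + 1) - 1)]
  · refine tsum_congr fun m => ?_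
    have e1 : ((P.p ^ 2 * (m + 1) - 1 : ℕ) : ℤ) + 1 = (P.p ^ 2 * (m + 1) : ℕ) := by
      exact_mod_cast e m
    have e2 : ((P.p ^ 2 * (m + 1) - 1 : ℕ) : ℝ) + 1 = P.p ^ 2 * (m + 1) := by
      exact_mod_cast e m
    rw [e1, e2, Par.asg, if_pos ⟨hk, by
      rw [Int.cast_natCast, Nat.cast_mul, ZMod.natCast_self, zero_mul]⟩, Int.toNat_natCast,
      Nat.mul_div_cancel_left _ hp2]
    congr 3
    field_simp
  · intro a b hab
    have := congrArg (· + 1) hab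
    simp only [e] at this
    exact Nat.succ_injective (Nat.eq_of_mul_eq_mul_left hp2 this)
  · intro n hn
    have h1 : (((n : ℤ) + 1 : ℤ) : P.D) = 0 := by
      by_contra h1
      exact hn (by simp only [Par.asg, h1, and_false, if_false, zero_mul])
    rw [ZMod.intCast_zmod_eq_zero_iff_dvd] at h1
    obtain ⟨m, hm⟩ : P.p ^ 2 ∣ n + 1 := by exact_mod_cast h1
    obtain _ | m := m
    · omega
    · exact ⟨m, by simp only [← hm, Nat.add_sub_cancel]⟩

theorem TT_asg : ∃ C : ℝ, 0 ≤ C ∧ ∀ (P : Par) (y : ℝ), 0 < y →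
    P.TT y P.asg ≤ C * P.p * (1 + (y ^ 2)⁻¹) := by
  obtain ⟨C, hC, h⟩ := sigma_exp_le
  refine ⟨C, hC, fun P y hy => ?_⟩
  have hp := P.p_pos
  have h1 : ∑ k, ∑' n : ℕ, P.asg k (n + 1) *
      Real.exp (-(2 * Real.pi * (n + 1) * y / P.p ^ 2)) ≤ P.p * (C / y ^ 2) := by
    simp only [WtA_tsum]
    rw [← map_zero P.rd, P.sum_fibre, Finset.sum_const, Finset.card_univ, ZMod.card, nsmul_eq_mul]
    exact mul_le_mul_of_nonneg_left (h y hy) hp.le
  have h2 := h y⁻¹ (by positivity)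
  rw [Par.TT, WtA_tsum, if_pos (map_zero _)]
  refine (add_le_add h1 (mul_le_mul_of_nonneg_left h2 (by positivity))).trans_eq ?_
  field_simp
  ring

theorem Par.adm_acu (P : Par) (v K₀ : ℕ) : P.Adm (P.acu v K₀) := by
  rw [WtA_acu]
  exact WtA_adm ..

theorem Par.pp_acu {P : Par} {c : P.D → ℤ → ℤ} (h : P.IsF 0 c) {v : ℕ} (hv : 0 < v) (K₀ : ℕ) :
    6 * P.p * P.pp c (P.acu v K₀) = P.exc c v K₀ := by
  rw [WtA_acu, Par.pp_aa h _ _ hv]
  ring

theorem TT_acu : ∃ c : ℝ, 0 < c ∧ ∀ (P : Par) (v : ℕ) (y : ℝ) (k₀ : P.D), 1 ≤ v → 2 ≤ y →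
    4 * v * y ≤ (P.p : ℝ) ^ 2 → k₀ ^ 2 = 4 * P.m * v →
    ∃ K₀ : ℕ, K₀ < P.p ∧ c * P.p / y ≤ P.TT y (P.acu v K₀) := by
  refine ⟨Real.exp (-(2 * Real.pi)) / 2, by positivity, fun P v y k₀ hv hy hp2 hk => ?_⟩
  have hp := P.p_pos
  have hv' : (1 : ℝ) ≤ v := by exact_mod_cast hv
  have hy₀ : 0 < y := by linarith
  have hvy : 0 < (v : ℝ) * y := by positivity
  obtain ⟨r, hr⟩ : ∃ r, r = √((P.p : ℝ) ^ 2 / (v * y)) := ⟨_, rfl⟩
  have hr2 : r ^ 2 * (v * y) = (P.p : ℝ) ^ 2 := by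
    rw [hr, Real.sq_sqrt (by positivity), div_mul_cancel₀ _ hvy.ne']
  have hr0 : 2 ≤ r := by
    rw [hr]
    exact Real.le_sqrt_of_sq_le ((le_div_iff₀ hvy).2 (by linarith))
  have hK := Nat.floor_le (show 0 ≤ r by linarith)
  have hK' := Nat.lt_floor_add_one r
  have hnn : ∀ k ν, 0 ≤ P.acu v ⌊r⌋₊ k ν := fun k ν => by
    rw [Par.acu]
    positivity
  refine ⟨⌊r⌋₊, ?_, ?_⟩
  · have : r < P.p := lt_of_pow_lt_pow_left₀ 2 hp.le (by
      nlinarith [mul_le_mul hv' hy zero_le_two (by linarith)])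
    exact_mod_cast hK.trans_lt this
  generalize ⌊r⌋₊ = K₀ at *
  refine le_trans ?_ (le_add_of_nonneg_right (mul_nonneg (by positivity)
    (tsum_nonneg fun n => mul_nonneg (hnn _ _) (Real.exp_pos _).le)))
  have e : ∀ n ∈ Finset.Icc 1 K₀, n ^ 2 * v - 1 + 1 = n ^ 2 * v := fun n hn =>
    Nat.sub_add_cancel (Nat.mul_pos (pow_pos (Finset.mem_Icc.1 hn).1 2) hv)
  have h1 : ∀ k, ∑ n ∈ Finset.Icc 1 K₀, P.acu v K₀ k ((n : ℤ) ^ 2 * v) * Real.exp (-(2 * Real.pi)) ≤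
      ∑' n : ℕ, P.acu v K₀ k (n + 1) * Real.exp (-(2 * Real.pi * (n + 1) * y / P.p ^ 2)) := by
    intro k
    refine le_trans ?_ (((P.adm_acu v K₀).summable hy₀ k).sum_le_tsum
      ((Finset.Icc 1 K₀).image fun n => n ^ 2 * v - 1)
      fun n _ => mul_nonneg (hnn _ _) (Real.exp_pos _).le)
    rw [Finset.sum_image fun a ha b hb hab => by
      have := congrArg (· + 1) hab
      simp only [e a ha, e b hb] at this
      exact Nat.pow_left_injective two_ne_zero (Nat.eq_of_mul_eq_mul_right hv this)]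
    refine Finset.sum_le_sum fun n hn => ?_
    have e1 : ((n ^ 2 * v - 1 : ℕ) : ℤ) + 1 = n ^ 2 * v := by exact_mod_cast e n hn
    have e2 : ((n ^ 2 * v - 1 : ℕ) : ℝ) + 1 = n ^ 2 * v := by exact_mod_cast e n hn
    rw [e1, e2]
    refine mul_le_mul_of_nonneg_left (Real.exp_le_exp.2 (neg_le_neg ?_)) (hnn _ _)
    have h2 : (n : ℝ) ≤ r := le_trans (by exact_mod_cast (Finset.mem_Icc.1 hn).2) hK
    rw [div_le_iff₀ (by positivity), ← hr2, mul_assoc, mul_assoc ((n : ℝ) ^ 2)]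
    gcongr
  refine le_trans ?_ (Finset.sum_le_sum fun k _ => h1 k)
  rw [Finset.sum_comm]
  have h3 : ∀ n ∈ Finset.Icc 1 K₀, 2 / P.p * v * Real.exp (-(2 * Real.pi)) * (n : ℝ) ≤
      ∑ k, P.acu v K₀ k ((n : ℤ) ^ 2 * v) * Real.exp (-(2 * Real.pi)) := fun n hn => by
    refine le_trans ?_ (Finset.single_le_sum
      (fun k _ => mul_nonneg (hnn _ _) (Real.exp_pos _).le) (Finset.mem_univ (n * k₀)))
    rw [mul_right_comm, Par.acu, if_pos ((P.Q_eq_iff _ _).2 (by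
      push_cast
      linear_combination (n : P.D) ^ 2 * hk)).symm]
    refine mul_le_mul_of_nonneg_right (le_trans ?_ (Finset.single_le_sum
      (fun k _ => by positivity) hn)) (Real.exp_pos _).le
    rw [if_pos rfl]
  refine le_trans ?_ (Finset.sum_le_sum h3)
  have h4 : ∀ K : ℕ, ∑ n ∈ Finset.Icc 1 K, (n : ℝ) = K * (K + 1) / 2 := fun K => by
    induction K with
    | zero => simp
    | succ K ih =>
      rw [Finset.sum_Icc_succ_top (by omega), ih]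
      push_cast
      ring
  rw [← Finset.mul_sum, h4]
  have h5 : r ^ 2 / 2 ≤ K₀ * (K₀ + 1) := by nlinarith
  calc _ = 2 / P.p * v * Real.exp (-(2 * Real.pi)) * (r ^ 2 / 2 / 2) := by
        field_simp
        linarith
    _ ≤ _ := by gcongr

end

end Pool.Agent.P.MP_a60a76_nt.Sz
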