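import Pool.Agent.P.MP_a60a76_nt.Sz.HRat
import Pool.Agent.P.MP_a60a76_nt.Sz.WtA
import Pool.Agent.P.MP_a60a76_nt.Sz.Cnt
import Pool.Agent.P.MP_a60a76_nt.Sz.Small
import Pool.Agent.P.MP_a60a76_nt.Sz.Add

namespace Pool.Agent.P.MP_a60a76_nt.Sz

open UpperHalfPlane hiding J
open MeasureTheory SP
open scoped MatrixGroups UpperHalfPlane Matrix Modular Topology Classical ArithmeticFunction.sigma

noncomputable section

/-! The local gains. -/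

theorem Par.Gn.mono {P : Par} {A B : Crv} {X : P.MF} {y γ γ' : ℝ} {l : ℕ}
    (h : P.Gn A B X y l γ) (h' : γ' ≤ γ) : P.Gn A B X y l γ' := by
  obtain ⟨a, h1, h2, h3⟩ := h
  exact ⟨a, h1, h'.trans h2, h3⟩

theorem gn_cusp : ∃ c : ℝ, 0 < c ∧ ∀ (P : Par) (A B : Crv) (X : P.MF) (y : ℝ) (l v₁ v₂ : ℕ),
    X.det = P.m → P.Lnk A B X → P.IsTy A B v₁ v₂ l → 2 ≤ y →
    4 * (v₁ * v₂ : ℕ) * y ≤ (P.p : ℝ) ^ 2 → P.Gn A B X y l (c * P.p / y) := by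
  obtain ⟨c, hc, H⟩ := TT_acu
  refine ⟨c, hc, fun P A B X y l v₁ v₂ hX h hT hy hv => ?_⟩
  obtain ⟨h₂, hsq⟩ := hT.isSquare h hX
  have e : P.rd (4 * P.m * ((v₁ * v₂ : ℕ) : P.D)) = 4 * (P.m : P.F) * ((v₁ * v₂ : ℕ) : P.F) := by
    rw [map_mul, map_mul, map_natCast, map_intCast, map_ofNat]
  have e0 : 4 * (P.m : P.F) * ((v₁ * v₂ : ℕ) : P.F) ≠ 0 := by
    refine mul_ne_zero (mul_ne_zero ?_ P.m_ne) fun h0 => ?_
    · rw [show (4 : P.F) = 2 * 2 by norm_num]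
      exact mul_ne_zero P.two_ne P.two_ne
    · rcases (Nat.Prime.dvd_mul P.prime).1 ((ZMod.natCast_eq_zero_iff _ _).1 h0) with h3 | h3
      · exact hT.ndvd h3
      · exact h₂ h3
  obtain ⟨k₀, hk, -⟩ := P.exists_sq (e ▸ hsq) (e ▸ e0)
  have hv0 : 0 < v₁ * v₂ := Nat.mul_pos hT.pos₁ hT.pos₂
  obtain ⟨K₀, hK, hle⟩ := H P (v₁ * v₂) y k₀ hv0 hy hv hk
  refine ⟨_, P.adm_acu _ K₀, hle, fun c' h0 hp μ G hG => ?_⟩
  refine (Par.hg_cusp h0 hp hX h hT hG hK).trans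
    (Real.rpow_le_rpow_of_exponent_le (Nat.one_le_cast.2 hT.prime.one_le) ?_)
  rw [Par.pp_acu h0.toIsF hv0]
  linarith [(Nat.cast_nonneg μ : (0 : ℝ) ≤ μ)]

theorem Par.gn_good {P : Par} {A B : Crv} (g : SL(2, ℤ)) {y : ℝ} (hy : 0 < y) {l : ℕ}
    (hl : l.Prime) (h5 : 5 ≤ l) (hne : l ≠ P.p) {K : Type} [NormedField K] [IsUltrametricDist K]
    {ι : ℂ →+* K} (hι : Plv ι l) {s₁ s₂ : ℍ} (h₁ : P.Nr ι l A.t s₁) (h₂ : P.Nr ι l B.t s₂) :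
    P.Gn A B (P.Dm * red P.p g) y l (3⁻¹ * ∑' W, P.z0 (g • s₁) s₂ W * P.wt y W) := by
  have hs := P.sm_z0 (g • s₁) s₂
  refine ⟨(3⁻¹ : ℝ) • P.aW (P.z0 (g • s₁) s₂), hs.adm.smul _, ?_, fun c h0 hp μ G hG => ?_⟩
  · rw [Par.TT_smul, hs.TT_eq hy]
  · refine (Par.hg_good h0 hp g hl h5 hne hι h₁ h₂ hG).trans
      (Real.rpow_le_rpow_of_exponent_le (Nat.one_le_cast.2 hl.one_le) ?_)
    rw [Par.pp_smul, hs.pp_eq h0.toIsF, Par.nz]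
    have h1 : (0 : ℝ) ≤ P.KK c := by exact_mod_cast Par.KK_nonneg h0 hp
    have h2 : (0 : ℝ) ≤ (P.KK c + 2 * μ) * padicValNat l (A.j.den * B.j.den) := by positivity
    linarith

theorem Gain_sqrt {Y : MZ} {n : ℕ} (h : Y.det = n) :
    dsc Y ≤ 4 * n ∧ Real.sqrt (dsc Y) ≤ 2 * Real.sqrt n := by
  have h1 : dsc Y ≤ 4 * n := by
    rw [dsc, h]
    linarith [sq_nonneg Y.trace]
  refine ⟨h1, ?_⟩
  rw [show (2 : ℝ) = Real.sqrt 4 by rw [show (4 : ℝ) = 2 ^ 2 by norm_num, Real.sqrt_sq zero_le_two],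
    ← Real.sqrt_mul (by norm_num)]
  exact Real.sqrt_le_sqrt (by exact_mod_cast h1)

theorem Gain_le {c c' p y d r T : ℝ} (hc : 0 < c) (h' : c ≤ c') (hp : 0 < p) (hy : 0 < y)
    (hd : 0 < d) (hr : d ≤ 2 * r) (h : c' * p / (y * d) ≤ T) : c / 6 * p / (y * r) ≤ 3⁻¹ * T := by
  have hr0 : 0 < r := by linarith
  have h1 : c * p / (y * (2 * r)) ≤ c' * p / (y * d) :=
    div_le_div₀ (mul_nonneg (hc.le.trans h') hp.le) (mul_le_mul_of_nonneg_right h' hp.le)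
      (mul_pos hy hd) (mul_le_mul_of_nonneg_left hr hy.le)
  have e : c / 6 * p / (y * r) = 3⁻¹ * (c * p / (y * (2 * r))) := by
    field_simp
    ring
  rw [e]
  linarith

theorem gn_small : ∃ c : ℝ, 0 < c ∧ ∀ (P : Par) (A B : Crv) (X : P.MF) (y : ℝ) (l : ℕ),
    X.det = P.m → P.Lk A.t B.t X → l.Prime → 5 ≤ l → l ≠ P.p → 16 * l < P.p ^ 2 → Ok l A.j →
    Ok l B.j → 0 < y → 28 * Real.sqrt l * y ≤ P.p →
    P.Gn A B X y l (c * P.p / (y * Real.sqrt l)) := by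
  obtain ⟨c, hc, H⟩ := cnt_plus
  refine ⟨c / 6, by positivity, fun P A B X y l hX hL hl h5 hne hlp hA hB hy hp => ?_⟩
  have := Fact.mk hl
  have hX0 : X.det ≠ 0 := hX ▸ P.m_ne
  obtain ⟨g, rfl⟩ := P.exists_Dm_mul X hX
  obtain ⟨ι, hι⟩ := exists_place l
  have hι' : Plv (ι : ℂ →+* PadicComplex l) l := hι
  obtain ⟨s₁, s₂, Y₁, Y₂, n₁, n₂, hC, hd, hT, -, -⟩ := P.small_lift h5 hne hlp hι' hA hB hX0 hL
  obtain ⟨k1, k2⟩ := Gain_sqrt hd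
  have k3 := H P _ _ _ _ y (hC.smul g) hT.smul (by
    rw [cn_dsc]
    have : 16 * (l : ℤ) < (P.p : ℤ) ^ 2 := by exact_mod_cast hlp
    omega) hy (by
    rw [cn_dsc]
    linarith [mul_le_mul_of_nonneg_right k2 hy.le])
  rw [cn_dsc] at k3
  exact (Par.gn_good g hy hl h5 hne hι' n₁ n₂).mono (Gain_le hc le_rfl P.p_pos hy
    (Real.sqrt_pos.2 (Int.cast_pos.2 hC.dsc_pos)) k2 k3)

theorem gn_add : ∃ c : ℝ, 0 < c ∧ ∀ (P : Par) (A B : Crv) (X : P.MF) (y : ℝ) (l : ℕ),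
    X.det = P.m → P.Lk A.t B.t X → l.Prime → 5 ≤ l → l ≠ P.p → (Bad' l A.j ∨ Bad' l B.j) →
    8 ≤ y → 28 * y ≤ P.p → P.Gn A B X y l (c * P.p / y) := by
  obtain ⟨c, hc, H⟩ := cnt_plus
  obtain ⟨c', hc', H'⟩ := cnt_minus
  have hm : 0 < min c c' := lt_min hc hc'
  refine ⟨min c c' / 6, by positivity, fun P A B X y l hX hL hl h5 hne hb h8 hp => ?_⟩
  have := Fact.mk hl
  have hy : 0 < y := by linarith
  have hX0 : X.det ≠ 0 := hX ▸ P.m_ne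
  obtain ⟨g, rfl⟩ := P.exists_Dm_mul X hX
  obtain ⟨ι, hι⟩ := exists_place l
  have hι' : Plv (ι : ℂ →+* PadicComplex l) l := hι
  obtain ⟨s₁, s₂, Y₁, Y₂, n₁, n₂, hC, hd, hT⟩ := P.add_lift h5 hne hι' hb hX0 hL
  obtain ⟨k1, k2⟩ := Gain_sqrt (n := 1) hd
  rw [Nat.cast_one, Real.sqrt_one] at k2
  have k0 := hC.dsc_pos
  have k4 : (5 : ℤ) ≤ P.p := by exact_mod_cast P.five
  have k5 := Real.sqrt_pos.2 (Int.cast_pos.2 k0 : (0 : ℝ) < dsc Y₁)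
  refine (Par.gn_good g hy hl h5 hne hι' n₁ n₂).mono ?_
  rcases hT with hT | hT
  · have k3 := H P _ _ _ _ y (hC.smul g) hT.smul (by
      rw [cn_dsc]
      push_cast at k1
      nlinarith) hy (by
      rw [cn_dsc]
      linarith [mul_le_mul_of_nonneg_right k2 hy.le])
    rw [cn_dsc] at k3
    simpa only [mul_one] using Gain_le hm (min_le_left _ _) P.p_pos hy k5 k2 k3
  · have k3 := H' P _ _ _ _ y (hC.smul g) hT.smul (by
      rw [cn_dsc]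
      intro h
      have := Int.le_of_dvd k0 h
      push_cast at k1
      omega) (by
      rw [cn_dsc]
      linarith)
    rw [cn_dsc] at k3
    simpa only [mul_one] using Gain_le hm (min_le_right _ _) P.p_pos hy k5 k2 k3

end

end Pool.Agent.P.MP_a60a76_nt.Sz
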