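import Pool.Agent.P.MP_a60a76_nt.Sz.Defs3
import Pool.Agent.P.MP_a60a76_nt.Sz.GFam

namespace Pool.Agent.P.MP_a60a76_nt.Sz

open UpperHalfPlane hiding J
open MeasureTheory SP
open scoped MatrixGroups UpperHalfPlane Matrix Modular Topology Classical ArithmeticFunction.sigma

noncomputable section

/-! Gauss norms. -/

variable {K : Type} [NormedField K] [IsUltrametricDist K] {ι : ℂ →+* K} {a b : PS}
  {x y B B' : ℝ}

theorem Gs.mono (h : Gs ι a x y B) (hB : B ≤ B') : Gs ι a x y B' :=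
  fun d => (h d).trans hB

theorem Gs.nonneg (h : Gs ι a x y B) : 0 ≤ B := by
  refine le_trans ?_ (h 0)
  simp

theorem Gs.mul (ha : Gs ι a x y B) (hb : Gs ι b x y B') (hx : 0 ≤ x) (hy : 0 ≤ y) :
    Gs ι (a * b) x y (B * B') := by
  intro d
  rw [MvPowerSeries.coeff_mul, map_sum]
  obtain ⟨e, he, h⟩ := IsUltrametricDist.exists_norm_finsetSum_le_of_nonempty
    (t := Finset.HasAntidiagonal.antidiagonal d) ⟨(0, d), by simp⟩
    fun e => ι (MvPowerSeries.coeff e.1 a * MvPowerSeries.coeff e.2 b)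
  refine (mul_le_mul_of_nonneg_right h (by positivity)).trans ?_
  rw [Finset.HasAntidiagonal.mem_antidiagonal] at he
  refine le_of_eq_of_le ?_ (mul_le_mul (ha e.1) (hb e.2) (by positivity) ha.nonneg)
  rw [← he, map_mul, norm_mul, Finsupp.add_apply, Finsupp.add_apply, pow_add, pow_add]
  ring

theorem gs_of_inA (h : InA (Ai ι) a) (hx : 0 ≤ x) (hx1 : x ≤ 1) (hy : 0 ≤ y) (hy1 : y ≤ 1) :
    Gs ι a x y 1 := fun d =>
  mul_le_one₀ (h d) (by positivity)
    (mul_le_one₀ (pow_le_one₀ hx hx1) (by positivity) (pow_le_one₀ hy hy1))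

omit [IsUltrametricDist K] in
theorem Gauss_one : Gs ι 1 x y 1 := by
  intro d
  rw [MvPowerSeries.coeff_one]
  split_ifs with h
  · simp [h]
  · simp

theorem Gs.pow (ha : Gs ι a x y B) (hx : 0 ≤ x) (hy : 0 ≤ y) (n : ℕ) :
    Gs ι (a ^ n) x y (B ^ n) := by
  induction n with
  | zero => simpa using Gauss_one
  | succ n ih => rw [pow_succ, pow_succ]; exact ih.mul ha hx hy

theorem gs_prod {κ : Type} (S : Finset κ) {a : κ → PS} {B : κ → ℝ}
    (h : ∀ i ∈ S, Gs ι (a i) x y (B i)) (hx : 0 ≤ x) (hy : 0 ≤ y) :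
    Gs ι (∏ i ∈ S, a i) x y (∏ i ∈ S, B i) := by
  induction S using Finset.induction_on with
  | empty => simpa using Gauss_one
  | insert i S hi ih =>
    rw [Finset.prod_insert hi, Finset.prod_insert hi]
    exact (h i (Finset.mem_insert_self _ _)).mul
      (ih fun j hj => h j (Finset.mem_insert_of_mem hj)) hx hy

theorem Gs.norm_ev {s t : K} (h : Gs ι a ‖s‖ ‖t‖ B) : ‖ev ι a s t‖ ≤ B := by
  refine IsUltrametricDist.norm_tsum_le_of_forall_le fun d => ?_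
  rw [norm_mul, norm_mul, norm_pow, norm_pow]
  exact h d

omit [IsUltrametricDist K] in
theorem Gauss_mono {z : ℂ} (hz : ‖ι z‖ = 1) (m n : ℕ) (hx : 0 ≤ x) (hy : 0 ≤ y) :
    Gs ι (mono z m n) x y (x ^ m * y ^ n) := by
  intro d
  rw [mono, MvPowerSeries.coeff_monomial]
  split_ifs with h
  · simp [h, hz]
  · rw [map_zero, norm_zero, zero_mul]
    positivity

theorem Gauss_sub (ha : Gs ι a x y B) (hb : Gs ι b x y B') (hx : 0 ≤ x) (hy : 0 ≤ y) :
    Gs ι (a - b) x y (max B B') := by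
  intro d
  rw [map_sub, map_sub, sub_eq_add_neg]
  refine (mul_le_mul_of_nonneg_right (IsUltrametricDist.norm_add_le_max _ _)
    (by positivity)).trans ?_
  rw [norm_neg, max_mul_of_nonneg _ _ (by positivity)]
  exact max_le_max (ha d) (hb d)

theorem Gauss_fac {z : ℂ} (hz : ‖ι z‖ = 1) (m n : ℕ) (hx : 0 ≤ x) (hy : 0 ≤ y) :
    Gs ι (mono z m 0 - mono 1 0 n) x y (max (x ^ m) (y ^ n)) := by
  have := Gauss_sub (Gauss_mono hz m 0 hx hy) (Gauss_mono (ι := ι) (z := 1) (by simp) 0 n hx hy)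
    hx hy
  simpa using this

theorem Par.gs_Pf {P : Par} {c : P.D → ℤ → ℤ} {X : P.MF} (h : P.IsF0 c) (hp : P.Pos c)
    (hX : X.det = P.m) (ι : ℂ →+* K) {r : ℝ} (hr : 1 < r) {v₁ v₂ : ℕ} (h₁ : ¬ P.p ∣ v₁)
    (h₂ : ¬ P.p ∣ v₂) (hx : 0 ≤ x) (hy : 0 ≤ y) (hs : x ^ P.p = (r ^ v₁)⁻¹)
    (ht : y ^ P.p = (r ^ v₂)⁻¹) (h0 : X 1 0 = 0) (hv : X 0 0 * v₁ = X 1 1 * v₂) {K₀ : ℕ}
    (hK : K₀ < P.p) : Gs ι (P.Pf c X) x y (r ^ (-P.exc c (v₁ * v₂) K₀)) := by
  have hr0 : 0 < r := one_pos.trans hr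
  have hv₁ : 0 < v₁ := Nat.pos_of_ne_zero fun e => h₁ (e ▸ dvd_zero _)
  have hv₂ : 0 < v₂ := Nat.pos_of_ne_zero fun e => h₂ (e ▸ dvd_zero _)
  have hle : ∀ {x : ℝ} {v : ℕ}, 0 ≤ x → x ^ P.p = (r ^ v)⁻¹ → x ≤ 1 := fun {x v} h0 hx =>
    (pow_le_one_iff_of_nonneg h0 P.prime.ne_zero).1
      (hx.trans_le (inv_le_one_of_one_le₀ (one_le_pow₀ hr.le)))
  have hX0 : X 0 0 ≠ 0 := fun e => P.m_ne (by rw [← hX, Matrix.det_fin_two, e, h0]; ring)
  have hnn : ∀ i : ℕ × ℕ, 0 ≤ max (x ^ i.1) (y ^ i.2) := fun i =>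
    le_max_of_le_left (pow_nonneg hx _)
  have hone : ∀ i : ℕ × ℕ, max (x ^ i.1) (y ^ i.2) ≤ 1 := fun i =>
    max_le (pow_le_one₀ hx (hle hx hs)) (pow_le_one₀ hy (hle hy ht))
  have hev : Gs ι (P.Pf c X) x y (∏ i ∈ P.box c, ∏ b,
      max (x ^ i.1) (y ^ i.2) ^ (P.ex c X i.1 b i.2).toNat) :=
    gs_prod _ (fun i _ => gs_prod _ (fun b _ =>
      (Gauss_fac (Par.norm_map_zp ι b) i.1 i.2 hx hy).pow hx hy _) hx hy) hx hy
  refine hev.mono ?_
  have hinj : Function.Injective fun n : ℕ => (n * v₂, n * v₁) := fun a b e =>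
    Nat.eq_of_mul_eq_mul_right hv₂ (congrArg Prod.fst e)
  rw [Par.exc, Finset.mul_sum, ← Finset.sum_neg_distrib, ← Par.GFam_zpow_sum _ hr0.ne',
    ← Finset.prod_filter_of_ne (s := Finset.Icc 1 K₀) (p := fun n => (n * v₂, n * v₁) ∈ P.box c)]
  · refine (Finset.prod_le_prod_of_subset_of_le_one (s := ((Finset.Icc 1 K₀).filter
      fun n => (n * v₂, n * v₁) ∈ P.box c).image fun n => (n * v₂, n * v₁)) ?_
      (fun i _ => Finset.prod_nonneg fun b _ => pow_nonneg (hnn i) _) fun i _ _ =>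
        Finset.prod_le_one (fun b _ => pow_nonneg (hnn i) _)
        fun b _ => pow_le_one₀ (hnn i) (hone i)).trans ?_
    · intro i hi
      obtain ⟨n, hn, rfl⟩ := Finset.mem_image.1 hi
      exact (Finset.mem_filter.1 hn).2
    rw [Finset.prod_image fun a _ b _ e => hinj e]
    refine Finset.prod_le_prod
      (fun i _ => Finset.prod_nonneg fun b _ => pow_nonneg (hnn (i * v₂, i * v₁)) _) fun n hn => ?_
    obtain ⟨hn1, hn2⟩ := Finset.mem_Icc.1 (Finset.mem_filter.1 hn).1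
    have hpn : ¬ P.p ∣ n := fun e => absurd (Nat.le_of_dvd hn1 e) (by omega)
    have ha : (0 : ℤ) < (n * v₂ : ℕ) := by exact_mod_cast Nat.mul_pos hn1 hv₂
    have hd : (0 : ℤ) < (n * v₁ : ℕ) := by exact_mod_cast Nat.mul_pos hn1 hv₁
    obtain ⟨m, hm⟩ := Int.eq_ofNat_of_zero_le (Finset.sum_nonneg fun k _ =>
      hp k (-((n : ℤ) ^ 2 * (v₁ * v₂ : ℕ))) (neg_neg_of_pos (by positivity)) :
        0 ≤ ∑ k, c k (-((n : ℤ) ^ 2 * (v₁ * v₂ : ℕ))))
    set b₀ : P.F := (n * v₂ : ℕ) / X 0 0 * X 0 1 with hb₀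
    have hU : P.exU c X (n * v₂ : ℕ) b₀ (n * v₁ : ℕ) = (P.p * (12 * m) : ℕ) := by
      rw [Par.exU, if_pos, show ((n * v₂ : ℕ) : ℤ) * (n * v₁ : ℕ) = (n : ℤ) ^ 2 * (v₁ * v₂ : ℕ) by
        push_cast; ring, hm]
      · push_cast
        ring
      · refine ⟨fun e => ?_, h0, (n * v₂ : ℕ) / X 0 0, ?_, rfl, ?_⟩
        · rw [← Nat.cast_mul, Int.natCast_dvd_natCast, P.prime.dvd_mul, P.prime.dvd_mul,
            P.prime.dvd_mul] at e
          tauto
        · rw [div_mul_cancel₀ _ hX0, Int.cast_natCast]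
        · rw [Int.cast_natCast]
          push_cast
          field_simp
          linear_combination (n : P.F) * hv
    have hE : P.p * (12 * m) ≤ (P.ex c X (n * v₂ : ℕ) b₀ (n * v₁ : ℕ)).toNat := by
      have := Par.exI_nonneg hp X ha hd b₀
      rw [Par.ex, hU]
      omega
    have hN : max (x ^ (n * v₂)) (y ^ (n * v₁)) ^ P.p ≤ (r ^ (n * (v₁ * v₂)))⁻¹ := by
      rcases max_choice (x ^ (n * v₂)) (y ^ (n * v₁)) with e | e
      · rw [e, ← pow_mul, mul_comm, pow_mul, hs, inv_pow, ← pow_mul]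
        exact le_of_eq (by congr 2; ring)
      · rw [e, ← pow_mul, mul_comm, pow_mul, ht, inv_pow, ← pow_mul]
        exact le_of_eq (by congr 2; ring)
    have hn0 := hnn (n * v₂, n * v₁)
    have hn1' := hone (n * v₂, n * v₁)
    refine (Finset.prod_le_prod_of_subset_of_le_one (Finset.subset_univ {b₀})
      (fun b _ => pow_nonneg hn0 _) fun b _ _ => pow_le_one₀ hn0 hn1').trans ?_
    rw [Finset.prod_singleton]
    refine (pow_le_pow_of_le_one hn0 hn1' hE).trans ?_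
    rw [pow_mul, hm]
    refine (pow_le_pow_left₀ (pow_nonneg hn0 _) hN _).trans (le_of_eq ?_)
    rw [inv_pow, ← pow_mul, zpow_neg, ← zpow_natCast]
    congr 2
    push_cast
    ring
  · intro n hn hne
    by_contra hb
    obtain ⟨hn1, -⟩ := Finset.mem_Icc.1 hn
    refine hne ?_
    have hlo : P.lo c < n ^ 2 * (v₁ * v₂) := by
      have ha := Nat.mul_pos hn1 hv₂
      have hd := Nat.mul_pos hn1 hv₁
      have e : n ^ 2 * (v₁ * v₂) = n * v₂ * (n * v₁) := by ring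
      have h3 := Nat.le_mul_of_pos_right (n * v₂) hd
      have h4 := Nat.le_mul_of_pos_left (n * v₁) ha
      simp only [Par.box, Finset.mem_product, Finset.mem_Icc] at hb
      omega
    rw [Finset.sum_eq_zero fun k _ => h.toIsF.lo_spec k _ (neg_lt_neg (by exact_mod_cast hlo))]
    simp

end

end Pool.Agent.P.MP_a60a76_nt.Sz
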