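import Pool.Agent.P.MP_a60a76_nt.Sz.FCov

namespace Pool.Agent.P.MP_a60a76_nt.Sz

open UpperHalfPlane MeasureTheory SP
open scoped MatrixGroups UpperHalfPlane Matrix Modular Topology Classical ArithmeticFunction.sigma

noncomputable section

/-! Expansion of the Hecke sums, the classes prime to `p`. -/

theorem HExU_geom {E : ℕ} (hE : 0 < E) (w : ℤ) :
    ∑ B ∈ Finset.range E, ee (w * B / E) = if (E : ℤ) ∣ w then (E : ℂ) else 0 := by
  have hE' : (E : ℂ) ≠ 0 := Nat.cast_ne_zero.2 hE.ne'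
  split_ifs with h
  · obtain ⟨t, rfl⟩ := h
    have h1 : ∀ B ∈ Finset.range E, ee (((E : ℤ) * t : ℤ) * B / E) = 1 := by
      intro B _
      rw [← ee_int (t * B)]
      congr 1
      push_cast
      field_simp
    rw [Finset.sum_congr rfl h1]
    simp
  · have h1 : ∀ B ∈ Finset.range E, ee (w * B / E) = ee (w / E) ^ B := by
      intro B _
      rw [← ee_nat_mul]
      congr 1
      ring
    have h2 : ee (w / E) ^ E = 1 := by
      rw [← ee_nat_mul, ← ee_int w]
      congr 1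
      field_simp
    have h3 : ee (w / E) - 1 ≠ 0 := by
      intro h4
      obtain ⟨n, hn⟩ := Complex.exp_eq_one_iff.1 (sub_eq_zero.1 h4)
      have h5 : (w : ℂ) / E = n :=
        mul_left_cancel₀ Complex.two_pi_I_ne_zero (hn.trans (mul_comm _ _))
      rw [div_eq_iff hE'] at h5
      exact h ⟨n, by exact_mod_cast h5.trans (mul_comm _ _)⟩
    have h4 := mul_geom_sum (ee (w / E)) E
    rw [h2, sub_self] at h4
    rw [Finset.sum_congr rfl h1]
    exact (mul_eq_zero.1 h4).resolve_left h3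

namespace Par

variable {P : Par} {c : P.D → ℤ → ℤ}

theorem HExU_sq (h : P.IsF 0 c) {k : P.D} {ν : ℤ} (hc : c k ν ≠ 0) :
    k ^ 2 = 4 * P.m * (-(ν : P.D)) :=
  (P.Q_eq_iff k _).1 (by rw [h.supp k ν hc, neg_neg])

theorem HExU_sq_rd (h : P.IsF 0 c) {k : P.D} {ν : ℤ} (hc : c k ν ≠ 0) :
    P.rd k ^ 2 = 4 * P.m * (-(ν : P.F)) := by
  have h1 := congrArg P.rd (HExU_sq h hc)
  rwa [map_pow, map_mul, map_mul, map_neg, map_ofNat, rd_int, rd_int] at h1

theorem HExU_count (h : P.IsF 0 c) {x : P.F} (hx : x ≠ 0) {ν : ℤ}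
    (hν : x ^ 2 = 4 * P.m * (-(ν : P.F))) :
    ∑ k, c k ν = 2 * ∑ k, if P.rd k = x then c k ν else 0 := by
  have hne : -x ≠ x := fun e => hx (by
    have h2 : 2 * x = 0 := by linear_combination -e
    exact (mul_eq_zero.1 h2).resolve_left P.two_ne)
  have h1 : ∀ k, c k ν = (if P.rd k = x then c k ν else 0) +
      if P.rd (-k) = x then c (-k) ν else 0 := by
    intro k
    rw [h.even, map_neg]
    by_cases hc : c k ν = 0
    · simp [hc]
    · rcases sq_eq_sq_iff_eq_or_eq_neg.1 ((HExU_sq_rd h hc).trans hν.symm) with e | e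
      · rw [e, if_pos rfl, if_neg hne, add_zero]
      · rw [e, neg_neg, if_neg hne, if_pos rfl, zero_add]
  rw [Finset.sum_congr rfl fun k _ => h1 k, Finset.sum_add_distrib, two_mul]
  congr 1
  exact Equiv.sum_comp (Equiv.neg P.D) fun k => if P.rd k = x then c k ν else 0

theorem HExU_inner (h : P.IsF 0 c) {A E : ℕ} (hE : 0 < E) (hpE : ¬ P.p ∣ E) (a b : ℤ) {k : P.D}
    {ν : ℤ} (hk : P.rd k = 2 * P.m * (E * a)) (hc : c k ν ≠ 0) (τ : ℂ) :
    ∑ B ∈ Finset.range E, ee (ν * ((P.p * A * τ + B) / E) / (P.p ^ 2 : ℕ)) *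
        P.psi ((k - P.m * (E * a)) * (B * a - P.p * A * b)) =
      if (E : ℤ) ∣ ν then E * (P.zp (-(E * a * (P.m * b))) ^ A * ee (ν * A * τ / (E * P.p)))
      else 0 := by
  have hE' : (E : ℂ) ≠ 0 := Nat.cast_ne_zero.2 hE.ne'
  have hp := P.p_ne
  obtain ⟨z, hz⟩ := P.exists_up (k := k - 2 * P.m * (E * a)) (by
    rw [map_sub, hk, map_mul, map_mul, map_mul, map_ofNat, rd_int, rd_int, map_natCast, sub_self])
  obtain ⟨j, hj⟩ := ZMod.intCast_surjective ((k - P.m * (E * a)) * a : P.D)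
  have h0 : ((ν + E * j : ℤ) : P.D) = 0 := by
    have h1 : P.up z * P.up z = 0 := by rw [up_mul, rd_up, mul_zero, up_zero]
    have h2 : 4 * (P.m : P.D) * ((ν + E * j : ℤ) : P.D) = 0 := by
      push_cast
      rw [hj]
      rw [← hz] at h1
      linear_combination HExU_sq h hc - h1
    have h3 := P.four_m_mul
    linear_combination (4 * (P.m : P.D))⁻¹ * h2 - ((ν + E * j : ℤ) : P.D) * h3
  obtain ⟨w, hw⟩ := (ZMod.intCast_zmod_eq_zero_iff_dvd _ _).1 h0
  have hd : (E : ℤ) ∣ w ↔ (E : ℤ) ∣ ν := by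
    constructor
    · intro hd
      have e : ν = ((P.p ^ 2 : ℕ) : ℤ) * w - E * j := by linear_combination hw
      rw [e]
      exact dvd_sub (hd.mul_left _) (dvd_mul_right _ _)
    · intro hd
      have h1 : (E : ℤ) ∣ ((P.p ^ 2 : ℕ) : ℤ) * w := hw ▸ dvd_add hd (dvd_mul_right _ _)
      exact (Nat.isCoprime_iff_coprime.2
        (((Nat.Prime.coprime_iff_not_dvd P.prime).2 hpE).symm.pow_right 2)).dvd_of_dvd_mul_left h1
  have hw' : (ν : ℂ) + E * j = P.p ^ 2 * w := by exact_mod_cast hw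
  have h1 : ∀ B ∈ Finset.range E, ee (ν * ((P.p * A * τ + B) / E) / (P.p ^ 2 : ℕ)) *
      P.psi ((k - P.m * (E * a)) * (B * a - P.p * A * b)) =
      P.zp (-(E * a * (P.m * b))) ^ A * ee (ν * A * τ / (E * P.p)) * ee (w * B / E) := by
    intro B _
    have e1 : (k - P.m * (E * a)) * (B * a - P.p * A * b) =
        ((j * B : ℤ) : P.D) + P.up ((A * b : ℤ) : P.F) * -(k - P.m * (E * a)) := by
      rw [up_int]
      push_cast
      rw [hj]
      ring
    have e2 : ((A * b : ℤ) : P.F) * P.rd (-(k - P.m * (E * a))) = A * -(E * a * (P.m * b)) := by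
      rw [map_neg, map_sub, hk, map_mul, map_mul, rd_int, rd_int, map_natCast]
      push_cast
      ring
    have e3 : ν * ((P.p * A * τ + B) / E) / (P.p ^ 2 : ℕ) + ((j * B : ℤ) : ℂ) / P.p ^ 2 =
        ν * A * τ / (E * P.p) + w * B / E := by
      push_cast
      field_simp
      linear_combination (B : ℂ) * hw'
    rw [e1, psi_add, up_mul, psi_up, psi_int, e2, zp_nat_mul, ← mul_assoc, ← ee_add, e3, ee_add]
    ring
  rw [Finset.sum_congr rfl h1, ← Finset.mul_sum, HExU_geom hE]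
  by_cases hν : (E : ℤ) ∣ ν
  · rw [if_pos hν, if_pos (hd.2 hν)]
    ring
  · rw [if_neg hν, if_neg fun e => hν (hd.1 e), mul_zero]

theorem hexU (h : P.IsF 0 c) (g : SL(2, ℤ)) {A E : ℕ} (hA : 0 < A) (hE : 0 < E)
    (hpE : ¬ P.p ∣ E) (τ : ℍ) :
    HasSum (fun α : ℤ => (E : ℂ) * ∑ b, (P.exU c (P.Dm * red P.p g) α b E : ℂ) *
        (P.zp (-b) * ee (-α * τ / P.p)) ^ A)
      (24 * P.p * ∑ B ∈ Finset.range E,
        P.tm c (!![((P.p * A : ℕ) : ℤ), (B : ℤ); 0, (E : ℤ)] * (g⁻¹ : SL(2, ℤ)))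
          (mob !![((P.p * A : ℕ) : ℤ), (B : ℤ); 0, (E : ℤ)] τ)) := by
  have hE' : (E : ℂ) ≠ 0 := Nat.cast_ne_zero.2 hE.ne'
  have hp := P.p_ne
  have hEF : (E : P.F) ≠ 0 := fun e => hpE ((ZMod.natCast_eq_zero_iff _ _).1 e)
  have hdet : g 0 0 * g 1 1 - g 0 1 * g 1 0 = 1 := by
    have h1 := g.det_coe
    rwa [Matrix.det_fin_two] at h1
  have hY : ∀ B : ℕ, !![((P.p * A : ℕ) : ℤ), (B : ℤ); 0, (E : ℤ)] * ((g⁻¹ : SL(2, ℤ)) : MZ) =
      !![P.p * A * g 1 1 - B * g 1 0, B * g 0 0 - P.p * A * g 0 1; -(E * g 1 0), E * g 0 0] := by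
    intro B
    rw [Matrix.SpecialLinearGroup.coe_inv, Matrix.adjugate_fin_two, Matrix.mul_fin_two]
    push_cast
    congr 1
    ext i j
    fin_cases i <;> fin_cases j <;> simp <;> ring
  have hX : P.Dm * red P.p g =
      !![(P.m : P.F) * g 0 0, (P.m : P.F) * g 0 1; (g 1 0 : P.F), (g 1 1 : P.F)] := by
    ext i j
    fin_cases i <;> fin_cases j <;> simp [Dm, red, Matrix.mul_apply, Fin.sum_univ_two]
  simp only [hY, hX]
  by_cases hc : (P.p : ℤ) ∣ g 1 0
  swap
  · have h1 : ∀ (α : ℤ) (b : P.F), P.exU c !![(P.m : P.F) * g 0 0, (P.m : P.F) * g 0 1;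
        (g 1 0 : P.F), (g 1 1 : P.F)] α b E = 0 := fun α b =>
      if_neg fun e => hc ((ZMod.intCast_zmod_eq_zero_iff_dvd _ _).1 e.2.1)
    have h2 : ∀ (B : ℕ) (t : ℍ), P.tm c !![P.p * A * g 1 1 - B * g 1 0,
        B * g 0 0 - P.p * A * g 0 1; -(E * g 1 0), E * g 0 0] t = 0 := by
      intro B t
      refine if_neg fun e => ?_
      have h3 : (P.p : ℤ) ∣ E * g 1 0 := dvd_neg.1 e.2
      rcases (Nat.prime_iff_prime_int.1 P.prime).dvd_or_dvd h3 with h4 | h4
      · exact hpE (Int.natCast_dvd_natCast.1 h4)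
      · exact hc h4
    simp only [h1, h2, Int.cast_zero, zero_mul, Finset.sum_const_zero, mul_zero]
    exact hasSum_zero
  have hc' : (g 1 0 : P.F) = 0 := (ZMod.intCast_zmod_eq_zero_iff_dvd _ _).2 hc
  have had : (g 0 0 : P.F) * g 1 1 = 1 := by
    have h1 := congrArg (Int.cast : ℤ → P.F) hdet
    push_cast at h1
    rw [hc'] at h1
    linear_combination h1
  have ha : (g 0 0 : P.F) ≠ 0 := left_ne_zero_of_mul_eq_one had
  have hx : 2 * (P.m : P.F) * (E * g 0 0) ≠ 0 :=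
    mul_ne_zero (mul_ne_zero P.two_ne P.m_ne) (mul_ne_zero hEF ha)
  have hmob : ∀ B : ℕ, (mob !![((P.p * A : ℕ) : ℤ), (B : ℤ); 0, (E : ℤ)] τ : ℂ) =
      (P.p * A * τ + B) / E := by
    intro B
    rw [coe_mob (by
      rw [Matrix.det_fin_two_of, mul_zero, sub_zero]
      exact mul_pos (Int.natCast_pos.2 (Nat.mul_pos P.prime.pos hA)) (Int.natCast_pos.2 hE))]
    simp [dn]
  -- the expansion of the right side
  let F : ℤ → ℂ := fun ν => 24 * P.p * ∑ B ∈ Finset.range E, ∑ k,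
    (c k ν : ℂ) * ee (ν * ((P.p * A * τ + B) / E) / (P.p ^ 2 : ℕ)) *
      if P.rd k = 2 * P.m * (E * g 0 0) then
        P.psi ((k - P.m * (E * g 0 0)) * (B * g 0 0 - P.p * A * g 0 1)) else 0
  have hF : HasSum F (24 * P.p * ∑ B ∈ Finset.range E,
      P.tm c !![P.p * A * g 1 1 - B * g 1 0, B * g 0 0 - P.p * A * g 0 1; -(E * g 1 0), E * g 0 0]
        (mob !![((P.p * A : ℕ) : ℤ), (B : ℤ); 0, (E : ℤ)] τ)) := by
    refine HasSum.mul_left _ (hasSum_sum fun B _ => ?_)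
    have h1 : (P.p : ℤ) ∣ P.p * A * g 1 1 - B * g 1 0 ∧ (P.p : ℤ) ∣ -(E * g 1 0) :=
      ⟨dvd_sub (((dvd_refl _).mul_right _).mul_right _) (hc.mul_left _),
        dvd_neg.2 (hc.mul_left _)⟩
    rw [tm, if_pos (by exact h1), FF]
    refine hasSum_sum fun k _ => ?_
    have h2 := ((h.qs k).sum (mob !![((P.p * A : ℕ) : ℤ), (B : ℤ); 0, (E : ℤ)] τ)).mul_right
      (if P.rd k = 2 * P.m * (E * g 0 0) then
        P.psi ((k - P.m * (E * g 0 0)) * (B * g 0 0 - P.p * A * g 0 1)) else 0)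
    rw [hmob] at h2
    convert h2 using 2
    simp [gg, col, map_ofNat]
  have hF' : ∀ ν, F ν = if (E : ℤ) ∣ ν then
      24 * P.p * ((∑ k, if P.rd k = 2 * P.m * (E * g 0 0) then c k ν else 0 : ℤ) *
        (E * (P.zp (-(E * g 0 0 * (P.m * g 0 1))) ^ A * ee (ν * A * τ / (E * P.p))))) else 0 := by
    intro ν
    have h1 : ∀ k, ∑ B ∈ Finset.range E,
        (c k ν : ℂ) * ee (ν * ((P.p * A * τ + B) / E) / (P.p ^ 2 : ℕ)) *
          (if P.rd k = 2 * P.m * (E * g 0 0) then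
            P.psi ((k - P.m * (E * g 0 0)) * (B * g 0 0 - P.p * A * g 0 1)) else 0) =
        ((if P.rd k = 2 * P.m * (E * g 0 0) then c k ν else 0 : ℤ) : ℂ) *
          if (E : ℤ) ∣ ν then
            E * (P.zp (-(E * g 0 0 * (P.m * g 0 1))) ^ A * ee (ν * A * τ / (E * P.p))) else 0 := by
      intro k
      by_cases hk : P.rd k = 2 * P.m * (E * g 0 0)
      · by_cases hck : c k ν = 0
        · simp [hck]
        · simp only [if_pos hk, mul_assoc (c k ν : ℂ)]
          rw [← Finset.mul_sum, HExU_inner h hE hpE (g 0 0) (g 0 1) hk hck]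
      · simp [hk]
    show 24 * (P.p : ℂ) * _ = _
    rw [Finset.sum_comm, Finset.sum_congr rfl fun k _ => h1 k, ← Finset.sum_mul, Int.cast_sum]
    split_ifs
    · rfl
    · rw [mul_zero, mul_zero]
  have hinj : Function.Injective fun α : ℤ => -(α * E) := fun x y e =>
    mul_right_cancel₀ (Int.natCast_ne_zero.2 hE.ne') (neg_injective e)
  have h3 := (hinj.hasSum_iff (f := F) fun ν hν => by
    rw [hF', if_neg]
    rintro ⟨t, rfl⟩
    exact hν ⟨-t, by ring⟩).2 hF
  convert h3 using 1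
  funext α
  rw [Function.comp_apply, hF', if_pos (dvd_neg.2 (dvd_mul_left _ _))]
  have e1 : ee (((-(α * E) : ℤ) : ℂ) * A * τ / (E * P.p)) = ee (-α * τ / P.p) ^ A := by
    rw [← ee_nat_mul]
    congr 1
    push_cast
    field_simp
  rw [e1, ← mul_pow]
  by_cases hα : (α : P.F) = E * g 0 0 * (P.m * g 0 0)
  · have h4 := HExU_count h hx (ν := -(α * E)) (by
      push_cast
      rw [hα]
      ring)
    rw [Finset.sum_eq_single ((E : P.F) * g 0 0 * (P.m * g 0 1))]
    · rw [exU, if_pos, h4]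
      · push_cast
        ring
      · refine ⟨fun e => ?_, hc', E * g 0 0, hα, rfl, ?_⟩
        · have h5 := (ZMod.intCast_zmod_eq_zero_iff_dvd _ _).2 e
          push_cast at h5
          rw [hα] at h5
          exact mul_ne_zero (mul_ne_zero (mul_ne_zero hEF ha) (mul_ne_zero P.m_ne ha)) hEF h5
        · show ((E : ℤ) : P.F) = E * g 0 0 * g 1 1
          rw [mul_assoc, had, mul_one, Int.cast_natCast]
    · intro b _ hb
      rw [exU, if_neg, Int.cast_zero, zero_mul]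
      rintro ⟨-, -, x, -, h5, h6⟩
      have h7 : ((E : ℤ) : P.F) = x * g 1 1 := h6
      have h8 : b = x * (P.m * g 0 1) := h5
      rw [Int.cast_natCast] at h7
      refine hb ?_
      rw [h8, h7]
      linear_combination (-(x * (P.m * g 0 1))) * had
    · simp
  · have h4 : ∀ b : P.F, P.exU c !![(P.m : P.F) * g 0 0, (P.m : P.F) * g 0 1;
        (g 1 0 : P.F), (g 1 1 : P.F)] α b E = 0 := by
      intro b
      refine if_neg ?_
      rintro ⟨-, -, x, h5, -, h6⟩
      have h7 : ((E : ℤ) : P.F) = x * g 1 1 := h6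
      have h8 : (α : P.F) = x * (P.m * g 0 0) := h5
      rw [Int.cast_natCast] at h7
      refine hα ?_
      rw [h8, h7]
      linear_combination (-(x * (P.m * g 0 0))) * had
    have h5 : (∑ k, if P.rd k = 2 * P.m * (E * g 0 0) then c k (-(α * E)) else 0) = 0 := by
      refine Finset.sum_eq_zero fun k _ => ?_
      split_ifs with hk
      · by_contra hck
        have h6 := HExU_sq_rd h hck
        rw [hk] at h6
        push_cast at h6
        refine hα (mul_left_cancel₀ (mul_ne_zero (mul_ne_zero (mul_ne_zero P.two_ne P.two_ne)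
          P.m_ne) hEF) ?_)
        linear_combination -h6
      · rfl
    simp only [h4, h5, Int.cast_zero, zero_mul, Finset.sum_const_zero, mul_zero]

theorem exU_of_dvd (c : P.D → ℤ → ℤ) (X : P.MF) (α : ℤ) (b : P.F) {E : ℕ} (hE : P.p ∣ E) :
    P.exU c X α b E = 0 :=
  if_neg fun e => e.1 ((Int.natCast_dvd_natCast.2 hE).mul_left α)

end Par

end

end Pool.Agent.P.MP_a60a76_nt.Sz
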