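import Pool.Agent.P.MP_a60a76_nt.Sz.LamA
import Pool.Agent.P.MP_a60a76_nt.Sz.DJ

namespace Pool.Agent.P.MP_a60a76_nt.Sz

open UpperHalfPlane hiding J
open MeasureTheory SP
open scoped MatrixGroups UpperHalfPlane Matrix Modular Topology Classical ArithmeticFunction.sigma

noncomputable section

/-! Integrality of the differential operators. -/

/-- Integral series in `X ^ p`. -/
def LamB_e (P : Par) : PowerSeries ℤ →+* PowerSeries ℂ :=
  (PowerSeries.expand P.p P.prime.ne_zero).toRingHom.comp (PowerSeries.map (Int.castRingHom ℂ))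

theorem LamB_e_mk (P : Par) (a : ℕ → ℤ) :
    LamB_e P (PowerSeries.mk a) = PowerSeries.mk (P.es a) := by
  ext k
  simp [LamB_e, PowerSeries.coeff_expand, Par.es]

theorem LamB_e_X (P : Par) : LamB_e P PowerSeries.X = PowerSeries.X ^ P.p := by
  simp [LamB_e]

/-- Series with integral coefficients. -/
def LamB_S : Subring (PowerSeries ℂ) := (PowerSeries.map (Int.castRingHom ℂ)).range

theorem LamB_mem {a : PowerSeries ℂ} :
    a ∈ LamB_S ↔ ∀ k, ∃ z : ℤ, PowerSeries.coeff k a = z := by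
  constructor
  · rintro ⟨c, rfl⟩ k
    exact ⟨PowerSeries.coeff k c, by simp⟩
  · intro h
    choose z hz using h
    exact ⟨PowerSeries.mk z, by ext k; simp [hz]⟩

theorem LamB_e_mem (P : Par) (c : PowerSeries ℤ) : LamB_e P c ∈ LamB_S :=
  ⟨PowerSeries.expand P.p P.prime.ne_zero c, by simp [LamB_e]⟩

/-- The inverse of the series of weight four. -/
def LamB_a : PowerSeries ℤ := PowerSeries.invOfUnit (PowerSeries.mk e4c) 1

/-- The inverse of the series of weight six. -/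
def LamB_b : PowerSeries ℤ := PowerSeries.invOfUnit (PowerSeries.mk e6c) 1

theorem LamB_a_mul : PowerSeries.mk e4c * LamB_a = 1 :=
  PowerSeries.mul_invOfUnit _ _ (by simp [e4c])

theorem LamB_b_mul : PowerSeries.mk e6c * LamB_b = 1 :=
  PowerSeries.mul_invOfUnit _ _ (by simp [e6c])

theorem LamB_A (P : Par) : P.S4 * LamB_e P LamB_a = 1 := by
  rw [Par.S4, ← LamB_e_mk, ← map_mul, LamB_a_mul, map_one]

theorem LamB_B (P : Par) : P.S6 * LamB_e P LamB_b = 1 := by
  rw [Par.S6, ← LamB_e_mk, ← map_mul, LamB_b_mul, map_one]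

theorem LamB_thS_zero (P : Par) : P.thS 0 = 0 := by
  ext k
  simp [Par.thS]

theorem LamB_thS_one (P : Par) : P.thS 1 = 0 := by
  have h := P.thS_mul 1 1
  simp only [mul_one, one_mul] at h
  linear_combination -h

theorem LamB_thS_pow (P : Par) (a : PowerSeries ℂ) (k : ℕ) :
    a * P.thS (a ^ k) = k * a ^ k * P.thS a := by
  induction k with
  | zero => simp [LamB_thS_one]
  | succ k ih =>
    rw [pow_succ, P.thS_mul]
    push_cast
    linear_combination a * ih

/-- The derivation `j d / d j`. -/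
def LamB_d (P : Par) : PowerSeries ℂ →ₗ[ℚ] PowerSeries ℂ :=
  AddMonoidHom.toRatLinearMap
    { toFun := fun a => -(P.S4 * LamB_e P LamB_b) * P.thS a
      map_zero' := by simp [LamB_thS_zero]
      map_add' := fun a b => by rw [P.thS_add]; ring }

theorem LamB_d_apply (P : Par) (a : PowerSeries ℂ) :
    LamB_d P a = -(P.S4 * LamB_e P LamB_b) * P.thS a := rfl

theorem LamB_d_mul (P : Par) (a b : PowerSeries ℂ) :
    LamB_d P (a * b) = LamB_d P a * b + a * LamB_d P b := by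
  simp only [LamB_d_apply, P.thS_mul]
  ring

theorem LamB_d_dvd (P : Par) (M : ℕ) :
    ∀ f ∈ Ideal.span {(PowerSeries.X : PowerSeries ℂ) ^ M},
      LamB_d P f ∈ Ideal.span {(PowerSeries.X : PowerSeries ℂ) ^ M} := by
  intro f hf
  rw [Ideal.mem_span_singleton] at hf ⊢
  rw [LamB_d_apply]
  refine Dvd.dvd.mul_left ?_ _
  rw [PowerSeries.X_pow_dvd_iff] at hf ⊢
  intro m hm
  simp [Par.thS, hf m hm]

theorem LamB_bn_dvd (P : Par) (M : ℕ) (n : ℤ) (k : ℕ) {f : PowerSeries ℂ}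
    (hf : PowerSeries.X ^ M ∣ f) : PowerSeries.X ^ M ∣ bn (LamB_d P) n k f :=
  Ideal.mem_span_singleton.1
    (bn_mem _ (LamB_d_dvd P M) n k (Ideal.mem_span_singleton.2 hf))

/-- The series of `1 / j`. -/
def LamB_w : PowerSeries ℤ := PowerSeries.mk dlc * LamB_a ^ 3

theorem LamB_d_w (P : Par) : LamB_d P (LamB_e P LamB_w) = -LamB_e P LamB_w := by
  have hA := LamB_A P
  have hB := LamB_B P
  have h4 := P.ser_E4
  set a := LamB_e P LamB_a with ha
  set b := LamB_e P LamB_b with hb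
  have hw : LamB_e P LamB_w = P.SD * a ^ 3 := by
    rw [LamB_w, map_mul, map_pow, LamB_e_mk]; rfl
  have h1 : P.thS P.S4 * a + P.S4 * P.thS a = 0 := by
    rw [← P.thS_mul, hA, LamB_thS_one]
  have h2 : P.thS a = -(a ^ 2 * P.thS P.S4) := by
    linear_combination a * h1 - P.thS a * hA
  have h3 : P.thS (a ^ 3) = 3 * a ^ 2 * P.thS a := by
    rw [show a ^ 3 = a * a * a by ring, P.thS_mul, P.thS_mul]; ring
  rw [hw, LamB_d_apply, P.thS_mul, h3, h2]
  linear_combination (b * a ^ 3) * h4 + (3 * b * P.SD * a ^ 3 * P.thS P.S4) * hA -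
    (P.SD * a ^ 3) * hB

theorem LamB_d_w_pow (P : Par) (i : ℕ) :
    LamB_d P (LamB_e P LamB_w ^ i) = ((-i : ℤ) : PowerSeries ℂ) * LamB_e P LamB_w ^ i := by
  induction i with
  | zero => simp [LamB_d_apply, LamB_thS_one]
  | succ i ih =>
    rw [pow_succ, LamB_d_mul, ih, LamB_d_w]
    push_cast
    ring

theorem LamB_w_eq : ∃ s : PowerSeries ℤ, LamB_w = PowerSeries.X * (1 + PowerSeries.X * s) := by
  have h0 : PowerSeries.constantCoeff LamB_a = 1 := by
    simp [LamB_a]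
  obtain ⟨D, hD⟩ : (PowerSeries.X : PowerSeries ℤ) ∣ PowerSeries.mk dlc :=
    PowerSeries.X_dvd_iff.2 (by simp [dlc_zero])
  have hD1 : PowerSeries.constantCoeff D = 1 := by
    have := congrArg (PowerSeries.coeff 1) hD
    rw [PowerSeries.coeff_succ_X_mul, PowerSeries.coeff_mk, dlc_one] at this
    simpa using this.symm
  obtain ⟨s, hs⟩ : (PowerSeries.X : PowerSeries ℤ) ∣ D * LamB_a ^ 3 - 1 :=
    PowerSeries.X_dvd_iff.2 (by simp [h0, hD1])
  exact ⟨s, by rw [LamB_w, hD, ← hs]; ring⟩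

theorem LamB_split (i : ℕ) (c : PowerSeries ℤ) : ∃ (z : ℤ) (c' : PowerSeries ℤ),
    PowerSeries.X ^ i * c =
      (z : PowerSeries ℤ) * LamB_w ^ i + PowerSeries.X ^ (i + 1) * c' := by
  obtain ⟨s, hs⟩ := LamB_w_eq
  obtain ⟨z, hz⟩ : ∃ z : ℤ, PowerSeries.constantCoeff c = z := ⟨_, rfl⟩
  obtain ⟨c', hc⟩ : (PowerSeries.X : PowerSeries ℤ) ∣
      c - (z : PowerSeries ℤ) * (1 + PowerSeries.X * s) ^ i :=
    PowerSeries.X_dvd_iff.2 (by simp [hz])
  refine ⟨z, c', ?_⟩
  rw [hs, mul_pow]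
  linear_combination PowerSeries.X ^ i * hc

theorem LamB_approx (P : Par) (n : ℤ) (k m : ℕ) : ∀ (i : ℕ) (c : PowerSeries ℤ),
    ∃ s ∈ LamB_S, PowerSeries.X ^ (i + m) ∣
      bn (LamB_d P) n k (LamB_e P (PowerSeries.X ^ i * c)) - s := by
  induction m with
  | zero =>
    intro i c
    refine ⟨0, LamB_S.zero_mem, ?_⟩
    rw [sub_zero, add_zero]
    refine LamB_bn_dvd P i n k ?_
    rw [map_mul, map_pow, LamB_e_X, ← pow_mul]
    exact Dvd.dvd.mul_right (pow_dvd_pow _ (Nat.le_mul_of_pos_left _ P.prime.pos)) _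
  | succ m ih =>
    intro i c
    obtain ⟨z, c', h⟩ := LamB_split i c
    obtain ⟨s, hs, hd⟩ := ih (i + 1) c'
    refine ⟨z * (((Ring.choose ((-i : ℤ) + n) k : ℤ) : PowerSeries ℂ) * LamB_e P LamB_w ^ i) + s,
      add_mem (mul_mem (intCast_mem _ _)
        (mul_mem (intCast_mem _ _) (pow_mem (LamB_e_mem P _) _))) hs, ?_⟩
    rw [h, map_add, map_mul, map_intCast, map_pow, bn_add, bn_zsmul,
      bn_eigen (LamB_d_w_pow P i), add_sub_add_left_eq_sub,
      show i + (m + 1) = i + 1 + m by ring]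
    exact hd

theorem LamB_bn_e (P : Par) (n : ℤ) (k : ℕ) (c : PowerSeries ℤ) :
    bn (LamB_d P) n k (LamB_e P c) ∈ LamB_S := by
  rw [LamB_mem]
  intro N
  obtain ⟨s, hs, hd⟩ := LamB_approx P n k (N + 1) 0 c
  obtain ⟨z, hz⟩ := LamB_mem.1 hs N
  rw [pow_zero, one_mul, zero_add, PowerSeries.X_pow_dvd_iff] at hd
  have := hd N (by omega)
  rw [map_sub, hz, sub_eq_zero] at this
  exact ⟨z, this⟩

theorem LamB_X_mem : (PowerSeries.X : PowerSeries ℂ) ∈ LamB_S := ⟨PowerSeries.X, by simp⟩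

theorem LamB_root (P : Par) (k : ℕ) :
    (P.p : PowerSeries ℂ) ^ (2 * k) * bn (LamB_d P) 0 k PowerSeries.X ∈ LamB_S := by
  refine bn_root (LamB_d_mul P) LamB_S P.prime.two_le PowerSeries.X_ne_zero LamB_X_mem ?_ ?_ k
  · have := LamB_d_dvd P 1 PowerSeries.X (by simp)
    simpa [Ideal.mem_span_singleton] using this
  · intro j
    obtain ⟨U, hU⟩ := LamB_bn_dvd P P.p 0 j (dvd_refl (PowerSeries.X ^ P.p))
    refine ⟨U, LamB_mem.2 fun N => ?_, hU⟩
    have h := LamB_bn_e P 0 j PowerSeries.X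
    rw [LamB_e_X, hU] at h
    obtain ⟨z, hz⟩ := LamB_mem.1 h (N + P.p)
    rw [PowerSeries.coeff_X_pow_mul] at hz
    exact ⟨z, hz⟩

theorem LamB_good (P : Par) (n : ℤ) (c : PowerSeries ℤ) (N : ℕ) : ∀ k : ℕ,
    (P.p : PowerSeries ℂ) ^ (2 * k) *
      bn (LamB_d P) n k (PowerSeries.X ^ N * LamB_e P c) ∈ LamB_S := by
  induction N with
  | zero =>
    intro k
    rw [pow_zero, one_mul]
    exact mul_mem (pow_mem (natCast_mem _ _) _) (LamB_bn_e P n k c)
  | succ N ih =>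
    intro k
    have := bn_good (LamB_d_mul P) LamB_S P.p (LamB_root P) ih k
    rwa [zero_add, ← mul_assoc, ← pow_succ'] at this

theorem LamB_bn_succ (P : Par) (n : ℤ) (k : ℕ) (g : PowerSeries ℂ) :
    ((k : PowerSeries ℂ) + 1) * bn (LamB_d P) n (k + 1) g =
      LamB_d P (bn (LamB_d P) n k g) + ((n : PowerSeries ℂ) - k) * bn (LamB_d P) n k g := by
  have h : ((k : ℚ) + 1) ≠ 0 := by positivity
  have e : ∀ x : PowerSeries ℂ, ((k : PowerSeries ℂ) + 1) * x = ((k : ℚ) + 1) • x := by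
    intro x
    rw [add_smul, one_smul, Nat.cast_smul_eq_nsmul, nsmul_eq_mul, add_mul, one_mul]
  rw [e, bn, smul_smul, mul_inv_cancel₀ h, one_smul]

theorem LamB_bn_C (P : Par) (n : ℤ) (k : ℕ) (z : ℂ) (g : PowerSeries ℂ) :
    bn (LamB_d P) n k (PowerSeries.C z * g) = PowerSeries.C z * bn (LamB_d P) n k g := by
  induction k with
  | zero => rfl
  | succ k ih =>
    rw [bn, bn, ih, LamB_d_apply, P.thS_C_mul, LamB_d_apply, mul_smul_comm]
    congr 1
    ring

theorem LamB_thS_nat (P : Par) (m : ℕ) (a : PowerSeries ℂ) :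
    P.thS (m * a) = m * P.thS a := by
  have := P.thS_C_mul (m : ℂ) a
  rwa [map_natCast] at this

theorem LamB_Lser (P : Par) (n μ : ℕ) (b : PowerSeries ℂ) :
    P.Lser n μ b = (μ.factorial : PowerSeries ℂ) * (P.S6 ^ (2 * μ) * P.SD ^ μ * P.S4 ^ (3 * n) *
      bn (LamB_d P) n μ (b * LamB_e P (LamB_a ^ (3 * n)))) := by
  induction μ with
  | zero =>
    have h : P.S4 ^ (3 * n) * LamB_e P LamB_a ^ (3 * n) = 1 := by
      rw [← mul_pow, LamB_A, one_pow]
    simp only [Par.Lser, bn, Nat.factorial_zero, Nat.cast_one, mul_zero, pow_zero, one_mul, map_pow]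
    linear_combination -b * h
  | succ μ ih =>
    have hs := LamB_bn_succ P n μ (b * LamB_e P (LamB_a ^ (3 * n)))
    set g := bn (LamB_d P) n μ (b * LamB_e P (LamB_a ^ (3 * n))) with hg
    set g' := bn (LamB_d P) n (μ + 1) (b * LamB_e P (LamB_a ^ (3 * n))) with hg'
    have hB := LamB_B P
    have h4 := P.ser_E4
    have h6 := P.ser_E6
    have pA := LamB_thS_pow P P.S4 (3 * n)
    have pB := LamB_thS_pow P P.S6 (2 * μ)
    have pD := LamB_thS_pow P P.SD μ
    rw [Par.Lser, ih, LamB_thS_nat, P.thS_mul, P.thS_mul, P.thS_mul, Nat.factorial_succ,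
      show 2 * (μ + 1) = 2 * μ + 2 by ring, pow_add, pow_succ P.SD μ]
    rw [LamB_d_apply] at hs
    generalize P.S6 ^ (2 * μ) = Bp at *
    generalize P.S4 ^ (3 * n) = Ap at *
    generalize P.SD ^ μ = Dp at *
    generalize P.thS Bp = tB at *
    generalize P.thS Ap = tA at *
    generalize P.thS Dp = tD at *
    push_cast at *
    linear_combination
      -(μ.factorial * Bp * P.S6 ^ 2 * Dp * P.SD * Ap) * hs +
      (μ.factorial * Bp * P.S6 * Dp * P.SD * Ap * P.S4 * P.thS g) * hB -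
      (μ.factorial * P.S4 * P.SD * Dp * Ap * g) * pB -
      (μ.factorial * P.S4 * P.S6 * Bp * Ap * g) * pD -
      (μ.factorial * P.S6 * P.SD * Bp * Dp * g) * pA -
      (μ.factorial * μ * P.S4 * Bp * Dp * Ap * g) * h6 -
      (μ.factorial * n * P.S6 * Bp * Dp * Ap * g) * h4

theorem LamB_bn_sum (P : Par) (n : ℤ) (k : ℕ) (s : Finset ℕ) (f : ℕ → PowerSeries ℂ) :
    bn (LamB_d P) n k (∑ i ∈ s, f i) = ∑ i ∈ s, bn (LamB_d P) n k (f i) := by
  induction s using Finset.induction_on with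
  | empty =>
    have := bn_zsmul (δ := LamB_d P) n k 0 0
    simpa using this
  | insert a s ha ih => rw [Finset.sum_insert ha, Finset.sum_insert ha, bn_add, ih]

theorem Par.lam (P : Par) (n μ : ℕ) : ∃ lam : ℕ → ℕ → ℤ, ∀ (b : PowerSeries ℂ) (N : ℕ),
    (P.p : ℂ) ^ (2 * μ) * PowerSeries.coeff N (P.Lser n μ b) =
      μ.factorial * ∑ N' ∈ Finset.range (N + 1), (lam N N' : ℂ) * PowerSeries.coeff N' b := by
  set M := P.S6 ^ (2 * μ) * P.SD ^ μ * P.S4 ^ (3 * n) with hM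
  set a := LamB_e P (LamB_a ^ (3 * n)) with ha
  have hMS : M ∈ LamB_S := by
    rw [hM, Par.S6, Par.SD, Par.S4, ← LamB_e_mk, ← LamB_e_mk, ← LamB_e_mk]
    exact mul_mem (mul_mem (pow_mem (LamB_e_mem P _) _) (pow_mem (LamB_e_mem P _) _))
      (pow_mem (LamB_e_mem P _) _)
  have key : ∀ N N' : ℕ, ∃ z : ℤ, (P.p : ℂ) ^ (2 * μ) *
      PowerSeries.coeff N (M * bn (LamB_d P) n μ (PowerSeries.X ^ N' * a)) = z := by
    intro N N'
    obtain ⟨z, hz⟩ := LamB_mem.1 (mul_mem hMS (LamB_good P n (LamB_a ^ (3 * n)) N' μ)) N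
    refine ⟨z, ?_⟩
    rw [← hz, mul_left_comm M, ← map_natCast (PowerSeries.C (R := ℂ)), ← map_pow,
      PowerSeries.coeff_C_mul]
  choose lam hlam using key
  refine ⟨lam, fun b N => ?_⟩
  obtain ⟨r, hr⟩ : (PowerSeries.X : PowerSeries ℂ) ^ (N + 1) ∣ b - ∑ N' ∈ Finset.range (N + 1),
      PowerSeries.C (PowerSeries.coeff N' b) * PowerSeries.X ^ N' := by
    rw [PowerSeries.X_pow_dvd_iff]
    intro m hm
    simp [PowerSeries.coeff_X_pow, hm]
  have hb : b * a = ∑ N' ∈ Finset.range (N + 1),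
      PowerSeries.C (PowerSeries.coeff N' b) * (PowerSeries.X ^ N' * a) +
        PowerSeries.X ^ (N + 1) * r * a := by
    rw [← hr, sub_mul, Finset.sum_mul]
    simp only [mul_assoc]
    ring
  have h0 : PowerSeries.coeff N (M * bn (LamB_d P) n μ (PowerSeries.X ^ (N + 1) * r * a)) = 0 :=
    PowerSeries.X_pow_dvd_iff.1 (Dvd.dvd.mul_left (LamB_bn_dvd P (N + 1) n μ
      (Dvd.dvd.mul_right (dvd_mul_right _ r) a)) M) N (by omega)
  rw [LamB_Lser, ← hM, ← ha, ← map_natCast (PowerSeries.C (R := ℂ)), PowerSeries.coeff_C_mul,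
    hb, bn_add, mul_add M, map_add, h0, add_zero, LamB_bn_sum, Finset.mul_sum, map_sum,
    mul_left_comm, Finset.mul_sum]
  congr 1
  refine Finset.sum_congr rfl fun N' _ => ?_
  rw [LamB_bn_C, mul_left_comm M, PowerSeries.coeff_C_mul, ← hlam]
  ring

end

end Pool.Agent.P.MP_a60a76_nt.Sz
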