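import Pool.Agent.P.MP_a60a76_nt.Sz.Van
import Pool.Agent.P.MP_a60a76_nt.Sz.DJ

namespace Pool.Agent.P.MP_a60a76_nt.Sz

open UpperHalfPlane hiding J
open MeasureTheory SP
open scoped MatrixGroups UpperHalfPlane Matrix Modular Topology Classical ArithmeticFunction.sigma

noncomputable section

/-! The differential operators. -/

variable {f : ℍ → ℂ}

open Derivative

theorem Lop_D (h : Hol f) : Hol (normalizedDerivOfComplex f) :=
  mdifferentiable_iff.1 (normalizedDerivOfComplex_mdifferentiable (mdifferentiable_iff.2 h))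

theorem Lop_A : Hol fun τ => -(E4 τ * E6 τ / Dl τ) :=
  (DifferentiableOn.div (DifferentiableOn.mul E4_hol E6_hol) Dl_hol fun _ _ => Dl_ne_zero _).neg

theorem Lop_B (μ : ℕ) : Hol fun τ => μ * (2 * J τ - 1728) :=
  ((DifferentiableOn.const_mul J_hol 2).sub_const 1728).const_mul (μ : ℂ)

theorem Lop_succ (μ : ℕ) (f : ℍ → ℂ) (τ : ℍ) : Lop (μ + 1) f τ =
    -(E4 τ * E6 τ / Dl τ) * normalizedDerivOfComplex (Lop μ f) τ -
      μ * (2 * J τ - 1728) * Lop μ f τ := rfl

theorem Lop_D_smul (h : Hol f) (g : SL(2, ℤ)) (τ : ℍ) :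
    normalizedDerivOfComplex (fun τ => f (g • τ)) τ =
      normalizedDerivOfComplex f (g • τ) / dn g τ ^ 2 := by
  have h1 := congrFun (normalizedDerivOfComplex_SL_slash (k := 0) (mdifferentiable_iff.2 h)
    (γ := g)) τ
  have h2 : SlashAction.map (0 : ℤ) g f = fun τ => f (g • τ) := funext fun τ => by
    rw [ModularForm.SL_slash_apply, neg_zero, zpow_zero, mul_one]
  rw [h2, Pi.sub_apply, ModularForm.SL_slash_apply, ← dn_eq_denom] at h1
  rw [h1, Int.cast_zero, zero_mul, zero_mul, zero_mul, sub_zero, zero_add, zpow_neg, div_eq_mul_inv]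
  rfl

theorem Lop_an (h : Hol f) (t : ℍ) : AnalyticAt ℂ (f ∘ ofComplex) t :=
  DifferentiableOn.analyticAt h (isOpen_upperHalfPlaneSet.mem_nhds t.im_pos)

theorem Lop_D_pow (h : Hol f) (N : ℕ) (τ : ℍ) :
    Dl τ * normalizedDerivOfComplex (fun τ => f τ * Dl τ ^ N) τ =
      (Dl τ * normalizedDerivOfComplex f τ + N * normalizedDerivOfComplex Dl τ * f τ) *
        Dl τ ^ N := by
  have hD := mdifferentiable_iff.2 Dl_hol
  have h1 := congrFun (normalizedDerivOfComplex_mul f (Dl ^ N) (mdifferentiable_iff.2 h)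
    (hD.pow N)) τ
  rw [normalizedDerivOfComplex_pow _ _ hD] at h1
  refine (congrArg _ h1).trans ?_
  simp only [Pi.add_apply, Pi.mul_apply, Pi.pow_apply, Pi.natCast_apply]
  cases N with
  | zero => simp
  | succ N =>
    rw [Nat.add_sub_cancel]
    ring

theorem Lop_hol (h : Hol f) (μ : ℕ) : Hol (Lop μ f) := by
  induction μ with
  | zero => exact h
  | succ μ ih =>
    exact (DifferentiableOn.mul Lop_A (Lop_D ih)).sub (DifferentiableOn.mul (Lop_B μ) ih)

theorem Lop_smul (h : Hol f) (g : SL(2, ℤ)) (μ : ℕ) (τ : ℍ) :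
    Lop μ (fun τ => f (g • τ)) τ = Lop μ f (g • τ) := by
  induction μ generalizing τ with
  | zero => rfl
  | succ μ ih =>
    have h1 := dn_sl_ne_zero g τ
    have h2 := Dl_ne_zero τ
    rw [Lop_succ, Lop_succ, funext ih, Lop_D_smul (Lop_hol h μ), SP.J_smul, E4_smul, E6_smul,
      Dl_smul]
    congr 1
    field_simp

theorem Lop_const_mul (h : Hol f) (z : ℂ) (μ : ℕ) (τ : ℍ) :
    Lop μ (fun τ => z * f τ) τ = z * Lop μ f τ := by
  induction μ generalizing τ with
  | zero => rfl
  | succ μ ih =>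
    have h1 := congrFun (normalizedDerivOfComplex_smul z _
      (mdifferentiable_iff.2 (Lop_hol h μ))) τ
    rw [Lop_succ, Lop_succ, funext ih]
    refine (congrArg (fun x => _ * x - _) h1).trans ?_
    rw [Pi.smul_apply, smul_eq_mul]
    ring

theorem Lop_lead (h : Hol f) {t : ℍ} {μ : ℕ} {L : ℂ}
    (hL : Filter.Tendsto (fun z : ℂ => f (ofComplex z) / (z - t) ^ μ) (𝓝[≠] (t : ℂ)) (𝓝 L)) :
    Lop μ f t =
      μ.factorial * (-(E4 t * E6 t / Dl t) / (2 * Real.pi * Complex.I)) ^ μ * L := by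
  have key : ∀ k m : ℕ, m + k = μ → ∃ G : ℂ → ℂ, AnalyticAt ℂ G t ∧
      (Lop k f ∘ ofComplex =ᶠ[𝓝 (t : ℂ)] fun z => (z - t) ^ m * G z) ∧ m.factorial * G t =
        μ.factorial * (-(E4 t * E6 t / Dl t) / (2 * Real.pi * Complex.I)) ^ k * L := by
    intro k
    induction k with
    | zero =>
      rintro m rfl
      have e : Function.update (fun z : ℂ => f (ofComplex z) / (z - t) ^ m) t L =ᶠ[𝓝[≠] (t : ℂ)]
          fun z : ℂ => f (ofComplex z) / (z - t) ^ m := by
        filter_upwards [self_mem_nhdsWithin] with z hz using Function.update_of_ne hz ..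
      have hG : AnalyticAt ℂ (Function.update (fun z : ℂ => f (ofComplex z) / (z - t) ^ m) t L) t := by
        refine Complex.analyticAt_of_differentiable_on_punctured_nhds_of_continuousAt ?_
          (continuousAt_update_same.2 hL)
        filter_upwards [self_mem_nhdsWithin,
          mem_nhdsWithin_of_mem_nhds (Lop_an h t).eventually_analyticAt] with z hz h1
        refine DifferentiableAt.congr_of_eventuallyEq
          (f := fun z : ℂ => f (ofComplex z) / (z - t) ^ m)
          (h1.differentiableAt.div (by fun_prop) (pow_ne_zero _ (sub_ne_zero.2 hz))) ?_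
        filter_upwards [isOpen_ne.mem_nhds hz] with w hw using Function.update_of_ne hw ..
      refine ⟨_, hG, ?_, by simp⟩
      refine ((Lop_an h t).continuousAt.eventuallyEq_nhds_iff_eventuallyEq_nhdsNE
        (ContinuousAt.mul (by fun_prop) hG.continuousAt)).1 ?_
      filter_upwards [self_mem_nhdsWithin, e] with z hz h1
      rw [Pi.mul_apply, h1, mul_div_cancel₀ _ (pow_ne_zero _ (sub_ne_zero.2 hz))]
      rfl
    | succ k ih =>
      intro m hm
      obtain ⟨G, hG, e, hv⟩ := ih (m + 1) (by omega)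
      refine ⟨fun z => ((fun τ => -(E4 τ * E6 τ / Dl τ)) ∘ ofComplex) z *
        (2 * Real.pi * Complex.I)⁻¹ * ((m + 1) * G z + (z - t) * deriv G z) -
          ((fun τ => k * (2 * J τ - 1728)) ∘ ofComplex) z * (z - t) * G z, ?_, ?_, ?_⟩
      · have h1 := Lop_an Lop_A t
        have h2 := Lop_an (Lop_B k) t
        have h3 := hG.deriv
        fun_prop
      · filter_upwards [e.deriv, e, hG.eventually_analyticAt,
          isOpen_upperHalfPlaneSet.mem_nhds t.im_pos] with z h1 h2 h3 h4
        have h5 := ((((hasDerivAt_id z).sub_const (t : ℂ)).fun_pow (m + 1)).fun_mul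
          h3.differentiableAt.hasDerivAt).deriv
        simp only [id] at h5
        rw [Function.comp_apply] at h2
        rw [Function.comp_apply, Lop_succ, h2, normalizedDerivOfComplex, QSb_coe h4, h1, h5,
          Nat.add_sub_cancel]
        simp only [Function.comp_apply]
        push_cast
        ring
      · simp only [Function.comp_apply, ofComplex_apply]
        rw [Nat.factorial_succ] at hv
        push_cast at hv
        linear_combination (-(E4 t * E6 t / Dl t) / (2 * Real.pi * Complex.I)) * hv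
  obtain ⟨G, -, e, hv⟩ := key μ 0 (zero_add μ)
  have h1 := e.eq_of_nhds
  rw [Function.comp_apply, ofComplex_apply, pow_zero, one_mul] at h1
  rw [h1, ← hv, Nat.factorial_zero, Nat.cast_one, one_mul]

theorem Van.lop {ν : ℕ} {f : ℍ → ℍ → ℂ} {s₁ s₂ : ℍ} (h : Van ν f s₁ s₂)
    (hf : ∀ t₁, Hol (f t₁)) (μ : ℕ) : Van (ν - μ) (fun t₁ => Lop μ (f t₁)) s₁ s₂ := by
  induction μ with
  | zero => exact h
  | succ μ ih =>
    exact (((van_snd Lop_A s₁ s₂).mul (ih.deriv fun t => Lop_hol (hf t) μ)).mono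
      (μ := ν - (μ + 1)) (by omega)).sub (((van_snd (Lop_B μ) s₁ s₂).mul ih).mono (by omega))

theorem Par.Cv.lser {P : Par} {b : PowerSeries ℂ} {n : ℕ}
    (h : P.Cv b fun τ => f τ * Dl τ ^ n) (μ : ℕ) :
    P.Cv (P.Lser n μ b) fun τ => Lop μ f τ * Dl τ ^ (n + 2 * μ) := by
  have hf : Hol f := by
    refine (DifferentiableOn.div h.hol (DifferentiableOn.pow Dl_hol n)
      fun _ _ => pow_ne_zero n (Dl_ne_zero _)).congr fun z _ => ?_
    exact (mul_div_cancel_right₀ _ (pow_ne_zero n (Dl_ne_zero _))).symm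
  induction μ with
  | zero => exact h
  | succ μ ih =>
    have h1 := ((((P.cv_C 0).sub (P.cv_S4.mul P.cv_S6)).mul ((P.cv_SD.mul ih.thS).sub
      (((P.cv_C (n + 2 * μ : ℕ)).mul P.cv_SD.thS).mul ih))).sub
        ((((P.cv_C μ).mul ((P.cv_S4.pow 3).add (P.cv_S6.pow 2))).mul P.cv_SD).mul ih))
    rw [map_zero, zero_sub, map_natCast, map_natCast] at h1
    refine fun τ => ?_
    convert h1 τ using 1
    · rfl
    have h2 := Dl_ne_zero τ
    have h3 : (2 * J τ - 1728) * Dl τ = E4 τ ^ 3 + E6 τ ^ 2 := by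
      rw [J_eq]
      field_simp
      linear_combination E4_cube_sub τ
    beta_reduce
    rw [Lop_D_pow (Lop_hol hf μ), Lop_succ, ← h3, mul_add 2, ← add_assoc, pow_add]
    field_simp
    ring

end

end Pool.Agent.P.MP_a60a76_nt.Sz
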