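import Pool.Agent.P.MP_a60a76_nt.Sz.Gauss
import Pool.Agent.P.MP_a60a76_nt.Sz.Lop
import Pool.Agent.P.MP_a60a76_nt.Sz.LamB

namespace Pool.Agent.P.MP_a60a76_nt.Sz

open UpperHalfPlane hiding J
open MeasureTheory SP
open scoped MatrixGroups UpperHalfPlane Matrix Modular Topology Classical ArithmeticFunction.sigma

noncomputable section

/-! The differential operators act on families. -/

/-- The series in two variables with given rows. -/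
def HFam_un (b : ℕ → PowerSeries ℂ) : PS := fun d => PowerSeries.coeff (d 1) (b (d 0))

theorem HFam_coeff_un (b : ℕ → PowerSeries ℂ) (d : Fin 2 →₀ ℕ) :
    MvPowerSeries.coeff d (HFam_un b) = PowerSeries.coeff (d 1) (b (d 0)) := rfl

theorem HFam_un_row (a : PS) : HFam_un (fun m => row m a) = a := by
  ext d
  rw [HFam_coeff_un, row, PowerSeries.coeff_mk, ixx_eta]

theorem HFam_un_add (b b' : ℕ → PowerSeries ℂ) :
    HFam_un (fun m => b m + b' m) = HFam_un b + HFam_un b' := by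
  ext d
  rw [map_add, HFam_coeff_un, HFam_coeff_un, HFam_coeff_un, map_add]

theorem HFam_un_mul (e : PowerSeries ℂ) (b : ℕ → PowerSeries ℂ) :
    HFam_un (fun m => e * b m) = in2 (fun k => PowerSeries.coeff k e) * HFam_un b := by
  ext d
  rw [HFam_coeff_un, PowerSeries.coeff_mul, MvPowerSeries.coeff_mul]
  refine Finset.sum_of_injOn (fun x : ℕ × ℕ => (ixx 0 x.1, ixx (d 0) x.2)) ?_ ?_ ?_ ?_
  · intro x _ y _ hxy
    have h1 := (Ev_ixx_inj.1 (congrArg Prod.fst hxy)).2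
    have h2 := (Ev_ixx_inj.1 (congrArg Prod.snd hxy)).2
    exact Prod.ext h1 h2
  · intro x hx
    have h1 : x.1 + x.2 = d 1 := by simpa using hx
    simp only [Finset.mem_coe, Finset.HasAntidiagonal.mem_antidiagonal]
    rw [← ixx_add, zero_add, h1, ixx_eta]
  · intro y hy hn
    have h1 : y.1 + y.2 = d := Finset.HasAntidiagonal.mem_antidiagonal.1 hy
    rw [Ev_coeff_in2, if_neg, zero_mul]
    intro h0
    refine hn ⟨(y.1 1, y.2 1), ?_, ?_⟩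
    · simp only [Finset.mem_coe, Finset.HasAntidiagonal.mem_antidiagonal]
      rw [← h1, Finsupp.add_apply]
    · have h2 : d 0 = y.2 0 := by rw [← h1, Finsupp.add_apply, h0, zero_add]
      refine Prod.ext ?_ ?_
      · simpa [h0] using ixx_eta y.1
      · simpa [h2] using ixx_eta y.2
  · intro x _
    rw [Ev_coeff_in2, HFam_coeff_un]
    simp

theorem HFam_geom {r : ℝ} (h0 : 0 ≤ r) (h1 : r < 1) : ∃ C : ℝ, ∀ N : ℕ, (N : ℝ) * r ^ N ≤ C := by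
  have h := hasSum_coe_mul_geometric_of_norm_lt_one (𝕜 := ℝ) (r := r)
    (by rwa [Real.norm_of_nonneg h0])
  exact ⟨_, fun N => le_hasSum h N fun j _ => by positivity⟩

namespace Par

variable {P : Par} {c : P.D → ℤ → ℤ} {X : P.MF}

/-- Rows which converge absolutely everywhere. -/
def HFam_Ab (P : Par) (b : ℕ → PowerSeries ℂ) : Prop :=
  ∀ t₁ t₂ : ℍ, Ab (RingHom.id ℂ) (HFam_un b) (P.sv t₁) (P.sv t₂)

theorem HFam_Ab_add {b b' : ℕ → PowerSeries ℂ} (h : HFam_Ab P b) (h' : HFam_Ab P b') :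
    HFam_Ab P fun m => b m + b' m := fun t₁ t₂ => by
  rw [HFam_un_add]
  exact ((h t₁ t₂).add (h' t₁ t₂)).1

theorem HFam_Ab_mul {e : PowerSeries ℂ} {F : ℍ → ℂ} (he : P.Cv e F) {b : ℕ → PowerSeries ℂ}
    (h : HFam_Ab P b) : HFam_Ab P fun m => e * b m := fun t₁ t₂ => by
  rw [HFam_un_mul]
  exact ((ab_in_c he t₁ t₂).2.1.mul (h t₁ t₂)).1

theorem HFam_Ab_thS {b : ℕ → PowerSeries ℂ} (h : HFam_Ab P b) :
    HFam_Ab P fun m => P.thS (b m) := fun t₁ t₂ => by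
  have h0 : 0 < ‖P.sv t₂‖ := norm_pos_iff.2 (P.sv_ne_zero t₂)
  have h1 := P.norm_sv_lt_one t₂
  set y : ℝ := ‖P.sv t₂‖ with hy
  have h2 : (0 : ℝ) < (y + 1) / 2 := by positivity
  obtain ⟨τ, hτ⟩ := P.exists_sv (t := (((y + 1) / 2 : ℝ) : ℂ)) (by exact_mod_cast h2.ne')
    (by rw [Complex.norm_real, Real.norm_of_nonneg h2.le]; linarith)
  have h3 : ‖P.sv τ‖ = (y + 1) / 2 := by rw [hτ, Complex.norm_real, Real.norm_of_nonneg h2.le]
  obtain ⟨C, hC⟩ := HFam_geom (r := y / ((y + 1) / 2)) (by positivity)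
    (by rw [div_lt_one h2]; linarith)
  have hp : (1 : ℝ) ≤ P.p := by exact_mod_cast P.prime.one_le
  refine Summable.of_nonneg_of_le (fun d => by positivity) (fun d => ?_) ((h t₁ τ).mul_left C)
  have h4 : (d 1 : ℝ) / P.p * y ^ d 1 ≤ C * ((y + 1) / 2) ^ d 1 := by
    have h5 := hC (d 1)
    rw [div_pow, ← mul_div_assoc, div_le_iff₀ (by positivity)] at h5
    refine le_trans ?_ h5
    gcongr
    exact div_le_self (by positivity) hp
  simp only [RingHom.id_apply, HFam_coeff_un, thS, PowerSeries.coeff_mk, norm_mul, norm_div,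
    Complex.norm_natCast, h3]
  calc (d 1 : ℝ) / P.p * ‖PowerSeries.coeff (d 1) (b (d 0))‖ * (‖P.sv t₁‖ ^ d 0 * y ^ d 1)
      = ‖PowerSeries.coeff (d 1) (b (d 0))‖ * ‖P.sv t₁‖ ^ d 0 * ((d 1 : ℝ) / P.p * y ^ d 1) := by
        ring
    _ ≤ ‖PowerSeries.coeff (d 1) (b (d 0))‖ * ‖P.sv t₁‖ ^ d 0 * (C * ((y + 1) / 2) ^ d 1) := by
        gcongr
    _ = _ := by ring

theorem HFam_Ab_lser (n μ : ℕ) {b : ℕ → PowerSeries ℂ} (h : HFam_Ab P b) :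
    HFam_Ab P fun m => P.Lser n μ (b m) := by
  induction μ with
  | zero => exact h
  | succ μ ih =>
    have c1 := (P.cv_C (-1)).mul ((P.cv_S4.mul P.cv_S6).mul P.cv_SD)
    have c2 := (((P.cv_S4.mul P.cv_S6).mul (P.cv_C ((n + 2 * μ : ℕ) : ℂ))).mul P.cv_SD.thS).sub
      (((P.cv_C (μ : ℂ)).mul ((P.cv_S4.pow 3).add (P.cv_S6.pow 2))).mul P.cv_SD)
    have h1 := HFam_Ab_add (HFam_Ab_mul c1 (HFam_Ab_thS ih)) (HFam_Ab_mul c2 ih)
    refine Eq.mp (congrArg (HFam_Ab P) (funext fun m => ?_)) h1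
    rw [Lser, map_natCast, map_natCast, map_neg, map_one]
    ring

theorem Fam.hol {A : Subring ℂ} {n : ℕ} {f : P.GG → ℍ → ℍ → ℂ} {a : P.GG → PS}
    (h : P.Fam A n f a) (γ : P.GG) (t₁ : ℍ) : Hol (f γ t₁) := by
  have h1 := (P.hol_ev (h.ab γ)).2 t₁
  have h2 : f γ t₁ = fun t₂ => ev (RingHom.id ℂ) (a γ) (P.sv t₁) (P.sv t₂) /
      (Dl t₁ * Dl t₂) ^ n := by
    funext t₂
    rw [← h.val, mul_div_cancel_right₀ _
      (pow_ne_zero _ (mul_ne_zero (Dl_ne_zero t₁) (Dl_ne_zero t₂)))]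
  rw [h2]
  exact DifferentiableOn.div h1 ((Dl_hol.const_mul (Dl t₁)).pow n) fun z _ =>
    pow_ne_zero _ (mul_ne_zero (Dl_ne_zero t₁) (Dl_ne_zero _))

theorem gj_hol (h : P.IsF0 c) (hp : P.Pos c) (hX : X.det = P.m) (t₁ : ℍ) : Hol (P.gj c X t₁) := by
  exact (gf_hol h hp hX t₁).const_mul _

/-- The constant in front of the integral product. -/
def HFam_cst (P : Par) (c : P.D → ℤ → ℤ) (X : P.MF) : ℂ :=
  (P.p : ℂ) ^ (12 * P.p * (-P.cp c).toNat) * P.CC c X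

theorem HFam_cst_nat (c : P.D → ℤ → ℤ) (X : P.MF) : ∃ n : ℕ, HFam_cst P c X = n := by
  rw [HFam_cst, CC]
  split_ifs
  · have h1 : 0 ≤ ((-P.cp c).toNat : ℤ) + P.cp c := by omega
    obtain ⟨n, hn⟩ := Int.eq_ofNat_of_zero_le
      (show 0 ≤ ((12 * P.p * (-P.cp c).toNat : ℕ) : ℤ) + 12 * P.p * P.cp c by
        have h2 : (0 : ℤ) ≤ 12 * P.p * (((-P.cp c).toNat : ℤ) + P.cp c) := by positivity
        push_cast
        linarith)
    exact ⟨P.p ^ n, by rw [← zpow_natCast, ← zpow_add₀ P.p_ne, hn, zpow_natCast, Nat.cast_pow]⟩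
  · exact ⟨_, by rw [mul_one, Nat.cast_pow]⟩

theorem HFam_cst_gal (d : P.Fˣ) (X : P.MF) :
    HFam_cst P c (P.tw (P.diagG (P.dg d)) X) = HFam_cst P c X := by
  have h1 := GFam_cst_gal (c := c) d X
  rw [GFam_cst, GFam_cst] at h1
  rw [HFam_cst, HFam_cst, mul_left_cancel₀ (zpow_ne_zero _ P.p_ne) h1]

/-- The cofactor of the product. -/
def HFam_b (P : Par) (c : P.D → ℤ → ℤ) (X : P.MF) : PS :=
  MvPowerSeries.C (HFam_cst P c X) *
    (in1 (P.es fun n => dlc (n + 1)) * in2 (P.es fun n => dlc (n + 1))) ^ (P.KK c).toNat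

theorem HFam_b_mem (X : P.MF) (A : Subring ℂ) : InA A (HFam_b P c X) := by
  obtain ⟨n, hn⟩ := HFam_cst_nat c X
  have h1 := inA_in (A := A) (P.es_mem (fun n => dlc (n + 1)) A)
  rw [HFam_b, hn, map_natCast]
  exact (inA A).mul_mem (natCast_mem _ n) ((inA A).pow_mem ((inA A).mul_mem h1.1 h1.2) _)

theorem HFam_b_ab (X : P.MF) (t₁ t₂ : ℍ) :
    Ab (RingHom.id ℂ) (HFam_b P c X) (P.sv t₁) (P.sv t₂) ∧
      ev (RingHom.id ℂ) (HFam_b P c X) (P.sv t₁) (P.sv t₂) = HFam_cst P c X *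
        (Dl t₁ / P.sv t₁ ^ P.p * (Dl t₂ / P.sv t₂ ^ P.p)) ^ (P.KK c).toNat := by
  obtain ⟨⟨a1, e1⟩, a2, e2⟩ := ab_in_c (GFam_dl P) t₁ t₂
  obtain ⟨a3, e3⟩ := a1.mul a2
  obtain ⟨a4, e4⟩ := a3.pow (P.KK c).toNat
  obtain ⟨a5, e5⟩ := ab_C (RingHom.id ℂ) (HFam_cst P c X) (P.sv t₁) (P.sv t₂)
  obtain ⟨a6, e6⟩ := a5.mul a4
  exact ⟨a6, by rw [HFam_b, e6, e5, e4, e3, e1, e2, RingHom.id_apply]⟩

theorem HFam_b_map (X : P.MF) (s : ℂ →+* ℂ) :
    MvPowerSeries.map s (HFam_b P c X) = HFam_b P c X := by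
  obtain ⟨n, hn⟩ := HFam_cst_nat c X
  rw [HFam_b, hn, map_natCast, map_mul, map_pow, map_mul, map_natCast, (map_in s _).1,
    (map_in s _).2]
  simp only [map_es]

theorem gj_fam (h : P.IsF0 c) (hp : P.Pos c) (hX : X.det = P.m) : ∃ a : P.GG → PS,
    ∀ A : Subring ℂ, P.zp 1 ∈ A →
      P.Fam A (P.KK c).toNat (fun γ => P.gj c (P.tw γ X)) a ∧
        ∀ γ, ∃ b, InA A b ∧ a γ = P.Pf c (P.tw γ X) * b := by
  have hd : ∀ γ, (P.tw γ X).det = P.m := fun γ => (P.det_tw γ X).trans hX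
  refine ⟨fun γ => P.Ps c (P.tw γ X) * HFam_b P c (P.tw γ X), fun A hA =>
    ⟨⟨fun γ => (inA A).mul_mem (inA_Ps c _ hA) (HFam_b_mem _ A),
      fun γ t₁ t₂ => ((ab_Ps h hp (hd γ) t₁ t₂).mul (HFam_b_ab _ t₁ t₂).1).1,
      fun γ t₁ t₂ => ?_, fun γ g₁ g₂ t₁ t₂ => ?_, fun s d hs γ => ?_⟩,
    fun γ => ⟨_, (inA A).mul_mem (P.inA_Us _ hA) (HFam_b_mem (P.tw γ X) A),
      mul_assoc _ _ _⟩⟩⟩
  · obtain ⟨n, hn⟩ := Int.eq_ofNat_of_zero_le (KK_nonneg h hp)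
    have h1 := P.sv_ne_zero t₁
    have h2 := P.sv_ne_zero t₂
    rw [((ab_Ps h hp (hd γ) t₁ t₂).mul (HFam_b_ab _ t₁ t₂).1).2, (HFam_b_ab _ t₁ t₂).2, gj, gf,
      HFam_cst, hn, Int.toNat_natCast, ← Nat.cast_mul, zpow_neg, zpow_natCast, pow_mul _ P.p n,
      mul_pow, mul_pow, mul_pow, mul_pow, div_pow, div_pow]
    field_simp
  · rw [gj, gj, gf_smul h hp (hd γ), tw_mul]
  · rw [tw_mul, Ps_gal c _ s d hs, map_mul, HFam_b_map, HFam_b, HFam_b, HFam_cst_gal]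

/-- The integral operator on the second variable. -/
def HFam_op (lam : ℕ → ℕ → ℤ) (a : PS) : PS := fun d =>
  ∑ N' ∈ Finset.range (d 1 + 1), (lam (d 1) N' : ℂ) * MvPowerSeries.coeff (ixx (d 0) N') a

theorem HFam_coeff_op (lam : ℕ → ℕ → ℤ) (a : PS) (d : Fin 2 →₀ ℕ) :
    MvPowerSeries.coeff d (HFam_op lam a) =
      ∑ N' ∈ Finset.range (d 1 + 1), (lam (d 1) N' : ℂ) * MvPowerSeries.coeff (ixx (d 0) N') a :=
  rfl

theorem HFam_op_mem (lam : ℕ → ℕ → ℤ) {A : Subring ℂ} {a : PS} (h : InA A a) :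
    InA A (HFam_op lam a) := fun d => by
  rw [HFam_coeff_op]
  exact sum_mem fun N' _ => mul_mem (intCast_mem _ _) (h _)

theorem HFam_op_map (lam : ℕ → ℕ → ℤ) (s : ℂ →+* ℂ) (a : PS) :
    MvPowerSeries.map s (HFam_op lam a) = HFam_op lam (MvPowerSeries.map s a) := by
  ext d
  rw [MvPowerSeries.coeff_map, HFam_coeff_op, HFam_coeff_op, map_sum]
  refine Finset.sum_congr rfl fun N' _ => ?_
  rw [map_mul, map_intCast, MvPowerSeries.coeff_map]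

theorem HFam_op_gs (lam : ℕ → ℕ → ℤ) {K : Type} [NormedField K] [IsUltrametricDist K]
    {ι : ℂ →+* K} {a : PS} {x y B : ℝ} (hx : 0 ≤ x) (hy : 0 ≤ y) (hy1 : y ≤ 1)
    (h : Gs ι a x y B) : Gs ι (HFam_op lam a) x y B := fun d => by
  obtain ⟨N', hN', h1⟩ := IsUltrametricDist.exists_norm_finsetSum_le_of_nonempty
    (t := Finset.range (d 1 + 1)) ⟨0, by simp⟩
    fun N' => ι ((lam (d 1) N' : ℂ) * MvPowerSeries.coeff (ixx (d 0) N') a)
  have h2 : N' ≤ d 1 := Nat.lt_succ_iff.1 (Finset.mem_range.1 hN')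
  have h3 := h (ixx (d 0) N')
  rw [ixx_zero, ixx_one] at h3
  rw [HFam_coeff_op, map_sum]
  refine le_trans ?_ h3
  refine mul_le_mul (h1.trans ?_) ?_ (by positivity) (norm_nonneg _)
  · rw [map_mul, map_intCast, norm_mul]
    exact mul_le_of_le_one_left (norm_nonneg _) (IsUltrametricDist.norm_intCast_le_one K _)
  · exact mul_le_mul_of_nonneg_left (pow_le_pow_of_le_one hy hy1 h2) (by positivity)

section

variable {n μ : ℕ} {lam : ℕ → ℕ → ℤ} (hl : ∀ (b : PowerSeries ℂ) (N : ℕ),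
    (P.p : ℂ) ^ (2 * μ) * PowerSeries.coeff N (P.Lser n μ b) =
      μ.factorial * ∑ N' ∈ Finset.range (N + 1), (lam N N' : ℂ) * PowerSeries.coeff N' b)

include hl

theorem HFam_lam (b : PowerSeries ℂ) (N : ℕ) :
    (P.p : ℂ) ^ (2 * μ) / μ.factorial * PowerSeries.coeff N (P.Lser n μ b) =
      ∑ N' ∈ Finset.range (N + 1), (lam N N' : ℂ) * PowerSeries.coeff N' b := by
  have h1 : (μ.factorial : ℂ) ≠ 0 := by exact_mod_cast μ.factorial_ne_zero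
  rw [div_mul_eq_mul_div, hl, mul_div_cancel_left₀ _ h1]

theorem HFam_op_ab {a : PS} (h : ∀ t₁ t₂ : ℍ, Ab (RingHom.id ℂ) a (P.sv t₁) (P.sv t₂))
    (t₁ t₂ : ℍ) : Ab (RingHom.id ℂ) (HFam_op lam a) (P.sv t₁) (P.sv t₂) := by
  have h1 : HFam_Ab P fun m => row m a := fun t₁ t₂ => by
    rw [HFam_un_row]
    exact h t₁ t₂
  have h2 := HFam_Ab_mul (P.cv_C ((P.p : ℂ) ^ (2 * μ) / μ.factorial)) (HFam_Ab_lser n μ h1) t₁ t₂
  refine Eq.mp (congrArg (fun u => Ab (RingHom.id ℂ) u (P.sv t₁) (P.sv t₂)) ?_) h2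
  ext d
  rw [HFam_coeff_un, HFam_coeff_op, PowerSeries.coeff_C_mul, HFam_lam hl]
  simp only [row, PowerSeries.coeff_mk]

omit hl in
theorem HFam_col {a : PS} {s t : ℂ} (h : Ab (RingHom.id ℂ) a s t) (ht : t ≠ 0) :
    (∀ N, Summable fun m => MvPowerSeries.coeff (ixx m N) a * s ^ m) ∧
      HasSum (fun N => (∑' m, MvPowerSeries.coeff (ixx m N) a * s ^ m) * t ^ N)
        (ev (RingHom.id ℂ) a s t) := by
  obtain ⟨h1, h2⟩ := h.hasSum_snd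
  simp only [RingHom.id_apply] at h1 h2
  refine ⟨fun N => (summable_mul_right_iff (pow_ne_zero N ht)).1 (h1 N), ?_⟩
  simpa only [tsum_mul_right] using h2

theorem HFam_op_val {a : PS} (h : ∀ t₁ t₂ : ℍ, Ab (RingHom.id ℂ) a (P.sv t₁) (P.sv t₂))
    (t₁ : ℍ) {g : ℍ → ℂ}
    (hg : ∀ t₂, g t₂ * Dl t₂ ^ n = ev (RingHom.id ℂ) a (P.sv t₁) (P.sv t₂)) (t₂ : ℍ) :
    P.Hop μ g t₂ * Dl t₂ ^ (n + 2 * μ) =
      ev (RingHom.id ℂ) (HFam_op lam a) (P.sv t₁) (P.sv t₂) := by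
  have h1 : P.Cv (PowerSeries.mk fun N => ∑' m, MvPowerSeries.coeff (ixx m N) a * P.sv t₁ ^ m)
      fun τ => g τ * Dl τ ^ n := fun τ => by
    simp only [PowerSeries.coeff_mk, hg]
    exact (HFam_col (h t₁ τ) (P.sv_ne_zero τ)).2
  have h2 := (h1.lser μ t₂).mul_left ((P.p : ℂ) ^ (2 * μ) / μ.factorial)
  have h3 := (HFam_col (HFam_op_ab hl h t₁ t₂) (P.sv_ne_zero t₂)).2
  have h4 := (HFam_col (h t₁ t₂) (P.sv_ne_zero t₂)).1
  rw [Hop, mul_assoc]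
  refine h2.unique (Eq.mp (congrArg (fun u => HasSum u _) (funext fun N => ?_)) h3)
  rw [← mul_assoc, HFam_lam hl]
  congr 1
  simp only [HFam_coeff_op, ixx_zero, ixx_one, PowerSeries.coeff_mk, Finset.sum_mul, mul_assoc]
  rw [Summable.tsum_finsetSum fun N' _ => (h4 N').mul_left _]
  exact Finset.sum_congr rfl fun N' _ => tsum_mul_left

end

theorem hop_fam (P : Par) (n μ : ℕ) : ∃ H : PS → PS,
    (∀ A f a, P.Fam A n f a →
      P.Fam A (n + 2 * μ) (fun γ t₁ => P.Hop μ (f γ t₁)) fun γ => H (a γ)) ∧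
    ∀ (K : Type) [NormedField K] [IsUltrametricDist K] (ι : ℂ →+* K) (a : PS) (x y B : ℝ),
      0 ≤ x → x ≤ 1 → 0 ≤ y → y ≤ 1 → Gs ι a x y B → Gs ι (H a) x y B := by
  obtain ⟨lam, hl⟩ := P.lam n μ
  refine ⟨fun a => HFam_op lam a * in1 P.dls ^ (2 * μ), fun A f a h => ⟨fun γ => ?_,
    fun γ t₁ t₂ => ?_, fun γ t₁ t₂ => ?_, fun γ g₁ g₂ t₁ t₂ => ?_, fun s d hs γ => ?_⟩,
    fun K _ _ ι a x y B hx hx1 hy hy1 h => ?_⟩
  · exact (inA A).mul_mem (HFam_op_mem lam (h.mem γ)) ((inA A).pow_mem (FamA_inA_dls P A).1 _)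
  · exact ((HFam_op_ab hl (h.ab γ) t₁ t₂).mul
      ((ab_in_c (FamA_dls P) t₁ t₂).1.1.pow _).1).1
  · obtain ⟨⟨a1, e1⟩, -⟩ := ab_in_c (FamA_dls P) t₁ t₂
    have h1 := HFam_op_val hl (h.ab γ) t₁ (g := fun τ => Dl t₁ ^ n * f γ t₁ τ)
      (fun τ => by rw [← h.val]; ring) t₂
    rw [((HFam_op_ab hl (h.ab γ) t₁ t₂).mul (a1.pow _).1).2, (a1.pow _).2, e1, ← h1, Hop, Hop,
      Lop_const_mul (h.hol γ t₁)]
    ring
  · have h1 : f (γ * P.rG g₁ g₂) t₁ = fun τ => f γ (g₁ • t₁) (g₂ • τ) :=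
      funext fun τ => h.geo γ g₁ g₂ t₁ τ
    simp only [Hop, h1, Lop_smul (h.hol γ (g₁ • t₁))]
  · simp only [h.gal s d hs γ, map_mul, map_pow, HFam_op_map, (FamA_map_dls P _).1]
  · have h1 := (HFam_op_gs lam hx hy hy1 h).mul
      (gs_of_inA (ι := ι) ((inA _).pow_mem (FamA_inA_dls P (Ai ι)).1 (2 * μ)) hx hx1 hy hy1) hx hy
    rwa [mul_one] at h1

end Par

end

end Pool.Agent.P.MP_a60a76_nt.Sz
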