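import Pool.Agent.P.MP_a60a76_nt.Sz.IgB
import Pool.Agent.P.MP_a60a76_nt.Sz.CoC

namespace Pool.Agent.P.MP_a60a76_nt.Sz

open UpperHalfPlane hiding J
open MeasureTheory SP
open scoped MatrixGroups UpperHalfPlane Matrix Modular Topology Classical ArithmeticFunction.sigma

noncomputable section

/-! An integral function which vanishes at a point is small at nearby points. -/

namespace Par

variable {P : Par} {K : Type} [NormedField K] [IsUltrametricDist K] {ι : ℂ →+* K}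
  {f : ℍ → ℍ → ℂ} {t s t₁ t₂ s₁ s₂ : ℍ}

theorem L2_int {x y : ℂ} (hx : ‖ι x‖ ≤ 1) (h : ‖ι (x - y)‖ < 1) : ‖ι y‖ ≤ 1 := by
  have e : ι y = ι x + -ι (x - y) := by rw [map_sub]; ring
  rw [e]
  exact (IsUltrametricDist.norm_add_le_max _ _).trans (max_le hx (by rw [norm_neg]; exact h.le))

theorem L2_ig (hp : ‖(P.p : K)‖ = 1) (h6 : ‖(6 : K)‖ = 1) (o : Option (Option (Fin 2 → P.F))) :
    (P.Ig (Ai ι) fun t _ => (P.co t).ts o) ∧ P.Ig (Ai ι) fun _ t => (P.co t).ts o := by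
  obtain ⟨a, ha⟩ := P.tf_fam o
  have h := (ha (Ai ι) (wc_mem ι hp h6)).ig 1
  simpa only [tf_one] using h

theorem L2_sim (hp : ‖(P.p : K)‖ = 1) (h6 : ‖(6 : K)‖ = 1) (ht : ‖ι (J t)‖ ≤ 1)
    (hs : ‖ι (J s)‖ ≤ 1) (h : ∀ o, ‖ι ((P.co t).ts o - (P.co s).ts o)‖ < 1) :
    (P.co t).Sim (P.co s) ι :=
  Co.sim_of_ts (co_itg hp h6 ht) (co_itg hp h6 hs) (co_sep hp ht).norm_d h

/-- A pair of matrices which is congruent to the identity at a good point comes from the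
stabiliser. -/
theorem L2_stab (hp : ‖(P.p : K)‖ = 1) (h6 : ‖(6 : K)‖ = 1) (h₁ : Gd ι s₁) (h₂ : Gd ι s₂)
    (e₁ : (P.co t₁).Sim (P.co s₁) ι) (e₂ : (P.co t₂).Sim (P.co s₂) ι) {g₁ g₂ : SL(2, ℤ)}
    (h : ∀ f, P.Ig (Ai ι) f → ‖ι (f t₁ t₂ - f (g₁ • s₁) (g₂ • s₂))‖ < 1) :
    ∃ g₁' g₂' : SL(2, ℤ), g₁' • s₁ = s₁ ∧ g₂' • s₂ = s₂ ∧ red P.p g₁ = red P.p g₁' ∧
      red P.p g₂ = red P.p g₂' := by
  have a₁ : (P.co t₁).Sim (P.co (g₁ • s₁)) ι :=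
    L2_sim hp h6 (sim_J hp h6 h₁.1 e₁).1 (h₁.smul g₁).1 fun o => h _ (L2_ig hp h6 o).1
  have a₂ : (P.co t₂).Sim (P.co (g₂ • s₂)) ι :=
    L2_sim hp h6 (sim_J hp h6 h₂.1 e₂).1 (h₂.smul g₂).1 fun o => h _ (L2_ig hp h6 o).2
  obtain ⟨g₁', b₁, c₁⟩ := gd_stab hp h6 h₁ (e₁.symm.trans a₁)
  obtain ⟨g₂', b₂, c₂⟩ := gd_stab hp h6 h₂ (e₂.symm.trans a₂)
  exact ⟨g₁', g₂', b₁, b₂, c₁, c₂⟩

theorem exists_sim (hp : ‖(P.p : K)‖ = 1) (h6 : ‖(6 : K)‖ = 1) (ht : ‖ι (J t)‖ ≤ 1)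
    (h : ‖ι (J t - J s)‖ < 1) : ∃ g : SL(2, ℤ), (P.co t).Sim (P.co (g • s)) ι := by
  have hs : ‖ι (J s)‖ ≤ 1 := L2_int ht h
  obtain ⟨g₁, g₂, hg⟩ := P.exists_cg ht ht h h
  refine ⟨g₁, L2_sim hp h6 ht (by rwa [SP.J_smul]) fun o => ?_⟩
  exact hg _ (L2_ig hp h6 o).1

theorem cg_of_sim (hp : ‖(P.p : K)‖ = 1) (h6 : ‖(6 : K)‖ = 1) (h₁ : Gd ι s₁) (h₂ : Gd ι s₂)
    (e₁ : (P.co t₁).Sim (P.co s₁) ι) (e₂ : (P.co t₂).Sim (P.co s₂) ι) (hf : P.Ig (Ai ι) f) :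
    ‖ι (f t₁ t₂ - f s₁ s₂)‖ < 1 := by
  obtain ⟨a₁, b₁⟩ := sim_J hp h6 h₁.1 e₁
  obtain ⟨a₂, b₂⟩ := sim_J hp h6 h₂.1 e₂
  obtain ⟨g₁, g₂, hg⟩ := P.exists_cg a₁ a₂ b₁ b₂
  obtain ⟨g₁', g₂', c₁, c₂, d₁, d₂⟩ := L2_stab hp h6 h₁ h₂ e₁ e₂ hg
  have h := hg f hf
  rwa [hf.congr_red d₁ d₂, c₁, c₂] at h

/-- The conjugates which reduce to the same point vanish to the same order. -/
theorem L2_van (hp : ‖(P.p : K)‖ = 1) (h6 : ‖(6 : K)‖ = 1) (h₁ : Gd ι s₁) (h₂ : Gd ι s₂)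
    {x : P.SS} (hx : ∀ f, P.Ig (Ai ι) f → ‖ι (P.cj x f s₁ s₂ - f s₁ s₂)‖ < 1)
    (hf : P.Ig (Ai ι) f) {ν : ℕ} (hv : Van ν f s₁ s₂) : Van ν (P.cj x f) s₁ s₂ := by
  obtain ⟨g₁, g₂, c₁, c₂, d₁, d₂⟩ := L2_stab hp h6 h₁ h₂ (Co.Sim.refl _ ι) (Co.Sim.refl _ ι)
    (g₁ := P.lf x.1) (g₂ := P.lf x.2) fun f hf => by
      have h := hx f hf
      rwa [← norm_neg, ← map_neg, neg_sub] at h
  have e : P.cj x f = fun t₁ t₂ => f (g₁ • t₁) (g₂ • t₂) := by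
    funext t₁ t₂
    exact hf.congr_red d₁ d₂ t₁ t₂
  rw [e]
  exact Van.smul g₁ g₂ (by rwa [c₁, c₂])

/-- The estimate for a function which is a unit at the other conjugate points. -/
theorem L2_core (hp : ‖(P.p : K)‖ = 1) (h6 : ‖(6 : K)‖ = 1) (h₁ : Gd ι s₁) (h₂ : Gd ι s₂)
    (e₁ : (P.co t₁).Sim (P.co s₁) ι) (e₂ : (P.co t₂).Sim (P.co s₂) ι) {r : ℝ} (hr : r ≤ 1)
    (r₁ : ‖ι (J t₁ - J s₁)‖ ≤ r) (r₂ : ‖ι (J t₂ - J s₂)‖ ≤ r) (hf : P.Ig (Ai ι) f) {ν : ℕ}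
    (hν : ν ≠ 0) (hv : Van ν f s₁ s₂)
    (hu : ∀ x : P.SS, (∃ f, P.Ig (Ai ι) f ∧ ¬ ‖ι (P.cj x f s₁ s₂ - f s₁ s₂)‖ < 1) →
      ‖ι (P.cj x f s₁ s₂)‖ = 1) : ‖ι (f t₁ t₂)‖ ^ 3 ≤ r ^ ν := by
  have hr0 : 0 ≤ r := (norm_nonneg _).trans r₁
  let T : Finset P.SS := Finset.univ.filter fun x =>
    ∀ f, P.Ig (Ai ι) f → ‖ι (P.cj x f s₁ s₂ - f s₁ s₂)‖ < 1
  have hT : ∀ x ∈ T, Van ν (P.cj x f) s₁ s₂ := fun x hx =>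
    L2_van hp h6 h₁ h₂ (Finset.mem_filter.1 hx).2 hf hv
  have hc : ∀ x : P.SS, ‖ι (P.cj x f t₁ t₂ - P.cj x f s₁ s₂)‖ < 1 := fun x =>
    cg_of_sim hp h6 h₁ h₂ e₁ e₂ (hf.cj x)
  have h := root_small (fun x : P.SS => ι (P.cj x f t₁ t₂)) T (R := r ^ ν) (pow_nonneg hr0 _)
    (fun x hx => ?_) (fun x hx => ?_) (fun k _ => ?_) 1 ?_
  · rwa [hf.cj_one] at h
  · have h1 : ‖ι (P.cj x f s₁ s₂)‖ = 1 := by
      refine hu x ?_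
      by_contra hn
      refine hx (Finset.mem_filter.2 ⟨Finset.mem_univ _, fun f hf => ?_⟩)
      by_contra hn'
      exact hn ⟨f, hf, hn'⟩
    refine CoC_near h1 ?_
    have h2 := hc x
    rwa [← norm_neg, ← map_neg, neg_sub] at h2
  · have h2 := hc x
    rwa [(hT x hx).eq_zero hν, sub_zero] at h2
  · obtain ⟨a, b⟩ := hf.sy (Fintype.card P.SS - T.card + k)
    obtain ⟨n, Q, hQ, hq⟩ := a.poly b
    have hk : Van (ν * k) (P.sy (Fintype.card P.SS - T.card + k) f) s₁ s₂ :=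
      van_esymm (F := fun x => P.cj x f) T (fun x => (hf.cj x).van_zero s₁ s₂) hT k
    have h3 := line_le (ι := ι) hQ hq hk h₁.1 h₂.1 hr r₁ r₂
    rw [← pow_mul]
    simpa only [sy, map_sum, map_prod] using h3
  · refine Finset.mem_filter.2 ⟨Finset.mem_univ _, fun f hf => ?_⟩
    rw [hf.cj_one, sub_self, map_zero, norm_zero]
    exact one_pos

theorem l2 (hp : ‖(P.p : K)‖ = 1) (h6 : ‖(6 : K)‖ = 1) (h₁ : Gd ι s₁) (h₂ : Gd ι s₂)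
    (e₁ : (P.co t₁).Sim (P.co s₁) ι) (e₂ : (P.co t₂).Sim (P.co s₂) ι) {r : ℝ} (hr : r ≤ 1)
    (r₁ : ‖ι (J t₁ - J s₁)‖ ≤ r) (r₂ : ‖ι (J t₂ - J s₂)‖ ≤ r) (hf : P.Ig (Ai ι) f) {ν : ℕ}
    (hv : Van ν f s₁ s₂) : ‖ι (f t₁ t₂)‖ ^ 3 ≤ r ^ ν := by
  have a₁ := (sim_J hp h6 h₁.1 e₁).1
  have a₂ := (sim_J hp h6 h₂.1 e₂).1
  rcases eq_or_ne ν 0 with rfl | hν
  · rw [pow_zero]
    exact pow_le_one₀ (norm_nonneg _) (hf.bound a₁ a₂)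
  obtain ⟨h, hh, h0, hu⟩ := P.exists_sep (ι := ι) h₁.1 h₂.1
  have hv1 : Van 1 h s₁ s₂ := hh.van_one h0
  have b₁ := L2_core hp h6 h₁ h₂ e₁ e₂ hr r₁ r₂ hh one_ne_zero hv1 hu
  obtain ⟨c, hc, hcu⟩ := avoid (ι := ι) (Finset.univ.filter fun x : P.SS =>
      ∃ f, P.Ig (Ai ι) f ∧ ¬ ‖ι (P.cj x f s₁ s₂ - f s₁ s₂)‖ < 1)
    (fun x => P.cj x f s₁ s₂) (fun x => P.cj x h s₁ s₂ ^ ν)
    (fun x _ => (hf.cj x).bound h₁.1 h₂.1)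
    (fun x _ => ((hh.cj x).pow ν).bound h₁.1 h₂.1)
    (fun x hx => Or.inr (by rw [map_pow, norm_pow, hu x (Finset.mem_filter.1 hx).2, one_pow]))
  have hF : P.Ig (Ai ι) fun t₁ t₂ => f t₁ t₂ + c * h t₁ t₂ ^ ν :=
    hf.add ((P.ig_const (A := Ai ι) hc).mul (hh.pow ν))
  have hvF : Van ν (fun t₁ t₂ => f t₁ t₂ + c * h t₁ t₂ ^ ν) s₁ s₂ := by
    have h2 := hv1.pow ν
    rw [one_mul] at h2
    exact hv.add (h2.const_mul c)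
  have b₂ := L2_core hp h6 h₁ h₂ e₁ e₂ hr r₁ r₂ hF hν hvF fun x hx =>
    hcu x (Finset.mem_filter.2 ⟨Finset.mem_univ _, hx⟩)
  have b₃ : ‖-ι (c * h t₁ t₂ ^ ν)‖ ^ 3 ≤ r ^ ν := by
    rw [norm_neg, map_mul, map_pow, norm_mul, norm_pow]
    calc (‖ι c‖ * ‖ι (h t₁ t₂)‖ ^ ν) ^ 3 ≤ (1 * ‖ι (h t₁ t₂)‖ ^ ν) ^ 3 := by gcongr
      _ = (‖ι (h t₁ t₂)‖ ^ 3) ^ ν := by rw [one_mul, ← pow_mul, ← pow_mul, mul_comm]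
      _ ≤ r ^ ν := by
        rw [pow_one] at b₁
        gcongr
  have e : ι (f t₁ t₂) = ι (f t₁ t₂ + c * h t₁ t₂ ^ ν) + -ι (c * h t₁ t₂ ^ ν) := by
    rw [map_add]; ring
  have b₄ := IsUltrametricDist.norm_add_le_max (ι (f t₁ t₂ + c * h t₁ t₂ ^ ν))
    (-ι (c * h t₁ t₂ ^ ν))
  rw [← e] at b₄
  rcases le_max_iff.1 b₄ with b | b
  · exact (pow_le_pow_left₀ (norm_nonneg _) b 3).trans b₂
  · exact (pow_le_pow_left₀ (norm_nonneg _) b 3).trans b₃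

end Par

end

end Pool.Agent.P.MP_a60a76_nt.Sz
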