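import Pool.Agent.P.MP_a60a76_nt.Sz.Stokes
import Pool.Agent.P.MP_a60a76_nt.Sz.Eta

namespace Pool.Agent.P.MP_a60a76_nt.Sz

open UpperHalfPlane MeasureTheory SP
open scoped MatrixGroups UpperHalfPlane Matrix Modular Topology Classical ArithmeticFunction.sigma

noncomputable section

/-! The regularised lift as a constant term. -/

theorem PhiId_coe {y : ℝ} (hy : 0 < y) (x : ℝ) :
    ((ofComplex (x + y * Complex.I) : ℍ) : ℂ) = x + y * Complex.I := by
  have h : 0 < ((x : ℂ) + y * Complex.I).im := by simpa using hy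
  rw [ofComplex_apply_of_im_pos h]

theorem PhiId_im {y : ℝ} (hy : 0 < y) (x : ℝ) : (ofComplex (x + y * Complex.I) : ℍ).im = y := by
  have := congrArg Complex.im (PhiId_coe hy x)
  simpa using this

theorem PhiId_cont {y : ℝ} (hy : 0 < y) :
    Continuous fun x : ℝ => (ofComplex (x + y * Complex.I) : ℍ) := by
  rw [UpperHalfPlane.isEmbedding_coe.continuous_iff]
  have : (UpperHalfPlane.coe ∘ fun x : ℝ => (ofComplex (x + y * Complex.I) : ℍ)) =
      fun x : ℝ => (x : ℂ) + y * Complex.I := funext fun x => PhiId_coe hy x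
  rw [this]
  fun_prop

theorem PhiId_tendsto_beta {a : ℝ} (ha : 0 < a) :
    Filter.Tendsto (fun T : ℝ => beta (a * T)) Filter.atTop (𝓝 0) := by
  have h1 : Filter.Tendsto (fun T : ℝ => a * T) Filter.atTop Filter.atTop :=
    Filter.tendsto_id.const_mul_atTop ha
  have h2 := (Real.tendsto_exp_neg_atTop_nhds_zero.comp h1).div_atTop h1
  refine squeeze_zero' (Filter.Eventually.of_forall fun T => beta_nonneg _) ?_ h2
  filter_upwards [Filter.eventually_gt_atTop 0] with T hT
  exact beta_le (mul_pos ha hT)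

namespace Par

variable {P : Par} {c : P.D → ℤ → ℤ} {χ : ℍ → ℝ} {t₁ t₂ : ℍ}

theorem PhiId_ne {X : MZ} (hX : P.cX c X ≠ 0) : P.InL X ∧ X ≠ 0 := by
  by_contra hn
  exact hX (if_neg hn)

theorem PhiId_arg (hz : Proper t₁ t₂) {X : MZ} (hX : X ≠ 0) :
    0 < 4 * Real.pi * Rm X t₁ t₂ / P.p ^ 2 := by
  have hp := P.p_pos
  have h0 : 0 < Rm X t₁ t₂ := (Rm_nonneg X t₁ t₂).lt_of_ne' (hz X hX)
  positivity

theorem summable_cX (h : P.IsF 0 c) (hz : Proper t₁ t₂) {T : ℝ} (hT : 1 ≤ T) :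
    Summable fun X : MZ => P.cX c X * beta (4 * Real.pi * T * Rm X t₁ t₂ / P.p ^ 2) := by
  have _ := hz
  obtain ⟨C, hC, hc⟩ := h.coeff_bound
  have hp := P.p_pos
  obtain ⟨b, hb, hbe⟩ : ∃ b : ℝ, 0 < b ∧ b = Real.pi / P.p ^ 2 := ⟨_, by positivity, rfl⟩
  have hs := (summable_Th t₁ t₂ (r := b / (4 * Real.pi)) (by positivity)).mul_left
    (C * Real.exp (C ^ 2 / (2 * b)) / b)
  refine Summable.of_norm_bounded_eventually hs ?_
  refine (finite_Mj_le t₁ t₂ (2 * P.lo c + 1)).subset fun X hX => ?_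
  by_contra hn
  refine hX ?_
  have hM : 2 * (P.lo c : ℝ) + 1 < Mj X t₁ t₂ := not_le.1 hn
  have hlo : (0 : ℝ) ≤ P.lo c := Nat.cast_nonneg _
  by_cases h0 : P.cX c X = 0
  · simp only [Set.mem_ofPred_eq, h0, zero_mul, norm_zero]
    positivity
  have h1 := PhiId_ne h0
  have h3 : X.det ≤ P.lo c := by
    by_contra hn
    refine h0 ?_
    rw [cX, if_pos h1, h.lo_spec _ _ (by omega), Int.cast_zero]
  have h4 : (X.det : ℝ) ≤ P.lo c := by exact_mod_cast h3
  have h5 : Mj X t₁ t₂ = 2 * Rm X t₁ t₂ + X.det := rfl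
  have hd := abs_det_le_Mj X t₁ t₂
  have hR := Rm_nonneg X t₁ t₂
  have h6 : |P.cX c X| ≤ C * Real.exp (C * Real.sqrt (Mj X t₁ t₂)) := by
    rw [cX, if_pos h1]
    refine (hc _ _).trans ?_
    have : ((-X.det : ℤ) : ℝ) ≤ Mj X t₁ t₂ := by
      rw [Int.cast_neg]
      exact (neg_le_abs _).trans hd
    gcongr
  have h7 : b * Mj X t₁ t₂ ≤ 4 * Real.pi * T * Rm X t₁ t₂ / P.p ^ 2 := by
    have e : 4 * Real.pi * T * Rm X t₁ t₂ / P.p ^ 2 = b * (4 * T * Rm X t₁ t₂) := by
      rw [hbe]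
      ring
    rw [e]
    refine mul_le_mul_of_nonneg_left ?_ hb.le
    nlinarith
  have hM0 : 0 < Mj X t₁ t₂ := by linarith
  have h8 : beta (4 * Real.pi * T * Rm X t₁ t₂ / P.p ^ 2) ≤ Real.exp (-(b * Mj X t₁ t₂)) / b := by
    refine ((beta_antitone (mul_pos hb hM0) h7).trans (beta_le (mul_pos hb hM0))).trans ?_
    refine div_le_div_of_nonneg_left (Real.exp_pos _).le hb ?_
    nlinarith
  have h9 : C * Real.sqrt (Mj X t₁ t₂) ≤ C ^ 2 / (2 * b) + b * Mj X t₁ t₂ / 2 := by
    have e := Real.sq_sqrt hM0.le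
    generalize Real.sqrt (Mj X t₁ t₂) = s at e ⊢
    rw [← e, ← sub_nonneg]
    have : C ^ 2 / (2 * b) + b * s ^ 2 / 2 - C * s = (C - b * s) ^ 2 / (2 * b) := by
      field_simp
      ring
    rw [this]
    positivity
  simp only [Set.mem_ofPred_eq]
  rw [Real.norm_eq_abs, abs_mul, abs_of_nonneg (beta_nonneg _)]
  calc |P.cX c X| * beta (4 * Real.pi * T * Rm X t₁ t₂ / P.p ^ 2)
      ≤ C * Real.exp (C ^ 2 / (2 * b) + b * Mj X t₁ t₂ / 2) *
        (Real.exp (-(b * Mj X t₁ t₂)) / b) := by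
        refine mul_le_mul (h6.trans ?_) h8 (beta_nonneg _) (by positivity)
        gcongr
    _ = _ := by
        have e : Real.exp (C ^ 2 / (2 * b) + b * Mj X t₁ t₂ / 2) * Real.exp (-(b * Mj X t₁ t₂)) =
            Real.exp (C ^ 2 / (2 * b)) *
              Real.exp (-(2 * Real.pi * (b / (4 * Real.pi)) * Mj X t₁ t₂)) := by
          rw [← Real.exp_add, ← Real.exp_add]
          congr 1
          field_simp
          ring
        calc _ = C / b * (Real.exp (C ^ 2 / (2 * b) + b * Mj X t₁ t₂ / 2) *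
              Real.exp (-(b * Mj X t₁ t₂))) := by ring
          _ = _ := by rw [e]; ring

theorem PhiId_ct (h : P.IsF 0 c) {X : MZ} (hX : P.InL X) {y : ℝ} (hy : 0 < y) :
    CT y (fun τ => ee ((X.det : ℤ) * τ / (P.p ^ 2 : ℕ)) * P.fn c (P.kap X) τ) =
      c (P.kap X) (-X.det) := by
  have hq := (h.qs (P.kap X)).shift X.det
  rw [hq.ct (pow_pos P.prime.pos 2) (fun τ => ?_) hy, zero_sub]
  rw [h.fn_T, ← P.det_eq_Q hX, coe_T_smul, ← Int.cast_neg, P.psi_int, mul_left_comm, ← mul_assoc,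
    ← ee_add]
  congr 2
  generalize X.det = n
  push_cast
  ring

theorem PhiId_hasSum (h : P.IsF 0 c) (t₁ t₂ : ℍ) {y : ℝ} (hy : 0 < y) :
    HasSum (fun X : MZ => (((if P.InL X then (c (P.kap X) (-X.det) : ℝ) else 0) *
      Bf (0 < X.det ∨ X = 0) (4 * Real.pi * Rm X t₁ t₂ / P.p ^ 2) y : ℝ) : ℂ))
      (CT y (P.pr c (P.ka t₁ t₂))) := by
  haveI : Countable MZ := inferInstanceAs (Countable (Fin 2 → Fin 2 → ℤ))
  have hp := P.p_pos
  have hc : ∀ k, Continuous fun x : ℝ => P.fn c k (ofComplex (x + y * Complex.I)) := fun k =>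
    (c1_of_hol (h.hol k)).1.continuous.comp (PhiId_cont hy)
  obtain ⟨B, hB⟩ := (isCompact_uIcc (a := (0 : ℝ)) (b := 1)).exists_bound_of_continuousOn
    (continuous_pi hc).continuousOn
  have hs := (summable_Bf t₁ t₂ (N := P.p ^ 2) (by positivity) hy).mul_left B
  have key := intervalIntegral.hasSum_integral_of_dominated_convergence (μ := volume) (a := 0)
    (b := 1) (f := fun x : ℝ => P.pr c (P.ka t₁ t₂) (ofComplex (x + y * Complex.I)))
    (F := fun (X : MZ) (x : ℝ) => if P.InL X then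
      (Bf (0 < X.det ∨ X = 0) (4 * Real.pi * Rm X t₁ t₂ / P.p ^ 2) y : ℂ) *
        (ee ((X.det : ℤ) * (ofComplex (x + y * Complex.I) : ℍ) / (P.p ^ 2 : ℕ)) *
          P.fn c (P.kap X) (ofComplex (x + y * Complex.I))) else 0)
    (fun X _ => B * (Real.exp (-(2 * Real.pi * X.det / P.p ^ 2 * y)) *
      |Bf (0 < X.det ∨ X = 0) (4 * Real.pi * Rm X t₁ t₂ / P.p ^ 2) y|)) (fun X => ?_)
    (fun X => Filter.Eventually.of_forall fun x hx => ?_)
    (Filter.Eventually.of_forall fun x _ => hs) intervalIntegrable_const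
    (Filter.Eventually.of_forall fun x _ => ?_)
  · convert key using 2 with X
    · rfl
    · split_ifs with hX
      · rw [intervalIntegral.integral_const_mul, Complex.ofReal_mul, mul_comm]
        congr 1
        exact (PhiId_ct h hX hy).symm
      · simp
    · rfl
  · split_ifs
    · refine Continuous.aestronglyMeasurable (continuous_const.mul (Continuous.mul ?_ (hc _)))
      have := UpperHalfPlane.continuous_coe.comp (PhiId_cont hy)
      exact continuous_ee.comp ((continuous_const.mul this).div_const _)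
    · exact aestronglyMeasurable_const
  · have hB' := hB x (Set.uIoc_subset_uIcc hx)
    have hB0 : 0 ≤ B := (norm_nonneg _).trans hB'
    split_ifs
    · rw [norm_mul, norm_mul, norm_ee, Complex.norm_real, Real.norm_eq_abs, PhiId_coe hy]
      have e : (((X.det : ℤ) : ℂ) * (x + y * Complex.I) / (P.p ^ 2 : ℕ)).im =
          X.det / P.p ^ 2 * y := by
        generalize X.det = n
        have : ((n : ℂ) * (x + y * Complex.I) / (P.p ^ 2 : ℕ)) =
            ((n / P.p ^ 2 : ℝ) : ℂ) * (x + y * Complex.I) := by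
          push_cast
          ring
        rw [this, Complex.im_ofReal_mul]
        simp
      rw [e]
      have h1 := (norm_le_pi_norm (fun k => P.fn c k (ofComplex (x + y * Complex.I)))
        (P.kap X)).trans hB'
      calc _ ≤ |Bf (0 < X.det ∨ X = 0) (4 * Real.pi * Rm X t₁ t₂ / P.p ^ 2) y| *
            (Real.exp (-(2 * Real.pi * (X.det / P.p ^ 2 * y))) * B) := by gcongr
        _ = _ := by
          rw [show 2 * Real.pi * (X.det / P.p ^ 2 * y) = 2 * Real.pi * X.det / P.p ^ 2 * y by ring]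
          ring
    · rw [norm_zero]
      positivity
  · have h1 := hasSum_sum (s := Finset.univ) fun k _ =>
      (P.summable_ka t₁ t₂ k (ofComplex (x + y * Complex.I))).of_norm.hasSum.mul_left
        (P.fn c k (ofComplex (x + y * Complex.I)))
    convert h1 using 2 with X
    · rfl
    · simp only [ind, PhiId_im hy]
      split_ifs with hX
      · rw [Finset.sum_eq_single (P.kap X) (fun k _ hk => by simp [hk.symm]) (by simp),
          if_pos ⟨hX, rfl⟩]
        have e : ((X.det : ℤ) : ℂ) * (ofComplex (x + y * Complex.I) : ℍ) / (P.p ^ 2 : ℕ) =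
            (ofComplex (x + y * Complex.I) : ℍ) * X.det / P.p ^ 2 := by
          generalize X.det = n
          push_cast
          ring
        rw [e]
        ring
      · simp [hX]
    · rfl

theorem PhiId_summable_pos (h : P.IsF 0 c) (hz : Proper t₁ t₂) :
    Summable fun X : MZ => (if 0 < X.det then P.cX c X else 0) *
      beta (4 * Real.pi * Rm X t₁ t₂ / P.p ^ 2) := by
  refine Summable.of_norm_bounded (summable_cX h hz le_rfl).norm fun X => ?_
  rw [mul_one]
  split_ifs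
  · exact le_rfl
  · simp only [zero_mul, norm_zero, norm_nonneg]

theorem PhiId_ct_ka (h : P.IsF0 c) (hz : Proper t₁ t₂) {T : ℝ} (hT : 1 ≤ T) :
    CT T (P.pr c (P.ka t₁ t₂)) =
      (∑' X : MZ, P.cX c X * beta (4 * Real.pi * T * Rm X t₁ t₂ / P.p ^ 2) : ℝ) -
      (∑' X : MZ, (if 0 < X.det then P.cX c X else 0) *
        beta (4 * Real.pi * Rm X t₁ t₂ / P.p ^ 2) : ℝ) := by
  have hT0 : 0 < T := by linarith
  rw [← Complex.ofReal_sub, ← (summable_cX h.toIsF hz hT).tsum_sub (PhiId_summable_pos h.toIsF hz),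
    Complex.ofReal_tsum, ← (PhiId_hasSum h.toIsF t₁ t₂ hT0).tsum_eq]
  refine tsum_congr fun X => ?_
  congr 1
  by_cases hX : X = 0
  · subst hX
    simp [cX, kap, h.zero]
  · rw [Bf_eq_beta _ (PhiId_arg hz hX) hT0, cX]
    have e : 4 * Real.pi * Rm X t₁ t₂ / P.p ^ 2 * T = 4 * Real.pi * T * Rm X t₁ t₂ / P.p ^ 2 := by
      ring
    rw [e]
    by_cases h1 : P.InL X <;> by_cases h2 : 0 < X.det <;> simp [h1, h2, hX, mul_sub]

theorem Phi_eq (hχ : IsChi χ) (h : P.IsF0 c) (hz : Proper t₁ t₂) {T : ℝ} (hT : 2 ≤ T) :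
    P.Phi χ c T t₁ t₂ = CT 1 (P.pr c (P.rr t₁ t₂)) +
      (∑' X : MZ, (if 0 < X.det then P.cX c X else 0) *
        beta (4 * Real.pi * Rm X t₁ t₂ / P.p ^ 2) : ℝ) := by
  have hT0 : 0 < T := by linarith
  obtain ⟨h1, h2, h3⟩ := pr_eta h.toIsF t₁ t₂
  obtain ⟨ρ, hρ, hs, hL⟩ := P.rr_qs t₁ t₂
  have e1 := (h.toIsF.ct_pr hρ hs hL le_rfl one_pos).2
  have e2 := (h.toIsF.ct_pr hρ hs hL le_rfl hT0).2
  have e3 : P.pr c (P.rr t₁ t₂) =
      fun τ => P.pr c (P.ka t₁ t₂) τ - P.pr c (P.eta (P.ka t₁ t₂)) τ := by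
    funext τ
    simp only [pr, rr, mul_sub, Finset.sum_sub_distrib]
  have hk : Continuous (P.pr c (P.ka t₁ t₂)) := continuous_finsetSum _ fun k _ =>
    (c1_of_hol (h.toIsF.hol k)).1.continuous.mul (P.ka_c1 t₁ t₂ k).1.continuous
  have e4 := CT_sub hT0 hk h1.continuous
  rw [← e3, e2, ← e1, PhiId_ct_ka h hz (by linarith)] at e4
  rw [Phi, hχ.stokes h1 h2 h3 hT, e4]
  ring

theorem ct_le_Phi (hχ : IsChi χ) (h : P.IsF0 c) (hp : P.Pos c) (hz : Proper t₁ t₂) :
    (CT 1 (P.pr c (P.rr t₁ t₂))).re ≤ (P.Phi χ c 2 t₁ t₂).re := by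
  rw [Phi_eq hχ h hz le_rfl, Complex.add_re, Complex.ofReal_re, le_add_iff_nonneg_right]
  refine tsum_nonneg fun X => mul_nonneg ?_ (beta_nonneg _)
  rw [cX]
  split_ifs with h1 h2
  · exact_mod_cast hp _ _ (by omega)
  · exact le_rfl
  · exact le_rfl

theorem tendsto_IT (hχ : IsChi χ) (h : P.IsF0 c) (hz : Proper t₁ t₂) :
    Filter.Tendsto (fun T => IT χ T (P.pr c (P.th t₁ t₂))) Filter.atTop
      (𝓝 (P.Phi χ c 2 t₁ t₂)) := by
  have h1 : Filter.Tendsto (fun T : ℝ => ∑' X : MZ,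
      P.cX c X * beta (4 * Real.pi * T * Rm X t₁ t₂ / P.p ^ 2)) Filter.atTop
      (𝓝 (∑' _ : MZ, (0 : ℝ))) := by
    refine tendsto_tsum_of_dominated_convergence (summable_cX h.toIsF hz le_rfl).norm
      (fun X => ?_) ?_
    · by_cases hX : P.cX c X = 0
      · simp [hX]
      · have := (PhiId_tendsto_beta (PhiId_arg (P := P) hz (PhiId_ne hX).2)).const_mul (P.cX c X)
        rw [mul_zero] at this
        refine this.congr fun T => ?_
        congr 2
        ring
    · filter_upwards [Filter.eventually_ge_atTop 1] with T hT X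
      by_cases hX : P.cX c X = 0
      · simp [hX]
      · have ha := PhiId_arg (P := P) hz (PhiId_ne hX).2
        rw [norm_mul, norm_mul, Real.norm_of_nonneg (beta_nonneg _),
          Real.norm_of_nonneg (beta_nonneg _), mul_one]
        refine mul_le_mul_of_nonneg_left (beta_antitone ha ?_) (norm_nonneg _)
        calc _ ≤ 4 * Real.pi * Rm X t₁ t₂ / P.p ^ 2 * T := le_mul_of_one_le_right ha.le hT
          _ = _ := by ring
  rw [tsum_zero] at h1
  have h2 := ((Complex.continuous_ofReal.tendsto 0).comp h1).const_sub (P.Phi χ c 2 t₁ t₂)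
  rw [Complex.ofReal_zero, sub_zero] at h2
  refine h2.congr' ?_
  filter_upwards [Filter.eventually_ge_atTop 2] with T hT
  rw [Phi_eq hχ h hz le_rfl, ← Phi_eq hχ h hz hT, Phi, Function.comp_apply, add_sub_cancel_right]

theorem PhiId_inL (X : MZ) : P.InL X.transpose ↔ P.InL X := by
  simp only [InL, Matrix.transpose_apply]
  tauto

theorem Phi_swap (χ : ℍ → ℝ) (c : P.D → ℤ → ℤ) (T : ℝ) (t₁ t₂ : ℍ) :
    P.Phi χ c T (ModularGroup.S • t₂) (ModularGroup.S • t₁) = P.Phi χ c T t₁ t₂ := by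
  have hk : ∀ X : MZ, P.kap X.transpose = P.kap X := fun X => rfl
  let e : MZ ≃ MZ := Function.Involutive.toPerm Matrix.transpose Matrix.transpose_transpose
  have he : ∀ X : MZ, e X = X.transpose := fun X => rfl
  have h1 : P.th (ModularGroup.S • t₂) (ModularGroup.S • t₁) = P.th t₁ t₂ := by
    funext k τ
    rw [th, th, ← e.tsum_eq]
    simp only [he, ind, hk, PhiId_inL, Matrix.det_transpose, Rm_transpose]
  rw [Phi, Phi, h1, ← e.tsum_eq]
  simp only [he, cX, hk, PhiId_inL, Matrix.det_transpose, Rm_transpose, ne_eq,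
    Matrix.transpose_eq_zero]

end Par

end

end Pool.Agent.P.MP_a60a76_nt.Sz
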