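import Pool.Agent.P.MP_a60a76_nt.Sz.FxA
import Pool.Agent.P.MP_a60a76_nt.Sz.PhiId

namespace Pool.Agent.P.MP_a60a76_nt.Sz

open UpperHalfPlane hiding J
open MeasureTheory SP
open scoped MatrixGroups UpperHalfPlane Matrix Modular Topology Classical ArithmeticFunction.sigma

noncomputable section

/-! Continuity of the regular parts of the theta lift. -/

theorem rm_continuous (X : MZ) : Continuous fun t : ℍ × ℍ => Rm X t.1 t.2 := by
  have h1 := UpperHalfPlane.continuous_coe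
  have h2 := UpperHalfPlane.continuous_im
  have h3 := Complex.continuous_normSq
  unfold Rm
  refine Continuous.div (by fun_prop) (by fun_prop) fun t => ?_
  have := t.1.im_pos
  have := t.2.im_pos
  positivity

/-- The binary form attached to a point. -/
def PsiC_q (t : ℍ) (a b : ℝ) : ℝ := ((a * t.re + b) ^ 2 + a ^ 2 * t.im ^ 2) / t.im

theorem PsiC_q_near (s : ℍ) :
    ∀ᶠ t in 𝓝 s, ∀ a b : ℝ, PsiC_q s a b ≤ 7 / 5 * PsiC_q t a b := by
  have h1 := UpperHalfPlane.continuous_re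
  have h2 := UpperHalfPlane.continuous_im
  have h0 : ∀ t : ℍ, t.im ≠ 0 := fun t => t.im_pos.ne'
  have hs := s.im_pos
  have cA : Continuous fun t : ℍ => 7 / 5 * (1 / t.im) - 1 / s.im :=
    (continuous_const.mul (continuous_const.div h2 h0)).sub continuous_const
  have cB : Continuous fun t : ℍ => 7 / 5 * (t.re / t.im) - s.re / s.im :=
    (continuous_const.mul (h1.div h2 h0)).sub continuous_const
  have cC : Continuous fun t : ℍ =>
      7 / 5 * ((t.re ^ 2 + t.im ^ 2) / t.im) - (s.re ^ 2 + s.im ^ 2) / s.im :=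
    (continuous_const.mul (((h1.pow 2).add (h2.pow 2)).div h2 h0)).sub continuous_const
  have e1 : ∀ᶠ t : ℍ in 𝓝 s, 0 < 7 / 5 * (1 / t.im) - 1 / s.im := by
    refine cA.continuousAt.eventually (lt_mem_nhds ?_)
    have : 0 < 1 / s.im := by positivity
    linarith
  have e2 : ∀ᶠ t : ℍ in 𝓝 s, 0 < (7 / 5 * (1 / t.im) - 1 / s.im) *
      (7 / 5 * ((t.re ^ 2 + t.im ^ 2) / t.im) - (s.re ^ 2 + s.im ^ 2) / s.im) -
      (7 / 5 * (t.re / t.im) - s.re / s.im) ^ 2 := by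
    refine ((cA.mul cC).sub (cB.pow 2)).continuousAt.eventually (lt_mem_nhds ?_)
    have : (7 / 5 * (1 / s.im) - 1 / s.im) *
      (7 / 5 * ((s.re ^ 2 + s.im ^ 2) / s.im) - (s.re ^ 2 + s.im ^ 2) / s.im) -
      (7 / 5 * (s.re / s.im) - s.re / s.im) ^ 2 = 4 / 25 := by
      field_simp
      ring
    simp only [Pi.mul_apply, Pi.sub_apply, Pi.pow_apply]
    rw [this]
    norm_num
  filter_upwards [e1, e2] with t h3 h4 a b
  have e : 7 / 5 * PsiC_q t a b - PsiC_q s a b = (7 / 5 * (1 / t.im) - 1 / s.im) * b ^ 2 +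
      2 * (7 / 5 * (t.re / t.im) - s.re / s.im) * (a * b) +
      (7 / 5 * ((t.re ^ 2 + t.im ^ 2) / t.im) - (s.re ^ 2 + s.im ^ 2) / s.im) * a ^ 2 := by
    unfold PsiC_q
    ring
  generalize 7 / 5 * (1 / t.im) - 1 / s.im = α at *
  generalize 7 / 5 * (t.re / t.im) - s.re / s.im = β at *
  generalize 7 / 5 * ((t.re ^ 2 + t.im ^ 2) / t.im) - (s.re ^ 2 + s.im ^ 2) / s.im = γ at *
  have h5 : 0 ≤ α * (α * b ^ 2 + 2 * β * (a * b) + γ * a ^ 2) := by
    have : α * (α * b ^ 2 + 2 * β * (a * b) + γ * a ^ 2) =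
        (α * b + β * a) ^ 2 + (α * γ - β ^ 2) * a ^ 2 := by ring
    rw [this]
    positivity
  have h6 := nonneg_of_mul_nonneg_right h5 h3
  linarith

theorem PsiC_Mj_re (X : MZ) (t₁ t₂ : ℍ) : Mj X t₁ t₂ =
    (((X 0 0 : ℝ) * t₁.re + X 0 1 - (X 1 0 * t₁.re + X 1 1) * t₂.re) ^ 2 +
      ((X 0 0 : ℝ) * t₁.im - X 1 0 * t₁.im * t₂.re) ^ 2 +
      (((X 1 0 : ℝ) * t₁.re + X 1 1) ^ 2 + (X 1 0 * t₁.im) ^ 2) * t₂.im ^ 2) /
      (2 * t₁.im * t₂.im) := by
  rw [Mj_eq]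
  congr 1
  simp [Complex.normSq_apply]
  ring

theorem PsiC_Mj_left (X : MZ) (t₁ t₂ : ℍ) : Mj X t₁ t₂ =
    (PsiC_q t₁ (X 0 0 - X 1 0 * t₂.re) (X 0 1 - X 1 1 * t₂.re) +
      t₂.im ^ 2 * PsiC_q t₁ (X 1 0) (X 1 1)) / (2 * t₂.im) := by
  have h1 := t₁.im_pos
  have h2 := t₂.im_pos
  rw [PsiC_Mj_re, PsiC_q, PsiC_q]
  field_simp
  ring

theorem PsiC_Mj_right (X : MZ) (t₁ t₂ : ℍ) : Mj X t₁ t₂ =
    (PsiC_q t₂ (X 1 0 * t₁.re + X 1 1) (-(X 0 0 * t₁.re + X 0 1)) +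
      PsiC_q t₂ (X 1 0 * t₁.im) (-(X 0 0 * t₁.im))) / (2 * t₁.im) := by
  have h1 := t₁.im_pos
  have h2 := t₂.im_pos
  rw [PsiC_Mj_re, PsiC_q, PsiC_q]
  field_simp
  ring

theorem Mj_near (s₁ s₂ : ℍ) :
    ∀ᶠ t : ℍ × ℍ in 𝓝 (s₁, s₂), ∀ X : MZ, Mj X s₁ s₂ ≤ 2 * Mj X t.1 t.2 := by
  filter_upwards [(PsiC_q_near s₁).prod_nhds (PsiC_q_near s₂)] with t ht X
  have hs := s₂.im_pos
  have ht1 := t.1.im_pos
  have h1 : Mj X s₁ s₂ ≤ 7 / 5 * Mj X t.1 s₂ := by
    rw [PsiC_Mj_left, PsiC_Mj_left, ← mul_div_assoc]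
    refine div_le_div_of_nonneg_right ?_ (by positivity)
    have a1 := ht.1 (X 0 0 - X 1 0 * s₂.re) (X 0 1 - X 1 1 * s₂.re)
    have a2 := mul_le_mul_of_nonneg_left (ht.1 (X 1 0) (X 1 1)) (sq_nonneg s₂.im)
    linarith
  have h2 : Mj X t.1 s₂ ≤ 7 / 5 * Mj X t.1 t.2 := by
    rw [PsiC_Mj_right, PsiC_Mj_right, ← mul_div_assoc]
    refine div_le_div_of_nonneg_right ?_ (by positivity)
    have a1 := ht.2 (X 1 0 * t.1.re + X 1 1) (-(X 0 0 * t.1.re + X 0 1))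
    have a2 := ht.2 (X 1 0 * t.1.im) (-(X 0 0 * t.1.im))
    linarith
  have h3 := Ka_Mj_nonneg X t.1 t.2
  linarith

theorem beta_continuousOn : ContinuousOn beta (Set.Ioi 0) := by
  have h : ContinuousOn (Bf False 1) (Set.Ioi 0) := fun y hy =>
    (Bf_hasDerivAt False (Or.inr one_pos) hy).continuousAt.continuousWithinAt
  refine h.congr fun y hy => ?_
  rw [Bf_eq_beta False one_pos hy]
  simp

namespace Par

variable {P : Par} {c : P.D → ℤ → ℤ} {χ : ℍ → ℝ} {T : ℝ}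

theorem PsiC_th_term {s₁ s₂ t₁ t₂ : ℍ} {X : MZ} (h : Mj X s₁ s₂ ≤ 2 * Mj X t₁ t₂) (k : P.D)
    (τ : ℍ) {y : ℝ} (hy : y ≤ τ.im) :
    ‖P.ind k X * (ee (τ * X.det / P.p ^ 2) *
      Real.exp (-(4 * Real.pi * τ.im * Rm X t₁ t₂ / P.p ^ 2)))‖ ≤
      Real.exp (-(2 * Real.pi * (y / (2 * P.p ^ 2)) * Mj X s₁ s₂)) := by
  have hp := P.p_pos
  have hτ := τ.im_pos
  have hpi := Real.pi_pos
  refine (P.Ka_norm_le k X _).trans ?_
  rw [norm_mul, P.Ka_norm_ee, Complex.norm_real, Real.norm_eq_abs, abs_of_pos (Real.exp_pos _),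
    ← Real.exp_add]
  refine Real.exp_le_exp.2 ?_
  have h1 : y * Mj X s₁ s₂ ≤ τ.im * (2 * Mj X t₁ t₂) :=
    mul_le_mul hy h (Ka_Mj_nonneg X s₁ s₂) hτ.le
  have h2 := mul_le_mul_of_nonneg_left h1 (show 0 ≤ Real.pi / P.p ^ 2 by positivity)
  have e1 : 2 * Real.pi * (y / (2 * P.p ^ 2)) * Mj X s₁ s₂ =
      Real.pi / P.p ^ 2 * (y * Mj X s₁ s₂) := by
    field_simp
  have e2 : -(2 * Real.pi * X.det / (P.p : ℝ) ^ 2 * τ.im) +
      -(4 * Real.pi * τ.im * Rm X t₁ t₂ / P.p ^ 2) =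
      -(Real.pi / P.p ^ 2 * (τ.im * (2 * Mj X t₁ t₂))) := by
    rw [Mj]
    ring
  rw [e1, e2]
  exact neg_le_neg h2

theorem PsiC_th_cont (k : P.D) (τ : ℍ) : Continuous fun t : ℍ × ℍ => P.th t.1 t.2 k τ := by
  have hp := P.p_pos
  have hτ := τ.im_pos
  refine continuous_const.mul (continuous_iff_continuousAt.2 fun s => ?_)
  refine ContinuousOn.continuousAt (s := {t | ∀ X : MZ, Mj X s.1 s.2 ≤ 2 * Mj X t.1 t.2})
    (continuousOn_tsum (fun X => Continuous.continuousOn ?_)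
    (summable_Th s.1 s.2 (r := τ.im / (2 * P.p ^ 2)) (by positivity))
    fun X t ht => PsiC_th_term (ht X) k τ le_rfl) (Mj_near s.1 s.2)
  have := rm_continuous X
  fun_prop

theorem PsiC_th_le {s₁ s₂ t₁ t₂ : ℍ} (h : ∀ X : MZ, Mj X s₁ s₂ ≤ 2 * Mj X t₁ t₂) (k : P.D)
    {τ : ℍ} (h1 : 1 / 2 ≤ τ.im) (h2 : τ.im ≤ T) :
    ‖P.th t₁ t₂ k τ‖ ≤ T * Th s₁ s₂ (1 / 2 / (2 * P.p ^ 2)) := by
  have hp := P.p_pos
  rw [th, norm_mul, Complex.norm_real, Real.norm_of_nonneg τ.im_pos.le]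
  refine mul_le_mul h2 ?_ (norm_nonneg _) (by linarith)
  exact tsum_of_norm_bounded (summable_Th s₁ s₂ (r := 1 / 2 / (2 * P.p ^ 2))
    (by positivity)).hasSum fun X => PsiC_th_term (h X) k τ h1

theorem it_continuous (hχ : IsChi χ) (h : P.IsF 0 c) (T : ℝ) :
    Continuous fun t : ℍ × ℍ => IT χ T (P.pr c (P.th t.1 t.2)) := by
  have hc : ∀ k, Continuous (P.fn c k) := fun k => (c1_of_hol (h.hol k)).1.continuous
  refine continuous_iff_continuousAt.2 fun s => ?_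
  have hb : Integrable (fun τ => ∑ k, ‖(ps χ τ : ℂ) * P.fn c k τ‖ *
      (T * Th s.1 s.2 (1 / 2 / (2 * P.p ^ 2)))) (volume.restrict {τ : ℍ | τ.im ≤ T}) :=
    integrable_finsetSum _ fun k _ => (hχ.integrableOn_IT (hc k) T).norm.mul_const _
  refine continuousAt_of_dominated (Filter.Eventually.of_forall fun t =>
    Measurable.aestronglyMeasurable ?_) ?_ hb (Filter.Eventually.of_forall fun τ => ?_)
  · refine (Complex.measurable_ofReal.comp hχ.measurable_ps).mul ?_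
    exact Finset.measurable_sum _ fun k _ =>
      (hc k).measurable.mul (P.th_continuous t.1 t.2 k).measurable
  · filter_upwards [Mj_near s.1 s.2] with t ht
    filter_upwards [ae_restrict_mem (measurableSet_le UpperHalfPlane.continuous_im.measurable
      measurable_const)] with τ hτ
    rcases le_total τ.im (1 / 2) with h1 | h1
    · have : ps χ τ = 0 := by
        rw [ps, hχ.low τ h1, ite_self]
      simp [this]
    · rw [pr, Finset.mul_sum]
      refine (norm_sum_le _ _).trans (Finset.sum_le_sum fun k _ => ?_)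
      rw [← mul_assoc, norm_mul]
      exact mul_le_mul_of_nonneg_left (PsiC_th_le ht k h1 hτ) (norm_nonneg _)
  · refine Continuous.continuousAt (continuous_const.mul ?_)
    exact continuous_finsetSum _ fun k _ => continuous_const.mul (PsiC_th_cont k τ)

/-- A bound for the terms with large majorant. -/
theorem PsiC_term (h : P.IsF 0 c) (hT : 1 ≤ T) : ∃ K r : ℝ, 0 < r ∧ 0 ≤ K ∧
    ∀ (t₁ t₂ : ℍ) (X : MZ), 2 * (P.lo c : ℝ) + 1 ≤ Mj X t₁ t₂ →
      |P.cX c X| * beta (4 * Real.pi * T * Rm X t₁ t₂ / P.p ^ 2) ≤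
        K * Real.exp (-(2 * Real.pi * r * (2 * Mj X t₁ t₂))) := by
  obtain ⟨C, hC, hc⟩ := h.coeff_bound
  have hp := P.p_pos
  have hpi := Real.pi_pos
  obtain ⟨b, hb, hbe⟩ : ∃ b : ℝ, 0 < b ∧ b = Real.pi / P.p ^ 2 := ⟨_, by positivity, rfl⟩
  refine ⟨C * Real.exp (C ^ 2 / (2 * b)) / b, b / (8 * Real.pi), by positivity, by positivity,
    fun t₁ t₂ X hM => ?_⟩
  have hlo : (0 : ℝ) ≤ P.lo c := Nat.cast_nonneg _
  by_cases h0 : P.cX c X = 0
  · rw [h0, abs_zero, zero_mul]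
    positivity
  have h1 := PhiId_ne h0
  have h3 : X.det ≤ P.lo c := by
    by_contra hn
    refine h0 ?_
    rw [cX, if_pos h1, h.lo_spec _ _ (by omega), Int.cast_zero]
  have h4 : (X.det : ℝ) ≤ P.lo c := by exact_mod_cast h3
  have h5 : Mj X t₁ t₂ = 2 * Rm X t₁ t₂ + X.det := rfl
  have hd := abs_det_le_Mj X t₁ t₂
  have hR := Rm_nonneg X t₁ t₂
  have h6 : |P.cX c X| ≤ C * Real.exp (C * Real.sqrt (Mj X t₁ t₂)) := by
    rw [cX, if_pos h1]
    refine (hc _ _).trans ?_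
    have : ((-X.det : ℤ) : ℝ) ≤ Mj X t₁ t₂ := by
      rw [Int.cast_neg]
      exact (neg_le_abs _).trans hd
    gcongr
  have h7 : b * Mj X t₁ t₂ ≤ 4 * Real.pi * T * Rm X t₁ t₂ / P.p ^ 2 := by
    have e : 4 * Real.pi * T * Rm X t₁ t₂ / P.p ^ 2 = b * (4 * T * Rm X t₁ t₂) := by
      rw [hbe]
      ring
    rw [e]
    refine mul_le_mul_of_nonneg_left ?_ hb.le
    nlinarith
  have hM0 : 0 < Mj X t₁ t₂ := by linarith
  have h8 : beta (4 * Real.pi * T * Rm X t₁ t₂ / P.p ^ 2) ≤ Real.exp (-(b * Mj X t₁ t₂)) / b := by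
    refine ((beta_antitone (mul_pos hb hM0) h7).trans (beta_le (mul_pos hb hM0))).trans ?_
    refine div_le_div_of_nonneg_left (Real.exp_pos _).le hb ?_
    nlinarith
  have h9 : C * Real.sqrt (Mj X t₁ t₂) ≤ C ^ 2 / (2 * b) + b * Mj X t₁ t₂ / 2 := by
    have e := Real.sq_sqrt hM0.le
    generalize Real.sqrt (Mj X t₁ t₂) = s at e ⊢
    rw [← e, ← sub_nonneg]
    have : C ^ 2 / (2 * b) + b * s ^ 2 / 2 - C * s = (C - b * s) ^ 2 / (2 * b) := by
      field_simp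
      ring
    rw [this]
    positivity
  calc |P.cX c X| * beta (4 * Real.pi * T * Rm X t₁ t₂ / P.p ^ 2)
      ≤ C * Real.exp (C ^ 2 / (2 * b) + b * Mj X t₁ t₂ / 2) *
        (Real.exp (-(b * Mj X t₁ t₂)) / b) := by
        refine mul_le_mul (h6.trans ?_) h8 (beta_nonneg _) (by positivity)
        gcongr
    _ = _ := by
        have e : Real.exp (C ^ 2 / (2 * b) + b * Mj X t₁ t₂ / 2) * Real.exp (-(b * Mj X t₁ t₂)) =
            Real.exp (C ^ 2 / (2 * b)) *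
              Real.exp (-(2 * Real.pi * (b / (8 * Real.pi)) * (2 * Mj X t₁ t₂))) := by
          rw [← Real.exp_add, ← Real.exp_add]
          congr 1
          field_simp
          ring
        calc _ = C / b * (Real.exp (C ^ 2 / (2 * b) + b * Mj X t₁ t₂ / 2) *
              Real.exp (-(b * Mj X t₁ t₂))) := by ring
          _ = _ := by rw [e]; ring

/-- Sums over vectors which are regular at the base point are continuous there. -/
theorem PsiC_sum (h : P.IsF 0 c) (hT : 1 ≤ T) (s₁ s₂ : ℍ) (q : MZ → Prop) [DecidablePred q]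
    (hq : ∀ X, q X → X ≠ 0 → Rm X s₁ s₂ ≠ 0) :
    ContinuousAt (fun t : ℍ × ℍ => ∑' X : MZ, (if q X then P.cX c X else 0) *
      beta (4 * Real.pi * T * Rm X t.1 t.2 / P.p ^ 2)) (s₁, s₂) := by
  obtain ⟨K, r, hr, hK, hb⟩ := PsiC_term h hT
  have hp := P.p_pos
  have hpi := Real.pi_pos
  obtain ⟨f, hf⟩ : ∃ f : ℍ × ℍ → MZ → ℝ, ∀ t X, f t X = (if q X then P.cX c X else 0) *
      beta (4 * Real.pi * T * Rm X t.1 t.2 / P.p ^ 2) := ⟨_, fun _ _ => rfl⟩
  simp only [← hf]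
  have hc : ∀ X, ContinuousAt (fun t => f t X) (s₁, s₂) := by
    intro X
    simp only [hf]
    by_cases h0 : (if q X then P.cX c X else 0) = 0
    · simp only [h0, zero_mul]
      exact continuousAt_const
    have h1 : q X := by
      by_contra hn
      exact h0 (if_neg hn)
    rw [if_pos h1] at h0
    have h2 : 0 < Rm X s₁ s₂ := (Rm_nonneg X s₁ s₂).lt_of_ne' (hq X h1 (PhiId_ne h0).2)
    have h3 : 0 < 4 * Real.pi * T * Rm X s₁ s₂ / P.p ^ 2 := by
      have : 0 < T := by linarith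
      positivity
    have h4 : Continuous fun t : ℍ × ℍ => 4 * Real.pi * T * Rm X t.1 t.2 / P.p ^ 2 :=
      (continuous_const.mul (rm_continuous X)).div_const _
    have h5 : ContinuousAt beta (4 * Real.pi * T * Rm X s₁ s₂ / P.p ^ 2) :=
      beta_continuousOn.continuousAt (Ioi_mem_nhds h3)
    exact continuousAt_const.mul (h5.comp_of_eq h4.continuousAt rfl)
  have hfin := finite_Mj_le s₁ s₂ (2 * (2 * (P.lo c : ℝ) + 1))
  have hs := (summable_Th s₁ s₂ hr).mul_left K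
  refine tendsto_tsum_of_dominated_convergence
    (bound := fun X => if Mj X s₁ s₂ ≤ 2 * (2 * (P.lo c : ℝ) + 1) then ‖f (s₁, s₂) X‖ + 1
      else K * Real.exp (-(2 * Real.pi * r * Mj X s₁ s₂))) ?_ hc ?_
  · refine (summable_congr_cofinite ?_).1 hs
    refine hfin.subset fun X hX => ?_
    by_contra hn
    exact hX (if_neg hn).symm
  · have e1 : ∀ᶠ t : ℍ × ℍ in 𝓝 (s₁, s₂), ∀ X ∈ {X : MZ | Mj X s₁ s₂ ≤
        2 * (2 * (P.lo c : ℝ) + 1)}, ‖f t X‖ ≤ ‖f (s₁, s₂) X‖ + 1 :=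
      (Filter.eventually_all_finite hfin).2 fun X _ =>
        (hc X).norm.eventually (ge_mem_nhds (lt_add_one _))
    filter_upwards [e1, Mj_near s₁ s₂] with t h1 h2 X
    split_ifs with h3
    · exact h1 X h3
    · have h4 := hb t.1 t.2 X (by linarith [h2 X, not_le.1 h3])
      have h5 : |if q X then P.cX c X else 0| ≤ |P.cX c X| := by
        split_ifs
        · exact le_rfl
        · rw [abs_zero]
          exact abs_nonneg _
      rw [hf, Real.norm_eq_abs, abs_mul, abs_of_nonneg (beta_nonneg _)]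
      refine ((mul_le_mul_of_nonneg_right h5 (beta_nonneg _)).trans h4).trans ?_
      refine mul_le_mul_of_nonneg_left (Real.exp_le_exp.2 (neg_le_neg ?_)) hK
      exact mul_le_mul_of_nonneg_left (h2 X) (by positivity)

theorem psi_continuous (hχ : IsChi χ) (h : P.IsF 0 c) (hT : 2 ≤ T) :
    Continuous fun t : ℍ × ℍ => P.Psi χ c T t.1 t.2 := by
  refine (Complex.continuous_re.comp (it_continuous hχ h T)).add
    (continuous_iff_continuousAt.2 fun s => ?_)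
  exact PsiC_sum h (by linarith) s.1 s.2 (fun X => X.det ≤ 0)
    fun X h1 h2 => (Rm_pos_of_det h2 h1 s.1 s.2).ne'

theorem rg_continuousAt (h : P.IsF 0 c) (hT : 2 ≤ T) (s₁ s₂ : ℍ) :
    ContinuousAt (fun t : ℍ × ℍ => P.Rg c T s₁ s₂ t.1 t.2) (s₁, s₂) := by
  exact PsiC_sum h (by linarith) s₁ s₂ (fun X => 0 < X.det ∧ Rm X s₁ s₂ ≠ 0)
    fun X h1 _ => h1.2

end Par

end

end Pool.Agent.P.MP_a60a76_nt.Sz
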