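import Pool.Agent.P.MP_a60a76_nt.Sz.FxA
import Pool.Agent.P.MP_a60a76_nt.Sz.Rank

namespace Pool.Agent.P.MP_a60a76_nt.Sz

open UpperHalfPlane hiding J
open MeasureTheory SP
open scoped MatrixGroups UpperHalfPlane Matrix Modular Topology Classical ArithmeticFunction.sigma

noncomputable section

/-! Calculus of the order of vanishing. -/

variable {ν μ : ℕ} {f g : ℍ → ℍ → ℂ} {s₁ s₂ : ℍ}

theorem Van_nn (hf : Van ν f s₁ s₂) : ∃ C δ : ℝ, 0 ≤ C ∧ 0 < δ ∧ ∀ ε : ℝ, 0 < ε → ε ≤ δ →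
    ∀ t₁ t₂ : ℍ, ‖(t₁ : ℂ) - s₁‖ ≤ ε → ‖(t₂ : ℂ) - s₂‖ ≤ ε → ‖f t₁ t₂‖ ≤ C * ε ^ ν := by
  obtain ⟨C, δ, hδ, h⟩ := hf
  refine ⟨C, δ, ?_, hδ, h⟩
  have h1 := (norm_nonneg _).trans (h δ hδ le_rfl s₁ s₂ (by simpa using hδ.le) (by simpa using hδ.le))
  exact nonneg_of_mul_nonneg_left h1 (pow_pos hδ ν)

theorem Van_congr (hf : Van ν f s₁ s₂) (e : ∀ t₁ t₂, g t₁ t₂ = f t₁ t₂) : Van ν g s₁ s₂ := by
  obtain rfl : g = f := funext fun t₁ => funext (e t₁)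
  exact hf

theorem Van_im (s : ℍ) (z : ℂ) : s.im - ‖z - s‖ ≤ z.im := by
  have h := (abs_le.1 (Complex.abs_im_le_norm (z - s))).1
  rw [Complex.sub_im, UpperHalfPlane.coe_im] at h
  linarith

theorem Van_of (z : ℂ) (hz : 0 < z.im) : ((ofComplex z : ℍ) : ℂ) = z := by
  rw [ofComplex_apply_of_im_pos hz]

theorem Van_at {h : ℍ → ℂ} (hh : Hol h) {z : ℂ} (hz : 0 < z.im) :
    DifferentiableAt ℂ (h ∘ ofComplex) z :=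
  hh.differentiableAt (isOpen_upperHalfPlaneSet.mem_nhds hz)

theorem Van_lip {h : ℍ → ℂ} (hh : Hol h) (s : ℍ) : ∃ L δ : ℝ, 0 < L ∧ 0 < δ ∧
    ∀ t : ℍ, ‖(t : ℂ) - s‖ ≤ δ → ‖h t - h s‖ ≤ L * ‖(t : ℂ) - s‖ := by
  obtain ⟨L, hL, h1⟩ := (Van_at hh s.im_pos).isBigO_sub.exists_pos
  obtain ⟨δ, hδ, h2⟩ := Metric.nhds_basis_closedBall.eventually_iff.1 h1.bound
  refine ⟨L, δ, hL, hδ, fun t ht => ?_⟩
  simpa only [Function.comp_apply, ofComplex_apply] using h2 (x := (t : ℂ)) (mem_closedBall_iff_norm.2 ht)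

theorem Van_nhds {s : ℍ} {U : Set ℍ} (hU : U ∈ 𝓝 s) :
    ∃ δ : ℝ, 0 < δ ∧ ∀ t : ℍ, ‖(t : ℂ) - s‖ ≤ δ → t ∈ U := by
  rw [isEmbedding_coe.isInducing.nhds_eq_comap, Filter.mem_comap] at hU
  obtain ⟨V, hV, h⟩ := hU
  obtain ⟨δ, hδ, h1⟩ := Metric.nhds_basis_closedBall.mem_iff.1 hV
  exact ⟨δ, hδ, fun t ht => h (h1 (mem_closedBall_iff_norm.2 ht))⟩

theorem Van_schwarz {h : ℍ → ℂ} (hh : Hol h) {s t : ℍ} {r C : ℝ} (hr : r ≤ s.im)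
    (hC : ∀ t : ℍ, ‖(t : ℂ) - s‖ ≤ r → ‖h t‖ ≤ C) (ht : ‖(t : ℂ) - s‖ < r) :
    ‖h t - h s‖ ≤ 2 * C / r * ‖(t : ℂ) - s‖ := by
  have h0 : ∀ z ∈ Metric.ball (s : ℂ) r, 0 < z.im := fun z hz => by
    have := Van_im s z
    rw [mem_ball_iff_norm] at hz
    linarith
  have h1 := Complex.dist_le_div_mul_dist_of_mapsTo_ball (f := h ∘ ofComplex) (c := (s : ℂ))
    (R₁ := r) (R₂ := 2 * C) (z := (t : ℂ)) (hh.mono h0) (fun z hz => by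
      have h2 := hC (ofComplex z) (by rw [Van_of z (h0 z hz)]; exact (mem_ball_iff_norm.1 hz).le)
      have h3 := hC s (by simpa using (norm_nonneg _).trans ht.le)
      rw [mem_closedBall_iff_norm, Function.comp_apply, Function.comp_apply, ofComplex_apply]
      exact (norm_sub_le _ _).trans (by linarith)) (mem_ball_iff_norm.2 ht)
  simpa only [dist_eq_norm, Function.comp_apply, ofComplex_apply] using h1

theorem Van_cauchy {h : ℍ → ℂ} (hh : Hol h) {s t : ℍ} {r C : ℝ} (r0 : 0 < r) (hr : 4 * r ≤ s.im)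
    (hC : ∀ t : ℍ, ‖(t : ℂ) - s‖ ≤ 2 * r → ‖h t‖ ≤ C) (ht : ‖(t : ℂ) - s‖ ≤ r) :
    ‖deriv (h ∘ ofComplex) t‖ ≤ C / r := by
  have h1 : ∀ z ∈ Metric.closedBall (t : ℂ) r, ‖z - s‖ ≤ 2 * r := fun z hz => by
    have := norm_sub_le_norm_sub_add_norm_sub z t s
    rw [mem_closedBall_iff_norm] at hz
    linarith
  have h0 : ∀ z ∈ Metric.closedBall (t : ℂ) r, 0 < z.im := fun z hz => by
    have := Van_im s z
    have := h1 z hz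
    linarith
  refine Complex.norm_deriv_le_of_forall_mem_sphere_norm_le r0
    (DifferentiableOn.diffContOnCl_ball hh h0) fun z hz => ?_
  have hz' := Metric.sphere_subset_closedBall hz
  exact hC (ofComplex z) (by rw [Van_of z (h0 z hz')]; exact h1 z hz')

theorem Van_hol (γ : SL(2, ℤ)) : Hol fun τ => ((γ • τ : ℍ) : ℂ) := by
  have h := (UpperHalfPlane.mdifferentiable_coe.comp
    (UpperHalfPlane.mdifferentiable_smul (g := (γ : GL (Fin 2) ℝ)) (by simp)))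
  exact UpperHalfPlane.mdifferentiable_iff.mp h

theorem Van_fst (s₁ s₂ : ℍ) : Van 1 (fun t _ => (t : ℂ) - s₁) s₁ s₂ :=
  ⟨1, 1, one_pos, fun ε _ _ _ _ h _ => by simpa using h⟩

theorem Van_snd (s₁ s₂ : ℍ) : Van 1 (fun _ t => (t : ℂ) - s₂) s₁ s₂ :=
  ⟨1, 1, one_pos, fun ε _ _ _ _ _ h => by simpa using h⟩

theorem Van.mul (hf : Van ν f s₁ s₂) (hg : Van μ g s₁ s₂) :
    Van (ν + μ) (fun t₁ t₂ => f t₁ t₂ * g t₁ t₂) s₁ s₂ := by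
  obtain ⟨C, δ, hC, hδ, h⟩ := Van_nn hf
  obtain ⟨C', δ', hδ', h'⟩ := hg
  refine ⟨C * C', min δ δ', lt_min hδ hδ', fun ε ε0 hε t₁ t₂ e₁ e₂ => ?_⟩
  rw [norm_mul, pow_add, mul_mul_mul_comm]
  exact mul_le_mul (h ε ε0 (hε.trans (min_le_left _ _)) t₁ t₂ e₁ e₂)
    (h' ε ε0 (hε.trans (min_le_right _ _)) t₁ t₂ e₁ e₂) (norm_nonneg _) (by positivity)

theorem Van.add (hf : Van ν f s₁ s₂) (hg : Van ν g s₁ s₂) :
    Van ν (fun t₁ t₂ => f t₁ t₂ + g t₁ t₂) s₁ s₂ := by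
  obtain ⟨C, δ, hδ, h⟩ := hf
  obtain ⟨C', δ', hδ', h'⟩ := hg
  refine ⟨C + C', min δ δ', lt_min hδ hδ', fun ε ε0 hε t₁ t₂ e₁ e₂ => ?_⟩
  rw [add_mul]
  exact (norm_add_le _ _).trans (add_le_add (h ε ε0 (hε.trans (min_le_left _ _)) t₁ t₂ e₁ e₂)
    (h' ε ε0 (hε.trans (min_le_right _ _)) t₁ t₂ e₁ e₂))

theorem Van.sub (hf : Van ν f s₁ s₂) (hg : Van ν g s₁ s₂) :
    Van ν (fun t₁ t₂ => f t₁ t₂ - g t₁ t₂) s₁ s₂ := by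
  obtain ⟨C, δ, hδ, h⟩ := hf
  obtain ⟨C', δ', hδ', h'⟩ := hg
  refine ⟨C + C', min δ δ', lt_min hδ hδ', fun ε ε0 hε t₁ t₂ e₁ e₂ => ?_⟩
  rw [add_mul]
  exact (norm_sub_le _ _).trans (add_le_add (h ε ε0 (hε.trans (min_le_left _ _)) t₁ t₂ e₁ e₂)
    (h' ε ε0 (hε.trans (min_le_right _ _)) t₁ t₂ e₁ e₂))

theorem Van.const_mul (hf : Van ν f s₁ s₂) (z : ℂ) : Van ν (fun t₁ t₂ => z * f t₁ t₂) s₁ s₂ := by
  obtain ⟨C, δ, hδ, h⟩ := hf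
  refine ⟨‖z‖ * C, δ, hδ, fun ε ε0 hε t₁ t₂ e₁ e₂ => ?_⟩
  rw [norm_mul, mul_assoc]
  exact mul_le_mul_of_nonneg_left (h ε ε0 hε t₁ t₂ e₁ e₂) (norm_nonneg _)

theorem Van.mono (hf : Van ν f s₁ s₂) (h : μ ≤ ν) : Van μ f s₁ s₂ := by
  obtain ⟨C, δ, hC, hδ, h'⟩ := Van_nn hf
  refine ⟨C, min δ 1, lt_min hδ one_pos, fun ε ε0 hε t₁ t₂ e₁ e₂ => ?_⟩
  exact (h' ε ε0 (hε.trans (min_le_left _ _)) t₁ t₂ e₁ e₂).trans (mul_le_mul_of_nonneg_left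
    (pow_le_pow_of_le_one ε0.le (hε.trans (min_le_right _ _)) h) hC)

theorem Van.pow (hf : Van ν f s₁ s₂) (n : ℕ) : Van (ν * n) (fun t₁ t₂ => f t₁ t₂ ^ n) s₁ s₂ := by
  obtain ⟨C, δ, hδ, h⟩ := hf
  refine ⟨C ^ n, δ, hδ, fun ε ε0 hε t₁ t₂ e₁ e₂ => ?_⟩
  rw [norm_pow, pow_mul, ← mul_pow]
  exact pow_le_pow_left₀ (norm_nonneg _) (h ε ε0 hε t₁ t₂ e₁ e₂) n

theorem Van.eq_zero (hf : Van ν f s₁ s₂) (h : ν ≠ 0) : f s₁ s₂ = 0 := by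
  obtain ⟨C, δ, hδ, h'⟩ := hf
  have h1 : Filter.Tendsto (fun ε : ℝ => C * ε ^ ν) (𝓝[>] 0) (𝓝 (C * 0 ^ ν)) :=
    ((continuous_const.mul (continuous_pow ν)).tendsto 0).mono_left nhdsWithin_le_nhds
  rw [zero_pow h, mul_zero] at h1
  refine norm_le_zero_iff.1 (ge_of_tendsto h1 ?_)
  filter_upwards [Ioc_mem_nhdsGT hδ] with ε hε
  exact h' ε hε.1 hε.2 s₁ s₂ (by simpa using hε.1.le) (by simpa using hε.1.le)

theorem van_const (z : ℂ) (s₁ s₂ : ℍ) : Van 0 (fun _ _ => z) s₁ s₂ := by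
  exact ⟨‖z‖, 1, one_pos, fun ε _ _ _ _ _ _ => by simp⟩

theorem van_prod {ι : Type} (S : Finset ι) {F : ι → ℍ → ℍ → ℂ} {n : ι → ℕ}
    (h : ∀ i ∈ S, Van (n i) (F i) s₁ s₂) :
    Van (∑ i ∈ S, n i) (fun t₁ t₂ => ∏ i ∈ S, F i t₁ t₂) s₁ s₂ := by
  induction S using Finset.induction_on with
  | empty => simpa using van_const 1 s₁ s₂
  | insert a S ha ih =>
    simp only [Finset.sum_insert ha, Finset.prod_insert ha]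
    exact (h a (Finset.mem_insert_self _ _)).mul (ih fun i hi => h i (Finset.mem_insert_of_mem hi))

theorem van_sum {ι : Type} (S : Finset ι) {F : ι → ℍ → ℍ → ℂ} (h : ∀ i ∈ S, Van ν (F i) s₁ s₂) :
    Van ν (fun t₁ t₂ => ∑ i ∈ S, F i t₁ t₂) s₁ s₂ := by
  induction S using Finset.induction_on with
  | empty => exact ⟨0, 1, one_pos, fun ε _ _ _ _ _ _ => by simp⟩
  | insert a S ha ih =>
    simp only [Finset.sum_insert ha]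
    exact (h a (Finset.mem_insert_self _ _)).add (ih fun i hi => h i (Finset.mem_insert_of_mem hi))

theorem van_of_eventually {C : ℝ} (h : ∀ᶠ t : ℍ × ℍ in 𝓝 (s₁, s₂), ‖f t.1 t.2‖ ≤ C) :
    Van 0 f s₁ s₂ := by
  obtain ⟨U, hU, V, hV, h1⟩ := mem_nhds_prod_iff.1 h
  obtain ⟨δ, hδ, h2⟩ := Van_nhds hU
  obtain ⟨δ', hδ', h3⟩ := Van_nhds hV
  refine ⟨C, min δ δ', lt_min hδ hδ', fun ε _ hε t₁ t₂ e₁ e₂ => ?_⟩
  rw [pow_zero, mul_one]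
  exact h1 (Set.mk_mem_prod (h2 t₁ (e₁.trans (hε.trans (min_le_left _ _))))
    (h3 t₂ (e₂.trans (hε.trans (min_le_right _ _)))))

theorem van_snd {h : ℍ → ℂ} (hh : Hol h) (s₁ s₂ : ℍ) : Van 0 (fun _ t => h t) s₁ s₂ := by
  obtain ⟨L, δ, hL, hδ, h1⟩ := Van_lip hh s₂
  refine ⟨L * δ + ‖h s₂‖, δ, hδ, fun ε _ hε _ t _ e => ?_⟩
  have h2 := h1 t (e.trans hε)
  have h3 := norm_le_norm_sub_add (h t) (h s₂)
  have h4 := mul_le_mul_of_nonneg_left (e.trans hε) hL.le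
  rw [pow_zero, mul_one]
  linarith

theorem Van.smul (g₁ g₂ : SL(2, ℤ)) (hf : Van ν f (g₁ • s₁) (g₂ • s₂)) :
    Van ν (fun t₁ t₂ => f (g₁ • t₁) (g₂ • t₂)) s₁ s₂ := by
  obtain ⟨C, δ, hδ, h⟩ := hf
  obtain ⟨L₁, δ₁, hL₁, hδ₁, h₁⟩ := Van_lip (Van_hol g₁) s₁
  obtain ⟨L₂, δ₂, hL₂, hδ₂, h₂⟩ := Van_lip (Van_hol g₂) s₂
  have hL : 0 < L₁ + L₂ := by positivity
  refine ⟨C * (L₁ + L₂) ^ ν, min (δ / (L₁ + L₂)) (min δ₁ δ₂), by positivity,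
    fun ε ε0 hε t₁ t₂ e₁ e₂ => ?_⟩
  rw [le_min_iff, le_min_iff, le_div_iff₀' hL] at hε
  rw [mul_assoc, ← mul_pow]
  refine h _ (by positivity) hε.1 _ _ ((h₁ t₁ (e₁.trans hε.2.1)).trans ?_)
    ((h₂ t₂ (e₂.trans hε.2.2)).trans ?_)
  · exact mul_le_mul (by linarith) e₁ (norm_nonneg _) hL.le
  · exact mul_le_mul (by linarith) e₂ (norm_nonneg _) hL.le

theorem Van.deriv (hf : Van ν f s₁ s₂) (h₂ : ∀ t₁, Hol (f t₁)) :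
    Van (ν - 1) (fun t₁ => Derivative.normalizedDerivOfComplex (f t₁)) s₁ s₂ := by
  obtain ⟨C, δ, hδ, h⟩ := hf
  have hs := s₂.im_pos
  have key : ∀ r : ℝ, 0 < r → r ≤ min (δ / 2) (s₂.im / 4) → ∀ t₁ t₂ : ℍ, ‖(t₁ : ℂ) - s₁‖ ≤ r →
      ‖(t₂ : ℂ) - s₂‖ ≤ r → ‖Derivative.normalizedDerivOfComplex (f t₁) t₂‖ ≤
        ‖(2 * Real.pi * Complex.I : ℂ)⁻¹‖ * (C * (2 * r) ^ ν / r) := fun r r0 hr t₁ t₂ e₁ e₂ => by
    rw [le_min_iff] at hr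
    rw [Derivative.normalizedDerivOfComplex, norm_mul]
    exact mul_le_mul_of_nonneg_left (Van_cauchy (h₂ t₁) r0 (by linarith) (fun t ht =>
      h (2 * r) (by linarith) (by linarith) t₁ t (by linarith) ht) e₂) (norm_nonneg _)
  have r0 : 0 < min (δ / 2) (s₂.im / 4) := by positivity
  cases ν with
  | zero =>
    exact ⟨_, _, r0, fun ε _ hε t₁ t₂ e₁ e₂ =>
      (key _ r0 le_rfl t₁ t₂ (e₁.trans hε) (e₂.trans hε)).trans_eq (mul_one _).symm⟩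
  | succ ν =>
    refine ⟨‖(2 * Real.pi * Complex.I : ℂ)⁻¹‖ * (C * 2 ^ (ν + 1)), _, r0,
      fun ε ε0 hε t₁ t₂ e₁ e₂ => (key ε ε0 hε t₁ t₂ e₁ e₂).trans_eq ?_⟩
    rw [Nat.add_sub_cancel, mul_pow, pow_succ ε]
    field_simp

theorem Van.sub_val (hf : Van 0 f s₁ s₂) (h₁ : ∀ t₂, Hol fun t₁ => f t₁ t₂)
    (h₂ : ∀ t₁, Hol (f t₁)) : Van 1 (fun t₁ t₂ => f t₁ t₂ - f s₁ s₂) s₁ s₂ := by
  obtain ⟨C, δ, hC, hδ, h⟩ := Van_nn hf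
  have hs₁ := s₁.im_pos
  have hs₂ := s₂.im_pos
  obtain ⟨r, r0, r1, r2, r3⟩ : ∃ r : ℝ, 0 < r ∧ r ≤ δ ∧ r ≤ s₁.im ∧ r ≤ s₂.im :=
    ⟨min δ (min s₁.im s₂.im), by positivity, min_le_left _ _,
      (min_le_right _ _).trans (min_le_left _ _), (min_le_right _ _).trans (min_le_right _ _)⟩
  have h' : ∀ t₁ t₂ : ℍ, ‖(t₁ : ℂ) - s₁‖ ≤ r → ‖(t₂ : ℂ) - s₂‖ ≤ r → ‖f t₁ t₂‖ ≤ C :=
    fun t₁ t₂ e₁ e₂ => by simpa using h r r0 r1 t₁ t₂ e₁ e₂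
  refine ⟨2 * C / r + 2 * C / r, r / 2, by positivity, fun ε ε0 hε t₁ t₂ e₁ e₂ => ?_⟩
  have a₁ := Van_schwarz (h₁ t₂) (t := t₁) r2 (fun t ht => h' t t₂ ht (by linarith)) (by linarith)
  have a₂ := Van_schwarz (h₂ s₁) (t := t₂) r3 (fun t ht => h' s₁ t (by simpa using r0.le) ht)
    (by linarith)
  have c0 : 0 ≤ 2 * C / r := by positivity
  rw [pow_one, add_mul]
  exact (norm_sub_le_norm_sub_add_norm_sub _ (f s₁ t₂) _).trans (add_le_add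
    (a₁.trans (mul_le_mul_of_nonneg_left e₁ c0)) (a₂.trans (mul_le_mul_of_nonneg_left e₂ c0)))

theorem van_rm {X : MZ} (h : Rm X s₁ s₂ = 0) : Van 2 (fun t₁ t₂ => (Rm X t₁ t₂ : ℂ)) s₁ s₂ := by
  have hs₁ := s₁.im_pos
  have hs₂ := s₂.im_pos
  rw [Rm, div_eq_zero_iff, or_iff_left (by positivity), Complex.normSq_eq_zero] at h
  have h1 : Van 1 (fun t₁ t₂ : ℍ => ((X 1 0 : ℂ) * t₁ + X 1 1) * t₂ - ((X 0 0 : ℂ) * t₁ + X 0 1))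
      s₁ s₂ := by
    refine Van_congr ((((((Van_fst s₁ s₂).mul (Van_snd s₁ s₂)).mono one_le_two).const_mul
      (X 1 0)).add ((Van_snd s₁ s₂).const_mul ((X 1 0 : ℂ) * s₁ + X 1 1))).add
      ((Van_fst s₁ s₂).const_mul ((X 1 0 : ℂ) * s₂ - X 0 0))) fun t₁ t₂ => ?_
    linear_combination h
  obtain ⟨C, δ, hδ, h2⟩ := h1
  refine ⟨C ^ 2 / (s₁.im * s₂.im), min δ (min (s₁.im / 2) (s₂.im / 2)), by positivity,
    fun ε ε0 hε t₁ t₂ e₁ e₂ => ?_⟩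
  rw [le_min_iff, le_min_iff] at hε
  have h3 := pow_le_pow_left₀ (norm_nonneg _) (h2 ε ε0 hε.1 t₁ t₂ e₁ e₂) 2
  have a₁ := Van_im s₁ t₁
  have a₂ := Van_im s₂ t₂
  rw [UpperHalfPlane.coe_im] at a₁ a₂
  have ht₁ := t₁.im_pos
  have ht₂ := t₂.im_pos
  have h4 : s₁.im * s₂.im ≤ 4 * t₁.im * t₂.im := by
    have := mul_le_mul (show s₁.im ≤ 2 * t₁.im by linarith) (show s₂.im ≤ 2 * t₂.im by linarith)
      hs₂.le (by positivity)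
    linarith
  rw [Complex.norm_real, Rm, Real.norm_of_nonneg (div_nonneg (Complex.normSq_nonneg _)
    (by positivity)), Complex.normSq_eq_norm_sq, div_mul_eq_mul_div]
  rw [pow_one, mul_pow] at h3
  exact div_le_div₀ (by positivity) h3 (by positivity) h4

theorem van_of_proper (h₂ : ∀ t₁, Hol (f t₁)) {C δ : ℝ} (hδ : 0 < δ)
    (h : ∀ ε : ℝ, 0 < ε → ε ≤ δ → ∀ t₁ t₂ : ℍ, ‖(t₁ : ℂ) - s₁‖ ≤ ε → ‖(t₂ : ℂ) - s₂‖ ≤ ε →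
      Proper t₁ t₂ → ‖f t₁ t₂‖ ≤ C * ε ^ ν) : Van ν f s₁ s₂ := by
  refine ⟨C * 2 ^ ν, δ / 2, by positivity, fun ε ε0 hε t₁ t₂ e₁ e₂ => ?_⟩
  rw [mul_assoc, ← mul_pow]
  by_contra hcon
  have hd := ((countable_not_proper t₁).image fun t : ℍ => (t : ℂ)).dense_compl ℝ
  have h1 : ∀ᶠ z in 𝓝 (t₂ : ℂ), C * (2 * ε) ^ ν < ‖(f t₁ ∘ ofComplex) z‖ :=
    (Van_at (h₂ t₁) t₂.im_pos).continuousAt.norm.eventually (lt_mem_nhds (by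
      simpa only [Function.comp_apply, ofComplex_apply] using not_le.1 hcon))
  have h3 : ∀ᶠ z : ℂ in 𝓝 (t₂ : ℂ), 0 < z.im := isOpen_upperHalfPlaneSet.mem_nhds t₂.im_pos
  obtain ⟨z, ⟨⟨z1, z2⟩, z3⟩, z4⟩ := hd.inter_nhds_nonempty
    ((h1.and h3).and (Metric.closedBall_mem_nhds (t₂ : ℂ) ε0)) |>.imp fun _ hz => hz.symm
  have hp : Proper t₁ (ofComplex z) := by
    by_contra hp
    exact z4 ⟨_, hp, Van_of z z2⟩
  have h4 := norm_sub_le_norm_sub_add_norm_sub z t₂ s₂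
  rw [dist_eq_norm] at z3
  exact absurd (h (2 * ε) (by linarith) (by linarith) t₁ (ofComplex z) (by linarith)
    (by rw [Van_of z z2]; linarith) hp) (not_le.2 z1)

end

end Pool.Agent.P.MP_a60a76_nt.Sz
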