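import Pool.Agent.P.MP_a60a76_nt.Sz.Psi
import Pool.Agent.P.MP_a60a76_nt.Sz.PsiC
import Pool.Agent.P.MP_a60a76_nt.Sz.Van

namespace Pool.Agent.P.MP_a60a76_nt.Sz

open UpperHalfPlane hiding J
open MeasureTheory SP
open scoped MatrixGroups UpperHalfPlane Matrix Modular Topology Classical ArithmeticFunction.sigma

noncomputable section

/-! The order of vanishing and the leading coefficient of the product. -/

/-- A multiple of an unbounded function which lies between two convergent functions vanishes. -/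
theorem LC_order {α : Type} {F : Filter α} [F.NeBot] {a u₀ v₀ : ℝ} {l u v : α → ℝ}
    (hl : Filter.Tendsto l F Filter.atBot) (hu : Filter.Tendsto u F (𝓝 u₀))
    (hv : Filter.Tendsto v F (𝓝 v₀)) (h : ∀ᶠ x in F, u x ≤ a * l x ∧ a * l x ≤ v x) : a = 0 := by
  rcases lt_trichotomy a 0 with ha | ha | ha
  · exact absurd (Filter.tendsto_atTop_mono' F (h.mono fun _ hx => hx.2)
      (hl.const_mul_atBot_of_neg ha)) (not_tendsto_atTop_of_tendsto_nhds hv)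
  · exact ha
  · exact absurd (Filter.tendsto_atBot_mono' F (h.mono fun _ hx => hx.1)
      (hl.const_mul_atBot ha)) (not_tendsto_atBot_of_tendsto_nhds hu)

/-- Proper points accumulate everywhere. -/
theorem LC_filter (t₁ t₂ : ℍ) :
    ∃ F : Filter ℍ, F.NeBot ∧ F ≤ 𝓝 t₂ ∧ ∀ᶠ τ in F, Proper t₁ τ ∧ τ ≠ t₂ := by
  have h1 := (((countable_not_proper t₁).insert t₂).image ((↑) : ℍ → ℂ)).dense_compl ℂ
  have h2 := mem_closure_iff_nhdsWithin_neBot.1 (h1 t₂)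
  have h3 : Filter.Tendsto ofComplex (𝓝 (t₂ : ℂ)) (𝓝 t₂) := by
    have := (mdifferentiableAt_ofComplex t₂.im_pos).continuousAt.tendsto
    rwa [ofComplex_apply] at this
  refine ⟨Filter.map ofComplex (𝓝[_] (t₂ : ℂ)), h2.map _, h3.mono_left nhdsWithin_le_nhds, ?_⟩
  rw [Filter.eventually_map]
  filter_upwards [self_mem_nhdsWithin,
    mem_nhdsWithin_of_mem_nhds (Rank_open.mem_nhds t₂.im_pos)] with z hz hz'
  have h4 : ofComplex z ∉ insert t₂ {t | ¬ Proper t₁ t} := fun h5 =>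
    hz ⟨_, h5, by rw [ofComplex_apply_of_im_pos hz']⟩
  exact ⟨by_contra fun h5 => h4 (Or.inr h5), fun h5 => h4 (Or.inl h5)⟩

namespace Par

variable {P : Par} {c : P.D → ℤ → ℤ} {χ : ℍ → ℝ} {T : ℝ}

/-- The sums over the singular vectors are finite. -/
theorem LC_sing (h : P.IsF 0 c) (s₁ s₂ : ℍ) : ∃ S : Finset MZ,
    (∀ X ∈ S, X ≠ 0 ∧ Rm X s₁ s₂ = 0) ∧ P.nz c s₁ s₂ = ∑ X ∈ S, P.cX c X * P.z0 s₁ s₂ X ∧
    ∀ g : MZ → ℝ, ∑' X, P.cX c X * P.z0 s₁ s₂ X * g X =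
      ∑ X ∈ S, P.cX c X * P.z0 s₁ s₂ X * g X := by
  have h0 : ∀ X, X ∉ (finite_sing h s₁ s₂).toFinset → P.cX c X * P.z0 s₁ s₂ X = 0 := fun X hX =>
    by_contra fun h1 => hX ((Set.Finite.mem_toFinset _).2 h1)
  refine ⟨(finite_sing h s₁ s₂).toFinset, fun X hX => ?_, tsum_eq_sum h0,
    fun g => tsum_eq_sum fun X hX => by rw [h0 X hX, zero_mul]⟩
  have h1 := right_ne_zero_of_mul ((Set.Finite.mem_toFinset _).1 hX)
  by_contra h2
  exact h1 (if_neg fun h3 => h2 h3.2)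

theorem van_gf (h : P.IsF0 c) (hp : P.Pos c) (s₁ s₂ : ℍ) {ν : ℕ}
    (hν : (ν : ℝ) = 12 * P.p * P.nz c s₁ s₂) : Van ν (P.gf c P.Dm) s₁ s₂ := by
  obtain ⟨χ, hχ⟩ := exists_isChi
  obtain ⟨S, hS, hnz, hsum⟩ := LC_sing h.toIsF s₁ s₂
  obtain ⟨C₁, δ₁, hδ₁, h₁⟩ := van_sum S fun X hX => van_rm (hS X hX).2
  obtain ⟨C₂, δ₂, hδ₂, h₂⟩ : Van 0 (fun t₁ t₂ => (P.Psi χ c 2 t₁ t₂ : ℂ)) s₁ s₂ :=
    van_of_eventually (C := ‖(P.Psi χ c 2 s₁ s₂ : ℂ)‖ + 1)
      (((Complex.continuous_ofReal.comp (psi_continuous hχ h.toIsF le_rfl)).norm.tendsto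
        (s₁, s₂)).eventually_le_const (lt_add_one _))
  have hp0 := P.p_pos
  have hπ := Real.pi_pos
  refine van_of_proper (gf_hol h hp P.det_Dm) (δ := min δ₁ δ₂)
    (C := Real.exp (12 * P.p * P.cp c * Real.log P.p + 6 * P.p * C₂ + 6 * P.p * (P.nz c s₁ s₂ *
      (Real.log (4 * Real.pi * 2 * C₁ / P.p ^ 2) + 1)))) (lt_min hδ₁ hδ₂)
    fun ε hε hεδ t₁ t₂ ht₁ ht₂ hz => ?_
  have e₁ := h₁ ε hε (hεδ.trans (min_le_left _ _)) t₁ t₂ ht₁ ht₂
  have e₂ := h₂ ε hε (hεδ.trans (min_le_right _ _)) t₁ t₂ ht₁ ht₂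
  rw [pow_zero, mul_one, Complex.norm_real, Real.norm_eq_abs] at e₂
  beta_reduce at e₁
  rw [← Complex.ofReal_sum, Complex.norm_real, Real.norm_eq_abs] at e₁
  have e₃ : ∀ X ∈ S, -(Real.log (4 * Real.pi * 2 * C₁ / P.p ^ 2) + 1 + 2 * Real.log ε) ≤
      beta (4 * Real.pi * 2 * Rm X t₁ t₂ / P.p ^ 2) := fun X hX => by
    have a1 : 0 < Rm X t₁ t₂ := (Rm_nonneg X t₁ t₂).lt_of_ne' (hz X (hS X hX).1)
    have a2 : Rm X t₁ t₂ ≤ C₁ * ε ^ 2 :=
      ((Finset.single_le_sum (fun Y _ => Rm_nonneg Y t₁ t₂) hX).trans (le_abs_self _)).trans e₁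
    have a3 : 0 < C₁ := (mul_pos_iff_of_pos_right (pow_pos hε 2)).1 (a1.trans_le a2)
    have a4 : 0 < 4 * Real.pi * 2 * Rm X t₁ t₂ / P.p ^ 2 := by positivity
    have a5 : 4 * Real.pi * 2 * Rm X t₁ t₂ / P.p ^ 2 ≤ 4 * Real.pi * 2 * C₁ / P.p ^ 2 * ε ^ 2 := by
      rw [div_mul_eq_mul_div, mul_assoc _ C₁]
      gcongr
    have a6 := Real.log_le_log a4 a5
    rw [Real.log_mul (by positivity) (by positivity), Real.log_pow] at a6
    have a7 := beta_ge a4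
    push_cast at a6
    linarith
  have e₄ := Finset.sum_le_sum fun X hX =>
    mul_le_mul_of_nonneg_left (e₃ X hX) (cX_z0_nonneg hp s₁ s₂ X)
  rw [← Finset.sum_mul, ← hnz, ← hsum] at e₄
  have e₅ := log_gf hχ h hp hz le_rfl s₁ s₂
  have e₆ := rg_nonneg hp 2 s₁ s₂ t₁ t₂
  rw [← Real.exp_log (pow_pos hε ν), ← Real.exp_add, Real.log_pow, hν]
  refine (Real.le_exp_log _).trans (Real.exp_le_exp.2 ?_)
  rw [e₅]
  have e₇ := mul_le_mul_of_nonneg_left (add_le_add (add_le_add (abs_le.1 e₂).1 e₆) e₄)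
    (by positivity : (0 : ℝ) ≤ 6 * P.p)
  linarith

theorem lc (hχ : IsChi χ) (h : P.IsF0 c) (hp : P.Pos c) (hT : 2 ≤ T) (t₁ t₂ : ℍ) :
    ∃ (μ : ℕ) (L : ℂ), L ≠ 0 ∧ (μ : ℝ) = 12 * P.p * P.nz c t₁ t₂ ∧
      Filter.Tendsto (fun z : ℂ => P.gf c P.Dm t₁ (ofComplex z) / (z - t₂) ^ μ) (𝓝[≠] (t₂ : ℂ))
        (𝓝 L) ∧
      Real.log ‖L‖ ≤ 12 * P.p * P.cp c * Real.log P.p - 6 * P.p * P.Psi χ c T t₁ t₂ +
        6 * P.p * ∑' X : MZ, P.cX c X * P.z0 t₁ t₂ X *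
          (1 + Real.log (Real.pi * T / t₂.im ^ 2) + Real.log (X.det / P.p ^ 2)) := by
  obtain ⟨S, hS, hnz, hsum⟩ := LC_sing h.toIsF t₁ t₂
  obtain ⟨F, hF, hle, hpr⟩ := LC_filter t₁ t₂
  have hco : Filter.Tendsto ((↑) : ℍ → ℂ) F (𝓝 (t₂ : ℂ)) :=
    (continuous_coe.tendsto t₂).mono_left hle
  have han : AnalyticAt ℂ (P.gf c P.Dm t₁ ∘ ofComplex) t₂ :=
    (gf_hol h hp P.det_Dm t₁).analyticAt (Rank_open.mem_nhds t₂.im_pos)
  obtain ⟨μ, g, hg, hg0, hfg⟩ := han.exists_eventuallyEq_pow_smul_nonzero_iff.2 fun h0 => by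
    obtain ⟨τ, h1, h2⟩ := ((hco.eventually h0).and hpr).exists
    rw [Function.comp_apply, ofComplex_apply] at h1
    exact (arch_eq hχ h hp h2.1).1 h1
  have hp0 := P.p_pos
  have hπ := Real.pi_pos
  have hT0 : 0 < T := two_pos.trans_le hT
  have hy := t₂.im_pos
  have hd : ∀ X ∈ S, (0 : ℝ) < X.det := fun X hX => by
    exact_mod_cast rm0_det_pos (hS X hX).2 (hS X hX).1
  have hpair : Filter.Tendsto (fun τ : ℍ => (t₁, τ)) F (𝓝 (t₁, t₂)) :=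
    ((Continuous.prodMk_right t₁).tendsto t₂).mono_left hle
  have lΨ := ((psi_continuous hχ h.toIsF hT).tendsto (t₁, t₂)).comp hpair
  have lR := (rg_continuousAt h.toIsF hT t₁ t₂).tendsto.comp hpair
  simp only [Function.comp_def] at lΨ lR
  have lg : Filter.Tendsto (fun τ : ℍ => Real.log ‖g τ‖) F (𝓝 (Real.log ‖g t₂‖)) :=
    (hg.continuousAt.tendsto.comp hco).norm.log (norm_ne_zero_iff.2 hg0)
  have lk : Filter.Tendsto (fun τ : ℍ => Real.log (Real.pi * T / (τ.im * t₂.im))) F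
      (𝓝 (Real.log (Real.pi * T / t₂.im ^ 2))) := by
    rw [sq]
    exact (tendsto_const_nhds.div (((continuous_im.tendsto t₂).mono_left hle).mul_const _)
      (by positivity)).log (by positivity)
  have lK : ∀ s : ℝ, Filter.Tendsto (fun τ : ℍ => ∑ X ∈ S, P.cX c X * P.z0 t₁ t₂ X *
      (s + Real.log (Real.pi * T / (τ.im * t₂.im)) + Real.log (X.det / P.p ^ 2))) F
      (𝓝 (∑ X ∈ S, P.cX c X * P.z0 t₁ t₂ X *
        (s + Real.log (Real.pi * T / t₂.im ^ 2) + Real.log (X.det / P.p ^ 2)))) := fun s =>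
    tendsto_finsetSum _ fun X _ => ((lk.const_add s).add_const _).const_mul _
  have ll : Filter.Tendsto (fun τ : ℍ => Real.log ‖(τ : ℂ) - t₂‖) F Filter.atBot := by
    have a1 : Filter.Tendsto (fun τ : ℍ => ‖(τ : ℂ) - t₂‖) F (𝓝[≠] 0) :=
      tendsto_nhdsWithin_iff.2 ⟨tendsto_iff_norm_sub_tendsto_zero.1 hco, hpr.mono fun τ hτ h0 =>
        hτ.2 (UpperHalfPlane.ext (sub_eq_zero.1 (norm_eq_zero.1 h0)))⟩
    exact Real.tendsto_log_nhdsNE_zero.comp a1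
  have hsm : ∀ᶠ τ in F, ∀ X ∈ S, 4 * Real.pi * T * Rm X t₁ τ / P.p ^ 2 ≤ 1 := by
    refine (Filter.eventually_all_finset S).2 fun X hX => ?_
    have a1 := ((((rm_continuous X).tendsto (t₁, t₂)).comp hpair).const_mul
      (4 * Real.pi * T)).div_const ((P.p : ℝ) ^ 2)
    simp only [(hS X hX).2, mul_zero, zero_div] at a1
    exact a1.eventually_le_const one_pos
  have key : ∀ᶠ τ : ℍ in F,
      12 * P.p * P.cp c * Real.log P.p - 6 * P.p * (P.Psi χ c T t₁ τ + P.Rg c T t₁ t₂ t₁ τ) +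
        6 * P.p * (∑ X ∈ S, P.cX c X * P.z0 t₁ t₂ X *
          (-1 + Real.log (Real.pi * T / (τ.im * t₂.im)) + Real.log (X.det / P.p ^ 2))) -
        Real.log ‖g τ‖ ≤ (μ - 12 * P.p * P.nz c t₁ t₂) * Real.log ‖(τ : ℂ) - t₂‖ ∧
      (μ - 12 * P.p * P.nz c t₁ t₂) * Real.log ‖(τ : ℂ) - t₂‖ ≤
        12 * P.p * P.cp c * Real.log P.p - 6 * P.p * P.Psi χ c T t₁ τ +
        6 * P.p * (∑ X ∈ S, P.cX c X * P.z0 t₁ t₂ X *
          (1 + Real.log (Real.pi * T / (τ.im * t₂.im)) + Real.log (X.det / P.p ^ 2))) -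
        Real.log ‖g τ‖ := by
    filter_upwards [hpr, hsm, hco.eventually hfg,
      hco.eventually (hg.continuousAt.eventually_ne hg0)] with τ hτ h1 h2 h3
    have hn : 0 < ‖(τ : ℂ) - t₂‖ :=
      norm_pos_iff.2 fun h0 => hτ.2 (UpperHalfPlane.ext (sub_eq_zero.1 h0))
    have hy' := τ.im_pos
    have e₁ := log_gf hχ h hp hτ.1 hT t₁ t₂
    rw [Function.comp_apply, ofComplex_apply] at h2
    rw [h2, norm_smul, norm_pow, Real.log_mul (pow_pos hn μ).ne' (norm_ne_zero_iff.2 h3),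
      Real.log_pow, hsum] at e₁
    have e₂ : ∀ X ∈ S, 0 < 4 * Real.pi * T * Rm X t₁ τ / P.p ^ 2 ∧
        Real.log (4 * Real.pi * T * Rm X t₁ τ / P.p ^ 2) =
          Real.log (Real.pi * T / (τ.im * t₂.im)) + Real.log (X.det / P.p ^ 2) +
            2 * Real.log ‖(τ : ℂ) - t₂‖ := fun X hX => by
      have a1 := hd X hX
      have a2 : 4 * Real.pi * T * Rm X t₁ τ / P.p ^ 2 =
          Real.pi * T / (τ.im * t₂.im) * (X.det / P.p ^ 2) * ‖(τ : ℂ) - t₂‖ ^ 2 := by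
        rw [Rm_eq_rho (rm0_det_pos (hS X hX).2 (hS X hX).1), rm0_mob (hS X hX).2 (hS X hX).1, rho,
          Complex.normSq_eq_norm_sq]
        field_simp
      rw [a2, Real.log_mul (by positivity) (by positivity),
        Real.log_mul (by positivity) (by positivity), Real.log_pow]
      exact ⟨by positivity, by push_cast; ring⟩
    have e₃ : ∑ X ∈ S, P.cX c X * P.z0 t₁ t₂ X * beta (4 * Real.pi * T * Rm X t₁ τ / P.p ^ 2) ≤
        -(∑ X ∈ S, P.cX c X * P.z0 t₁ t₂ X *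
          (-1 + Real.log (Real.pi * T / (τ.im * t₂.im)) + Real.log (X.det / P.p ^ 2))) -
          P.nz c t₁ t₂ * (2 * Real.log ‖(τ : ℂ) - t₂‖) := by
      rw [hnz, Finset.sum_mul, ← Finset.sum_neg_distrib, ← Finset.sum_sub_distrib]
      refine Finset.sum_le_sum fun X hX => ?_
      have a1 := mul_le_mul_of_nonneg_left (beta_le_log (e₂ X hX).1 (h1 X hX))
        (cX_z0_nonneg hp t₁ t₂ X)
      rw [(e₂ X hX).2] at a1
      linarith
    have e₄ : -(∑ X ∈ S, P.cX c X * P.z0 t₁ t₂ X *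
          (1 + Real.log (Real.pi * T / (τ.im * t₂.im)) + Real.log (X.det / P.p ^ 2))) -
          P.nz c t₁ t₂ * (2 * Real.log ‖(τ : ℂ) - t₂‖) ≤
        ∑ X ∈ S, P.cX c X * P.z0 t₁ t₂ X * beta (4 * Real.pi * T * Rm X t₁ τ / P.p ^ 2) := by
      rw [hnz, Finset.sum_mul, ← Finset.sum_neg_distrib, ← Finset.sum_sub_distrib]
      refine Finset.sum_le_sum fun X hX => ?_
      have a1 := mul_le_mul_of_nonneg_left (beta_ge (e₂ X hX).1) (cX_z0_nonneg hp t₁ t₂ X)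
      rw [(e₂ X hX).2] at a1
      linarith
    have e₅ := mul_le_mul_of_nonneg_left e₃ (by positivity : (0 : ℝ) ≤ 6 * P.p)
    have e₆ := mul_le_mul_of_nonneg_left (add_le_add e₄ (rg_nonneg hp T t₁ t₂ t₁ τ))
      (by positivity : (0 : ℝ) ≤ 6 * P.p)
    constructor <;> linarith
  have lU := ((tendsto_const_nhds (x := 12 * P.p * P.cp c * Real.log P.p).sub
    (lΨ.const_mul (6 * P.p : ℝ))).add ((lK 1).const_mul (6 * P.p : ℝ))).sub lg
  have hμ := LC_order ll (((tendsto_const_nhds.sub ((lΨ.add lR).const_mul _)).add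
    ((lK (-1)).const_mul _)).sub lg) lU key
  refine ⟨μ, g t₂, hg0, sub_eq_zero.1 hμ, ?_, ?_⟩
  · refine (hg.continuousAt.tendsto.mono_left nhdsWithin_le_nhds).congr' ?_
    filter_upwards [self_mem_nhdsWithin, mem_nhdsWithin_of_mem_nhds hfg] with z hz hz'
    rw [Function.comp_apply] at hz'
    rw [hz', smul_eq_mul, mul_div_cancel_left₀ _ (pow_ne_zero μ (sub_ne_zero.2 hz))]
  · rw [hsum]
    refine sub_nonneg.1 (ge_of_tendsto lU (key.mono fun τ hτ => ?_))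
    rw [hμ, zero_mul] at hτ
    exact hτ.2

end Par

end

end Pool.Agent.P.MP_a60a76_nt.Sz
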