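import Pool.Agent.P.MP_a60a76_nt.Sz.Ty
import Pool.Agent.P.MP_a60a76_nt.Sz.Prod
import Pool.Agent.P.MP_a60a76_nt.Sz.Arch
import Pool.Agent.P.MP_a60a76_nt.Sz.Grow
import Pool.Agent.P.MP_a60a76_nt.Sz.Amp

namespace Pool.Agent.P.MP_a60a76_nt.Sz

open UpperHalfPlane MeasureTheory SP
open scoped MatrixGroups UpperHalfPlane Matrix Modular Topology Classical ArithmeticFunction.sigma

noncomputable section

/-! The bound for one type. -/

theorem TyBd_det (P : Par) (g : SL(2, ℤ)) : (P.Dm * red P.p g).det = P.m := by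
  rw [Matrix.det_mul, P.det_Dm, red_det, mul_one]

theorem TyBd_gf {P : Par} {c : P.D → ℤ → ℤ} (hc : P.IsF0 c) (hp : P.Pos c) (g : SL(2, ℤ))
    (t₁ t₂ : ℍ) : P.gf c P.Dm (g • t₁) t₂ = P.gf c (P.Dm * red P.p g) t₁ t₂ := by
  have h := Par.gf_smul hc hp P.det_Dm g 1 t₁ t₂
  have e : P.tw (P.rG g 1) P.Dm = P.Dm * red P.p g := by
    show (((P.rg 1)⁻¹ : P.GF) : P.MF) * P.Dm * (P.rg g : P.MF) = _
    rw [P.rg_one, inv_one, Units.val_one, Matrix.one_mul, P.coe_rg]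
  rwa [one_smul, e] at h

theorem Par.key_ineq {P : Par} {A B : Crv} (g : SL(2, ℤ)) (h : P.Lnk A B (P.Dm * red P.p g))
    (hz : Proper A.t B.t) {v₁ v₂ : ℕ} {S : Finset ℕ} (hS : ∀ l ∈ S, P.IsTy A B v₁ v₂ l)
    (hne : S.Nonempty) {K₀ : ℕ} (hK : K₀ < P.p) {c : P.D → ℤ → ℤ} (hc : P.IsF0 c)
    (hp : P.Pos c) :
    P.pp c (P.aa (∑ l ∈ S, Real.log l) (Real.log (A.j.den * B.j.den : ℕ)) (v₁ * v₂) K₀) ≤
      -(CT 1 (P.pr c (P.rr (g • A.t) B.t))).re + P.cp c *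
        (2 * Real.log P.p + (P.p - 1) * Real.log (A.j.den * B.j.den : ℕ) / (6 * P.p)) := by
  obtain ⟨l₀, hl₀⟩ := hne
  have hT := hS l₀ hl₀
  have hX := TyBd_det P g
  obtain ⟨G, hG⟩ := Par.gi_rat hc hp hX (den_ne_one (hT.val₁ ▸ hT.pos₁))
    (den_ne_one (hT.val₂ ▸ hT.pos₂)) h
  have hz' : Proper (g • A.t) B.t := by simpa only [one_smul] using hz.smul g 1
  obtain ⟨h0, h1⟩ := Par.arch hc hp hz'
  rw [TyBd_gf hc hp] at h0 h1
  have hp0 := P.p_pos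
  have hG0 : G ≠ 0 := by
    rintro rfl
    exact mul_ne_zero (zpow_ne_zero _ P.p_ne) h0 (hG.symm.trans Rat.cast_zero)
  have hlog : Real.log |(G : ℝ)| = 12 * P.p * P.mm c * Real.log P.p +
      Real.log ‖P.gf c (P.Dm * red P.p g) A.t B.t‖ := by
    have e : |(G : ℝ)| = (P.p : ℝ) ^ (12 * P.p * P.mm c : ℤ) *
        ‖P.gf c (P.Dm * red P.p g) A.t B.t‖ := by
      rw [← Real.norm_eq_abs, ← Complex.norm_real, Complex.ofReal_ratCast, hG, Par.gi, norm_mul,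
        norm_zpow, Complex.norm_natCast]
    rw [e, Real.log_mul (zpow_ne_zero _ hp0.ne') (norm_ne_zero_iff.2 h0), Real.log_zpow]
    push_cast
    ring
  have hd : 0 < A.j.den * B.j.den := Nat.mul_pos A.j.den_pos B.j.den_pos
  have h2 := prod_formula hG0 hd (P.KK c) (P.exc c (v₁ * v₂) K₀) S (fun l hl => (hS l hl).prime)
    fun l hl => by
      split_ifs with hm
      · exact (hS l hm).bound h hX hc hp hG hK
      · rw [sub_zero]
        exact Par.gi_bound hc hp hX hG hl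
  have h3 := Par.pp_aa hc.toIsF (∑ l ∈ S, Real.log l) (Real.log (A.j.den * B.j.den : ℕ))
    (Nat.mul_pos hT.pos₁ hT.pos₂) K₀
  have h4 : (P.KK c : ℝ) = (P.p - 1) * P.cp c + P.mm c := by
    rw [Par.KK]
    push_cast
    ring
  rw [hlog, h4] at h2
  refine le_of_mul_le_mul_left ?_ (show (0 : ℝ) < 6 * P.p by linarith)
  have h5 : 6 * (P.p : ℝ) * (-(CT 1 (P.pr c (P.rr (g • A.t) B.t))).re + P.cp c *
      (2 * Real.log P.p + (P.p - 1) * Real.log (A.j.den * B.j.den : ℕ) / (6 * P.p))) =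
      -(6 * P.p * (CT 1 (P.pr c (P.rr (g • A.t) B.t))).re) + 12 * P.p * P.cp c * Real.log P.p +
        (P.p - 1) * P.cp c * Real.log (A.j.den * B.j.den : ℕ) := by
    field_simp
    ring
  rw [h3, h5]
  linarith

theorem TyBd_log (P : Par) : 1 ≤ Real.log P.p := by
  have h5 : (5 : ℝ) ≤ P.p := by exact_mod_cast P.five
  rw [Real.le_log_iff_exp_le P.p_pos]
  linarith [Real.exp_one_lt_d9]

theorem TyBd_den (A B : Crv) : 0 ≤ Real.log (A.j.den * B.j.den : ℕ) ∧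
    Real.log (A.j.den * B.j.den : ℕ) ≤ 2 * hgt A B := by
  refine ⟨Real.log_natCast_nonneg _, ?_⟩
  obtain ⟨h1, h2, -⟩ := log_ht_le_hgt A B
  rw [Nat.cast_mul, Real.log_mul (by exact_mod_cast A.j.den_nz) (by exact_mod_cast B.j.den_nz)]
  linarith [log_den_le A.j, log_den_le B.j]

/-- The inequality before the final bookkeeping. -/
theorem TyBd_main {P : Par} {A B : Crv} (g : SL(2, ℤ)) (h : P.Lnk A B (P.Dm * red P.p g))
    (hz : Proper A.t B.t) {v₁ v₂ : ℕ} {S : Finset ℕ} (hS : ∀ l ∈ S, P.IsTy A B v₁ v₂ l)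
    (hne : S.Nonempty) {K : ℕ} (hK : K < P.p) {w : P.D → ℝ} (hw0 : ∀ k, 0 ≤ w k)
    (he : ∀ k, w (-k) = w k) (hw : P.M (fun k => (w k : ℂ)) = fun k => (w k : ℂ))
    (hI : ∀ z : P.F, z ≠ 0 → w (P.up z) = 0) :
    ∑ k, w k * ∑' n : ℕ, P.aa (∑ l ∈ S, Real.log l) (Real.log (A.j.den * B.j.den : ℕ)) (v₁ * v₂)
        K k (n + 1) * Real.exp (-(2 * Real.pi * (n + 1) / P.p ^ 2)) ≤
      w 0 * ((CT 1 (P.pr P.oneI (P.rr (g • A.t) B.t))).re +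
        (2 * Real.log P.p + (P.p - 1) * Real.log (A.j.den * B.j.den : ℕ) / (6 * P.p))) := by
  obtain ⟨ρ, hq, hs, hl⟩ := P.rr_qs (g • A.t) B.t
  obtain ⟨C, hC⟩ := P.aa_bound (∑ l ∈ S, Real.log l) (Real.log (A.j.den * B.j.den : ℕ))
    (v₁ * v₂) K
  exact P.dual_ineq hq hs hl hC (P.aa_supp _ _ _ _)
    (fun c hc hp => Par.key_ineq g h hz hS hne hK hc hp) hw0 he hw hI (P.rr_I _ _ hw0 hw)

theorem type_bound : ∃ C : ℝ, 0 ≤ C ∧ ∀ (P : Par) (A B : Crv) (X : P.MF), X.det = P.m →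
    P.Lnk A B X → Proper A.t B.t → ∀ v₁ v₂ : ℕ, 36 * (v₁ * v₂) ≤ P.p ^ 2 →
    ∀ S : Finset ℕ, (∀ l ∈ S, P.IsTy A B v₁ v₂ l) →
    P.p * ∑ l ∈ S, Real.log l ≤ C * (Real.log P.p + hgt A B) := by
  obtain ⟨c, C₁, hc, hC₁, hamp⟩ := amp_lower
  obtain ⟨C₂, hC₂⟩ := phi_one_le
  obtain ⟨C₃, hC₃⟩ := im_le_log_J
  have a₂ := abs_nonneg C₂
  have a₃ := abs_nonneg C₃
  refine ⟨(2 * C₁ + 4 + 4 * |C₂| * (|C₃| + 1)) / c, by positivity,
    fun P A B X hX h hz v₁ v₂ hv S hS => ?_⟩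
  have hlp := TyBd_log P
  obtain ⟨hA, hB, hh⟩ := log_ht_le_hgt A B
  rcases S.eq_empty_or_nonempty with rfl | hne
  · rw [Finset.sum_empty, mul_zero]
    positivity
  obtain ⟨g, rfl⟩ := P.exists_Dm_mul X hX
  obtain ⟨l₀, hl₀⟩ := id hne
  have hT := hS l₀ hl₀
  obtain ⟨h₂, hsq⟩ := hT.isSquare h hX
  have e : P.rd (4 * P.m * ((v₁ * v₂ : ℕ) : P.D)) = 4 * (P.m : P.F) * ((v₁ * v₂ : ℕ) : P.F) := by
    rw [map_mul, map_mul, map_natCast, map_intCast, map_ofNat]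
  have e0 : 4 * (P.m : P.F) * ((v₁ * v₂ : ℕ) : P.F) ≠ 0 := by
    refine mul_ne_zero (mul_ne_zero ?_ P.m_ne) fun h0 => ?_
    · rw [show (4 : P.F) = 2 * 2 by norm_num]
      exact mul_ne_zero P.two_ne P.two_ne
    · rcases (Nat.Prime.dvd_mul P.prime).1 ((ZMod.natCast_eq_zero_iff _ _).1 h0) with h3 | h3
      · exact hT.ndvd h3
      · exact h₂ h3
  obtain ⟨k₀, hk, hk0⟩ := P.exists_sq (e ▸ hsq) (e ▸ e0)
  obtain ⟨hH0, hH⟩ := TyBd_den A B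
  have hS0 : 0 ≤ ∑ l ∈ S, Real.log l := Finset.sum_nonneg fun l _ => Real.log_natCast_nonneg l
  obtain ⟨K, hK1, hK2, hK⟩ := hamp P (v₁ * v₂) _ _ k₀ (Nat.mul_pos hT.pos₁ hT.pos₂) hv hS0 hH0
    hk0 hk
  obtain ⟨w, hw0, he, hw, hI, hw2, hwn⟩ := P.exists_amp hk0 hK1 hK2
  have h1 := (hK w hw0 hI hw2 hwn).trans (TyBd_main g h hz hS hne (by omega) hw0 he hw hI)
  rw [hw2] at h1
  have h3 := hC₂ P g A.t B.t A.half_le_im B.half_le_im
  have y₁ := (hC₃ A.t A.fd).trans (add_le_add (le_abs_self C₃) ((log_max_J_le A).trans hA))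
  have y₂ := (hC₃ B.t B.fd).trans (add_le_add (le_abs_self C₃) ((log_max_J_le B).trans hB))
  have h4 : C₂ * (A.t.im + B.t.im) ≤ |C₂| * (2 * (|C₃| * Real.log P.p) + 2 * hgt A B) := by
    refine mul_le_mul (le_abs_self _) ?_ (add_pos A.t.im_pos B.t.im_pos).le a₂
    linarith [le_mul_of_one_le_right a₃ hlp]
  have hp0 := P.p_pos
  have h5 : (P.p - 1) * Real.log (A.j.den * B.j.den : ℕ) / (6 * P.p) ≤ hgt A B := by
    rw [div_le_iff₀ (by linarith)]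
    nlinarith
  have h6 : C₁ * Real.log (A.j.den * B.j.den : ℕ) ≤ C₁ * (2 * hgt A B) :=
    mul_le_mul_of_nonneg_left hH hC₁.le
  rw [div_mul_eq_mul_div, le_div_iff₀ hc]
  have b₁ : 0 ≤ C₁ * Real.log P.p := by positivity
  have b₂ : 0 ≤ |C₂| * Real.log P.p := by positivity
  have b₃ : 0 ≤ |C₂| * |C₃| * hgt A B := by positivity
  nlinarith

end

end Pool.Agent.P.MP_a60a76_nt.Sz
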