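import Pool.Agent.P.MP_a60a76_nt.Sz.HFam
import Pool.Agent.P.MP_a60a76_nt.Sz.L2
import Pool.Agent.P.MP_a60a76_nt.Sz.LC
import Pool.Agent.P.MP_a60a76_nt.Sz.Deu
import Pool.Agent.P.MP_a60a76_nt.Sz.Ty
import Pool.Agent.P.MP_a60a76_nt.Sz.TyBd

namespace Pool.Agent.P.MP_a60a76_nt.Sz

open UpperHalfPlane hiding J
open MeasureTheory SP
open scoped MatrixGroups UpperHalfPlane Matrix Modular Topology Classical ArithmeticFunction.sigma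

noncomputable section

/-! Rationality and local bounds of the leading coefficient. -/

namespace Par

variable {P : Par} {c : P.D → ℤ → ℤ} {X : P.MF} {A B : Crv} {l μ : ℕ} {G : ℚ}

theorem HRat_exp (h : P.IsF0 c) (hp : P.Pos c) (μ v : ℕ) :
    ((P.KK c + 2 * μ) * v : ℝ) = ((((P.KK c).toNat + 2 * μ) * v : ℕ) : ℝ) := by
  obtain ⟨n, hn⟩ := Int.eq_ofNat_of_zero_le (KK_nonneg h hp)
  rw [hn, Int.toNat_natCast]
  push_cast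
  rfl

theorem fam_rat {t₁ t₂ : ℍ} {j₁ j₂ : ℚ} (h₁ : J t₁ = j₁) (h₂ : J t₂ = j₂) (hL : P.Lk t₁ t₂ X)
    {F : P.MF → ℍ → ℍ → ℂ} {R : Subring ℂ} {n : ℕ} {a : P.GG → PS}
    (hF : P.Fam R n (fun γ => F (P.tw γ X)) a) : ∃ G : ℚ, (G : ℂ) = F X t₁ t₂ := by
  refine fix_rat _ fun u => ?_
  obtain ⟨δ, hδ⟩ := P.gal_lemma h₁ h₂ u.toRingEquiv
  obtain ⟨ρ₁, ρ₂, g₁, g₂, hρ⟩ := hL u.toRingEquiv
  obtain ⟨k₁, f₁, e₁⟩ := co_pm (s := t₁) (ρ := ρ₁) (δ := δ.1.1) fun o => by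
    obtain ⟨b, hb⟩ := P.tf_fam o
    exact (g₁.tf_eq o).symm.trans (hδ _ _ _ _ (hb ⊤ fun _ _ => trivial).fst)
  obtain ⟨k₂, f₂, e₂⟩ := co_pm (s := t₂) (ρ := ρ₂) (δ := δ.1.2) fun o => by
    obtain ⟨b, hb⟩ := P.tf_fam o
    exact (g₂.tf_eq o).symm.trans (hδ _ _ _ _ (hb ⊤ fun _ _ => trivial).snd)
  have e₃ := hδ _ _ _ _ hF
  have e₄ : P.tw (δ * P.rG k₁ k₂) X = X := by
    show (((δ.1.2 * P.rg k₂)⁻¹ : P.GF) : P.MF) * X * ((δ.1.1 * P.rg k₁ : P.GF) : P.MF) = X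
    rw [← e₁, ← e₂, mul_assoc, ← hρ, ← mul_assoc, Units.inv_mul, one_mul]
  have e₅ := hF.geo δ k₁ k₂ t₁ t₂
  simp only [e₄, f₁, f₂] at e₅
  simp only [tw_one] at e₃
  exact e₃.trans e₅.symm

theorem hg_rat (h : P.IsF0 c) (hp : P.Pos c) (hX : X.det = P.m) (hL : P.Lk A.t B.t X) (μ : ℕ) :
    ∃ G : ℚ, (G : ℂ) = P.Hop μ (P.gj c X A.t) B.t := by
  obtain ⟨a, ha⟩ := gj_fam h hp hX
  obtain ⟨H, hH, -⟩ := P.hop_fam (P.KK c).toNat μ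
  exact fam_rat (F := fun Y t₁ => P.Hop μ (P.gj c Y t₁)) A.J_eq B.J_eq hL
    (hH _ _ _ (ha ⊤ trivial).1)

theorem hg_bound (h : P.IsF0 c) (hp : P.Pos c) (hX : X.det = P.m)
    (hG : (G : ℂ) = P.Hop μ (P.gj c X A.t) B.t) (hl : l.Prime) : (padicNorm l G : ℝ) ≤
      (l : ℝ) ^ ((P.KK c + 2 * μ) * padicValNat l (A.j.den * B.j.den) : ℝ) := by
  have : Fact l.Prime := ⟨hl⟩
  obtain ⟨ι, hι⟩ := exists_place l
  obtain ⟨a, ha⟩ := gj_fam h hp hX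
  obtain ⟨H, hH, -⟩ := P.hop_fam (P.KK c).toNat μ
  have h1 := (hH _ _ _ (ha _ (zp_mem_Ai (ι : ℂ →+* PadicComplex l) 1)).1).int_bound 1 A.t B.t
  simp only [tw_one, RingHom.coe_coe] at h1
  rw [← hG, A.J_eq, B.J_eq, hι, hι, hι, max_padicNorm hl, max_padicNorm hl,
    ← pow_add, ← pow_mul, ← padicValNat.mul A.j.den_nz B.j.den_nz] at h1
  rw [HRat_exp h hp, Real.rpow_natCast, mul_comm]
  exact h1

theorem hg_cusp (h : P.IsF0 c) (hp : P.Pos c) (hX : X.det = P.m) (hL : P.Lnk A B X) {v₁ v₂ : ℕ}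
    (hT : P.IsTy A B v₁ v₂ l) (hG : (G : ℂ) = P.Hop μ (P.gj c X A.t) B.t) {K₀ : ℕ}
    (hK : K₀ < P.p) : (padicNorm l G : ℝ) ≤
      (l : ℝ) ^ ((P.KK c + 2 * μ) * padicValNat l (A.j.den * B.j.den) -
        P.exc c (v₁ * v₂) K₀ : ℝ) := by
  have : Fact l.Prime := ⟨hT.prime⟩
  obtain ⟨L⟩ := P.exists_plc l hT.ne
  obtain ⟨δ, s, t, hs, ht, hsn, htn, ha, e₁, e₂⟩ := Ty_key hL hX hT L
  have hd : (P.tw δ X).det = P.m := by rw [det_tw, hX]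
  have hl : (1 : ℝ) < l := by exact_mod_cast hT.prime.one_lt
  have hl0 : (0 : ℝ) < l := by linarith
  obtain ⟨a, hfam⟩ := gj_fam h hp hX
  obtain ⟨H, hH, hH'⟩ := P.hop_fam (P.KK c).toNat μ
  have hz := zp_mem_Ai (P := P) (L.ι : ℂ →+* PadicComplex l) 1
  obtain ⟨hF, hb⟩ := hfam _ hz
  obtain ⟨b, hb1, hb2⟩ := hb δ
  have h1 := ha _ _ _ (hH _ _ _ hF)
  simp only [tw_one] at h1
  rw [← hG] at h1
  have h2 := congrArg norm h1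
  have hs' : ‖s ^ P.p‖ < 1 := by
    rw [norm_pow]
    exact pow_lt_one₀ (norm_nonneg _) hs P.prime.ne_zero
  have ht' : ‖t ^ P.p‖ < 1 := by
    rw [norm_pow]
    exact pow_lt_one₀ (norm_nonneg _) ht P.prime.ne_zero
  rw [norm_mul, norm_pow, norm_mul, norm_evq_dlc hs', norm_evq_dlc ht', norm_pow,
    norm_pow, hsn, htn, L.norm_rat] at h2
  have h3 := gs_Pf h hp hd (L.ι : ℂ →+* PadicComplex l) hl hT.ndvd
    (Ty_sq hd hT.ndvd e₁ e₂).1 (norm_nonneg s) (norm_nonneg t) hsn htn e₁ e₂ hK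
  have h4 := h3.mul (gs_of_inA hb1 (norm_nonneg s) hs.le (norm_nonneg t) ht.le) (norm_nonneg s)
    (norm_nonneg t)
  rw [← hb2, mul_one] at h4
  have h5 := (hH' _ _ _ _ _ _ (norm_nonneg s) hs.le (norm_nonneg t) ht.le h4).norm_ev
  rw [← h2, ← mul_inv, ← pow_add, ← hT.val₁, ← hT.val₂,
    ← padicValNat.mul A.j.den_nz B.j.den_nz, inv_pow, ← pow_mul, ← div_eq_mul_inv,
    div_le_iff₀ (pow_pos hl0 _), hT.val₁, hT.val₂] at h5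
  rw [HRat_exp h hp, sub_eq_add_neg, Real.rpow_add hl0, Real.rpow_natCast, ← Int.cast_neg,
    Real.rpow_intCast, mul_comm, mul_comm (_ + 2 * μ)]
  exact h5

theorem hg_good (h : P.IsF0 c) (hp : P.Pos c) (g : SL(2, ℤ)) (hl : l.Prime) (h5 : 5 ≤ l)
    (hne : l ≠ P.p) {K : Type} [NormedField K] [IsUltrametricDist K] {ι : ℂ →+* K}
    (hι : Plv ι l) {s₁ s₂ : ℍ} (h₁ : P.Nr ι l A.t s₁) (h₂ : P.Nr ι l B.t s₂)
    (hG : (G : ℂ) = P.Hop μ (P.gj c (P.Dm * red P.p g) A.t) B.t) :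
    (padicNorm l G : ℝ) ≤ (l : ℝ) ^ (μ - 2 * P.p * P.nz c (g • s₁) s₂ : ℝ) := by
  have hX := TyBd_det P g
  have hl1 : (1 : ℝ) < l := by exact_mod_cast hl.one_lt
  have hl0 : (0 : ℝ) < l := by linarith
  obtain ⟨a, ha⟩ := gj_fam h hp hX
  obtain ⟨H, hH, -⟩ := P.hop_fam (P.KK c).toNat μ
  have hI := (hH _ _ _ (ha _ (zp_mem_Ai ι 1)).1).ig 1
  simp only [tw_one] at hI
  obtain ⟨m, hm⟩ := nz_nat h.toIsF hp (g • s₁) s₂
  have v1 : Van (12 * P.p * m) (P.gf c P.Dm) (g • s₁) ((1 : SL(2, ℤ)) • s₂) := by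
    rw [one_smul]
    exact van_gf h hp _ _ (by rw [hm]; push_cast; ring)
  have v2 : Van (12 * P.p * m) (P.gj c (P.Dm * red P.p g)) s₁ s₂ := by
    have v3 := (v1.smul g 1).const_mul ((P.p : ℂ) ^ (12 * P.p * (-P.cp c).toNat))
    simp only [one_smul, TyBd_gf h hp] at v3
    exact v3
  have v4 := (v2.lop (gj_hol h hp hX) μ).const_mul ((P.p : ℂ) ^ (2 * μ) / μ.factorial)
  have hr : ∀ {x : ℝ}, 0 ≤ x → x ^ 2 ≤ (l : ℝ)⁻¹ → x ≤ (l : ℝ) ^ (-(1 / 2) : ℝ) := fun _ h2 => by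
    refine le_of_pow_le_pow_left₀ (n := 2) (by norm_num) (by positivity) ?_
    rwa [← Real.rpow_natCast ((l : ℝ) ^ _), ← Real.rpow_mul hl0.le,
      show (-(1 / 2) * (2 : ℕ) : ℝ) = -1 by norm_num, Real.rpow_neg_one]
  have key := l2 (hι.norm_p hl hne) (hι.norm_six hl h5) h₁.1 h₂.1 h₁.2.1 h₂.2.1
    (Real.rpow_le_one_of_one_le_of_nonpos hl1.le (by norm_num))
    (hr (norm_nonneg _) h₁.2.2) (hr (norm_nonneg _) h₂.2.2) hI v4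
  rw [← hG, hι] at key
  refine le_of_pow_le_pow_left₀ (n := 3) (by norm_num) (by positivity) (key.trans ?_)
  rw [← Real.rpow_natCast, ← Real.rpow_natCast, ← Real.rpow_mul hl0.le, ← Real.rpow_mul hl0.le, hm]
  refine Real.rpow_le_rpow_of_exponent_le hl1.le ?_
  have e : ((12 * P.p * m : ℕ) : ℝ) ≤ ((12 * P.p * m - μ : ℕ) : ℝ) + μ := by
    exact_mod_cast le_tsub_add
  have e0 : (0 : ℝ) ≤ μ := Nat.cast_nonneg _
  push_cast at e ⊢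
  linarith

end Par

end

end Pool.Agent.P.MP_a60a76_nt.Sz
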