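import Pool.Agent.P.MP_a60a76_nt.Sz.Dual2
import Pool.Agent.P.MP_a60a76_nt.Sz.PhiId

namespace Pool.Agent.P.MP_a60a76_nt.Sz

open UpperHalfPlane hiding J
open MeasureTheory SP
open scoped MatrixGroups UpperHalfPlane Matrix Modular Topology Classical ArithmeticFunction.sigma

noncomputable section

/-! The corrected Green function. -/

/-- The coefficient of the correction. -/
def Hl_c (N Y : ℝ) (t₁ t₂ : ℍ) (X : MZ) : ℝ :=
  if 0 < X.det ∨ X = 0 then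
    ∫ r in (1 : ℝ)..Y, Real.exp (-(4 * Real.pi * Rm X t₁ t₂ / N * r)) / r else 0

theorem Hl_int_le {a Y : ℝ} (ha : 0 ≤ a) (hY : 1 ≤ Y) :
    |∫ r in (1 : ℝ)..Y, Real.exp (-(a * r)) / r| ≤ Real.exp (-a) * |Y - 1| := by
  rw [← Real.norm_eq_abs]
  refine intervalIntegral.norm_integral_le_of_norm_le_const fun r hr => ?_
  rw [Set.uIoc_of_le hY] at hr
  have h1 : 1 ≤ r := hr.1.le
  have h0 : 0 < r := one_pos.trans_le h1
  rw [Real.norm_eq_abs, abs_of_pos (by positivity)]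
  refine (div_le_self (Real.exp_pos _).le h1).trans (Real.exp_le_exp.2 ?_)
  exact neg_le_neg (le_mul_of_one_le_right ha h1)

theorem Hl_summable (t₁ t₂ : ℍ) {N Y y : ℝ} (hN : 0 < N) (hY : 1 ≤ Y) (hy : 0 < y) :
    Summable fun X : MZ => Real.exp (-(2 * Real.pi * X.det / N * y)) * |Hl_c N Y t₁ t₂ X| := by
  obtain ⟨m, hm0, hm1, hm2⟩ : ∃ m : ℝ, 0 < m ∧ m ≤ 1 ∧ m ≤ y :=
    ⟨min 1 y, lt_min one_pos hy, min_le_left _ _, min_le_right _ _⟩
  refine Summable.of_nonneg_of_le (fun X => by positivity) (fun X => ?_)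
    ((summable_Th t₁ t₂ (div_pos hm0 hN)).mul_right |Y - 1|)
  unfold Hl_c
  split_ifs with h
  · have hR := Rm_nonneg X t₁ t₂
    have hd : (0 : ℝ) ≤ X.det := by
      rcases h with h | h
      · exact_mod_cast h.le
      · simp [h]
    have ha : 0 ≤ 4 * Real.pi * Rm X t₁ t₂ / N := by positivity
    have hb : 0 ≤ 2 * Real.pi * X.det / N := by positivity
    refine (mul_le_mul_of_nonneg_left (Hl_int_le ha hY) (Real.exp_pos _).le).trans ?_
    rw [← mul_assoc, ← Ka_exp_mul]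
    refine mul_le_mul_of_nonneg_right (mul_le_mul (Real.exp_le_exp.2 ?_) (Real.exp_le_exp.2 ?_)
      (Real.exp_pos _).le (Real.exp_pos _).le) (abs_nonneg _)
    · exact neg_le_neg (mul_le_mul_of_nonneg_left hm2 hb)
    · exact neg_le_neg (mul_le_of_le_one_right ha hm1)
  · rw [abs_zero, mul_zero]
    positivity

theorem Hl_Bf_add (t₁ t₂ : ℍ) {N Y y : ℝ} (hY : 1 ≤ Y) (hy : 0 < y) (h : y ≤ Y) (X : MZ) :
    0 ≤ Bf (0 < X.det ∨ X = 0) (4 * Real.pi * Rm X t₁ t₂ / N) y + Hl_c N Y t₁ t₂ X := by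
  unfold Bf Hl_c
  split_ifs
  · rw [neg_add_eq_sub, intervalIntegral.integral_interval_sub_left
      (Ka_ii _ (one_pos.trans_le hY)) (Ka_ii _ hy)]
    refine intervalIntegral.integral_nonneg h fun r hr => ?_
    exact div_nonneg (Real.exp_pos _).le (hy.le.trans hr.1)
  · rw [Ka_tail hy, add_zero]
    exact beta_nonneg _

theorem Hl_Bf_top (t₁ t₂ : ℍ) {N T : ℝ} (hT : 0 < T) (X : MZ) :
    Bf (0 < X.det ∨ X = 0) (4 * Real.pi * Rm X t₁ t₂ / N) T + Hl_c N T t₁ t₂ X =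
      if 0 < X.det ∨ X = 0 then 0 else beta (4 * Real.pi * T * Rm X t₁ t₂ / N) := by
  unfold Bf Hl_c
  split_ifs
  · exact neg_add_cancel _
  · rw [Ka_tail hT, add_zero]
    congr 1
    ring

theorem Hl_im_iy {y : ℝ} (hy : 0 < y) : (iy y).im = y := by
  have := congrArg Complex.im (coe_iy hy)
  simpa using this

namespace Par

variable (P : Par)

theorem Hl_eq (t₁ t₂ : ℍ) (Y : ℝ) (k : P.D) (τ : ℍ) : P.hl t₁ t₂ Y k τ =
    ∑' X : MZ, P.ind k X * (ee (τ * X.det / P.p ^ 2) * (Hl_c (P.p ^ 2) Y t₁ t₂ X : ℝ)) := rfl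

theorem Hl_summ (t₁ t₂ : ℍ) {Y : ℝ} (hY : 1 ≤ Y) (k : P.D) (τ : ℍ) :
    Summable fun X : MZ =>
      P.ind k X * (ee (τ * X.det / P.p ^ 2) * (Hl_c (P.p ^ 2) Y t₁ t₂ X : ℝ)) := by
  refine Summable.of_norm_bounded (Hl_summable t₁ t₂ (pow_pos P.p_pos 2) hY τ.im_pos) fun X => ?_
  refine (P.Ka_norm_le k X _).trans (le_of_eq ?_)
  rw [norm_mul, P.Ka_norm_ee, Complex.norm_real, Real.norm_eq_abs]

theorem hl_qs (t₁ t₂ : ℍ) {Y : ℝ} (hY : 1 ≤ Y) : ∃ ρ : P.D → ℤ → ℂ,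
    (∀ k, QS (P.p ^ 2) (ρ k) (P.hl t₁ t₂ Y k)) ∧ (∀ k ν, ρ k ν ≠ 0 → (ν : P.D) = P.Q k) ∧
      (∀ k, ∀ ν < 0, ρ k ν = 0) ∧ ∀ k, ρ k 0 = if k = 0 then (Real.log Y : ℂ) else 0 := by
  refine ⟨fun k ν => ∑' X : (fun X : MZ => X.det) ⁻¹' {ν},
    P.ind k X * (Hl_c (P.p ^ 2) Y t₁ t₂ X : ℝ), fun k => ?_, fun k ν hν => ?_, ?_, fun k => ?_⟩
  rotate_left
  · by_contra hne
    refine hν ((tsum_congr fun X => ?_).trans tsum_zero)
    rw [ind, if_neg, zero_mul]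
    rintro ⟨h1, h2⟩
    have h3 : (X : MZ).det = ν := X.2
    exact hne (by rw [← h2, ← P.det_eq_Q h1, h3])
  · intro k ν hν
    refine (tsum_congr fun X => ?_).trans tsum_zero
    have h3 : (X : MZ).det = ν := X.2
    rw [Hl_c, if_neg, Complex.ofReal_zero, mul_zero]
    rintro (h | h)
    · omega
    · rw [h, Matrix.det_zero] at h3
      omega
  · have h0 : (0 : MZ) ∈ (fun X : MZ => X.det) ⁻¹' {0} := Matrix.det_zero
    refine (tsum_eq_single ⟨0, h0⟩ fun X hX => ?_).trans ?_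
    · have h3 : (X : MZ).det = 0 := X.2
      rw [Hl_c, if_neg, Complex.ofReal_zero, mul_zero]
      rintro (h | h)
      · omega
      · exact hX (Subtype.ext h)
    · have e : Hl_c (P.p ^ 2) Y t₁ t₂ 0 = Real.log Y := by
        rw [Hl_c, if_pos (Or.inr rfl), Rm_zero]
        simp only [mul_zero, zero_div, zero_mul, neg_zero, Real.exp_zero]
        rw [integral_one_div_of_pos one_pos (one_pos.trans_le hY), div_one]
      show P.ind k 0 * (Hl_c (P.p ^ 2) Y t₁ t₂ 0 : ℝ) = _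
      rw [e, ind]
      have h1 : P.InL 0 := by simp [InL]
      have h2 : P.kap 0 = 0 := by simp [kap]
      by_cases hk : k = 0
      · rw [if_pos ⟨h1, h2.trans hk.symm⟩, if_pos hk, one_mul]
      · rw [if_neg fun h => hk (h.2.symm.trans h2), if_neg hk, zero_mul]
  · refine ⟨⟨0, fun ν hν => ?_⟩, fun τ => ?_⟩
    · refine (tsum_congr fun X => ?_).trans tsum_zero
      have h3 : (X : MZ).det = ν := X.2
      rw [Hl_c, if_neg, Complex.ofReal_zero, mul_zero]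
      rintro (h | h)
      · omega
      · rw [h, Matrix.det_zero] at h3
        omega
    · have h1 := (P.Hl_summ t₁ t₂ hY k τ).hasSum.tsum_fiberwise fun X : MZ => X.det
      rw [P.Hl_eq]
      refine h1.congr_fun fun ν => ?_
      rw [← tsum_mul_right]
      refine tsum_congr fun X => ?_
      have h3 : (X : MZ).det = ν := X.2
      have e : (ν : ℂ) * τ / ((P.p ^ 2 : ℕ) : ℂ) = τ * ν / P.p ^ 2 := by
        push_cast
        ring
      rw [h3, e]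
      ring

theorem rs_qs (t₁ t₂ : ℍ) {Y : ℝ} (hY : 1 ≤ Y) : ∃ ρ : P.D → ℤ → ℂ,
    (∀ k, QS (P.p ^ 2) (ρ k) (P.rs t₁ t₂ Y k)) ∧ (∀ k ν, ρ k ν ≠ 0 → (ν : P.D) = P.Q k) ∧
      ∀ k, ∀ ν < -(P.p ^ 2 : ℤ), ρ k ν = 0 := by
  obtain ⟨ρ, h1, h2, h3⟩ := P.rr_qs t₁ t₂
  obtain ⟨ρ', h1', h2', h3', -⟩ := P.hl_qs t₁ t₂ hY
  refine ⟨fun k ν => ρ k ν + ρ' k ν, fun k => (h1 k).add (h1' k), fun k ν hν => ?_,
    fun k ν hν => ?_⟩
  · by_cases h0 : ρ k ν = 0
    · refine h2' k ν fun h4 => hν ?_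
      simp only [h0, h4, add_zero]
    · exact h2 k ν h0
  · have h4 : (0 : ℤ) ≤ (P.p : ℤ) ^ 2 := by positivity
    simp only [h3 k ν hν, h3' k ν (by omega), add_zero]

theorem ka_add_hl (t₁ t₂ : ℍ) {Y y : ℝ} (hY : 1 ≤ Y) (hy : 0 < y) (h : y ≤ Y) (k : P.D) :
    0 ≤ (P.ka t₁ t₂ k (iy y) + P.hl t₁ t₂ Y k (iy y)).re := by
  have h1 := (P.summable_ka t₁ t₂ k (iy y)).of_norm
  have h2 := P.Hl_summ t₁ t₂ hY k (iy y)
  rw [ka, P.Hl_eq, ← h1.tsum_add h2, Complex.re_tsum (h1.add h2)]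
  refine tsum_nonneg fun X => ?_
  have e : ee ((iy y : ℍ) * X.det / P.p ^ 2) =
      (Real.exp (-(2 * Real.pi * (y * X.det / (P.p : ℝ) ^ 2))) : ℝ) := by
    rw [ee, Complex.ofReal_exp, coe_iy hy]
    generalize X.det = D
    congr 1
    push_cast
    linear_combination (2 * Real.pi * (y * D / (P.p : ℂ) ^ 2)) * Complex.I_mul_I
  have hB := Hl_Bf_add t₁ t₂ (N := P.p ^ 2) hY hy h X
  rw [← mul_add, ← mul_add, ← Complex.ofReal_add, e, ← Complex.ofReal_mul, ind, Hl_im_iy hy]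
  split_ifs
  · rw [one_mul, Complex.ofReal_re]
    exact mul_nonneg (Real.exp_pos _).le hB
  · simp

theorem rs_pos (t₁ t₂ : ℍ) {Y y : ℝ} (hY : 1 ≤ Y) (hy : 0 < y) (h1 : y ≤ Y) (h2 : y⁻¹ ≤ Y) :
    0 ≤ (∑ k, P.rs t₁ t₂ Y k (iy y) +
      ((P.p / y ^ 2 : ℝ) : ℂ) * P.rs t₁ t₂ Y 0 (iy y⁻¹)).re := by
  have hG := P.isGr_ka t₁ t₂
  have hy' : 0 < y⁻¹ := inv_pos.2 hy
  have h3 := hG.eta_S 0 (iy y)
  have h4 := S_smul_iy hy'
  rw [inv_inv] at h4
  rw [h4, coe_iy hy, Mb] at h3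
  simp only [zero_mul, neg_zero, psi_zero, one_mul] at h3
  have h5 : ∑ k, P.eta (P.ka t₁ t₂) k (iy y) +
      ((P.p / y ^ 2 : ℝ) : ℂ) * P.eta (P.ka t₁ t₂) 0 (iy y⁻¹) = 0 := by
    have h6 := P.p_ne
    have h7 : (y : ℂ) ≠ 0 := by exact_mod_cast hy.ne'
    rw [h3, mul_pow, Complex.I_sq]
    push_cast
    field_simp
    ring
  have h6 : ∑ k, P.rs t₁ t₂ Y k (iy y) + ((P.p / y ^ 2 : ℝ) : ℂ) * P.rs t₁ t₂ Y 0 (iy y⁻¹) =
      ∑ k, (P.ka t₁ t₂ k (iy y) + P.hl t₁ t₂ Y k (iy y)) +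
        ((P.p / y ^ 2 : ℝ) : ℂ) * (P.ka t₁ t₂ 0 (iy y⁻¹) + P.hl t₁ t₂ Y 0 (iy y⁻¹)) := by
    simp only [rs, rr, Finset.sum_add_distrib, Finset.sum_sub_distrib]
    linear_combination -h5
  have hp := P.p_pos
  rw [h6, Complex.add_re, Complex.re_sum, Complex.re_ofReal_mul]
  exact add_nonneg (Finset.sum_nonneg fun k _ => P.ka_add_hl t₁ t₂ hY hy h1 k)
    (mul_nonneg (by positivity) (P.ka_add_hl t₁ t₂ hY hy' h2 0))

theorem Hl_cont {P : Par} {c : P.D → ℤ → ℤ} (h : P.IsF 0 c) (t₁ t₂ : ℍ) {Y : ℝ} (hY : 1 ≤ Y) :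
    Continuous (P.pr c (P.hl t₁ t₂ Y)) := by
  obtain ⟨ρ, h1, -⟩ := P.hl_qs t₁ t₂ hY
  exact continuous_finsetSum _ fun k _ => (c1_of_hol (h.hol k)).1.continuous.mul
    (c1_of_hol ((h1 k).hol (pow_pos P.prime.pos 2))).1.continuous

theorem Hl_hasSum {P : Par} {c : P.D → ℤ → ℤ} (h : P.IsF 0 c) (t₁ t₂ : ℍ) {Y y : ℝ} (hY : 1 ≤ Y)
    (hy : 0 < y) :
    HasSum (fun X : MZ => (((if P.InL X then (c (P.kap X) (-X.det) : ℝ) else 0) *
      Hl_c (P.p ^ 2) Y t₁ t₂ X : ℝ) : ℂ)) (CT y (P.pr c (P.hl t₁ t₂ Y))) := by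
  have : Countable MZ := inferInstanceAs (Countable (Fin 2 → Fin 2 → ℤ))
  have hp := P.p_pos
  have hc : ∀ k, Continuous fun x : ℝ => P.fn c k (ofComplex (x + y * Complex.I)) := fun k =>
    (c1_of_hol (h.hol k)).1.continuous.comp (PhiId_cont hy)
  obtain ⟨B, hB⟩ := (isCompact_uIcc (a := (0 : ℝ)) (b := 1)).exists_bound_of_continuousOn
    (continuous_pi hc).continuousOn
  have hs := (Hl_summable t₁ t₂ (N := P.p ^ 2) (by positivity) hY hy).mul_left B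
  have key := intervalIntegral.hasSum_integral_of_dominated_convergence (μ := volume) (a := 0)
    (b := 1) (f := fun x : ℝ => P.pr c (P.hl t₁ t₂ Y) (ofComplex (x + y * Complex.I)))
    (F := fun (X : MZ) (x : ℝ) => if P.InL X then (Hl_c (P.p ^ 2) Y t₁ t₂ X : ℂ) *
        (ee ((X.det : ℤ) * (ofComplex (x + y * Complex.I) : ℍ) / (P.p ^ 2 : ℕ)) *
          P.fn c (P.kap X) (ofComplex (x + y * Complex.I))) else 0)
    (fun X _ => B * (Real.exp (-(2 * Real.pi * X.det / P.p ^ 2 * y)) *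
      |Hl_c (P.p ^ 2) Y t₁ t₂ X|)) (fun X => ?_)
    (fun X => Filter.Eventually.of_forall fun x hx => ?_)
    (Filter.Eventually.of_forall fun x _ => hs) intervalIntegrable_const
    (Filter.Eventually.of_forall fun x _ => ?_)
  · convert key using 2 with X
    · rfl
    · split_ifs with hX
      · rw [intervalIntegral.integral_const_mul, Complex.ofReal_mul, mul_comm]
        congr 1
        exact (PhiId_ct h hX hy).symm
      · simp
    · rfl
  · split_ifs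
    · refine Continuous.aestronglyMeasurable (continuous_const.mul (Continuous.mul ?_ (hc _)))
      have := UpperHalfPlane.continuous_coe.comp (PhiId_cont hy)
      exact continuous_ee.comp ((continuous_const.mul this).div_const _)
    · exact aestronglyMeasurable_const
  · have hB' := hB x (Set.uIoc_subset_uIcc hx)
    have hB0 : 0 ≤ B := (norm_nonneg _).trans hB'
    split_ifs
    · rw [norm_mul, norm_mul, norm_ee, Complex.norm_real, Real.norm_eq_abs, PhiId_coe hy]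
      have e : (((X.det : ℤ) : ℂ) * (x + y * Complex.I) / (P.p ^ 2 : ℕ)).im =
          X.det / P.p ^ 2 * y := by
        generalize X.det = n
        have : ((n : ℂ) * (x + y * Complex.I) / (P.p ^ 2 : ℕ)) =
            ((n / P.p ^ 2 : ℝ) : ℂ) * (x + y * Complex.I) := by
          push_cast
          ring
        rw [this, Complex.im_ofReal_mul]
        simp
      rw [e]
      have h1 := (norm_le_pi_norm (fun k => P.fn c k (ofComplex (x + y * Complex.I)))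
        (P.kap X)).trans hB'
      calc _ ≤ |Hl_c (P.p ^ 2) Y t₁ t₂ X| *
            (Real.exp (-(2 * Real.pi * (X.det / P.p ^ 2 * y))) * B) := by gcongr
        _ = _ := by
          rw [show 2 * Real.pi * (X.det / P.p ^ 2 * y) = 2 * Real.pi * X.det / P.p ^ 2 * y by ring]
          ring
    · rw [norm_zero]
      positivity
  · have h1 := hasSum_sum (s := Finset.univ) fun k _ =>
      (P.Hl_summ t₁ t₂ hY k (ofComplex (x + y * Complex.I))).hasSum.mul_left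
        (P.fn c k (ofComplex (x + y * Complex.I)))
    convert h1 using 2 with X
    · rfl
    · simp only [ind]
      split_ifs with hX
      · rw [Finset.sum_eq_single (P.kap X) (fun k _ hk => by simp [hk.symm]) (by simp),
          if_pos ⟨hX, rfl⟩]
        have e : ((X.det : ℤ) : ℂ) * (ofComplex (x + y * Complex.I) : ℍ) / (P.p ^ 2 : ℕ) =
            (ofComplex (x + y * Complex.I) : ℍ) * X.det / P.p ^ 2 := by
          generalize X.det = n
          push_cast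
          ring
        rw [e]
        ring
      · simp [hX]
    · rfl

theorem ct_rs {P : Par} {c : P.D → ℤ → ℤ} {χ : ℍ → ℝ} (hχ : IsChi χ) (h : P.IsF 0 c)
    (t₁ t₂ : ℍ) {T : ℝ} (hT : 2 ≤ T) :
    (CT 1 (P.pr c (P.rs t₁ t₂ T))).re = P.Psi χ c T t₁ t₂ := by
  have hT0 : 0 < T := by linarith
  have hT1 : 1 ≤ T := by linarith
  obtain ⟨h1, h2, h3⟩ := pr_eta h t₁ t₂
  obtain ⟨ρ, hρ, hs, hL⟩ := P.rs_qs t₁ t₂ hT1
  have e1 := (h.ct_pr hρ hs hL le_rfl one_pos).2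
  have e2 := (h.ct_pr hρ hs hL le_rfl hT0).2
  have e3 : P.pr c (P.rs t₁ t₂ T) = fun τ => (P.pr c (P.ka t₁ t₂) τ + P.pr c (P.hl t₁ t₂ T) τ) -
      P.pr c (P.eta (P.ka t₁ t₂)) τ := by
    funext τ
    simp only [pr, rs, rr, mul_sub, mul_add, Finset.sum_sub_distrib, Finset.sum_add_distrib]
    ring
  have hk : Continuous (P.pr c (P.ka t₁ t₂)) := continuous_finsetSum _ fun k _ =>
    (c1_of_hol (h.hol k)).1.continuous.mul (P.ka_c1 t₁ t₂ k).1.continuous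
  have hh := Hl_cont h t₁ t₂ hT1
  have e4 := CT_sub (f := fun τ => P.pr c (P.ka t₁ t₂) τ + P.pr c (P.hl t₁ t₂ T) τ) hT0
    (hk.add hh) h1.continuous
  rw [← e3, e2, ← e1, CT_add hT0 hk hh] at e4
  have e5 := (Complex.hasSum_re
    ((PhiId_hasSum h t₁ t₂ hT0).add (Hl_hasSum h t₁ t₂ hT1 hT0))).tsum_eq
  rw [Psi, hχ.stokes h1 h2 h3 hT, e4, Complex.sub_re, Complex.neg_re, ← e5, neg_add_eq_sub]
  congr 1
  refine tsum_congr fun X => ?_
  rw [← Complex.ofReal_add, Complex.ofReal_re, ← mul_add, Hl_Bf_top t₁ t₂ hT0, cX]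
  by_cases hX : X = 0
  · simp [hX]
  · by_cases h4 : 0 < X.det
    · rw [if_pos (Or.inl h4), if_neg (not_le.2 h4), mul_zero, zero_mul]
    · rw [if_neg (not_or.2 ⟨h4, hX⟩), if_pos (not_lt.1 h4)]
      by_cases h5 : P.InL X
      · rw [if_pos h5, if_pos ⟨h5, hX⟩]
      · rw [if_neg h5, if_neg fun h6 => h5 h6.1]

end Par

theorem ct_one : ∃ C : ℝ, 0 ≤ C ∧ ∀ (P : Par) (g : SL(2, ℤ)) (t₁ t₂ : ℍ) (Y : ℝ),
    1 / 2 ≤ t₁.im → 1 / 2 ≤ t₂.im → 1 ≤ Y →
    (CT 1 (P.pr P.oneI (P.rs (g • t₁) t₂ Y))).re ≤ C * (t₁.im + t₂.im) + Real.log Y := by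
  obtain ⟨C, hC⟩ := phi_one_le
  refine ⟨|C|, abs_nonneg _, fun P g t₁ t₂ Y h₁ h₂ hY => ?_⟩
  have h := P.isF_oneI.1
  obtain ⟨ρ, h1, h2, h3⟩ := P.rr_qs (g • t₁) t₂
  obtain ⟨ρ', h1', h2', h3', h4'⟩ := P.hl_qs (g • t₁) t₂ hY
  obtain ⟨b, hb⟩ := (h.ct_pr h1 h2 h3 le_rfl one_pos).1
  have e1 := (h.ct_pr h1' h2' h3' le_rfl one_pos).2
  have e2 : P.pr P.oneI (P.rs (g • t₁) t₂ Y) =
      fun τ => P.pr P.oneI (P.rr (g • t₁) t₂) τ + P.pr P.oneI (P.hl (g • t₁) t₂ Y) τ := by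
    funext τ
    simp only [Par.pr, Par.rs, mul_add, Finset.sum_add_distrib]
  have e3 : CT 1 (P.pr P.oneI (P.hl (g • t₁) t₂ Y)) = Real.log Y := by
    rw [e1, Finset.sum_eq_single 0 (fun k _ hk => ?_) (by simp),
      Finset.sum_eq_single 0 (fun ν _ hν => ?_) (by simp), h4']
    · simp [Par.oneI]
    · simp [Par.oneI, hν]
    · refine Finset.sum_eq_zero fun ν _ => ?_
      by_cases hν : ν = 0
      · rw [hν, h4', if_neg hk, mul_zero]
      · simp [Par.oneI, hν]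
  rw [e2, CT_add one_pos (c1_of_hol (hb.hol one_pos)).1.continuous (Par.Hl_cont h _ _ hY), e3,
    Complex.add_re, Complex.ofReal_re]
  refine add_le_add ((hC P g t₁ t₂ h₁ h₂).trans ?_) le_rfl
  exact mul_le_mul_of_nonneg_right (le_abs_self _) (by linarith)

end

end Pool.Agent.P.MP_a60a76_nt.Sz
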