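import Pool.Agent.P.MP_a60a76_nt.Sz.FamA

namespace Pool.Agent.P.MP_a60a76_nt.Sz

open UpperHalfPlane MeasureTheory SP
open scoped MatrixGroups UpperHalfPlane Matrix Modular Topology Classical ArithmeticFunction.sigma

noncomputable section

/-! Invariant families are polynomials in the two invariants. -/

theorem Inv_tri (n : ℕ) (M : ℕ → ℕ → ℤ) (h0 : ∀ m j, m + j < n → M m j = 0)
    (h1 : ∀ m j, m + j = n → M m j = 1) : ∃ N : ℕ → ℕ → ℤ, ∀ c : ℕ → ℂ, ∀ i ≤ n,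
      c i = ∑ m ∈ Finset.range (n + 1),
        (N i m : ℂ) * ∑ j ∈ Finset.range (n + 1), c j * M m j := by
  obtain ⟨B, hB⟩ : ∃ B : ℕ → (ℕ → ℂ) → ℂ,
      B = fun (m : ℕ) (c : ℕ → ℂ) => ∑ j ∈ Finset.range (n + 1), c j * (M m j : ℂ) := ⟨_, rfl⟩
  have h : ∀ d i, d + i = n → (fun c : ℕ → ℂ => c i) ∈
      Submodule.span ℤ (B '' (Finset.range (n + 1) : Finset ℕ)) := by
    intro d
    induction d using Nat.strong_induction_on with
    | _ d ih =>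
    intro i hi
    have hm : i ∈ Finset.range (n + 1) := Finset.mem_range.2 (by omega)
    have e : (fun c : ℕ → ℂ => c i) =
        B d - ∑ j ∈ (Finset.range (n + 1)).erase i, M d j • fun c : ℕ → ℂ => c j := by
      funext c
      rw [hB, Pi.sub_apply, Finset.sum_apply]
      simp only [Pi.smul_apply, zsmul_eq_mul]
      rw [← Finset.add_sum_erase _ _ hm, h1 d i hi, Finset.sum_congr rfl fun j _ => mul_comm (c j) _]
      simp
    rw [e]
    refine sub_mem (Submodule.subset_span ⟨d, Finset.mem_coe.2 (Finset.mem_range.2 (by omega)),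
      rfl⟩) (sum_mem fun j hj => ?_)
    obtain ⟨j1, j2⟩ := Finset.mem_erase.1 hj
    rw [Finset.mem_range] at j2
    rcases lt_or_gt_of_ne j1 with h2 | h2
    · rw [h0 d j (by omega), zero_smul]
      exact zero_mem _
    · exact Submodule.smul_mem _ _ (ih (n - j) (by omega) j (by omega))
  have h' : ∀ i, ∃ r : ℕ → ℤ, i ≤ n → ∀ c : ℕ → ℂ,
      c i = ∑ m ∈ Finset.range (n + 1), (r m : ℂ) * B m c := fun i => by
    by_cases hi : i ≤ n
    · obtain ⟨r, hr⟩ := (Submodule.mem_span_image_finset_iff_exists_fun' ℤ).1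
        (h (n - i) i (by omega))
      refine ⟨r, fun _ c => ?_⟩
      have e := congrFun hr c
      rw [Finset.sum_apply] at e
      simp only [Pi.smul_apply, zsmul_eq_mul] at e
      exact e.symm
    · exact ⟨0, fun h => absurd h hi⟩
  choose N hN using h'
  exact ⟨N, fun c i hi => by rw [hN i hi c, hB]⟩

theorem Inv_hs_pow {A : PowerSeries ℤ} {q s : ℂ}
    (hA : HasSum (fun n => (PowerSeries.coeff n A : ℤ) * q ^ n) s) (k : ℕ) :
    HasSum (fun n => (PowerSeries.coeff n (A ^ k) : ℤ) * q ^ n) (s ^ k) := by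
  induction k with
  | zero =>
    rw [pow_zero, pow_zero]
    have h := hasSum_single (f := fun n => ((PowerSeries.coeff n (1 : PowerSeries ℤ) : ℤ) : ℂ) *
      q ^ n) 0 fun n hn => by simp [PowerSeries.coeff_one, hn]
    simpa using h
  | succ k ih =>
    rw [pow_succ, pow_succ]
    exact Lev1_hs_mul ih hA

/-- The integral series of `E₄ ^ (3 i) Δ ^ (n - i)`. -/
def Inv_G (n i : ℕ) : PowerSeries ℤ := PowerSeries.mk e4c ^ (3 * i) * PowerSeries.mk dlc ^ (n - i)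

theorem Inv_hs_G (n i : ℕ) (τ : ℍ) :
    HasSum (fun m => (PowerSeries.coeff m (Inv_G n i) : ℤ) * ee τ ^ m)
      (E4 τ ^ (3 * i) * Dl τ ^ (n - i)) :=
  Lev1_hs_mul (Inv_hs_pow (by simpa only [PowerSeries.coeff_mk] using hasSum_E4 τ) _)
    (Inv_hs_pow (by simpa only [PowerSeries.coeff_mk] using hasSum_Dl τ) _)

theorem Inv_coeff_G (n m j : ℕ) : (m + j < n → PowerSeries.coeff m (Inv_G n j) = 0) ∧
    (m + j = n → PowerSeries.coeff m (Inv_G n j) = 1) := by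
  obtain ⟨D, hD⟩ : (PowerSeries.X : PowerSeries ℤ) ∣ PowerSeries.mk dlc :=
    PowerSeries.X_dvd_iff.2 (by simpa using dlc_zero)
  have h1 : PowerSeries.constantCoeff D = 1 := by
    have h := congrArg (PowerSeries.coeff 1) hD
    rw [PowerSeries.coeff_mk, dlc_one, PowerSeries.coeff_succ_X_mul,
      PowerSeries.coeff_zero_eq_constantCoeff_apply] at h
    exact h.symm
  have h2 : Inv_G n j = PowerSeries.X ^ (n - j) * (PowerSeries.mk e4c ^ (3 * j) * D ^ (n - j)) := by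
    rw [Inv_G, hD]
    ring
  rw [h2, PowerSeries.coeff_X_pow_mul']
  refine ⟨fun h => if_neg (by omega), fun h => ?_⟩
  rw [if_pos (by omega), show m - (n - j) = 0 by omega,
    PowerSeries.coeff_zero_eq_constantCoeff_apply, map_mul, map_pow, map_pow, h1]
  simp [e4c]

theorem Inv_J {n i : ℕ} (h : i ≤ n) (τ : ℍ) :
    J τ ^ i * Dl τ ^ n = E4 τ ^ (3 * i) * Dl τ ^ (n - i) := by
  obtain ⟨k, rfl⟩ := Nat.exists_eq_add_of_le h
  have h1 := Dl_ne_zero τ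
  rw [J_eq, Nat.add_sub_cancel_left, pow_add, pow_mul, div_pow]
  field_simp

theorem Inv_ab_sum {ι : Type} (S : Finset ι) {a : ι → PS} {s t : ℂ}
    (h : ∀ i ∈ S, Ab (RingHom.id ℂ) (a i) s t) : Ab (RingHom.id ℂ) (∑ i ∈ S, a i) s t ∧
      ev (RingHom.id ℂ) (∑ i ∈ S, a i) s t = ∑ i ∈ S, ev (RingHom.id ℂ) (a i) s t := by
  induction S using Finset.induction_on with
  | empty =>
    have h0 := ab_C (RingHom.id ℂ) 0 s t
    rw [map_zero, map_zero] at h0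
    exact h0
  | insert i S hi ih =>
    obtain ⟨h1, h2⟩ := ih fun j hj => h j (Finset.mem_insert_of_mem hj)
    obtain ⟨h3, h4⟩ := (h i (Finset.mem_insert_self _ _)).add h1
    rw [Finset.sum_insert hi, Finset.sum_insert hi, h4, h2]
    exact ⟨h3, rfl⟩

namespace Par

theorem Inv_mod (P : Par) {n : ℕ} {f : ℍ → ℂ} {b : ℕ → ℂ}
    (hf : ∀ (g : SL(2, ℤ)) (τ : ℍ), f (g • τ) = f τ)
    (hb : ∀ τ, HasSum (fun k => b k * P.sv τ ^ k) (f τ * Dl τ ^ n)) : Mod n f := by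
  have h1 := QS.of_nat (N := P.p) 0 hb
  obtain ⟨c, h2, h3, -⟩ := qz_Dl_inv
  have e : ∀ τ : ℍ, f τ = ee ((0 : ℤ) * τ / P.p) * (f τ * Dl τ ^ n) * (Dl τ)⁻¹ ^ n := fun τ => by
    have := Dl_ne_zero τ
    rw [Int.cast_zero, zero_mul, zero_div, ee_zero, one_mul, mul_assoc, ← mul_pow,
      mul_inv_cancel₀ this, one_pow, mul_one]
  refine ⟨((h1.hol P.prime.pos).mul ((h2.hol one_pos).pow n)).congr fun z _ => e _, ?_⟩
  obtain ⟨C, hC, h4⟩ := h1.bound P.prime.pos (L := 0) (fun ν hν => if_neg (not_le.2 hν))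
    (y := 1 / 2) (by norm_num)
  obtain ⟨C', -, h5⟩ := h2.bound one_pos (L := -1) (fun ν hν => by rw [h3 ν hν, Int.cast_zero])
    (y := 1 / 2) (by norm_num)
  refine ⟨C * C' ^ n, fun γ τ hτ => ?_⟩
  have hy : 1 / 2 ≤ τ.im := by
    nlinarith [ModularGroup.three_le_four_mul_im_sq_of_mem_fd hτ, τ.im_pos]
  have h6 := h4 τ hy
  have h7 := pow_le_pow_left₀ (norm_nonneg _) (h5 τ hy) n
  rw [mul_pow, ← Real.exp_nat_mul] at h7
  rw [hf, e, norm_mul, norm_pow, mul_assoc]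
  refine mul_le_mul (h6.trans_eq (by simp)) (h7.trans_eq ?_) (by positivity) hC
  congr 2
  push_cast
  ring

theorem inv_one (P : Par) (n : ℕ) : ∃ N : ℕ → ℕ → ℤ, ∀ (f : ℍ → ℂ) (b : ℕ → ℂ),
    (∀ (g : SL(2, ℤ)) (τ : ℍ), f (g • τ) = f τ) →
    (∀ τ, HasSum (fun k => b k * P.sv τ ^ k) (f τ * Dl τ ^ n)) → ∀ τ, f τ =
      ∑ i ∈ Finset.range (n + 1),
        (∑ m ∈ Finset.range (n + 1), (N i m : ℂ) * b (P.p * m)) * J τ ^ i := by
  obtain ⟨N, hN⟩ := Inv_tri n (fun m j => PowerSeries.coeff m (Inv_G n j))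
    (fun m j => (Inv_coeff_G n m j).1) fun m j => (Inv_coeff_G n m j).2
  refine ⟨N, fun f b hf hb τ => ?_⟩
  obtain ⟨Q, hQ, h1⟩ := poly1 n f (P.Inv_mod hf hb) hf
  have h2 : ∀ τ, f τ = ∑ i ∈ Finset.range (n + 1), Q.coeff i * J τ ^ i := fun τ => by
    rw [h1, Polynomial.eval_eq_sum_range' (Nat.lt_succ_of_le hQ)]
  have h3 : b = fun k => ∑ j ∈ Finset.range (n + 1),
      Q.coeff j * P.es (fun m => PowerSeries.coeff m (Inv_G n j)) k := by
    refine pow_unique one_pos fun t h0 ht => ?_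
    obtain ⟨τ, rfl⟩ := P.exists_sv h0 ht
    refine ⟨_, hb τ, ?_⟩
    rw [h2, Finset.sum_mul]
    simp only [Finset.sum_mul]
    refine hasSum_sum fun j hj => ?_
    rw [mul_assoc, Inv_J (Nat.lt_succ_iff.1 (Finset.mem_range.1 hj))]
    simp only [mul_assoc]
    refine HasSum.mul_left _ ?_
    simpa only [PowerSeries.coeff_mk] using P.cv_es (Inv_hs_G n j) τ
  rw [h2]
  refine Finset.sum_congr rfl fun i hi => ?_
  rw [hN Q.coeff i (Nat.lt_succ_iff.1 (Finset.mem_range.1 hi)), h3]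
  simp only [es, dvd_mul_right, if_true, Nat.mul_div_cancel_left _ P.prime.pos]

theorem Fam.inv {P : Par} {A : Subring ℂ} {n : ℕ} {f : P.GG → ℍ → ℍ → ℂ} {a : P.GG → PS}
    (h : P.Fam A n f a) (hi : ∀ γ, f γ = f 1) : ∃ Q : ℕ → ℕ → ℚ, (∀ i j, (Q i j : ℂ) ∈ A) ∧
      (∀ t₁ t₂, f 1 t₁ t₂ = ∑ i ∈ Finset.range (n + 1), ∑ j ∈ Finset.range (n + 1),
        (Q i j : ℂ) * (J t₁ ^ i * J t₂ ^ j)) ∧
      a 1 = ∑ i ∈ Finset.range (n + 1), ∑ j ∈ Finset.range (n + 1),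
        MvPowerSeries.C (Q i j : ℂ) * (in1 (P.es e4c) ^ (3 * i) * in1 P.dls ^ (n - i) *
          (in2 (P.es e4c) ^ (3 * j) * in2 P.dls ^ (n - j))) := by
  obtain ⟨N, hN⟩ := P.inv_one n
  have hF : ∀ (g₁ g₂ : SL(2, ℤ)) t₁ t₂, f 1 (g₁ • t₁) (g₂ • t₂) = f 1 t₁ t₂ :=
    fun g₁ g₂ t₁ t₂ => by rw [← h.geo, hi]
  have ha : ∀ γ, a γ = a 1 := fun γ => P.ps_unique 0 fun t₁ t₂ _ _ =>
    ⟨h.ab γ t₁ t₂, h.ab 1 t₁ t₂, by rw [← h.val, ← h.val, hi γ]⟩
  obtain ⟨u, hu⟩ : ∃ u : ℍ → ℕ → ℂ, u = fun t₂ k =>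
      (∑' l, MvPowerSeries.coeff (ixx k l) (a 1) * P.sv t₂ ^ l) / Dl t₂ ^ n := ⟨_, rfl⟩
  have h1 : ∀ t₂ t₁, HasSum (fun k => u t₂ k * P.sv t₁ ^ k) (f 1 t₁ t₂ * Dl t₁ ^ n) := by
    intro t₂ t₁
    have h2 := ((h.ab 1 t₁ t₂).hasSum_fst.2).div_const (Dl t₂ ^ n)
    have h3 := Dl_ne_zero t₂
    rw [← h.val] at h2
    rw [show f 1 t₁ t₂ * Dl t₁ ^ n = f 1 t₁ t₂ * (Dl t₁ * Dl t₂) ^ n / Dl t₂ ^ n by
      rw [mul_pow]; field_simp]
    refine h2.congr_fun fun k => ?_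
    simp only [hu]
    rw [div_mul_eq_mul_div, ← tsum_mul_right]
    congr 2
    funext l
    rw [RingHom.id_apply]
    ring
  have h2 : ∀ k (g : SL(2, ℤ)) t₂, u (g • t₂) k = u t₂ k := fun k g t₂ => by
    refine congrFun (pow_unique one_pos fun t h0 ht => ?_) k
    obtain ⟨τ, rfl⟩ := P.exists_sv h0 ht
    refine ⟨_, h1 _ τ, ?_⟩
    have h3 := hF 1 g τ t₂
    rw [one_smul] at h3
    rw [h3]
    exact h1 t₂ τ
  have h3 : ∀ k t₂, HasSum (fun l => MvPowerSeries.coeff (ixx k l) (a 1) * P.sv t₂ ^ l)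
      (u t₂ k * Dl t₂ ^ n) := fun k t₂ => by
    rw [hu, div_mul_cancel₀ _ (pow_ne_zero n (Dl_ne_zero t₂))]
    refine Summable.hasSum (((h.ab 1 t₂ t₂).hasSum_fst.1 k).div_const (P.sv t₂ ^ k) |>.congr
      fun l => ?_)
    have := P.sv_ne_zero t₂
    rw [RingHom.id_apply]
    field_simp
  have h4 : ∀ i j, ∃ q : ℚ, (q : ℂ) = ∑ m ∈ Finset.range (n + 1), (N i m : ℂ) *
      ∑ l ∈ Finset.range (n + 1), (N j l : ℂ) *
        MvPowerSeries.coeff (ixx (P.p * m) (P.p * l)) (a 1) := fun i j => by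
    refine fix_rat _ fun s => ?_
    obtain ⟨d, hd⟩ := P.exists_unit s.toRingEquiv
    have h5 := h.gal s.toRingEquiv d hd 1
    rw [ha] at h5
    have h6 : ∀ x, s (MvPowerSeries.coeff x (a 1)) = MvPowerSeries.coeff x (a 1) := fun x => by
      conv_rhs => rw [h5, MvPowerSeries.coeff_map]
      rfl
    simp only [map_sum, map_mul, map_intCast, h6]
  choose Q hQ using h4
  have h5 : ∀ t₁ t₂, f 1 t₁ t₂ = ∑ i ∈ Finset.range (n + 1), ∑ j ∈ Finset.range (n + 1),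
      (Q i j : ℂ) * (J t₁ ^ i * J t₂ ^ j) := fun t₁ t₂ => by
    rw [hN (fun t => f 1 t t₂) (u t₂) (fun g τ => by simpa using hF g 1 τ t₂) (h1 t₂) t₁]
    refine Finset.sum_congr rfl fun i _ => ?_
    have h6 : ∀ k, u t₂ k = _ := fun k => hN (fun t => u t k) _ (h2 k) (h3 k) t₂
    simp only [h6, hQ, Finset.sum_mul, Finset.mul_sum]
    rw [Finset.sum_comm]
    refine Finset.sum_congr rfl fun j _ => Finset.sum_congr rfl fun m _ =>
      Finset.sum_congr rfl fun l _ => by ring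
  refine ⟨Q, fun i j => ?_, h5, P.ps_unique 0 fun t₁ t₂ _ _ => ?_⟩
  · rw [hQ]
    exact sum_mem fun m _ => mul_mem (intCast_mem A _)
      (sum_mem fun l _ => mul_mem (intCast_mem A _) (h.mem 1 _))
  · obtain ⟨⟨a1, e1⟩, a2, e2⟩ := ab_in_c (P := P) (b := P.es e4c) (F := E4)
      (fun τ => by simpa only [PowerSeries.coeff_mk] using P.cv_es hasSum_E4 τ) t₁ t₂
    obtain ⟨⟨a3, e3⟩, a4, e4⟩ := ab_in_c (P := P) (b := P.dls) (F := Dl)
      (fun τ => by simpa only [PowerSeries.coeff_mk, dls, es] using P.cv_es hasSum_Dl τ) t₁ t₂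
    have h6 : ∀ i j, Ab (RingHom.id ℂ) (MvPowerSeries.C (Q i j : ℂ) *
        (in1 (P.es e4c) ^ (3 * i) * in1 P.dls ^ (n - i) *
          (in2 (P.es e4c) ^ (3 * j) * in2 P.dls ^ (n - j)))) (P.sv t₁) (P.sv t₂) ∧
        ev (RingHom.id ℂ) (MvPowerSeries.C (Q i j : ℂ) *
        (in1 (P.es e4c) ^ (3 * i) * in1 P.dls ^ (n - i) *
          (in2 (P.es e4c) ^ (3 * j) * in2 P.dls ^ (n - j)))) (P.sv t₁) (P.sv t₂) =
        Q i j * (E4 t₁ ^ (3 * i) * Dl t₁ ^ (n - i) * (E4 t₂ ^ (3 * j) * Dl t₂ ^ (n - j))) :=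
      fun i j => by
      obtain ⟨b0, f0⟩ := ab_C (RingHom.id ℂ) (Q i j : ℂ) (P.sv t₁) (P.sv t₂)
      obtain ⟨b1, f1⟩ := (a1.pow (3 * i)).1.mul (a3.pow (n - i)).1
      obtain ⟨b2, f2⟩ := (a2.pow (3 * j)).1.mul (a4.pow (n - j)).1
      obtain ⟨b3, f3⟩ := b1.mul b2
      obtain ⟨b4, f4⟩ := b0.mul b3
      refine ⟨b4, ?_⟩
      rw [f4, f3, f2, f1, f0, (a1.pow _).2, (a2.pow _).2, (a3.pow _).2, (a4.pow _).2, e1, e2, e3,
        e4, RingHom.id_apply]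
    have h7 := fun i => Inv_ab_sum (Finset.range (n + 1)) fun j _ => (h6 i j).1
    obtain ⟨b1, f1⟩ := Inv_ab_sum (Finset.range (n + 1)) fun i _ => (h7 i).1
    refine ⟨h.ab 1 t₁ t₂, b1, ?_⟩
    rw [f1, ← h.val, h5, Finset.sum_mul]
    refine Finset.sum_congr rfl fun i hi => ?_
    rw [(h7 i).2, Finset.sum_mul]
    refine Finset.sum_congr rfl fun j hj => ?_
    rw [(h6 i j).2, ← Inv_J (Nat.lt_succ_iff.1 (Finset.mem_range.1 hi)),
      ← Inv_J (Nat.lt_succ_iff.1 (Finset.mem_range.1 hj))]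
    ring

end Par

end

end Pool.Agent.P.MP_a60a76_nt.Sz
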