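import Pool.Agent.P.MP_a60a76_nt.Sz.Defs3
import Pool.Agent.P.MP_a60a76_nt.Sz.Inv

namespace Pool.Agent.P.MP_a60a76_nt.Sz

open UpperHalfPlane hiding J
open MeasureTheory SP
open scoped MatrixGroups UpperHalfPlane Matrix Modular Topology Classical ArithmeticFunction.sigma

noncomputable section

/-! The ring of integral functions of level `p`. -/

namespace Par

variable {P : Par} {A : Subring ℂ} {n : ℕ} {f g : ℍ → ℍ → ℂ}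

theorem IgA_raise (h : P.IgD A n f) (k : ℕ) : P.IgD A (n + k) f := by
  refine ⟨h.inv, fun g₁ g₂ => ?_⟩
  obtain ⟨a, h1, h2⟩ := h.exp g₁ g₂
  refine ⟨a * P.D2 ^ k, (inA A).mul_mem h1 ((inA A).pow_mem
    ((inA A).mul_mem (FamA_inA_dls P A).1 (FamA_inA_dls P A).2) k), fun t₁ t₂ => ?_⟩
  obtain ⟨h3, h4⟩ := h2 t₁ t₂
  obtain ⟨h5, h6⟩ := h3.mul ((FamA_D2 P t₁ t₂).1.pow k).1
  refine ⟨h5, ?_⟩
  rw [h6, ((FamA_D2 P t₁ t₂).1.pow k).2, (FamA_D2 P t₁ t₂).2, ← h4, pow_add, mul_assoc]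

theorem IgA_common (hf : P.Ig A f) (hg : P.Ig A g) : ∃ n, P.IgD A n f ∧ P.IgD A n g := by
  obtain ⟨n, hn⟩ := hf
  obtain ⟨m, hm⟩ := hg
  have h2 := IgA_raise hm n
  rw [add_comm] at h2
  exact ⟨_, IgA_raise hn m, h2⟩

theorem IgA_congr (hf : P.Ig A f) {g₁ g₂ g₁' g₂' : SL(2, ℤ)}
    (e₁ : red P.p g₁ = red P.p g₁') (e₂ : red P.p g₂ = red P.p g₂') (t₁ t₂ : ℍ) :
    f (g₁ • t₁) (g₂ • t₂) = f (g₁' • t₁) (g₂' • t₂) := by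
  obtain ⟨n, hn⟩ := hf
  have h : ∀ {a b : SL(2, ℤ)}, red P.p a = red P.p b → red P.p (b * a⁻¹) = 1 := fun h => by
    rw [red_mul, ← h, ← red_mul, mul_inv_cancel, red_one]
  rw [← hn.inv _ _ (h e₁) (h e₂), ← mul_smul, ← mul_smul, inv_mul_cancel_right,
    inv_mul_cancel_right]

theorem Ig.add (hf : P.Ig A f) (hg : P.Ig A g) : P.Ig A fun t₁ t₂ => f t₁ t₂ + g t₁ t₂ := by
  obtain ⟨n, h1, h2⟩ := IgA_common hf hg
  refine ⟨n, fun g₁ g₂ e₁ e₂ t₁ t₂ => ?_, fun g₁ g₂ => ?_⟩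
  · rw [h1.inv g₁ g₂ e₁ e₂, h2.inv g₁ g₂ e₁ e₂]
  · obtain ⟨a, a1, a2⟩ := h1.exp g₁ g₂
    obtain ⟨b, b1, b2⟩ := h2.exp g₁ g₂
    refine ⟨a + b, (inA A).add_mem a1 b1, fun t₁ t₂ => ?_⟩
    obtain ⟨h3, h4⟩ := (a2 t₁ t₂).1.add (b2 t₁ t₂).1
    exact ⟨h3, by rw [h4, ← (a2 t₁ t₂).2, ← (b2 t₁ t₂).2, add_mul]⟩

theorem Ig.sub (hf : P.Ig A f) (hg : P.Ig A g) : P.Ig A fun t₁ t₂ => f t₁ t₂ - g t₁ t₂ := by
  obtain ⟨n, h1, h2⟩ := IgA_common hf hg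
  refine ⟨n, fun g₁ g₂ e₁ e₂ t₁ t₂ => ?_, fun g₁ g₂ => ?_⟩
  · rw [h1.inv g₁ g₂ e₁ e₂, h2.inv g₁ g₂ e₁ e₂]
  · obtain ⟨a, a1, a2⟩ := h1.exp g₁ g₂
    obtain ⟨b, b1, b2⟩ := h2.exp g₁ g₂
    refine ⟨a - b, (inA A).sub_mem a1 b1, fun t₁ t₂ => ?_⟩
    obtain ⟨h3, h4⟩ := (a2 t₁ t₂).1.sub (b2 t₁ t₂).1
    exact ⟨h3, by rw [h4, ← (a2 t₁ t₂).2, ← (b2 t₁ t₂).2, sub_mul]⟩

theorem Ig.mul (hf : P.Ig A f) (hg : P.Ig A g) : P.Ig A fun t₁ t₂ => f t₁ t₂ * g t₁ t₂ := by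
  obtain ⟨n, h1⟩ := hf
  obtain ⟨m, h2⟩ := hg
  refine ⟨n + m, fun g₁ g₂ e₁ e₂ t₁ t₂ => ?_, fun g₁ g₂ => ?_⟩
  · rw [h1.inv g₁ g₂ e₁ e₂, h2.inv g₁ g₂ e₁ e₂]
  · obtain ⟨a, a1, a2⟩ := h1.exp g₁ g₂
    obtain ⟨b, b1, b2⟩ := h2.exp g₁ g₂
    refine ⟨a * b, (inA A).mul_mem a1 b1, fun t₁ t₂ => ?_⟩
    obtain ⟨h3, h4⟩ := (a2 t₁ t₂).1.mul (b2 t₁ t₂).1
    refine ⟨h3, ?_⟩
    rw [h4, ← (a2 t₁ t₂).2, ← (b2 t₁ t₂).2, pow_add]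
    ring

theorem ig_const (P : Par) {z : ℂ} (hz : z ∈ A) : P.Ig A fun _ _ => z := by
  refine ⟨0, fun _ _ _ _ _ _ => rfl, fun g₁ g₂ => ⟨MvPowerSeries.C z, fun d => ?_,
    fun t₁ t₂ => ?_⟩⟩
  · rw [MvPowerSeries.coeff_C]
    split_ifs
    · exact hz
    · exact A.zero_mem
  · obtain ⟨h1, h2⟩ := ab_C (RingHom.id ℂ) z (P.sv t₁) (P.sv t₂)
    exact ⟨h1, by rw [h2, pow_zero, mul_one, RingHom.id_apply]⟩

theorem Ig.pow (hf : P.Ig A f) (k : ℕ) : P.Ig A fun t₁ t₂ => f t₁ t₂ ^ k := by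
  induction k with
  | zero =>
    simp only [pow_zero]
    exact ig_const P A.one_mem
  | succ k ih =>
    simp only [pow_succ]
    exact ih.mul hf

theorem ig_prod {ι : Type} (S : Finset ι) {F : ι → ℍ → ℍ → ℂ} (h : ∀ i ∈ S, P.Ig A (F i)) :
    P.Ig A fun t₁ t₂ => ∏ i ∈ S, F i t₁ t₂ := by
  induction S using Finset.induction_on with
  | empty =>
    simp only [Finset.prod_empty]
    exact ig_const P A.one_mem
  | insert i S hi ih =>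
    simp only [Finset.prod_insert hi]
    exact (h i (Finset.mem_insert_self _ _)).mul
      (ih fun j hj => h j (Finset.mem_insert_of_mem hj))

theorem ig_sum {ι : Type} (S : Finset ι) {F : ι → ℍ → ℍ → ℂ} (h : ∀ i ∈ S, P.Ig A (F i)) :
    P.Ig A fun t₁ t₂ => ∑ i ∈ S, F i t₁ t₂ := by
  induction S using Finset.induction_on with
  | empty =>
    simp only [Finset.sum_empty]
    exact ig_const P A.zero_mem
  | insert i S hi ih =>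
    simp only [Finset.sum_insert hi]
    exact (h i (Finset.mem_insert_self _ _)).add
      (ih fun j hj => h j (Finset.mem_insert_of_mem hj))

theorem Ig.smul (hf : P.Ig A f) (g₁ g₂ : SL(2, ℤ)) :
    P.Ig A fun t₁ t₂ => f (g₁ • t₁) (g₂ • t₂) := by
  obtain ⟨n, hn⟩ := id hf
  refine ⟨n, fun h₁ h₂ e₁ e₂ t₁ t₂ => ?_, fun h₁ h₂ => ?_⟩
  · rw [← mul_smul, ← mul_smul]
    exact IgA_congr hf (by rw [red_mul, e₁, mul_one]) (by rw [red_mul, e₂, mul_one]) t₁ t₂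
  · simp only [← mul_smul]
    exact hn.exp _ _

theorem Ig.cj (hf : P.Ig A f) (x : P.SS) : P.Ig A (P.cj x f) := by
  exact hf.smul (P.lf x.1) (P.lf x.2)

theorem Fam.ig {f : P.GG → ℍ → ℍ → ℂ} {a : P.GG → PS} (h : P.Fam A n f a) (γ : P.GG) :
    P.Ig A (f γ) := by
  refine ⟨n, fun g₁ g₂ e₁ e₂ t₁ t₂ => ?_, fun g₁ g₂ => ⟨a (γ * P.rG g₁ g₂), h.mem _,
    fun t₁ t₂ => ⟨h.ab _ t₁ t₂, by rw [← h.val, h.geo]⟩⟩⟩
  have e : P.rG g₁ g₂ = 1 :=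
    Subtype.ext (Prod.ext (Units.ext ((P.coe_rg g₁).trans e₁)) (Units.ext ((P.coe_rg g₂).trans e₂)))
  rw [← h.geo, e, mul_one]

theorem Fam1.ig {f : P.GF → ℍ → ℂ} {a : P.GF → ℕ → ℂ} (h : P.Fam1 A n f a) (γ : P.GF) :
    (P.Ig A fun t _ => f γ t) ∧ P.Ig A fun _ t => f γ t := by
  exact ⟨h.fst.ig (P.diagG γ), h.snd.ig (P.diagG γ)⟩

theorem Ig.congr_red (hf : P.Ig A f) {g₁ g₂ g₁' g₂' : SL(2, ℤ)}
    (e₁ : red P.p g₁ = red P.p g₁') (e₂ : red P.p g₂ = red P.p g₂') (t₁ t₂ : ℍ) :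
    f (g₁ • t₁) (g₂ • t₂) = f (g₁' • t₁) (g₂' • t₂) := by
  exact IgA_congr hf e₁ e₂ t₁ t₂

theorem Ig.cj_one (hf : P.Ig A f) : P.cj 1 f = f := by
  funext t₁ t₂
  have e : red P.p (P.lf 1) = red P.p 1 := by
    rw [P.red_lf, red_one]
    rfl
  have h := IgA_congr hf e e t₁ t₂
  rw [one_smul, one_smul] at h
  exact h

theorem exists_perm (P : Par) (g₁ g₂ : SL(2, ℤ)) : ∃ e : P.SS ≃ P.SS, ∀ A f, P.Ig A f →
    ∀ x t₁ t₂, P.cj x f (g₁ • t₁) (g₂ • t₂) = P.cj (e x) f t₁ t₂ := by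
  let r : SL(2, ℤ) → SL(2, P.F) := fun g => ⟨red P.p g, red_det P.p g⟩
  have hr : ∀ (y : SL(2, P.F)) (g : SL(2, ℤ)),
      red P.p (P.lf y * g) = red P.p (P.lf (y * r g)) := fun y g => by
    rw [red_mul, P.red_lf, P.red_lf, Matrix.SpecialLinearGroup.coe_mul]
  refine ⟨Equiv.mulRight (r g₁, r g₂), fun A f hf x t₁ t₂ => ?_⟩
  rw [Par.cj, Par.cj, ← mul_smul, ← mul_smul]
  exact IgA_congr hf (hr _ _) (hr _ _) t₁ t₂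

theorem Ig.hol (hf : P.Ig A f) : (∀ t₂, Hol fun t₁ => f t₁ t₂) ∧ ∀ t₁, Hol (f t₁) := by
  obtain ⟨n, hn⟩ := hf
  obtain ⟨a, -, ha⟩ := hn.exp 1 1
  simp only [one_smul] at ha
  obtain ⟨h1, h2⟩ := P.hol_ev fun t₁ t₂ => (ha t₁ t₂).1
  have e : ∀ t₁ t₂, f t₁ t₂ =
      ev (RingHom.id ℂ) a (P.sv t₁) (P.sv t₂) / (Dl t₁ * Dl t₂) ^ n := fun t₁ t₂ => by
    rw [← (ha t₁ t₂).2, mul_div_cancel_right₀ _
      (pow_ne_zero n (mul_ne_zero (Dl_ne_zero t₁) (Dl_ne_zero t₂)))]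
  refine ⟨fun t₂ => ?_, fun t₁ => ?_⟩
  · refine ((h1 t₂).div ((DifferentiableOn.mul_const Dl_hol (Dl t₂)).pow n)
      fun z _ => pow_ne_zero n (mul_ne_zero (Dl_ne_zero _) (Dl_ne_zero t₂))).congr fun z _ => ?_
    exact e _ _
  · refine ((h2 t₁).div ((DifferentiableOn.const_mul Dl_hol (Dl t₁)).pow n)
      fun z _ => pow_ne_zero n (mul_ne_zero (Dl_ne_zero t₁) (Dl_ne_zero _))).congr fun z _ => ?_
    exact e _ _

theorem Ig.sy (hf : P.Ig A f) (k : ℕ) : P.Ig A (P.sy k f) ∧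
    ∀ (g₁ g₂ : SL(2, ℤ)) (t₁ t₂ : ℍ), P.sy k f (g₁ • t₁) (g₂ • t₂) = P.sy k f t₁ t₂ := by
  refine ⟨ig_sum _ fun S _ => ig_prod S fun x _ => hf.cj x, fun g₁ g₂ t₁ t₂ => ?_⟩
  obtain ⟨e, he⟩ := P.exists_perm g₁ g₂
  rw [Par.sy, Par.sy]
  refine Finset.sum_equiv e.finsetCongr (fun S => ?_) fun S _ => ?_
  · simp only [Finset.mem_powersetCard, Finset.subset_univ, true_and, Equiv.finsetCongr_apply,
      Finset.card_map]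
  · rw [Equiv.finsetCongr_apply, Finset.prod_map]
    exact Finset.prod_congr rfl fun x _ => he A f hf x t₁ t₂

theorem Ig.poly (hf : P.Ig A f)
    (hi : ∀ (g₁ g₂ : SL(2, ℤ)) (t₁ t₂ : ℍ), f (g₁ • t₁) (g₂ • t₂) = f t₁ t₂) :
    ∃ (n : ℕ) (Q : ℕ → ℕ → ℂ), (∀ i j, Q i j ∈ A) ∧ ∀ t₁ t₂, f t₁ t₂ =
      ∑ i ∈ Finset.range n, ∑ j ∈ Finset.range n, Q i j * (J t₁ ^ i * J t₂ ^ j) := by
  obtain ⟨n, hn⟩ := hf
  obtain ⟨a, hA, ha⟩ := hn.exp 1 1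
  simp only [one_smul] at ha
  obtain ⟨N, hN⟩ := P.inv_one n
  obtain ⟨u, hu⟩ : ∃ u : ℍ → ℕ → ℂ, u = fun t₂ k =>
      (∑' l, MvPowerSeries.coeff (ixx k l) a * P.sv t₂ ^ l) / Dl t₂ ^ n := ⟨_, rfl⟩
  have h1 : ∀ t₂ t₁, HasSum (fun k => u t₂ k * P.sv t₁ ^ k) (f t₁ t₂ * Dl t₁ ^ n) := by
    intro t₂ t₁
    have h2 := ((ha t₁ t₂).1.hasSum_fst.2).div_const (Dl t₂ ^ n)
    have h3 := Dl_ne_zero t₂
    rw [← (ha t₁ t₂).2] at h2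
    rw [show f t₁ t₂ * Dl t₁ ^ n = f t₁ t₂ * (Dl t₁ * Dl t₂) ^ n / Dl t₂ ^ n by
      rw [mul_pow]; field_simp]
    refine h2.congr_fun fun k => ?_
    simp only [hu]
    rw [div_mul_eq_mul_div, ← tsum_mul_right]
    congr 2
    funext l
    rw [RingHom.id_apply]
    ring
  have h2 : ∀ k (g : SL(2, ℤ)) t₂, u (g • t₂) k = u t₂ k := fun k g t₂ => by
    refine congrFun (pow_unique one_pos fun t h0 ht => ?_) k
    obtain ⟨τ, rfl⟩ := P.exists_sv h0 ht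
    refine ⟨_, h1 _ τ, ?_⟩
    have h3 := hi 1 g τ t₂
    rw [one_smul] at h3
    rw [h3]
    exact h1 t₂ τ
  have h3 : ∀ k t₂, HasSum (fun l => MvPowerSeries.coeff (ixx k l) a * P.sv t₂ ^ l)
      (u t₂ k * Dl t₂ ^ n) := fun k t₂ => by
    rw [hu, div_mul_cancel₀ _ (pow_ne_zero n (Dl_ne_zero t₂))]
    refine Summable.hasSum (((ha t₂ t₂).1.hasSum_fst.1 k).div_const (P.sv t₂ ^ k) |>.congr
      fun l => ?_)
    have := P.sv_ne_zero t₂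
    rw [RingHom.id_apply]
    field_simp
  refine ⟨n + 1, fun i j => ∑ m ∈ Finset.range (n + 1), (N i m : ℂ) *
      ∑ l ∈ Finset.range (n + 1), (N j l : ℂ) *
        MvPowerSeries.coeff (ixx (P.p * m) (P.p * l)) a, fun i j => ?_, fun t₁ t₂ => ?_⟩
  · exact sum_mem fun m _ => mul_mem (intCast_mem A _)
      (sum_mem fun l _ => mul_mem (intCast_mem A _) (hA _))
  · rw [hN (fun t => f t t₂) (u t₂) (fun g τ => by simpa using hi g 1 τ t₂) (h1 t₂) t₁]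
    refine Finset.sum_congr rfl fun i _ => ?_
    have h6 : ∀ k, u t₂ k = _ := fun k => hN (fun t => u t k) _ (h2 k) (h3 k) t₂
    simp only [h6, Finset.sum_mul, Finset.mul_sum]
    rw [Finset.sum_comm]
    refine Finset.sum_congr rfl fun j _ => Finset.sum_congr rfl fun m _ =>
      Finset.sum_congr rfl fun l _ => by ring

end Par

end

end Pool.Agent.P.MP_a60a76_nt.Sz
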