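import Pool.Agent.P.MP_a60a76_nt.Sz.DJ
import Pool.Agent.P.MP_a60a76_nt.Sz.Rank

namespace Pool.Agent.P.MP_a60a76_nt.Sz

open UpperHalfPlane hiding J
open MeasureTheory SP
open scoped MatrixGroups UpperHalfPlane Matrix Modular Topology Classical ArithmeticFunction.sigma

noncomputable section

/-! Local behaviour of the modular invariant. -/

theorem JLoc_gen {f g : ℍ → ℂ} (hf : Hol f) (hg : Hol g) (s : ℍ)
    (hd : Derivative.normalizedDerivOfComplex f s ≠ 0) (hg0 : ∀ τ, g τ ≠ 0) {n : ℕ}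
    (hn : n ≤ 3) : ∃ c δ : ℝ, 0 < c ∧ 0 < δ ∧ ∀ τ : ℍ, ‖(τ : ℂ) - s‖ ≤ δ →
      c * ‖(τ : ℂ) - s‖ ^ 3 ≤ ‖(f τ - f s) ^ n / g τ‖ := by
  set a : ℂ := deriv (f ∘ ofComplex) s with ha
  have ha0 : 0 < ‖a‖ := norm_pos_iff.2 fun h => hd (by
    rw [Derivative.normalizedDerivOfComplex, ← ha, h, mul_zero])
  have h1 := (Rank_at hf s).hasDerivAt.isLittleO.bound (half_pos ha0)
  have h2 : ∀ᶠ z in 𝓝 (s : ℂ), ‖(g ∘ ofComplex) z‖ < ‖g s‖ + 1 :=
    (Rank_at hg s).continuousAt.norm.eventually (gt_mem_nhds (by simp))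
  obtain ⟨ε, hε, h3⟩ := Metric.eventually_nhds_iff.1 (h1.and h2)
  refine ⟨(‖a‖ / 2) ^ n / (‖g s‖ + 1), min (ε / 2) 1, by positivity, by positivity,
    fun τ hτ => ?_⟩
  obtain ⟨h4, h5⟩ := h3 (y := (τ : ℂ)) (by
    rw [dist_eq_norm]
    linarith [min_le_left (ε / 2) 1])
  simp only [Function.comp_apply, ofComplex_apply, ← ha, smul_eq_mul] at h4 h5
  have h6 : ‖a‖ / 2 * ‖(τ : ℂ) - s‖ ≤ ‖f τ - f s‖ := by
    have h7 := norm_sub_norm_le (((τ : ℂ) - s) * a) (f τ - f s)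
    rw [norm_sub_rev (_ * a), norm_mul] at h7
    linarith
  have h7 : ‖(τ : ℂ) - s‖ ^ 3 ≤ ‖(τ : ℂ) - s‖ ^ n :=
    pow_le_pow_of_le_one (norm_nonneg _) (hτ.trans (min_le_right _ _)) hn
  have h8 := norm_pos_iff.2 (hg0 τ)
  rw [norm_div, norm_pow]
  calc (‖a‖ / 2) ^ n / (‖g s‖ + 1) * ‖(τ : ℂ) - s‖ ^ 3
      ≤ (‖a‖ / 2) ^ n / (‖g s‖ + 1) * ‖(τ : ℂ) - s‖ ^ n := by gcongr
    _ = (‖a‖ / 2 * ‖(τ : ℂ) - s‖) ^ n / (‖g s‖ + 1) := by rw [mul_pow]; ring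
    _ ≤ ‖f τ - f s‖ ^ n / ‖g τ‖ := by gcongr

theorem J_lower (s : ℍ) : ∃ c δ : ℝ, 0 < c ∧ 0 < δ ∧ ∀ τ : ℍ, ‖(τ : ℂ) - s‖ ≤ δ →
    c * ‖(τ : ℂ) - s‖ ^ 3 ≤ ‖J τ - J s‖ := by
  have h0 := E4_cube_sub s
  have hD := Dl_ne_zero s
  by_cases h4 : E4 s = 0
  · have h6 : E6 s ≠ 0 := fun h6 => hD (by
      rw [h4, h6] at h0
      simpa using h0.symm)
    have h1 := DJ_E4 s
    obtain ⟨c, δ, hc, hδ, h⟩ := JLoc_gen E4_hol Dl_hol s (fun h => by
      rw [h, h4] at h1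
      simp [h6, hD] at h1) Dl_ne_zero le_rfl
    refine ⟨c, δ, hc, hδ, fun τ hτ => ?_⟩
    have h2 := h τ hτ
    rwa [h4, sub_zero, ← J_eq_div, ← sub_zero (J τ), ← (J_zero_iff s).2 h4] at h2
  by_cases h6 : E6 s = 0
  · have h1 := DJ_E6 s
    obtain ⟨c, δ, hc, hδ, h⟩ := JLoc_gen E6_hol Dl_hol s (fun h => by
      rw [h, h6] at h1
      simp [h4, hD] at h1) Dl_ne_zero (n := 2) (by norm_num)
    refine ⟨c, δ, hc, hδ, fun τ hτ => ?_⟩
    have h2 := h τ hτ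
    rwa [h6, sub_zero, ← J_sub, ← (J_1728_iff s).2 h6] at h2
  · obtain ⟨c, δ, hc, hδ, h⟩ := JLoc_gen J_hol (Rank_const 1) s (by
      rw [DJ_J]
      simp [h4, h6, hD]) (fun _ => one_ne_zero) (n := 1) (by norm_num)
    exact ⟨c, δ, hc, hδ, fun τ hτ => by simpa using h τ hτ⟩

theorem J_local (s : ℍ) : ∃ C δ : ℝ, 0 < C ∧ 0 < δ ∧ ∀ z : ℂ, ‖z - J s‖ ≤ δ →
    ∃ τ : ℍ, J τ = z ∧ ‖(τ : ℂ) - s‖ ^ 3 ≤ C * ‖z - J s‖ := by
  obtain ⟨c, δ, hc, hδ, h⟩ := J_lower s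
  have hs := s.im_pos
  set r : ℝ := min δ (s.im / 2) with hr
  have hr0 : 0 < r := by positivity
  have hb : ∀ z ∈ Metric.closedBall (s : ℂ) r, 0 < z.im := fun z hz => by
    rw [Metric.mem_closedBall, dist_eq_norm] at hz
    have h1 := (abs_le.1 ((Complex.abs_im_le_norm _).trans hz)).1
    rw [Complex.sub_im, coe_im] at h1
    linarith [min_le_right δ (s.im / 2)]
  have h' : ∀ z ∈ Metric.closedBall (s : ℂ) r,
      c * ‖z - s‖ ^ 3 ≤ ‖(J ∘ ofComplex) z - (J ∘ ofComplex) s‖ := fun z hz => by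
    have h1 := h ⟨z, hb z hz⟩ ((mem_closedBall_iff_norm.1 hz).trans (min_le_left _ _))
    rwa [Function.comp_apply, Function.comp_apply, ofComplex_apply,
      ofComplex_apply_of_im_pos (hb z hz)]
  have hd : DiffContOnCl ℂ (J ∘ ofComplex) (Metric.ball (s : ℂ) r) :=
    DifferentiableOn.diffContOnCl (J_hol.mono (by
      rw [closure_ball _ hr0.ne']
      exact hb))
  have h2 := hd.ball_subset_image_closedBall hr0 (ε := c * r ^ 3) (fun z hz => by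
    have h1 := h' z (Metric.sphere_subset_closedBall hz)
    rwa [mem_sphere_iff_norm.1 hz] at h1) (by
    refine Filter.Frequently.filter_mono (f := 𝓝[≠] (s : ℂ)) ?_ nhdsWithin_le_nhds
    refine Filter.Eventually.frequently ?_
    filter_upwards [self_mem_nhdsWithin,
      mem_nhdsWithin_of_mem_nhds (Metric.closedBall_mem_nhds (s : ℂ) hr0)] with z h1 h2 h3
    have h4 := h' z h2
    have h5 : 0 < ‖z - s‖ := norm_pos_iff.2 (sub_ne_zero.2 h1)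
    rw [h3, sub_self, norm_zero] at h4
    exact absurd h4 (not_le.2 (by positivity)))
  refine ⟨c⁻¹, c * r ^ 3 / 4, by positivity, by positivity, fun z hz => ?_⟩
  obtain ⟨w, hw, h3⟩ := h2 (a := z) (by
    rw [mem_ball_iff_norm, Function.comp_apply, ofComplex_apply]
    have : 0 < c * r ^ 3 := by positivity
    linarith)
  have h4 := h' w hw
  rw [h3, Function.comp_apply, ofComplex_apply] at h4
  refine ⟨⟨w, hb w hw⟩, ?_, ?_⟩
  · rwa [Function.comp_apply, ofComplex_apply_of_im_pos (hb w hw)] at h3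
  · rw [← div_eq_inv_mul, le_div_iff₀' hc]
    exact h4

theorem log_E46_le : ∃ C : ℝ, 0 ≤ C ∧ ∀ τ ∈ 𝒟,
    Real.log ‖E4 τ * E6 τ / Dl τ‖ ≤ C + 2 * Real.pi * τ.im := by
  have h1 := Asymptotics.IsBigO.mul ((ModularFormClass.bdd_at_infty ModularForm.E₄).mul
    (ModularFormClass.bdd_at_infty ModularForm.E₆)) JB.inv_disc_isBigO
  obtain ⟨A, hA, h⟩ := JB.bound_fd (f := fun τ => E4 τ * E6 τ / Dl τ)
    (((ModularFormClass.continuous ModularForm.E₄).mul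
      (ModularFormClass.continuous ModularForm.E₆)).div JB.disc_cont Dl_ne_zero) JB.one_le_exp
    (h1.congr (fun τ => (div_eq_mul_inv _ _).symm) fun τ => by simp)
  refine ⟨Real.log (A + 1), Real.log_nonneg (by linarith), fun τ hτ => ?_⟩
  have h2 := h τ hτ
  have h3 := JB.one_le_exp τ
  have h4 : Real.log (A + 1) + 2 * Real.pi * τ.im =
      Real.log ((A + 1) * Real.exp (2 * Real.pi * τ.im)) := by
    rw [Real.log_mul (by linarith) (by linarith), Real.log_exp]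
  rw [h4]
  rcases (norm_nonneg (E4 τ * E6 τ / Dl τ)).eq_or_lt with h5 | h5
  · rw [← h5, Real.log_zero]
    exact Real.log_nonneg (by nlinarith)
  · exact Real.log_le_log h5 (by nlinarith)

end

end Pool.Agent.P.MP_a60a76_nt.Sz
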