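import Pool.Agent.P.MP_a60a76_nt.Sz.Defs3
import Pool.Agent.P.MP_a60a76_nt.Sz.Lev1
import Pool.Agent.P.MP_a60a76_nt.Sz.Plc
import Pool.Agent.P.MP_a60a76_nt.Sz.Sepa

namespace Pool.Agent.P.MP_a60a76_nt.Sz

open UpperHalfPlane hiding J
open MeasureTheory SP
open scoped MatrixGroups UpperHalfPlane Matrix Modular Topology Classical ArithmeticFunction.sigma

noncomputable section

/-! Expansions with integral coefficients. -/

variable {K : Type} [NormedField K] [IsUltrametricDist K] {ι : ℂ →+* K} {F G : ℍ → ℂ}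

theorem norm_map_root (ι : ℂ →+* K) {κ : ℂ} {n : ℕ} (hn : n ≠ 0) (h : κ ^ n = 1) : ‖ι κ‖ = 1 :=
  Plc_norm_one hn (by rw [← norm_pow, ← map_pow, h, map_one, norm_one])

theorem norm_map_int (ι : ℂ →+* K) (n : ℤ) : ‖ι n‖ ≤ 1 :=
  intCast_mem (Ai ι) n

theorem QS.mob_tri {N : ℕ} {c : ℤ → ℂ} (hN : 0 < N) (h : QS N c F) {a d : ℕ} (ha : 0 < a)
    (hd : 0 < d) (b : ℤ) :
    QS (N * d) (fun ν => if (a : ℤ) ∣ ν then c (ν / a) * ee ((ν / a : ℤ) * b / (N * d)) else 0)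
      fun τ => F (mob !![(a : ℤ), b; 0, (d : ℤ)] τ) := by
  have ha' : (0 : ℤ) < a := by exact_mod_cast ha
  have hd' : (0 : ℤ) < d := by exact_mod_cast hd
  have h1 : (N : ℂ) ≠ 0 := by exact_mod_cast hN.ne'
  have h2 : (d : ℂ) ≠ 0 := by exact_mod_cast hd.ne'
  obtain ⟨L, hL⟩ := h.low
  refine ⟨⟨a * L, fun ν hν => ?_⟩, fun τ => ?_⟩
  · split_ifs with k
    · obtain ⟨k, rfl⟩ := k
      rw [Int.mul_ediv_cancel_left _ ha'.ne', hL k (lt_of_mul_lt_mul_left hν ha'.le), zero_mul]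
    · rfl
  · rw [← (mul_right_injective₀ ha'.ne').hasSum_iff]
    · refine (h.sum _).congr_fun fun ν => ?_
      simp only [Function.comp_apply]
      rw [if_pos (dvd_mul_right _ _), Int.mul_ediv_cancel_left _ ha'.ne', mul_assoc, ← ee_add,
        coe_mob (by simpa using mul_pos ha' hd')]
      congr 2
      simp only [dn, Matrix.of_apply, Matrix.cons_val', Matrix.cons_val_zero, Matrix.cons_val_one,
        Matrix.cons_val_fin_one]
      push_cast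
      rw [zero_mul, zero_add]
      field_simp
      ring
    · intro ν hν
      rw [if_neg, zero_mul]
      rintro ⟨k, rfl⟩
      exact hν ⟨k, rfl⟩

/-- Expansions with coefficients in an additive subgroup. -/
def Zq_A (S : AddSubgroup ℂ) (F : ℍ → ℂ) : Prop :=
  ∃ (N : ℕ) (c : ℤ → ℂ), 0 < N ∧ QS N c F ∧ ∀ ν, c ν ∈ S

/-- The maximal ideal. -/
def Zq_m (ι : ℂ →+* K) : AddSubgroup ℂ where
  carrier := {x | ‖ι x‖ < 1}
  add_mem' := fun {a b} ha hb => by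
    show ‖ι (a + b)‖ < 1
    rw [map_add]
    exact (IsUltrametricDist.norm_add_le_max _ _).trans_lt (max_lt ha hb)
  zero_mem' := by
    show ‖ι 0‖ < 1
    simp
  neg_mem' := fun {a} ha => by
    show ‖ι (-a)‖ < 1
    rwa [map_neg, norm_neg]

theorem Zq_two {S T : AddSubgroup ℂ} (h : Zq_A S F) (h' : Zq_A T G) :
    ∃ (N : ℕ) (c d : ℤ → ℂ), 0 < N ∧ QS N c F ∧ QS N d G ∧ (∀ ν, c ν ∈ S) ∧ ∀ ν, d ν ∈ T := by
  obtain ⟨N, c, hN, hc, hS⟩ := h
  obtain ⟨M, d, hM, hd, hT⟩ := h'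
  refine ⟨M * N, _, _, mul_pos hM hN, hc.scale hM, mul_comm N M ▸ hd.scale hN,
    fun ν => ?_, fun ν => ?_⟩ <;> split_ifs
  exacts [hS _, zero_mem _, hT _, zero_mem _]

theorem Zq_add {S : AddSubgroup ℂ} (h : Zq_A S F) (h' : Zq_A S G) : Zq_A S fun τ => F τ + G τ := by
  obtain ⟨N, c, d, hN, hc, hd, hS, hT⟩ := Zq_two h h'
  exact ⟨N, _, hN, hc.add hd, fun ν => add_mem (hS ν) (hT ν)⟩

theorem Zq_sub {S : AddSubgroup ℂ} (h : Zq_A S F) (h' : Zq_A S G) : Zq_A S fun τ => F τ - G τ := by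
  obtain ⟨N, c, d, hN, hc, hd, hS, hT⟩ := Zq_two h h'
  exact ⟨N, _, hN, hc.sub hd, fun ν => sub_mem (hS ν) (hT ν)⟩

theorem Zq_mul {S T V : AddSubgroup ℂ} (h : Zq_A S F) (h' : Zq_A T G)
    (e : ∀ x ∈ S, ∀ y ∈ T, x * y ∈ V) : Zq_A V fun τ => F τ * G τ := by
  obtain ⟨N, c, d, hN, hc, hd, hS, hT⟩ := Zq_two h h'
  obtain ⟨L, hL⟩ := hc.low
  obtain ⟨L', hL'⟩ := hd.low
  exact ⟨N, _, hN, hc.mul hd hL hL', fun ν => sum_mem fun μ _ => e _ (hS _) _ (hT _)⟩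

theorem Zq_const {S : AddSubgroup ℂ} {z : ℂ} (h : z ∈ S) : Zq_A S fun _ => z := by
  refine ⟨1, _, one_pos, (QS.single 1 0 z).congr (fun _ => rfl) fun τ => by simp [ee_zero],
    fun ν => ?_⟩
  split_ifs
  exacts [h, zero_mem _]

theorem Zq_tri {S : AddSubgroup ℂ} (h : Zq_A S F)
    (e : ∀ x ∈ S, ∀ (κ : ℂ) (n : ℕ), n ≠ 0 → κ ^ n = 1 → x * κ ∈ S) {a d : ℕ} (ha : 0 < a)
    (hd : 0 < d) (b : ℤ) : Zq_A S fun τ => F (mob !![(a : ℤ), b; 0, (d : ℤ)] τ) := by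
  obtain ⟨N, c, hN, hc, hS⟩ := h
  refine ⟨N * d, _, mul_pos hN hd, hc.mob_tri hN ha hd b, fun ν => ?_⟩
  split_ifs
  · refine e _ (hS _) _ (N * d) (mul_pos hN hd).ne' ?_
    have h1 : (N : ℂ) ≠ 0 := by exact_mod_cast hN.ne'
    have h2 : (d : ℂ) ≠ 0 := by exact_mod_cast hd.ne'
    rw [← ee_nat_mul, ← ee_int (ν / a * b)]
    congr 1
    rw [Int.cast_mul, Nat.cast_mul]
    field_simp
  · exact zero_mem _

theorem Zq.congr (h : Zq ι F) (e : ∀ τ, F τ = G τ) : Zq ι G :=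
  funext e ▸ h

theorem Zs.congr (h : Zs ι F) (e : ∀ τ, F τ = G τ) : Zs ι G :=
  funext e ▸ h

theorem Zs.zq (h : Zs ι F) : Zq ι F := by
  obtain ⟨N, c, hN, hc, hS⟩ := h
  exact ⟨N, c, hN, hc, fun ν => (hS ν).le⟩

theorem Zq.add (h : Zq ι F) (h' : Zq ι G) : Zq ι fun τ => F τ + G τ :=
  Zq_add (S := (Ai ι).toAddSubgroup) h h'

theorem Zq.sub (h : Zq ι F) (h' : Zq ι G) : Zq ι fun τ => F τ - G τ :=
  Zq_sub (S := (Ai ι).toAddSubgroup) h h'

theorem Zq.mul (h : Zq ι F) (h' : Zq ι G) : Zq ι fun τ => F τ * G τ :=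
  Zq_mul (S := (Ai ι).toAddSubgroup) (T := (Ai ι).toAddSubgroup) (V := (Ai ι).toAddSubgroup) h h'
    fun _ hx _ hy => (Ai ι).mul_mem hx hy

theorem zq_const {z : ℂ} (h : ‖ι z‖ ≤ 1) : Zq ι fun _ => z :=
  Zq_const (S := (Ai ι).toAddSubgroup) h

theorem Zq.pow (h : Zq ι F) (n : ℕ) : Zq ι fun τ => F τ ^ n := by
  induction n with
  | zero => exact (zq_const (z := 1) (by simp)).congr fun τ => (pow_zero _).symm
  | succ n ih => exact (ih.mul h).congr fun τ => (pow_succ _ _).symm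

theorem zq_prod {κ : Type} (S : Finset κ) {F : κ → ℍ → ℂ} (h : ∀ i ∈ S, Zq ι (F i)) :
    Zq ι fun τ => ∏ i ∈ S, F i τ := by
  induction S using Finset.induction_on with
  | empty => exact zq_const (z := 1) (by simp)
  | insert a S ha ih =>
    exact ((h a (Finset.mem_insert_self ..)).mul
      (ih fun i hi => h i (Finset.mem_insert_of_mem hi))).congr fun τ =>
        (Finset.prod_insert (f := fun i => F i τ) ha).symm

theorem zq_sum {κ : Type} (S : Finset κ) {F : κ → ℍ → ℂ} (h : ∀ i ∈ S, Zq ι (F i)) :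
    Zq ι fun τ => ∑ i ∈ S, F i τ := by
  induction S using Finset.induction_on with
  | empty => exact zq_const (z := 0) (by simp)
  | insert a S ha ih =>
    exact ((h a (Finset.mem_insert_self ..)).add
      (ih fun i hi => h i (Finset.mem_insert_of_mem hi))).congr fun τ =>
        (Finset.sum_insert (f := fun i => F i τ) ha).symm

theorem Zs.add (h : Zs ι F) (h' : Zs ι G) : Zs ι fun τ => F τ + G τ :=
  Zq_add (S := Zq_m ι) h h'

theorem Zs.sub (h : Zs ι F) (h' : Zs ι G) : Zs ι fun τ => F τ - G τ :=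
  Zq_sub (S := Zq_m ι) h h'

theorem Zs.mul (h : Zs ι F) (h' : Zq ι G) : Zs ι fun τ => F τ * G τ :=
  Zq_mul (S := Zq_m ι) (T := (Ai ι).toAddSubgroup) (V := Zq_m ι) h h' fun x hx y hy => by
    show ‖ι (x * y)‖ < 1
    rw [map_mul, norm_mul]
    exact mul_lt_one_of_nonneg_of_lt_one_left (norm_nonneg _) hx hy

theorem Zq.mul_zs (h : Zq ι F) (h' : Zs ι G) : Zs ι fun τ => F τ * G τ :=
  (h'.mul h).congr fun _ => mul_comm _ _

theorem zs_const {z : ℂ} (h : ‖ι z‖ < 1) : Zs ι fun _ => z :=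
  Zq_const (S := Zq_m ι) h

theorem zs_sum {κ : Type} (S : Finset κ) {F : κ → ℍ → ℂ} (h : ∀ i ∈ S, Zs ι (F i)) :
    Zs ι fun τ => ∑ i ∈ S, F i τ := by
  induction S using Finset.induction_on with
  | empty => exact zs_const (z := 0) (by simp)
  | insert a S ha ih =>
    exact ((h a (Finset.mem_insert_self ..)).add
      (ih fun i hi => h i (Finset.mem_insert_of_mem hi))).congr fun τ =>
        (Finset.sum_insert (f := fun i => F i τ) ha).symm

theorem zs_prod_sub {κ : Type} (S : Finset κ) {F G : κ → ℍ → ℂ} (hF : ∀ i ∈ S, Zq ι (F i))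
    (hG : ∀ i ∈ S, Zq ι (G i)) (h : ∀ i ∈ S, Zs ι fun τ => F i τ - G i τ) :
    Zs ι fun τ => ∏ i ∈ S, F i τ - ∏ i ∈ S, G i τ := by
  induction S using Finset.induction_on with
  | empty => exact (zs_const (z := 0) (by simp)).congr fun τ => by simp
  | insert a S ha ih =>
    have k : ∀ i ∈ S, i ∈ insert a S := fun i => Finset.mem_insert_of_mem
    refine (((h a (Finset.mem_insert_self ..)).mul (zq_prod S fun i hi => hF i (k i hi))).add
      ((hG a (Finset.mem_insert_self ..)).mul_zs (ih (fun i hi => hF i (k i hi))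
        (fun i hi => hG i (k i hi)) fun i hi => h i (k i hi)))).congr fun τ => ?_
    rw [Finset.prod_insert ha, Finset.prod_insert ha]
    ring

theorem Zs.pow_sub (h : Zs ι fun τ => F τ - G τ) (hF : Zq ι F) (hG : Zq ι G) (n : ℕ) :
    Zs ι fun τ => F τ ^ n - G τ ^ n :=
  (zs_prod_sub (Finset.range n) (F := fun _ => F) (G := fun _ => G) (fun _ _ => hF) (fun _ _ => hG)
    fun _ _ => h).congr fun τ => by simp

theorem Zq.mob_tri (h : Zq ι F) {a d : ℕ} (ha : 0 < a) (hd : 0 < d) (b : ℤ) :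
    Zq ι fun τ => F (mob !![(a : ℤ), b; 0, (d : ℤ)] τ) :=
  Zq_tri (S := (Ai ι).toAddSubgroup) h
    (fun _ hx _ _ hn e => (Ai ι).mul_mem hx (norm_map_root ι hn e).le) ha hd b

theorem Zs.mob_tri (h : Zs ι F) {a d : ℕ} (ha : 0 < a) (hd : 0 < d) (b : ℤ) :
    Zs ι fun τ => F (mob !![(a : ℤ), b; 0, (d : ℤ)] τ) :=
  Zq_tri (S := Zq_m ι) h (fun x hx κ _ hn e => by
    show ‖ι (x * κ)‖ < 1
    rwa [map_mul, norm_mul, norm_map_root ι hn e, mul_one]) ha hd b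

theorem Zq.mob_hnf (h : Zq ι F) {n : ℕ} (hn : 0 < n) {Y : MZ} (hY : Y ∈ hnf n) :
    Zq ι fun τ => F (mob Y τ) := by
  obtain ⟨⟨⟨a, d⟩, b⟩, hx, rfl⟩ := Finset.mem_image.1 hY
  have h1 := (Nat.mem_divisorsAntidiagonal.1 (Finset.mem_sigma.1 hx).1).1
  rw [← h1] at hn
  exact h.mob_tri (Nat.pos_of_mul_pos_right hn) (Nat.pos_of_mul_pos_left hn) b

theorem QZ.zq {L : ℤ} (h : QZ L F) (ι : ℂ →+* K) : Zq ι F := by
  obtain ⟨c, hc, -⟩ := h
  exact ⟨1, _, one_pos, hc, fun ν => norm_map_int ι _⟩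

theorem Par.Fam1.zq {P : Par} {n : ℕ} {f : P.GF → ℍ → ℂ} {a : P.GF → ℕ → ℂ}
    (h : P.Fam1 (Ai ι) n f a) (γ : P.GF) : Zq ι (f γ) := by
  have h1 : Zq ι fun τ => f γ τ * Dl τ ^ n := by
    refine ⟨P.p, _, P.prime.pos, (QS.of_nat 0 (h.val γ)).congr (fun _ => rfl)
      fun τ => by simp [ee_zero], fun ν => ?_⟩
    split_ifs
    · exact h.mem γ _
    · simp
  refine (h1.mul ((qz_Dl_inv.zq ι).pow n)).congr fun τ => ?_
  rw [mul_assoc, ← mul_pow, mul_inv_cancel₀ (Dl_ne_zero τ), one_pow, mul_one]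

end

end Pool.Agent.P.MP_a60a76_nt.Sz
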