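import Pool.Agent.P.MP_a60a76_nt.Sz.Van
import Pool.Agent.P.MP_a60a76_nt.Sz.JLoc
import Pool.Agent.P.MP_a60a76_nt.Sz.Zq

namespace Pool.Agent.P.MP_a60a76_nt.Sz

open UpperHalfPlane hiding J
open MeasureTheory SP
open scoped MatrixGroups UpperHalfPlane Matrix Modular Topology Classical ArithmeticFunction.sigma

noncomputable section

/-! From the complex order of vanishing to an adic estimate. -/

variable {K : Type} [NormedField K] [IsUltrametricDist K] {ι : ℂ →+* K}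

theorem coeff_eq_zero_of_le {q : Polynomial ℂ} {ν : ℕ} {C δ : ℝ} (hδ : 0 < δ)
    (h : ∀ u : ℂ, u ≠ 0 → ‖u‖ ≤ δ → ‖q.eval u‖ ^ 3 ≤ C * ‖u‖ ^ ν) {k : ℕ} (hk : 3 * k < ν) :
    q.coeff k = 0 := by
  by_cases hq : q = 0
  · rw [hq, Polynomial.coeff_zero]
  obtain ⟨q₀, e, h0⟩ := Polynomial.exists_eq_pow_rootMultiplicity_mul_and_not_dvd q hq 0
  generalize Polynomial.rootMultiplicity 0 q = m at e
  rw [Polynomial.dvd_iff_isRoot] at h0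
  rw [map_zero, sub_zero] at e
  by_cases hm : k < m
  · exact Polynomial.X_pow_dvd_iff.1 ⟨q₀, e⟩ k hm
  exfalso
  obtain ⟨d, rfl⟩ : ∃ d, ν = 3 * m + (d + 1) := ⟨ν - 3 * m - 1, by omega⟩
  have h1 : Filter.Tendsto (fun u : ℂ => ‖q₀.eval u‖ ^ 3) (𝓝[≠] 0) (𝓝 (‖q₀.eval 0‖ ^ 3)) :=
    ((q₀.continuous.norm.pow 3).tendsto 0).mono_left nhdsWithin_le_nhds
  have h2 : Filter.Tendsto (fun u : ℂ => C * ‖u‖ ^ (d + 1)) (𝓝[≠] 0)
      (𝓝 (C * ‖(0 : ℂ)‖ ^ (d + 1))) :=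
    ((continuous_const.mul (continuous_norm.pow (d + 1))).tendsto 0).mono_left nhdsWithin_le_nhds
  have h3 := le_of_tendsto_of_tendsto h1 h2 (by
    filter_upwards [self_mem_nhdsWithin,
      mem_nhdsWithin_of_mem_nhds (Metric.closedBall_mem_nhds (0 : ℂ) hδ)] with u hu hu'
    have h4 := h u hu (by simpa using hu')
    have h5 : 0 < ‖u‖ ^ (3 * m) := pow_pos (norm_pos_iff.2 hu) _
    rw [e, Polynomial.eval_mul, Polynomial.eval_pow, Polynomial.eval_X, norm_mul, norm_pow, mul_pow,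
      ← pow_mul, mul_comm m 3, pow_add, mul_left_comm] at h4
    exact le_of_mul_le_mul_left h4 h5)
  rw [norm_zero, zero_pow (Nat.succ_ne_zero d), mul_zero] at h3
  exact absurd h3 (not_le.2 (pow_pos (norm_pos_iff.2 h0) 3))

/-- the coefficient number `k` has norm at most `r ^ k` -/
def Lin_B (ι : ℂ →+* K) (r : ℝ) (q : Polynomial ℂ) : Prop := ∀ k, ‖ι (q.coeff k)‖ ≤ r ^ k

theorem Lin_sum_le {α : Type} (s : Finset α) {f : α → K} {c : ℝ} (hc : 0 ≤ c)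
    (h : ∀ i ∈ s, ‖f i‖ ≤ c) : ‖∑ i ∈ s, f i‖ ≤ c := by
  induction s using Finset.induction_on with
  | empty => simpa using hc
  | insert a s ha ih =>
    rw [Finset.sum_insert ha]
    exact (IsUltrametricDist.norm_add_le_max _ _).trans (max_le (h a (Finset.mem_insert_self _ _))
      (ih fun i hi => h i (Finset.mem_insert_of_mem hi)))

theorem Lin_sum_lt {α : Type} (s : Finset α) {f : α → K} {c : ℝ} (hc : 0 < c)
    (h : ∀ i ∈ s, ‖f i‖ < c) : ‖∑ i ∈ s, f i‖ < c := by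
  induction s using Finset.induction_on with
  | empty => simpa using hc
  | insert a s ha ih =>
    rw [Finset.sum_insert ha]
    exact (IsUltrametricDist.norm_add_le_max _ _).trans_lt
      (max_lt (h a (Finset.mem_insert_self _ _)) (ih fun i hi => h i (Finset.mem_insert_of_mem hi)))

theorem Lin_add_eq {x y : K} (h : ‖y‖ < ‖x‖) : ‖x + y‖ = ‖x‖ := by
  rw [IsUltrametricDist.norm_add_eq_max_of_norm_ne_norm h.ne', max_eq_left h.le]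

omit [IsUltrametricDist K] in
theorem Lin_B_C {r : ℝ} (hr : 0 ≤ r) {z : ℂ} (hz : ‖ι z‖ ≤ 1) : Lin_B ι r (Polynomial.C z) := by
  intro k
  rw [Polynomial.coeff_C]
  split_ifs with h
  · rwa [h, pow_zero]
  · rw [map_zero, norm_zero]
    exact pow_nonneg hr k

omit [IsUltrametricDist K] in
theorem Lin_B_lin {r : ℝ} {z w : ℂ} (hz : ‖ι z‖ ≤ 1) (hw : ‖ι w‖ ≤ r) :
    Lin_B ι r (Polynomial.C z + Polynomial.C w * Polynomial.X) := by
  intro k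
  rcases k with _ | _ | k
  · simpa using hz
  · simpa using hw
  · simpa [Polynomial.coeff_X] using pow_nonneg ((norm_nonneg _).trans hw) (k + 1 + 1)

theorem Lin_B_mul {r : ℝ} (hr : 0 ≤ r) {p q : Polynomial ℂ} (hp : Lin_B ι r p)
    (hq : Lin_B ι r q) : Lin_B ι r (p * q) := by
  intro k
  rw [Polynomial.coeff_mul, map_sum]
  refine Lin_sum_le _ (pow_nonneg hr k) fun x hx => ?_
  rw [map_mul, norm_mul, ← Finset.HasAntidiagonal.mem_antidiagonal.1 hx, pow_add]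
  exact mul_le_mul (hp _) (hq _) (norm_nonneg _) (pow_nonneg hr _)

theorem Lin_B_pow {r : ℝ} (hr : 0 ≤ r) {p : Polynomial ℂ} (hp : Lin_B ι r p) (n : ℕ) :
    Lin_B ι r (p ^ n) := by
  induction n with
  | zero => exact Lin_B_C (z := 1) hr (by simp)
  | succ n ih => exact pow_succ p n ▸ Lin_B_mul hr ih hp

theorem Lin_B_sum {α : Type} {r : ℝ} (hr : 0 ≤ r) (s : Finset α) {p : α → Polynomial ℂ}
    (hp : ∀ i ∈ s, Lin_B ι r (p i)) : Lin_B ι r (∑ i ∈ s, p i) := by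
  intro k
  rw [Polynomial.finsetSum_coeff, map_sum]
  exact Lin_sum_le _ (pow_nonneg hr k) fun i hi => hp i hi k

theorem Lin_est {ν : ℕ} {f : ℍ → ℍ → ℂ} {s₁ s₂ : ℍ} (hv : Van ν f s₁ s₂) (w₁ w₂ : ℂ) :
    ∃ C δ : ℝ, 0 < δ ∧ ∀ u : ℂ, u ≠ 0 → ‖u‖ ≤ δ → ∃ t₁ t₂ : ℍ, J t₁ = J s₁ + w₁ * u ∧
      J t₂ = J s₂ + w₂ * u ∧ ‖f t₁ t₂‖ ^ 3 ≤ C * ‖u‖ ^ ν := by
  obtain ⟨C, δ, hδ, h⟩ := hv
  obtain ⟨C₁, δ₁, hC₁, hδ₁, h₁⟩ := J_local s₁
  obtain ⟨C₂, δ₂, hC₂, hδ₂, h₂⟩ := J_local s₂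
  have n₁ := norm_nonneg w₁
  have n₂ := norm_nonneg w₂
  obtain ⟨D, hD, d₁, d₂⟩ : ∃ D : ℝ, 0 < D ∧ C₁ * ‖w₁‖ ≤ D ∧ C₂ * ‖w₂‖ ≤ D :=
    ⟨C₁ * ‖w₁‖ + C₂ * ‖w₂‖ + 1, by positivity, by nlinarith [mul_nonneg hC₂.le n₂],
      by nlinarith [mul_nonneg hC₁.le n₁]⟩
  refine ⟨C ^ 3 * D ^ ν, min (δ₁ / (‖w₁‖ + 1)) (min (δ₂ / (‖w₂‖ + 1)) (δ ^ 3 / D)),
    by positivity, fun u hu hu' => ?_⟩
  have u0 : 0 < ‖u‖ := norm_pos_iff.2 hu
  rw [le_min_iff, le_min_iff, le_div_iff₀ (by positivity), le_div_iff₀ (by positivity),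
    le_div_iff₀ hD] at hu'
  obtain ⟨u₁, u₂, u₃⟩ := hu'
  obtain ⟨t₁, e₁, b₁⟩ := h₁ (J s₁ + w₁ * u) (by rw [add_sub_cancel_left, norm_mul]; nlinarith)
  obtain ⟨t₂, e₂, b₂⟩ := h₂ (J s₂ + w₂ * u) (by rw [add_sub_cancel_left, norm_mul]; nlinarith)
  rw [add_sub_cancel_left, norm_mul, ← mul_assoc] at b₁ b₂
  obtain ⟨ε, ε0, hε⟩ : ∃ ε : ℝ, 0 < ε ∧ ε ^ 3 = D * ‖u‖ :=
    ⟨(D * ‖u‖) ^ (((3 : ℕ) : ℝ)⁻¹), by positivity,
      Real.rpow_inv_natCast_pow (by positivity) three_ne_zero⟩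
  refine ⟨t₁, t₂, e₁, e₂, ?_⟩
  have h3 := h ε ε0 (le_of_pow_le_pow_left₀ three_ne_zero hδ.le (by rw [hε]; linarith)) t₁ t₂
    (le_of_pow_le_pow_left₀ three_ne_zero ε0.le
      (by rw [hε]; exact b₁.trans (mul_le_mul_of_nonneg_right d₁ u0.le)))
    (le_of_pow_le_pow_left₀ three_ne_zero ε0.le
      (by rw [hε]; exact b₂.trans (mul_le_mul_of_nonneg_right d₂ u0.le)))
  refine (pow_le_pow_left₀ (norm_nonneg _) h3 3).trans_eq ?_
  rw [mul_pow, ← pow_mul, mul_comm ν 3, pow_mul, hε, mul_pow, mul_assoc]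

theorem line_le {ν n : ℕ} {Q : ℕ → ℕ → ℂ} (hQ : ∀ i j, ‖ι (Q i j)‖ ≤ 1) {f : ℍ → ℍ → ℂ}
    (hf : ∀ t₁ t₂, f t₁ t₂ =
      ∑ i ∈ Finset.range n, ∑ j ∈ Finset.range n, Q i j * (J t₁ ^ i * J t₂ ^ j))
    {s₁ s₂ t₁ t₂ : ℍ} (hv : Van ν f s₁ s₂) (h₁ : ‖ι (J s₁)‖ ≤ 1) (h₂ : ‖ι (J s₂)‖ ≤ 1) {r : ℝ}
    (hr : r ≤ 1) (e₁ : ‖ι (J t₁ - J s₁)‖ ≤ r) (e₂ : ‖ι (J t₂ - J s₂)‖ ≤ r) :
    ‖ι (f t₁ t₂)‖ ^ 3 ≤ r ^ ν := by
  have r0 : 0 ≤ r := (norm_nonneg _).trans e₁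
  obtain ⟨q, hq, hB⟩ : ∃ q : Polynomial ℂ, (∀ u, q.eval u = ∑ i ∈ Finset.range n,
      ∑ j ∈ Finset.range n, Q i j * ((J s₁ + (J t₁ - J s₁) * u) ^ i *
        (J s₂ + (J t₂ - J s₂) * u) ^ j)) ∧ Lin_B ι r q := by
    refine ⟨∑ i ∈ Finset.range n, ∑ j ∈ Finset.range n, Polynomial.C (Q i j) *
      ((Polynomial.C (J s₁) + Polynomial.C (J t₁ - J s₁) * Polynomial.X) ^ i *
        (Polynomial.C (J s₂) + Polynomial.C (J t₂ - J s₂) * Polynomial.X) ^ j), fun u => ?_,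
      Lin_B_sum r0 _ fun i _ => Lin_B_sum r0 _ fun j _ => Lin_B_mul r0 (Lin_B_C r0 (hQ i j))
        (Lin_B_mul r0 (Lin_B_pow r0 (Lin_B_lin h₁ e₁) i) (Lin_B_pow r0 (Lin_B_lin h₂ e₂) j))⟩
    simp only [Polynomial.eval_finsetSum, Polynomial.eval_mul, Polynomial.eval_pow,
      Polynomial.eval_add, Polynomial.eval_C, Polynomial.eval_X]
  obtain ⟨C, δ, hδ, h⟩ := Lin_est hv (J t₁ - J s₁) (J t₂ - J s₂)
  have h0 : ∀ k, 3 * k < ν → q.coeff k = 0 := fun k hk =>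
    coeff_eq_zero_of_le (C := C) hδ (fun u hu hu' => by
      obtain ⟨τ₁, τ₂, a₁, a₂, b⟩ := h u hu hu'
      rwa [hq, ← a₁, ← a₂, ← hf]) hk
  have h1 : f t₁ t₂ = q.eval 1 := by
    rw [hq, hf, mul_one, mul_one, add_sub_cancel, add_sub_cancel]
  have h2 : ‖ι (f t₁ t₂)‖ ≤ r ^ ((ν + 2) / 3) := by
    rw [h1, Polynomial.eval_eq_sum_range, map_sum]
    refine Lin_sum_le _ (pow_nonneg r0 _) fun k _ => ?_
    rw [one_pow, mul_one]
    by_cases hk : 3 * k < ν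
    · rw [h0 k hk, map_zero, norm_zero]
      exact pow_nonneg r0 _
    · exact (hB k).trans (pow_le_pow_of_le_one r0 hr (by omega))
  refine (pow_le_pow_left₀ (norm_nonneg _) h2 3).trans ?_
  rw [← pow_mul]
  exact pow_le_pow_of_le_one r0 hr (by omega)

theorem Lin_card {G : Type} [Fintype G] {S T : Finset G} {k : ℕ}
    (h : S.card = Fintype.card G - T.card + k) : k ≤ (S.filter (· ∈ T)).card := by
  have h1 := Finset.card_filter_add_card_filter_not (s := S) (· ∈ T)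
  have h2 : (S.filter (· ∉ T)).card ≤ Tᶜ.card :=
    Finset.card_le_card fun g hg => Finset.mem_compl.2 (Finset.mem_filter.1 hg).2
  rw [Finset.card_compl] at h2
  omega

theorem root_small {G : Type} [Fintype G] (y : G → K) (T : Finset G) {R : ℝ} (hR : 0 ≤ R)
    (h1 : ∀ g, g ∉ T → ‖y g‖ = 1) (h2 : ∀ g ∈ T, ‖y g‖ < 1)
    (h : ∀ k, k ≤ T.card → ‖∑ S ∈ Finset.powersetCard (Fintype.card G - T.card + k)
      (Finset.univ : Finset G), ∏ g ∈ S, y g‖ ^ 3 ≤ R ^ k) : ∀ g ∈ T, ‖y g‖ ^ 3 ≤ R := by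
  intro g₀ hg₀
  obtain ⟨g₁, hg₁, hmax⟩ := T.exists_max_image (fun g => ‖y g‖) ⟨g₀, hg₀⟩
  refine (pow_le_pow_left₀ (norm_nonneg _) (hmax g₀ hg₀) 3).trans ?_
  obtain ⟨M, hM⟩ : ∃ M, M = ‖y g₁‖ := ⟨_, rfl⟩
  rw [← hM] at hmax ⊢
  have M1 : M < 1 := hM ▸ h2 g₁ hg₁
  rcases (hM ▸ norm_nonneg (y g₁) : 0 ≤ M).eq_or_lt with M0 | M0
  · rw [← M0, zero_pow three_ne_zero]
    exact hR
  obtain ⟨T₀, hT₀⟩ : ∃ T₀ : Finset G, ∀ g, g ∈ T₀ ↔ g ∈ T ∧ ‖y g‖ = M :=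
    ⟨T.filter fun g => ‖y g‖ = M, fun g => Finset.mem_filter⟩
  have k0 : T₀.card ≠ 0 := Finset.card_ne_zero.2 ⟨g₁, (hT₀ g₁).2 ⟨hg₁, hM.symm⟩⟩
  have hd : Disjoint Tᶜ T₀ := Finset.disjoint_left.2 fun g hg hg' =>
    Finset.mem_compl.1 hg ((hT₀ g).1 hg').1
  have hc : (Tᶜ ∪ T₀).card = Fintype.card G - T.card + T₀.card := by
    rw [Finset.card_union_of_disjoint hd, Finset.card_compl]
  have hmain : ‖∏ g ∈ Tᶜ ∪ T₀, y g‖ = M ^ T₀.card := by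
    rw [norm_prod, Finset.prod_union hd,
      Finset.prod_eq_one fun g hg => h1 g (Finset.mem_compl.1 hg), one_mul,
      Finset.prod_congr rfl fun g hg => ((hT₀ g).1 hg).2, Finset.prod_const]
  have h3 := h T₀.card (Finset.card_le_card fun g hg => ((hT₀ g).1 hg).1)
  rw [← Finset.add_sum_erase _ _ (Finset.mem_powersetCard.2 ⟨Finset.subset_univ _, hc⟩),
    Lin_add_eq, hmain, ← pow_mul, mul_comm, pow_mul] at h3
  · exact le_of_pow_le_pow_left₀ k0 hR h3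
  rw [hmain]
  refine Lin_sum_lt _ (pow_pos M0 _) fun S hS => ?_
  obtain ⟨hne, hS⟩ := Finset.mem_erase.1 hS
  have hS' := (Finset.mem_powersetCard.1 hS).2
  obtain ⟨g, hg, hg'⟩ : ∃ g ∈ S, g ∉ Tᶜ ∪ T₀ := by
    by_contra hcon
    push Not at hcon
    exact hne (Finset.eq_of_subset_of_card_le hcon (by rw [hc, hS']))
  rw [Finset.mem_union, not_or, Finset.mem_compl, not_not] at hg'
  have hlt : ‖y g‖ < M := lt_of_le_of_ne (hmax g hg'.1) fun e => hg'.2 ((hT₀ g).2 ⟨hg'.1, e⟩)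
  have hgS : g ∈ S.filter (· ∈ T) := Finset.mem_filter.2 ⟨hg, hg'.1⟩
  have h4 := Lin_card hS'
  have h5 : ∏ i ∈ (S.filter (· ∈ T)).erase g, ‖y i‖ ≤ M ^ ((S.filter (· ∈ T)).card - 1) := by
    rw [← Finset.card_erase_of_mem hgS, ← Finset.prod_const]
    exact Finset.prod_le_prod (fun i _ => norm_nonneg _) fun i hi =>
      hmax i (Finset.mem_filter.1 (Finset.mem_of_mem_erase hi)).2
  rw [norm_prod, ← Finset.prod_filter_mul_prod_filter_not S (· ∈ T),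
    Finset.prod_eq_one (s := S.filter (· ∉ T)) fun i hi => h1 i (Finset.mem_filter.1 hi).2,
    mul_one, ← Finset.mul_prod_erase _ _ hgS]
  calc ‖y g‖ * ∏ i ∈ (S.filter (· ∈ T)).erase g, ‖y i‖
      ≤ ‖y g‖ * M ^ (T₀.card - 1) := mul_le_mul_of_nonneg_left
        (h5.trans (pow_le_pow_of_le_one M0.le M1.le (by omega))) (norm_nonneg _)
    _ < M * M ^ (T₀.card - 1) := mul_lt_mul_of_pos_right hlt (pow_pos M0 _)
    _ = M ^ T₀.card := by rw [← pow_succ', Nat.sub_add_cancel (by omega)]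

theorem van_esymm {G : Type} [Fintype G] {F : G → ℍ → ℍ → ℂ} (T : Finset G) {ν : ℕ} {s₁ s₂ : ℍ}
    (h0 : ∀ g, Van 0 (F g) s₁ s₂) (h : ∀ g ∈ T, Van ν (F g) s₁ s₂) (k : ℕ) :
    Van (ν * k) (fun t₁ t₂ => ∑ S ∈ Finset.powersetCard (Fintype.card G - T.card + k)
      (Finset.univ : Finset G), ∏ g ∈ S, F g t₁ t₂) s₁ s₂ := by
  refine van_sum _ fun S hS => ?_
  refine (van_prod S (n := fun g => if g ∈ T then ν else 0) fun g _ => ?_).mono ?_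
  · split_ifs with hg
    · exact h g hg
    · exact h0 g
  · rw [← Finset.sum_filter, Finset.sum_const, smul_eq_mul, mul_comm]
    exact Nat.mul_le_mul_right _ (Lin_card (Finset.mem_powersetCard.1 hS).2)

theorem avoid {G : Type} (S : Finset G) (x y : G → ℂ) (hx : ∀ g ∈ S, ‖ι (x g)‖ ≤ 1)
    (hy : ∀ g ∈ S, ‖ι (y g)‖ ≤ 1) (h : ∀ g ∈ S, ‖ι (x g)‖ = 1 ∨ ‖ι (y g)‖ = 1) :
    ∃ c : ℂ, ‖ι c‖ ≤ 1 ∧ ∀ g ∈ S, ‖ι (x g + c * y g)‖ = 1 := by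
  obtain ⟨S', hS'⟩ : ∃ S' : Finset G, ∀ g, g ∈ S' ↔ g ∈ S ∧ ‖ι (y g)‖ = 1 :=
    ⟨S.filter fun g => ‖ι (y g)‖ = 1, fun g => Finset.mem_filter⟩
  have hr : ∀ g ∈ S', ‖ι (x g / y g)‖ ≤ 1 := fun g hg => by
    rw [map_div₀, norm_div, ((hS' g).1 hg).2, div_one]
    exact hx g ((hS' g).1 hg).1
  obtain ⟨c, hc⟩ : ∃ c : ℂ, c * ∏ g ∈ S', (c + x g / y g) = 1 := by
    have hm : (∏ g ∈ S', (Polynomial.X + Polynomial.C (x g / y g))).Monic :=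
      Polynomial.monic_prod_of_monic _ _ fun g _ => Polynomial.monic_X_add_C _
    have hd : 0 < (Polynomial.X * ∏ g ∈ S', (Polynomial.X + Polynomial.C (x g / y g))).degree := by
      rw [← Polynomial.natDegree_pos_iff_degree_pos, Polynomial.monic_X.natDegree_mul hm,
        Polynomial.natDegree_X]
      omega
    obtain ⟨c, hc⟩ := Complex.exists_root ((Polynomial.degree_sub_C (a := 1) hd).symm ▸ hd)
    refine ⟨c, ?_⟩
    simpa [Polynomial.eval_prod, sub_eq_zero] using hc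
  have hn : ‖ι c‖ * ∏ g ∈ S', ‖ι (c + x g / y g)‖ = 1 := by
    rw [← norm_prod, ← map_prod, ← norm_mul, ← map_mul, hc, map_one, norm_one]
  have c1 : ‖ι c‖ ≤ 1 := by
    by_contra hcon
    have h1 : 1 ≤ ∏ g ∈ S', ‖ι (c + x g / y g)‖ := Finset.one_le_prod fun g hg => by
      rw [map_add, Lin_add_eq ((hr g hg).trans_lt (not_le.1 hcon))]
      exact (not_le.1 hcon).le
    nlinarith [not_le.1 hcon]
  have h2 : ∀ g ∈ S', ‖ι (c + x g / y g)‖ ≤ 1 := fun g hg => by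
    rw [map_add]
    exact (IsUltrametricDist.norm_add_le_max _ _).trans (max_le c1 (hr g hg))
  refine ⟨c, c1, fun g hg => ?_⟩
  by_cases hy1 : ‖ι (y g)‖ = 1
  · have hg' := (hS' g).2 ⟨hg, hy1⟩
    have y0 : y g ≠ 0 := fun e => by simp [e] at hy1
    rw [show x g + c * y g = (c + x g / y g) * y g by field_simp; ring, map_mul, norm_mul, hy1,
      mul_one]
    refine le_antisymm (h2 g hg') ?_
    rw [← Finset.mul_prod_erase _ _ hg', mul_left_comm] at hn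
    have h3 : ‖ι c‖ * ∏ i ∈ S'.erase g, ‖ι (c + x i / y i)‖ ≤ 1 :=
      mul_le_one₀ c1 (Finset.prod_nonneg fun i _ => norm_nonneg _)
        (Finset.prod_le_one (fun i _ => norm_nonneg _) fun i hi =>
          h2 i (Finset.mem_of_mem_erase hi))
    nlinarith [norm_nonneg (ι (c + x g / y g))]
  · have x1 := (h g hg).resolve_right hy1
    rw [map_add, Lin_add_eq, x1]
    rw [x1, map_mul, norm_mul]
    exact mul_lt_one_of_nonneg_of_lt_one_right c1 (norm_nonneg _) (lt_of_le_of_ne (hy g hg) hy1)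

end

end Pool.Agent.P.MP_a60a76_nt.Sz
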