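import Pool.Agent.P.MP_a60a76_nt.Sz.IgA
import Pool.Agent.P.MP_a60a76_nt.Sz.Conj
import Pool.Agent.P.MP_a60a76_nt.Sz.Sepa
import Pool.Agent.P.MP_a60a76_nt.Sz.Lin

namespace Pool.Agent.P.MP_a60a76_nt.Sz

open UpperHalfPlane hiding J
open MeasureTheory SP
open scoped MatrixGroups UpperHalfPlane Matrix Modular Topology Classical ArithmeticFunction.sigma

noncomputable section

/-! Reduction of integral functions. -/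

namespace Par

variable {P : Par} {K : Type} [NormedField K] [IsUltrametricDist K] {ι : ℂ →+* K}
  {f : ℍ → ℍ → ℂ} {t₁ t₂ s₁ s₂ : ℍ}

theorem IgB_mul {x y x' y' : K} (hx : ‖x‖ ≤ 1) (hy : ‖y'‖ ≤ 1) (e₁ : ‖x - x'‖ < 1)
    (e₂ : ‖y - y'‖ < 1) : ‖x * y - x' * y'‖ < 1 := by
  rw [show x * y - x' * y' = x * (y - y') + (x - x') * y' by ring]
  refine (IsUltrametricDist.norm_add_le_max _ _).trans_lt (max_lt ?_ ?_) <;> rw [norm_mul]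
  · exact mul_lt_one_of_nonneg_of_lt_one_right hx (norm_nonneg _) e₂
  · exact mul_lt_one_of_nonneg_of_lt_one_left (norm_nonneg _) e₁ hy

theorem IgB_le {x x' : K} (hx : ‖x‖ ≤ 1) (e : ‖x - x'‖ < 1) : ‖x'‖ ≤ 1 := by
  rw [show x' = x + -(x - x') by ring]
  exact (IsUltrametricDist.norm_add_le_max _ _).trans (max_le hx (by rw [norm_neg]; exact e.le))

theorem IgB_pow {x x' : K} (hx : ‖x‖ ≤ 1) (e : ‖x - x'‖ < 1) (i : ℕ) : ‖x ^ i - x' ^ i‖ < 1 := by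
  induction i with
  | zero => simp
  | succ i ih =>
    rw [pow_succ, pow_succ]
    exact IgB_mul (by rw [norm_pow]; exact pow_le_one₀ (norm_nonneg _) hx) (IgB_le hx e) ih e

theorem IgB_sum {α : Type} (S : Finset α) {y : α → K} (h : ∀ i ∈ S, ‖y i‖ < 1) :
    ‖∑ i ∈ S, y i‖ < 1 :=
  Finset.sum_induction y (fun z => ‖z‖ < 1)
    (fun _ _ ha hb => (IsUltrametricDist.norm_add_le_max _ _).trans_lt (max_lt ha hb))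
    (by simp) h

theorem IgB_inv_bound (hf : P.Ig (Ai ι) f)
    (hi : ∀ (g₁ g₂ : SL(2, ℤ)) (t₁ t₂ : ℍ), f (g₁ • t₁) (g₂ • t₂) = f t₁ t₂)
    (h₁ : ‖ι (J t₁)‖ ≤ 1) (h₂ : ‖ι (J t₂)‖ ≤ 1) : ‖ι (f t₁ t₂)‖ ≤ 1 := by
  obtain ⟨n, Q, hA, hQ⟩ := hf.poly hi
  have h3 : J t₁ ∈ Ai ι := h₁
  have h4 : J t₂ ∈ Ai ι := h₂
  show f t₁ t₂ ∈ Ai ι
  rw [hQ]
  exact sum_mem fun i _ => sum_mem fun j _ =>
    mul_mem (hA i j) (mul_mem (pow_mem h3 i) (pow_mem h4 j))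

theorem IgB_inv_cg (hf : P.Ig (Ai ι) f)
    (hi : ∀ (g₁ g₂ : SL(2, ℤ)) (t₁ t₂ : ℍ), f (g₁ • t₁) (g₂ • t₂) = f t₁ t₂)
    (h₁ : ‖ι (J t₁)‖ ≤ 1) (h₂ : ‖ι (J t₂)‖ ≤ 1) (e₁ : ‖ι (J t₁ - J s₁)‖ < 1)
    (e₂ : ‖ι (J t₂ - J s₂)‖ < 1) : ‖ι (f t₁ t₂) - ι (f s₁ s₂)‖ < 1 := by
  obtain ⟨n, Q, hA, hQ⟩ := hf.poly hi
  rw [map_sub] at e₁ e₂
  rw [hQ, hQ, map_sum, map_sum, ← Finset.sum_sub_distrib]
  refine IgB_sum _ fun i _ => ?_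
  rw [map_sum, map_sum, ← Finset.sum_sub_distrib]
  refine IgB_sum _ fun j _ => ?_
  simp only [map_mul, map_pow]
  rw [← mul_sub, norm_mul]
  refine mul_lt_one_of_nonneg_of_lt_one_right (hA i j) (norm_nonneg _) ?_
  refine IgB_mul ?_ ?_ (IgB_pow h₁ e₁ i) (IgB_pow h₂ e₂ j) <;> rw [norm_pow]
  · exact pow_le_one₀ (norm_nonneg _) h₁
  · exact pow_le_one₀ (norm_nonneg _) (IgB_le h₂ e₂)

theorem Ig.bound (hf : P.Ig (Ai ι) f) (h₁ : ‖ι (J t₁)‖ ≤ 1) (h₂ : ‖ι (J t₂)‖ ≤ 1) :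
    ‖ι (f t₁ t₂)‖ ≤ 1 := by
  have h := Conj_root_bound (fun g : P.SS => ι (P.cj g f t₁ t₂)) one_pos (fun k => by
    have h3 := IgB_inv_bound (hf.sy k).1 (hf.sy k).2 h₁ h₂
    simpa only [Par.sy, map_sum, map_prod, one_pow] using h3) 1
  rwa [hf.cj_one] at h

theorem IgB_unit (h₁ : ‖ι (J s₁)‖ ≤ 1) (h₂ : ‖ι (J s₂)‖ ≤ 1) (S : Finset P.SS)
    (H : ∀ x ∈ S, ∃ h, P.Ig (Ai ι) h ∧ h t₁ t₂ = 0 ∧ ‖ι (P.cj x h s₁ s₂)‖ = 1) :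
    ∃ h, P.Ig (Ai ι) h ∧ h t₁ t₂ = 0 ∧ ∀ x ∈ S, ‖ι (P.cj x h s₁ s₂)‖ = 1 := by
  induction S using Finset.induction_on with
  | empty => exact ⟨fun _ _ => 0, P.ig_const (zero_mem _), rfl, by simp⟩
  | insert x S _ ih =>
    obtain ⟨h, hh, h0, h1⟩ := ih fun y hy => H y (Finset.mem_insert_of_mem hy)
    obtain ⟨h', hh', h0', h1'⟩ := H x (Finset.mem_insert_self x S)
    obtain ⟨c, hc, h3⟩ := avoid (ι := ι) (insert x S) (fun g => P.cj g h s₁ s₂)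
      (fun g => P.cj g h' s₁ s₂) (fun g _ => (hh.cj g).bound h₁ h₂)
      (fun g _ => (hh'.cj g).bound h₁ h₂) fun g hg => by
        rcases Finset.mem_insert.1 hg with rfl | hg
        · exact Or.inr h1'
        · exact Or.inl (h1 g hg)
    exact ⟨fun a b => h a b + c * h' a b, hh.add ((P.ig_const (A := Ai ι) hc).mul hh'),
      by simp [h0, h0'], h3⟩

theorem IgB_one (hf : P.Ig (Ai ι) f) (h₁ : ‖ι (J t₁)‖ ≤ 1) (h₂ : ‖ι (J t₂)‖ ≤ 1)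
    (k₁ : ‖ι (J s₁)‖ ≤ 1) (k₂ : ‖ι (J s₂)‖ ≤ 1) {x : P.SS}
    (h : ¬ ‖ι (P.cj x f s₁ s₂ - f t₁ t₂)‖ < 1) :
    ∃ h, P.Ig (Ai ι) h ∧ h t₁ t₂ = 0 ∧ ‖ι (P.cj x h s₁ s₂)‖ = 1 := by
  have h3 := hf.sub (P.ig_const (A := Ai ι) (hf.bound h₁ h₂))
  exact ⟨_, h3, sub_self _, le_antisymm ((h3.cj x).bound k₁ k₂) (not_lt.1 h)⟩

theorem exists_cg (P : Par) (h₁ : ‖ι (J t₁)‖ ≤ 1) (h₂ : ‖ι (J t₂)‖ ≤ 1)
    (e₁ : ‖ι (J t₁ - J s₁)‖ < 1) (e₂ : ‖ι (J t₂ - J s₂)‖ < 1) : ∃ g₁ g₂ : SL(2, ℤ),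
    ∀ f, P.Ig (Ai ι) f → ‖ι (f t₁ t₂ - f (g₁ • s₁) (g₂ • s₂))‖ < 1 := by
  by_contra hc
  have k₁ : ‖ι (J s₁)‖ ≤ 1 := IgB_le h₁ (by rwa [map_sub] at e₁)
  have k₂ : ‖ι (J s₂)‖ ≤ 1 := IgB_le h₂ (by rwa [map_sub] at e₂)
  obtain ⟨h, hh, h0, h1⟩ := IgB_unit (P := P) (t₁ := t₁) (t₂ := t₂) k₁ k₂ Finset.univ fun x _ => by
    by_contra h3
    refine hc ⟨P.lf x.1, P.lf x.2, fun f hf => ?_⟩
    by_contra h4
    refine h3 (IgB_one hf h₁ h₂ k₁ k₂ ?_)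
    rwa [map_sub, norm_sub_rev, ← map_sub]
  have h3 := IgB_inv_cg (hh.sy (Finset.univ : Finset P.SS).card).1
    (hh.sy (Finset.univ : Finset P.SS).card).2 h₁ h₂ e₁ e₂
  simp only [Par.sy, Finset.powersetCard_self, Finset.sum_singleton] at h3
  rw [Finset.prod_eq_zero (Finset.mem_univ 1) (by rw [hh.cj_one, h0]), map_zero, zero_sub, norm_neg,
    map_prod, norm_prod, Finset.prod_eq_one h1] at h3
  exact lt_irrefl _ h3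

theorem exists_sep (P : Par) (h₁ : ‖ι (J s₁)‖ ≤ 1) (h₂ : ‖ι (J s₂)‖ ≤ 1) :
    ∃ h, P.Ig (Ai ι) h ∧ h s₁ s₂ = 0 ∧ ∀ x : P.SS,
      (∃ f, P.Ig (Ai ι) f ∧ ¬ ‖ι (P.cj x f s₁ s₂ - f s₁ s₂)‖ < 1) → ‖ι (P.cj x h s₁ s₂)‖ = 1 := by
  obtain ⟨h, hh, h0, h1⟩ := IgB_unit (P := P) (t₁ := s₁) (t₂ := s₂) h₁ h₂
    (Finset.univ.filter fun x => ∃ f, P.Ig (Ai ι) f ∧ ¬ ‖ι (P.cj x f s₁ s₂ - f s₁ s₂)‖ < 1)
    fun x hx => by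
      obtain ⟨f, hf, h3⟩ := (Finset.mem_filter.1 hx).2
      exact IgB_one hf h₁ h₂ h₁ h₂ h3
  exact ⟨h, hh, h0, fun x hx => h1 x (Finset.mem_filter.2 ⟨Finset.mem_univ x, hx⟩)⟩

theorem IgB_near (P : Par) (s : ℍ) : ∃ r : ℍ, ∀ᶠ t in 𝓝 s, ‖P.sv t‖ ≤ ‖P.sv r‖ := by
  have hp : (0 : ℝ) < P.p := by exact_mod_cast P.prime.pos
  have h0 := s.im_pos
  refine ⟨⟨(s.im / 2 : ℝ) * Complex.I, by simpa using h0⟩, ?_⟩
  filter_upwards [UpperHalfPlane.continuous_im.continuousAt.eventually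
    (lt_mem_nhds (half_lt_self h0))] with t ht
  have h1 : (⟨(s.im / 2 : ℝ) * Complex.I, by simpa using h0⟩ : ℍ).im = s.im / 2 := by
    rw [UpperHalfPlane.mk_im]
    simp
  rw [P.norm_sv, P.norm_sv, h1, Real.exp_le_exp, neg_le_neg_iff]
  have := Real.pi_pos
  gcongr

theorem Ig.van_zero {A : Subring ℂ} (hf : P.Ig A f) (s₁ s₂ : ℍ) : Van 0 f s₁ s₂ := by
  obtain ⟨n, hn⟩ := hf
  obtain ⟨a, -, ha⟩ := hn.exp 1 1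
  obtain ⟨r₁, h₁⟩ := P.IgB_near s₁
  obtain ⟨r₂, h₂⟩ := P.IgB_near s₂
  have hD : Continuous Dl := CuspForm.discriminant.holo'.continuous
  have hne : ∀ t : ℍ × ℍ, (Dl t.1 * Dl t.2) ^ n ≠ 0 := fun t =>
    pow_ne_zero _ (mul_ne_zero (Dl_ne_zero _) (Dl_ne_zero _))
  have hc : Continuous fun t : ℍ × ℍ => ‖((Dl t.1 * Dl t.2) ^ n)⁻¹‖ :=
    ((((hD.comp continuous_fst).mul (hD.comp continuous_snd)).pow n).inv₀ hne).norm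
  have hM := (ha r₁ r₂).1.hasSum
  refine van_of_eventually (C := (∑' d : Fin 2 →₀ ℕ, ‖RingHom.id ℂ (MvPowerSeries.coeff d a)‖ *
    (‖P.sv r₁‖ ^ d 0 * ‖P.sv r₂‖ ^ d 1)) * (‖((Dl s₁ * Dl s₂) ^ n)⁻¹‖ + 1)) ?_
  filter_upwards [(continuous_fst.tendsto (s₁, s₂)).eventually h₁,
    (continuous_snd.tendsto (s₁, s₂)).eventually h₂,
    (hc.continuousAt (x := (s₁, s₂))).eventually (gt_mem_nhds (lt_add_one _))] with t k₁ k₂ k₃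
  have e := (ha t.1 t.2).2
  rw [one_smul, one_smul] at e
  rw [(eq_mul_inv_iff_mul_eq₀ (hne t)).2 e, norm_mul]
  refine mul_le_mul ?_ k₃.le (norm_nonneg _) (tsum_nonneg fun d => by positivity)
  refine tsum_of_norm_bounded hM fun d => ?_
  rw [Ev_norm]
  gcongr

theorem Ig.van_one {A : Subring ℂ} (hf : P.Ig A f) (h : f s₁ s₂ = 0) : Van 1 f s₁ s₂ := by
  have h1 := (hf.van_zero s₁ s₂).sub_val hf.hol.1 hf.hol.2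
  simpa only [h, sub_zero] using h1

end Par

end

end Pool.Agent.P.MP_a60a76_nt.Sz
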