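import Pool.Agent.P.MP_a60a76_nt.Sz.HRat
import Pool.Agent.P.MP_a60a76_nt.Sz.Hl
import Pool.Agent.P.MP_a60a76_nt.Sz.WtA
import Pool.Agent.P.MP_a60a76_nt.Sz.JLoc

namespace Pool.Agent.P.MP_a60a76_nt.Sz

open UpperHalfPlane hiding J
open MeasureTheory SP
open scoped MatrixGroups UpperHalfPlane Matrix Modular Topology Classical ArithmeticFunction.sigma

noncomputable section

/-! The product formula. -/

theorem prod_formula2 {G : ℚ} (hG : G ≠ 0) {d : ℕ} (hd : 0 < d) (K : ℝ) (e : ℕ → ℝ)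
    (S : Finset ℕ) (hS : ∀ l ∈ S, l.Prime) (h : ∀ l : ℕ, l.Prime →
      (padicNorm l G : ℝ) ≤ (l : ℝ) ^ (K * padicValNat l d + if l ∈ S then e l else 0 : ℝ)) :
    -(K * Real.log d) - ∑ l ∈ S, e l * Real.log l ≤ Real.log |(G : ℝ)| := by
  have hnum : G.num.natAbs ≠ 0 := Int.natAbs_ne_zero.2 (Rat.num_ne_zero.2 hG)
  obtain ⟨T, hT⟩ : ∃ T : Finset ℕ, T = G.num.natAbs.primeFactors ∪ G.den.primeFactors ∪
    d.primeFactors ∪ S := ⟨_, rfl⟩
  have hp : ∀ l ∈ T, l.Prime := fun l hl => by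
    simp only [hT, Finset.mem_union] at hl
    rcases hl with ((hl | hl) | hl) | hl
    · exact Nat.prime_of_mem_primeFactors hl
    · exact Nat.prime_of_mem_primeFactors hl
    · exact Nat.prime_of_mem_primeFactors hl
    · exact hS l hl
  have s1 : G.num.natAbs.primeFactors ⊆ T := fun l hl => by
    simp only [hT, Finset.mem_union, hl, true_or]
  have s2 : G.den.primeFactors ⊆ T := fun l hl => by
    simp only [hT, Finset.mem_union, hl, true_or, or_true]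
  have s3 : d.primeFactors ⊆ T := fun l hl => by
    simp only [hT, Finset.mem_union, hl, true_or, or_true]
  have s4 : S ⊆ T := fun l hl => by simp only [hT, Finset.mem_union, hl, or_true]
  have e1 : ∑ l ∈ S, e l * Real.log l = ∑ l ∈ T, if l ∈ S then e l * Real.log l else 0 := by
    rw [Finset.sum_ite_mem, Finset.inter_eq_right.2 s4]
  rw [Prod_abs, Real.log_div (Nat.cast_ne_zero.2 hnum) (Nat.cast_ne_zero.2 G.den_nz),
    Prod_log hp s1, Prod_log hp s2, Prod_log hp s3, e1, Finset.mul_sum,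
    ← Finset.sum_neg_distrib, ← Finset.sum_sub_distrib, ← Finset.sum_sub_distrib]
  refine Finset.sum_le_sum fun l hl => ?_
  have hl1 : (1 : ℝ) < l := by exact_mod_cast (hp l hl).one_lt
  have h1 := h l (hp l hl)
  rw [padicNorm.eq_zpow_of_nonzero hG, Rat.cast_zpow, Rat.cast_natCast, ← Real.rpow_intCast,
    Real.rpow_le_rpow_left_iff hl1, padicValRat_def, padicValInt] at h1
  simp only [Int.cast_neg, Int.cast_sub, Int.cast_natCast] at h1
  have h3 := mul_le_mul_of_nonneg_right h1 (Real.log_pos hl1).le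
  split_ifs at h3 ⊢
  · linarith
  · linarith

theorem Key_sum {P : Par} {c : P.D → ℤ → ℤ} (h : P.IsF 0 c) (t₁ t₂ : ℍ) (κ : ℝ) (u : MZ → ℝ) :
    ∑' X : MZ, P.cX c X * P.z0 t₁ t₂ X * (κ + u X) =
      κ * P.nz c t₁ t₂ + ∑' X : MZ, P.cX c X * P.z0 t₁ t₂ X * u X := by
  have hf := Par.finite_sing h t₁ t₂
  have h1 : ∀ v : MZ → ℝ, Summable fun X => P.cX c X * P.z0 t₁ t₂ X * v X := fun v =>
    summable_of_hasFiniteSupport (hf.subset fun X hX => left_ne_zero_of_mul hX)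
  rw [Par.nz, ← tsum_mul_left, ← Summable.tsum_add _ (h1 u)]
  · exact tsum_congr fun X => by ring
  · exact (h1 fun _ => κ).congr fun X => by ring

theorem Key_cp {P : Par} {c : P.D → ℤ → ℤ} (h : P.IsF0 c) (hp : P.Pos c) :
    ((P.p : ℝ) - 1) * ((-P.cp c).toNat : ℕ) ≤ P.mm c := by
  have h1 := Par.KK_nonneg h hp
  have h2 := Par.mm_nonneg hp
  rw [Par.KK] at h1
  have h3 : ((P.p : ℤ) - 1) * ((-P.cp c).toNat : ℕ) ≤ P.mm c := by
    rcases le_total 0 (-P.cp c) with h4 | h4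
    · rw [Int.toNat_of_nonneg h4]
      linarith
    · rw [Int.toNat_of_nonpos h4]
      simpa using h2
  exact_mod_cast h3

theorem Key_log {P : Par} {c : P.D → ℤ → ℤ} (h : P.IsF0 c) (hp : P.Pos c) (g : SL(2, ℤ))
    {t₁ t₂ : ℍ} (h4 : E4 t₂ ≠ 0) (h6 : E6 t₂ ≠ 0) {μ : ℕ} {L : ℂ} (hL : L ≠ 0)
    (hlim : Filter.Tendsto (fun z : ℂ => P.gf c P.Dm (g • t₁) (ofComplex z) / (z - t₂) ^ μ)
      (𝓝[≠] (t₂ : ℂ)) (𝓝 L)) {G : ℚ}
    (hG : (G : ℂ) = P.Hop μ (P.gj c (P.Dm * red P.p g) t₁) t₂) :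
    G ≠ 0 ∧ Real.log |(G : ℝ)| ≤ 2 * μ * Real.log P.p +
      12 * P.p * ((-P.cp c).toNat : ℕ) * Real.log P.p +
        μ * Real.log ‖E4 t₂ * E6 t₂ / Dl t₂‖ + Real.log ‖L‖ := by
  have hh := Par.gf_hol h hp P.det_Dm (g • t₁)
  have e1 : P.gj c (P.Dm * red P.p g) t₁ = fun τ =>
      (P.p : ℂ) ^ (12 * P.p * (-P.cp c).toNat) * P.gf c P.Dm (g • t₁) τ :=
    funext fun τ => by rw [Par.gj, TyBd_gf h hp]
  have hf : (μ.factorial : ℂ) ≠ 0 := Nat.cast_ne_zero.2 μ.factorial_ne_zero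
  have hπ : (2 * Real.pi * Complex.I : ℂ) ≠ 0 := Complex.two_pi_I_ne_zero
  have hA : E4 t₂ * E6 t₂ / Dl t₂ ≠ 0 := div_ne_zero (mul_ne_zero h4 h6) (Dl_ne_zero t₂)
  obtain ⟨u, hu⟩ : ∃ u, u = E4 t₂ * E6 t₂ / Dl t₂ := ⟨_, rfl⟩
  have e2 : (G : ℂ) = (P.p : ℂ) ^ (2 * μ) * (P.p : ℂ) ^ (12 * P.p * (-P.cp c).toNat) *
      (-u / (2 * Real.pi * Complex.I)) ^ μ * L := by
    rw [hG, Par.Hop, e1, Lop_const_mul hh, Lop_lead hh hlim, ← hu]
    field_simp
  rw [← hu] at hA ⊢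
  have hB : -u / (2 * Real.pi * Complex.I) ≠ 0 := div_ne_zero (neg_ne_zero.2 hA) hπ
  have hp0 := P.p_pos
  refine ⟨fun h0 => ?_, ?_⟩
  · rw [h0, Rat.cast_zero] at e2
    exact mul_ne_zero (mul_ne_zero (mul_ne_zero (pow_ne_zero _ P.p_ne) (pow_ne_zero _ P.p_ne))
      (pow_ne_zero _ hB)) hL e2.symm
  · have e3 : |(G : ℝ)| = (P.p : ℝ) ^ (2 * μ) * (P.p : ℝ) ^ (12 * P.p * (-P.cp c).toNat) *
        ‖-u / (2 * Real.pi * Complex.I)‖ ^ μ * ‖L‖ := by
      rw [← Real.norm_eq_abs, ← Complex.norm_real, Complex.ofReal_ratCast, e2, norm_mul, norm_mul,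
        norm_mul, norm_pow, norm_pow, norm_pow, Complex.norm_natCast]
    have hB' := norm_pos_iff.2 hB
    have hL' := norm_pos_iff.2 hL
    have e4 : ‖-u / (2 * Real.pi * Complex.I)‖ ≤ ‖u‖ := by
      rw [norm_div, norm_neg]
      refine div_le_self (norm_nonneg _) ?_
      rw [norm_mul, norm_mul, Complex.norm_I, Complex.norm_real, Real.norm_of_nonneg Real.pi_pos.le,
        Complex.norm_ofNat]
      linarith [Real.pi_gt_three]
    have e5 := mul_le_mul_of_nonneg_left (Real.log_le_log hB' e4) (Nat.cast_nonneg (α := ℝ) μ)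
    rw [e3, Real.log_mul (by positivity) hL'.ne', Real.log_mul (by positivity) (by positivity),
      Real.log_mul (by positivity) (by positivity), Real.log_pow, Real.log_pow, Real.log_pow]
    push_cast
    linarith

theorem Key_arg (P : Par) {y : ℝ} (hy : 1 / 2 ≤ y) :
    Real.log (Real.pi * P.p / y ^ 2) ≤ 15 + Real.log P.p := by
  have hp0 := P.p_pos
  have hy0 : 0 < y := by linarith
  have h1 : Real.pi * P.p / y ^ 2 ≤ 16 * P.p := by
    rw [div_le_iff₀ (by positivity)]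
    have h2 : 1 / 4 ≤ y ^ 2 := by nlinarith
    have h3 : Real.pi * P.p ≤ 4 * P.p := mul_le_mul_of_nonneg_right Real.pi_le_four hp0.le
    nlinarith
  refine (Real.log_le_log (by have := Real.pi_pos; positivity) h1).trans ?_
  rw [Real.log_mul (by norm_num) hp0.ne']
  linarith [Real.log_le_sub_one_of_pos (show (0 : ℝ) < 16 by norm_num)]

theorem key2 : ∃ C : ℝ, 0 ≤ C ∧ ∀ (P : Par) (A B : Crv) (g : SL(2, ℤ)) (S : Finset ℕ)
    (a : ℕ → P.D → ℤ → ℝ), P.Lk A.t B.t (P.Dm * red P.p g) → ¬ El B.j →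
    (∀ l ∈ S, l.Prime ∧ P.Bd A B (P.Dm * red P.p g) l (a l)) → ∀ c, P.IsF0 c → P.Pos c →
    P.pp c (∑ l ∈ S, Real.log l • a l -
        (4 * Hd A B / P.p + 48 * Real.log P.p / (P.p - 1)) • P.asg -
        P.aW fun W => P.z0 (g • A.t) B.t W *
          (C * (1 + hgt A B + Real.log P.p + ∑ l ∈ S, Real.log l) +
            Real.log (W.det / P.p ^ 2))) ≤
      -(CT 1 (P.pr c (P.rs (g • A.t) B.t P.p))).re +
        P.cp c * (2 * Real.log P.p + (P.p - 1) * Hd A B / (6 * P.p)) := by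
  obtain ⟨C₁, hC₁, h₁⟩ := log_E46_le
  obtain ⟨C₂, h₂⟩ := im_le_log_J
  obtain ⟨χ, hχ⟩ := exists_isChi
  have ha₂ := abs_nonneg C₂
  refine ⟨24 + 2 * C₁ + 16 * |C₂|, by positivity, fun P A B g S a hL hE hS c hc hp => ?_⟩
  have hX := TyBd_det P g
  have hp0 := P.p_pos
  have hp5 : (5 : ℝ) ≤ P.p := by exact_mod_cast P.five
  have hT : (2 : ℝ) ≤ P.p := by linarith
  obtain ⟨μ, L, hL0, hμ, hlim, hlog⟩ := Par.lc hχ hc hp hT (g • A.t) B.t
  obtain ⟨G, hG⟩ := Par.hg_rat hc hp hX hL μ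
  have h4 : E4 B.t ≠ 0 := fun h => hE (Or.inl (by
    have := (J_zero_iff B.t).2 h
    rw [B.J_eq] at this
    exact_mod_cast this))
  have h6 : E6 B.t ≠ 0 := fun h => hE (Or.inr (by
    have := (J_1728_iff B.t).2 h
    rw [B.J_eq] at this
    exact_mod_cast this))
  obtain ⟨hG0, hG1⟩ := Key_log hc hp g h4 h6 hL0 hlim hG
  have hd : 0 < A.j.den * B.j.den := Nat.mul_pos A.j.den_pos B.j.den_pos
  have h2 := prod_formula2 hG0 hd (P.KK c + 2 * μ) (fun l => μ - 6 * P.p * P.pp c (a l)) S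
    (fun l hl => (hS l hl).1) fun l hl => by
      split_ifs with hm
      · rw [← add_sub_assoc]
        exact (hS l hm).2 c hc hp μ G hG
      · rw [add_zero]
        exact Par.hg_bound hc hp hX hG hl
  have e1 : ∑ l ∈ S, (μ - 6 * P.p * P.pp c (a l)) * Real.log l =
      μ * ∑ l ∈ S, Real.log l - 6 * P.p * ∑ l ∈ S, Real.log l * P.pp c (a l) := by
    rw [Finset.mul_sum, Finset.mul_sum, ← Finset.sum_sub_distrib]
    exact Finset.sum_congr rfl fun l _ => by ring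
  have e2 : P.pp c (∑ l ∈ S, Real.log l • a l) = ∑ l ∈ S, Real.log l * P.pp c (a l) := by
    rw [Par.pp_sum]
    exact Finset.sum_congr rfl fun l _ => Par.pp_smul _ _ _
  have e3 := Par.pp_asg hc.toIsF
  have e4 : (P.KK c : ℝ) = (P.p - 1) * P.cp c + P.mm c := by
    rw [Par.KK]
    push_cast
    ring
  have e5 := Key_cp hc hp
  rw [Key_sum hc.toIsF] at hlog
  rw [Par.pp_sub, Par.pp_sub, Par.pp_smul, e2, (P.sm_z0_log _ _ _).pp_eq hc.toIsF,
    Par.ct_rs hχ hc.toIsF _ _ hT]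
  simp only [← mul_assoc (P.cX c _)]
  rw [Key_sum hc.toIsF]
  rw [e1, e4] at h2
  have b1 := h₁ B.t B.fd
  have b2 := h₂ B.t B.fd
  have b3 := log_max_J_le B
  obtain ⟨-, b4, b5⟩ := log_ht_le_hgt A B
  obtain ⟨b6, b7⟩ := TyBd_den A B
  have b8 := Key_arg P B.half_le_im
  have b9 := TyBd_log P
  have b10 : 0 ≤ ∑ l ∈ S, Real.log l := Finset.sum_nonneg fun l _ => Real.log_natCast_nonneg l
  have b11 : 0 ≤ P.nz c (g • A.t) B.t := by
    obtain ⟨m, hm⟩ := Par.nz_nat hc.toIsF hp (g • A.t) B.t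
    rw [hm]
    exact Nat.cast_nonneg m
  have b12 : 2 * Real.pi * B.t.im ≤ 8 * (|C₂| + hgt A B) := by
    have := mul_le_mul_of_nonneg_right Real.pi_le_four B.t.im_pos.le
    linarith [le_abs_self C₂]
  rw [Hd]
  generalize Real.log (A.j.den * B.j.den : ℕ) = H at *
  generalize Real.log (Real.pi * P.p / B.t.im ^ 2) = κ at *
  generalize Real.log ‖E4 B.t * E6 B.t / Dl B.t‖ = w at *
  generalize ∑ l ∈ S, Real.log l * P.pp c (a l) = U at *
  generalize ∑ l ∈ S, Real.log l = R at *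
  generalize ∑' X : MZ, P.cX c X * P.z0 (g • A.t) B.t X * Real.log (X.det / P.p ^ 2) = Λ at *
  generalize P.nz c (g • A.t) B.t = N at *
  generalize P.Psi χ c P.p (g • A.t) B.t = Ψ at *
  generalize P.pp c P.asg = s at *
  generalize (((-P.cp c).toNat : ℕ) : ℝ) = n at *
  generalize Real.log P.p = lp at *
  generalize hgt A B = h at *
  generalize (P.cp c : ℝ) = cp at *
  generalize (P.mm c : ℝ) = m at *
  generalize (P.p : ℝ) = p at *
  have hp1 : 0 < p - 1 := by linarith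
  have c1 : n ≤ 24 * s / (p - 1) := by
    rw [le_div_iff₀ hp1]
    linarith
  have c2 : 12 * p * n * lp ≤ 12 * p * (24 * s / (p - 1)) * lp := by gcongr
  have c3 : 4 * H + 2 * R + 4 * lp + 2 * w + (1 + κ) ≤
      (24 + 2 * C₁ + 16 * |C₂|) * (1 + h + lp + R) := by
    have : 0 ≤ (2 * C₁ + 16 * |C₂|) * (h + lp + R) := by positivity
    linarith
  have c4 := mul_le_mul_of_nonneg_left c3 (show 0 ≤ 6 * p * N by positivity)
  refine le_of_mul_le_mul_left ?_ (show (0 : ℝ) < 6 * p by linarith)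
  have c5 : 6 * p * (-Ψ + cp * (2 * lp + (p - 1) * H / (6 * p))) =
      -(6 * p * Ψ) + 12 * p * cp * lp + (p - 1) * cp * H := by
    field_simp
    ring
  have c6 : 6 * p * (U - (4 * H / p + 48 * lp / (p - 1)) * s -
      ((24 + 2 * C₁ + 16 * |C₂|) * (1 + h + lp + R) * N + Λ)) = 6 * p * U - 24 * s * H -
      12 * p * (24 * s / (p - 1)) * lp -
      6 * p * N * ((24 + 2 * C₁ + 16 * |C₂|) * (1 + h + lp + R)) - 6 * p * Λ := by
    field_simp
    ring
  rw [c5, c6]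
  rw [hμ] at h2 hG1
  rw [← e3] at h2
  linarith

end

end Pool.Agent.P.MP_a60a76_nt.Sz
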