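import Pool.Agent.P.MP_a60a76_nt.Sz.Lev1
import Pool.Agent.P.MP_a60a76_nt.Sz.Cos

namespace Pool.Agent.P.MP_a60a76_nt.Sz

open UpperHalfPlane MeasureTheory SP
open scoped MatrixGroups UpperHalfPlane Matrix Modular Topology Classical ArithmeticFunction.sigma

noncomputable section

/-! The modular units attached to lines. -/

/-- The Euler product. -/
def Unit_eu (q : ℂ) : ℂ := ∏' n : ℕ, (1 - q ^ (n + 1))

theorem Unit_norm_ee (τ : ℍ) : ‖ee τ‖ < 1 := by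
  rw [norm_ee, Real.exp_lt_one_iff, neg_lt_zero]
  exact mul_pos Real.two_pi_pos τ.im_pos

theorem Unit_hasProd {q : ℂ} (hq : ‖q‖ < 1) : HasProd (fun n : ℕ => 1 - q ^ (n + 1)) (Unit_eu q) :=
  (ModularForm.multipliable_one_sub_pow hq).hasProd

theorem Unit_Dl_eq (τ : ℍ) : Dl τ = ee τ * Unit_eu (ee τ) ^ 24 := by
  have h : Function.Periodic.qParam 1 (τ : ℂ) = ee τ := by simp [Function.Periodic.qParam, ee]
  rw [Dl, ModularForm.discriminant_eq_q_prod, Unit_eu,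
    ← (ModularForm.multipliable_one_sub_pow (Unit_norm_ee τ)).tprod_pow]
  simp only [ModularForm.eta_q, h]

theorem Unit_eu_ne (τ : ℍ) : Unit_eu (ee τ) ≠ 0 := by
  intro h
  apply Dl_ne_zero τ
  rw [Unit_Dl_eq, h]
  simp

theorem Unit_hasProd_zpow {ι : Type} {f : ι → ℂ} {a : ℂ} (h : HasProd f a) (ha : a ≠ 0) (n : ℤ) :
    HasProd (fun i => f i ^ n) (a ^ n) := by
  simp_rw [HasProd, Finset.prod_zpow]
  exact Filter.Tendsto.zpow₀ h n (Or.inl ha)

theorem Unit_one_sub_ne {x : ℂ} (h : ‖x‖ < 1) : 1 - x ≠ 0 := by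
  intro h0
  rw [← sub_eq_zero.1 h0, norm_one] at h
  exact lt_irrefl _ h

/-- The value attached to a matrix. -/
def Unit_val (p : ℕ) (Y : MZ) (τ : ℍ) : ℂ := (p : ℂ) ^ 12 * Dl (mob Y τ) / (dn Y τ ^ 12 * Dl τ)

theorem Unit_val_left (p : ℕ) (γ : SL(2, ℤ)) {Y : MZ} (hY : 0 < Y.det) (τ : ℍ) :
    Unit_val p ((γ : MZ) * Y) τ = Unit_val p Y τ := by
  have h1 := dn_sl_ne_zero γ (mob Y τ)
  have h2 := dn_ne_zero (row_ne_zero hY.ne') τ
  have h3 := Dl_ne_zero τ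
  rw [Unit_val, Unit_val, mob_mul (sl_det_pos γ) hY, dn_mul hY, mob_sl, Dl_smul]
  field_simp

theorem Unit_val_right (p : ℕ) (g : SL(2, ℤ)) {Y : MZ} (hY : 0 < Y.det) (τ : ℍ) :
    Unit_val p (Y * (g : MZ)) τ = Unit_val p Y (g • τ) := by
  rw [Unit_val, Unit_val, mob_mul hY (sl_det_pos g), dn_mul (sl_det_pos g), mob_sl, Dl_smul,
    mul_pow, mul_assoc (dn Y (g • τ) ^ 12)]

theorem Unit_norm_val {p : ℕ} (hp : 0 < p) {Y : MZ} (hY : Y.det = p) (τ : ℍ) :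
    ‖Unit_val p Y τ‖ * (‖Dl τ‖ * τ.im ^ 6) = p ^ 6 * (‖Dl (mob Y τ)‖ * (mob Y τ).im ^ 6) := by
  have hY0 : 0 < Y.det := by rw [hY]; exact_mod_cast hp
  have h2 := norm_ne_zero_iff.2 (dn_ne_zero (row_ne_zero hY0.ne') τ)
  have h3 := norm_ne_zero_iff.2 (Dl_ne_zero τ)
  rw [Unit_val, im_mob hY0, hY, Complex.normSq_eq_norm_sq]
  simp only [norm_div, norm_mul, norm_pow, Complex.norm_natCast, Int.cast_natCast]
  field_simp

namespace Par

variable (P : Par)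

/-- The normal form attached to a line. -/
def Unit_mat (v : Fin 2 → P.F) : MZ :=
  if v 0 = 0 then !![(P.p : ℤ), 0; 0, 1] else !![1, (((v 1 / v 0).val : ℕ) : ℤ); 0, (P.p : ℤ)]

theorem Unit_det (v : Fin 2 → P.F) : (P.Unit_mat v).det = P.p := by
  unfold Unit_mat
  split_ifs <;> simp [Matrix.det_fin_two]

theorem Unit_det_pos (v : Fin 2 → P.F) : 0 < (P.Unit_mat v).det := by
  rw [Unit_det]
  exact_mod_cast P.prime.pos

theorem Unit_uu_eq (v : Fin 2 → P.F) (τ : ℍ) : P.uu v τ = Unit_val P.p (P.Unit_mat v) τ := by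
  have := P.p_ne
  have h3 := Dl_ne_zero τ
  unfold uu Unit_val Unit_mat
  split_ifs
  · simp [dn]
  · simp only [dn]
    simp
    field_simp

theorem Unit_row (v : Fin 2 → P.F) (i : Fin 2) :
    (P.Unit_mat v i 0 : P.F) * v 1 = (P.Unit_mat v i 1 : P.F) * v 0 := by
  unfold Unit_mat
  split_ifs with h
  · fin_cases i <;> simp [h]
  · fin_cases i <;> simp [h]

theorem Unit_one_ne {v : Fin 2 → P.F} (hv : v ≠ 0) (h : v 0 = 0) : v 1 ≠ 0 := by
  intro h1
  apply hv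
  ext i
  fin_cases i <;> simp [h, h1]

theorem Unit_factor {v : Fin 2 → P.F} (hv : v ≠ 0) {Y : MZ} (hY : Y.det = P.p)
    (hr : ∀ i, (Y i 0 : P.F) * v 1 = (Y i 1 : P.F) * v 0) :
    ∃ γ : SL(2, ℤ), Y = (γ : MZ) * P.Unit_mat v := by
  have key : ∃ Z : MZ, Y = Z * P.Unit_mat v := by
    unfold Unit_mat
    split_ifs with h
    · have h1 := P.Unit_one_ne hv h
      have h2 : ∀ i, ∃ c : ℤ, Y i 0 = P.p * c := fun i => by
        have := hr i
        rw [h, mul_zero, mul_eq_zero_iff_right h1, ZMod.intCast_zmod_eq_zero_iff_dvd] at this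
        exact this
      choose c hc using h2
      refine ⟨!![c 0, Y 0 1; c 1, Y 1 1], ?_⟩
      ext i j
      fin_cases i <;> fin_cases j <;> simp [Matrix.mul_apply, hc, mul_comm]
    · have h2 : ∀ i, ∃ c : ℤ, Y i 1 - Y i 0 * (((v 1 / v 0).val : ℕ) : ℤ) = P.p * c := fun i => by
        refine (ZMod.intCast_zmod_eq_zero_iff_dvd _ _).1 ?_
        push_cast
        rw [ZMod.natCast_zmod_val, ← mul_div_assoc, hr i, mul_div_cancel_right₀ _ h, sub_self]
      choose c hc using h2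
      refine ⟨!![Y 0 0, c 0; Y 1 0, c 1], ?_⟩
      ext i j
      fin_cases i <;> fin_cases j <;> simp [Matrix.mul_apply, -ZMod.natCast_val]
      · linear_combination hc 0
      · linear_combination hc 1
  obtain ⟨Z, hZ⟩ := key
  have hd : Z.det = 1 := by
    have h1 : Z.det * P.p = 1 * P.p := by rw [one_mul, ← P.Unit_det v, ← Matrix.det_mul, ← hZ, hY, Unit_det]
    exact mul_right_cancel₀ (by exact_mod_cast P.prime.ne_zero) h1
  exact ⟨⟨Z, hd⟩, hZ⟩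

theorem Unit_vec_ne {v : Fin 2 → P.F} (hv : v ≠ 0) {X : P.MF} (hX : X.det ≠ 0) : v ᵥ* X ≠ 0 :=
  fun h => hv (Matrix.eq_zero_of_vecMul_eq_zero hX h)

theorem uu_ne_zero (v : Fin 2 → P.F) (τ : ℍ) : P.uu v τ ≠ 0 := by
  unfold uu
  split_ifs
  · exact div_ne_zero (mul_ne_zero (pow_ne_zero _ P.p_ne) (Dl_ne_zero _)) (Dl_ne_zero _)
  · exact div_ne_zero (Dl_ne_zero _) (Dl_ne_zero _)

theorem uu_smul_vec {x : P.F} (hx : x ≠ 0) (v : Fin 2 → P.F) : P.uu (x • v) = P.uu v := by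
  funext τ
  unfold uu
  simp only [Pi.smul_apply, smul_eq_mul, mul_eq_zero, hx, false_or, mul_div_mul_left _ _ hx]

theorem uu_smul {v : Fin 2 → P.F} (hv : v ≠ 0) (g : SL(2, ℤ)) (τ : ℍ) :
    P.uu v (g • τ) = P.uu (v ᵥ* red P.p g) τ := by
  have hw : v ᵥ* red P.p g ≠ 0 := P.Unit_vec_ne hv (by rw [red_det]; exact one_ne_zero)
  obtain ⟨γ, hγ⟩ := P.Unit_factor hw (Y := P.Unit_mat v * (g : MZ))
    (by rw [Matrix.det_mul, Unit_det, g.det_coe, mul_one]) (fun i => by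
      have h1 := P.Unit_row v i
      simp only [Matrix.mul_apply, Fin.sum_univ_two, Matrix.vecMul, dotProduct, red,
        Matrix.map_apply]
      push_cast
      linear_combination
        ((g 0 0 : P.F) * (g 1 1 : P.F) - (g 0 1 : P.F) * (g 1 0 : P.F)) * h1)
  rw [Unit_uu_eq, Unit_uu_eq, ← Unit_val_right _ _ (P.Unit_det_pos v), hγ,
    Unit_val_left _ _ (P.Unit_det_pos _)]

theorem Unit_coe_A (τ : ℍ) : (mob !![(P.p : ℤ), 0; 0, 1] τ : ℂ) = P.p * τ := by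
  rw [coe_mob (by simpa [Matrix.det_fin_two] using P.prime.pos)]
  simp [dn]

theorem Unit_coe_B (j : ℤ) (τ : ℍ) : (mob !![1, j; 0, (P.p : ℤ)] τ : ℂ) = (τ + j) / P.p := by
  rw [coe_mob (by simpa [Matrix.det_fin_two] using P.prime.pos)]
  simp [dn]

theorem Unit_ee_A (τ : ℍ) : ee (mob !![(P.p : ℤ), 0; 0, 1] τ) = ee τ ^ P.p := by
  rw [Unit_coe_A, ee_nat_mul]

theorem Unit_ee_B (x : P.F) (τ : ℍ) :
    ee (mob !![1, ((x.val : ℕ) : ℤ); 0, (P.p : ℤ)] τ) = P.zp x * P.sv τ := by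
  have h := P.zp_int (x.val : ℕ)
  rw [Int.cast_natCast, ZMod.natCast_zmod_val] at h
  rw [Unit_coe_B, h, sv, ← ee_add, add_div, add_comm]

theorem Unit_qs_one {c : ℤ → ℂ} {f : ℍ → ℂ} (h : QS 1 c f) : ∃ a, QS P.p a f :=
  ⟨_, by simpa using h.scale P.prime.pos⟩

theorem Unit_qs_mat {c : ℤ → ℂ} {f : ℍ → ℂ} (h : QS 1 c f) (v : Fin 2 → P.F) :
    ∃ a, QS P.p a fun τ => f (mob (P.Unit_mat v) τ) := by
  have hp := P.p_ne
  unfold Unit_mat
  split_ifs
  · have h1 := h.scale P.prime.pos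
    refine P.Unit_qs_one (c := fun ν => if (P.p : ℤ) ∣ ν then c (ν / P.p) else 0)
      ⟨h1.low, fun τ => ?_⟩
    have h2 := h1.sum (mob !![(P.p : ℤ), 0; 0, 1] τ)
    rw [Unit_coe_A] at h2
    convert h2 using 3 with ν
    push_cast
    field_simp
  · obtain ⟨L, hL⟩ := h.low
    refine ⟨fun ν => c ν * ee (ν * ((v 1 / v 0).val : ℕ) / P.p),
      ⟨L, fun ν hν => by rw [hL ν hν, zero_mul]⟩, fun τ => ?_⟩
    have h2 := h.sum (mob !![1, (((v 1 / v 0).val : ℕ) : ℤ); 0, (P.p : ℤ)] τ)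
    rw [Unit_coe_B] at h2
    convert h2 using 2 with ν
    rw [mul_assoc, ← ee_add]
    congr 2
    rw [Int.cast_natCast, Nat.cast_one]
    field_simp
    ring

theorem Unit_qs_pow {f : ℍ → ℂ} (h : ∃ a, QS P.p a f) (n : ℕ) :
    ∃ a, QS P.p a fun τ => f τ ^ n := by
  induction n with
  | zero => exact ⟨_, (QS.single P.p 0 1).congr (fun _ => rfl) fun τ => by simp [ee_zero]⟩
  | succ n ih =>
    obtain ⟨a, ha⟩ := QS.exists_mul ih h
    exact ⟨a, ha.congr (fun _ => rfl) fun τ => (pow_succ _ _).symm⟩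

theorem Unit_uu_eq' (v : Fin 2 → P.F) : ∃ k : ℂ, k ≠ 0 ∧ ∀ τ,
    P.uu v τ = k * (Dl (mob (P.Unit_mat v) τ) * (Dl τ)⁻¹) := by
  unfold uu Unit_mat
  split_ifs
  · exact ⟨_, pow_ne_zero 12 P.p_ne, fun τ => by rw [mul_div_assoc, div_eq_mul_inv]⟩
  · exact ⟨1, one_ne_zero, fun τ => by rw [one_mul, div_eq_mul_inv]⟩

theorem uu_qs (v : Fin 2 → P.F) (n : ℤ) : ∃ a, QS P.p a fun τ => P.uu v τ ^ n := by
  obtain ⟨k, -, hk⟩ := P.Unit_uu_eq' v
  obtain ⟨c, hc, -⟩ := qz_Dl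
  obtain ⟨c', hc', -⟩ := qz_Dl_inv
  obtain ⟨m, rfl | rfl⟩ := n.eq_nat_or_neg
  · obtain ⟨a, ha⟩ := QS.exists_mul (P.Unit_qs_mat hc v) (P.Unit_qs_one hc')
    obtain ⟨b, hb⟩ := P.Unit_qs_pow ⟨_, ha.const_mul k⟩ m
    exact ⟨b, hb.congr (fun _ => rfl) fun τ => by rw [hk, zpow_natCast]⟩
  · obtain ⟨a, ha⟩ := QS.exists_mul (P.Unit_qs_mat hc' v) (P.Unit_qs_one hc)
    obtain ⟨b, hb⟩ := P.Unit_qs_pow ⟨_, ha.const_mul k⁻¹⟩ m
    exact ⟨b, hb.congr (fun _ => rfl) fun τ => by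
      rw [hk, zpow_neg, zpow_natCast, ← inv_pow, mul_inv, mul_inv, inv_inv]⟩

theorem Unit_prim : IsPrimitiveRoot (P.zp 1) P.p := by
  have := Complex.isPrimitiveRoot_exp P.p P.prime.ne_zero
  have e : P.zp 1 = Complex.exp (2 * Real.pi * Complex.I / P.p) := by
    have := P.zp_int 1
    rw [Int.cast_one] at this
    rw [this, ee]
    congr 1
    push_cast
    ring
  rwa [e]

theorem Unit_prod_zp (y : ℂ) : ∏ b : P.F, (1 - P.zp (-b) * y) = 1 - y ^ P.p := by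
  have h1 := congrArg (Polynomial.eval 1) (X_pow_sub_C_eq_prod P.Unit_prim P.prime.pos
    (rfl : y ^ P.p = y ^ P.p))
  simp only [Polynomial.eval_sub, Polynomial.eval_pow, Polynomial.eval_X, Polynomial.eval_C,
    Polynomial.eval_prod, one_pow] at h1
  rw [h1]
  refine Finset.prod_bij (fun b _ => (-b).val) (fun b _ => Finset.mem_range.2 (ZMod.val_lt _))
    (fun a _ b _ h => neg_injective (ZMod.val_injective _ h)) (fun k hk => ?_) fun b _ => ?_
  · exact ⟨-(k : P.F), Finset.mem_univ _, by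
      rw [neg_neg, ZMod.val_cast_of_lt (Finset.mem_range.1 hk)]⟩
  · rw [P.zp_eq_pow]

theorem Unit_norm_lt (x : P.F) (τ : ℍ) (a : ℕ) : ‖P.zp x * P.sv τ ^ (a + 1)‖ < 1 := by
  rw [norm_mul, norm_zp, one_mul, norm_pow]
  exact pow_lt_one₀ (norm_nonneg _) (P.norm_sv_lt_one τ) a.succ_ne_zero

/-- The factors off the line. -/
def Unit_fac (v : Fin 2 → P.F) (τ : ℍ) (i : ℕ × P.F) : ℂ :=
  if -((i.1 : P.F) + 1) * v 1 = i.2 * v 0 then 1 else 1 - P.zp (-i.2) * P.sv τ ^ (i.1 + 1)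

theorem Unit_multipliable (v : Fin 2 → P.F) (τ : ℍ) : Multipliable (P.Unit_fac v τ) := by
  have h1 : Summable fun i : ℕ × P.F => ‖P.sv τ‖ ^ (i.1 + 1) * (1 : ℝ) :=
    summable_mul_of_summable_norm (f := fun a : ℕ => ‖P.sv τ‖ ^ (a + 1))
      (g := fun _ : P.F => (1 : ℝ))
      ((summable_nat_add_iff 1).2
        (summable_geometric_of_lt_one (norm_nonneg _) (P.norm_sv_lt_one τ))).norm
      Summable.of_finite
  have h2 : Summable fun i => P.Unit_fac v τ i - 1 := by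
    refine h1.of_norm_bounded fun i => ?_
    unfold Unit_fac
    split_ifs
    · simp
    · simp [norm_zp]
  simpa using Complex.multipliable_one_add_of_summable h2

theorem Unit_fac_mul (v : Fin 2 → P.F) (τ : ℍ) (a : ℕ) :
    (∏ b, P.Unit_fac v τ (a, b)) * ∏ b, (if -((a : P.F) + 1) * v 1 = b * v 0 then
      1 - P.zp (-b) * P.sv τ ^ (a + 1) else 1) = 1 - ee τ ^ (a + 1) := by
  rw [← Finset.prod_mul_distrib, ← P.sv_pow_p, ← pow_mul, mul_comm P.p, pow_mul, ← Unit_prod_zp]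
  refine Finset.prod_congr rfl fun b _ => ?_
  unfold Unit_fac
  split_ifs <;> simp

theorem Unit_line {v : Fin 2 → P.F} (hv : v ≠ 0) (τ : ℍ) :
    HasProd (fun a : ℕ => ∏ b, (if -((a : P.F) + 1) * v 1 = b * v 0 then
      1 - P.zp (-b) * P.sv τ ^ (a + 1) else 1)) (Unit_eu (ee (mob (P.Unit_mat v) τ))) := by
  have h0 := Unit_hasProd (Unit_norm_ee (mob (P.Unit_mat v) τ))
  by_cases h : v 0 = 0
  · have h1 := P.Unit_one_ne hv h
    have hp := P.prime.pos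
    have e : ∀ k : ℕ, P.p * k + (P.p - 1) + 1 = P.p * (k + 1) := fun k => by
      rw [mul_add, mul_one]
      omega
    have hg : Function.Injective fun k : ℕ => P.p * k + (P.p - 1) := fun k k' hk =>
      Nat.eq_of_mul_eq_mul_left hp (Nat.add_right_cancel hk)
    refine (hg.hasProd_iff fun a ha => ?_).1 ?_
    · refine Finset.prod_eq_one fun b _ => if_neg fun h2 => ha ?_
      rw [h, mul_zero, mul_eq_zero_iff_right h1, neg_eq_zero, ← Nat.cast_succ,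
        ZMod.natCast_eq_zero_iff] at h2
      obtain ⟨k, hk⟩ := h2
      obtain _ | k := k
      · simp at hk
      · exact ⟨k, by have := e k; beta_reduce; omega⟩
    · convert h0 using 2 with k
      have h2 : ((P.p * k + (P.p - 1) : ℕ) : P.F) + 1 = 0 := by
        rw [← Nat.cast_succ, Nat.succ_eq_add_one, e, Nat.cast_mul, ZMod.natCast_self, zero_mul]
      simp only [Function.comp_apply, h2, h, neg_zero, zero_mul, mul_zero, if_true]
      rw [Unit_prod_zp, Unit_mat, if_pos h, Unit_ee_A, e, ← P.sv_pow_p]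
      ring
  · convert h0 using 2 with a
    rw [Finset.prod_eq_single (-((a : P.F) + 1) * (v 1 / v 0))]
    · rw [if_pos (by field_simp), Unit_mat, if_neg h, Unit_ee_B, mul_pow, ← zp_nat_mul]
      congr 3
      push_cast
      ring
    · intro b _ hb
      refine if_neg fun h2 => hb ?_
      rw [← mul_div_assoc, h2, mul_div_cancel_right₀ _ h]
    · simp

theorem Unit_hasProd_fac {v : Fin 2 → P.F} (hv : v ≠ 0) (τ : ℍ) :
    HasProd (P.Unit_fac v τ) (Unit_eu (ee τ) / Unit_eu (ee (mob (P.Unit_mat v) τ))) := by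
  have h1 := (P.Unit_multipliable v τ).hasProd
  have h2 := h1.prod_fiberwise fun a => hasProd_fintype fun b => P.Unit_fac v τ (a, b)
  have h3 := h2.mul (P.Unit_line hv τ)
  simp only [Unit_fac_mul] at h3
  rw [← h3.unique (Unit_hasProd (Unit_norm_ee τ)), mul_div_cancel_right₀ _ (Unit_eu_ne _)]
  exact h1

/-- Product expansion. -/
theorem uu_hasProd {v : Fin 2 → P.F} (hv : v ≠ 0) (n : ℤ) (τ : ℍ) :
    HasProd (fun i : ℕ × P.F =>
      (1 - P.zp (-i.2) * P.sv τ ^ (i.1 + 1)) ^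
        (if -((i.1 : P.F) + 1) * v 1 = i.2 * v 0 then 0 else -(24 * (P.p * n)) : ℤ))
      (P.uu v τ ^ (P.p * n : ℤ) /
        ((if v 0 = 0 then (P.p : ℂ) ^ (12 * P.p * n : ℤ) else 1) *
          P.sv τ ^ ((if v 0 = 0 then (P.p : ℤ) * (P.p - 1) else 1 - P.p) * (P.p * n)))) := by
  have h1 := Unit_eu_ne τ
  have h2 := Unit_eu_ne (mob (P.Unit_mat v) τ)
  have hs := P.sv_ne_zero τ
  have hp := P.p_ne
  have h3 := Unit_hasProd_zpow (P.Unit_hasProd_fac hv τ) (div_ne_zero h1 h2) (-(24 * (P.p * n)))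
  convert h3 using 1
  · funext i
    unfold Unit_fac
    split_ifs <;> simp
  · set W := Unit_eu (ee τ) / Unit_eu (ee (mob (P.Unit_mat v) τ)) with hW
    have e24 : W ^ (-(24 * (P.p * n)) : ℤ) = ((W ^ 24)⁻¹) ^ (P.p * n : ℤ) := by
      rw [inv_zpow', ← zpow_natCast, ← zpow_mul]
      congr 1
      ring
    rw [e24]
    by_cases h : v 0 = 0
    · have e : P.uu v τ = (P.p : ℂ) ^ 12 * P.sv τ ^ ((P.p : ℤ) * (P.p - 1)) * (W ^ 24)⁻¹ := by
        rw [hW, Unit_mat, if_pos h] at *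
        rw [uu, if_pos h, Unit_Dl_eq, Unit_Dl_eq τ, mul_sub, mul_one, zpow_sub₀ hs, zpow_mul,
          zpow_natCast, zpow_natCast, P.sv_pow_p, ← Unit_ee_A]
        have := ee_ne_zero τ
        field_simp
      rw [if_pos h, if_pos h, e, mul_zpow, mul_zpow, ← zpow_mul, ← zpow_natCast (P.p : ℂ) 12,
        ← zpow_mul, ← mul_assoc ((12 : ℕ) : ℤ), Nat.cast_ofNat, mul_div_cancel_left₀]
      exact mul_ne_zero (zpow_ne_zero _ hp) (zpow_ne_zero _ hs)
    · have e : P.uu v τ = P.zp (v 1 / v 0) * P.sv τ ^ ((1 : ℤ) - P.p) * (W ^ 24)⁻¹ := by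
        rw [hW, Unit_mat, if_neg h] at *
        rw [uu, if_neg h, Unit_Dl_eq, Unit_Dl_eq τ, zpow_sub₀ hs, zpow_one, zpow_natCast,
          P.sv_pow_p, ← mul_div_assoc, ← Unit_ee_B]
        have := ee_ne_zero τ
        field_simp
      rw [if_neg h, if_neg h, e, mul_zpow, mul_zpow, ← zpow_mul, zpow_mul (P.zp _), zpow_natCast,
        zp_pow_p, one_zpow, mul_div_cancel_left₀]
      exact mul_ne_zero one_ne_zero (zpow_ne_zero _ hs)

/-- Coefficients of the unit multiplied by the discriminant. -/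
def Unit_cf (w : Fin 2 → P.F) (k : ℕ) : ℂ :=
  if w 0 = 0 then (if P.p ^ 2 ∣ k then (P.p : ℂ) ^ 12 * dlc (k / P.p ^ 2) else 0)
  else dlc k * P.zp (k * (w 1 / w 0))

theorem Unit_cf_hasSum (w : Fin 2 → P.F) (τ : ℍ) :
    HasSum (fun k => P.Unit_cf w k * P.sv τ ^ k) (P.uu w τ * Dl τ ^ 1) := by
  unfold Unit_cf uu
  rw [pow_one]
  by_cases h : w 0 = 0
  · simp only [if_pos h]
    rw [div_mul_cancel₀ _ (Dl_ne_zero τ)]
    have hp : 0 < P.p ^ 2 := pow_pos P.prime.pos 2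
    have hg : Function.Injective fun k : ℕ => P.p ^ 2 * k := fun k k' hk =>
      Nat.eq_of_mul_eq_mul_left hp hk
    refine (hg.hasSum_iff fun a ha => ?_).1 ?_
    · rw [if_neg fun ⟨k, hk⟩ => ha ⟨k, hk.symm⟩, zero_mul]
    · have h2 := (hasSum_Dl (mob !![(P.p : ℤ), 0; 0, 1] τ)).mul_left ((P.p : ℂ) ^ 12)
      refine (congrArg (fun f => HasSum f _) (funext fun k => ?_)).mp h2
      rw [Function.comp_apply, if_pos (dvd_mul_right _ _), Nat.mul_div_cancel_left _ hp, Unit_ee_A,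
        ← P.sv_pow_p]
      ring
  · simp only [if_neg h]
    rw [div_mul_cancel₀ _ (Dl_ne_zero τ)]
    convert hasSum_Dl (mob !![1, (((w 1 / w 0).val : ℕ) : ℤ); 0, (P.p : ℤ)] τ) using 2 with k
    rw [Unit_ee_B, mul_pow, zp_nat_mul, mul_assoc]

theorem uu_fam {v : Fin 2 → P.F} (hv : v ≠ 0) : ∃ a : P.GF → ℕ → ℂ,
    (∀ A : Subring ℂ, P.zp 1 ∈ A → P.Fam1 A 1 (fun γ => P.uu (v ᵥ* (γ : P.MF))) a) ∧
      ∀ γ : P.GF, (v ᵥ* (γ : P.MF)) 0 = 0 → ∀ k,
        a γ k = if P.p ^ 2 ∣ k then (P.p : ℂ) ^ 12 * dlc (k / P.p ^ 2) else 0 := by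
  refine ⟨fun γ => P.Unit_cf (v ᵥ* (γ : P.MF)), fun A hA => ⟨fun γ k => ?_,
    fun γ τ => P.Unit_cf_hasSum _ τ, fun γ g τ => ?_, fun s d hs γ k => ?_⟩,
    fun γ h k => if_pos h⟩
  · unfold Unit_cf
    split_ifs
    · exact mul_mem (pow_mem (natCast_mem A _) _) (intCast_mem A _)
    · exact zero_mem A
    · rw [P.zp_eq_pow]
      exact mul_mem (intCast_mem A _) (pow_mem hA _)
  · rw [P.uu_smul (P.Unit_vec_ne hv (Matrix.GeneralLinearGroup.det_ne_zero γ)),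
      Matrix.vecMul_vecMul, Units.val_mul, coe_rg]
  · have e : v ᵥ* ((γ * P.dg d : P.GF) : P.MF) =
        ![(v ᵥ* (γ : P.MF)) 0, (v ᵥ* (γ : P.MF)) 1 * d] := by
      rw [Units.val_mul, ← Matrix.vecMul_vecMul, coe_dg]
      generalize v ᵥ* (γ : P.MF) = w
      ext i
      fin_cases i <;> simp [Matrix.vecMul, dotProduct]
    have hz : ∀ x, s (P.zp x) = P.zp (x * d) :=
      P.map_zp (φ := (s : ℂ →+* ℂ)) (ψ := RingHom.id ℂ) hs
    rw [e]
    generalize v ᵥ* (γ : P.MF) = w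
    unfold Unit_cf
    simp only [Matrix.cons_val_zero, Matrix.cons_val_one, Matrix.cons_val_fin_one]
    split_ifs
    · simp
    · simp
    · rw [map_mul, map_intCast, hz]
      congr 2
      ring

end Par

theorem log_uu_le : ∃ C : ℝ, ∀ (P : Par) (v : Fin 2 → P.F), v ≠ 0 → ∀ τ ∈ 𝒟,
    Real.log ‖P.uu v τ‖ ≤ C + 6 * Real.log P.p + 2 * Real.pi * τ.im := by
  obtain ⟨C, hC, hU⟩ := Dl_upper
  obtain ⟨c, hc, hL⟩ := Dl_lower
  refine ⟨Real.log (C / c), fun P v _ τ hτ => ?_⟩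
  have hp := P.p_pos
  have h1 := Unit_norm_val P.prime.pos (P.Unit_det v) τ
  rw [← P.Unit_uu_eq] at h1
  have h2 : ‖P.uu v τ‖ * (c * Real.exp (-(2 * Real.pi * τ.im))) ≤ P.p ^ 6 * C :=
    (mul_le_mul_of_nonneg_left (hL τ hτ) (norm_nonneg _)).trans
      (h1.le.trans (mul_le_mul_of_nonneg_left (hU _) (by positivity)))
  have h3 : ‖P.uu v τ‖ ≤ C / c * P.p ^ 6 * Real.exp (2 * Real.pi * τ.im) := by
    rw [← le_div_iff₀ (by positivity), Real.exp_neg] at h2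
    refine h2.trans_eq ?_
    field_simp
  refine (Real.log_le_log (norm_pos_iff.2 (P.uu_ne_zero v τ)) h3).trans_eq ?_
  rw [Real.log_mul (by positivity) (by positivity), Real.log_mul (by positivity) (by positivity),
    Real.log_exp, Real.log_pow, Nat.cast_ofNat]

theorem Par.log_uu_T (P : Par) (τ : ℍ) : P.uu ![0, 1] (ModularGroup.T • τ) = P.uu ![0, 1] τ := by
  rw [P.uu_smul (fun h => by simpa using congrFun h 1)]
  congr 1
  ext i
  fin_cases i <;> simp [Matrix.vecMul, dotProduct, red, ModularGroup.T]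

theorem Par.log_uu_tendsto (P : Par) : Filter.Tendsto (fun τ : ℍ =>
    Real.log ‖P.uu ![0, 1] τ‖ + 2 * Real.pi * (P.p - 1) * τ.im) atImInfty
      (𝓝 (12 * Real.log P.p)) := by
  obtain ⟨c, hc, hL, h1⟩ := qz_Dl
  have h2 : Filter.Tendsto (fun τ : ℍ => ee (-τ) * Dl τ) atImInfty (𝓝 1) := by
    simpa [h1] using hc.tendsto one_pos (L := 1) fun ν hν => by rw [hL ν hν, Int.cast_zero]
  have him : ∀ τ : ℍ, (mob !![(P.p : ℤ), 0; 0, 1] τ).im = P.p * τ.im := fun τ => by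
    rw [← coe_im, P.Unit_coe_A]
    simp
  have h3 : Filter.Tendsto (fun τ : ℍ => mob !![(P.p : ℤ), 0; 0, 1] τ) atImInfty atImInfty := by
    rw [atImInfty, Filter.tendsto_comap_iff]
    refine (Filter.tendsto_comap.const_mul_atTop P.p_pos).congr fun τ => ?_
    exact (him τ).symm
  have h4 := (((h2.comp h3).div h2 one_ne_zero).const_mul ((P.p : ℂ) ^ 12)).norm
  rw [div_one, mul_one, norm_pow, Complex.norm_natCast] at h4
  have h5 := h4.log (pow_ne_zero _ P.p_pos.ne')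
  rw [Real.log_pow] at h5
  refine h5.congr fun τ => ?_
  have e : (P.p : ℂ) ^ 12 * (ee (-(mob !![(P.p : ℤ), 0; 0, 1] τ)) *
      Dl (mob !![(P.p : ℤ), 0; 0, 1] τ) / (ee (-τ) * Dl τ)) =
      P.uu ![0, 1] τ * ee (-((P.p - 1) * τ)) := by
    have h6 : ee (-(mob !![(P.p : ℤ), 0; 0, 1] τ)) = ee (-((P.p - 1) * τ)) * ee (-τ) := by
      rw [← ee_add, P.Unit_coe_A]
      congr 1
      ring
    have h7 := ee_ne_zero (-τ)
    have h8 := Dl_ne_zero τ
    rw [h6, Par.uu, if_pos (by simp)]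
    field_simp
  simp only [Pi.div_apply, Function.comp_apply]
  rw [e, norm_mul, Real.log_mul (norm_ne_zero_iff.2 (P.uu_ne_zero _ τ))
    (norm_ne_zero_iff.2 (ee_ne_zero _)), norm_ee, Real.log_exp]
  congr 1
  simp
  ring

end

end Pool.Agent.P.MP_a60a76_nt.Sz
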