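import Pool.Agent.P.MP_a60a76_nt.Sz.Lv1
import Pool.Agent.P.MP_a60a76_nt.Sz.ZqF
import Pool.Agent.P.MP_a60a76_nt.Sz.Unit
import Pool.Agent.P.MP_a60a76_nt.Sz.FxB

namespace Pool.Agent.P.MP_a60a76_nt.Sz

open UpperHalfPlane hiding J
open MeasureTheory SP
open scoped MatrixGroups UpperHalfPlane Matrix Modular Topology Classical ArithmeticFunction.sigma

noncomputable section

/-! Defects on the modular curve of prime level. -/

variable {K : Type} [NormedField K] [IsUltrametricDist K] {l : ℕ}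

theorem hnf_prime (hl : l.Prime) {Y : MZ} (hY : Y.det = l) :
    (∃ g : SL(2, ℤ), Y = (g : MZ) * !![(l : ℤ), 0; 0, 1]) ∨
      ∃ (g : SL(2, ℤ)) (b : ℕ), b < l ∧ Y = (g : MZ) * !![1, (b : ℤ); 0, (l : ℤ)] := by
  obtain ⟨⟨g, Z⟩, ⟨-, hZ⟩, e⟩ := (hnf_bijective hl.pos).surjOn hY
  obtain ⟨h1, h2, h3, h4, h5, h6⟩ := (mem_hnf hl.pos).1 hZ
  obtain ⟨a, ha⟩ := Int.eq_ofNat_of_zero_le h2.le
  obtain ⟨d, hd⟩ := Int.eq_ofNat_of_zero_le h3.le
  obtain ⟨b, hb⟩ := Int.eq_ofNat_of_zero_le h5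
  dsimp only at e h1 h4 h6 ha hd hb
  rw [ha, hd] at h4
  rw [hb, hd] at h6
  have h7 : a * d = l := by exact_mod_cast h4
  have h8 : b < d := by exact_mod_cast h6
  rw [← e, Matrix.eta_fin_two Z, ha, hb, hd, h1]
  rcases (Nat.dvd_prime hl).1 (Dvd.intro _ h7) with h | h
  · subst h
    rw [one_mul] at h7
    subst h7
    exact Or.inr ⟨g, b, h8, rfl⟩
  · subst h
    obtain rfl : d = 1 := by
      exact Nat.eq_of_mul_eq_mul_left hl.pos (h7.trans (mul_one a).symm)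
    obtain rfl : b = 0 := by omega
    exact Or.inl ⟨g, rfl⟩

omit [IsUltrametricDist K] in
theorem KronA_zq {ι : ℂ →+* K} (hl : l.Prime) {α : MZ → ℍ → ℂ}
    (left : ∀ (g : SL(2, ℤ)) (Y : MZ), Y.det = l → α ((g : MZ) * Y) = α Y)
    (h1 : Zq ι (α !![(l : ℤ), 0; 0, 1])) (h2 : ∀ b : ℤ, Zq ι (α !![1, b; 0, (l : ℤ)]))
    {Y : MZ} (hY : Y.det = l) : Zq ι (α Y) := by
  rcases hnf_prime hl hY with ⟨g, rfl⟩ | ⟨g, b, -, rfl⟩
  · rwa [left g _ (by simp [Matrix.det_fin_two])]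
  · rw [left g _ (by simp [Matrix.det_fin_two])]
    exact h2 b

theorem KronA_mobA {ι : ℂ →+* K} (hl : l.Prime) {F : ℍ → ℂ} (h : Zq ι F) :
    Zq ι fun τ => F (mob !![(l : ℤ), 0; 0, 1] τ) :=
  h.mob_tri hl.pos one_pos 0

theorem KronA_mobB {ι : ℂ →+* K} (hl : l.Prime) {F : ℍ → ℂ} (h : Zq ι F) (b : ℤ) :
    Zq ι fun τ => F (mob !![1, b; 0, (l : ℤ)] τ) :=
  h.mob_tri one_pos hl.pos b

theorem Par.df_unit (P : Par) (ι : ℂ →+* K) (hl : l.Prime) (hι : ‖(l : K)‖ < 1) :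
    P.Df ι l fun _ Y => Unit_val l Y := by
  have hpos : ∀ {Y : MZ}, Y.det = l → 0 < Y.det := fun h => by
    rw [h]
    exact_mod_cast hl.pos
  have left : ∀ (g : SL(2, ℤ)) (Y : MZ), Y.det = l → Unit_val l ((g : MZ) * Y) = Unit_val l Y :=
    fun g Y hY => funext fun τ => Unit_val_left l g (hpos hY) τ
  have hs : Zs ι (Unit_val l !![(l : ℤ), 0; 0, 1]) := by
    have h1 : ‖ι ((l : ℂ) ^ 12)‖ < 1 := by
      rw [map_pow, map_natCast, norm_pow]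
      exact pow_lt_one₀ (norm_nonneg _) hι (by norm_num)
    refine ((zs_const h1).mul ((KronA_mobA hl (qz_Dl.zq ι)).mul (qz_Dl_inv.zq ι))).congr
      fun τ => ?_
    simp [Unit_val, dn, div_eq_mul_inv, mul_assoc]
  refine ⟨fun _ => left, fun _ g Y τ hY => (Unit_val_right l g (hpos hY) τ).symm,
    fun _ Y hY => KronA_zq hl left hs.zq (fun b => ?_) hY, fun _ => hs⟩
  refine ((KronA_mobB hl (qz_Dl.zq ι) b).mul (qz_Dl_inv.zq ι)).congr fun τ => ?_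
  have h1 : (l : ℂ) ≠ 0 := by exact_mod_cast hl.ne_zero
  have h2 := Dl_ne_zero τ
  have h3 : dn !![1, b; 0, (l : ℤ)] τ = l := by simp [dn]
  rw [Unit_val, h3]
  field_simp

theorem KronA_adj (g : SL(2, ℤ)) : (g : MZ).adjugate = ((g⁻¹ : SL(2, ℤ)) : MZ) := rfl

theorem KronA_qs {P : Par} {A : Subring ℂ} {n : ℕ} {f : P.GF → ℍ → ℂ} {a : P.GF → ℕ → ℂ}
    (h : P.Fam1 A n f a) (γ : P.GF) :
    QS P.p (fun ν => if 0 ≤ ν then a γ ν.toNat else 0) fun τ => f γ τ * Dl τ ^ n :=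
  (QS.of_nat (N := P.p) 0 (h.val γ)).congr (fun ν => by simp) fun τ => by simp [ee_zero]

theorem Par.df_fam (P : Par) (ι : ℂ ≃+* K) (hl : l.Prime) (hne : l ≠ P.p) (hp : ‖(P.p : K)‖ = 1)
    (hι : ‖(l : K)‖ < 1) {φ : K ≃+* K} (hφ : Frb l φ) {n : ℕ} {f : P.GF → ℍ → ℂ}
    {a : P.GF → ℕ → ℂ} (h : P.Fam1 (Ai (ι : ℂ →+* K)) n f a) :
    P.Df (ι : ℂ →+* K) l fun γ Y τ => f (γ * P.gm Y.adjugate) (mob Y τ) - f γ τ ^ l := by
  have hpos : ∀ {Y : MZ}, Y.det = l → 0 < Y.det := fun h => by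
    rw [h]
    exact_mod_cast hl.pos
  have hnd : ∀ {Y : MZ}, Y.det = l → ¬ (P.p : ℤ) ∣ Y.adjugate.det := fun hY hd => by
    rw [Matrix.det_adjugate, hY, Fintype.card_fin, pow_one, Int.natCast_dvd_natCast] at hd
    exact hne ((Nat.prime_dvd_prime_iff_eq P.prime hl).1 hd).symm
  have hsl : ∀ g : SL(2, ℤ), ¬ (P.p : ℤ) ∣ (g : MZ).det := fun g hd => by
    rw [g.det_coe] at hd
    exact P.prime.one_lt.ne' (by exact_mod_cast Int.eq_one_of_dvd_one (by positivity) hd)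
  have left : ∀ γ (g : SL(2, ℤ)) (Y : MZ), Y.det = l →
      (fun τ => f (γ * P.gm ((g : MZ) * Y).adjugate) (mob ((g : MZ) * Y) τ) - f γ τ ^ l) =
        fun τ => f (γ * P.gm Y.adjugate) (mob Y τ) - f γ τ ^ l := fun γ g Y hY => by
    funext τ
    rw [Matrix.adjugate_mul_distrib, KronA_adj, P.gm_mul (hnd hY) (hsl _), P.gm_sl, ← mul_assoc,
      h.geo, mob_mul (sl_det_pos g) (hpos hY), mob_sl, inv_smul_smul]
  refine ⟨left, fun γ g Y τ hY => ?_, fun γ Y hY => KronA_zq hl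
    (α := fun Y τ => f (γ * P.gm Y.adjugate) (mob Y τ) - f γ τ ^ l) (left γ)
    ((KronA_mobA hl (h.zq _)).sub ((h.zq γ).pow l))
    (fun b => (KronA_mobB hl (h.zq _) b).sub ((h.zq γ).pow l)) hY, fun γ => ?_⟩
  · rw [Matrix.adjugate_mul_distrib, KronA_adj, P.gm_mul (hsl _) (hnd hY), P.gm_sl, P.rg_inv,
      h.geo, mob_mul (hpos hY) (sl_det_pos g), mob_sl, mul_assoc, mul_inv_cancel_left]
  · have hfr : ∀ z : ℂ, ‖ι z‖ ≤ 1 → ‖ι (cjg ι φ z - z ^ l)‖ < 1 := fun z hz => by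
      rw [map_sub, map_cjg, map_pow]
      exact hφ.2 _ hz
    obtain ⟨d, hd⟩ := P.exists_unit (cjg ι φ)
    have hdl : (d : P.F) = l := by
      by_contra hn
      have h1 := hfr (P.zp 1) (Par.norm_map_zp (ι : ℂ →+* K) 1).le
      rw [hd, ← P.zp_nat_mul, mul_one] at h1
      exact h1.ne (Par.norm_zp_sub (ι : ℂ →+* K) hp hn)
    have hY : (!![(l : ℤ), 0; 0, 1] : MZ).det = l := by simp [Matrix.det_fin_two]
    have hg : P.gm (!![(l : ℤ), 0; 0, 1] : MZ).adjugate = P.dg d := by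
      apply Units.ext
      rw [P.coe_gm (hnd hY), P.coe_dg, hdl]
      ext i j
      fin_cases i <;> fin_cases j <;> simp [Par.rz, Matrix.adjugate_fin_two]
    have hc : ∀ γ (ν : ℤ), ‖(ι : ℂ →+* K) (if 0 ≤ ν then a γ ν.toNat else 0)‖ ≤ 1 := fun γ ν => by
      split_ifs
      · exact h.mem γ _
      · simp
    have h1 := zs_frob (ι := (ι : ℂ →+* K)) hl hι P.prime.pos (KronA_qs h γ)
      (KronA_qs h (γ * P.dg d)) (hc γ) fun ν => by
        split_ifs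
        · rw [h.gal _ d hd]
          exact hfr _ (h.mem γ _)
        · simp [hl.ne_zero]
    have hD := qz_Dl_inv.zq (ι : ℂ →+* K)
    have h2 := (qz_Dl_inv.zs_frob hl hι (ι : ℂ →+* K)).pow_sub (KronA_mobA hl hD) (hD.pow l) n
    have hF : Zq (ι : ℂ →+* K) fun τ => f γ τ * Dl τ ^ n :=
      ⟨P.p, _, P.prime.pos, KronA_qs h γ, hc γ⟩
    refine ((h1.mul ((KronA_mobA hl hD).pow n)).add ((hF.pow l).mul_zs h2)).congr fun τ => ?_
    have h3 := Dl_ne_zero τ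
    have h4 := Dl_ne_zero (mob !![(l : ℤ), 0; 0, 1] τ)
    rw [hg, mul_pow, ← pow_mul, ← pow_mul, mul_comm l n, inv_pow, inv_pow]
    field_simp
    ring

end

end Pool.Agent.P.MP_a60a76_nt.Sz
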