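import Pool.Agent.P.MP_a60a76_nt.Sz.Defs3

namespace Pool.Agent.P.MP_a60a76_nt.Sz

open UpperHalfPlane hiding J
open MeasureTheory SP
open scoped MatrixGroups UpperHalfPlane Matrix Modular Topology Classical ArithmeticFunction.sigma

noncomputable section

/-! Binomial operators of a derivation. -/

variable {R : Type} [CommRing R] [Algebra ℚ R] {δ : R →ₗ[ℚ] R}

theorem LamA_zsmul (z : ℤ) (f : R) : δ (z * f) = z * δ f := by
  rw [← zsmul_eq_mul, map_zsmul, zsmul_eq_mul]

theorem LamA_inv (k : ℕ) (x : R) : ((k + 1 : ℚ)⁻¹) • (((k : R) + 1) * x) = x := by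
  have : ((k : R) + 1) * x = (k + 1 : ℚ) • x := by
    rw [Algebra.smul_def, map_add, map_natCast, map_one]
  rw [this, inv_smul_smul₀ (by positivity)]

theorem LamA_cancel (k : ℕ) {x y : R} (h : ((k : R) + 1) * x = ((k : R) + 1) * y) : x = y := by
  rw [← LamA_inv k x, h, LamA_inv]

theorem LamA_succ (n : ℤ) (k : ℕ) (g : R) : ((k : R) + 1) * bn δ n (k + 1) g =
    δ (bn δ n k g) + ((n : R) - k) * bn δ n k g := by
  rw [bn, mul_smul_comm, LamA_inv]

omit [Algebra ℚ R] in
theorem LamA_pow (S : Subring R) {A : PowerSeries R} (h0 : PowerSeries.coeff 0 A = 0) {m : ℕ}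
    (h : ∀ j < m, PowerSeries.coeff j A ∈ S) (i : ℕ) :
    PowerSeries.coeff m (A ^ (i + 1 + 1)) ∈ S := by
  have h1 : ∀ k, ∀ j < m, PowerSeries.coeff j (A ^ k) ∈ S := by
    intro k
    induction k with
    | zero =>
      intro j _
      rw [pow_zero, PowerSeries.coeff_one]
      split_ifs
      exacts [S.one_mem, S.zero_mem]
    | succ k ih =>
      intro j hj
      rw [pow_succ, PowerSeries.coeff_mul]
      refine S.sum_mem fun x hx => ?_
      have := Finset.HasAntidiagonal.mem_antidiagonal.1 hx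
      exact S.mul_mem (ih _ (by omega)) (h _ (by omega))
  rw [pow_succ, PowerSeries.coeff_mul]
  refine S.sum_mem fun x hx => ?_
  have := Finset.HasAntidiagonal.mem_antidiagonal.1 hx
  by_cases h2 : x.2 = 0
  · rw [h2, h0, mul_zero]
    exact S.zero_mem
  by_cases h3 : x.1 = 0
  · rw [PowerSeries.coeff_zero_eq_constantCoeff_apply] at h0
    rw [h3, PowerSeries.coeff_zero_eq_constantCoeff_apply, map_pow, h0, zero_pow i.succ_ne_zero,
      zero_mul]
    exact S.zero_mem
  exact S.mul_mem (h1 _ _ (by omega)) (h _ (by omega))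

theorem bn_add (n : ℤ) (k : ℕ) (f g : R) : bn δ n k (f + g) = bn δ n k f + bn δ n k g := by
  induction k with
  | zero => rfl
  | succ k ih => rw [bn, bn, bn, ih, map_add, ← smul_add]; congr 1; ring

theorem bn_zsmul (n : ℤ) (k : ℕ) (z : ℤ) (f : R) : bn δ n k (z * f) = z * bn δ n k f := by
  induction k with
  | zero => rfl
  | succ k ih => rw [bn, bn, ih, LamA_zsmul, mul_smul_comm]; congr 1; ring

theorem bn_mem (I : Ideal R) (h : ∀ f ∈ I, δ f ∈ I) (n : ℤ) (k : ℕ) {f : R} (hf : f ∈ I) :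
    bn δ n k f ∈ I := by
  induction k with
  | zero => exact hf
  | succ k ih =>
    rw [bn, Algebra.smul_def]
    exact I.mul_mem_left _ (I.add_mem (h _ ih) (I.mul_mem_left _ ih))

theorem bn_mul (hδ : ∀ a b, δ (a * b) = δ a * b + a * δ b) (n n' : ℤ) (k : ℕ) (f g : R) :
    bn δ (n + n') k (f * g) =
      ∑ x ∈ Finset.HasAntidiagonal.antidiagonal k, bn δ n x.1 f * bn δ n' x.2 g := by
  induction k with
  | zero => simp [bn]
  | succ k ih =>
    refine LamA_cancel k ?_
    have e1 : ∑ x ∈ Finset.HasAntidiagonal.antidiagonal (k + 1),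
        (x.1 : R) * (bn δ n x.1 f * bn δ n' x.2 g) = ∑ x ∈ Finset.HasAntidiagonal.antidiagonal k,
          (δ (bn δ n x.1 f) + ((n : R) - x.1) * bn δ n x.1 f) * bn δ n' x.2 g := by
      rw [Finset.Nat.sum_antidiagonal_succ]
      simp only [Nat.cast_zero, zero_mul, zero_add, ← LamA_succ, Nat.cast_succ, mul_assoc]
    have e2 : ∑ x ∈ Finset.HasAntidiagonal.antidiagonal (k + 1),
        (x.2 : R) * (bn δ n x.1 f * bn δ n' x.2 g) = ∑ x ∈ Finset.HasAntidiagonal.antidiagonal k,
          bn δ n x.1 f * (δ (bn δ n' x.2 g) + ((n' : R) - x.2) * bn δ n' x.2 g) := by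
      rw [Finset.Nat.sum_antidiagonal_succ']
      simp only [Nat.cast_zero, zero_mul, zero_add, ← LamA_succ, Nat.cast_succ, mul_left_comm]
    have e3 : ((k : R) + 1) * ∑ x ∈ Finset.HasAntidiagonal.antidiagonal (k + 1),
        bn δ n x.1 f * bn δ n' x.2 g = ∑ x ∈ Finset.HasAntidiagonal.antidiagonal (k + 1),
          (x.1 : R) * (bn δ n x.1 f * bn δ n' x.2 g) +
        ∑ x ∈ Finset.HasAntidiagonal.antidiagonal (k + 1),
          (x.2 : R) * (bn δ n x.1 f * bn δ n' x.2 g) := by
      rw [Finset.mul_sum, ← Finset.sum_add_distrib]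
      refine Finset.sum_congr rfl fun x hx => ?_
      rw [← add_mul, ← Nat.cast_add, Finset.HasAntidiagonal.mem_antidiagonal.1 hx, Nat.cast_succ]
    rw [LamA_succ, e3, e1, e2, ih, map_sum, Finset.mul_sum, ← Finset.sum_add_distrib,
      ← Finset.sum_add_distrib]
    refine Finset.sum_congr rfl fun x hx => ?_
    rw [hδ, ← Finset.HasAntidiagonal.mem_antidiagonal.1 hx]
    push_cast
    ring

theorem bn_eigen {w : R} {a : ℤ} (h : δ w = a * w) (n : ℤ) (k : ℕ) :
    bn δ n k w = ((Ring.choose (a + n) k : ℤ) : R) * w := by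
  induction k with
  | zero => simp [bn]
  | succ k ih =>
    refine LamA_cancel k ?_
    have e := Ring.choose_smul_choose (a + n) (Nat.le_succ k)
    rw [Nat.succ_eq_add_one, Nat.choose_succ_self_right, Nat.add_sub_cancel_left,
      Ring.choose_one_right, nsmul_eq_mul] at e
    have e' := congrArg (Int.cast : ℤ → R) e
    push_cast at e'
    rw [LamA_succ, ih, LamA_zsmul, h, ← mul_assoc ((k : R) + 1), e']
    ring

theorem root_int (S : Subring R) {p : ℕ} (hp : 2 ≤ p) {u : PowerSeries R}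
    (h0 : PowerSeries.constantCoeff u = 1) (h : ∀ k, PowerSeries.coeff k (u ^ p) ∈ S) (k : ℕ) :
    (p : R) ^ (2 * k) * PowerSeries.coeff k u ∈ S := by
  obtain ⟨q, rfl⟩ : ∃ q, p = q + 2 := ⟨p - 2, by omega⟩
  set c : R := ((q + 2 : ℕ) : R) with hc
  have hcS : c ∈ S := natCast_mem S _
  have hu : IsUnit c := by
    have : c = algebraMap ℚ R ((q + 2 : ℕ) : ℚ) := (map_natCast _ _).symm
    rw [this]
    exact (IsUnit.mk0 _ (by positivity)).map _
  let A : PowerSeries R := PowerSeries.mk fun m =>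
    if m = 0 then 0 else c ^ (2 * m - 1) * PowerSeries.coeff m u
  have hA : PowerSeries.rescale (c ^ 2) u = PowerSeries.C c * A + 1 := by
    ext m
    rw [PowerSeries.coeff_rescale, map_add, PowerSeries.coeff_C_mul, PowerSeries.coeff_mk,
      PowerSeries.coeff_one]
    cases m with
    | zero => simpa using h0
    | succ m =>
      rw [if_neg m.succ_ne_zero, if_neg m.succ_ne_zero, ← pow_mul,
        show 2 * (m + 1) - 1 = 2 * m + 1 by omega]
      ring
  have hA0 : PowerSeries.coeff 0 A = 0 := by simp [A]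
  have key : ∀ m, PowerSeries.coeff m A ∈ S := by
    intro m
    induction m using Nat.strong_induction_on with
    | _ m ih =>
    cases m with
    | zero => exact hA0 ▸ S.zero_mem
    | succ m =>
      have e := congrArg (PowerSeries.coeff (m + 1)) (congrArg (· ^ (q + 2)) hA)
      simp only [← map_pow, add_pow, one_pow, mul_one, mul_pow] at e
      rw [PowerSeries.coeff_rescale, Finset.sum_range_succ', Finset.sum_range_succ', map_add,
        map_add, map_sum] at e
      simp only [← map_natCast (PowerSeries.C : R →+* PowerSeries R), PowerSeries.coeff_mul_C,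
        PowerSeries.coeff_C_mul, pow_zero, PowerSeries.coeff_one, zero_add, pow_one,
        Nat.choose_one_right, Nat.succ_ne_zero, if_false, mul_zero, zero_mul, add_zero] at e
      have e2 : PowerSeries.coeff (m + 1) A =
          c ^ (2 * m) * PowerSeries.coeff (m + 1) (u ^ (q + 2)) - ∑ i ∈ Finset.range (q + 1),
            c ^ i * PowerSeries.coeff (m + 1) (A ^ (i + 1 + 1)) * ((q + 2).choose (i + 1 + 1)) := by
        refine (hu.pow 2).mul_left_cancel ?_
        rw [mul_sub, Finset.mul_sum, eq_sub_iff_add_eq]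
        calc _ = ∑ i ∈ Finset.range (q + 1), c ^ (i + 1 + 1) *
              PowerSeries.coeff (m + 1) (A ^ (i + 1 + 1)) * ((q + 2).choose (i + 1 + 1)) +
              c * PowerSeries.coeff (m + 1) A * c := by
              rw [add_comm]
              congr 1
              · exact Finset.sum_congr rfl fun i _ => by ring
              · ring
          _ = _ := by rw [← e]; ring
      rw [e2]
      exact S.sub_mem (S.mul_mem (S.pow_mem hcS _) (h _)) (S.sum_mem fun i _ =>
        S.mul_mem (S.mul_mem (S.pow_mem hcS _) (LamA_pow S hA0 ih i)) (natCast_mem S _))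
  cases k with
  | zero => simp [h0]
  | succ k =>
    have := S.mul_mem hcS (key (k + 1))
    rwa [PowerSeries.coeff_mk, if_neg k.succ_ne_zero, ← mul_assoc, ← pow_succ',
      show 2 * (k + 1) - 1 + 1 = 2 * (k + 1) by omega] at this

theorem bn_root [IsDomain R] (hδ : ∀ a b, δ (a * b) = δ a * b + a * δ b) (S : Subring R) {p : ℕ}
    (hp : 2 ≤ p) {s : R} (hs : s ≠ 0) (hsS : s ∈ S) (hd : s ∣ δ s)
    (h : ∀ k, ∃ U ∈ S, bn δ 0 k (s ^ p) = s ^ p * U) (k : ℕ) :
    (p : R) ^ (2 * k) * bn δ 0 k s ∈ S := by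
  have h1 : ∀ k, ∃ a, bn δ 0 k s = s * a := fun k => Ideal.mem_span_singleton.1
    (bn_mem (Ideal.span {s}) (fun f hf => by
      obtain ⟨a, rfl⟩ := Ideal.mem_span_singleton.1 hf
      rw [hδ]
      exact Ideal.mem_span_singleton.2 (dvd_add (hd.mul_right _) (dvd_mul_right _ _))) 0 k
      (Ideal.mem_span_singleton_self s))
  choose a ha using h1
  have h2 : ∀ j k, bn δ 0 k (s ^ (j + 1)) =
      s ^ (j + 1) * PowerSeries.coeff k (PowerSeries.mk a ^ (j + 1)) := by
    intro j
    induction j with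
    | zero => intro k; simp [ha]
    | succ j ih =>
      intro k
      have := bn_mul hδ 0 0 k (s ^ (j + 1)) s
      rw [add_zero, ← pow_succ] at this
      rw [this, pow_succ (PowerSeries.mk a), PowerSeries.coeff_mul, Finset.mul_sum]
      refine Finset.sum_congr rfl fun x _ => ?_
      rw [ih, ha, PowerSeries.coeff_mk]
      ring
  have h0 : PowerSeries.constantCoeff (PowerSeries.mk a) = 1 := by
    have : s * 1 = s * a 0 := (mul_one s).trans (ha 0)
    simpa using (mul_left_cancel₀ hs this).symm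
  have h3 := root_int S hp h0 (fun k => by
    obtain ⟨U, hU, e⟩ := h k
    obtain ⟨j, rfl⟩ : ∃ j, p = j + 1 := ⟨p - 1, by omega⟩
    rw [h2] at e
    rwa [mul_left_cancel₀ (pow_ne_zero _ hs) e]) k
  rw [PowerSeries.coeff_mk] at h3
  rw [ha, mul_left_comm]
  exact S.mul_mem hsS h3

theorem bn_good (hδ : ∀ a b, δ (a * b) = δ a * b + a * δ b) (S : Subring R) (p : ℕ) {f g : R}
    {n n' : ℤ} (hf : ∀ k, (p : R) ^ (2 * k) * bn δ n k f ∈ S)
    (hg : ∀ k, (p : R) ^ (2 * k) * bn δ n' k g ∈ S) (k : ℕ) :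
    (p : R) ^ (2 * k) * bn δ (n + n') k (f * g) ∈ S := by
  rw [bn_mul hδ, Finset.mul_sum]
  refine S.sum_mem fun x hx => ?_
  have := S.mul_mem (hf x.1) (hg x.2)
  rwa [mul_mul_mul_comm, ← pow_add, ← mul_add, Finset.HasAntidiagonal.mem_antidiagonal.1 hx] at this

end

end Pool.Agent.P.MP_a60a76_nt.Sz
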