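import Pool.Agent.P.MP_a60a76_nt.Sz.Ty
import Pool.Agent.P.MP_a60a76_nt.Sz.Prod
import Pool.Agent.P.MP_a60a76_nt.Sz.Unit

namespace Pool.Agent.P.MP_a60a76_nt.Sz

open UpperHalfPlane MeasureTheory SP
open scoped MatrixGroups UpperHalfPlane Matrix Modular Topology Classical ArithmeticFunction.sigma

noncomputable section

/-! The case of a point on a Hecke curve. -/

/-- A Jordan block has only one eigenline. -/
theorem Line_eig {F : Type} [Field F] {w : Fin 2 → F} {a b e : F} (hb : b ≠ 0)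
    (h : w ᵥ* !![a, b; 0, a] = e • w) : w 0 = 0 := by
  have h0 := congrFun h 0
  have h1 := congrFun h 1
  simp [Matrix.vecMul, dotProduct] at h0 h1
  by_contra h2
  have h3 : a = e := mul_left_cancel₀ h2 (by linear_combination h0)
  exact mul_ne_zero h2 hb (by linear_combination h1 - w 1 * h3)

/-- Matrices which commute with a transvection up to sign. -/
theorem Line_comm {F : Type} [Field F] (h2 : (2 : F) ≠ 0) {β : Matrix (Fin 2) (Fin 2) F} {x : F}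
    (hx : x ≠ 0) (h : !![1, x; 0, 1] * β = β * !![1, x; 0, 1] ∨
      !![1, x; 0, 1] * β = -(β * !![1, x; 0, 1])) : β = !![β 0 0, β 0 1; 0, β 0 0] := by
  have key : β 1 0 = 0 ∧ β 1 1 = β 0 0 := by
    rcases h with h | h
    · have h0 := congrFun (congrFun h 0) 0
      have h1 := congrFun (congrFun h 0) 1
      simp only [Matrix.mul_apply, Fin.sum_univ_two, Matrix.of_apply, Matrix.cons_val',
        Matrix.cons_val_zero, Matrix.cons_val_one, Matrix.cons_val_fin_one] at h0 h1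
      exact ⟨mul_left_cancel₀ hx (by linear_combination h0),
        mul_left_cancel₀ hx (by linear_combination h1)⟩
    · have h0 := congrFun (congrFun h 0) 0
      have h1 := congrFun (congrFun h 1) 0
      have h3 := congrFun (congrFun h 1) 1
      simp only [Matrix.neg_apply, Matrix.mul_apply, Fin.sum_univ_two, Matrix.of_apply,
        Matrix.cons_val', Matrix.cons_val_zero, Matrix.cons_val_one,
        Matrix.cons_val_fin_one] at h0 h1 h3
      have h4 : β 1 0 = 0 := mul_left_cancel₀ h2 (by linear_combination h1)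
      exact ⟨h4, mul_left_cancel₀ h2 (by linear_combination h3 - h0)⟩
  ext i j
  fin_cases i <;> fin_cases j <;> simp [key.1, key.2]

/-- The stable line. -/
theorem Par.Sgn.exists_line {P : Par} {A : Crv} {α : P.MF} (h : P.Sgn A α) {s : ℂ ≃+* ℂ}
    {δ : P.GF} {x : P.F} (hx : x ≠ 0) (hδ : ∀ ρ : P.GF, P.Rho A s ρ → P.Tv ρ δ x) :
    ∃ v : Fin 2 → P.F, v ≠ 0 ∧ ∀ s : ℂ ≃+* ℂ, ∃ (ρ : P.GF) (y : P.F), P.Rho A s ρ ∧
      v ᵥ* (ρ : P.MF) = y • v := by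
  obtain ⟨ρ₀, hρ₀, hc⟩ := h.2 s
  obtain ⟨ε, hε⟩ : ∃ ε : P.MF, ε = ((δ⁻¹ : P.GF) : P.MF) := ⟨_, rfl⟩
  have h1 : ε * (δ : P.MF) = 1 := by rw [hε, Units.inv_mul]
  have h2 : (δ : P.MF) * ε = 1 := by rw [hε, Units.mul_inv]
  obtain ⟨β, hβ⟩ : ∃ β : P.MF, β = ε * α * δ := ⟨_, rfl⟩
  have h3 : (δ : P.MF) * β = α * δ := by
    rw [hβ, ← Matrix.mul_assoc, ← Matrix.mul_assoc, h2, Matrix.one_mul]
  have h4 : β * ε = ε * α := by rw [hβ, Matrix.mul_assoc, h2, Matrix.mul_one]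
  have h5 : ∀ τ : P.MF, (τ * α = α * τ ∨ τ * α = -(α * τ)) → τ * δ = δ * !![1, x; 0, 1] →
      !![1, x; 0, 1] * β = β * !![1, x; 0, 1] ∨
        !![1, x; 0, 1] * β = -(β * !![1, x; 0, 1]) := fun τ hτ hT => by
    have e1 : !![1, x; 0, 1] * β = ε * (τ * α) * δ := by
      rw [Matrix.mul_assoc, Matrix.mul_assoc, ← h3, ← Matrix.mul_assoc τ, hT,
        ← Matrix.mul_assoc, ← Matrix.mul_assoc, h1, Matrix.one_mul]
    have e2 : β * !![1, x; 0, 1] = ε * (α * τ) * δ := by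
      rw [Matrix.mul_assoc, Matrix.mul_assoc, hT, hβ, Matrix.mul_assoc, Matrix.mul_assoc]
    rw [e1, e2]
    rcases hτ with hτ | hτ
    · exact Or.inl (by rw [hτ])
    · exact Or.inr (by rw [hτ, Matrix.mul_neg, Matrix.neg_mul])
  have h6 : β = !![β 0 0, β 0 1; 0, β 0 0] := by
    refine Line_comm P.two_ne hx ?_
    rcases hδ ρ₀ hρ₀ with hT | hT
    · exact h5 _ hc hT
    · refine h5 (-(ρ₀ : P.MF)) ?_ (by rw [Matrix.neg_mul, hT, neg_neg])
      rcases hc with hc | hc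
      · exact Or.inl (by rw [Matrix.neg_mul, Matrix.mul_neg, hc])
      · exact Or.inr (by rw [Matrix.neg_mul, Matrix.mul_neg, hc])
  have h7 : β 0 1 ≠ 0 := by
    intro h0
    have e1 : β = β 0 0 • (1 : P.MF) := by
      rw [h0] at h6
      refine h6.trans ?_
      ext i j
      fin_cases i <;> fin_cases j <;> simp
    have e2 : α = β 0 0 • (1 : P.MF) := by
      have : α = δ * β * ε := by rw [h3, Matrix.mul_assoc, h2, Matrix.mul_one]
      rw [this]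
      conv_lhs => rw [e1]
      rw [Matrix.mul_smul, Matrix.smul_mul, Matrix.mul_one, h2]
    have e3 := h.1
    rw [e2] at e3
    simp [SP.NonScalar] at e3
  have h8 : (![0, 1] ᵥ* ε) ᵥ* α = β 0 0 • (![0, 1] ᵥ* ε) := by
    rw [Matrix.vecMul_vecMul, ← h4, ← Matrix.vecMul_vecMul, ← Matrix.smul_vecMul]
    congr 1
    conv_lhs => rw [h6]
    ext i
    fin_cases i <;> simp [Matrix.vecMul, dotProduct]
  refine ⟨![0, 1] ᵥ* ε, fun h0 => ?_, fun s' => ?_⟩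
  · have := congrArg (fun w => w ᵥ* (δ : P.MF)) h0
    simp only [Matrix.vecMul_vecMul, h1, Matrix.vecMul_one, Matrix.zero_vecMul] at this
    simpa using congrFun this 1
  · obtain ⟨ρ, hρ, hc'⟩ := h.2 s'
    obtain ⟨w, hw⟩ : ∃ w, w = (![0, 1] ᵥ* ε) ᵥ* (ρ : P.MF) := ⟨_, rfl⟩
    obtain ⟨e, he⟩ : ∃ e : P.F, w ᵥ* α = e • w := by
      rcases hc' with hc' | hc'
      · exact ⟨β 0 0, by
          rw [hw, Matrix.vecMul_vecMul, hc', ← Matrix.vecMul_vecMul, h8, Matrix.smul_vecMul]⟩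
      · exact ⟨-β 0 0, by
          rw [hw, Matrix.vecMul_vecMul, hc', Matrix.vecMul_neg, ← Matrix.vecMul_vecMul, h8,
            Matrix.smul_vecMul, _root_.neg_smul]⟩
    have h9 : (w ᵥ* (δ : P.MF)) 0 = 0 := by
      refine Line_eig (a := β 0 0) (e := e) h7 ?_
      rw [← h6, Matrix.vecMul_vecMul, h3, ← Matrix.vecMul_vecMul, he, Matrix.smul_vecMul]
    refine ⟨ρ, (w ᵥ* (δ : P.MF)) 1, hρ, ?_⟩
    have e1 : w ᵥ* (δ : P.MF) = (w ᵥ* (δ : P.MF)) 1 • ![0, 1] := by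
      ext i
      fin_cases i <;> simp [h9]
    rw [← hw, ← Matrix.smul_vecMul, ← e1, Matrix.vecMul_vecMul, h2, Matrix.vecMul_one]

theorem Line_zero {P : Par} {v : Fin 2 → P.F} {ρ δ : P.MF} {x y : P.F} (hx : x ≠ 0)
    (hT : P.Tv ρ δ x) (h : v ᵥ* ρ = y • v) : (v ᵥ* δ) 0 = 0 := by
  have h1 : v ᵥ* (ρ * δ) = y • (v ᵥ* δ) := by
    rw [← Matrix.vecMul_vecMul, h, Matrix.smul_vecMul]
  rcases hT with hT | hT
  · exact Line_eig (a := 1) (e := y) hx (by rw [Matrix.vecMul_vecMul, ← hT, h1])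
  · refine Line_eig (a := 1) (e := -y) hx ?_
    rw [Matrix.vecMul_vecMul, _root_.neg_smul, ← h1, hT, Matrix.vecMul_neg, neg_neg]

theorem Line_rat {P : Par} {A : Crv} (hA : A.j.den ≠ 1) {v : Fin 2 → P.F} (hv : v ≠ 0)
    (h : ∀ s : ℂ ≃+* ℂ, ∃ (ρ : P.GF) (y : P.F), P.Rho A s ρ ∧ v ᵥ* (ρ : P.MF) = y • v) :
    ∃ G : ℚ, (G : ℂ) = P.uu v A.t := by
  refine fix_rat _ fun u => ?_
  obtain ⟨ρ, y, hρ, hy⟩ := h u.toRingEquiv
  obtain ⟨δ, hδ⟩ := P.gal_one A.J_eq u.toRingEquiv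
  obtain ⟨a, ha, -⟩ := P.uu_fam hv
  have h1 := hδ ⊤ 1 _ a (ha ⊤ (Subring.mem_top _))
  simp only [Units.val_one, Matrix.vecMul_one] at h1
  have h2 := hρ.pm hA (δ := δ) fun w hw => by
    obtain ⟨b, hb⟩ := P.fr_fam hw
    simpa only [Units.val_one, Matrix.vecMul_one] using hδ ⊤ 1 _ b (hb ⊤ (Subring.mem_top _))
  have h3 : y ≠ 0 := fun h0 =>
    P.Unit_vec_ne hv (X := ρ) (Matrix.GeneralLinearGroup.det_ne_zero ρ) (by rw [hy, h0, zero_smul])
  refine h1.trans ?_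
  rcases h2 with h2 | h2
  · rw [← h2, hy, P.uu_smul_vec h3]
  · rw [← neg_eq_iff_eq_neg.2 h2, Matrix.vecMul_neg, hy, ← _root_.neg_smul,
      P.uu_smul_vec (neg_ne_zero.2 h3)]

theorem Line_good {P : Par} {A : Crv} {v : Fin 2 → P.F} (hv : v ≠ 0) {G : ℚ}
    (hG : (G : ℂ) = P.uu v A.t) {l : ℕ} (hl : l.Prime) :
    (padicNorm l G : ℝ) ≤ (l : ℝ) ^ padicValNat l A.j.den := by
  have := Fact.mk hl
  obtain ⟨ι, hι⟩ := exists_place l
  obtain ⟨a, ha, -⟩ := P.uu_fam hv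
  have h1 := (ha (Ai (ι : ℂ →+* PadicComplex l)) (Par.zp_mem_Ai _ _)).int_bound 1 A.t
  simp only [Units.val_one, Matrix.vecMul_one, pow_one, RingHom.coe_coe] at h1
  rwa [← hG, A.J_eq, hι, hι, max_padicNorm hl] at h1

theorem Line_bad {P : Par} {A : Crv} {v : Fin 2 → P.F} (hv : v ≠ 0)
    (h : ∀ s : ℂ ≃+* ℂ, ∃ (ρ : P.GF) (y : P.F), P.Rho A s ρ ∧ v ᵥ* (ρ : P.MF) = y • v) {G : ℚ}
    (hG : (G : ℂ) = P.uu v A.t) {l : ℕ} (hl : l.Prime) (hne : l ≠ P.p)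
    (h0 : 0 < padicValNat l A.j.den) (hd : ¬ P.p ∣ padicValNat l A.j.den) :
    (padicNorm l G : ℝ) ≤ (l : ℝ) ^ (padicValNat l A.j.den - P.p : ℤ) := by
  have := Fact.mk hl
  obtain ⟨L⟩ := P.exists_plc l hne
  obtain ⟨δ, s, hs, hsum, hT⟩ := L.exists_tv A h0
  obtain ⟨ρ, y, hρ, hy⟩ := h L.aut
  obtain ⟨a, ha, ha'⟩ := P.uu_fam hv
  have hx : L.c * (padicValNat l A.j.den : P.F) ≠ 0 :=
    mul_ne_zero L.c_ne (by rwa [Ne, ZMod.natCast_eq_zero_iff])
  have h1 := hsum 1 _ a (ha _ (Par.zp_mem_Ai _ _))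
  simp only [Units.val_one, Matrix.vecMul_one, pow_one, ha' δ (Line_zero hx (hT ρ hρ) hy)] at h1
  have hl1 : (1 : ℝ) < l := by exact_mod_cast hl.one_lt
  have hl0 : (0 : ℝ) < l := by linarith
  have h2 : ‖s‖ ^ P.p < 1 := by
    rw [hs]
    exact inv_lt_one_of_one_lt₀ (one_lt_pow₀ hl1 h0.ne')
  have h3 : ‖s‖ ≤ 1 := ((pow_lt_one_iff_of_nonneg (norm_nonneg _) P.prime.ne_zero).1 h2).le
  have h4 : ‖L.ι (P.uu v A.t) * evq dlc (s ^ P.p)‖ ≤ ‖s‖ ^ P.p ^ 2 := by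
    rw [← h1.tsum_eq]
    refine IsUltrametricDist.norm_tsum_le_of_forall_le fun k => ?_
    split_ifs with hk
    · rcases Nat.eq_zero_or_pos k with rfl | hk0
      · simp [dlc_zero]
      · rw [norm_mul, norm_pow]
        refine (mul_le_of_le_one_left (by positivity) ?_).trans
          (pow_le_pow_of_le_one (norm_nonneg _) h3 (Nat.le_of_dvd hk0 hk))
        rw [map_mul, map_pow, map_natCast, map_intCast, norm_mul, norm_pow, L.norm_p, one_pow,
          one_mul]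
        exact IsUltrametricDist.norm_intCast_le_one _ _
    · simp
  rw [norm_mul, norm_evq_dlc (by rwa [norm_pow]), norm_pow, sq, pow_mul, hs, ← hG, L.norm_rat,
    mul_inv_le_iff₀ (pow_pos hl0 _), inv_pow, ← pow_mul, ← zpow_natCast, ← zpow_natCast,
    ← zpow_neg, ← zpow_add₀ hl0.ne'] at h4
  refine h4.trans (zpow_le_zpow_right₀ hl1.le ?_)
  have h5 : P.p ≤ padicValNat l A.j.den * P.p := Nat.le_mul_of_pos_left _ h0
  omega

theorem line_bound : ∃ C : ℝ, 0 ≤ C ∧ ∀ (P : Par) (A : Crv) (α : P.MF), P.Sgn A α →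
    ∀ S : Finset ℕ, (∀ l ∈ S, l.Prime ∧ l ≠ P.p ∧ 0 < padicValNat l A.j.den ∧
      ¬ P.p ∣ padicValNat l A.j.den) →
    P.p * ∑ l ∈ S, Real.log l ≤ C * (Real.log P.p + Real.log (ht A.j)) := by
  obtain ⟨C₁, h₁⟩ := log_uu_le
  obtain ⟨C₂, h₂⟩ := im_le_log_J
  have hπ := Real.pi_pos
  refine ⟨|C₁| + 2 * Real.pi * |C₂| + 6 + 2 * Real.pi + 1, by positivity, fun P A α hα S hS => ?_⟩
  have hp : 1 ≤ Real.log P.p := by
    rw [Real.le_log_iff_exp_le P.p_pos]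
    have : (5 : ℝ) ≤ P.p := by exact_mod_cast P.five
    linarith [Real.exp_one_lt_three]
  have hh : 0 ≤ Real.log (ht A.j) := Real.log_natCast_nonneg _
  rcases S.eq_empty_or_nonempty with rfl | ⟨l₀, hl₀⟩
  · rw [Finset.sum_empty, mul_zero]
    positivity
  obtain ⟨hl, hne, h0, hd⟩ := hS l₀ hl₀
  have := Fact.mk hl
  obtain ⟨L⟩ := P.exists_plc l₀ hne
  obtain ⟨δ, -, -, -, hT⟩ := L.exists_tv A h0
  obtain ⟨v, hv, h⟩ := hα.exists_line
    (mul_ne_zero L.c_ne (by rwa [Ne, ZMod.natCast_eq_zero_iff])) hT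
  obtain ⟨G, hG⟩ := Line_rat (den_ne_one h0) hv h
  have hG0 : G ≠ 0 := fun h1 => P.uu_ne_zero v A.t (by rw [← hG, h1, Rat.cast_zero])
  have h3 := prod_formula hG0 A.j.den_pos 1 P.p S (fun l hl => (hS l hl).1) fun l hl => by
    rw [one_mul]
    split_ifs with h4
    · exact Line_bad hv h hG hl (hS l h4).2.1 (hS l h4).2.2.1 (hS l h4).2.2.2
    · rw [sub_zero, zpow_natCast]
      exact Line_good hv hG hl
  have h4 : |(G : ℝ)| = ‖P.uu v A.t‖ := by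
    rw [← hG, ← Complex.ofReal_ratCast, Complex.norm_real, Real.norm_eq_abs]
  have h5 := h₁ P v hv A.t A.fd
  have h6 := mul_le_mul_of_nonneg_left ((h₂ A.t A.fd).trans
    (add_le_add (le_abs_self C₂) (log_max_J_le A))) Real.two_pi_pos.le
  have h7 := log_den_le A.j
  have h8 := le_abs_self C₁
  have h9 : (|C₁| + 2 * Real.pi * |C₂|) * 1 ≤ (|C₁| + 2 * Real.pi * |C₂|) * Real.log P.p :=
    mul_le_mul_of_nonneg_left hp (by positivity)
  have h10 : 0 ≤ (|C₁| + 2 * Real.pi * |C₂| + 6) * Real.log (ht A.j) := by positivity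
  have h11 : 0 ≤ (2 * Real.pi + 1) * Real.log P.p := by positivity
  rw [h4] at h3
  push_cast at h3
  linarith

end

end Pool.Agent.P.MP_a60a76_nt.Sz
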