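import Pool.Agent.P.MP_a60a76_nt.Sz.HExp
import Pool.Agent.P.MP_a60a76_nt.Sz.Exp
import Pool.Agent.P.MP_a60a76_nt.Sz.Unit

namespace Pool.Agent.P.MP_a60a76_nt.Sz

open UpperHalfPlane MeasureTheory SP
open scoped MatrixGroups UpperHalfPlane Matrix Modular Topology Classical ArithmeticFunction.sigma

noncomputable section

/-! The expansion of the product in the chamber. -/

namespace Par

variable {P : Par} {c : P.D → ℤ → ℤ}

theorem Log_sv_small (P : Par) {ε : ℝ} (hε : 0 < ε) :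
    ∃ Y : ℝ, ∀ τ : ℍ, Y ≤ τ.im → ‖P.sv τ‖ ≤ ε := by
  refine ⟨P.p * |Real.log ε|, fun τ hτ => ?_⟩
  rw [P.norm_sv, ← Real.exp_log hε, Real.exp_le_exp]
  have hp := P.p_pos
  have h1 : |Real.log ε| ≤ τ.im / P.p := by
    rw [le_div_iff₀ hp]; linarith
  have h2 : τ.im / P.p ≤ 2 * Real.pi * τ.im / P.p := by
    apply div_le_div_of_nonneg_right _ hp.le
    have := Real.pi_gt_three
    have := τ.im_pos
    nlinarith
  have h3 := neg_abs_le (Real.log ε)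
  linarith

theorem GN_hasSum (h : P.IsF 0 c) (t₁ : ℍ) : ∃ Y : ℝ, ∀ t₂ : ℍ, Y ≤ t₂.im →
    Summable (fun N => ‖P.HH c (N + 1) t₁‖ * ‖P.sv t₂‖ ^ (N + 1)) ∧
    HasSum (fun N => P.GN c N t₁ * P.sv t₂ ^ N) (P.uu ![0, 1] t₁ ^ (P.p * P.cp c : ℤ) *
      Complex.exp (-(24 * P.p * ∑' N, P.HH c (N + 1) t₁ * P.sv t₂ ^ (N + 1)))) := by
  obtain ⟨C, hC, hb⟩ := HH_bound h t₁
  have hp1 : (1 : ℝ) ≤ P.p := by exact_mod_cast P.prime.one_lt.le
  have hCC : C ≤ 24 * P.p * C := by nlinarith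
  have hC' : 0 ≤ 24 * P.p * C := hC.trans hCC
  obtain ⟨Y, hY⟩ := P.Log_sv_small (ε := Real.exp (-(24 * P.p * C)) / 2) (by positivity)
  refine ⟨Y, fun t₂ ht => ?_⟩
  have hn : ∀ N, ‖-(24 * (P.p : ℂ) * P.HH c N t₁)‖ = 24 * P.p * ‖P.HH c N t₁‖ := fun N => by
    simp
  have hb' : ∀ N : ℕ, ‖-(24 * (P.p : ℂ) * P.HH c N t₁)‖ ≤
      24 * P.p * C * Real.exp (24 * P.p * C * N) := fun N => by
    rw [hn]
    have h1 := hb N
    have h2 : Real.exp (C * N) ≤ Real.exp (24 * P.p * C * N) :=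
      Real.exp_le_exp.2 (mul_le_mul_of_nonneg_right hCC (Nat.cast_nonneg N))
    calc 24 * P.p * ‖P.HH c N t₁‖ ≤ 24 * P.p * (C * Real.exp (C * N)) := by gcongr
      _ ≤ 24 * P.p * (C * Real.exp (24 * P.p * C * N)) := by gcongr
      _ = _ := by ring
  have ht' : ‖P.sv t₂‖ * Real.exp (24 * P.p * C) < 1 := by
    have h1 := hY t₂ ht
    have h2 : Real.exp (-(24 * P.p * C)) * Real.exp (24 * P.p * C) = 1 := by
      rw [← Real.exp_add]; simp
    have h3 := Real.exp_pos (24 * P.p * C)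
    nlinarith
  obtain ⟨hs, hE⟩ := EE_hasSum (h := fun k => -(24 * (P.p : ℂ) * P.HH c k t₁)) hC' hb' ht'
  constructor
  · refine Summable.of_nonneg_of_le (fun N => by positivity) (fun N => ?_) hs
    rw [hn]
    have := norm_nonneg (P.HH c (N + 1) t₁)
    gcongr
    nlinarith
  · have e : ∑' N, -(24 * (P.p : ℂ) * P.HH c (N + 1) t₁) * P.sv t₂ ^ (N + 1) =
        -(24 * P.p * ∑' N, P.HH c (N + 1) t₁ * P.sv t₂ ^ (N + 1)) := by
      rw [← tsum_mul_left, ← tsum_neg]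
      exact tsum_congr fun N => by ring
    rw [e] at hE
    simpa only [GN, mul_assoc] using hE.mul_left (P.uu ![0, 1] t₁ ^ (P.p * P.cp c : ℤ))

theorem Log_geo (P : Par) (C : ℝ) :
    Summable fun i : ℕ × ℕ × P.F => C * ((1 / 2 : ℝ) ^ i.1 * (1 / 2 : ℝ) ^ i.2.1) := by
  have h1 : Summable fun n : ℕ => (1 / 2 : ℝ) ^ n := summable_geometric_two
  have h2 : Summable fun _ : P.F => (1 : ℝ) := Summable.of_finite
  have h3 : Summable fun i : ℕ × P.F => (1 / 2 : ℝ) ^ i.1 * 1 :=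
    h1.mul_of_nonneg h2 (fun _ => by positivity) (fun _ => zero_le_one)
  have h4 := h1.mul_of_nonneg h3 (fun _ => by positivity) (fun _ => by positivity)
  simpa using h4.mul_left C

/-- Summability of the exponents high in the half plane. -/
theorem Log_summ (h : P.IsF 0 c) : ∃ ε : ℝ, 0 < ε ∧ ε ≤ 1 / 2 ∧ ∀ (X : P.MF) (s t : ℂ),
    ‖s‖ ≤ ε → ‖t‖ ≤ ε → Summable fun i : ℕ × ℕ × P.F =>
      |(P.ex c X (-(i.1 : ℤ)) i.2.2 i.2.1 : ℝ)| * (‖s‖ ^ i.1 * ‖t‖ ^ i.2.1) := by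
  obtain ⟨C, hC, hb⟩ := ex_bound h
  have hε : Real.exp (-C) / 2 ≤ 1 / 2 := by
    have : Real.exp (-C) ≤ 1 := Real.exp_le_one_iff.2 (by linarith)
    linarith
  refine ⟨Real.exp (-C) / 2, by positivity, hε, fun X s t hs ht => ?_⟩
  refine Summable.of_nonneg_of_le (fun i => by positivity) (fun i => ?_) (P.Log_geo C)
  have h1 := hb X (-(i.1 : ℤ)) i.2.2 i.2.1
  have h2 : Real.exp (C * (|((-(i.1 : ℤ) : ℤ) : ℝ)| + |((i.2.1 : ℤ) : ℝ)|)) =
      Real.exp C ^ i.1 * Real.exp C ^ i.2.1 := by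
    rw [← Real.exp_nat_mul, ← Real.exp_nat_mul, ← Real.exp_add]
    congr 1
    simp
    ring
  rw [h2] at h1
  have h3 : ∀ z : ℂ, ‖z‖ ≤ Real.exp (-C) / 2 → Real.exp C * ‖z‖ ≤ 1 / 2 := fun z hz => by
    have e : Real.exp C * Real.exp (-C) = 1 := by rw [← Real.exp_add]; simp
    have := Real.exp_pos C
    nlinarith
  calc _ ≤ C * (Real.exp C ^ i.1 * Real.exp C ^ i.2.1) * (‖s‖ ^ i.1 * ‖t‖ ^ i.2.1) := by gcongr
    _ = C * ((Real.exp C * ‖s‖) ^ i.1 * (Real.exp C * ‖t‖) ^ i.2.1) := by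
      rw [mul_pow, mul_pow]; ring
    _ ≤ _ := by
      have := h3 s hs
      have := h3 t ht
      gcongr

theorem Log_Pf (c : P.D → ℤ → ℤ) (X : P.MF) (s t : ℂ) :
    Ab (RingHom.id ℂ) (P.Pf c X) s t ∧ ev (RingHom.id ℂ) (P.Pf c X) s t =
      ∏ i ∈ P.box c, ∏ b, (P.zp b * s ^ i.1 - t ^ i.2) ^ (P.ex c X i.1 b i.2).toNat := by
  have h1 : ∀ (i : ℕ × ℕ) (b : P.F), Ab (RingHom.id ℂ)
      ((mono (P.zp b) i.1 0 - mono 1 0 i.2) ^ (P.ex c X i.1 b i.2).toNat) s t ∧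
      ev (RingHom.id ℂ) ((mono (P.zp b) i.1 0 - mono 1 0 i.2) ^ (P.ex c X i.1 b i.2).toNat) s t =
        (P.zp b * s ^ i.1 - t ^ i.2) ^ (P.ex c X i.1 b i.2).toNat := fun i b => by
    have a1 := ab_mono (RingHom.id ℂ) (P.zp b) i.1 0 s t
    have a2 := ab_mono (RingHom.id ℂ) 1 0 i.2 s t
    have a3 := a1.1.sub a2.1
    have a4 := a3.1.pow (P.ex c X i.1 b i.2).toNat
    refine ⟨a4.1, ?_⟩
    rw [a4.2, a3.2, a1.2, a2.2]
    simp
  have h2 : ∀ i : ℕ × ℕ, Ab (RingHom.id ℂ)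
      (∏ b, (mono (P.zp b) i.1 0 - mono 1 0 i.2) ^ (P.ex c X i.1 b i.2).toNat) s t ∧
      ev (RingHom.id ℂ)
        (∏ b, (mono (P.zp b) i.1 0 - mono 1 0 i.2) ^ (P.ex c X i.1 b i.2).toNat) s t =
        ∏ b, (P.zp b * s ^ i.1 - t ^ i.2) ^ (P.ex c X i.1 b i.2).toNat := fun i => by
    have a := ab_prod (φ := RingHom.id ℂ) (s := s) (t := t) Finset.univ
      (a := fun b => (mono (P.zp b) i.1 0 - mono 1 0 i.2) ^ (P.ex c X i.1 b i.2).toNat)
      fun b _ => (h1 i b).1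
    exact ⟨a.1, a.2.trans (Finset.prod_congr rfl fun b _ => (h1 i b).2)⟩
  have a := ab_prod (φ := RingHom.id ℂ) (s := s) (t := t) (P.box c)
    (a := fun i => ∏ b, (mono (P.zp b) i.1 0 - mono 1 0 i.2) ^ (P.ex c X i.1 b i.2).toNat)
    fun i _ => (h2 i).1
  exact ⟨a.1, a.2.trans (Finset.prod_congr rfl fun i _ => (h2 i).2)⟩

theorem ab_Ps_high (h : P.IsF 0 c) : ∃ Y : ℝ, ∀ (X : P.MF) (t₁ t₂ : ℍ), Y ≤ t₁.im → Y ≤ t₂.im →
    Ab (RingHom.id ℂ) (P.Ps c X) (P.sv t₁) (P.sv t₂) := by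
  obtain ⟨ε, h0, h1, hs⟩ := Log_summ h
  obtain ⟨Y, hY⟩ := P.Log_sv_small h0
  refine ⟨Y, fun X t₁ t₂ a1 a2 => ?_⟩
  have b := P.hasProd_Us (fun a d b => P.ex c X (-(a : ℤ)) b d) ((hY t₁ a1).trans h1)
    ((hY t₂ a2).trans h1) (hs X _ _ (hY t₁ a1) (hY t₂ a2))
  exact ((Log_Pf c X _ _).1.mul b.1).1

/-- Splitting of a product according to the sign of the first exponent. -/
theorem Log_split {M F : Type} [CommMonoid M] [TopologicalSpace M] [ContinuousMul M] [Fintype F]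
    (f : F → ℤ → ℕ → M) (L : ℕ) (hf : ∀ b (α : ℤ) (d : ℕ), (L : ℤ) < α * d → f b α d = 1) {B : M}
    (hB : HasProd (fun i : ℕ × ℕ × F => f i.2.2 (-(i.1 : ℤ)) (i.2.1 + 1)) B) :
    HasProd (fun a : (F × ℤ) × ℕ => f a.1.1 a.1.2 (a.2 + 1))
      ((∏ i ∈ Finset.Icc 1 L ×ˢ Finset.Icc 1 L, ∏ b, f b i.1 i.2) * B) := by
  let j1 : (ℕ × ℕ) × F → (F × ℤ) × ℕ := fun x => ((x.2, (x.1.1 : ℤ)), x.1.2 - 1)
  let j2 : ℕ × ℕ × F → (F × ℤ) × ℕ := fun i => ((i.2.2, -(i.1 : ℤ)), i.2.1)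
  have inj2 : Function.Injective j2 := by
    rintro ⟨a, d, b⟩ ⟨a', d', b'⟩ e
    simp only [j2, Prod.mk.injEq, neg_inj, Nat.cast_inj] at e
    obtain ⟨⟨rfl, rfl⟩, rfl⟩ := e
    rfl
  have h2 : HasProd (fun a : (F × ℤ) × ℕ => if a.1.2 ≤ 0 then f a.1.1 a.1.2 (a.2 + 1) else 1)
      B := by
    rw [← inj2.hasProd_iff]
    · refine hB.congr_fun fun i => ?_
      simp [j2]
    · rintro ⟨⟨b, α⟩, d⟩ hx
      rw [if_neg]
      intro hα
      refine hx ⟨((-α).toNat, d, b), ?_⟩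
      simp only [j2, Prod.mk.injEq, true_and, and_true]
      simp only at hα
      omega
  have h1 : HasProd (fun a : (F × ℤ) × ℕ => if a.1.2 ≤ 0 then 1 else f a.1.1 a.1.2 (a.2 + 1))
      (∏ i ∈ Finset.Icc 1 L ×ˢ Finset.Icc 1 L, ∏ b, f b i.1 i.2) := by
    have e : (∏ i ∈ Finset.Icc 1 L ×ˢ Finset.Icc 1 L, ∏ b, f b i.1 i.2) =
        ∏ a ∈ ((Finset.Icc 1 L ×ˢ Finset.Icc 1 L) ×ˢ Finset.univ).image j1,
          if a.1.2 ≤ 0 then 1 else f a.1.1 a.1.2 (a.2 + 1) := by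
      rw [Finset.prod_image, Finset.prod_product (Finset.Icc 1 L ×ˢ Finset.Icc 1 L)]
      · refine Finset.prod_congr rfl fun i hi => Finset.prod_congr rfl fun b _ => ?_
        simp only [Finset.mem_product, Finset.mem_Icc] at hi
        simp only [j1]
        rw [if_neg (by omega), Nat.sub_add_cancel hi.2.1]
      · rintro ⟨⟨a, d⟩, b⟩ hx ⟨⟨a', d'⟩, b'⟩ hy e
        simp only [Finset.coe_product, Finset.coe_Icc, Set.mem_prod, Set.mem_Icc] at hx hy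
        simp only [j1, Prod.mk.injEq, Nat.cast_inj] at e
        obtain ⟨⟨rfl, rfl⟩, e⟩ := e
        have : d = d' := by omega
        subst this
        rfl
    rw [e]
    refine hasProd_prod_of_ne_finset_one ?_
    rintro ⟨⟨b, α⟩, d⟩ hx
    split_ifs with hα
    · rfl
    · apply hf
      by_contra hL
      simp only [not_le, not_lt] at hα hL
      apply hx
      refine Finset.mem_image.2 ⟨((α.toNat, d + 1), b), ?_, ?_⟩
      · simp only [Finset.mem_product, Finset.mem_Icc, Finset.mem_univ, and_true]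
        push_cast at hL
        have h3 : α ≤ α * (d + 1) := le_mul_of_one_le_right hα.le (by omega)
        have h4 : (d + 1 : ℤ) ≤ α * (d + 1) := le_mul_of_one_le_left (by omega) (by omega)
        omega
      · simp only [j1, Prod.mk.injEq, true_and]
        omega
  refine (h1.mul h2).congr_fun fun a => ?_
  split_ifs <;> simp

theorem Log_split_add {F : Type} [Fintype F] (f : F → ℤ → ℕ → ℝ) (L : ℕ)
    (hf : ∀ b (α : ℤ) (d : ℕ), (L : ℤ) < α * d → f b α d = 0)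
    (hB : Summable fun i : ℕ × ℕ × F => f i.2.2 (-(i.1 : ℤ)) (i.2.1 + 1)) :
    Summable fun a : (F × ℤ) × ℕ => f a.1.1 a.1.2 (a.2 + 1) := by
  obtain ⟨B, hB⟩ := hB
  exact ⟨_, Log_split (M := Multiplicative ℝ) (fun b α d => Multiplicative.ofAdd (f b α d)) L
    (fun b α d h => congrArg Multiplicative.ofAdd (hf b α d h)) (B := Multiplicative.ofAdd B) hB⟩

theorem Log_ee (P : Par) (α : ℤ) (τ : ℍ) : ee (-α * τ / P.p) = P.sv τ ^ (-α) := by
  rw [sv, ← ee_int_mul]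
  congr 1
  push_cast
  ring

/-- The exponential of the Hecke sums as a product. -/
theorem Log_prod (h : P.IsF 0 c) (g : SL(2, ℤ)) (t₁ : ℍ) {t : ℂ} (h0 : t ≠ 0)
    (ht : ‖t‖ ≤ ‖P.sv t₁‖ ^ P.lo c / 2)
    (hs : Summable fun i : ℕ × ℕ × P.F =>
      |(P.ex c (P.Dm * red P.p g) (-(i.1 : ℤ)) i.2.2 i.2.1 : ℝ)| *
        (‖P.sv t₁‖ ^ i.1 * ‖t‖ ^ i.2.1)) :
    HasProd (fun a : (P.F × ℤ) × ℕ => (1 - P.zp (-a.1.1) * P.sv t₁ ^ (-a.1.2) * t ^ (a.2 + 1)) ^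
        P.ex c (P.Dm * red P.p g) a.1.2 a.1.1 (a.2 + 1 : ℕ))
      (Complex.exp (-(24 * P.p * ∑' N, P.HH c (N + 1) (g • t₁) * t ^ (N + 1)))) := by
  set X := P.Dm * red P.p g with hX
  have s0 : 0 < ‖P.sv t₁‖ := norm_pos_iff.2 (P.sv_ne_zero t₁)
  have s1 : ‖P.sv t₁‖ ≤ 1 := (P.norm_sv_lt_one t₁).le
  have hn : ∀ (b : P.F) (α : ℤ), ‖P.zp (-b) * P.sv t₁ ^ (-α)‖ = ‖P.sv t₁‖ ^ (-α) := fun b α => by
    rw [norm_mul, norm_zp, norm_zpow, one_mul]
  have t1 : ‖t‖ ≤ 1 := by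
    have := pow_le_one₀ (n := P.lo c) s0.le s1
    linarith
  have key := hasProd_of_log (ι := P.F × ℤ) (e := fun i d => P.ex c X i.2 i.1 d)
    (x := fun i => P.zp (-i.1) * P.sv t₁ ^ (-i.2)) (t := t) ?_ ?_ h0
  · have e : ∑' N : ℕ, -(∑ y ∈ (N + 1).divisorsAntidiagonal, (y.1 : ℂ)⁻¹ *
        ∑' i : P.F × ℤ, (P.ex c X i.2 i.1 y.2 : ℂ) * (P.zp (-i.1) * P.sv t₁ ^ (-i.2)) ^ y.1) *
          t ^ (N + 1) = -(24 * P.p * ∑' N, P.HH c (N + 1) (g • t₁) * t ^ (N + 1)) := by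
      rw [← tsum_mul_left, ← tsum_neg]
      refine tsum_congr fun N => ?_
      rw [← mul_assoc, HH_expand h g N.succ_pos, neg_mul]
      congr 2
      refine Finset.sum_congr rfl fun y hy => ?_
      have hy' := Nat.mem_divisorsAntidiagonal.1 hy
      have y1 : 0 < y.1 := Nat.pos_of_ne_zero fun e => by simp [e] at hy'
      have y2 : 0 < y.2 := Nat.pos_of_ne_zero fun e => by simp [e] at hy'
      have hsb := fun b => summable_ex h X y1 y2 b t₁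
      simp only [Log_ee] at hsb ⊢
      have hS : Summable fun i : P.F × ℤ =>
          (P.ex c X i.2 i.1 y.2 : ℂ) * (P.zp (-i.1) * P.sv t₁ ^ (-i.2)) ^ y.1 := by
        rw [← summable_norm_iff, summable_prod_of_nonneg fun _ => norm_nonneg _]
        exact ⟨fun b => summable_norm_iff.2 (hsb b), Summable.of_finite⟩
      rw [hS.tsum_prod, tsum_fintype]
    rw [e] at key
    exact key
  · rintro ⟨b, α⟩ d hne
    simp only at hne ⊢
    have hL : α ≤ P.lo c := by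
      by_contra hc
      refine hne (ex_eq_zero h X ?_ b)
      have h3 : α ≤ α * (d + 1 : ℕ) := le_mul_of_one_le_right (by omega) (by omega)
      omega
    rw [hn]
    have a1 : ‖P.sv t₁‖ ^ (-α) ≤ ‖P.sv t₁‖ ^ (-(P.lo c : ℤ)) :=
      zpow_le_zpow_right_of_le_one₀ s0 s1 (by omega)
    have a2 : ‖t‖ ^ (d + 1) ≤ ‖t‖ := pow_le_of_le_one (norm_nonneg _) t1 d.succ_ne_zero
    calc _ ≤ ‖P.sv t₁‖ ^ (-(P.lo c : ℤ)) * (‖P.sv t₁‖ ^ P.lo c / 2) := by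
          have := a2.trans ht
          gcongr
      _ = 1 / 2 := by
          rw [zpow_neg, zpow_natCast]
          field_simp
  · have inj : Function.Injective fun i : ℕ × ℕ × P.F => (i.1, i.2.1 + 1, i.2.2) := by
      rintro ⟨a, d, b⟩ ⟨a', d', b'⟩ e
      simp only [Prod.mk.injEq, Nat.add_right_cancel_iff] at e
      obtain ⟨rfl, rfl, rfl⟩ := e
      rfl
    refine Log_split_add (fun b α d => |(P.ex c X α b d : ℝ)| *
      (‖P.zp (-b) * P.sv t₁ ^ (-α)‖ * ‖t‖ ^ d)) (P.lo c) ?_ ?_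
    · intro b α d hL
      simp [ex_eq_zero h X hL b]
    · refine (hs.comp_injective inj).congr fun i => ?_
      simp [norm_zp]

theorem Log_row (P : Par) (g : SL(2, ℤ)) :
    (![0, 1] ᵥ* red P.p g : Fin 2 → P.F) ≠ 0 ∧
      (![0, 1] ᵥ* red P.p g : Fin 2 → P.F) 0 = (P.Dm * red P.p g) 1 0 ∧
      (![0, 1] ᵥ* red P.p g : Fin 2 → P.F) 1 = (P.Dm * red P.p g) 1 1 := by
  refine ⟨fun e => ?_, ?_, ?_⟩
  · have e0 := congrFun e 0
    have e1 := congrFun e 1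
    simp [Matrix.vecMul, dotProduct, red] at e0 e1
    have hd := g.det_coe
    rw [Matrix.det_fin_two] at hd
    have := congrArg (Int.cast : ℤ → P.F) hd
    push_cast at this
    rw [e0, e1] at this
    simp at this
  · simp [Matrix.vecMul, dotProduct, Dm, Matrix.mul_apply]
  · simp [Matrix.vecMul, dotProduct, Dm, Matrix.mul_apply]

/-- The value of the infinite product splits off the modular unit. -/
theorem Log_Us (h : P.IsF0 c) (g : SL(2, ℤ)) (t₁ : ℍ) {t : ℂ} (s1 : ‖P.sv t₁‖ ≤ 1 / 2)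
    (t1 : ‖t‖ ≤ 1 / 2)
    (hs : Summable fun i : ℕ × ℕ × P.F =>
      |(P.ex c (P.Dm * red P.p g) (-(i.1 : ℤ)) i.2.2 i.2.1 : ℝ)| *
        (‖P.sv t₁‖ ^ i.1 * ‖t‖ ^ i.2.1)) :
    ∃ B : ℂ, HasProd (fun i : ℕ × ℕ × P.F =>
        (1 - P.zp (-i.2.2) * P.sv t₁ ^ (-(-(i.1 : ℤ))) * t ^ (i.2.1 + 1)) ^
          P.ex c (P.Dm * red P.p g) (-(i.1 : ℤ)) i.2.2 (i.2.1 + 1 : ℕ)) B ∧
      ev (RingHom.id ℂ) (P.Us fun a d b => P.ex c (P.Dm * red P.p g) (-(a : ℤ)) b d)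
        (P.sv t₁) t = B * (P.uu ![0, 1] (g • t₁) ^ (P.p * P.cp c : ℤ) /
          (P.CC c (P.Dm * red P.p g) * P.sv t₁ ^ ((if (P.Dm * red P.p g) 1 0 = 0 then
            (P.p : ℤ) * (P.p - 1) else 1 - P.p) * (P.p * P.cp c)))) := by
  obtain ⟨v0, v1, v2⟩ := P.Log_row g
  have hu := P.uu_hasProd v0 (P.cp c) t₁
  rw [v1, v2, ← P.uu_smul (by simp) g t₁] at hu
  set X := P.Dm * red P.p g with hX
  have a1 := (P.hasProd_Us (fun a d b => P.ex c X (-(a : ℤ)) b d) s1 t1 hs).2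
  have a2 := (P.hasProd_Us (fun a d b => if d = 0 then 0 else P.ex c X (-(a : ℤ)) b d) s1 t1
    (Summable.of_nonneg_of_le (fun i => by positivity) (fun i => by
      split_ifs
      · simp only [Int.cast_zero, abs_zero, zero_mul]
        positivity
      · exact le_rfl) hs)).2
  have inj : Function.Injective fun i : ℕ × ℕ × P.F => (i.1, i.2.1 + 1, i.2.2) := by
    rintro ⟨a, d, b⟩ ⟨a', d', b'⟩ e
    simp only [Prod.mk.injEq, Nat.add_right_cancel_iff] at e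
    obtain ⟨rfl, rfl, rfl⟩ := e
    rfl
  have inj' : Function.Injective fun i : ℕ × P.F => ((i.1 + 1, 0, i.2) : ℕ × ℕ × P.F) := by
    rintro ⟨a, b⟩ ⟨a', b'⟩ e
    simp only [Prod.mk.injEq, Nat.add_right_cancel_iff, true_and] at e
    obtain ⟨rfl, rfl⟩ := e
    rfl
  have a3 : HasProd (fun i : ℕ × ℕ × P.F => if i.1 ≠ 0 ∧ i.2.1 = 0 then
      (1 - P.zp (-i.2.2) * P.sv t₁ ^ i.1) ^ P.ex c X (-(i.1 : ℤ)) i.2.2 0 else 1)
      (P.uu ![0, 1] (g • t₁) ^ (P.p * P.cp c : ℤ) /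
        (P.CC c X * P.sv t₁ ^ ((if X 1 0 = 0 then
          (P.p : ℤ) * (P.p - 1) else 1 - P.p) * (P.p * P.cp c)))) := by
    rw [← inj'.hasProd_iff]
    · refine hu.congr_fun fun i => ?_
      simp only [Function.comp_apply, ne_eq, Nat.add_eq_zero_iff, one_ne_zero, and_false,
        not_false_eq_true, and_self, if_true]
      rw [ex_zero_right h]
      congr 1
      push_cast
      rw [mul_assoc]
    · rintro ⟨a, d, b⟩ hx
      rw [if_neg]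
      rintro ⟨ha, hd⟩
      simp only at ha hd
      subst hd
      refine hx ⟨(a - 1, b), ?_⟩
      simp only [Prod.mk.injEq, and_true]
      omega
  refine ⟨_, ?_, a1.unique ((a2.mul a3).congr_fun ?_)⟩
  · rw [← inj.hasProd_iff] at a2
    · refine a2.congr_fun fun i => ?_
      simp [mul_assoc]
    · rintro ⟨a, d, b⟩ hx
      have hd : d = 0 := by
        by_contra hd
        refine hx ⟨(a, d - 1, b), ?_⟩
        simp only [Prod.mk.injEq, and_true, true_and]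
        omega
      simp [hd]
  · rintro ⟨a, d, b⟩
    by_cases hd : d = 0
    · by_cases ha : a = 0 <;> simp [hd, ha]
    · simp [hd]

/-- The value of the finite product. -/
theorem Log_fin (hp : P.Pos c) (X : P.MF) {s : ℂ} (hs : s ≠ 0) (t : ℂ) :
    ev (RingHom.id ℂ) (P.Pf c X) s t =
      s ^ (∑ i ∈ P.box c, ∑ b, (i.1 : ℤ) * P.ex c X i.1 b i.2) *
        ∏ i ∈ P.box c, ∏ b, (1 - P.zp (-b) * s ^ (-(i.1 : ℤ)) * t ^ i.2) ^ P.ex c X i.1 b i.2 := by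
  have hz : ∀ {ι : Type} (S : Finset ι) (f : ι → ℤ), s ^ (∑ i ∈ S, f i) = ∏ i ∈ S, s ^ f i := by
    intro ι S f
    induction S using Finset.induction_on with
    | empty => simp
    | insert a S ha ih => rw [Finset.sum_insert ha, Finset.prod_insert ha, zpow_add₀ hs, ih]
  rw [(Log_Pf c X s t).2, hz, ← Finset.prod_mul_distrib]
  refine Finset.prod_congr rfl fun i hi => ?_
  rw [hz, ← Finset.prod_mul_distrib]
  refine Finset.prod_congr rfl fun b _ => ?_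
  simp only [box, Finset.mem_product, Finset.mem_Icc] at hi
  have i1 : (0 : ℤ) < i.1 := by omega
  have i2 : (0 : ℤ) < i.2 := by omega
  have he : 0 ≤ P.ex c X i.1 b i.2 :=
    add_nonneg (exU_nonneg hp X i1 i2 b) (exI_nonneg hp X i1 i2 b)
  obtain ⟨k, hk⟩ := ex_dvd c X i.1 b i.2
  have hzp : P.zp b ^ P.ex c X i.1 b i.2 = 1 := by
    rw [hk, show (2 * P.p : ℤ) * k = P.p * (2 * k) by ring, zpow_mul, zpow_natCast, zp_pow_p,
      one_zpow]
  have hb : P.zp b * P.zp (-b) = 1 := by rw [← zp_add, add_neg_cancel, zp_zero]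
  have e : P.zp b * s ^ i.1 - t ^ i.2 =
      P.zp b * (s ^ (i.1 : ℤ) * (1 - P.zp (-b) * s ^ (-(i.1 : ℤ)) * t ^ i.2)) := by
    rw [zpow_neg, zpow_natCast]
    have : s ^ i.1 ≠ 0 := pow_ne_zero _ hs
    field_simp
    linear_combination (t ^ i.2) * hb
  rw [← zpow_natCast, Int.toNat_of_nonneg he, e, mul_zpow, mul_zpow, hzp, one_mul, zpow_mul]

theorem GN_hasSum_Ps (h : P.IsF0 c) (hp : P.Pos c) : ∃ Y₀ : ℝ, ∀ (g : SL(2, ℤ)) (t₁ : ℍ),
    Y₀ ≤ t₁.im → ∃ Y : ℝ, ∀ t₂ : ℍ, Y ≤ t₂.im →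
      HasSum (fun N => P.GN c N (g • t₁) * P.sv t₂ ^ N)
        (P.CC c (P.Dm * red P.p g) * P.sv t₁ ^ P.xx c (P.Dm * red P.p g) *
          ev (RingHom.id ℂ) (P.Ps c (P.Dm * red P.p g)) (P.sv t₁) (P.sv t₂)) := by
  obtain ⟨ε, h0, h1, hs⟩ := Log_summ h.toIsF
  obtain ⟨Y₀, hY₀⟩ := P.Log_sv_small h0
  refine ⟨Y₀, fun g t₁ a1 => ?_⟩
  have s0 : 0 < ‖P.sv t₁‖ := norm_pos_iff.2 (P.sv_ne_zero t₁)
  obtain ⟨Y₁, hY₁⟩ := GN_hasSum h.toIsF (g • t₁)
  obtain ⟨Y₂, hY₂⟩ := P.Log_sv_small (ε := ‖P.sv t₁‖ ^ P.lo c / 2) (by positivity)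
  refine ⟨max Y₀ (max Y₁ Y₂), fun t₂ ht => ?_⟩
  simp only [max_le_iff] at ht
  obtain ⟨a2, a3, a4⟩ := ht
  have hsum := hs (P.Dm * red P.p g) _ _ (hY₀ t₁ a1) (hY₀ t₂ a2)
  have b1 := Log_prod h.toIsF g t₁ (P.sv_ne_zero t₂) (hY₂ t₂ a4) hsum
  obtain ⟨B, b2, b3⟩ := Log_Us h g t₁ ((hY₀ t₁ a1).trans h1) ((hY₀ t₂ a2).trans h1) hsum
  have b4 := Log_split (fun b α d => (1 - P.zp (-b) * P.sv t₁ ^ (-α) * P.sv t₂ ^ d) ^
    P.ex c (P.Dm * red P.p g) α b d) (P.lo c)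
    (fun b α d hL => by rw [ex_eq_zero h.toIsF _ hL, zpow_zero]) b2
  have b5 := b1.unique b4
  have b6 := (hY₁ t₂ a3).2
  have b7 := (Log_Pf c (P.Dm * red P.p g) (P.sv t₁) (P.sv t₂)).1.mul
    (P.hasProd_Us (fun a d b => P.ex c (P.Dm * red P.p g) (-(a : ℤ)) b d)
      ((hY₀ t₁ a1).trans h1) ((hY₀ t₂ a2).trans h1) hsum).1
  rw [b5] at b6
  rw [Ps, b7.2, b3, Log_fin hp _ (P.sv_ne_zero t₁), xx, zpow_sub₀ (P.sv_ne_zero t₁), box]
  have c1 := CC_ne_zero c (P.Dm * red P.p g)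
  have c2 := fun n : ℤ => zpow_ne_zero n (P.sv_ne_zero t₁)
  have alg : ∀ C x y A u : ℂ, C ≠ 0 → x ≠ 0 → y ≠ 0 →
      C * (x / y) * (y * A * (B * (u / (C * x)))) = u * (A * B) := by
    intro C x y A u a b d
    field_simp
  rw [alg _ _ _ _ _ c1 (c2 _) (c2 _)]
  exact b6

/-- The columns of the product are expansions of modular functions. -/
theorem GN_qs (h : P.IsF0 c) (hp : P.Pos c) (g : SL(2, ℤ)) (N : ℕ) :
    QS P.p (fun ν => if P.xx c (P.Dm * red P.p g) ≤ ν then P.CC c (P.Dm * red P.p g) *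
        MvPowerSeries.coeff (ixx (ν - P.xx c (P.Dm * red P.p g)).toNat N)
          (P.Ps c (P.Dm * red P.p g)) else 0)
      fun τ => P.GN c N (g • τ) := by
  have hp0 : 0 < P.p := P.prime.pos
  obtain ⟨a, ha⟩ : ∃ a, QS P.p a fun τ => P.GN c N (g • τ) := by
    have q1 := P.uu_qs (![0, 1] ᵥ* red P.p g) (P.p * P.cp c)
    have q2 := EE_qs (M := P.p) (h := fun k τ => -(24 * P.p * P.HH c k (g • τ))) (fun k => by
      obtain ⟨a, ha⟩ := HH_qs h.toIsF g k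
      exact ⟨_, (ha.const_mul (-(24 * P.p))).congr (fun _ => rfl) fun τ => by ring⟩) N
    obtain ⟨a, ha⟩ := QS.exists_mul q1 q2
    refine ⟨a, ha.congr (fun _ => rfl) fun τ => ?_⟩
    rw [GN, P.uu_smul (by simp) g τ]
  obtain ⟨Y₀, hY₀⟩ := GN_hasSum_Ps h hp
  obtain ⟨Y₁, hY₁⟩ := ab_Ps_high h.toIsF
  set X := P.Dm * red P.p g with hX
  refine ha.congr (congrFun (coeff_unique hp0 (max Y₀ Y₁) fun τ hτ => ?_)) fun _ => rfl
  simp only [max_le_iff] at hτ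
  refine ⟨_, ha.sum τ, ?_⟩
  obtain ⟨Y, hY⟩ := hY₀ g τ hτ.1
  have hsm : Summable fun m => MvPowerSeries.coeff (ixx m N) (P.Ps c X) * P.sv τ ^ m :=
    (summable_mul_right_iff (pow_ne_zero N (P.sv_ne_zero τ))).1
      ((hY₁ X τ τ hτ.2 hτ.2).hasSum_snd.1 N)
  have key : (fun n => P.GN c n (g • τ)) = fun n => P.CC c X * P.sv τ ^ P.xx c X *
      ∑' m, MvPowerSeries.coeff (ixx m n) (P.Ps c X) * P.sv τ ^ m := by
    refine pow_unique (r := min 1 (Real.exp (-(2 * Real.pi * max Y Y₁ / P.p))))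
      (by positivity) fun t t0 ht => ?_
    rw [lt_min_iff] at ht
    obtain ⟨t₂, rfl⟩ := P.exists_sv t0 ht.1
    have him : max Y Y₁ ≤ t₂.im := by
      have h1 := ht.2
      rw [norm_sv, Real.exp_lt_exp, neg_lt_neg_iff, div_lt_div_iff_of_pos_right P.p_pos] at h1
      exact (lt_of_mul_lt_mul_left h1 (by positivity)).le
    rw [max_le_iff] at him
    refine ⟨_, hY t₂ him.1, ?_⟩
    refine ((hY₁ X τ t₂ hτ.2 him.2).hasSum_snd.2.mul_left
      (P.CC c X * P.sv τ ^ P.xx c X)).congr_fun fun n => ?_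
    rw [tsum_mul_right, mul_assoc]
    rfl
  have inj : Function.Injective fun m : ℕ => P.xx c X + m := fun m m' e => by
    simpa using e
  rw [← inj.hasSum_iff]
  · rw [congrFun key N]
    refine (hsm.hasSum.mul_left (P.CC c X * P.sv τ ^ P.xx c X)).congr_fun fun m => ?_
    have e : ee (((P.xx c X + m : ℤ) : ℂ) * τ / P.p) = P.sv τ ^ P.xx c X * P.sv τ ^ m := by
      rw [← zpow_natCast, ← zpow_add₀ (P.sv_ne_zero τ), sv, ← ee_int_mul, mul_div_assoc]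
    simp only [Function.comp_apply, le_add_iff_nonneg_right, Nat.cast_nonneg, if_true,
      add_sub_cancel_left, Int.toNat_natCast, e]
    ring
  · intro ν hν
    rw [if_neg, zero_mul]
    intro hle
    exact hν ⟨(ν - P.xx c X).toNat, by simp only; omega⟩

end Par

end

end Pool.Agent.P.MP_a60a76_nt.Sz
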