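import Pool.Agent.P.MP_a60a76_nt.Sz.Zq
import Pool.Agent.P.MP_a60a76_nt.Sz.Conj

namespace Pool.Agent.P.MP_a60a76_nt.Sz

open UpperHalfPlane hiding J
open MeasureTheory SP
open scoped MatrixGroups UpperHalfPlane Matrix Modular Topology Classical ArithmeticFunction.sigma

noncomputable section

/-! Invariant functions are polynomials in the modular invariant. -/

variable {K : Type} [NormedField K] [IsUltrametricDist K] {ι : ℂ →+* K} {F : ℍ → ℂ}

theorem poly_J_ext {Q Q' : Polynomial ℂ} (h : ∀ τ, Q.eval (J τ) = Q'.eval (J τ)) : Q = Q' := by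
  refine Polynomial.funext fun z => ?_
  obtain ⟨τ, rfl⟩ := J_surj z
  exact h τ

theorem Lv1_const {c : ℤ → ℂ} (h : QS 1 c F)
    (hi : ∀ (g : SL(2, ℤ)) (τ : ℍ), F (g • τ) = F τ) (h0 : ∀ ν < 0, c ν = 0) (τ : ℍ) :
    F τ = c 0 := by
  obtain ⟨C, -, h4⟩ := h.bound one_pos h0 (y := 1 / 2) (by norm_num)
  have hm : Mod 0 F := by
    refine ⟨h.hol one_pos, C, fun γ t ht => ?_⟩
    have hy : 1 / 2 ≤ t.im := by
      nlinarith [ModularGroup.three_le_four_mul_im_sq_of_mem_fd ht, t.im_pos]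
    rw [hi]
    simpa using h4 t hy
  obtain ⟨k, hk⟩ := poly_zero hm hi
  have h1 : QS 1 (fun ν => if ν = 0 then k else 0) F :=
    (QS.single 1 0 k).congr (fun _ => rfl) fun t => by simp [hk, ee_zero]
  rw [hk, h.unique one_pos h1]
  simp

theorem Lv1_ind (I : AddSubgroup ℂ) (n : ℕ) : ∀ {c : ℤ → ℂ} {F : ℍ → ℂ}, QS 1 c F →
    (∀ (g : SL(2, ℤ)) (τ : ℍ), F (g • τ) = F τ) → (∀ ν, c ν ∈ I) → (∀ ν < -(n : ℤ), c ν = 0) →
    ∃ Q : Polynomial ℂ, (∀ i, Q.coeff i ∈ I) ∧ (∀ τ, F τ = Q.eval (J τ)) ∧ Q.natDegree ≤ n ∧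
      Q.coeff n = c (-n) := by
  induction n with
  | zero =>
    intro c F h hi hc h0
    refine ⟨Polynomial.C (c 0), fun i => ?_, fun τ => ?_, by simp, by simp⟩
    · rw [Polynomial.coeff_C]
      split_ifs
      · exact hc 0
      · exact I.zero_mem
    · rw [Polynomial.eval_C]
      exact Lv1_const h hi (by simpa using h0) τ
  | succ n ih =>
    intro c F h hi hc h0
    obtain ⟨b, hb, hb0, hb1⟩ := qz_J_pow (n + 1)
    set a := c (-((n + 1 : ℕ) : ℤ)) with ha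
    obtain ⟨Q, hQ, hQe, hQd, -⟩ := ih (h.sub (hb.const_mul a))
      (fun g τ => by simp only [hi, SP.J_smul]) (fun ν => I.sub_mem (hc ν) (by
        rw [mul_comm, ← zsmul_eq_mul]
        exact I.zsmul_mem (hc _) _)) fun ν hν => by
        rcases eq_or_ne ν (-((n + 1 : ℕ) : ℤ)) with rfl | hne
        · rw [hb1, Int.cast_one, mul_one, sub_self]
        · have : ν < -((n + 1 : ℕ) : ℤ) := by
            push_cast at hne ⊢
            omega
          rw [h0 ν this, hb0 ν this, Int.cast_zero, mul_zero, sub_self]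
    refine ⟨Q + Polynomial.monomial (n + 1) a, fun i => ?_, fun τ => ?_, ?_, ?_⟩
    · rw [Polynomial.coeff_add, Polynomial.coeff_monomial]
      refine I.add_mem (hQ i) ?_
      split_ifs
      · exact hc _
      · exact I.zero_mem
    · rw [Polynomial.eval_add, Polynomial.eval_monomial, ← hQe]
      ring
    · exact (Polynomial.natDegree_add_le _ _).trans
        (max_le (hQd.trans n.le_succ) (Polynomial.natDegree_monomial_le _))
    · rw [Polynomial.coeff_add, Polynomial.coeff_monomial, if_pos rfl,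
        Polynomial.coeff_eq_zero_of_natDegree_lt (Nat.lt_succ_of_le hQd), zero_add]

theorem lev_one {N : ℕ} {c : ℤ → ℂ} (hN : 0 < N) (h : QS N c F)
    (hi : ∀ (g : SL(2, ℤ)) (τ : ℍ), F (g • τ) = F τ) (I : AddSubgroup ℂ) (hc : ∀ ν, c ν ∈ I) :
    ∃ Q : Polynomial ℂ, (∀ i, Q.coeff i ∈ I) ∧ (∀ τ, F τ = Q.eval (J τ)) ∧
      ∀ L : ℤ, (∀ ν < L, c ν = 0) → c L ≠ 0 → Q.leadingCoeff = c L := by
  have hd : ∀ ν, c ν ≠ 0 → (N : ℤ) ∣ ν := fun ν hν => by
    simpa using h.supp_of_T hN (a := 0) (fun τ => by rw [hi]; simp [ee_zero]) ν hν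
  have h1 : QS 1 (fun ν => c (N * ν)) F :=
    QS.unscale hN (by simpa using h) fun ν hν => by
      by_contra h0
      exact hν (hd ν h0)
  obtain ⟨L₀, hL₀⟩ := h1.low
  obtain ⟨Q, hQ, hQe, -, -⟩ := Lv1_ind I (-L₀).toNat h1 hi (fun ν => hc _)
    fun ν hν => hL₀ ν (by omega)
  refine ⟨Q, hQ, hQe, fun L hL hL' => ?_⟩
  obtain ⟨M, rfl⟩ := hd L hL'
  have hN' : (0 : ℤ) < N := by exact_mod_cast hN
  have hM : ∀ ν < M, c (N * ν) = 0 := fun ν hν => hL _ (by nlinarith)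
  obtain ⟨Q', -, hQe', hQd, hQc⟩ := Lv1_ind I (-M).toNat h1 hi (fun ν => hc _)
    fun ν hν => hM ν (by omega)
  obtain rfl : Q = Q' := poly_J_ext fun τ => (hQe τ).symm.trans (hQe' τ)
  rcases le_or_gt M 0 with hM0 | hM0
  · have e : -(((-M).toNat : ℕ) : ℤ) = M := by omega
    rw [e] at hQc
    rw [Polynomial.leadingCoeff, Polynomial.natDegree_eq_of_le_of_coeff_ne_zero hQd (hQc ▸ hL'),
      hQc]
  · exfalso
    have h2 : ∀ τ, F τ = 0 := fun τ =>
      (Lv1_const h1 hi (fun ν hν => hM ν (hν.trans hM0)) τ).trans (hM 0 hM0)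
    have h3 : QS N (fun _ => 0) F :=
      (h.const_mul 0).congr (fun _ => zero_mul _) fun τ => by rw [h2, mul_zero]
    exact hL' (congrFun (h.unique hN h3) _)

theorem Zq.poly (h : Zq ι F) (hi : ∀ (g : SL(2, ℤ)) (τ : ℍ), F (g • τ) = F τ) :
    ∃ Q : Polynomial ℂ, (∀ i, ‖ι (Q.coeff i)‖ ≤ 1) ∧ ∀ τ, F τ = Q.eval (J τ) := by
  obtain ⟨N, c, hN, hq, hc⟩ := h
  obtain ⟨Q, hQ, hQe, -⟩ := lev_one hN hq hi (Ai ι).toAddSubgroup hc
  exact ⟨Q, hQ, hQe⟩

/-- The elements of the maximal ideal. -/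
def Lv1_m (ι : ℂ →+* K) : AddSubgroup ℂ where
  carrier := {x | ‖ι x‖ < 1}
  zero_mem' := by simp
  add_mem' := fun {a b} ha hb => by
    simp only [Set.mem_ofPred_eq, map_add] at *
    exact (IsUltrametricDist.norm_add_le_max _ _).trans_lt (max_lt ha hb)
  neg_mem' := fun {a} ha => by simpa using ha

theorem Zs.poly (h : Zs ι F) (hi : ∀ (g : SL(2, ℤ)) (τ : ℍ), F (g • τ) = F τ) :
    ∃ Q : Polynomial ℂ, (∀ i, ‖ι (Q.coeff i)‖ < 1) ∧ ∀ τ, F τ = Q.eval (J τ) := by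
  obtain ⟨N, c, hN, hq, hc⟩ := h
  obtain ⟨Q, hQ, hQe, -⟩ := lev_one hN hq hi (Lv1_m ι) hc
  exact ⟨Q, hQ, hQe⟩

theorem Lv1_val (h : Zs ι F) (hi : ∀ (g : SL(2, ℤ)) (τ : ℍ), F (g • τ) = F τ) {τ : ℍ}
    (hτ : ‖ι (J τ)‖ ≤ 1) : ‖ι (F τ)‖ < 1 := by
  obtain ⟨Q, hQ, hQe⟩ := h.poly hi
  rw [hQe, Polynomial.eval_eq_sum_range]
  refine (Lv1_m ι).sum_mem fun i _ => ?_
  change ‖ι (_ * _)‖ < 1
  rw [map_mul, map_pow, norm_mul, norm_pow]
  exact (mul_le_of_le_one_right (norm_nonneg _) (pow_le_one₀ (norm_nonneg _) hτ)).trans_lt (hQ i)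

theorem Lv1_rad (n : ℕ) (x : ℕ → ℝ) (h : ∀ k, x (k + 1) < 1) :
    ∃ R : ℝ, 0 < R ∧ R < 1 ∧ ∀ k < n, x (k + 1) ≤ R ^ (k + 1) := by
  have h1 : ∀ᶠ R : ℝ in 𝓝 1, ∀ k ∈ Finset.range n, x (k + 1) ≤ R ^ (k + 1) := by
    refine (Finset.eventually_all _).2 fun k _ => ?_
    have : Filter.Tendsto (fun R : ℝ => R ^ (k + 1)) (𝓝 1) (𝓝 1) := by
      simpa using (continuous_pow (k + 1)).tendsto (1 : ℝ)
    exact this.eventually_const_le (h k)
  have h2 : ∀ᶠ R : ℝ in 𝓝 1, 0 < R := lt_mem_nhds one_pos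
  obtain ⟨R, hR, hR1⟩ := (((h2.and h1).filter_mono (nhdsWithin_le_nhds (s := Set.Iio 1))).and
    self_mem_nhdsWithin).exists
  exact ⟨R, hR.1, hR1, fun k hk => hR.2 k (Finset.mem_range.2 hk)⟩

theorem orb_lt {S : Set (ℍ → ℂ)} (hS : S.Finite)
    (hg : ∀ F ∈ S, ∀ g : SL(2, ℤ), (fun τ => F (g • τ)) ∈ S) (hq : ∀ F ∈ S, Zs ι F)
    (hF : F ∈ S) {τ : ℍ} (hτ : ‖ι (J τ)‖ ≤ 1) : ‖ι (F τ)‖ < 1 := by
  have : Fintype S := hS.fintype
  let e : ℕ → ℍ → ℂ := fun k t =>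
    ∑ U ∈ Finset.powersetCard k (Finset.univ : Finset S), ∏ x ∈ U, x.1 t
  have hi : ∀ k (g : SL(2, ℤ)) (t : ℍ), e k (g • t) = e k t := fun k g t => by
    let r : S ≃ S :=
      { toFun := fun x => ⟨fun t => x.1 (g • t), hg _ x.2 g⟩
        invFun := fun x => ⟨fun t => x.1 (g⁻¹ • t), hg _ x.2 g⁻¹⟩
        left_inv := fun x => Subtype.ext (funext fun t => by simp)
        right_inv := fun x => Subtype.ext (funext fun t => by simp) }
    simp only [e, ← Finset.esymm_map_val]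
    conv_rhs => rw [← Multiset.map_univ_val_equiv r, Multiset.map_map]
    rfl
  have hz : ∀ k, Zs ι (e (k + 1)) := fun k => by
    refine zs_sum _ fun U hU => ?_
    obtain ⟨x, hx⟩ : U.Nonempty := by
      rw [← Finset.card_pos, (Finset.mem_powersetCard.1 hU).2]
      exact k.succ_pos
    exact ((hq _ x.2).mul (zq_prod (U.erase x) fun y _ => (hq _ y.2).zq)).congr fun t =>
      Finset.mul_prod_erase U (fun y : S => y.1 t) hx
  obtain ⟨R, hR, hR1, hb⟩ := Lv1_rad (Fintype.card S) (fun k => ‖ι (e k τ)‖)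
    fun k => Lv1_val (hz k) (hi _) hτ
  refine (Conj_root_bound (fun x : S => ι (x.1 τ)) hR (fun k => ?_) ⟨F, hF⟩).trans_lt hR1
  rcases k with _ | k
  · simp
  · rcases lt_or_ge k (Fintype.card S) with hk | hk
    · simpa only [e, map_sum, map_prod] using hb k hk
    · rw [Finset.powersetCard_eq_empty.2 (by simpa using Nat.lt_succ_of_le hk), Finset.sum_empty,
        norm_zero]
      positivity

end

end Pool.Agent.P.MP_a60a76_nt.Sz
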