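import Pool.Agent.P.MP_a60a76_nt.Sz.Defs2
import Pool.Agent.P.MP_a60a76_nt.Sz.Maj

namespace Pool.Agent.P.MP_a60a76_nt.Sz

open UpperHalfPlane MeasureTheory SP
open scoped MatrixGroups UpperHalfPlane Matrix Modular Topology Classical ArithmeticFunction.sigma

noncomputable section

/-! From elliptic curves to uniformisation data. -/

open WeierstrassCurve SP.Tw

/-- The matrix `α` commutes with the Galois action on the points of order `p` up to sign. -/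
def Setup_Cm (E : WeierstrassCurve ℚ) {τ : ℍ} (U : Unif (E.baseChange ℂ) τ) (p : ℕ)
    (α : Matrix (Fin 2) (Fin 2) (ZMod p)) : Prop :=
  ∀ sg : ℂ ≃ₐ[ℚ] ℂ, (∀ v w,
    Affine.Point.map (W' := E) sg.toAlgHom (U.Φ (zv p v τ)) = U.Φ (zv p w τ) →
    Affine.Point.map (W' := E) sg.toAlgHom (U.Φ (zv p (v ᵥ* α) τ)) = U.Φ (zv p (w ᵥ* α) τ)) ∨
    ∀ v w, Affine.Point.map (W' := E) sg.toAlgHom (U.Φ (zv p v τ)) = U.Φ (zv p w τ) →
    Affine.Point.map (W' := E) sg.toAlgHom (U.Φ (zv p (v ᵥ* α) τ)) = U.Φ (zv p (-(w ᵥ* α)) τ)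

theorem Setup_cm (E : WeierstrassCurve ℚ) [E.IsElliptic] {τ : ℍ} (U : Unif (E.baseChange ℂ) τ)
    (p : ℕ) [Fact p.Prime] (hp : p ≠ 2) {e : ℂ} (he : Hm τ τ e) (him : e.im ≠ 0) :
    ∃ α : Matrix (Fin 2) (Fin 2) (ZMod p), NonScalar α ∧ Setup_Cm E U p α := by
  have hpp : p.Prime := Fact.out
  have hp0 : (p : ℂ) ≠ 0 := Nat.cast_ne_zero.2 hpp.ne_zero
  have hpR : (p : ℝ) ≠ 0 := Nat.cast_ne_zero.2 hpp.ne_zero
  have hsq : ∀ δ : ℂ, Hm τ τ δ → δ.re = 0 → ∃ N : ℕ, δ.im ^ 2 = N := fun δ hδ hre => by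
    obtain ⟨n, hn⟩ := int_of_real (hδ.mul hδ) (by simp [hre])
    have h1 := congrArg Complex.re hn
    simp only [Complex.mul_re, hre, Complex.intCast_re] at h1
    have h2 : δ.im ^ 2 = ((-n : ℤ) : ℝ) := by push_cast; linarith
    have h3 : 0 ≤ -n := by
      have : (0 : ℝ) ≤ ((-n : ℤ) : ℝ) := h2 ▸ sq_nonneg _
      exact_mod_cast this
    obtain ⟨N, hN⟩ := Int.eq_ofNat_of_zero_le h3
    exact ⟨N, by rw [h2, hN]; simp⟩
  have hex : ∃ N : ℕ, ∃ δ : ℂ, Hm τ τ δ ∧ δ.re = 0 ∧ δ.im ≠ 0 ∧ δ.im ^ 2 = N := by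
    obtain ⟨t, ht⟩ := trace_int he him
    have h1 : Hm τ τ ((2 : ℤ) * e + (-t : ℤ)) := (he.int_mul 2).add (hm_int τ _)
    have h2 : (((2 : ℤ) : ℂ) * e + ((-t : ℤ) : ℂ)).re = 0 := by
      simp [← ht]
    obtain ⟨N, hN⟩ := hsq _ h1 h2
    exact ⟨N, _, h1, h2, by simpa using him, hN⟩
  obtain ⟨δ, hδ, hre, hδim, hN⟩ := Nat.find_spec hex
  have hδ0 : δ ≠ 0 := fun h => hδim (by simp [h])
  obtain ⟨β, hβ⟩ := exists_beta U U p hδ0 hδ
  refine ⟨β, ?_, fun sg => ?_⟩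
  · by_contra hs
    set k : ℤ := ((β 0 0).val : ℤ) with hk
    have h1 : Hm τ τ ((δ - k) / p) := hm_div fun v => by
      rw [← U.ker, sub_mul, map_sub, hβ, vecMul_scalar hs, ← zv_zsmul, sub_eq_zero]
      congr 2
      ext i
      simp [hk]
    have hre1 : ((δ - k) / p).re = -k / p := by
      rw [Complex.div_natCast_re]
      simp [hre]
    have him1 : ((δ - k) / p).im = δ.im / p := by
      rw [Complex.div_natCast_im]
      simp
    obtain ⟨t, ht⟩ := trace_int h1 (by rw [him1]; exact div_ne_zero hδim hpR)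
    rw [hre1] at ht
    have h2 : (2 * k : ℤ) = p * (-t) := by
      have : ((2 * k : ℤ) : ℝ) = ((p * (-t) : ℤ) : ℝ) := by
        push_cast
        field_simp at ht
        linarith
      exact_mod_cast this
    have h3 : (p : ℤ) ∣ k := by
      rcases (Nat.prime_iff_prime_int.1 hpp).dvd_or_dvd (Dvd.intro _ h2.symm) with h4 | h4
      · exact absurd ((Nat.prime_dvd_prime_iff_eq hpp Nat.prime_two).1 (by exact_mod_cast h4)) hp
      · exact h4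
    obtain ⟨k', hk'⟩ := h3
    have h4 : Hm τ τ (δ / p) := by
      have h5 := h1.add (hm_int τ k')
      convert h5 using 1
      rw [hk']
      push_cast
      field_simp
      ring
    have hre2 : (δ / p).re = 0 := by
      rw [Complex.div_natCast_re, hre, zero_div]
    have him2 : (δ / p).im = δ.im / p := Complex.div_natCast_im _ _
    obtain ⟨N', hN'⟩ := hsq _ h4 hre2
    have h5 := Nat.find_min' hex ⟨_, h4, hre2, by rw [him2]; exact div_ne_zero hδim hpR, hN'⟩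
    have h6 : (Nat.find hex : ℝ) ≤ N' := by exact_mod_cast h5
    rw [← hN, ← hN', him2, div_pow, le_div_iff₀ (by positivity)] at h6
    have h7 : (1 : ℝ) < p := by exact_mod_cast hpp.one_lt
    have h8 : 0 < δ.im ^ 2 := by positivity
    have h9 : (1 : ℝ) < (p : ℝ) ^ 2 := by nlinarith
    nlinarith
  · obtain ⟨δ', -, hc⟩ := exists_conj U U hδ0 hδ sg
    obtain ⟨n, hn⟩ := int_of_real (hδ.mul hδ) (by simp [hre])
    have h1 := conj_sq hc
    rw [hn] at h1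
    have h2 : δ' * δ' = δ * δ := by rw [hn]; exact h1.unique (conj_int sg n)
    rcases mul_self_eq_mul_self_iff.1 h2 with h4 | h4
    · refine Or.inl fun v w hw => ?_
      have h3 := hc _ _ hw
      rw [hβ] at h3
      rw [h3, h4, hβ]
    · refine Or.inr fun v w hw => ?_
      have h3 := hc _ _ hw
      rw [hβ] at h3
      rw [h3, h4, neg_mul, map_neg, hβ, zv_neg]

/-- The case without complex multiplication. -/
theorem Setup_gen (E E' : WeierstrassCurve ℚ) [E.IsElliptic] [E'.IsElliptic] {τ τ' : ℍ}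
    (U : Unif (E.baseChange ℂ) τ) (U' : Unif (E'.baseChange ℂ) τ') (p : ℕ) [Fact p.Prime]
    (hp : p ≠ 2) (h : Congruent p E E') (hI : ¬ Isogenous E E') {j : ℂ} (hj0 : j ≠ 0)
    (hj : Hm τ' τ j) {n : ℕ} (hn : 0 < n) (hnj : Hm τ τ' (n / j))
    (hO : ∀ e, Hm τ τ e → e.im = 0) :
    ∃ α : Matrix (Fin 2) (Fin 2) (ZMod p), NonScalar α ∧ Setup_Cm E U p α := by
  have hpp : p.Prime := Fact.out
  have hp0 : (p : ℂ) ≠ 0 := Nat.cast_ne_zero.2 hpp.ne_zero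
  have hex : ∃ n : ℕ, 0 < n ∧ Hm τ τ' (n / j) := ⟨n, hn, hnj⟩
  obtain ⟨hn0, he⟩ := Nat.find_spec hex
  set n0 := Nat.find hex with hn0def
  set e : ℂ := n0 / j with hedef
  have he0 : e ≠ 0 := div_ne_zero (Nat.cast_ne_zero.2 hn0.ne') hj0
  have hgen : ∀ f, Hm τ τ' f → ∃ m : ℤ, f = m * e := fun f hf => by
    obtain ⟨k, hk⟩ := int_of_real (hj.mul hf) (hO _ (hj.mul hf))
    have hn0' : (0 : ℤ) < n0 := by exact_mod_cast hn0
    obtain ⟨r, hr⟩ := Int.eq_ofNat_of_zero_le (Int.emod_nonneg k hn0'.ne')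
    have h1 : (k : ℂ) = n0 * (k / n0 : ℤ) + r := by
      have h2 := Int.mul_ediv_add_emod k n0
      rw [hr] at h2
      exact_mod_cast h2.symm
    have h2 : f = (k / n0 : ℤ) * e + r / j := by
      rw [hedef]
      field_simp
      linear_combination hk + h1
    have h3 : r = 0 := by
      by_contra hr0
      have h4 : r < n0 := by
        have := Int.emod_lt_of_pos k hn0'
        omega
      refine Nat.find_min hex h4 ⟨Nat.pos_of_ne_zero hr0, ?_⟩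
      have h5 := hf.add (he.int_mul (-(k / n0)))
      convert h5 using 1
      rw [h2]
      push_cast
      ring
    exact ⟨k / n0, by rw [h2, h3]; simp⟩
  have hpm : ∀ sg, Conj U U' sg e e ∨ Conj U U' sg e (-e) := fun sg => by
    obtain ⟨e₁, h1, hc1⟩ := exists_conj U U' he0 he sg
    obtain ⟨e₂, h2, hc2⟩ := exists_conj U U' he0 he sg.symm
    obtain ⟨m, rfl⟩ := hgen _ h1
    obtain ⟨k, rfl⟩ := hgen _ h2
    have h3 := hc1.symm.unique (hc2.int_mul m)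
    have h4 : ((m * k : ℤ) : ℂ) = (1 : ℤ) := by
      push_cast
      exact mul_right_cancel₀ he0 (by linear_combination -h3)
    rcases Int.eq_one_or_neg_one_of_mul_eq_one (by exact_mod_cast h4 : m * k = 1) with rfl | rfl
    · left
      simpa using hc1
    · right
      simpa using hc1
  obtain ⟨β, hβ⟩ := exists_beta U U' p he0 he
  obtain ⟨g, hg, hcong⟩ := cong_matrix E E' U U' p h
  have hαg : ∀ v : Fin 2 → ZMod p, (v ᵥ* (β * g⁻¹)) ᵥ* g = v ᵥ* β := fun v => by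
    rw [Matrix.vecMul_vecMul, Matrix.nonsing_inv_mul_cancel_right _ _ hg]
  have hginj : Function.Injective fun v : Fin 2 → ZMod p => v ᵥ* g :=
    Matrix.vecMul_injective_of_isUnit ((Matrix.isUnit_iff_isUnit_det g).2 hg)
  have hpos : ∀ sg, Conj U U' sg e e → ∀ v w,
      Affine.Point.map (W' := E) sg.toAlgHom (U.Φ (zv p v τ)) = U.Φ (zv p w τ) →
      Affine.Point.map (W' := E) sg.toAlgHom (U.Φ (zv p (v ᵥ* (β * g⁻¹)) τ)) =
        U.Φ (zv p (w ᵥ* (β * g⁻¹)) τ) := fun sg hc v w hw => by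
    obtain ⟨a, -, hsg⟩ := gal E U p sg
    have h1 := hcong sg _ _ (hsg (v ᵥ* (β * g⁻¹))).1
    rw [hαg, ← hβ, hc _ _ hw, hβ, ← hαg] at h1
    rw [(hsg _).1, hginj (zv_injective U' p h1)]
  have hneg : ∀ sg, Conj U U' sg e (-e) → ∀ v w,
      Affine.Point.map (W' := E) sg.toAlgHom (U.Φ (zv p v τ)) = U.Φ (zv p w τ) →
      Affine.Point.map (W' := E) sg.toAlgHom (U.Φ (zv p (v ᵥ* (β * g⁻¹)) τ)) =
        U.Φ (zv p (-(w ᵥ* (β * g⁻¹))) τ) := fun sg hc v w hw => by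
    obtain ⟨a, -, hsg⟩ := gal E U p sg
    have h1 := hcong sg _ _ (hsg (v ᵥ* (β * g⁻¹))).1
    rw [hαg, ← hβ, hc _ _ hw, neg_mul, map_neg, hβ, ← zv_neg, ← hαg, ← Matrix.neg_vecMul] at h1
    rw [(hsg _).1, hginj (zv_injective U' p h1)]
  refine ⟨β * g⁻¹, ?_, fun sg => (hpm sg).imp (hpos sg) (hneg sg)⟩
  by_contra hs
  obtain ⟨sg, hsg⟩ : ∃ sg, Conj U U' sg e (-e) := by
    by_contra hno
    exact hI (isogenous_of_conj U U' he0 he fun sg => (hpm sg).resolve_right fun hc => hno ⟨sg, hc⟩)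
  obtain ⟨a, ha, hgal⟩ := gal E U p sg
  have h2 : (2 : ZMod p) ≠ 0 := fun h0 => hp ((Nat.prime_dvd_prime_iff_eq hpp Nat.prime_two).1
    ((ZMod.natCast_eq_zero_iff 2 p).1 (by exact_mod_cast h0)))
  have hainj : Function.Injective fun v : Fin 2 → ZMod p => v ᵥ* a :=
    Matrix.vecMul_injective_of_isUnit ((Matrix.isUnit_iff_isUnit_det a).2 ha)
  have hzero : ∀ v : Fin 2 → ZMod p, v ᵥ* (β * g⁻¹) = 0 := fun v => by
    have h3 := hneg sg hsg v _ (hgal v).1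
    rw [(hgal _).1] at h3
    have h4 := zv_injective U p h3
    rw [vecMul_scalar hs (v ᵥ* a), ← Matrix.smul_vecMul, ← vecMul_scalar hs] at h4
    have h5 : (2 : ZMod p) • ((v ᵥ* (β * g⁻¹)) ᵥ* a) = 0 := by
      rw [two_smul]
      exact add_eq_zero_iff_eq_neg.2 h4
    refine hainj ?_
    simp only [Matrix.zero_vecMul]
    exact (smul_eq_zero.1 h5).resolve_left h2
  have h3 : Hm τ τ' (e / p) := hm_div fun v => by
    rw [← U'.ker, hβ, ← hαg, hzero, Matrix.zero_vecMul]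
    exact map_zero (Zh U' p)
  obtain ⟨m, hm⟩ := hgen _ h3
  have h4 : ((p * m : ℤ) : ℂ) = (1 : ℤ) := by
    push_cast
    refine mul_right_cancel₀ he0 ?_
    rw [mul_assoc, ← hm]
    field_simp
  have h5 : (p : ℤ) * m = 1 := by exact_mod_cast h4
  have h6 := hpp.two_le
  rcases Int.eq_one_or_neg_one_of_mul_eq_one h5 with h7 | h7 <;> omega

theorem Setup_twist (E E' : WeierstrassCurve ℚ) [E.IsElliptic] [E'.IsElliptic] {τ τ' : ℍ}
    (U : Unif (E.baseChange ℂ) τ) (U' : Unif (E'.baseChange ℂ) τ') (p : ℕ) [Fact p.Prime]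
    (hp : p ≠ 2) (h : Congruent p E E') (hI : ¬ Isogenous E E') (hz : ¬ Proper τ τ') :
    ∃ α : Matrix (Fin 2) (Fin 2) (ZMod p), NonScalar α ∧ Setup_Cm E U p α := by
  rw [proper_iff] at hz
  push Not at hz
  obtain ⟨Y, hY, hm⟩ := hz
  set a := Y 0 0
  set b := Y 0 1
  set c := Y 1 0
  set d := Y 1 1
  have hdet : 0 < a * d - b * c := by rwa [Matrix.det_fin_two] at hY
  have hτ : (τ' : ℂ) * (c * τ + d) = a * τ + b := by
    rw [hm, coe_mob hY]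
    exact div_mul_cancel₀ _ (dn_ne_zero (row_ne_zero hY.ne') τ)
  by_cases hO : ∀ e, Tw.Hm τ τ e → e.im = 0
  · obtain ⟨n, hn⟩ := Int.eq_ofNat_of_zero_le hdet.le
    have hnC : (n : ℂ) = a * d - b * c := by exact_mod_cast hn.symm
    have h1 : (n : ℂ) = (c * τ + d) * ((-c : ℤ) * τ' + a) := by
      push_cast
      linear_combination hnC + (c : ℂ) * hτ
    have h2 : (n : ℂ) * τ = (c * τ + d) * (d * τ' + (-b : ℤ)) := by
      push_cast
      linear_combination (τ : ℂ) * hnC - (d : ℂ) * hτ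
    have hn0 : 0 < n := by omega
    have hj0 : (c * τ + d : ℂ) ≠ 0 := fun h0 => by
      rw [h0, zero_mul] at h1
      exact hn0.ne' (by exact_mod_cast h1)
    refine Setup_gen E E' U U' p hp h hI hj0 (Tw.hm_of_gens ?_ ?_) hn0
      (Tw.hm_of_gens ?_ ?_) hO
    · exact (mem_lat τ _).2 ⟨a, b, by rw [mul_comm, hτ]⟩
    · exact (mem_lat τ _).2 ⟨c, d, rfl⟩
    · exact (mem_lat τ' _).2 ⟨d, -b, by rw [div_mul_eq_mul_div, h2, mul_div_cancel_left₀ _ hj0]⟩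
    · exact (mem_lat τ' _).2 ⟨-c, a, by rw [h1, mul_div_cancel_left₀ _ hj0]⟩
  · push Not at hO
    obtain ⟨e, he, him⟩ := hO
    exact Setup_cm E U p hp he him


/-- The uniformisation data of a curve. -/
def Setup_crv (E : WeierstrassCurve ℚ) [E.IsElliptic] {τ : ℍ} (U : Unif (E.baseChange ℂ) τ)
    (hτ : τ ∈ 𝒟) (hJ : J τ = (E.j : ℂ)) : Crv where
  j := E.j
  t := τ
  u := U.u
  fd := hτ
  J_eq := hJ
  u_ne := U.u_ne
  g2 := ⟨E.c₄ / 12, by
    have h : (E.c₄ : ℂ) = U.u ^ 4 * (12 * (lat τ).g₂) := by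
      rw [← U.c4]
      exact (E.map_c₄ (algebraMap ℚ ℂ)).symm
    push_cast
    rw [h]
    ring⟩
  g3 := ⟨E.c₆ / 216, by
    have h : (E.c₆ : ℂ) = U.u ^ 6 * (216 * (lat τ).g₃) := by
      rw [← U.c6]
      exact (E.map_c₆ (algebraMap ℚ ℂ)).symm
    push_cast
    rw [h]
    ring⟩

theorem Setup_exists (E : WeierstrassCurve ℚ) [E.IsElliptic] :
    ∃ τ : ℍ, τ ∈ 𝒟 ∧ J τ = (E.j : ℂ) ∧ Nonempty (Unif (E.baseChange ℂ) τ) := by
  obtain ⟨τ, hτ⟩ := J_surj (E.j : ℂ)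
  obtain ⟨g, hg⟩ := ModularGroup.exists_smul_mem_fd τ
  have h : J (g • τ) = (E.j : ℂ) := by rw [SP.J_smul, hτ]
  have := ell E
  exact ⟨g • τ, hg, h, unif (E.baseChange ℂ) _ (h.trans (E.map_j (algebraMap ℚ ℂ)).symm)⟩

/-- A ring automorphism is linear over the rationals. -/
def Setup_alg (s : ℂ ≃+* ℂ) : ℂ ≃ₐ[ℚ] ℂ := AlgEquiv.ofRingEquiv (f := s) fun q => by simp

theorem Setup_rho (P : Par) (E : WeierstrassCurve ℚ) [E.IsElliptic] {τ : ℍ}
    (U : Unif (E.baseChange ℂ) τ) (hτ : τ ∈ 𝒟) (hJ : J τ = (E.j : ℂ)) (s : ℂ ≃+* ℂ) :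
    ∃ ρ : P.GF, P.Rho (Setup_crv E U hτ hJ) s ρ ∧ ∀ v,
      Affine.Point.map (W' := E) (Setup_alg s).toAlgHom (U.Φ (zv P.p v τ)) =
        U.Φ (zv P.p (v ᵥ* (ρ : P.MF)) τ) := by
  obtain ⟨a, ha, h⟩ := gal E U P.p (Setup_alg s)
  refine ⟨Matrix.GeneralLinearGroup.mkOfDetNeZero a ha.ne_zero, fun v => ?_, fun v => (h v).1⟩
  show s (U.u ^ 2 * P.wp v τ) = U.u ^ 2 * P.wp (v ᵥ* a) τ
  by_cases hv : v = 0
  · subst hv
    simp [Par.wp, zv]
  have hinj : Function.Injective fun v : Fin 2 → P.F => v ᵥ* a :=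
    Matrix.vecMul_injective_of_isUnit ((Matrix.isUnit_iff_isUnit_det a).2 ha)
  have hw : v ᵥ* a ≠ 0 := fun h0 => hv (hinj (by simpa using h0))
  obtain ⟨h1, e1⟩ := U.eq_some _ fun hm => hv (sep_zero P.p τ v hm)
  obtain ⟨h2, e2⟩ := U.eq_some _ fun hm => hw (sep_zero P.p τ _ hm)
  have h3 := (h v).1
  rw [e1, e2, Affine.Point.map_some] at h3
  have h4 := (Affine.Point.some.inj h3).1
  have hb : (E.baseChange ℂ).b₂ = (E.b₂ : ℂ) := E.map_b₂ (algebraMap ℚ ℂ)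
  have h5 : s (U.u ^ 2 * P.wp v τ - (E.b₂ : ℂ) / 12) =
      U.u ^ 2 * P.wp (v ᵥ* a) τ - (E.b₂ : ℂ) / 12 := by
    rw [← hb]
    exact h4
  rw [map_sub, map_div₀, map_ratCast, map_ofNat] at h5
  exact sub_left_injective h5

theorem Setup_ext {P : Par} {X Y : P.MF} (h : ∀ v : Fin 2 → P.F, v ᵥ* X = v ᵥ* Y) : X = Y := by
  ext i j
  simpa using congrFun (h (Pi.single i 1)) j

theorem setup {p : ℕ} (hp : p.Prime) (h5 : 5 ≤ p) (E₁ E₂ : WeierstrassCurve ℚ) [E₁.IsElliptic]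
    [E₂.IsElliptic] (hc : Congruent p E₁ E₂) (hI : ¬ Isogenous E₁ E₂) :
    ∃ (P : Par) (A B : Crv) (X : P.MF), P.p = p ∧ A.j = E₁.j ∧ B.j = E₂.j ∧ X.det = P.m ∧
      P.Lnk A B X ∧ (¬ Proper A.t B.t → ∃ α, P.Sgn A α) := by
  have : Fact p.Prime := ⟨hp⟩
  obtain ⟨t₁, f₁, j₁, ⟨U₁⟩⟩ := Setup_exists E₁
  obtain ⟨t₂, f₂, j₂, ⟨U₂⟩⟩ := Setup_exists E₂
  obtain ⟨X, hX, hg⟩ := cong_matrix E₂ E₁ U₂ U₁ p hc.symm
  have hm : ((X.det.val : ℤ) : ZMod p) = X.det := by simp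
  let P : Par := ⟨p, X.det.val, hp, h5, fun h =>
    hX.ne_zero (by rw [← hm]; exact (ZMod.intCast_zmod_eq_zero_iff_dvd _ _).2 h)⟩
  refine ⟨P, Setup_crv E₁ U₁ f₁ j₁, Setup_crv E₂ U₂ f₂ j₂, X, rfl, rfl, rfl, hm.symm,
    fun s => ?_, fun hz => ?_⟩
  · obtain ⟨ρ₁, h₁, e₁⟩ := Setup_rho P E₁ U₁ f₁ j₁ s
    obtain ⟨ρ₂, h₂, e₂⟩ := Setup_rho P E₂ U₂ f₂ j₂ s
    refine ⟨ρ₁, ρ₂, h₁, h₂, Setup_ext fun v => ?_⟩
    rw [← Matrix.vecMul_vecMul, ← Matrix.vecMul_vecMul]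
    exact zv_injective U₁ p ((hg _ v _ (e₂ v)).symm.trans (e₁ _))
  · obtain ⟨α, h1, h2⟩ := Setup_twist E₁ E₂ U₁ U₂ p (by omega) hc hI hz
    refine ⟨α, h1, fun s => ?_⟩
    obtain ⟨ρ, h₁, e₁⟩ := Setup_rho P E₁ U₁ f₁ j₁ s
    refine ⟨ρ, h₁, (h2 (Setup_alg s)).imp (fun h => Setup_ext fun v => ?_)
      fun h => Setup_ext fun v => ?_⟩
    · rw [← Matrix.vecMul_vecMul, ← Matrix.vecMul_vecMul]
      exact zv_injective U₁ p ((h v _ (e₁ v)).symm.trans (e₁ _))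
    · rw [Matrix.vecMul_neg, ← Matrix.vecMul_vecMul, ← Matrix.vecMul_vecMul, eq_neg_iff_add_eq_zero,
        ← neg_eq_iff_add_eq_zero]
      exact zv_injective U₁ p ((h v _ (e₁ v)).symm.trans (e₁ _))

end

end Pool.Agent.P.MP_a60a76_nt.Sz
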