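import Pool.Agent.P.MP_a60a76_nt.Sz.TyBd
import Pool.Agent.P.MP_a60a76_nt.Sz.Line
import Pool.Agent.P.MP_a60a76_nt.Sz.Setup

namespace Pool.Agent.P.MP_a60a76_nt.Sz

open UpperHalfPlane MeasureTheory SP
open scoped MatrixGroups UpperHalfPlane Matrix Modular Topology Classical ArithmeticFunction.sigma

noncomputable section

/-! The radical bound. -/

theorem Main_log_nonneg (l : ℕ) : 0 ≤ Real.log l := Real.log_natCast_nonneg l

/-- Primes with large valuation. -/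
theorem Main_large {d : ℕ} (hd : 0 < d) {q : ℝ} (hq : 0 < q) (S : Finset ℕ)
    (hS : ∀ l ∈ S, l.Prime ∧ q ≤ padicValNat l d) :
    ∑ l ∈ S, Real.log l ≤ q⁻¹ * Real.log d := by
  rw [le_inv_mul_iff₀ hq, Finset.mul_sum]
  refine le_trans (Finset.sum_le_sum fun l hl => ?_) (sum_val_log hd S fun l hl => (hS l hl).1)
  exact mul_le_mul_of_nonneg_right (hS l hl).2 (Main_log_nonneg l)

/-- The trivial bound. -/
theorem Main_rad {d : ℕ} (hd : 0 < d) (S : Finset ℕ) (hS : S ⊆ d.primeFactors) :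
    ∑ l ∈ S, Real.log l ≤ Real.log d := by
  have h := Main_large hd one_pos S fun l hl => by
    have h1 := Nat.mem_primeFactors.1 (hS hl)
    have := Fact.mk h1.1
    refine ⟨h1.1, ?_⟩
    exact_mod_cast one_le_padicValNat_of_dvd hd.ne' h1.2.1
  simpa using h

theorem Main_num {M p : ℕ} (hp : 17 ≤ p) (h : M ^ 3 ≤ p) : M < p ∧ 36 * (M * M) ≤ p ^ 2 := by
  rcases le_or_gt M 2 with hM | hM
  · refine ⟨by omega, ?_⟩
    have h1 : M * M ≤ 2 * 2 := Nat.mul_le_mul hM hM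
    nlinarith
  · have h1 : 3 * 3 ≤ M * M := Nat.mul_le_mul hM hM
    have h2 : 9 * M ≤ p := by nlinarith
    refine ⟨by omega, ?_⟩
    nlinarith

theorem Main_val {a b l : ℕ} (hl : l ∈ (a * b).primeFactors) :
    0 < padicValNat l a ∨ 0 < padicValNat l b := by
  have h1 := Nat.mem_primeFactors.1 hl
  have := Fact.mk h1.1
  have ha : a ≠ 0 := left_ne_zero_of_mul h1.2.2
  have hb : b ≠ 0 := right_ne_zero_of_mul h1.2.2
  rcases (Nat.Prime.dvd_mul h1.1).1 h1.2.1 with h | h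
  · exact Or.inl (one_le_padicValNat_of_dvd ha h)
  · exact Or.inr (one_le_padicValNat_of_dvd hb h)

theorem Main_det {P : Par} {X : P.MF} (hX : X.det = P.m) : X.det ≠ 0 := by
  rw [hX, Ne, ZMod.intCast_zmod_eq_zero_iff_dvd]
  exact P.cop

/-- Primes with small valuations have a type. -/
theorem Main_type {P : Par} {A B : Crv} {X : P.MF} (hX : X.det = P.m) (hL : P.Lnk A B X)
    {M l : ℕ} (hM : M < P.p) (hl : l ∈ (A.j.den * B.j.den).primeFactors.erase P.p)
    (h1 : padicValNat l A.j.den ≤ M) (h2 : padicValNat l B.j.den ≤ M) :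
    P.IsTy A B (padicValNat l A.j.den) (padicValNat l B.j.den) l := by
  obtain ⟨hne, hl⟩ := Finset.mem_erase.1 hl
  have hp := (Nat.mem_primeFactors.1 hl).1
  have hd := Main_det hX
  have hd' : X⁻¹.det ≠ 0 := by
    rw [Matrix.det_nonsing_inv, Ring.inverse_eq_inv']
    exact inv_ne_zero hd
  have hA : 0 < padicValNat l A.j.den := by
    rcases Main_val hl with h | h
    · exact h
    · exact (hL.symm hd).val_pos hd' hp hne h (Nat.not_dvd_of_pos_of_lt h (by omega))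
  have hn : ¬ P.p ∣ padicValNat l A.j.den := Nat.not_dvd_of_pos_of_lt hA (by omega)
  exact ⟨hp, hne, rfl, rfl, hA, hL.val_pos hd hp hne hA hn, hn⟩

/-- Primes with small valuations. -/
theorem Main_small : ∃ C : ℝ, 0 ≤ C ∧ ∀ (P : Par) (A B : Crv) (X : P.MF), X.det = P.m →
    P.Lnk A B X → (¬ Proper A.t B.t → ∃ α, P.Sgn A α) → ∀ M : ℕ, 1 ≤ M →
    36 * (M * M) ≤ P.p ^ 2 → ∀ S : Finset ℕ,
    (∀ l ∈ S, P.IsTy A B (padicValNat l A.j.den) (padicValNat l B.j.den) l ∧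
      padicValNat l A.j.den ≤ M ∧ padicValNat l B.j.den ≤ M) →
    P.p * ∑ l ∈ S, Real.log l ≤ C * (M : ℝ) ^ 2 * (Real.log P.p + hgt A B) := by
  obtain ⟨C₁, hC₁, h₁⟩ := type_bound
  obtain ⟨C₂, hC₂, h₂⟩ := line_bound
  refine ⟨C₁ + C₂, by positivity, ?_⟩
  intro P A B X hX hL hz M hM hM' S hS
  obtain ⟨hA, -, hH⟩ := log_ht_le_hgt A B
  have hH' : 0 ≤ Real.log P.p + hgt A B := add_nonneg (Main_log_nonneg _) hH
  have hM1 : (1 : ℝ) ≤ (M : ℝ) ^ 2 := one_le_pow₀ (by exact_mod_cast hM)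
  by_cases hpr : Proper A.t B.t
  · have hm : ∀ l ∈ S, (padicValNat l A.j.den, padicValNat l B.j.den) ∈
        Finset.Icc 1 M ×ˢ Finset.Icc 1 M := fun l hl => by
      obtain ⟨hT, ha, hb⟩ := hS l hl
      simp only [Finset.mem_product, Finset.mem_Icc]
      exact ⟨⟨hT.pos₁, ha⟩, hT.pos₂, hb⟩
    rw [← Finset.sum_fiberwise_of_maps_to hm, Finset.mul_sum]
    have hb : ∀ v ∈ Finset.Icc 1 M ×ˢ Finset.Icc 1 M, (P.p : ℝ) *
        ∑ l ∈ S with (padicValNat l A.j.den, padicValNat l B.j.den) = v, Real.log l ≤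
        C₁ * (Real.log P.p + hgt A B) := fun v hv => by
      simp only [Finset.mem_product, Finset.mem_Icc] at hv
      refine h₁ P A B X hX hL hpr v.1 v.2 ?_ _ fun l hl => ?_
      · exact (Nat.mul_le_mul_left 36 (Nat.mul_le_mul hv.1.2 hv.2.2)).trans hM'
      · obtain ⟨hl, he⟩ := Finset.mem_filter.1 hl
        rw [← he]
        exact (hS l hl).1
    refine (Finset.sum_le_card_nsmul _ _ _ hb).trans ?_
    rw [Finset.card_product, Nat.card_Icc, Nat.add_sub_cancel, nsmul_eq_mul]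
    push_cast
    nlinarith [mul_nonneg (mul_nonneg hC₂ (sq_nonneg (M : ℝ))) hH']
  · obtain ⟨α, hα⟩ := hz hpr
    have h := h₂ P A α hα S fun l hl =>
      ⟨(hS l hl).1.prime, (hS l hl).1.ne, (hS l hl).1.pos₁, (hS l hl).1.ndvd⟩
    refine h.trans ?_
    have h3 : C₂ * (Real.log P.p + Real.log (ht A.j)) ≤ C₂ * (Real.log P.p + hgt A B) :=
      mul_le_mul_of_nonneg_left (by linarith) hC₂
    have h4 : C₂ ≤ (C₁ + C₂) * (M : ℝ) ^ 2 := by nlinarith
    exact h3.trans (mul_le_mul_of_nonneg_right h4 hH')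

theorem core_bound : ∃ C : ℝ, ∀ (P : Par) (A B : Crv) (X : P.MF), 17 ≤ P.p → X.det = P.m →
    P.Lnk A B X → (¬ Proper A.t B.t → ∃ α, P.Sgn A α) →
    ∑ l ∈ (A.j.den * B.j.den).primeFactors.erase P.p, Real.log l ≤
      C * (P.p : ℝ) ^ (-(1 / 3) : ℝ) * (Real.log P.p + hgt A B) := by
  obtain ⟨C, hC, h⟩ := Main_small
  refine ⟨C + 2, ?_⟩
  intro P A B X hp hX hL hz
  obtain ⟨hA, hB, hH⟩ := log_ht_le_hgt A B
  have hlp := Main_log_nonneg P.p
  have hp1 : (1 : ℝ) ≤ P.p := by exact_mod_cast (by omega : 1 ≤ P.p)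
  have hp0 : (0 : ℝ) < P.p := by linarith
  set q : ℝ := (P.p : ℝ) ^ (1 / 3 : ℝ) with hq
  have hq1 : 1 ≤ q := Real.one_le_rpow hp1 (by norm_num)
  have hq0 : 0 < q := by linarith
  have hq3 : q ^ 3 = P.p := by
    rw [hq, ← Real.rpow_natCast, ← Real.rpow_mul hp0.le]
    norm_num
  rw [Real.rpow_neg hp0.le, ← hq]
  set M : ℕ := ⌊q⌋₊ with hM
  have hMq : (M : ℝ) ≤ q := Nat.floor_le hq0.le
  have hM1 : 1 ≤ M := Nat.le_floor (by simpa using hq1)
  have hM3 : M ^ 3 ≤ P.p := by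
    have : (M : ℝ) ^ 3 ≤ P.p := hq3 ▸ pow_le_pow_left₀ (Nat.cast_nonneg M) hMq 3
    exact_mod_cast this
  obtain ⟨hMp, hM36⟩ := Main_num hp hM3
  have hbig : ∀ v : ℕ, ¬ v ≤ M → q ≤ v := fun v hv => by
    have h1 : q < (M : ℝ) + 1 := Nat.lt_floor_add_one q
    have h2 : (M : ℝ) + 1 ≤ v := by exact_mod_cast (by omega : M + 1 ≤ v)
    linarith
  set T := (A.j.den * B.j.den).primeFactors.erase P.p with hT
  have hTp : ∀ l ∈ T, l.Prime := fun l hl =>
    (Nat.mem_primeFactors.1 (Finset.mem_erase.1 hl).2).1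
  rw [← Finset.sum_filter_add_sum_filter_not T fun l => padicValNat l A.j.den ≤ M,
    ← Finset.sum_filter_add_sum_filter_not (T.filter fun l => padicValNat l A.j.den ≤ M)
      fun l => padicValNat l B.j.den ≤ M]
  have h1 := Main_large A.j.den_pos hq0 (T.filter fun l => ¬ padicValNat l A.j.den ≤ M)
    fun l hl => ⟨hTp l (Finset.mem_filter.1 hl).1, hbig _ (Finset.mem_filter.1 hl).2⟩
  have h2 := Main_large B.j.den_pos hq0 ((T.filter fun l => padicValNat l A.j.den ≤ M).filter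
      fun l => ¬ padicValNat l B.j.den ≤ M)
    fun l hl => ⟨hTp l (Finset.mem_filter.1 (Finset.mem_filter.1 hl).1).1,
      hbig _ (Finset.mem_filter.1 hl).2⟩
  have h3 := h P A B X hX hL hz M hM1 hM36
    ((T.filter fun l => padicValNat l A.j.den ≤ M).filter fun l => padicValNat l B.j.den ≤ M)
    fun l hl => by
      obtain ⟨hl, hb⟩ := Finset.mem_filter.1 hl
      obtain ⟨hl, ha⟩ := Finset.mem_filter.1 hl
      exact ⟨Main_type hX hL hMp hl ha hb, ha, hb⟩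
  have hH' : 0 ≤ Real.log P.p + hgt A B := add_nonneg hlp hH
  have hqi : 0 ≤ q⁻¹ := inv_nonneg.2 hq0.le
  have h4 : q⁻¹ * Real.log A.j.den ≤ q⁻¹ * (Real.log P.p + hgt A B) :=
    mul_le_mul_of_nonneg_left (by linarith [log_den_le A.j]) hqi
  have h5 : q⁻¹ * Real.log B.j.den ≤ q⁻¹ * (Real.log P.p + hgt A B) :=
    mul_le_mul_of_nonneg_left (by linarith [log_den_le B.j]) hqi
  have h6 : C * (M : ℝ) ^ 2 * (Real.log P.p + hgt A B) ≤
      P.p * (C * q⁻¹ * (Real.log P.p + hgt A B)) := by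
    have e : (P.p : ℝ) * (C * q⁻¹ * (Real.log P.p + hgt A B)) =
        C * q ^ 2 * (Real.log P.p + hgt A B) := by
      rw [← hq3]
      field_simp
    rw [e]
    exact mul_le_mul_of_nonneg_right
      (mul_le_mul_of_nonneg_left (pow_le_pow_left₀ (Nat.cast_nonneg M) hMq 2) hC) hH'
  have h7 := le_of_mul_le_mul_left (h3.trans h6) hp0
  have e : (C + 2) * q⁻¹ * (Real.log P.p + hgt A B) = C * q⁻¹ * (Real.log P.p + hgt A B) +
      2 * (q⁻¹ * (Real.log P.p + hgt A B)) := by ring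
  rw [e]
  linarith

theorem radical_bound : ∃ C : ℝ, ∀ p : ℕ, p.Prime → ∀ (E₁ E₂ : WeierstrassCurve ℚ)
    [E₁.IsElliptic] [E₂.IsElliptic], Congruent p E₁ E₂ → ¬ Isogenous E₁ E₂ →
    ∑ l ∈ (E₁.j.den * E₂.j.den).primeFactors.erase p, Real.log l ≤
      C * (p : ℝ) ^ (-(1 / 3) : ℝ) * (Real.log p + Real.log
        (max (max E₁.j.num.natAbs E₁.j.den) (max E₂.j.num.natAbs E₂.j.den) : ℕ)) := by
  obtain ⟨C, h⟩ := core_bound
  refine ⟨max C 34, ?_⟩
  intro p hp E₁ E₂ _ _ hc hI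
  have hp1 : (1 : ℝ) ≤ p := by exact_mod_cast hp.one_le
  have hp0 : (0 : ℝ) < p := by linarith
  have hr : 0 ≤ (p : ℝ) ^ (-(1 / 3) : ℝ) := Real.rpow_nonneg hp0.le _
  have hlp := Main_log_nonneg p
  set N : ℕ := max (max E₁.j.num.natAbs E₁.j.den) (max E₂.j.num.natAbs E₂.j.den) with hN
  have hlN := Main_log_nonneg N
  rcases le_or_gt 17 p with h17 | h17
  · obtain ⟨P, A, B, X, rfl, hA, hB, hX, hL, hz⟩ := setup hp (by omega) E₁ E₂ hc hI
    have h1 := h P A B X h17 hX hL hz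
    have e : hgt A B = Real.log N := by
      rw [hgt, hA, hB]
      rfl
    rw [e, hA, hB] at h1
    refine h1.trans (mul_le_mul_of_nonneg_right ?_ (add_nonneg hlp hlN))
    exact mul_le_mul_of_nonneg_right (le_max_left _ _) hr
  · have h1 := Main_rad (Nat.mul_pos E₁.j.den_pos E₂.j.den_pos) _
      (Finset.erase_subset p (E₁.j.den * E₂.j.den).primeFactors)
    have d1 : (0 : ℝ) < E₁.j.den := by exact_mod_cast E₁.j.den_pos
    have d2 : (0 : ℝ) < E₂.j.den := by exact_mod_cast E₂.j.den_pos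
    rw [Nat.cast_mul, Real.log_mul d1.ne' d2.ne'] at h1
    have h2 : Real.log E₁.j.den ≤ Real.log N := Real.log_le_log d1 (by
      exact_mod_cast (le_max_right _ _).trans (le_max_left _ _))
    have h3 : Real.log E₂.j.den ≤ Real.log N := Real.log_le_log d2 (by
      exact_mod_cast (le_max_right _ _).trans (le_max_right _ _))
    have h4 : (17 : ℝ)⁻¹ ≤ (p : ℝ) ^ (-(1 / 3) : ℝ) := by
      have h5 : (p : ℝ) ^ (-1 : ℝ) ≤ (p : ℝ) ^ (-(1 / 3) : ℝ) :=
        Real.rpow_le_rpow_of_exponent_le hp1 (by norm_num)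
      rw [Real.rpow_neg_one] at h5
      exact (inv_anti₀ hp0 (by exact_mod_cast h17.le)).trans h5
    have h6 : (2 : ℝ) ≤ max C 34 * (p : ℝ) ^ (-(1 / 3) : ℝ) := by
      have := mul_le_mul (le_max_right C 34) h4 (by norm_num) (le_max_of_le_right (by norm_num))
      linarith
    have h7 := mul_le_mul_of_nonneg_right h6 (add_nonneg hlp hlN)
    linarith

end

end Pool.Agent.P.MP_a60a76_nt.Sz
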