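import Pool.Agent.P.MP_a60a76_nt.Sz.TrB
import Pool.Agent.P.MP_a60a76_nt.Sz.BQ
import Pool.Agent.P.MP_a60a76_nt.Sz.Setup

namespace Pool.Agent.P.MP_a60a76_nt.Sz

open UpperHalfPlane hiding J
open MeasureTheory SP
open scoped MatrixGroups UpperHalfPlane Matrix Modular Topology Classical ArithmeticFunction.sigma

noncomputable section

/-! The congruence is orthogonal to all isogenies. -/

section

open WeierstrassCurve SP.Tw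

variable {E₁ E₂ E₃ : WeierstrassCurve ℚ} {t₁ t₂ t₃ : ℍ}

theorem Set2_comp {U₁ : Unif (E₁.baseChange ℂ) t₁} {U₂ : Unif (E₂.baseChange ℂ) t₂}
    {U₃ : Unif (E₃.baseChange ℂ) t₃} {s : ℂ ≃ₐ[ℚ] ℂ} {e e' f f' : ℂ} (h : Conj U₁ U₂ s e e')
    (k : Conj U₂ U₃ s f f') : Conj U₁ U₃ s (f * e) (f' * e') := by
  intro z w hw
  rw [mul_assoc, mul_assoc]
  exact k _ _ (h z w hw)

theorem Set2_dn_zero (t : ℍ) : dn 0 t = 0 := by simp [dn]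

variable {U₁ : Unif (E₁.baseChange ℂ) t₁} {U₂ : Unif (E₂.baseChange ℂ) t₂} {s : ℂ ≃ₐ[ℚ] ℂ}

theorem Set2_zero : Conj U₂ U₁ s 0 0 := fun z w _ => by
  rw [zero_mul, zero_mul, map_zero, map_zero]

theorem Set2_sum (S : Finset MZ) (f g : MZ → MZ)
    (h : ∀ Z ∈ S, Conj U₂ U₁ s (dn (f Z) t₁) (dn (g Z) t₁)) :
    Conj U₂ U₁ s (dn (∑ Z ∈ S, f Z) t₁) (dn (∑ Z ∈ S, g Z) t₁) := by
  induction S using Finset.induction_on with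
  | empty =>
    rw [Finset.sum_empty, Finset.sum_empty, Set2_dn_zero]
    exact Set2_zero
  | insert a S ha ih =>
    intro z w hw
    rw [Finset.sum_insert ha, Finset.sum_insert ha, dn_add, dn_add, add_mul, add_mul, map_add,
      map_add, map_add, h a (Finset.mem_insert_self ..) z w hw,
      ih (fun Z hZ => h Z (Finset.mem_insert_of_mem hZ)) z w hw]

theorem Set2_bl (P : Par) [E₁.IsElliptic] [E₂.IsElliptic] {X : P.MF} (hX : X.det ≠ 0)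
    (hg : ∀ v w, Affine.Point.map (W' := E₂) s.toAlgHom (U₂.Φ (zv P.p v t₂)) = U₂.Φ (zv P.p w t₂) →
      Affine.Point.map (W' := E₁) s.toAlgHom (U₁.Φ (zv P.p (v ᵥ* X) t₁)) =
        U₁.Φ (zv P.p (w ᵥ* X) t₁)) {Z Z' : MZ} (hZ : Rm Z t₁ t₂ = 0) (hZ' : Rm Z' t₁ t₂ = 0)
    (h : Conj U₂ U₁ s (dn Z t₁) (dn Z' t₁)) : bl X (P.rz Z') = bl X (P.rz Z) := by
  obtain ⟨a₁, -, h₁⟩ := gal E₁ U₁ P.p s
  obtain ⟨a₂, u₂, h₂⟩ := gal E₂ U₂ P.p s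
  have e1 : a₂ * X = X * a₁ := Setup_ext fun v => by
    rw [← Matrix.vecMul_vecMul, ← Matrix.vecMul_vecMul]
    exact zv_injective U₁ P.p ((hg v _ (h₂ v).1).symm.trans (h₁ _).1)
  have e2 : a₂ * P.rz Z' = P.rz Z * a₁ := Setup_ext fun v => by
    have h3 := h _ _ (h₂ v).1
    rw [zv_mul_dn P U₁ hZ, zv_mul_dn P U₁ hZ', (h₁ _).1] at h3
    rw [← Matrix.vecMul_vecMul, ← Matrix.vecMul_vecMul]
    exact zv_injective U₁ P.p h3.symm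
  have e3 := bl_mul X (P.rz Z') a₂ 1
  have e4 := bl_mul X (P.rz Z) 1 a₁
  rw [mul_one, mul_one, e1, e2, Matrix.det_one, mul_one] at e3
  rw [one_mul, one_mul, e3, Matrix.det_one, one_mul, (Par.trace_eq_of_mul hX e1).2] at e4
  exact mul_left_cancel₀ u₂.ne_zero e4

variable (U₁ U₂ s)

theorem Set2_ex [E₁.IsElliptic] [E₂.IsElliptic] {Z : MZ} (hZ : Rm Z t₁ t₂ = 0) :
    ∃ Z', Rm Z' t₁ t₂ = 0 ∧ Conj U₂ U₁ s (dn Z t₁) (dn Z' t₁) := by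
  by_cases h0 : Z = 0
  · subst h0
    refine ⟨0, hZ, ?_⟩
    rw [Set2_dn_zero]
    exact Set2_zero
  obtain ⟨e, h1, h2⟩ := exists_conj U₂ U₁ (rm0_dn_ne hZ h0) (hm_iff.2 ⟨Z, hZ, rfl⟩) s
  obtain ⟨Z', h3, rfl⟩ := hm_iff.1 h1
  exact ⟨Z', h3, h2⟩

variable {U₁ U₂ s}

theorem Set2_dual [E₁.IsElliptic] [E₂.IsElliptic] {Z Z' : MZ} (hZ : Rm Z t₁ t₂ = 0)
    (h : Conj U₂ U₁ s (dn Z t₁) (dn Z' t₁)) : ∃ W, Rm W t₂ t₁ = 0 ∧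
      Conj U₁ U₂ s (dn Z.adjugate t₂) (dn W t₂) ∧ dn W t₂ * dn Z' t₁ = Z.det := by
  obtain ⟨W, h1, h2⟩ := Set2_ex U₂ U₁ s (rm0_adj hZ).1
  have h3 := Set2_comp h h2
  rw [(rm0_adj hZ).2] at h3
  exact ⟨W, h1, h2, h3.unique (conj_int s _)⟩

theorem Set2_det_aux (n : ℕ) : ∀ {E₁ E₂ : WeierstrassCurve ℚ} [E₁.IsElliptic] [E₂.IsElliptic]
    {t₁ t₂ : ℍ} {U₁ : Unif (E₁.baseChange ℂ) t₁} {U₂ : Unif (E₂.baseChange ℂ) t₂}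
    {s : ℂ ≃ₐ[ℚ] ℂ} {Z Z' : MZ}, Rm Z t₁ t₂ = 0 → Rm Z' t₁ t₂ = 0 →
    Conj U₂ U₁ s (dn Z t₁) (dn Z' t₁) → Z.det < n → Z'.det = Z.det := by
  induction n with
  | zero => exact fun hZ _ _ h => absurd (rm0_det_nonneg hZ) (not_le.2 (by simpa using h))
  | succ n ih =>
    intro E₁ E₂ _ _ t₁ t₂ U₁ U₂ s Z Z' hZ hZ' h hn
    obtain ⟨W, h1, h2, h3⟩ := Set2_dual hZ h
    have hd : Z.adjugate.det = Z.det := by simp [Matrix.det_adjugate]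
    have h4 : Z.det ≤ Z'.det := not_lt.1 fun k =>
      k.ne' (ih hZ' hZ h.symm (by push_cast at hn; omega))
    have h5 : Z.det ≤ W.det := not_lt.1 fun k =>
      k.ne' (hd.symm.trans (ih h1 (rm0_adj hZ).1 h2.symm (by push_cast at hn; omega)))
    have h6 : W * Z' = Z.det • (1 : MZ) :=
      rm0_ext (rm0_mul h1 hZ').1 (rm0_zsmul _ (rm0_one t₁)) (by
        rw [(rm0_mul h1 hZ').2, h3, dn_zsmul, dn_one, mul_one])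
    have h7 : W.det * Z'.det = Z.det ^ 2 := by
      rw [← Matrix.det_mul, h6, Matrix.det_smul, Matrix.det_one, mul_one, Fintype.card_fin]
    by_cases h0 : Z = 0
    · subst h0
      rw [Set2_dn_zero] at h
      rw [rm0_ext hZ' hZ ((h.unique Set2_zero).trans (Set2_dn_zero _).symm)]
    · have h8 := rm0_det_pos hZ h0
      nlinarith

theorem Set2_det [E₁.IsElliptic] [E₂.IsElliptic] {Z Z' : MZ} (hZ : Rm Z t₁ t₂ = 0)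
    (hZ' : Rm Z' t₁ t₂ = 0) (h : Conj U₂ U₁ s (dn Z t₁) (dn Z' t₁)) : Z'.det = Z.det :=
  Set2_det_aux (Z.det.toNat + 1) hZ hZ' h (by omega)

theorem Set2_fix [E₁.IsElliptic] [E₂.IsElliptic] (hI : ¬ Isogenous E₁ E₂) {Z : MZ}
    (hZ : Rm Z t₁ t₂ = 0) (h : ∀ s, Conj U₂ U₁ s (dn Z t₁) (dn Z t₁)) : Z = 0 := by
  by_contra h0
  have h1 := rm0_dn_ne hZ h0
  obtain ⟨h2, h3⟩ := rm0_adj hZ
  refine hI (isogenous_of_conj U₁ U₂ (e := dn Z.adjugate t₂) (fun k => ?_)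
    (hm_iff.2 ⟨_, h2, rfl⟩) fun s => ?_)
  · rw [k, zero_mul] at h3
    exact (rm0_det_pos hZ h0).ne (by exact_mod_cast h3)
  · obtain ⟨W, -, h4, h5⟩ := Set2_dual hZ (h s)
    rwa [mul_right_cancel₀ h1 (h5.trans h3.symm)] at h4

theorem Set2_orth (P : Par) (h7 : 7 ≤ P.p) [E₁.IsElliptic] [E₂.IsElliptic]
    (hI : ¬ Isogenous E₁ E₂) {X : P.MF} (hX : X.det ≠ 0) (hg : ∀ (s : ℂ ≃ₐ[ℚ] ℂ) v w,
      Affine.Point.map (W' := E₂) s.toAlgHom (U₂.Φ (zv P.p v t₂)) = U₂.Φ (zv P.p w t₂) →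
      Affine.Point.map (W' := E₁) s.toAlgHom (U₁.Φ (zv P.p (v ᵥ* X) t₁)) =
        U₁.Φ (zv P.p (w ᵥ* X) t₁)) {Z₀ : MZ} (hZ : Rm Z₀ t₁ t₂ = 0)
    (h6 : ∀ S : Finset MZ, (∀ Z ∈ S, Rm Z t₁ t₂ = 0 ∧ Z.det = Z₀.det) → S.card ≤ 6) :
    bl X (P.rz Z₀) = 0 := by
  obtain ⟨S, hS⟩ : ∃ S : Finset MZ, ∀ Z, Z ∈ S ↔ Rm Z t₁ t₂ = 0 ∧ Z.det = Z₀.det ∧
      bl X (P.rz Z) = bl X (P.rz Z₀) :=
    Set.Finite.exists_finset ((rm0_finite t₁ t₂ Z₀.det).subset fun Z h =>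
      ⟨h.1, by rw [h.2.1]⟩)
  have hr : Rm (∑ Z ∈ S, Z) t₁ t₂ = 0 :=
    Finset.sum_induction _ (fun Z => Rm Z t₁ t₂ = 0) (fun _ _ => rm0_add)
      (by simpa using rm0_sub hZ hZ) fun Z h => ((hS Z).1 h).1
  have h0 : ∑ Z ∈ S, Z = 0 := Set2_fix (U₁ := U₁) (U₂ := U₂) hI hr fun s => by
    choose! T T1 T2 using fun Z => Set2_ex U₁ U₂ s (Z := Z)
    have h1 : ∀ Z ∈ S, T Z ∈ S := fun Z h => by
      obtain ⟨k1, k2, k3⟩ := (hS Z).1 h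
      exact (hS _).2 ⟨T1 Z k1, (Set2_det k1 (T1 Z k1) (T2 Z k1)).trans k2,
        (Set2_bl P hX (hg s) k1 (T1 Z k1) (T2 Z k1)).trans k3⟩
    have h2 : ∀ Z ∈ S, ∀ W ∈ S, T Z = T W → Z = W := fun Z h W k e =>
      rm0_ext ((hS Z).1 h).1 ((hS W).1 k).1
        ((T2 Z ((hS Z).1 h).1).symm.unique (e ▸ (T2 W ((hS W).1 k).1).symm))
    have h3 : ∑ Z ∈ S, T Z = ∑ Z ∈ S, Z :=
      Finset.sum_bij (fun Z _ => T Z) h1 h2 (fun W k => by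
        obtain ⟨Z, h, e⟩ := Finset.surj_on_of_inj_on_of_card_le (fun Z _ => T Z) h1
          (fun Z W h k => h2 Z h W k) le_rfl W k
        exact ⟨Z, h, e.symm⟩) fun _ _ => rfl
    have h4 := Set2_sum S (fun Z => Z) T fun Z h => T2 Z ((hS Z).1 h).1
    rwa [h3] at h4
  have h1 := congrArg (fun Z => bl X (P.rz Z)) h0
  beta_reduce at h1
  rw [P.rz_sum, bl_sum_right, P.rz_zero, bl_zero_right,
    Finset.sum_congr rfl fun Z h => ((hS Z).1 h).2.2, Finset.sum_const, nsmul_eq_mul] at h1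
  refine (mul_eq_zero.1 h1).resolve_left fun h => ?_
  have h2 := Nat.le_of_dvd (Finset.card_pos.2 ⟨Z₀, (hS _).2 ⟨hZ, rfl, rfl⟩⟩)
    ((ZMod.natCast_eq_zero_iff _ _).1 h)
  have h3 := h6 S fun Z k => ⟨((hS Z).1 k).1, ((hS Z).1 k).2.1⟩
  omega

end

theorem setup2 {p : ℕ} (hp : p.Prime) (h7 : 7 ≤ p) (E₁ E₂ : WeierstrassCurve ℚ) [E₁.IsElliptic]
    [E₂.IsElliptic] (hc : Congruent p E₁ E₂) (hI : ¬ Isogenous E₁ E₂) :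
    ∃ (P : Par) (A B : Crv) (X : P.MF), P.p = p ∧ A.j = E₁.j ∧ B.j = E₂.j ∧ X.det = P.m ∧
      P.Lnk A B X ∧ P.Orth A B X := by
  have : Fact p.Prime := ⟨hp⟩
  obtain ⟨t₁, f₁, j₁, ⟨U₁⟩⟩ := Setup_exists E₁
  obtain ⟨t₂, f₂, j₂, ⟨U₂⟩⟩ := Setup_exists E₂
  obtain ⟨X, hX, hg⟩ := cong_matrix E₂ E₁ U₂ U₁ p hc.symm
  have hm : ((X.det.val : ℤ) : ZMod p) = X.det := by simp
  let P : Par := ⟨p, X.det.val, hp, by omega, fun h =>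
    hX.ne_zero (by rw [← hm]; exact (ZMod.intCast_zmod_eq_zero_iff_dvd _ _).2 h)⟩
  refine ⟨P, Setup_crv E₁ U₁ f₁ j₁, Setup_crv E₂ U₂ f₂ j₂, X, rfl, rfl, rfl, hm.symm,
    fun s => ?_, fun Z hZ => ?_⟩
  · obtain ⟨ρ₁, h₁, e₁⟩ := Setup_rho P E₁ U₁ f₁ j₁ s
    obtain ⟨ρ₂, h₂, e₂⟩ := Setup_rho P E₂ U₂ f₂ j₂ s
    refine ⟨ρ₁, ρ₂, h₁, h₂, Setup_ext fun v => ?_⟩
    rw [← Matrix.vecMul_vecMul, ← Matrix.vecMul_vecMul]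
    exact zv_injective U₁ p ((hg _ v _ (e₂ v)).symm.trans (e₁ _))
  · obtain ⟨Z₁, Z₂, h1, h2, h3, h4⟩ := exists_span t₁ t₂
    obtain ⟨x, y, rfl⟩ := h3 Z hZ
    rw [P.rz_add, P.rz_zsmul, P.rz_zsmul, bl_add_right, bl_smul_right, bl_smul_right,
      Set2_orth P h7 hI hX.ne_zero hg h1 fun S h => h4 S (Or.inl h),
      Set2_orth P h7 hI hX.ne_zero hg h2 fun S h => h4 S (Or.inr h), mul_zero, mul_zero, add_zero]

end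

end Pool.Agent.P.MP_a60a76_nt.Sz
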