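import Pool.Agent.P.MP_a60a76_nt.Sz.PBd
import Pool.Agent.P.MP_a60a76_nt.Sz.Set2

namespace Pool.Agent.P.MP_a60a76_nt.Sz

open UpperHalfPlane hiding J
open MeasureTheory SP
open scoped MatrixGroups UpperHalfPlane Matrix Modular Topology Classical ArithmeticFunction.sigma

noncomputable section

/-! The bound for the radical of all bad primes. -/

theorem Main2_q (P : Par) : ∃ q : ℝ, (P.p : ℝ) ^ (1 / 3 : ℝ) = q ∧ 1 ≤ q ∧ q ^ 3 = P.p ∧
    Real.log P.p ≤ 3 * q := by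
  have hp0 := P.p_pos
  have hp1 : (1 : ℝ) ≤ P.p := by exact_mod_cast P.prime.one_le
  have h1 : 1 ≤ (P.p : ℝ) ^ (1 / 3 : ℝ) := Real.one_le_rpow hp1 (by norm_num)
  have h3 : ((P.p : ℝ) ^ (1 / 3 : ℝ)) ^ 3 = P.p := by
    rw [← Real.rpow_natCast, ← Real.rpow_mul hp0.le]
    norm_num
  refine ⟨_, rfl, h1, h3, ?_⟩
  generalize (P.p : ℝ) ^ (1 / 3 : ℝ) = q at *
  rw [← h3, Real.log_pow]
  have := Real.log_le_sub_one_of_pos (show 0 < q by linarith)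
  push_cast
  linarith

theorem Main2_dvd {l : ℕ} {j : ℚ} (h : Bad l j) (h' : ¬ Bad' l j) : l ∣ j.den := by
  have h1 : padicValRat l j < 0 := by
    rcases h with h | h
    · exact h
    · by_contra h2
      exact h' ⟨not_lt.1 h2, h⟩
  refine dvd_of_one_le_padicValNat ?_
  rw [padicValRat_def] at h1
  omega

theorem Main2_gn : ∃ c : ℝ, 0 < c ∧ ∀ (P : Par) (A B : Crv) (X : P.MF) (q : ℝ) (l : ℕ),
    X.det = P.m → P.Lnk A B X → 28 ≤ q → q ^ 3 = P.p → l.Prime → 5 ≤ l → l ≠ P.p →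
    (Bad l A.j ∨ Bad l B.j) → padicValNat l A.j.den ^ 3 ≤ P.p → padicValNat l B.j.den ^ 3 ≤ P.p →
    P.Gn A B X (q ^ 2) l (c * q) := by
  obtain ⟨c₁, hc₁, h₁⟩ := gn_cusp
  obtain ⟨c₂, hc₂, h₂⟩ := gn_add
  refine ⟨min c₁ c₂, lt_min hc₁ hc₂, fun P A B X q l hX hL hq hq3 hl h5 hne hb v₁ v₂ => ?_⟩
  have hq0 : 0 < q := by linarith
  have hy : 8 ≤ q ^ 2 := by nlinarith
  have e : ∀ c : ℝ, c * P.p / q ^ 2 = c * q := fun c => by
    rw [← hq3]
    field_simp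
  by_cases hb' : Bad' l A.j ∨ Bad' l B.j
  · refine (h₂ P A B X (q ^ 2) l hX hL.lk hl h5 hne hb' hy ?_).mono ?_
    · rw [← hq3]
      nlinarith
    · rw [e]
      exact mul_le_mul_of_nonneg_right (min_le_right _ _) hq0.le
  · rw [not_or] at hb'
    have hd : l ∣ A.j.den * B.j.den := by
      rcases hb with h | h
      · exact (Main2_dvd h hb'.1).mul_right _
      · exact (Main2_dvd h hb'.2).mul_left _
    have h17 : 17 ≤ P.p := by
      have : (17 : ℝ) ≤ P.p := by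
        rw [← hq3]
        nlinarith
      exact_mod_cast this
    have hM : max (padicValNat l A.j.den) (padicValNat l B.j.den) < P.p :=
      max_lt (Main_num h17 v₁).1 (Main_num h17 v₂).1
    have hT := Main_type hX hL hM (Finset.mem_erase.2 ⟨hne, Nat.mem_primeFactors.2
      ⟨hl, hd, (Nat.mul_pos A.j.den_pos B.j.den_pos).ne'⟩⟩) (le_max_left _ _) (le_max_right _ _)
    have hv : ∀ v : ℕ, v ^ 3 ≤ P.p → (v : ℝ) ≤ q := fun v hv => by
      have : (v : ℝ) ^ 3 ≤ q ^ 3 := by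
        rw [hq3]
        exact_mod_cast hv
      exact le_of_pow_le_pow_left₀ (by norm_num) hq0.le this
    refine (h₁ P A B X (q ^ 2) l _ _ hX hL hT (by linarith) ?_).mono ?_
    · have a1 := mul_le_mul (hv _ v₁) (hv _ v₂) (Nat.cast_nonneg _) hq0.le
      rw [← hq3, Nat.cast_mul]
      have a2 : 0 < q ^ 2 := by positivity
      have a3 := mul_le_mul_of_nonneg_right a1 a2.le
      have a4 : 4 * (q ^ 2 * q ^ 2) ≤ q ^ 2 * (q ^ 2 * q ^ 2) :=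
        mul_le_mul_of_nonneg_right (by linarith) (by positivity)
      nlinarith
    · rw [e]
      exact mul_le_mul_of_nonneg_right (min_le_left _ _) hq0.le

theorem Main2_sq {q x K : ℝ} (hq : 1 ≤ q) (hx : 1 ≤ x) (h : x ≤ 3 * q) (hK : q ^ 3 / x ≤ K) :
    q ≤ 3 * K ∧ q * (3 * x) ≤ 27 * K := by
  have hx0 : 0 < x := by linarith
  have hq0 : 0 < q := by linarith
  rw [div_le_iff₀ hx0] at hK
  have hK0 : 0 ≤ K := by
    by_contra h0
    nlinarith [pow_pos hq0 3]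
  constructor
  · have h1 : K * x ≤ K * (3 * q) := mul_le_mul_of_nonneg_left h hK0
    have h2 : q * q ≤ q ^ 3 := by nlinarith [mul_pos hq0 hq0]
    refine le_of_mul_le_mul_right ?_ hq0
    linarith
  · have h1 : x * x ≤ 3 * q * (3 * q) := mul_le_mul h h hx0.le (by linarith)
    have h2 := mul_le_mul_of_nonneg_left h1 hq0.le
    refine le_of_mul_le_mul_right ?_ hx0
    nlinarith

theorem core_small : ∃ (C : ℝ) (p₀ : ℕ), 0 ≤ C ∧ ∀ (P : Par) (A B : Crv) (X : P.MF), p₀ ≤ P.p →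
    X.det = P.m → P.Lnk A B X → P.Orth A B X → ¬ El B.j → ∀ S : Finset ℕ,
    (∀ l ∈ S, l.Prime ∧ 5 ≤ l ∧ l ≠ P.p ∧ (Bad l A.j ∨ Bad l B.j) ∧
      padicValNat l A.j.den ^ 3 ≤ P.p ∧ padicValNat l B.j.den ^ 3 ≤ P.p) →
    (P.p : ℝ) ^ (1 / 3 : ℝ) * ∑ l ∈ S, Real.log l ≤ C * (1 + hgt A B) := by
  obtain ⟨C₁, hC₁, h₁⟩ := master
  obtain ⟨C₂, hC₂, h₂⟩ := th0_small
  obtain ⟨C₃, hC₃, h₃⟩ := th0_large
  obtain ⟨C₄, hC₄, h₄⟩ := p_bound
  obtain ⟨c, hc, h₅⟩ := Main2_gn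
  obtain ⟨D, hD⟩ : ∃ D, D = C₂ + C₃ * (1 + 3 * C₄) := ⟨_, rfl⟩
  have hD0 : 0 ≤ D := by
    rw [hD]
    positivity
  obtain ⟨Q, hQ₁, hQ₂⟩ : ∃ Q : ℝ, 28 ≤ Q ∧ 2 * C₁ * D ≤ c * Q :=
    ⟨max 28 (2 * C₁ * D / c), le_max_left _ _, by
      rw [← div_le_iff₀' hc]
      exact le_max_right _ _⟩
  refine ⟨2 * C₁ * (2 + D) * (1 + 9 * C₄) / c, ⌈Q ^ 3⌉₊, by positivity,
    fun P A B X hp hX hL hO hE S hS => ?_⟩
  obtain ⟨q, hq, hq1, hq3, hlq⟩ := Main2_q P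
  rw [hq]
  have hq0 : 0 < q := by linarith
  have hQq : Q ≤ q := by
    have : Q ^ 3 ≤ q ^ 3 := by
      rw [hq3]
      exact (Nat.le_ceil _).trans (by exact_mod_cast hp)
    exact le_of_pow_le_pow_left₀ (by norm_num) hq0.le this
  have hlp := TyBd_log P
  have hh := (log_ht_le_hgt A B).2.2
  have hy1 : 1 ≤ q ^ 2 := one_le_pow₀ hq1
  have hy0 : 0 < q ^ 2 := by positivity
  have k := h₁ P A B X (q ^ 2) S (fun _ => c * q) hX hL.lk hO hE
    ((inv_le_one_of_one_le₀ (by exact_mod_cast P.prime.one_le)).trans hy1)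
    (by
      rw [← hq3]
      exact pow_le_pow_right₀ hq1 (by norm_num))
    fun l hl => by
      obtain ⟨l₁, l₂, l₃, l₄, l₅, l₆⟩ := hS l hl
      exact ⟨l₁, h₅ P A B X q l hX hL (hQ₁.trans hQq) hq3 l₁ l₂ l₃ l₄ l₅ l₆⟩
  rw [← Finset.mul_sum] at k
  have b₁ := h₄ P A B X hX hL.lk hO hE
  have b₂ := h₂ A B (q ^ 2)⁻¹ (inv_pos.2 hy0) (inv_le_one_of_one_le₀ hy1)
  have b₃ := h₃ A B (q ^ 2) hy1
  have b₄ : Th0 A.t B.t (q ^ 2)⁻¹ ≤ C₂ := by
    refine b₂.trans (mul_le_of_le_one_right hC₂ (Real.exp_le_one_iff.2 ?_))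
    have : 0 ≤ Real.pi / (2 * (q ^ 2)⁻¹) := by positivity
    linarith
  have e : (P.p : ℝ) / (q ^ 2) ^ 2 = q⁻¹ := by
    rw [← hq3]
    field_simp
  rw [e] at k
  rw [Real.sqrt_sq hq0.le] at b₃
  have hR : 0 ≤ ∑ l ∈ S, Real.log l := Finset.sum_nonneg fun l _ => Real.log_natCast_nonneg l
  generalize Real.log P.p = x at *
  rw [← hq3] at b₁
  obtain ⟨b₅, -⟩ := Main2_sq hq1 hlp hlq b₁
  have hH : 0 < 1 + hgt A B := by linarith
  have b₆ : q⁻¹ * Th0 A.t B.t (q ^ 2) ≤ C₃ * (1 + 3 * C₄) := by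
    have a1 : q / (1 + hgt A B) ≤ 3 * C₄ := by
      rw [div_le_iff₀ hH]
      linarith
    calc _ ≤ q⁻¹ * (C₃ * (q + q ^ 2 / (1 + hgt A B))) :=
          mul_le_mul_of_nonneg_left b₃ (inv_nonneg.2 hq0.le)
      _ = C₃ * (1 + q / (1 + hgt A B)) := by field_simp
      _ ≤ _ := by gcongr
  have b₇ : Th0 A.t B.t (q ^ 2)⁻¹ + q⁻¹ * Th0 A.t B.t (q ^ 2) ≤ D := by linarith
  generalize Th0 A.t B.t (q ^ 2)⁻¹ + q⁻¹ * Th0 A.t B.t (q ^ 2) = θ at *
  generalize ∑ l ∈ S, Real.log l = R at *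
  have b₈ : 1 + hgt A B + x ≤ (1 + 9 * C₄) * (1 + hgt A B) := by linarith
  have hM : 0 < 1 + hgt A B + x := by linarith
  generalize 1 + hgt A B + x = M at *
  generalize 1 + hgt A B = H at *
  have c₁ : (1 + q⁻¹) * M ≤ 2 * M :=
    mul_le_mul_of_nonneg_right (by linarith [inv_le_one_of_one_le₀ hq1]) hM.le
  have c₂ : θ * (M + R) ≤ D * (M + R) := mul_le_mul_of_nonneg_right b₇ (by linarith)
  have c₃ : C₁ * ((1 + q⁻¹) * M + θ * (M + R)) ≤ C₁ * (2 * M + D * (M + R)) := by gcongr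
  have c₄ : 2 * C₁ * D * R ≤ c * q * R :=
    mul_le_mul_of_nonneg_right (hQ₂.trans (mul_le_mul_of_nonneg_left hQq hc.le)) hR
  have c₅ : 2 * C₁ * (2 + D) * M ≤ 2 * C₁ * (2 + D) * ((1 + 9 * C₄) * H) := by gcongr
  rw [div_mul_eq_mul_div, le_div_iff₀ hc]
  nlinarith

theorem core_bad : ∃ (C : ℝ) (p₀ : ℕ), 0 ≤ C ∧ ∀ (P : Par) (A B : Crv) (X : P.MF), p₀ ≤ P.p →
    X.det = P.m → P.Lnk A B X → P.Orth A B X → ¬ El B.j → ∀ S : Finset ℕ,
    (∀ l ∈ S, l.Prime ∧ (Bad l A.j ∨ Bad l B.j)) →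
    P.p / Real.log P.p + (P.p : ℝ) ^ (1 / 3 : ℝ) * ∑ l ∈ S, Real.log l ≤ C * (1 + hgt A B) := by
  obtain ⟨C₁, p₀, hC₁, h₁⟩ := core_small
  obtain ⟨C₄, hC₄, h₄⟩ := p_bound
  refine ⟨28 * C₄ + C₁ + 2, p₀, by positivity, fun P A B X hp hX hL hO hE S hS => ?_⟩
  obtain ⟨hA, hB, hh⟩ := log_ht_le_hgt A B
  have b₁ := h₄ P A B X hX hL.lk hO hE
  set S₁ := S.filter fun l => ¬ (l < 5 ∨ l = P.p) with hS₁
  set S₂ := S₁.filter fun l => padicValNat l A.j.den ^ 3 ≤ P.p with hS₂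
  have b₂ := h₁ P A B X hp hX hL hO hE (S₂.filter fun l => padicValNat l B.j.den ^ 3 ≤ P.p)
    fun l hl => by
      obtain ⟨hl, a₁⟩ := Finset.mem_filter.1 hl
      obtain ⟨hl, a₂⟩ := Finset.mem_filter.1 hl
      obtain ⟨hl, a₃⟩ := Finset.mem_filter.1 hl
      rw [not_or, not_lt] at a₃
      exact ⟨(hS l hl).1, a₃.1, a₃.2, (hS l hl).2, a₂, a₁⟩
  obtain ⟨q, hq, hq1, hq3, hlq⟩ := Main2_q P
  rw [hq] at b₂ ⊢
  have hq0 : 0 < q := by linarith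
  have hlp := TyBd_log P
  have hv : ∀ v : ℕ, ¬ v ^ 3 ≤ P.p → q ≤ v := fun v hv => by
    have : q ^ 3 ≤ (v : ℝ) ^ 3 := by
      rw [hq3]
      exact_mod_cast (not_le.1 hv).le
    exact le_of_pow_le_pow_left₀ (by norm_num) (Nat.cast_nonneg _) this
  have b₃ := Main_large A.j.den_pos hq0 (S₁.filter fun l => ¬ padicValNat l A.j.den ^ 3 ≤ P.p)
    fun l hl => ⟨(hS l (Finset.mem_filter.1 (Finset.mem_filter.1 hl).1).1).1,
      hv _ (Finset.mem_filter.1 hl).2⟩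
  have b₄ := Main_large B.j.den_pos hq0 (S₂.filter fun l => ¬ padicValNat l B.j.den ^ 3 ≤ P.p)
    fun l hl => ⟨(hS l (Finset.mem_filter.1 (Finset.mem_filter.1
      (Finset.mem_filter.1 hl).1).1).1).1, hv _ (Finset.mem_filter.1 hl).2⟩
  rw [le_inv_mul_iff₀ hq0] at b₃ b₄
  have b₅ : ∑ l ∈ S.filter fun l => l < 5 ∨ l = P.p, Real.log l ≤ 3 * Real.log P.p := by
    have hsub : (S.filter fun l => l < 5 ∨ l = P.p) ⊆ {2, 3, P.p} := fun l hl => by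
      obtain ⟨hl, a₁⟩ := Finset.mem_filter.1 hl
      have a₂ := (hS l hl).1
      have a₃ := a₂.two_le
      have a₄ : l ≠ 4 := by
        rintro rfl
        norm_num at a₂
      simp only [Finset.mem_insert, Finset.mem_singleton]
      omega
    have hcard : (S.filter fun l => l < 5 ∨ l = P.p).card ≤ 3 :=
      (Finset.card_le_card hsub).trans Finset.card_le_three
    refine (Finset.sum_le_card_nsmul _ _ (Real.log P.p) fun l hl => ?_).trans ?_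
    · obtain ⟨hl, a₁⟩ := Finset.mem_filter.1 hl
      have a₂ := (hS l hl).1.pos
      have a₃ := P.five
      exact Real.log_le_log (by exact_mod_cast a₂) (by exact_mod_cast (by omega : l ≤ P.p))
    · rw [nsmul_eq_mul]
      exact mul_le_mul_of_nonneg_right (by exact_mod_cast hcard) (by linarith)
  have b₆ := mul_le_mul_of_nonneg_left b₅ hq0.le
  have b₇ : q * (3 * Real.log P.p) ≤ 27 * (C₄ * (1 + hgt A B)) :=
    (Main2_sq hq1 hlp hlq (by rwa [hq3])).2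
  rw [← Finset.sum_filter_add_sum_filter_not S fun l => l < 5 ∨ l = P.p, ← hS₁,
    ← Finset.sum_filter_add_sum_filter_not S₁ fun l => padicValNat l A.j.den ^ 3 ≤ P.p, ← hS₂,
    ← Finset.sum_filter_add_sum_filter_not S₂ fun l => padicValNat l B.j.den ^ 3 ≤ P.p]
  linarith [log_den_le A.j, log_den_le B.j]

theorem bad_bound : ∃ C : ℝ, 0 ≤ C ∧ ∀ p : ℕ, p.Prime → ∀ (E₁ E₂ : WeierstrassCurve ℚ)
    [E₁.IsElliptic] [E₂.IsElliptic], Congruent p E₁ E₂ → ¬ Isogenous E₁ E₂ → ∀ S : Finset ℕ,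
    (∀ l ∈ S, l.Prime ∧ (Bad l E₁.j ∨ Bad l E₂.j)) →
    p / Real.log p + (p : ℝ) ^ (1 / 3 : ℝ) * ∑ l ∈ S, Real.log l ≤
      C * (1 + Real.log (max (ht E₁.j) (ht E₂.j) : ℕ)) := by
  obtain ⟨C₁, p₀, hC₁, h₁⟩ := core_bad
  obtain ⟨C₂, hC₂, h₂⟩ := sum_dvd_le
  obtain ⟨N, hN₁, hN₂⟩ : ∃ N : ℕ, p₀ ≤ N ∧ 53 ≤ N := ⟨max p₀ 53, le_max_left _ _, le_max_right _ _⟩
  refine ⟨C₁ + (2 * N + N * (2 * C₂)), by positivity, fun p hp E₁ E₂ _ _ hc hI S hS => ?_⟩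
  have hH := Real.log_natCast_nonneg (max (ht E₁.j) (ht E₂.j))
  rcases le_or_gt N p with hp' | hp'
  · obtain ⟨P, A, B, X, rfl, hA, hB, hX, hL, hO⟩ := setup2 hp (by omega) E₁ E₂ hc hI
    have e : Real.log (max (ht E₁.j) (ht E₂.j) : ℕ) = hgt A B := by rw [hgt, hA, hB]
    rw [← hA, ← hB] at hS
    rw [e] at hH ⊢
    refine le_trans (b := C₁ * (1 + hgt A B)) ?_ (mul_le_mul_of_nonneg_right
      (le_add_of_nonneg_right (by positivity)) (by linarith))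
    by_cases hE : El B.j
    · have hE' : ¬ El A.j := fun h => by
        have := Par.both_ell hX hL.lk hO h hE
        omega
      have e' : hgt A B = hgt B A := by rw [hgt, hgt, max_comm]
      rw [e']
      exact h₁ P B A X.adjugate (hN₁.trans hp') (Par.Glue_det_adj hX) (hL.adj (Main_det hX))
        hO.symm hE' S fun l hl => ⟨(hS l hl).1, (hS l hl).2.symm⟩
    · exact h₁ P A B X (hN₁.trans hp') hX hL hO hE S hS
  · have hp2 : (2 : ℝ) ≤ p := by exact_mod_cast hp.two_le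
    have hpN : (p : ℝ) ≤ N := by exact_mod_cast hp'.le
    have a₁ : p / Real.log p ≤ 2 * N := by
      have l₁ : Real.log 2 ≤ Real.log p := Real.log_le_log (by norm_num) hp2
      have l₂ := Real.log_two_gt_d9
      rw [div_le_iff₀ (by linarith)]
      nlinarith
    have a₂ : (p : ℝ) ^ (1 / 3 : ℝ) ≤ N :=
      (Real.rpow_le_self_of_one_le (by linarith) (by norm_num)).trans hpN
    have a₃ := h₂ E₁.j (S.filter fun l => Bad l E₁.j) fun l hl =>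
      ⟨(hS l (Finset.mem_filter.1 hl).1).1, Rad_bad (Finset.mem_filter.1 hl).2⟩
    have a₄ := h₂ E₂.j (S.filter fun l => ¬ Bad l E₁.j) fun l hl =>
      ⟨(hS l (Finset.mem_filter.1 hl).1).1, Rad_bad
        ((hS l (Finset.mem_filter.1 hl).1).2.resolve_left (Finset.mem_filter.1 hl).2)⟩
    have a₅ : Real.log (ht E₁.j) ≤ Real.log (max (ht E₁.j) (ht E₂.j) : ℕ) :=
      Real.log_le_log (Nat.cast_pos.2 (one_le_ht _)) (Nat.cast_le.2 (le_max_left _ _))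
    have a₆ : Real.log (ht E₂.j) ≤ Real.log (max (ht E₁.j) (ht E₂.j) : ℕ) :=
      Real.log_le_log (Nat.cast_pos.2 (one_le_ht _)) (Nat.cast_le.2 (le_max_right _ _))
    have hR : 0 ≤ ∑ l ∈ S, Real.log l := Finset.sum_nonneg fun l _ => Real.log_natCast_nonneg l
    generalize Real.log (max (ht E₁.j) (ht E₂.j) : ℕ) = H at *
    have a₇ : ∑ l ∈ S, Real.log l ≤ 2 * C₂ * (1 + H) := by
      rw [← Finset.sum_filter_add_sum_filter_not S fun l => Bad l E₁.j]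
      nlinarith
    have a₈ := mul_le_mul a₂ a₇ hR (Nat.cast_nonneg N)
    have a₉ : 0 ≤ C₁ * (1 + H) := by positivity
    have a₀ : 0 ≤ (N : ℝ) * H := by positivity
    nlinarith

end

end Pool.Agent.P.MP_a60a76_nt.Sz
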