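import Pool.Agent.P.MP_a60a76_nt.Sz.Lv1
import Pool.Agent.P.MP_a60a76_nt.Sz.FxA

namespace Pool.Agent.P.MP_a60a76_nt.Sz

open UpperHalfPlane hiding J
open MeasureTheory SP
open scoped MatrixGroups UpperHalfPlane Matrix Modular Topology Classical ArithmeticFunction.sigma

noncomputable section

/-! The modular polynomial on the diagonal; singular moduli are integral. -/

theorem ModP_prod_hnf {n : ℕ} (hn : 0 < n) {φ : MZ → ℂ}
    (h : ∀ (γ : SL(2, ℤ)) (Y : MZ), Y.det = n → φ (γ * Y) = φ Y) (g : SL(2, ℤ)) :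
    ∏ Y ∈ hnf n, φ (Y * g) = ∏ Y ∈ hnf n, φ Y := by
  have hex : ∀ Y : MZ, ∃ a : SL(2, ℤ) × MZ, Y.det = n → a.2 ∈ hnf n ∧ (a.1 : MZ) * a.2 = Y := by
    intro Y
    by_cases hY : Y.det = n
    · obtain ⟨a, ha, e⟩ := (hnf_bijective hn).surjOn hY
      exact ⟨a, fun _ => ⟨ha.2, e⟩⟩
    · exact ⟨(1, 0), fun h => absurd h hY⟩
  choose nf hnf' using hex
  have hd : ∀ (g : SL(2, ℤ)), ∀ Y ∈ hnf n, (Y * g).det = n := fun g Y hY => by
    rw [Matrix.det_mul, g.det_coe, mul_one, Cos_det_hnf hn hY]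
  have key : ∀ (g g' : SL(2, ℤ)), g * g' = 1 → ∀ Y ∈ hnf n, (nf ((nf (Y * g)).2 * g')).2 = Y := by
    intro g g' hg Y hY
    obtain ⟨h1, h2⟩ := hnf' _ (hd g Y hY)
    obtain ⟨h3, h4⟩ := hnf' _ (hd g' _ h1)
    have h5 : (((nf (Y * g)).1 * (nf ((nf (Y * g)).2 * g')).1 : SL(2, ℤ)) : MZ) *
        (nf ((nf (Y * g)).2 * g')).2 = Y := by
      rw [Matrix.SpecialLinearGroup.coe_mul, mul_assoc, h4, ← mul_assoc, h2, mul_assoc,
        ← Matrix.SpecialLinearGroup.coe_mul, hg, Matrix.SpecialLinearGroup.coe_one, mul_one]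
    have h6 := Cos_hnf_uniq hn h3 hY h5
    rwa [h6, Matrix.SpecialLinearGroup.coe_one, one_mul] at h5
  refine Finset.prod_nbij' (fun Y => (nf (Y * g)).2) (fun Y => (nf (Y * (g⁻¹ : SL(2, ℤ)))).2)
    (fun Y hY => (hnf' _ (hd g Y hY)).1) (fun Y hY => (hnf' _ (hd _ Y hY)).1)
    (key g g⁻¹ (mul_inv_cancel g)) (key g⁻¹ g (inv_mul_cancel g)) fun Y hY => ?_
  obtain ⟨h1, h2⟩ := hnf' _ (hd g Y hY)
  rw [← h _ _ (Cos_det_hnf hn h1), h2]

theorem ModP_mob_left (γ : SL(2, ℤ)) {Y : MZ} (hY : 0 < Y.det) (τ : ℍ) :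
    mob (γ * Y) τ = γ • mob Y τ := by
  rw [mob_mul (sl_det_pos γ) hY, mob_sl]

theorem mp_smul {n : ℕ} (hn : 0 < n) (g : SL(2, ℤ)) (τ : ℍ) : mp n (g • τ) = mp n τ := by
  have hn' : (0 : ℤ) < n := by exact_mod_cast hn
  rw [mp, mp, ← ModP_prod_hnf hn (φ := fun Y => J τ - J (mob Y τ))
    (fun γ Y hY => by rw [ModP_mob_left γ (hY ▸ hn'), SP.J_smul]) g]
  refine Finset.prod_congr rfl fun Y hY => ?_
  rw [SP.J_smul, mob_mul (Cos_det_hnf hn hY ▸ hn') (sl_det_pos g), mob_sl]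

theorem mp_eq_zero_iff {n : ℕ} (hn : 0 < n) (s : ℍ) :
    mp n s = 0 ↔ ∃ Y : MZ, Rm Y s s = 0 ∧ Y.det = n := by
  have hn' : (0 : ℤ) < n := by exact_mod_cast hn
  rw [mp, Finset.prod_eq_zero_iff]
  constructor
  · rintro ⟨Z, hZ, h⟩
    obtain ⟨γ, hγ⟩ := J_inj (sub_eq_zero.1 h).symm
    have hd : ((γ : MZ) * Z).det = n := by
      rw [Matrix.det_mul, γ.det_coe, one_mul, Cos_det_hnf hn hZ]
    refine ⟨γ * Z, (Rm_eq_zero_iff (hd ▸ hn') _ _).2 ?_, hd⟩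
    rwa [ModP_mob_left γ (Cos_det_hnf hn hZ ▸ hn')]
  · rintro ⟨Y, hY, hd⟩
    obtain ⟨⟨γ, Z⟩, ⟨-, hZ⟩, e⟩ := (hnf_bijective hn).surjOn hd
    refine ⟨Z, hZ, sub_eq_zero.2 ?_⟩
    have h := (Rm_eq_zero_iff (hd ▸ hn') _ _).1 hY
    simp only at e
    rw [← e, ModP_mob_left γ (Cos_det_hnf hn hZ ▸ hn')] at h
    rw [← SP.J_smul γ (mob Z s), ← h]

/-- Integral expansions whose leading coefficient is a unit. -/
def ModP_U {K : Type} [NormedField K] (ι : ℂ →+* K) (N : ℕ) (L : ℤ) (F : ℍ → ℂ) : Prop :=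
  ∃ c : ℤ → ℂ, QS N c F ∧ (∀ ν, ‖ι (c ν)‖ ≤ 1) ∧ (∀ ν < L, c ν = 0) ∧ ‖ι (c L)‖ = 1

section

variable {K : Type} [NormedField K] [IsUltrametricDist K] {ι : ℂ →+* K} {F G : ℍ → ℂ} {N : ℕ}
  {L L' : ℤ}

theorem ModP_U.scale (h : ModP_U ι N L F) {M : ℕ} (hM : 0 < M) : ModP_U ι (M * N) (M * L) F := by
  obtain ⟨c, h1, h2, h3, h4⟩ := h
  have hM' : (0 : ℤ) < M := by exact_mod_cast hM
  refine ⟨_, h1.scale hM, fun ν => ?_, fun ν hν => ?_, ?_⟩
  · split_ifs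
    · exact h2 _
    · simp
  · split_ifs with hd
    · obtain ⟨k, rfl⟩ := hd
      rw [Int.mul_ediv_cancel_left _ hM'.ne']
      exact h3 _ (lt_of_mul_lt_mul_left hν hM'.le)
    · rfl
  · rw [if_pos (dvd_mul_right _ _), Int.mul_ediv_cancel_left _ hM'.ne', h4]

theorem ModP_U.mul (h : ModP_U ι N L F) (h' : ModP_U ι N L' G) :
    ModP_U ι N (L + L') fun τ => F τ * G τ := by
  obtain ⟨c, h1, h2, h3, h4⟩ := h
  obtain ⟨c', h1', h2', h3', h4'⟩ := h'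
  refine ⟨_, h1.mul h1' h3 h3', fun ν => ?_, fun ν hν => ?_, ?_⟩
  · exact (Ai ι).sum_mem fun μ _ => (Ai ι).mul_mem (h2 _) (h2' _)
  · rw [Finset.Icc_eq_empty (by omega), Finset.sum_empty]
  · rw [add_sub_cancel_right, Finset.Icc_self, Finset.sum_singleton, add_sub_cancel_left, map_mul,
      norm_mul, h4, h4', mul_one]

theorem ModP_U.sub (h : ModP_U ι N L F) (h' : ModP_U ι N L' G) (hL : L ≠ L') :
    ModP_U ι N (min L L') fun τ => F τ - G τ := by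
  obtain ⟨c, h1, h2, h3, h4⟩ := h
  obtain ⟨c', h1', h2', h3', h4'⟩ := h'
  refine ⟨_, h1.sub h1', fun ν => (Ai ι).sub_mem (h2 _) (h2' _), fun ν hν => ?_, ?_⟩
  · rw [h3 ν (by omega), h3' ν (by omega), sub_zero]
  · rcases lt_or_gt_of_ne hL with h | h
    · rw [min_eq_left h.le, h3' _ h, sub_zero, h4]
    · rw [min_eq_right h.le, h3 _ h, zero_sub, map_neg, norm_neg, h4']

theorem ModP_U.tri (h : ModP_U ι N L F) (hN : 0 < N) {a d : ℕ} (ha : 0 < a) (hd : 0 < d) (b : ℤ) :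
    ModP_U ι (N * d) (a * L) fun τ => F (mob !![(a : ℤ), b; 0, (d : ℤ)] τ) := by
  obtain ⟨c, h1, h2, h3, h4⟩ := h
  have ha' : (0 : ℤ) < a := by exact_mod_cast ha
  have he : ∀ k : ℤ, ‖ι (ee (k * b / (N * d)))‖ = 1 := fun k => by
    refine norm_map_root ι (n := N * d) (by positivity) ?_
    have hN' : (N : ℂ) ≠ 0 := by exact_mod_cast hN.ne'
    have hd' : (d : ℂ) ≠ 0 := by exact_mod_cast hd.ne'
    rw [← ee_nat_mul, ← ee_int (k * b)]
    congr 1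
    push_cast
    field_simp
  refine ⟨_, h1.mob_tri hN ha hd b, fun ν => ?_, fun ν hν => ?_, ?_⟩
  · split_ifs
    · rw [map_mul, norm_mul, he, mul_one]
      exact h2 _
    · simp
  · split_ifs with hd
    · obtain ⟨k, rfl⟩ := hd
      rw [Int.mul_ediv_cancel_left _ ha'.ne', h3 _ (lt_of_mul_lt_mul_left hν ha'.le), zero_mul]
    · rfl
  · rw [if_pos (dvd_mul_right _ _), map_mul, norm_mul, he, Int.mul_ediv_cancel_left _ ha'.ne', h4,
      mul_one]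

theorem ModP_U_J (ι : ℂ →+* K) : ModP_U ι 1 (-1) J := by
  obtain ⟨c, h1, h2, h3⟩ := qz_J_pow 1
  refine ⟨_, h1.congr (fun _ => rfl) fun τ => pow_one _, fun ν => norm_map_int ι _,
    fun ν hν => ?_, ?_⟩
  · rw [h2 ν (by simpa using hν), Int.cast_zero]
  · rw [show c (-1) = 1 by simpa using h3]
    simp

theorem ModP_U_prod {κ : Type} (S : Finset κ) {f : κ → ℍ → ℂ}
    (h : ∀ i ∈ S, ∃ L, ModP_U ι N L (f i)) : ∃ L, ModP_U ι N L fun τ => ∏ i ∈ S, f i τ := by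
  induction S using Finset.induction_on with
  | empty =>
    refine ⟨0, _, (QS.single N 0 1).congr (fun _ => rfl) fun τ => by simp [ee_zero],
      fun ν => ?_, fun ν hν => if_neg hν.ne, by simp⟩
    split_ifs <;> simp
  | insert i S hi ih =>
    obtain ⟨L, hL⟩ := h i (Finset.mem_insert_self _ _)
    obtain ⟨L', hL'⟩ := ih fun j hj => h j (Finset.mem_insert_of_mem hj)
    simp only [Finset.prod_insert hi]
    exact ⟨_, hL.mul hL'⟩

theorem ModP_root {Q : Polynomial ℂ} (h1 : ∀ i, ‖ι (Q.coeff i)‖ ≤ 1) (h2 : ‖ι Q.leadingCoeff‖ = 1)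
    {x : ℂ} (hx : Q.eval x = 0) : ‖ι x‖ ≤ 1 := by
  by_contra hc
  rw [not_le] at hc
  have h0 : 0 < ‖ι x‖ := one_pos.trans hc
  rw [Polynomial.eval_eq_sum_range, Finset.sum_range_succ, add_eq_zero_iff_eq_neg] at hx
  have h3 := congrArg (fun z => ‖ι z‖) hx
  simp only [map_neg, norm_neg, map_mul, norm_mul, map_pow, norm_pow, map_sum,
    Polynomial.coeff_natDegree, h2, one_mul] at h3
  have h4 : ‖∑ i ∈ Finset.range Q.natDegree, ι (Q.coeff i) * ι x ^ i‖ ≤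
      ‖ι x‖ ^ Q.natDegree / ‖ι x‖ := by
    refine IsUltrametricDist.norm_sum_le_of_forall_le_of_nonneg (by positivity) fun i hi => ?_
    rw [norm_mul, norm_pow, le_div_iff₀ h0, mul_assoc, ← pow_succ]
    exact (mul_le_of_le_one_left (by positivity) (h1 i)).trans
      (pow_le_pow_right₀ hc.le (Finset.mem_range.1 hi))
  rw [h3] at h4
  exact absurd h4 (not_le.2 (div_lt_self (by positivity) hc))

end

theorem mp_lead {K : Type} [NormedField K] [IsUltrametricDist K] (ι : ℂ →+* K) {n : ℕ}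
    (hn : ¬ IsSquare n) : ∃ Q : Polynomial ℂ, (∀ i, ‖ι (Q.coeff i)‖ ≤ 1) ∧
      ‖ι Q.leadingCoeff‖ = 1 ∧ ∀ τ, mp n τ = Q.eval (J τ) := by
  have h0 : 0 < n := Nat.pos_of_ne_zero fun h => hn (h ▸ IsSquare.zero)
  obtain ⟨L, c, h1, h2, h3, h4⟩ := ModP_U_prod (ι := ι) (N := n) (hnf n)
    (f := fun Z τ => J τ - J (mob Z τ)) (fun Z hZ => by
      obtain ⟨a1, a2, a3, a4, -, -⟩ := (mem_hnf h0).1 hZ
      obtain ⟨a, ha⟩ := Int.eq_ofNat_of_zero_le a2.le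
      obtain ⟨d, hd⟩ := Int.eq_ofNat_of_zero_le a3.le
      have e : Z = !![(a : ℤ), Z 0 1; 0, (d : ℤ)] := by
        rw [← ha, ← hd, ← a1]
        exact Matrix.eta_fin_two Z
      rw [ha] at a2 a4
      rw [hd] at a3 a4
      have b2 : 0 < a := by exact_mod_cast a2
      have b3 : 0 < d := by exact_mod_cast a3
      have b4 : a * d = n := by exact_mod_cast a4
      have b5 : (d : ℤ) * -1 ≠ a * -1 := fun h => by
        obtain rfl : d = a := by omega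
        exact hn ⟨d, b4.symm⟩
      have u1 := (ModP_U_J ι).scale b3
      have u2 := (ModP_U_J ι).tri one_pos b2 b3 (Z 0 1)
      rw [mul_one] at u1
      rw [one_mul, ← e] at u2
      have u3 := (u1.sub u2 b5).scale b2
      rw [b4] at u3
      exact ⟨_, u3⟩)
  obtain ⟨Q, q1, q2, q3⟩ := lev_one h0 h1 (mp_smul h0) (Ai ι).toAddSubgroup h2
  refine ⟨Q, q1, ?_, q2⟩
  rw [q3 L h3 fun h => by simp [h] at h4, h4]

theorem cm_int {K : Type} [NormedField K] [IsUltrametricDist K] (ι : ℂ →+* K) {Y : MZ} {s : ℍ}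
    (hY : Rm Y s s = 0) (h0 : (dn Y s).im ≠ 0) : ‖ι (J s)‖ ≤ 1 := by
  have hd : 0 < dsc Y := by
    have h1 : (0 : ℝ) < dsc Y := by
      rw [fix_dsc hY]
      positivity
    exact_mod_cast h1
  obtain ⟨k, hk⟩ : ∃ k : ℤ, dsc Y ≤ 2 * k + Y.trace := ⟨|Y.trace| + dsc Y, by
    have := neg_abs_le Y.trace
    have := abs_nonneg Y.trace
    omega⟩
  have h1 : Rm (Y + k • (1 : MZ)) s s = 0 := rm0_add hY (rm0_zsmul k (rm0_one s))
  have h2 : 4 * (Y + k • (1 : MZ)).det = (2 * k + Y.trace) ^ 2 + dsc Y := by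
    simp only [dsc, Matrix.det_fin_two, Matrix.trace_fin_two, Matrix.add_apply, Matrix.smul_apply,
      Matrix.one_apply_eq, Matrix.one_apply_ne (zero_ne_one), Matrix.one_apply_ne (one_ne_zero),
      smul_eq_mul]
    ring
  obtain ⟨n, hn⟩ := Int.eq_ofNat_of_zero_le (rm0_det_nonneg h1)
  have h3 : ¬ IsSquare n := by
    rintro ⟨m, rfl⟩
    rw [hn] at h2
    push_cast at h2
    have h4 : 2 * k + Y.trace < 2 * m := by
      by_contra h
      have : (0 : ℤ) ≤ m := Int.natCast_nonneg m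
      nlinarith
    nlinarith
  obtain ⟨Q, q1, q2, q3⟩ := mp_lead ι h3
  refine ModP_root q1 q2 ?_
  rw [← q3]
  exact (mp_eq_zero_iff (Nat.pos_of_ne_zero fun h => h3 ⟨0, h⟩) s).2 ⟨_, h1, hn⟩

end

end Pool.Agent.P.MP_a60a76_nt.Sz
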