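import Pool.Agent.P.MP_a60a76_nt.Sz.BQ
import Pool.Agent.P.MP_a60a76_nt.Sz.ModP
import Pool.Agent.P.MP_a60a76_nt.Sz.Plc
import Pool.Agent.P.MP_a60a76_nt.Sz.Prod

namespace Pool.Agent.P.MP_a60a76_nt.Sz

open UpperHalfPlane hiding J
open MeasureTheory SP
open scoped MatrixGroups UpperHalfPlane Matrix Modular Topology Classical ArithmeticFunction.sigma

noncomputable section

/-! The theta series of the lattice of isogenies. -/

theorem th0_nonneg (t₁ t₂ : ℍ) (y : ℝ) : 0 ≤ Th0 t₁ t₂ y := by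
  exact tsum_nonneg fun W => by split_ifs <;> positivity

theorem th0_smul (g : SL(2, ℤ)) (t₁ t₂ : ℍ) (y : ℝ) : Th0 (g • t₁) t₂ y = Th0 t₁ t₂ y := by
  refine Eq.trans (tsum_congr fun W => ?_)
    ((Units.mulRight (Matrix.SpecialLinearGroup.toGL g)).tsum_eq _)
  have e : Units.mulRight (Matrix.SpecialLinearGroup.toGL g) W = W * (g : MZ) := rfl
  have e1 : W * (g : MZ) ≠ 0 ↔ W ≠ 0 :=
    not_congr (Units.mul_left_eq_zero (Matrix.SpecialLinearGroup.toGL g))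
  simp only [e, e1, Rm_smul_left, Matrix.det_mul, g.det_coe, mul_one]

theorem cm_den (A : Crv) {Y : MZ} (h : Rm Y A.t A.t = 0) (h0 : (dn Y A.t).im ≠ 0) :
    A.j.den = 1 := by
  by_contra h1
  obtain ⟨l, hl, hd⟩ := Nat.exists_prime_and_dvd h1
  have := Fact.mk hl
  obtain ⟨ι, hι⟩ := exists_place l
  have h2 : ‖ι (J A.t)‖ ≤ 1 := cm_int (ι : ℂ →+* PadicComplex l) h h0
  have h3 : 0 < padicValNat l A.j.den := one_le_padicValNat_of_dvd A.j.den_nz hd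
  rw [A.J_eq, hι, padicNorm_of_pos hl h3] at h2
  exact absurd h2 (not_le.2 (one_lt_pow₀ (by exact_mod_cast hl.one_lt) h3.ne'))

theorem cm_ht : ∃ C : ℝ, 0 ≤ C ∧ ∀ (A : Crv) (Y : MZ), Rm Y A.t A.t = 0 → (dn Y A.t).im ≠ 0 →
    Real.log (ht A.j) ≤ C * Real.sqrt (dsc Y) := by
  obtain ⟨C, hC⟩ := J_bound
  have h1 : 0 ≤ Real.log (max C 1) := Real.log_nonneg (le_max_right _ _)
  have hπ := Real.pi_pos
  refine ⟨Real.log (max C 1) + 4 * Real.pi, by positivity, fun A Y h h0 => ?_⟩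
  have h2 := fix_im_le h h0
  have h3 := A.half_le_im
  have h4 : 2 * A.t.im ≤ Real.sqrt (dsc Y) := Real.le_sqrt_of_sq_le (by linarith)
  have h5 : A.t.im⁻¹ ≤ 2 := inv_le_of_inv_le₀ two_pos (by linarith)
  have h6 : max A.t.im A.t.im⁻¹ ≤ 2 * Real.sqrt (dsc Y) := max_le (by linarith) (by linarith)
  have h7 : 1 ≤ Real.exp (4 * Real.pi * Real.sqrt (dsc Y)) := Real.one_le_exp (by positivity)
  have h8 : (ht A.j : ℝ) ≤ max C 1 * Real.exp (4 * Real.pi * Real.sqrt (dsc Y)) := by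
    have h9 := Prod_abs A.j
    rw [ht, cm_den A h h0, Nat.cast_max]
    rw [cm_den A h h0, Nat.cast_one, div_one] at h9
    refine max_le ?_ (by
      rw [Nat.cast_one]
      exact one_le_mul_of_one_le_of_one_le (le_max_right _ _) h7)
    have h10 := hC A.t
    rw [A.J_eq, Complex.norm_ratCast, h9] at h10
    refine h10.trans (mul_le_mul (le_max_left _ _) (Real.exp_le_exp.2 ?_) (Real.exp_pos _).le
      (zero_le_one.trans (le_max_right _ _)))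
    nlinarith
  have h9 : (0 : ℝ) < ht A.j := by exact_mod_cast one_le_ht A.j
  have h10 := Real.log_le_log h9 h8
  rw [Real.log_mul (by positivity) (Real.exp_pos _).ne', Real.log_exp] at h10
  nlinarith

theorem Tha_le {α ι : Type} [Nonempty ι] {f : α → ℝ} {g : ι → ℝ} (hf : ∀ a, 0 ≤ f a)
    (hg0 : ∀ i, 0 ≤ g i) (hg : Summable g) (φ : ι → α)
    (h : ∀ a, f a ≠ 0 → ∃ i, φ i = a ∧ f a ≤ g i) : ∑' a, f a ≤ ∑' i, g i := by
  choose! ψ h1 h2 using h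
  refine Real.tsum_le_of_sum_le hf fun s => ?_
  rw [← Finset.sum_filter_ne_zero]
  refine (Finset.sum_le_sum fun a ha => h2 a (Finset.mem_filter.1 ha).2).trans ?_
  rw [← Finset.sum_image (f := g) fun a ha b hb e => by
    rw [← h1 a (Finset.mem_filter.1 ha).2, e, h1 b (Finset.mem_filter.1 hb).2]]
  exact hg.sum_le_tsum _ fun i _ => hg0 i

theorem Tha_le_sub {ι : Type} [Zero ι] {t₁ t₂ : ℍ} {y : ℝ} {g : ι → ℝ} (hg0 : ∀ i, 0 ≤ g i)
    (hg : Summable g) (φ : ι → MZ) (h0 : φ 0 = 0)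
    (h : ∀ Z, Rm Z t₁ t₂ = 0 → ∃ i, φ i = Z ∧ Real.exp (-(Real.pi * Z.det / y)) ≤ g i) :
    Th0 t₁ t₂ y ≤ ∑' i, g i - g 0 := by
  rw [hg.tsum_eq_add_tsum_ite 0, add_sub_cancel_left]
  refine Tha_le (fun W => by split_ifs <;> positivity) (fun i => by split_ifs <;> simp [hg0])
    (hg.of_nonneg_of_le (fun i => by split_ifs <;> simp [hg0])
      fun i => by split_ifs <;> simp [hg0]) φ fun W hW => ?_
  have h1 : W ≠ 0 ∧ Rm W t₁ t₂ = 0 := by
    by_contra h2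
    exact hW (if_neg h2)
  obtain ⟨i, rfl, hi⟩ := h W h1.2
  refine ⟨i, rfl, ?_⟩
  rw [if_pos h1, if_neg fun h2 : i = 0 => h1.1 (h2 ▸ h0)]
  exact hi

theorem Tha_gauss {a y : ℝ} (ha : 0 < a) (hy : 0 < y) :
    Summable (fun n : ℤ => Real.exp (-(a / y * n ^ 2))) ∧
      ∑' n : ℤ, Real.exp (-(a / y * n ^ 2)) ≤ 1 + 4 * Real.sqrt y / Real.sqrt a := by
  have := gauss_sum_le (div_pos ha hy) 0
  simp only [add_zero] at this
  rwa [Real.sqrt_div ha.le, div_div_eq_mul_div] at this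

theorem Tha_exp {n m y : ℝ} (hy : 0 < y) (hn : 0 ≤ n) (h : m ≤ 2 * n) :
    Real.exp (-(Real.pi * n / y)) ≤ Real.exp (-(m / y)) := by
  refine Real.exp_le_exp.2 (neg_le_neg (div_le_div_of_nonneg_right ?_ hy.le))
  nlinarith [Real.pi_gt_three]

theorem Tha_one {t₁ t₂ : ℍ} {y : ℝ} (hy : 0 < y) {Z₁ : MZ} (h0 : Z₁ ≠ 0) (h1 : Rm Z₁ t₁ t₂ = 0)
    (h : ∀ Z, Rm Z t₁ t₂ = 0 → ∃ x : ℤ, Z = x • Z₁) : Th0 t₁ t₂ y ≤ 4 * Real.sqrt y := by
  obtain ⟨h2, h3⟩ := Tha_gauss one_pos hy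
  have h4 : (1 : ℝ) ≤ Z₁.det := by exact_mod_cast rm0_det_pos h1 h0
  have h5 := Tha_le_sub (t₁ := t₁) (t₂ := t₂) (y := y) (fun _ => (Real.exp_pos _).le) h2
    (fun x => x • Z₁) (zero_smul _ _) fun Z hZ => by
      obtain ⟨x, rfl⟩ := h Z hZ
      refine ⟨x, rfl, ?_⟩
      rw [Matrix.det_smul, div_mul_eq_mul_div, one_mul, Fintype.card_fin]
      rw [Int.cast_mul, Int.cast_pow]
      exact Tha_exp hy (by positivity) (by nlinarith [sq_nonneg (x : ℝ)])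
  simp only [Int.cast_zero, ne_eq, OfNat.ofNat_ne_zero, not_false_eq_true, zero_pow, mul_zero,
    neg_zero, Real.exp_zero] at h5
  rw [Real.sqrt_one, div_one] at h3
  linarith

theorem Tha_two {t₁ t₂ : ℍ} {y : ℝ} (hy : 0 < y) {Z₁ Z₂ : MZ} (h : IsB t₁ t₂ Z₁ Z₂) :
    Th0 t₁ t₂ y ≤ 8 * Real.sqrt y + 32 * y / Real.sqrt (gr Z₁ Z₂) := by
  have a1 : (1 : ℝ) ≤ Z₁.det := by exact_mod_cast h.pos
  have a2 : (1 : ℝ) ≤ Z₂.det := by exact_mod_cast h.pos.trans_le h.le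
  obtain ⟨h2, h3⟩ := Tha_gauss (zero_lt_one.trans_le a1) hy
  obtain ⟨h4, h5⟩ := Tha_gauss (zero_lt_one.trans_le a2) hy
  have h6 := h2.mul_of_nonneg h4 (fun _ => (Real.exp_pos _).le) fun _ => (Real.exp_pos _).le
  have h7 := Tha_le_sub (t₁ := t₁) (t₂ := t₂) (y := y) (fun _ => by positivity) h6
    (fun x => x.1 • Z₁ + x.2 • Z₂) (by simp) fun Z hZ => by
      obtain ⟨x, x', rfl⟩ := h.span Z hZ
      refine ⟨(x, x'), rfl, ?_⟩
      have h8 : (x : ℝ) ^ 2 * Z₁.det + (x' : ℝ) ^ 2 * Z₂.det ≤ 2 * (x • Z₁ + x' • Z₂).det := by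
        exact_mod_cast h.det_ge x x'
      refine (Tha_exp hy (by exact_mod_cast rm0_det_nonneg hZ) h8).trans_eq ?_
      rw [← Real.exp_add]
      congr 1
      ring
  rw [← h2.tsum_mul_tsum h4 h6] at h7
  simp only [Prod.fst_zero, Prod.snd_zero, Int.cast_zero, ne_eq, OfNat.ofNat_ne_zero,
    not_false_eq_true, zero_pow, mul_zero, neg_zero, Real.exp_zero, mul_one] at h7
  have h8 := mul_le_mul h3 h5 (tsum_nonneg fun _ => (Real.exp_pos _).le) (by positivity)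
  have s1 : 1 ≤ Real.sqrt Z₁.det := Real.one_le_sqrt.2 a1
  have s2 : 1 ≤ Real.sqrt Z₂.det := Real.one_le_sqrt.2 a2
  have s0 := Real.sqrt_nonneg y
  have b1 : 4 * Real.sqrt y / Real.sqrt Z₁.det ≤ 4 * Real.sqrt y := div_le_self (by positivity) s1
  have b2 : 4 * Real.sqrt y / Real.sqrt Z₂.det ≤ 4 * Real.sqrt y := div_le_self (by positivity) s2
  have g0 : (3 : ℝ) ≤ gr Z₁ Z₂ := by exact_mod_cast h.three_le
  have g1 : (gr Z₁ Z₂ : ℝ) ≤ 4 * Z₁.det * Z₂.det := by exact_mod_cast h.gr_le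
  have g2 : Real.sqrt (gr Z₁ Z₂) ≤ 2 * (Real.sqrt Z₁.det * Real.sqrt Z₂.det) := by
    refine Real.sqrt_le_iff.2 ⟨by positivity, ?_⟩
    rw [mul_pow, mul_pow, Real.sq_sqrt (by linarith), Real.sq_sqrt (by linarith)]
    linarith
  have b3 : 4 * Real.sqrt y / Real.sqrt Z₁.det * (4 * Real.sqrt y / Real.sqrt Z₂.det) ≤
      32 * y / Real.sqrt (gr Z₁ Z₂) := by
    refine le_trans (le_of_eq ?_) (div_le_div_of_nonneg_left (by positivity)
      (Real.sqrt_pos.2 (by linarith)) g2)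
    nth_rw 3 [← Real.mul_self_sqrt hy.le]
    field_simp
    norm_num
  nlinarith

theorem th0_large : ∃ C : ℝ, 0 ≤ C ∧ ∀ (A B : Crv) (y : ℝ), 1 ≤ y →
    Th0 A.t B.t y ≤ C * (Real.sqrt y + y / (1 + hgt A B)) := by
  obtain ⟨C, hC0, hC⟩ := cm_ht
  refine ⟨32 * (1 + C), by positivity, fun A B y hy => ?_⟩
  have hy0 : 0 < y := by linarith
  have h0 := (log_ht_le_hgt A B).2.2
  have s0 := Real.sqrt_nonneg y
  have s1 : 0 ≤ y / (1 + hgt A B) := by positivity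
  rcases zs_cases A.t B.t with h | ⟨Z, h1, h2, h3⟩ | ⟨Z₁, Z₂, h⟩
  · have : Th0 A.t B.t y = 0 := by
      rw [Th0, tsum_congr fun W => if_neg fun h1 => h1.1 (h W h1.2), tsum_zero]
    rw [this]
    positivity
  · have := Tha_one hy0 h1 h2 h3
    nlinarith [mul_nonneg hC0 s0, mul_nonneg hC0 s1]
  · obtain ⟨⟨Y₁, a1, a2, a3⟩, Y₂, b1, b2, b3⟩ := h.exists_fix
    have g0 : (3 : ℝ) ≤ gr Z₁ Z₂ := by exact_mod_cast h.three_le
    have g1 : 1 ≤ Real.sqrt (gr Z₁ Z₂) := Real.one_le_sqrt.2 (by linarith)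
    have g2 : hgt A B ≤ C * Real.sqrt (gr Z₁ Z₂) := by
      rw [hgt]
      rcases max_choice (ht A.j) (ht B.j) with e | e <;> rw [e]
      · exact a3 ▸ hC A Y₁ a1 a2
      · exact b3 ▸ hC B Y₂ b1 b2
    have g3 : 32 * y / Real.sqrt (gr Z₁ Z₂) ≤ 32 * (1 + C) * (y / (1 + hgt A B)) := by
      rw [mul_div_assoc', div_le_div_iff₀ (by linarith) (by linarith)]
      have : 1 + hgt A B ≤ (1 + C) * Real.sqrt (gr Z₁ Z₂) := by linarith
      nlinarith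
    have := Tha_two hy0 h
    nlinarith [mul_nonneg hC0 s0]

theorem Tha_summable (t₁ t₂ : ℍ) {y : ℝ} (hy : 0 < y) : Summable fun W : MZ =>
    if W ≠ 0 ∧ Rm W t₁ t₂ = 0 then Real.exp (-(Real.pi * W.det / y)) else 0 := by
  refine (summable_Th t₁ t₂ (r := 1 / (2 * y)) (by positivity)).of_nonneg_of_le
    (fun W => by split_ifs <;> positivity) fun W => ?_
  split_ifs with h
  · rw [rm0_Mj h.2]
    refine le_of_eq ?_
    congr 2
    field_simp
  · positivity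

theorem th0_small : ∃ C : ℝ, 0 ≤ C ∧ ∀ (A B : Crv) (y : ℝ), 0 < y → y ≤ 1 →
    Th0 A.t B.t y ≤ C * Real.exp (-(Real.pi / (2 * y))) := by
  obtain ⟨C, hC0, hC⟩ := th0_large
  refine ⟨C * 4, by positivity, fun A B y hy hy1 => ?_⟩
  have h0 := (log_ht_le_hgt A B).2.2
  have h1 : Th0 A.t B.t 2 ≤ C * 4 := by
    refine (hC A B 2 one_le_two).trans (mul_le_mul_of_nonneg_left ?_ hC0)
    have h2 : Real.sqrt 2 ≤ 2 := Real.sqrt_le_iff.2 ⟨by norm_num, by norm_num⟩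
    have h3 : 2 / (1 + hgt A B) ≤ 2 := div_le_self (by norm_num) (by linarith)
    linarith
  refine le_trans ?_ (mul_le_mul_of_nonneg_right h1 (Real.exp_pos _).le)
  rw [Th0, Th0, ← tsum_mul_right]
  refine (Tha_summable _ _ hy).tsum_le_tsum (fun W => ?_)
    ((Tha_summable _ _ two_pos).mul_right _)
  split_ifs with h
  · have h2 : (1 : ℝ) ≤ W.det := by exact_mod_cast rm0_det_pos h.2 h.1
    have hπ := Real.pi_pos
    rw [← Real.exp_add, Real.exp_le_exp, ← neg_add, neg_le_neg_iff, le_div_iff₀ hy, add_mul,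
      show Real.pi / (2 * y) * y = Real.pi / 2 by field_simp]
    nlinarith [mul_nonneg (mul_nonneg hπ.le (zero_le_one.trans h2)) (sub_nonneg.2 hy1)]
  · rw [zero_mul]

end

end Pool.Agent.P.MP_a60a76_nt.Sz
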