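import Pool.Agent.P.MP_a60a76_nt.Sz.Key
import Pool.Agent.P.MP_a60a76_nt.Sz.Tha

namespace Pool.Agent.P.MP_a60a76_nt.Sz

open UpperHalfPlane hiding J
open MeasureTheory SP
open scoped MatrixGroups UpperHalfPlane Matrix Modular Topology Classical ArithmeticFunction.sigma

noncomputable section

/-! The master inequality. -/

theorem master : ∃ C : ℝ, 0 ≤ C ∧ ∀ (P : Par) (A B : Crv) (X : P.MF) (y : ℝ) (S : Finset ℕ)
    (γ : ℕ → ℝ), X.det = P.m → P.Lk A.t B.t X → P.Orth A B X → ¬ El B.j → (P.p : ℝ)⁻¹ ≤ y →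
    y ≤ P.p → (∀ l ∈ S, l.Prime ∧ P.Gn A B X y l (γ l)) →
    ∑ l ∈ S, γ l * Real.log l ≤ C * ((1 + P.p / y ^ 2) * (1 + hgt A B + Real.log P.p) +
      (Th0 A.t B.t y⁻¹ + P.p / y ^ 2 * Th0 A.t B.t y) *
        (1 + hgt A B + Real.log P.p + ∑ l ∈ S, Real.log l)) := by
  obtain ⟨C₁, hC₁, h₁⟩ := key2
  obtain ⟨C₂, hC₂, h₂⟩ := ct_one
  obtain ⟨C₃, hC₃, h₃⟩ := TT_asg
  obtain ⟨C₄, h₄⟩ := im_le_log_J
  have a₄ := abs_nonneg C₄
  refine ⟨C₁ + 4 + 60 * C₃ + 2 * C₂ * (|C₄| + 1), by positivity,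
    fun P A B X y S γ hX hL hO hE hy1 hy2 hS => ?_⟩
  obtain ⟨g, rfl⟩ := P.exists_Dm_mul X hX
  have hp0 := P.p_pos
  have hp5 : (5 : ℝ) ≤ P.p := by exact_mod_cast P.five
  have hy : 0 < y := (inv_pos.2 hp0).trans_le hy1
  have hy3 : y⁻¹ ≤ P.p := inv_le_of_inv_le₀ hp0 hy1
  have hY : (1 : ℝ) ≤ P.p := by linarith
  have hex : ∀ l, ∃ a, l ∈ S → P.Adm a ∧ γ l ≤ P.TT y a ∧ P.Bd A B (P.Dm * red P.p g) l a :=
    fun l => by
      by_cases hl : l ∈ S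
      · obtain ⟨a, ha⟩ := (hS l hl).2
        exact ⟨a, fun _ => ha⟩
      · exact ⟨0, fun h => (hl h).elim⟩
  choose a ha using hex
  obtain ⟨ρ, hq, hs, hl⟩ := P.rs_qs (g • A.t) B.t hY
  have hlp := TyBd_log P
  obtain ⟨hA, hB, hh⟩ := log_ht_le_hgt A B
  obtain ⟨hH0, hH⟩ := TyBd_den A B
  have hR : 0 ≤ ∑ l ∈ S, Real.log l := Finset.sum_nonneg fun l _ => Real.log_natCast_nonneg l
  have hκ : 0 ≤ C₁ * (1 + hgt A B + Real.log P.p + ∑ l ∈ S, Real.log l) := by positivity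
  have m₁ : ∀ l ∈ S, P.Adm (Real.log l • a l) := fun l hl => (ha l hl).1.smul _
  have m₂ := Par.adm_sum S m₁
  have m₃ := P.adm_asg.smul (4 * Hd A B / P.p + 48 * Real.log P.p / (P.p - 1))
  have m₄ := P.sm_z0_log (g • A.t) B.t
    (C₁ * (1 + hgt A B + Real.log P.p + ∑ l ∈ S, Real.log l))
  have k := P.dual_ineq2 hq hs hl ((m₂.sub m₃).sub m₄.adm)
    (h₁ P A B g S a hL hE fun l hl => ⟨(hS l hl).1, (ha l hl).2.2⟩) hy
    (P.rs_pos _ _ hY hy hy2 hy3)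
  rw [Par.TT_sub (m₂.sub m₃) m₄.adm hy, Par.TT_sub m₂ m₃ hy, Par.TT_sum S m₁ hy, Par.TT_smul,
    m₄.TT_eq hy] at k
  have b₁ : ∑ l ∈ S, γ l * Real.log l ≤ ∑ l ∈ S, P.TT y (Real.log l • a l) :=
    Finset.sum_le_sum fun l hl => by
      rw [Par.TT_smul, mul_comm]
      exact mul_le_mul_of_nonneg_left (ha l hl).2.1 (Real.log_natCast_nonneg l)
  have b₂ := hO.ort.tsum_le hκ hy1 hy2
  rw [th0_smul, th0_smul] at b₂
  have b₃ := h₂ P g A.t B.t P.p A.half_le_im B.half_le_im hY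
  have b₄ := h₃ P y hy
  have y₁ := (h₄ A.t A.fd).trans (add_le_add (le_abs_self C₄) ((log_max_J_le A).trans hA))
  have y₂ := (h₄ B.t B.fd).trans (add_le_add (le_abs_self C₄) ((log_max_J_le B).trans hB))
  have t₁ := th0_nonneg A.t B.t y⁻¹
  have t₂ := th0_nonneg A.t B.t y
  have q₀ : (y ^ 2)⁻¹ ≤ P.p / y ^ 2 := by
    rw [inv_eq_one_div]
    gcongr
  have q₁ : 0 ≤ P.p / y ^ 2 := by positivity
  rw [Hd] at k
  generalize Real.log (A.j.den * B.j.den : ℕ) = H at *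
  generalize ∑' W, P.z0 (g • A.t) B.t W * (C₁ * (1 + hgt A B + Real.log P.p +
    ∑ l ∈ S, Real.log l) + Real.log (W.det / P.p ^ 2)) * P.wt y W = Z at *
  generalize ∑ l ∈ S, P.TT y (Real.log l • a l) = U at *
  generalize ∑ l ∈ S, γ l * Real.log l = V at *
  generalize ∑ l ∈ S, Real.log l = R at *
  generalize (CT 1 (P.pr P.oneI (P.rs (g • A.t) B.t P.p))).re = T at *
  generalize P.TT y P.asg = s at *
  have t₃ : 0 ≤ Th0 A.t B.t y⁻¹ + P.p / y ^ 2 * Th0 A.t B.t y := by positivity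
  generalize Th0 A.t B.t y⁻¹ + P.p / y ^ 2 * Th0 A.t B.t y = θ at *
  generalize P.p / y ^ 2 = q at *
  generalize (y ^ 2)⁻¹ = q' at *
  generalize Real.log P.p = lp at *
  generalize hgt A B = h at *
  generalize (P.p : ℝ) = p at *
  have hp1 : 0 < p - 1 := by linarith
  have c₁ : 4 * H / p + 48 * lp / (p - 1) ≤ 60 * (1 + h + lp) / p := by
    have : 48 * lp / (p - 1) ≤ 60 * lp / p := by
      rw [div_le_div_iff₀ hp1 hp0]
      nlinarith
    have e : 60 * (1 + h + lp) / p = 60 * (1 + h) / p + 60 * lp / p := by ring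
    have : 4 * H / p ≤ 60 * (1 + h) / p := by
      gcongr ?_ / _
      linarith
    linarith
  have c₂ : (4 * H / p + 48 * lp / (p - 1)) * s ≤ 60 * C₃ * ((1 + q) * (1 + h + lp)) := by
    have c₃ : s ≤ C₃ * p * (1 + q) := b₄.trans (by gcongr)
    calc _ ≤ (4 * H / p + 48 * lp / (p - 1)) * (C₃ * p * (1 + q)) := by gcongr
      _ ≤ 60 * (1 + h + lp) / p * (C₃ * p * (1 + q)) := by gcongr
      _ = _ := by field_simp
  have c₄ : T ≤ (1 + 2 * C₂ * (|C₄| + 1)) * (1 + h + lp) := by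
    have : C₂ * (A.t.im + B.t.im) ≤ C₂ * (2 * ((|C₄| + 1) * (1 + h + lp))) := by
      gcongr
      have : 0 ≤ |C₄| * (h + lp) := by positivity
      linarith
    linarith
  have c₅ : (1 + q) * T ≤ (1 + q) * ((1 + 2 * C₂ * (|C₄| + 1)) * (1 + h + lp)) := by gcongr
  have c₆ : 2 * lp + (p - 1) * H / (6 * p) ≤ 2 * (1 + h + lp) := by
    have : (p - 1) * H / (6 * p) ≤ h := by
      rw [div_le_iff₀ (by linarith)]
      nlinarith
    linarith
  have c₇ : q * (2 * lp + (p - 1) * H / (6 * p)) ≤ (1 + q) * (2 * (1 + h + lp)) := by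
    refine (mul_le_mul_of_nonneg_left c₆ q₁).trans ?_
    gcongr
    linarith
  have c₈ : (C₁ * (1 + h + lp + R) + lp + 1) * θ ≤ (C₁ + 1) * (θ * (1 + h + lp + R)) := by
    have : 0 ≤ θ * (h + R) := by positivity
    linarith
  have d₁ : 0 ≤ (1 + q) * (1 + h + lp) := by positivity
  have d₂ : 0 ≤ θ * (1 + h + lp + R) := by positivity
  have d₃ := mul_nonneg hC₁ d₁
  have d₄ := mul_nonneg hC₃ d₂
  have d₅ : 0 ≤ C₂ * (|C₄| + 1) * (θ * (1 + h + lp + R)) := by positivity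
  linarith

end

end Pool.Agent.P.MP_a60a76_nt.Sz
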