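import Pool.Agent.P.MP_a60a76_nt.Sz.Maj

namespace Pool.Agent.P.MP_a60a76_nt.Sz

open UpperHalfPlane MeasureTheory SP
open scoped MatrixGroups UpperHalfPlane Matrix Modular Topology Classical ArithmeticFunction.sigma

noncomputable section

/-! The mean value property in the hyperbolic plane. -/

theorem Mean_transfer (F : ℍ → ℂ) :
    (Integrable F ↔
      IntegrableOn (fun z : ℂ => (1 / z.im ^ 2) • F (ofComplex z)) {z : ℂ | 0 < z.im}) ∧
    ∫ τ, F τ = ∫ z in {z : ℂ | 0 < z.im}, (1 / z.im ^ 2) • F (ofComplex z) := by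
  have hm : Measurable fun z : ℍ => ((1 / NNReal.mk z.im z.im_pos.le : NNReal) ^ 2) := by
    refine Continuous.measurable (.pow (.div₀ continuous_const ?_ ?_) _)
    · exact continuous_im.subtype_mk _
    · exact fun x => NNReal.ne_iff.mp x.im_ne_zero
  have hr : Set.range UpperHalfPlane.coe = {z : ℂ | 0 < z.im} := by
    ext z
    exact ⟨fun ⟨τ, h⟩ => h ▸ τ.im_pos, fun h => ⟨⟨z, h⟩, rfl⟩⟩
  have he : (fun τ : ℍ => ((1 / NNReal.mk τ.im τ.im_pos.le : NNReal) ^ 2) • F τ) =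
      (fun z : ℂ => (1 / z.im ^ 2) • F (ofComplex z)) ∘ UpperHalfPlane.coe := by
    funext τ
    simp [NNReal.smul_def]
  rw [IntegrableOn, ← hr, ← measurableEmbedding_coe.map_comap,
    measurableEmbedding_coe.integrable_map_iff, measurableEmbedding_coe.integral_map, volume_def,
    integrable_withDensity_iff_integrable_smul hm, integral_withDensity_eq_integral_smul hm, he]
  exact ⟨Iff.rfl, rfl⟩

/-- The Cayley transform centred at a point. -/
def Mean_cay (τ₀ : ℍ) (w : ℂ) : ℂ := ((τ₀ : ℂ) - (starRingEnd ℂ) τ₀ * w) / (1 - w)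

theorem Mean_ne {w : ℂ} (hw : w ∈ Metric.ball (0 : ℂ) 1) : 1 - w ≠ 0 := by
  intro h
  rw [← sub_eq_zero.1 h] at hw
  simp at hw

theorem Mean_pos {w : ℂ} (hw : w ∈ Metric.ball (0 : ℂ) 1) : 0 < 1 - ‖w‖ ^ 2 := by
  rw [mem_ball_zero_iff] at hw
  have := norm_nonneg w
  nlinarith

theorem Mean_sub_conj (τ₀ : ℍ) :
    (τ₀ : ℂ) - (starRingEnd ℂ) τ₀ = 2 * τ₀.im * Complex.I := by
  rw [Complex.sub_conj]
  simp

theorem Mean_cay_im (τ₀ : ℍ) (w : ℂ) :
    (Mean_cay τ₀ w).im = τ₀.im * (1 - ‖w‖ ^ 2) / ‖1 - w‖ ^ 2 := by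
  rw [Mean_cay, Complex.div_im, ← Complex.normSq_eq_norm_sq, ← Complex.normSq_eq_norm_sq,
    Complex.normSq_apply w]
  simp only [Complex.sub_im, Complex.sub_re, Complex.mul_im, Complex.mul_re, Complex.conj_re,
    Complex.conj_im, Complex.one_re, Complex.one_im, coe_im, coe_re]
  ring

theorem Mean_cay_im_pos (τ₀ : ℍ) {w : ℂ} (hw : w ∈ Metric.ball (0 : ℂ) 1) :
    0 < (Mean_cay τ₀ w).im := by
  rw [Mean_cay_im]
  exact div_pos (mul_pos τ₀.im_pos (Mean_pos hw)) (pow_pos (norm_pos_iff.2 (Mean_ne hw)) 2)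

theorem Mean_cay_image (τ₀ : ℍ) : Mean_cay τ₀ '' Metric.ball 0 1 = {z : ℂ | 0 < z.im} := by
  refine Set.Subset.antisymm ?_ fun z hz => ?_
  · rintro _ ⟨w, hw, rfl⟩
    exact Mean_cay_im_pos τ₀ hw
  · have hz' : 0 < z.im := hz
    have h0 := τ₀.im_pos
    have h1 : z - (starRingEnd ℂ) τ₀ ≠ 0 := by
      intro h
      have := congrArg Complex.im h
      simp at this
      linarith
    refine ⟨(z - τ₀) / (z - (starRingEnd ℂ) τ₀), ?_, ?_⟩
    · rw [mem_ball_zero_iff, norm_div, div_lt_one (norm_pos_iff.2 h1),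
        ← sq_lt_sq₀ (norm_nonneg _) (norm_nonneg _), ← Complex.normSq_eq_norm_sq,
        ← Complex.normSq_eq_norm_sq]
      simp only [Complex.normSq_apply, Complex.sub_im, Complex.sub_re, Complex.conj_re,
        Complex.conj_im, coe_im, coe_re]
      nlinarith [mul_pos hz' h0]
    · have h2 : (τ₀ : ℂ) - (starRingEnd ℂ) τ₀ ≠ 0 := by
        rw [Mean_sub_conj]
        simp [τ₀.im_ne_zero]
      have h3 : 1 - (z - τ₀) / (z - (starRingEnd ℂ) τ₀) =
          ((τ₀ : ℂ) - (starRingEnd ℂ) τ₀) / (z - (starRingEnd ℂ) τ₀) := by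
        field_simp
        ring
      rw [Mean_cay, h3]
      field_simp
      ring

theorem Mean_cay_inj (τ₀ : ℍ) : Set.InjOn (Mean_cay τ₀) (Metric.ball 0 1) := by
  intro w hw w' hw' h
  rw [Mean_cay, Mean_cay, div_eq_div_iff (Mean_ne hw) (Mean_ne hw')] at h
  have h2 : (τ₀ : ℂ) - (starRingEnd ℂ) τ₀ ≠ 0 := by
    rw [Mean_sub_conj]
    simp [τ₀.im_ne_zero]
  exact mul_left_cancel₀ h2 (by linear_combination h)

theorem Mean_cay_deriv (τ₀ : ℍ) {w : ℂ} (hw : w ∈ Metric.ball (0 : ℂ) 1) :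
    HasDerivAt (Mean_cay τ₀) (2 * τ₀.im * Complex.I / (1 - w) ^ 2) w := by
  have h := (((hasDerivAt_id w).const_mul ((starRingEnd ℂ) τ₀)).const_sub (τ₀ : ℂ)).div
    ((hasDerivAt_id w).const_sub 1) (Mean_ne hw)
  refine h.congr_deriv ?_
  rw [← Mean_sub_conj]
  simp only [id]
  congr 1
  ring

theorem Mean_rho (τ₀ : ℍ) {w : ℂ} (hw : w ∈ Metric.ball (0 : ℂ) 1) :
    rho (ofComplex (Mean_cay τ₀ w)) τ₀ = ‖w‖ ^ 2 / (1 - ‖w‖ ^ 2) := by
  have h1 := Mean_ne hw
  have h2 : Mean_cay τ₀ w - τ₀ = 2 * τ₀.im * Complex.I * w / (1 - w) := by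
    rw [← Mean_sub_conj, Mean_cay]
    field_simp
    ring
  have h3 := Mean_pos hw
  have h4 := τ₀.im_pos
  have h5 := norm_pos_iff.2 h1
  rw [rho, ofComplex_apply_of_im_pos (Mean_cay_im_pos τ₀ hw), coe_mk, mk_im, h2, Mean_cay_im,
    Complex.normSq_eq_norm_sq]
  simp only [norm_div, norm_mul, Complex.norm_I, Complex.norm_real, Complex.norm_ofNat,
    Real.norm_eq_abs, abs_of_pos h4]
  field_simp
  ring

theorem Mean_det (c : ℂ) :
    ((ContinuousLinearMap.toSpanSingleton ℂ c).restrictScalars ℝ).det = ‖c‖ ^ 2 := by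
  simp [ContinuousLinearMap.det, LinearMap.det_restrictScalars, Algebra.norm_complex_eq,
    Complex.normSq_eq_norm_sq]

/-- Integration over the half plane in terms of the disc. -/
theorem Mean_to_disc (τ₀ : ℍ) (F : ℍ → ℂ) :
    (Integrable F ↔ IntegrableOn
      (fun w : ℂ => (4 / (1 - ‖w‖ ^ 2) ^ 2) • F (ofComplex (Mean_cay τ₀ w))) (Metric.ball 0 1)) ∧
    ∫ τ, F τ = ∫ w in Metric.ball (0 : ℂ) 1,
      (4 / (1 - ‖w‖ ^ 2) ^ 2) • F (ofComplex (Mean_cay τ₀ w)) := by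
  have hd : ∀ w ∈ Metric.ball (0 : ℂ) 1, HasFDerivWithinAt (Mean_cay τ₀)
      ((ContinuousLinearMap.toSpanSingleton ℂ
        (2 * τ₀.im * Complex.I / (1 - w) ^ 2)).restrictScalars ℝ) (Metric.ball 0 1) w :=
    fun w hw => ((Mean_cay_deriv τ₀ hw).hasFDerivAt.restrictScalars ℝ).hasFDerivWithinAt
  have he : Set.EqOn (fun w : ℂ => |((ContinuousLinearMap.toSpanSingleton ℂ
        (2 * τ₀.im * Complex.I / (1 - w) ^ 2)).restrictScalars ℝ).det| •
        (1 / (Mean_cay τ₀ w).im ^ 2) • F (ofComplex (Mean_cay τ₀ w)))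
      (fun w : ℂ => (4 / (1 - ‖w‖ ^ 2) ^ 2) • F (ofComplex (Mean_cay τ₀ w)))
      (Metric.ball 0 1) := fun w hw => by
    have h3 := Mean_pos hw
    have h4 := τ₀.im_pos
    have h5 := norm_pos_iff.2 (Mean_ne hw)
    simp only [Mean_det, smul_smul, Mean_cay_im]
    congr 1
    simp only [norm_div, norm_mul, norm_pow, Complex.norm_I, Complex.norm_real, Complex.norm_ofNat,
      Real.norm_eq_abs, abs_of_pos h4, abs_pow, abs_div, abs_norm, abs_mul, abs_one, abs_two]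
    field_simp
    ring
  rw [(Mean_transfer F).1, (Mean_transfer F).2, ← Mean_cay_image τ₀,
    integrableOn_image_iff_integrableOn_abs_det_fderiv_smul volume measurableSet_ball hd
      (Mean_cay_inj τ₀),
    integral_image_eq_integral_abs_det_fderiv_smul volume measurableSet_ball hd (Mean_cay_inj τ₀)]
  exact ⟨integrableOn_congr_fun he measurableSet_ball, setIntegral_congr_fun measurableSet_ball he⟩

/-- The radial weight. -/
def Mean_k (a r : ℝ) : ℝ := 4 / (1 - r ^ 2) ^ 2 * Real.exp (-(a * (r ^ 2 / (1 - r ^ 2))))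

theorem Mean_k_nonneg (a r : ℝ) : 0 ≤ Mean_k a r := by
  rw [Mean_k]
  positivity

theorem Mean_k_le {a r : ℝ} (ha : 0 < a) (hr : 0 < 1 - r ^ 2) :
    Mean_k a r ≤ 8 * Real.exp a / a ^ 2 := by
  have h1 : -(a * (r ^ 2 / (1 - r ^ 2))) = a - a / (1 - r ^ 2) := by
    field_simp
    ring
  have h2 := Real.quadratic_le_exp_of_nonneg (div_pos ha hr).le
  have h3 : (a / (1 - r ^ 2)) ^ 2 / 2 ≤ Real.exp (a / (1 - r ^ 2)) := by
    have := div_pos ha hr
    linarith
  rw [Mean_k, h1, Real.exp_sub]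
  calc 4 / (1 - r ^ 2) ^ 2 * (Real.exp a / Real.exp (a / (1 - r ^ 2)))
      ≤ 4 / (1 - r ^ 2) ^ 2 * (Real.exp a / ((a / (1 - r ^ 2)) ^ 2 / 2)) := by gcongr
    _ = 8 * Real.exp a / a ^ 2 := by
      field_simp
      ring

theorem Mean_k_cont (a : ℝ) : ContinuousOn (Mean_k a) {r | 0 < 1 - r ^ 2} := by
  refine ContinuousOn.mul (continuousOn_const.div (by fun_prop) fun r hr => ?_)
    (Real.continuous_exp.comp_continuousOn (ContinuousOn.neg (continuousOn_const.mul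
      (ContinuousOn.div (by fun_prop) (by fun_prop) fun r hr => ne_of_gt hr))))
  exact pow_ne_zero 2 (ne_of_gt hr)

theorem Mean_pos' {r : ℝ} (hr : r ∈ Set.Ioo (0 : ℝ) 1) : 0 < 1 - r ^ 2 := by
  nlinarith [hr.1, hr.2]

theorem Mean_radial {a : ℝ} (ha : 0 < a) :
    ∫ r in Set.Ioo (0 : ℝ) 1, r * Mean_k a r = 2 / a := by
  have hi : IntervalIntegrable (fun r => r * Mean_k a r) volume 0 1 := by
    rw [intervalIntegrable_iff_integrableOn_Ioo_of_le zero_le_one]
    refine IntegrableOn.of_bound (by simp) ((continuousOn_id.mul ((Mean_k_cont a).mono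
      fun r hr => Mean_pos' hr)).aestronglyMeasurable measurableSet_Ioo) (8 * Real.exp a / a ^ 2)
      ((ae_restrict_iff' measurableSet_Ioo).2 (.of_forall fun r hr => ?_))
    rw [Real.norm_eq_abs, abs_of_nonneg (mul_nonneg hr.1.le (Mean_k_nonneg a r))]
    exact (mul_le_of_le_one_left (Mean_k_nonneg a r) hr.2.le).trans (Mean_k_le ha (Mean_pos' hr))
  have hd : ∀ r ∈ Set.Ioo (0 : ℝ) 1, HasDerivAt
      (fun r : ℝ => -(2 / a) * Real.exp (-(a * (r ^ 2 / (1 - r ^ 2))))) (r * Mean_k a r) r := by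
    intro r hr
    have h0 := Mean_pos' hr
    have h1 := ((((hasDerivAt_pow 2 r).div ((hasDerivAt_pow 2 r).const_sub 1) h0.ne').const_mul
      a).neg.exp).const_mul (-(2 / a))
    refine h1.congr_deriv ?_
    simp only [Mean_k, Pi.neg_apply, Pi.div_apply]
    field_simp
    ring
  have h0 : Filter.Tendsto (fun r : ℝ => -(2 / a) * Real.exp (-(a * (r ^ 2 / (1 - r ^ 2)))))
      (𝓝[>] 0) (𝓝 (-(2 / a))) := by
    have : ContinuousAt (fun r : ℝ => -(2 / a) * Real.exp (-(a * (r ^ 2 / (1 - r ^ 2))))) 0 := by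
      fun_prop (disch := norm_num)
    simpa using this.tendsto.mono_left nhdsWithin_le_nhds
  have h1 : Filter.Tendsto (fun r : ℝ => -(2 / a) * Real.exp (-(a * (r ^ 2 / (1 - r ^ 2)))))
      (𝓝[<] 1) (𝓝 0) := by
    have h2 : Filter.Tendsto (fun r : ℝ => 1 - r ^ 2) (𝓝[<] 1) (𝓝[>] 0) := by
      refine tendsto_nhdsWithin_iff.2 ⟨?_, ?_⟩
      · have : Continuous fun r : ℝ => 1 - r ^ 2 := by fun_prop
        simpa using (this.tendsto 1).mono_left nhdsWithin_le_nhds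
      · filter_upwards [Ioo_mem_nhdsLT zero_lt_one] with r hr using Mean_pos' hr
    have h3 : Filter.Tendsto (fun r : ℝ => r ^ 2) (𝓝[<] 1) (𝓝 1) := by
      simpa using ((continuous_pow 2).tendsto (1 : ℝ)).mono_left nhdsWithin_le_nhds
    have h4 := Filter.Tendsto.pos_mul_atTop one_pos h3 (tendsto_inv_nhdsGT_zero.comp h2)
    have h5 := (Real.tendsto_exp_neg_atTop_nhds_zero.comp
      (h4.const_mul_atTop ha)).const_mul (-(2 / a))
    simpa [div_eq_mul_inv] using h5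
  rw [← integral_Ioc_eq_integral_Ioo, ← intervalIntegral.integral_of_le zero_le_one,
    intervalIntegral.integral_eq_sub_of_hasDerivAt_of_tendsto zero_lt_one hd hi h0 h1]
  ring

theorem Mean_circle {g : ℂ → ℂ} (hg : DifferentiableOn ℂ g (Metric.ball 0 1)) {r : ℝ}
    (hr : r ∈ Set.Ioo (0 : ℝ) 1) :
    ∫ θ in Set.Ioo (-Real.pi) Real.pi, g (circleMap 0 r θ) = 2 * Real.pi * g 0 := by
  have h1 : DiffContOnCl ℂ g (Metric.ball 0 |r|) := by
    refine DifferentiableOn.diffContOnCl (hg.mono ?_)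
    refine Metric.closure_ball_subset_closedBall.trans (Metric.closedBall_subset_ball ?_)
    rw [abs_of_pos hr.1]
    exact hr.2
  have h2 := h1.circleAverage
  rw [Real.circleAverage_eq_integral_add (-Real.pi),
    intervalIntegral.integral_comp_add_right (fun θ => g (circleMap 0 r θ)), zero_add,
    show 2 * Real.pi + -Real.pi = Real.pi by ring,
    intervalIntegral.integral_of_le (by linarith [Real.pi_pos]), integral_Ioc_eq_integral_Ioo] at h2
  rw [← h2, Complex.real_smul]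
  have : (Real.pi : ℂ) ≠ 0 := by exact_mod_cast Real.pi_ne_zero
  push_cast
  field_simp

theorem Mean_disc {g : ℂ → ℂ} (hg : DifferentiableOn ℂ g (Metric.ball 0 1)) {a M : ℝ} (ha : 0 < a)
    (hM : ∀ w ∈ Metric.ball (0 : ℂ) 1, ‖Mean_k a ‖w‖ • g w‖ ≤ M) :
    IntegrableOn (fun w => Mean_k a ‖w‖ • g w) (Metric.ball 0 1) ∧
      ∫ w in Metric.ball (0 : ℂ) 1, Mean_k a ‖w‖ • g w = 4 * Real.pi / a * g 0 := by
  have hc : ContinuousOn (fun w : ℂ => Mean_k a ‖w‖ • g w) (Metric.ball 0 1) :=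
    ((Mean_k_cont a).comp continuous_norm.continuousOn fun w hw => Mean_pos hw).smul
      hg.continuousOn
  refine ⟨IntegrableOn.of_bound measure_ball_lt_top (hc.aestronglyMeasurable measurableSet_ball) M
    ((ae_restrict_iff' measurableSet_ball).2 (.of_forall hM)), ?_⟩
  have hs : MeasurableSet (Set.Ioo (0 : ℝ) 1 ×ˢ Set.Ioo (-Real.pi) Real.pi) :=
    measurableSet_Ioo.prod measurableSet_Ioo
  have hcm : ∀ x : ℝ × ℝ, Complex.polarCoord.symm x = circleMap 0 x.1 x.2 := fun x => by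
    rw [Complex.polarCoord_symm_apply, circleMap, zero_add, Complex.exp_mul_I]
    push_cast
    rfl
  have hmem : ∀ x ∈ Set.Ioo (0 : ℝ) 1 ×ˢ Set.Ioo (-Real.pi) Real.pi,
      circleMap 0 x.1 x.2 ∈ Metric.ball (0 : ℂ) 1 := fun x hx => by
    rw [mem_ball_zero_iff, norm_circleMap_zero, abs_of_pos hx.1.1]
    exact hx.1.2
  have hint : IntegrableOn (fun x : ℝ × ℝ => x.1 • Mean_k a ‖circleMap 0 x.1 x.2‖ •
      g (circleMap 0 x.1 x.2)) (Set.Ioo (0 : ℝ) 1 ×ˢ Set.Ioo (-Real.pi) Real.pi)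
      ((volume : Measure ℝ).prod volume) := by
    have hcc : Continuous fun x : ℝ × ℝ => circleMap 0 x.1 x.2 := by
      unfold circleMap
      fun_prop
    refine IntegrableOn.of_bound ?_ ((continuous_fst.continuousOn.smul
      (hc.comp hcc.continuousOn hmem)).aestronglyMeasurable hs) M
      ((ae_restrict_iff' hs).2 (.of_forall fun x hx => ?_))
    · rw [Measure.prod_prod]
      exact ENNReal.mul_lt_top measure_Ioo_lt_top measure_Ioo_lt_top
    · rw [norm_smul, Real.norm_eq_abs, abs_of_pos hx.1.1]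
      exact (mul_le_of_le_one_left (norm_nonneg _) hx.1.2.le).trans (hM _ (hmem x hx))
  rw [← integral_indicator measurableSet_ball, ← Complex.integral_comp_polarCoord_symm,
    setIntegral_eq_of_subset_of_forall_sdiff_eq_zero
      (s := Set.Ioo (0 : ℝ) 1 ×ˢ Set.Ioo (-Real.pi) Real.pi)
      polarCoord.open_target.measurableSet (fun x hx => ⟨hx.1.1, hx.2⟩),
    setIntegral_congr_fun hs (g := fun x : ℝ × ℝ => x.1 • Mean_k a ‖circleMap 0 x.1 x.2‖ •
      g (circleMap 0 x.1 x.2)), Measure.volume_eq_prod, setIntegral_prod _ hint,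
    setIntegral_congr_fun measurableSet_Ioo
      (g := fun r : ℝ => (r * Mean_k a r) • (2 * Real.pi * g 0 : ℂ)),
    integral_smul_const, Mean_radial ha, Complex.real_smul]
  · push_cast
    ring
  · intro r hr
    simp only [norm_circleMap_zero, abs_of_pos hr.1, smul_smul]
    rw [integral_smul, Mean_circle hg hr]
  · intro x hx
    simp only [hcm, Set.indicator_of_mem (hmem x hx)]
  · intro x hx
    rw [Set.indicator_of_notMem, smul_zero]
    rw [mem_ball_zero_iff, Complex.norm_polarCoord_symm, abs_of_pos hx.1.1]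
    exact fun h => hx.2 ⟨⟨hx.1.1, h⟩, hx.1.2⟩

theorem Mean_main {f : ℍ → ℂ} (hf : Hol f) (τ₀ : ℍ) {a b C : ℝ} (hb : 0 ≤ b) (hab : b < a)
    (h : ∀ τ, ‖f τ‖ ≤ C * Real.exp (b * rho τ τ₀)) :
    Integrable (fun τ : ℍ => f τ * Real.exp (-(a * rho τ τ₀))) ∧
      ∫ τ : ℍ, f τ * Real.exp (-(a * rho τ τ₀)) = 4 * Real.pi / a * f τ₀ := by
  have hg : DifferentiableOn ℂ (fun w => f (ofComplex (Mean_cay τ₀ w))) (Metric.ball 0 1) :=
    DifferentiableOn.comp (g := f ∘ ofComplex) hf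
      (fun w hw => (Mean_cay_deriv τ₀ hw).differentiableAt.differentiableWithinAt)
      fun w hw => Mean_cay_im_pos τ₀ hw
  have hC : 0 ≤ C := by
    have := (norm_nonneg _).trans (h τ₀)
    exact nonneg_of_mul_nonneg_left this (Real.exp_pos _)
  obtain ⟨h1, h2⟩ := Mean_disc hg (a := a) (M := C * (8 * Real.exp (a - b) / (a - b) ^ 2))
    (hb.trans_lt hab) fun w hw => by
      have h3 := h (ofComplex (Mean_cay τ₀ w))
      rw [Mean_rho τ₀ hw] at h3
      rw [norm_smul, Real.norm_eq_abs, abs_of_nonneg (Mean_k_nonneg _ _)]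
      refine (mul_le_mul_of_nonneg_left h3 (Mean_k_nonneg _ _)).trans (le_of_eq_of_le ?_
        (mul_le_mul_of_nonneg_left (Mean_k_le (sub_pos.2 hab) (Mean_pos hw)) hC))
      rw [Mean_k, Mean_k, sub_mul, neg_sub, sub_eq_add_neg (b * _), Real.exp_add]
      ring
  have he : Set.EqOn (fun w : ℂ => (4 / (1 - ‖w‖ ^ 2) ^ 2) • (f (ofComplex (Mean_cay τ₀ w)) *
      Real.exp (-(a * rho (ofComplex (Mean_cay τ₀ w)) τ₀))))
      (fun w => Mean_k a ‖w‖ • f (ofComplex (Mean_cay τ₀ w))) (Metric.ball 0 1) := fun w hw => by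
    simp only [Mean_rho τ₀ hw, Mean_k, Complex.real_smul, Complex.ofReal_mul]
    ring
  rw [(Mean_to_disc τ₀ _).1, (Mean_to_disc τ₀ _).2, integrableOn_congr_fun he measurableSet_ball,
    setIntegral_congr_fun measurableSet_ball he, h2]
  exact ⟨h1, by simp [Mean_cay]⟩

theorem integral_exp_rho (τ₀ : ℍ) {a : ℝ} (ha : 0 < a) :
    Integrable (fun τ : ℍ => Real.exp (-(a * rho τ τ₀))) ∧
      ∫ τ : ℍ, Real.exp (-(a * rho τ τ₀)) = 4 * Real.pi / a := by
  obtain ⟨h1, h2⟩ := Mean_main (f := fun _ => 1) (differentiableOn_const 1) τ₀ (C := 1) le_rfl ha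
    fun τ => by simp
  simp only [one_mul, mul_one] at h1 h2
  refine ⟨h1.re.congr (.of_forall fun τ => Complex.ofReal_re _), ?_⟩
  rw [integral_complex_ofReal] at h2
  exact_mod_cast h2

theorem mean_value {f : ℍ → ℂ} (hf : Hol f) (τ₀ : ℍ) {a b C : ℝ} (hb : 0 ≤ b) (hab : b < a)
    (h : ∀ τ, ‖f τ‖ ≤ C * Real.exp (b * rho τ τ₀)) :
    Integrable (fun τ : ℍ => f τ * Real.exp (-(a * rho τ τ₀))) ∧
      ∫ τ : ℍ, f τ * Real.exp (-(a * rho τ τ₀)) = 4 * Real.pi / a * f τ₀ := by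
  exact Mean_main hf τ₀ hb hab h

end

end Pool.Agent.P.MP_a60a76_nt.Sz
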