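import Pool.Agent.P.MP_a60a76_nt.Sz.Cheb
import Pool.Agent.P.MP_a60a76_nt.Sz.Main

namespace Pool.Agent.P.MP_a60a76_nt.Sz

open UpperHalfPlane hiding J
open MeasureTheory SP
open scoped MatrixGroups UpperHalfPlane Matrix Modular Topology Classical ArithmeticFunction.sigma

noncomputable section

/-! Sums over primes which divide the invariants. -/

theorem Rad_one (j : ℚ) (S : Finset ℕ) (h : ∀ l ∈ S, l.Prime ∧ padicValRat l j ≠ 0) :
    ∑ l ∈ S, Real.log l ≤ 2 * Real.log (ht j) := by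
  by_cases hj : j = 0
  · have : S = ∅ := Finset.eq_empty_of_forall_notMem fun l hl => (h l hl).2 (by simp [hj])
    rw [this, Finset.sum_empty]
    exact mul_nonneg zero_le_two (Real.log_natCast_nonneg _)
  have hn : 0 < j.num.natAbs := Int.natAbs_pos.2 (Rat.num_ne_zero.2 hj)
  have hd : 0 < j.num.natAbs * j.den := Nat.mul_pos hn j.den_pos
  refine (Main_rad hd S fun l hl => ?_).trans ?_
  · obtain ⟨h1, h2⟩ := h l hl
    refine Nat.mem_primeFactors.2 ⟨h1, ?_, hd.ne'⟩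
    by_contra h3
    have h4 : ¬ l ∣ j.num.natAbs := fun h => h3 (h.mul_right _)
    have h5 : ¬ l ∣ j.den := fun h => h3 (h.mul_left _)
    apply h2
    rw [padicValRat, padicValInt, padicValNat.eq_zero_of_not_dvd h4,
      padicValNat.eq_zero_of_not_dvd h5]
    simp
  · rw [Nat.cast_mul, Real.log_mul (Nat.cast_pos.2 hn).ne' (Nat.cast_pos.2 j.den_pos).ne', two_mul]
    exact add_le_add
      (Real.log_le_log (Nat.cast_pos.2 hn) (Nat.cast_le.2 (le_max_left _ _))) (log_den_le j)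

theorem Rad_ht (j : ℚ) : ht (j - 1728) ≤ 1729 * ht j := by
  have h1 : (j - 1728).den = j.den := Rat.sub_ofNat_den j 1728
  have h2 : (j - 1728).num = j.num - 1728 * j.den := by
    have h3 : ((j - 1728).num : ℚ) = j.num - 1728 * j.den := by
      rw [← Rat.mul_den_eq_num, h1, sub_mul, Rat.mul_den_eq_num]
    exact_mod_cast h3
  have h4 : j.num.natAbs ≤ ht j := le_max_left _ _
  have h5 : j.den ≤ ht j := le_max_right _ _
  refine max_le ?_ ?_
  · rw [h2]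
    omega
  · omega

theorem Rad_split (S : Finset ℕ) (q : ℕ → Prop) [DecidablePred q] [∀ x, Decidable ¬ q x] :
    ∑ l ∈ S, Real.log l = ∑ l ∈ S.filter q, Real.log l + ∑ l ∈ S.filter fun l => ¬ q l,
      Real.log l :=
  (Finset.sum_filter_add_sum_filter_not S q _).symm

theorem Rad_bad {l : ℕ} {j : ℚ} (h : Bad l j) :
    padicValRat l j ≠ 0 ∨ padicValRat l (j - 1728) ≠ 0 := by
  rcases h with h | h | h
  · exact Or.inl h.ne
  · exact Or.inl fun h' => h (h' ▸ dvd_zero _)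
  · exact Or.inr fun h' => h (h' ▸ dvd_zero _)

theorem Rad_ok {l : ℕ} {j : ℚ} (hj : ¬ El j)
    (h : ¬ (padicValRat l j ≠ 0 ∨ padicValRat l (j - 1728) ≠ 0)) : Ok l j := by
  have h1 : j ≠ 0 := fun h => hj (Or.inl h)
  have h2 : j - 1728 ≠ 0 := fun h => hj (Or.inr (sub_eq_zero.1 h))
  rw [not_or, not_not, not_not] at h
  left
  rw [padicNorm.eq_zpow_of_nonzero h1, padicNorm.eq_zpow_of_nonzero h2, h.1, h.2]
  simp

theorem sum_dvd_le : ∃ C : ℝ, 0 ≤ C ∧ ∀ (j : ℚ) (S : Finset ℕ), (∀ l ∈ S, l.Prime ∧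
    (padicValRat l j ≠ 0 ∨ padicValRat l (j - 1728) ≠ 0)) →
    ∑ l ∈ S, Real.log l ≤ C * (1 + Real.log (ht j)) := by
  have h0 : 0 ≤ Real.log 1729 := Real.log_nonneg (by norm_num)
  refine ⟨4 + 2 * Real.log 1729, by positivity, fun j S h => ?_⟩
  have h1 := Rad_one j (S.filter fun l => padicValRat l j ≠ 0) fun l hl =>
    ⟨(h l (Finset.mem_filter.1 hl).1).1, (Finset.mem_filter.1 hl).2⟩
  have h2 := Rad_one (j - 1728) (S.filter fun l => ¬ padicValRat l j ≠ 0) fun l hl =>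
    ⟨(h l (Finset.mem_filter.1 hl).1).1,
      (h l (Finset.mem_filter.1 hl).1).2.resolve_left (Finset.mem_filter.1 hl).2⟩
  have h3 : Real.log (ht (j - 1728)) ≤ Real.log 1729 + Real.log (ht j) := by
    have h4 : (0 : ℝ) < ht j := Nat.cast_pos.2 (one_le_ht j)
    rw [← Real.log_mul (by norm_num) h4.ne']
    refine Real.log_le_log (Nat.cast_pos.2 (one_le_ht _)) ?_
    exact_mod_cast Rad_ht j
  have h5 : 0 ≤ Real.log (ht j) := Real.log_natCast_nonneg _
  rw [Rad_split S fun l => padicValRat l j ≠ 0]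
  nlinarith [mul_nonneg h0 h5]

theorem sum_bad_le : ∃ C : ℝ, 0 ≤ C ∧ ∀ (A B : Crv) (S : Finset ℕ),
    (∀ l ∈ S, l.Prime ∧ (Bad l A.j ∨ Bad l B.j)) →
    ∑ l ∈ S, Real.log l ≤ C * (1 + hgt A B) := by
  obtain ⟨C, hC, h⟩ := sum_dvd_le
  refine ⟨2 * C, by positivity, fun A B S hS => ?_⟩
  have h1 := h A.j (S.filter fun l => Bad l A.j) fun l hl =>
    ⟨(hS l (Finset.mem_filter.1 hl).1).1, Rad_bad (Finset.mem_filter.1 hl).2⟩
  have h2 := h B.j (S.filter fun l => ¬ Bad l A.j) fun l hl =>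
    ⟨(hS l (Finset.mem_filter.1 hl).1).1,
      Rad_bad ((hS l (Finset.mem_filter.1 hl).1).2.resolve_left (Finset.mem_filter.1 hl).2)⟩
  obtain ⟨h3, h4, -⟩ := log_ht_le_hgt A B
  rw [Rad_split S fun l => Bad l A.j]
  nlinarith [mul_le_mul_of_nonneg_left h3 hC, mul_le_mul_of_nonneg_left h4 hC]

theorem exists_ok : ∃ c C : ℝ, 0 < c ∧ 0 ≤ C ∧ ∀ (A B : Crv) (p : ℕ) (x : ℝ), ¬ El B.j →
    0 ≤ x → ∃ S : Finset ℕ,
      (∀ l ∈ S, l.Prime ∧ 5 ≤ l ∧ l ≠ p ∧ (l : ℝ) ≤ x ∧ Ok l A.j ∧ Ok l B.j) ∧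
      c * x - C * (1 + hgt A B + Real.log p) ≤ ∑ l ∈ S, Real.log l ∧
      ∑ l ∈ S, Real.log l ≤ 2 * x := by
  obtain ⟨C, hC, h⟩ := sum_dvd_le
  obtain ⟨c, C', hc, h'⟩ := cheb_lower
  refine ⟨c, 2 * C + |C'| + 1, hc, by positivity, fun A B p x hB hx => ?_⟩
  obtain ⟨q, hq, hq'⟩ : ∃ q : ℕ, (q = 3 ∨ q = 4) ∧ ∀ l : ℕ, l % q = 1 → El A.j → Ok l A.j := by
    by_cases h0 : A.j = 0
    · exact ⟨3, Or.inl rfl, fun l hl _ => Or.inr (Or.inl ⟨h0, hl⟩)⟩
    · exact ⟨4, Or.inr rfl, fun l hl he => Or.inr (Or.inr ⟨he.resolve_left h0, hl⟩)⟩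
  have h1 := h' q hq x hx
  set T := (Finset.range (⌊x⌋₊ + 1)).filter fun l => l.Prime ∧ l % q = 1 with hT
  have hT' : ∀ l ∈ T, l ≤ ⌊x⌋₊ ∧ l.Prime ∧ l % q = 1 := fun l hl =>
    ⟨Nat.lt_succ_iff.1 (Finset.mem_range.1 (Finset.mem_filter.1 hl).1), (Finset.mem_filter.1 hl).2⟩
  set b : ℚ → ℕ → Prop := fun j l => padicValRat l j ≠ 0 ∨ padicValRat l (j - 1728) ≠ 0 with hb
  set T1 := T.filter fun l => ¬ l = p with hT1
  set T2 := T1.filter fun l => ¬ b A.j l with hT2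
  set T3 := T2.filter fun l => ¬ b B.j l with hT3
  have s1 : T1 ⊆ T := Finset.filter_subset _ _
  have s2 : T2 ⊆ T1 := Finset.filter_subset _ _
  have s3 : T3 ⊆ T2 := Finset.filter_subset _ _
  have hp : 0 ≤ Real.log p := Real.log_natCast_nonneg _
  refine ⟨T3, fun l hl => ?_, ?_, ?_⟩
  · obtain ⟨k1, k2, k3⟩ := hT' l (s1 (s2 (s3 hl)))
    refine ⟨k2, ?_, (Finset.mem_filter.1 (s2 (s3 hl))).2,
      (Nat.cast_le.2 k1).trans (Nat.floor_le hx), ?_, Rad_ok hB (Finset.mem_filter.1 hl).2⟩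
    · by_contra h5
      have h6 : l < 5 := not_le.1 h5
      rcases hq with rfl | rfl <;> interval_cases l <;> revert k2 k3 <;> decide
    · by_cases he : El A.j
      · exact hq' l k3 he
      · exact Rad_ok he (Finset.mem_filter.1 (s3 hl)).2
  · have e1 := Rad_split T fun l => l = p
    have e2 := Rad_split T1 (b A.j)
    have e3 := Rad_split T2 (b B.j)
    have k1 : ∑ l ∈ T.filter fun l => l = p, Real.log l ≤ Real.log p := by
      rw [Finset.filter_eq']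
      split_ifs
      · rw [Finset.sum_singleton]
      · rw [Finset.sum_empty]
        exact hp
    have k2 := h A.j (T1.filter (b A.j)) fun l hl =>
      ⟨(hT' l (s1 (Finset.mem_filter.1 hl).1)).2.1, (Finset.mem_filter.1 hl).2⟩
    have k3 := h B.j (T2.filter (b B.j)) fun l hl =>
      ⟨(hT' l (s1 (s2 (Finset.mem_filter.1 hl).1))).2.1, (Finset.mem_filter.1 hl).2⟩
    obtain ⟨h3, h4, h5⟩ := log_ht_le_hgt A B
    rw [← hT1] at e1
    rw [← hT2] at e2
    rw [← hT3] at e3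
    have k4 := mul_le_mul_of_nonneg_left h3 hC
    have k5 := mul_le_mul_of_nonneg_left h4 hC
    have k6 := le_abs_self C'
    have k7 := mul_nonneg (abs_nonneg C') h5
    have k8 := mul_nonneg (abs_nonneg C') hp
    have k9 := mul_nonneg hC hp
    linarith
  · have k1 : ∑ l ∈ T3, Real.log l ≤ Chebyshev.theta x := by
      rw [Chebyshev.theta_eq_sum_Icc]
      refine Finset.sum_le_sum_of_subset_of_nonneg (fun l hl => ?_)
        fun l _ _ => Real.log_natCast_nonneg _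
      obtain ⟨k1, k2, -⟩ := hT' l (s1 (s2 (s3 hl)))
      exact Finset.mem_filter.2 ⟨Finset.mem_Icc.2 ⟨Nat.zero_le _, k1⟩, k2⟩
    have k2 := Chebyshev.theta_le_log4_mul_x hx
    have k3 : Real.log 4 ≤ 2 := by
      rw [show (4 : ℝ) = 2 ^ 2 by norm_num, Real.log_pow]
      have := Real.log_two_lt_d9
      push_cast
      linarith
    nlinarith [mul_le_mul_of_nonneg_right k3 hx]

end

end Pool.Agent.P.MP_a60a76_nt.Sz
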