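import Pool.Agent.P.MP_a60a76_nt.Sz.Mast
import Pool.Agent.P.MP_a60a76_nt.Sz.Gain
import Pool.Agent.P.MP_a60a76_nt.Sz.Rad

namespace Pool.Agent.P.MP_a60a76_nt.Sz

open UpperHalfPlane hiding J
open MeasureTheory SP
open scoped MatrixGroups UpperHalfPlane Matrix Modular Topology Classical ArithmeticFunction.sigma

noncomputable section

/-! The prime is bounded by the height. -/

theorem Par.both_ell {P : Par} {A B : Crv} {X : P.MF} (hX : X.det = P.m) (hL : P.Lk A.t B.t X)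
    (hO : P.Orth A B X) (h₁ : El A.j) (h₂ : El B.j) : P.p ≤ 52 := by
  by_contra hp
  rw [not_le] at hp
  haveI : Fact (Nat.Prime 13) := ⟨by norm_num⟩
  obtain ⟨ι, hι⟩ := exists_place 13
  have hok : ∀ j, El j → Ok 13 j := fun j h =>
    Or.inr (h.imp (fun h => ⟨h, rfl⟩) fun h => ⟨h, rfl⟩)
  have hX' := Main_det hX
  obtain ⟨s₁, s₂, Y₁, Y₂, -, -, hc, hd, hT, e₁, e₂⟩ := P.small_lift (l := 13) (by norm_num)
    (by omega) (by nlinarith) hι (hok _ h₁) (hok _ h₂) hX' hL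
  obtain rfl := e₁ h₁
  obtain rfl := e₂ h₂
  obtain ⟨W, hW, hb⟩ := Par.exists_cong hc hT hX' fun h => by
    have h3 := Int.le_of_dvd hc.dsc_pos h
    rw [dsc, hd] at h3
    have h4 := sq_nonneg Y₁.trace
    push_cast at h3
    omega
  exact hb (hO W hW)

theorem PBd_theta : ∃ D : ℝ, 0 ≤ D ∧ ∀ (P : Par) (A B : Crv),
    Th0 A.t B.t (Real.log P.p)⁻¹⁻¹ + P.p / (Real.log P.p)⁻¹ ^ 2 * Th0 A.t B.t (Real.log P.p)⁻¹ ≤
      D * Real.log P.p := by
  obtain ⟨C₁, hC₁, h₁⟩ := th0_large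
  obtain ⟨C₂, hC₂, h₂⟩ := th0_small
  refine ⟨2 * C₁ + 2 * C₂, by positivity, fun P A B => ?_⟩
  have hlp := TyBd_log P
  have hp : (P.p : ℝ) = Real.exp (Real.log P.p) := (Real.exp_log P.p_pos).symm
  have hh := (log_ht_le_hgt A B).2.2
  generalize Real.log P.p = x at *
  have hx : 0 < x := by linarith
  have b₁ := h₁ A B x hlp
  have b₂ := h₂ A B x⁻¹ (inv_pos.2 hx) (inv_le_one_of_one_le₀ hlp)
  have b₃ : Real.sqrt x ≤ x := by
    rw [Real.sqrt_le_left hx.le]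
    nlinarith
  have b₄ : x / (1 + hgt A B) ≤ x := div_le_self hx.le (by linarith)
  have b₅ : Th0 A.t B.t x ≤ 2 * C₁ * x := by
    have := mul_le_mul_of_nonneg_left (add_le_add b₃ b₄) hC₁
    linarith
  have b₆ : Real.exp x * Real.exp (-(Real.pi / (2 * x⁻¹))) * x ≤ 2 := by
    have e : Real.pi / (2 * x⁻¹) = Real.pi * x / 2 := by field_simp
    have h3 : Real.exp x * Real.exp (-(Real.pi / (2 * x⁻¹))) ≤ Real.exp (-(x / 2)) := by
      rw [← Real.exp_add, e, Real.exp_le_exp]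
      nlinarith [Real.pi_gt_three]
    have h4 : Real.exp (-(x / 2)) * x ≤ 2 := by
      rw [Real.exp_neg, inv_mul_le_iff₀ (Real.exp_pos _)]
      linarith [Real.add_one_le_exp (x / 2)]
    exact (mul_le_mul_of_nonneg_right h3 hx.le).trans h4
  have b₇ : P.p / x⁻¹ ^ 2 * Th0 A.t B.t x⁻¹ ≤ 2 * C₂ * x := by
    calc _ ≤ P.p / x⁻¹ ^ 2 * (C₂ * Real.exp (-(Real.pi / (2 * x⁻¹)))) := by gcongr
      _ = C₂ * x * (Real.exp x * Real.exp (-(Real.pi / (2 * x⁻¹))) * x) := by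
        rw [hp]
        field_simp
      _ ≤ C₂ * x * 2 := by gcongr
      _ = _ := by ring
  rw [inv_inv]
  linarith

theorem PBd_absorb {p K h : ℝ} (hp : 0 < p) (hl : 1 ≤ Real.log p) (hh : 0 ≤ h) (hK : 0 ≤ K)
    (H : p ≤ K * Real.log p * (1 + h + Real.log p)) :
    p / Real.log p ≤ (2 * K + 6 * K ^ 2) * (1 + h) := by
  have h1 := Real.pow_div_factorial_le_exp _ (show 0 ≤ Real.log p by linarith) 3
  rw [Real.exp_log hp] at h1
  generalize Real.log p = x at *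
  have hx : 0 < x := by linarith
  have h2 : x ^ 2 ≤ 6 * (p / x) := by
    rw [← mul_div_assoc, le_div_iff₀ hx]
    norm_num [Nat.factorial] at h1
    linarith
  have h3 : p / x ≤ K * (1 + h + x) := by
    rw [div_le_iff₀ hx]
    linarith
  have h4 : 0 ≤ K ^ 2 * h := by positivity
  nlinarith [sq_nonneg (x - 6 * K)]

theorem p_bound : ∃ C : ℝ, 0 ≤ C ∧ ∀ (P : Par) (A B : Crv) (X : P.MF), X.det = P.m →
    P.Lk A.t B.t X → P.Orth A B X → ¬ El B.j → P.p / Real.log P.p ≤ C * (1 + hgt A B) := by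
  obtain ⟨C₁, hC₁, h₁⟩ := master
  obtain ⟨c, hc, h₂⟩ := gn_small
  obtain ⟨D, hD, h₃⟩ := PBd_theta
  obtain ⟨c', C', hc', hC', h₄⟩ := exists_ok
  obtain ⟨ε, hε, hε1, hε2⟩ : ∃ ε : ℝ, 0 < ε ∧ ε ≤ 1 / 28 ∧ ε * (C₁ * D + 1) ≤ c :=
    ⟨min (1 / 28) (c / (C₁ * D + 1)), lt_min (by norm_num) (by positivity), min_le_left _ _,
      (le_div_iff₀ (by positivity)).1 (min_le_right _ _)⟩
  obtain ⟨K, hK⟩ : ∃ K, K = (C' + C₁ * (2 + D)) / (c' * ε ^ 2) := ⟨_, rfl⟩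
  have hK0 : 0 ≤ K := by
    rw [hK]
    positivity
  refine ⟨2 * K + 6 * K ^ 2, by positivity, fun P A B X hX hL hO hE => ?_⟩
  have hlp := TyBd_log P
  have hp0 := P.p_pos
  have hp5 : (5 : ℝ) ≤ P.p := by exact_mod_cast P.five
  have hh := (log_ht_le_hgt A B).2.2
  refine PBd_absorb hp0 hlp hh hK0 ?_
  have hx : 0 < Real.log P.p := by linarith
  have hy1 : (Real.log P.p)⁻¹ ≤ 1 := inv_le_one_of_one_le₀ hlp
  obtain ⟨S, hS, s₁, -⟩ := h₄ A B P.p ((ε * P.p) ^ 2) hE (by positivity)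
  have k := h₁ P A B X (Real.log P.p)⁻¹ S (fun _ => (C₁ * D + 1) * Real.log P.p) hX hL hO hE
    (inv_anti₀ hx (by linarith [Real.log_le_sub_one_of_pos hp0])) (by linarith) fun l hl => by
      obtain ⟨l₁, l₂, l₃, l₄, l₅, l₆⟩ := hS l hl
      have l₇ : Real.sqrt l ≤ ε * P.p := Real.sqrt_le_iff.2 ⟨by positivity, l₄⟩
      have l₈ : 0 < Real.sqrt l := Real.sqrt_pos.2 (by exact_mod_cast l₁.pos)
      have l₉ : ε * P.p ≤ 1 / 28 * P.p := by gcongr
      refine ⟨l₁, (h₂ P A B X _ l hX hL l₁ l₂ l₃ ?_ l₅ l₆ (inv_pos.2 hx) ?_).mono ?_⟩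
      · have : (ε * P.p) ^ 2 ≤ (1 / 28 * P.p) ^ 2 := by gcongr
        have : (16 * l : ℝ) < P.p ^ 2 := by nlinarith
        exact_mod_cast this
      · have := mul_le_mul_of_nonneg_left hy1 l₈.le
        linarith
      · rw [le_div_iff₀ (by positivity)]
        calc _ = (C₁ * D + 1) * Real.sqrt l := by field_simp
          _ ≤ (C₁ * D + 1) * (ε * P.p) := by gcongr
          _ = ε * (C₁ * D + 1) * P.p := by ring
          _ ≤ _ := by gcongr
  rw [← Finset.mul_sum] at k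
  have b₁ := h₃ P A B
  have hR : 0 ≤ ∑ l ∈ S, Real.log l := Finset.sum_nonneg fun l _ => Real.log_natCast_nonneg l
  have e : P.p / (Real.log P.p)⁻¹ ^ 2 = P.p * Real.log P.p ^ 2 := by field_simp
  generalize Th0 A.t B.t (Real.log P.p)⁻¹⁻¹ +
    P.p / (Real.log P.p)⁻¹ ^ 2 * Th0 A.t B.t (Real.log P.p)⁻¹ = θ at *
  rw [e] at k
  generalize ∑ l ∈ S, Real.log l = R at *
  generalize Real.log P.p = x at *
  generalize (P.p : ℝ) = p at *
  have hM : 0 < 1 + hgt A B + x := by linarith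
  generalize 1 + hgt A B + x = M at *
  have b₂ : C₁ * (θ * (M + R)) ≤ C₁ * (D * x * (M + R)) := by gcongr
  have b₃ : 1 ≤ p * x := by nlinarith
  have b₄ : x ≤ p * x ^ 2 := by nlinarith
  have b₅ : C₁ * M * 1 ≤ C₁ * M * (p * x ^ 2) := by
    gcongr
    linarith
  have b₆ : C₁ * D * M * x ≤ C₁ * D * M * (p * x ^ 2) := by gcongr
  have b₇ : R ≤ C₁ * (2 + D) * (p * x * M) := by
    refine le_of_mul_le_mul_left ?_ hx
    linarith
  have b₈ : C' * M * 1 ≤ C' * M * (p * x) := by gcongr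
  rw [hK, mul_assoc, div_mul_eq_mul_div, le_div_iff₀ (by positivity)]
  refine le_of_mul_le_mul_left ?_ hp0
  linarith

end

end Pool.Agent.P.MP_a60a76_nt.Sz
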