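import Pool.Agent.P.MP_a60a76_nt.Sz.FxA
import Pool.Agent.P.MP_a60a76_nt.Sz.Arch

namespace Pool.Agent.P.MP_a60a76_nt.Sz

open UpperHalfPlane hiding J
open MeasureTheory SP
open scoped MatrixGroups UpperHalfPlane Matrix Modular Topology Classical ArithmeticFunction.sigma

noncomputable section

/-! The logarithm of the product near a singular point. -/

theorem Psi_beta {r : ℝ} (hr : 0 < r) :
    beta r = beta 1 + ∫ s in (1 : ℝ)..r⁻¹, Real.exp (-(r * s)) / s := by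
  have h := Bf_eq_beta True hr (inv_pos.2 hr)
  rw [Bf, if_pos trivial, if_pos trivial, mul_inv_cancel₀ hr.ne'] at h
  linarith

theorem Psi_int {f : ℝ → ℝ} (hf : ContinuousOn f (Set.Ioi 0)) {y : ℝ} (hy : 0 < y) :
    IntervalIntegrable f volume 1 y :=
  (hf.mono fun _ hx => (lt_min one_pos hy).trans_le hx.1).intervalIntegrable

theorem Psi_log {r : ℝ} (hr : 0 < r) : ∫ s in (1 : ℝ)..r⁻¹, s⁻¹ = -Real.log r := by
  rw [integral_inv_of_pos one_pos (inv_pos.2 hr), div_one, Real.log_inv]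

theorem Psi_inv : ContinuousOn (fun s : ℝ => s⁻¹) (Set.Ioi 0) :=
  continuousOn_id.inv₀ fun _ hr => ne_of_gt hr

theorem beta_ge {r : ℝ} (hr : 0 < r) : -Real.log r - 1 ≤ beta r := by
  rcases le_total 1 r with h1 | h1
  · linarith [beta_nonneg r, Real.log_nonneg h1]
  have hy := inv_pos.2 hr
  have h2 := intervalIntegral.integral_mono_on ((one_le_inv₀ hr).2 h1)
    ((Psi_int Psi_inv hy).sub (intervalIntegrable_const (c := r))) (Psi_int (Ka_cont r) hy)
    fun s hs => by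
      have h0 : 0 < s := one_pos.trans_le hs.1
      rw [le_div_iff₀ h0, sub_mul, inv_mul_cancel₀ h0.ne']
      linarith [Real.add_one_le_exp (-(r * s))]
  rw [intervalIntegral.integral_sub (Psi_int Psi_inv hy) intervalIntegrable_const, Psi_log hr,
    intervalIntegral.integral_const, smul_eq_mul, sub_mul, inv_mul_cancel₀ hr.ne'] at h2
  linarith [Psi_beta hr, beta_nonneg 1]

theorem beta_le_log {r : ℝ} (hr : 0 < r) (h1 : r ≤ 1) : beta r ≤ -Real.log r + 1 := by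
  have hy := inv_pos.2 hr
  have h2 := intervalIntegral.integral_mono_on ((one_le_inv₀ hr).2 h1)
    (Psi_int (Ka_cont r) hy) (Psi_int Psi_inv hy) fun s hs => by
      have h0 : 0 < s := one_pos.trans_le hs.1
      rw [div_le_iff₀ h0, inv_mul_cancel₀ h0.ne', Real.exp_le_one_iff, neg_nonpos]
      positivity
  have h3 := beta_le one_pos
  have h4 : Real.exp (-1) ≤ 1 := Real.exp_le_one_iff.2 (by norm_num)
  rw [Psi_log hr] at h2
  linarith [Psi_beta hr]

namespace Par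

variable {P : Par} {c : P.D → ℤ → ℤ} {χ : ℍ → ℝ} {t₁ t₂ : ℍ} {T : ℝ}

theorem arch_eq (hχ : IsChi χ) (h : P.IsF0 c) (hp : P.Pos c) (hz : Proper t₁ t₂) :
    P.gf c P.Dm t₁ t₂ ≠ 0 ∧ Real.log ‖P.gf c P.Dm t₁ t₂‖ =
      12 * P.p * P.cp c * Real.log P.p - 6 * P.p * (P.Phi χ c 2 t₁ t₂).re := by
  obtain ⟨C, L, hL⟩ := Par.Arch_lim hχ h
  have key : ∀ t t' : ℍ, Proper t t' → ‖P.gf c P.Dm t t'‖ =
      Real.exp ((6 * P.p * C + 2 * Real.pi * P.KK c) * t'.im +
        (6 * P.p * L t + P.p * P.cp c * Real.log ‖P.uu ![0, 1] t‖) -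
          6 * P.p * (P.Phi χ c 2 t t').re) := fun t t' ht => by
    obtain ⟨Y, hY⟩ := (hL t).2
    obtain ⟨Y', hY'⟩ := Par.Arch_gf h hp t
    refine Par.Arch_cont hχ h hp (Y := max Y Y') (fun s hs hs' => ?_) ht
    rw [hY' s ((le_max_right _ _).trans hs), hY s ((le_max_left _ _).trans hs) hs']
    congr 1
    ring
  generalize 6 * P.p * C + 2 * Real.pi * P.KK c = E at key
  set J : ℍ → ℝ := fun t => 6 * P.p * L t + P.p * P.cp c * Real.log ‖P.uu ![0, 1] t‖ with hJ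
  have k1 : ∀ t t' : ℍ, Proper t t' →
      J t - E * (ModularGroup.S • t).im = J (ModularGroup.S • t') - E * t'.im := fun t t' ht => by
    have h1 := key _ _ (ht.symm.smul ModularGroup.S ModularGroup.S)
    rw [Par.gf_swap h hp, Par.Phi_swap, key t t' ht, Real.exp_eq_exp] at h1
    simp only [hJ]
    linarith
  have k2 : ∀ t t' : ℍ, J t - E * (ModularGroup.S • t).im = J t' - E * (ModularGroup.S • t').im :=
    fun t t' => by
      obtain ⟨s, h1, h2⟩ := Arch_exists t t'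
      rw [k1 t s h1, k1 t' s h2]
  have k3 : E = 0 := by
    have h1 := k2 UpperHalfPlane.I (ModularGroup.T • UpperHalfPlane.I)
    have h2 : L (ModularGroup.T • UpperHalfPlane.I) = L UpperHalfPlane.I :=
      tendsto_nhds_unique ((hL _).1.congr fun ε => Par.JJ_T c _ ε) (hL _).1
    have h3 : (ModularGroup.S • ModularGroup.T • UpperHalfPlane.I).im = 1 / 2 := by
      rw [im_sl_smul, dn_S, ← UpperHalfPlane.coe_im, coe_T_smul]
      simp [Complex.normSq_apply]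
      norm_num
    rw [h3, S_smul_I, UpperHalfPlane.I_im] at h1
    simp only [hJ, h2, P.log_uu_T] at h1
    linarith
  have k4 : J t₁ = 12 * P.p * P.cp c * Real.log P.p :=
    Par.Arch_const (fun t => (hL t).1) fun t => by simpa [k3] using k2 t t₁
  have k5 := key t₁ t₂ hz
  refine ⟨norm_pos_iff.1 (k5 ▸ Real.exp_pos _), ?_⟩
  rw [k5, Real.log_exp, k3]
  simp only [hJ] at k4
  linarith

theorem cX_nonneg (hp : P.Pos c) {X : MZ} (hX : 0 < X.det) : 0 ≤ P.cX c X := by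
  rw [cX]
  split_ifs
  · exact_mod_cast hp _ _ (by omega)
  · exact le_rfl

theorem cX_z0_nonneg (hp : P.Pos c) (s₁ s₂ : ℍ) (X : MZ) : 0 ≤ P.cX c X * P.z0 s₁ s₂ X := by
  rw [z0]
  split_ifs with h
  · exact mul_nonneg (cX_nonneg hp (rm0_det_pos h.2.2 h.2.1)) zero_le_one
  · rw [mul_zero]

theorem finite_sing (h : P.IsF 0 c) (s₁ s₂ : ℍ) :
    {X : MZ | P.cX c X * P.z0 s₁ s₂ X ≠ 0}.Finite := by
  refine (rm0_finite s₁ s₂ (P.lo c)).subset fun X hX => ?_
  obtain ⟨h0, h1⟩ := mul_ne_zero_iff.1 hX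
  refine ⟨by_contra fun hn => h1 (if_neg fun h2 => hn h2.2.2), ?_⟩
  have h3 : X.det ≤ P.lo c := by
    by_contra hn
    refine h0 ?_
    rw [cX, if_pos (PhiId_ne h0), h.lo_spec _ _ (by omega), Int.cast_zero]
  exact_mod_cast h3

theorem nz_nat (h : P.IsF 0 c) (hp : P.Pos c) (s₁ s₂ : ℍ) : ∃ m : ℕ, P.nz c s₁ s₂ = m := by
  have e : ∀ X, ∃ m : ℕ, P.cX c X * P.z0 s₁ s₂ X = m := fun X => by
    have h1 := cX_z0_nonneg hp s₁ s₂ X
    obtain ⟨z, hz⟩ : ∃ z : ℤ, P.cX c X * P.z0 s₁ s₂ X = z := by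
      rw [cX, z0]
      split_ifs
      exacts [⟨_, mul_one _⟩, ⟨0, by simp⟩, ⟨0, by simp⟩, ⟨0, by simp⟩]
    rw [hz] at h1 ⊢
    obtain ⟨m, rfl⟩ := Int.eq_ofNat_of_zero_le (by exact_mod_cast h1 : 0 ≤ z)
    exact ⟨m, Int.cast_natCast m⟩
  choose m hm using e
  refine ⟨∑ X ∈ (finite_sing h s₁ s₂).toFinset, m X, ?_⟩
  rw [nz, tsum_eq_sum (s := (finite_sing h s₁ s₂).toFinset) fun X hX =>
    by_contra fun hn => hX ((Set.Finite.mem_toFinset _).2 hn), Nat.cast_sum]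
  exact Finset.sum_congr rfl fun X _ => hm X

theorem rg_nonneg (hp : P.Pos c) (T : ℝ) (s₁ s₂ t₁ t₂ : ℍ) : 0 ≤ P.Rg c T s₁ s₂ t₁ t₂ := by
  refine tsum_nonneg fun X => mul_nonneg ?_ (beta_nonneg _)
  split_ifs with h
  · exact cX_nonneg hp h.1
  · exact le_rfl

theorem log_gf (hχ : IsChi χ) (h : P.IsF0 c) (hp : P.Pos c) (hz : Proper t₁ t₂) (hT : 2 ≤ T)
    (s₁ s₂ : ℍ) : Real.log ‖P.gf c P.Dm t₁ t₂‖ = 12 * P.p * P.cp c * Real.log P.p -
      6 * P.p * (P.Psi χ c T t₁ t₂ + P.Rg c T s₁ s₂ t₁ t₂ + ∑' X : MZ,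
        P.cX c X * P.z0 s₁ s₂ X * beta (4 * Real.pi * T * Rm X t₁ t₂ / P.p ^ 2)) := by
  have hs := summable_cX h.toIsF hz (one_le_two.trans hT)
  have sm : ∀ a : MZ → ℝ, (∀ X, a X = P.cX c X ∨ a X = 0) →
      Summable fun X => a X * beta (4 * Real.pi * T * Rm X t₁ t₂ / P.p ^ 2) := fun a ha =>
    Summable.of_norm_bounded hs.norm fun X => by
      rcases ha X with e | e
      · rw [e]
      · rw [e, zero_mul, norm_zero]
        exact norm_nonneg _
  have s1 := sm (fun X => if X.det ≤ 0 then P.cX c X else 0) fun X => by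
    split_ifs
    exacts [Or.inl rfl, Or.inr rfl]
  have s2 := sm (fun X => if 0 < X.det ∧ Rm X s₁ s₂ ≠ 0 then P.cX c X else 0) fun X => by
    split_ifs
    exacts [Or.inl rfl, Or.inr rfl]
  have s3 := sm (fun X => P.cX c X * P.z0 s₁ s₂ X) fun X => by
    simp only [z0]
    split_ifs
    exacts [Or.inl (mul_one _), Or.inr (mul_zero _)]
  rw [(arch_eq hχ h hp hz).2, Phi_eq hχ h hz le_rfl, ← Phi_eq hχ h hz hT, Phi, Psi, Rg,
    Complex.add_re, Complex.ofReal_re, add_assoc, add_assoc, ← s2.tsum_add s3,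
    ← s1.tsum_add (s2.add s3)]
  congr 4
  funext X
  rw [← add_mul, ← add_mul]
  congr 1
  by_cases h0 : P.cX c X = 0
  · simp [h0]
  obtain ⟨h1, h2⟩ := PhiId_ne h0
  by_cases h3 : Rm X s₁ s₂ = 0
  · simp [z0, h1, h2, h3, (rm0_det_pos h3 h2).not_ge]
  · rcases le_or_gt X.det 0 with h4 | h4
    · simp [z0, h3, h4, h4.not_gt]
    · simp [z0, h3, h4, h4.not_ge]

end Par

end

end Pool.Agent.P.MP_a60a76_nt.Sz
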