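import Pool.Agent.P.MP_a60a76_nt.Sz.Base

namespace Pool.Agent.P.MP_a60a76_nt.Sz

open UpperHalfPlane MeasureTheory SP
open scoped MatrixGroups UpperHalfPlane Matrix Modular Topology Classical ArithmeticFunction.sigma

noncomputable section

/-! Basic properties of expansions. -/

variable {N : ℕ} {c c' : ℤ → ℂ} {f g : ℍ → ℂ}

theorem QSa_norm_ee (N : ℕ) (ν : ℤ) (z : ℂ) :
    ‖ee (ν * z / N)‖ = Real.exp (-(2 * Real.pi * ν * z.im / N)) := by
  rw [norm_ee]
  congr 2
  have : ((ν : ℂ) * z / N).im = ν * z.im / N := by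
    rw [← Complex.ofReal_natCast, Complex.div_ofReal_im]
    simp
  rw [this]
  ring

theorem QSa_ee_add (N : ℕ) (μ ν : ℤ) (z : ℂ) :
    ee (((μ + ν : ℤ) : ℂ) * z / N) = ee (μ * z / N) * ee (ν * z / N) := by
  rw [← ee_add]
  congr 1
  push_cast
  ring

theorem QS.summable_norm (h : QS N c f) (τ : ℍ) :
    Summable fun ν : ℤ => ‖c ν‖ * Real.exp (-(2 * Real.pi * ν * τ.im / N)) := by
  refine (h.sum τ).summable.norm.congr fun ν => ?_
  rw [norm_mul, QSa_norm_ee, coe_im]

theorem QSa_exp_le {k a b y : ℝ} (ha : a ≤ y) (hb : y ≤ b) :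
    Real.exp (k * y) ≤ Real.exp (k * a) + Real.exp (k * b) := by
  rcases le_total 0 k with hk | hk
  · have : Real.exp (k * y) ≤ Real.exp (k * b) :=
      Real.exp_le_exp.2 (mul_le_mul_of_nonneg_left hb hk)
    linarith [Real.exp_pos (k * a)]
  · have : Real.exp (k * y) ≤ Real.exp (k * a) :=
      Real.exp_le_exp.2 (mul_le_mul_of_nonpos_left ha hk)
    linarith [Real.exp_pos (k * b)]

/-- The point `i y`. -/
def QSa_pt (y : ℝ) (hy : 0 < y) : ℍ := ⟨y * Complex.I, by simpa using hy⟩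

theorem QSa_pt_im (y : ℝ) (hy : 0 < y) : (QSa_pt y hy).im = y := by
  simp [QSa_pt, UpperHalfPlane.im]

theorem QSa_summable (h : QS N c f) {y : ℝ} (hy : 0 < y) :
    Summable fun ν : ℤ => ‖c ν‖ * Real.exp (-(2 * Real.pi * ν * y / N)) := by
  have := h.summable_norm (QSa_pt y hy)
  rwa [QSa_pt_im] at this

theorem QS.hol (hN : 0 < N) (h : QS N c f) : Hol f := by
  intro z hz
  have hz' : 0 < z.im := hz
  let U : Set ℂ := {w | z.im / 2 < w.im ∧ w.im < 2 * z.im}
  have hU : IsOpen U :=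
    (isOpen_lt continuous_const Complex.continuous_im).inter
      (isOpen_lt Complex.continuous_im continuous_const)
  have hzU : z ∈ U := ⟨by linarith, by linarith⟩
  have hd : DifferentiableOn ℂ (fun w : ℂ => ∑' ν : ℤ, c ν * ee (ν * w / N)) U := by
    refine Complex.differentiableOn_tsum_of_summable_norm
      ((QSa_summable h (y := z.im / 2) (by linarith)).add
        (QSa_summable h (y := 2 * z.im) (by linarith))) (fun ν => ?_) hU (fun ν w hw => ?_)
    · unfold ee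
      fun_prop
    · rw [norm_mul, QSa_norm_ee, ← mul_add]
      refine mul_le_mul_of_nonneg_left ?_ (norm_nonneg _)
      have e : ∀ y : ℝ, -(2 * Real.pi * ν * y / N) = -(2 * Real.pi * ν / N) * y := fun y => by
        ring
      rw [e, e, e]
      exact QSa_exp_le hw.1.le hw.2.le
  refine ((hd.differentiableAt (hU.mem_nhds hzU)).congr_of_eventuallyEq ?_).differentiableWithinAt
  filter_upwards [hU.mem_nhds hzU] with w hw
  have hw' : 0 < w.im := lt_trans (by linarith) hw.1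
  rw [Function.comp_apply, ← (h.sum _).tsum_eq, ofComplex_apply_of_im_pos hw']

theorem QSa_integral (k : ℤ) :
    ∫ x in (0 : ℝ)..1, ee (k * (x : ℂ)) = if k = 0 then 1 else 0 := by
  split_ifs with hk
  · simp [hk, ee_zero]
  · have hc : (2 * Real.pi * Complex.I * k : ℂ) ≠ 0 :=
      mul_ne_zero Complex.two_pi_I_ne_zero (by exact_mod_cast hk)
    have h1 := integral_exp_mul_complex (a := 0) (b := 1) hc
    have h2 : Complex.exp (2 * Real.pi * Complex.I * k) = 1 := ee_int k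
    simp only [Complex.ofReal_one, mul_one, Complex.ofReal_zero, mul_zero, Complex.exp_zero, h2,
      sub_self, zero_div] at h1
    rw [← h1]
    congr 1
    funext x
    rw [ee, mul_assoc (2 * Real.pi * Complex.I : ℂ)]

/-- Uniqueness for absolutely convergent Fourier series. -/
theorem QSa_fourier {d : ℤ → ℂ} (h : ∀ x : ℝ, HasSum (fun ν : ℤ => d ν * ee (ν * (x : ℂ))) 0)
    (μ : ℤ) : d μ = 0 := by
  have hd : Summable fun ν => ‖d ν‖ := by
    simpa [ee_zero] using (h 0).summable.norm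
  let F : ℤ → ℝ → ℂ := fun ν x => d ν * ee (((ν - μ : ℤ) : ℂ) * (x : ℂ))
  have hF : ∀ x, HasSum (fun ν => F ν x) 0 := by
    intro x
    have := (h x).mul_right (ee (-μ * (x : ℂ)))
    rw [zero_mul] at this
    refine this.congr_fun fun ν => ?_
    simp only [F]
    rw [mul_assoc, ← ee_add]
    congr 2
    push_cast
    ring
  have hn : ∀ ν x, ‖F ν x‖ = ‖d ν‖ := by
    intro ν x
    simp [F, norm_ee]
  have hc : ∀ ν, Continuous (F ν) := fun ν => by
    simp only [F, ee]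
    fun_prop
  have h1 := hasSum_integral_of_summable_integral_norm (μ := volume.restrict (Set.Ioc (0 : ℝ) 1))
    (F := F) (fun ν => (hc ν).integrableOn_Ioc) (by simpa [hn] using hd)
  have h2 : ∀ ν, ∫ x in Set.Ioc (0 : ℝ) 1, F ν x = if ν = μ then d μ else 0 := by
    intro ν
    rw [← intervalIntegral.integral_of_le zero_le_one]
    simp only [F]
    rw [intervalIntegral.integral_const_mul, QSa_integral]
    by_cases hν : ν = μ
    · simp [hν]
    · simp [hν, sub_eq_zero]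
  simp only [h2, (hF _).tsum_eq, integral_zero] at h1
  exact (hasSum_ite_eq μ (d μ)).unique h1

/-- Uniqueness of the coefficients from the values high in the upper half plane. -/
theorem coeff_unique (hN : 0 < N) (Y : ℝ)
    (h : ∀ τ : ℍ, Y ≤ τ.im → ∃ s, HasSum (fun ν : ℤ => c ν * ee (ν * τ / N)) s ∧
      HasSum (fun ν : ℤ => c' ν * ee (ν * τ / N)) s) : c = c' := by
  have hy : 0 < max Y 1 := lt_of_lt_of_le one_pos (le_max_right _ _)
  have hN' : (N : ℂ) ≠ 0 := by exact_mod_cast hN.ne'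
  funext μ
  have := QSa_fourier (d := fun ν => (c ν - c' ν) * ee (ν * ((max Y 1 : ℝ) * Complex.I) / N))
    (fun x => ?_) μ
  · exact sub_eq_zero.1 ((mul_eq_zero.1 this).resolve_right (ee_ne_zero _))
  · let τ : ℍ := ⟨N * x + (max Y 1 : ℝ) * Complex.I, by simp⟩
    obtain ⟨s, h1, h2⟩ := h τ (by simp [τ, UpperHalfPlane.im])
    have h3 := h1.sub h2
    rw [sub_self] at h3
    refine h3.congr_fun fun ν => ?_
    rw [← sub_mul, mul_assoc, ← ee_add]
    congr 2
    change _ = (ν : ℂ) * (N * x + (max Y 1 : ℝ) * Complex.I) / N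
    field_simp
    ring

theorem QS.unique (hN : 0 < N) (h : QS N c f) (h' : QS N c' f) : c = c' :=
  coeff_unique hN 0 fun τ _ => ⟨f τ, h.sum τ, h'.sum τ⟩

theorem QS.congr (h : QS N c f) (hc : ∀ ν, c ν = c' ν) (hf : ∀ τ, f τ = g τ) : QS N c' g := by
  obtain rfl : c = c' := funext hc
  obtain rfl : f = g := funext hf
  exact h

theorem QS.add (h : QS N c f) (h' : QS N c' g) :
    QS N (fun ν => c ν + c' ν) fun τ => f τ + g τ := by
  obtain ⟨L, hL⟩ := h.low
  obtain ⟨L', hL'⟩ := h'.low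
  refine ⟨⟨min L L', fun ν hν => ?_⟩, fun τ => ?_⟩
  · rw [hL ν (lt_of_lt_of_le hν (min_le_left _ _)), hL' ν (lt_of_lt_of_le hν (min_le_right _ _)),
      add_zero]
  · simpa only [add_mul] using (h.sum τ).add (h'.sum τ)

theorem QS.const_mul (a : ℂ) (h : QS N c f) : QS N (fun ν => a * c ν) fun τ => a * f τ := by
  obtain ⟨L, hL⟩ := h.low
  refine ⟨⟨L, fun ν hν => by rw [hL ν hν, mul_zero]⟩, fun τ => ?_⟩
  simpa only [mul_assoc] using (h.sum τ).mul_left a

theorem QS.sub (h : QS N c f) (h' : QS N c' g) :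
    QS N (fun ν => c ν - c' ν) fun τ => f τ - g τ :=
  (h.add (h'.const_mul (-1))).congr (fun _ => by ring) fun _ => by ring

theorem QS.finset_sum {ι : Type} (s : Finset ι) {c : ι → ℤ → ℂ} {f : ι → ℍ → ℂ}
    (h : ∀ i ∈ s, QS N (c i) (f i)) :
    QS N (fun ν => ∑ i ∈ s, c i ν) fun τ => ∑ i ∈ s, f i τ := by
  induction s using Finset.induction_on with
  | empty => exact ⟨⟨0, fun _ _ => by simp⟩, fun τ => by simp⟩
  | insert i s hi ih =>
    exact ((h i (Finset.mem_insert_self i s)).add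
      (ih fun j hj => h j (Finset.mem_insert_of_mem hj))).congr
      (fun _ => by rw [Finset.sum_insert hi]) fun _ => by rw [Finset.sum_insert hi]

theorem QS.single (N : ℕ) (n : ℤ) (a : ℂ) :
    QS N (fun ν => if ν = n then a else 0) fun τ => a * ee (n * τ / N) := by
  refine ⟨⟨n, fun ν hν => if_neg hν.ne⟩, fun τ => ?_⟩
  refine (hasSum_ite_eq n (a * ee (n * τ / N))).congr_fun fun ν => ?_
  split_ifs with hν
  · rw [hν]
  · rw [zero_mul]

theorem QS.shift (n : ℤ) (h : QS N c f) :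
    QS N (fun ν => c (ν - n)) fun τ => ee (n * τ / N) * f τ := by
  obtain ⟨L, hL⟩ := h.low
  refine ⟨⟨L + n, fun ν hν => hL _ (by omega)⟩, fun τ => ?_⟩
  rw [← (Equiv.addLeft n).hasSum_iff]
  refine ((h.sum τ).mul_left (ee (n * τ / N))).congr_fun fun ν => ?_
  simp only [Function.comp_apply, Equiv.coe_addLeft, add_sub_cancel_left, QSa_ee_add]
  ring

theorem QSa_mul {u v : ℤ → ℂ} {s t : ℂ} (hu : HasSum u s) (hv : HasSum v t) :
    HasSum (fun x : ℤ × ℤ => u x.1 * v x.2) (s * t) :=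
  hu.mul hv (summable_mul_of_summable_norm hu.summable.norm hv.summable.norm)

/-- Product of two expansions. -/
theorem QS.mul (h : QS N c f) (h' : QS N c' g) {L L' : ℤ} (hL : ∀ ν < L, c ν = 0)
    (hL' : ∀ ν < L', c' ν = 0) :
    QS N (fun ν => ∑ μ ∈ Finset.Icc L (ν - L'), c μ * c' (ν - μ)) fun τ => f τ * g τ := by
  refine ⟨⟨L + L', fun ν hν => ?_⟩, fun τ => ?_⟩
  · rw [Finset.Icc_eq_empty (by omega), Finset.sum_empty]
  · have h1 := QSa_mul (h.sum τ) (h'.sum τ)
    let e : ℤ × ℤ ≃ ℤ × ℤ :=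
      { toFun := fun x => (x.2, x.1 - x.2)
        invFun := fun x => (x.1 + x.2, x.1)
        left_inv := fun x => by simp
        right_inv := fun x => by simp }
    refine (e.hasSum_iff.2 h1).prod_fiberwise fun ν => ?_
    rw [Finset.sum_mul]
    have h2 : ∀ μ : ℤ, c μ * ee (μ * τ / N) * (c' (ν - μ) * ee (((ν - μ : ℤ) : ℂ) * τ / N)) =
        c μ * c' (ν - μ) * ee (ν * τ / N) := by
      intro μ
      have := QSa_ee_add N μ (ν - μ) τ
      rw [add_sub_cancel] at this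
      rw [this]
      ring
    refine (hasSum_sum_of_ne_finset_zero (fun μ hμ => ?_)).congr_fun fun μ => h2 μ
    rw [Finset.mem_Icc, not_and_or] at hμ
    rcases hμ with hμ | hμ
    · rw [hL μ (by omega), zero_mul, zero_mul]
    · rw [hL' (ν - μ) (by omega), mul_zero, zero_mul]

theorem QS.exists_mul (h : ∃ c, QS N c f) (h' : ∃ c, QS N c g) :
    ∃ c, QS N c fun τ => f τ * g τ := by
  obtain ⟨c, h⟩ := h
  obtain ⟨c', h'⟩ := h'
  obtain ⟨L, hL⟩ := h.low
  obtain ⟨L', hL'⟩ := h'.low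
  exact ⟨_, h.mul h' hL hL'⟩

theorem QSa_ee_scale {M : ℕ} (hM : 0 < M) (ν : ℤ) (z : ℂ) :
    ee ((((M : ℤ) * ν : ℤ) : ℂ) * z / ((M * N : ℕ) : ℂ)) = ee (ν * z / N) := by
  have hM' : (M : ℂ) ≠ 0 := by exact_mod_cast hM.ne'
  congr 1
  push_cast
  rw [mul_assoc, mul_div_mul_left _ _ hM']

/-- Change of the level of the expansion. -/
theorem QS.scale {M : ℕ} (hM : 0 < M) (h : QS N c f) :
    QS (M * N) (fun ν => if (M : ℤ) ∣ ν then c (ν / M) else 0) f := by
  have hM' : (0 : ℤ) < M := by exact_mod_cast hM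
  obtain ⟨L, hL⟩ := h.low
  refine ⟨⟨M * L, fun ν hν => ?_⟩, fun τ => ?_⟩
  · split_ifs with hd
    · obtain ⟨k, rfl⟩ := hd
      rw [Int.mul_ediv_cancel_left _ hM'.ne']
      exact hL k (lt_of_mul_lt_mul_left hν hM'.le)
    · rfl
  · rw [← (mul_right_injective₀ hM'.ne').hasSum_iff]
    · refine (h.sum τ).congr_fun fun ν => ?_
      simp only [Function.comp_apply]
      rw [if_pos (dvd_mul_right _ _), Int.mul_ediv_cancel_left _ hM'.ne', QSa_ee_scale hM]
    · intro ν hν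
      rw [if_neg, zero_mul]
      rintro ⟨k, rfl⟩
      exact hν ⟨k, rfl⟩

theorem QS.unscale {M : ℕ} (hM : 0 < M) (h : QS (M * N) c f)
    (hc : ∀ ν, ¬ (M : ℤ) ∣ ν → c ν = 0) : QS N (fun ν => c (M * ν)) f := by
  have hM' : (0 : ℤ) < M := by exact_mod_cast hM
  obtain ⟨L, hL⟩ := h.low
  refine ⟨⟨min L 0, fun ν hν => hL _ ?_⟩, fun τ => ?_⟩
  · have h1 : ν < L := lt_of_lt_of_le hν (min_le_left _ _)
    have h2 : ν < 0 := lt_of_lt_of_le hν (min_le_right _ _)
    nlinarith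
  · have h1 := ((mul_right_injective₀ hM'.ne').hasSum_iff (fun ν hν => ?_)).2 (h.sum τ)
    · refine h1.congr_fun fun ν => ?_
      simp only [Function.comp_apply]
      rw [QSa_ee_scale hM]
    · rw [hc ν, zero_mul]
      rintro ⟨k, rfl⟩
      exact hν ⟨k, rfl⟩

theorem QS.bound (hN : 0 < N) (h : QS N c f) {L : ℤ} (hL : ∀ ν < L, c ν = 0) {y : ℝ}
    (hy : 0 < y) : ∃ C : ℝ, 0 ≤ C ∧ ∀ τ : ℍ, y ≤ τ.im →
      ‖f τ‖ ≤ C * Real.exp (-(2 * Real.pi * L * τ.im / N)) := by
  have hs := QSa_summable h hy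
  have hN' : (0 : ℝ) < N := by exact_mod_cast hN
  refine ⟨(∑' ν : ℤ, ‖c ν‖ * Real.exp (-(2 * Real.pi * ν * y / N))) *
    Real.exp (2 * Real.pi * L * y / N),
    mul_nonneg (tsum_nonneg fun ν => by positivity) (Real.exp_pos _).le, fun τ hτ => ?_⟩
  rw [mul_assoc, ← (h.sum τ).tsum_eq]
  refine tsum_of_norm_bounded (hs.hasSum.mul_right _) fun ν => ?_
  rcases lt_or_ge ν L with hν | hν
  · simp [hL ν hν]
  · rw [norm_mul, QSa_norm_ee, coe_im, mul_assoc ‖c ν‖, ← Real.exp_add, ← Real.exp_add]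
    refine mul_le_mul_of_nonneg_left (Real.exp_le_exp.2 ?_) (norm_nonneg _)
    have h1 : (0 : ℝ) ≤ ν - L := by exact_mod_cast sub_nonneg.2 hν
    have h2 : 0 ≤ 2 * Real.pi * ((ν - L : ℝ) * (τ.im - y)) / N :=
      div_nonneg (mul_nonneg (by positivity) (mul_nonneg h1 (sub_nonneg.2 hτ))) hN'.le
    have h3 : 2 * Real.pi * ((ν - L : ℝ) * (τ.im - y)) / N =
        -(2 * Real.pi * ν * y / N) + (2 * Real.pi * L * y / N +
          -(2 * Real.pi * L * τ.im / N)) - -(2 * Real.pi * ν * τ.im / N) := by ring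
    linarith

theorem QS.subexp (hN : 0 < N) (h : QS N c f) {η : ℝ} (hη : 0 < η) :
    ∃ C : ℝ, ∀ ν : ℤ, 0 ≤ ν → ‖c ν‖ ≤ C * Real.exp (η * ν) := by
  have hN' : (0 : ℝ) < N := by exact_mod_cast hN
  have hπ := Real.pi_pos
  have hs := QSa_summable h (y := η * N / (2 * Real.pi)) (by positivity)
  have e : ∀ ν : ℤ, -(2 * Real.pi * ν * (η * N / (2 * Real.pi)) / N) = -(η * ν) := fun ν => by
    field_simp
  simp only [e] at hs
  refine ⟨∑' ν : ℤ, ‖c ν‖ * Real.exp (-(η * ν)), fun ν _ => ?_⟩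
  have h1 := hs.le_tsum ν fun μ _ => by positivity
  rw [Real.exp_neg, ← div_eq_mul_inv, div_le_iff₀ (Real.exp_pos _)] at h1
  exact h1

theorem QS.of_subexp (hN : 0 < N) (hlow : ∃ L : ℤ, ∀ ν < L, c ν = 0)
    (h : ∀ η : ℝ, 0 < η → ∃ C : ℝ, ∀ ν : ℤ, 0 ≤ ν → ‖c ν‖ ≤ C * Real.exp (η * ν)) :
    QS N c fun τ => ∑' ν : ℤ, c ν * ee (ν * τ / N) := by
  refine ⟨hlow, fun τ => Summable.hasSum ?_⟩
  obtain ⟨L, hL⟩ := hlow
  have hN' : (0 : ℝ) < N := by exact_mod_cast hN
  have hπ := Real.pi_pos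
  have hy := τ.im_pos
  have hη : 0 < Real.pi * τ.im / N := by positivity
  obtain ⟨C, hC⟩ := h _ hη
  refine Summable.of_nat_of_neg ?_ ?_
  · refine Summable.of_norm_bounded
      ((Real.summable_exp_nat_mul_iff.2 (neg_lt_zero.2 hη)).mul_left C) fun n => ?_
    rw [norm_mul, QSa_norm_ee, coe_im]
    refine (mul_le_mul_of_nonneg_right (hC n (Int.natCast_nonneg n)) (Real.exp_pos _).le).trans ?_
    rw [mul_assoc, ← Real.exp_add]
    apply le_of_eq
    congr 2
    push_cast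
    ring
  · refine summable_of_ne_finset_zero (s := Finset.range ((-L).toNat + 1)) fun n hn => ?_
    rw [Finset.mem_range] at hn
    rw [hL _ (by omega), zero_mul]

theorem QSa_ee_nat (L : ℤ) (n : ℕ) (z : ℂ) :
    ee (((L + n : ℤ) : ℂ) * z / N) = ee (L * z / N) * ee (z / N) ^ n := by
  rw [← ee_nat_mul, ← ee_add]
  congr 1
  push_cast
  ring

theorem QSa_inj (L : ℤ) : Function.Injective fun n : ℕ => L + (n : ℤ) := fun a b h => by
  simpa using h

theorem QSa_range {L ν : ℤ} (h : ν ∉ Set.range fun n : ℕ => L + (n : ℤ)) : ν < L := by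
  by_contra h'
  exact h ⟨(ν - L).toNat, by simp only; omega⟩

theorem QS.of_nat {a : ℕ → ℂ} (L : ℤ)
    (h : ∀ τ : ℍ, HasSum (fun n : ℕ => a n * ee (τ / N) ^ n) (f τ)) :
    QS N (fun ν => if L ≤ ν then a (ν - L).toNat else 0) fun τ => ee (L * τ / N) * f τ := by
  refine ⟨⟨L, fun ν hν => if_neg (not_le.2 hν)⟩, fun τ => ?_⟩
  rw [← (QSa_inj L).hasSum_iff]
  · refine ((h τ).mul_left (ee (L * τ / N))).congr_fun fun n => ?_
    simp only [Function.comp_apply]
    rw [if_pos (by omega), add_sub_cancel_left, Int.toNat_natCast, QSa_ee_nat]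
    ring
  · intro ν hν
    rw [if_neg (not_le.2 (QSa_range hν)), zero_mul]

theorem QS.to_nat (h : QS N c f) {L : ℤ} (hL : ∀ ν < L, c ν = 0) (τ : ℍ) :
    HasSum (fun n : ℕ => c (L + n) * ee (τ / N) ^ n) (ee (-L * τ / N) * f τ) := by
  have h1 := ((QSa_inj L).hasSum_iff (fun ν hν => by
    rw [hL ν (QSa_range hν), zero_mul])).2 (h.sum τ)
  refine (h1.mul_left (ee (-L * τ / N))).congr_fun fun n => ?_
  simp only [Function.comp_apply]
  have h2 : ee (-L * τ / N) * ee (L * τ / N) = 1 := by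
    rw [← ee_add, ← ee_zero]
    congr 1
    ring
  rw [QSa_ee_nat]
  linear_combination (-(c (L + n) * ee (τ / N) ^ n)) * h2

/-- The leading term dominates at the cusp. -/
theorem QS.tendsto (hN : 0 < N) (h : QS N c f) {L : ℤ} (hL : ∀ ν < L, c ν = 0) :
    Filter.Tendsto (fun τ : ℍ => ee (-L * τ / N) * f τ) atImInfty (𝓝 (c L)) := by
  have hN' : (0 : ℝ) < N := by exact_mod_cast hN
  have hπ := Real.pi_pos
  obtain ⟨C, -, hC⟩ := (h.sub (QS.single N L (c L))).bound hN (L := L + 1) (fun ν hν => by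
    split_ifs with h1
    · rw [h1, sub_self]
    · rw [hL ν (by omega), sub_zero]) one_pos
  have him : Filter.Tendsto (fun τ : ℍ => τ.im) atImInfty Filter.atTop := Filter.tendsto_comap
  have h0 : Filter.Tendsto (fun τ : ℍ => C * Real.exp (-(2 * Real.pi / N * τ.im))) atImInfty
      (𝓝 0) := by
    have := (Real.tendsto_exp_neg_atTop_nhds_zero.comp
      (him.const_mul_atTop (r := 2 * Real.pi / N) (by positivity))).const_mul C
    rwa [mul_zero] at this
  rw [tendsto_iff_norm_sub_tendsto_zero]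
  refine squeeze_zero' (Filter.Eventually.of_forall fun _ => norm_nonneg _) ?_ h0
  filter_upwards [him.eventually_ge_atTop 1] with τ hτ
  have h2 : ee (-L * τ / N) * ee (L * τ / N) = 1 := by
    rw [← ee_add, ← ee_zero]
    congr 1
    ring
  have h3 : ee (-L * τ / N) * f τ - c L = ee (-L * τ / N) * (f τ - c L * ee (L * τ / N)) := by
    linear_combination c L * h2
  have h4 : ‖ee (-L * τ / N)‖ = Real.exp (2 * Real.pi * L * τ.im / N) := by
    have := QSa_norm_ee N (-L) τ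
    rw [Int.cast_neg, coe_im] at this
    rw [this]
    congr 1
    push_cast
    ring
  rw [h3, norm_mul, h4]
  refine (mul_le_mul_of_nonneg_left (hC τ hτ) (Real.exp_pos _).le).trans (le_of_eq ?_)
  rw [mul_left_comm, ← Real.exp_add]
  congr 2
  push_cast
  ring

end

end Pool.Agent.P.MP_a60a76_nt.Sz
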