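import Pool.Agent.P.MP_a60a76_nt.Sz.Chi
import Pool.Agent.P.MP_a60a76_nt.Sz.Unf

namespace Pool.Agent.P.MP_a60a76_nt.Sz

open UpperHalfPlane MeasureTheory SP
open scoped MatrixGroups UpperHalfPlane Matrix Modular Topology Classical ArithmeticFunction.sigma

noncomputable section

/-! The theorem of Stokes on the modular curve. -/

theorem Stokes_coe {z : ℂ} (hz : 0 < z.im) : ((ofComplex z : ℍ) : ℂ) = z := by
  rw [ofComplex_apply_of_im_pos hz]

theorem Stokes_im (x : ℝ) {y : ℝ} (hy : 0 < y) : (ofComplex (x + y * Complex.I)).im = y := by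
  rw [← coe_im, Stokes_coe (by simpa using hy)]
  simp

theorem Stokes_contOn : ContinuousOn ofComplex {z : ℂ | 0 < z.im} := by
  rw [isOpenEmbedding_coe.isInducing.continuousOn_iff]
  exact continuousOn_id.congr fun z hz => Stokes_coe hz

/-- The theorem of Stokes for a periodic function on a rectangle. -/
theorem Stokes_rect {G : ℍ → ℂ} (hG : C1 G) (hp : ∀ τ, G (ModularGroup.T • τ) = G τ) {a b : ℝ}
    (ha : 0 < a) (hab : a ≤ b) :
    CT a G - CT b G = ∫ y in a..b, CT y fun τ => 2 * Complex.I * db G τ := by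
  have hb : 0 < b := ha.trans_le hab
  have hpos : ∀ y ∈ Set.uIcc a b, 0 < y := fun y hy => by
    rw [Set.uIcc_of_le hab] at hy
    exact ha.trans_le hy.1
  have hsub : Set.uIcc (0 : ℝ) 1 ×ℂ Set.uIcc a b ⊆ {z : ℂ | 0 < z.im} := fun z hz => hpos _ hz.2
  have hdb : ∀ z : ℂ, 0 < z.im → Complex.I • fderiv ℝ (G ∘ ofComplex) z 1 -
      fderiv ℝ (G ∘ ofComplex) z Complex.I = 2 * Complex.I * db G (ofComplex z) := by
    intro z hz
    rw [db, Stokes_coe hz, smul_eq_mul]
    linear_combination (-fderiv ℝ (G ∘ ofComplex) z Complex.I) * Complex.I_mul_I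
  have hc : ContinuousOn (fun z => 2 * Complex.I * db G (ofComplex z)) {z : ℂ | 0 < z.im} :=
    continuousOn_const.mul (hG.continuous_db.comp_continuousOn Stokes_contOn)
  have h1 := Complex.integral_boundary_rect_of_differentiableOn_real (G ∘ ofComplex) ⟨0, a⟩ ⟨1, b⟩
    ((hG.differentiableOn one_ne_zero).mono hsub)
    (((hc.mono hsub).congr fun z hz => hdb z (hsub hz)).integrableOn_compact
      (isCompact_uIcc.reProdIm isCompact_uIcc))
  have h2 : ∫ y : ℝ in a..b, (G ∘ ofComplex) ((1 : ℝ) + y * Complex.I) =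
      ∫ y : ℝ in a..b, (G ∘ ofComplex) ((0 : ℝ) + y * Complex.I) := by
    refine intervalIntegral.integral_congr fun y hy => ?_
    have hy' := hpos y hy
    show G _ = G _
    rw [← hp (ofComplex ((0 : ℝ) + y * Complex.I))]
    congr 1
    apply UpperHalfPlane.ext
    rw [coe_T_smul, Stokes_coe (by simpa using hy'), Stokes_coe (by simpa using hy')]
    push_cast
    ring
  have h3 : ∫ x : ℝ in (0 : ℝ)..1, ∫ y : ℝ in a..b,
      (Complex.I • fderiv ℝ (G ∘ ofComplex) (x + y * Complex.I) 1 -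
        fderiv ℝ (G ∘ ofComplex) (x + y * Complex.I) Complex.I) =
      ∫ x : ℝ in (0 : ℝ)..1, ∫ y : ℝ in a..b,
        2 * Complex.I * db G (ofComplex (x + y * Complex.I)) :=
    intervalIntegral.integral_congr fun x _ => intervalIntegral.integral_congr fun y hy =>
      hdb _ (by simpa using hpos y hy)
  have h4 : IntegrableOn (Function.uncurry fun x y : ℝ =>
      2 * Complex.I * db G (ofComplex (x + y * Complex.I))) (Set.uIoc 0 1 ×ˢ Set.uIoc a b) := by
    have h5 : Continuous fun p : ℝ × ℝ => (p.1 : ℂ) + p.2 * Complex.I := by fun_prop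
    have h6 : ContinuousOn (fun p : ℝ × ℝ =>
        2 * Complex.I * db G (ofComplex (p.1 + p.2 * Complex.I))) (Set.uIcc 0 1 ×ˢ Set.uIcc a b) :=
      hc.comp h5.continuousOn fun p hp => by simpa using hpos _ hp.2
    exact (h6.integrableOn_compact (isCompact_uIcc.prod isCompact_uIcc)).mono_set
      (Set.prod_mono Set.uIoc_subset_uIcc Set.uIoc_subset_uIcc)
  dsimp only at h1
  rw [h2, add_sub_cancel_right, h3, intervalIntegral_intervalIntegral_swap h4] at h1
  exact h1

theorem IsChi.stokes {χ : ℍ → ℝ} (h : IsChi χ) {ω f : ℍ → ℂ} (hω : C1 ω) (hw : Wt 2 ω)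
    (hf : ∀ τ, db ω τ = -(Complex.I / (2 * (τ.im : ℂ) ^ 2)) * f τ) {T : ℝ} (hT : 2 ≤ T) :
    IT χ T f = -CT T ω := by
  have him : Continuous fun τ : ℍ => (τ.im : ℂ) ^ 2 :=
    (Complex.continuous_ofReal.comp continuous_im).pow 2
  have hf' : f = fun τ => (τ.im : ℂ) ^ 2 * (2 * Complex.I * db ω τ) := by
    funext τ
    have h1 : (τ.im : ℂ) ≠ 0 := Complex.ofReal_ne_zero.2 τ.im_pos.ne'
    rw [hf]
    field_simp
    linear_combination f τ * Complex.I_mul_I
  have hfc : Continuous f := by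
    rw [hf']
    exact him.mul (continuous_const.mul hω.continuous_db)
  obtain ⟨hG, hdG⟩ := h.c1.mul hω
  let m : ℍ → ℂ := fun τ =>
    (τ.im : ℂ) ^ 2 * (2 * Complex.I * (db (fun τ => (χ τ : ℂ)) τ * ω τ))
  have hmc : Continuous m := him.mul (continuous_const.mul (h.c1.continuous_db.mul hω.continuous))
  have hmg : ∀ (g : SL(2, ℤ)) (τ : ℍ), m (g • τ) =
      (τ.im : ℂ) ^ 2 * (2 * Complex.I * ω τ) * db (fun τ => (χ (g • τ) : ℂ)) τ := by
    intro g τ
    have h1 := dn_sl_ne_zero g τ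
    have h2 : (starRingEnd ℂ) (dn g τ) ≠ 0 := (map_ne_zero _).2 h1
    show ((g • τ).im : ℂ) ^ 2 * (2 * Complex.I * (db (fun τ => (χ τ : ℂ)) (g • τ) * ω (g • τ))) = _
    rw [(h.c1.smul g).2 τ, hw.smul g τ, im_sl_smul, Complex.ofReal_div, ← Complex.mul_conj,
      zpow_ofNat]
    field_simp
  have hloc : ∀ (U : Set ℍ) (c : ℝ), IsOpen U → (∀ τ ∈ U, χ τ = c) → ∀ τ ∈ U, m τ = 0 := by
    intro U c hU hc τ hτ
    have h1 : db (fun τ => (χ τ : ℂ)) τ = 0 := by
      rw [db_congr (g := fun _ => (c : ℂ)), (c1_const _).2]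
      filter_upwards [hU.mem_nhds hτ] with s hs
      rw [hc s hs]
    show _ * (_ * (_ * _)) = 0
    rw [h1, zero_mul, mul_zero, mul_zero]
  have hm1 : ∀ τ : ℍ, τ.im < 1 / 2 → m τ = 0 :=
    hloc {τ | τ.im < 1 / 2} 0 (isOpen_lt continuous_im continuous_const) fun τ hτ =>
      h.low τ (le_of_lt hτ)
  have hm2 : ∀ τ : ℍ, 2 < τ.im → m τ = 0 :=
    hloc {τ | 2 < τ.im} 1 (isOpen_lt continuous_const continuous_im) fun τ hτ =>
      h.high τ (le_of_lt hτ)
  have hm0 : ∫ τ in strip, m τ = 0 := by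
    refine h.integral_eq_zero hmc (fun τ => ?_) hm1 hm2 fun τ => ?_
    · rw [hmg]
      simp only [h.per]
      show _ = _ * (_ * (_ * _))
      ring
    · simp only [hmg]
      have h1 := (h.hasSum_db τ).mul_left ((τ.im : ℂ) ^ 2 * (2 * Complex.I * ω τ))
      rwa [mul_zero] at h1
  have hs : MeasurableSet {τ : ℍ | τ.im ∈ Set.Icc (1 / 4) T} :=
    (isClosed_Icc.preimage continuous_im).measurableSet
  have hS := measurableSet_strip.inter hs
  have h4 : (0 : ℝ) < 1 / 4 := by norm_num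
  have hm3 : ∫ τ in strip ∩ {τ : ℍ | τ.im ∈ Set.Icc (1 / 4) T}, m τ = 0 := by
    rw [← hm0]
    refine (setIntegral_eq_of_subset_of_forall_sdiff_eq_zero measurableSet_strip
      Set.inter_subset_left fun τ hτ => ?_).symm
    by_cases h1 : τ.im < 1 / 2
    · exact hm1 τ h1
    · refine hm2 τ (lt_of_le_of_lt hT (not_le.1 fun h2 => hτ.2 ⟨hτ.1, ?_, h2⟩))
      linarith
  have hI : IT χ T f = ∫ τ in strip ∩ {τ : ℍ | τ.im ∈ Set.Icc (1 / 4) T}, (χ τ : ℂ) * f τ := by
    rw [IT, setIntegral_eq_of_subset_of_forall_sdiff_eq_zero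
      (isClosed_le continuous_im continuous_const).measurableSet
      (s := strip ∩ {τ : ℍ | τ.im ∈ Set.Icc (1 / 4) T}) (fun τ hτ => hτ.2.2) fun τ hτ => ?_]
    · refine setIntegral_congr_fun hS fun τ hτ => ?_
      show ((ps χ τ : ℝ) : ℂ) * f τ = _
      rw [ps, if_pos hτ.1]
    · rw [ps]
      split_ifs with h1
      · rw [h.low τ (not_lt.1 fun h2 => hτ.2 ⟨h1, by linarith, hτ.1⟩), Complex.ofReal_zero,
          zero_mul]
      · rw [Complex.ofReal_zero, zero_mul]
  have hcf : Continuous fun τ => (χ τ : ℂ) * f τ := h.c1.continuous.mul hfc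
  have hadd := integral_add (integrableOn_strip hcf (b := T) h4) (integrableOn_strip hmc (b := T) h4)
  have hcm : Continuous fun τ => (χ τ : ℂ) * f τ + m τ := hcf.add hmc
  rw [hm3, add_zero, ← hI, integral_strip measurableSet_Icc (fun y hy => h4.trans_le hy.1)
    (integrableOn_strip hcm h4)] at hadd
  have hT' : (1 / 4 : ℝ) ≤ T := by linarith
  have h5 := Stokes_rect hG (fun τ => by rw [h.per, hw.per]) h4 hT'
  have h6 : CT (1 / 4) (fun τ => (χ τ : ℂ) * ω τ) = 0 := by
    rw [CT, intervalIntegral.integral_congr (g := fun _ => 0), intervalIntegral.integral_zero]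
    intro x _
    show (χ _ : ℂ) * _ = 0
    rw [h.low _ (by rw [Stokes_im x h4]; norm_num), Complex.ofReal_zero, zero_mul]
  have h7 : CT T (fun τ => (χ τ : ℂ) * ω τ) = CT T ω := by
    refine intervalIntegral.integral_congr fun x _ => ?_
    show (χ _ : ℂ) * _ = _
    rw [h.high _ (by rw [Stokes_im x (h4.trans_le hT')]; exact hT), Complex.ofReal_one, one_mul]
  rw [h6, h7, zero_sub] at h5
  rw [← hadd, h5, intervalIntegral.integral_of_le hT', ← integral_Icc_eq_integral_Ioc]
  refine setIntegral_congr_fun measurableSet_Icc fun y hy => ?_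
  have hy' : 0 < y := h4.trans_le hy.1
  have hy'' : (y : ℂ) ≠ 0 := Complex.ofReal_ne_zero.2 hy'.ne'
  show _ * CT y _ = CT y _
  rw [CT, CT, ← intervalIntegral.integral_const_mul]
  refine intervalIntegral.integral_congr fun x _ => ?_
  show _ * (_ * f _ + m _) = _ * db _ _
  rw [hdG, hf']
  simp only [m, Stokes_im x hy']
  field_simp
  ring

end

end Pool.Agent.P.MP_a60a76_nt.Sz
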