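import Pool.Agent.P.MP_a60a76_nt.Sz.Defs3

namespace Pool.Agent.P.MP_a60a76_nt.Sz

open UpperHalfPlane hiding J
open MeasureTheory SP
open scoped MatrixGroups UpperHalfPlane Matrix Modular Topology Classical ArithmeticFunction.sigma

noncomputable section

/-! Conjugation of complex points and isogenies. -/

open WeierstrassCurve Polynomial

/-- The map on points which is induced by a field homomorphism. -/
def TrA_map (W : WeierstrassCurve ℂ) (f : ℂ →+* ℂ) :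
    W.toAffine.Point →+ (W.map f).toAffine.Point where
  toFun P := match P with
    | 0 => 0
    | .some _ _ h => .some _ _ <| (W.toAffine.map_nonsingular f.injective ..).mpr h
  map_zero' := rfl
  map_add' := by
    rintro (_ | ⟨x₁, y₁, h₁⟩) (_ | ⟨x₂, y₂, h₂⟩)
    any_goals rfl
    by_cases hxy : x₁ = x₂ ∧ y₁ = W.toAffine.negY x₂ y₂
    · rw [Affine.Point.add_of_Y_eq hxy.left hxy.right,
        Affine.Point.add_of_Y_eq (congr_arg _ hxy.left) <| by
          rw [hxy.right]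
          exact (Affine.map_negY ..).symm]
    · have h3 : ¬(f x₁ = f x₂ ∧ f y₁ = (W.map f).toAffine.negY (f x₂) (f y₂)) := fun h =>
        hxy ⟨f.injective h.1, f.injective (h.2.trans (Affine.map_negY ..))⟩
      rw [Affine.Point.add_some hxy, Affine.Point.add_some h3]
      have h4 : (W.map f).toAffine.slope (f x₁) (f x₂) (f y₁) (f y₂) =
          f (W.toAffine.slope x₁ x₂ y₁ y₂) := Affine.map_slope ..
      simp only [Affine.Point.some.injEq, h4]
      exact ⟨(Affine.map_addX ..).symm, (Affine.map_addY ..).symm⟩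

theorem exists_ptMap (W : WeierstrassCurve ℂ) (s : ℂ ≃+* ℂ) :
    ∃ Sg : W.toAffine.Point ≃+ (W.map (s : ℂ →+* ℂ)).toAffine.Point,
      ∀ x y h, ∃ h', Sg (Affine.Point.some x y h) = Affine.Point.some (s x) (s y) h' := by
  refine ⟨AddEquiv.ofBijective (TrA_map W (s : ℂ →+* ℂ)) ⟨?_, ?_⟩, fun x y h => ⟨_, rfl⟩⟩
  · rw [injective_iff_map_eq_zero]
    rintro (_ | ⟨x, y, h⟩) h0
    · rfl
    · cases h0
  · rintro (_ | ⟨x, y, h⟩)
    · exact ⟨0, rfl⟩
    · obtain ⟨x, rfl⟩ := s.surjective x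
      obtain ⟨y, rfl⟩ := s.surjective y
      exact ⟨.some x y ((W.toAffine.map_nonsingular (f := (s : ℂ →+* ℂ)) s.injective ..).mp h),
        rfl⟩

/-- The data of a rational homomorphism. -/
def RatD {W W' : WeierstrassCurve ℂ} (ψ : W.toAffine.Point →+ W'.toAffine.Point)
    (a₁ b₁ a₂ b₂ c : ℂ[X]) : Prop :=
  c ≠ 0 ∧ ∀ (x y : ℂ) (h : W.toAffine.Nonsingular x y), c.eval x ≠ 0 →
    ∃ h', ψ (Affine.Point.some x y h) =
      Affine.Point.some ((a₁.eval x + b₁.eval x * y) / c.eval x)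
        ((a₂.eval x + b₂.eval x * y) / c.eval x) h'

theorem RatD.conj {W : WeierstrassCurve ℂ} {s : ℂ ≃+* ℂ}
    {Sg : W.toAffine.Point ≃+ (W.map (s : ℂ →+* ℂ)).toAffine.Point}
    (hS : ∀ x y h, ∃ h', Sg (Affine.Point.some x y h) = Affine.Point.some (s x) (s y) h')
    {ψ : W.toAffine.Point →+ W.toAffine.Point} {a₁ b₁ a₂ b₂ c : ℂ[X]}
    (h : RatD ψ a₁ b₁ a₂ b₂ c) :
    RatD ((Sg.toAddMonoidHom.comp ψ).comp Sg.symm.toAddMonoidHom) (a₁.map (s : ℂ →+* ℂ))
      (b₁.map (s : ℂ →+* ℂ)) (a₂.map (s : ℂ →+* ℂ)) (b₂.map (s : ℂ →+* ℂ))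
      (c.map (s : ℂ →+* ℂ)) := by
  refine ⟨(Polynomial.map_ne_zero_iff (s : ℂ →+* ℂ).injective).2 h.1, fun x y hn hc => ?_⟩
  obtain ⟨x, rfl⟩ := s.surjective x
  obtain ⟨y, rfl⟩ := s.surjective y
  have ev : ∀ q : ℂ[X], (q.map (s : ℂ →+* ℂ)).eval (s x) = s (q.eval x) := fun q =>
    eval_map_apply (s : ℂ →+* ℂ) x
  have hn' := (W.toAffine.map_nonsingular (f := (s : ℂ →+* ℂ)) s.injective x y).mp hn
  obtain ⟨h1, e1⟩ := hS x y hn'
  rw [ev] at hc
  obtain ⟨h2, e2⟩ := h.2 x y hn' fun h0 => hc (by rw [h0, map_zero])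
  obtain ⟨h3, e3⟩ := hS _ _ h2
  have e4 : Sg.symm (Affine.Point.some (s x) (s y) hn) = Affine.Point.some x y hn' :=
    Sg.symm_apply_eq.2 e1.symm
  have e5 : ((Sg.toAddMonoidHom.comp ψ).comp Sg.symm.toAddMonoidHom)
      (Affine.Point.some (s x) (s y) hn) = Sg (ψ (Sg.symm (Affine.Point.some (s x) (s y) hn))) :=
    rfl
  rw [e5, e4, e2, e3]
  simp only [ev, ← map_mul, ← map_add, ← map_div₀]
  exact ⟨h3, trivial⟩

open Filter Bornology Asymptotics in
theorem TrA_ne {c : ℂ[X]} (hc : c ≠ 0) : ∀ᶠ x in cobounded ℂ, c.eval x ≠ 0 :=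
  (eventually_cofinite_not_isRoot hc).filter_mono (Bornology.le_cofinite ℂ)

open Filter Bornology Asymptotics in
theorem TrA_lead {a c : ℂ[X]} (hc : c ≠ 0) {l : Filter ℂ} [l.NeBot] {x r : ℂ → ℂ} {ρ : ℂ}
    (hρ : ρ ≠ 0) (hx : Tendsto x l (cobounded ℂ)) (hr : Tendsto r l (𝓝 ρ))
    (h : ∀ᶠ z in l, a.eval (x z) = c.eval (x z) * r z) :
    a.leadingCoeff = ρ * c.leadingCoeff := by
  have h1 : (fun z => (a - C ρ * c).eval (x z)) =o[l] fun z => c.eval (x z) := by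
    have h2 : (fun z => c.eval (x z) * (r z - ρ)) =o[l] fun z => c.eval (x z) * 1 :=
      (isBigO_refl _ _).mul_isLittleO ((isLittleO_one_iff ℂ).2 (tendsto_sub_nhds_zero_iff.2 hr))
    refine h2.congr' ?_ (Eventually.of_forall fun z => mul_one _)
    filter_upwards [h] with z hz
    rw [eval_sub, eval_mul, eval_C, hz]
    ring
  have h2 : (a - C ρ * c).degree < (C ρ * c).degree := by
    rw [degree_C_mul hρ]
    by_contra h3
    exact isLittleO_irrefl (hx.eventually (TrA_ne hc)).frequently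
      (((isBigO_cobounded_of_degree_le (not_lt.1 h3)).comp_tendsto hx).trans_isLittleO h1)
  have h3 := leadingCoeff_add_of_degree_lt h2
  rwa [sub_add_cancel, leadingCoeff_mul, leadingCoeff_C] at h3

open Filter in
theorem TrA_P (L : PeriodPair) :
    Tendsto (fun z => z ^ 2 * L.weierstrassP z) (𝓝[≠] 0) (𝓝 1) := by
  have h1 : ContinuousAt (fun z => z ^ 2 * L.weierstrassPExcept 0 z + 1) 0 :=
    (((continuous_pow 2).continuousAt).mul (L.analyticAt_weierstrassPExcept 0).continuousAt).add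
      continuousAt_const
  have h2 := h1.tendsto.mono_left (nhdsWithin_le_nhds (s := {0}ᶜ))
  simp only [ne_eq, OfNat.ofNat_ne_zero, not_false_eq_true, zero_pow, zero_mul, zero_add] at h2
  refine h2.congr' ?_
  filter_upwards [self_mem_nhdsWithin] with z hz
  exact (UnifAux.P_near L hz).symm

open Filter in
theorem TrA_Q (L : PeriodPair) :
    Tendsto (fun z => z ^ 3 * L.derivWeierstrassP z) (𝓝[≠] 0) (𝓝 (-2)) := by
  have h1 : ContinuousAt (fun z => z ^ 3 * L.derivWeierstrassPExcept 0 z - 2) 0 :=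
    (((continuous_pow 3).continuousAt).mul
      (L.analyticAt_derivWeierstrassPExcept 0).continuousAt).sub continuousAt_const
  have h2 := h1.tendsto.mono_left (nhdsWithin_le_nhds (s := {0}ᶜ))
  simp only [ne_eq, OfNat.ofNat_ne_zero, not_false_eq_true, zero_pow, zero_mul, zero_sub] at h2
  refine h2.congr' ?_
  filter_upwards [self_mem_nhdsWithin] with z hz
  have hz' : z ≠ 0 := hz
  rw [← L.derivWeierstrassPExcept_sub 0]
  simp only [ZeroMemClass.coe_zero, sub_zero]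
  field_simp

open Filter in
theorem TrA_mul {e : ℂ} (he : e ≠ 0) : Tendsto (fun z => e * z) (𝓝[≠] 0) (𝓝[≠] (0 : ℂ)) := by
  refine tendsto_nhdsWithin_iff.2 ⟨?_, ?_⟩
  · have := (continuous_const_mul e).tendsto 0
    rw [mul_zero] at this
    exact this.mono_left nhdsWithin_le_nhds
  · filter_upwards [self_mem_nhdsWithin] with z hz
    exact mul_ne_zero he hz

open Filter in
theorem TrA_ratio {f : ℂ → ℂ} {n : ℕ} {κ e : ℂ} (hκ : κ ≠ 0) (he : e ≠ 0)
    (h : Tendsto (fun z => z ^ n * f z) (𝓝[≠] 0) (𝓝 κ)) :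
    Tendsto (fun z => f (e * z) / f z) (𝓝[≠] 0) (𝓝 (e ^ n)⁻¹) ∧ ∀ᶠ z in 𝓝[≠] 0, f z ≠ 0 := by
  have h0 : ∀ᶠ z in 𝓝[≠] 0, f z ≠ 0 :=
    (h.eventually_ne hκ).mono fun z hz => right_ne_zero_of_mul hz
  refine ⟨?_, h0⟩
  have h1 := ((h.comp (TrA_mul he)).div h hκ).const_mul (e ^ n)⁻¹
  rw [div_self hκ, mul_one] at h1
  refine h1.congr' ?_
  filter_upwards [self_mem_nhdsWithin, h0] with z hz hf
  have hz' : z ≠ 0 := hz
  simp only [Pi.div_apply, Function.comp_apply, mul_pow]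
  field_simp

open Filter Bornology in
theorem TrA_cob (L : PeriodPair) {u : ℂ} (hu : u ≠ 0) :
    Tendsto (fun z => u * L.weierstrassP z) (𝓝[≠] 0) (cobounded ℂ) := by
  have h1 := (((continuous_pow 2).tendsto (0 : ℂ)).mono_left
    (nhdsWithin_le_nhds (s := {0}ᶜ))).div ((TrA_P L).const_mul u) (by simpa using hu)
  have h0 := (TrA_ratio one_ne_zero one_ne_zero (TrA_P L)).2
  have h2 : Tendsto (fun z => (u * L.weierstrassP z)⁻¹) (𝓝[≠] 0) (𝓝[≠] 0) := by
    refine tendsto_nhdsWithin_iff.2 ⟨?_, h0.mono fun z hz => inv_ne_zero (mul_ne_zero hu hz)⟩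
    simp only [ne_eq, OfNat.ofNat_ne_zero, not_false_eq_true, zero_pow, zero_div] at h1
    refine h1.congr' ?_
    filter_upwards [self_mem_nhdsWithin, h0] with z hz hf
    have hz' : z ≠ 0 := hz
    simp only [Pi.div_apply]
    field_simp
  simpa only [Function.comp_def, inv_inv] using tendsto_inv₀_nhdsNE_zero.comp h2

theorem RatD.scale {W : WeierstrassCurve ℂ} (h₁ : W.a₁ = 0) (h₂ : W.a₂ = 0) (h₃ : W.a₃ = 0)
    {τ : ℍ} (U : Unif W τ) {ψ : W.toAffine.Point →+ W.toAffine.Point} {a₁ b₁ a₂ b₂ c : ℂ[X]}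
    (h : RatD ψ a₁ b₁ a₂ b₂ c) {e : ℂ} (he : e ≠ 0) (hψ : ∀ z, ψ (U.Φ z) = U.Φ (e * z)) :
    e ^ 2 * a₁.leadingCoeff = c.leadingCoeff ∧ e ^ 3 * b₂.leadingCoeff = c.leadingCoeff := by
  have hb : W.b₂ = 0 := by simp [WeierstrassCurve.b₂, h₁, h₂]
  set L := lat τ
  have hΦ : ∀ z, z ∉ L.lattice → ∃ h, U.Φ z = Affine.Point.some (U.u ^ 2 * L.weierstrassP z)
      (U.u ^ 3 * L.derivWeierstrassP z / 2) h := fun z hz => by
    have := U.eq_some z hz
    simpa only [hb, h₁, h₃, zero_div, sub_zero, zero_mul, add_zero] using this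
  have hu := U.u_ne
  have hx := TrA_cob L (pow_ne_zero 2 hu)
  have hL : ∀ᶠ z in 𝓝[≠] (0 : ℂ), z ∉ L.lattice := by
    filter_upwards [self_mem_nhdsWithin, mem_nhdsWithin_of_mem_nhds (UnifAux.near_zero L)]
      with z h1 h2 using h2 h1
  have key : ∀ z, z ∉ L.lattice → e * z ∉ L.lattice → c.eval (U.u ^ 2 * L.weierstrassP z) ≠ 0 →
      U.u ^ 2 * L.weierstrassP (e * z) * c.eval (U.u ^ 2 * L.weierstrassP z) =
        a₁.eval (U.u ^ 2 * L.weierstrassP z) +
          b₁.eval (U.u ^ 2 * L.weierstrassP z) * (U.u ^ 3 * L.derivWeierstrassP z / 2) ∧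
      U.u ^ 3 * L.derivWeierstrassP (e * z) / 2 * c.eval (U.u ^ 2 * L.weierstrassP z) =
        a₂.eval (U.u ^ 2 * L.weierstrassP z) +
          b₂.eval (U.u ^ 2 * L.weierstrassP z) * (U.u ^ 3 * L.derivWeierstrassP z / 2) := by
    intro z h1 h2 h3
    obtain ⟨k1, e1⟩ := hΦ z h1
    obtain ⟨k2, e2⟩ := hΦ _ h2
    obtain ⟨k3, e3⟩ := h.2 _ _ k1 h3
    have e4 := hψ z
    rw [e1, e2, e3] at e4
    obtain ⟨e5, e6⟩ := Affine.Point.some.inj e4
    exact ⟨by rw [← e5, div_mul_cancel₀ _ h3], by rw [← e6, div_mul_cancel₀ _ h3]⟩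
  have key' : ∀ᶠ z in 𝓝[≠] (0 : ℂ),
      a₁.eval (U.u ^ 2 * L.weierstrassP z) =
        U.u ^ 2 * L.weierstrassP (e * z) * c.eval (U.u ^ 2 * L.weierstrassP z) ∧
      b₂.eval (U.u ^ 2 * L.weierstrassP z) * L.derivWeierstrassP z =
        L.derivWeierstrassP (e * z) * c.eval (U.u ^ 2 * L.weierstrassP z) := by
    filter_upwards [hL, (TrA_mul he).eventually hL, hx.eventually (TrA_ne h.1)] with z h1 h2 h3
    obtain ⟨e1, e2⟩ := key z h1 h2 h3
    obtain ⟨e3, e4⟩ := key (-z) (by rwa [neg_mem_iff]) (by rwa [mul_neg, neg_mem_iff])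
      (by rwa [L.weierstrassP_neg])
    simp only [mul_neg, L.weierstrassP_neg, L.derivWeierstrassP_neg] at e3 e4
    refine ⟨by linear_combination -(e1 + e3) / 2, mul_left_cancel₀ (pow_ne_zero 3 hu) ?_⟩
    linear_combination e4 - e2
  obtain ⟨r1, n1⟩ := TrA_ratio one_ne_zero he (TrA_P L)
  obtain ⟨r2, n2⟩ := TrA_ratio (by norm_num) he (TrA_Q L)
  have l1 := TrA_lead (a := a₁) (mul_ne_zero h.1 X_ne_zero) (inv_ne_zero (pow_ne_zero 2 he)) hx r1
    (by
      filter_upwards [key', n1] with z h1 h2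
      rw [h1.1, eval_mul, eval_X]
      field_simp)
  have l2 := TrA_lead (a := b₂) h.1 (inv_ne_zero (pow_ne_zero 3 he)) hx r2
    (by
      filter_upwards [key', n2] with z h1 h2
      rw [mul_div_assoc', eq_div_iff h2, h1.2, mul_comm])
  rw [leadingCoeff_mul_X] at l1
  rw [l1, l2]
  exact ⟨mul_inv_cancel_left₀ (pow_ne_zero 2 he) _, mul_inv_cancel_left₀ (pow_ne_zero 3 he) _⟩

end

end Pool.Agent.P.MP_a60a76_nt.Sz
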