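import Pool.Agent.P.MP_a60a76_nt.Sz.Ev

namespace Pool.Agent.P.MP_a60a76_nt.Sz

open UpperHalfPlane MeasureTheory SP
open scoped MatrixGroups UpperHalfPlane Matrix Modular Topology Classical ArithmeticFunction.sigma

noncomputable section

/-! The infinite product of unit factors. -/

/-- Series without terms of degree below `n`. -/
def UPr_J (n : ℕ) : Ideal PS where
  carrier := {a | ∀ d : Fin 2 →₀ ℕ, d 0 + d 1 < n → MvPowerSeries.coeff d a = 0}
  add_mem' := fun {a b} ha hb d hd => by rw [map_add, ha d hd, hb d hd, add_zero]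
  zero_mem' := fun d _ => map_zero _
  smul_mem' := fun c a ha d hd => by
    rw [smul_eq_mul, MvPowerSeries.coeff_mul]
    refine Finset.sum_eq_zero fun p hp => mul_eq_zero_of_right _ (ha _ ?_)
    have h := Finset.HasAntidiagonal.mem_antidiagonal.1 hp
    have h0 : p.1 0 + p.2 0 = d 0 := by rw [← h]; rfl
    have h1 : p.1 1 + p.2 1 = d 1 := by rw [← h]; rfl
    omega

theorem UPr_coeff_eq {n : ℕ} {a b : PS}
    (h : Ideal.Quotient.mk (UPr_J n) a = Ideal.Quotient.mk (UPr_J n) b) {d : Fin 2 →₀ ℕ}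
    (hd : d 0 + d 1 < n) : MvPowerSeries.coeff d a = MvPowerSeries.coeff d b := by
  have h1 := Ideal.Quotient.eq.1 h d hd
  rwa [map_sub, sub_eq_zero] at h1

theorem UPr_mono_mem {n a d : ℕ} (h : n ≤ a + d) (z : ℂ) : mono z a d ∈ UPr_J n := by
  intro e he
  rw [mono, MvPowerSeries.coeff_monomial, if_neg]
  rintro rfl
  rw [ixx_zero, ixx_one] at he
  omega

theorem UPr_mono_one : mono 1 0 0 = 1 := by
  have h : ixx 0 0 = 0 := by simp [ixx]
  rw [mono, h, MvPowerSeries.monomial_zero_one]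

theorem UPr_mono_pow (z : ℂ) (a d j : ℕ) : mono z a d ^ j = mono (z ^ j) (j * a) (j * d) := by
  induction j with
  | zero => rw [pow_zero, pow_zero, zero_mul, zero_mul, UPr_mono_one]
  | succ j ih => rw [pow_succ, ih, mono_mul, pow_succ, add_mul, add_mul, one_mul, one_mul]

theorem UPr_mul_inv {a d : ℕ} (h : 1 ≤ a + d) (z : ℂ) :
    (1 - mono z a d) * MvPowerSeries.invOfUnit (1 - mono z a d) 1 = 1 := by
  refine MvPowerSeries.mul_invOfUnit _ _ ?_
  have h1 : MvPowerSeries.constantCoeff (mono z a d) = 0 :=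
    UPr_mono_mem h z 0 (by simp)
  rw [map_sub, map_one, h1, sub_zero, Units.val_one]

theorem UPr_map_ipow {f : PS →+* PS} {a d a' d' : ℕ} (h : 1 ≤ a + d) (h' : 1 ≤ a' + d')
    {z z' : ℂ} (hf : f (mono z a d) = mono z' a' d') (e : ℤ) :
    f (ipow (mono z a d) e) = ipow (mono z' a' d') e := by
  have h1 := congrArg f (UPr_mul_inv h z)
  rw [map_mul, map_sub, map_one, hf, mul_comm] at h1
  rw [ipow, ipow, map_mul, map_pow, map_pow, map_sub, map_one, hf,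
    left_inv_eq_right_inv h1 (UPr_mul_inv h' z')]

theorem UPr_mk_ipow {n a d : ℕ} (h : 1 ≤ a + d) (hn : n ≤ a + d) (z : ℂ) (e : ℤ) :
    Ideal.Quotient.mk (UPr_J n) (ipow (mono z a d) e) = 1 := by
  have h0 : Ideal.Quotient.mk (UPr_J n) (1 - mono z a d) = 1 := by
    rw [map_sub, map_one, Ideal.Quotient.eq_zero_iff_mem.2 (UPr_mono_mem hn z), sub_zero]
  have h1 := congrArg (Ideal.Quotient.mk (UPr_J n)) (UPr_mul_inv h z)
  rw [map_mul, h0, one_mul, map_one] at h1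
  rw [ipow, map_mul, map_pow, map_pow, h0, h1, one_pow, one_pow, one_mul]

/-- The inverse is a geometric series. -/
theorem UPr_coeff_inv {n a d : ℕ} (h : 1 ≤ a + d) (z : ℂ) {e : Fin 2 →₀ ℕ} (he : e 0 + e 1 < n) :
    MvPowerSeries.coeff e (MvPowerSeries.invOfUnit (1 - mono z a d) 1) =
      MvPowerSeries.coeff e (∑ j ∈ Finset.range n, mono z a d ^ j) := by
  refine UPr_coeff_eq (Ideal.Quotient.eq.2 ?_) he
  have h1 := UPr_mul_inv h z
  have h2 := mul_neg_geom_sum (mono z a d) n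
  have h3 : MvPowerSeries.invOfUnit (1 - mono z a d) 1 - ∑ j ∈ Finset.range n, mono z a d ^ j =
      MvPowerSeries.invOfUnit (1 - mono z a d) 1 * mono z a d ^ n := by
    linear_combination (∑ j ∈ Finset.range n, mono z a d ^ j) * h1 -
      MvPowerSeries.invOfUnit (1 - mono z a d) 1 * h2
  rw [h3, UPr_mono_pow]
  refine Ideal.mul_mem_left _ _ (UPr_mono_mem ?_ _)
  rw [← mul_add]
  exact Nat.le_mul_of_pos_right n h

theorem UPr_inA_ipow {A : Subring ℂ} {z : ℂ} (hz : z ∈ A) {a d : ℕ} (h : 1 ≤ a + d) (e : ℤ) :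
    ipow (mono z a d) e ∈ inA A := by
  have h1 : mono z a d ∈ inA A := inA_mono hz a d
  refine mul_mem (pow_mem (sub_mem (one_mem _) h1) _) (pow_mem ?_ _)
  intro x
  rw [UPr_coeff_inv h z (Nat.lt_succ_self _)]
  have h2 : (∑ j ∈ Finset.range (x 0 + x 1).succ, mono z a d ^ j) ∈ inA A :=
    sum_mem fun j _ => pow_mem h1 j
  exact h2 x

/-- The terms of the weighted norm. -/
def UPr_W (s t : ℂ) (a : PS) (d : Fin 2 →₀ ℕ) : ℝ :=
  ‖MvPowerSeries.coeff d a‖ * (‖s‖ ^ d 0 * ‖t‖ ^ d 1)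

/-- The weighted norm is at most `C`. -/
def UPr_Bd (s t : ℂ) (a : PS) (C : ℝ) : Prop :=
  ∀ F : Finset (Fin 2 →₀ ℕ), ∑ d ∈ F, UPr_W s t a d ≤ C

section norm

variable {s t : ℂ} {a b : PS} {C C' : ℝ}

theorem UPr_W_nonneg (s t : ℂ) (a : PS) : 0 ≤ UPr_W s t a := fun d => by
  rw [UPr_W]
  positivity

theorem UPr_Bd.summable (h : UPr_Bd s t a C) : Summable (UPr_W s t a) :=
  summable_of_sum_le (UPr_W_nonneg s t a) h

theorem UPr_Bd.tsum_le (h : UPr_Bd s t a C) : ∑' d, UPr_W s t a d ≤ C :=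
  Real.tsum_le_of_sum_le (UPr_W_nonneg s t a) h

theorem UPr_Bd.ab (h : UPr_Bd s t a C) : Ab (RingHom.id ℂ) a s t := h.summable

theorem UPr_Bd.norm_ev (h : UPr_Bd s t a C) : ‖ev (RingHom.id ℂ) a s t‖ ≤ C := by
  refine (tsum_of_norm_bounded h.summable.hasSum fun d => ?_).trans h.tsum_le
  rw [norm_mul, norm_mul, norm_pow, norm_pow]
  exact le_rfl

theorem UPr_Bd.nonneg (h : UPr_Bd s t a C) : 0 ≤ C := by simpa using h ∅

theorem UPr_Bd.trans (h : UPr_Bd s t a C) (h' : C ≤ C') : UPr_Bd s t a C' :=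
  fun F => (h F).trans h'

theorem UPr_Bd.add (ha : UPr_Bd s t a C) (hb : UPr_Bd s t b C') :
    UPr_Bd s t (a + b) (C + C') := by
  intro F
  refine le_trans ?_ (add_le_add (ha F) (hb F))
  rw [← Finset.sum_add_distrib]
  refine Finset.sum_le_sum fun d _ => ?_
  rw [UPr_W, UPr_W, UPr_W, ← add_mul, map_add]
  exact mul_le_mul_of_nonneg_right (norm_add_le _ _) (by positivity)

theorem UPr_Bd.neg (ha : UPr_Bd s t a C) : UPr_Bd s t (-a) C := by
  intro F
  refine le_trans (le_of_eq ?_) (ha F)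
  refine Finset.sum_congr rfl fun d _ => ?_
  rw [UPr_W, UPr_W, map_neg, norm_neg]

theorem UPr_Bd.mul (ha : UPr_Bd s t a C) (hb : UPr_Bd s t b C') :
    UPr_Bd s t (a * b) (C * C') := by
  intro F
  have h1 := ha.summable.mul_of_nonneg hb.summable (UPr_W_nonneg s t a) (UPr_W_nonneg s t b)
  have h2 := summable_sum_mul_antidiagonal_of_summable_mul h1
  have h3 := ha.summable.tsum_mul_tsum_eq_tsum_sum_antidiagonal hb.summable h1
  have h4 : ∀ d, UPr_W s t (a * b) d ≤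
      ∑ p ∈ Finset.HasAntidiagonal.antidiagonal d, UPr_W s t a p.1 * UPr_W s t b p.2 := by
    intro d
    rw [UPr_W, MvPowerSeries.coeff_mul]
    refine (mul_le_mul_of_nonneg_right (norm_sum_le _ _) (by positivity)).trans (le_of_eq ?_)
    rw [Finset.sum_mul]
    refine Finset.sum_congr rfl fun p hp => ?_
    rw [← Finset.HasAntidiagonal.mem_antidiagonal.1 hp, Finsupp.add_apply, Finsupp.add_apply, norm_mul, UPr_W,
      UPr_W]
    ring
  calc ∑ d ∈ F, UPr_W s t (a * b) d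
      ≤ ∑ d ∈ F, ∑ p ∈ Finset.HasAntidiagonal.antidiagonal d, UPr_W s t a p.1 * UPr_W s t b p.2 :=
        Finset.sum_le_sum fun d _ => h4 d
    _ ≤ ∑' d, ∑ p ∈ Finset.HasAntidiagonal.antidiagonal d, UPr_W s t a p.1 * UPr_W s t b p.2 :=
        h2.sum_le_tsum F fun d _ => Finset.sum_nonneg fun p _ =>
          mul_nonneg (UPr_W_nonneg s t a _) (UPr_W_nonneg s t b _)
    _ = (∑' d, UPr_W s t a d) * ∑' d, UPr_W s t b d := h3.symm
    _ ≤ C * C' := mul_le_mul ha.tsum_le hb.tsum_le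
        (tsum_nonneg (UPr_W_nonneg s t b)) ha.nonneg

theorem UPr_Bd_mono (s t z : ℂ) (m n : ℕ) :
    UPr_Bd s t (mono z m n) (‖z‖ * (‖s‖ ^ m * ‖t‖ ^ n)) := by
  intro F
  have h : ∀ d, UPr_W s t (mono z m n) d =
      if d = ixx m n then ‖z‖ * (‖s‖ ^ m * ‖t‖ ^ n) else 0 := by
    intro d
    rw [UPr_W, mono, MvPowerSeries.coeff_monomial]
    split_ifs with hd
    · rw [hd, ixx_zero, ixx_one]
    · rw [norm_zero, zero_mul]
  simp only [h, Finset.sum_ite_eq']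
  split_ifs
  · exact le_rfl
  · positivity

theorem UPr_Bd_one (s t : ℂ) : UPr_Bd s t 1 1 := by
  have h := UPr_Bd_mono s t 1 0 0
  rwa [UPr_mono_one, norm_one, pow_zero, pow_zero, one_mul, one_mul] at h

theorem UPr_Bd_zero (s t : ℂ) : UPr_Bd s t 0 0 := fun F => by simp [UPr_W]

theorem UPr_Bd.pow (ha : UPr_Bd s t a C) (n : ℕ) : UPr_Bd s t (a ^ n) (C ^ n) := by
  induction n with
  | zero => simpa using UPr_Bd_one s t
  | succ n ih =>
    rw [pow_succ, pow_succ]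
    exact ih.mul ha

theorem UPr_Bd.geom (ha : UPr_Bd s t a C) (n : ℕ) :
    UPr_Bd s t (∑ j ∈ Finset.range n, a ^ j) (∑ j ∈ Finset.range n, C ^ j) := by
  induction n with
  | zero => simpa using UPr_Bd_zero s t
  | succ n ih =>
    rw [Finset.sum_range_succ, Finset.sum_range_succ]
    exact ih.add (ha.pow n)

/-- Passing to a coefficientwise limit. -/
theorem UPr_Bd_lim (h : ∀ n : ℕ, ∃ b, UPr_Bd s t b C ∧ ∀ d : Fin 2 →₀ ℕ, d 0 + d 1 < n →
    MvPowerSeries.coeff d a = MvPowerSeries.coeff d b) : UPr_Bd s t a C := by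
  intro F
  obtain ⟨b, hb, he⟩ := h (F.sup (fun d => d 0 + d 1) + 1)
  refine le_trans (le_of_eq ?_) (hb F)
  refine Finset.sum_congr rfl fun d hd => ?_
  rw [UPr_W, UPr_W, he d (Nat.lt_succ_of_le (Finset.le_sup (f := fun d => d 0 + d 1) hd))]

/-- The series is close to one. -/
def UPr_Nr (s t : ℂ) (a : PS) (x : ℝ) : Prop := UPr_Bd s t (a - 1) (Real.exp x - 1)

variable {x y : ℝ}

theorem UPr_Nr_one (s t : ℂ) : UPr_Nr s t 1 0 := by
  rw [UPr_Nr, sub_self, Real.exp_zero, sub_self]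
  exact UPr_Bd_zero s t

theorem UPr_Nr.trans (h : UPr_Nr s t a x) (h' : x ≤ y) : UPr_Nr s t a y :=
  UPr_Bd.trans h (sub_le_sub_right (Real.exp_le_exp.2 h') 1)

theorem UPr_Nr.bd (h : UPr_Nr s t a x) : UPr_Bd s t a (Real.exp x) := by
  have h1 := UPr_Bd.add h (UPr_Bd_one s t)
  rwa [sub_add_cancel, sub_add_cancel] at h1

theorem UPr_Nr.mul (ha : UPr_Nr s t a x) (hb : UPr_Nr s t b y) : UPr_Nr s t (a * b) (x + y) := by
  have h := (UPr_Bd.mul ha hb.bd).add hb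
  have h1 : (a - 1) * b + (b - 1) = a * b - 1 := by ring
  have h2 : (Real.exp x - 1) * Real.exp y + (Real.exp y - 1) = Real.exp (x + y) - 1 := by
    rw [Real.exp_add]
    ring
  rwa [h1, h2] at h

theorem UPr_Nr.pow (ha : UPr_Nr s t a x) (n : ℕ) : UPr_Nr s t (a ^ n) (n * x) := by
  induction n with
  | zero => simpa using UPr_Nr_one s t
  | succ n ih =>
    rw [pow_succ, Nat.cast_succ, add_mul, one_mul]
    exact ih.mul ha

theorem UPr_Nr_prod {ι : Type} (S : Finset ι) {u : ι → PS} {g : ι → ℝ}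
    (h : ∀ i, UPr_Nr s t (u i) (g i)) : UPr_Nr s t (∏ i ∈ S, u i) (∑ i ∈ S, g i) := by
  induction S using Finset.induction_on with
  | empty => simpa using UPr_Nr_one s t
  | insert i S hi ih =>
    rw [Finset.prod_insert hi, Finset.sum_insert hi]
    exact (h i).mul ih

theorem UPr_half (hs : ‖s‖ ≤ 1 / 2) (ht : ‖t‖ ≤ 1 / 2) {m n : ℕ} (h : 1 ≤ m + n) :
    ‖s‖ ^ m * ‖t‖ ^ n ≤ 1 / 2 := by
  calc ‖s‖ ^ m * ‖t‖ ^ n ≤ (1 / 2) ^ m * (1 / 2) ^ n := by gcongr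
    _ = (1 / 2) ^ (m + n) := (pow_add _ _ _).symm
    _ ≤ (1 / 2) ^ 1 := pow_le_pow_of_le_one (by norm_num) (by norm_num) h
    _ = 1 / 2 := pow_one _

theorem UPr_ipow (hs : ‖s‖ ≤ 1 / 2) (ht : ‖t‖ ≤ 1 / 2) {m n : ℕ} (h : 1 ≤ m + n) {z : ℂ}
    (hz : ‖z‖ = 1) (e : ℤ) :
    UPr_Nr s t (ipow (mono z m n) e) (2 * (|(e : ℝ)| * (‖s‖ ^ m * ‖t‖ ^ n))) ∧
      ev (RingHom.id ℂ) (ipow (mono z m n) e) s t = (1 - z * (s ^ m * t ^ n)) ^ e := by
  have hr := UPr_half hs ht h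
  have hr0 : 0 ≤ ‖s‖ ^ m * ‖t‖ ^ n := by positivity
  have hx : UPr_Bd s t (mono z m n) (‖s‖ ^ m * ‖t‖ ^ n) := by
    have h1 := UPr_Bd_mono s t z m n
    rwa [hz, one_mul] at h1
  have hi : UPr_Bd s t (MvPowerSeries.invOfUnit (1 - mono z m n) 1) 2 :=
    UPr_Bd_lim fun k => ⟨_, ((hx.trans hr).geom k).trans (sum_geometric_two_le k),
      fun d hd => UPr_coeff_inv h z hd⟩
  have hexp := Real.add_one_le_exp (2 * (‖s‖ ^ m * ‖t‖ ^ n))
  have hm := UPr_mul_inv h z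
  have n1 : UPr_Nr s t (1 - mono z m n) (2 * (‖s‖ ^ m * ‖t‖ ^ n)) := by
    rw [UPr_Nr, sub_sub_cancel_left]
    exact hx.neg.trans (by linarith)
  have n2 : UPr_Nr s t (MvPowerSeries.invOfUnit (1 - mono z m n) 1)
      (2 * (‖s‖ ^ m * ‖t‖ ^ n)) := by
    have h2 : MvPowerSeries.invOfUnit (1 - mono z m n) 1 - 1 =
        mono z m n * MvPowerSeries.invOfUnit (1 - mono z m n) 1 := by
      linear_combination hm
    rw [UPr_Nr, h2]
    exact (hx.mul hi).trans (by linarith)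
  constructor
  · refine ((n1.pow _).mul (n2.pow _)).trans (le_of_eq ?_)
    have h3 : ((e.toNat : ℕ) : ℝ) + ((-e).toNat : ℕ) = |(e : ℝ)| := by
      have h4 : ((e.toNat : ℕ) : ℤ) + ((-e).toNat : ℕ) = |e| := by
        rcases le_total 0 e with he | he
        · rw [abs_of_nonneg he]
          omega
        · rw [abs_of_nonpos he]
          omega
      exact_mod_cast h4
    rw [← h3]
    ring
  · have e1 : ev (RingHom.id ℂ) (1 - mono z m n) s t = 1 - z * (s ^ m * t ^ n) := by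
      rw [((ab_one _ s t).1.sub hx.ab).2, (ab_one _ s t).2, (ab_mono _ z m n s t).2]
      rfl
    have e2 := (n1.bd.ab.mul hi.ab).2
    rw [hm, (ab_one _ s t).2, e1] at e2
    have e3 := eq_inv_of_mul_eq_one_right e2.symm
    have e4 : 1 - z * (s ^ m * t ^ n) ≠ 0 := left_ne_zero_of_mul_eq_one e2.symm
    rw [ipow, ((n1.bd.ab.pow _).1.mul (hi.ab.pow _).1).2, (n1.bd.ab.pow _).2, (hi.ab.pow _).2,
      e1, e3]
    conv_rhs => rw [← Int.toNat_sub_toNat_neg e]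
    rw [zpow_sub₀ e4, zpow_natCast, zpow_natCast, inv_pow, div_eq_mul_inv]

end norm

theorem UPr_pos {k : ℕ} {i : ℕ × ℕ} (hi : i ∈ (Finset.range k ×ˢ Finset.range k).erase (0, 0)) :
    1 ≤ i.1 + i.2 := by
  by_contra h
  exact Finset.ne_of_mem_erase hi (Prod.ext (by simp only; omega) (by simp only; omega))

namespace Par

variable (P : Par) (E : ℕ → ℕ → P.F → ℤ)

theorem coeff_Uk (d : Fin 2 →₀ ℕ) {k : ℕ} (hk : d 0 + d 1 < k) :
    MvPowerSeries.coeff d (P.Uk E k) = MvPowerSeries.coeff d (P.Us E) := by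
  refine UPr_coeff_eq (b := P.Uk E (d 0 + d 1 + 1)) ?_ (Nat.lt_succ_self (d 0 + d 1))
  rw [Uk, Uk, map_prod, map_prod]
  refine (Finset.prod_subset (Finset.erase_subset_erase _ (Finset.product_subset_product
    (Finset.range_mono hk) (Finset.range_mono hk))) fun i hi hn => ?_).symm
  rw [map_prod]
  refine Finset.prod_eq_one fun b _ => UPr_mk_ipow (UPr_pos hi) ?_ _ _
  by_contra h
  refine hn (Finset.mem_erase.2 ⟨Finset.ne_of_mem_erase hi, ?_⟩)
  rw [Finset.mem_product, Finset.mem_range, Finset.mem_range]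
  omega

theorem inA_Us {A : Subring ℂ} (hA : P.zp 1 ∈ A) : InA A (P.Us E) := by
  intro d
  have h : P.Uk E (d 0 + d 1 + 1) ∈ inA A :=
    prod_mem fun i hi => prod_mem fun b _ =>
      UPr_inA_ipow (by rw [P.zp_eq_pow]; exact pow_mem hA _) (UPr_pos hi) _
  exact h d

theorem UPr_swp_Uk (k : ℕ) : swp (P.Uk E k) = P.Uk (fun a d b => E d a b) k := by
  let f : PS →+* PS := (MvPowerSeries.renameEquiv ℂ (Equiv.swap (0 : Fin 2) 1)).toAlgHom.toRingHom
  change f (P.Uk E k) = _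
  rw [Uk, Uk, map_prod]
  refine Finset.prod_equiv (Equiv.prodComm ℕ ℕ) (fun i => ?_) fun i hi => ?_
  · simp only [Finset.mem_erase, Finset.mem_product, Equiv.prodComm_apply, Prod.fst_swap,
      Prod.snd_swap, Ne, Prod.ext_iff]
    tauto
  · rw [map_prod]
    refine Finset.prod_congr rfl fun b _ => ?_
    exact UPr_map_ipow (UPr_pos hi) (by rw [add_comm]; exact UPr_pos hi) (swp_mono _ _ _) _

theorem swp_Us : swp (P.Us E) = P.Us fun a d b => E d a b := by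
  ext d
  have h1 : (ixx (d 1) (d 0)) 0 + (ixx (d 1) (d 0)) 1 < d 0 + d 1 + 1 := by
    rw [ixx_zero, ixx_one]
    omega
  rw [← P.coeff_Uk _ d (Nat.lt_succ_self _), ← UPr_swp_Uk]
  conv_lhs => rw [← ixx_eta d, coeff_swp, ← P.coeff_Uk E _ h1, ← coeff_swp, ixx_eta]

theorem map_Us (s : ℂ ≃+* ℂ) (d : P.Fˣ) (h : s (P.zp 1) = P.zp d) {E' : ℕ → ℕ → P.F → ℤ}
    (hE : ∀ a e b, E' a e (b * d) = E a e b) :
    MvPowerSeries.map (s : ℂ →+* ℂ) (P.Us E) = P.Us E' := by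
  have hU : ∀ k, MvPowerSeries.map (s : ℂ →+* ℂ) (P.Uk E k) = P.Uk E' k := by
    intro k
    rw [Uk, Uk, map_prod]
    refine Finset.prod_congr rfl fun i hi => ?_
    rw [map_prod]
    refine Fintype.prod_equiv d.mulRight _ _ fun b => ?_
    rw [Units.mulRight_apply, hE]
    refine UPr_map_ipow (UPr_pos hi) (UPr_pos hi) ?_ _
    rw [mono, MvPowerSeries.map_monomial,
      P.map_zp (φ := (s : ℂ →+* ℂ)) (ψ := RingHom.id ℂ) (d := d) h, neg_mul]
    rfl
  ext x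
  rw [← P.coeff_Uk E' x (Nat.lt_succ_self _), ← hU]
  rfl

/-- The factors. -/
def UPr_u (i : ℕ × ℕ × P.F) : PS :=
  if i.1 = 0 ∧ i.2.1 = 0 then 1 else ipow (mono (P.zp (-i.2.2)) i.1 i.2.1) (E i.1 i.2.1 i.2.2)

theorem UPr_Uk_eq (k : ℕ) :
    P.Uk E k = ∏ i ∈ Finset.range k ×ˢ Finset.range k ×ˢ Finset.univ, P.UPr_u E i := by
  have h1 : P.Uk E k = ∏ i ∈ (Finset.range k ×ˢ Finset.range k).erase (0, 0), ∏ b,
      P.UPr_u E (i.1, i.2, b) := by
    refine Finset.prod_congr rfl fun i hi => Finset.prod_congr rfl fun b _ => ?_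
    have := UPr_pos hi
    rw [UPr_u, if_neg (by simp only; omega)]
  rw [h1, Finset.prod_erase _ (by simp [UPr_u]), Finset.prod_product, Finset.prod_product]
  exact Finset.prod_congr rfl fun a _ =>
    (Finset.prod_product _ _ fun y => P.UPr_u E (a, y)).symm

theorem hasProd_Us {s t : ℂ} (hs : ‖s‖ ≤ 1 / 2) (ht : ‖t‖ ≤ 1 / 2)
    (h : Summable fun i : ℕ × ℕ × P.F => |(E i.1 i.2.1 i.2.2 : ℝ)| * (‖s‖ ^ i.1 * ‖t‖ ^ i.2.1)) :
    Ab (RingHom.id ℂ) (P.Us E) s t ∧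
      HasProd (fun i : ℕ × ℕ × P.F => if i.1 = 0 ∧ i.2.1 = 0 then 1 else
        (1 - P.zp (-i.2.2) * (s ^ i.1 * t ^ i.2.1)) ^ E i.1 i.2.1 i.2.2)
        (ev (RingHom.id ℂ) (P.Us E) s t) := by
  obtain ⟨g, hg⟩ : ∃ g : ℕ × ℕ × P.F → ℝ, ∀ i,
      g i = 2 * (|(E i.1 i.2.1 i.2.2 : ℝ)| * (‖s‖ ^ i.1 * ‖t‖ ^ i.2.1)) := ⟨_, fun _ => rfl⟩
  have g0 : ∀ i, 0 ≤ g i := fun i => by
    rw [hg]
    positivity
  have gs : Summable g := (h.mul_left 2).congr fun i => (hg i).symm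
  have gl : ∀ S : Finset (ℕ × ℕ × P.F), ∑ i ∈ S, g i ≤ ∑' i, g i := fun S =>
    gs.sum_le_tsum S fun i _ => g0 i
  have hu : ∀ i, UPr_Nr s t (P.UPr_u E i) (g i) ∧ ev (RingHom.id ℂ) (P.UPr_u E i) s t =
      if i.1 = 0 ∧ i.2.1 = 0 then 1 else
        (1 - P.zp (-i.2.2) * (s ^ i.1 * t ^ i.2.1)) ^ E i.1 i.2.1 i.2.2 := by
    intro i
    rw [UPr_u]
    split_ifs with hi
    · exact ⟨(UPr_Nr_one s t).trans (g0 i), (ab_one _ s t).2⟩
    · rw [hg]
      exact UPr_ipow hs ht (by omega) (P.norm_zp _) _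
  have hN : ∀ S : Finset (ℕ × ℕ × P.F), UPr_Nr s t (∏ i ∈ S, P.UPr_u E i) (∑ i ∈ S, g i) :=
    fun S => UPr_Nr_prod S fun i => (hu i).1
  have key : ∀ S : Finset (ℕ × ℕ × P.F), UPr_Bd s t (P.Us E - ∏ i ∈ S, P.UPr_u E i)
      (Real.exp (∑' i, g i) * (Real.exp (∑' i, g i - ∑ i ∈ S, g i) - 1)) := by
    intro S
    refine UPr_Bd_lim fun n => ?_
    obtain ⟨k, hk1, hk2⟩ : ∃ k, n ≤ k ∧ S ⊆ Finset.range k ×ˢ Finset.range k ×ˢ Finset.univ := by
      refine ⟨n + S.sup (fun i => i.1 + i.2.1) + 1, by omega, fun i hi => ?_⟩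
      have h1 : i.1 + i.2.1 ≤ S.sup fun i => i.1 + i.2.1 :=
        Finset.le_sup (f := fun i : ℕ × ℕ × P.F => i.1 + i.2.1) hi
      simp only [Finset.mem_product, Finset.mem_range, Finset.mem_univ, and_true]
      omega
    refine ⟨P.Uk E k - ∏ i ∈ S, P.UPr_u E i, ?_, fun d hd => ?_⟩
    · rw [UPr_Uk_eq, ← Finset.prod_sdiff hk2, ← sub_one_mul, mul_comm]
      refine UPr_Bd.mul ((hN S).trans (gl S)).bd ((hN _).trans ?_)
      rw [le_sub_iff_add_le, Finset.sum_sdiff hk2]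
      exact gl _
    · rw [map_sub, map_sub, P.coeff_Uk E d (hd.trans_le hk1)]
  have hab : Ab (RingHom.id ℂ) (P.Us E) s t := by
    have h1 := ((key ∅).add (UPr_Bd_one s t)).ab
    rwa [Finset.prod_empty, sub_add_cancel] at h1
  refine ⟨hab, ?_⟩
  have lim : Filter.Tendsto (fun S : Finset (ℕ × ℕ × P.F) =>
      Real.exp (∑' i, g i) * (Real.exp (∑' i, g i - ∑ i ∈ S, g i) - 1)) Filter.atTop (𝓝 0) := by
    have h1 : Filter.Tendsto (fun S : Finset (ℕ × ℕ × P.F) => ∑ i ∈ S, g i) Filter.atTop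
        (𝓝 (∑' i, g i)) := gs.hasSum
    have h2 : Continuous fun x : ℝ => Real.exp (∑' i, g i) * (Real.exp (∑' i, g i - x) - 1) := by
      fun_prop
    have h3 := (h2.tendsto _).comp h1
    rwa [sub_self, Real.exp_zero, sub_self, mul_zero] at h3
  refine tendsto_iff_norm_sub_tendsto_zero.2 (squeeze_zero (fun _ => norm_nonneg _)
    (fun S => ?_) lim)
  have h4 := (key S).norm_ev
  rw [(hab.sub (hN S).bd.ab).2, (ab_prod S fun i _ => (hu i).1.bd.ab).2, norm_sub_rev] at h4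
  simpa only [(hu _).2] using h4

end Par

end

end Pool.Agent.P.MP_a60a76_nt.Sz
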