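import Pool.Agent.P.MP_a60a76_nt.Sz.Defs2
import Pool.Agent.P.MP_a60a76_nt.Sz.EisA

namespace Pool.Agent.P.MP_a60a76_nt.Sz

open UpperHalfPlane MeasureTheory SP
open scoped MatrixGroups UpperHalfPlane Matrix Modular Topology Classical ArithmeticFunction.sigma

noncomputable section

/-! The expansion of the Weierstrass function at the points of order `p`. -/

/-- The sum over one row. -/
def WpQ_L (z : ℂ) : ℂ := ∑' n : ℤ, ((z + n) ^ 2)⁻¹

theorem WpQ_summable (z : ℂ) : Summable fun n : ℤ => ((z + n) ^ 2)⁻¹ := by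
  refine (EisensteinSeries.linear_right_summable z 1 (k := 2) (by norm_num)).congr fun x => ?_
  simp [zpow_ofNat]

theorem WpQ_L_neg (z : ℂ) : WpQ_L (-z) = WpQ_L z := by
  rw [WpQ_L, WpQ_L, ← (Equiv.neg ℤ).tsum_eq]
  refine tsum_congr fun n => ?_
  simp only [Equiv.neg_apply]
  push_cast
  ring

theorem WpQ_L_zero : WpQ_L 0 = -(2 * Real.pi * Complex.I) ^ 2 / 12 := by
  have h := two_mul_riemannZeta_eq_tsum_int_inv_pow_of_even (k := 2) le_rfl (by decide)
  simp only [WpQ_L, zero_add]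
  rw [← h]
  push_cast
  rw [riemannZeta_two, mul_pow, Complex.I_sq]
  ring

theorem WpQ_norm_lt {z : ℂ} (hz : 0 < z.im) : ‖ee z‖ < 1 := by
  rw [norm_ee, Real.exp_lt_one_iff, neg_lt_zero]
  exact mul_pos Real.two_pi_pos hz

theorem WpQ_L_pos {z : ℂ} (hz : 0 < z.im) : WpQ_L z =
    (2 * Real.pi * Complex.I) ^ 2 * ∑' n : ℕ+, ((n : ℕ) : ℂ) * ee z ^ (n : ℕ) := by
  have h := EisensteinSeries.qExpansion_identity_pnat (k := 1) le_rfl ⟨z, hz⟩
  simp only [one_div, pow_one] at h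
  have hc : (-2 * (Real.pi : ℂ) * Complex.I) ^ (1 + 1) / (Nat.factorial 1 : ℕ) =
      (2 * Real.pi * Complex.I) ^ 2 := by
    norm_num
  rw [hc] at h
  exact h

theorem WpQ_L_closed {z : ℂ} (hz : 0 < z.im) :
    WpQ_L z = (2 * Real.pi * Complex.I) ^ 2 * (ee z / (1 - ee z) ^ 2) := by
  rw [WpQ_L_pos hz, ← tsum_coe_mul_geometric_of_norm_lt_one (WpQ_norm_lt hz),
    tsum_pnat_eq_tsum_of_eq_zero (f := fun n : ℕ => (n : ℂ) * ee z ^ n) (by simp)]

theorem WpQ_L_real {x : ℝ} (hx : ee x ≠ 1) :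
    WpQ_L x = (2 * Real.pi * Complex.I) ^ 2 * (ee x / (1 - ee x) ^ 2) := by
  have h0 : ∀ n : ℤ, x + n ≠ 0 := fun n h => hx (by
    rw [eq_neg_of_add_eq_zero_left h]
    exact_mod_cast ee_int (-n))
  have h1 : ∀ (t : ℝ) (n : ℤ), ‖(x : ℂ) + n‖ ≤ ‖(x : ℂ) + t * Complex.I + n‖ := fun t n => by
    refine le_trans (le_of_eq ?_) (Complex.abs_re_le_norm _)
    rw [← Complex.ofReal_intCast, ← Complex.ofReal_add, Complex.norm_real]
    simp
  have h2 : ∀ n : ℤ, 0 < ‖(x : ℂ) + n‖ := fun n => norm_pos_iff.2 (by exact_mod_cast h0 n)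
  have hF : Continuous fun t : ℝ => WpQ_L (x + t * Complex.I) := by
    refine continuous_tsum (fun n => ?_) (WpQ_summable x).norm fun n t => ?_
    · exact Continuous.inv₀ (by fun_prop) fun t =>
        pow_ne_zero _ (norm_pos_iff.1 ((h2 n).trans_le (h1 t n)))
    · rw [norm_inv, norm_inv, norm_pow, norm_pow]
      exact inv_anti₀ (pow_pos (h2 n) 2) (pow_le_pow_left₀ (norm_nonneg _) (h1 t n) 2)
  have he : Continuous fun t : ℝ => ee (x + t * Complex.I) := continuous_ee.comp (by fun_prop)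
  have hG : ContinuousAt (fun t : ℝ => (2 * Real.pi * Complex.I) ^ 2 *
      (ee (x + t * Complex.I) / (1 - ee (x + t * Complex.I)) ^ 2)) 0 := by
    refine continuousAt_const.mul (he.continuousAt.div
      ((continuous_const.sub he).pow 2).continuousAt (pow_ne_zero _ ?_))
    simpa [sub_eq_zero] using hx.symm
  have h3 := tendsto_nhds_unique_of_eventuallyEq (l := 𝓝[>] (0 : ℝ))
    (hF.continuousAt.tendsto.mono_left nhdsWithin_le_nhds) (hG.tendsto.mono_left nhdsWithin_le_nhds)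
    (by
      filter_upwards [self_mem_nhdsWithin] with t ht
      exact WpQ_L_closed (by simpa using ht))
  simpa using h3

theorem WpQ_double {q : ℂ} (hq : ‖q‖ < 1) (w : ℕ → ℂ) (hw : ∀ a, ‖w a‖ ≤ 1) :
    Summable fun d : ℕ+ => ∑' a : ℕ+, ((a : ℕ) : ℂ) * w a * q ^ ((a : ℕ) * d) := by
  have h0 : Summable fun c : ℕ+ × ℕ+ => ((c.2 : ℕ) : ℝ) ^ 1 * ‖q‖ ^ (c.1 * c.2 : ℕ) :=
    summable_prod_mul_pow 1 (by simpa using hq)
  have h1 : Summable fun c : ℕ+ × ℕ+ => ((c.2 : ℕ) : ℂ) * w c.2 * q ^ ((c.2 : ℕ) * c.1) := by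
    refine Summable.of_norm_bounded h0 fun c => ?_
    rw [norm_mul, norm_mul, norm_pow, mul_comm (c.2 : ℕ), pow_one, Complex.norm_natCast]
    exact mul_le_mul_of_nonneg_right (mul_le_of_le_one_right (Nat.cast_nonneg _) (hw _))
      (by positivity)
  exact h1.prod

namespace Par

variable (P : Par)

/-- The row sums at the points of order dividing `p`. -/
def WpQ_R (β : ℤ) (τ : ℍ) (e : ℤ) : ℂ := WpQ_L ((e * τ + β) / P.p)

theorem WpQ_R_neg (β : ℤ) (τ : ℍ) (e : ℤ) : P.WpQ_R β τ (-e) = P.WpQ_R (-β) τ e := by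
  rw [WpQ_R, WpQ_R, ← WpQ_L_neg]
  congr 1
  push_cast
  ring

theorem WpQ_R_pos (β : ℤ) (τ : ℍ) (e : ℕ+) : P.WpQ_R β τ ((e : ℕ) : ℤ) =
    (2 * Real.pi * Complex.I) ^ 2 *
      ∑' a : ℕ+, ((a : ℕ) : ℂ) * P.zp ((a : ℕ) * β) * P.sv τ ^ ((a : ℕ) * e) := by
  have hz : 0 < (((((e : ℕ) : ℤ) : ℂ) * τ + β) / P.p).im := by
    rw [Complex.div_natCast_im]
    refine div_pos ?_ P.p_pos
    simpa using τ.im_pos
  rw [WpQ_R, WpQ_L_pos hz]
  congr 1
  refine tsum_congr fun a => ?_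
  rw [zp_nat_mul, zp_int, mul_assoc, mul_comm (a : ℕ), pow_mul, ← mul_pow, sv,
    ← ee_nat_mul (e : ℕ), ← ee_add]
  congr 3
  push_cast
  ring

theorem WpQ_R_summable (β : ℤ) (τ : ℍ) : Summable (P.WpQ_R β τ) := by
  have h : ∀ β : ℤ, Summable fun n : ℕ => P.WpQ_R β τ n := fun β => by
    rw [← summable_pnat_iff_summable_nat]
    simp only [WpQ_R_pos]
    exact (WpQ_double (P.norm_sv_lt_one τ) (fun a => P.zp (a * β))
      fun a => (P.norm_zp _).le).mul_left _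
  refine Summable.of_nat_of_neg (h β) ?_
  simp only [WpQ_R_neg]
  exact h (-β)

theorem WpQ_half (r : P.F) (β : ℤ) (τ : ℍ) :
    HasSum (fun k : ℕ => (∑ x ∈ k.divisorsAntidiagonal,
      (x.1 : ℂ) * if (x.2 : P.F) = r then P.zp (x.1 * β) else 0) * P.sv τ ^ k)
      ((∑' e : ℕ+, if ((e : ℕ) : P.F) = r then P.WpQ_R β τ ((e : ℕ) : ℤ) else 0) /
        (2 * Real.pi * Complex.I) ^ 2) := by
  have h := EisA_div (P.norm_sv_lt_one τ)
    (fun a d => (a : ℂ) * if (d : P.F) = r then P.zp (a * β) else 0) fun a d => by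
      rw [norm_mul, Complex.norm_natCast]
      have h1 : (a : ℝ) ≤ a ^ 3 := by exact_mod_cast Nat.le_self_pow (by norm_num) a
      refine le_trans (mul_le_of_le_one_right (Nat.cast_nonneg _) ?_) h1
      split_ifs
      · exact (P.norm_zp _).le
      · simp
  have hc : (2 * Real.pi * Complex.I : ℂ) ^ 2 ≠ 0 := pow_ne_zero _ Complex.two_pi_I_ne_zero
  rw [← tsum_div_const]
  refine (congrArg (HasSum _) (tsum_congr fun e => ?_)).mp h
  split_ifs
  · rw [WpQ_R_pos, mul_div_cancel_left₀ _ hc]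
  · simp

theorem WpQ_full (r β : ℤ) (τ : ℍ) :
    HasSum (fun k : ℕ => (∑ x ∈ k.divisorsAntidiagonal, (x.1 : ℂ) *
      ((if (x.2 : P.F) = r then P.zp (x.1 * β) else 0) +
        if (x.2 : P.F) = -r then P.zp (-(x.1 * β)) else 0)) * P.sv τ ^ k)
      ((∑' m : ℤ, P.WpQ_R β τ (r - m * P.p) - if (r : P.F) = 0 then P.WpQ_R β τ 0 else 0) /
        (2 * Real.pi * Complex.I) ^ 2) := by
  have hs : Summable fun e : ℤ => if (e : P.F) = (r : P.F) then P.WpQ_R β τ e else 0 := by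
    refine Summable.of_norm_bounded (P.WpQ_R_summable β τ).norm fun e => ?_
    split_ifs
    · exact le_rfl
    · simp
  rw [← EisA_class P.p (P.WpQ_R β τ) r, tsum_int_eq_zero_add_tsum_pnat hs]
  have h := (P.WpQ_half r β τ).add (P.WpQ_half (-r) (-β) τ)
  have e : ∀ n : ℕ+, (if ((-((n : ℕ) : ℤ) : ℤ) : P.F) = r then P.WpQ_R β τ (-((n : ℕ) : ℤ)) else 0) =
      if ((n : ℕ) : P.F) = -r then P.WpQ_R (-β) τ ((n : ℕ) : ℤ) else 0 := fun n => by
    rw [WpQ_R_neg]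
    simp only [Int.cast_neg, Int.cast_natCast, neg_eq_iff_eq_neg]
  simp only [e, Int.cast_zero, Int.cast_natCast, @eq_comm _ (0 : P.F)]
  rw [← add_div] at h
  rw [add_assoc, add_sub_cancel_left]
  refine h.congr_fun fun k => ?_
  rw [← add_mul, ← Finset.sum_add_distrib]
  simp only [mul_add, Int.cast_neg, mul_neg]

theorem WpQ_wp {v : Fin 2 → P.F} (hv : v ≠ 0) (τ : ℍ) : P.wp v τ =
    ∑' m : ℤ, P.WpQ_R (v 1).val τ ((v 0).val - m * P.p) - ∑' m : ℤ, P.WpQ_R 0 τ (0 - m * P.p) := by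
  have hp := P.p_ne
  have hab : (v 0).val ≠ 0 ∨ (v 1).val ≠ 0 := by
    by_contra h
    push Not at h
    refine hv (funext fun i => ?_)
    fin_cases i
    · exact (ZMod.val_eq_zero _).1 h.1
    · exact (ZMod.val_eq_zero _).1 h.2
  have hs : Summable fun x => hvmT P.p (v 0).val (v 1).val x τ :=
    Summable.of_norm_bounded (hvm_hasSum _ _).summable (hvm_term (ZMod.val_lt _) (ZMod.val_lt _)
      hab τ _ _ (EisensteinSeries.r_pos τ) le_rfl le_rfl)
  have hinj : ∀ r : ℤ, Function.Injective fun m : ℤ => r - m * P.p := fun r a b h => by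
    have h0 : (P.p : ℤ) ≠ 0 := by exact_mod_cast P.prime.ne_zero
    have h1 : a * P.p = b * P.p := by simpa using h
    exact mul_right_cancel₀ h0 h1
  have h1 : ∀ r β : ℤ, Summable fun m : ℤ => P.WpQ_R β τ (r - m * P.p) := fun r β =>
    (P.WpQ_R_summable β τ).comp_injective (hinj r)
  have h2 := (finTwoArrowEquiv ℤ).symm.summable_iff.2 hs
  rw [wp, zv, hvm_wp_eq, ← (finTwoArrowEquiv ℤ).symm.tsum_eq, ← (h1 _ _).tsum_sub (h1 _ _)]
  refine h2.tsum_prod.trans (tsum_congr fun m => ?_)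
  rw [WpQ_R, WpQ_R, ← WpQ_L_neg, ← WpQ_L_neg (_ / _ : ℂ), WpQ_L, WpQ_L,
    ← (WpQ_summable _).tsum_sub (WpQ_summable _)]
  refine tsum_congr fun n => ?_
  simp only [Function.comp, hvmT, finTwoArrowEquiv_symm_apply, Matrix.cons_val_zero,
    Matrix.cons_val_one, one_div]
  congr 2
  · push_cast
    field_simp
    ring
  · push_cast
    field_simp
    ring

theorem WpQ_val (x : P.F) : (((x.val : ℕ) : ℤ) : P.F) = x := by simp

end Par

theorem Par.wn_hasSum (P : Par) {v : Fin 2 → P.F} (hv : v ≠ 0) (τ : ℍ) :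
    HasSum (fun k => P.wc v k * P.sv τ ^ k) (P.wn v τ) := by
  have hc : (2 * Real.pi * Complex.I : ℂ) ^ 2 ≠ 0 := pow_ne_zero _ Complex.two_pi_I_ne_zero
  have h := (hasSum_ite_eq (0 : ℕ) (P.wc v 0)).add
    ((P.WpQ_full (v 0).val (v 1).val τ).sub (P.WpQ_full 0 0 τ))
  simp only [P.WpQ_val, Int.cast_zero, if_true, mul_zero, neg_zero, P.zp_zero] at h
  have h0 : P.WpQ_R 0 τ 0 = -(2 * Real.pi * Complex.I) ^ 2 / 12 := by
    simp [Par.WpQ_R, WpQ_L_zero]
  have h1 : (if v 0 = 0 then P.WpQ_R (v 1).val τ 0 else 0) = (2 * Real.pi * Complex.I) ^ 2 *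
      if v 0 = 0 then P.zp (v 1) / (1 - P.zp (v 1)) ^ 2 else 0 := by
    split_ifs with h2
    · have e : ee ((((v 1).val : ℝ) / P.p : ℝ) : ℂ) = P.zp (v 1) := by
        have := P.zp_int (v 1).val
        rw [P.WpQ_val] at this
        rw [this]
        push_cast
        rfl
      have h3 : P.zp (v 1) ≠ 1 := fun h4 => hv (funext fun i => by
        fin_cases i
        · exact h2
        · exact P.zp_injective (h4.trans P.zp_zero.symm))
      rw [← e, ← WpQ_L_real (by rwa [e]), Par.WpQ_R]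
      congr 1
      push_cast
      ring
    · rw [mul_zero]
  have h2 : P.wn v τ = P.wc v 0 + ((∑' m : ℤ, P.WpQ_R (v 1).val τ ((v 0).val - m * P.p) -
      if v 0 = 0 then P.WpQ_R (v 1).val τ 0 else 0) / (2 * Real.pi * Complex.I) ^ 2 -
      (∑' m : ℤ, P.WpQ_R 0 τ (0 - m * P.p) - P.WpQ_R 0 τ 0) / (2 * Real.pi * Complex.I) ^ 2) := by
    rw [Par.wn, P.WpQ_wp hv, h0, h1, Par.wc, if_pos rfl]
    field_simp
    ring
  rw [h2]
  refine h.congr_fun fun k => ?_
  by_cases hk : k = 0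
  · simp [hk]
  · rw [if_neg hk, zero_add, Par.wc, if_neg hk, ← sub_mul, ← Finset.sum_sub_distrib]
    congr 1
    refine Finset.sum_congr rfl fun x _ => ?_
    split_ifs <;> ring

end

end Pool.Agent.P.MP_a60a76_nt.Sz
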